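import Pool.Agent.H16.BL3

/-!
Bilinear forms with weights `1/d`, Type I sums at level one half, Vaughan's identity.
-/

set_option autoImplicit false

open Complex Finset Filter Topology MeasureTheory
open scoped ComplexConjugate
open ArithmeticFunction (vonMangoldt moebius)
open DirichletCharacter

namespace Pool.Agent.H16

lemma Icc_one_eq_Ioc (N : ℕ) : Finset.Icc 1 N = Ioc 0 N := by
  ext k; simp only [Finset.mem_Ioc, Finset.mem_Icc]; omega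

/-- weighted sum over moduli of bilinear forms -/
theorem bilin_large (C : ℝ) (hC : 0 < C) (hls : FamLS C) (W : ℕ) (hW : 1 ≤ W) (D : Finset ℕ)
    (D0 D1 : ℕ) (hD0 : 1 ≤ D0) (hD01 : D0 ≤ D1)
    (hD : ∀ d ∈ D, D0 < d ∧ d ≤ D1 ∧ Nat.Coprime d W) (f g : ArithmeticFunction ℂ)
    (K0 J : ℕ) (hK0 : 1 ≤ K0) (ℓ : ℝ) (hℓ : 1 < ℓ) (x0 : ℝ) (N : ℕ)
    (hN : Real.exp 1 * x0 ≤ N) (hx : x0 ^ (1 + 1 / ℓ) ≤ Real.exp ℓ)
    (F G : ℝ) (hF : 0 ≤ F) (hG : 0 ≤ G)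
    (hfs : ∀ n, n ∉ Ioc K0 (2 ^ J * K0) → f n = 0)
    (hf : ∀ K, 1 ≤ K → K ≤ 2 ^ J * K0 → ∑ n ∈ Ioc K (2 * K), ‖f n‖ ^ 2 ≤ K * F)
    (hg : ∀ n ≤ N, ‖g n‖ ^ 2 ≤ G)
    (hKx : 12 * ((2 ^ J * K0 : ℕ) : ℝ) ≤ x0) :
    ∑ d ∈ D, 1 / (d : ℝ) * ∑ ξ ∈ fam W d, ‖∑ n ∈ Finset.Icc 1 N, (ξ (n : ℕ) * (f * g) n) *
      ((tent x0 n : ℝ) : ℂ)‖ ≤ J * (Real.exp ℓ * (50 * C * (1 + F * G))) *
        (1 / D0 + W * (1 / √(K0 : ℝ) + √(((2 ^ J * K0 : ℕ) : ℝ) / x0)) * (1 + Real.log D1) +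
          2 * ((W : ℝ) ^ 2 / √x0) * D1) := by
  classical
  have hx0 : 0 < x0 := by
    have h1 : 1 ≤ 2 ^ J * K0 := Nat.mul_pos (by positivity) hK0
    have h2 : (1 : ℝ) ≤ ((2 ^ J * K0 : ℕ) : ℝ) := by exact_mod_cast h1
    linarith
  set T : ℕ → ℝ := fun d => ∑ ξ ∈ fam W d, ‖∑ n ∈ Finset.Icc 1 N, (ξ (n : ℕ) * (f * g) n) *
      ((tent x0 n : ℝ) : ℂ)‖ with hT
  have hT0 : ∀ d, 0 ≤ T d := fun d => Finset.sum_nonneg (fun _ _ => norm_nonneg _)
  set S : ℕ → ℝ := fun d => if d ∈ D then T d else 0 with hS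
  set E : ℝ := J * (Real.exp ℓ * (50 * C * (1 + F * G))) with hE
  have hE0 : 0 ≤ E := by positivity
  have e1 : ∑ d ∈ D, 1 / (d : ℝ) * T d = ∑ d ∈ Ioc D0 D1, S d / d := by
    have hsub : D ⊆ Ioc D0 D1 := by
      intro d hd
      obtain ⟨h1, h2, _⟩ := hD d hd
      exact Finset.mem_Ioc.mpr ⟨h1, h2⟩
    rw [← Finset.sum_subset hsub]
    · apply Finset.sum_congr rfl
      intro d hd
      simp only [hS]
      rw [if_pos hd]; ring
    · intro d _ hd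
      simp only [hS]
      rw [if_neg hd, zero_div]
  rw [e1]
  have hP : ∀ m, D0 < m → m ≤ D1 → ∑ d ∈ Ioc D0 m, S d ≤ E +
      (E * (W * (1 / √(K0 : ℝ) + √(((2 ^ J * K0 : ℕ) : ℝ) / x0)))) * m +
      (E * ((W : ℝ) ^ 2 / √x0)) * (m : ℝ) ^ 2 := by
    intro m _ _
    have e2 : ∑ d ∈ Ioc D0 m, S d = ∑ d ∈ D.filter (fun d => d ≤ m), T d := by
      simp only [hS]
      rw [← Finset.sum_filter]
      apply Finset.sum_congr _ (fun _ _ => rfl)
      ext d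
      rw [Finset.mem_filter, Finset.mem_filter, Finset.mem_Ioc]
      constructor
      · rintro ⟨h1, h2⟩; exact ⟨h2, h1.2⟩
      · rintro ⟨h1, h2⟩; exact ⟨⟨(hD d h1).1, h2⟩, h1⟩
    rw [e2]
    have h1 := bl_sum C hC hls W (W * m) (D.filter (fun d => d ≤ m)) (by
      intro d hd
      rw [Finset.mem_filter] at hd
      obtain ⟨k1, k2, k3⟩ := hD d hd.1
      exact ⟨Nat.mul_pos hW (by omega), Nat.mul_le_mul_left W hd.2, k3⟩) f g K0 J hK0 ℓ hℓ x0 N hN hx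
      F G hF hG hfs hf hg hKx
    refine h1.trans (le_of_eq ?_)
    rw [hE]
    push_cast
    ring
  have h2 := abel_inv S D0 D1 hD0 hD01 E (E * (W * (1 / √(K0 : ℝ) + √(((2 ^ J * K0 : ℕ) : ℝ) / x0))))
    (E * ((W : ℝ) ^ 2 / √x0)) hE0 (by positivity) (by positivity) hP
  refine h2.trans (le_of_eq ?_)
  ring

/-- Type I sums, all moduli up to `D1` -/
theorem typeI_large (W : ℕ) (hW : 1 ≤ W) (D : Finset ℕ) (D1 : ℕ)
    (hD : ∀ d ∈ D, 1 ≤ d ∧ d ≤ D1) (g f : ArithmeticFunction ℂ) (K c : ℝ) (hK : 0 ≤ K) (hc : 0 ≤ c)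
    (N : ℕ) (hN : 1 ≤ N) (hg : ∑ n ∈ Ioc 0 N, ‖g n‖ ≤ K)
    (hf : ∀ (q : ℕ) [NeZero q] (ξ : DirichletCharacter ℂ q), ξ ≠ 1 → ∀ n ≤ N,
      ‖∑ k ∈ Ioc 0 n, twc ξ f k‖ ≤ q * c) (x0 : ℝ) (hx0 : 0 < x0) :
    ∑ d ∈ D, 1 / (d : ℝ) * ∑ ξ ∈ fam W d, ‖∑ n ∈ Finset.Icc 1 N, (ξ (n : ℕ) * (g * f) n) *
      ((tent x0 n : ℝ) : ℂ)‖ ≤ (W : ℝ) ^ 2 * (D1 : ℝ) ^ 2 * (K * (c * (1 + Real.log N))) := by
  have hlog : 0 ≤ Real.log (N : ℝ) := Real.log_natCast_nonneg _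
  have hpt : ∀ d ∈ D, 1 / (d : ℝ) * ∑ ξ ∈ fam W d, ‖∑ n ∈ Finset.Icc 1 N, (ξ (n : ℕ) * (g * f) n) *
      ((tent x0 n : ℝ) : ℂ)‖ ≤ (W : ℝ) ^ 2 * D1 * (K * (c * (1 + Real.log N))) := by
    intro d hd
    obtain ⟨h1, h2⟩ := hD d hd
    have hd0 : (0 : ℝ) < d := by exact_mod_cast h1
    have hWd : 0 < W * d := Nat.mul_pos hW h1
    have : NeZero (W * d) := ⟨by omega⟩
    have h3 : ∀ ξ ∈ fam W d, ‖∑ n ∈ Finset.Icc 1 N, (ξ (n : ℕ) * (g * f) n) *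
      ((tent x0 n : ℝ) : ℂ)‖ ≤ K * (((W * d : ℕ) * c) * (1 + Real.log N)) := by
      intro ξ hξ
      have hξ1 := ((mem_fam W d ξ).mp hξ).1
      have h4 := typeI_one (twc ξ g) (twc ξ f) K (((W * d : ℕ) : ℝ) * c) (by positivity) N
        (by
          refine (Finset.sum_le_sum fun n _ => ?_).trans hg
          rw [twc_apply, norm_mul]
          exact mul_le_of_le_one_left (norm_nonneg _) (DirichletCharacter.norm_le_one _ _))
        (fun n hn => hf (W * d) ξ hξ1 n hn) x0 hx0 hN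
      rw [Icc_one_eq_Ioc]
      refine le_trans (le_of_eq ?_) h4
      congr 1
      apply Finset.sum_congr rfl
      intro n _
      rw [← twc_mul, twc_apply]
    calc 1 / (d : ℝ) * ∑ ξ ∈ fam W d, ‖∑ n ∈ Finset.Icc 1 N, (ξ (n : ℕ) * (g * f) n) *
      ((tent x0 n : ℝ) : ℂ)‖ ≤ 1 / (d : ℝ) * ∑ ξ ∈ fam W d, K * (((W * d : ℕ) * c) * (1 + Real.log N)) := by
          apply mul_le_mul_of_nonneg_left (Finset.sum_le_sum h3) (by positivity)
      _ = 1 / (d : ℝ) * ((#(fam W d) : ℝ) * (K * (((W * d : ℕ) * c) * (1 + Real.log N)))) := by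
          rw [Finset.sum_const, nsmul_eq_mul]
      _ ≤ 1 / (d : ℝ) * (((W * d : ℕ) : ℝ) * (K * (((W * d : ℕ) * c) * (1 + Real.log N)))) := by
          apply mul_le_mul_of_nonneg_left _ (by positivity)
          apply mul_le_mul_of_nonneg_right _ (by positivity)
          exact_mod_cast card_fam_le W d hWd
      _ = (W : ℝ) ^ 2 * d * (K * (c * (1 + Real.log N))) := by
          push_cast; field_simp
      _ ≤ (W : ℝ) ^ 2 * D1 * (K * (c * (1 + Real.log N))) := by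
          apply mul_le_mul_of_nonneg_right _ (by positivity)
          apply mul_le_mul_of_nonneg_left _ (by positivity)
          exact_mod_cast h2
  refine (Finset.sum_le_sum hpt).trans ?_
  rw [Finset.sum_const, nsmul_eq_mul]
  have hcard : (#D : ℝ) ≤ D1 := by
    have h4 : D ⊆ Finset.Icc 1 D1 := by
      intro d hd
      exact Finset.mem_Icc.mpr (hD d hd)
    have h5 := Finset.card_le_card h4
    rw [Nat.card_Icc, Nat.add_sub_cancel] at h5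
    exact_mod_cast h5
  calc (#D : ℝ) * ((W : ℝ) ^ 2 * D1 * (K * (c * (1 + Real.log N)))) ≤
      D1 * ((W : ℝ) ^ 2 * D1 * (K * (c * (1 + Real.log N)))) :=
        mul_le_mul_of_nonneg_right hcard (by positivity)
    _ = _ := by ring

/-- sharp cut-off weight -/
noncomputable def vcut (V n : ℕ) : ℝ := if n ≤ V then 1 else 0

lemma vcut_nonneg (V n : ℕ) : 0 ≤ vcut V n := by unfold vcut; split_ifs <;> norm_num
lemma vcut_le_one (V n : ℕ) : vcut V n ≤ 1 := by unfold vcut; split_ifs <;> norm_num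
lemma vcut_eq_one (V n : ℕ) (h : n ≤ V) : vcut V n = 1 := by unfold vcut; rw [if_pos h]
lemma vcut_eq_zero (V n : ℕ) (h : V < n) : vcut V n = 0 := by unfold vcut; rw [if_neg (by omega)]

/-- `Λ` restricted to `n ≤ U` -/
noncomputable def LamLo (U : ℕ) : ArithmeticFunction ℂ := ⟨fun n => if n ≤ U then LamC n else 0, by simp⟩

/-- `Λ` restricted to `n > U` -/
noncomputable def LamHi (U : ℕ) : ArithmeticFunction ℂ := ⟨fun n => if n ≤ U then 0 else LamC n, by simp⟩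

lemma LamLo_apply (U n : ℕ) : LamLo U n = if n ≤ U then LamC n else 0 := rfl
lemma LamHi_apply (U n : ℕ) : LamHi U n = if n ≤ U then 0 else LamC n := rfl

lemma Lam_split (U : ℕ) : LamC = LamLo U + LamHi U := by
  ext n
  rw [ArithmeticFunction.add_apply, LamLo_apply, LamHi_apply]
  split_ifs <;> simp

/-- Vaughan's identity -/
theorem vaughan (U V : ℕ) : LamC = mvf (vcut V) * logC + LamLo U -
    LamLo U * mvf (vcut V) * zC + rf (vcut V) * LamHi U := by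
  have h1 : rf (vcut V) = 1 - zC * mvf (vcut V) := rfl
  have h2 := LamC_mul_zC
  have h3 := Lam_split U
  have h4 : rf (vcut V) * LamHi U = LamC - LamLo U - (mvf (vcut V) * (LamC * zC)) +
      LamLo U * mvf (vcut V) * zC := by
    have h5 : LamHi U = LamC - LamLo U := by rw [eq_sub_iff_add_eq, add_comm]; exact h3.symm
    rw [h1, h5]
    ring
  rw [h4, h2]
  ring

end Pool.Agent.H16
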