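import Mathlib

/-!
Mertens-type estimates with explicit constants.
-/

set_option autoImplicit false

open Finset Real

namespace Pool.Agent.H16

/-- `A n = ∑_{p ≤ n} log p / p`. -/
noncomputable def mA (n : ℕ) : ℝ := ∑ p ∈ Nat.primesLE n, Real.log p / p

lemma log_factorial_eq (n : ℕ) :
    Real.log (n.factorial : ℝ) = ∑ p ∈ Nat.primesLE n, (n.factorial.factorization p : ℝ) * Real.log p := by
  rw [Real.log_nat_eq_sum_factorization, Finsupp.sum]
  apply Finset.sum_subset
  · intro p hp
    rw [Nat.support_factorization, Nat.mem_primeFactors] at hp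
    rw [Nat.mem_primesLE]
    exact ⟨(hp.1.dvd_factorial).mp hp.2.1, hp.1⟩
  · intro p _ hp
    rw [Finsupp.notMem_support_iff] at hp
    rw [hp]
    simp

lemma log_factorial_ge (n : ℕ) : (n : ℝ) * Real.log n - n ≤ Real.log (n.factorial : ℝ) := by
  rcases Nat.eq_zero_or_pos n with rfl | hn
  · simp
  have hn' : (0 : ℝ) < n := by exact_mod_cast hn
  have h := Real.pow_div_factorial_le_exp (x := (n : ℝ)) hn'.le n
  have hf : (0 : ℝ) < (n.factorial : ℝ) := by positivity
  have h2 : (n : ℝ) ^ n ≤ Real.exp n * n.factorial := by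
    rwa [div_le_iff₀ hf] at h
  have h3 := Real.log_le_log (by positivity) h2
  rw [Real.log_mul (Real.exp_ne_zero _) hf.ne', Real.log_exp, Real.log_pow] at h3
  linarith

lemma log_factorial_le (n : ℕ) : Real.log (n.factorial : ℝ) ≤ (n : ℝ) * Real.log n := by
  have hf : (0 : ℝ) < (n.factorial : ℝ) := by positivity
  have h : (n.factorial : ℝ) ≤ (n : ℝ) ^ n := by exact_mod_cast Nat.factorial_le_pow n
  have h3 := Real.log_le_log hf h
  rwa [Real.log_pow] at h3

lemma mA_le (n : ℕ) (hn : 1 ≤ n) : mA n ≤ Real.log n + Real.log 4 := by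
  have hn' : (0 : ℝ) < n := by exact_mod_cast hn
  have h1 : (n : ℝ) * mA n ≤ n * (Real.log n + Real.log 4) := by
    calc (n : ℝ) * mA n = ∑ p ∈ Nat.primesLE n, (n : ℝ) * (Real.log p / p) := by
          unfold mA; rw [Finset.mul_sum]
      _ ≤ ∑ p ∈ Nat.primesLE n, ((n.factorial.factorization p : ℝ) * Real.log p + Real.log p) := by
          apply Finset.sum_le_sum
          intro p hp
          obtain ⟨hpn, hpp⟩ := Nat.mem_primesLE.mp hp
          have hp0 : (0 : ℝ) < p := by exact_mod_cast hpp.pos
          have hlog : 0 ≤ Real.log p := Real.log_natCast_nonneg p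
          have hge : n / p ≤ n.factorial.factorization p := by
            rw [Nat.factorization_factorial hpp (Nat.lt_succ_self _)]
            have hmem : 1 ∈ Finset.Ico 1 (Nat.log p n + 1) := by
              rw [Finset.mem_Ico]
              refine ⟨le_refl 1, ?_⟩
              have : 1 ≤ Nat.log p n := Nat.log_pos hpp.one_lt hpn
              omega
            calc n / p = n / p ^ 1 := by rw [pow_one]
              _ ≤ _ := Finset.single_le_sum (f := fun i => n / p ^ i) (fun i _ => Nat.zero_le _) hmem
          have hdiv : (n : ℝ) / p ≤ (n.factorial.factorization p : ℝ) + 1 := by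
            have h5 : (n : ℝ) / p < ((n / p : ℕ) : ℝ) + 1 := by
              rw [div_lt_iff₀ hp0]
              have := Nat.lt_div_mul_add (a := n) hpp.pos
              have h6 : (n : ℝ) < ((n / p : ℕ) : ℝ) * p + p := by exact_mod_cast this
              linarith
            have h7 : ((n / p : ℕ) : ℝ) ≤ (n.factorial.factorization p : ℝ) := by exact_mod_cast hge
            linarith
          calc (n : ℝ) * (Real.log p / p) = ((n : ℝ) / p) * Real.log p := by ring
            _ ≤ ((n.factorial.factorization p : ℝ) + 1) * Real.log p :=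
                mul_le_mul_of_nonneg_right hdiv hlog
            _ = _ := by ring
      _ = Real.log (n.factorial : ℝ) + Chebyshev.theta n := by
          rw [Finset.sum_add_distrib, ← log_factorial_eq, Chebyshev.theta_eq_sum_primesLE_log]
      _ ≤ n * Real.log n + Real.log 4 * n := by
          have := Chebyshev.theta_le_log4_mul_x (x := (n : ℝ)) hn'.le
          linarith [log_factorial_le n]
      _ = n * (Real.log n + Real.log 4) := by ring
  exact le_of_mul_le_mul_left h1 hn'

lemma telescoping_bound (n : ℕ) (hn : 1 ≤ n) :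
    ∑ k ∈ Finset.Ioc 1 n, Real.log k / ((k : ℝ) * (k - 1)) ≤ 2 - (Real.log n + 2) / n := by
  induction n, hn using Nat.le_induction with
  | base => simp
  | succ n hn ih =>
    have hIoc : Finset.Ioc 1 (n + 1) = insert (n + 1) (Finset.Ioc 1 n) := by
      ext x; simp only [Finset.mem_Ioc, Finset.mem_insert]; omega
    rw [hIoc, Finset.sum_insert (by simp)]
    have hn0 : (0 : ℝ) < n := by exact_mod_cast hn
    have hn1 : (0 : ℝ) < (n : ℝ) + 1 := by linarith
    -- need: log(n+1)/((n+1) n) ≤ (log n + 2)/n - (log(n+1)+2)/(n+1)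
    have hkey : Real.log (n + 1) - Real.log n ≤ 1 / n := by
      have h := Real.log_le_sub_one_of_pos (x := ((n : ℝ) + 1) / n) (by positivity)
      rw [Real.log_div hn1.ne' hn0.ne'] at h
      have : ((n : ℝ) + 1) / n - 1 = 1 / n := by field_simp; ring
      linarith
    have hstep : Real.log (n + 1) / (((n : ℝ) + 1) * n) ≤
        (Real.log n + 2) / n - (Real.log (n + 1) + 2) / (n + 1) := by
      rw [div_sub_div _ _ hn0.ne' hn1.ne', div_le_div_iff₀ (by positivity) (by positivity)]
      have h1 : ((n : ℝ) + 1) * (Real.log (n + 1) - Real.log n) ≤ 2 := by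
        calc ((n : ℝ) + 1) * (Real.log (n + 1) - Real.log n) ≤ ((n : ℝ) + 1) * (1 / n) := by gcongr
          _ = 1 + 1 / n := by field_simp
          _ ≤ 2 := by
            have : (1 : ℝ) / n ≤ 1 := by
              rw [div_le_one hn0]; exact_mod_cast hn
            linarith
      have h2 : Real.log (n + 1) ≤ (Real.log n + 2) * (n + 1) - n * (Real.log (n + 1) + 2) := by
        nlinarith
      have h3 : (0 : ℝ) ≤ n * (n + 1) := by positivity
      calc Real.log (n + 1) * (↑n * (↑n + 1)) ≤
          ((Real.log n + 2) * (n + 1) - n * (Real.log (n + 1) + 2)) * (n * (n + 1)) :=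
            mul_le_mul_of_nonneg_right h2 h3
        _ = _ := by ring
    push_cast
    have : ((n : ℝ) + 1 - 1) = n := by ring
    rw [this]
    linarith

lemma mA_ge (n : ℕ) (hn : 1 ≤ n) : Real.log n - 3 ≤ mA n := by
  have hn' : (0 : ℝ) < n := by exact_mod_cast hn
  have h1 : (n : ℝ) * Real.log n - n ≤ n * ∑ p ∈ Nat.primesLE n, Real.log p / ((p : ℝ) - 1) := by
    calc (n : ℝ) * Real.log n - n ≤ Real.log (n.factorial : ℝ) := log_factorial_ge n
      _ = ∑ p ∈ Nat.primesLE n, (n.factorial.factorization p : ℝ) * Real.log p := log_factorial_eq n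
      _ ≤ ∑ p ∈ Nat.primesLE n, (n : ℝ) * (Real.log p / ((p : ℝ) - 1)) := by
          apply Finset.sum_le_sum
          intro p hp
          obtain ⟨hpn, hpp⟩ := Nat.mem_primesLE.mp hp
          have hp1 : (1 : ℝ) < p := by exact_mod_cast hpp.one_lt
          have hlog : 0 ≤ Real.log p := Real.log_natCast_nonneg p
          have h2 := Nat.factorization_factorial_le_div_pred hpp n
          have h3 : (n.factorial.factorization p : ℝ) ≤ (n : ℝ) / ((p : ℝ) - 1) := by
            calc (n.factorial.factorization p : ℝ) ≤ ((n / (p - 1) : ℕ) : ℝ) := by exact_mod_cast h2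
              _ ≤ (n : ℝ) / ((p - 1 : ℕ) : ℝ) := Nat.cast_div_le
              _ = (n : ℝ) / ((p : ℝ) - 1) := by
                  rw [Nat.cast_sub hpp.one_lt.le]; simp
          calc (n.factorial.factorization p : ℝ) * Real.log p
              ≤ ((n : ℝ) / ((p : ℝ) - 1)) * Real.log p := mul_le_mul_of_nonneg_right h3 hlog
            _ = _ := by ring
      _ = n * ∑ p ∈ Nat.primesLE n, Real.log p / ((p : ℝ) - 1) := by rw [Finset.mul_sum]
  have h2 : Real.log n - 1 ≤ ∑ p ∈ Nat.primesLE n, Real.log p / ((p : ℝ) - 1) := by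
    have : (n : ℝ) * (Real.log n - 1) ≤ n * ∑ p ∈ Nat.primesLE n, Real.log p / ((p : ℝ) - 1) := by
      linarith
    exact le_of_mul_le_mul_left this hn'
  have h3 : ∑ p ∈ Nat.primesLE n, Real.log p / ((p : ℝ) - 1) =
      mA n + ∑ p ∈ Nat.primesLE n, Real.log p / ((p : ℝ) * (p - 1)) := by
    unfold mA
    rw [← Finset.sum_add_distrib]
    apply Finset.sum_congr rfl
    intro p hp
    obtain ⟨hpn, hpp⟩ := Nat.mem_primesLE.mp hp
    have hp1 : (1 : ℝ) < p := by exact_mod_cast hpp.one_lt
    have hp0 : (p : ℝ) ≠ 0 := by linarith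
    have hp2 : (p : ℝ) - 1 ≠ 0 := by linarith
    field_simp
    ring
  have h4 : ∑ p ∈ Nat.primesLE n, Real.log p / ((p : ℝ) * (p - 1)) ≤ 2 := by
    calc ∑ p ∈ Nat.primesLE n, Real.log p / ((p : ℝ) * (p - 1))
        ≤ ∑ k ∈ Finset.Ioc 1 n, Real.log k / ((k : ℝ) * (k - 1)) := by
          apply Finset.sum_le_sum_of_subset_of_nonneg
          · intro p hp
            obtain ⟨hpn, hpp⟩ := Nat.mem_primesLE.mp hp
            rw [Finset.mem_Ioc]
            exact ⟨hpp.one_lt, hpn⟩
          · intro k hk _
            have hk1 : (1 : ℝ) < k := by exact_mod_cast (Finset.mem_Ioc.mp hk).1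
            have : 0 ≤ Real.log k := Real.log_natCast_nonneg k
            apply div_nonneg this
            nlinarith
      _ ≤ 2 - (Real.log n + 2) / n := telescoping_bound n hn
      _ ≤ 2 := by
          have : 0 ≤ (Real.log n + 2) / n := by
            have := Real.log_natCast_nonneg n
            positivity
          linarith
  linarith

lemma log_log_step (n : ℕ) (hn : 2 ≤ n) :
    1 - Real.log n / Real.log (n + 1) ≤ Real.log (Real.log (n + 1)) - Real.log (Real.log n) := by
  have hn' : (1 : ℝ) < n := by exact_mod_cast hn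
  have h1 : 0 < Real.log n := Real.log_pos hn'
  have h2 : 0 < Real.log ((n : ℝ) + 1) := Real.log_pos (by linarith)
  have h := Real.log_le_sub_one_of_pos (x := Real.log n / Real.log (n + 1)) (by positivity)
  rw [Real.log_div h1.ne' h2.ne'] at h
  linarith

/-- primes in `(m, n]` -/
def primesIoc (m n : ℕ) : Finset ℕ := {p ∈ Finset.Ioc m n | p.Prime}

lemma mem_primesIoc {m n p : ℕ} : p ∈ primesIoc m n ↔ m < p ∧ p ≤ n ∧ p.Prime := by
  simp [primesIoc, and_assoc]

lemma sum_inv_primes_aux (m n : ℕ) (hm : 2 ≤ m) (hmn : m ≤ n) :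
    ∑ p ∈ primesIoc m n, (1 : ℝ) / p - mA n / Real.log n ≤
      - mA m / Real.log m + (Real.log (Real.log n) - Real.log (Real.log m))
        + Real.log 4 * (1 / Real.log m - 1 / Real.log n) := by
  induction n, hmn using Nat.le_induction with
  | base =>
    have : primesIoc m m = ∅ := by
      ext x; simp only [mem_primesIoc, Finset.notMem_empty, iff_false]; omega
    rw [this]
    simp
    ring_nf
    rfl
  | succ n hn ih =>
    have hn2 : 2 ≤ n := hm.trans hn
    have hn' : (1 : ℝ) < n := by exact_mod_cast hn2
    have h1 : 0 < Real.log n := Real.log_pos hn'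
    have h2 : 0 < Real.log ((n : ℝ) + 1) := Real.log_pos (by linarith)
    have hlogmono : Real.log n ≤ Real.log ((n : ℝ) + 1) := Real.log_le_log (by linarith) (by linarith)
    have hstep := log_log_step n hn2
    have hA := mA_le n (by omega)
    have hdiff : 0 ≤ 1 / Real.log n - 1 / Real.log ((n : ℝ) + 1) := by
      have := one_div_le_one_div_of_le h1 hlogmono
      linarith
    -- T(n+1) - A(n+1)/log(n+1) = T(n) - A(n)/log(n+1)
    have hrec : ∑ p ∈ primesIoc m (n + 1), (1 : ℝ) / p - mA (n + 1) / Real.log ((n : ℝ) + 1)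
        = ∑ p ∈ primesIoc m n, (1 : ℝ) / p - mA n / Real.log ((n : ℝ) + 1) := by
      by_cases hp : (n + 1).Prime
      · have e1 : primesIoc m (n + 1) = insert (n + 1) (primesIoc m n) := by
          ext x; simp only [mem_primesIoc, Finset.mem_insert]
          constructor
          · rintro ⟨h1, h2, h3⟩
            rcases Nat.lt_or_ge x (n + 1) with h | h
            · right; exact ⟨h1, by omega, h3⟩
            · left; omega
          · rintro (rfl | ⟨h1, h2, h3⟩)
            · exact ⟨by omega, le_refl _, hp⟩
            · exact ⟨h1, by omega, h3⟩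
        have e2 : Nat.primesLE (n + 1) = insert (n + 1) (Nat.primesLE n) := by
          ext x; simp only [Nat.mem_primesLE, Finset.mem_insert]
          constructor
          · rintro ⟨h2, h3⟩
            rcases Nat.lt_or_ge x (n + 1) with h | h
            · right; exact ⟨by omega, h3⟩
            · left; omega
          · rintro (rfl | ⟨h2, h3⟩)
            · exact ⟨le_refl _, hp⟩
            · exact ⟨by omega, h3⟩
        unfold mA
        rw [e1, e2, Finset.sum_insert (by simp [mem_primesIoc]),
          Finset.sum_insert (by simp [Nat.mem_primesLE])]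
        push_cast
        have hnn : ((n : ℝ) + 1) ≠ 0 := by positivity
        field_simp
        ring
      · have e1 : primesIoc m (n + 1) = primesIoc m n := by
          ext x; simp only [mem_primesIoc]
          constructor
          · rintro ⟨h1, h2, h3⟩
            refine ⟨h1, ?_, h3⟩
            rcases Nat.lt_or_ge x (n + 1) with h | h
            · omega
            · have : x = n + 1 := by omega
              subst this; exact absurd h3 hp
          · rintro ⟨h1, h2, h3⟩
            exact ⟨h1, by omega, h3⟩
        have e2 : Nat.primesLE (n + 1) = Nat.primesLE n := by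
          ext x; simp only [Nat.mem_primesLE]
          constructor
          · rintro ⟨h2, h3⟩
            refine ⟨?_, h3⟩
            rcases Nat.lt_or_ge x (n + 1) with h | h
            · omega
            · have : x = n + 1 := by omega
              subst this; exact absurd h3 hp
          · rintro ⟨h2, h3⟩
            exact ⟨by omega, h3⟩
        unfold mA
        rw [e1, e2]
    push_cast
    rw [hrec]
    have h5 : mA n * (1 / Real.log n - 1 / Real.log ((n : ℝ) + 1)) ≤
        (Real.log n + Real.log 4) * (1 / Real.log n - 1 / Real.log ((n : ℝ) + 1)) :=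
      mul_le_mul_of_nonneg_right hA hdiff
    have h6 : Real.log n * (1 / Real.log n - 1 / Real.log ((n : ℝ) + 1))
        = 1 - Real.log n / Real.log ((n : ℝ) + 1) := by
      field_simp
    have h7 : mA n / Real.log n - mA n / Real.log ((n : ℝ) + 1)
        = mA n * (1 / Real.log n - 1 / Real.log ((n : ℝ) + 1)) := by ring
    nlinarith

/-- Mertens' second theorem, upper bound on short ranges. -/
theorem sum_inv_primes_le (m n : ℕ) (hm : 2 ≤ m) (hmn : m ≤ n) :
    ∑ p ∈ primesIoc m n, (1 : ℝ) / p ≤
      Real.log (Real.log n / Real.log m) + 5 / Real.log m := by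
  have h := sum_inv_primes_aux m n hm hmn
  have hm' : (1 : ℝ) < m := by exact_mod_cast hm
  have hn' : (1 : ℝ) < n := by exact_mod_cast (hm.trans hmn)
  have h1 : 0 < Real.log m := Real.log_pos hm'
  have h2 : 0 < Real.log n := Real.log_pos hn'
  have hA := mA_le n (by omega)
  have hB := mA_ge m (by omega)
  have h3 : mA n / Real.log n ≤ 1 + Real.log 4 / Real.log n := by
    rw [div_le_iff₀ h2, add_mul, div_mul_cancel₀ _ h2.ne']
    linarith
  have h4 : - mA m / Real.log m ≤ - 1 + 3 / Real.log m := by
    rw [div_le_iff₀ h1, add_mul, div_mul_cancel₀ _ h1.ne']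
    linarith
  have h5 : Real.log 4 ≤ 2 := by
    have : Real.log 4 = 2 * Real.log 2 := by
      rw [show (4 : ℝ) = 2 ^ 2 by norm_num, Real.log_pow]; norm_num
    have := Real.log_two_lt_d9
    linarith
  have h6 : Real.log 4 * (1 / Real.log m) ≤ 2 * (1 / Real.log m) := by
    apply mul_le_mul_of_nonneg_right h5; positivity
  rw [Real.log_div h2.ne' h1.ne']
  have e1 : Real.log 4 * (1 / Real.log m - 1 / Real.log n) =
      Real.log 4 * (1 / Real.log m) - Real.log 4 / Real.log n := by ring
  have e2 : 5 / Real.log m = 3 / Real.log m + 2 * (1 / Real.log m) := by ring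
  rw [e1] at h
  rw [e2]
  linarith

end Pool.Agent.H16
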