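import Mathlib
import Pool.Agent.H90.LBounds

/-!
The family of Dirichlet characters modulo `W d` whose conductor is divisible by `d`:
quasi-orthogonality and decomposition.
-/

set_option autoImplicit false

open Complex Finset
open scoped ComplexConjugate
open DirichletCharacter

namespace Pool.Agent.H16

open scoped Classical in
/-- nonprincipal characters mod `W d` whose conductor is divisible by `d` -/
noncomputable def fam (W d : ℕ) : Finset (DirichletCharacter ℂ (W * d)) :=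
  Finset.univ.filter (fun ξ => ξ ≠ 1 ∧ d ∣ ξ.conductor)

lemma mem_fam (W d : ℕ) (ξ : DirichletCharacter ℂ (W * d)) :
    ξ ∈ fam W d ↔ ξ ≠ 1 ∧ d ∣ ξ.conductor := by
  unfold fam; simp

lemma card_fam_le (W d : ℕ) (h : 0 < W * d) : #(fam W d) ≤ W * d := by
  have : NeZero (W * d) := ⟨by omega⟩
  calc #(fam W d) ≤ Fintype.card (DirichletCharacter ℂ (W * d)) := Finset.card_le_univ _
    _ = Nat.card (DirichletCharacter ℂ (W * d)) := by rw [Nat.card_eq_fintype_card]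
    _ = (W * d).totient := DirichletCharacter.card_eq_totient_of_hasEnoughRootsOfUnity ℂ (W * d)
    _ ≤ W * d := Nat.totient_le _

lemma changeLevel_natCast {n m : ℕ} (hm : n ∣ m) (χ : DirichletCharacter ℂ n) (a : ℕ)
    (ha : Nat.Coprime a m) : changeLevel hm χ (a : ZMod m) = χ (a : ZMod n) := by
  have h := changeLevel_eq_cast_of_dvd' χ hm (a := (a : ℤ)) (Nat.isCoprime_iff_coprime.mpr ha)
  simpa using h

lemma char_natCast_eq_zero {n : ℕ} (χ : DirichletCharacter ℂ n) (a : ℕ) (ha : ¬ Nat.Coprime a n) :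
    χ (a : ZMod n) = 0 :=
  χ.map_nonunit (fun h => ha ((ZMod.isUnit_iff_coprime _ _).mp h))

lemma norm_sum_Ioc_char {q : ℕ} [NeZero q] (χ : DirichletCharacter ℂ q) (hχ : χ ≠ 1) (n : ℕ) :
    ‖∑ k ∈ Ioc 0 n, χ (k : ZMod q)‖ ≤ 4 * q := by
  have h := Pool.Agent.H90.norm_sum_Icc_char χ hχ n
  have e : Ioc 0 n = Icc 1 n := by
    ext k; simp only [Finset.mem_Ioc, Finset.mem_Icc]; omega
  rw [e]
  have hq : (1 : ℝ) ≤ q := by exact_mod_cast Nat.pos_of_ne_zero (NeZero.ne q)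
  linarith

theorem quasi_orth (W d1 d2 : ℕ) (h1 : 0 < W * d1) (h2 : 0 < W * d2) (c1 : Nat.Coprime d1 W)
    (c2 : Nat.Coprime d2 W) (ξ1 : DirichletCharacter ℂ (W * d1)) (ξ2 : DirichletCharacter ℂ (W * d2))
    (m1 : ξ1 ∈ fam W d1) (m2 : ξ2 ∈ fam W d2)
    (hne : (⟨d1, ξ1⟩ : Σ d : ℕ, DirichletCharacter ℂ (W * d)) ≠ ⟨d2, ξ2⟩) (M N : ℕ) (hMN : M ≤ N) :
    ‖∑ n ∈ Ioc M N, ξ1 (n : ℕ) * conj (ξ2 (n : ℕ))‖ ≤ 8 * ((W * d1 : ℕ) * (W * d2 : ℕ)) := by
  set L := (W * d1) * (W * d2) with hL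
  have : NeZero L := ⟨by positivity⟩
  have hd1 : W * d1 ∣ L := Dvd.intro _ rfl
  have hd2 : W * d2 ∣ L := Dvd.intro_left _ rfl
  set χ : DirichletCharacter ℂ L := changeLevel hd1 ξ1 * (changeLevel hd2 ξ2)⁻¹ with hχ
  have hval : ∀ n : ℕ, ξ1 (n : ℕ) * conj (ξ2 (n : ℕ)) = χ (n : ℕ) := by
    intro n
    by_cases hn : Nat.Coprime n L
    · rw [hχ, MulChar.mul_apply, changeLevel_natCast hd1 ξ1 n hn]
      congr 1
      have h3 := MulChar.star_apply' (changeLevel hd2 ξ2) (n : ZMod L)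
      rw [← h3, changeLevel_natCast hd2 ξ2 n hn]
      rfl
    · rw [char_natCast_eq_zero χ n hn]
      rw [hL, Nat.coprime_mul_iff_right, not_and_or] at hn
      rcases hn with hn | hn
      · rw [char_natCast_eq_zero ξ1 n hn, zero_mul]
      · rw [char_natCast_eq_zero ξ2 n hn, map_zero, mul_zero]
  have hχ1 : χ ≠ 1 := by
    intro h
    have heq : changeLevel hd1 ξ1 = changeLevel hd2 ξ2 := by
      rw [hχ] at h
      exact mul_inv_eq_one.mp h
    have hcond : ξ1.conductor = ξ2.conductor := by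
      have e1 := conductor_changeLevel ξ1 hd1
      have e2 := conductor_changeLevel ξ2 hd2
      rw [← e1, ← e2, heq]
    have g1 := ((mem_fam W d1 ξ1).mp m1).2
    have g2 := ((mem_fam W d2 ξ2).mp m2).2
    have k1 : d1 ∣ d2 := by
      have : d1 ∣ W * d2 := g1.trans (hcond ▸ ξ2.conductor_dvd_level)
      exact c1.dvd_of_dvd_mul_left this
    have k2 : d2 ∣ d1 := by
      have : d2 ∣ W * d1 := g2.trans (hcond ▸ ξ1.conductor_dvd_level)
      exact c2.dvd_of_dvd_mul_left this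
    have k3 : d1 = d2 := Nat.dvd_antisymm k1 k2
    subst k3
    have : ξ1 = ξ2 := changeLevel_injective hd1 heq
    exact hne (by rw [this])
  have e : ∑ n ∈ Ioc M N, ξ1 (n : ℕ) * conj (ξ2 (n : ℕ)) =
      ∑ n ∈ Ioc 0 N, χ (n : ZMod L) - ∑ n ∈ Ioc 0 M, χ (n : ZMod L) := by
    rw [Finset.sum_congr rfl (fun n _ => hval n),
      ← Finset.Ioc_union_Ioc_eq_Ioc (Nat.zero_le M) hMN, Finset.sum_union]
    · ring
    · rw [Finset.disjoint_left]
      intro x hx hx'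
      rw [Finset.mem_Ioc] at hx hx'
      omega
  rw [e]
  have b1 := norm_sum_Ioc_char χ hχ1 N
  have b2 := norm_sum_Ioc_char χ hχ1 M
  have b3 : ((W * d1 : ℕ) : ℝ) * (W * d2 : ℕ) = (L : ℝ) := by rw [hL]; push_cast; ring
  rw [b3]
  calc _ ≤ ‖∑ n ∈ Ioc 0 N, χ (n : ZMod L)‖ + ‖∑ n ∈ Ioc 0 M, χ (n : ZMod L)‖ := norm_sub_le _ _
    _ ≤ 8 * (L : ℝ) := by linarith

open scoped Classical in
/-- every nonprincipal character mod `W d` comes from `fam W d'`, `d' ∣ d`. -/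
theorem sum_char_le_fam (W d : ℕ) (h : 0 < W * d) (c : Nat.Coprime d W)
    (S : Finset (DirichletCharacter ℂ (W * d))) (hS : ∀ ξ ∈ S, ξ ≠ 1)
    (F : DirichletCharacter ℂ (W * d) → ℝ) (F' : (d' : ℕ) → DirichletCharacter ℂ (W * d') → ℝ)
    (hF' : ∀ d' ∈ d.divisors, ∀ ξ, 0 ≤ F' d' ξ)
    (hFF : ∀ d' (hd' : W * d' ∣ W * d) (ξ : DirichletCharacter ℂ (W * d')),
      F (changeLevel hd' ξ) = F' d' ξ) :
    ∑ ξ ∈ S, F ξ ≤
      ∑ d' ∈ d.divisors, ∑ ξ ∈ fam W d', F' d' ξ := by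
  have : NeZero (W * d) := ⟨by omega⟩
  have hd0 : d ≠ 0 := by rintro rfl; simp at h
  have hW0 : W ≠ 0 := by rintro rfl; simp at h
  have key : ∀ ξ : DirichletCharacter ℂ (W * d), ξ ≠ 1 →
      ∃ i : Σ d' : ℕ, DirichletCharacter ℂ (W * d'), i ∈ (d.divisors).sigma (fun d' => fam W d') ∧
        ∃ hdiv : W * i.1 ∣ W * d, changeLevel hdiv i.2 = ξ := by
    intro ξ hξ
    set f := ξ.conductor with hf
    set d' := Nat.gcd f d with hd'
    have h1 : f ∣ W * d' := by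
      have h2 : f ∣ Nat.gcd (W * f) (W * d) :=
        Nat.dvd_gcd (Dvd.intro_left W rfl) (hf ▸ ξ.conductor_dvd_level)
      rwa [Nat.gcd_mul_left] at h2
    have h3 : d' ∣ d := Nat.gcd_dvd_right f d
    have h4 : W * d' ∣ W * d := Nat.mul_dvd_mul_left W h3
    have h5 : ξ.FactorsThrough (W * d') :=
      (mem_conductorSet_iff_conductor_dvd ξ h4).mpr (hf ▸ h1)
    obtain ⟨h6, ξ', h7⟩ := h5
    refine ⟨⟨d', ξ'⟩, ?_, h6, h7.symm⟩
    rw [Finset.mem_sigma]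
    refine ⟨Nat.mem_divisors.mpr ⟨h3, hd0⟩, ?_⟩
    rw [mem_fam]
    refine ⟨?_, ?_⟩
    · intro h0
      apply hξ
      rw [h7]
      change changeLevel h6 ξ' = 1
      have h0' : ξ' = 1 := h0
      rw [h0', changeLevel_one]
    · have h8 := conductor_changeLevel ξ' h6
      rw [← h7] at h8
      rw [← h8]
      exact Nat.gcd_dvd_left f d
  choose! φ hφ1 hφ2 using key
  have hinj : Set.InjOn φ (S : Set _) := by
    intro a ha b hb hab
    obtain ⟨h1, h2⟩ := hφ2 a (hS a ha)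
    obtain ⟨h3, h4⟩ := hφ2 b (hS b hb)
    rw [← h2, ← h4]
    revert h1 h3
    rw [hab]
    intro h1 h3 _ _
    rfl
  have e1 : ∑ ξ ∈ S, F ξ =
      ∑ ξ ∈ S, F' (φ ξ).1 (φ ξ).2 := by
    apply Finset.sum_congr rfl
    intro ξ hξ
    obtain ⟨h1, h2⟩ := hφ2 ξ (hS ξ hξ)
    rw [← hFF _ h1, h2]
  rw [e1]
  have e2 := Finset.sum_image (f := fun i : Σ d' : ℕ, DirichletCharacter ℂ (W * d') => F' i.1 i.2) hinj
  rw [← e2]
  rw [Finset.sum_sigma']
  apply Finset.sum_le_sum_of_subset_of_nonneg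
  · intro i hi
    rw [Finset.mem_image] at hi
    obtain ⟨ξ, hξ, rfl⟩ := hi
    exact hφ1 ξ (hS ξ hξ)
  · intro i hi _
    rw [Finset.mem_sigma] at hi
    exact hF' i.1 hi.1 i.2

end Pool.Agent.H16
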