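import Pool.Agent.H16.TypeI

/-!
Type I sums with the tent weight.
-/

set_option autoImplicit false

open Complex Finset Filter Topology
open scoped ComplexConjugate ArithmeticFunction.zeta ArithmeticFunction.Moebius
open ArithmeticFunction (vonMangoldt moebius)

namespace Pool.Agent.H16

/-- explicit shape of the tent function -/
lemma tent_eq (x0 y : ℝ) (hx0 : 0 < x0) (hy : 0 < y) :
    tent x0 y = max 0 (1 - |Real.log x0 - Real.log y|) := by
  unfold tent kfun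
  have he : (0 : ℝ) < Real.exp 1 := Real.exp_pos 1
  rw [Real.log_div hy.ne' (by positivity), Real.log_div hy.ne' hx0.ne',
    Real.log_div hy.ne' (by positivity), Real.log_mul he.ne' hx0.ne', Real.log_div hx0.ne' he.ne',
    Real.log_exp]
  set L := Real.log x0 - Real.log y with hL
  have e1 : -(Real.log y - (1 + Real.log x0)) = L + 1 := by rw [hL]; ring
  have e2 : -(Real.log y - Real.log x0) = L := by rw [hL]; ring
  have e3 : -(Real.log y - (Real.log x0 - 1)) = L - 1 := by rw [hL]; ring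
  rw [e1, e2, e3]
  rcases le_total L (-1) with h | h
  · rw [max_eq_left (by linarith), max_eq_left (by linarith), max_eq_left (by linarith),
      abs_of_nonpos (by linarith), max_eq_left (by linarith)]
    ring
  rcases le_total L 0 with h0 | h0
  · rw [max_eq_right (by linarith), max_eq_left (by linarith), max_eq_left (by linarith),
      abs_of_nonpos (by linarith), max_eq_right (by linarith)]
    ring
  rcases le_total L 1 with h1 | h1
  · rw [max_eq_right (by linarith), max_eq_right (by linarith), max_eq_left (by linarith),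
      abs_of_nonneg (by linarith), max_eq_right (by linarith)]
    ring
  · rw [max_eq_right (by linarith), max_eq_right (by linarith), max_eq_right (by linarith),
      abs_of_nonneg (by linarith), max_eq_left (by linarith)]
    ring

lemma tent_nonneg (x0 y : ℝ) (hx0 : 0 < x0) (hy : 0 < y) : 0 ≤ tent x0 y := by
  rw [tent_eq x0 y hx0 hy]; exact le_max_left _ _

lemma tent_le_one (x0 y : ℝ) (hx0 : 0 < x0) (hy : 0 < y) : tent x0 y ≤ 1 := by
  rw [tent_eq x0 y hx0 hy]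
  apply max_le (by norm_num)
  have := abs_nonneg (Real.log x0 - Real.log y)
  linarith

lemma tent_lip (x0 y y' : ℝ) (hx0 : 0 < x0) (hy : 0 < y) (hyy : y ≤ y') :
    |tent x0 y' - tent x0 y| ≤ Real.log y' - Real.log y := by
  have hy' : 0 < y' := lt_of_lt_of_le hy hyy
  rw [tent_eq x0 y hx0 hy, tent_eq x0 y' hx0 hy']
  have hl : Real.log y ≤ Real.log y' := Real.log_le_log hy hyy
  refine (abs_max_sub_max_le_max 0 _ 0 _).trans ?_
  apply max_le (by simpa using hl)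
  have h1 := abs_abs_sub_abs_le (Real.log x0 - Real.log y) (Real.log x0 - Real.log y')
  have e : 1 - |Real.log x0 - Real.log y'| - (1 - |Real.log x0 - Real.log y|) =
    |Real.log x0 - Real.log y| - |Real.log x0 - Real.log y'| := by ring
  rw [e]
  refine h1.trans ?_
  have e2 : Real.log x0 - Real.log y - (Real.log x0 - Real.log y') = Real.log y' - Real.log y := by ring
  rw [e2, abs_of_nonneg (by linarith)]

/-- Type I bound for one convolution `g * f`, `g` small support, `f` with bounded partial sums. -/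
lemma typeI_one (g f : ArithmeticFunction ℂ) (K B : ℝ) (hB : 0 ≤ B) (N : ℕ)
    (hg : ∑ n ∈ Ioc 0 N, ‖g n‖ ≤ K)
    (hf : ∀ n ≤ N, ‖∑ k ∈ Ioc 0 n, f k‖ ≤ B) (x0 : ℝ) (hx0 : 0 < x0) (hN : 1 ≤ N) :
    ‖∑ n ∈ Ioc 0 N, (g * f) n * ((tent x0 n : ℝ) : ℂ)‖ ≤ K * (B * (1 + Real.log N)) := by
  have e : ∑ n ∈ Ioc 0 N, (g * f) n * ((tent x0 n : ℝ) : ℂ) =
      ∑ a ∈ Ioc 0 N, g a * ∑ b ∈ Ioc 0 (N / a), f b * ((tent x0 ((a * b : ℕ) : ℝ) : ℝ) : ℂ) := by
    simp_rw [ArithmeticFunction.mul_apply, Finset.sum_mul, Finset.mul_sum]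
    rw [Finset.sum_sigma', Finset.sum_sigma']
    apply Finset.sum_bij' (fun (p : (_ : ℕ) × (ℕ × ℕ)) _ => (⟨p.2.1, p.2.2⟩ : (_ : ℕ) × ℕ))
      (fun (p : (_ : ℕ) × ℕ) _ => (⟨p.1 * p.2, (p.1, p.2)⟩ : (_ : ℕ) × (ℕ × ℕ)))
    · rintro ⟨n, a, b⟩ h
      simp only [Finset.mem_sigma, Finset.mem_Ioc, Nat.mem_divisorsAntidiagonal] at h ⊢
      obtain ⟨⟨hn1, hn2⟩, hab, _⟩ := h
      have ha : 0 < a := Nat.pos_of_ne_zero (by rintro rfl; simp at hab; omega)
      have hb : 0 < b := Nat.pos_of_ne_zero (by rintro rfl; simp at hab; omega)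
      refine ⟨⟨ha, ?_⟩, hb, ?_⟩
      · have h5 : a * 1 ≤ a * b := Nat.mul_le_mul_left a (by omega)
        omega
      · rw [Nat.le_div_iff_mul_le ha, mul_comm]; omega
    · rintro ⟨a, b⟩ h
      simp only [Finset.mem_sigma, Finset.mem_Ioc, Nat.mem_divisorsAntidiagonal] at h ⊢
      obtain ⟨⟨ha, _⟩, hb, hb2⟩ := h
      have h5 := (Nat.le_div_iff_mul_le ha).mp hb2
      have h6 : 0 < a * b := Nat.mul_pos ha hb
      refine ⟨⟨h6, by rw [mul_comm]; exact h5⟩, ?_, by omega⟩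
      trivial
    · rintro ⟨n, a, b⟩ h
      simp only [Finset.mem_sigma, Finset.mem_Ioc, Nat.mem_divisorsAntidiagonal] at h
      obtain ⟨_, hab, _⟩ := h
      subst hab
      rfl
    · rintro ⟨a, b⟩ h; rfl
    · rintro ⟨n, a, b⟩ h
      simp only [Finset.mem_sigma, Finset.mem_Ioc, Nat.mem_divisorsAntidiagonal] at h
      obtain ⟨_, hab, _⟩ := h
      subst hab
      ring
  rw [e]
  refine (norm_sum_le _ _).trans ?_
  have hpt : ∀ a ∈ Ioc 0 N, ‖g a * ∑ b ∈ Ioc 0 (N / a), f b * ((tent x0 ((a * b : ℕ) : ℝ) : ℝ) : ℂ)‖ ≤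
      ‖g a‖ * (B * (1 + Real.log N)) := by
    intro a ha
    rw [Finset.mem_Ioc] at ha
    rw [norm_mul]
    apply mul_le_mul_of_nonneg_left _ (norm_nonneg _)
    have ha0 : (0 : ℝ) < a := by exact_mod_cast ha.1
    have hN1 : 1 ≤ N / a := by rw [Nat.le_div_iff_mul_le ha.1]; omega
    have h1 := abel_bound (fun b => f b) (fun b => tent x0 ((a * b : ℕ) : ℝ)) B 1 zero_le_one hB (N / a)
      (fun n hn => hf n (hn.trans (Nat.div_le_self N a))) (by
        intro n hn hnN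
        have hn0 : (0 : ℝ) < n := by exact_mod_cast hn
        have h2 := tent_lip x0 ((a * n : ℕ) : ℝ) ((a * (n + 1) : ℕ) : ℝ) hx0 (by push_cast; positivity)
          (by exact_mod_cast Nat.mul_le_mul_left a (by omega))
        refine h2.trans (le_of_eq ?_)
        push_cast
        rw [Real.log_mul ha0.ne' (by positivity), Real.log_mul ha0.ne' hn0.ne']
        ring)
    refine h1.trans ?_
    apply mul_le_mul_of_nonneg_left _ hB
    have hpos : (0 : ℝ) < ((a * (N / a) : ℕ) : ℝ) := by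
      have : 0 < a * (N / a) := Nat.mul_pos ha.1 (by omega)
      exact_mod_cast this
    have h3 := tent_nonneg x0 _ hx0 hpos
    have h4 := tent_le_one x0 _ hx0 hpos
    rw [abs_of_nonneg h3]
    have h5 : Real.log ((N / a : ℕ) : ℝ) ≤ Real.log N := by
      apply Real.log_le_log (by exact_mod_cast (show 0 < N / a by omega))
      exact_mod_cast Nat.div_le_self N a
    linarith
  refine (Finset.sum_le_sum hpt).trans ?_
  rw [← Finset.sum_mul]
  apply mul_le_mul_of_nonneg_right hg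
  have : 0 ≤ Real.log N := Real.log_natCast_nonneg N
  positivity

lemma sum_div_le (n : ℕ) : ∑ a ∈ Ioc 0 n, ((n / a : ℕ) : ℝ) ≤ n * (1 + Real.log n) := by
  have h1 : ∀ a ∈ Ioc 0 n, ((n / a : ℕ) : ℝ) ≤ n * (a : ℝ)⁻¹ := by
    intro a _
    have := @Nat.cast_div_le ℝ _ _ _ n a
    rwa [div_eq_mul_inv] at this
  refine (Finset.sum_le_sum h1).trans ?_
  rw [← Finset.mul_sum]
  apply mul_le_mul_of_nonneg_left _ (Nat.cast_nonneg n)
  have h2 := harmonic_le_one_add_log n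
  have h3 : ((harmonic n : ℚ) : ℝ) = ∑ a ∈ Ioc 0 n, (a : ℝ)⁻¹ := by
    rw [harmonic_eq_sum_Icc]
    push_cast
    apply Finset.sum_congr _ (fun _ _ => rfl)
    ext a; simp only [Finset.mem_Icc, Finset.mem_Ioc]; omega
  rw [← h3]; exact h2

/-- the Type I part of the identity -/
noncomputable def T1 (v : ℕ → ℝ) : ArithmeticFunction ℂ :=
  logC * mvf v * (3 - 3 * (zC * mvf v) + (zC * mvf v) ^ 2)

lemma Lam_ident' (v : ℕ → ℝ) : LamC = T1 v + LamC * (rf v) ^ 3 := Lam_ident v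

theorem typeI_bound {q : ℕ} (ξ : DirichletCharacter ℂ q) (q0 : ℝ) (hq0 : 0 ≤ q0)
    (hPS : ∀ n : ℕ, ‖∑ k ∈ Ioc 0 n, ξ (k : ℕ)‖ ≤ q0) (v : ℕ → ℝ) (D : ℕ) (hD : 1 ≤ D)
    (hv0 : ∀ n, 0 ≤ v n) (hv1 : ∀ n, v n ≤ 1) (hvD : ∀ n, D < n → v n = 0)
    (N : ℕ) (hN : 1 ≤ N) (x0 : ℝ) (hx0 : 0 < x0) :
    ‖∑ n ∈ Ioc 0 N, (ξ (n : ℕ) * T1 v n) *
      ((tent x0 n : ℝ) : ℂ)‖ ≤ 77 * q0 * (D : ℝ) ^ 3 * (1 + Real.log N) ^ 3 * (N : ℝ) ^ (3 / 4 : ℝ) := by
  have hN1 : (1 : ℝ) ≤ N := by exact_mod_cast hN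
  have hlN : 0 ≤ Real.log N := Real.log_natCast_nonneg N
  set L : ℝ := 1 + Real.log N with hL
  have hL1 : 1 ≤ L := by linarith
  set m := twc ξ (mvf v) with hm
  set F0 := twc ξ logC with hF0
  set g := twc ξ zC with hg
  have hgn : ∀ n, ‖g n‖ ≤ 1 := by
    intro n
    rw [hg, twc_apply]
    rcases Nat.eq_zero_or_pos n with rfl | hn
    · simp
    · rw [zC_apply n (by omega), mul_one]
      exact DirichletCharacter.norm_le_one _ _
  have hgS : ∀ n, ‖∑ k ∈ Ioc 0 n, g k‖ ≤ q0 := by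
    intro n
    have : ∑ k ∈ Ioc 0 n, g k = ∑ k ∈ Ioc 0 n, ξ (k : ℕ) := by
      apply Finset.sum_congr rfl
      intro k hk
      rw [Finset.mem_Ioc] at hk
      rw [hg, twc_apply, zC_apply k (by omega), mul_one]
    rw [this]; exact hPS n
  have hlogle : ∀ n, 1 ≤ n → n ≤ N → Real.log n ≤ L := by
    intro n hn hnN
    have : Real.log n ≤ Real.log N := Real.log_le_log (by exact_mod_cast hn) (by exact_mod_cast hnN)
    linarith
  -- F0
  have hF0S : ∀ n ≤ N, ‖∑ k ∈ Ioc 0 n, F0 k‖ ≤ (2 * q0 * L) * (n : ℝ) ^ (0 : ℝ) := by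
    intro n hn
    rw [Real.rpow_zero, mul_one]
    rcases Nat.eq_zero_or_pos n with rfl | hn0
    · simp; positivity
    have h1 := abel_bound (fun k => ξ (k : ℕ)) (fun k => Real.log k) q0 1 zero_le_one hq0 n
      (fun k _ => hPS k) (by
        intro k hk _
        have hk0 : (0 : ℝ) < k := by exact_mod_cast hk
        have h2 : Real.log k ≤ Real.log (k + 1 : ℕ) := Real.log_le_log hk0 (by push_cast; linarith)
        rw [abs_of_nonneg (by linarith), one_mul])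
    have e : ∑ k ∈ Ioc 0 n, F0 k = ∑ k ∈ Ioc 0 n, ξ (k : ℕ) * ((Real.log k : ℝ) : ℂ) := rfl
    rw [e]
    refine h1.trans ?_
    have h3 : 0 ≤ Real.log n := Real.log_natCast_nonneg n
    rw [abs_of_nonneg h3]
    have h4 := hlogle n hn0 hn
    have h5 : Real.log n + 1 * Real.log n ≤ 2 * L := by linarith
    calc q0 * (Real.log n + 1 * Real.log n) ≤ q0 * (2 * L) := mul_le_mul_of_nonneg_left h5 hq0
      _ = _ := by ring
  have hF0n : ∀ k, 1 ≤ k → k ≤ N → ‖F0 k‖ ≤ L := by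
    intro k hk hkN
    rw [hF0, twc_apply, norm_mul, logC_apply, Complex.norm_real,
      Real.norm_of_nonneg (Real.log_natCast_nonneg k)]
    calc ‖ξ (k : ℕ)‖ * Real.log k ≤ 1 * Real.log k :=
          mul_le_mul_of_nonneg_right (DirichletCharacter.norm_le_one _ _) (Real.log_natCast_nonneg k)
      _ ≤ L := by rw [one_mul]; exact hlogle k hk hkN
  have hF0K : ∀ n ≤ N, ∑ k ∈ Ioc 0 n, ‖F0 k‖ ≤ L * n := by
    intro n hn
    calc ∑ k ∈ Ioc 0 n, ‖F0 k‖ ≤ ∑ k ∈ Ioc 0 n, L := by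
          apply Finset.sum_le_sum
          intro k hk
          rw [Finset.mem_Ioc] at hk
          exact hF0n k (by omega) (by omega)
      _ = L * n := by simp; ring
  -- F1
  have hF1S := hyperbola_step F0 g N (2 * q0 * L) L q0 0 (by positivity) (by linarith) hq0 le_rfl
    zero_le_one hF0S hF0K hgS hgn
  have hF1K : ∀ n ≤ N, ∑ k ∈ Ioc 0 n, ‖(F0 * g) k‖ ≤ L ^ 2 * n := by
    intro n hn
    rcases Nat.eq_zero_or_pos n with rfl | hn0
    · simp
    let F : ArithmeticFunction ℝ := ⟨fun n => ‖F0 n‖, by simp⟩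
    let G : ArithmeticFunction ℝ := ⟨fun n => ‖g n‖, by simp⟩
    have h3 : ∑ k ∈ Ioc 0 n, ‖(F0 * g) k‖ ≤ ∑ k ∈ Ioc 0 n, (F * G) k := by
      apply Finset.sum_le_sum
      intro k _
      rw [ArithmeticFunction.mul_apply, ArithmeticFunction.mul_apply]
      refine (norm_sum_le _ _).trans (le_of_eq ?_)
      apply Finset.sum_congr rfl
      intro p _
      rw [norm_mul]
      rfl
    refine h3.trans ?_
    rw [ArithmeticFunction.sum_Ioc_mul_eq_sum_sum]
    calc ∑ a ∈ Ioc 0 n, F a * ∑ b ∈ Ioc 0 (n / a), G b ≤ ∑ a ∈ Ioc 0 n, L * ((n / a : ℕ) : ℝ) := by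
          apply Finset.sum_le_sum
          intro a ha
          rw [Finset.mem_Ioc] at ha
          have h4 : ∑ b ∈ Ioc 0 (n / a), G b ≤ ((n / a : ℕ) : ℝ) := by
            calc ∑ b ∈ Ioc 0 (n / a), G b ≤ ∑ b ∈ Ioc 0 (n / a), (1 : ℝ) :=
                  Finset.sum_le_sum (fun b _ => hgn b)
              _ = _ := by simp
          have h5 : 0 ≤ ∑ b ∈ Ioc 0 (n / a), G b := Finset.sum_nonneg (fun b _ => norm_nonneg (g b))
          exact mul_le_mul (hF0n a (by omega) (by omega)) h4 h5 (by linarith)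
      _ = L * ∑ a ∈ Ioc 0 n, ((n / a : ℕ) : ℝ) := by rw [Finset.mul_sum]
      _ ≤ L * (n * (1 + Real.log n)) := mul_le_mul_of_nonneg_left (sum_div_le n) (by linarith)
      _ ≤ L * (n * L) := by
          apply mul_le_mul_of_nonneg_left _ (by linarith)
          apply mul_le_mul_of_nonneg_left _ (Nat.cast_nonneg n)
          have : Real.log n ≤ Real.log N := Real.log_le_log (by exact_mod_cast hn0) (by exact_mod_cast hn)
          linarith
      _ = _ := by ring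
  have hF2S := hyperbola_step (F0 * g) g N (2 * (2 * q0 * L) + q0 * L) (L ^ 2) q0 ((1 + 0) / 2)
    (by positivity) (by positivity) hq0 (by norm_num) (by norm_num) hF1S hF1K hgS hgn
  -- common bound
  set B : ℝ := 11 * q0 * L ^ 2 * (N : ℝ) ^ (3 / 4 : ℝ) with hB
  have hB0 : 0 ≤ B := by positivity
  have hN34 : ∀ n ≤ N, ∀ θ : ℝ, 0 ≤ θ → θ ≤ 3 / 4 → (n : ℝ) ^ θ ≤ (N : ℝ) ^ (3 / 4 : ℝ) := by
    intro n hn θ h0 h1
    calc (n : ℝ) ^ θ ≤ (N : ℝ) ^ θ := Real.rpow_le_rpow (by positivity) (by exact_mod_cast hn) h0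
      _ ≤ _ := Real.rpow_le_rpow_of_exponent_le hN1 h1
  have hLL : L ≤ L ^ 2 := by nlinarith
  have hb : ∀ c : ℝ, 0 ≤ c → c ≤ 11 * L ^ 2 → ∀ n ≤ N, ∀ θ : ℝ, 0 ≤ θ → θ ≤ 3 / 4 →
      (q0 * c) * (n : ℝ) ^ θ ≤ B := by
    intro c hc0 hc n hn θ h0 h1
    rw [hB]
    calc (q0 * c) * (n : ℝ) ^ θ ≤ (q0 * (11 * L ^ 2)) * (N : ℝ) ^ (3 / 4 : ℝ) := by
          apply mul_le_mul (mul_le_mul_of_nonneg_left hc hq0) (hN34 n hn θ h0 h1) (by positivity)
            (by positivity)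
      _ = _ := by ring
  have hF0B : ∀ n ≤ N, ‖∑ k ∈ Ioc 0 n, F0 k‖ ≤ B := by
    intro n hn
    refine (hF0S n hn).trans ?_
    have := hb (2 * L) (by linarith) (by nlinarith) n hn 0 le_rfl (by norm_num)
    calc _ = (q0 * (2 * L)) * (n : ℝ) ^ (0 : ℝ) := by ring
      _ ≤ B := this
  have hF1B : ∀ n ≤ N, ‖∑ k ∈ Ioc 0 n, (F0 * g) k‖ ≤ B := by
    intro n hn
    refine (hF1S n hn).trans ?_
    have := hb (5 * L) (by linarith) (by nlinarith) n hn ((1 + 0) / 2) (by norm_num) (by norm_num)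
    calc _ = (q0 * (5 * L)) * (n : ℝ) ^ ((1 + 0) / 2 : ℝ) := by ring
      _ ≤ B := this
  have hF2B : ∀ n ≤ N, ‖∑ k ∈ Ioc 0 n, (F0 * g * g) k‖ ≤ B := by
    intro n hn
    refine (hF2S n hn).trans ?_
    have := hb (10 * L + L ^ 2) (by positivity) (by nlinarith) n hn ((1 + (1 + 0) / 2) / 2)
      (by norm_num) (by norm_num)
    calc _ = (q0 * (10 * L + L ^ 2)) * (n : ℝ) ^ ((1 + (1 + 0) / 2) / 2 : ℝ) := by ring
      _ ≤ B := this
  -- mollifier norms
  have hmK : ∀ M : ℕ, ∑ n ∈ Ioc 0 M, ‖m n‖ ≤ D := by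
    intro M
    have h1 : ∀ n ∈ Ioc 0 M, ‖m n‖ ≤ if n ≤ D then 1 else 0 := by
      intro n hn
      rw [Finset.mem_Ioc] at hn
      rw [hm, twc_apply]
      by_cases h : n ≤ D
      · rw [if_pos h, norm_mul]
        exact mul_le_one₀ (DirichletCharacter.norm_le_one _ _) (norm_nonneg _) (norm_mvf_le v hv0 hv1 n)
      · rw [if_neg h, mvf_apply, hvD n (by omega)]
        simp
    refine (Finset.sum_le_sum h1).trans ?_
    rw [← Finset.sum_filter, Finset.sum_const, nsmul_eq_mul, mul_one]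
    have : #{n ∈ Ioc 0 M | n ≤ D} ≤ D := by
      calc #{n ∈ Ioc 0 M | n ≤ D} ≤ #(Ioc 0 D) := by
            apply Finset.card_le_card
            intro n hn
            rw [Finset.mem_filter, Finset.mem_Ioc] at hn
            rw [Finset.mem_Ioc]; exact ⟨hn.1.1, hn.2⟩
        _ = D := by simp
    exact_mod_cast this
  have hD1 : (1 : ℝ) ≤ D := by exact_mod_cast hD
  have hm2K : ∀ M : ℕ, ∑ n ∈ Ioc 0 M, ‖(m * m) n‖ ≤ D * D := fun M =>
    sum_norm_mul_le m m D D (by linarith) M (hmK M) (fun M' _ => hmK M') (by linarith)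
  have hm3K : ∀ M : ℕ, ∑ n ∈ Ioc 0 M, ‖(m * m * m) n‖ ≤ D * D * D := fun M =>
    sum_norm_mul_le (m * m) m (D * D) D (by positivity) M (hm2K M) (fun M' _ => hmK M') (by linarith)
  have t0 := typeI_one m F0 D B hB0 N (hmK N) hF0B x0 hx0 hN
  have t1 := typeI_one (m * m) (F0 * g) (D * D) B hB0 N (hm2K N) hF1B x0 hx0 hN
  have t2 := typeI_one (m * m * m) (F0 * g * g) (D * D * D) B hB0 N (hm3K N) hF2B x0 hx0 hN
  have hid : twc ξ (T1 v) =
      (m * F0 + m * F0 + m * F0) - (m * m * (F0 * g) + m * m * (F0 * g) + m * m * (F0 * g)) +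
        m * m * m * (F0 * g * g) := by
    have e : T1 v =
      (mvf v * logC + mvf v * logC + mvf v * logC) - (mvf v * mvf v * (logC * zC) +
        mvf v * mvf v * (logC * zC) + mvf v * mvf v * (logC * zC)) +
        mvf v * mvf v * mvf v * (logC * zC * zC) := by unfold T1; ring
    rw [e]
    simp only [twc_add, twc_sub, twc_mul]
    rfl
  have hsum : ∑ n ∈ Ioc 0 N, (ξ (n : ℕ) * T1 v n) *
      ((tent x0 n : ℝ) : ℂ) =
      3 * ∑ n ∈ Ioc 0 N, (m * F0) n * ((tent x0 n : ℝ) : ℂ) -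
      3 * ∑ n ∈ Ioc 0 N, (m * m * (F0 * g)) n * ((tent x0 n : ℝ) : ℂ) +
      ∑ n ∈ Ioc 0 N, (m * m * m * (F0 * g * g)) n * ((tent x0 n : ℝ) : ℂ) := by
    rw [Finset.mul_sum, Finset.mul_sum, ← Finset.sum_sub_distrib, ← Finset.sum_add_distrib]
    apply Finset.sum_congr rfl
    intro n _
    have h1 : ξ (n : ℕ) * T1 v n = (twc ξ (T1 v)) n := rfl
    rw [h1, hid]
    simp only [ArithmeticFunction.add_apply, sub_eq_add_neg, ArithmeticFunction.neg_apply]
    ring
  rw [hsum]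
  have hBL : 0 ≤ B * L := by positivity
  have hn1 : ‖3 * ∑ n ∈ Ioc 0 N, (m * F0) n * ((tent x0 n : ℝ) : ℂ) -
      3 * ∑ n ∈ Ioc 0 N, (m * m * (F0 * g)) n * ((tent x0 n : ℝ) : ℂ) +
      ∑ n ∈ Ioc 0 N, (m * m * m * (F0 * g * g)) n * ((tent x0 n : ℝ) : ℂ)‖ ≤
      3 * (D * (B * L)) + 3 * (D * D * (B * L)) + D * D * D * (B * L) := by
    refine (norm_add_le _ _).trans (add_le_add ((norm_sub_le _ _).trans (add_le_add ?_ ?_)) t2)
    · rw [norm_mul, Complex.norm_ofNat]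
      exact mul_le_mul_of_nonneg_left t0 (by norm_num)
    · rw [norm_mul, Complex.norm_ofNat]
      exact mul_le_mul_of_nonneg_left t1 (by norm_num)
  refine hn1.trans ?_
  have hDD : (D : ℝ) ≤ D ^ 3 := by
    calc (D : ℝ) = D ^ 1 := (pow_one _).symm
      _ ≤ D ^ 3 := pow_le_pow_right₀ hD1 (by norm_num)
  have hDD2 : (D : ℝ) * D ≤ D ^ 3 := by
    calc (D : ℝ) * D = D ^ 2 := by ring
      _ ≤ D ^ 3 := pow_le_pow_right₀ hD1 (by norm_num)
  calc 3 * (D * (B * L)) + 3 * (D * D * (B * L)) + D * D * D * (B * L)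
      = (3 * D + 3 * (D * D) + D ^ 3) * (B * L) := by ring
    _ ≤ (7 * (D : ℝ) ^ 3) * (B * L) := by
        apply mul_le_mul_of_nonneg_right _ hBL
        linarith
    _ = _ := by rw [hB]; ring

end Pool.Agent.H16
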