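import Pool.Agent.H16.MS
import Pool.Agent.H16.TypeI2
import Pool.Agent.H16.Family

/-!
The analytic input: a bound of Bombieri–Vinogradov type for the family of characters
`ξ mod W d`, `d ∣ cond ξ`, with a smooth weight.
-/

set_option autoImplicit false

open Complex Finset Filter Topology
open scoped ComplexConjugate ArithmeticFunction.zeta ArithmeticFunction.Moebius
open ArithmeticFunction (vonMangoldt moebius)

namespace Pool.Agent.H16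

/-- the logarithmic trapezoid -/
noncomputable def wtH (δ ℓ : ℝ) (m : ℕ) : ℝ :=
  (kfun (m / Real.exp (2 * δ * ℓ)) - kfun (m / Real.exp (δ * ℓ))) / (δ * ℓ)

/-- the same with value `1` at `0` -/
noncomputable def vH (δ ℓ : ℝ) (m : ℕ) : ℝ := if m = 0 then 1 else wtH δ ℓ m

lemma wtH_eq (δ ℓ : ℝ) (m : ℕ) (hm : 1 ≤ m) : wtH δ ℓ m =
    (max 0 (2 * (δ * ℓ) - Real.log m) - max 0 (δ * ℓ - Real.log m)) / (δ * ℓ) := by
  have hm0 : (0 : ℝ) < m := by exact_mod_cast hm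
  unfold wtH kfun
  rw [Real.log_div hm0.ne' (Real.exp_pos _).ne', Real.log_div hm0.ne' (Real.exp_pos _).ne',
    Real.log_exp, Real.log_exp]
  congr 3 <;> ring

lemma trap_props (c y : ℝ) (hc : 0 < c) :
    0 ≤ (max 0 (2 * c - y) - max 0 (c - y)) / c ∧ (max 0 (2 * c - y) - max 0 (c - y)) / c ≤ 1 ∧
    (y ≤ c → (max 0 (2 * c - y) - max 0 (c - y)) / c = 1) ∧
    (2 * c ≤ y → (max 0 (2 * c - y) - max 0 (c - y)) / c = 0) := by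
  have h1 : max 0 (c - y) ≤ max 0 (2 * c - y) := max_le_max le_rfl (by linarith)
  have h2 : max 0 (2 * c - y) ≤ max 0 (c - y) + c := by
    apply max_le
    · have := le_max_left 0 (c - y); linarith
    · have := le_max_right 0 (c - y); linarith
  refine ⟨div_nonneg (by linarith) hc.le, ?_, ?_, ?_⟩
  · rw [div_le_one hc]; linarith
  · intro h
    rw [max_eq_right (by linarith), max_eq_right (by linarith)]
    rw [div_eq_one_iff_eq hc.ne']; ring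
  · intro h
    rw [max_eq_left (by linarith), max_eq_left (by linarith)]
    simp

lemma vH_nonneg (δ ℓ : ℝ) (h : 0 < δ * ℓ) (m : ℕ) : 0 ≤ vH δ ℓ m := by
  unfold vH
  split_ifs with h0
  · exact zero_le_one
  · rw [wtH_eq δ ℓ m (by omega)]; exact (trap_props _ _ h).1

lemma vH_le_one (δ ℓ : ℝ) (h : 0 < δ * ℓ) (m : ℕ) : vH δ ℓ m ≤ 1 := by
  unfold vH
  split_ifs with h0
  · exact le_rfl
  · rw [wtH_eq δ ℓ m (by omega)]; exact (trap_props _ _ h).2.1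

lemma vH_eq_one (δ ℓ : ℝ) (h : 0 < δ * ℓ) (m : ℕ) (hm : m ≤ ⌊Real.exp (δ * ℓ)⌋₊) : vH δ ℓ m = 1 := by
  unfold vH
  split_ifs with h0
  · rfl
  · rw [wtH_eq δ ℓ m (by omega)]
    refine (trap_props _ _ h).2.2.1 ?_
    have h1 : (m : ℝ) ≤ Real.exp (δ * ℓ) :=
      (Nat.le_floor_iff (Real.exp_pos _).le).mp hm
    have h2 : (0 : ℝ) < m := by exact_mod_cast Nat.pos_of_ne_zero h0
    calc Real.log m ≤ Real.log (Real.exp (δ * ℓ)) := Real.log_le_log h2 h1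
      _ = δ * ℓ := Real.log_exp _

lemma vH_eq_zero (δ ℓ : ℝ) (h : 0 < δ * ℓ) (m : ℕ) (hm : ⌊Real.exp (2 * δ * ℓ)⌋₊ < m) :
    vH δ ℓ m = 0 := by
  unfold vH
  split_ifs with h0
  · omega
  · rw [wtH_eq δ ℓ m (by omega)]
    refine (trap_props _ _ h).2.2.2 ?_
    have h1 : Real.exp (2 * δ * ℓ) < m := (Nat.floor_lt (Real.exp_pos _).le).mp hm
    calc 2 * (δ * ℓ) = Real.log (Real.exp (2 * δ * ℓ)) := by rw [Real.log_exp]; ring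
      _ ≤ Real.log m := Real.log_le_log (Real.exp_pos _) h1.le

/-- the pointwise bound for the mollified `L`-function (proved in `Pool.Agent.H90.Moll`) -/
def MollSmall : Prop := ∀ (δ : ℝ), 0 < δ → ∀ (A : ℝ) (Y : ℕ), ∃ L0 : ℝ, ∀ ℓ : ℝ, L0 ≤ ℓ →
  ∃ q₁ : ℕ, Y < q₁ ∧ ∀ (q : ℕ) [NeZero q], Real.log q ≤ ℓ / (Real.log ℓ) ^ 2 → ¬ q₁ ∣ q →
  ∀ χ : DirichletCharacter ℂ q, χ ≠ 1 → ∀ t : ℝ, |t| ≤ ℓ ^ A →
  ‖1 - DirichletCharacter.LFunction χ ((1 + 1 / ℓ : ℝ) + t * Complex.I) *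
    ∑ m ∈ Finset.Icc 1 ⌊Real.exp (2 * δ * ℓ)⌋₊, ((ArithmeticFunction.moebius m : ℤ) : ℂ) *
      ((wtH δ ℓ m : ℝ) : ℂ) * χ m * (m : ℂ) ^ (-((1 + 1 / ℓ : ℝ) + t * Complex.I : ℂ))‖ ≤ ℓ ^ (-A)

/-- translation of `MollSmall` to the Dirichlet series of `rf` -/
lemma rf_small_of_moll {q : ℕ} [NeZero q] (χ : DirichletCharacter ℂ q) (δ ℓ : ℝ) (hδ : 0 < δ)
    (hℓ : 1 ≤ ℓ) (t : ℝ) (b : ℝ)
    (h : ‖1 - DirichletCharacter.LFunction χ ((1 + 1 / ℓ : ℝ) + t * Complex.I) *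
      ∑ m ∈ Finset.Icc 1 ⌊Real.exp (2 * δ * ℓ)⌋₊, ((ArithmeticFunction.moebius m : ℤ) : ℂ) *
      ((wtH δ ℓ m : ℝ) : ℂ) * χ m * (m : ℂ) ^ (-((1 + 1 / ℓ : ℝ) + t * Complex.I : ℂ))‖ ≤ b) :
    ‖LSeries (twc χ (rf (vH δ ℓ))) (((1 + 1 / ℓ : ℝ) : ℂ) + t * I)‖ ≤ b := by
  have hℓ0 : 0 < ℓ := by linarith
  have hδℓ : 0 < δ * ℓ := by positivity
  have hinv : 0 < 1 / ℓ := by positivity
  set s : ℂ := ((1 + 1 / ℓ : ℝ) : ℂ) + t * I with hs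
  have hre : s.re = 1 + 1 / ℓ := by
    rw [hs]
    simp only [Complex.add_re, Complex.ofReal_re, Complex.mul_re, Complex.I_re, mul_zero,
      Complex.ofReal_im, Complex.I_im, mul_one, sub_self, add_zero]
  have h1 := (LSeries_twc_rf χ (vH δ ℓ) (vH_nonneg δ ℓ hδℓ) (vH_le_one δ ℓ hδℓ) ℓ hℓ s hre).2.1
  rw [h1]
  have h2 : LSeries (twc χ zC) s = DirichletCharacter.LFunction χ s := by
    rw [DirichletCharacter.LFunction_eq_LSeries χ (by rw [hre]; linarith)]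
    apply LSeries_congr
    intro n hn
    rw [twc_apply, zC_apply n hn, mul_one]
  have h3 : LSeries (twc χ (mvf (vH δ ℓ))) s = ∑ m ∈ Finset.Icc 1 ⌊Real.exp (2 * δ * ℓ)⌋₊,
      ((ArithmeticFunction.moebius m : ℤ) : ℂ) *
      ((wtH δ ℓ m : ℝ) : ℂ) * χ m * (m : ℂ) ^ (-s) := by
    unfold LSeries
    rw [tsum_eq_sum (s := Finset.Icc 1 ⌊Real.exp (2 * δ * ℓ)⌋₊)]
    · apply Finset.sum_congr rfl
      intro m hm
      rw [Finset.mem_Icc] at hm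
      rw [LSeries.term_of_ne_zero (by omega), twc_apply, mvf_apply, Complex.cpow_neg]
      have : vH δ ℓ m = wtH δ ℓ m := by unfold vH; rw [if_neg (by omega)]
      rw [this]
      ring
    · intro m hm
      rw [Finset.mem_Icc, not_and_or] at hm
      rcases Nat.eq_zero_or_pos m with rfl | hm0
      · exact LSeries.term_zero _ _
      · rw [LSeries.term_of_ne_zero (by omega), twc_apply, mvf_apply,
          vH_eq_zero δ ℓ hδℓ m (by omega)]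
        simp
  rw [h2, h3]
  exact h

/-- Type II block bound -/
lemma block_bound (ℓ : ℝ) (hℓ : 1000 ≤ ℓ) (W : ℕ) (hW1 : 1 ≤ W) (hW : Real.log W ≤ ℓ / 1000)
    (D : Finset ℕ) (hD : ∀ d ∈ D, 1 ≤ d ∧ (d : ℝ) ≤ Real.exp (ℓ / 300) ∧ Nat.Coprime d W)
    (T u : ℝ) (hT : 0 < T) (hu : 0 ≤ u)
    (hsmall : ∀ d ∈ D, ∀ ξ ∈ fam W d, ∀ t : ℝ, |t| ≤ T →
      ‖LSeries (twc ξ (rf (vH (1 / 50) ℓ))) (((1 + 1 / ℓ : ℝ) : ℂ) + t * I)‖ ≤ u) :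
    ∑ d ∈ D, ∑ ξ ∈ fam W d, ‖∑ n ∈ Ioc 0 ⌊Real.exp ℓ⌋₊,
      (ξ (n : ℕ) * (LamC * rf (vH (1 / 50) ℓ) ^ 3) n) * ((tent (Real.exp ℓ / 3) n : ℝ) : ℂ)‖ ≤
      2 * Real.exp ℓ * (1920 * ℓ ^ 8 * (4 * u + 10 * ℓ ^ 2 / T)) := by
  classical
  have hℓ0 : 0 < ℓ := by linarith
  have hδℓ : 0 < (1 / 50 : ℝ) * ℓ := by positivity
  have hWpos : (0 : ℝ) < W := by exact_mod_cast hW1
  have hWle : (W : ℝ) ≤ Real.exp (ℓ / 1000) := by
    rw [← Real.exp_log hWpos]; exact Real.exp_le_exp.mpr hW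
  set I' : Finset (Σ d : ℕ, DirichletCharacter ℂ (W * d)) := D.sigma (fun d => fam W d) with hI'
  set q0 : ℝ := 8 * Real.exp (2 * (ℓ / 1000) + 2 * (ℓ / 300)) with hq0
  have hcard : (#I' : ℝ) ≤ Real.exp (ℓ / 1000 + 2 * (ℓ / 300)) := by
    rw [hI', Finset.card_sigma]
    push_cast
    calc ∑ d ∈ D, (#(fam W d) : ℝ) ≤ ∑ d ∈ D, Real.exp (ℓ / 1000) * Real.exp (ℓ / 300) := by
          apply Finset.sum_le_sum
          intro d hd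
          obtain ⟨h1, h2, _⟩ := hD d hd
          have h3 : (#(fam W d) : ℝ) ≤ ((W * d : ℕ) : ℝ) := by
            exact_mod_cast card_fam_le W d (Nat.mul_pos hW1 h1)
          refine h3.trans ?_
          push_cast
          exact mul_le_mul hWle h2 (Nat.cast_nonneg d) (Real.exp_pos _).le
      _ = (#D : ℝ) * (Real.exp (ℓ / 1000) * Real.exp (ℓ / 300)) := by
          rw [Finset.sum_const, nsmul_eq_mul]
      _ ≤ Real.exp (ℓ / 300) * (Real.exp (ℓ / 1000) * Real.exp (ℓ / 300)) := by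
          apply mul_le_mul_of_nonneg_right _ (by positivity)
          have h4 : D ⊆ Finset.Icc 1 ⌊Real.exp (ℓ / 300)⌋₊ := by
            intro d hd
            obtain ⟨h1, h2, _⟩ := hD d hd
            rw [Finset.mem_Icc]
            exact ⟨h1, Nat.le_floor h2⟩
          have h5 := Finset.card_le_card h4
          rw [Nat.card_Icc, Nat.add_sub_cancel] at h5
          calc (#D : ℝ) ≤ (⌊Real.exp (ℓ / 300)⌋₊ : ℝ) := by exact_mod_cast h5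
            _ ≤ Real.exp (ℓ / 300) := Nat.floor_le (Real.exp_pos _).le
      _ = _ := by rw [← Real.exp_add, ← Real.exp_add]; congr 1; ring
  have hY : q0 * #I' ≤ (⌊Real.exp (1 / 50 * ℓ)⌋₊ : ℝ) := by
    have h1 : q0 * #I' ≤ q0 * Real.exp (ℓ / 1000 + 2 * (ℓ / 300)) :=
      mul_le_mul_of_nonneg_left hcard (by positivity)
    have h2 : q0 * Real.exp (ℓ / 1000 + 2 * (ℓ / 300)) = 8 * Real.exp (49 / 3000 * ℓ) := by
      rw [hq0, mul_assoc, ← Real.exp_add]; congr 2; ring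
    have h3 : Real.exp (1 / 50 * ℓ) < (⌊Real.exp (1 / 50 * ℓ)⌋₊ : ℝ) + 1 := Nat.lt_floor_add_one _
    have h4 : Real.exp (1 / 50 * ℓ) = Real.exp (49 / 3000 * ℓ) * Real.exp (11 / 3000 * ℓ) := by
      rw [← Real.exp_add]; congr 1; ring
    have h5 : (9 : ℝ) ≤ Real.exp (11 / 3000 * ℓ) := by
      have e1 : Real.exp 3 ≤ Real.exp (11 / 3000 * ℓ) := Real.exp_le_exp.mpr (by linarith)
      have e2 : (2.7 : ℝ) ^ 3 ≤ Real.exp 3 := by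
        have : Real.exp 3 = Real.exp 1 ^ 3 := by rw [← Real.exp_nat_mul]; norm_num
        rw [this]
        exact pow_le_pow_left₀ (by norm_num) (by have := Real.exp_one_gt_d9; linarith) 3
      have e3 : (9 : ℝ) ≤ (2.7 : ℝ) ^ 3 := by norm_num
      linarith
    have h6 : (1 : ℝ) ≤ Real.exp (49 / 3000 * ℓ) := Real.one_le_exp (by positivity)
    have h7 : Real.exp (49 / 3000 * ℓ) * 9 ≤ Real.exp (49 / 3000 * ℓ) * Real.exp (11 / 3000 * ℓ) :=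
      mul_le_mul_of_nonneg_left h5 (by positivity)
    linarith
  have hY1 : 1 ≤ ⌊Real.exp (1 / 50 * ℓ)⌋₊ := by
    apply Nat.le_floor
    rw [Nat.cast_one]
    exact Real.one_le_exp (by positivity)
  have horth : ∀ M N : ℕ, M ≤ N → ∀ i ∈ I', ∀ j ∈ I', i ≠ j →
      ‖∑ n ∈ Ioc M N, i.2 (n : ℕ) * conj (j.2 (n : ℕ))‖ ≤ q0 := by
    intro M N hMN i hi j hj hij
    rw [hI', Finset.mem_sigma] at hi hj
    obtain ⟨a1, a2, a3⟩ := hD i.1 hi.1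
    obtain ⟨b1, b2, b3⟩ := hD j.1 hj.1
    refine (quasi_orth W i.1 j.1 (Nat.mul_pos hW1 a1) (Nat.mul_pos hW1 b1) a3 b3 i.2 j.2 hi.2 hj.2
      hij M N hMN).trans ?_
    rw [hq0]
    apply mul_le_mul_of_nonneg_left _ (by norm_num)
    have e1 : ((W * i.1 : ℕ) : ℝ) ≤ Real.exp (ℓ / 1000) * Real.exp (ℓ / 300) := by
      push_cast
      exact mul_le_mul hWle a2 (Nat.cast_nonneg _) (Real.exp_pos _).le
    have e2 : ((W * j.1 : ℕ) : ℝ) ≤ Real.exp (ℓ / 1000) * Real.exp (ℓ / 300) := by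
      push_cast
      exact mul_le_mul hWle b2 (Nat.cast_nonneg _) (Real.exp_pos _).le
    calc ((W * i.1 : ℕ) : ℝ) * ((W * j.1 : ℕ) : ℝ) ≤
        (Real.exp (ℓ / 1000) * Real.exp (ℓ / 300)) * (Real.exp (ℓ / 1000) * Real.exp (ℓ / 300)) :=
          mul_le_mul e1 e2 (Nat.cast_nonneg _) (by positivity)
      _ = _ := by
          rw [← Real.exp_add, ← Real.exp_add]; congr 1; ring
  have he3 : Real.exp 1 ≤ 2.72 := by have := Real.exp_one_lt_d9; linarith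
  have hN : Real.exp 1 * (Real.exp ℓ / 3) ≤ (⌊Real.exp ℓ⌋₊ : ℝ) := by
    have h3 : Real.exp ℓ < (⌊Real.exp ℓ⌋₊ : ℝ) + 1 := Nat.lt_floor_add_one _
    have h4 : (1000 : ℝ) ≤ Real.exp ℓ := by
      have := Real.add_one_le_exp ℓ; linarith
    have h5 : Real.exp 1 * (Real.exp ℓ / 3) ≤ 2.72 * (Real.exp ℓ / 3) :=
      mul_le_mul_of_nonneg_right he3 (by positivity)
    linarith
  have hmain := typeII_family I' (fun i => W * i.1) (fun i => i.2) q0 (by positivity)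
    ⌊Real.exp (1 / 50 * ℓ)⌋₊ hY1 hY horth ℓ (by linarith) (vH (1 / 50) ℓ)
    (vH_nonneg _ _ hδℓ) (vH_le_one _ _ hδℓ) (vH_eq_one _ _ hδℓ) T u hT hu
    (by
      intro i hi t ht
      rw [hI', Finset.mem_sigma] at hi
      exact hsmall i.1 hi.1 i.2 hi.2 t ht)
    (Real.exp ℓ / 3) (by positivity) ⌊Real.exp ℓ⌋₊ hN
  have hIcc : Finset.Icc 1 ⌊Real.exp ℓ⌋₊ = Ioc 0 ⌊Real.exp ℓ⌋₊ := by
    ext k; simp only [Finset.mem_Ioc, Finset.mem_Icc]; omega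
  rw [hI', Finset.sum_sigma, hIcc] at hmain
  refine hmain.trans ?_
  apply mul_le_mul_of_nonneg_right _ (by positivity)
  -- x0 ^ (1 + 1/ℓ) ≤ exp ℓ
  have hx : (Real.exp ℓ / 3) ^ (1 + 1 / ℓ) ≤ Real.exp ℓ := by
    have h1 : (0 : ℝ) < Real.exp ℓ / 3 := by positivity
    rw [Real.rpow_add h1, Real.rpow_one]
    have h2 : (Real.exp ℓ / 3) ^ (1 / ℓ) ≤ Real.exp 1 := by
      calc (Real.exp ℓ / 3) ^ (1 / ℓ) ≤ (Real.exp ℓ) ^ (1 / ℓ) := by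
            apply Real.rpow_le_rpow h1.le _ (by positivity)
            have := Real.exp_pos ℓ
            linarith
        _ = Real.exp 1 := by
            rw [← Real.exp_mul]; congr 1; field_simp
    calc Real.exp ℓ / 3 * (Real.exp ℓ / 3) ^ (1 / ℓ) ≤ Real.exp ℓ / 3 * 3 := by
          apply mul_le_mul_of_nonneg_left _ h1.le
          linarith
      _ = Real.exp ℓ := by ring
  linarith

/-- Type I part, summed over the family -/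
lemma typeI_family (ℓ : ℝ) (hℓ : 1000 ≤ ℓ) (W : ℕ) (hW1 : 1 ≤ W) (hW : Real.log W ≤ ℓ / 1000)
    (D : Finset ℕ) (hD : ∀ d ∈ D, 1 ≤ d ∧ (d : ℝ) ≤ Real.exp (ℓ / 300) ∧ Nat.Coprime d W) :
    ∑ d ∈ D, ∑ ξ ∈ fam W d, ‖∑ n ∈ Ioc 0 ⌊Real.exp ℓ⌋₊,
      (ξ (n : ℕ) * T1 (vH (1 / 50) ℓ) n) * ((tent (Real.exp ℓ / 3) n : ℝ) : ℂ)‖ ≤
      308 * (1 + ℓ) ^ 3 * Real.exp (0.882 * ℓ) := by
  have hℓ0 : 0 < ℓ := by linarith
  have hδℓ : 0 < (1 / 50 : ℝ) * ℓ := by positivity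
  have hWpos : (0 : ℝ) < W := by exact_mod_cast hW1
  have hWle : (W : ℝ) ≤ Real.exp (ℓ / 1000) := by
    rw [← Real.exp_log hWpos]; exact Real.exp_le_exp.mpr hW
  have hNfl : (⌊Real.exp ℓ⌋₊ : ℝ) ≤ Real.exp ℓ := Nat.floor_le (Real.exp_pos _).le
  have hN1 : 1 ≤ ⌊Real.exp ℓ⌋₊ := by
    apply Nat.le_floor
    rw [Nat.cast_one]
    exact Real.one_le_exp (by positivity)
  have hNpos : (0 : ℝ) < (⌊Real.exp ℓ⌋₊ : ℝ) := by exact_mod_cast hN1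
  have hlogN : Real.log (⌊Real.exp ℓ⌋₊ : ℝ) ≤ ℓ := by
    calc Real.log (⌊Real.exp ℓ⌋₊ : ℝ) ≤ Real.log (Real.exp ℓ) := Real.log_le_log hNpos hNfl
      _ = ℓ := Real.log_exp _
  have hlogN0 : 0 ≤ Real.log (⌊Real.exp ℓ⌋₊ : ℝ) := Real.log_natCast_nonneg _
  have hDfl : (⌊Real.exp (2 * (1 / 50) * ℓ)⌋₊ : ℝ) ≤ Real.exp (2 * (1 / 50) * ℓ) :=
    Nat.floor_le (Real.exp_pos _).le
  have hD1 : 1 ≤ ⌊Real.exp (2 * (1 / 50) * ℓ)⌋₊ := by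
    apply Nat.le_floor
    rw [Nat.cast_one]
    exact Real.one_le_exp (by positivity)
  have hpt : ∀ d ∈ D, ∀ ξ ∈ fam W d, ‖∑ n ∈ Ioc 0 ⌊Real.exp ℓ⌋₊,
      (ξ (n : ℕ) * T1 (vH (1 / 50) ℓ) n) * ((tent (Real.exp ℓ / 3) n : ℝ) : ℂ)‖ ≤
      77 * (4 * (Real.exp (ℓ / 1000) * Real.exp (ℓ / 300))) * Real.exp (2 * (1 / 50) * ℓ) ^ 3 *
        (1 + ℓ) ^ 3 * Real.exp (3 / 4 * ℓ) := by
    intro d hd ξ hξ
    obtain ⟨h1, h2, h3⟩ := hD d hd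
    have hpos : 0 < W * d := Nat.mul_pos hW1 h1
    have : NeZero (W * d) := ⟨by omega⟩
    have hξ1 := ((mem_fam W d ξ).mp hξ).1
    have hb := typeI_bound ξ (4 * ((W * d : ℕ) : ℝ)) (by positivity)
      (fun n => norm_sum_Ioc_char ξ hξ1 n) (vH (1 / 50) ℓ) ⌊Real.exp (2 * (1 / 50) * ℓ)⌋₊ hD1
      (vH_nonneg _ _ hδℓ) (vH_le_one _ _ hδℓ) (vH_eq_zero _ _ hδℓ) ⌊Real.exp ℓ⌋₊ hN1
      (Real.exp ℓ / 3) (by positivity)
    refine hb.trans ?_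
    have e1 : ((W * d : ℕ) : ℝ) ≤ Real.exp (ℓ / 1000) * Real.exp (ℓ / 300) := by
      push_cast
      exact mul_le_mul hWle h2 (Nat.cast_nonneg _) (Real.exp_pos _).le
    have e2 : (⌊Real.exp (2 * (1 / 50) * ℓ)⌋₊ : ℝ) ^ 3 ≤ Real.exp (2 * (1 / 50) * ℓ) ^ 3 :=
      pow_le_pow_left₀ (Nat.cast_nonneg _) hDfl 3
    have e3 : (1 + Real.log (⌊Real.exp ℓ⌋₊ : ℝ)) ^ 3 ≤ (1 + ℓ) ^ 3 :=
      pow_le_pow_left₀ (by linarith) (by linarith) 3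
    have e4 : (⌊Real.exp ℓ⌋₊ : ℝ) ^ (3 / 4 : ℝ) ≤ Real.exp (3 / 4 * ℓ) := by
      calc (⌊Real.exp ℓ⌋₊ : ℝ) ^ (3 / 4 : ℝ) ≤ (Real.exp ℓ) ^ (3 / 4 : ℝ) :=
            Real.rpow_le_rpow hNpos.le hNfl (by norm_num)
        _ = Real.exp (3 / 4 * ℓ) := by rw [← Real.exp_mul]; congr 1; ring
    have f1 : 77 * (4 * ((W * d : ℕ) : ℝ)) ≤ 77 * (4 * (Real.exp (ℓ / 1000) * Real.exp (ℓ / 300))) := by
      linarith
    have f2 := mul_le_mul f1 e2 (by positivity) (by positivity)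
    have f3 := mul_le_mul f2 e3 (by positivity) (by positivity)
    exact mul_le_mul f3 e4 (by positivity) (by positivity)
  have hcard : ∑ d ∈ D, (#(fam W d) : ℝ) ≤ Real.exp (ℓ / 1000 + 2 * (ℓ / 300)) := by
    calc ∑ d ∈ D, (#(fam W d) : ℝ) ≤ ∑ d ∈ D, Real.exp (ℓ / 1000) * Real.exp (ℓ / 300) := by
          apply Finset.sum_le_sum
          intro d hd
          obtain ⟨h1, h2, _⟩ := hD d hd
          have h3 : (#(fam W d) : ℝ) ≤ ((W * d : ℕ) : ℝ) := by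
            exact_mod_cast card_fam_le W d (Nat.mul_pos hW1 h1)
          refine h3.trans ?_
          push_cast
          exact mul_le_mul hWle h2 (Nat.cast_nonneg d) (Real.exp_pos _).le
      _ = (#D : ℝ) * (Real.exp (ℓ / 1000) * Real.exp (ℓ / 300)) := by
          rw [Finset.sum_const, nsmul_eq_mul]
      _ ≤ Real.exp (ℓ / 300) * (Real.exp (ℓ / 1000) * Real.exp (ℓ / 300)) := by
          apply mul_le_mul_of_nonneg_right _ (by positivity)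
          have h4 : D ⊆ Finset.Icc 1 ⌊Real.exp (ℓ / 300)⌋₊ := by
            intro d hd
            obtain ⟨h1, h2, _⟩ := hD d hd
            rw [Finset.mem_Icc]
            exact ⟨h1, Nat.le_floor h2⟩
          have h5 := Finset.card_le_card h4
          rw [Nat.card_Icc, Nat.add_sub_cancel] at h5
          calc (#D : ℝ) ≤ (⌊Real.exp (ℓ / 300)⌋₊ : ℝ) := by exact_mod_cast h5
            _ ≤ Real.exp (ℓ / 300) := Nat.floor_le (Real.exp_pos _).le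
      _ = _ := by rw [← Real.exp_add, ← Real.exp_add]; congr 1; ring
  set K : ℝ := 77 * (4 * (Real.exp (ℓ / 1000) * Real.exp (ℓ / 300))) *
    Real.exp (2 * (1 / 50) * ℓ) ^ 3 * (1 + ℓ) ^ 3 * Real.exp (3 / 4 * ℓ) with hK
  have hK0 : 0 ≤ K := by positivity
  calc ∑ d ∈ D, ∑ ξ ∈ fam W d, ‖∑ n ∈ Ioc 0 ⌊Real.exp ℓ⌋₊,
      (ξ (n : ℕ) * T1 (vH (1 / 50) ℓ) n) * ((tent (Real.exp ℓ / 3) n : ℝ) : ℂ)‖
      ≤ ∑ d ∈ D, ∑ ξ ∈ fam W d, K :=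
        Finset.sum_le_sum (fun d hd => Finset.sum_le_sum (fun ξ hξ => hpt d hd ξ hξ))
    _ = (∑ d ∈ D, (#(fam W d) : ℝ)) * K := by
        rw [Finset.sum_mul]
        apply Finset.sum_congr rfl
        intro d _
        rw [Finset.sum_const, nsmul_eq_mul]
    _ ≤ Real.exp (ℓ / 1000 + 2 * (ℓ / 300)) * K := mul_le_mul_of_nonneg_right hcard hK0
    _ = 308 * (1 + ℓ) ^ 3 * (Real.exp (ℓ / 1000 + 2 * (ℓ / 300)) * (Real.exp (ℓ / 1000) *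
          Real.exp (ℓ / 300)) * Real.exp (2 * (1 / 50) * ℓ) ^ 3 * Real.exp (3 / 4 * ℓ)) := by
        rw [hK]; ring
    _ = 308 * (1 + ℓ) ^ 3 * Real.exp (0.882 * ℓ) := by
        congr 1
        rw [← Real.exp_add, ← Real.exp_add, ← Real.exp_nat_mul, ← Real.exp_add, ← Real.exp_add]
        congr 1
        push_cast
        ring

/-- The analytic input (Bombieri–Vinogradov type). -/
theorem AN_bound (hM : MollSmall) (A : ℝ) (hA : 0 ≤ A) (Y0 : ℕ) : ∃ L0 : ℝ, ∀ ℓ : ℝ, L0 ≤ ℓ →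
    ∃ q₁ : ℕ, Y0 < q₁ ∧ ∀ W : ℕ, 1 ≤ W → Real.log W ≤ ℓ / (2 * (Real.log ℓ) ^ 2) →
    ∀ (D : Finset ℕ) (g : ℕ → ℝ), (∀ d ∈ D, 1 ≤ d ∧ (d : ℝ) ≤ Real.exp (ℓ / 300) ∧
      Nat.Coprime d W ∧ ¬ q₁ ∣ W * d ∧ 0 ≤ g d ∧ g d ≤ (d : ℝ) ^ (-(1 / 2) : ℝ)) →
    ∑ d ∈ D, g d * ∑ ξ ∈ fam W d, ‖∑ n ∈ Ioc 0 ⌊Real.exp ℓ⌋₊,
      (ξ (n : ℕ) * LamC n) * ((tent (Real.exp ℓ / 3) n : ℝ) : ℂ)‖ ≤ Real.exp ℓ * ℓ ^ (-A) := by
  classical
  set A' : ℝ := A + 12 with hA'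
  obtain ⟨L1, hL1⟩ := hM (1 / 50) (by norm_num) A' Y0
  -- growth conditions
  have ev1 : ∀ᶠ ℓ : ℝ in atTop, 1000 ≤ (Real.log ℓ) ^ 2 := by
    have h := (Real.tendsto_log_atTop).eventually (eventually_ge_atTop (40 : ℝ))
    filter_upwards [h] with ℓ hℓ
    nlinarith
  have ev2 : ∀ᶠ ℓ : ℝ in atTop, 2 * A' * Real.log ℓ ≤ ℓ / (2 * (Real.log ℓ) ^ 2) := by
    have h := (isLittleO_log_rpow_atTop (show (0 : ℝ) < 1 / 4 by norm_num))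
    have h1 := h.bound (show (0 : ℝ) < 1 by norm_num)
    have h2 := tendsto_rpow_atTop (show (0 : ℝ) < 1 / 4 by norm_num)
    filter_upwards [h1, h2.eventually (eventually_ge_atTop (4 * A' + 1)), eventually_gt_atTop (1 : ℝ)]
      with ℓ a b c
    have hl : 0 < Real.log ℓ := Real.log_pos c
    rw [Real.norm_of_nonneg hl.le, Real.norm_of_nonneg (by positivity), one_mul] at a
    rw [le_div_iff₀ (by positivity)]
    have hA'0 : 0 ≤ A' := by linarith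
    set y := ℓ ^ (1 / 4 : ℝ) with hy
    have hy0 : 0 < y := by positivity
    have e : ℓ = y ^ 3 * y := by
      rw [hy, ← Real.rpow_natCast, ← Real.rpow_mul (by linarith), ← Real.rpow_add (by linarith)]
      norm_num
    have h3 : Real.log ℓ ^ 3 ≤ y ^ 3 := pow_le_pow_left₀ hl.le a 3
    calc 2 * A' * Real.log ℓ * (2 * Real.log ℓ ^ 2) = (4 * A') * Real.log ℓ ^ 3 := by ring
      _ ≤ y * y ^ 3 := mul_le_mul (by linarith) h3 (by positivity) hy0.le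
      _ = ℓ := by rw [mul_comm]; exact e.symm
  have ev3 : ∀ᶠ ℓ : ℝ in atTop, 2 * (1920 * ℓ ^ 8 * (4 * ℓ ^ (-A') + 10 * ℓ ^ 2 / ℓ ^ A')) ≤
      ℓ ^ (-A) / 3 := by
    filter_upwards [eventually_ge_atTop (161280 : ℝ)] with ℓ hℓ
    have hℓ0 : 0 < ℓ := by linarith
    have e1 : ℓ ^ (-A') = ℓ ^ (-A) * ℓ ^ (-12 : ℝ) := by
      rw [← Real.rpow_add hℓ0]; congr 1; rw [hA']; ring
    have e2 : ℓ ^ (-12 : ℝ) = (ℓ ^ 12)⁻¹ := by
      rw [Real.rpow_neg hℓ0.le]; norm_cast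
    have e3 : 10 * ℓ ^ 2 / ℓ ^ A' = 10 * ℓ ^ 2 * ℓ ^ (-A') := by
      rw [Real.rpow_neg hℓ0.le, div_eq_mul_inv]
    rw [e3, e1, e2]
    have hp : 0 < ℓ ^ (-A) := by positivity
    have e4 : 2 * (1920 * ℓ ^ 8 * (4 * (ℓ ^ (-A) * (ℓ ^ 12)⁻¹) + 10 * ℓ ^ 2 * (ℓ ^ (-A) * (ℓ ^ 12)⁻¹))) =
        ℓ ^ (-A) * (3840 * (4 / ℓ ^ 4 + 10 / ℓ ^ 2)) := by
      field_simp
      ring
    rw [e4]
    have e5 : 4 / ℓ ^ 4 ≤ 4 / ℓ := by
      apply div_le_div_of_nonneg_left (by norm_num) hℓ0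
      calc ℓ = ℓ ^ 1 := (pow_one _).symm
        _ ≤ ℓ ^ 4 := pow_le_pow_right₀ (by linarith) (by norm_num)
    have e6 : 10 / ℓ ^ 2 ≤ 10 / ℓ := by
      apply div_le_div_of_nonneg_left (by norm_num) hℓ0
      calc ℓ = ℓ ^ 1 := (pow_one _).symm
        _ ≤ ℓ ^ 2 := pow_le_pow_right₀ (by linarith) (by norm_num)
    have e7 : 3840 * (4 / ℓ + 10 / ℓ) ≤ 1 / 3 := by
      rw [← add_div, ← mul_div_assoc, div_le_iff₀ hℓ0]; linarith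
    calc ℓ ^ (-A) * (3840 * (4 / ℓ ^ 4 + 10 / ℓ ^ 2)) ≤ ℓ ^ (-A) * (1 / 3) := by
          apply mul_le_mul_of_nonneg_left _ hp.le
          linarith
      _ = _ := by ring
  have ev4 : ∀ᶠ ℓ : ℝ in atTop, ℓ ^ (-A') * (2 * (1920 * ℓ ^ 8 * (4 * (5 * ℓ ^ 2) + 10 * ℓ ^ 2 / 1))) ≤
      ℓ ^ (-A) / 3 := by
    filter_upwards [eventually_ge_atTop (345600 : ℝ)] with ℓ hℓ
    have hℓ0 : 0 < ℓ := by linarith
    have e1 : ℓ ^ (-A') = ℓ ^ (-A) * ℓ ^ (-12 : ℝ) := by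
      rw [← Real.rpow_add hℓ0]; congr 1; rw [hA']; ring
    have e2 : ℓ ^ (-12 : ℝ) = (ℓ ^ 12)⁻¹ := by
      rw [Real.rpow_neg hℓ0.le]; norm_cast
    rw [e1, e2]
    have hp : 0 < ℓ ^ (-A) := by positivity
    have e4 : ℓ ^ (-A) * (ℓ ^ 12)⁻¹ * (2 * (1920 * ℓ ^ 8 * (4 * (5 * ℓ ^ 2) + 10 * ℓ ^ 2 / 1))) =
        ℓ ^ (-A) * (115200 / ℓ ^ 2) := by
      field_simp
      ring
    rw [e4]
    have e6 : 115200 / ℓ ^ 2 ≤ 115200 / ℓ := by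
      apply div_le_div_of_nonneg_left (by norm_num) hℓ0
      calc ℓ = ℓ ^ 1 := (pow_one _).symm
        _ ≤ ℓ ^ 2 := pow_le_pow_right₀ (by linarith) (by norm_num)
    have e7 : 115200 / ℓ ≤ 1 / 3 := by
      rw [div_le_iff₀ hℓ0]; linarith
    calc ℓ ^ (-A) * (115200 / ℓ ^ 2) ≤ ℓ ^ (-A) * (1 / 3) := by
          apply mul_le_mul_of_nonneg_left _ hp.le
          linarith
      _ = _ := by ring
  have ev5 : ∀ᶠ ℓ : ℝ in atTop, 308 * (1 + ℓ) ^ 3 * Real.exp (0.882 * ℓ) ≤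
      Real.exp ℓ * (ℓ ^ (-A) / 3) := by
    have h := isLittleO_rpow_exp_pos_mul_atTop (A + 3) (show (0 : ℝ) < 0.118 by norm_num)
    have h1 := h.bound (show (0 : ℝ) < 1 / 7392 by norm_num)
    filter_upwards [h1, eventually_ge_atTop (1 : ℝ)] with ℓ a b
    have hℓ0 : 0 < ℓ := by linarith
    rw [Real.norm_of_nonneg (by positivity), Real.norm_of_nonneg (by positivity)] at a
    have e1 : Real.exp ℓ = Real.exp (0.882 * ℓ) * Real.exp (0.118 * ℓ) := by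
      rw [← Real.exp_add]; congr 1; ring
    have e2 : (1 + ℓ) ^ 3 ≤ 8 * ℓ ^ 3 := by
      calc (1 + ℓ) ^ 3 ≤ (2 * ℓ) ^ 3 := pow_le_pow_left₀ (by linarith) (by linarith) 3
        _ = 8 * ℓ ^ 3 := by ring
    have e3 : ℓ ^ (A + 3) * ℓ ^ (-A) = ℓ ^ 3 := by
      rw [← Real.rpow_add hℓ0]
      have : A + 3 + -A = ((3 : ℕ) : ℝ) := by push_cast; ring
      rw [this, Real.rpow_natCast]
    have e4 : 7392 * ℓ ^ (A + 3) ≤ Real.exp (0.118 * ℓ) := by linarith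
    have hp : 0 < ℓ ^ (-A) := by positivity
    have hE : 0 < Real.exp (0.882 * ℓ) := Real.exp_pos _
    have e5 : 7392 * ℓ ^ 3 ≤ Real.exp (0.118 * ℓ) * ℓ ^ (-A) := by
      have := mul_le_mul_of_nonneg_right e4 hp.le
      rw [mul_assoc, e3] at this
      exact this
    rw [e1]
    calc 308 * (1 + ℓ) ^ 3 * Real.exp (0.882 * ℓ) ≤ 308 * (8 * ℓ ^ 3) * Real.exp (0.882 * ℓ) := by
          apply mul_le_mul_of_nonneg_right _ hE.le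
          linarith
      _ = (7392 * ℓ ^ 3) / 3 * Real.exp (0.882 * ℓ) := by ring
      _ ≤ (Real.exp (0.118 * ℓ) * ℓ ^ (-A)) / 3 * Real.exp (0.882 * ℓ) := by
          apply mul_le_mul_of_nonneg_right _ hE.le
          linarith
      _ = _ := by ring
  obtain ⟨L2, hL2⟩ := Filter.eventually_atTop.mp
    (ev1.and (ev2.and (ev3.and (ev4.and (ev5.and (eventually_ge_atTop (1000 : ℝ)))))))
  refine ⟨max L1 L2, fun ℓ hℓ => ?_⟩
  obtain ⟨c1, c2, c3, c4, c5, c6⟩ := hL2 ℓ ((le_max_right _ _).trans hℓ)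
  obtain ⟨q₁, hq₁, hq⟩ := hL1 ℓ ((le_max_left _ _).trans hℓ)
  refine ⟨q₁, hq₁, fun W hW1 hW D g hD => ?_⟩
  have hℓ0 : 0 < ℓ := by linarith
  have hℓ1 : 1 ≤ ℓ := by linarith
  have hlog2 : 0 < (Real.log ℓ) ^ 2 := by linarith
  have hW' : Real.log W ≤ ℓ / 1000 := by
    refine hW.trans ?_
    apply div_le_div_of_nonneg_left hℓ0.le (by norm_num)
    linarith
  set v := vH (1 / 50) ℓ with hv
  set D0 : ℝ := ℓ ^ (2 * A') with hD0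
  have hD0pos : 0 < D0 := by positivity
  set Ds := D.filter (fun d : ℕ => (d : ℝ) ≤ D0) with hDs
  set Dl := D.filter (fun d : ℕ => ¬ ((d : ℝ) ≤ D0)) with hDl
  have hDc : ∀ d ∈ D, 1 ≤ d ∧ (d : ℝ) ≤ Real.exp (ℓ / 300) ∧ Nat.Coprime d W := fun d hd =>
    ⟨(hD d hd).1, (hD d hd).2.1, (hD d hd).2.2.1⟩
  have hg1 : ∀ d ∈ D, g d ≤ 1 := by
    intro d hd
    refine (hD d hd).2.2.2.2.2.trans ?_
    have h1 : (1 : ℝ) ≤ d := by exact_mod_cast (hD d hd).1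
    exact Real.rpow_le_one_of_one_le_of_nonpos h1 (by norm_num)
  have hδℓ : 0 < (1 / 50 : ℝ) * ℓ := by positivity
  have hre : ∀ t : ℝ, (((1 + 1 / ℓ : ℝ) : ℂ) + t * I).re = 1 + 1 / ℓ := by
    intro t
    simp only [Complex.add_re, Complex.ofReal_re, Complex.mul_re, Complex.I_re, mul_zero,
      Complex.ofReal_im, Complex.I_im, mul_one, sub_self, add_zero]
  -- small moduli
  have hsm := block_bound ℓ c6 W hW1 hW' Ds (fun d hd => hDc d (Finset.mem_of_mem_filter d hd))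
    (ℓ ^ A') (ℓ ^ (-A')) (by positivity) (by positivity) (by
      intro d hd ξ hξ t ht
      rw [hDs, Finset.mem_filter] at hd
      obtain ⟨h1, h2, h3, h4, _⟩ := hD d hd.1
      have hpos : 0 < W * d := Nat.mul_pos hW1 h1
      have : NeZero (W * d) := ⟨by omega⟩
      apply rf_small_of_moll ξ (1 / 50) ℓ (by norm_num) hℓ1 t
      apply hq (W * d) _ h4 ξ ((mem_fam W d ξ).mp hξ).1 t ht
      have hWpos : (0 : ℝ) < W := by exact_mod_cast hW1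
      have hdpos : (0 : ℝ) < d := by exact_mod_cast h1
      push_cast
      rw [Real.log_mul hWpos.ne' hdpos.ne']
      have e1 : Real.log d ≤ 2 * A' * Real.log ℓ := by
        calc Real.log d ≤ Real.log D0 := Real.log_le_log hdpos hd.2
          _ = 2 * A' * Real.log ℓ := by rw [hD0, Real.log_rpow hℓ0]
      have e2 : ℓ / (Real.log ℓ) ^ 2 = ℓ / (2 * (Real.log ℓ) ^ 2) + ℓ / (2 * (Real.log ℓ) ^ 2) := by
        field_simp
        ring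
      linarith)
  -- large moduli
  have hlg := block_bound ℓ c6 W hW1 hW' Dl (fun d hd => hDc d (Finset.mem_of_mem_filter d hd))
    1 (5 * ℓ ^ 2) one_pos (by positivity) (by
      intro d hd ξ hξ t ht
      exact (LSeries_twc_rf ξ v (vH_nonneg _ _ hδℓ) (vH_le_one _ _ hδℓ) ℓ hℓ1 _ (hre t)).2.2)
  have htI := typeI_family ℓ c6 W hW1 hW' D hDc
  -- split
  have hsplit : ∀ d : ℕ, ∀ ξ : DirichletCharacter ℂ (W * d), ‖∑ n ∈ Ioc 0 ⌊Real.exp ℓ⌋₊,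
      (ξ (n : ℕ) * LamC n) * ((tent (Real.exp ℓ / 3) n : ℝ) : ℂ)‖ ≤
      ‖∑ n ∈ Ioc 0 ⌊Real.exp ℓ⌋₊, (ξ (n : ℕ) * T1 v n) * ((tent (Real.exp ℓ / 3) n : ℝ) : ℂ)‖ +
      ‖∑ n ∈ Ioc 0 ⌊Real.exp ℓ⌋₊, (ξ (n : ℕ) * (LamC * rf v ^ 3) n) *
        ((tent (Real.exp ℓ / 3) n : ℝ) : ℂ)‖ := by
    intro d ξ
    have e : ∑ n ∈ Ioc 0 ⌊Real.exp ℓ⌋₊, (ξ (n : ℕ) * LamC n) * ((tent (Real.exp ℓ / 3) n : ℝ) : ℂ) =
        ∑ n ∈ Ioc 0 ⌊Real.exp ℓ⌋₊, (ξ (n : ℕ) * T1 v n) * ((tent (Real.exp ℓ / 3) n : ℝ) : ℂ) +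
        ∑ n ∈ Ioc 0 ⌊Real.exp ℓ⌋₊, (ξ (n : ℕ) * (LamC * rf v ^ 3) n) *
          ((tent (Real.exp ℓ / 3) n : ℝ) : ℂ) := by
      rw [← Finset.sum_add_distrib]
      apply Finset.sum_congr rfl
      intro n _
      have h1 : LamC n = T1 v n + (LamC * rf v ^ 3) n := by
        conv_lhs => rw [Lam_ident' v]
        rfl
      rw [h1]
      ring
    rw [e]
    exact norm_add_le _ _
  set SI : (d : ℕ) → DirichletCharacter ℂ (W * d) → ℝ := fun d ξ => ‖∑ n ∈ Ioc 0 ⌊Real.exp ℓ⌋₊,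
    (ξ (n : ℕ) * T1 v n) * ((tent (Real.exp ℓ / 3) n : ℝ) : ℂ)‖ with hSI
  set SII : (d : ℕ) → DirichletCharacter ℂ (W * d) → ℝ := fun d ξ => ‖∑ n ∈ Ioc 0 ⌊Real.exp ℓ⌋₊,
    (ξ (n : ℕ) * (LamC * rf v ^ 3) n) * ((tent (Real.exp ℓ / 3) n : ℝ) : ℂ)‖ with hSII
  have hSI0 : ∀ d ξ, 0 ≤ SI d ξ := fun d ξ => norm_nonneg _
  have hSII0 : ∀ d ξ, 0 ≤ SII d ξ := fun d ξ => norm_nonneg _
  have hstep : ∑ d ∈ D, g d * ∑ ξ ∈ fam W d, ‖∑ n ∈ Ioc 0 ⌊Real.exp ℓ⌋₊,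
      (ξ (n : ℕ) * LamC n) * ((tent (Real.exp ℓ / 3) n : ℝ) : ℂ)‖ ≤
      ∑ d ∈ D, ∑ ξ ∈ fam W d, SI d ξ + (∑ d ∈ Ds, ∑ ξ ∈ fam W d, SII d ξ +
        ℓ ^ (-A') * ∑ d ∈ Dl, ∑ ξ ∈ fam W d, SII d ξ) := by
    have h1 : ∀ d ∈ D, g d * ∑ ξ ∈ fam W d, ‖∑ n ∈ Ioc 0 ⌊Real.exp ℓ⌋₊,
        (ξ (n : ℕ) * LamC n) * ((tent (Real.exp ℓ / 3) n : ℝ) : ℂ)‖ ≤
        ∑ ξ ∈ fam W d, SI d ξ + g d * ∑ ξ ∈ fam W d, SII d ξ := by
      intro d hd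
      have h2 : ∑ ξ ∈ fam W d, ‖∑ n ∈ Ioc 0 ⌊Real.exp ℓ⌋₊,
        (ξ (n : ℕ) * LamC n) * ((tent (Real.exp ℓ / 3) n : ℝ) : ℂ)‖ ≤
        ∑ ξ ∈ fam W d, SI d ξ + ∑ ξ ∈ fam W d, SII d ξ := by
        rw [← Finset.sum_add_distrib]
        exact Finset.sum_le_sum (fun ξ _ => hsplit d ξ)
      have h3 : 0 ≤ ∑ ξ ∈ fam W d, SI d ξ := Finset.sum_nonneg (fun ξ _ => hSI0 d ξ)
      have h4 := mul_le_mul_of_nonneg_left h2 (hD d hd).2.2.2.2.1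
      have h5 := mul_le_mul_of_nonneg_right (hg1 d hd) h3
      rw [mul_add] at h4
      linarith
    refine (Finset.sum_le_sum h1).trans ?_
    rw [Finset.sum_add_distrib]
    apply add_le_add le_rfl
    have h6 : ∑ d ∈ D, g d * ∑ ξ ∈ fam W d, SII d ξ = ∑ d ∈ Ds, g d * ∑ ξ ∈ fam W d, SII d ξ +
        ∑ d ∈ Dl, g d * ∑ ξ ∈ fam W d, SII d ξ := by
      rw [hDs, hDl, Finset.sum_filter_add_sum_filter_not]
    rw [h6]
    apply add_le_add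
    · apply Finset.sum_le_sum
      intro d hd
      have h7 : 0 ≤ ∑ ξ ∈ fam W d, SII d ξ := Finset.sum_nonneg (fun ξ _ => hSII0 d ξ)
      calc g d * ∑ ξ ∈ fam W d, SII d ξ ≤ 1 * ∑ ξ ∈ fam W d, SII d ξ :=
            mul_le_mul_of_nonneg_right (hg1 d (Finset.mem_of_mem_filter d hd)) h7
        _ = _ := one_mul _
    · rw [Finset.mul_sum]
      apply Finset.sum_le_sum
      intro d hd
      have h7 : 0 ≤ ∑ ξ ∈ fam W d, SII d ξ := Finset.sum_nonneg (fun ξ _ => hSII0 d ξ)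
      apply mul_le_mul_of_nonneg_right _ h7
      rw [hDl, Finset.mem_filter] at hd
      refine (hD d hd.1).2.2.2.2.2.trans ?_
      have h8 : D0 ≤ d := (not_le.mp hd.2).le
      have h9 : (d : ℝ) ^ (-(1 / 2) : ℝ) ≤ D0 ^ (-(1 / 2) : ℝ) :=
        Real.rpow_le_rpow_of_nonpos hD0pos h8 (by norm_num)
      refine h9.trans (le_of_eq ?_)
      rw [hD0, ← Real.rpow_mul hℓ0.le]
      congr 1; ring
  refine hstep.trans ?_
  have hE : 0 < Real.exp ℓ := Real.exp_pos _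
  have b1 : ∑ d ∈ D, ∑ ξ ∈ fam W d, SI d ξ ≤ Real.exp ℓ * (ℓ ^ (-A) / 3) := htI.trans c5
  have b2 : ∑ d ∈ Ds, ∑ ξ ∈ fam W d, SII d ξ ≤ Real.exp ℓ * (ℓ ^ (-A) / 3) := by
    refine hsm.trans ?_
    calc 2 * Real.exp ℓ * (1920 * ℓ ^ 8 * (4 * ℓ ^ (-A') + 10 * ℓ ^ 2 / ℓ ^ A')) =
        Real.exp ℓ * (2 * (1920 * ℓ ^ 8 * (4 * ℓ ^ (-A') + 10 * ℓ ^ 2 / ℓ ^ A'))) := by ring
      _ ≤ _ := mul_le_mul_of_nonneg_left c3 hE.le
  have b3 : ℓ ^ (-A') * ∑ d ∈ Dl, ∑ ξ ∈ fam W d, SII d ξ ≤ Real.exp ℓ * (ℓ ^ (-A) / 3) := by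
    have h1 : 0 ≤ ℓ ^ (-A') := by positivity
    refine (mul_le_mul_of_nonneg_left hlg h1).trans ?_
    calc ℓ ^ (-A') * (2 * Real.exp ℓ * (1920 * ℓ ^ 8 * (4 * (5 * ℓ ^ 2) + 10 * ℓ ^ 2 / 1))) =
        Real.exp ℓ * (ℓ ^ (-A') * (2 * (1920 * ℓ ^ 8 * (4 * (5 * ℓ ^ 2) + 10 * ℓ ^ 2 / 1)))) := by ring
      _ ≤ _ := mul_le_mul_of_nonneg_left c4 hE.le
  calc _ ≤ Real.exp ℓ * (ℓ ^ (-A) / 3) + (Real.exp ℓ * (ℓ ^ (-A) / 3) + Real.exp ℓ * (ℓ ^ (-A) / 3)) :=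
        add_le_add b1 (add_le_add b2 b3)
    _ = Real.exp ℓ * ℓ ^ (-A) := by ring

end Pool.Agent.H16
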