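import Pool.Agent.H16.VN
import Pool.Agent.H16.AN

/-!
Bombieri–Vinogradov type bound at level one half for large moduli, through Vaughan's identity.
-/

set_option autoImplicit false

open Complex Finset Filter Topology MeasureTheory
open scoped ComplexConjugate
open ArithmeticFunction (vonMangoldt moebius)
open DirichletCharacter

namespace Pool.Agent.H16

lemma exists_J (V M : ℕ) (hV : 1 ≤ V) (hVM : V ≤ M) : ∃ J : ℕ, M ≤ 2 ^ J * V ∧ 2 ^ J * V ≤ 2 * M := by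
  have hex : ∃ J : ℕ, M ≤ 2 ^ J * V := by
    refine ⟨M, ?_⟩
    have h1 : M < 2 ^ M := Nat.lt_two_pow_self
    have h2 : 2 ^ M * 1 ≤ 2 ^ M * V := Nat.mul_le_mul_left _ hV
    omega
  classical
  refine ⟨Nat.find hex, Nat.find_spec hex, ?_⟩
  rcases Nat.eq_zero_or_pos (Nat.find hex) with h | h
  · rw [h]; omega
  · have h1 := Nat.find_min hex (show Nat.find hex - 1 < Nat.find hex by omega)
    push Not at h1
    have e : 2 ^ (Nat.find hex) * V = 2 * (2 ^ (Nat.find hex - 1) * V) := by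
      obtain ⟨j, hj⟩ : ∃ j, Nat.find hex = j + 1 := ⟨Nat.find hex - 1, by omega⟩
      rw [hj, Nat.add_sub_cancel, pow_succ]; ring
    omega

lemma rst_conv2 (f g : ArithmeticFunction ℂ) (U V KJ N n : ℕ) (hn : n ≤ N)
    (hf : ∀ a, a ≤ V → f a = 0) (hg : ∀ b, b ≤ U → g b = 0) (hKJ : N / (U + 1) ≤ KJ) :
    (f * g) n = (rst f V KJ * g) n := by
  rw [ArithmeticFunction.mul_apply, ArithmeticFunction.mul_apply]
  apply Finset.sum_congr rfl
  rintro ⟨a, b⟩ hab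
  rw [Nat.mem_divisorsAntidiagonal] at hab
  simp only at hab ⊢
  by_cases hb : b ≤ U
  · rw [hg b hb, mul_zero, mul_zero]
  by_cases ha : a ≤ V
  · rw [hf a ha, zero_mul, rst_apply, if_neg (by rw [Finset.mem_Ioc]; omega), zero_mul]
  · congr 1
    rw [rst_apply, if_pos]
    rw [Finset.mem_Ioc]
    refine ⟨by omega, ?_⟩
    have h1 : a ≤ N / (U + 1) := by
      rw [Nat.le_div_iff_mul_le (by omega)]
      calc a * (U + 1) ≤ a * b := Nat.mul_le_mul_left a (by omega)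
        _ = n := hab.1
        _ ≤ N := hn
    omega

lemma tau_dyad (ℓ : ℝ) (hℓ : 1 ≤ ℓ) (K : ℕ) (hK : 1 ≤ K) (hKx : (2 * K : ℝ) ≤ Real.exp ℓ) :
    ∑ n ∈ Ioc K (2 * K), tauR n ^ 2 ≤ K * (6 * (1 + ℓ) ^ 4) := by
  have hℓ0 : 0 < ℓ := by linarith
  have hK0 : (0 : ℝ) < K := by exact_mod_cast hK
  have h1 := sum_tau_sq_le (1 / ℓ) (by positivity) (2 * K)
  rw [one_div_one_div] at h1
  have h2 : ∀ n ∈ Ioc K (2 * K), tauR n ^ 2 ≤ (6 * K) * (tauR n ^ 2 * (n : ℝ) ^ (-1 - 1 / ℓ)) := by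
    intro n hn
    rw [Finset.mem_Ioc] at hn
    have hn0 : (0 : ℝ) < n := by exact_mod_cast (show 0 < n by omega)
    have hn2 : (n : ℝ) ≤ 2 * K := by exact_mod_cast hn.2
    have h3 : (n : ℝ) ^ (1 + 1 / ℓ) ≤ 6 * K := by
      rw [Real.rpow_add hn0, Real.rpow_one]
      have h4 : (n : ℝ) ^ (1 / ℓ) ≤ 3 := by
        calc (n : ℝ) ^ (1 / ℓ) ≤ (Real.exp ℓ) ^ (1 / ℓ) :=
              Real.rpow_le_rpow hn0.le (hn2.trans hKx) (by positivity)
          _ = Real.exp 1 := by rw [← Real.exp_mul]; congr 1; field_simp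
          _ ≤ 3 := by have := Real.exp_one_lt_d9; linarith
      calc (n : ℝ) * (n : ℝ) ^ (1 / ℓ) ≤ (2 * K) * 3 :=
            mul_le_mul hn2 h4 (by positivity) (by positivity)
        _ = 6 * K := by ring
    have e : (n : ℝ) ^ (-1 - 1 / ℓ) = ((n : ℝ) ^ (1 + 1 / ℓ))⁻¹ := by
      rw [← Real.rpow_neg hn0.le]; congr 1; ring
    rw [e]
    have hp : 0 < (n : ℝ) ^ (1 + 1 / ℓ) := by positivity
    calc tauR n ^ 2 = (tauR n ^ 2 * ((n : ℝ) ^ (1 + 1 / ℓ))⁻¹) * (n : ℝ) ^ (1 + 1 / ℓ) := by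
          field_simp
      _ ≤ (tauR n ^ 2 * ((n : ℝ) ^ (1 + 1 / ℓ))⁻¹) * (6 * K) :=
          mul_le_mul_of_nonneg_left h3 (by positivity)
      _ = _ := by ring
  calc ∑ n ∈ Ioc K (2 * K), tauR n ^ 2 ≤
      ∑ n ∈ Ioc K (2 * K), (6 * K) * (tauR n ^ 2 * (n : ℝ) ^ (-1 - 1 / ℓ)) := Finset.sum_le_sum h2
    _ = (6 * K) * ∑ n ∈ Ioc K (2 * K), tauR n ^ 2 * (n : ℝ) ^ (-1 - 1 / ℓ) := by rw [Finset.mul_sum]
    _ ≤ (6 * K) * ∑ n ∈ Icc 1 (2 * K), tauR n ^ 2 * (n : ℝ) ^ (-1 - 1 / ℓ) := by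
        apply mul_le_mul_of_nonneg_left _ (by positivity)
        apply Finset.sum_le_sum_of_subset_of_nonneg
        · intro n hn
          rw [Finset.mem_Ioc] at hn
          rw [Finset.mem_Icc]; omega
        · intro n _ _; positivity
    _ ≤ (6 * K) * (1 + ℓ) ^ 4 := mul_le_mul_of_nonneg_left h1 (by positivity)
    _ = _ := by ring

lemma sum_norm_mvf_cut (V M : ℕ) : ∑ n ∈ Ioc 0 M, ‖mvf (vcut V) n‖ ≤ V := by
  have h1 : ∀ n ∈ Ioc 0 M, ‖mvf (vcut V) n‖ ≤ if n ≤ V then 1 else 0 := by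
    intro n _
    by_cases h : n ≤ V
    · rw [if_pos h]
      exact norm_mvf_le _ (vcut_nonneg V) (vcut_le_one V) n
    · rw [if_neg h, mvf_apply, vcut_eq_zero V n (by omega)]
      simp
  refine (Finset.sum_le_sum h1).trans ?_
  rw [← Finset.sum_filter, Finset.sum_const, nsmul_eq_mul, mul_one]
  have : #{n ∈ Ioc 0 M | n ≤ V} ≤ V := by
    calc #{n ∈ Ioc 0 M | n ≤ V} ≤ #(Ioc 0 V) := by
          apply Finset.card_le_card
          intro n hn
          rw [Finset.mem_filter, Finset.mem_Ioc] at hn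
          rw [Finset.mem_Ioc]; exact ⟨hn.1.1, hn.2⟩
      _ = V := by simp
  exact_mod_cast this

lemma sum_norm_LamLo (U M : ℕ) (L : ℝ) (hL : Real.log U ≤ L) (hL0 : 0 ≤ L) :
    ∑ n ∈ Ioc 0 M, ‖LamLo U n‖ ≤ U * L := by
  have h1 : ∀ n ∈ Ioc 0 M, ‖LamLo U n‖ ≤ if n ≤ U then L else 0 := by
    intro n hn
    rw [Finset.mem_Ioc] at hn
    by_cases h : n ≤ U
    · rw [if_pos h, LamLo_apply, if_pos h]
      refine (norm_LamC_le n).trans (le_trans ?_ hL)
      exact Real.log_le_log (by exact_mod_cast hn.1) (by exact_mod_cast h)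
    · rw [if_neg h, LamLo_apply, if_neg h, norm_zero]
  refine (Finset.sum_le_sum h1).trans ?_
  rw [← Finset.sum_filter, Finset.sum_const, nsmul_eq_mul]
  apply mul_le_mul_of_nonneg_right _ hL0
  have : #{n ∈ Ioc 0 M | n ≤ U} ≤ U := by
    calc #{n ∈ Ioc 0 M | n ≤ U} ≤ #(Ioc 0 U) := by
          apply Finset.card_le_card
          intro n hn
          rw [Finset.mem_filter, Finset.mem_Ioc] at hn
          rw [Finset.mem_Ioc]; exact ⟨hn.1.1, hn.2⟩
      _ = U := by simp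
  exact_mod_cast this

/-- the Vaughan decomposition summed over the family -/
theorem vaughan_sum (C : ℝ) (hC : 0 < C) (hls : FamLS C) (W : ℕ) (hW : 1 ≤ W) (D : Finset ℕ)
    (D0 D1 : ℕ) (hD0 : 1 ≤ D0) (hD01 : D0 ≤ D1)
    (hD : ∀ d ∈ D, D0 < d ∧ d ≤ D1 ∧ Nat.Coprime d W) (U V J : ℕ) (hU : 1 ≤ U) (hV : 1 ≤ V)
    (ℓ : ℝ) (hℓ : 1 < ℓ) (x0 : ℝ) (N : ℕ) (hN1 : 1 ≤ N) (hNx : (N : ℝ) ≤ Real.exp ℓ)
    (hN : Real.exp 1 * x0 ≤ N) (hx : x0 ^ (1 + 1 / ℓ) ≤ Real.exp ℓ)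
    (hJ : N / (U + 1) ≤ 2 ^ J * V) (hKx : 12 * ((2 ^ J * V : ℕ) : ℝ) ≤ x0)
    (hUx : Real.exp 1 * U ≤ x0) (hUℓ : Real.log U ≤ ℓ) :
    ∑ d ∈ D, 1 / (d : ℝ) * ∑ ξ ∈ fam W d, ‖∑ n ∈ Finset.Icc 1 N, (ξ (n : ℕ) * LamC n) *
      ((tent x0 n : ℝ) : ℂ)‖ ≤
      (W : ℝ) ^ 2 * (D1 : ℝ) ^ 2 * (V * ((8 * ℓ) * (1 + ℓ))) +
      (W : ℝ) ^ 2 * (D1 : ℝ) ^ 2 * ((U * ℓ * V) * (4 * (1 + ℓ))) +
      J * (Real.exp ℓ * (50 * C * (1 + 6 * (1 + ℓ) ^ 4 * ℓ ^ 2))) *
        (1 / D0 + W * (1 / √(V : ℝ) + √(((2 ^ J * V : ℕ) : ℝ) / x0)) * (1 + Real.log D1) +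
          2 * ((W : ℝ) ^ 2 / √x0) * D1) := by
  have hℓ0 : 0 < ℓ := by linarith
  have hVr : (1 : ℝ) ≤ V := by exact_mod_cast hV
  have hUr : (1 : ℝ) ≤ U := by exact_mod_cast hU
  have he1 : (1 : ℝ) ≤ Real.exp 1 := Real.one_le_exp (by norm_num)
  have hx0 : 0 < x0 := by nlinarith
  have hNr : (1 : ℝ) ≤ N := by exact_mod_cast hN1
  have hlogN : Real.log N ≤ ℓ := by
    calc Real.log N ≤ Real.log (Real.exp ℓ) := Real.log_le_log (by linarith) hNx
      _ = ℓ := Real.log_exp _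
  have hlogN0 : 0 ≤ Real.log (N : ℝ) := Real.log_natCast_nonneg _
  set m := mvf (vcut V) with hm
  set KJ := 2 ^ J * V with hKJ
  -- pointwise decomposition
  have hpt : ∀ d ∈ D, ∀ ξ ∈ fam W d, ‖∑ n ∈ Finset.Icc 1 N, (ξ (n : ℕ) * LamC n) *
      ((tent x0 n : ℝ) : ℂ)‖ ≤
      ‖∑ n ∈ Finset.Icc 1 N, (ξ (n : ℕ) * (m * logC) n) * ((tent x0 n : ℝ) : ℂ)‖ +
      ‖∑ n ∈ Finset.Icc 1 N, (ξ (n : ℕ) * (LamLo U * m * zC) n) * ((tent x0 n : ℝ) : ℂ)‖ +
      ‖∑ n ∈ Finset.Icc 1 N, (ξ (n : ℕ) * (rst (rf (vcut V)) V KJ * LamHi U) n) *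
        ((tent x0 n : ℝ) : ℂ)‖ := by
    intro d _ ξ _
    have e : ∑ n ∈ Finset.Icc 1 N, (ξ (n : ℕ) * LamC n) * ((tent x0 n : ℝ) : ℂ) =
        ∑ n ∈ Finset.Icc 1 N, (ξ (n : ℕ) * (m * logC) n) * ((tent x0 n : ℝ) : ℂ) -
        ∑ n ∈ Finset.Icc 1 N, (ξ (n : ℕ) * (LamLo U * m * zC) n) * ((tent x0 n : ℝ) : ℂ) +
        ∑ n ∈ Finset.Icc 1 N, (ξ (n : ℕ) * (rst (rf (vcut V)) V KJ * LamHi U) n) *
          ((tent x0 n : ℝ) : ℂ) := by
      rw [← Finset.sum_sub_distrib, ← Finset.sum_add_distrib]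
      apply Finset.sum_congr rfl
      intro n hn
      rw [Finset.mem_Icc] at hn
      have hn0 : (0 : ℝ) < n := by exact_mod_cast (show 0 < n by omega)
      have h1 : LamC n = (m * logC) n + LamLo U n - (LamLo U * m * zC) n +
          (rf (vcut V) * LamHi U) n := by
        conv_lhs => rw [vaughan U V]
        simp only [ArithmeticFunction.add_apply, sub_eq_add_neg, ArithmeticFunction.neg_apply]
        rfl
      have h2 : (rf (vcut V) * LamHi U) n = (rst (rf (vcut V)) V KJ * LamHi U) n :=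
        rst_conv2 _ _ U V KJ N n hn.2 (fun a ha => rf_apply_zero_of_le _ V
          (fun n hn => vcut_eq_one V n hn) a ha) (fun b hb => by rw [LamHi_apply, if_pos hb]) hJ
      have h3 : LamLo U n * ((tent x0 n : ℝ) : ℂ) = 0 := by
        by_cases hnU : n ≤ U
        · have : tent x0 n = 0 := by
            by_contra hc
            have h4 := (tent_supp x0 n hx0 hn0 hc).1
            rw [div_lt_iff₀ (Real.exp_pos 1)] at h4
            have h5 : (n : ℝ) ≤ U := by exact_mod_cast hnU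
            have h6 : (n : ℝ) * Real.exp 1 ≤ U * Real.exp 1 :=
              mul_le_mul_of_nonneg_right h5 (Real.exp_pos 1).le
            linarith
          rw [this]; simp
        · rw [LamLo_apply, if_neg hnU, zero_mul]
      rw [h1, h2]
      have h4 : ξ (n : ℕ) * ((m * logC) n + LamLo U n - (LamLo U * m * zC) n +
          (rst (rf (vcut V)) V KJ * LamHi U) n) * ((tent x0 n : ℝ) : ℂ) =
          ξ (n : ℕ) * (m * logC) n * ((tent x0 n : ℝ) : ℂ) -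
          ξ (n : ℕ) * (LamLo U * m * zC) n * ((tent x0 n : ℝ) : ℂ) +
          ξ (n : ℕ) * (rst (rf (vcut V)) V KJ * LamHi U) n * ((tent x0 n : ℝ) : ℂ) +
          ξ (n : ℕ) * (LamLo U n * ((tent x0 n : ℝ) : ℂ)) := by ring
      rw [h4, h3]
      ring
    rw [e]
    refine (norm_add_le _ _).trans (add_le_add (norm_sub_le _ _) le_rfl)
  have hsum : ∑ d ∈ D, 1 / (d : ℝ) * ∑ ξ ∈ fam W d, ‖∑ n ∈ Finset.Icc 1 N, (ξ (n : ℕ) * LamC n) *
      ((tent x0 n : ℝ) : ℂ)‖ ≤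
      ∑ d ∈ D, 1 / (d : ℝ) * ∑ ξ ∈ fam W d,
        ‖∑ n ∈ Finset.Icc 1 N, (ξ (n : ℕ) * (m * logC) n) * ((tent x0 n : ℝ) : ℂ)‖ +
      ∑ d ∈ D, 1 / (d : ℝ) * ∑ ξ ∈ fam W d,
        ‖∑ n ∈ Finset.Icc 1 N, (ξ (n : ℕ) * (LamLo U * m * zC) n) * ((tent x0 n : ℝ) : ℂ)‖ +
      ∑ d ∈ D, 1 / (d : ℝ) * ∑ ξ ∈ fam W d,
        ‖∑ n ∈ Finset.Icc 1 N, (ξ (n : ℕ) * (rst (rf (vcut V)) V KJ * LamHi U) n) *
        ((tent x0 n : ℝ) : ℂ)‖ := by
    rw [← Finset.sum_add_distrib, ← Finset.sum_add_distrib]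
    apply Finset.sum_le_sum
    intro d hd
    rw [← mul_add, ← mul_add, ← Finset.sum_add_distrib, ← Finset.sum_add_distrib]
    apply mul_le_mul_of_nonneg_left _ (by positivity)
    exact Finset.sum_le_sum (fun ξ hξ => hpt d hd ξ hξ)
  refine hsum.trans ?_
  have hD' : ∀ d ∈ D, 1 ≤ d ∧ d ≤ D1 := fun d hd => by
    obtain ⟨h1, h2, _⟩ := hD d hd
    omega
  apply add_le_add (add_le_add _ _) _
  · -- log
    refine (typeI_large W hW D D1 hD' m logC V (8 * ℓ) (by positivity) (by positivity) N hN1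
      (sum_norm_mvf_cut V N) ?_ x0 hx0).trans ?_
    · intro q _ ξ hξ n hn
      rcases Nat.eq_zero_or_pos n with rfl | hn0
      · simp; positivity
      have h1 := abel_bound (fun k => ξ (k : ℕ)) (fun k => Real.log k) (4 * q) 1 zero_le_one
        (by positivity) n (fun k _ => norm_sum_Ioc_char ξ hξ k) (by
          intro k hk _
          have hk0 : (0 : ℝ) < k := by exact_mod_cast hk
          have h2 : Real.log k ≤ Real.log (k + 1 : ℕ) := Real.log_le_log hk0 (by push_cast; linarith)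
          rw [abs_of_nonneg (by linarith), one_mul])
      have e : ∑ k ∈ Ioc 0 n, twc ξ logC k = ∑ k ∈ Ioc 0 n, ξ (k : ℕ) * ((Real.log k : ℝ) : ℂ) := rfl
      rw [e]
      refine h1.trans ?_
      have h3 : 0 ≤ Real.log n := Real.log_natCast_nonneg n
      rw [abs_of_nonneg h3]
      have h4 : Real.log n ≤ ℓ := by
        refine le_trans (Real.log_le_log (by exact_mod_cast hn0) ?_) hlogN
        exact_mod_cast hn
      calc 4 * (q : ℝ) * (Real.log n + 1 * Real.log n) ≤ 4 * (q : ℝ) * (ℓ + 1 * ℓ) := by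
            apply mul_le_mul_of_nonneg_left _ (by positivity); linarith
        _ = _ := by ring
    · apply mul_le_mul_of_nonneg_left _ (by positivity)
      apply mul_le_mul_of_nonneg_left _ (by positivity)
      apply mul_le_mul_of_nonneg_left _ (by positivity)
      linarith
  · refine (typeI_large W hW D D1 hD' (LamLo U * m) zC (U * ℓ * V) 4 (by positivity) (by norm_num) N
      hN1 ?_ ?_ x0 hx0).trans ?_
    · exact sum_norm_mul_le (LamLo U) m (U * ℓ) V (by positivity) N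
        (sum_norm_LamLo U N ℓ hUℓ hℓ0.le) (fun M _ => sum_norm_mvf_cut V M) (by linarith)
    · intro q _ ξ hξ n _
      have e : ∑ k ∈ Ioc 0 n, twc ξ zC k = ∑ k ∈ Ioc 0 n, ξ (k : ℕ) := by
        apply Finset.sum_congr rfl
        intro k hk
        rw [Finset.mem_Ioc] at hk
        rw [twc_apply, zC_apply k (by omega), mul_one]
      rw [e, mul_comm]
      exact norm_sum_Ioc_char ξ hξ n
    · apply mul_le_mul_of_nonneg_left _ (by positivity)
      apply mul_le_mul_of_nonneg_left _ (by positivity)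
      apply mul_le_mul_of_nonneg_left _ (by positivity)
      linarith
  · have he12 : (2 * (KJ : ℝ)) ≤ Real.exp ℓ := by
      have h1 : x0 ≤ Real.exp 1 * x0 := le_mul_of_one_le_left hx0.le he1
      have h2 : (0 : ℝ) ≤ (KJ : ℝ) := Nat.cast_nonneg _
      linarith
    refine bilin_large C hC hls W hW D D0 D1 hD0 hD01 hD (rst (rf (vcut V)) V KJ) (LamHi U) V J hV ℓ hℓ
      x0 N hN hx (6 * (1 + ℓ) ^ 4) (ℓ ^ 2) (by positivity) (by positivity) (rst_supp _ _ _) ?_ ?_ hKx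
    · intro K hK1 hKKJ
      have hK0 : (0 : ℝ) < K := by exact_mod_cast hK1
      have hKr : (K : ℝ) ≤ KJ := by exact_mod_cast hKKJ
      refine le_trans (Finset.sum_le_sum fun n hn => ?_) (tau_dyad ℓ hℓ.le K hK1 (by linarith))
      rw [Finset.mem_Ioc] at hn
      apply pow_le_pow_left₀ (norm_nonneg _)
      rw [rst_apply]
      split_ifs
      · exact norm_rf_le _ (vcut_nonneg V) (vcut_le_one V) (vcut_eq_one V 1 hV) n (by omega)
      · rw [norm_zero]; exact tauR_nonneg n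
    · intro n hn
      apply pow_le_pow_left₀ (norm_nonneg _)
      rw [LamHi_apply]
      split_ifs
      · rw [norm_zero]; exact hℓ0.le
      · rcases Nat.eq_zero_or_pos n with rfl | hn0
        · simp [hℓ0.le]
        · refine (norm_LamC_le n).trans (le_trans ?_ hlogN)
          exact Real.log_le_log (by exact_mod_cast hn0) (by exact_mod_cast hn)

end Pool.Agent.H16
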