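import Pool.Agent.H16.AN2

/-!
Level one half bound for the primes, large moduli, asymptotic form.
-/

set_option autoImplicit false

open Complex Finset Filter Topology MeasureTheory
open scoped ComplexConjugate
open ArithmeticFunction (vonMangoldt moebius)
open DirichletCharacter

namespace Pool.Agent.H16

lemma ev_exp_pow (c P K : ℝ) (hc : 0 < c) (hK : 0 < K) :
    ∀ᶠ ℓ : ℝ in atTop, K * ℓ ^ P * Real.exp (-(c * ℓ)) ≤ 1 := by
  have h := isLittleO_rpow_exp_pos_mul_atTop P hc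
  have h1 := h.bound (show (0 : ℝ) < 1 / K by positivity)
  filter_upwards [h1, eventually_ge_atTop (1 : ℝ)] with ℓ a b
  have hℓ0 : 0 < ℓ := by linarith
  rw [Real.norm_of_nonneg (by positivity), Real.norm_of_nonneg (by positivity)] at a
  rw [Real.exp_neg]
  have hE : 0 < Real.exp (c * ℓ) := Real.exp_pos _
  have h2 : K * ℓ ^ P ≤ Real.exp (c * ℓ) := by
    calc K * ℓ ^ P ≤ K * (1 / K * Real.exp (c * ℓ)) := mul_le_mul_of_nonneg_left a hK.le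
      _ = _ := by field_simp
  rw [← div_eq_mul_inv, div_le_one hE]
  exact h2

/-- the parameters `N = ⌊e^ℓ⌋`, `x0 = e^ℓ / 3` -/
lemma x0_facts (ℓ : ℝ) (hℓ : 10 ≤ ℓ) : Real.exp 1 * (Real.exp ℓ / 3) ≤ (⌊Real.exp ℓ⌋₊ : ℝ) ∧
    (Real.exp ℓ / 3) ^ (1 + 1 / ℓ) ≤ Real.exp ℓ ∧ 1 ≤ ⌊Real.exp ℓ⌋₊ ∧
    (⌊Real.exp ℓ⌋₊ : ℝ) ≤ Real.exp ℓ := by
  have hℓ0 : 0 < ℓ := by linarith
  have he3 : Real.exp 1 ≤ 2.72 := by have := Real.exp_one_lt_d9; linarith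
  have hbig : (1000 : ℝ) ≤ Real.exp ℓ := by
    have h1 : Real.exp 10 ≤ Real.exp ℓ := Real.exp_le_exp.mpr hℓ
    have h2 : Real.exp 10 = Real.exp 1 ^ 10 := by rw [← Real.exp_nat_mul]; norm_num
    have h3 : (2.7 : ℝ) ^ 10 ≤ Real.exp 1 ^ 10 :=
      pow_le_pow_left₀ (by norm_num) (by have := Real.exp_one_gt_d9; linarith) 10
    have h4 : (1000 : ℝ) ≤ 2.7 ^ 10 := by norm_num
    linarith
  refine ⟨?_, ?_, ?_, Nat.floor_le (Real.exp_pos _).le⟩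
  · have h3 : Real.exp ℓ < (⌊Real.exp ℓ⌋₊ : ℝ) + 1 := Nat.lt_floor_add_one _
    have h5 : Real.exp 1 * (Real.exp ℓ / 3) ≤ 2.72 * (Real.exp ℓ / 3) :=
      mul_le_mul_of_nonneg_right he3 (by positivity)
    linarith
  · have h1 : (0 : ℝ) < Real.exp ℓ / 3 := by positivity
    rw [Real.rpow_add h1, Real.rpow_one]
    have h2 : (Real.exp ℓ / 3) ^ (1 / ℓ) ≤ Real.exp 1 := by
      calc (Real.exp ℓ / 3) ^ (1 / ℓ) ≤ (Real.exp ℓ) ^ (1 / ℓ) := by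
            apply Real.rpow_le_rpow h1.le _ (by positivity)
            have := Real.exp_pos ℓ
            linarith
        _ = Real.exp 1 := by
            rw [← Real.exp_mul]; congr 1; field_simp
    calc Real.exp ℓ / 3 * (Real.exp ℓ / 3) ^ (1 / ℓ) ≤ Real.exp ℓ / 3 * 3 := by
          apply mul_le_mul_of_nonneg_left _ h1.le
          linarith
      _ = Real.exp ℓ := by ring
  · apply Nat.le_floor
    rw [Nat.cast_one]
    linarith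

/-- existence of the dyadic length `J`, with all size conditions -/
lemma J_facts (κ : ℝ) (hκ : 0 < κ) (hκ1 : κ ≤ 1 / 4) : ∀ᶠ ℓ : ℝ in atTop,
    ∃ J : ℕ, ⌊Real.exp ℓ⌋₊ / (⌊Real.exp (κ / 4 * ℓ)⌋₊ + 1) ≤ 2 ^ J * ⌊Real.exp (κ / 4 * ℓ)⌋₊ ∧
      12 * ((2 ^ J * ⌊Real.exp (κ / 4 * ℓ)⌋₊ : ℕ) : ℝ) ≤ Real.exp ℓ / 3 ∧ (J : ℝ) ≤ 2 * ℓ ∧
      √(((2 ^ J * ⌊Real.exp (κ / 4 * ℓ)⌋₊ : ℕ) : ℝ) / (Real.exp ℓ / 3)) ≤
        3 * Real.exp (-(κ / 8 * ℓ)) ∧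
      1 / √((⌊Real.exp (κ / 4 * ℓ)⌋₊ : ℕ) : ℝ) ≤ 2 * Real.exp (-(κ / 8 * ℓ)) ∧
      1 ≤ ⌊Real.exp (κ / 4 * ℓ)⌋₊ ∧ Real.exp 1 * (⌊Real.exp (κ / 4 * ℓ)⌋₊ : ℝ) ≤ Real.exp ℓ / 3 ∧
      Real.log (⌊Real.exp (κ / 4 * ℓ)⌋₊ : ℝ) ≤ ℓ := by
  filter_upwards [eventually_ge_atTop (20 / κ), eventually_ge_atTop (10 : ℝ)] with ℓ h1 h2
  have hℓ0 : 0 < ℓ := by linarith
  have hκℓ : 20 ≤ κ * ℓ := by rw [div_le_iff₀ hκ] at h1; linarith
  set u := Real.exp (κ / 4 * ℓ) with hu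
  set U := ⌊u⌋₊ with hU
  set N := ⌊Real.exp ℓ⌋₊ with hN
  have hu100 : 100 ≤ u := by
    have e1 : Real.exp 5 ≤ u := Real.exp_le_exp.mpr (by linarith)
    have e2 : Real.exp 5 = Real.exp 1 ^ 5 := by rw [← Real.exp_nat_mul]; norm_num
    have e3 : (2.7 : ℝ) ^ 5 ≤ Real.exp 1 ^ 5 :=
      pow_le_pow_left₀ (by norm_num) (by have := Real.exp_one_gt_d9; linarith) 5
    have e4 : (100 : ℝ) ≤ 2.7 ^ 5 := by norm_num
    linarith
  have hUle : (U : ℝ) ≤ u := Nat.floor_le (by linarith)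
  have hUlt : u < U + 1 := Nat.lt_floor_add_one _
  have hUge : u / 2 ≤ U := by linarith
  have hU99 : (99 : ℝ) ≤ U := by linarith
  have hU1 : 1 ≤ U := by
    have : (1 : ℝ) ≤ U := by linarith
    exact_mod_cast this
  obtain ⟨x1, x2, x3, x4⟩ := x0_facts ℓ h2
  have hNlt : Real.exp ℓ < N + 1 := Nat.lt_floor_add_one _
  have huu : u * u * u * u ≤ Real.exp (ℓ / 4) := by
    rw [hu, ← Real.exp_add, ← Real.exp_add, ← Real.exp_add]
    apply Real.exp_le_exp.mpr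
    linarith [mul_le_mul_of_nonneg_right hκ1 hℓ0.le]
  have hE4 : Real.exp ℓ = Real.exp (ℓ / 4) * Real.exp (ℓ / 4) * (Real.exp (ℓ / 4) * Real.exp (ℓ / 4)) := by
    rw [← Real.exp_add, ← Real.exp_add]; congr 1; ring
  have hE41 : 1 ≤ Real.exp (ℓ / 4) := Real.one_le_exp (by positivity)
  have hExp : Real.exp (ℓ / 4) ≤ Real.exp ℓ := Real.exp_le_exp.mpr (by linarith)
  have hu2 : 100 * (u * u) ≤ Real.exp ℓ := by
    have : 100 * (u * u) ≤ u * u * u * u := by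
      have h3 : 100 ≤ u * u := by clear * - hu100; nlinarith
      have h4 : 0 ≤ u * u := by positivity
      linarith [mul_le_mul_of_nonneg_right h3 h4]
    linarith
  -- V ≤ N / (U+1)
  have hVM : U ≤ N / (U + 1) := by
    rw [Nat.le_div_iff_mul_le (by omega)]
    have : ((U * (U + 1) : ℕ) : ℝ) < (N : ℝ) + 1 := by
      push_cast
      have h3 : (U : ℝ) * (U + 1) ≤ u * (2 * u) := mul_le_mul hUle (by linarith) (by positivity) (by positivity)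
      have h4 : 0 ≤ u * u := by positivity
      linarith
    have h4 : U * (U + 1) < N + 1 := by exact_mod_cast this
    omega
  obtain ⟨J, hJ1, hJ2⟩ := exists_J U (N / (U + 1)) hU1 hVM
  have hdiv : ((N / (U + 1) : ℕ) : ℝ) ≤ Real.exp ℓ / u := by
    have h3 : ((N / (U + 1) : ℕ) : ℝ) ≤ (N : ℝ) / ((U + 1 : ℕ) : ℝ) := Nat.cast_div_le
    refine h3.trans ?_
    push_cast
    exact div_le_div₀ (Real.exp_pos _).le x4 (by linarith) hUlt.le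
  have hKJ : ((2 ^ J * U : ℕ) : ℝ) ≤ 2 * (Real.exp ℓ / u) := by
    have : ((2 ^ J * U : ℕ) : ℝ) ≤ ((2 * (N / (U + 1)) : ℕ) : ℝ) := by exact_mod_cast hJ2
    refine this.trans ?_
    push_cast at hdiv ⊢
    linarith
  have hue : u = Real.exp (κ / 8 * ℓ) * Real.exp (κ / 8 * ℓ) := by
    rw [hu, ← Real.exp_add]; congr 1; ring
  refine ⟨J, hJ1, ?_, ?_, ?_, ?_, hU1, ?_, ?_⟩
  · have h3 : Real.exp ℓ / u ≤ Real.exp ℓ / 100 :=
      div_le_div_of_nonneg_left (Real.exp_pos _).le (by norm_num) hu100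
    have h4 := Real.exp_pos ℓ
    linarith
  · have h3 : (2 : ℝ) ^ J ≤ 2 * Real.exp ℓ := by
      have h4 : ((2 ^ J * U : ℕ) : ℝ) ≤ 2 * Real.exp ℓ := by
        refine hKJ.trans ?_
        have : Real.exp ℓ / u ≤ Real.exp ℓ := div_le_self (Real.exp_pos _).le (by linarith)
        linarith
      push_cast at h4
      have h5 : (2 : ℝ) ^ J * 1 ≤ (2 : ℝ) ^ J * U := by
        apply mul_le_mul_of_nonneg_left _ (by positivity); linarith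
      linarith
    have h4 : (J : ℝ) * Real.log 2 ≤ Real.log 2 + ℓ := by
      have := Real.log_le_log (by positivity) h3
      rwa [Real.log_pow, Real.log_mul (by norm_num) (Real.exp_pos _).ne', Real.log_exp] at this
    have h5 := Real.log_two_gt_d9
    have h6 := Real.log_two_lt_d9
    linarith [mul_le_mul_of_nonneg_left h5.le (Nat.cast_nonneg (α := ℝ) J)]
  · rw [show 3 * Real.exp (-(κ / 8 * ℓ)) = √((3 * Real.exp (-(κ / 8 * ℓ))) ^ 2) by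
      rw [Real.sqrt_sq (by positivity)]]
    apply Real.sqrt_le_sqrt
    rw [div_le_iff₀ (by positivity)]
    refine hKJ.trans ?_
    have e1 : (3 * Real.exp (-(κ / 8 * ℓ))) ^ 2 = 9 / u := by
      rw [Real.exp_neg, hue]
      field_simp
      ring
    rw [e1]
    have h3 := Real.exp_pos ℓ
    have : 9 / u * (Real.exp ℓ / 3) = 3 * (Real.exp ℓ / u) := by ring
    rw [this]
    have : 0 < Real.exp ℓ / u := by positivity
    linarith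
  · have h3 : Real.exp (κ / 8 * ℓ) / 2 ≤ √(U : ℝ) := by
      rw [show Real.exp (κ / 8 * ℓ) / 2 = √((Real.exp (κ / 8 * ℓ) / 2) ^ 2) by
        rw [Real.sqrt_sq (by positivity)]]
      apply Real.sqrt_le_sqrt
      have : (Real.exp (κ / 8 * ℓ) / 2) ^ 2 = u / 4 := by rw [hue]; ring
      rw [this]; linarith
    calc 1 / √(U : ℝ) ≤ 1 / (Real.exp (κ / 8 * ℓ) / 2) :=
          one_div_le_one_div_of_le (by positivity) h3
      _ = _ := by rw [Real.exp_neg]; field_simp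
  · have he3 : Real.exp 1 ≤ 3 := by have := Real.exp_one_lt_d9; linarith
    have h3 : Real.exp 1 * (U : ℝ) ≤ 3 * u := mul_le_mul he3 hUle (by positivity) (by norm_num)
    have h4 : 9 * u ≤ 100 * (u * u) := by
      have h5 : 0 ≤ u := by positivity
      linarith [mul_le_mul_of_nonneg_right hu100 h5]
    linarith
  · calc Real.log (U : ℝ) ≤ Real.log u := Real.log_le_log (by linarith) hUle
      _ = κ / 4 * ℓ := Real.log_exp _
      _ ≤ ℓ := by linarith [mul_le_mul_of_nonneg_right hκ1 hℓ0.le]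

/-- Level one half, large moduli, primes. -/
theorem AN2_large (C : ℝ) (hC : 0 < C) (hls : FamLS C) (κ : ℝ) (hκ : 0 < κ) (hκ1 : κ ≤ 1 / 4)
    (A : ℝ) (hA : 0 ≤ A) : ∃ L0 : ℝ, ∀ ℓ : ℝ, L0 ≤ ℓ → ∀ W : ℕ, 1 ≤ W →
    (W : ℝ) ≤ Real.exp (κ / 16 * ℓ) → ∀ D : Finset ℕ,
    (∀ d ∈ D, ℓ ^ (A + 12) ≤ (d : ℝ) ∧ (d : ℝ) ≤ Real.exp ((1 / 2 - κ) * ℓ) ∧ Nat.Coprime d W) →
    ∑ d ∈ D, 1 / (d : ℝ) * ∑ ξ ∈ fam W d, ‖∑ n ∈ Finset.Icc 1 ⌊Real.exp ℓ⌋₊,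
      (ξ (n : ℕ) * LamC n) * ((tent (Real.exp ℓ / 3) n : ℝ) : ℂ)‖ ≤ Real.exp ℓ * ℓ ^ (-A) := by
  have hJev := J_facts κ hκ hκ1
  have ev1 := ev_exp_pow κ (A + 2) 64 hκ (by norm_num)
  have ev2 := ev_exp_pow (κ / 16) (A + 8) (9700 * C * 100) (by positivity) (by positivity)
  have ev3 : ∀ᶠ ℓ : ℝ in atTop, 9700 * C * 16 ≤ ℓ := eventually_ge_atTop _
  have ev4 : ∀ᶠ ℓ : ℝ in atTop, ℓ ^ (A + 12) ≤ Real.exp ((1 / 2 - κ) * ℓ) := by
    have h := isLittleO_rpow_exp_pos_mul_atTop (A + 12) (show (0 : ℝ) < 1 / 2 - κ by linarith)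
    filter_upwards [h.bound one_pos, eventually_ge_atTop (1 : ℝ)] with ℓ a b
    rw [Real.norm_of_nonneg (by positivity), Real.norm_of_nonneg (by positivity), one_mul] at a
    exact a
  obtain ⟨L0, hL0⟩ := Filter.eventually_atTop.mp (hJev.and (ev1.and (ev2.and (ev3.and (ev4.and
    (eventually_ge_atTop (10 : ℝ)))))))
  refine ⟨L0, fun ℓ hℓ W hW1 hW D hD => ?_⟩
  obtain ⟨⟨J, j1, j2, j3, j4, j5, j6, j7, j8⟩, c1, c2, c3, c4, c5⟩ := hL0 ℓ hℓ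
  have hℓ0 : 0 < ℓ := by linarith
  have hℓ1 : 1 ≤ ℓ := by linarith
  obtain ⟨x1, x2, x3, x4⟩ := x0_facts ℓ c5
  set U := ⌊Real.exp (κ / 4 * ℓ)⌋₊ with hU
  set N := ⌊Real.exp ℓ⌋₊ with hN
  set R : ℝ := ℓ ^ (A + 12) with hR
  have hRbig : 10 ≤ R := by
    calc (10 : ℝ) ≤ ℓ := c5
      _ = ℓ ^ (1 : ℝ) := (Real.rpow_one _).symm
      _ ≤ R := Real.rpow_le_rpow_of_exponent_le hℓ1 (by linarith)
  set D0 := ⌊R / 2⌋₊ with hD0
  set D1 := ⌊Real.exp ((1 / 2 - κ) * ℓ)⌋₊ with hD1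
  have hD0le : (D0 : ℝ) ≤ R / 2 := Nat.floor_le (by linarith)
  have hD0lt : R / 2 < D0 + 1 := Nat.lt_floor_add_one _
  have hD0ge : R / 4 ≤ D0 := by linarith
  have hD0pos : (0 : ℝ) < D0 := by linarith
  have hD01 : 1 ≤ D0 := by exact_mod_cast hD0pos
  have hD1le : (D1 : ℝ) ≤ Real.exp ((1 / 2 - κ) * ℓ) := Nat.floor_le (Real.exp_pos _).le
  have hDD : D0 ≤ D1 := by
    apply Nat.floor_le_floor
    linarith
  have hUle : (U : ℝ) ≤ Real.exp (κ / 4 * ℓ) := Nat.floor_le (Real.exp_pos _).le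
  have hv := vaughan_sum C hC hls W hW1 D D0 D1 hD01 hDD (by
    intro d hd
    obtain ⟨h1, h2, h3⟩ := hD d hd
    refine ⟨?_, Nat.le_floor h2, h3⟩
    have : (D0 : ℝ) < d := by linarith
    exact_mod_cast this) U U J j6 j6 ℓ (by linarith) (Real.exp ℓ / 3) N x3 x4 x1 x2 j1 j2 j7 j8
  refine hv.trans ?_
  have hW0 : (1 : ℝ) ≤ W := by exact_mod_cast hW1
  have hE := Real.exp_pos ℓ
  have hp : 0 < ℓ ^ (-A) := by positivity
  -- term 1 and 2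
  have hWD : (W : ℝ) ^ 2 * (D1 : ℝ) ^ 2 * (Real.exp (κ / 4 * ℓ)) ^ 2 ≤ Real.exp ℓ * Real.exp (-(κ * ℓ)) := by
    calc (W : ℝ) ^ 2 * (D1 : ℝ) ^ 2 * (Real.exp (κ / 4 * ℓ)) ^ 2 ≤
        (Real.exp (κ / 16 * ℓ)) ^ 2 * (Real.exp ((1 / 2 - κ) * ℓ)) ^ 2 * (Real.exp (κ / 4 * ℓ)) ^ 2 := by
          apply mul_le_mul_of_nonneg_right _ (by positivity)
          exact mul_le_mul (pow_le_pow_left₀ (by linarith) hW 2)
            (pow_le_pow_left₀ (Nat.cast_nonneg _) hD1le 2) (by positivity) (by positivity)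
      _ = Real.exp (2 * (κ / 16 * ℓ) + 2 * ((1 / 2 - κ) * ℓ) + 2 * (κ / 4 * ℓ)) := by
          rw [Real.exp_add, Real.exp_add]
          simp only [← Real.exp_nat_mul]
          push_cast
          rfl
      _ ≤ Real.exp (ℓ + -(κ * ℓ)) := by
          apply Real.exp_le_exp.mpr
          linarith [mul_pos hκ hℓ0]
      _ = _ := Real.exp_add _ _
  have hE4 : 1 ≤ Real.exp (κ / 4 * ℓ) := Real.one_le_exp (by positivity)
  have h12 : (W : ℝ) ^ 2 * (D1 : ℝ) ^ 2 * (U * ((8 * ℓ) * (1 + ℓ))) +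
      (W : ℝ) ^ 2 * (D1 : ℝ) ^ 2 * ((U * ℓ * U) * (4 * (1 + ℓ))) ≤ Real.exp ℓ * (ℓ ^ (-A) / 2) := by
    have hWD0 : (0 : ℝ) ≤ (W : ℝ) ^ 2 * (D1 : ℝ) ^ 2 := by positivity
    have e1 : (U : ℝ) ≤ (Real.exp (κ / 4 * ℓ)) ^ 2 := hUle.trans (le_self_pow₀ hE4 (by norm_num))
    have e2 : (U : ℝ) * U ≤ (Real.exp (κ / 4 * ℓ)) ^ 2 := by
      rw [sq]; exact mul_le_mul hUle hUle (Nat.cast_nonneg _) (by positivity)
    have e3 : (W : ℝ) ^ 2 * (D1 : ℝ) ^ 2 * (U * ((8 * ℓ) * (1 + ℓ))) ≤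
        (W : ℝ) ^ 2 * (D1 : ℝ) ^ 2 * (Real.exp (κ / 4 * ℓ)) ^ 2 * (16 * ℓ ^ 2) := by
      have : (U : ℝ) * ((8 * ℓ) * (1 + ℓ)) ≤ (Real.exp (κ / 4 * ℓ)) ^ 2 * (16 * ℓ ^ 2) := by
        apply mul_le_mul e1 _ (by positivity) (by positivity)
        linarith [mul_le_mul_of_nonneg_left hℓ1 hℓ0.le]
      calc _ ≤ (W : ℝ) ^ 2 * (D1 : ℝ) ^ 2 * ((Real.exp (κ / 4 * ℓ)) ^ 2 * (16 * ℓ ^ 2)) :=
            mul_le_mul_of_nonneg_left this hWD0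
        _ = _ := by ring
    have e4 : (W : ℝ) ^ 2 * (D1 : ℝ) ^ 2 * ((U * ℓ * U) * (4 * (1 + ℓ))) ≤
        (W : ℝ) ^ 2 * (D1 : ℝ) ^ 2 * (Real.exp (κ / 4 * ℓ)) ^ 2 * (8 * ℓ ^ 2) := by
      have : ((U : ℝ) * ℓ * U) * (4 * (1 + ℓ)) ≤ (Real.exp (κ / 4 * ℓ)) ^ 2 * (8 * ℓ ^ 2) := by
        calc ((U : ℝ) * ℓ * U) * (4 * (1 + ℓ)) = (U * U) * (ℓ * (4 * (1 + ℓ))) := by ring
          _ ≤ (Real.exp (κ / 4 * ℓ)) ^ 2 * (8 * ℓ ^ 2) := by
              apply mul_le_mul e2 _ (by positivity) (by positivity)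
              linarith [mul_le_mul_of_nonneg_left hℓ1 hℓ0.le]
      calc _ ≤ (W : ℝ) ^ 2 * (D1 : ℝ) ^ 2 * ((Real.exp (κ / 4 * ℓ)) ^ 2 * (8 * ℓ ^ 2)) :=
            mul_le_mul_of_nonneg_left this hWD0
        _ = _ := by ring
    have e5 : Real.exp (-(κ * ℓ)) * (24 * ℓ ^ 2) ≤ ℓ ^ (-A) / 2 := by
      have e6 : 64 * ℓ ^ (A + 2) * Real.exp (-(κ * ℓ)) = (ℓ ^ (-A))⁻¹ * (64 * ℓ ^ 2 * Real.exp (-(κ * ℓ))) := by
        rw [Real.rpow_add hℓ0, Real.rpow_neg hℓ0.le, inv_inv]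
        norm_cast
        ring
      rw [e6, inv_mul_le_iff₀ hp, mul_one] at c1
      have h0 : 0 ≤ ℓ ^ 2 * Real.exp (-(κ * ℓ)) := by positivity
      linarith
    calc _ ≤ (W : ℝ) ^ 2 * (D1 : ℝ) ^ 2 * (Real.exp (κ / 4 * ℓ)) ^ 2 * (16 * ℓ ^ 2) +
          (W : ℝ) ^ 2 * (D1 : ℝ) ^ 2 * (Real.exp (κ / 4 * ℓ)) ^ 2 * (8 * ℓ ^ 2) := add_le_add e3 e4
      _ = (W : ℝ) ^ 2 * (D1 : ℝ) ^ 2 * (Real.exp (κ / 4 * ℓ)) ^ 2 * (24 * ℓ ^ 2) := by ring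
      _ ≤ (Real.exp ℓ * Real.exp (-(κ * ℓ))) * (24 * ℓ ^ 2) :=
          mul_le_mul_of_nonneg_right hWD (by positivity)
      _ = Real.exp ℓ * (Real.exp (-(κ * ℓ)) * (24 * ℓ ^ 2)) := by ring
      _ ≤ _ := mul_le_mul_of_nonneg_left e5 hE.le
  -- term 3
  have h3 : J * (Real.exp ℓ * (50 * C * (1 + 6 * (1 + ℓ) ^ 4 * ℓ ^ 2))) *
        (1 / D0 + W * (1 / √(U : ℝ) + √(((2 ^ J * U : ℕ) : ℝ) / (Real.exp ℓ / 3))) *
          (1 + Real.log D1) + 2 * ((W : ℝ) ^ 2 / √(Real.exp ℓ / 3)) * D1) ≤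
      Real.exp ℓ * (ℓ ^ (-A) / 2) := by
    set θ := Real.exp (-(κ / 16 * ℓ)) with hθ
    have hθ0 : 0 < θ := Real.exp_pos _
    have hlogD : 1 + Real.log D1 ≤ 2 * ℓ := by
      have hD1pos : (0 : ℝ) < D1 := by
        have : 0 < D1 := by omega
        exact_mod_cast this
      have : Real.log D1 ≤ (1 / 2 - κ) * ℓ := by
        calc Real.log D1 ≤ Real.log (Real.exp ((1 / 2 - κ) * ℓ)) := Real.log_le_log hD1pos hD1le
          _ = _ := Real.log_exp _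
      linarith [mul_pos hκ hℓ0]
    have hlogD0 : 0 ≤ 1 + Real.log D1 := by
      have := Real.log_natCast_nonneg D1
      linarith
    have f1 : 1 / (D0 : ℝ) ≤ 4 / R := by
      calc 1 / (D0 : ℝ) ≤ 1 / (R / 4) := one_div_le_one_div_of_le (by linarith) hD0ge
        _ = 4 / R := by rw [one_div_div]
    have f2 : W * (1 / √(U : ℝ) + √(((2 ^ J * U : ℕ) : ℝ) / (Real.exp ℓ / 3))) * (1 + Real.log D1) ≤
        10 * ℓ * θ := by
      have g1 : 1 / √(U : ℝ) + √(((2 ^ J * U : ℕ) : ℝ) / (Real.exp ℓ / 3)) ≤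
          5 * Real.exp (-(κ / 8 * ℓ)) := by linarith
      have g2 : Real.exp (κ / 16 * ℓ) * Real.exp (-(κ / 8 * ℓ)) = θ := by
        rw [hθ, ← Real.exp_add]; congr 1; ring
      calc W * (1 / √(U : ℝ) + √(((2 ^ J * U : ℕ) : ℝ) / (Real.exp ℓ / 3))) * (1 + Real.log D1) ≤
          Real.exp (κ / 16 * ℓ) * (5 * Real.exp (-(κ / 8 * ℓ))) * (2 * ℓ) := by
            apply mul_le_mul _ hlogD hlogD0 (by positivity)
            exact mul_le_mul hW g1 (by positivity) (by positivity)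
        _ = 10 * ℓ * (Real.exp (κ / 16 * ℓ) * Real.exp (-(κ / 8 * ℓ))) := by ring
        _ = _ := by rw [g2]
    have f3 : 2 * ((W : ℝ) ^ 2 / √(Real.exp ℓ / 3)) * D1 ≤ 4 * θ := by
      have hs : √(Real.exp ℓ / 3) = Real.exp (ℓ / 2) / √3 := by
        rw [Real.sqrt_div (Real.exp_pos _).le]
        congr 1
        rw [Real.sqrt_eq_iff_mul_self_eq (Real.exp_pos _).le (Real.exp_pos _).le, ← Real.exp_add]
        congr 1; ring
      have hs3 : √3 ≤ 2 := by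
        rw [show (2 : ℝ) = √(2 ^ 2) by rw [Real.sqrt_sq (by norm_num)]]
        apply Real.sqrt_le_sqrt; norm_num
      rw [hs]
      have g3 : (W : ℝ) ^ 2 * D1 ≤ (Real.exp (κ / 16 * ℓ)) ^ 2 * Real.exp ((1 / 2 - κ) * ℓ) :=
        mul_le_mul (pow_le_pow_left₀ (by linarith) hW 2) hD1le (Nat.cast_nonneg _) (by positivity)
      have g4 : (Real.exp (κ / 16 * ℓ)) ^ 2 * Real.exp ((1 / 2 - κ) * ℓ) ≤ Real.exp (ℓ / 2) * θ := by
        rw [hθ, ← Real.exp_add, ← Real.exp_nat_mul, ← Real.exp_add]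
        apply Real.exp_le_exp.mpr
        push_cast
        linarith [mul_pos hκ hℓ0]
      calc 2 * ((W : ℝ) ^ 2 / (Real.exp (ℓ / 2) / √3)) * D1 =
          2 * √3 * ((W : ℝ) ^ 2 * D1) / Real.exp (ℓ / 2) := by
            field_simp
        _ ≤ 2 * 2 * (Real.exp (ℓ / 2) * θ) / Real.exp (ℓ / 2) := by
            apply div_le_div_of_nonneg_right _ (Real.exp_pos _).le
            apply mul_le_mul _ (g3.trans g4) (by positivity) (by norm_num)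
            linarith
        _ = 4 * θ := by field_simp; norm_num
    have f4 : 50 * C * (1 + 6 * (1 + ℓ) ^ 4 * ℓ ^ 2) ≤ 50 * C * (97 * ℓ ^ 6) := by
      apply mul_le_mul_of_nonneg_left _ (by positivity)
      have g5 : (1 + ℓ) ^ 4 ≤ (2 * ℓ) ^ 4 := pow_le_pow_left₀ (by linarith) (by linarith) 4
      have g6 : (1 : ℝ) ≤ ℓ ^ 6 := one_le_pow₀ hℓ1
      have g7 : 6 * (1 + ℓ) ^ 4 * ℓ ^ 2 ≤ 6 * (2 * ℓ) ^ 4 * ℓ ^ 2 := by
        apply mul_le_mul_of_nonneg_right _ (by positivity)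
        linarith
      calc 1 + 6 * (1 + ℓ) ^ 4 * ℓ ^ 2 ≤ ℓ ^ 6 + 6 * (2 * ℓ) ^ 4 * ℓ ^ 2 := by linarith
        _ = 97 * ℓ ^ 6 := by ring
    have f5 : J * (Real.exp ℓ * (50 * C * (1 + 6 * (1 + ℓ) ^ 4 * ℓ ^ 2))) ≤
        Real.exp ℓ * (9700 * C * ℓ ^ 7) := by
      calc J * (Real.exp ℓ * (50 * C * (1 + 6 * (1 + ℓ) ^ 4 * ℓ ^ 2))) ≤
          (2 * ℓ) * (Real.exp ℓ * (50 * C * (97 * ℓ ^ 6))) := by
            apply mul_le_mul j3 _ (by positivity) (by positivity)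
            exact mul_le_mul_of_nonneg_left f4 hE.le
        _ = _ := by ring
    have f6 : 1 / D0 + W * (1 / √(U : ℝ) + √(((2 ^ J * U : ℕ) : ℝ) / (Real.exp ℓ / 3))) *
          (1 + Real.log D1) + 2 * ((W : ℝ) ^ 2 / √(Real.exp ℓ / 3)) * D1 ≤ 4 / R + 14 * ℓ * θ := by
      have : 4 * θ ≤ 4 * ℓ * θ := by linarith [mul_le_mul_of_nonneg_right hℓ1 hθ0.le]
      linarith
    have f7 : 9700 * C * ℓ ^ 7 * (4 / R) ≤ ℓ ^ (-A) / 4 := by
      have e1 : R = ℓ ^ A * ℓ ^ 12 := by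
        rw [hR, Real.rpow_add hℓ0]; norm_cast
      have e2 : ℓ ^ (-A) = 1 / ℓ ^ A := by rw [Real.rpow_neg hℓ0.le, one_div]
      rw [e1, e2]
      have hA0 : 0 < ℓ ^ A := by positivity
      have e3 : 9700 * C * ℓ ^ 7 * (4 / (ℓ ^ A * ℓ ^ 12)) = (9700 * C * 4 / ℓ ^ 5) * (1 / ℓ ^ A) := by
        field_simp
      rw [e3]
      have e4 : 9700 * C * 4 / ℓ ^ 5 ≤ 1 / 4 := by
        rw [div_le_iff₀ (by positivity)]
        have : ℓ ≤ ℓ ^ 5 := by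
          calc ℓ = ℓ ^ 1 := (pow_one _).symm
            _ ≤ ℓ ^ 5 := pow_le_pow_right₀ hℓ1 (by norm_num)
        linarith
      calc (9700 * C * 4 / ℓ ^ 5) * (1 / ℓ ^ A) ≤ 1 / 4 * (1 / ℓ ^ A) :=
            mul_le_mul_of_nonneg_right e4 (by positivity)
        _ = _ := by ring
    have f8 : 9700 * C * ℓ ^ 7 * (14 * ℓ * θ) ≤ ℓ ^ (-A) / 4 := by
      have e1 : 9700 * C * 100 * ℓ ^ (A + 8) * θ = (ℓ ^ (-A))⁻¹ * (9700 * C * 100 * ℓ ^ 8 * θ) := by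
        rw [Real.rpow_add hℓ0, Real.rpow_neg hℓ0.le, inv_inv]
        norm_cast
        ring
      rw [e1, inv_mul_le_iff₀ hp, mul_one] at c2
      have h0 : 0 ≤ C * ℓ ^ 8 * θ := by positivity
      have e2 : 9700 * C * ℓ ^ 7 * (14 * ℓ * θ) = 9700 * 14 * (C * ℓ ^ 8 * θ) := by ring
      have e3 : 9700 * C * 100 * ℓ ^ 8 * θ = 9700 * 100 * (C * ℓ ^ 8 * θ) := by ring
      rw [e2]
      rw [e3] at c2
      linarith
    calc _ ≤ Real.exp ℓ * (9700 * C * ℓ ^ 7) * (4 / R + 14 * ℓ * θ) := by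
          apply mul_le_mul f5 f6 _ (by positivity)
          have : (0 : ℝ) ≤ W * (1 / √(U : ℝ) + √(((2 ^ J * U : ℕ) : ℝ) / (Real.exp ℓ / 3))) := by
            positivity
          have := mul_nonneg this hlogD0
          positivity
      _ = Real.exp ℓ * (9700 * C * ℓ ^ 7 * (4 / R) + 9700 * C * ℓ ^ 7 * (14 * ℓ * θ)) := by ring
      _ ≤ Real.exp ℓ * (ℓ ^ (-A) / 4 + ℓ ^ (-A) / 4) := by
          apply mul_le_mul_of_nonneg_left _ hE.le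
          linarith
      _ = _ := by ring
  calc _ ≤ Real.exp ℓ * (ℓ ^ (-A) / 2) + Real.exp ℓ * (ℓ ^ (-A) / 2) := add_le_add h12 h3
    _ = _ := by ring

end Pool.Agent.H16
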