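import Pool.Agent.H16.AN2b

/-!
Level one half bound for bilinear sequences, large moduli.
-/

set_option autoImplicit false

open Complex Finset Filter Topology MeasureTheory
open scoped ComplexConjugate
open ArithmeticFunction (vonMangoldt moebius)
open DirichletCharacter

namespace Pool.Agent.H16

/-- Level one half, large moduli, bilinear sequences. -/
theorem AN3_large (C : ℝ) (hC : 0 < C) (hls : FamLS C) (κ : ℝ) (hκ : 0 < κ) (hκ1 : κ ≤ 1 / 4)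
    (A : ℝ) (hA : 0 ≤ A) : ∃ L0 : ℝ, ∀ ℓ : ℝ, L0 ≤ ℓ → ∀ W : ℕ, 1 ≤ W →
    (W : ℝ) ≤ Real.exp (κ / 16 * ℓ) → ∀ D : Finset ℕ,
    (∀ d ∈ D, ℓ ^ (A + 12) ≤ (d : ℝ) ∧ (d : ℝ) ≤ Real.exp ((1 / 2 - κ) * ℓ) ∧ Nat.Coprime d W) →
    ∀ f g : ArithmeticFunction ℂ, (∀ n, ‖f n‖ ≤ 1) → (∀ n ≤ ⌊Real.exp ℓ⌋₊, ‖g n‖ ≤ ℓ) →
    (∀ n, n ≤ ⌊Real.exp (κ / 4 * ℓ)⌋₊ → f n = 0) → (∀ n, n ≤ ⌊Real.exp (κ / 4 * ℓ)⌋₊ → g n = 0) →
    ∑ d ∈ D, 1 / (d : ℝ) * ∑ ξ ∈ fam W d, ‖∑ n ∈ Finset.Icc 1 ⌊Real.exp ℓ⌋₊,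
      (ξ (n : ℕ) * (f * g) n) * ((tent (Real.exp ℓ / 3) n : ℝ) : ℂ)‖ ≤ Real.exp ℓ * ℓ ^ (-A) := by
  have hJev := J_facts κ hκ hκ1
  have ev2 := ev_exp_pow (κ / 16) (A + 8) (9700 * C * 100) (by positivity) (by positivity)
  have ev3 : ∀ᶠ ℓ : ℝ in atTop, 9700 * C * 16 ≤ ℓ := eventually_ge_atTop _
  have ev4 : ∀ᶠ ℓ : ℝ in atTop, ℓ ^ (A + 12) ≤ Real.exp ((1 / 2 - κ) * ℓ) := by
    have h := isLittleO_rpow_exp_pos_mul_atTop (A + 12) (show (0 : ℝ) < 1 / 2 - κ by linarith)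
    filter_upwards [h.bound one_pos, eventually_ge_atTop (1 : ℝ)] with ℓ a b
    rw [Real.norm_of_nonneg (by positivity), Real.norm_of_nonneg (by positivity), one_mul] at a
    exact a
  obtain ⟨L0, hL0⟩ := Filter.eventually_atTop.mp (hJev.and (ev2.and (ev3.and (ev4.and
    (eventually_ge_atTop (10 : ℝ))))))
  refine ⟨L0, fun ℓ hℓ W hW1 hW D hD f g hf1 hg1 hf0 hg0 => ?_⟩
  obtain ⟨⟨J, j1, j2, j3, j4, j5, j6, j7, j8⟩, c2, c3, c4, c5⟩ := hL0 ℓ hℓ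
  have hℓ0 : 0 < ℓ := by linarith
  have hℓ1 : 1 ≤ ℓ := by linarith
  obtain ⟨x1, x2, x3, x4⟩ := x0_facts ℓ c5
  set U := ⌊Real.exp (κ / 4 * ℓ)⌋₊ with hU
  set N := ⌊Real.exp ℓ⌋₊ with hN
  set R : ℝ := ℓ ^ (A + 12) with hR
  have hRbig : 10 ≤ R := by
    calc (10 : ℝ) ≤ ℓ := c5
      _ = ℓ ^ (1 : ℝ) := (Real.rpow_one _).symm
      _ ≤ R := Real.rpow_le_rpow_of_exponent_le hℓ1 (by linarith)
  set D0 := ⌊R / 2⌋₊ with hD0
  set D1 := ⌊Real.exp ((1 / 2 - κ) * ℓ)⌋₊ with hD1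
  have hD0le : (D0 : ℝ) ≤ R / 2 := Nat.floor_le (by linarith)
  have hD0lt : R / 2 < D0 + 1 := Nat.lt_floor_add_one _
  have hD0ge : R / 4 ≤ D0 := by linarith
  have hD0pos : (0 : ℝ) < D0 := by linarith
  have hD01 : 1 ≤ D0 := by exact_mod_cast hD0pos
  have hD1le : (D1 : ℝ) ≤ Real.exp ((1 / 2 - κ) * ℓ) := Nat.floor_le (Real.exp_pos _).le
  have hDD : D0 ≤ D1 := by
    apply Nat.floor_le_floor
    linarith
  have hW0 : (1 : ℝ) ≤ W := by exact_mod_cast hW1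
  have hE := Real.exp_pos ℓ
  have hp : 0 < ℓ ^ (-A) := by positivity
  set KJ := 2 ^ J * U with hKJ
  have e : ∑ d ∈ D, 1 / (d : ℝ) * ∑ ξ ∈ fam W d, ‖∑ n ∈ Finset.Icc 1 N,
      (ξ (n : ℕ) * (f * g) n) * ((tent (Real.exp ℓ / 3) n : ℝ) : ℂ)‖ =
      ∑ d ∈ D, 1 / (d : ℝ) * ∑ ξ ∈ fam W d, ‖∑ n ∈ Finset.Icc 1 N,
      (ξ (n : ℕ) * (rst f U KJ * g) n) * ((tent (Real.exp ℓ / 3) n : ℝ) : ℂ)‖ := by
    apply Finset.sum_congr rfl; intro d _
    congr 1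
    apply Finset.sum_congr rfl; intro ξ _
    congr 1
    apply Finset.sum_congr rfl; intro n hn
    rw [Finset.mem_Icc] at hn
    rw [rst_conv2 f g U U KJ N n hn.2 hf0 hg0 j1]
  rw [e]
  have hb := bilin_large C hC hls W hW1 D D0 D1 hD01 hDD (by
    intro d hd
    obtain ⟨h1, h2, h3⟩ := hD d hd
    refine ⟨?_, Nat.le_floor h2, h3⟩
    have : (D0 : ℝ) < d := by linarith
    exact_mod_cast this) (rst f U KJ) g U J j6 ℓ (by linarith) (Real.exp ℓ / 3) N x1 x2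
    (6 * (1 + ℓ) ^ 4) (ℓ ^ 2) (by positivity) (by positivity) (rst_supp _ _ _) (by
      intro K hK1 _
      have h1 : ∀ n ∈ Ioc K (2 * K), ‖rst f U KJ n‖ ^ 2 ≤ 1 := by
        intro n _
        rw [rst_apply]
        split_ifs
        · exact pow_le_one₀ (norm_nonneg _) (hf1 n)
        · rw [norm_zero]; norm_num
      refine (Finset.sum_le_sum h1).trans ?_
      rw [Finset.sum_const, Nat.card_Ioc, nsmul_eq_mul, mul_one]
      have h2 : ((2 * K - K : ℕ) : ℝ) = K := by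
        have : 2 * K - K = K := by omega
        rw [this]
      rw [h2]
      have h3 : (1 : ℝ) ≤ 6 * (1 + ℓ) ^ 4 := by
        have : (1 : ℝ) ≤ (1 + ℓ) ^ 4 := one_le_pow₀ (by linarith)
        linarith
      exact le_mul_of_one_le_right (Nat.cast_nonneg _) h3) (by
      intro n hn
      exact pow_le_pow_left₀ (norm_nonneg _) (hg1 n hn) 2) j2
  refine hb.trans ?_
  -- term 3
  have h3 : J * (Real.exp ℓ * (50 * C * (1 + 6 * (1 + ℓ) ^ 4 * ℓ ^ 2))) *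
        (1 / D0 + W * (1 / √(U : ℝ) + √(((2 ^ J * U : ℕ) : ℝ) / (Real.exp ℓ / 3))) *
          (1 + Real.log D1) + 2 * ((W : ℝ) ^ 2 / √(Real.exp ℓ / 3)) * D1) ≤
      Real.exp ℓ * (ℓ ^ (-A) / 2) := by
    set θ := Real.exp (-(κ / 16 * ℓ)) with hθ
    have hθ0 : 0 < θ := Real.exp_pos _
    have hlogD : 1 + Real.log D1 ≤ 2 * ℓ := by
      have hD1pos : (0 : ℝ) < D1 := by
        have : 0 < D1 := by omega
        exact_mod_cast this
      have : Real.log D1 ≤ (1 / 2 - κ) * ℓ := by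
        calc Real.log D1 ≤ Real.log (Real.exp ((1 / 2 - κ) * ℓ)) := Real.log_le_log hD1pos hD1le
          _ = _ := Real.log_exp _
      linarith [mul_pos hκ hℓ0]
    have hlogD0 : 0 ≤ 1 + Real.log D1 := by
      have := Real.log_natCast_nonneg D1
      linarith
    have f1 : 1 / (D0 : ℝ) ≤ 4 / R := by
      calc 1 / (D0 : ℝ) ≤ 1 / (R / 4) := one_div_le_one_div_of_le (by linarith) hD0ge
        _ = 4 / R := by rw [one_div_div]
    have f2 : W * (1 / √(U : ℝ) + √(((2 ^ J * U : ℕ) : ℝ) / (Real.exp ℓ / 3))) * (1 + Real.log D1) ≤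
        10 * ℓ * θ := by
      have g1 : 1 / √(U : ℝ) + √(((2 ^ J * U : ℕ) : ℝ) / (Real.exp ℓ / 3)) ≤
          5 * Real.exp (-(κ / 8 * ℓ)) := by linarith
      have g2 : Real.exp (κ / 16 * ℓ) * Real.exp (-(κ / 8 * ℓ)) = θ := by
        rw [hθ, ← Real.exp_add]; congr 1; ring
      calc W * (1 / √(U : ℝ) + √(((2 ^ J * U : ℕ) : ℝ) / (Real.exp ℓ / 3))) * (1 + Real.log D1) ≤
          Real.exp (κ / 16 * ℓ) * (5 * Real.exp (-(κ / 8 * ℓ))) * (2 * ℓ) := by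
            apply mul_le_mul _ hlogD hlogD0 (by positivity)
            exact mul_le_mul hW g1 (by positivity) (by positivity)
        _ = 10 * ℓ * (Real.exp (κ / 16 * ℓ) * Real.exp (-(κ / 8 * ℓ))) := by ring
        _ = _ := by rw [g2]
    have f3 : 2 * ((W : ℝ) ^ 2 / √(Real.exp ℓ / 3)) * D1 ≤ 4 * θ := by
      have hs : √(Real.exp ℓ / 3) = Real.exp (ℓ / 2) / √3 := by
        rw [Real.sqrt_div (Real.exp_pos _).le]
        congr 1
        rw [Real.sqrt_eq_iff_mul_self_eq (Real.exp_pos _).le (Real.exp_pos _).le, ← Real.exp_add]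
        congr 1; ring
      have hs3 : √3 ≤ 2 := by
        rw [show (2 : ℝ) = √(2 ^ 2) by rw [Real.sqrt_sq (by norm_num)]]
        apply Real.sqrt_le_sqrt; norm_num
      rw [hs]
      have g3 : (W : ℝ) ^ 2 * D1 ≤ (Real.exp (κ / 16 * ℓ)) ^ 2 * Real.exp ((1 / 2 - κ) * ℓ) :=
        mul_le_mul (pow_le_pow_left₀ (by linarith) hW 2) hD1le (Nat.cast_nonneg _) (by positivity)
      have g4 : (Real.exp (κ / 16 * ℓ)) ^ 2 * Real.exp ((1 / 2 - κ) * ℓ) ≤ Real.exp (ℓ / 2) * θ := by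
        rw [hθ, ← Real.exp_add, ← Real.exp_nat_mul, ← Real.exp_add]
        apply Real.exp_le_exp.mpr
        push_cast
        linarith [mul_pos hκ hℓ0]
      calc 2 * ((W : ℝ) ^ 2 / (Real.exp (ℓ / 2) / √3)) * D1 =
          2 * √3 * ((W : ℝ) ^ 2 * D1) / Real.exp (ℓ / 2) := by
            field_simp
        _ ≤ 2 * 2 * (Real.exp (ℓ / 2) * θ) / Real.exp (ℓ / 2) := by
            apply div_le_div_of_nonneg_right _ (Real.exp_pos _).le
            apply mul_le_mul _ (g3.trans g4) (by positivity) (by norm_num)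
            linarith
        _ = 4 * θ := by field_simp; norm_num
    have f4 : 50 * C * (1 + 6 * (1 + ℓ) ^ 4 * ℓ ^ 2) ≤ 50 * C * (97 * ℓ ^ 6) := by
      apply mul_le_mul_of_nonneg_left _ (by positivity)
      have g5 : (1 + ℓ) ^ 4 ≤ (2 * ℓ) ^ 4 := pow_le_pow_left₀ (by linarith) (by linarith) 4
      have g6 : (1 : ℝ) ≤ ℓ ^ 6 := one_le_pow₀ hℓ1
      have g7 : 6 * (1 + ℓ) ^ 4 * ℓ ^ 2 ≤ 6 * (2 * ℓ) ^ 4 * ℓ ^ 2 := by
        apply mul_le_mul_of_nonneg_right _ (by positivity)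
        linarith
      calc 1 + 6 * (1 + ℓ) ^ 4 * ℓ ^ 2 ≤ ℓ ^ 6 + 6 * (2 * ℓ) ^ 4 * ℓ ^ 2 := by linarith
        _ = 97 * ℓ ^ 6 := by ring
    have f5 : J * (Real.exp ℓ * (50 * C * (1 + 6 * (1 + ℓ) ^ 4 * ℓ ^ 2))) ≤
        Real.exp ℓ * (9700 * C * ℓ ^ 7) := by
      calc J * (Real.exp ℓ * (50 * C * (1 + 6 * (1 + ℓ) ^ 4 * ℓ ^ 2))) ≤
          (2 * ℓ) * (Real.exp ℓ * (50 * C * (97 * ℓ ^ 6))) := by
            apply mul_le_mul j3 _ (by positivity) (by positivity)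
            exact mul_le_mul_of_nonneg_left f4 hE.le
        _ = _ := by ring
    have f6 : 1 / D0 + W * (1 / √(U : ℝ) + √(((2 ^ J * U : ℕ) : ℝ) / (Real.exp ℓ / 3))) *
          (1 + Real.log D1) + 2 * ((W : ℝ) ^ 2 / √(Real.exp ℓ / 3)) * D1 ≤ 4 / R + 14 * ℓ * θ := by
      have : 4 * θ ≤ 4 * ℓ * θ := by linarith [mul_le_mul_of_nonneg_right hℓ1 hθ0.le]
      linarith
    have f7 : 9700 * C * ℓ ^ 7 * (4 / R) ≤ ℓ ^ (-A) / 4 := by
      have e1 : R = ℓ ^ A * ℓ ^ 12 := by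
        rw [hR, Real.rpow_add hℓ0]; norm_cast
      have e2 : ℓ ^ (-A) = 1 / ℓ ^ A := by rw [Real.rpow_neg hℓ0.le, one_div]
      rw [e1, e2]
      have hA0 : 0 < ℓ ^ A := by positivity
      have e3 : 9700 * C * ℓ ^ 7 * (4 / (ℓ ^ A * ℓ ^ 12)) = (9700 * C * 4 / ℓ ^ 5) * (1 / ℓ ^ A) := by
        field_simp
      rw [e3]
      have e4 : 9700 * C * 4 / ℓ ^ 5 ≤ 1 / 4 := by
        rw [div_le_iff₀ (by positivity)]
        have : ℓ ≤ ℓ ^ 5 := by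
          calc ℓ = ℓ ^ 1 := (pow_one _).symm
            _ ≤ ℓ ^ 5 := pow_le_pow_right₀ hℓ1 (by norm_num)
        linarith
      calc (9700 * C * 4 / ℓ ^ 5) * (1 / ℓ ^ A) ≤ 1 / 4 * (1 / ℓ ^ A) :=
            mul_le_mul_of_nonneg_right e4 (by positivity)
        _ = _ := by ring
    have f8 : 9700 * C * ℓ ^ 7 * (14 * ℓ * θ) ≤ ℓ ^ (-A) / 4 := by
      have e1 : 9700 * C * 100 * ℓ ^ (A + 8) * θ = (ℓ ^ (-A))⁻¹ * (9700 * C * 100 * ℓ ^ 8 * θ) := by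
        rw [Real.rpow_add hℓ0, Real.rpow_neg hℓ0.le, inv_inv]
        norm_cast
        ring
      rw [e1, inv_mul_le_iff₀ hp, mul_one] at c2
      have h0 : 0 ≤ C * ℓ ^ 8 * θ := by positivity
      have e2 : 9700 * C * ℓ ^ 7 * (14 * ℓ * θ) = 9700 * 14 * (C * ℓ ^ 8 * θ) := by ring
      have e3 : 9700 * C * 100 * ℓ ^ 8 * θ = 9700 * 100 * (C * ℓ ^ 8 * θ) := by ring
      rw [e2]
      rw [e3] at c2
      linarith
    calc _ ≤ Real.exp ℓ * (9700 * C * ℓ ^ 7) * (4 / R + 14 * ℓ * θ) := by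
          apply mul_le_mul f5 f6 _ (by positivity)
          have : (0 : ℝ) ≤ W * (1 / √(U : ℝ) + √(((2 ^ J * U : ℕ) : ℝ) / (Real.exp ℓ / 3))) := by
            positivity
          have := mul_nonneg this hlogD0
          positivity
      _ = Real.exp ℓ * (9700 * C * ℓ ^ 7 * (4 / R) + 9700 * C * ℓ ^ 7 * (14 * ℓ * θ)) := by ring
      _ ≤ Real.exp ℓ * (ℓ ^ (-A) / 4 + ℓ ^ (-A) / 4) := by
          apply mul_le_mul_of_nonneg_left _ hE.le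
          linarith
      _ = _ := by ring
  refine h3.trans ?_
  apply mul_le_mul_of_nonneg_left _ hE.le
  linarith

end Pool.Agent.H16
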