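import Pool.Agent.H16.SB3
import Pool.Agent.H90.MLS

/-!
Level one half: final analytic theorems (primes; products `k p`).
-/

set_option autoImplicit false

open Complex Finset Filter Topology MeasureTheory
open scoped ComplexConjugate
open ArithmeticFunction (vonMangoldt moebius)
open DirichletCharacter

namespace Pool.Agent.H16

theorem mlsProp : MLSProp := by
  classical
  refine ⟨4 * Real.pi, by positivity, fun Q M N a => ?_⟩
  refine le_trans ?_ (Pool.Agent.H90.MLS.mult_large_sieve Q M N a)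
  apply Finset.sum_le_sum
  intro q hq
  rw [Finset.mem_Icc] at hq
  have hφ : (0 : ℝ) < (q.totient : ℝ) := by exact_mod_cast Nat.totient_pos.mpr hq.1
  have h1 : (1 : ℝ) ≤ (q : ℝ) / q.totient := by
    rw [le_div_iff₀ hφ, one_mul]
    exact_mod_cast Nat.totient_le q
  exact le_mul_of_one_le_left (Finset.sum_nonneg (fun _ _ => by positivity)) h1

theorem famLS : ∃ C : ℝ, 0 < C ∧ FamLS C := fam_MLS mlsProp

lemma ev_W_small (κ : ℝ) (hκ : 0 < κ) : ∀ᶠ ℓ : ℝ in atTop, ∀ W : ℕ, 1 ≤ W →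
    Real.log W ≤ ℓ / (2 * (Real.log ℓ) ^ 2) → (W : ℝ) ≤ Real.exp (κ * ℓ) := by
  have h := (Real.tendsto_log_atTop).eventually (eventually_ge_atTop (1 / κ + 1 : ℝ))
  filter_upwards [h, eventually_ge_atTop (1 : ℝ)] with ℓ h1 h2 W hW hlog
  have hWpos : (0 : ℝ) < W := by exact_mod_cast hW
  have hk : 0 < 1 / κ := by positivity
  have hl : 1 ≤ Real.log ℓ := by linarith
  rw [← Real.exp_log hWpos]
  apply Real.exp_le_exp.mpr
  refine hlog.trans ?_
  rw [div_le_iff₀ (by positivity)]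
  have h3 : 1 ≤ κ * (2 * (Real.log ℓ) ^ 2) := by
    have h4 : 1 / κ ≤ (Real.log ℓ) ^ 2 := by nlinarith
    rw [div_le_iff₀ hκ] at h4
    nlinarith
  calc ℓ = 1 * ℓ := (one_mul ℓ).symm
    _ ≤ (κ * (2 * (Real.log ℓ) ^ 2)) * ℓ := mul_le_mul_of_nonneg_right h3 (by linarith)
    _ = _ := by ring

/-- splitting into small and large moduli -/
lemma split_moduli (A : ℝ) (ℓ : ℝ) (hℓ : 2 ≤ ℓ) (D : Finset ℕ) (g S : ℕ → ℝ)
    (hS : ∀ d, 0 ≤ S d) (hg : ∀ d ∈ D, 1 ≤ d ∧ 0 ≤ g d ∧ g d ≤ ℓ ^ 2 / d) (R : ℝ) (hR : 0 ≤ R)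
    (h1 : ∑ d ∈ D.filter (fun d : ℕ => (d : ℝ) ≤ ℓ ^ R), S d ≤ Real.exp ℓ * ℓ ^ (-(A + 3)))
    (h2 : ∑ d ∈ D.filter (fun d : ℕ => ¬ (d : ℝ) ≤ ℓ ^ R), 1 / (d : ℝ) * S d ≤
      Real.exp ℓ * ℓ ^ (-(A + 3))) :
    ∑ d ∈ D, g d * S d ≤ Real.exp ℓ * ℓ ^ (-A) := by
  have hℓ0 : 0 < ℓ := by linarith
  have hE := Real.exp_pos ℓ
  rw [← Finset.sum_filter_add_sum_filter_not D (fun d : ℕ => (d : ℝ) ≤ ℓ ^ R)]
  have a1 : ∑ d ∈ D.filter (fun d : ℕ => (d : ℝ) ≤ ℓ ^ R), g d * S d ≤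
      ℓ ^ 2 * (Real.exp ℓ * ℓ ^ (-(A + 3))) := by
    refine le_trans ?_ (mul_le_mul_of_nonneg_left h1 (by positivity))
    rw [Finset.mul_sum]
    apply Finset.sum_le_sum
    intro d hd
    obtain ⟨k1, k2, k3⟩ := hg d (Finset.mem_of_mem_filter d hd)
    have hd1 : (1 : ℝ) ≤ d := by exact_mod_cast k1
    apply mul_le_mul_of_nonneg_right _ (hS d)
    exact k3.trans (div_le_self (by positivity) hd1)
  have a2 : ∑ d ∈ D.filter (fun d : ℕ => ¬ (d : ℝ) ≤ ℓ ^ R), g d * S d ≤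
      ℓ ^ 2 * (Real.exp ℓ * ℓ ^ (-(A + 3))) := by
    refine le_trans ?_ (mul_le_mul_of_nonneg_left h2 (by positivity))
    rw [Finset.mul_sum]
    apply Finset.sum_le_sum
    intro d hd
    obtain ⟨k1, k2, k3⟩ := hg d (Finset.mem_of_mem_filter d hd)
    rw [← mul_assoc]
    apply mul_le_mul_of_nonneg_right _ (hS d)
    exact k3.trans (le_of_eq (by ring))
  have e : ℓ ^ (-(A + 3)) = ℓ ^ (-A) / ℓ ^ 3 := by
    have : -(A + 3) = -A - ((3 : ℕ) : ℝ) := by push_cast; ring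
    rw [this, Real.rpow_sub hℓ0, Real.rpow_natCast]
  have e2 : ℓ ^ 2 * (Real.exp ℓ * ℓ ^ (-(A + 3))) = (Real.exp ℓ * ℓ ^ (-A)) / ℓ := by
    rw [e]; field_simp
  rw [e2] at a1 a2
  have hpos : 0 < Real.exp ℓ * ℓ ^ (-A) := by positivity
  have a3 : (Real.exp ℓ * ℓ ^ (-A)) / ℓ ≤ (Real.exp ℓ * ℓ ^ (-A)) / 2 :=
    div_le_div_of_nonneg_left hpos.le (by norm_num) hℓ
  linarith

/-- the small-moduli bound with a given exceptional modulus -/
def SmallProp (A A2 ℓ : ℝ) (q₁ : ℕ) : Prop :=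
    ∀ W : ℕ, 1 ≤ W → Real.log W ≤ ℓ / (2 * (Real.log ℓ) ^ 2) →
    ∀ D : Finset ℕ, (∀ d ∈ D, 1 ≤ d ∧ (d : ℝ) ≤ ℓ ^ A2 ∧ Nat.Coprime d W ∧ ¬ q₁ ∣ W * d) →
    ∀ B : ArithmeticFunction ℂ, (∀ n, ‖B n‖ ≤ 1) → (∀ n : ℕ, Real.exp (0.74 * ℓ) < n → B n = 0) →
    ∑ d ∈ D, ∑ ξ ∈ fam W d, ‖∑ n ∈ Finset.Icc 1 ⌊Real.exp ℓ⌋₊,
      (ξ (n : ℕ) * (B * LamC) n) * ((tent (Real.exp ℓ / 3) n : ℝ) : ℂ)‖ ≤ Real.exp ℓ * ℓ ^ (-A)

lemma SmallProp.mono {A A' A2 ℓ : ℝ} {q₁ : ℕ} (h : SmallProp A A2 ℓ q₁) (hA : A' ≤ A) (hℓ : 1 ≤ ℓ) :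
    SmallProp A' A2 ℓ q₁ := by
  intro W hW1 hW D hD B hB1 hB0
  refine (h W hW1 hW D hD B hB1 hB0).trans ?_
  apply mul_le_mul_of_nonneg_left _ (Real.exp_pos _).le
  exact Real.rpow_le_rpow_of_exponent_le hℓ (by linarith)

theorem smallProp_exists (A A2 : ℝ) (hA : 0 ≤ A) (hA2 : 0 ≤ A2) (Y0 : ℕ) :
    ∃ L0 : ℝ, ∀ ℓ : ℝ, L0 ≤ ℓ → ∃ q₁ : ℕ, Y0 < q₁ ∧ SmallProp A A2 ℓ q₁ :=
  smallB A A2 hA hA2 Y0

/-- **Level one half for primes.** -/
theorem ANP (κ : ℝ) (hκ : 0 < κ) (hκ1 : κ ≤ 1 / 4) (A : ℝ) (hA : 0 ≤ A) :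
    ∃ L0 : ℝ, ∀ ℓ : ℝ, L0 ≤ ℓ →
    ∀ q₁ : ℕ, SmallProp (A + 3) (A + 3 + 12) ℓ q₁ →
    ∀ W : ℕ, 1 ≤ W → Real.log W ≤ ℓ / (2 * (Real.log ℓ) ^ 2) →
    ∀ (D : Finset ℕ) (g : ℕ → ℝ), (∀ d ∈ D, 1 ≤ d ∧ (d : ℝ) ≤ Real.exp ((1 / 2 - κ) * ℓ) ∧
      Nat.Coprime d W ∧ ¬ q₁ ∣ W * d ∧ 0 ≤ g d ∧ g d ≤ ℓ ^ 2 / d) →
    ∑ d ∈ D, g d * ∑ ξ ∈ fam W d, ‖∑ n ∈ Finset.Icc 1 ⌊Real.exp ℓ⌋₊,
      (ξ (n : ℕ) * LamC n) * ((tent (Real.exp ℓ / 3) n : ℝ) : ℂ)‖ ≤ Real.exp ℓ * ℓ ^ (-A) := by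
  classical
  obtain ⟨C, hC, hls⟩ := famLS
  obtain ⟨L1, hL1⟩ := AN2_large C hC hls κ hκ hκ1 (A + 3) (by linarith)
  obtain ⟨L3, hL3⟩ := Filter.eventually_atTop.mp ((ev_W_small (κ / 16) (by positivity)).and
    (eventually_ge_atTop (2 : ℝ)))
  refine ⟨max L1 L3, fun ℓ hℓ q₁ hq W hW1 hW D g hD => ?_⟩
  have l1 : L1 ≤ ℓ := (le_max_left _ _).trans hℓ
  have l3 : L3 ≤ ℓ := (le_max_right _ _).trans hℓ
  obtain ⟨hWs, hℓ2⟩ := hL3 ℓ l3
  have hℓ0 : 0 < ℓ := by linarith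
  have hW' := hWs W hW1 hW
  have hE0 : (1 : ℝ) ≤ Real.exp (0.74 * ℓ) := Real.one_le_exp (by positivity)
  apply split_moduli A ℓ hℓ2 D g _ (fun d => Finset.sum_nonneg (fun _ _ => norm_nonneg _))
    (fun d hd => ⟨(hD d hd).1, (hD d hd).2.2.2.2.1, (hD d hd).2.2.2.2.2⟩) (A + 3 + 12) (by linarith)
  · have h1 := hq W hW1 hW (D.filter (fun d : ℕ => (d : ℝ) ≤ ℓ ^ (A + 3 + 12))) (by
      intro d hd
      rw [Finset.mem_filter] at hd
      obtain ⟨k1, k2, k3, k4, _⟩ := hD d hd.1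
      exact ⟨k1, hd.2, k3, k4⟩) 1 (by
      intro n
      rw [ArithmeticFunction.one_apply]
      split_ifs <;> simp) (by
      intro n hn
      rw [ArithmeticFunction.one_apply_ne]
      rintro rfl
      rw [Nat.cast_one] at hn
      linarith)
    simp only [one_mul] at h1
    exact h1
  · exact hL1 ℓ l1 W hW1 hW' _ (by
      intro d hd
      rw [Finset.mem_filter] at hd
      obtain ⟨k1, k2, k3, k4, _⟩ := hD d hd.1
      exact ⟨(not_le.mp hd.2).le, k2, k3⟩)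

/-- `log p` on the primes `p > U` -/
noncomputable def thC (U : ℕ) : ArithmeticFunction ℂ :=
  ⟨fun n => if n.Prime ∧ U < n then ((Real.log n : ℝ) : ℂ) else 0, by simp⟩

lemma thC_apply (U n : ℕ) : thC U n = if n.Prime ∧ U < n then ((Real.log n : ℝ) : ℂ) else 0 := rfl

lemma norm_thC_le (U n : ℕ) : ‖thC U n‖ ≤ Real.log n := by
  rw [thC_apply]
  split_ifs
  · rw [Complex.norm_real, Real.norm_of_nonneg (Real.log_natCast_nonneg n)]
  · rw [norm_zero]; exact Real.log_natCast_nonneg n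

open Chebyshev in
/-- replacing `Λ` by `log p` on primes -/
lemma Lam_th_diff (U M : ℕ) (x0 : ℝ) (hx0 : 0 < x0) (hM : 1 ≤ M) (hU : (U : ℝ) * Real.exp 1 ≤ x0) :
    ∑ n ∈ Ioc 0 M, ‖LamC n - thC U n‖ * tent x0 n ≤ 2 * √(M : ℝ) * Real.log M := by
  classical
  have hpt : ∀ n ∈ Ioc 0 M, ‖LamC n - thC U n‖ * tent x0 n ≤
      if ¬ n.Prime then vonMangoldt n else 0 := by
    intro n hn
    rw [Finset.mem_Ioc] at hn
    have hn0 : (0 : ℝ) < n := by exact_mod_cast hn.1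
    have ht0 := tent_nonneg x0 n hx0 hn0
    have ht1 := tent_le_one x0 n hx0 hn0
    by_cases hp : n.Prime
    · rw [if_neg (not_not.mpr hp)]
      have hΛ : vonMangoldt n = Real.log n := ArithmeticFunction.vonMangoldt_apply_prime hp
      by_cases hy : U < n
      · rw [thC_apply, if_pos ⟨hp, hy⟩, LamC_apply, hΛ, sub_self, norm_zero, zero_mul]
      · have : tent x0 n = 0 := by
          by_contra hc
          have h4 := (tent_supp x0 n hx0 hn0 hc).1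
          rw [div_lt_iff₀ (Real.exp_pos 1)] at h4
          have h5 : (n : ℝ) ≤ U := by exact_mod_cast (not_lt.mp hy)
          have h6 : (n : ℝ) * Real.exp 1 ≤ U * Real.exp 1 :=
            mul_le_mul_of_nonneg_right h5 (Real.exp_pos 1).le
          linarith
        rw [this, mul_zero]
    · rw [if_pos hp, thC_apply, if_neg (by tauto), sub_zero, LamC_apply, Complex.norm_real,
        Real.norm_of_nonneg ArithmeticFunction.vonMangoldt_nonneg]
      exact mul_le_of_le_one_right ArithmeticFunction.vonMangoldt_nonneg ht1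
  refine (Finset.sum_le_sum hpt).trans ?_
  rw [← Finset.sum_filter]
  have h1 := psi_sub_theta_eq_sum_not_prime (M : ℝ)
  rw [Nat.floor_natCast] at h1
  rw [← h1]
  exact psi_sub_theta_le (x := (M : ℝ)) (by exact_mod_cast hM)

lemma sqrt_sum_bound (N K1 : ℕ) (hN : 1 ≤ N) (hK1 : 1 ≤ K1) (hKN : K1 ≤ N) :
    ∑ a ∈ Ioc 0 K1, √((N : ℝ) / a) ≤ √((N : ℝ) * K1) * (1 + Real.log N) := by
  have hN0 : (0 : ℝ) < N := by exact_mod_cast hN
  have hK0 : (0 : ℝ) < K1 := by exact_mod_cast hK1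
  have hpt : ∀ a ∈ Ioc 0 K1, √((N : ℝ) / a) ≤ √((N : ℝ) * K1) * (1 / a) := by
    intro a ha
    rw [Finset.mem_Ioc] at ha
    have ha0 : (0 : ℝ) < a := by exact_mod_cast ha.1
    have haK : (a : ℝ) ≤ K1 := by exact_mod_cast ha.2
    rw [← Real.sqrt_sq (show (0 : ℝ) ≤ 1 / a by positivity), ← Real.sqrt_mul (by positivity)]
    apply Real.sqrt_le_sqrt
    rw [div_le_iff₀ ha0]
    have : (N : ℝ) * K1 * (1 / (a : ℝ)) ^ 2 * a = N * (K1 / a) := by field_simp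
    rw [this]
    have : (1 : ℝ) ≤ K1 / a := by rw [le_div_iff₀ ha0]; linarith
    exact le_mul_of_one_le_right hN0.le this
  refine (Finset.sum_le_sum hpt).trans ?_
  rw [← Finset.mul_sum]
  apply mul_le_mul_of_nonneg_left _ (Real.sqrt_nonneg _)
  refine (sum_inv_le_log K1 hK1).trans ?_
  have : Real.log K1 ≤ Real.log N := Real.log_le_log hK0 (by exact_mod_cast hKN)
  linarith

/-- **Level one half for products `k p`.** -/
theorem ANB (κ : ℝ) (hκ : 0 < κ) (hκ1 : κ ≤ 1 / 4) (A : ℝ) (hA : 0 ≤ A) :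
    ∃ L0 : ℝ, ∀ ℓ : ℝ, L0 ≤ ℓ →
    ∀ q₁ : ℕ, SmallProp (A + 4) (A + 3 + 12) ℓ q₁ →
    ∀ W : ℕ, 1 ≤ W → Real.log W ≤ ℓ / (2 * (Real.log ℓ) ^ 2) →
    ∀ (D : Finset ℕ) (g : ℕ → ℝ), (∀ d ∈ D, 1 ≤ d ∧ (d : ℝ) ≤ Real.exp ((1 / 2 - κ) * ℓ) ∧
      Nat.Coprime d W ∧ ¬ q₁ ∣ W * d ∧ 0 ≤ g d ∧ g d ≤ ℓ ^ 2 / d) →
    ∀ B : ArithmeticFunction ℂ, (∀ n, ‖B n‖ ≤ 1) → (∀ n : ℕ, Real.exp (0.74 * ℓ) < n → B n = 0) →
    (∀ n, n ≤ ⌊Real.exp (κ / 4 * ℓ)⌋₊ → B n = 0) →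
    ∑ d ∈ D, g d * ∑ ξ ∈ fam W d, ‖∑ n ∈ Finset.Icc 1 ⌊Real.exp ℓ⌋₊,
      (ξ (n : ℕ) * (B * thC ⌊Real.exp (κ / 4 * ℓ)⌋₊) n) * ((tent (Real.exp ℓ / 3) n : ℝ) : ℂ)‖ ≤
      Real.exp ℓ * ℓ ^ (-A) := by
  classical
  obtain ⟨C, hC, hls⟩ := famLS
  obtain ⟨L1, hL1⟩ := AN3_large C hC hls κ hκ hκ1 (A + 3) (by linarith)
  have evlin := ev_loglin (A + 3 + 12) (1 / 100) (by norm_num)
  have evexp := ev_exp_pow (1 / 100) (A + 6) 100 (by norm_num) (by norm_num)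
  obtain ⟨L3, hL3⟩ := Filter.eventually_atTop.mp ((ev_W_small (κ / 16) (by positivity)).and
    ((ev_W_small (1 / 100) (by norm_num)).and (evlin.and (evexp.and (eventually_ge_atTop (100 : ℝ))))))
  refine ⟨max L1 L3, fun ℓ hℓ q₁ hq W hW1 hW D g hD B hB1 hB0 hBU => ?_⟩
  have l1 : L1 ≤ ℓ := (le_max_left _ _).trans hℓ
  have l3 : L3 ≤ ℓ := (le_max_right _ _).trans hℓ
  obtain ⟨hWs, hWs2, clin, cxp, hℓ100⟩ := hL3 ℓ l3
  have hℓ0 : 0 < ℓ := by linarith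
  have hℓ1 : 1 ≤ ℓ := by linarith
  have hE := Real.exp_pos ℓ
  obtain ⟨x1, x2, x3, x4⟩ := x0_facts ℓ (by linarith)
  set N := ⌊Real.exp ℓ⌋₊ with hN
  set U := ⌊Real.exp (κ / 4 * ℓ)⌋₊ with hU
  have hNpos : (0 : ℝ) < N := by exact_mod_cast x3
  have hlogN : Real.log N ≤ ℓ := by
    calc Real.log N ≤ Real.log (Real.exp ℓ) := Real.log_le_log hNpos x4
      _ = ℓ := Real.log_exp _
  have hlogN0 : 0 ≤ Real.log (N : ℝ) := Real.log_natCast_nonneg _
  apply split_moduli A ℓ (by linarith) D g _ (fun d => Finset.sum_nonneg (fun _ _ => norm_nonneg _))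
    (fun d hd => ⟨(hD d hd).1, (hD d hd).2.2.2.2.1, (hD d hd).2.2.2.2.2⟩) (A + 3 + 12) (by linarith)
  · set Ds := D.filter (fun d : ℕ => (d : ℝ) ≤ ℓ ^ (A + 3 + 12)) with hDs
    have h1 := hq W hW1 hW Ds (by
      intro d hd
      rw [hDs, Finset.mem_filter] at hd
      obtain ⟨k1, k2, k3, k4, _⟩ := hD d hd.1
      exact ⟨k1, hd.2, k3, k4⟩) B hB1 hB0
    -- difference
    set K1 := ⌊Real.exp (0.74 * ℓ)⌋₊ with hK1
    have hK1le : (K1 : ℝ) ≤ Real.exp (0.74 * ℓ) := Nat.floor_le (Real.exp_pos _).le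
    have hK11 : 1 ≤ K1 := by
      apply Nat.le_floor
      rw [Nat.cast_one]
      exact Real.one_le_exp (by positivity)
    have hK1N : K1 ≤ N := Nat.floor_le_floor (Real.exp_le_exp.mpr (by linarith))
    have hdiff : ∀ d ∈ Ds, ∀ ξ ∈ fam W d, ‖∑ n ∈ Finset.Icc 1 N,
        (ξ (n : ℕ) * (B * thC U) n) * ((tent (Real.exp ℓ / 3) n : ℝ) : ℂ)‖ ≤
        ‖∑ n ∈ Finset.Icc 1 N, (ξ (n : ℕ) * (B * LamC) n) * ((tent (Real.exp ℓ / 3) n : ℝ) : ℂ)‖ +
        4 * ℓ ^ 2 * Real.exp (0.87 * ℓ) := by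
      intro d _ ξ _
      have e1 : ∑ n ∈ Finset.Icc 1 N,
        (ξ (n : ℕ) * (B * thC U) n) * ((tent (Real.exp ℓ / 3) n : ℝ) : ℂ) =
        ∑ n ∈ Finset.Icc 1 N, (ξ (n : ℕ) * (B * LamC) n) * ((tent (Real.exp ℓ / 3) n : ℝ) : ℂ) -
        ∑ n ∈ Finset.Icc 1 N, (ξ (n : ℕ) * (B * (LamC - thC U)) n) *
          ((tent (Real.exp ℓ / 3) n : ℝ) : ℂ) := by
        rw [← Finset.sum_sub_distrib]
        apply Finset.sum_congr rfl
        intro n _
        have h2 : (B * thC U) n = (B * LamC) n - (B * (LamC - thC U)) n := by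
          have h3 : B * thC U = B * LamC - B * (LamC - thC U) := by ring
          rw [h3, sub_eq_add_neg, ArithmeticFunction.add_apply, ArithmeticFunction.neg_apply,
            ← sub_eq_add_neg]
        rw [h2]; ring
      rw [e1]
      refine (norm_sub_le _ _).trans (add_le_add le_rfl ?_)
      have e2 : ∑ n ∈ Finset.Icc 1 N, (ξ (n : ℕ) * (B * (LamC - thC U)) n) *
          ((tent (Real.exp ℓ / 3) n : ℝ) : ℂ) =
          ∑ a ∈ Ioc 0 N, twc ξ B a * ∑ b ∈ Ioc 0 (N / a), twc ξ (LamC - thC U) b *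
          ((tent (Real.exp ℓ / 3) ((a * b : ℕ) : ℝ) : ℝ) : ℂ) := by
        rw [← conv_tent, Icc_one_eq_Ioc]
        apply Finset.sum_congr rfl
        intro n _
        rw [← twc_mul, twc_apply]
      rw [e2]
      refine (norm_sum_le _ _).trans ?_
      have hpt : ∀ a ∈ Ioc 0 N, ‖twc ξ B a * ∑ b ∈ Ioc 0 (N / a), twc ξ (LamC - thC U) b *
          ((tent (Real.exp ℓ / 3) ((a * b : ℕ) : ℝ) : ℝ) : ℂ)‖ ≤
          if a ≤ K1 then 2 * ℓ * √((N : ℝ) / a) else 0 := by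
        intro a ha
        rw [Finset.mem_Ioc] at ha
        have ha0 : (0 : ℝ) < a := by exact_mod_cast ha.1
        by_cases haK : a ≤ K1
        · rw [if_pos haK, norm_mul]
          have g1 : ‖twc ξ B a‖ ≤ 1 := by
            rw [twc_apply, norm_mul]
            exact mul_le_one₀ (DirichletCharacter.norm_le_one _ _) (norm_nonneg _) (hB1 a)
          have hNa : 1 ≤ N / a := by rw [Nat.le_div_iff_mul_le ha.1]; omega
          have hNapos : (0 : ℝ) < ((N / a : ℕ) : ℝ) := by exact_mod_cast hNa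
          have g2 : ‖∑ b ∈ Ioc 0 (N / a), twc ξ (LamC - thC U) b *
            ((tent (Real.exp ℓ / 3) ((a * b : ℕ) : ℝ) : ℝ) : ℂ)‖ ≤ 2 * ℓ * √((N : ℝ) / a) := by
            refine (norm_sum_le _ _).trans ?_
            have g3 : ∀ b ∈ Ioc 0 (N / a), ‖twc ξ (LamC - thC U) b *
              ((tent (Real.exp ℓ / 3) ((a * b : ℕ) : ℝ) : ℝ) : ℂ)‖ ≤
              ‖LamC b - thC U b‖ * tent (Real.exp ℓ / 3 / a) b := by
              intro b hb
              rw [Finset.mem_Ioc] at hb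
              have hb0 : (0 : ℝ) < b := by exact_mod_cast hb.1
              have ht0 := tent_nonneg (Real.exp ℓ / 3 / a) b (by positivity) hb0
              rw [norm_mul, twc_apply, norm_mul, Complex.norm_real]
              push_cast
              rw [tent_scale (Real.exp ℓ / 3) a b (by positivity) ha0 hb0, Real.norm_of_nonneg ht0]
              apply mul_le_mul_of_nonneg_right _ ht0
              have g4 : (LamC - thC U) b = LamC b - thC U b := by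
                rw [sub_eq_add_neg, ArithmeticFunction.add_apply, ArithmeticFunction.neg_apply,
                  ← sub_eq_add_neg]
              rw [g4]
              exact mul_le_of_le_one_left (norm_nonneg _) (DirichletCharacter.norm_le_one _ _)
            refine (Finset.sum_le_sum g3).trans ?_
            have hUa : (U : ℝ) * Real.exp 1 ≤ Real.exp ℓ / 3 / a := by
              rw [le_div_iff₀ ha0]
              have k1 : (U : ℝ) ≤ Real.exp (κ / 4 * ℓ) := Nat.floor_le (Real.exp_pos _).le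
              have k2 : Real.exp (κ / 4 * ℓ) ≤ Real.exp (ℓ / 16) := Real.exp_le_exp.mpr (by nlinarith)
              have k3 : (a : ℝ) ≤ Real.exp (0.74 * ℓ) := le_trans (by exact_mod_cast haK) hK1le
              have k4 : Real.exp 1 ≤ 3 := by have := Real.exp_one_lt_d9; linarith
              have k5 : Real.exp (ℓ / 16) * Real.exp (0.74 * ℓ) * 9 ≤ Real.exp ℓ := by
                have k6 : (9 : ℝ) ≤ Real.exp (0.19 * ℓ) := by
                  have e1 : Real.exp 3 ≤ Real.exp (0.19 * ℓ) := Real.exp_le_exp.mpr (by linarith)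
                  have e2 : (2.7 : ℝ) ^ 3 ≤ Real.exp 3 := by
                    have : Real.exp 3 = Real.exp 1 ^ 3 := by rw [← Real.exp_nat_mul]; norm_num
                    rw [this]
                    exact pow_le_pow_left₀ (by norm_num) (by have := Real.exp_one_gt_d9; linarith) 3
                  have e3 : (9 : ℝ) ≤ (2.7 : ℝ) ^ 3 := by norm_num
                  linarith
                calc Real.exp (ℓ / 16) * Real.exp (0.74 * ℓ) * 9 ≤
                    Real.exp (ℓ / 16) * Real.exp (0.74 * ℓ) * Real.exp (0.19 * ℓ) :=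
                      mul_le_mul_of_nonneg_left k6 (by positivity)
                  _ = Real.exp (ℓ / 16 + 0.74 * ℓ + 0.19 * ℓ) := by rw [Real.exp_add, Real.exp_add]
                  _ ≤ Real.exp ℓ := Real.exp_le_exp.mpr (by linarith)
              calc (U : ℝ) * Real.exp 1 * a ≤ Real.exp (ℓ / 16) * 3 * Real.exp (0.74 * ℓ) := by
                    apply mul_le_mul _ k3 ha0.le (by positivity)
                    exact mul_le_mul (k1.trans k2) k4 (Real.exp_pos _).le (by positivity)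
                _ = (Real.exp (ℓ / 16) * Real.exp (0.74 * ℓ) * 9) / 3 := by ring
                _ ≤ Real.exp ℓ / 3 := div_le_div_of_nonneg_right k5 (by norm_num)
            refine (Lam_th_diff U (N / a) (Real.exp ℓ / 3 / a) (by positivity) hNa hUa).trans ?_
            have k7 : √((N / a : ℕ) : ℝ) ≤ √((N : ℝ) / a) := Real.sqrt_le_sqrt Nat.cast_div_le
            have k8 : Real.log ((N / a : ℕ) : ℝ) ≤ ℓ := by
              refine le_trans (Real.log_le_log hNapos ?_) hlogN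
              exact_mod_cast Nat.div_le_self N a
            calc 2 * √((N / a : ℕ) : ℝ) * Real.log ((N / a : ℕ) : ℝ) ≤ 2 * √((N : ℝ) / a) * ℓ := by
                  apply mul_le_mul _ k8 (Real.log_natCast_nonneg _) (by positivity)
                  linarith
              _ = _ := by ring
          calc ‖twc ξ B a‖ * ‖∑ b ∈ Ioc 0 (N / a), twc ξ (LamC - thC U) b *
            ((tent (Real.exp ℓ / 3) ((a * b : ℕ) : ℝ) : ℝ) : ℂ)‖ ≤ 1 * (2 * ℓ * √((N : ℝ) / a)) :=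
                mul_le_mul g1 g2 (norm_nonneg _) zero_le_one
            _ = _ := one_mul _
        · have : B a = 0 := hB0 a ((Nat.floor_lt (Real.exp_pos _).le).mp (not_le.mp haK))
          rw [if_neg haK, twc_apply, this, mul_zero, zero_mul, norm_zero]
      refine (Finset.sum_le_sum hpt).trans ?_
      rw [← Finset.sum_filter]
      have e3 : (Ioc 0 N).filter (fun a => a ≤ K1) = Ioc 0 K1 := by
        ext a
        rw [Finset.mem_filter, Finset.mem_Ioc, Finset.mem_Ioc]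
        omega
      rw [e3, ← Finset.mul_sum]
      have g5 := sqrt_sum_bound N K1 x3 hK11 hK1N
      have g6 : √((N : ℝ) * K1) ≤ Real.exp (0.87 * ℓ) := by
        rw [show Real.exp (0.87 * ℓ) = √((Real.exp (0.87 * ℓ)) ^ 2) by
          rw [Real.sqrt_sq (Real.exp_pos _).le]]
        apply Real.sqrt_le_sqrt
        calc (N : ℝ) * K1 ≤ Real.exp ℓ * Real.exp (0.74 * ℓ) :=
              mul_le_mul x4 hK1le (Nat.cast_nonneg _) hE.le
          _ = (Real.exp (0.87 * ℓ)) ^ 2 := by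
              rw [← Real.exp_add, ← Real.exp_nat_mul]; congr 1; push_cast; ring
      calc 2 * ℓ * ∑ a ∈ Ioc 0 K1, √((N : ℝ) / a) ≤ 2 * ℓ * (Real.exp (0.87 * ℓ) * (2 * ℓ)) := by
            apply mul_le_mul_of_nonneg_left _ (by positivity)
            refine g5.trans ?_
            exact mul_le_mul g6 (by linarith) (by linarith) (Real.exp_pos _).le
        _ = _ := by ring
    have hcard : ∀ d ∈ Ds, (#(fam W d) : ℝ) ≤ Real.exp (ℓ / 50) := by
      intro d hd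
      rw [hDs, Finset.mem_filter] at hd
      obtain ⟨k1, k2, k3, k4, _⟩ := hD d hd.1
      have h3 : (#(fam W d) : ℝ) ≤ ((W * d : ℕ) : ℝ) := by
        exact_mod_cast card_fam_le W d (Nat.mul_pos hW1 k1)
      refine h3.trans ?_
      push_cast
      have h4 : (d : ℝ) ≤ Real.exp (1 / 100 * ℓ) := by
        refine hd.2.trans ?_
        rw [Real.rpow_def_of_pos hℓ0]
        apply Real.exp_le_exp.mpr
        rw [mul_comm]; exact clin
      calc (W : ℝ) * d ≤ Real.exp (1 / 100 * ℓ) * Real.exp (1 / 100 * ℓ) :=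
            mul_le_mul (hWs2 W hW1 hW) h4 (Nat.cast_nonneg _) (Real.exp_pos _).le
        _ = Real.exp (ℓ / 50) := by rw [← Real.exp_add]; congr 1; ring
    have hcardD : (#Ds : ℝ) ≤ Real.exp (1 / 100 * ℓ) := by
      have h4 : Ds ⊆ Finset.Icc 1 ⌊ℓ ^ (A + 3 + 12)⌋₊ := by
        intro d hd
        rw [hDs, Finset.mem_filter] at hd
        rw [Finset.mem_Icc]
        exact ⟨(hD d hd.1).1, Nat.le_floor hd.2⟩
      have h5 := Finset.card_le_card h4
      rw [Nat.card_Icc, Nat.add_sub_cancel] at h5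
      calc (#Ds : ℝ) ≤ (⌊ℓ ^ (A + 3 + 12)⌋₊ : ℝ) := by exact_mod_cast h5
        _ ≤ ℓ ^ (A + 3 + 12) := Nat.floor_le (by positivity)
        _ = Real.exp ((A + 3 + 12) * Real.log ℓ) := by rw [Real.rpow_def_of_pos hℓ0, mul_comm]
        _ ≤ Real.exp (1 / 100 * ℓ) := Real.exp_le_exp.mpr clin
    set Z : ℝ := 4 * ℓ ^ 2 * Real.exp (0.87 * ℓ) with hZ
    have hZ0 : 0 ≤ Z := by positivity
    have hsum : ∑ d ∈ Ds, ∑ ξ ∈ fam W d, ‖∑ n ∈ Finset.Icc 1 N,
        (ξ (n : ℕ) * (B * thC U) n) * ((tent (Real.exp ℓ / 3) n : ℝ) : ℂ)‖ ≤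
        Real.exp ℓ * ℓ ^ (-(A + 4)) + Real.exp (1 / 100 * ℓ) * (Real.exp (ℓ / 50) * Z) := by
      calc ∑ d ∈ Ds, ∑ ξ ∈ fam W d, ‖∑ n ∈ Finset.Icc 1 N,
          (ξ (n : ℕ) * (B * thC U) n) * ((tent (Real.exp ℓ / 3) n : ℝ) : ℂ)‖ ≤
          ∑ d ∈ Ds, ∑ ξ ∈ fam W d, (‖∑ n ∈ Finset.Icc 1 N, (ξ (n : ℕ) * (B * LamC) n) *
            ((tent (Real.exp ℓ / 3) n : ℝ) : ℂ)‖ + Z) :=
            Finset.sum_le_sum (fun d hd => Finset.sum_le_sum (fun ξ hξ => hdiff d hd ξ hξ))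
        _ = ∑ d ∈ Ds, ∑ ξ ∈ fam W d, ‖∑ n ∈ Finset.Icc 1 N, (ξ (n : ℕ) * (B * LamC) n) *
            ((tent (Real.exp ℓ / 3) n : ℝ) : ℂ)‖ + ∑ d ∈ Ds, (#(fam W d) : ℝ) * Z := by
            rw [← Finset.sum_add_distrib]
            apply Finset.sum_congr rfl
            intro d _
            rw [Finset.sum_add_distrib, Finset.sum_const, nsmul_eq_mul]
        _ ≤ Real.exp ℓ * ℓ ^ (-(A + 4)) + ∑ d ∈ Ds, Real.exp (ℓ / 50) * Z := by
            apply add_le_add h1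
            exact Finset.sum_le_sum (fun d hd => mul_le_mul_of_nonneg_right (hcard d hd) hZ0)
        _ = Real.exp ℓ * ℓ ^ (-(A + 4)) + (#Ds : ℝ) * (Real.exp (ℓ / 50) * Z) := by
            rw [Finset.sum_const, nsmul_eq_mul]
        _ ≤ _ := by
            apply add_le_add le_rfl
            exact mul_le_mul_of_nonneg_right hcardD (by positivity)
    refine hsum.trans ?_
    have hp : 0 < ℓ ^ (-(A + 3)) := by positivity
    have f1 : ℓ ^ (-(A + 4)) = ℓ ^ (-(A + 3)) / ℓ := by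
      have : -(A + 4) = -(A + 3) - 1 := by ring
      rw [this, Real.rpow_sub hℓ0, Real.rpow_one]
    have f2 : ℓ ^ (-(A + 3)) / ℓ ≤ ℓ ^ (-(A + 3)) / 2 :=
      div_le_div_of_nonneg_left hp.le (by norm_num) (by linarith)
    have f3 : Real.exp (1 / 100 * ℓ) * (Real.exp (ℓ / 50) * Z) ≤ Real.exp ℓ * (ℓ ^ (-(A + 3)) / 2) := by
      have e1 : 100 * ℓ ^ (A + 6) * Real.exp (-(1 / 100 * ℓ)) =
          (ℓ ^ (-(A + 3)))⁻¹ * (100 * ℓ ^ 3 * Real.exp (-(1 / 100 * ℓ))) := by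
        have : A + 6 = (A + 3) + 3 := by ring
        rw [this, Real.rpow_add hℓ0, Real.rpow_neg hℓ0.le (A + 3), inv_inv]
        norm_cast
        ring
      rw [e1, inv_mul_le_iff₀ hp, mul_one] at cxp
      have e2 : Real.exp (1 / 100 * ℓ) * (Real.exp (ℓ / 50) * Z) =
          4 * ℓ ^ 2 * Real.exp (0.9 * ℓ) := by
        rw [hZ]
        have : Real.exp (0.9 * ℓ) = Real.exp (1 / 100 * ℓ) * Real.exp (ℓ / 50) * Real.exp (0.87 * ℓ) := by
          rw [← Real.exp_add, ← Real.exp_add]; congr 1; ring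
        rw [this]; ring
      rw [e2]
      have e3 : Real.exp (0.9 * ℓ) ≤ Real.exp ℓ * Real.exp (-(1 / 100 * ℓ)) := by
        rw [← Real.exp_add]
        apply Real.exp_le_exp.mpr
        linarith
      have h0 : 0 ≤ ℓ ^ 2 * Real.exp (-(1 / 100 * ℓ)) := by positivity
      have h01 : ℓ ^ 2 * Real.exp (-(1 / 100 * ℓ)) ≤ ℓ ^ 3 * Real.exp (-(1 / 100 * ℓ)) := by
        apply mul_le_mul_of_nonneg_right _ (Real.exp_pos _).le
        exact pow_le_pow_right₀ hℓ1 (by norm_num)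
      calc 4 * ℓ ^ 2 * Real.exp (0.9 * ℓ) ≤ 4 * ℓ ^ 2 * (Real.exp ℓ * Real.exp (-(1 / 100 * ℓ))) :=
            mul_le_mul_of_nonneg_left e3 (by positivity)
        _ = Real.exp ℓ * (4 * (ℓ ^ 2 * Real.exp (-(1 / 100 * ℓ)))) := by ring
        _ ≤ _ := by
            apply mul_le_mul_of_nonneg_left _ hE.le
            linarith
    rw [f1]
    calc Real.exp ℓ * (ℓ ^ (-(A + 3)) / ℓ) + Real.exp (1 / 100 * ℓ) * (Real.exp (ℓ / 50) * Z) ≤
        Real.exp ℓ * (ℓ ^ (-(A + 3)) / 2) + Real.exp ℓ * (ℓ ^ (-(A + 3)) / 2) :=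
          add_le_add (mul_le_mul_of_nonneg_left f2 hE.le) f3
      _ = _ := by ring
  · exact hL1 ℓ l1 W hW1 (hWs W hW1 hW) _ (by
      intro d hd
      rw [Finset.mem_filter] at hd
      obtain ⟨k1, k2, k3, k4, _⟩ := hD d hd.1
      exact ⟨(not_le.mp hd.2).le, k2, k3⟩) B (thC U) hB1 (by
      intro n hn
      rcases Nat.eq_zero_or_pos n with rfl | hn0
      · simp [hℓ0.le]
      · refine (norm_thC_le U n).trans (le_trans (Real.log_le_log (by exact_mod_cast hn0) ?_) hlogN)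
        exact_mod_cast hn) hBU (by
      intro n hn
      rw [thC_apply, if_neg (by omega)])

end Pool.Agent.H16
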