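import Pool.Agent.H16.Ident2

/-!
Type II sums over a quasi-orthogonal family.
-/

set_option autoImplicit false

open Complex Finset Filter Topology MeasureTheory
open scoped ComplexConjugate ArithmeticFunction.zeta ArithmeticFunction.Moebius
open ArithmeticFunction (vonMangoldt moebius)

namespace Pool.Agent.H16

lemma arctan_le_self' (x : ℝ) (hx : 0 ≤ x) : Real.arctan x ≤ x := by
  have h1 := Real.le_tan (Real.arctan_nonneg.mpr hx) (Real.arctan_lt_pi_div_two x)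
  rwa [Real.tan_arctan] at h1

lemma tail_inv_sq (T : ℝ) (hT : 0 < T) : Real.pi / 2 - Real.arctan T ≤ 1 / T := by
  rw [← Real.arctan_inv_of_pos hT, one_div]
  exact arctan_le_self' _ (by positivity)

lemma integral_cut (T u w : ℝ) (hT : 0 < T) (hu : 0 ≤ u) (hw : 0 ≤ w) :
    Integrable (fun t : ℝ => (u + (Set.Iic (-T) ∪ Set.Ioi T).indicator (fun _ => w) t) * (1 + t ^ 2)⁻¹) ∧
    ∫ t : ℝ, (u + (Set.Iic (-T) ∪ Set.Ioi T).indicator (fun _ => w) t) * (1 + t ^ 2)⁻¹ ≤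
      4 * u + 2 * w / T := by
  set S : Set ℝ := Set.Iic (-T) ∪ Set.Ioi T with hS
  have hSm : MeasurableSet S := measurableSet_Iic.union measurableSet_Ioi
  have e : (fun t : ℝ => (u + S.indicator (fun _ => w) t) * (1 + t ^ 2)⁻¹) =
      fun t : ℝ => u * (1 + t ^ 2)⁻¹ + w * S.indicator (fun t : ℝ => (1 + t ^ 2)⁻¹) t := by
    ext t
    by_cases ht : t ∈ S
    · rw [Set.indicator_of_mem ht, Set.indicator_of_mem ht]; ring
    · rw [Set.indicator_of_notMem ht, Set.indicator_of_notMem ht]; ring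
  have i1 : Integrable (fun t : ℝ => u * (1 + t ^ 2)⁻¹) := integrable_inv_one_add_sq.const_mul u
  have i2 : Integrable (fun t : ℝ => w * S.indicator (fun t : ℝ => (1 + t ^ 2)⁻¹) t) :=
    (integrable_inv_one_add_sq.indicator hSm).const_mul w
  rw [e]
  refine ⟨i1.add i2, ?_⟩
  rw [integral_add i1 i2, integral_const_mul, integral_const_mul, integral_univ_inv_one_add_sq,
    integral_indicator hSm, hS, setIntegral_union]
  · rw [integral_Iic_inv_one_add_sq, integral_Ioi_inv_one_add_sq, Real.arctan_neg]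
    have h1 := tail_inv_sq T hT
    have h2 : Real.pi ≤ 4 := Real.pi_le_four
    have h3 : u * Real.pi ≤ u * 4 := mul_le_mul_of_nonneg_left h2 hu
    have h4 : w * (-Real.arctan T + Real.pi / 2 + (Real.pi / 2 - Real.arctan T)) ≤ w * (2 * (1 / T)) := by
      apply mul_le_mul_of_nonneg_left _ hw
      linarith
    have h5 : w * (2 * (1 / T)) = 2 * w / T := by ring
    linarith
  · rw [Set.disjoint_left]
    intro x hx hx'
    rw [Set.mem_Iic] at hx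
    rw [Set.mem_Ioi] at hx'
    linarith
  · exact measurableSet_Ioi
  · exact integrable_inv_one_add_sq.integrableOn
  · exact integrable_inv_one_add_sq.integrableOn

/-- continuity on a vertical line from summability slightly to the left -/
lemma cont_line (f : ℕ → ℂ) (σ σ' : ℝ) (h : σ' < σ) (hs : LSeriesSummable f (σ' : ℂ)) :
    Continuous (fun t : ℝ => LSeries f ((σ : ℂ) + t * I)) := by
  have h1 : LSeries.abscissaOfAbsConv f ≤ (σ' : ℝ) := by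
    have := hs.abscissaOfAbsConv_le
    simpa using this
  rw [continuous_iff_continuousAt]
  intro t
  have h2 : LSeries.abscissaOfAbsConv f < ((((σ : ℂ) + t * I).re : ℝ) : EReal) := by
    have e : ((σ : ℂ) + t * I).re = σ := by simp
    rw [e]
    exact lt_of_le_of_lt h1 (by exact_mod_cast h)
  have h3 : ContinuousAt (LSeries f) ((σ : ℂ) + t * I) :=
    (LSeries_hasDerivAt h2).continuousAt
  have h4 : ContinuousAt (fun t : ℝ => (σ : ℂ) + t * I) t := by fun_prop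
  exact ContinuousAt.comp (f := fun t : ℝ => (σ : ℂ) + t * I) h3 h4

/-- Type II bound over a quasi-orthogonal family. -/
theorem typeII_family {ι : Type*} [DecidableEq ι] (I' : Finset ι) (Q : ι → ℕ)
    (ξ : (i : ι) → DirichletCharacter ℂ (Q i)) (q0 : ℝ) (hq0 : 0 ≤ q0) (Y : ℕ) (hY1 : 1 ≤ Y)
    (hY : q0 * #I' ≤ Y)
    (horth : ∀ M N : ℕ, M ≤ N → ∀ i ∈ I', ∀ j ∈ I', i ≠ j →
      ‖∑ n ∈ Ioc M N, ξ i n * conj (ξ j n)‖ ≤ q0)
    (ℓ : ℝ) (hℓ : 1 < ℓ) (v : ℕ → ℝ) (hv0 : ∀ n, 0 ≤ v n)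
    (hv1 : ∀ n, v n ≤ 1) (hvY : ∀ n, n ≤ Y → v n = 1)
    (T u : ℝ) (hT : 0 < T) (hu : 0 ≤ u)
    (hsmall : ∀ i ∈ I', ∀ t : ℝ, |t| ≤ T →
      ‖LSeries (twc (ξ i) (rf v)) (((1 + 1 / ℓ : ℝ) : ℂ) + t * I)‖ ≤ u)
    (x0 : ℝ) (hx0 : 0 < x0) (N : ℕ) (hN : Real.exp 1 * x0 ≤ N) :
    ∑ i ∈ I', ‖∑ n ∈ Finset.Icc 1 N, (ξ i n * (LamC * rf v ^ 3) n) * ((tent x0 n : ℝ) : ℂ)‖ ≤
      2 * x0 ^ (1 + 1 / ℓ) * (1920 * ℓ ^ 8 * (4 * u + 10 * ℓ ^ 2 / T)) := by
  have hℓ0 : 0 < ℓ := by linarith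
  have hℓ1 : 1 ≤ ℓ := hℓ.le
  have hinv : 0 < 1 / ℓ := by positivity
  have hinv1 : 1 / ℓ ≤ 1 := by rw [div_le_one hℓ0]; exact hℓ1
  have hre : ∀ t : ℝ, (((1 + 1 / ℓ : ℝ) : ℂ) + t * I).re = 1 + 1 / ℓ := by
    intro t
    simp only [Complex.add_re, Complex.ofReal_re, Complex.mul_re, Complex.I_re, mul_zero,
      Complex.ofReal_im, Complex.I_im, mul_one, sub_self, add_zero]
  obtain ⟨i1, i2⟩ := integral_cut T u (5 * ℓ ^ 2) hT hu (by positivity)
  have hG : ∀ t : ℝ, ∑ i ∈ I', ‖LSeries (fun n => ξ i n * (LamC * rf v ^ 3) n)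
      (((1 + 1 / ℓ : ℝ) : ℂ) + t * I)‖ ≤
      (1920 * ℓ ^ 8) * (u + (Set.Iic (-T) ∪ Set.Ioi T).indicator (fun _ => 5 * ℓ ^ 2) t) := by
    intro t
    have hms := mean_square_R I' Q ξ q0 hq0 Y hY1 hY horth ℓ hℓ1 v hv0 hv1 hvY _ (hre t)
    have hpt : ∀ i ∈ I', ‖LSeries (fun n => ξ i n * (LamC * rf v ^ 3) n)
        (((1 + 1 / ℓ : ℝ) : ℂ) + t * I)‖ ≤ (6 * ℓ ^ 2 * (u + (Set.Iic (-T) ∪ Set.Ioi T).indicator
          (fun _ => 5 * ℓ ^ 2) t)) * ‖LSeries (twc (ξ i) (rf v)) (((1 + 1 / ℓ : ℝ) : ℂ) + t * I)‖ ^ 2 := by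
      intro i hi
      have h1 := (LSeries_twc_typeII (ξ i) v hv0 hv1 ℓ hℓ1 _ (hre t)).2
      have h2 := (twc_LamC_bound (ξ i) ℓ hℓ1 _ (hre t)).2
      have h3 := (LSeries_twc_rf (ξ i) v hv0 hv1 ℓ hℓ1 _ (hre t)).2.2
      have h4 : (fun n : ℕ => ξ i n * (LamC * rf v ^ 3) n) = (twc (ξ i) (LamC * rf v ^ 3) : ℕ → ℂ) := by
        ext n; rw [twc_apply]
      rw [h4, h1, norm_mul, norm_pow]
      set R := ‖LSeries (twc (ξ i) (rf v)) (((1 + 1 / ℓ : ℝ) : ℂ) + t * I)‖ with hR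
      have hR0 : 0 ≤ R := norm_nonneg _
      have h5 : R ≤ u + (Set.Iic (-T) ∪ Set.Ioi T).indicator (fun _ => 5 * ℓ ^ 2) t := by
        by_cases ht : t ∈ Set.Iic (-T) ∪ Set.Ioi T
        · rw [Set.indicator_of_mem ht]; linarith
        · rw [Set.indicator_of_notMem ht, add_zero]
          simp only [Set.mem_union, Set.mem_Iic, Set.mem_Ioi, not_or, not_le, not_lt] at ht
          exact hsmall i hi t (abs_le.mpr ⟨ht.1.le, ht.2⟩)
      have h6 : R ^ 3 = R * R ^ 2 := by ring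
      rw [h6, ← mul_assoc]
      apply mul_le_mul_of_nonneg_right _ (by positivity)
      exact mul_le_mul h2 h5 hR0 (by positivity)
    refine (Finset.sum_le_sum hpt).trans ?_
    rw [← Finset.mul_sum]
    have hind : 0 ≤ u + (Set.Iic (-T) ∪ Set.Ioi T).indicator (fun _ => 5 * ℓ ^ 2) t := by
      have : 0 ≤ (Set.Iic (-T) ∪ Set.Ioi T).indicator (fun _ => 5 * ℓ ^ 2) t :=
        Set.indicator_nonneg (fun _ _ => by positivity) t
      linarith
    calc (6 * ℓ ^ 2 * (u + (Set.Iic (-T) ∪ Set.Ioi T).indicator (fun _ => 5 * ℓ ^ 2) t)) *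
          ∑ i ∈ I', ‖LSeries (twc (ξ i) (rf v)) (((1 + 1 / ℓ : ℝ) : ℂ) + t * I)‖ ^ 2
        ≤ (6 * ℓ ^ 2 * (u + (Set.Iic (-T) ∪ Set.Ioi T).indicator (fun _ => 5 * ℓ ^ 2) t)) *
          (320 * ℓ ^ 6) := mul_le_mul_of_nonneg_left hms (by positivity)
      _ = _ := by ring
  have hmain := tent_family I' (fun i n => ξ i n * (LamC * rf v ^ 3) n) (1 + 1 / ℓ) (by linarith)
    (by linarith) (by
      intro i _
      have h := (LSeries_twc_typeII (ξ i) v hv0 hv1 ℓ hℓ1 ((1 + 1 / ℓ : ℝ) : ℂ) (by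
        rw [Complex.ofReal_re])).1
      exact h) x0 hx0 N hN
    (by
      intro i _
      apply cont_line _ (1 + 1 / ℓ) (1 + 1 / (2 * ℓ)) (by
        have : 1 / (2 * ℓ) < 1 / ℓ := by
          apply one_div_lt_one_div_of_lt hℓ0; linarith
        linarith)
      have h := (LSeries_twc_typeII (ξ i) v hv0 hv1 (2 * ℓ) (by linarith)
        ((1 + 1 / (2 * ℓ) : ℝ) : ℂ) (by rw [Complex.ofReal_re])).1
      exact h)
    (6 * ℓ ^ 2 * (5 * ℓ ^ 2) ^ 3) (by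
      intro i _ t
      have h1 := (LSeries_twc_typeII (ξ i) v hv0 hv1 ℓ hℓ1 _ (hre t)).2
      have h2 := (twc_LamC_bound (ξ i) ℓ hℓ1 _ (hre t)).2
      have h3 := (LSeries_twc_rf (ξ i) v hv0 hv1 ℓ hℓ1 _ (hre t)).2.2
      have h4 : (fun n : ℕ => ξ i n * (LamC * rf v ^ 3) n) = (twc (ξ i) (LamC * rf v ^ 3) : ℕ → ℂ) := by
        ext n; rw [twc_apply]
      rw [h4, h1, norm_mul, norm_pow]
      exact mul_le_mul h2 (pow_le_pow_left₀ (norm_nonneg _) h3 3) (by positivity) (by positivity))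
    (fun t => (1920 * ℓ ^ 8) * (u + (Set.Iic (-T) ∪ Set.Ioi T).indicator (fun _ => 5 * ℓ ^ 2) t))
    (by
      have := i1.const_mul (1920 * ℓ ^ 8)
      simp_rw [← mul_assoc] at this
      exact this)
    hG
  refine hmain.trans ?_
  apply mul_le_mul_of_nonneg_left _ (by positivity)
  simp_rw [mul_assoc (1920 * ℓ ^ 8)]
  rw [integral_const_mul]
  apply mul_le_mul_of_nonneg_left _ (by positivity)
  have : 2 * (5 * ℓ ^ 2) / T = 10 * ℓ ^ 2 / T := by ring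
  linarith

end Pool.Agent.H16
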