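import Pool.Agent.H16.ML
import Pool.Agent.H16.MS

/-!
Bilinear block estimate through the multiplicative large sieve.
-/

set_option autoImplicit false

open Complex Finset Filter Topology MeasureTheory
open scoped ComplexConjugate
open DirichletCharacter

namespace Pool.Agent.H16

/-- Dirichlet series of a finitely supported twist -/
lemma LSeries_twc_supp {q : ℕ} (ξ : DirichletCharacter ℂ q) (f : ArithmeticFunction ℂ) (a b : ℕ)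
    (hf : ∀ n, n ∉ Ioc a b → f n = 0) (s : ℂ) :
    LSeriesSummable (twc ξ f) s ∧
    LSeries (twc ξ f) s = ∑ n ∈ Ioc a b, (f n / (n : ℂ) ^ s) * ξ (n : ℕ) := by
  have hterm : ∀ n ∉ Ioc a b, LSeries.term (twc ξ f) s n = 0 := by
    intro n hn
    rcases Nat.eq_zero_or_pos n with rfl | hn0
    · exact LSeries.term_zero _ _
    · rw [LSeries.term_of_ne_zero (by omega), twc_apply, hf n hn]
      simp
  have h1 : HasSum (LSeries.term (twc ξ f) s) (∑ n ∈ Ioc a b, LSeries.term (twc ξ f) s n) :=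
    hasSum_sum_of_ne_finset_zero hterm
  refine ⟨h1.summable, ?_⟩
  have h2 : LSeries (twc ξ f) s = ∑ n ∈ Ioc a b, LSeries.term (twc ξ f) s n := h1.tsum_eq
  rw [h2]
  apply Finset.sum_congr rfl
  intro n hn
  rw [Finset.mem_Ioc] at hn
  rw [LSeries.term_of_ne_zero (by omega), twc_apply]
  ring

/-- the conclusion of `fam_MLS` with a given constant -/
def FamLS (C : ℝ) : Prop := ∀ (W Q : ℕ) (D : Finset ℕ),
    (∀ d ∈ D, 0 < W * d ∧ W * d ≤ Q ∧ Nat.Coprime d W) → ∀ (M N : ℕ) (a : ℕ → ℂ), M ≤ N →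
    ∑ d ∈ D, ∑ ξ ∈ fam W d, ‖∑ n ∈ Ioc M N, a n * ξ (n : ℕ)‖ ^ 2 ≤
      C * (((N : ℝ) - M) + (Q : ℝ) ^ 2) * ∑ n ∈ Ioc M N, ‖a n‖ ^ 2

/-- mean square of a finitely supported Dirichlet polynomial -/
lemma ms_supp (C : ℝ) (hC : 0 < C) (hls : FamLS C) (W Q : ℕ) (D : Finset ℕ)
    (hD : ∀ d ∈ D, 0 < W * d ∧ W * d ≤ Q ∧ Nat.Coprime d W) (f : ArithmeticFunction ℂ) (a b : ℕ)
    (hab : a ≤ b) (hf : ∀ n, n ∉ Ioc a b → f n = 0) (σ : ℝ) (hσ : 1 ≤ σ) (t : ℝ) :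
    ∑ i ∈ D.sigma (fun d => fam W d), ‖LSeries (twc i.2 f) ((σ : ℂ) + t * I)‖ ^ 2 ≤
      C * (((b : ℝ) - a) + (Q : ℝ) ^ 2) * ∑ n ∈ Ioc a b, ‖f n‖ ^ 2 / (n : ℝ) ^ 2 := by
  have h1 := hls W Q D hD a b (fun n => f n / (n : ℂ) ^ ((σ : ℂ) + t * I)) hab
  rw [Finset.sum_sigma]
  have e1 : ∑ d ∈ D, ∑ ξ ∈ fam W d, ‖LSeries (twc ξ f) ((σ : ℂ) + t * I)‖ ^ 2 =
      ∑ d ∈ D, ∑ ξ ∈ fam W d, ‖∑ n ∈ Ioc a b, f n / (n : ℂ) ^ ((σ : ℂ) + t * I) * ξ (n : ℕ)‖ ^ 2 := by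
    apply Finset.sum_congr rfl; intro d _
    apply Finset.sum_congr rfl; intro ξ _
    rw [(LSeries_twc_supp ξ f a b hf _).2]
  rw [e1]
  refine h1.trans ?_
  have hbar : (0 : ℝ) ≤ (b : ℝ) - a := by
    have : (a : ℝ) ≤ b := by exact_mod_cast hab
    linarith
  apply mul_le_mul_of_nonneg_left _ (by positivity)
  apply Finset.sum_le_sum
  intro n hn
  rw [Finset.mem_Ioc] at hn
  have hn1 : (1 : ℝ) ≤ n := by exact_mod_cast (show 1 ≤ n by omega)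
  have hn0 : (0 : ℝ) < n := by linarith
  rw [norm_div, Complex.norm_natCast_cpow_of_pos (by omega), re_add_mul_I, div_pow]
  apply div_le_div_of_nonneg_left (by positivity) (by positivity)
  apply pow_le_pow_left₀ hn0.le
  calc (n : ℝ) = (n : ℝ) ^ (1 : ℝ) := (Real.rpow_one _).symm
    _ ≤ (n : ℝ) ^ σ := Real.rpow_le_rpow_of_exponent_le hn1 hσ

/-- **Bilinear block.** -/
theorem bl_block (C : ℝ) (hC : 0 < C) (hls : FamLS C) (W Q : ℕ) (D : Finset ℕ)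
    (hD : ∀ d ∈ D, 0 < W * d ∧ W * d ≤ Q ∧ Nat.Coprime d W) (f g : ArithmeticFunction ℂ)
    (a1 b1 a2 b2 : ℕ) (h1 : a1 ≤ b1) (h2 : a2 ≤ b2) (hf : ∀ n, n ∉ Ioc a1 b1 → f n = 0)
    (hg : ∀ n, n ∉ Ioc a2 b2 → g n = 0) (ℓ : ℝ) (hℓ : 1 < ℓ) (x0 : ℝ) (hx0 : 0 < x0) (N : ℕ)
    (hN : Real.exp 1 * x0 ≤ N) :
    ∑ d ∈ D, ∑ ξ ∈ fam W d, ‖∑ n ∈ Finset.Icc 1 N, (ξ (n : ℕ) * (f * g) n) *
      ((tent x0 n : ℝ) : ℂ)‖ ≤ 2 * x0 ^ (1 + 1 / ℓ) * (Real.pi *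
        (√(C * (((b1 : ℝ) - a1) + (Q : ℝ) ^ 2) * ∑ n ∈ Ioc a1 b1, ‖f n‖ ^ 2 / (n : ℝ) ^ 2) *
         √(C * (((b2 : ℝ) - a2) + (Q : ℝ) ^ 2) * ∑ n ∈ Ioc a2 b2, ‖g n‖ ^ 2 / (n : ℝ) ^ 2))) := by
  set G0 : ℝ := √(C * (((b1 : ℝ) - a1) + (Q : ℝ) ^ 2) * ∑ n ∈ Ioc a1 b1, ‖f n‖ ^ 2 / (n : ℝ) ^ 2) *
         √(C * (((b2 : ℝ) - a2) + (Q : ℝ) ^ 2) * ∑ n ∈ Ioc a2 b2, ‖g n‖ ^ 2 / (n : ℝ) ^ 2) with hG0
  set I' : Finset (Σ d : ℕ, DirichletCharacter ℂ (W * d)) := D.sigma (fun d => fam W d) with hI'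
  have hℓ0 : 0 < ℓ := by linarith
  have hinv : 0 < 1 / ℓ := by positivity
  have hinv1 : 1 / ℓ ≤ 1 := by rw [div_le_one hℓ0]; exact hℓ.le
  have hprod : ∀ (i : Σ d : ℕ, DirichletCharacter ℂ (W * d)) (s : ℂ),
      LSeriesSummable (fun n => i.2 (n : ℕ) * (f * g) n) s ∧
      LSeries (fun n => i.2 (n : ℕ) * (f * g) n) s = LSeries (twc i.2 f) s * LSeries (twc i.2 g) s := by
    intro i s
    have e : (fun n : ℕ => i.2 (n : ℕ) * (f * g) n) =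
        ((twc i.2 f * twc i.2 g : ArithmeticFunction ℂ) : ℕ → ℂ) := by
      rw [← twc_mul]; ext n; rw [twc_apply]
    have k1 := (LSeries_twc_supp i.2 f a1 b1 hf s).1
    have k2 := (LSeries_twc_supp i.2 g a2 b2 hg s).1
    rw [e]
    exact ⟨ArithmeticFunction.LSeriesSummable_mul k1 k2, ArithmeticFunction.LSeries_mul' k1 k2⟩
  have hGb : ∀ t : ℝ, ∑ i ∈ I', ‖LSeries (fun n => i.2 (n : ℕ) * (f * g) n)
      (((1 + 1 / ℓ : ℝ) : ℂ) + t * I)‖ ≤ G0 := by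
    intro t
    have m1 := ms_supp C hC hls W Q D hD f a1 b1 h1 hf (1 + 1 / ℓ) (by linarith) t
    have m2 := ms_supp C hC hls W Q D hD g a2 b2 h2 hg (1 + 1 / ℓ) (by linarith) t
    calc ∑ i ∈ I', ‖LSeries (fun n => i.2 (n : ℕ) * (f * g) n) (((1 + 1 / ℓ : ℝ) : ℂ) + t * I)‖
        = ∑ i ∈ I', ‖LSeries (twc i.2 f) (((1 + 1 / ℓ : ℝ) : ℂ) + t * I)‖ *
            ‖LSeries (twc i.2 g) (((1 + 1 / ℓ : ℝ) : ℂ) + t * I)‖ := by
          apply Finset.sum_congr rfl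
          intro i _
          rw [(hprod i _).2, norm_mul]
      _ ≤ √(∑ i ∈ I', ‖LSeries (twc i.2 f) (((1 + 1 / ℓ : ℝ) : ℂ) + t * I)‖ ^ 2) *
          √(∑ i ∈ I', ‖LSeries (twc i.2 g) (((1 + 1 / ℓ : ℝ) : ℂ) + t * I)‖ ^ 2) :=
          Real.sum_mul_le_sqrt_mul_sqrt _ _ _
      _ ≤ G0 := by
          rw [hG0]
          exact mul_le_mul (Real.sqrt_le_sqrt m1) (Real.sqrt_le_sqrt m2) (Real.sqrt_nonneg _)
            (Real.sqrt_nonneg _)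
  have hG00 : 0 ≤ G0 := by positivity
  have hmain := tent_family I' (fun i n => i.2 (n : ℕ) * (f * g) n) (1 + 1 / ℓ) (by linarith)
    (by linarith) (fun i _ => (hprod i _).1) x0 hx0 N hN
    (fun i _ => cont_line _ (1 + 1 / ℓ) 1 (by linarith) (hprod i _).1) G0
    (fun i hi t => (Finset.single_le_sum (f := fun i : (Σ d : ℕ, DirichletCharacter ℂ (W * d)) =>
      ‖LSeries (fun n => i.2 (n : ℕ) * (f * g) n) (((1 + 1 / ℓ : ℝ) : ℂ) + t * I)‖)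
      (fun _ _ => norm_nonneg _) hi).trans (hGb t)) (fun _ => G0)
    (integrable_inv_one_add_sq.const_mul G0) hGb
  rw [hI', Finset.sum_sigma, integral_const_mul, integral_univ_inv_one_add_sq, mul_comm G0] at hmain
  exact hmain

end Pool.Agent.H16
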