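import Pool.Agent.H16.Bonf

/-!
Counting integers below `X` in prescribed residue sets modulo distinct primes, and the
multi-bucket expansion used in the Brun-Hooley sieve.
-/

set_option autoImplicit false

open Finset

namespace Pool.Agent.H16

/-- indicator (as a real number) that `k mod p` lies in the forbidden set `R p` -/
noncomputable def chi (R : ℕ → Finset ℕ) (k p : ℕ) : ℝ := if k % p ∈ R p then 1 else 0

lemma chi_nonneg (R : ℕ → Finset ℕ) (k p : ℕ) : 0 ≤ chi R k p := by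
  unfold chi; split_ifs <;> norm_num

lemma chi_le_one (R : ℕ → Finset ℕ) (k p : ℕ) : chi R k p ≤ 1 := by
  unfold chi; split_ifs <;> norm_num

lemma count_modEq_bound (M : ℕ) (hM : 0 < M) (c X : ℕ) :
    |(∑ k ∈ range X, if k % M = c % M then (1 : ℝ) else 0) - (X : ℝ) / M| ≤ 1 := by
  have h1 : (∑ k ∈ range X, if k % M = c % M then (1 : ℝ) else 0)
      = ((Nat.count (· ≡ c [MOD M]) X : ℕ) : ℝ) := by
    rw [Nat.count_eq_card_filter_range, Finset.card_filter]
    push_cast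
    rfl
  rw [h1, Nat.count_modEq_card X hM c]
  have hM' : (0 : ℝ) < M := by exact_mod_cast hM
  have h2 : (X : ℝ) / M = ((X / M : ℕ) : ℝ) + ((X % M : ℕ) : ℝ) / M := by
    have := Nat.div_add_mod X M
    have h3 : (X : ℝ) = (M : ℝ) * ((X / M : ℕ) : ℝ) + ((X % M : ℕ) : ℝ) := by
      exact_mod_cast this.symm
    rw [h3]
    field_simp
  have h4 : ((X % M : ℕ) : ℝ) / M < 1 := by
    rw [div_lt_one hM']
    exact_mod_cast Nat.mod_lt X hM
  have h5 : 0 ≤ ((X % M : ℕ) : ℝ) / M := by positivity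
  rw [h2]
  push_cast
  split_ifs
  · rw [abs_le]; constructor <;> push_cast <;> linarith
  · rw [abs_le]; constructor <;> push_cast <;> linarith

lemma count_crt (R : ℕ → Finset ℕ) (X : ℕ) (d : Finset ℕ) (hd : ∀ p ∈ d, p.Prime)
    (hR : ∀ p ∈ d, R p ⊆ range p) (M : ℕ) (hM : 0 < M) (hcop : ∀ p ∈ d, Nat.Coprime M p)
    (c : ℕ) :
    |(∑ k ∈ range X, if k % M = c % M then ∏ p ∈ d, chi R k p else 0)
      - (X : ℝ) / M * ∏ p ∈ d, ((#(R p) : ℝ) / p)| ≤ ∏ p ∈ d, (#(R p) : ℝ) := by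
  induction d using Finset.induction_on generalizing M c with
  | empty =>
    simpa using count_modEq_bound M hM c X
  | insert p d hp ih =>
    have hpp : p.Prime := hd p (Finset.mem_insert_self p d)
    have hRp : R p ⊆ range p := hR p (Finset.mem_insert_self p d)
    have hd' : ∀ q ∈ d, q.Prime := fun q hq => hd q (Finset.mem_insert_of_mem hq)
    have hR' : ∀ q ∈ d, R q ⊆ range q := fun q hq => hR q (Finset.mem_insert_of_mem hq)
    have hcopp : Nat.Coprime M p := hcop p (Finset.mem_insert_self p d)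
    have hcop' : ∀ q ∈ d, Nat.Coprime (M * p) q := by
      intro q hq
      apply Nat.Coprime.mul_left
      · exact hcop q (Finset.mem_insert_of_mem hq)
      · rw [Nat.coprime_primes hpp (hd' q hq)]
        rintro rfl
        exact hp hq
    have hMp : 0 < M * p := Nat.mul_pos hM hpp.pos
    -- choose the combined residues
    have hcr : ∀ r : ℕ, ∃ c' : ℕ, ∀ k : ℕ, k % (M * p) = c' % (M * p) ↔
        (k % M = c % M ∧ k % p = r % p) := by
      intro r
      obtain ⟨c', h1, h2⟩ := Nat.chineseRemainder hcopp c r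
      refine ⟨c', fun k => ?_⟩
      have h3 := Nat.modEq_and_modEq_iff_modEq_mul (a := k) (b := c') hcopp
      constructor
      · intro hk
        have := h3.mpr hk
        exact ⟨this.1.trans h1, this.2.trans h2⟩
      · rintro ⟨hk1, hk2⟩
        exact h3.mp ⟨Nat.ModEq.trans hk1 h1.symm, Nat.ModEq.trans hk2 h2.symm⟩
    choose c' hc' using hcr
    have key : (∑ k ∈ range X, if k % M = c % M then ∏ q ∈ insert p d, chi R k q else 0)
        = ∑ r ∈ R p, ∑ k ∈ range X,
          if k % (M * p) = c' r % (M * p) then ∏ q ∈ d, chi R k q else 0 := by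
      rw [Finset.sum_comm]
      apply Finset.sum_congr rfl
      intro k _
      rw [Finset.prod_insert hp]
      by_cases hk : k % M = c % M
      · rw [if_pos hk]
        unfold chi
        by_cases hkp : k % p ∈ R p
        · rw [if_pos hkp, one_mul]
          rw [Finset.sum_eq_single_of_mem (k % p) hkp]
          · rw [if_pos]
            rw [hc']
            exact ⟨hk, by rw [Nat.mod_mod]⟩
          · intro r hr hrk
            rw [if_neg]
            rw [hc']
            rintro ⟨_, h⟩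
            have : r % p = r := Nat.mod_eq_of_lt (Finset.mem_range.mp (hRp hr))
            rw [this] at h
            exact hrk h.symm
        · rw [if_neg hkp, zero_mul]
          symm
          apply Finset.sum_eq_zero
          intro r hr
          rw [if_neg]
          rw [hc']
          rintro ⟨_, h⟩
          have : r % p = r := Nat.mod_eq_of_lt (Finset.mem_range.mp (hRp hr))
          rw [this] at h
          exact hkp (h ▸ hr)
      · rw [if_neg hk]
        symm
        apply Finset.sum_eq_zero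
        intro r _
        rw [if_neg]
        rw [hc']
        exact fun h => hk h.1
    rw [key, Finset.prod_insert hp, Finset.prod_insert hp]
    have hterm : ∀ r ∈ R p, |(∑ k ∈ range X,
          if k % (M * p) = c' r % (M * p) then ∏ q ∈ d, chi R k q else 0)
          - (X : ℝ) / ((M * p : ℕ) : ℝ) * ∏ q ∈ d, ((#(R q) : ℝ) / q)| ≤ ∏ q ∈ d, (#(R q) : ℝ) :=
      fun r _ => ih hd' hR' (M * p) hMp hcop' (c' r)
    have hp0 : (p : ℝ) ≠ 0 := by exact_mod_cast hpp.ne_zero
    have hM0 : (M : ℝ) ≠ 0 := by exact_mod_cast hM.ne'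
    have hsub : (∑ r ∈ R p, ∑ k ∈ range X,
          if k % (M * p) = c' r % (M * p) then ∏ q ∈ d, chi R k q else 0)
          - (X : ℝ) / M * (((#(R p) : ℝ) / p) * ∏ q ∈ d, ((#(R q) : ℝ) / q))
        = ∑ r ∈ R p, ((∑ k ∈ range X,
          if k % (M * p) = c' r % (M * p) then ∏ q ∈ d, chi R k q else 0)
          - (X : ℝ) / ((M * p : ℕ) : ℝ) * ∏ q ∈ d, ((#(R q) : ℝ) / q)) := by
      rw [Finset.sum_sub_distrib, Finset.sum_const, nsmul_eq_mul]
      congr 1
      generalize (∏ q ∈ d, ((#(R q) : ℝ) / q)) = Q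
      push_cast
      field_simp
    rw [hsub]
    calc |∑ r ∈ R p, ((∑ k ∈ range X,
          if k % (M * p) = c' r % (M * p) then ∏ q ∈ d, chi R k q else 0)
          - (X : ℝ) / ((M * p : ℕ) : ℝ) * ∏ q ∈ d, ((#(R q) : ℝ) / q))|
        ≤ ∑ r ∈ R p, |((∑ k ∈ range X,
          if k % (M * p) = c' r % (M * p) then ∏ q ∈ d, chi R k q else 0)
          - (X : ℝ) / ((M * p : ℕ) : ℝ) * ∏ q ∈ d, ((#(R q) : ℝ) / q))| :=
          Finset.abs_sum_le_sum_abs _ _
      _ ≤ ∑ r ∈ R p, ∏ q ∈ d, (#(R q) : ℝ) := Finset.sum_le_sum hterm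
      _ = (#(R p) : ℝ) * ∏ q ∈ d, (#(R q) : ℝ) := by
          rw [Finset.sum_const, nsmul_eq_mul]

/-- The version without an initial congruence. -/
lemma count_crt' (R : ℕ → Finset ℕ) (X : ℕ) (d : Finset ℕ) (hd : ∀ p ∈ d, p.Prime)
    (hR : ∀ p ∈ d, R p ⊆ range p) :
    |(∑ k ∈ range X, ∏ p ∈ d, chi R k p)
      - (X : ℝ) * ∏ p ∈ d, ((#(R p) : ℝ) / p)| ≤ ∏ p ∈ d, (#(R p) : ℝ) := by
  have h := count_crt R X d hd hR 1 one_pos (fun p _ => Nat.coprime_one_left p) 0
  simpa [Nat.mod_one] using h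

/-- Multi-bucket expansion. `D j` is a family of subsets of the bucket `P j`. -/
lemma bucket_expand {κ : Type*} [DecidableEq κ] (R : ℕ → Finset ℕ) (X : ℕ)
    (P : κ → Finset ℕ) (D : κ → Finset (Finset ℕ)) (c : κ → Finset ℕ → ℝ)
    (J : Finset κ)
    (hP : ∀ j ∈ J, ∀ p ∈ P j, p.Prime) (hR : ∀ j ∈ J, ∀ p ∈ P j, R p ⊆ range p)
    (hdisj : ∀ i ∈ J, ∀ j ∈ J, i ≠ j → Disjoint (P i) (P j))
    (hD : ∀ j ∈ J, ∀ d ∈ D j, d ⊆ P j)
    (e : Finset ℕ) (he : ∀ p ∈ e, p.Prime) (heR : ∀ p ∈ e, R p ⊆ range p)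
    (hedisj : ∀ j ∈ J, Disjoint e (P j)) :
    |(∑ k ∈ range X, (∏ p ∈ e, chi R k p) *
        ∏ j ∈ J, ∑ d ∈ D j, c j d * ∏ p ∈ d, chi R k p)
      - (X : ℝ) * (∏ p ∈ e, ((#(R p) : ℝ) / p)) *
        ∏ j ∈ J, ∑ d ∈ D j, c j d * ∏ p ∈ d, ((#(R p) : ℝ) / p)|
      ≤ (∏ p ∈ e, (#(R p) : ℝ)) * ∏ j ∈ J, ∑ d ∈ D j, |c j d| * ∏ p ∈ d, (#(R p) : ℝ) := by
  induction J using Finset.induction_on generalizing e with
  | empty =>
    simpa using count_crt' R X e he heR
  | insert i J hi ih =>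
    have hP' : ∀ j ∈ J, ∀ p ∈ P j, p.Prime := fun j hj => hP j (Finset.mem_insert_of_mem hj)
    have hR' : ∀ j ∈ J, ∀ p ∈ P j, R p ⊆ range p := fun j hj => hR j (Finset.mem_insert_of_mem hj)
    have hdisj' : ∀ i' ∈ J, ∀ j ∈ J, i' ≠ j → Disjoint (P i') (P j) :=
      fun i' hi' j hj => hdisj i' (Finset.mem_insert_of_mem hi') j (Finset.mem_insert_of_mem hj)
    have hD' : ∀ j ∈ J, ∀ d ∈ D j, d ⊆ P j := fun j hj => hD j (Finset.mem_insert_of_mem hj)
    have hii : i ∈ insert i J := Finset.mem_insert_self i J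
    have hdis : ∀ d ∈ D i, Disjoint e d := fun d hd =>
      Finset.disjoint_of_subset_right (hD i hii d hd) (hedisj i hii)
    have hIH : ∀ d ∈ D i, |(∑ k ∈ range X, (∏ p ∈ e ∪ d, chi R k p) *
        ∏ j ∈ J, ∑ d ∈ D j, c j d * ∏ p ∈ d, chi R k p)
      - (X : ℝ) * (∏ p ∈ e ∪ d, ((#(R p) : ℝ) / p)) *
        ∏ j ∈ J, ∑ d ∈ D j, c j d * ∏ p ∈ d, ((#(R p) : ℝ) / p)|
      ≤ (∏ p ∈ e ∪ d, (#(R p) : ℝ)) *
        ∏ j ∈ J, ∑ d ∈ D j, |c j d| * ∏ p ∈ d, (#(R p) : ℝ) := by
      intro d hd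
      apply ih hP' hR' hdisj' hD' (e ∪ d)
      · intro p hp
        rcases Finset.mem_union.mp hp with h | h
        · exact he p h
        · exact hP i hii p (hD i hii d hd h)
      · intro p hp
        rcases Finset.mem_union.mp hp with h | h
        · exact heR p h
        · exact hR i hii p (hD i hii d hd h)
      · intro j hj
        rw [Finset.disjoint_union_left]
        refine ⟨hedisj j (Finset.mem_insert_of_mem hj), ?_⟩
        apply Finset.disjoint_of_subset_left (hD i hii d hd)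
        apply hdisj i hii j (Finset.mem_insert_of_mem hj)
        rintro rfl
        exact hi hj
    have h1 : (∑ k ∈ range X, (∏ p ∈ e, chi R k p) *
        ∏ j ∈ insert i J, ∑ d ∈ D j, c j d * ∏ p ∈ d, chi R k p)
        = ∑ d ∈ D i, c i d * ∑ k ∈ range X, (∏ p ∈ e ∪ d, chi R k p) *
        ∏ j ∈ J, ∑ d ∈ D j, c j d * ∏ p ∈ d, chi R k p := by
      simp_rw [Finset.mul_sum]
      rw [Finset.sum_comm]
      apply Finset.sum_congr rfl
      intro k _
      rw [Finset.prod_insert hi, Finset.sum_mul, Finset.mul_sum]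
      apply Finset.sum_congr rfl
      intro d hd
      rw [Finset.prod_union (hdis d hd)]
      ring
    have h2 : (X : ℝ) * (∏ p ∈ e, ((#(R p) : ℝ) / p)) *
        ∏ j ∈ insert i J, ∑ d ∈ D j, c j d * ∏ p ∈ d, ((#(R p) : ℝ) / p)
        = ∑ d ∈ D i, c i d * ((X : ℝ) * (∏ p ∈ e ∪ d, ((#(R p) : ℝ) / p)) *
        ∏ j ∈ J, ∑ d ∈ D j, c j d * ∏ p ∈ d, ((#(R p) : ℝ) / p)) := by
      rw [Finset.prod_insert hi, Finset.sum_mul, Finset.mul_sum]
      apply Finset.sum_congr rfl
      intro d hd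
      rw [Finset.prod_union (hdis d hd)]
      ring
    have h3 : (∏ p ∈ e, (#(R p) : ℝ)) *
        ∏ j ∈ insert i J, ∑ d ∈ D j, |c j d| * ∏ p ∈ d, (#(R p) : ℝ)
        = ∑ d ∈ D i, |c i d| * ((∏ p ∈ e ∪ d, (#(R p) : ℝ)) *
        ∏ j ∈ J, ∑ d ∈ D j, |c j d| * ∏ p ∈ d, (#(R p) : ℝ)) := by
      rw [Finset.prod_insert hi, Finset.sum_mul, Finset.mul_sum]
      apply Finset.sum_congr rfl
      intro d hd
      rw [Finset.prod_union (hdis d hd)]
      ring
    rw [h1, h2, h3, ← Finset.sum_sub_distrib]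
    refine (Finset.abs_sum_le_sum_abs _ _).trans ?_
    apply Finset.sum_le_sum
    intro d hd
    rw [← mul_sub, abs_mul]
    exact mul_le_mul_of_nonneg_left (hIH d hd) (abs_nonneg _)

end Pool.Agent.H16
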