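import Pool.Agent.H16.Euler
import Pool.Agent.H16.Local

/-!
Covering an interval `(0,t)` by residue classes modulo primes `≤ z` without covering `0` and `t`
(`t` even, `t ≤ K z`).
-/

set_option autoImplicit false

open Finset Real Filter

namespace Pool.Agent.H16

/-- default residue -/
def sdef (t p : ℕ) : ℕ := if t % p = 1 then 2 else 1

lemma sdef_spec (t p : ℕ) (ht : Even t) (hp : p.Prime) :
    sdef t p % p ≠ 0 ∧ sdef t p % p ≠ t % p := by
  rcases hp.eq_two_or_odd' with rfl | hodd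
  · have : t % 2 = 0 := Nat.even_iff.mp ht
    unfold sdef
    rw [this]
    norm_num
  · have h3 : 3 ≤ p := by
      have := hp.two_le
      rcases hodd with ⟨k, hk⟩
      omega
    unfold sdef
    by_cases h : t % p = 1
    · rw [if_pos h, Nat.mod_eq_of_lt (by omega), h]
      constructor <;> norm_num
    · rw [if_neg h, Nat.mod_eq_of_lt (by omega)]
      exact ⟨by norm_num, fun h' => h h'.symm⟩

/-- numbers below `X` avoiding the default residues modulo all primes `≤ w` -/
lemma card_V (t w X : ℕ) :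
    (#{k ∈ range X | ∀ p ∈ Nat.primesLE w, k % p ≠ sdef t p % p} : ℝ) ≤
      (X : ℝ) * ∏ p ∈ Nat.primesLE w, (1 - 1 / (p : ℝ)) + ((∏ p ∈ Nat.primesLE w, p : ℕ) : ℝ) := by
  have h := count_crt' (fun p => (range p).erase (sdef t p % p)) X (Nat.primesLE w)
    (fun p hp => (Nat.mem_primesLE.mp hp).2) (fun p _ => Finset.erase_subset _ _)
  have hcard : ∀ p ∈ Nat.primesLE w, #((range p).erase (sdef t p % p)) = p - 1 := by
    intro p hp
    have hp' := (Nat.mem_primesLE.mp hp).2
    rw [Finset.card_erase_of_mem, Finset.card_range]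
    rw [Finset.mem_range]
    exact Nat.mod_lt _ hp'.pos
  have h1 : (∑ k ∈ range X, ∏ p ∈ Nat.primesLE w,
      chi (fun p => (range p).erase (sdef t p % p)) k p)
      = (#{k ∈ range X | ∀ p ∈ Nat.primesLE w, k % p ≠ sdef t p % p} : ℝ) := by
    rw [Finset.card_filter]
    push_cast
    apply Finset.sum_congr rfl
    intro k _
    by_cases hk : ∀ p ∈ Nat.primesLE w, k % p ≠ sdef t p % p
    · rw [if_pos hk]
      apply Finset.prod_eq_one
      intro p hp
      unfold chi
      rw [if_pos]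
      rw [Finset.mem_erase, Finset.mem_range]
      exact ⟨hk p hp, Nat.mod_lt _ (Nat.mem_primesLE.mp hp).2.pos⟩
    · rw [if_neg hk]
      push Not at hk
      obtain ⟨p, hp, hkp⟩ := hk
      apply Finset.prod_eq_zero hp
      unfold chi
      rw [if_neg]
      rw [Finset.mem_erase]
      exact fun h => h.1 hkp
  have h2 : ∏ p ∈ Nat.primesLE w, ((#((range p).erase (sdef t p % p)) : ℝ) / p)
      = ∏ p ∈ Nat.primesLE w, (1 - 1 / (p : ℝ)) := by
    apply Finset.prod_congr rfl
    intro p hp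
    have hp' := (Nat.mem_primesLE.mp hp).2
    rw [hcard p hp, Nat.cast_sub hp'.one_lt.le]
    have : (p : ℝ) ≠ 0 := by exact_mod_cast hp'.ne_zero
    field_simp
    norm_num
  have h3 : ∏ p ∈ Nat.primesLE w, (#((range p).erase (sdef t p % p)) : ℝ)
      ≤ ((∏ p ∈ Nat.primesLE w, p : ℕ) : ℝ) := by
    push_cast
    apply Finset.prod_le_prod
    · intro p _; positivity
    · intro p hp
      rw [hcard p hp]
      exact_mod_cast Nat.sub_le p 1
  rw [h1, h2] at h
  have := (abs_le.mp h).2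
  linarith

open Classical in
/-- numbers `0 < m < t` with a prime factor exceeding `z/4` -/
noncomputable def bigA (t z : ℕ) : Finset ℕ :=
  {m ∈ range t | 0 < m ∧ ∃ q, q.Prime ∧ z < 4 * q ∧ q ∣ m}

lemma card_bigA (K t z : ℕ) (htz : t ≤ K * z) :
    #(bigA t z) ≤ 4 * K * #(Nat.primesLE (K * z)) := by
  classical
  have hsub : bigA t z ⊆ (range (4 * K) ×ˢ Nat.primesLE (K * z)).image (fun x => x.1 * x.2) := by
    intro m hm
    unfold bigA at hm
    rw [Finset.mem_filter, Finset.mem_range] at hm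
    obtain ⟨hmt, hm0, q, hq, hzq, hqm⟩ := hm
    rw [Finset.mem_image]
    refine ⟨(m / q, q), ?_, Nat.div_mul_cancel hqm⟩
    rw [Finset.mem_product]
    constructor
    · rw [Finset.mem_range]
      simp only
      rw [Nat.div_lt_iff_lt_mul hq.pos]
      calc m < t := hmt
        _ ≤ K * z := htz
        _ ≤ K * (4 * q) := Nat.mul_le_mul_left K hzq.le
        _ = 4 * K * q := by ring
    · simp only
      rw [Nat.mem_primesLE]
      exact ⟨(Nat.le_of_dvd hm0 hqm).trans (hmt.le.trans htz), hq⟩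
  calc #(bigA t z) ≤ #((range (4 * K) ×ˢ Nat.primesLE (K * z)).image (fun x => x.1 * x.2)) :=
        Finset.card_le_card hsub
    _ ≤ #(range (4 * K) ×ˢ Nat.primesLE (K * z)) := Finset.card_image_le
    _ = 4 * K * #(Nat.primesLE (K * z)) := by rw [Finset.card_product, Finset.card_range]

open Classical in
/-- numbers `0 < m < t` all of whose prime factors are `≤ w` or divide `Q` -/
noncomputable def smB (t w Q : ℕ) : Finset ℕ :=
  {m ∈ range t | 0 < m ∧ ∀ q, q.Prime → q ∣ m → q ≤ w ∨ q ∣ Q}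

/-- the constant attached to the primes up to `w` -/
noncomputable def Cw (w : ℕ) : ℝ := ∏ p ∈ Nat.primesLE w, (1 - (√(p : ℝ))⁻¹)⁻¹

lemma factor_pos (p : ℕ) (hp : p.Prime) : 0 < (1 - (√(p : ℝ))⁻¹)⁻¹ := by
  apply inv_pos.mpr
  have : (√(p : ℝ))⁻¹ < 1 := by
    apply inv_lt_one_of_one_lt₀
    rw [Real.lt_sqrt (by norm_num)]
    have : (1 : ℝ) < p := by exact_mod_cast hp.one_lt
    linarith
  linarith

lemma card_smB (t w Q : ℕ) (hw : 256 ≤ w) (hQ0 : Q ≠ 0) (hQ : Q ≤ t ^ 2) (ht : 1 ≤ t) :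
    (#(smB t w Q) : ℝ) ≤ Cw w * (t : ℝ) ^ (3 / 4 : ℝ) := by
  classical
  set S1 := Nat.primesLE w with hS1
  set S2 := Q.primeFactors.filter (fun p => w < p) with hS2
  have h := card_factored_le (S1 ∪ S2) (smB t w Q) t (by
    intro p hp
    rcases Finset.mem_union.mp hp with h | h
    · exact (Nat.mem_primesLE.mp h).2
    · exact (Nat.mem_primeFactors.mp (Finset.mem_filter.mp h).1).1) (by
    intro m hm
    unfold smB at hm
    rw [Finset.mem_filter, Finset.mem_range] at hm
    refine ⟨hm.2.1, hm.1.le, ?_⟩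
    intro p hp hpm
    rw [Finset.mem_union]
    by_cases hpw : p ≤ w
    · left; rw [hS1, Nat.mem_primesLE]; exact ⟨hpw, hp⟩
    · right
      rw [hS2, Finset.mem_filter, Nat.mem_primeFactors]
      rcases hm.2.2 p hp hpm with h | h
      · exact absurd h hpw
      · exact ⟨⟨hp, h, hQ0⟩, not_le.mp hpw⟩)
  have hdisj : Disjoint S1 S2 := by
    rw [Finset.disjoint_left]
    intro p hp hp'
    have h1 := (Nat.mem_primesLE.mp hp).1
    have h2 := (Finset.mem_filter.mp hp').2
    omega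
  rw [Finset.prod_union hdisj] at h
  have hS2b : ∏ p ∈ S2, (1 - (√(p : ℝ))⁻¹)⁻¹ ≤ 2 ^ #S2 := by
    rw [← Finset.prod_const]
    apply Finset.prod_le_prod
    · intro p hp
      exact (factor_pos p (Nat.mem_primeFactors.mp (Finset.mem_filter.mp hp).1).1).le
    · intro p hp
      have hpw : 256 < p := lt_of_le_of_lt hw (Finset.mem_filter.mp hp).2
      have hp4 : (4 : ℝ) ≤ p := by
        have : (256 : ℝ) < p := by exact_mod_cast hpw
        linarith
      have hs : 2 ≤ √(p : ℝ) := by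
        apply Real.le_sqrt_of_sq_le
        linarith
      have hs2 : (√(p : ℝ))⁻¹ ≤ 1 / 2 := by
        rw [inv_eq_one_div]
        apply one_div_le_one_div_of_le (by norm_num) hs
      calc (1 - (√(p : ℝ))⁻¹)⁻¹ ≤ (1 / 2 : ℝ)⁻¹ := by
            apply inv_anti₀ (by norm_num); linarith
        _ = 2 := by norm_num
  have hcard : (2 : ℝ) ^ #S2 ≤ (t : ℝ) ^ (1 / 4 : ℝ) := by
    have h1 : ∏ p ∈ S2, p ∣ Q := by
      calc ∏ p ∈ S2, p ∣ ∏ p ∈ Q.primeFactors, p :=
            Finset.prod_dvd_prod_of_subset _ _ _ (Finset.filter_subset _ _)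
        _ ∣ Q := Nat.prod_primeFactors_dvd Q
    have h2 : 256 ^ #S2 ≤ ∏ p ∈ S2, p := by
      rw [← Finset.prod_const]
      apply Finset.prod_le_prod'
      intro p hp
      exact hw.trans (Finset.mem_filter.mp hp).2.le
    have h3 : 256 ^ #S2 ≤ t ^ 2 := h2.trans ((Nat.le_of_dvd (Nat.pos_of_ne_zero hQ0) h1).trans hQ)
    have h4 : ((2 : ℝ) ^ #S2) ^ (4 : ℕ) ≤ t := by
      have h5 : (((2 : ℝ) ^ #S2) ^ 4) ^ 2 ≤ (t : ℝ) ^ 2 := by
        have : (256 : ℝ) ^ #S2 ≤ (t : ℝ) ^ 2 := by exact_mod_cast h3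
        calc (((2 : ℝ) ^ #S2) ^ 4) ^ 2 = (256 : ℝ) ^ #S2 := by
              rw [← pow_mul, ← pow_mul, mul_comm, pow_mul]; norm_num
          _ ≤ _ := this
      have ht0 : (0 : ℝ) ≤ t := by positivity
      exact le_of_sq_le_sq h5 ht0
    have h6 : (2 : ℝ) ^ #S2 = (((2 : ℝ) ^ #S2) ^ (4 : ℕ)) ^ (1 / 4 : ℝ) := by
      rw [← Real.rpow_natCast (((2 : ℝ) ^ #S2)) 4, ← Real.rpow_mul (by positivity)]
      norm_num
    rw [h6]
    exact Real.rpow_le_rpow (by positivity) h4 (by norm_num)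
  have hC0 : 0 ≤ Cw w := Finset.prod_nonneg (fun p hp => (factor_pos p (Nat.mem_primesLE.mp hp).2).le)
  have ht0 : (0 : ℝ) < t := by exact_mod_cast ht
  calc (#(smB t w Q) : ℝ) ≤ √(t : ℝ) * ((∏ p ∈ S1, (1 - (√(p : ℝ))⁻¹)⁻¹) *
        ∏ p ∈ S2, (1 - (√(p : ℝ))⁻¹)⁻¹) := h
    _ ≤ √(t : ℝ) * (Cw w * (t : ℝ) ^ (1 / 4 : ℝ)) := by
        apply mul_le_mul_of_nonneg_left _ (Real.sqrt_nonneg _)
        apply mul_le_mul_of_nonneg_left (hS2b.trans hcard) hC0
    _ = Cw w * (t : ℝ) ^ (3 / 4 : ℝ) := by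
        rw [Real.sqrt_eq_rpow]
        have : (t : ℝ) ^ (3 / 4 : ℝ) = (t : ℝ) ^ (1 / 2 : ℝ) * (t : ℝ) ^ (1 / 4 : ℝ) := by
          rw [← Real.rpow_add ht0]; norm_num
        rw [this]; ring

/-- distance of natural numbers -/
def nd (i b : ℕ) : ℕ := (i - b) + (b - i)

lemma card_dist (i t : ℕ) (A : Finset ℕ) : #{b ∈ range t | nd i b ∈ A} ≤ 2 * #A := by
  have hsub : {b ∈ range t | nd i b ∈ A} ⊆ A.image (fun m => i + m) ∪ A.image (fun m => i - m) := by
    intro b hb
    rw [Finset.mem_filter] at hb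
    rw [Finset.mem_union, Finset.mem_image, Finset.mem_image]
    unfold nd at hb
    rcases Nat.le_total i b with h | h
    · left; exact ⟨_, hb.2, by omega⟩
    · right; exact ⟨_, hb.2, by omega⟩
  calc #{b ∈ range t | nd i b ∈ A} ≤ #(A.image (fun m => i + m) ∪ A.image (fun m => i - m)) :=
        Finset.card_le_card hsub
    _ ≤ #(A.image (fun m => i + m)) + #(A.image (fun m => i - m)) := Finset.card_union_le _ _
    _ ≤ #A + #A := Nat.add_le_add Finset.card_image_le Finset.card_image_le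
    _ = 2 * #A := by ring

/-- choose a centre with few bad elements of type A -/
lemma exists_center (t : ℕ) (ht : 2 ≤ t) (V A : Finset ℕ) :
    ∃ b, 0 < b ∧ b < t ∧ (#{i ∈ V | nd i b ∈ A} : ℝ) * ((t : ℝ) - 1) ≤ 2 * #V * #A := by
  by_contra hcon
  push Not at hcon
  have h1 : ∑ b ∈ Finset.Ioo 0 t, (#{i ∈ V | nd i b ∈ A}) ≤ 2 * #A * #V := by
    calc ∑ b ∈ Finset.Ioo 0 t, (#{i ∈ V | nd i b ∈ A})
        ≤ ∑ b ∈ range t, (#{i ∈ V | nd i b ∈ A}) := by
          apply Finset.sum_le_sum_of_subset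
          intro b hb
          rw [Finset.mem_Ioo] at hb
          rw [Finset.mem_range]; exact hb.2
      _ = ∑ b ∈ range t, ∑ i ∈ V, if nd i b ∈ A then 1 else 0 := by
          apply Finset.sum_congr rfl
          intro b _
          rw [Finset.card_filter]
      _ = ∑ i ∈ V, ∑ b ∈ range t, if nd i b ∈ A then 1 else 0 := Finset.sum_comm
      _ = ∑ i ∈ V, #{b ∈ range t | nd i b ∈ A} := by
          apply Finset.sum_congr rfl
          intro i _
          rw [Finset.card_filter]
      _ ≤ ∑ i ∈ V, 2 * #A := Finset.sum_le_sum (fun i _ => card_dist i t A)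
      _ = 2 * #A * #V := by rw [Finset.sum_const, smul_eq_mul]; ring
  have h2 : (∑ b ∈ Finset.Ioo 0 t, (#{i ∈ V | nd i b ∈ A} : ℝ)) ≤ 2 * #A * #V := by
    exact_mod_cast h1
  have ht1 : (0 : ℝ) < (t : ℝ) - 1 := by
    have : (2 : ℝ) ≤ t := by exact_mod_cast ht
    linarith
  have h3 : ∑ b ∈ Finset.Ioo 0 t, (2 * (#V : ℝ) * #A / ((t : ℝ) - 1)) <
      ∑ b ∈ Finset.Ioo 0 t, (#{i ∈ V | nd i b ∈ A} : ℝ) := by
    apply Finset.sum_lt_sum_of_nonempty
    · exact ⟨1, by rw [Finset.mem_Ioo]; omega⟩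
    · intro b hb
      rw [Finset.mem_Ioo] at hb
      rw [div_lt_iff₀ ht1]
      exact hcon b hb.1 hb.2
  rw [Finset.sum_const, Nat.card_Ioo, nsmul_eq_mul] at h3
  have h4 : ((t - 0 - 1 : ℕ) : ℝ) = (t : ℝ) - 1 := by
    rw [Nat.sub_zero, Nat.cast_sub (by omega)]; norm_num
  rw [h4, mul_div_cancel₀ _ ht1.ne'] at h3
  linarith

/-- greedy choice of distinct representatives avoiding at most two bad values each -/
lemma greedy (L Q : Finset ℕ) (bad : ℕ → Finset ℕ) (hbad : ∀ i ∈ L, #(bad i) ≤ 2)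
    (hcard : #L + 2 ≤ #Q) :
    ∃ f : ℕ → ℕ, (∀ i ∈ L, f i ∈ Q ∧ f i ∉ bad i) ∧ Set.InjOn f L := by
  induction L using Finset.induction_on with
  | empty => exact ⟨id, by simp, by simp⟩
  | insert a L ha ih =>
    rw [Finset.card_insert_of_notMem ha] at hcard
    obtain ⟨f, hf, hinj⟩ := ih (fun i hi => hbad i (Finset.mem_insert_of_mem hi)) (by omega)
    have hex : (Q \ (L.image f ∪ bad a)).Nonempty := by
      rw [← Finset.card_pos]
      have h1 := Finset.le_card_sdiff (L.image f ∪ bad a) Q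
      have h2 : #(L.image f ∪ bad a) ≤ #L + 2 :=
        (Finset.card_union_le _ _).trans (Nat.add_le_add Finset.card_image_le
          (hbad a (Finset.mem_insert_self a L)))
      omega
    obtain ⟨q, hq⟩ := hex
    rw [Finset.mem_sdiff, Finset.mem_union, not_or] at hq
    refine ⟨Function.update f a q, ?_, ?_⟩
    · intro i hi
      rcases Finset.mem_insert.mp hi with rfl | h
      · rw [Function.update_self]
        exact ⟨hq.1, hq.2.2⟩
      · have : i ≠ a := by rintro rfl; exact ha h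
        rw [Function.update_of_ne this]
        exact hf i h
    · intro i hi j hj hij
      have hi' := Finset.mem_insert.mp (Finset.mem_coe.mp hi)
      have hj' := Finset.mem_insert.mp (Finset.mem_coe.mp hj)
      rcases hi' with rfl | hiL <;> rcases hj' with rfl | hjL
      · rfl
      · have hne : j ≠ i := by rintro rfl; exact ha hjL
        rw [Function.update_self, Function.update_of_ne hne] at hij
        exact absurd (Finset.mem_image.mpr ⟨j, hjL, hij.symm⟩) hq.2.1
      · have hne : i ≠ j := by rintro rfl; exact ha hiL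
        rw [Function.update_self, Function.update_of_ne hne] at hij
        exact absurd (Finset.mem_image.mpr ⟨i, hiL, hij⟩) hq.2.1
      · have hne : i ≠ a := by rintro rfl; exact ha hiL
        have hne2 : j ≠ a := by rintro rfl; exact ha hjL
        rw [Function.update_of_ne hne, Function.update_of_ne hne2] at hij
        exact hinj (Finset.mem_coe.mpr hiL) (Finset.mem_coe.mpr hjL) hij

/-- large primes -/
def bigP (z : ℕ) : Finset ℕ := Nat.primesLE z \ Nat.primesLE (z / 4)

lemma mem_bigP {z p : ℕ} : p ∈ bigP z ↔ p.Prime ∧ p ≤ z ∧ z < 4 * p := by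
  unfold bigP
  rw [Finset.mem_sdiff, Nat.mem_primesLE, Nat.mem_primesLE]
  constructor
  · rintro ⟨⟨h1, h2⟩, h3⟩
    refine ⟨h2, h1, ?_⟩
    by_contra h
    exact h3 ⟨by omega, h2⟩
  · rintro ⟨h1, h2, h3⟩
    exact ⟨⟨h2, h1⟩, fun h => by omega⟩

/-- Combinatorial covering lemma, with quantitative hypotheses. -/
lemma cover_core (K z w t : ℕ) (ht : Even t) (htz : t ≤ K * z) (hz : 16 * K ≤ z)
    (hwz : 4 * w ≤ z)
    (hcount : ∃ b, 0 < b ∧ b < t ∧
      1 + #{i ∈ range t | (∀ p ∈ Nat.primesLE w, i % p ≠ sdef t p % p) ∧ nd i b ∈ bigA t z}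
        + 2 * #(smB t w (b * (t - b))) + 2 ≤ #(bigP z)) :
    ∃ a : ℕ → ℕ, (∀ p, p.Prime → p ≤ z → a p % p ≠ 0 ∧ a p % p ≠ t % p) ∧
      ∀ i, 0 < i → i < t → ∃ p, p.Prime ∧ p ≤ z ∧ i % p = a p % p := by
  classical
  obtain ⟨b, hb0, hbt, hcard⟩ := hcount
  -- leftover set
  set L : Finset ℕ := {i ∈ Finset.Ioo 0 t | (∀ p ∈ Nat.primesLE w, i % p ≠ sdef t p % p) ∧
    ∀ p, p.Prime → w < p → 4 * p ≤ z → ¬ p ∣ b → ¬ p ∣ (t - b) → i % p ≠ b % p} with hL
  have hLsub : L ⊆ insert b ({i ∈ range t | (∀ p ∈ Nat.primesLE w, i % p ≠ sdef t p % p) ∧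
      nd i b ∈ bigA t z} ∪ {i ∈ range t | nd b i ∈ smB t w (b * (t - b))}) := by
    intro i hi
    rw [hL, Finset.mem_filter, Finset.mem_Ioo] at hi
    obtain ⟨⟨hi0, hit⟩, hV, hmed⟩ := hi
    rw [Finset.mem_insert, Finset.mem_union, Finset.mem_filter, Finset.mem_filter,
      Finset.mem_range]
    by_cases hib : i = b
    · left; exact hib
    right
    by_cases hA : nd i b ∈ bigA t z
    · left; exact ⟨hit, hV, hA⟩
    right
    refine ⟨hit, ?_⟩
    unfold smB
    rw [Finset.mem_filter, Finset.mem_range]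
    refine ⟨by unfold nd; omega, by unfold nd; omega, ?_⟩
    intro q hq hqm
    by_contra hcon
    push Not at hcon
    obtain ⟨hqw, hqQ⟩ := hcon
    have hqb : ¬ q ∣ b := fun h => hqQ (Dvd.dvd.mul_right h _)
    have hqtb : ¬ q ∣ (t - b) := fun h => hqQ (Dvd.dvd.mul_left h _)
    have hq4 : 4 * q ≤ z := by
      by_contra h
      apply hA
      unfold bigA
      rw [Finset.mem_filter, Finset.mem_range]
      refine ⟨by unfold nd; omega, by unfold nd; omega, q, hq, by omega, ?_⟩
      have : nd i b = nd b i := by unfold nd; omega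
      rw [this]; exact hqm
    apply hmed q hq hqw hq4 hqb hqtb
    unfold nd at hqm
    rcases Nat.le_total i b with h | h
    · have e : (b - i) + (i - b) = b - i := by omega
      rw [e] at hqm
      exact (Nat.modEq_iff_dvd' h).mpr hqm
    · have e : (b - i) + (i - b) = i - b := by omega
      rw [e] at hqm
      exact ((Nat.modEq_iff_dvd' h).mpr hqm).symm
  have hLcard : #L + 2 ≤ #(bigP z) := by
    have h1 := Finset.card_le_card hLsub
    have h2 := card_dist b t (smB t w (b * (t - b)))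
    have h3 := Finset.card_insert_le b ({i ∈ range t | (∀ p ∈ Nat.primesLE w, i % p ≠ sdef t p % p) ∧
      nd i b ∈ bigA t z} ∪ {i ∈ range t | nd b i ∈ smB t w (b * (t - b))})
    have h4 := Finset.card_union_le {i ∈ range t | (∀ p ∈ Nat.primesLE w, i % p ≠ sdef t p % p) ∧
      nd i b ∈ bigA t z} {i ∈ range t | nd b i ∈ smB t w (b * (t - b))}
    omega
  have honly : ∀ x, 0 < x → x < K * z → ∀ p q, p ∈ bigP z → q ∈ bigP z → p ∣ x → q ∣ x → p = q := by
    intro x hx0 hx p q hp hq hpx hqx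
    rw [mem_bigP] at hp hq
    by_contra hne
    have hcop : Nat.Coprime p q := (Nat.coprime_primes hp.1 hq.1).mpr hne
    have h1 : p * q ∣ x := Nat.Coprime.mul_dvd_of_dvd_of_dvd hcop hpx hqx
    have h2 : p * q ≤ x := Nat.le_of_dvd hx0 h1
    have h3 : z * z < (4 * p) * (4 * q) := Nat.mul_lt_mul'' hp.2.2 hq.2.2
    have h4 : 16 * (p * q) < 16 * K * z := by nlinarith
    have h5 : 16 * K * z ≤ z * z := Nat.mul_le_mul_right z hz
    nlinarith
  have hbad : ∀ i ∈ L, #((bigP z).filter (fun p => p ∣ i ∨ p ∣ (t - i))) ≤ 2 := by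
    intro i hi
    rw [hL, Finset.mem_filter, Finset.mem_Ioo] at hi
    obtain ⟨⟨hi0, hit⟩, _, _⟩ := hi
    rw [Finset.filter_or]
    refine (Finset.card_union_le _ _).trans ?_
    have h1 : #((bigP z).filter (fun p => p ∣ i)) ≤ 1 := by
      rw [Finset.card_le_one]
      intro p hp q hq
      rw [Finset.mem_filter] at hp hq
      exact honly i hi0 (by omega) p q hp.1 hq.1 hp.2 hq.2
    have h2 : #((bigP z).filter (fun p => p ∣ (t - i))) ≤ 1 := by
      rw [Finset.card_le_one]
      intro p hp q hq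
      rw [Finset.mem_filter] at hp hq
      exact honly (t - i) (by omega) (by omega) p q hp.1 hq.1 hp.2 hq.2
    omega
  obtain ⟨f, hf, hinj⟩ := greedy L (bigP z) (fun i => (bigP z).filter (fun p => p ∣ i ∨ p ∣ (t - i)))
    hbad hLcard
  -- definition of the residues
  let a : ℕ → ℕ := fun p =>
    if 4 * p ≤ z then
      if w < p ∧ ¬ p ∣ b ∧ ¬ p ∣ (t - b) then b else sdef t p
    else if h : ∃ i ∈ L, f i = p then h.choose else sdef t p
  refine ⟨a, ?_, ?_⟩
  · intro p hp hpz
    have hdef := sdef_spec t p ht hp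
    simp only [a]
    split_ifs with h1 h2 h3
    · constructor
      · intro h; exact h2.2.1 (Nat.dvd_of_mod_eq_zero h)
      · intro h
        exact h2.2.2 ((Nat.modEq_iff_dvd' hbt.le).mp h)
    · exact hdef
    · obtain ⟨hiL, hfi⟩ := h3.choose_spec
      set i := h3.choose
      have hfi' := hf i hiL
      rw [hfi] at hfi'
      have hnot := hfi'.2
      rw [Finset.mem_filter, not_and, not_or] at hnot
      have hnot' := hnot hfi'.1
      rw [hL, Finset.mem_filter, Finset.mem_Ioo] at hiL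
      constructor
      · intro h; exact hnot'.1 (Nat.dvd_of_mod_eq_zero h)
      · intro h
        exact hnot'.2 ((Nat.modEq_iff_dvd' hiL.1.2.le).mp h)
    · exact hdef
  · intro i hi0 hit
    by_cases hiL : i ∈ L
    · -- covered by a large prime
      have hfi := hf i hiL
      have hbig := mem_bigP.mp hfi.1
      refine ⟨f i, hbig.1, hbig.2.1, ?_⟩
      simp only [a]
      rw [if_neg (by omega)]
      have hex : ∃ j ∈ L, f j = f i := ⟨i, hiL, rfl⟩
      rw [dif_pos hex]
      have hch := hex.choose_spec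
      have : hex.choose = i := hinj (Finset.mem_coe.mpr hch.1) (Finset.mem_coe.mpr hiL) hch.2
      rw [this]
    · rw [hL, Finset.mem_filter, Finset.mem_Ioo] at hiL
      have hiL' := fun h => hiL ⟨⟨hi0, hit⟩, h⟩
      by_cases hV : ∀ p ∈ Nat.primesLE w, i % p ≠ sdef t p % p
      · have hmed : ¬ ∀ p, p.Prime → w < p → 4 * p ≤ z → ¬ p ∣ b → ¬ p ∣ (t - b) →
            i % p ≠ b % p := fun h => hiL' ⟨hV, h⟩
        push Not at hmed
        obtain ⟨p, hp, hwp, hp4, hpb, hptb, hmod⟩ := hmed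
        refine ⟨p, hp, by omega, ?_⟩
        simp only [a]
        rw [if_pos hp4, if_pos ⟨hwp, hpb, hptb⟩]
        exact hmod
      · push Not at hV
        obtain ⟨p, hp, hmod⟩ := hV
        obtain ⟨hpw, hpp⟩ := Nat.mem_primesLE.mp hp
        refine ⟨p, hpp, by omega, ?_⟩
        simp only [a]
        rw [if_pos (by omega), if_neg (by omega)]
        exact hmod

end Pool.Agent.H16
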