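import Pool.Agent.H16.WSieveMain
import Pool.Agent.H16.Cover

/-!
Unweighted upper-bound sieve (at most four classes per prime) and quantitative counting lemmas for
coverings.
-/

set_option autoImplicit false

open Finset Real

namespace Pool.Agent.H16

/-- Upper-bound sieve for residue classes. -/
theorem usieve_upper (z y : ℕ) (hz : 100 ≤ Real.log z) (hzy : z ≤ y)
    (P : Finset ℕ) (hP : ∀ p ∈ P, p.Prime) (hPz : ∀ p ∈ P, z < p) (hPy : ∀ p ∈ P, p ≤ y)
    (R : ℕ → Finset ℕ) (hR : ∀ p ∈ P, R p ⊆ range p) (hR4 : ∀ p ∈ P, #(R p) ≤ 4) (M : ℕ) :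
    (#{m ∈ range M | ∀ p ∈ P, m % p ∉ R p} : ℝ) ≤
      2 * (M : ℝ) * ∏ p ∈ P, (1 - (#(R p) : ℝ) / p) + (y : ℝ) ^ 50 := by
  classical
  have h := (wsieve (range M) (fun _ => 1) (chi R) (M : ℝ) z y hz hzy P hP hPz hPy
    (fun p => (#(R p) : ℝ) / p) (fun p _ => by positivity)
    (fun p hp => by
      have h1 : (#(R p) : ℝ) ≤ 4 := by exact_mod_cast hR4 p hp
      gcongr)
    (fun _ _ => zero_le_one) (fun n _ p _ => chi_nonneg R n p) (fun n _ p _ => chi_le_one R n p)
    (by positivity)).1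
  have h1 : (#{m ∈ range M | ∀ p ∈ P, m % p ∉ R p} : ℝ) =
      ∑ n ∈ range M, 1 * ∏ p ∈ P, (1 - chi R n p) := by
    rw [Finset.card_filter]
    push_cast
    apply Finset.sum_congr rfl
    intro k _
    rw [one_mul]
    by_cases h : ∀ p ∈ P, k % p ∉ R p
    · rw [if_pos h]
      symm
      apply Finset.prod_eq_one
      intro p hp
      unfold chi
      rw [if_neg (h p hp)]
      ring
    · rw [if_neg h]
      push Not at h
      obtain ⟨p, hp, hk⟩ := h
      symm
      apply Finset.prod_eq_zero hp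
      unfold chi
      rw [if_pos hk]
      ring
  rw [h1]
  refine h.trans ?_
  have h2 : ∑ D ∈ P.powerset.filter (fun D => (∏ p ∈ D, p) ≤ y ^ 25),
      |RD (range M) (fun _ => 1) (chi R) (M : ℝ) (fun p => (#(R p) : ℝ) / p) D| ≤ (y : ℝ) ^ 50 := by
    have h3 : ∀ D ∈ P.powerset.filter (fun D => (∏ p ∈ D, p) ≤ y ^ 25),
        |RD (range M) (fun _ => 1) (chi R) (M : ℝ) (fun p => (#(R p) : ℝ) / p) D| ≤
          (y : ℝ) ^ 25 := by
      intro D hD
      rw [Finset.mem_filter, Finset.mem_powerset] at hD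
      unfold RD AD
      simp_rw [one_mul]
      have h4 := count_crt' R M D (fun p hp => hP p (hD.1 hp)) (fun p hp => hR p (hD.1 hp))
      refine h4.trans ?_
      calc ∏ p ∈ D, (#(R p) : ℝ) ≤ ∏ p ∈ D, (p : ℝ) := by
            apply Finset.prod_le_prod
            · intro p _; positivity
            · intro p hp
              have := Finset.card_le_card (hR p (hD.1 hp))
              rw [Finset.card_range] at this
              exact_mod_cast this
        _ = ((∏ p ∈ D, p : ℕ) : ℝ) := by push_cast; rfl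
        _ ≤ ((y ^ 25 : ℕ) : ℝ) := by exact_mod_cast hD.2
        _ = (y : ℝ) ^ 25 := by push_cast; rfl
    have h5 : #(P.powerset.filter (fun D => (∏ p ∈ D, p) ≤ y ^ 25)) ≤ y ^ 25 := by
      have h6 : #(P.powerset.filter (fun D => (∏ p ∈ D, p) ≤ y ^ 25)) ≤ #(Finset.Icc 1 (y ^ 25)) := by
        apply Finset.card_le_card_of_injOn (fun D => ∏ p ∈ D, p)
        · intro D hD
          rw [Finset.coe_filter, Set.mem_ofPred_eq, Finset.mem_powerset] at hD
          rw [Finset.coe_Icc, Set.mem_Icc]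
          refine ⟨?_, hD.2⟩
          exact Nat.one_le_iff_ne_zero.mpr (Finset.prod_ne_zero_iff.mpr
            (fun p hp => (hP p (hD.1 hp)).ne_zero))
        · intro D hD D' hD' hDD
          rw [Finset.coe_filter, Set.mem_ofPred_eq, Finset.mem_powerset] at hD hD'
          have e1 := Nat.primeFactors_prod (fun p hp => hP p (hD.1 hp))
          have e2 := Nat.primeFactors_prod (fun p hp => hP p (hD'.1 hp))
          simp only at hDD
          rw [← e1, ← e2, hDD]
      rwa [Nat.card_Icc, Nat.add_sub_cancel] at h6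
    calc ∑ D ∈ P.powerset.filter (fun D => (∏ p ∈ D, p) ≤ y ^ 25),
          |RD (range M) (fun _ => 1) (chi R) (M : ℝ) (fun p => (#(R p) : ℝ) / p) D|
        ≤ ∑ D ∈ P.powerset.filter (fun D => (∏ p ∈ D, p) ≤ y ^ 25), (y : ℝ) ^ 25 :=
          Finset.sum_le_sum h3
      _ = (#(P.powerset.filter (fun D => (∏ p ∈ D, p) ≤ y ^ 25)) : ℝ) * (y : ℝ) ^ 25 := by
          rw [Finset.sum_const, nsmul_eq_mul]
      _ ≤ (y : ℝ) ^ 25 * (y : ℝ) ^ 25 := by
          apply mul_le_mul_of_nonneg_right _ (by positivity)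
          exact_mod_cast h5
      _ = (y : ℝ) ^ 50 := by ring
  linarith

/-- positions avoiding the default residues of the primes `≤ w` other than `p0` -/
def setV (t w p0 : ℕ) : Finset ℕ :=
  {i ∈ range t | ∀ p ∈ Nat.primesLE w, p ≠ p0 → i % p ≠ sdef t p % p}

lemma prod_one_sub_le_one (S : Finset ℕ) : ∏ p ∈ S, (1 - 1 / (p : ℝ)) ≤ 1 := by
  apply Finset.prod_le_one
  · intro p _
    rcases Nat.eq_zero_or_pos p with rfl | hp
    · simp
    · have : (1 : ℝ) ≤ p := by exact_mod_cast hp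
      have : 1 / (p : ℝ) ≤ 1 := by
        rw [div_le_one (by linarith)]; exact this
      linarith
  · intro p _
    have : 0 ≤ 1 / (p : ℝ) := by positivity
    linarith

lemma one_sub_inv_pos {p : ℕ} (hp : p.Prime) : 0 < 1 - 1 / (p : ℝ) := by
  have h2 : (2 : ℝ) ≤ p := by exact_mod_cast hp.two_le
  have : 1 / (p : ℝ) ≤ 1 / 2 := one_div_le_one_div_of_le (by norm_num) h2
  linarith

/-- `#V ≪ t / log w` for `w ^ 60 ≤ t`. -/
theorem card_setV : ∃ C : ℝ, 0 < C ∧ ∀ w t p0 : ℕ, 2 ≤ w → w ^ 60 ≤ t →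
    (#(setV t w p0) : ℝ) ≤ C * (t / Real.log w) := by
  classical
  set N0 : ℕ := ⌈Real.exp 100⌉₊ with hN0
  have hN0' : Real.exp 100 ≤ N0 := Nat.le_ceil _
  have hN0pos : (0 : ℝ) < N0 := (Real.exp_pos _).trans_le hN0'
  have hlogN0 : 100 ≤ Real.log N0 := by
    rw [Real.le_log_iff_exp_le hN0pos]; exact hN0'
  set c0 : ℝ := ∏ p ∈ Nat.primesLE N0, (1 - 1 / (p : ℝ)) with hc0
  have hc0pos : 0 < c0 := Finset.prod_pos (fun p hp => one_sub_inv_pos (Nat.mem_primesLE.mp hp).2)
  refine ⟨Real.log N0 + 4 / c0 + 1, by positivity, ?_⟩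
  intro w t p0 hw hwt
  have hw' : (2 : ℝ) ≤ w := by exact_mod_cast hw
  have hlogw : 0 < Real.log w := Real.log_pos (by linarith)
  have ht0 : (0 : ℝ) ≤ t := by positivity
  have htl : 0 ≤ (t : ℝ) / Real.log w := by positivity
  have hVt : (#(setV t w p0) : ℝ) ≤ t := by
    have : #(setV t w p0) ≤ #(range t) := Finset.card_filter_le _ _
    rw [Finset.card_range] at this
    exact_mod_cast this
  rcases Nat.lt_or_ge N0 w with hcase | hcase
  · -- sieve
    set P : Finset ℕ := {p ∈ Nat.primesLE w | N0 < p ∧ p ≠ p0} with hP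
    have hPmem : ∀ p ∈ P, p.Prime ∧ p ≤ w ∧ N0 < p ∧ p ≠ p0 := by
      intro p hp
      rw [hP, Finset.mem_filter, Nat.mem_primesLE] at hp
      exact ⟨hp.1.2, hp.1.1, hp.2.1, hp.2.2⟩
    have hs := usieve_upper N0 w hlogN0 hcase.le P (fun p hp => (hPmem p hp).1)
      (fun p hp => (hPmem p hp).2.2.1) (fun p hp => (hPmem p hp).2.1)
      (fun p => {sdef t p % p}) (fun p hp => by
        rw [Finset.singleton_subset_iff, Finset.mem_range]
        exact Nat.mod_lt _ (hPmem p hp).1.pos) (fun p _ => by simp) t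
    have hsub : setV t w p0 ⊆ {m ∈ range t | ∀ p ∈ P, m % p ∉ ({sdef t p % p} : Finset ℕ)} := by
      intro i hi
      unfold setV at hi
      rw [Finset.mem_filter] at hi ⊢
      refine ⟨hi.1, fun p hp => ?_⟩
      rw [Finset.mem_singleton]
      have := hPmem p hp
      exact hi.2 p (Nat.mem_primesLE.mpr ⟨this.2.1, this.1⟩) this.2.2.2
    have h1 : (#(setV t w p0) : ℝ) ≤ 2 * (t : ℝ) * ∏ p ∈ P, (1 - 1 / (p : ℝ)) + (w : ℝ) ^ 50 := by
      refine le_trans (by exact_mod_cast Finset.card_le_card hsub) (hs.trans (le_of_eq ?_))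
      simp
    -- product bound
    have h2 : (∏ p ∈ P, (1 - 1 / (p : ℝ))) * (c0 * (1 / 2)) ≤
        ∏ p ∈ Nat.primesLE w, (1 - 1 / (p : ℝ)) := by
      have hsplit : Nat.primesLE w ⊆ (P ∪ Nat.primesLE N0) ∪ ({p0} : Finset ℕ).filter Nat.Prime := by
        intro p hp
        rw [Finset.mem_union, Finset.mem_union]
        rw [Nat.mem_primesLE] at hp
        by_cases h0 : p = p0
        · right; rw [Finset.mem_filter, Finset.mem_singleton]; exact ⟨h0, hp.2⟩
        · left
          by_cases h1 : N0 < p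
          · left; rw [hP, Finset.mem_filter, Nat.mem_primesLE]; exact ⟨hp, h1, h0⟩
          · right; rw [Nat.mem_primesLE]; exact ⟨by omega, hp.2⟩
      have hpp : ∀ p ∈ (P ∪ Nat.primesLE N0) ∪ ({p0} : Finset ℕ).filter Nat.Prime, p.Prime := by
        intro p hp
        rw [Finset.mem_union, Finset.mem_union] at hp
        rcases hp with (h | h) | h
        · exact (hPmem p h).1
        · exact (Nat.mem_primesLE.mp h).2
        · exact (Finset.mem_filter.mp h).2
      have h3 : ∏ p ∈ (P ∪ Nat.primesLE N0) ∪ ({p0} : Finset ℕ).filter Nat.Prime, (1 - 1 / (p : ℝ)) ≤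
          ∏ p ∈ Nat.primesLE w, (1 - 1 / (p : ℝ)) := by
        rw [← Finset.prod_sdiff hsplit]
        calc _ ≤ 1 * ∏ p ∈ Nat.primesLE w, (1 - 1 / (p : ℝ)) := by
              apply mul_le_mul_of_nonneg_right (prod_one_sub_le_one _)
              exact Finset.prod_nonneg (fun p hp => (one_sub_inv_pos (Nat.mem_primesLE.mp hp).2).le)
          _ = _ := one_mul _
      refine le_trans ?_ h3
      have hun : ∀ A B : Finset ℕ, (∀ p ∈ A, p.Prime) → (∀ p ∈ B, p.Prime) →
          (∏ p ∈ A, (1 - 1 / (p : ℝ))) * ∏ p ∈ B, (1 - 1 / (p : ℝ)) ≤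
            ∏ p ∈ A ∪ B, (1 - 1 / (p : ℝ)) := by
        intro A B hA hB
        have e := Finset.prod_union_inter (s₁ := A) (s₂ := B) (f := fun p : ℕ => (1 - 1 / (p : ℝ)))
        rw [← e]
        have h4 := prod_one_sub_le_one (A ∩ B)
        have h5 : 0 ≤ ∏ p ∈ A ∪ B, (1 - 1 / (p : ℝ)) :=
          Finset.prod_nonneg (fun p hp => by
            rcases Finset.mem_union.mp hp with h | h
            · exact (one_sub_inv_pos (hA p h)).le
            · exact (one_sub_inv_pos (hB p h)).le)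
        nlinarith
      have hPpos : 0 ≤ ∏ p ∈ P, (1 - 1 / (p : ℝ)) :=
        Finset.prod_nonneg (fun p hp => (one_sub_inv_pos (hPmem p hp).1).le)
      have h6 := hun P (Nat.primesLE N0) (fun p hp => (hPmem p hp).1)
        (fun p hp => (Nat.mem_primesLE.mp hp).2)
      have h7 := hun (P ∪ Nat.primesLE N0) (({p0} : Finset ℕ).filter Nat.Prime)
        (fun p hp => hpp p (Finset.mem_union_left _ hp))
        (fun p hp => (Finset.mem_filter.mp hp).2)
      have h8 : (1 / 2 : ℝ) ≤ ∏ p ∈ ({p0} : Finset ℕ).filter Nat.Prime, (1 - 1 / (p : ℝ)) := by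
        by_cases hpr : p0.Prime
        · rw [Finset.filter_singleton, if_pos hpr, Finset.prod_singleton]
          have h2 : (2 : ℝ) ≤ p0 := by exact_mod_cast hpr.two_le
          have : 1 / (p0 : ℝ) ≤ 1 / 2 := one_div_le_one_div_of_le (by norm_num) h2
          linarith
        · rw [Finset.filter_singleton, if_neg hpr, Finset.prod_empty]
          norm_num
      have h9 : 0 ≤ ∏ p ∈ P ∪ Nat.primesLE N0, (1 - 1 / (p : ℝ)) :=
        Finset.prod_nonneg (fun p hp => (one_sub_inv_pos (hpp p (Finset.mem_union_left _ hp))).le)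
      calc (∏ p ∈ P, (1 - 1 / (p : ℝ))) * (c0 * (1 / 2))
          = ((∏ p ∈ P, (1 - 1 / (p : ℝ))) * c0) * (1 / 2) := by ring
        _ ≤ (∏ p ∈ P ∪ Nat.primesLE N0, (1 - 1 / (p : ℝ))) * (1 / 2) :=
            mul_le_mul_of_nonneg_right h6 (by norm_num)
        _ ≤ (∏ p ∈ P ∪ Nat.primesLE N0, (1 - 1 / (p : ℝ))) *
            ∏ p ∈ ({p0} : Finset ℕ).filter Nat.Prime, (1 - 1 / (p : ℝ)) :=
            mul_le_mul_of_nonneg_left h8 h9
        _ ≤ _ := h7
    have h3 := prod_primes_le w (by omega)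
    have h4 : 1 / Real.log ((w : ℝ) + 1) ≤ 1 / Real.log w := by
      apply one_div_le_one_div_of_le hlogw
      apply Real.log_le_log (by linarith) (by linarith)
    have h5 : ∏ p ∈ P, (1 - 1 / (p : ℝ)) ≤ 2 / c0 * (1 / Real.log w) := by
      have h6 : (∏ p ∈ P, (1 - 1 / (p : ℝ))) * (c0 * (1 / 2)) ≤ 1 / Real.log w :=
        h2.trans (h3.trans h4)
      rw [← le_div_iff₀ (by positivity)] at h6
      refine h6.trans (le_of_eq ?_)
      field_simp
    have h6 : (w : ℝ) ^ 50 ≤ t / Real.log w := by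
      rw [le_div_iff₀ hlogw]
      have h7 : Real.log w ≤ (w : ℝ) ^ 10 := by
        have h8 : Real.log w ≤ w := (Real.log_le_sub_one_of_pos (by linarith)).trans (by linarith)
        have h9 : (w : ℝ) ≤ (w : ℝ) ^ 10 := le_self_pow₀ (by linarith) (by norm_num)
        linarith
      calc (w : ℝ) ^ 50 * Real.log w ≤ (w : ℝ) ^ 50 * (w : ℝ) ^ 10 := by gcongr
        _ = (w : ℝ) ^ 60 := by ring
        _ ≤ t := by exact_mod_cast hwt
    calc (#(setV t w p0) : ℝ) ≤ 2 * (t : ℝ) * ∏ p ∈ P, (1 - 1 / (p : ℝ)) + (w : ℝ) ^ 50 := h1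
      _ ≤ 2 * (t : ℝ) * (2 / c0 * (1 / Real.log w)) + t / Real.log w := by gcongr
      _ = (4 / c0 + 1) * (t / Real.log w) := by ring
      _ ≤ (Real.log N0 + 4 / c0 + 1) * (t / Real.log w) := by
          apply mul_le_mul_of_nonneg_right _ htl
          linarith
  · have h1 : Real.log w ≤ Real.log N0 := Real.log_le_log (by linarith) (by exact_mod_cast hcase)
    calc (#(setV t w p0) : ℝ) ≤ t := hVt
      _ = Real.log w * (t / Real.log w) := by field_simp
      _ ≤ (Real.log N0 + 4 / c0 + 1) * (t / Real.log w) := by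
          apply mul_le_mul_of_nonneg_right _ htl
          have : 0 < 4 / c0 := by positivity
          linarith

/-- Chebyshev upper bound in a convenient form. -/
lemma primesLE_card_le (x : ℝ) (hx : 1 < x) : (#(Nat.primesLE ⌊x⌋₊) : ℝ) ≤ 7 * (x / Real.log x) := by
  have h1 := Chebyshev.pi_le_log4_mul_div (x := x) hx
  rw [Nat.primesLE_card_eq_primeCounting]
  have hlog : 0 < Real.log x := Real.log_pos hx
  refine h1.trans ?_
  have hsq : Real.log √x = Real.log x / 2 := by
    rw [Real.sqrt_eq_rpow, Real.log_rpow (by linarith)]; ring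
  rw [hsq]
  have h4 : Real.log 4 ≤ 2 := by
    rw [show (4 : ℝ) = 2 ^ 2 by norm_num, Real.log_pow]
    have := Real.log_two_lt_d9
    push_cast
    linarith
  have h5 : √x ≤ 3 * (x / Real.log x) := by
    have h6 : Real.log x ≤ 2 * √x := by
      have h7 := Real.log_le_sub_one_of_pos (show 0 < √x by positivity)
      rw [hsq] at h7
      linarith
    rw [mul_div_assoc', le_div_iff₀ hlog]
    have h8 : √x * √x = x := Real.mul_self_sqrt (by linarith)
    have h9 : 0 ≤ √x := Real.sqrt_nonneg x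
    nlinarith
  have h6 : Real.log 4 * x / (Real.log x / 2) ≤ 4 * (x / Real.log x) := by
    have e : Real.log 4 * x / (Real.log x / 2) = 2 * Real.log 4 * (x / Real.log x) := by
      field_simp
    rw [e]
    have : 0 ≤ x / Real.log x := by positivity
    nlinarith
  linarith

open Classical in
/-- numbers `0 < m < t` with a prime factor exceeding `z1` -/
noncomputable def bigB (t z1 : ℕ) : Finset ℕ :=
  {m ∈ range t | 0 < m ∧ ∃ q, q.Prime ∧ z1 < q ∧ q ∣ m}

/-- number of integers below `t` with a prime factor `> z1` -/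
lemma card_bigB (t z1 : ℕ) (hz1 : 2 ≤ z1) (ht : z1 ≤ t) :
    (#(bigB t z1) : ℝ) ≤ 7 * (t * (1 + Real.log (t / z1)) / Real.log z1) := by
  classical
  have hz1' : (2 : ℝ) ≤ z1 := by exact_mod_cast hz1
  have hz1t : (z1 : ℝ) ≤ t := by exact_mod_cast ht
  have hlog : 0 < Real.log z1 := Real.log_pos (by linarith)
  set K := t / z1 with hK
  have hK1 : 1 ≤ K := (Nat.one_le_div_iff (by omega)).mpr ht
  have hsub : bigB t z1 ⊆ (Finset.Icc 1 K).biUnion (fun k => (Nat.primesLE (t / k)).image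
      (fun q => k * q)) := by
    intro m hm
    unfold bigB at hm
    rw [Finset.mem_filter, Finset.mem_range] at hm
    obtain ⟨hmt, hm0, q, hq, hzq, hqm⟩ := hm
    obtain ⟨k, hk⟩ := hqm
    have hk0 : 0 < k := by
      rcases Nat.eq_zero_or_pos k with rfl | h
      · simp at hk; omega
      · exact h
    rw [Finset.mem_biUnion]
    refine ⟨k, ?_, ?_⟩
    · rw [Finset.mem_Icc]
      refine ⟨hk0, ?_⟩
      rw [hK, Nat.le_div_iff_mul_le (by omega)]
      calc k * z1 ≤ k * q := Nat.mul_le_mul_left k hzq.le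
        _ = m := by rw [hk]; ring
        _ ≤ t := hmt.le
    · rw [Finset.mem_image]
      refine ⟨q, ?_, by rw [hk]; ring⟩
      rw [Nat.mem_primesLE]
      refine ⟨?_, hq⟩
      rw [Nat.le_div_iff_mul_le hk0, ← hk]
      exact hmt.le
  have h1 : (#(bigB t z1) : ℝ) ≤ ∑ k ∈ Finset.Icc 1 K, (#(Nat.primesLE (t / k)) : ℝ) := by
    have h2 : #(bigB t z1) ≤ ∑ k ∈ Finset.Icc 1 K, #(Nat.primesLE (t / k)) := by
      refine (Finset.card_le_card hsub).trans (Finset.card_biUnion_le.trans ?_)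
      apply Finset.sum_le_sum
      intro k _
      exact Finset.card_image_le
    exact_mod_cast h2
  have h2 : ∀ k ∈ Finset.Icc 1 K, (#(Nat.primesLE (t / k)) : ℝ) ≤
      7 * (t / Real.log z1) * (1 / (k : ℝ)) := by
    intro k hk
    rw [Finset.mem_Icc] at hk
    have hk0 : (0 : ℝ) < k := by exact_mod_cast (by omega : 0 < k)
    have hkz : (z1 : ℝ) ≤ (t : ℝ) / k := by
      rw [le_div_iff₀ hk0]
      have h3 : k * z1 ≤ t := by
        calc k * z1 ≤ K * z1 := Nat.mul_le_mul_right z1 hk.2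
          _ ≤ t := Nat.div_mul_le_self t z1
      have h4 : ((k * z1 : ℕ) : ℝ) ≤ t := by exact_mod_cast h3
      push_cast at h4
      linarith
    have h3 := primesLE_card_le ((t : ℝ) / k) (by linarith)
    have h4 : ⌊(t : ℝ) / k⌋₊ = t / k := Nat.floor_div_eq_div t k
    rw [h4] at h3
    refine h3.trans ?_
    have h5 : (t : ℝ) / k / Real.log ((t : ℝ) / k) ≤ (t : ℝ) / k / Real.log z1 := by
      apply div_le_div_of_nonneg_left (by positivity) hlog
      exact Real.log_le_log (by linarith) hkz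
    calc 7 * ((t : ℝ) / k / Real.log ((t : ℝ) / k)) ≤ 7 * ((t : ℝ) / k / Real.log z1) := by linarith
      _ = _ := by field_simp
  have h3 : ∑ k ∈ Finset.Icc 1 K, (1 / (k : ℝ)) ≤ 1 + Real.log (t / z1) := by
    have h4 := harmonic_le_one_add_log K
    have h5 : ((harmonic K : ℚ) : ℝ) = ∑ k ∈ Finset.Icc 1 K, (1 / (k : ℝ)) := by
      rw [harmonic_eq_sum_Icc]
      push_cast
      simp
    rw [h5] at h4
    refine h4.trans ?_
    have h6 : (K : ℝ) ≤ (t : ℝ) / z1 := by rw [hK]; exact Nat.cast_div_le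
    have h7 : Real.log K ≤ Real.log ((t : ℝ) / z1) :=
      Real.log_le_log (by exact_mod_cast hK1) h6
    linarith
  calc (#(bigB t z1) : ℝ) ≤ ∑ k ∈ Finset.Icc 1 K, (#(Nat.primesLE (t / k)) : ℝ) := h1
    _ ≤ ∑ k ∈ Finset.Icc 1 K, 7 * (t / Real.log z1) * (1 / (k : ℝ)) := Finset.sum_le_sum h2
    _ = 7 * (t / Real.log z1) * ∑ k ∈ Finset.Icc 1 K, (1 / (k : ℝ)) := by rw [Finset.mul_sum]
    _ ≤ 7 * (t / Real.log z1) * (1 + Real.log (t / z1)) := by gcongr
    _ = _ := by ring

end Pool.Agent.H16
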