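import Pool.Agent.H16.Smooth
import Pool.Agent.H16.USieve

/-!
Two-sided bounds for the Mertens product `V(n) = ∏_{p ≤ n} (1 - 1/p)`.
-/

set_option autoImplicit false

open Finset Filter Topology

namespace Pool.Agent.H16

/-- Mertens product -/
noncomputable def Vp (n : ℕ) : ℝ := ∏ p ∈ Nat.primesLE n, (1 - 1 / (p : ℝ))

lemma Vp_pos (n : ℕ) : 0 < Vp n :=
  Finset.prod_pos (fun _ hp => one_sub_inv_pos (Nat.mem_primesLE.mp hp).2)

lemma Vp_le (n : ℕ) (hn : 2 ≤ n) : Vp n ≤ 1 / Real.log n := by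
  have h1 : (1 : ℝ) < n := by exact_mod_cast hn
  refine (prod_primes_le n (by omega)).trans ?_
  apply one_div_le_one_div_of_le (Real.log_pos h1)
  apply Real.log_le_log (by linarith)
  linarith

lemma primesLE_eq_union (z y : ℕ) (hzy : z ≤ y) :
    Nat.primesLE y = Nat.primesLE z ∪ primesIoc z y := by
  ext p
  rw [Finset.mem_union, Nat.mem_primesLE, Nat.mem_primesLE, mem_primesIoc]
  constructor
  · rintro ⟨h1, h2⟩
    by_cases h : p ≤ z
    · exact Or.inl ⟨h, h2⟩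
    · exact Or.inr ⟨by omega, h1, h2⟩
  · rintro (⟨h1, h2⟩ | ⟨_, h1, h2⟩)
    · exact ⟨h1.trans hzy, h2⟩
    · exact ⟨h1, h2⟩

lemma disj_primes (z y : ℕ) : Disjoint (Nat.primesLE z) (primesIoc z y) := by
  rw [Finset.disjoint_left]
  intro p h1 h2
  rw [Nat.mem_primesLE] at h1
  rw [mem_primesIoc] at h2
  omega

lemma Vp_mul (z y : ℕ) (hzy : z ≤ y) :
    Vp z * ∏ p ∈ primesIoc z y, (1 - 1 / (p : ℝ)) = Vp y := by
  unfold Vp
  rw [primesLE_eq_union z y hzy, Finset.prod_union (disj_primes z y)]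

lemma sum_inv_sq_Ioc (m n : ℕ) (hm : 1 ≤ m) : ∑ k ∈ Ioc m n, 1 / (k : ℝ) ^ 2 ≤ 1 / (m : ℝ) := by
  have key : ∀ n, m ≤ n → ∑ k ∈ Ioc m n, 1 / (k : ℝ) ^ 2 ≤ 1 / (m : ℝ) - 1 / (n : ℝ) := by
    intro n hn
    induction n, hn using Nat.le_induction with
    | base => simp
    | succ n hn ih =>
      rw [Finset.sum_Ioc_succ_top hn]
      have hn0 : (0 : ℝ) < n := by exact_mod_cast (lt_of_lt_of_le hm hn)
      have h1 : 1 / ((n + 1 : ℕ) : ℝ) ^ 2 ≤ 1 / n - 1 / ((n + 1 : ℕ) : ℝ) := by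
        push_cast
        rw [div_sub_div _ _ hn0.ne' (by positivity), div_le_div_iff₀ (by positivity) (by positivity)]
        ring_nf
        nlinarith
      linarith
  by_cases h : m ≤ n
  · have := key n h
    have h2 : 0 ≤ 1 / (n : ℝ) := by positivity
    linarith
  · rw [Finset.Ioc_eq_empty (by omega)]
    simp

/-- lower bound for the Mertens product -/
theorem Vp_ge : ∃ c : ℝ, 0 < c ∧ ∀ n : ℕ, 2 ≤ n → c / Real.log n ≤ Vp n := by
  have hl2 : 0 < Real.log 2 := Real.log_pos (by norm_num)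
  refine ⟨1 / 2 * (Real.log 2 / Real.exp (5 / Real.log 2 + 1)), by positivity, fun n hn => ?_⟩
  have hn1 : (1 : ℝ) < n := by exact_mod_cast hn
  have hln : 0 < Real.log n := Real.log_pos hn1
  have h1 : Vp n = Vp 2 * ∏ p ∈ primesIoc 2 n, (1 - 1 / (p : ℝ)) := (Vp_mul 2 n hn).symm
  have h2 : Vp 2 = 1 / 2 := by
    unfold Vp
    have : Nat.primesLE 2 = {2} := by decide
    rw [this, Finset.prod_singleton]; norm_num
  have h3 : Real.exp (-(∑ p ∈ primesIoc 2 n, (1 : ℝ) / p) - 1) ≤ ∏ p ∈ primesIoc 2 n, (1 - 1 / (p : ℝ)) := by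
    have h4 : ∀ p ∈ primesIoc 2 n, Real.exp (-(1 / (p : ℝ)) - 2 * (1 / (p : ℝ) ^ 2)) ≤ 1 - 1 / (p : ℝ) := by
      intro p hp
      rw [mem_primesIoc] at hp
      have hp3 : (3 : ℝ) ≤ p := by exact_mod_cast hp.1
      have hx : 1 / (p : ℝ) ≤ 3 / 5 := by
        rw [div_le_div_iff₀ (by linarith) (by norm_num)]; linarith
      have h5 := inv_one_sub_le_exp (x := 1 / (p : ℝ)) (by positivity) hx
      have hpos : 0 < 1 - 1 / (p : ℝ) := by linarith
      have h6 : Real.exp (-(1 / (p : ℝ)) - 2 * (1 / (p : ℝ) ^ 2)) =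
          (Real.exp (1 / (p : ℝ) + 2 * (1 / (p : ℝ)) ^ 2))⁻¹ := by
        rw [← Real.exp_neg]; congr 1; ring
      rw [h6]
      exact inv_le_of_inv_le₀ hpos h5
    have h7 : ∏ p ∈ primesIoc 2 n, Real.exp (-(1 / (p : ℝ)) - 2 * (1 / (p : ℝ) ^ 2)) ≤
        ∏ p ∈ primesIoc 2 n, (1 - 1 / (p : ℝ)) :=
      Finset.prod_le_prod (fun p _ => (Real.exp_pos _).le) h4
    refine le_trans ?_ h7
    rw [← Real.exp_sum]
    apply Real.exp_le_exp.mpr
    rw [Finset.sum_sub_distrib, Finset.sum_neg_distrib, ← Finset.mul_sum]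
    have h8 : ∑ p ∈ primesIoc 2 n, 1 / (p : ℝ) ^ 2 ≤ 1 / ((2 : ℕ) : ℝ) := by
      refine le_trans ?_ (sum_inv_sq_Ioc 2 n (by norm_num))
      apply Finset.sum_le_sum_of_subset_of_nonneg
      · intro p hp
        rw [mem_primesIoc] at hp
        rw [Finset.mem_Ioc]; exact ⟨hp.1, hp.2.1⟩
      · intro _ _ _; positivity
    push_cast at h8
    linarith
  have h9 := sum_inv_primes_le 2 n le_rfl hn
  push_cast at h9
  have h10 : Real.exp (-(Real.log (Real.log n / Real.log 2) + 5 / Real.log 2) - 1) ≤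
      Real.exp (-(∑ p ∈ primesIoc 2 n, (1 : ℝ) / p) - 1) := Real.exp_le_exp.mpr (by linarith)
  have h11 : Real.exp (-(Real.log (Real.log n / Real.log 2) + 5 / Real.log 2) - 1) =
      Real.log 2 / Real.exp (5 / Real.log 2 + 1) / Real.log n := by
    rw [show -(Real.log (Real.log n / Real.log 2) + 5 / Real.log 2) - 1 =
      -(Real.log (Real.log n / Real.log 2)) - (5 / Real.log 2 + 1) by ring, Real.exp_sub,
      Real.exp_neg, Real.exp_log (by positivity)]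
    field_simp
  rw [h1, h2]
  have h12 := (h11 ▸ h10).trans h3
  calc 1 / 2 * (Real.log 2 / Real.exp (5 / Real.log 2 + 1)) / Real.log n =
      1 / 2 * (Real.log 2 / Real.exp (5 / Real.log 2 + 1) / Real.log n) := by ring
    _ ≤ _ := mul_le_mul_of_nonneg_left h12 (by norm_num)

/-- product over a subset missing at most `8` primes of `(z, y]` -/
lemma prod_subset_le (z y : ℕ) (hz : 100 ≤ z) (S : Finset ℕ) (hS : S ⊆ primesIoc z y)
    (hmiss : #(primesIoc z y \ S) ≤ 8) :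
    ∏ p ∈ S, (1 - 1 / (p : ℝ)) ≤ 2 * ∏ p ∈ primesIoc z y, (1 - 1 / (p : ℝ)) := by
  rw [← Finset.prod_sdiff hS]
  have hpos : 0 < ∏ p ∈ S, (1 - 1 / (p : ℝ)) :=
    Finset.prod_pos (fun p hp => one_sub_inv_pos (mem_primesIoc.mp (hS hp)).2.2)
  have h1 : (1 / 2 : ℝ) ≤ ∏ p ∈ primesIoc z y \ S, (1 - 1 / (p : ℝ)) := by
    have h2 : ∏ p ∈ primesIoc z y \ S, (99 / 100 : ℝ) ≤ ∏ p ∈ primesIoc z y \ S, (1 - 1 / (p : ℝ)) := by
      apply Finset.prod_le_prod (fun _ _ => by norm_num)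
      intro p hp
      rw [Finset.mem_sdiff, mem_primesIoc] at hp
      have : (100 : ℝ) ≤ p := by exact_mod_cast (hz.trans hp.1.1.le)
      have h3 : 1 / (p : ℝ) ≤ 1 / 100 := one_div_le_one_div_of_le (by norm_num) this
      linarith
    rw [Finset.prod_const] at h2
    have h4 : (99 / 100 : ℝ) ^ 8 ≤ (99 / 100 : ℝ) ^ #(primesIoc z y \ S) :=
      pow_le_pow_of_le_one (by norm_num) (by norm_num) hmiss
    have h5 : (1 / 2 : ℝ) ≤ (99 / 100 : ℝ) ^ 8 := by norm_num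
    linarith
  nlinarith

lemma one_sub_sum_le_prod' (S : Finset ℕ) (f : ℕ → ℝ) (h0 : ∀ p ∈ S, 0 ≤ f p)
    (h1 : ∀ p ∈ S, f p ≤ 1) : 1 - ∑ p ∈ S, f p ≤ ∏ p ∈ S, (1 - f p) := by
  classical
  induction S using Finset.induction_on with
  | empty => simp
  | insert a S ha ih =>
    rw [Finset.sum_insert ha, Finset.prod_insert ha]
    have i1 := ih (fun p hp => h0 p (Finset.mem_insert_of_mem hp))
      (fun p hp => h1 p (Finset.mem_insert_of_mem hp))
    have a0 := h0 a (Finset.mem_insert_self _ _)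
    have a1 := h1 a (Finset.mem_insert_self _ _)
    have s0 : 0 ≤ ∑ p ∈ S, f p := Finset.sum_nonneg (fun p hp => h0 p (Finset.mem_insert_of_mem hp))
    have i2 := mul_le_mul_of_nonneg_left i1 (show 0 ≤ 1 - f a by linarith)
    nlinarith [mul_nonneg a0 s0]

/-- `∏ (1 - 1/(p-1)) ≥ (1/2) ∏ (1 - 1/p)` over primes in `(z, y]`. -/
lemma prod_g_ge (z y : ℕ) (hz : 100 ≤ z) (P : Finset ℕ) (hP : P ⊆ primesIoc z y) :
    1 / 2 * ∏ p ∈ primesIoc z y, (1 - 1 / (p : ℝ)) ≤ ∏ p ∈ P, (1 - 1 / ((p : ℝ) - 1)) := by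
  have hp3 : ∀ p ∈ primesIoc z y, (101 : ℝ) ≤ p := by
    intro p hp
    rw [mem_primesIoc] at hp
    exact_mod_cast (show 101 ≤ p by omega)
  have e1 : ∀ p ∈ P, 1 - 1 / ((p : ℝ) - 1) = (1 - 1 / (p : ℝ)) * (1 - 1 / ((p : ℝ) - 1) ^ 2) := by
    intro p hp
    have := hp3 p (hP hp)
    have h1 : (p : ℝ) - 1 ≠ 0 := by linarith
    have h2 : (p : ℝ) ≠ 0 := by linarith
    field_simp
    ring
  rw [Finset.prod_congr rfl e1, Finset.prod_mul_distrib]
  have h1 : ∏ p ∈ primesIoc z y, (1 - 1 / (p : ℝ)) ≤ ∏ p ∈ P, (1 - 1 / (p : ℝ)) := by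
    rw [← Finset.prod_sdiff hP]
    have hpos : 0 < ∏ p ∈ P, (1 - 1 / (p : ℝ)) :=
      Finset.prod_pos (fun p hp => one_sub_inv_pos (mem_primesIoc.mp (hP hp)).2.2)
    exact mul_le_of_le_one_left hpos.le (prod_one_sub_le_one _)
  have h2 : (1 / 2 : ℝ) ≤ ∏ p ∈ P, (1 - 1 / ((p : ℝ) - 1) ^ 2) := by
    have h3 : 1 - ∑ p ∈ P, 1 / ((p : ℝ) - 1) ^ 2 ≤ ∏ p ∈ P, (1 - 1 / ((p : ℝ) - 1) ^ 2) := by
      apply one_sub_sum_le_prod' P (fun p : ℕ => 1 / ((p : ℝ) - 1) ^ 2)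
      · intro p hp
        positivity
      · intro p hp
        have := hp3 p (hP hp)
        rw [div_le_one (by nlinarith)]
        nlinarith
    have h4 : ∑ p ∈ P, 1 / ((p : ℝ) - 1) ^ 2 ≤ 1 / ((99 : ℕ) : ℝ) := by
      have h5 : ∑ p ∈ P, 1 / ((p : ℝ) - 1) ^ 2 = ∑ m ∈ P.image (fun p : ℕ => p - 1), 1 / (m : ℝ) ^ 2 := by
        rw [Finset.sum_image]
        · apply Finset.sum_congr rfl
          intro p hp
          have := hp3 p (hP hp)
          have h6 : 1 ≤ p := by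
            have : (1 : ℝ) ≤ p := by linarith
            exact_mod_cast this
          rw [Nat.cast_sub h6, Nat.cast_one]
        · intro a ha b hb hab
          have h6 := hP ha
          have h7 := hP hb
          rw [mem_primesIoc] at h6 h7
          simp only at hab
          omega
      rw [h5]
      refine le_trans ?_ (sum_inv_sq_Ioc 99 y (by norm_num))
      apply Finset.sum_le_sum_of_subset_of_nonneg
      · intro m hm
        rw [Finset.mem_image] at hm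
        obtain ⟨p, hp, rfl⟩ := hm
        have h6 := hP hp
        rw [mem_primesIoc] at h6
        rw [Finset.mem_Ioc]; omega
      · intro _ _ _; positivity
    push_cast at h4
    linarith
  have hV : 0 ≤ ∏ p ∈ primesIoc z y, (1 - 1 / (p : ℝ)) :=
    Finset.prod_nonneg (fun p hp => (one_sub_inv_pos (mem_primesIoc.mp hp).2.2).le)
  calc 1 / 2 * ∏ p ∈ primesIoc z y, (1 - 1 / (p : ℝ)) =
      (∏ p ∈ primesIoc z y, (1 - 1 / (p : ℝ))) * (1 / 2) := by ring
    _ ≤ _ := mul_le_mul h1 h2 (by norm_num) (hV.trans h1)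

end Pool.Agent.H16
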