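import Pool.Agent.H16.BL
import Pool.Agent.H16.TypeI2
import Pool.Agent.H16.Vprod

/-!
Dyadic decomposition of bilinear forms and summation over moduli.
-/

set_option autoImplicit false

open Complex Finset Filter Topology MeasureTheory
open scoped ComplexConjugate
open DirichletCharacter

namespace Pool.Agent.H16

/-- restriction to an interval -/
noncomputable def rst (f : ArithmeticFunction ℂ) (a b : ℕ) : ArithmeticFunction ℂ :=
  ⟨fun n => if n ∈ Ioc a b then f n else 0, by simp⟩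

lemma rst_apply (f : ArithmeticFunction ℂ) (a b n : ℕ) :
    rst f a b n = if n ∈ Ioc a b then f n else 0 := rfl

lemma rst_supp (f : ArithmeticFunction ℂ) (a b : ℕ) : ∀ n, n ∉ Ioc a b → rst f a b n = 0 := by
  intro n hn; rw [rst_apply, if_neg hn]

lemma tent_supp (x0 y : ℝ) (hx0 : 0 < x0) (hy : 0 < y) (h : tent x0 y ≠ 0) :
    x0 / Real.exp 1 < y ∧ y < Real.exp 1 * x0 := by
  rw [tent_eq x0 y hx0 hy] at h
  have h1 : |Real.log x0 - Real.log y| < 1 := by
    by_contra hc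
    push Not at hc
    exact h (max_eq_left (by linarith))
  rw [abs_lt] at h1
  constructor
  · have h2 : Real.log (x0 / Real.exp 1) < Real.log y := by
      rw [Real.log_div hx0.ne' (Real.exp_pos 1).ne', Real.log_exp]; linarith
    exact (Real.log_lt_log_iff (by positivity) hy).mp h2
  · have h2 : Real.log y < Real.log (Real.exp 1 * x0) := by
      rw [Real.log_mul (Real.exp_pos 1).ne' hx0.ne', Real.log_exp]; linarith
    exact (Real.log_lt_log_iff hy (by positivity)).mp h2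

/-- inside the support of the tent the second factor may be restricted -/
lemma rst_conv (f g : ArithmeticFunction ℂ) (K : ℕ) (hK : 1 ≤ K) (x0 : ℝ) (hx0 : 0 < x0) (n : ℕ)
    (hn : 0 < n) :
    (rst f K (2 * K) * g) n * ((tent x0 n : ℝ) : ℂ) =
    (rst f K (2 * K) * rst g ⌊x0 / (2 * Real.exp 1 * K)⌋₊ ⌊Real.exp 1 * x0 / K⌋₊) n *
      ((tent x0 n : ℝ) : ℂ) := by
  by_cases ht : tent x0 n = 0
  · rw [ht]; simp
  have hn0 : (0 : ℝ) < n := by exact_mod_cast hn
  have hK0 : (0 : ℝ) < K := by exact_mod_cast hK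
  have he : (0 : ℝ) < Real.exp 1 := Real.exp_pos 1
  obtain ⟨t1, t2⟩ := tent_supp x0 n hx0 hn0 ht
  congr 1
  rw [ArithmeticFunction.mul_apply, ArithmeticFunction.mul_apply]
  apply Finset.sum_congr rfl
  rintro ⟨a, b⟩ hab
  rw [Nat.mem_divisorsAntidiagonal] at hab
  simp only at hab ⊢
  by_cases ha : a ∈ Ioc K (2 * K)
  · congr 1
    rw [rst_apply, if_pos]
    rw [Finset.mem_Ioc] at ha ⊢
    have ha1 : (K : ℝ) < a := by exact_mod_cast ha.1
    have ha2 : (a : ℝ) ≤ 2 * K := by exact_mod_cast ha.2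
    have ha0 : (0 : ℝ) < a := by linarith
    have hab' : (a : ℝ) * b = n := by exact_mod_cast hab.1
    have hb0 : (0 : ℝ) < b := by
      by_contra hc
      push Not at hc
      have : (a : ℝ) * b ≤ 0 := mul_nonpos_of_nonneg_of_nonpos ha0.le hc
      linarith
    constructor
    · rw [Nat.floor_lt (by positivity), div_lt_iff₀ (by positivity)]
      rw [div_lt_iff₀ he] at t1
      calc x0 < n * Real.exp 1 := t1
        _ = a * b * Real.exp 1 := by rw [hab']
        _ ≤ (2 * K) * b * Real.exp 1 := by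
            apply mul_le_mul_of_nonneg_right _ he.le
            exact mul_le_mul_of_nonneg_right ha2 hb0.le
        _ = _ := by ring
    · apply Nat.le_floor
      rw [le_div_iff₀ hK0]
      calc (b : ℝ) * K ≤ b * a := mul_le_mul_of_nonneg_left ha1.le hb0.le
        _ = n := by rw [mul_comm]; exact hab'
        _ ≤ _ := t2.le
  · rw [rst_apply, if_neg ha, zero_mul, zero_mul]

/-- one dyadic block with explicit bound -/
lemma bl_dyad (C : ℝ) (hC : 0 < C) (hls : FamLS C) (W Q : ℕ) (D : Finset ℕ)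
    (hD : ∀ d ∈ D, 0 < W * d ∧ W * d ≤ Q ∧ Nat.Coprime d W) (f g : ArithmeticFunction ℂ)
    (K : ℕ) (hK : 1 ≤ K) (ℓ : ℝ) (hℓ : 1 < ℓ) (x0 : ℝ) (N : ℕ)
    (hN : Real.exp 1 * x0 ≤ N) (hx : x0 ^ (1 + 1 / ℓ) ≤ Real.exp ℓ)
    (F G : ℝ) (hF : 0 ≤ F) (hG : 0 ≤ G)
    (hf : ∑ n ∈ Ioc K (2 * K), ‖f n‖ ^ 2 ≤ K * F) (hg : ∀ n ≤ N, ‖g n‖ ^ 2 ≤ G)
    (hKx : 12 * (K : ℝ) ≤ x0) :
    ∑ d ∈ D, ∑ ξ ∈ fam W d, ‖∑ n ∈ Finset.Icc 1 N, (ξ (n : ℕ) * (rst f K (2 * K) * g) n) *
      ((tent x0 n : ℝ) : ℂ)‖ ≤ Real.exp ℓ * (50 * C * (1 + F * G)) *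
        ((1 + Q / √(K : ℝ)) * (1 + Q * √(K / x0))) := by
  have hK0 : (0 : ℝ) < K := by exact_mod_cast hK
  have hx0 : 0 < x0 := by linarith
  have he : (0 : ℝ) < Real.exp 1 := Real.exp_pos 1
  have he1 : 2.7 < Real.exp 1 := by have := Real.exp_one_gt_d9; linarith
  have he2 : Real.exp 1 < 2.72 := by have := Real.exp_one_lt_d9; linarith
  set a2 : ℕ := ⌊x0 / (2 * Real.exp 1 * K)⌋₊ with ha2
  set b2 : ℕ := ⌊Real.exp 1 * x0 / K⌋₊ with hb2
  have h2 : a2 ≤ b2 := by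
    apply Nat.floor_le_floor
    rw [div_le_div_iff₀ (by positivity) hK0]
    have : x0 * K * 1 ≤ x0 * K * (Real.exp 1 * (2 * Real.exp 1)) := by
      apply mul_le_mul_of_nonneg_left _ (by positivity)
      nlinarith
    calc x0 * K ≤ x0 * K * (Real.exp 1 * (2 * Real.exp 1)) := by linarith
      _ = Real.exp 1 * x0 * (2 * Real.exp 1 * K) := by ring
  have hb := bl_block C hC hls W Q D hD (rst f K (2 * K)) (rst g a2 b2) K (2 * K) a2 b2 (by omega) h2
    (rst_supp _ _ _) (rst_supp _ _ _) ℓ hℓ x0 hx0 N hN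
  have e : ∑ d ∈ D, ∑ ξ ∈ fam W d, ‖∑ n ∈ Finset.Icc 1 N, (ξ (n : ℕ) * (rst f K (2 * K) * g) n) *
      ((tent x0 n : ℝ) : ℂ)‖ = ∑ d ∈ D, ∑ ξ ∈ fam W d, ‖∑ n ∈ Finset.Icc 1 N,
        (ξ (n : ℕ) * (rst f K (2 * K) * rst g a2 b2) n) * ((tent x0 n : ℝ) : ℂ)‖ := by
    apply Finset.sum_congr rfl; intro d _
    apply Finset.sum_congr rfl; intro ξ _
    congr 1
    apply Finset.sum_congr rfl; intro n hn
    rw [Finset.mem_Icc] at hn
    have hr := rst_conv f g K hK x0 hx0 n (by omega)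
    calc ξ (n : ℕ) * (rst f K (2 * K) * g) n * ((tent x0 n : ℝ) : ℂ) =
        ξ (n : ℕ) * ((rst f K (2 * K) * g) n * ((tent x0 n : ℝ) : ℂ)) := by ring
      _ = _ := by rw [hr]; ring
  rw [e]
  refine hb.trans ?_
  -- first factor
  have hA : C * (((2 * K : ℕ) : ℝ) - K + (Q : ℝ) ^ 2) *
      ∑ n ∈ Ioc K (2 * K), ‖rst f K (2 * K) n‖ ^ 2 / (n : ℝ) ^ 2 ≤
      C * F * (1 + (Q : ℝ) ^ 2 / K) := by
    have h3 : ∑ n ∈ Ioc K (2 * K), ‖rst f K (2 * K) n‖ ^ 2 / (n : ℝ) ^ 2 ≤ F / K := by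
      calc ∑ n ∈ Ioc K (2 * K), ‖rst f K (2 * K) n‖ ^ 2 / (n : ℝ) ^ 2 ≤
          ∑ n ∈ Ioc K (2 * K), ‖f n‖ ^ 2 / (K : ℝ) ^ 2 := by
            apply Finset.sum_le_sum
            intro n hn
            rw [rst_apply, if_pos hn]
            rw [Finset.mem_Ioc] at hn
            apply div_le_div_of_nonneg_left (by positivity) (by positivity)
            apply pow_le_pow_left₀ hK0.le
            exact_mod_cast hn.1.le
        _ = (∑ n ∈ Ioc K (2 * K), ‖f n‖ ^ 2) / (K : ℝ) ^ 2 := by rw [Finset.sum_div]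
        _ ≤ (K * F) / (K : ℝ) ^ 2 := div_le_div_of_nonneg_right hf (by positivity)
        _ = F / K := by field_simp
    calc C * (((2 * K : ℕ) : ℝ) - K + (Q : ℝ) ^ 2) *
        ∑ n ∈ Ioc K (2 * K), ‖rst f K (2 * K) n‖ ^ 2 / (n : ℝ) ^ 2 ≤
        C * (((2 * K : ℕ) : ℝ) - K + (Q : ℝ) ^ 2) * (F / K) := by
          apply mul_le_mul_of_nonneg_left h3
          push_cast
          have : (0 : ℝ) ≤ 2 * (K : ℝ) - K + (Q : ℝ) ^ 2 := by nlinarith [sq_nonneg (Q : ℝ)]
          positivity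
      _ = C * F * (1 + (Q : ℝ) ^ 2 / K) := by
          push_cast; field_simp; ring
  have hB : C * (((b2 : ℕ) : ℝ) - a2 + (Q : ℝ) ^ 2) *
      ∑ n ∈ Ioc a2 b2, ‖rst g a2 b2 n‖ ^ 2 / (n : ℝ) ^ 2 ≤
      C * (30 * G) * (1 + (Q : ℝ) ^ 2 * K / x0) := by
    have hb2N : b2 ≤ N := by
      have h3 : (b2 : ℝ) ≤ Real.exp 1 * x0 / K := Nat.floor_le (by positivity)
      have h4 : Real.exp 1 * x0 / K ≤ Real.exp 1 * x0 := by
        apply div_le_self (by positivity)
        exact_mod_cast hK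
      exact_mod_cast (h3.trans h4).trans hN
    have ha2l : x0 / (4 * Real.exp 1 * K) ≤ a2 := by
      have h3 : x0 / (2 * Real.exp 1 * K) < a2 + 1 := Nat.lt_floor_add_one _
      have h4 : 2 ≤ x0 / (2 * Real.exp 1 * K) := by
        rw [le_div_iff₀ (by positivity)]
        calc 2 * (2 * Real.exp 1 * K) = (4 * Real.exp 1) * K := by ring
          _ ≤ 12 * K := by
              apply mul_le_mul_of_nonneg_right _ hK0.le
              linarith
          _ ≤ x0 := hKx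
      have h5 : x0 / (2 * Real.exp 1 * K) = 2 * (x0 / (4 * Real.exp 1 * K)) := by
        field_simp; ring
      linarith
    have ha2pos : 0 < a2 := by
      have h3 : (0 : ℝ) < x0 / (4 * Real.exp 1 * K) := by positivity
      have h4 : (0 : ℝ) < a2 := lt_of_lt_of_le h3 ha2l
      exact_mod_cast h4
    have h3 : ∑ n ∈ Ioc a2 b2, ‖rst g a2 b2 n‖ ^ 2 / (n : ℝ) ^ 2 ≤ G * (4 * Real.exp 1 * K / x0) := by
      calc ∑ n ∈ Ioc a2 b2, ‖rst g a2 b2 n‖ ^ 2 / (n : ℝ) ^ 2 ≤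
          ∑ n ∈ Ioc a2 b2, G * (1 / (n : ℝ) ^ 2) := by
            apply Finset.sum_le_sum
            intro n hn
            rw [rst_apply, if_pos hn]
            rw [Finset.mem_Ioc] at hn
            rw [← div_eq_mul_one_div]
            exact div_le_div_of_nonneg_right (hg n (by omega)) (by positivity)
        _ = G * ∑ n ∈ Ioc a2 b2, 1 / (n : ℝ) ^ 2 := by rw [Finset.mul_sum]
        _ ≤ G * (1 / (a2 : ℝ)) := mul_le_mul_of_nonneg_left (sum_inv_sq_Ioc a2 b2 ha2pos) hG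
        _ ≤ G * (1 / (x0 / (4 * Real.exp 1 * K))) := by
            apply mul_le_mul_of_nonneg_left _ hG
            exact one_div_le_one_div_of_le (by positivity) ha2l
        _ = _ := by rw [one_div_div]
    have h4 : ((b2 : ℕ) : ℝ) - a2 + (Q : ℝ) ^ 2 ≤ Real.exp 1 * x0 / K + (Q : ℝ) ^ 2 := by
      have h5 : (b2 : ℝ) ≤ Real.exp 1 * x0 / K := Nat.floor_le (by positivity)
      have h6 : (0 : ℝ) ≤ a2 := Nat.cast_nonneg _
      linarith
    calc C * (((b2 : ℕ) : ℝ) - a2 + (Q : ℝ) ^ 2) *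
        ∑ n ∈ Ioc a2 b2, ‖rst g a2 b2 n‖ ^ 2 / (n : ℝ) ^ 2 ≤
        C * (Real.exp 1 * x0 / K + (Q : ℝ) ^ 2) * (G * (4 * Real.exp 1 * K / x0)) := by
          apply mul_le_mul (mul_le_mul_of_nonneg_left h4 hC.le) h3 _ (by positivity)
          exact Finset.sum_nonneg (fun n _ => by positivity)
      _ = C * G * (4 * Real.exp 1 * Real.exp 1 + 4 * Real.exp 1 * ((Q : ℝ) ^ 2 * K / x0)) := by
          field_simp
      _ ≤ C * G * (30 + 30 * ((Q : ℝ) ^ 2 * K / x0)) := by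
          apply mul_le_mul_of_nonneg_left _ (by positivity)
          have h7 : 4 * Real.exp 1 * Real.exp 1 ≤ 30 := by
            have h6 := Real.exp_pos 1
            clear * - h6 he2
            nlinarith
          have h8 : 0 ≤ (Q : ℝ) ^ 2 * K / x0 := by positivity
          have h9 : 4 * Real.exp 1 * ((Q : ℝ) ^ 2 * K / x0) ≤ 30 * ((Q : ℝ) ^ 2 * K / x0) := by
            apply mul_le_mul_of_nonneg_right _ h8
            linarith
          linarith
      _ = _ := by ring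
  set u : ℝ := (Q : ℝ) ^ 2 / K with hu
  set w : ℝ := (Q : ℝ) ^ 2 * K / x0 with hw
  have hu0 : 0 ≤ u := by positivity
  have hw0 : 0 ≤ w := by positivity
  have hsu : √u = Q / √(K : ℝ) := by
    rw [hu, Real.sqrt_div (by positivity), Real.sqrt_sq (Nat.cast_nonneg _)]
  have hsw : √w = Q * √(K / x0) := by
    rw [hw, mul_div_assoc, Real.sqrt_mul (by positivity), Real.sqrt_sq (Nat.cast_nonneg _)]
  have hsq : √(C * (((2 * K : ℕ) : ℝ) - K + (Q : ℝ) ^ 2) *
      ∑ n ∈ Ioc K (2 * K), ‖rst f K (2 * K) n‖ ^ 2 / (n : ℝ) ^ 2) *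
      √(C * (((b2 : ℕ) : ℝ) - a2 + (Q : ℝ) ^ 2) *
      ∑ n ∈ Ioc a2 b2, ‖rst g a2 b2 n‖ ^ 2 / (n : ℝ) ^ 2) ≤
      6 * C * (1 + F * G) * ((1 + √u) * (1 + √w)) := by
    have hsu0 := Real.sqrt_nonneg u
    have hsw0 := Real.sqrt_nonneg w
    calc _ ≤ √(C * F * (1 + u)) * √(C * (30 * G) * (1 + w)) :=
          mul_le_mul (Real.sqrt_le_sqrt hA) (Real.sqrt_le_sqrt hB) (Real.sqrt_nonneg _)
            (Real.sqrt_nonneg _)
      _ = √((C * F * (1 + u)) * (C * (30 * G) * (1 + w))) := by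
          rw [← Real.sqrt_mul (by positivity)]
      _ ≤ √((6 * C * (1 + F * G) * ((1 + √u) * (1 + √w))) ^ 2) := by
          apply Real.sqrt_le_sqrt
          have e1 : (C * F * (1 + u)) * (C * (30 * G) * (1 + w)) =
              30 * C ^ 2 * (F * G) * ((1 + u) * (1 + w)) := by ring
          have e2 : (6 * C * (1 + F * G) * ((1 + √u) * (1 + √w))) ^ 2 =
              36 * C ^ 2 * (1 + F * G) ^ 2 * ((1 + √u) ^ 2 * (1 + √w) ^ 2) := by ring
          rw [e1, e2]
          have hFG : 0 ≤ F * G := by positivity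
          have h1 : F * G ≤ (1 + F * G) ^ 2 := by clear * - hFG; nlinarith
          have hu1 : 1 + u ≤ (1 + √u) ^ 2 := by
            have := Real.sq_sqrt hu0
            clear * - this hsu0
            nlinarith
          have hw1 : 1 + w ≤ (1 + √w) ^ 2 := by
            have := Real.sq_sqrt hw0
            clear * - this hsw0
            nlinarith
          have h2 : (1 + u) * (1 + w) ≤ (1 + √u) ^ 2 * (1 + √w) ^ 2 :=
            mul_le_mul hu1 hw1 (by positivity) (by positivity)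
          apply mul_le_mul _ h2 (by positivity) (by positivity)
          apply mul_le_mul _ h1 hFG (by positivity)
          linarith [sq_nonneg C]
      _ = _ := Real.sqrt_sq (by positivity)
  have hpi : Real.pi < 3.15 := Real.pi_lt_d2
  have hsu0 := Real.sqrt_nonneg u
  have hsw0 := Real.sqrt_nonneg w
  rw [← hsu, ← hsw]
  calc 2 * x0 ^ (1 + 1 / ℓ) * (Real.pi * (√(C * (((2 * K : ℕ) : ℝ) - K + (Q : ℝ) ^ 2) *
      ∑ n ∈ Ioc K (2 * K), ‖rst f K (2 * K) n‖ ^ 2 / (n : ℝ) ^ 2) *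
      √(C * (((b2 : ℕ) : ℝ) - a2 + (Q : ℝ) ^ 2) *
      ∑ n ∈ Ioc a2 b2, ‖rst g a2 b2 n‖ ^ 2 / (n : ℝ) ^ 2))) ≤
      2 * Real.exp ℓ * (3.15 * (6 * C * (1 + F * G) * ((1 + √u) * (1 + √w)))) := by
        apply mul_le_mul _ _ (by positivity) (by positivity)
        · linarith
        · exact mul_le_mul hpi.le hsq (by positivity) (by norm_num)
    _ = Real.exp ℓ * (37.8 * C * (1 + F * G)) * ((1 + √u) * (1 + √w)) := by ring
    _ ≤ Real.exp ℓ * (50 * C * (1 + F * G)) * ((1 + √u) * (1 + √w)) := by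
        apply mul_le_mul_of_nonneg_right _ (by positivity)
        apply mul_le_mul_of_nonneg_left _ (Real.exp_pos _).le
        apply mul_le_mul_of_nonneg_right _ (by positivity)
        linarith

end Pool.Agent.H16
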