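import Pool.Agent.H16.BL2

/-!
Bilinear forms: dyadic sum and sum over moduli.
-/

set_option autoImplicit false

open Complex Finset Filter Topology MeasureTheory
open scoped ComplexConjugate
open DirichletCharacter

namespace Pool.Agent.H16

/-- partial summation with weights `1/d` -/
lemma abel_inv (S : ℕ → ℝ) (D0 D1 : ℕ) (h0 : 1 ≤ D0) (h01 : D0 ≤ D1) (α β γ : ℝ) (hα : 0 ≤ α)
    (hβ : 0 ≤ β) (hγ : 0 ≤ γ)
    (hP : ∀ m, D0 < m → m ≤ D1 → ∑ d ∈ Ioc D0 m, S d ≤ α + β * m + γ * (m : ℝ) ^ 2) :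
    ∑ d ∈ Ioc D0 D1, S d / d ≤ α / D0 + β * (1 + Real.log D1) + 2 * γ * D1 := by
  have hD0 : (0 : ℝ) < D0 := by exact_mod_cast h0
  have claim : ∀ m, D0 ≤ m → m ≤ D1 → ∑ d ∈ Ioc D0 m, S d / d ≤ (∑ d ∈ Ioc D0 m, S d) / m +
      α * (1 / D0 - 1 / m) + β * (Real.log m - Real.log D0) + γ * (m - D0) := by
    intro m hm
    induction m, hm using Nat.le_induction with
    | base =>
      intro _
      simp
    | succ m hm ih =>
      intro hm1
      have ih' := ih (by omega)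
      have hmpos : (0 : ℝ) < m := by
        have : 0 < m := by omega
        exact_mod_cast this
      have hm1pos : (0 : ℝ) < (m : ℝ) + 1 := by linarith
      have hsplit : ∀ F : ℕ → ℝ, ∑ d ∈ Ioc D0 (m + 1), F d = ∑ d ∈ Ioc D0 m, F d + F (m + 1) := by
        intro F
        rw [← Finset.insert_Ioc_right_eq_Ioc_add_one (by omega), Finset.sum_insert (by simp), add_comm]
      rw [hsplit, hsplit S]
      set P := ∑ d ∈ Ioc D0 m, S d with hPdef
      have hPm : P ≤ α + β * m + γ * (m : ℝ) ^ 2 := by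
        rcases Nat.lt_or_ge D0 m with h | h
        · exact hP m h (by omega)
        · have : m = D0 := by omega
          rw [hPdef, this]
          simp only [Finset.Ioc_self, Finset.sum_empty]
          positivity
      have hstep : P / m - P / (m + 1) ≤ α * (1 / m - 1 / (m + 1)) +
          β * (Real.log (m + 1) - Real.log m) + γ := by
        have e1 : P / m - P / (m + 1) = P * (1 / (m * (m + 1))) := by field_simp; ring
        have e2 : α * (1 / (m : ℝ) - 1 / (m + 1)) = α * (1 / (m * (m + 1))) := by field_simp; ring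
        rw [e1, e2]
        have h3 : P * (1 / ((m : ℝ) * (m + 1))) ≤ (α + β * m + γ * (m : ℝ) ^ 2) * (1 / (m * (m + 1))) :=
          mul_le_mul_of_nonneg_right hPm (by positivity)
        have h4 : (α + β * m + γ * (m : ℝ) ^ 2) * (1 / (m * (m + 1))) =
            α * (1 / (m * (m + 1))) + β * (1 / (m + 1)) + γ * (m / (m + 1)) := by
          field_simp
        have h5 : 1 / ((m : ℝ) + 1) ≤ Real.log (m + 1) - Real.log m := by
          rw [← Real.log_div hm1pos.ne' hmpos.ne']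
          have := Real.one_sub_inv_le_log_of_pos (x := ((m : ℝ) + 1) / m) (by positivity)
          refine le_trans (le_of_eq ?_) this
          field_simp
          ring
        have h6 : (m : ℝ) / (m + 1) ≤ 1 := by rw [div_le_one hm1pos]; linarith
        have h7 := mul_le_mul_of_nonneg_left h5 hβ
        have h8 := mul_le_mul_of_nonneg_left h6 hγ
        linarith
      push_cast
      have e3 : (P + S (m + 1)) / ((m : ℝ) + 1) = P / (m + 1) + S (m + 1) / (m + 1) := by rw [add_div]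
      rw [e3]
      linarith
  have hc := claim D1 h01 le_rfl
  have hD1 : (0 : ℝ) < D1 := by
    have : 0 < D1 := by omega
    exact_mod_cast this
  have hlog0 : 0 ≤ Real.log D0 := Real.log_natCast_nonneg _
  rcases Nat.lt_or_ge D0 D1 with h | h
  · have h1 := hP D1 h le_rfl
    have h2 : (∑ d ∈ Ioc D0 D1, S d) / D1 ≤ α / D1 + β + γ * D1 := by
      rw [div_le_iff₀ hD1]
      calc ∑ d ∈ Ioc D0 D1, S d ≤ α + β * D1 + γ * (D1 : ℝ) ^ 2 := h1
        _ = _ := by field_simp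
    have h3 : α * (1 / (D0 : ℝ) - 1 / D1) = α / D0 - α / D1 := by ring
    have h4 := mul_nonneg hβ hlog0
    have h5 := mul_nonneg hγ hD0.le
    rw [h3] at hc
    linarith
  · have : D1 = D0 := by omega
    rw [this]
    simp only [Finset.Ioc_self, Finset.sum_empty]
    positivity

/-- dyadic sum of blocks -/
theorem bl_sum (C : ℝ) (hC : 0 < C) (hls : FamLS C) (W Q : ℕ) (D : Finset ℕ)
    (hD : ∀ d ∈ D, 0 < W * d ∧ W * d ≤ Q ∧ Nat.Coprime d W) (f g : ArithmeticFunction ℂ)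
    (K0 J : ℕ) (hK0 : 1 ≤ K0) (ℓ : ℝ) (hℓ : 1 < ℓ) (x0 : ℝ) (N : ℕ)
    (hN : Real.exp 1 * x0 ≤ N) (hx : x0 ^ (1 + 1 / ℓ) ≤ Real.exp ℓ)
    (F G : ℝ) (hF : 0 ≤ F) (hG : 0 ≤ G)
    (hfs : ∀ n, n ∉ Ioc K0 (2 ^ J * K0) → f n = 0)
    (hf : ∀ K, 1 ≤ K → K ≤ 2 ^ J * K0 → ∑ n ∈ Ioc K (2 * K), ‖f n‖ ^ 2 ≤ K * F)
    (hg : ∀ n ≤ N, ‖g n‖ ^ 2 ≤ G)
    (hKx : 12 * ((2 ^ J * K0 : ℕ) : ℝ) ≤ x0) :
    ∑ d ∈ D, ∑ ξ ∈ fam W d, ‖∑ n ∈ Finset.Icc 1 N, (ξ (n : ℕ) * (f * g) n) *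
      ((tent x0 n : ℝ) : ℂ)‖ ≤ J * (Real.exp ℓ * (50 * C * (1 + F * G)) *
        (1 + Q / √(K0 : ℝ) + Q * √(((2 ^ J * K0 : ℕ) : ℝ) / x0) + (Q : ℝ) ^ 2 / √x0)) := by
  have hK0r : (0 : ℝ) < K0 := by exact_mod_cast hK0
  set KJ : ℕ := 2 ^ J * K0 with hKJ
  have hKJ1 : 1 ≤ KJ := by
    have : 0 < 2 ^ J * K0 := Nat.mul_pos (by positivity) hK0
    omega
  have hKJr : (1 : ℝ) ≤ KJ := by exact_mod_cast hKJ1
  have hx0 : 0 < x0 := by linarith
  have hdec : ∀ n : ℕ, f n = ∑ j ∈ range J, rst f (2 ^ j * K0) (2 * (2 ^ j * K0)) n := by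
    intro n
    by_cases hn : n ∈ Ioc K0 KJ
    · -- unique j
      have hex : ∀ J' : ℕ, n ∈ Ioc K0 (2 ^ J' * K0) →
          f n = ∑ j ∈ range J', rst f (2 ^ j * K0) (2 * (2 ^ j * K0)) n := by
        intro J'
        induction J' with
        | zero =>
          intro h
          rw [Finset.mem_Ioc] at h
          omega
        | succ J' ih =>
          intro h
          rw [Finset.sum_range_succ]
          rw [Finset.mem_Ioc] at h
          have e : 2 * (2 ^ J' * K0) = 2 ^ (J' + 1) * K0 := by ring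
          by_cases h2 : n ≤ 2 ^ J' * K0
          · rw [← ih (Finset.mem_Ioc.mpr ⟨h.1, h2⟩), rst_apply, if_neg, add_zero]
            rw [Finset.mem_Ioc]; omega
          · have h3 : ∑ j ∈ range J', rst f (2 ^ j * K0) (2 * (2 ^ j * K0)) n = 0 := by
              apply Finset.sum_eq_zero
              intro j hj
              rw [rst_apply, if_neg]
              rw [Finset.mem_Ioc]
              rw [Finset.mem_range] at hj
              have h4 : 2 * (2 ^ j * K0) ≤ 2 ^ J' * K0 := by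
                calc 2 * (2 ^ j * K0) = 2 ^ (j + 1) * K0 := by ring
                  _ ≤ 2 ^ J' * K0 := Nat.mul_le_mul_right _ (Nat.pow_le_pow_right (by norm_num) (by omega))
              omega
            rw [h3, zero_add, rst_apply, if_pos]
            rw [Finset.mem_Ioc, e]; omega
      exact hex J hn
    · rw [hfs n hn]
      symm
      apply Finset.sum_eq_zero
      intro j hj
      rw [rst_apply]
      split_ifs with h
      · rw [hfs n hn]
      · rfl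
  have hconv : ∀ n : ℕ, (f * g) n = ∑ j ∈ range J, (rst f (2 ^ j * K0) (2 * (2 ^ j * K0)) * g) n := by
    intro n
    simp_rw [ArithmeticFunction.mul_apply]
    rw [Finset.sum_comm]
    apply Finset.sum_congr rfl
    intro p _
    rw [hdec p.1, Finset.sum_mul]
  have hpt : ∀ d ∈ D, ∀ ξ ∈ fam W d, ‖∑ n ∈ Finset.Icc 1 N, (ξ (n : ℕ) * (f * g) n) *
      ((tent x0 n : ℝ) : ℂ)‖ ≤ ∑ j ∈ range J, ‖∑ n ∈ Finset.Icc 1 N, (ξ (n : ℕ) *
        (rst f (2 ^ j * K0) (2 * (2 ^ j * K0)) * g) n) * ((tent x0 n : ℝ) : ℂ)‖ := by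
    intro d _ ξ _
    have e : ∑ n ∈ Finset.Icc 1 N, (ξ (n : ℕ) * (f * g) n) * ((tent x0 n : ℝ) : ℂ) =
        ∑ j ∈ range J, ∑ n ∈ Finset.Icc 1 N, (ξ (n : ℕ) *
        (rst f (2 ^ j * K0) (2 * (2 ^ j * K0)) * g) n) * ((tent x0 n : ℝ) : ℂ) := by
      rw [Finset.sum_comm]
      apply Finset.sum_congr rfl
      intro n _
      rw [hconv n, Finset.mul_sum, Finset.sum_mul]
    rw [e]
    exact norm_sum_le _ _
  have h1 : ∑ d ∈ D, ∑ ξ ∈ fam W d, ‖∑ n ∈ Finset.Icc 1 N, (ξ (n : ℕ) * (f * g) n) *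
      ((tent x0 n : ℝ) : ℂ)‖ ≤ ∑ j ∈ range J, ∑ d ∈ D, ∑ ξ ∈ fam W d, ‖∑ n ∈ Finset.Icc 1 N,
        (ξ (n : ℕ) * (rst f (2 ^ j * K0) (2 * (2 ^ j * K0)) * g) n) * ((tent x0 n : ℝ) : ℂ)‖ := by
    rw [Finset.sum_comm]
    apply Finset.sum_le_sum
    intro d hd
    rw [Finset.sum_comm]
    exact Finset.sum_le_sum (fun ξ hξ => hpt d hd ξ hξ)
  refine h1.trans ?_
  have h2 : ∀ j ∈ range J, ∑ d ∈ D, ∑ ξ ∈ fam W d, ‖∑ n ∈ Finset.Icc 1 N,
        (ξ (n : ℕ) * (rst f (2 ^ j * K0) (2 * (2 ^ j * K0)) * g) n) * ((tent x0 n : ℝ) : ℂ)‖ ≤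
      Real.exp ℓ * (50 * C * (1 + F * G)) *
        (1 + Q / √(K0 : ℝ) + Q * √((KJ : ℝ) / x0) + (Q : ℝ) ^ 2 / √x0) := by
    intro j hj
    rw [Finset.mem_range] at hj
    set K := 2 ^ j * K0 with hK
    have hKK0 : K0 ≤ K := Nat.le_mul_of_pos_left K0 (by positivity)
    have hKKJ : K ≤ KJ := Nat.mul_le_mul_right _ (Nat.pow_le_pow_right (by norm_num) hj.le)
    have hKr : (K0 : ℝ) ≤ K := by exact_mod_cast hKK0
    have hKr2 : (K : ℝ) ≤ KJ := by exact_mod_cast hKKJ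
    have hKpos : (0 : ℝ) < K := by linarith
    refine (bl_dyad C hC hls W Q D hD f g K (by omega) ℓ hℓ x0 N hN hx F G hF hG
      (hf K (by omega) hKKJ) hg (by linarith)).trans ?_
    apply mul_le_mul_of_nonneg_left _ (by positivity)
    have hQ0 : (0 : ℝ) ≤ Q := Nat.cast_nonneg _
    have e1 : Q / √(K : ℝ) ≤ Q / √(K0 : ℝ) :=
      div_le_div_of_nonneg_left hQ0 (Real.sqrt_pos.mpr hK0r) (Real.sqrt_le_sqrt hKr)
    have e2 : Q * √((K : ℝ) / x0) ≤ Q * √((KJ : ℝ) / x0) := by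
      apply mul_le_mul_of_nonneg_left _ hQ0
      exact Real.sqrt_le_sqrt (div_le_div_of_nonneg_right hKr2 hx0.le)
    have e3 : Q / √(K : ℝ) * (Q * √((K : ℝ) / x0)) = (Q : ℝ) ^ 2 / √x0 := by
      rw [Real.sqrt_div hKpos.le]
      have h4 : √(K : ℝ) ≠ 0 := (Real.sqrt_pos.mpr hKpos).ne'
      have h5 : √x0 ≠ 0 := (Real.sqrt_pos.mpr hx0).ne'
      field_simp
    have e4 : (1 + Q / √(K : ℝ)) * (1 + Q * √((K : ℝ) / x0)) = 1 + Q / √(K : ℝ) +
        Q * √((K : ℝ) / x0) + (Q : ℝ) ^ 2 / √x0 := by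
      rw [← e3]; ring
    rw [e4]
    linarith
  refine (Finset.sum_le_sum h2).trans ?_
  rw [Finset.sum_const, Finset.card_range, nsmul_eq_mul]

end Pool.Agent.H16
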