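import Mathlib

/-!
Truncated inclusion-exclusion (Bonferroni inequalities) for general weights in `[0,1]`.
-/

set_option autoImplicit false

open Finset

namespace Pool.Agent.H16

section
variable {ι : Type*} [DecidableEq ι]

/-- elementary symmetric sum of degree `i` of the weights `g` over `P` -/
noncomputable def es (P : Finset ι) (g : ι → ℝ) (i : ℕ) : ℝ :=
  ∑ d ∈ P.powersetCard i, ∏ p ∈ d, g p

/-- truncated alternating sum -/
noncomputable def tr (P : Finset ι) (g : ι → ℝ) (b : ℕ) : ℝ :=
  ∑ i ∈ range (b + 1), (-1) ^ i * es P g i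

omit [DecidableEq ι] in
lemma es_zero (P : Finset ι) (g : ι → ℝ) : es P g 0 = 1 := by
  simp [es]

lemma es_insert_succ (P : Finset ι) (g : ι → ℝ) (a : ι) (ha : a ∉ P) (i : ℕ) :
    es (insert a P) g (i + 1) = es P g (i + 1) + g a * es P g i := by
  unfold es
  rw [Finset.powersetCard_succ_insert ha, Finset.sum_union]
  · congr 1
    rw [Finset.sum_image]
    · rw [Finset.mul_sum]
      apply Finset.sum_congr rfl
      intro d hd
      rw [Finset.prod_insert]
      intro had
      exact ha ((Finset.mem_powersetCard.mp hd).1 had)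
    · intro s hs t ht hst
      have hs' : a ∉ s := fun h => ha ((Finset.mem_powersetCard.mp hs).1 h)
      have ht' : a ∉ t := fun h => ha ((Finset.mem_powersetCard.mp ht).1 h)
      have : (insert a s).erase a = (insert a t).erase a := by rw [hst]
      rwa [Finset.erase_insert hs', Finset.erase_insert ht'] at this
  · rw [Finset.disjoint_left]
    intro s hs hs2
    obtain ⟨t, _, rfl⟩ := Finset.mem_image.mp hs2
    exact ha ((Finset.mem_powersetCard.mp hs).1 (Finset.mem_insert_self a t))

omit [DecidableEq ι] in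
lemma es_nonneg (P : Finset ι) (g : ι → ℝ) (hg : ∀ p ∈ P, 0 ≤ g p) (i : ℕ) :
    0 ≤ es P g i := by
  unfold es
  apply Finset.sum_nonneg
  intro d hd
  apply Finset.prod_nonneg
  intro p hp
  exact hg p ((Finset.mem_powersetCard.mp hd).1 hp)

omit [DecidableEq ι] in
lemma tr_zero (P : Finset ι) (g : ι → ℝ) : tr P g 0 = 1 := by
  simp [tr, es_zero]

omit [DecidableEq ι] in
lemma tr_succ (P : Finset ι) (g : ι → ℝ) (b : ℕ) :
    tr P g (b + 1) = tr P g b + (-1) ^ (b + 1) * es P g (b + 1) := by
  unfold tr
  rw [Finset.sum_range_succ]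

lemma tr_insert_succ (P : Finset ι) (g : ι → ℝ) (a : ι) (ha : a ∉ P) (b : ℕ) :
    tr (insert a P) g (b + 1) = tr P g (b + 1) - g a * tr P g b := by
  induction b with
  | zero =>
    rw [tr_succ, tr_succ, es_insert_succ P g a ha, tr_zero, tr_zero, es_zero]
    ring
  | succ b ih =>
    rw [tr_succ, ih, tr_succ P g (b + 1), tr_succ P g b, es_insert_succ P g a ha (b + 1)]
    ring

/-- Bonferroni with a bound for the gap. -/
lemma bonf (P : Finset ι) (g : ι → ℝ) (hg0 : ∀ p ∈ P, 0 ≤ g p) (hg1 : ∀ p ∈ P, g p ≤ 1)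
    (b : ℕ) :
    0 ≤ (-1) ^ b * (tr P g b - ∏ p ∈ P, (1 - g p)) ∧
      (-1) ^ b * (tr P g b - ∏ p ∈ P, (1 - g p)) ≤ es P g (b + 1) := by
  induction P using Finset.induction_on generalizing b with
  | empty =>
    have h1 : tr (∅ : Finset ι) g b = 1 := by
      induction b with
      | zero => exact tr_zero _ _
      | succ b ih =>
        rw [tr_succ, ih]
        have : es (∅ : Finset ι) g (b + 1) = 0 := by
          unfold es
          rw [Finset.powersetCard_eq_empty.mpr (by simp)]
          simp
        rw [this]; ring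
    have h2 : 0 ≤ es (∅ : Finset ι) g (b + 1) := es_nonneg _ _ (by simp) _
    rw [h1]
    simpa using h2
  | insert a P ha ih =>
    have hg0' : ∀ p ∈ P, 0 ≤ g p := fun p hp => hg0 p (Finset.mem_insert_of_mem hp)
    have hg1' : ∀ p ∈ P, g p ≤ 1 := fun p hp => hg1 p (Finset.mem_insert_of_mem hp)
    have hga0 : 0 ≤ g a := hg0 a (Finset.mem_insert_self a P)
    have hga1 : g a ≤ 1 := hg1 a (Finset.mem_insert_self a P)
    have IH := ih hg0' hg1'
    rw [Finset.prod_insert ha]
    have hV0 : 0 ≤ ∏ p ∈ P, (1 - g p) :=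
      Finset.prod_nonneg (fun p hp => by linarith [hg1' p hp])
    have hV1 : ∏ p ∈ P, (1 - g p) ≤ 1 :=
      Finset.prod_le_one (fun p hp => by linarith [hg1' p hp]) (fun p hp => by linarith [hg0' p hp])
    cases b with
    | zero =>
      obtain ⟨h1, h2⟩ := IH 0
      rw [tr_zero] at h1 h2 ⊢
      rw [es_insert_succ P g a ha, es_zero]
      simp only [pow_zero, one_mul] at h1 h2 ⊢
      constructor
      · nlinarith
      · nlinarith
    | succ b =>
      obtain ⟨h1, h2⟩ := IH (b + 1)
      obtain ⟨h3, h4⟩ := IH b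
      rw [tr_insert_succ P g a ha, es_insert_succ P g a ha]
      have key : (-1 : ℝ) ^ (b + 1) * (tr P g (b + 1) - g a * tr P g b
          - (1 - g a) * ∏ p ∈ P, (1 - g p)) =
          (-1 : ℝ) ^ (b + 1) * (tr P g (b + 1) - ∏ p ∈ P, (1 - g p))
          + g a * ((-1 : ℝ) ^ b * (tr P g b - ∏ p ∈ P, (1 - g p))) := by
        ring
      rw [key]
      constructor
      · have := mul_nonneg hga0 h3
        linarith
      · have := mul_le_mul_of_nonneg_left h4 hga0
        linarith

lemma es_le_pow (P : Finset ι) (g : ι → ℝ) (hg0 : ∀ p ∈ P, 0 ≤ g p) (m : ℕ) :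
    es P g m ≤ (∑ p ∈ P, g p) ^ m / (m.factorial : ℝ) := by
  induction P using Finset.induction_on generalizing m with
  | empty =>
    cases m with
    | zero => simp [es]
    | succ m =>
      unfold es
      rw [Finset.powersetCard_eq_empty.mpr (by simp)]
      simp
  | insert a P ha ih =>
    have hg0' : ∀ p ∈ P, 0 ≤ g p := fun p hp => hg0 p (Finset.mem_insert_of_mem hp)
    have hga0 : 0 ≤ g a := hg0 a (Finset.mem_insert_self a P)
    have hS : 0 ≤ ∑ p ∈ P, g p := Finset.sum_nonneg hg0'
    cases m with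
    | zero => simp [es]
    | succ m =>
      rw [es_insert_succ P g a ha, Finset.sum_insert ha]
      have h1 := ih hg0' (m + 1)
      have h2 := ih hg0' m
      have hfac : ((m + 1).factorial : ℝ) = (m + 1) * (m.factorial : ℝ) := by
        rw [Nat.factorial_succ]; push_cast; ring
      have hfpos : (0 : ℝ) < (m.factorial : ℝ) := by positivity
      have hbern : (∑ p ∈ P, g p) ^ (m + 1) + (m + 1) * g a * (∑ p ∈ P, g p) ^ m ≤
          (g a + ∑ p ∈ P, g p) ^ (m + 1) := by
        set S := ∑ p ∈ P, g p
        have : (g a + S) ^ (m + 1) = ∑ k ∈ range (m + 1 + 1), g a ^ k * S ^ (m + 1 - k) * ((m + 1).choose k) := by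
          rw [add_pow]
        rw [this]
        have h2' : ({0, 1} : Finset ℕ) ⊆ range (m + 1 + 1) := by
          intro x hx
          simp only [Finset.mem_insert, Finset.mem_singleton] at hx
          rw [Finset.mem_range]
          omega
        calc S ^ (m + 1) + (m + 1) * g a * S ^ m
            = ∑ k ∈ ({0, 1} : Finset ℕ), g a ^ k * S ^ (m + 1 - k) * ((m + 1).choose k) := by
              rw [Finset.sum_pair (by norm_num)]
              simp
              ring
          _ ≤ _ := Finset.sum_le_sum_of_subset_of_nonneg h2' (fun k _ _ => by positivity)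
      calc es P g (m + 1) + g a * es P g m
          ≤ (∑ p ∈ P, g p) ^ (m + 1) / ((m + 1).factorial : ℝ) +
            g a * ((∑ p ∈ P, g p) ^ m / (m.factorial : ℝ)) := by
              gcongr
        _ = ((∑ p ∈ P, g p) ^ (m + 1) + (m + 1) * g a * (∑ p ∈ P, g p) ^ m) /
              ((m + 1).factorial : ℝ) := by
              rw [hfac]
              field_simp
        _ ≤ _ := by gcongr

end

end Pool.Agent.H16
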