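import Pool.Agent.H16.Local

/-!
The Brun-Hooley sieve (upper and lower bound) for integers `k < X` avoiding a set `R p` of
residue classes modulo each prime `p` of a finite set split into buckets `P j`.
-/

set_option autoImplicit false

open Finset

namespace Pool.Agent.H16

/-- subsets of `P` with at most `b` elements -/
def low (P : Finset ℕ) (b : ℕ) : Finset (Finset ℕ) :=
  (range (b + 1)).biUnion (fun i => P.powersetCard i)

lemma sum_low (P : Finset ℕ) (b : ℕ) (F : Finset ℕ → ℝ) :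
    ∑ d ∈ low P b, F d = ∑ i ∈ range (b + 1), ∑ d ∈ P.powersetCard i, F d := by
  unfold low
  rw [Finset.sum_biUnion]
  intro i _ j _ hij
  exact Finset.pairwise_disjoint_powersetCard P hij

lemma low_subset (P : Finset ℕ) (b : ℕ) (d : Finset ℕ) (hd : d ∈ low P b) : d ⊆ P := by
  unfold low at hd
  obtain ⟨i, _, hi⟩ := Finset.mem_biUnion.mp hd
  exact (Finset.mem_powersetCard.mp hi).1

lemma tr_eq_low (P : Finset ℕ) (g : ℕ → ℝ) (b : ℕ) :
    tr P g b = ∑ d ∈ low P b, (-1 : ℝ) ^ (#d) * ∏ p ∈ d, g p := by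
  rw [sum_low]
  unfold tr es
  apply Finset.sum_congr rfl
  intro i _
  rw [Finset.mul_sum]
  apply Finset.sum_congr rfl
  intro d hd
  rw [(Finset.mem_powersetCard.mp hd).2]

lemma err_low (P : Finset ℕ) (g : ℕ → ℝ) (hg : ∀ p ∈ P, 0 ≤ g p) (b : ℕ) :
    ∑ d ∈ low P b, |(-1 : ℝ) ^ (#d)| * ∏ p ∈ d, g p ≤ (1 + ∑ p ∈ P, g p) ^ b := by
  have hS : 0 ≤ ∑ p ∈ P, g p := Finset.sum_nonneg hg
  have h1 : ∑ d ∈ low P b, |(-1 : ℝ) ^ (#d)| * ∏ p ∈ d, g p
      = ∑ i ∈ range (b + 1), es P g i := by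
    rw [sum_low]
    unfold es
    apply Finset.sum_congr rfl
    intro i _
    apply Finset.sum_congr rfl
    intro d _
    rw [abs_pow, abs_neg, abs_one, one_pow, one_mul]
  rw [h1, add_comm 1 (∑ p ∈ P, g p), add_pow]
  apply Finset.sum_le_sum
  intro i hi
  have hib : i ≤ b := Nat.lt_succ_iff.mp (Finset.mem_range.mp hi)
  refine (es_le_pow P g hg i).trans ?_
  rw [one_pow, mul_one]
  have h2 : (1 : ℝ) ≤ (i.factorial : ℝ) := by exact_mod_cast Nat.one_le_iff_ne_zero.mpr (Nat.factorial_ne_zero i)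
  have h3 : (1 : ℝ) ≤ (b.choose i : ℝ) := by exact_mod_cast Nat.one_le_iff_ne_zero.mpr (Nat.choose_pos hib).ne'
  have h4 : 0 ≤ (∑ p ∈ P, g p) ^ i := pow_nonneg hS i
  calc (∑ p ∈ P, g p) ^ i / (i.factorial : ℝ) ≤ (∑ p ∈ P, g p) ^ i / 1 := by gcongr
    _ = (∑ p ∈ P, g p) ^ i * 1 := by ring
    _ ≤ (∑ p ∈ P, g p) ^ i * (b.choose i : ℝ) := by gcongr

/-- comparison of products of majorants -/
lemma prod_hybrid {κ : Type*} [DecidableEq κ] (J : Finset κ) (f F : κ → ℝ)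
    (hf : ∀ j ∈ J, 0 ≤ f j) (hF : ∀ j ∈ J, f j ≤ F j) :
    ∏ j ∈ J, F j - ∏ j ∈ J, f j ≤ ∑ j ∈ J, (F j - f j) * ∏ i ∈ J.erase j, F i := by
  induction J using Finset.induction_on with
  | empty => simp
  | insert i J hi ih =>
    have hf' : ∀ j ∈ J, 0 ≤ f j := fun j hj => hf j (Finset.mem_insert_of_mem hj)
    have hF' : ∀ j ∈ J, f j ≤ F j := fun j hj => hF j (Finset.mem_insert_of_mem hj)
    have IH := ih hf' hF'
    have hfi := hf i (Finset.mem_insert_self i J)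
    have hFi := hF i (Finset.mem_insert_self i J)
    have hFnn : ∀ j ∈ J, 0 ≤ F j := fun j hj => (hf' j hj).trans (hF' j hj)
    rw [Finset.prod_insert hi, Finset.prod_insert hi, Finset.sum_insert hi,
      Finset.erase_insert hi]
    have h1 : ∑ j ∈ J, (F j - f j) * ∏ i' ∈ (insert i J).erase j, F i'
        = F i * ∑ j ∈ J, (F j - f j) * ∏ i' ∈ J.erase j, F i' := by
      rw [Finset.mul_sum]
      apply Finset.sum_congr rfl
      intro j hj
      have hij : i ≠ j := by rintro rfl; exact hi hj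
      rw [Finset.erase_insert_of_ne hij, Finset.prod_insert]
      · ring
      · intro h
        exact hi (Finset.mem_of_mem_erase h)
    rw [h1]
    have hS : 0 ≤ ∑ j ∈ J, (F j - f j) * ∏ i' ∈ J.erase j, F i' := by
      apply Finset.sum_nonneg
      intro j hj
      apply mul_nonneg
      · linarith [hF' j hj]
      · exact Finset.prod_nonneg (fun i' hi' => hFnn i' (Finset.mem_of_mem_erase hi'))
    have hPF : 0 ≤ ∏ j ∈ J, F j := Finset.prod_nonneg hFnn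
    have h2 : f i * (∏ j ∈ J, F j - ∏ j ∈ J, f j) ≤
        F i * ∑ j ∈ J, (F j - f j) * ∏ i' ∈ J.erase j, F i' := by
      calc f i * (∏ j ∈ J, F j - ∏ j ∈ J, f j)
          ≤ f i * ∑ j ∈ J, (F j - f j) * ∏ i' ∈ J.erase j, F i' :=
            mul_le_mul_of_nonneg_left IH hfi
        _ ≤ _ := mul_le_mul_of_nonneg_right hFi hS
    nlinarith

section Main

variable {κ : Type*} [DecidableEq κ] (R : ℕ → Finset ℕ) (X : ℕ) (J : Finset κ)
  (P : κ → Finset ℕ) (b : κ → ℕ)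

/-- number of `k < X` avoiding all forbidden residues, as a real number -/
noncomputable def sifted : ℝ := ∑ k ∈ range X, ∏ j ∈ J, ∏ p ∈ P j, (1 - chi R k p)

lemma even_sign {n : ℕ} (h : Even n) : (-1 : ℝ) ^ n = 1 := h.neg_one_pow

variable (hb : ∀ j ∈ J, Even (b j))
  (hP : ∀ j ∈ J, ∀ p ∈ P j, p.Prime) (hR : ∀ j ∈ J, ∀ p ∈ P j, R p ⊆ range p)
  (hdisj : ∀ i ∈ J, ∀ j ∈ J, i ≠ j → Disjoint (P i) (P j))

include hb hP hR hdisj

omit hb in
lemma sum_F (X : ℕ) :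
    |(∑ k ∈ range X, ∏ j ∈ J, tr (P j) (chi R k) (b j))
      - (X : ℝ) * ∏ j ∈ J, tr (P j) (fun p => (#(R p) : ℝ) / p) (b j)|
      ≤ ∏ j ∈ J, (1 + ∑ p ∈ P j, (#(R p) : ℝ)) ^ (b j) := by
  have h := bucket_expand R X P (fun j => low (P j) (b j)) (fun _ d => (-1 : ℝ) ^ (#d)) J hP hR
    hdisj (fun j _ d hd => low_subset (P j) (b j) d hd) ∅ (by simp) (by simp) (by simp)
  simp only [Finset.prod_empty, one_mul, mul_one] at h
  simp_rw [tr_eq_low]
  refine h.trans ?_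
  apply Finset.prod_le_prod
  · intro j _
    apply Finset.sum_nonneg
    intro d _
    apply mul_nonneg (abs_nonneg _)
    exact Finset.prod_nonneg (fun _ _ => by positivity)
  · intro j _
    exact err_low (P j) (fun p => (#(R p) : ℝ)) (fun _ _ => by positivity) (b j)

omit hb in
lemma sum_QF (X : ℕ) (j : κ) (hj : j ∈ J) :
    |(∑ k ∈ range X, es (P j) (chi R k) (b j + 1) * ∏ i ∈ J.erase j, tr (P i) (chi R k) (b i))
      - (X : ℝ) * (es (P j) (fun p => (#(R p) : ℝ) / p) (b j + 1) *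
        ∏ i ∈ J.erase j, tr (P i) (fun p => (#(R p) : ℝ) / p) (b i))|
      ≤ (1 + ∑ p ∈ P j, (#(R p) : ℝ)) * ∏ i ∈ J, (1 + ∑ p ∈ P i, (#(R p) : ℝ)) ^ (b i) := by
  have hterm : ∀ d ∈ (P j).powersetCard (b j + 1),
      |(∑ k ∈ range X, (∏ p ∈ d, chi R k p) * ∏ i ∈ J.erase j, tr (P i) (chi R k) (b i))
      - (X : ℝ) * (∏ p ∈ d, ((#(R p) : ℝ) / p)) *
        ∏ i ∈ J.erase j, tr (P i) (fun p => (#(R p) : ℝ) / p) (b i)|
      ≤ (∏ p ∈ d, (#(R p) : ℝ)) * ∏ i ∈ J.erase j, (1 + ∑ p ∈ P i, (#(R p) : ℝ)) ^ (b i) := by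
    intro d hd
    have hdP : d ⊆ P j := (Finset.mem_powersetCard.mp hd).1
    have h := bucket_expand R X P (fun j => low (P j) (b j)) (fun _ d => (-1 : ℝ) ^ (#d))
      (J.erase j) (fun i hi => hP i (Finset.mem_of_mem_erase hi))
      (fun i hi => hR i (Finset.mem_of_mem_erase hi))
      (fun i hi i' hi' => hdisj i (Finset.mem_of_mem_erase hi) i' (Finset.mem_of_mem_erase hi'))
      (fun i _ d hd => low_subset (P i) (b i) d hd) d
      (fun p hp => hP j hj p (hdP hp)) (fun p hp => hR j hj p (hdP hp))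
      (fun i hi => Finset.disjoint_of_subset_left hdP
        (hdisj j hj i (Finset.mem_of_mem_erase hi) (Finset.ne_of_mem_erase hi).symm))
    simp_rw [tr_eq_low]
    refine h.trans ?_
    apply mul_le_mul_of_nonneg_left _ (Finset.prod_nonneg (fun _ _ => by positivity))
    apply Finset.prod_le_prod
    · intro i _
      apply Finset.sum_nonneg
      intro d _
      apply mul_nonneg (abs_nonneg _)
      exact Finset.prod_nonneg (fun _ _ => by positivity)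
    · intro i _
      exact err_low (P i) (fun p => (#(R p) : ℝ)) (fun _ _ => by positivity) (b i)
  have h1 : (∑ k ∈ range X, es (P j) (chi R k) (b j + 1) *
        ∏ i ∈ J.erase j, tr (P i) (chi R k) (b i))
      = ∑ d ∈ (P j).powersetCard (b j + 1), ∑ k ∈ range X, (∏ p ∈ d, chi R k p) *
        ∏ i ∈ J.erase j, tr (P i) (chi R k) (b i) := by
    rw [Finset.sum_comm]
    apply Finset.sum_congr rfl
    intro k _
    unfold es
    rw [Finset.sum_mul]
  have h2 : (X : ℝ) * (es (P j) (fun p => (#(R p) : ℝ) / p) (b j + 1) *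
        ∏ i ∈ J.erase j, tr (P i) (fun p => (#(R p) : ℝ) / p) (b i))
      = ∑ d ∈ (P j).powersetCard (b j + 1), (X : ℝ) * (∏ p ∈ d, ((#(R p) : ℝ) / p)) *
        ∏ i ∈ J.erase j, tr (P i) (fun p => (#(R p) : ℝ) / p) (b i) := by
    unfold es
    rw [Finset.sum_mul, Finset.mul_sum]
    apply Finset.sum_congr rfl
    intro d _
    ring
  rw [h1, h2, ← Finset.sum_sub_distrib]
  refine (Finset.abs_sum_le_sum_abs _ _).trans ((Finset.sum_le_sum hterm).trans ?_)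
  rw [← Finset.sum_mul]
  have h3 : (∑ d ∈ (P j).powersetCard (b j + 1), ∏ p ∈ d, (#(R p) : ℝ))
      ≤ (1 + ∑ p ∈ P j, (#(R p) : ℝ)) ^ (b j + 1) := by
    have := es_le_pow (P j) (fun p => (#(R p) : ℝ)) (fun _ _ => by positivity) (b j + 1)
    unfold es at this
    refine this.trans ?_
    have hS : 0 ≤ ∑ p ∈ P j, (#(R p) : ℝ) := Finset.sum_nonneg (fun _ _ => by positivity)
    have hf : (1 : ℝ) ≤ ((b j + 1).factorial : ℝ) := by
      exact_mod_cast Nat.one_le_iff_ne_zero.mpr (Nat.factorial_ne_zero _)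
    calc (∑ p ∈ P j, (#(R p) : ℝ)) ^ (b j + 1) / ((b j + 1).factorial : ℝ)
        ≤ (∑ p ∈ P j, (#(R p) : ℝ)) ^ (b j + 1) / 1 := by gcongr
      _ = (∑ p ∈ P j, (#(R p) : ℝ)) ^ (b j + 1) := by ring
      _ ≤ _ := by gcongr; linarith
  have hnn : ∀ i ∈ J.erase j, 0 ≤ (1 + ∑ p ∈ P i, (#(R p) : ℝ)) ^ (b i) := by
    intro i _
    have : 0 ≤ ∑ p ∈ P i, (#(R p) : ℝ) := Finset.sum_nonneg (fun _ _ => by positivity)
    positivity
  calc (∑ d ∈ (P j).powersetCard (b j + 1), ∏ p ∈ d, (#(R p) : ℝ)) *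
        ∏ i ∈ J.erase j, (1 + ∑ p ∈ P i, (#(R p) : ℝ)) ^ (b i)
      ≤ (1 + ∑ p ∈ P j, (#(R p) : ℝ)) ^ (b j + 1) *
        ∏ i ∈ J.erase j, (1 + ∑ p ∈ P i, (#(R p) : ℝ)) ^ (b i) :=
        mul_le_mul_of_nonneg_right h3 (Finset.prod_nonneg hnn)
    _ = (1 + ∑ p ∈ P j, (#(R p) : ℝ)) * ∏ i ∈ J, (1 + ∑ p ∈ P i, (#(R p) : ℝ)) ^ (b i) := by
        rw [← Finset.mul_prod_erase J _ hj]
        ring

omit [DecidableEq κ] hP hR hdisj in
lemma pointwise (k : ℕ) (j : κ) (hj : j ∈ J) :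
    0 ≤ ∏ p ∈ P j, (1 - chi R k p) ∧
    ∏ p ∈ P j, (1 - chi R k p) ≤ tr (P j) (chi R k) (b j) ∧
    tr (P j) (chi R k) (b j) - ∏ p ∈ P j, (1 - chi R k p) ≤ es (P j) (chi R k) (b j + 1) := by
  have h := bonf (P j) (chi R k) (fun p _ => chi_nonneg R k p) (fun p _ => chi_le_one R k p) (b j)
  rw [even_sign (hb j hj), one_mul] at h
  refine ⟨?_, ?_, ?_⟩
  · exact Finset.prod_nonneg (fun p _ => by linarith [chi_le_one R k p])
  · linarith [h.1]
  · exact h.2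

/-- Upper bound. -/
theorem sifted_upper (X : ℕ) :
    sifted R X J P ≤ (X : ℝ) * ∏ j ∈ J, tr (P j) (fun p => (#(R p) : ℝ) / p) (b j)
      + ∏ j ∈ J, (1 + ∑ p ∈ P j, (#(R p) : ℝ)) ^ (b j) := by
  have h := sum_F R J P b hP hR hdisj X
  have h1 : sifted R X J P ≤ ∑ k ∈ range X, ∏ j ∈ J, tr (P j) (chi R k) (b j) := by
    unfold sifted
    apply Finset.sum_le_sum
    intro k _
    apply Finset.prod_le_prod
    · intro j hj
      exact (pointwise R J P b hb k j hj).1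
    · intro j hj
      exact (pointwise R J P b hb k j hj).2.1
  have := (abs_le.mp h).2
  linarith

/-- Lower bound. -/
theorem sifted_lower (X : ℕ) :
    (X : ℝ) * (∏ j ∈ J, tr (P j) (fun p => (#(R p) : ℝ) / p) (b j)
      - ∑ j ∈ J, es (P j) (fun p => (#(R p) : ℝ) / p) (b j + 1) *
        ∏ i ∈ J.erase j, tr (P i) (fun p => (#(R p) : ℝ) / p) (b i))
      - (1 + ∑ j ∈ J, (1 + ∑ p ∈ P j, (#(R p) : ℝ))) *
        ∏ j ∈ J, (1 + ∑ p ∈ P j, (#(R p) : ℝ)) ^ (b j) ≤ sifted R X J P := by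
  have h := (abs_le.mp (sum_F R J P b hP hR hdisj X)).1
  have hj := fun j hj => (abs_le.mp (sum_QF R J P b hP hR hdisj X j hj)).2
  have h1 : ∑ k ∈ range X, (∏ j ∈ J, tr (P j) (chi R k) (b j)
      - ∑ j ∈ J, es (P j) (chi R k) (b j + 1) * ∏ i ∈ J.erase j, tr (P i) (chi R k) (b i))
      ≤ sifted R X J P := by
    unfold sifted
    apply Finset.sum_le_sum
    intro k _
    have hh := prod_hybrid J (fun j => ∏ p ∈ P j, (1 - chi R k p))
      (fun j => tr (P j) (chi R k) (b j)) (fun j hj => (pointwise R J P b hb k j hj).1)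
      (fun j hj => (pointwise R J P b hb k j hj).2.1)
    have hh2 : ∑ j ∈ J, (tr (P j) (chi R k) (b j) - ∏ p ∈ P j, (1 - chi R k p)) *
          ∏ i ∈ J.erase j, tr (P i) (chi R k) (b i)
        ≤ ∑ j ∈ J, es (P j) (chi R k) (b j + 1) *
          ∏ i ∈ J.erase j, tr (P i) (chi R k) (b i) := by
      apply Finset.sum_le_sum
      intro j hj
      apply mul_le_mul_of_nonneg_right (pointwise R J P b hb k j hj).2.2
      apply Finset.prod_nonneg
      intro i hi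
      have hp := pointwise R J P b hb k i (Finset.mem_of_mem_erase hi)
      exact hp.1.trans hp.2.1
    linarith
  rw [Finset.sum_sub_distrib, Finset.sum_comm] at h1
  have h2 : ∑ j ∈ J, ∑ k ∈ range X, es (P j) (chi R k) (b j + 1) *
        ∏ i ∈ J.erase j, tr (P i) (chi R k) (b i)
      ≤ ∑ j ∈ J, ((X : ℝ) * (es (P j) (fun p => (#(R p) : ℝ) / p) (b j + 1) *
        ∏ i ∈ J.erase j, tr (P i) (fun p => (#(R p) : ℝ) / p) (b i)) +
        (1 + ∑ p ∈ P j, (#(R p) : ℝ)) * ∏ i ∈ J, (1 + ∑ p ∈ P i, (#(R p) : ℝ)) ^ (b i)) := by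
    apply Finset.sum_le_sum
    intro j hj'
    linarith [hj j hj']
  rw [Finset.sum_add_distrib, ← Finset.mul_sum, ← Finset.sum_mul] at h2
  nlinarith

/-- Lower bound in terms of `V j = ∏ (1 - g p)` and `H j = e_{b_j+1}(g)`. -/
theorem sifted_lower' (X : ℕ) (hRlt : ∀ j ∈ J, ∀ p ∈ P j, #(R p) < p)
    (hsum : ∑ j ∈ J, es (P j) (fun p => (#(R p) : ℝ) / p) (b j + 1) /
      ∏ p ∈ P j, (1 - (#(R p) : ℝ) / p) ≤ 1) :
    (X : ℝ) * (∏ j ∈ J, ∏ p ∈ P j, (1 - (#(R p) : ℝ) / p)) *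
      (1 - ∑ j ∈ J, es (P j) (fun p => (#(R p) : ℝ) / p) (b j + 1) /
        ∏ p ∈ P j, (1 - (#(R p) : ℝ) / p))
      - (1 + ∑ j ∈ J, (1 + ∑ p ∈ P j, (#(R p) : ℝ))) *
        ∏ j ∈ J, (1 + ∑ p ∈ P j, (#(R p) : ℝ)) ^ (b j) ≤ sifted R X J P := by
  refine le_trans ?_ (sifted_lower R J P b hb hP hR hdisj X)
  set g : ℕ → ℝ := fun p => (#(R p) : ℝ) / p with hg
  have hg0 : ∀ j ∈ J, ∀ p ∈ P j, 0 ≤ g p := fun j _ p _ => by positivity
  have hg1 : ∀ j ∈ J, ∀ p ∈ P j, g p < 1 := by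
    intro j hj p hp
    have hpp : (0 : ℝ) < p := by exact_mod_cast (hP j hj p hp).pos
    rw [hg]
    simp only
    rw [div_lt_one hpp]
    exact_mod_cast hRlt j hj p hp
  have hV : ∀ j ∈ J, 0 < ∏ p ∈ P j, (1 - g p) := fun j hj =>
    Finset.prod_pos (fun p hp => by linarith [hg1 j hj p hp])
  have hG : ∀ j ∈ J, ∏ p ∈ P j, (1 - g p) ≤ tr (P j) g (b j) := by
    intro j hj
    have := (bonf (P j) g (hg0 j hj) (fun p hp => (hg1 j hj p hp).le) (b j)).1
    rw [even_sign (hb j hj), one_mul] at this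
    linarith
  have hGpos : ∀ j ∈ J, 0 < tr (P j) g (b j) := fun j hj => (hV j hj).trans_le (hG j hj)
  have hH : ∀ j ∈ J, 0 ≤ es (P j) g (b j + 1) := fun j hj => es_nonneg _ _ (hg0 j hj) _
  have hprodG : 0 ≤ ∏ j ∈ J, tr (P j) g (b j) := Finset.prod_nonneg (fun j hj => (hGpos j hj).le)
  have h1 : ∑ j ∈ J, es (P j) g (b j + 1) * ∏ i ∈ J.erase j, tr (P i) g (b i)
      ≤ (∏ j ∈ J, tr (P j) g (b j)) * ∑ j ∈ J, es (P j) g (b j + 1) / ∏ p ∈ P j, (1 - g p) := by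
    rw [Finset.mul_sum]
    apply Finset.sum_le_sum
    intro j hj
    rw [← Finset.mul_prod_erase J _ hj]
    have h2 : 0 ≤ ∏ i ∈ J.erase j, tr (P i) g (b i) :=
      Finset.prod_nonneg (fun i hi => (hGpos i (Finset.mem_of_mem_erase hi)).le)
    have h3 : es (P j) g (b j + 1) ≤ tr (P j) g (b j) *
        (es (P j) g (b j + 1) / ∏ p ∈ P j, (1 - g p)) := by
      rw [mul_div_assoc', le_div_iff₀ (hV j hj), mul_comm]
      exact mul_le_mul_of_nonneg_right (hG j hj) (hH j hj)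
    calc es (P j) g (b j + 1) * ∏ i ∈ J.erase j, tr (P i) g (b i)
        ≤ (tr (P j) g (b j) * (es (P j) g (b j + 1) / ∏ p ∈ P j, (1 - g p))) *
          ∏ i ∈ J.erase j, tr (P i) g (b i) := mul_le_mul_of_nonneg_right h3 h2
      _ = _ := by ring
  have h4 : ∏ j ∈ J, ∏ p ∈ P j, (1 - g p) ≤ ∏ j ∈ J, tr (P j) g (b j) :=
    Finset.prod_le_prod (fun j hj => (hV j hj).le) hG
  have h5 : (∏ j ∈ J, ∏ p ∈ P j, (1 - g p)) *
      (1 - ∑ j ∈ J, es (P j) g (b j + 1) / ∏ p ∈ P j, (1 - g p))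
      ≤ ∏ j ∈ J, tr (P j) g (b j)
      - ∑ j ∈ J, es (P j) g (b j + 1) * ∏ i ∈ J.erase j, tr (P i) g (b i) := by
    have h6 : 0 ≤ 1 - ∑ j ∈ J, es (P j) g (b j + 1) / ∏ p ∈ P j, (1 - g p) := by
      linarith [hsum]
    nlinarith [mul_le_mul_of_nonneg_right h4 h6]
  have hX : (0 : ℝ) ≤ X := by positivity
  have h7 := mul_le_mul_of_nonneg_left h5 hX
  rw [mul_assoc]
  linarith

/-- Upper bound in terms of `V j` and `H j`. -/
theorem sifted_upper' (X : ℕ) (hRle : ∀ j ∈ J, ∀ p ∈ P j, #(R p) ≤ p) :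
    sifted R X J P ≤ (X : ℝ) * ∏ j ∈ J, (∏ p ∈ P j, (1 - (#(R p) : ℝ) / p) +
        es (P j) (fun p => (#(R p) : ℝ) / p) (b j + 1))
      + ∏ j ∈ J, (1 + ∑ p ∈ P j, (#(R p) : ℝ)) ^ (b j) := by
  refine le_trans (sifted_upper R J P b hb hP hR hdisj X) ?_
  set g : ℕ → ℝ := fun p => (#(R p) : ℝ) / p with hg
  have hg0 : ∀ j ∈ J, ∀ p ∈ P j, 0 ≤ g p := fun j _ p _ => by positivity
  have hg1 : ∀ j ∈ J, ∀ p ∈ P j, g p ≤ 1 := by
    intro j hj p hp
    have hpp : (0 : ℝ) < p := by exact_mod_cast (hP j hj p hp).pos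
    rw [hg]
    simp only
    rw [div_le_one hpp]
    exact_mod_cast hRle j hj p hp
  have hbon := fun j (hj : j ∈ J) => bonf (P j) g (hg0 j hj) (hg1 j hj) (b j)
  have hX : (0 : ℝ) ≤ X := by positivity
  have : ∏ j ∈ J, tr (P j) g (b j) ≤ ∏ j ∈ J, (∏ p ∈ P j, (1 - g p) + es (P j) g (b j + 1)) := by
    apply Finset.prod_le_prod
    · intro j hj
      have h1 := (hbon j hj).1
      rw [even_sign (hb j hj), one_mul] at h1
      have h2 : 0 ≤ ∏ p ∈ P j, (1 - g p) :=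
        Finset.prod_nonneg (fun p hp => by linarith [hg1 j hj p hp])
      linarith
    · intro j hj
      have h1 := (hbon j hj).2
      rw [even_sign (hb j hj), one_mul] at h1
      linarith
  have := mul_le_mul_of_nonneg_left this hX
  linarith

omit [DecidableEq κ] hb hP hR hdisj in
/-- `sifted` counts the integers avoiding every forbidden class. -/
theorem sifted_eq_card (X : ℕ) : sifted R X J P =
    (#{k ∈ range X | ∀ j ∈ J, ∀ p ∈ P j, k % p ∉ R p} : ℝ) := by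
  unfold sifted
  rw [Finset.card_filter]
  push_cast
  apply Finset.sum_congr rfl
  intro k _
  by_cases h : ∀ j ∈ J, ∀ p ∈ P j, k % p ∉ R p
  · rw [if_pos h]
    apply Finset.prod_eq_one
    intro j hj
    apply Finset.prod_eq_one
    intro p hp
    unfold chi
    rw [if_neg (h j hj p hp)]
    ring
  · rw [if_neg h]
    push Not at h
    obtain ⟨j, hj, p, hp, hk⟩ := h
    apply Finset.prod_eq_zero hj
    apply Finset.prod_eq_zero hp
    unfold chi
    rw [if_pos hk]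
    ring

end Main

end Pool.Agent.H16
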