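import Pool.Agent.H16.BrunHooley
import Pool.Agent.H16.Mertens

/-!
A lower-bound sieve of dimension two, sifting range up to `X^{1/8+}`.
-/

set_option autoImplicit false

open Finset Real

namespace Pool.Agent.H16

/-- exponents of the cut points -/
noncomputable def th (j : ℕ) : ℝ :=
  if j < 4 then (2 / 3) ^ j else if j < 8 then (2 / 3) ^ 4 * (3 / 5) ^ (j - 4)
  else (16 / 625) * (1 / 2) ^ (j - 8)

/-- truncation parameters -/
def bb (j : ℕ) : ℕ := if j < 4 then 2 else if j < 8 then 4 else 2 * (j - 5)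

/-- ratios of consecutive exponents -/
noncomputable def rho (j : ℕ) : ℝ := if j < 4 then 3 / 2 else if j < 8 then 5 / 3 else 2

lemma th_zero : th 0 = 1 := by simp [th]

lemma th_pos (j : ℕ) : 0 < th j := by
  unfold th; split_ifs <;> positivity

lemma rho_pos (j : ℕ) : 0 < rho j := by
  unfold rho; split_ifs <;> norm_num

lemma rho_ge_one (j : ℕ) : 1 ≤ rho j := by
  unfold rho; split_ifs <;> norm_num

lemma th_succ (j : ℕ) : th j = rho j * th (j + 1) := by
  rcases Nat.lt_or_ge j 8 with h | h
  · interval_cases j <;> norm_num [th, rho]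
  · obtain ⟨i, rfl⟩ := Nat.exists_eq_add_of_le h
    unfold th rho
    rw [if_neg (by omega), if_neg (by omega), if_neg (by omega), if_neg (by omega),
      if_neg (by omega), if_neg (by omega)]
    have e1 : 8 + i - 8 = i := by omega
    have e2 : 8 + i + 1 - 8 = i + 1 := by omega
    rw [e1, e2, pow_succ]
    ring

lemma th_antitone : Antitone th := by
  apply antitone_nat_of_succ_le
  intro j
  rw [th_succ j]
  have := th_pos (j + 1)
  nlinarith [rho_ge_one j]

lemma th_le_one (j : ℕ) : th j ≤ 1 := by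
  have := th_antitone (Nat.zero_le j)
  rwa [th_zero] at this

lemma bb_even (j : ℕ) : Even (bb j) := by
  unfold bb
  split_ifs
  · exact ⟨1, rfl⟩
  · exact ⟨2, rfl⟩
  · exact even_two_mul _

lemma tail_weight (m : ℕ) :
    ∑ i ∈ range m, (6 + 2 * (i : ℝ)) * (1 / 2) ^ i = 16 - (16 + 4 * (m : ℝ)) * (1 / 2) ^ m := by
  induction m with
  | zero => simp
  | succ m ih =>
    rw [Finset.sum_range_succ, ih]
    push_cast
    ring

lemma sum_bb_th (r : ℕ) : ∑ j ∈ range r, (bb j : ℝ) * th j ≤ 6.944 := by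
  have hnn : ∀ j, 0 ≤ (bb j : ℝ) * th j := fun j => by
    have := (th_pos j).le; positivity
  calc ∑ j ∈ range r, (bb j : ℝ) * th j ≤ ∑ j ∈ range (8 + r), (bb j : ℝ) * th j := by
        apply Finset.sum_le_sum_of_subset_of_nonneg
        · intro x hx; rw [Finset.mem_range] at *; omega
        · intro j _ _; exact hnn j
    _ = ∑ j ∈ range 8, (bb j : ℝ) * th j + ∑ i ∈ range r, (bb (8 + i) : ℝ) * th (8 + i) := by
        rw [Finset.sum_range_add]
    _ = ∑ j ∈ range 8, (bb j : ℝ) * th j +
        (16 / 625) * ∑ i ∈ range r, (6 + 2 * (i : ℝ)) * (1 / 2) ^ i := by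
        congr 1
        rw [Finset.mul_sum]
        apply Finset.sum_congr rfl
        intro i _
        unfold bb th
        rw [if_neg (by omega), if_neg (by omega), if_neg (by omega), if_neg (by omega)]
        have e1 : 8 + i - 8 = i := by omega
        have e2 : 2 * (8 + i - 5) = 6 + 2 * i := by omega
        rw [e1, e2]
        push_cast
        ring
    _ ≤ ∑ j ∈ range 8, (bb j : ℝ) * th j + (16 / 625) * 16 := by
        rw [tail_weight]
        have : 0 ≤ (16 + 4 * (r : ℝ)) * (1 / 2) ^ r := by positivity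
        linarith
    _ ≤ 6.944 := by
        simp only [Finset.sum_range_succ, Finset.sum_range_zero, bb, th]
        norm_num

lemma log_three_half : Real.log (3 / 2) ≤ 0.4055 := by
  rw [Real.log_le_iff_le_exp (by norm_num)]
  have h := Real.sum_le_exp_of_nonneg (x := 0.4055) (by norm_num) 8
  refine le_trans ?_ h
  simp only [Finset.sum_range_succ, Finset.sum_range_zero, Nat.factorial]
  norm_num

lemma log_five_third : Real.log (5 / 3) ≤ 0.5109 := by
  rw [Real.log_le_iff_le_exp (by norm_num)]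
  have h := Real.sum_le_exp_of_nonneg (x := 0.5109) (by norm_num) 8
  refine le_trans ?_ h
  simp only [Finset.sum_range_succ, Finset.sum_range_zero, Nat.factorial]
  norm_num

lemma log_two_le : Real.log 2 ≤ 0.6932 := by
  have := Real.log_two_lt_d9
  linarith

/-- upper bound for `2 log (rho j) + 1/1000` -/
noncomputable def Lb (j : ℕ) : ℝ := if j < 4 then 0.812 else if j < 8 then 1.0228 else 1.3874

lemma Lb_ge (j : ℕ) : 2 * Real.log (rho j) + 1 / 1000 ≤ Lb j := by
  unfold Lb rho
  split_ifs
  · have := log_three_half; linarith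
  · have := log_five_third; linarith
  · have := log_two_le; linarith

lemma Lb_pos (j : ℕ) : 0 < Lb j := by unfold Lb; split_ifs <;> norm_num

lemma Lb_le (j : ℕ) : Lb j ≤ 1.3874 := by unfold Lb; split_ifs <;> norm_num

/-- exp (Lb j * (1+1/1000)) ≤ rho^2 * 1.004 -/
lemma exp_Lb (j : ℕ) : Real.exp (Lb j * (1 + 1 / 1000)) ≤ (rho j) ^ 2 * 1.004 := by
  have key : ∀ (a r c : ℝ), 0 < r → a * (1 + 1 / 1000) ≤ 2 * Real.log r + c → Real.exp c ≤ 1.004 →
      Real.exp (a * (1 + 1 / 1000)) ≤ r ^ 2 * 1.004 := by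
    intro a r c hr h1 h2
    calc Real.exp (a * (1 + 1 / 1000)) ≤ Real.exp (2 * Real.log r + c) := Real.exp_le_exp.mpr h1
      _ = r ^ 2 * Real.exp c := by
          rw [Real.exp_add]
          congr 1
          rw [← Real.log_rpow hr, Real.exp_log (by positivity)]
          norm_cast
      _ ≤ r ^ 2 * 1.004 := by gcongr
  have hc : Real.exp 0.0038 ≤ 1.004 := by
    have h := Real.exp_bound' (x := 0.0038) (by norm_num) (by norm_num) (n := 2) (by norm_num)
    refine h.trans ?_
    simp only [Finset.sum_range_succ, Finset.sum_range_zero, Nat.factorial]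
    norm_num
  have l32 : 0.4054 ≤ Real.log (3 / 2) := by
    rw [Real.le_log_iff_exp_le (by norm_num)]
    have h := Real.exp_bound' (x := 0.4054) (by norm_num) (by norm_num) (n := 8) (by norm_num)
    refine h.trans ?_
    simp only [Finset.sum_range_succ, Finset.sum_range_zero, Nat.factorial]
    norm_num
  have l53 : 0.5108 ≤ Real.log (5 / 3) := by
    rw [Real.le_log_iff_exp_le (by norm_num)]
    have h := Real.exp_bound' (x := 0.5108) (by norm_num) (by norm_num) (n := 8) (by norm_num)
    refine h.trans ?_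
    simp only [Finset.sum_range_succ, Finset.sum_range_zero, Nat.factorial]
    norm_num
  have l2 : 0.69314 ≤ Real.log 2 := by
    have := Real.log_two_gt_d9
    linarith
  unfold Lb rho
  split_ifs
  · exact key _ _ _ (by norm_num) (by linarith) hc
  · exact key _ _ _ (by norm_num) (by linarith) hc
  · exact key _ _ _ (by norm_num) (by linarith) hc

/-- cost of bucket `j` -/
noncomputable def cost (j : ℕ) : ℝ :=
  (rho j) ^ 2 * 1.004 * (Lb j ^ (bb j + 1) / ((bb j + 1).factorial : ℝ))

lemma cost_nonneg (j : ℕ) : 0 ≤ cost j := by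
  unfold cost
  have := (Lb_pos j).le
  positivity

lemma cost_tail (i : ℕ) : cost (8 + i) ≤ 0.0081 * (1 / 2) ^ i := by
  have e : cost (8 + i) = 4 * 1.004 * ((1.3874 : ℝ) ^ (7 + 2 * i) / ((7 + 2 * i).factorial : ℝ)) := by
    unfold cost rho Lb bb
    rw [if_neg (by omega), if_neg (by omega), if_neg (by omega), if_neg (by omega),
      if_neg (by omega), if_neg (by omega)]
    have : 2 * (8 + i - 5) + 1 = 7 + 2 * i := by omega
    rw [this]
    norm_num
  rw [e]
  induction i with
  | zero => norm_num [Nat.factorial]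
  | succ i ih =>
    have e1 : 7 + 2 * (i + 1) = (7 + 2 * i) + 1 + 1 := by ring
    rw [e1, Nat.factorial_succ, Nat.factorial_succ, pow_succ, pow_succ]
    push_cast
    have hf : (0 : ℝ) < ((7 + 2 * i).factorial : ℝ) := by positivity
    have h1 : (4 : ℝ) * 1.004 * ((1.3874 : ℝ) ^ (7 + 2 * i) * 1.3874 * 1.3874 /
        ((7 + 2 * (i : ℝ) + 1 + 1) * ((7 + 2 * (i : ℝ) + 1) * ((7 + 2 * i).factorial : ℝ))))
        = (4 * 1.004 * ((1.3874 : ℝ) ^ (7 + 2 * i) / ((7 + 2 * i).factorial : ℝ))) *
          (1.3874 * 1.3874 / ((7 + 2 * (i : ℝ) + 1 + 1) * (7 + 2 * (i : ℝ) + 1))) := by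
      field_simp
    rw [h1]
    have h2 : (1.3874 : ℝ) * 1.3874 / ((7 + 2 * (i : ℝ) + 1 + 1) * (7 + 2 * (i : ℝ) + 1)) ≤ 1 / 2 := by
      rw [div_le_div_iff₀ (by positivity) (by norm_num)]
      have : (0 : ℝ) ≤ i := by positivity
      nlinarith
    have h0 : 0 ≤ (4 * 1.004 * ((1.3874 : ℝ) ^ (7 + 2 * i) / ((7 + 2 * i).factorial : ℝ))) := by
      positivity
    have ih' := ih (by
      unfold cost rho Lb bb
      rw [if_neg (by omega), if_neg (by omega), if_neg (by omega), if_neg (by omega),
        if_neg (by omega), if_neg (by omega)]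
      have : 2 * (8 + i - 5) + 1 = 7 + 2 * i := by omega
      rw [this]
      norm_num)
    calc (4 * 1.004 * ((1.3874 : ℝ) ^ (7 + 2 * i) / ((7 + 2 * i).factorial : ℝ))) *
          (1.3874 * 1.3874 / ((7 + 2 * (i : ℝ) + 1 + 1) * (7 + 2 * (i : ℝ) + 1)))
        ≤ (0.0081 * (1 / 2) ^ i) * (1 / 2) := by
          apply mul_le_mul ih' h2 (by positivity) (by positivity)
      _ = 0.0081 * (1 / 2) ^ (i + 1) := by ring

lemma sum_cost (r : ℕ) : ∑ j ∈ range r, cost j ≤ 0.95 := by
  calc ∑ j ∈ range r, cost j ≤ ∑ j ∈ range (8 + r), cost j := by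
        apply Finset.sum_le_sum_of_subset_of_nonneg
        · intro x hx; rw [Finset.mem_range] at *; omega
        · intro j _ _; exact cost_nonneg j
    _ = ∑ j ∈ range 8, cost j + ∑ i ∈ range r, cost (8 + i) := by
        rw [Finset.sum_range_add]
    _ ≤ ∑ j ∈ range 8, cost j + ∑ i ∈ range r, 0.0081 * (1 / 2 : ℝ) ^ i := by
        gcongr with i _
        exact cost_tail i
    _ ≤ ∑ j ∈ range 8, cost j + 0.0162 := by
        have h : ∑ i ∈ range r, (1 / 2 : ℝ) ^ i ≤ 2 := by
          have := geom_sum_eq (x := (1 / 2 : ℝ)) (by norm_num) r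
          rw [this]
          have h2 : (0 : ℝ) ≤ (1 / 2) ^ r := by positivity
          have : ((1 / 2 : ℝ) ^ r - 1) / (1 / 2 - 1) = 2 * (1 - (1 / 2) ^ r) := by
            field_simp; ring
          rw [this]; linarith
        rw [← Finset.mul_sum]
        linarith
    _ ≤ 0.95 := by
        simp only [Finset.sum_range_succ, Finset.sum_range_zero, cost, rho, Lb, bb, Nat.factorial]
        norm_num

end Pool.Agent.H16
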