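import Pool.Agent.H16.BrunTwo

set_option autoImplicit false

open Finset Real

namespace Pool.Agent.H16

/-- cut points -/
noncomputable def cut (z y j : ℕ) : ℕ := max z ⌈(y : ℝ) ^ th j⌉₊

lemma cut_zero (z y : ℕ) (hzy : z ≤ y) : cut z y 0 = y := by
  unfold cut
  rw [th_zero, Real.rpow_one, Nat.ceil_natCast, max_eq_right hzy]

lemma cut_ge (z y j : ℕ) : z ≤ cut z y j := le_max_left _ _

lemma cut_antitone (z y : ℕ) (hy : 1 ≤ y) : Antitone (cut z y) := by
  intro i j hij
  unfold cut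
  apply max_le_max le_rfl
  apply Nat.ceil_mono
  apply Real.rpow_le_rpow_of_exponent_le
  · exact_mod_cast hy
  · exact th_antitone hij

/-- buckets -/
noncomputable def bucket (z y j : ℕ) : Finset ℕ := primesIoc (cut z y (j + 1)) (cut z y j)

lemma bucket_disjoint (z y : ℕ) (hy : 1 ≤ y) (i j : ℕ) (hij : i ≠ j) :
    Disjoint (bucket z y i) (bucket z y j) := by
  rw [Finset.disjoint_left]
  intro p hp hp'
  unfold bucket at hp hp'
  rw [mem_primesIoc] at hp hp'
  rcases Nat.lt_or_gt_of_ne hij with h | h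
  · have := cut_antitone z y hy (show i + 1 ≤ j by omega)
    omega
  · have := cut_antitone z y hy (show j + 1 ≤ i by omega)
    omega

/-- a prime in `(z, y]` lies in some bucket with index `< r` if `cut z y r = z` -/
lemma exists_bucket (z y r : ℕ) (hzy : z ≤ y) (hr : cut z y r = z) (p : ℕ)
    (hp : p ∈ primesIoc z y) : ∃ j ∈ range r, p ∈ bucket z y j := by
  rw [mem_primesIoc] at hp
  have hex : ∃ j, cut z y j < p := ⟨r, by rw [hr]; exact hp.1⟩
  classical
  let j0 := Nat.find hex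
  have hj0 : cut z y j0 < p := Nat.find_spec hex
  have hj0pos : j0 ≠ 0 := by
    intro h
    rw [h, cut_zero z y hzy] at hj0
    omega
  have hmin : ¬ cut z y (j0 - 1) < p := Nat.find_min hex (by omega)
  have hle : j0 ≤ r := Nat.find_min' hex (by rw [hr]; exact hp.1)
  refine ⟨j0 - 1, by rw [Finset.mem_range]; omega, ?_⟩
  unfold bucket
  rw [mem_primesIoc]
  have e : j0 - 1 + 1 = j0 := by omega
  rw [e]
  exact ⟨hj0, by omega, hp.2.2⟩

lemma bucket_subset (z y j : ℕ) (hy : 1 ≤ y) (hzy : z ≤ y) (p : ℕ) (hp : p ∈ bucket z y j) :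
    p ∈ primesIoc z y := by
  unfold bucket at hp
  rw [mem_primesIoc] at hp ⊢
  have h1 := cut_ge z y (j + 1)
  have h2 := cut_antitone z y hy (Nat.zero_le j)
  rw [cut_zero z y hzy] at h2
  exact ⟨by omega, by omega, hp.2.2⟩

/-- there is an index with `y ^ th r ≤ z` and it is not too large -/
lemma exists_r (z y : ℕ) (hz : 100000 ≤ Real.log z) (hzy : z ≤ y) :
    ∃ r : ℕ, cut z y r = z ∧ (∀ j < r, (z : ℝ) < (y : ℝ) ^ th j) ∧
      (2 : ℝ) ^ r ≤ 512 * Real.log y := by
  have hz0 : (0 : ℝ) < z := by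
    by_contra h
    have : (z : ℝ) = 0 := le_antisymm (not_lt.mp h) (Nat.cast_nonneg z)
    rw [this, Real.log_zero] at hz
    norm_num at hz
  have hy0 : (0 : ℝ) < y := hz0.trans_le (by exact_mod_cast hzy)
  have hlogzy : Real.log z ≤ Real.log y := Real.log_le_log hz0 (by exact_mod_cast hzy)
  have hex : ∃ r : ℕ, (y : ℝ) ^ th r ≤ z := by
    -- th (8+i) * log y ≤ log z for i large
    obtain ⟨i, hi⟩ := exists_pow_lt_of_lt_one (show (0 : ℝ) < 1 / (Real.log y) by
      apply one_div_pos.mpr; linarith) (show (1 / 2 : ℝ) < 1 by norm_num)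
    refine ⟨8 + i, ?_⟩
    have h1 : th (8 + i) * Real.log y ≤ Real.log z := by
      unfold th
      rw [if_neg (by omega), if_neg (by omega)]
      have e1 : 8 + i - 8 = i := by omega
      rw [e1]
      have h2 : (1 / 2 : ℝ) ^ i * Real.log y < 1 := by
        rw [lt_div_iff₀ (by linarith)] at hi
        exact hi
      nlinarith
    rw [Real.rpow_def_of_pos hy0]
    calc Real.exp (Real.log y * th (8 + i)) ≤ Real.exp (Real.log z) := by
          apply Real.exp_le_exp.mpr; linarith
      _ = z := Real.exp_log hz0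
  classical
  let r := Nat.find hex
  have hr : (y : ℝ) ^ th r ≤ z := Nat.find_spec hex
  have hmin : ∀ j < r, (z : ℝ) < (y : ℝ) ^ th j := fun j hj => not_le.mp (Nat.find_min hex hj)
  refine ⟨r, ?_, hmin, ?_⟩
  · unfold cut
    apply max_eq_left
    exact Nat.ceil_le.mpr hr
  · rcases Nat.lt_or_ge r 10 with h | h
    · have h1 : (2 : ℝ) ^ r ≤ 2 ^ 9 := by
        apply pow_le_pow_right₀ (by norm_num) (by omega)
      linarith
    · have h1 := hmin (r - 1) (by omega)
      have h2 : Real.log z < th (r - 1) * Real.log y := by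
        have := Real.log_lt_log hz0 h1
        rwa [Real.log_rpow hy0] at this
      unfold th at h2
      rw [if_neg (by omega), if_neg (by omega)] at h2
      obtain ⟨i, hi⟩ := Nat.exists_eq_add_of_le h
      have e1 : r - 1 - 8 = i + 1 := by omega
      rw [e1] at h2
      rw [hi]
      have h3 : (2 : ℝ) ^ (10 + i) = 512 * 2 ^ (i + 1) := by
        rw [pow_add, pow_succ]; norm_num; ring
      rw [h3]
      have h4 : (2 : ℝ) ^ (i + 1) * (1 / 2) ^ (i + 1) = 1 := by
        rw [← mul_pow]; norm_num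
      have h5 : (0 : ℝ) < 2 ^ (i + 1) := by positivity
      have h6 : 2 ^ (i + 1) * Real.log z < 2 ^ (i + 1) * (16 / 625 * (1 / 2) ^ (i + 1) * Real.log y) :=
        mul_lt_mul_of_pos_left h2 h5
      have h7 : (2 : ℝ) ^ (i + 1) * (16 / 625 * (1 / 2) ^ (i + 1) * Real.log y) =
          16 / 625 * Real.log y := by
        calc (2 : ℝ) ^ (i + 1) * (16 / 625 * (1 / 2) ^ (i + 1) * Real.log y)
            = 16 / 625 * (2 ^ (i + 1) * (1 / 2) ^ (i + 1)) * Real.log y := by ring
          _ = _ := by rw [h4]; ring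
      rw [h7] at h6
      nlinarith

lemma cut_le_two_mul (z y j : ℕ) (hy : 1 ≤ y) (hj : (z : ℝ) < (y : ℝ) ^ th j) :
    (cut z y j : ℝ) ≤ 2 * (y : ℝ) ^ th j := by
  unfold cut
  have h1 : (1 : ℝ) ≤ (y : ℝ) ^ th j := Real.one_le_rpow (by exact_mod_cast hy) (th_pos j).le
  rw [Nat.cast_max]
  apply max_le
  · linarith
  · have := (Nat.ceil_lt_add_one (show (0 : ℝ) ≤ (y : ℝ) ^ th j by linarith)).le
    linarith

/-- sum of reciprocals of primes over a bucket -/
lemma bucket_sum_inv (z y j : ℕ) (hz : 100000 ≤ Real.log z) (hzy : z ≤ y)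
    (hj : (z : ℝ) < (y : ℝ) ^ th j) :
    ∑ p ∈ bucket z y j, (1 : ℝ) / p ≤ Real.log (rho j) + 6 / Real.log z := by
  have hz0 : (0 : ℝ) < z := by
    by_contra h
    have : (z : ℝ) = 0 := le_antisymm (not_lt.mp h) (Nat.cast_nonneg z)
    rw [this, Real.log_zero] at hz
    norm_num at hz
  have hzN : 0 < z := by exact_mod_cast hz0
  have hy1 : 1 ≤ y := by omega
  have hy0 : (0 : ℝ) < y := hz0.trans_le (by exact_mod_cast hzy)
  have hlogzy : Real.log z ≤ Real.log y := Real.log_le_log hz0 (by exact_mod_cast hzy)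
  have hz2 : 2 ≤ z := by
    by_contra h
    have : z = 1 := by omega
    rw [this] at hz
    norm_num at hz
  have hcut2 : 2 ≤ cut z y (j + 1) := hz2.trans (cut_ge z y (j + 1))
  have hcc : cut z y (j + 1) ≤ cut z y j := cut_antitone z y hy1 (Nat.le_succ j)
  have h := sum_inv_primes_le (cut z y (j + 1)) (cut z y j) hcut2 hcc
  unfold bucket
  refine h.trans ?_
  have hlc1 : Real.log z ≤ Real.log (cut z y (j + 1)) :=
    Real.log_le_log hz0 (by exact_mod_cast cut_ge z y (j + 1))
  have hlc1pos : 0 < Real.log (cut z y (j + 1)) := by linarith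
  have hlc2 : th (j + 1) * Real.log y ≤ Real.log (cut z y (j + 1)) := by
    rw [← Real.log_rpow hy0]
    apply Real.log_le_log (by positivity)
    unfold cut
    rw [Nat.cast_max]
    exact (Nat.le_ceil _).trans (le_max_right _ _)
  have hlc0 : Real.log (cut z y j) ≤ th j * Real.log y + 1 := by
    have h1 := cut_le_two_mul z y j hy1 hj
    have h2 : (0 : ℝ) < cut z y j := by
      have : 0 < cut z y j := by omega
      exact_mod_cast this
    calc Real.log (cut z y j) ≤ Real.log (2 * (y : ℝ) ^ th j) := Real.log_le_log h2 h1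
      _ = Real.log 2 + th j * Real.log y := by
          rw [Real.log_mul (by norm_num) (by positivity), Real.log_rpow hy0]
      _ ≤ th j * Real.log y + 1 := by
          have := log_two_le
          linarith
  have hratio : Real.log (cut z y j) / Real.log (cut z y (j + 1)) ≤ rho j + 1 / Real.log z := by
    rw [div_le_iff₀ hlc1pos, add_mul]
    have h1 : th j * Real.log y ≤ rho j * Real.log (cut z y (j + 1)) := by
      rw [th_succ j, mul_assoc]
      exact mul_le_mul_of_nonneg_left hlc2 (rho_pos j).le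
    have h2 : 1 ≤ 1 / Real.log z * Real.log (cut z y (j + 1)) := by
      rw [one_div, inv_mul_eq_div, le_div_iff₀ (by linarith)]
      linarith
    linarith
  have hlogz : 0 < Real.log z := by linarith
  have hnn : 0 < Real.log (cut z y j) := by
    have : Real.log (cut z y (j + 1)) ≤ Real.log (cut z y j) := by
      apply Real.log_le_log
      · have : 0 < cut z y (j + 1) := by omega
        exact_mod_cast this
      · exact_mod_cast hcc
    linarith
  have h3 : Real.log (Real.log (cut z y j) / Real.log (cut z y (j + 1)))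
      ≤ Real.log (rho j) + 1 / Real.log z := by
    calc Real.log (Real.log (cut z y j) / Real.log (cut z y (j + 1)))
        ≤ Real.log (rho j + 1 / Real.log z) := Real.log_le_log (by positivity) hratio
      _ ≤ Real.log (rho j * (1 + 1 / Real.log z)) := by
          apply Real.log_le_log
          · have := rho_pos j; positivity
          · have := rho_ge_one j
            have h4 : 0 < 1 / Real.log z := by positivity
            nlinarith
      _ = Real.log (rho j) + Real.log (1 + 1 / Real.log z) := by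
          rw [Real.log_mul (rho_pos j).ne' (by positivity)]
      _ ≤ _ := by
          have := Real.log_le_sub_one_of_pos (show 0 < 1 + 1 / Real.log z by positivity)
          linarith
  have h4 : 5 / Real.log (cut z y (j + 1)) ≤ 5 / Real.log z := by
    gcongr
  have e : 6 / Real.log z = 1 / Real.log z + 5 / Real.log z := by ring
  rw [e]
  linarith

section
variable (z y : ℕ) (hz : 100000 ≤ Real.log z) (hzy : z ≤ y)
  (R : ℕ → Finset ℕ)
  (hR : ∀ p, p.Prime → z < p → p ≤ y → R p ⊆ range p)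
  (hR2 : ∀ p, p.Prime → z < p → p ≤ y → #(R p) ≤ 2)
include hz hzy hR hR2

omit hzy hR hR2 in
lemma z_pos : (0 : ℝ) < z := by
  by_contra h
  have : (z : ℝ) = 0 := le_antisymm (not_lt.mp h) (Nat.cast_nonneg z)
  rw [this, Real.log_zero] at hz
  norm_num at hz

lemma z_large : (3000 : ℝ) ≤ z := by
  have h0 := z_pos z hz
  have h1 : Real.exp (Real.log z) = z := Real.exp_log h0
  have h2 : Real.log z + 1 ≤ Real.exp (Real.log z) := Real.add_one_le_exp _
  linarith

lemma bucket_sum_g (j : ℕ) (hj : (z : ℝ) < (y : ℝ) ^ th j) :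
    ∑ p ∈ bucket z y j, (#(R p) : ℝ) / p ≤ Lb j := by
  have hz3 := z_large z y hz hzy R hR hR2
  have hy1 : 1 ≤ y := by
    have : 0 < z := by exact_mod_cast z_pos z hz
    omega
  have h := bucket_sum_inv z y j hz hzy hj
  have h1 : ∑ p ∈ bucket z y j, (#(R p) : ℝ) / p ≤ 2 * ∑ p ∈ bucket z y j, (1 : ℝ) / p := by
    rw [Finset.mul_sum]
    apply Finset.sum_le_sum
    intro p hp
    have hp' := bucket_subset z y j hy1 hzy p hp
    rw [mem_primesIoc] at hp'
    have hc := hR2 p hp'.2.2 hp'.1 hp'.2.1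
    have hc' : (#(R p) : ℝ) ≤ 2 := by exact_mod_cast hc
    rw [mul_one_div]
    gcongr
  have h2 : 6 / Real.log z ≤ 6 / 100000 := by gcongr
  have h3 := Lb_ge j
  linarith

lemma bucket_prod_g (j : ℕ) (hj : (z : ℝ) < (y : ℝ) ^ th j) :
    Real.exp (-(Lb j * (1 + 1 / 1000))) ≤ ∏ p ∈ bucket z y j, (1 - (#(R p) : ℝ) / p) := by
  have hz3 := z_large z y hz hzy R hR hR2
  have hy1 : 1 ≤ y := by
    have : 0 < z := by exact_mod_cast z_pos z hz
    omega
  have h := bucket_sum_g z y hz hzy R hR hR2 j hj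
  have h1 : ∏ p ∈ bucket z y j, Real.exp (-((#(R p) : ℝ) / p * (1 + 1 / 1000))) ≤
      ∏ p ∈ bucket z y j, (1 - (#(R p) : ℝ) / p) := by
    apply Finset.prod_le_prod
    · intro p _; positivity
    · intro p hp
      have hp' := bucket_subset z y j hy1 hzy p hp
      rw [mem_primesIoc] at hp'
      have hc := hR2 p hp'.2.2 hp'.1 hp'.2.1
      have hc' : (#(R p) : ℝ) ≤ 2 := by exact_mod_cast hc
      have hpz : (z : ℝ) < p := by exact_mod_cast hp'.1
      have hp0 : (0 : ℝ) < p := by linarith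
      set x : ℝ := (#(R p) : ℝ) / p with hx
      have hx0 : 0 ≤ x := by positivity
      have hx1 : x ≤ 1 / 1500 := by
        rw [hx, div_le_div_iff₀ hp0 (by norm_num)]
        linarith
      have hx2 : 0 < 1 - x := by linarith
      have h2 := Real.one_sub_inv_le_log_of_pos hx2
      rw [← Real.le_log_iff_exp_le hx2]
      refine le_trans ?_ h2
      have h3 : 1 - (1 - x)⁻¹ = -(x / (1 - x)) := by field_simp; ring
      rw [h3]
      apply neg_le_neg
      rw [div_le_iff₀ hx2]
      nlinarith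
  rw [← Real.exp_sum] at h1
  refine le_trans ?_ h1
  apply Real.exp_le_exp.mpr
  rw [Finset.sum_neg_distrib, ← Finset.sum_mul]
  apply neg_le_neg
  apply mul_le_mul_of_nonneg_right h (by norm_num)

lemma bucket_cost (j : ℕ) (hj : (z : ℝ) < (y : ℝ) ^ th j) :
    es (bucket z y j) (fun p => (#(R p) : ℝ) / p) (bb j + 1) /
      ∏ p ∈ bucket z y j, (1 - (#(R p) : ℝ) / p) ≤ cost j := by
  have h1 := bucket_sum_g z y hz hzy R hR hR2 j hj
  have h2 := bucket_prod_g z y hz hzy R hR hR2 j hj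
  have h3 := es_le_pow (bucket z y j) (fun p => (#(R p) : ℝ) / p) (fun p _ => by positivity)
    (bb j + 1)
  have h0 : 0 ≤ ∑ p ∈ bucket z y j, (#(R p) : ℝ) / p :=
    Finset.sum_nonneg (fun p _ => by positivity)
  have h4 : (∑ p ∈ bucket z y j, (#(R p) : ℝ) / p) ^ (bb j + 1) / ((bb j + 1).factorial : ℝ)
      ≤ Lb j ^ (bb j + 1) / ((bb j + 1).factorial : ℝ) := by gcongr
  have hexp := exp_Lb j
  have hpos : 0 < Real.exp (-(Lb j * (1 + 1 / 1000))) := Real.exp_pos _
  have h5 : 0 ≤ Lb j ^ (bb j + 1) / ((bb j + 1).factorial : ℝ) := by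
    have := (Lb_pos j).le; positivity
  calc es (bucket z y j) (fun p => (#(R p) : ℝ) / p) (bb j + 1) /
      ∏ p ∈ bucket z y j, (1 - (#(R p) : ℝ) / p)
      ≤ (Lb j ^ (bb j + 1) / ((bb j + 1).factorial : ℝ)) /
        Real.exp (-(Lb j * (1 + 1 / 1000))) := by
        apply div_le_div₀ h5 (h3.trans h4) hpos h2
    _ = (Lb j ^ (bb j + 1) / ((bb j + 1).factorial : ℝ)) *
        Real.exp (Lb j * (1 + 1 / 1000)) := by
        rw [Real.exp_neg, div_inv_eq_mul]
    _ ≤ (Lb j ^ (bb j + 1) / ((bb j + 1).factorial : ℝ)) * ((rho j) ^ 2 * 1.004) :=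
        mul_le_mul_of_nonneg_left hexp h5
    _ = cost j := by unfold cost; ring

lemma bucket_count (j : ℕ) (hj : (z : ℝ) < (y : ℝ) ^ th j) :
    1 + ∑ p ∈ bucket z y j, (#(R p) : ℝ) ≤ 5 * (y : ℝ) ^ th j := by
  have hz3 := z_large z y hz hzy R hR hR2
  have hy1 : 1 ≤ y := by
    have : 0 < z := by exact_mod_cast z_pos z hz
    omega
  have h1 : ∑ p ∈ bucket z y j, (#(R p) : ℝ) ≤ ∑ p ∈ bucket z y j, (2 : ℝ) := by
    apply Finset.sum_le_sum
    intro p hp
    have hp' := bucket_subset z y j hy1 hzy p hp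
    rw [mem_primesIoc] at hp'
    have hc := hR2 p hp'.2.2 hp'.1 hp'.2.1
    exact_mod_cast hc
  rw [Finset.sum_const, nsmul_eq_mul] at h1
  have h2 : #(bucket z y j) ≤ cut z y j := by
    calc #(bucket z y j) ≤ #(Finset.Ioc (cut z y (j + 1)) (cut z y j)) := Finset.card_filter_le _ _
      _ = cut z y j - cut z y (j + 1) := Nat.card_Ioc _ _
      _ ≤ cut z y j := Nat.sub_le _ _
  have h3 : (#(bucket z y j) : ℝ) ≤ cut z y j := by exact_mod_cast h2
  have h4 := cut_le_two_mul z y j hy1 hj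
  have h5 : (1 : ℝ) ≤ (y : ℝ) ^ th j := Real.one_le_rpow (by exact_mod_cast hy1) (th_pos j).le
  linarith

lemma bucket_count' (j : ℕ) (hj : (z : ℝ) < (y : ℝ) ^ th j) :
    1 + ∑ p ∈ bucket z y j, (#(R p) : ℝ) ≤ (y : ℝ) ^ (th j * 1.001) := by
  have h := bucket_count z y hz hzy R hR hR2 j hj
  have hz0 := z_pos z hz
  have hy0 : (0 : ℝ) < y := hz0.trans_le (by exact_mod_cast hzy)
  have h1 : Real.log z < th j * Real.log y := by
    have := Real.log_lt_log hz0 hj
    rwa [Real.log_rpow hy0] at this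
  have h2 : (5 : ℝ) ≤ (y : ℝ) ^ (th j * 0.001) := by
    rw [Real.rpow_def_of_pos hy0]
    have h3 : Real.log y * (th j * 0.001) + 1 ≤ Real.exp (Real.log y * (th j * 0.001)) :=
      Real.add_one_le_exp _
    nlinarith
  calc 1 + ∑ p ∈ bucket z y j, (#(R p) : ℝ) ≤ 5 * (y : ℝ) ^ th j := h
    _ ≤ (y : ℝ) ^ (th j * 0.001) * (y : ℝ) ^ th j := by gcongr
    _ = (y : ℝ) ^ (th j * 1.001) := by
        rw [← Real.rpow_add hy0]
        congr 1
        ring

lemma prod_lower (r : ℕ) (hr : ∀ j < r, (z : ℝ) < (y : ℝ) ^ th j)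
    (hr2 : (2 : ℝ) ^ r ≤ 512 * Real.log y) :
    1 / (512 * Real.log y) ^ 3 ≤
      ∏ j ∈ range r, ∏ p ∈ bucket z y j, (1 - (#(R p) : ℝ) / p) := by
  have h1 : ∏ j ∈ range r, (1 / 8 : ℝ) ≤
      ∏ j ∈ range r, ∏ p ∈ bucket z y j, (1 - (#(R p) : ℝ) / p) := by
    apply Finset.prod_le_prod
    · intro j _; norm_num
    · intro j hj
      refine le_trans ?_ (bucket_prod_g z y hz hzy R hR hR2 j (hr j (Finset.mem_range.mp hj)))
      rw [Real.exp_neg, one_div]
      apply inv_anti₀ (Real.exp_pos _)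
      have h2 : Lb j * (1 + 1 / 1000) ≤ 2 := by
        have := Lb_le j; linarith
      calc Real.exp (Lb j * (1 + 1 / 1000)) ≤ Real.exp 2 := Real.exp_le_exp.mpr h2
        _ = Real.exp 1 * Real.exp 1 := by rw [← Real.exp_add]; norm_num
        _ ≤ 8 := by
          have := Real.exp_one_lt_d9
          have := Real.exp_pos 1
          nlinarith
  refine le_trans ?_ h1
  rw [Finset.prod_const, Finset.card_range, one_div_pow]
  have h8 : (8 : ℝ) ^ r = ((2 : ℝ) ^ r) ^ 3 := by
    rw [← pow_mul, mul_comm r 3, pow_mul]; norm_num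
  rw [h8]
  have hpos : (0 : ℝ) < 2 ^ r := by positivity
  apply one_div_le_one_div_of_le (by positivity)
  gcongr

lemma error_bound (r : ℕ) (hr : ∀ j < r, (z : ℝ) < (y : ℝ) ^ th j)
    (hr2 : (2 : ℝ) ^ r ≤ 512 * Real.log y) :
    (1 + ∑ j ∈ range r, (1 + ∑ p ∈ bucket z y j, (#(R p) : ℝ))) *
        ∏ j ∈ range r, (1 + ∑ p ∈ bucket z y j, (#(R p) : ℝ)) ^ (bb j)
      ≤ 2560 * Real.log y * (y : ℝ) ^ (7.951 : ℝ) := by
  have hz0 := z_pos z hz
  have hy0 : (0 : ℝ) < y := hz0.trans_le (by exact_mod_cast hzy)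
  have hy1 : (1 : ℝ) ≤ y := by
    have := z_large z y hz hzy R hR hR2
    have h2 : (z : ℝ) ≤ y := by exact_mod_cast hzy
    linarith
  have hS : ∀ j, 0 ≤ ∑ p ∈ bucket z y j, (#(R p) : ℝ) := fun j =>
    Finset.sum_nonneg (fun _ _ => by positivity)
  have h1 : ∑ j ∈ range r, (1 + ∑ p ∈ bucket z y j, (#(R p) : ℝ)) ≤ r * (5 * (y : ℝ)) := by
    calc ∑ j ∈ range r, (1 + ∑ p ∈ bucket z y j, (#(R p) : ℝ))
        ≤ ∑ j ∈ range r, 5 * (y : ℝ) := by
          apply Finset.sum_le_sum
          intro j hj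
          refine (bucket_count z y hz hzy R hR hR2 j (hr j (Finset.mem_range.mp hj))).trans ?_
          have : (y : ℝ) ^ th j ≤ (y : ℝ) ^ (1 : ℝ) :=
            Real.rpow_le_rpow_of_exponent_le hy1 (th_le_one j)
          rw [Real.rpow_one] at this
          linarith
      _ = _ := by rw [Finset.sum_const, Finset.card_range, nsmul_eq_mul]
  have h2 : (1 + ∑ j ∈ range r, (1 + ∑ p ∈ bucket z y j, (#(R p) : ℝ))) ≤
      2560 * Real.log y * y := by
    have hr3 : (r : ℝ) + 1 ≤ 2 ^ r := by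
      have := Nat.lt_two_pow_self (n := r)
      exact_mod_cast this
    nlinarith
  have h3 : ∏ j ∈ range r, (1 + ∑ p ∈ bucket z y j, (#(R p) : ℝ)) ^ (bb j)
      ≤ (y : ℝ) ^ (6.951 : ℝ) := by
    calc ∏ j ∈ range r, (1 + ∑ p ∈ bucket z y j, (#(R p) : ℝ)) ^ (bb j)
        ≤ ∏ j ∈ range r, (y : ℝ) ^ ((bb j : ℝ) * th j * 1.001) := by
          apply Finset.prod_le_prod
          · intro j _
            have := hS j
            positivity
          · intro j hj
            have h4 := bucket_count' z y hz hzy R hR hR2 j (hr j (Finset.mem_range.mp hj))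
            calc (1 + ∑ p ∈ bucket z y j, (#(R p) : ℝ)) ^ (bb j)
                ≤ ((y : ℝ) ^ (th j * 1.001)) ^ (bb j) := by
                  apply pow_le_pow_left₀ _ h4
                  have := hS j
                  positivity
              _ = (y : ℝ) ^ ((bb j : ℝ) * th j * 1.001) := by
                  rw [← Real.rpow_natCast, ← Real.rpow_mul hy0.le]
                  congr 1
                  ring
      _ = (y : ℝ) ^ (∑ j ∈ range r, (bb j : ℝ) * th j * 1.001) := by
          rw [Real.rpow_sum_of_pos hy0]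
      _ ≤ (y : ℝ) ^ (6.951 : ℝ) := by
          apply Real.rpow_le_rpow_of_exponent_le hy1
          rw [← Finset.sum_mul]
          have := sum_bb_th r
          nlinarith
  calc _ ≤ (2560 * Real.log y * y) * (y : ℝ) ^ (6.951 : ℝ) := by
        apply mul_le_mul h2 h3
        · apply Finset.prod_nonneg
          intro j _
          have := hS j
          positivity
        · have : 0 ≤ Real.log y := Real.log_nonneg hy1
          positivity
    _ = 2560 * Real.log y * (y : ℝ) ^ (7.951 : ℝ) := by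
        have : (y : ℝ) ^ (7.951 : ℝ) = y * (y : ℝ) ^ (6.951 : ℝ) := by
          rw [show (7.951 : ℝ) = 1 + 6.951 by norm_num, Real.rpow_add hy0, Real.rpow_one]
        rw [this]; ring

omit hz hzy hR hR2 in
lemma growth (y : ℕ) (hy : 100000 ≤ Real.log y) :
    2560 * Real.log y * (y : ℝ) ^ (7.951 : ℝ) ≤
      (y : ℝ) ^ (7.98 : ℝ) / (40 * (512 * Real.log y) ^ 3) := by
  have hy0 : (0 : ℝ) < y := by
    by_contra h
    have : (y : ℝ) = 0 := le_antisymm (not_lt.mp h) (Nat.cast_nonneg y)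
    rw [this, Real.log_zero] at hy
    norm_num at hy
  set Y := Real.log y with hY
  have hYpos : 0 < Y := by linarith
  rw [le_div_iff₀ (by positivity)]
  have h1 : (y : ℝ) ^ (7.98 : ℝ) = (y : ℝ) ^ (7.951 : ℝ) * Real.exp (0.00725 * Y) ^ 4 := by
    rw [← Real.exp_nat_mul, show (7.98 : ℝ) = 7.951 + 0.029 by norm_num, Real.rpow_add hy0]
    congr 1
    rw [Real.rpow_def_of_pos hy0]
    congr 1
    push_cast
    ring
  have h2 : 2000 * Y ≤ Real.exp (0.00725 * Y) := by
    have h3 := Real.pow_div_factorial_le_exp (x := 0.00725 * Y) (by positivity) 4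
    refine le_trans ?_ h3
    rw [le_div_iff₀ (by positivity)]
    have h4 : (100000 : ℝ) ^ 3 ≤ Y ^ 3 := by gcongr
    have h5 : (0.00725 * Y) ^ 4 = (0.00725 : ℝ) ^ 4 * Y ^ 3 * Y := by ring
    rw [h5]
    have h6 : 2000 * ((Nat.factorial 4 : ℕ) : ℝ) ≤ (0.00725 : ℝ) ^ 4 * Y ^ 3 := by
      calc 2000 * ((Nat.factorial 4 : ℕ) : ℝ) ≤ (0.00725 : ℝ) ^ 4 * (100000 : ℝ) ^ 3 := by
            norm_num [Nat.factorial]
        _ ≤ _ := by gcongr
    nlinarith
  rw [h1]
  have h7 : (2000 * Y) ^ 4 ≤ Real.exp (0.00725 * Y) ^ 4 := by gcongr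
  have hyp : 0 < (y : ℝ) ^ (7.951 : ℝ) := by positivity
  calc 2560 * Y * (y : ℝ) ^ (7.951 : ℝ) * (40 * (512 * Y) ^ 3)
      = (y : ℝ) ^ (7.951 : ℝ) * (2560 * 40 * 512 ^ 3 * Y ^ 4) := by ring
    _ ≤ (y : ℝ) ^ (7.951 : ℝ) * (2000 * Y) ^ 4 := by
        apply mul_le_mul_of_nonneg_left _ hyp.le
        have : (0 : ℝ) ≤ Y ^ 4 := by positivity
        nlinarith
    _ ≤ _ := by gcongr

/-- **Sieve lower bound** (dimension two). -/
theorem brun_two (X : ℕ) (hX : (y : ℝ) ^ (7.98 : ℝ) ≤ X) :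
    (X : ℝ) / (40 * (512 * Real.log y) ^ 3) ≤
      (#{k ∈ range X | ∀ p ∈ primesIoc z y, k % p ∉ R p} : ℝ) := by
  classical
  have hz0 := z_pos z hz
  have hz3 := z_large z y hz hzy R hR hR2
  have hy1 : 1 ≤ y := by
    have : 0 < z := by exact_mod_cast hz0
    omega
  have hlogzy : Real.log z ≤ Real.log y := Real.log_le_log hz0 (by exact_mod_cast hzy)
  obtain ⟨r, hcut, hr, hr2⟩ := exists_r z y hz hzy
  have hbucket : ∀ j, ∀ p ∈ bucket z y j, z < p ∧ p ≤ y ∧ p.Prime := fun j p hp =>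
    mem_primesIoc.mp (bucket_subset z y j hy1 hzy p hp)
  have hcost : ∑ j ∈ range r, es (bucket z y j) (fun p => (#(R p) : ℝ) / p) (bb j + 1) /
      ∏ p ∈ bucket z y j, (1 - (#(R p) : ℝ) / p) ≤ 0.95 := by
    refine le_trans (Finset.sum_le_sum ?_) (sum_cost r)
    intro j hj
    exact bucket_cost z y hz hzy R hR hR2 j (hr j (Finset.mem_range.mp hj))
  have hlow := sifted_lower' R (range r) (bucket z y) bb (fun j _ => bb_even j)
    (fun j _ p hp => (hbucket j p hp).2.2)
    (fun j _ p hp => hR p (hbucket j p hp).2.2 (hbucket j p hp).1 (hbucket j p hp).2.1)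
    (fun i _ j _ hij => bucket_disjoint z y hy1 i j hij) X
    (fun j _ p hp => by
      have h1 := hR2 p (hbucket j p hp).2.2 (hbucket j p hp).1 (hbucket j p hp).2.1
      have h2 : (3000 : ℝ) < p := by
        have : (z : ℝ) < p := by exact_mod_cast (hbucket j p hp).1
        linarith
      have h3 : 3000 < p := by exact_mod_cast h2
      omega)
    (hcost.trans (by norm_num))
  have herr := error_bound z y hz hzy R hR hR2 r hr hr2
  have hprod := prod_lower z y hz hzy R hR hR2 r hr hr2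
  have hgrowth := growth y (hz.trans hlogzy)
  have hY : 0 < Real.log y := by linarith
  set W : ℝ := (512 * Real.log y) ^ 3 with hW
  have hWpos : 0 < W := by positivity
  set Pr := ∏ j ∈ range r, ∏ p ∈ bucket z y j, (1 - (#(R p) : ℝ) / p) with hPr
  set Co := ∑ j ∈ range r, es (bucket z y j) (fun p => (#(R p) : ℝ) / p) (bb j + 1) /
      ∏ p ∈ bucket z y j, (1 - (#(R p) : ℝ) / p) with hCo
  have hX0 : (0 : ℝ) ≤ X := by positivity
  have hmain : (X : ℝ) / (20 * W) ≤ (X : ℝ) * Pr * (1 - Co) := by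
    have h1 : (X : ℝ) * (1 / W) ≤ X * Pr := mul_le_mul_of_nonneg_left hprod hX0
    have h2 : (0.05 : ℝ) ≤ 1 - Co := by linarith
    have h3 : 0 ≤ (X : ℝ) * (1 / W) := by positivity
    calc (X : ℝ) / (20 * W) = (X : ℝ) * (1 / W) * 0.05 := by field_simp; norm_num; ring
      _ ≤ (X : ℝ) * Pr * (1 - Co) := by
          apply mul_le_mul h1 h2 (by norm_num) (h3.trans h1)
  have hX2 : (y : ℝ) ^ (7.98 : ℝ) / (40 * W) ≤ X / (40 * W) := by gcongr
  have hcount : sifted R X (range r) (bucket z y) ≤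
      (#{k ∈ range X | ∀ p ∈ primesIoc z y, k % p ∉ R p} : ℝ) := by
    rw [sifted_eq_card]
    have : #{k ∈ range X | ∀ j ∈ range r, ∀ p ∈ bucket z y j, k % p ∉ R p} ≤
        #{k ∈ range X | ∀ p ∈ primesIoc z y, k % p ∉ R p} := by
      apply Finset.card_le_card
      intro k hk
      rw [Finset.mem_filter] at hk ⊢
      refine ⟨hk.1, fun p hp => ?_⟩
      obtain ⟨j, hj, hpj⟩ := exists_bucket z y r hzy hcut p hp
      exact hk.2 j hj p hpj
    exact_mod_cast this
  have e : (X : ℝ) / (20 * W) = X / (40 * W) + X / (40 * W) := by field_simp; ring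
  linarith

end

end Pool.Agent.H16
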