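import Pool.Agent.H16.CS2

/-!
The linear sieve main terms with the density `1/(p-1)` and one prime removed.
-/

set_option autoImplicit false

open Finset Real

namespace Pool.Agent.H16

open Pool.Agent.H90 (LS.lam LS.W LS.PI LS.Dim LS.AA)

/-- the density -/
noncomputable def g1 (p : ℕ) : ℝ := 1 / ((p : ℝ) - 1)

/-- the density without the prime `e` -/
noncomputable def gE (e p : ℕ) : ℝ := if p = 0 ∨ p = e then 0 else g1 p

lemma gE_nonneg (e p : ℕ) : 0 ≤ gE e p := by
  unfold gE g1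
  split_ifs with h
  · exact le_rfl
  · push Not at h
    have : (1 : ℝ) ≤ p := by exact_mod_cast Nat.one_le_iff_ne_zero.mpr h.1
    apply div_nonneg zero_le_one; linarith

lemma g1_nonneg {p : ℕ} (hp : 1 ≤ p) : 0 ≤ g1 p := by
  unfold g1
  have : (1 : ℝ) ≤ p := by exact_mod_cast hp
  apply div_nonneg zero_le_one; linarith

lemma dim_erase : ∃ C : ℝ, 0 ≤ C ∧ ∀ ω : ℝ, 2 ≤ ω → ∀ e : ℕ, LS.Dim C ω (gE e) := by
  classical
  obtain ⟨C, hC, H⟩ := Pool.Agent.H90.LS.dim_inv
  refine ⟨C + 1, by linarith, fun ω hω e => ⟨gE_nonneg e, fun x y hx hxy => ?_⟩⟩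
  have h1 := (H ω hω).2.2 x y hx hxy
  have h2 : ∑ p ∈ LS.PI x y, gE e p * Real.log p =
      ∑ p ∈ LS.PI x y, (if p = 0 then 0 else 1 / ((p : ℝ) - 1)) * Real.log p -
      (if e ∈ LS.PI x y then g1 e * Real.log e else 0) := by
    have h3 : ∀ p ∈ LS.PI x y, gE e p * Real.log p =
        (if p = 0 then 0 else 1 / ((p : ℝ) - 1)) * Real.log p -
        (if p = e then g1 e * Real.log e else 0) := by
      intro p hp
      have hp0 : p ≠ 0 := (Pool.Agent.H90.LS.mem_PI.mp hp).1.ne_zero
      unfold gE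
      by_cases hpe : p = e
      · rw [if_pos (Or.inr hpe), if_pos hpe, if_neg hp0, hpe]
        unfold g1; ring
      · rw [if_neg (by tauto), if_neg hpe, if_neg hp0]
        unfold g1; ring
    rw [Finset.sum_congr rfl h3, Finset.sum_sub_distrib, Finset.sum_ite_eq']
  rw [h2]
  have h4 : |(if e ∈ LS.PI x y then g1 e * Real.log e else 0)| ≤ 1 := by
    split_ifs with he
    · have hp := (Pool.Agent.H90.LS.mem_PI.mp he).1
      have h5 : (2 : ℝ) ≤ e := by exact_mod_cast hp.two_le
      have h6 := Real.log_le_sub_one_of_pos (show (0 : ℝ) < e by linarith)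
      have h7 := Real.log_natCast_nonneg e
      unfold g1
      rw [abs_of_nonneg (by
        apply mul_nonneg _ h7
        apply div_nonneg zero_le_one; linarith), div_mul_eq_mul_div, one_mul, div_le_one (by linarith)]
      exact h6
    · simp
  have h5 : ∀ a b d : ℝ, a - b - d = (a - d) - b := fun a b d => by ring
  rw [h5]
  refine (abs_sub _ _).trans ?_
  exact add_le_add h1 h4

lemma W_gE (b : Bool) (D : ℝ) (A : Finset ℕ) (hA : ∀ p ∈ A, p ≠ 0) (e : ℕ) :
    LS.W b D (A.erase e) g1 = LS.W b D A (gE e) := by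
  unfold LS.W
  have h1 : ∑ s ∈ (A.erase e).powerset, LS.lam b D s * ∏ p ∈ s, g1 p =
      ∑ s ∈ (A.erase e).powerset, LS.lam b D s * ∏ p ∈ s, gE e p := by
    apply Finset.sum_congr rfl
    intro s hs
    rw [Finset.mem_powerset] at hs
    congr 1
    apply Finset.prod_congr rfl
    intro p hp
    have h2 := hs hp
    rw [Finset.mem_erase] at h2
    unfold gE
    rw [if_neg]
    push Not
    exact ⟨hA p h2.2, h2.1⟩
  rw [h1]
  apply Finset.sum_subset
  · exact Finset.powerset_mono.mpr (Finset.erase_subset _ _)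
  · intro s hs hns
    rw [Finset.mem_powerset] at hs hns
    have he : e ∈ s := by
      by_contra hcon
      apply hns
      intro p hp
      rw [Finset.mem_erase]
      exact ⟨fun h => hcon (h ▸ hp), hs hp⟩
    rw [Finset.prod_eq_zero he, mul_zero]
    unfold gE
    rw [if_pos (Or.inr rfl)]

/-- main terms of the linear sieve. -/
theorem LSmain (K ε : ℝ) (hε : 0 < ε) : ∃ w0 : ℝ, 1 < w0 ∧
    ∀ w, w0 ≤ w → ∀ (e : ℕ) (z D : ℝ), w ≤ z → 0 < D → Real.log D ≤ K * Real.log w →
      (1 ≤ Real.log D / Real.log z → Real.log D / Real.log z ≤ 3 →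
        LS.W true D ((LS.PI w z).erase e) g1 ≤
          Real.log w / Real.log z * (LS.AA / (Real.log D / Real.log z) + ε)) ∧
      (2 ≤ Real.log D / Real.log z → Real.log D / Real.log z ≤ 4 →
        Real.log w / Real.log z * (LS.AA * Real.log (Real.log D / Real.log z - 1) /
          (Real.log D / Real.log z) - ε) ≤ LS.W false D ((LS.PI w z).erase e) g1) := by
  obtain ⟨C, hC, hdim⟩ := dim_erase
  obtain ⟨w0, hw0, H⟩ := Pool.Agent.H90.LS.linear_sieve_small C K ε hC hε
  refine ⟨max w0 (Real.exp 2), lt_of_lt_of_le hw0 (le_max_left _ _), ?_⟩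
  intro w hw e z D hwz hD hDK
  have hw1 : w0 ≤ w := (le_max_left _ _).trans hw
  have hw2 : Real.exp 2 ≤ w := (le_max_right _ _).trans hw
  have hwpos : 0 < w := lt_of_lt_of_le (Real.exp_pos 2) hw2
  have hω : 2 ≤ Real.log w := (Real.le_log_iff_exp_le hwpos).mpr hw2
  have h := H w hw1 (gE e) (hdim _ hω e) z D hwz hD hDK
  have h0 : ∀ p ∈ LS.PI w z, p ≠ 0 := fun p hp => (Pool.Agent.H90.LS.mem_PI.mp hp).1.ne_zero
  rw [W_gE true D _ h0 e, W_gE false D _ h0 e]
  exact h

end Pool.Agent.H16
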