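import Pool.Agent.H16.PG4

/-!
Numerical lower bound for the number of candidates.
-/

set_option autoImplicit false

open Finset Filter Topology

namespace Pool.Agent.H16

lemma squarefree_WD (z e : ℕ) (D : Finset ℕ) (hD : ∀ p ∈ D, p.Prime ∧ z < p) :
    Squarefree (WW z e * ∏ p ∈ D, p) := by
  rw [Nat.squarefree_mul]
  · refine ⟨squarefree_WW z e, ?_⟩
    apply Finset.squarefree_prod_of_pairwise_isCoprime
    · intro p hp q hq hpq
      exact (Nat.coprime_iff_isRelPrime.mp ((Nat.coprime_primes (hD p hp).1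
        (hD q hq).1).mpr hpq))
    · intro p hp; exact (hD p hp).1.squarefree
  · apply Nat.Coprime.prod_right
    intro p hp
    exact coprime_WW_prime (hD p hp).1 (hD p hp).2

theorem G_lower_num (hM : MollSmall) : ∃ cG : ℝ, 0 < cG ∧ ∀ P0 : ℕ, ∀ᶠ ℓ : ℝ in atTop,
    ∃ e : ℕ, (e = 1 ∨ (e.Prime ∧ P0 < e)) ∧ ∀ t A0 : ℕ, Nat.Coprime A0 (WW (zf ℓ) e) →
    cG * (Real.exp ℓ / WW (zf ℓ) e * (Real.log (zf ℓ) / ℓ) ^ 2) ≤
      #(GG ℓ (zf ℓ) (yf ℓ 7500) e t A0) := by
  classical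
  obtain ⟨c, hc, hcV⟩ := Vp_ge
  refine ⟨c / 1600, by positivity, fun P0 => ?_⟩
  obtain ⟨L0, hL0⟩ := E_bound hM 4 (by norm_num) (4 ^ P0)
  filter_upwards [eventually_ge_atTop L0, ev_z, ev_yf 7500 (by norm_num), ev_W 1 one_pos, X_ge,
    eventually_ge_atTop (1600 / c ^ 2), eventually_ge_atTop (10 : ℝ)]
    with ℓ hℓL hz hyf hW hX hℓc hℓ10
  obtain ⟨z1, z2, z3, z4, z5, z6⟩ := hz
  obtain ⟨y1, y2, y3, y4⟩ := hyf
  obtain ⟨q₁, hq₁, hE⟩ := hL0 ℓ hℓL
  obtain ⟨e, he, hexc⟩ := exc_prime P0 q₁ hq₁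
  refine ⟨e, he, fun t A0 hA0 => ?_⟩
  have hℓ0 : 0 < ℓ := by linarith
  set z := zf ℓ with hzdef
  set y := yf ℓ 7500 with hydef
  set x := Real.exp ℓ with hx
  have hx0 : 0 < x := Real.exp_pos _
  have hzl := zw_large z z1
  have hz2 : 2 ≤ z := by
    have : (2 : ℝ) ≤ z := by linarith
    exact_mod_cast this
  have hz100 : 100 ≤ z := by
    have : (100 : ℝ) ≤ z := by linarith
    exact_mod_cast this
  have hlz0 : 0 < Real.log z := by linarith
  have hlz1 : 1 ≤ Real.log z := by linarith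
  have hy0 : (0 : ℝ) < y := by
    have : (z : ℝ) < y := by exact_mod_cast y4
    linarith
  have hlyℓ : Real.log y ≤ ℓ := by
    have h1 : Real.log y ≤ ℓ / (7500 : ℕ) := by
      calc Real.log y ≤ Real.log (Real.exp (ℓ / (7500 : ℕ))) := Real.log_le_log hy0 y2
        _ = _ := Real.log_exp _
    push_cast at h1
    linarith
  have hly0 : 0 < Real.log y := by
    have : 0 < ℓ / (2 * (7500 : ℕ)) := by positivity
    linarith
  have hWpos : (0 : ℝ) < WW z e := by exact_mod_cast WW_pos z e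
  have hφpos : (0 : ℝ) < ((WW z e).totient : ℝ) := by
    exact_mod_cast Nat.totient_pos.mpr (WW_pos z e)
  have hPS : ∀ p ∈ PS z y e t, p.Prime ∧ z < p ∧ p ≤ y ∧ p ≠ e ∧ ¬ p ∣ t := by
    intro p hp
    rw [mem_PS] at hp
    tauto
  have hPW : ∀ p ∈ PS z y e t, ¬ p ∣ WW z e := by
    intro p hp hd
    obtain ⟨h1, h2, _⟩ := hPS p hp
    have := (prime_dvd_WW h1).mp hd
    omega
  -- remainder
  have hEb := hE (WW z e) (WW_pos z e) (hW e).1 y
    (by
      calc (y : ℝ) ^ 25 ≤ (Real.exp (ℓ / (7500 : ℕ))) ^ 25 := pow_le_pow_left₀ hy0.le y2 25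
        _ = Real.exp (ℓ / 300) := by
            rw [← Real.exp_nat_mul]; congr 1; push_cast; ring)
    (by
      intro p hp hpW
      have := (prime_dvd_WW hp).mp hpW
      omega)
    (PS z y e t) (fun p hp => (hPS p hp).1)
    (fun p hp => by have := (hPS p hp).2.1; omega) (fun p hp => (hPS p hp).2.2.1) hPW
    (by
      intro D hD
      apply hexc
      · exact squarefree_WD z e D (fun p hp => ⟨(hPS p (hD hp)).1, (hPS p (hD hp)).2.1⟩)
      · rcases he with he1 | ⟨hep, _⟩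
        · exact Or.inl he1
        · right
          intro hd
          rcases (Nat.Prime.dvd_mul hep).mp hd with h | h
          · exact ((prime_dvd_WW hep).mp h).2 rfl
          · rw [Prime.dvd_finsetProd_iff hep.prime] at h
            obtain ⟨q, hq, hqe⟩ := h
            have h1 := (Nat.prime_dvd_prime_iff_eq hep (hPS q (hD hq)).1).mp hqe
            exact (hPS q (hD hq)).2.2.2.1 h1.symm)
    A0 t hA0 (fun p hp => (hPS p hp).2.2.2.2)
  have hlow := G_lower ℓ hℓ0.le z y e t A0 z1 y4.le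
  set E := ∑ D ∈ (PS z y e t).powerset.filter (fun D => (∏ p ∈ D, p) ≤ y ^ 25),
      |RD ((Ioc 0 ⌊x⌋₊).filter (fun n => n ≡ A0 [MOD WW z e])) (aw ℓ y)
        (fun n p => if p ∣ n + t then 1 else 0)
        ((∑ n ∈ Ioc 0 ⌊x⌋₊, aw ℓ y n) / ((WW z e).totient : ℝ))
        (fun p => 1 / ((p : ℝ) - 1)) D| with hEdef
  -- sieve products
  set Q := ∏ p ∈ primesIoc z y, (1 - 1 / (p : ℝ)) with hQ
  have hQmul := Vp_mul z y y4.le
  have hVz := Vp_pos z
  have hVz2 := Vp_le z hz2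
  have hVy := hcV y (by omega)
  have hQ0 : 0 < Q := Finset.prod_pos (fun p hp => one_sub_inv_pos (mem_primesIoc.mp hp).2.2)
  have hQlow : c * (Real.log z / Real.log y) ≤ Q := by
    have h1 : c / Real.log y ≤ 1 / Real.log z * Q := by
      calc c / Real.log y ≤ Vp y := hVy
        _ = Vp z * Q := hQmul.symm
        _ ≤ 1 / Real.log z * Q := mul_le_mul_of_nonneg_right hVz2 hQ0.le
    calc c * (Real.log z / Real.log y) = Real.log z * (c / Real.log y) := by ring
      _ ≤ Real.log z * (1 / Real.log z * Q) := mul_le_mul_of_nonneg_left h1 hlz0.le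
      _ = Q := by field_simp
  have hQlow' : c * (Real.log z / ℓ) ≤ Q := by
    refine le_trans ?_ hQlow
    apply mul_le_mul_of_nonneg_left _ hc.le
    exact div_le_div_of_nonneg_left hlz0.le hly0 hlyℓ
  have hPi1 := prod_g_ge z y hz100 (PS z y e t) (Finset.filter_subset _ _)
  have hPi2 : ∏ p ∈ PS z y e t, (1 + 1 / ((p : ℝ) - 1)) ≤ ℓ / c := by
    have h1 : ∏ p ∈ PS z y e t, (1 + 1 / ((p : ℝ) - 1)) = (∏ p ∈ PS z y e t, (1 - 1 / (p : ℝ)))⁻¹ := by
      rw [← Finset.prod_inv_distrib]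
      apply Finset.prod_congr rfl
      intro p hp
      have hp1 : (1 : ℝ) < p := by exact_mod_cast (hPS p hp).1.one_lt
      have h2 : (p : ℝ) - 1 ≠ 0 := by linarith
      have h3 : (p : ℝ) ≠ 0 := by linarith
      field_simp
      ring
    have h2 : Q ≤ ∏ p ∈ PS z y e t, (1 - 1 / (p : ℝ)) := by
      have hsub : PS z y e t ⊆ primesIoc z y := Finset.filter_subset _ _
      rw [hQ, ← Finset.prod_sdiff hsub]
      have hpos : 0 < ∏ p ∈ PS z y e t, (1 - 1 / (p : ℝ)) :=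
        Finset.prod_pos (fun p hp => one_sub_inv_pos (hPS p hp).1)
      exact mul_le_of_le_one_left hpos.le (prod_one_sub_le_one _)
    rw [h1]
    have h3 : c / ℓ ≤ Q := by
      refine le_trans ?_ hQlow'
      rw [mul_div_assoc']
      apply div_le_div_of_nonneg_right _ hℓ0.le
      nlinarith
    calc (∏ p ∈ PS z y e t, (1 - 1 / (p : ℝ)))⁻¹ ≤ (c / ℓ)⁻¹ := by
          apply inv_anti₀ (by positivity) (h3.trans h2)
      _ = ℓ / c := inv_div _ _
  have hXb := hX y (by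
    refine y2.trans ?_
    have h1 : Real.exp (ℓ / (7500 : ℕ)) ≤ Real.exp (ℓ - 6) := by
      apply Real.exp_le_exp.mpr
      push_cast
      linarith
    have h2 : Real.exp (ℓ - 6) = x / Real.exp 6 := by rw [Real.exp_sub]
    have h3 : (100 : ℝ) ≤ Real.exp 6 := by
      have e1 : Real.exp 6 = Real.exp 1 ^ 6 := by rw [← Real.exp_nat_mul]; norm_num
      have e2 : (2.7 : ℝ) ^ 6 ≤ Real.exp 1 ^ 6 :=
        pow_le_pow_left₀ (by norm_num) (by have := Real.exp_one_gt_d9; linarith) 6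
      have e3 : (100 : ℝ) ≤ 2.7 ^ 6 := by norm_num
      linarith
    calc Real.exp (ℓ / (7500 : ℕ)) ≤ x / Real.exp 6 := h2 ▸ h1
      _ ≤ x / 100 := div_le_div_of_nonneg_left hx0.le (by norm_num) h3)
  -- combine
  set φ : ℝ := ((WW z e).totient : ℝ) with hφ
  have hmain : x / φ * (c / 400 * (Real.log z / ℓ)) ≤
      ((∑ n ∈ Ioc 0 ⌊x⌋₊, aw ℓ y n) / φ) / 2 * ∏ p ∈ PS z y e t, (1 - 1 / ((p : ℝ) - 1)) := by
    have h1 : 1 / 2 * (c * (Real.log z / ℓ)) ≤ ∏ p ∈ PS z y e t, (1 - 1 / ((p : ℝ) - 1)) :=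
      le_trans (mul_le_mul_of_nonneg_left hQlow' (by norm_num)) hPi1
    have h2 : (1 / 100 * x) / φ / 2 ≤ ((∑ n ∈ Ioc 0 ⌊x⌋₊, aw ℓ y n) / φ) / 2 := by
      apply div_le_div_of_nonneg_right _ (by norm_num)
      exact div_le_div_of_nonneg_right hXb hφpos.le
    calc x / φ * (c / 400 * (Real.log z / ℓ)) =
        ((1 / 100 * x) / φ / 2) * (1 / 2 * (c * (Real.log z / ℓ))) := by ring
      _ ≤ _ := by
        apply mul_le_mul h2 h1 (by positivity)
        have : 0 ≤ ∑ n ∈ Ioc 0 ⌊x⌋₊, aw ℓ y n := Finset.sum_nonneg (fun n _ => aw_nonneg ℓ y n)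
        positivity
  have herr : 2 * Real.log y * E ≤ x / φ * (2 / c * (1 / ℓ) ^ 2) := by
    have h1 : E ≤ x * ℓ ^ (-(4 : ℝ)) / φ * (ℓ / c) := by
      refine hEb.trans ?_
      apply mul_le_mul_of_nonneg_left hPi2
      positivity
    have h2 : ℓ ^ (-(4 : ℝ)) = (1 / ℓ) ^ 4 := by
      rw [Real.rpow_neg hℓ0.le, one_div, inv_pow]; norm_cast
    rw [h2] at h1
    have hE0 : 0 ≤ E := Finset.sum_nonneg (fun _ _ => abs_nonneg _)
    calc 2 * Real.log y * E ≤ 2 * ℓ * E := by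
          apply mul_le_mul_of_nonneg_right _ hE0
          linarith
      _ ≤ 2 * ℓ * (x * (1 / ℓ) ^ 4 / φ * (ℓ / c)) := mul_le_mul_of_nonneg_left h1 (by linarith)
      _ = x / φ * (2 / c * (1 / ℓ) ^ 2) := by
          field_simp
  have hsmall : 2 / c * (1 / ℓ) ^ 2 ≤ c / 800 * (Real.log z / ℓ) := by
    have h1 : 1600 / c ≤ c * ℓ := by
      have := mul_le_mul_of_nonneg_left hℓc hc.le
      calc 1600 / c = c * (1600 / c ^ 2) := by field_simp
        _ ≤ _ := this
    have h2 : 2 / c ≤ c * ℓ / 800 := by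
      have e1 : 2 / c = (1600 / c) / 800 := by ring
      rw [e1]; linarith
    calc 2 / c * (1 / ℓ) ^ 2 ≤ c * ℓ / 800 * (1 / ℓ) ^ 2 := mul_le_mul_of_nonneg_right h2 (by positivity)
      _ = c / 800 * (1 / ℓ) := by field_simp
      _ ≤ c / 800 * (Real.log z / ℓ) := by
          apply mul_le_mul_of_nonneg_left _ (by positivity)
          exact div_le_div_of_nonneg_right hlz1 hℓ0.le
  have hxφ : 0 < x / φ := by positivity
  have hcomb : x / φ * (c / 800 * (Real.log z / ℓ)) ≤ ℓ * #(GG ℓ z y e t A0) := by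
    have h1 := mul_le_mul_of_nonneg_left hsmall hxφ.le
    have h2 : x / φ * (c / 400 * (Real.log z / ℓ)) = x / φ * (c / 800 * (Real.log z / ℓ)) +
      x / φ * (c / 800 * (Real.log z / ℓ)) := by ring
    linarith
  have htot := totient_WW_le z e hz2
  have hφW : x / (WW z e) * (Real.log z / 2) ≤ x / φ := by
    rw [div_mul_div_comm, div_le_div_iff₀ (by positivity) hφpos]
    have : φ * Real.log z ≤ 2 * (WW z e : ℝ) := htot
    calc x * Real.log z * φ = x * (φ * Real.log z) := by ring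
      _ ≤ x * (2 * (WW z e : ℝ)) := mul_le_mul_of_nonneg_left this hx0.le
      _ = x * (↑(WW z e) * 2) := by ring
  have hfin : ℓ * (c / 1600 * (x / (WW z e) * (Real.log z / ℓ) ^ 2)) ≤ ℓ * #(GG ℓ z y e t A0) := by
    calc ℓ * (c / 1600 * (x / (WW z e) * (Real.log z / ℓ) ^ 2)) =
        (x / (WW z e) * (Real.log z / 2)) * (c / 800 * (Real.log z / ℓ)) := by
          have : (WW z e : ℝ) ≠ 0 := hWpos.ne'
          field_simp
          ring
      _ ≤ x / φ * (c / 800 * (Real.log z / ℓ)) := mul_le_mul_of_nonneg_right hφW (by positivity)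
      _ ≤ _ := hcomb
  exact le_of_mul_le_mul_left hfin hℓ0

end Pool.Agent.H16
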