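import Pool.Agent.H16.EB4
import Pool.Agent.H16.LSE
import Pool.Agent.H16.PG5

/-!
Chen's switching: definitions and the reduction of the third sum.
-/

set_option autoImplicit false

open Finset Filter Topology

namespace Pool.Agent.H16

open Pool.Agent.H90 (LS.lam LS.W LS.PI LS.Dim LS.AA)

/-- lower end of the interval for `p1` -/
noncomputable def zR (ℓ : ℝ) : ℝ := Real.exp ((ℓ + 1) / 8)
/-- upper end -/
noncomputable def yR (ℓ : ℝ) : ℝ := 2 * Real.exp (ℓ / 3)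

lemma zR_pos (ℓ : ℝ) : 0 < zR ℓ := Real.exp_pos _
lemma yR_pos (ℓ : ℝ) : 0 < yR ℓ := by unfold yR; positivity

/-- the coefficients of the switched sum -/
noncomputable def BCh (ℓ : ℝ) : ArithmeticFunction ℝ :=
  ⟨fun k => if k = 0 then 0 else ∑ p1 ∈ LS.PI (zR ℓ) (yR ℓ), ∑ p2 ∈ LS.PI (yR ℓ) (√(3 * Real.exp ℓ / p1)),
    if p1 * p2 = k then 1 / Real.log (Real.exp ℓ / (9 * k)) else 0, by simp⟩

lemma BCh_apply (ℓ : ℝ) (k : ℕ) : BCh ℓ k = if k = 0 then 0 else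
    ∑ p1 ∈ LS.PI (zR ℓ) (yR ℓ), ∑ p2 ∈ LS.PI (yR ℓ) (√(3 * Real.exp ℓ / p1)),
    if p1 * p2 = k then 1 / Real.log (Real.exp ℓ / (9 * k)) else 0 := rfl

/-- factor pairs are unique -/
lemma pair_unique {ℓ : ℝ} {a b a' b' : ℕ} (ha : a ∈ LS.PI (zR ℓ) (yR ℓ)) (hb : b.Prime)
    (hby : yR ℓ ≤ b) (ha' : a' ∈ LS.PI (zR ℓ) (yR ℓ)) (hb' : b'.Prime) (hby' : yR ℓ ≤ b')
    (h : a * b = a' * b') : a = a' ∧ b = b' := by
  rw [Pool.Agent.H90.LS.mem_PI] at ha ha'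
  have h1 : a ∣ a' * b' := Dvd.intro b h
  rcases (Nat.Prime.dvd_mul ha.1).mp h1 with h2 | h2
  · have h3 := (Nat.prime_dvd_prime_iff_eq ha.1 ha'.1).mp h2
    subst h3
    exact ⟨rfl, Nat.eq_of_mul_eq_mul_left ha.1.pos h⟩
  · have h3 := (Nat.prime_dvd_prime_iff_eq ha.1 hb').mp h2
    subst h3
    linarith [ha.2.2]

/-- facts about `k` with nonzero coefficient -/
lemma BCh_ne_zero {ℓ : ℝ} {k : ℕ} (h : BCh ℓ k ≠ 0) : ∃ p1 p2 : ℕ, p1 ∈ LS.PI (zR ℓ) (yR ℓ) ∧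
    p2 ∈ LS.PI (yR ℓ) (√(3 * Real.exp ℓ / p1)) ∧ p1 * p2 = k := by
  rw [BCh_apply] at h
  split_ifs at h with h0
  · exact absurd rfl h
  · obtain ⟨p1, h1, h2⟩ := Finset.exists_ne_zero_of_sum_ne_zero h
    obtain ⟨p2, h3, h4⟩ := Finset.exists_ne_zero_of_sum_ne_zero h2
    split_ifs at h4 with h5
    · exact ⟨p1, p2, h1, h3, h5⟩
    · exact absurd rfl h4

lemma BCh_eq {ℓ : ℝ} {p1 p2 : ℕ} (h1 : p1 ∈ LS.PI (zR ℓ) (yR ℓ))
    (h2 : p2 ∈ LS.PI (yR ℓ) (√(3 * Real.exp ℓ / p1))) :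
    BCh ℓ (p1 * p2) = 1 / Real.log (Real.exp ℓ / (9 * (p1 * p2 : ℕ))) := by
  have hp1 := (Pool.Agent.H90.LS.mem_PI.mp h1)
  have hp2 := (Pool.Agent.H90.LS.mem_PI.mp h2)
  rw [BCh_apply, if_neg (Nat.mul_ne_zero hp1.1.ne_zero hp2.1.ne_zero)]
  rw [Finset.sum_eq_single p1]
  · rw [Finset.sum_eq_single p2]
    · rw [if_pos rfl]
    · intro b hb hne
      rw [if_neg]
      intro h
      have hb' := Pool.Agent.H90.LS.mem_PI.mp hb
      exact hne (pair_unique h1 hb'.1 hb'.2.1 h1 hp2.1 hp2.2.1 h).2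
    · intro h; exact absurd h2 h
  · intro a ha hne
    apply Finset.sum_eq_zero
    intro b hb
    rw [if_neg]
    intro h
    have hb' := Pool.Agent.H90.LS.mem_PI.mp hb
    exact hne (pair_unique ha hb'.1 hb'.2.1 h1 hp2.1 hp2.2.1 h).1
  · intro h; exact absurd h1 h

lemma k_bounds {ℓ : ℝ} (hℓ : 0 ≤ ℓ) {p1 p2 : ℕ} (h1 : p1 ∈ LS.PI (zR ℓ) (yR ℓ))
    (h2 : p2 ∈ LS.PI (yR ℓ) (√(3 * Real.exp ℓ / p1))) :
    ((p1 * p2 : ℕ) : ℝ) ≤ 3 * Real.exp (2 / 3 * ℓ) ∧ zR ℓ * yR ℓ ≤ ((p1 * p2 : ℕ) : ℝ) := by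
  rw [Pool.Agent.H90.LS.mem_PI] at h1 h2
  obtain ⟨h1p, h1a, h1b⟩ := h1
  obtain ⟨h2p, h2a, h2b⟩ := h2
  have hp1 : (0 : ℝ) < p1 := by exact_mod_cast h1p.pos
  have hp2 : (0 : ℝ) < p2 := by exact_mod_cast h2p.pos
  push_cast
  constructor
  · have h3 : (p2 : ℝ) ^ 2 * p1 ≤ 3 * Real.exp ℓ := by
      have h4 : (p2 : ℝ) ^ 2 ≤ 3 * Real.exp ℓ / p1 := by
        have := pow_le_pow_left₀ hp2.le h2b.le 2
        rwa [Real.sq_sqrt (by positivity)] at this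
      rwa [le_div_iff₀ hp1] at h4
    have h5 : ((p1 : ℝ) * p2) ^ 2 ≤ (3 * Real.exp (2 / 3 * ℓ)) ^ 2 := by
      calc ((p1 : ℝ) * p2) ^ 2 = p1 * ((p2 : ℝ) ^ 2 * p1) := by ring
        _ ≤ (2 * Real.exp (ℓ / 3)) * (3 * Real.exp ℓ) := by
            exact mul_le_mul h1b.le h3 (mul_nonneg (sq_nonneg _) hp1.le) (yR_pos ℓ).le
        _ = 6 * (Real.exp (ℓ / 3) * Real.exp ℓ) := by ring
        _ = 6 * (Real.exp (2 / 3 * ℓ) * Real.exp (2 / 3 * ℓ)) := by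
            rw [← Real.exp_add, ← Real.exp_add]; congr 2; ring
        _ ≤ 9 * (Real.exp (2 / 3 * ℓ) * Real.exp (2 / 3 * ℓ)) := by
            apply mul_le_mul_of_nonneg_right (by norm_num) (by positivity)
        _ = _ := by ring
    exact (pow_le_pow_iff_left₀ (by positivity) (by positivity) (by norm_num)).mp h5
  · exact mul_le_mul h1a h2a (yR_pos ℓ).le hp1.le

/-- products of three primes -/
def chi3 (ℓ : ℝ) (m : ℕ) : Prop := ∃ p1 p2 p3 : ℕ, p1.Prime ∧ p2.Prime ∧ p3.Prime ∧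
  zR ℓ ≤ p1 ∧ (p1 : ℝ) < yR ℓ ∧ yR ℓ ≤ p2 ∧ p2 ≤ p3 ∧ m = p1 * p2 * p3

/-- lower bound for the switched weight -/
lemma wB_lower {ℓ : ℝ} (hℓ : 30 ≤ ℓ) {U m : ℕ} (hU : (U : ℝ) < yR ℓ) (hm : chi3 ℓ m)
    (hm9 : Real.exp ℓ / 9 < m) (hm3 : (m : ℝ) < 3 * Real.exp ℓ) :
    tent (Real.exp ℓ / 3) m ≤ wB ℓ (BCh ℓ) U m := by
  obtain ⟨p1, p2, p3, hp1, hp2, hp3, ha, hb, hc, hd, rfl⟩ := hm
  have hℓ0 : 0 < ℓ := by linarith
  have h1 : p1 ∈ LS.PI (zR ℓ) (yR ℓ) := Pool.Agent.H90.LS.mem_PI.mpr ⟨hp1, ha, hb⟩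
  have hp1' : (0 : ℝ) < p1 := by exact_mod_cast hp1.pos
  have hp2' : (0 : ℝ) < p2 := by exact_mod_cast hp2.pos
  have hp3' : (0 : ℝ) < p3 := by exact_mod_cast hp3.pos
  have hd' : (p2 : ℝ) ≤ p3 := by exact_mod_cast hd
  push_cast at hm9 hm3
  have h2 : p2 ∈ LS.PI (yR ℓ) (√(3 * Real.exp ℓ / p1)) := by
    rw [Pool.Agent.H90.LS.mem_PI]
    refine ⟨hp2, hc, ?_⟩
    apply Real.lt_sqrt_of_sq_lt
    rw [lt_div_iff₀ hp1']
    calc (p2 : ℝ) ^ 2 * p1 = p1 * p2 * p2 := by ring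
      _ ≤ p1 * p2 * p3 := mul_le_mul_of_nonneg_left hd' (by positivity)
      _ < _ := hm3
  have hkb := (k_bounds hℓ0.le h1 h2).1
  set k := p1 * p2 with hk
  have hk0 : (0 : ℝ) < (k : ℕ) := by rw [hk]; push_cast; positivity
  -- log bound
  have hlogpos : 1 ≤ Real.log (Real.exp ℓ / (9 * (k : ℕ))) := by
    rw [Real.le_log_iff_exp_le (by positivity), le_div_iff₀ (by positivity)]
    have e1 : Real.exp 1 ≤ 3 := by have := Real.exp_one_lt_d9; linarith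
    have e2 : (81 : ℝ) ≤ Real.exp (ℓ / 3) := by
      have h3 : Real.exp 10 ≤ Real.exp (ℓ / 3) := Real.exp_le_exp.mpr (by linarith)
      have h4 : (81 : ℝ) ≤ Real.exp 10 := by
        have h5 : Real.exp 10 = Real.exp 1 ^ 10 := by rw [← Real.exp_nat_mul]; norm_num
        rw [h5]
        calc (81 : ℝ) ≤ 2 ^ 10 := by norm_num
          _ ≤ _ := pow_le_pow_left₀ (by norm_num) (by have := Real.exp_one_gt_d9; linarith) 10
      linarith
    calc Real.exp 1 * (9 * (k : ℕ)) ≤ 3 * (9 * (3 * Real.exp (2 / 3 * ℓ))) := by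
          apply mul_le_mul e1 _ (by positivity) (by norm_num)
          linarith
      _ = 81 * Real.exp (2 / 3 * ℓ) := by ring
      _ ≤ Real.exp (ℓ / 3) * Real.exp (2 / 3 * ℓ) := mul_le_mul_of_nonneg_right e2 (Real.exp_pos _).le
      _ = Real.exp ℓ := by rw [← Real.exp_add]; congr 1; ring
  have hlog3 : Real.log (Real.exp ℓ / (9 * (k : ℕ))) ≤ Real.log p3 := by
    apply Real.log_le_log (by positivity)
    rw [div_le_iff₀ (by positivity)]
    have e3 : ((k : ℕ) : ℝ) = p1 * p2 := by rw [hk]; push_cast; ring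
    rw [e3]
    linarith
  have hB := BCh_eq h1 h2
  rw [← hk] at hB
  have hterm : 1 ≤ BCh ℓ k * thR U p3 := by
    rw [hB, thR_apply, if_pos ⟨hp3, by
      have : (U : ℝ) < p3 := by linarith
      exact_mod_cast this⟩, one_div, ← div_eq_inv_mul, le_div_iff₀ (by linarith), one_mul]
    exact hlog3
  have hBnn : ∀ n, 0 ≤ BCh ℓ n := by
    intro n
    by_cases h0 : BCh ℓ n = 0
    · rw [h0]
    · obtain ⟨q1, q2, hq1, hq2, rfl⟩ := BCh_ne_zero h0
      rw [BCh_eq hq1 hq2]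
      have hq := (k_bounds hℓ0.le hq1 hq2).1
      have hq1' := Pool.Agent.H90.LS.mem_PI.mp hq1
      have hq2' := Pool.Agent.H90.LS.mem_PI.mp hq2
      have hq0 : (0 : ℝ) < ((q1 * q2 : ℕ) : ℝ) := by
        exact_mod_cast Nat.mul_pos hq1'.1.pos hq2'.1.pos
      apply div_nonneg zero_le_one
      apply Real.log_nonneg
      rw [le_div_iff₀ (by positivity), one_mul]
      have e2 : (27 : ℝ) ≤ Real.exp (ℓ / 3) := by
        have h3 := Real.add_one_le_exp (ℓ / 3)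
        have h3 : Real.exp 10 ≤ Real.exp (ℓ / 3) := Real.exp_le_exp.mpr (by linarith)
        have h4 : (81 : ℝ) ≤ Real.exp 10 := by
          have h5 : Real.exp 10 = Real.exp 1 ^ 10 := by rw [← Real.exp_nat_mul]; norm_num
          rw [h5]
          calc (81 : ℝ) ≤ 2 ^ 10 := by norm_num
            _ ≤ _ := pow_le_pow_left₀ (by norm_num) (by have := Real.exp_one_gt_d9; linarith) 10
        linarith
      calc 9 * ((q1 * q2 : ℕ) : ℝ) ≤ 9 * (3 * Real.exp (2 / 3 * ℓ)) := by linarith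
        _ = 27 * Real.exp (2 / 3 * ℓ) := by ring
        _ ≤ Real.exp (ℓ / 3) * Real.exp (2 / 3 * ℓ) := mul_le_mul_of_nonneg_right e2 (Real.exp_pos _).le
        _ = Real.exp ℓ := by rw [← Real.exp_add]; congr 1; ring
  have hconv : 1 ≤ (BCh ℓ * thR U) (k * p3) := by
    rw [ArithmeticFunction.mul_apply]
    refine hterm.trans ?_
    refine Finset.single_le_sum (f := fun x : ℕ × ℕ => BCh ℓ x.1 * thR U x.2)
      (fun x _ => mul_nonneg (hBnn _) (thR_nonneg _ _)) (a := (k, p3)) ?_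
    rw [Nat.mem_divisorsAntidiagonal]
    exact ⟨rfl, Nat.mul_ne_zero (by rw [hk]; exact Nat.mul_ne_zero hp1.ne_zero hp2.ne_zero)
      hp3.ne_zero⟩
  unfold wB
  exact le_mul_of_one_le_left (tent_nonneg _ _ (by positivity) (by
    have : 0 < k * p3 := Nat.mul_pos (by rw [hk]; exact Nat.mul_pos hp1.pos hp2.pos) hp3.pos
    exact_mod_cast this)) hconv

lemma exp10 {ℓ : ℝ} (hℓ : 30 ≤ ℓ) : (81 : ℝ) ≤ Real.exp (ℓ / 3) := by
  have h3 : Real.exp 10 ≤ Real.exp (ℓ / 3) := Real.exp_le_exp.mpr (by linarith)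
  have h4 : (81 : ℝ) ≤ Real.exp 10 := by
    have h5 : Real.exp 10 = Real.exp 1 ^ 10 := by rw [← Real.exp_nat_mul]; norm_num
    rw [h5]
    calc (81 : ℝ) ≤ 2 ^ 10 := by norm_num
      _ ≤ _ := pow_le_pow_left₀ (by norm_num) (by have := Real.exp_one_gt_d9; linarith) 10
  linarith

lemma log_k_ge_one {ℓ : ℝ} (hℓ : 30 ≤ ℓ) {p1 p2 : ℕ} (h1 : p1 ∈ LS.PI (zR ℓ) (yR ℓ))
    (h2 : p2 ∈ LS.PI (yR ℓ) (√(3 * Real.exp ℓ / p1))) :
    1 ≤ Real.log (Real.exp ℓ / (9 * ((p1 * p2 : ℕ) : ℝ))) := by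
  have hkb := (k_bounds (by linarith) h1 h2).1
  have hq1' := Pool.Agent.H90.LS.mem_PI.mp h1
  have hq2' := Pool.Agent.H90.LS.mem_PI.mp h2
  have hk0 : (0 : ℝ) < ((p1 * p2 : ℕ) : ℝ) := by
    exact_mod_cast Nat.mul_pos hq1'.1.pos hq2'.1.pos
  rw [Real.le_log_iff_exp_le (by positivity), le_div_iff₀ (by positivity)]
  have e1 : Real.exp 1 ≤ 3 := by have := Real.exp_one_lt_d9; linarith
  have e2 := exp10 hℓ
  calc Real.exp 1 * (9 * ((p1 * p2 : ℕ) : ℝ)) ≤ 3 * (9 * (3 * Real.exp (2 / 3 * ℓ))) := by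
        apply mul_le_mul e1 _ (by positivity) (by norm_num)
        linarith
    _ = 81 * Real.exp (2 / 3 * ℓ) := by ring
    _ ≤ Real.exp (ℓ / 3) * Real.exp (2 / 3 * ℓ) := mul_le_mul_of_nonneg_right e2 (Real.exp_pos _).le
    _ = Real.exp ℓ := by rw [← Real.exp_add]; congr 1; ring

lemma BCh_nonneg {ℓ : ℝ} (hℓ : 30 ≤ ℓ) (n : ℕ) : 0 ≤ BCh ℓ n := by
  by_cases h0 : BCh ℓ n = 0
  · rw [h0]
  · obtain ⟨q1, q2, hq1, hq2, rfl⟩ := BCh_ne_zero h0
    rw [BCh_eq hq1 hq2]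
    have := log_k_ge_one hℓ hq1 hq2
    exact div_nonneg zero_le_one (by linarith)

lemma BCh_le_one {ℓ : ℝ} (hℓ : 30 ≤ ℓ) (n : ℕ) : BCh ℓ n ≤ 1 := by
  by_cases h0 : BCh ℓ n = 0
  · rw [h0]; norm_num
  · obtain ⟨q1, q2, hq1, hq2, rfl⟩ := BCh_ne_zero h0
    rw [BCh_eq hq1 hq2]
    have := log_k_ge_one hℓ hq1 hq2
    rw [div_le_one (by linarith)]
    exact this

/-- **The switch.** -/
theorem S3_switch {ℓ : ℝ} (hℓ : 30 ≤ ℓ) (y W A0 t U : ℕ) (b : ℕ → ℕ) (hb : ∀ p, b p = t)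
    (hU : (U : ℝ) < yR ℓ)
    (P1 P3 : Finset ℕ) (h1 : ∀ p ∈ P1, p.Prime ∧ p ≤ y) (h3 : ∀ p ∈ P3, p.Prime ∧ p ≤ y) :
    ∑ n ∈ (Ioc 0 ⌊Real.exp ℓ⌋₊).filter (fun n => n ≡ A0 [MOD W]),
      aw ℓ y n * (open Classical in if chi3 ℓ (n + t) then 1 else 0) ≤
    ℓ * ∑ m ∈ (Ioc 0 ⌊Real.exp ℓ⌋₊).filter (fun m => m ≡ A0 + t [MOD W]),
      wB ℓ (BCh ℓ) U m * ((∏ p ∈ P1, (1 - cb b m p)) * ∏ p ∈ P3, (1 - cb b m p)) + 9 * ℓ * t := by
  classical
  set N := ⌊Real.exp ℓ⌋₊ with hN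
  have hℓ0 : 0 < ℓ := by linarith
  have hx0 : (0 : ℝ) < Real.exp ℓ := Real.exp_pos _
  have hNx : (N : ℝ) ≤ Real.exp ℓ := Nat.floor_le hx0.le
  set S := (Ioc 0 N).filter (fun n => n ≡ A0 [MOD W]) with hS
  set S' := (Ioc 0 N).filter (fun m => m ≡ A0 + t [MOD W]) with hS'
  set F : ℕ → ℝ := fun m => wB ℓ (BCh ℓ) U m * ((∏ p ∈ P1, (1 - cb b m p)) * ∏ p ∈ P3, (1 - cb b m p))
    with hF
  have hF0 : ∀ m, 0 ≤ F m := by
    intro m
    apply mul_nonneg (wB_nonneg ℓ _ (BCh_nonneg hℓ) U m)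
    apply mul_nonneg
    · exact Finset.prod_nonneg (fun p _ => by linarith [cb_le_one b m p])
    · exact Finset.prod_nonneg (fun p _ => by linarith [cb_le_one b m p])
  set G : ℕ → ℝ := fun n => if n + t ∈ S' then F (n + t) else 0 with hG
  have hpt : ∀ n ∈ S, aw ℓ y n * (if chi3 ℓ (n + t) then (1 : ℝ) else 0) ≤ ℓ * G n + ℓ * (9 * t / Real.exp ℓ) := by
    intro n hn
    rw [hS, Finset.mem_filter, Finset.mem_Ioc] at hn
    have hG0 : 0 ≤ G n := by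
      rw [hG]; simp only; split_ifs
      · exact hF0 _
      · exact le_rfl
    have hrest : 0 ≤ ℓ * G n + ℓ * (9 * t / Real.exp ℓ) := by positivity
    split_ifs with hchi
    swap
    · rw [mul_zero]; exact hrest
    rw [mul_one]
    by_cases h0 : aw ℓ y n = 0
    · rw [h0]; exact hrest
    obtain ⟨hnp, hny, hn9⟩ := aw_ne_zero h0
    have hn0 : (0 : ℝ) < n := by exact_mod_cast hnp.pos
    have hnx : (n : ℝ) ≤ Real.exp ℓ := by
      have : (n : ℝ) ≤ N := by exact_mod_cast hn.1.2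
      linarith
    have hawl : aw ℓ y n ≤ ℓ * tent (Real.exp ℓ / 3) n := by
      unfold aw
      rw [if_pos ⟨hnp, hny⟩]
      apply mul_le_mul_of_nonneg_right _ (tent_nonneg _ _ (by positivity) hn0)
      rw [Real.log_le_iff_le_exp hn0]; exact hnx
    have hm0 : (0 : ℝ) < ((n + t : ℕ) : ℝ) := by push_cast; positivity
    have hnm : (n : ℝ) ≤ ((n + t : ℕ) : ℝ) := by push_cast; linarith [(Nat.cast_nonneg t : (0 : ℝ) ≤ t)]
    have hlip := tent_lip (Real.exp ℓ / 3) n ((n + t : ℕ) : ℝ) (by positivity) hn0 hnm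
    have hlogdiff : Real.log ((n + t : ℕ) : ℝ) - Real.log n ≤ 9 * t / Real.exp ℓ := by
      rw [← Real.log_div hm0.ne' hn0.ne']
      have h5 := Real.log_le_sub_one_of_pos (show 0 < ((n + t : ℕ) : ℝ) / n by positivity)
      refine h5.trans ?_
      have h6 : ((n + t : ℕ) : ℝ) / n - 1 = t / n := by push_cast; field_simp; ring
      rw [h6, div_le_div_iff₀ hn0 hx0]
      have h7 : Real.exp ℓ ≤ 9 * n := by linarith
      have h8 := mul_le_mul_of_nonneg_left h7 (Nat.cast_nonneg t : (0 : ℝ) ≤ t)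
      linarith
    have h2 := (abs_le.mp hlip).1
    have htent : tent (Real.exp ℓ / 3) n ≤ tent (Real.exp ℓ / 3) ((n + t : ℕ) : ℝ) + 9 * t / Real.exp ℓ := by
      linarith
    have hmain : tent (Real.exp ℓ / 3) ((n + t : ℕ) : ℝ) ≤ G n := by
      by_cases ht0 : tent (Real.exp ℓ / 3) ((n + t : ℕ) : ℝ) = 0
      · rw [ht0]; exact hG0
      have hsupp := tent_supp (Real.exp ℓ / 3) ((n + t : ℕ) : ℝ) (by positivity) hm0 ht0
      have hmx : ((n + t : ℕ) : ℝ) ≤ Real.exp ℓ := by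
        have he : Real.exp 1 < 3 := by have := Real.exp_one_lt_d9; linarith
        have h9 : Real.exp 1 * (Real.exp ℓ / 3) ≤ 3 * (Real.exp ℓ / 3) :=
          mul_le_mul_of_nonneg_right he.le (by positivity)
        linarith [hsupp.2]
      have hmS : n + t ∈ S' := by
        rw [hS', Finset.mem_filter, Finset.mem_Ioc]
        refine ⟨⟨by have := hnp.pos; omega, Nat.le_floor hmx⟩, ?_⟩
        exact Nat.ModEq.add_right t hn.2
      rw [hG]
      simp only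
      rw [if_pos hmS]
      have hnd : ∀ p, p.Prime → p ≤ y → cb b (n + t) p = 0 := by
        intro p hp hpy
        unfold cb
        rw [if_neg]
        intro hmod
        rw [hb p] at hmod
        have h10 : n + t ≡ 0 + t [MOD p] := by rw [zero_add]; exact hmod
        have h11 : n ≡ 0 [MOD p] := Nat.ModEq.add_right_cancel' t h10
        have h12 := Nat.modEq_zero_iff_dvd.mp h11
        have h13 := (Nat.prime_dvd_prime_iff_eq hp hnp).mp h12
        omega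
      have hp1 : ∏ p ∈ P1, (1 - cb b (n + t) p) = 1 := by
        apply Finset.prod_eq_one
        intro p hp
        rw [hnd p (h1 p hp).1 (h1 p hp).2, sub_zero]
      have hp3 : ∏ p ∈ P3, (1 - cb b (n + t) p) = 1 := by
        apply Finset.prod_eq_one
        intro p hp
        rw [hnd p (h3 p hp).1 (h3 p hp).2, sub_zero]
      rw [hF]
      simp only
      rw [hp1, hp3, mul_one, mul_one]
      apply wB_lower hℓ hU hchi
      · linarith
      · linarith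
    calc aw ℓ y n ≤ ℓ * tent (Real.exp ℓ / 3) n := hawl
      _ ≤ ℓ * (G n + 9 * t / Real.exp ℓ) := mul_le_mul_of_nonneg_left (by linarith) hℓ0.le
      _ = _ := by ring
  refine (Finset.sum_le_sum hpt).trans ?_
  rw [Finset.sum_add_distrib, ← Finset.mul_sum, Finset.sum_const, nsmul_eq_mul]
  apply add_le_add
  · apply mul_le_mul_of_nonneg_left _ hℓ0.le
    rw [hG]
    simp only
    rw [← Finset.sum_filter]
    have hinj : Set.InjOn (fun n : ℕ => n + t) ((S.filter (fun n => n + t ∈ S') : Finset ℕ) : Set ℕ) := by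
      intro a _ b _ hab
      simp only at hab
      omega
    rw [← Finset.sum_image (f := F) hinj]
    apply Finset.sum_le_sum_of_subset_of_nonneg
    · intro m hm
      rw [Finset.mem_image] at hm
      obtain ⟨n, hn, rfl⟩ := hm
      rw [Finset.mem_filter] at hn
      exact hn.2
    · intro m _ _; exact hF0 m
  · have hcard : (#S : ℝ) ≤ Real.exp ℓ := by
      have h5 : #S ≤ N := by
        have := Finset.card_le_card (Finset.filter_subset (fun n => n ≡ A0 [MOD W]) (Ioc 0 N))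
        rw [Nat.card_Ioc] at this
        simpa using this
      have h6 : (#S : ℝ) ≤ N := by exact_mod_cast h5
      linarith
    calc (#S : ℝ) * (ℓ * (9 * t / Real.exp ℓ)) ≤ Real.exp ℓ * (ℓ * (9 * t / Real.exp ℓ)) := by
          apply mul_le_mul_of_nonneg_right hcard (by positivity)
      _ = 9 * ℓ * t := by field_simp

end Pool.Agent.H16
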