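import Pool.Agent.H16.CH9

/-!
The gap theorem of Chen type in the Erdős–Rankin range.
-/

set_option autoImplicit false

open Finset Filter Topology

namespace Pool.Agent.H16

open Pool.Agent.H90 (LS.lam LS.W LS.PI LS.Dim LS.AA)

/-- final set of primes -/
noncomputable def goodChen (u : ℕ) (ℓ : ℝ) (t : ℕ) : Finset ℕ := by
  classical
  exact (Ioc 0 ⌊Real.exp ℓ⌋₊).filter (fun n => n.Prime ∧ IsP2 (n + t) ∧ PRough 8 (n + t) ∧
    ∀ i, 0 < i → i < t → ¬ PRough u (n + i))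

lemma mem_goodChen {u : ℕ} {ℓ : ℝ} {t n : ℕ} : n ∈ goodChen u ℓ t ↔ (0 < n ∧ n ≤ ⌊Real.exp ℓ⌋₊) ∧
    n.Prime ∧ IsP2 (n + t) ∧ PRough 8 (n + t) ∧ ∀ i, 0 < i → i < t → ¬ PRough u (n + i) := by
  classical
  unfold goodChen
  simp only [Finset.mem_filter, Finset.mem_Ioc]

lemma ev_small_chen (c : ℝ) (hc : 0 < c) : ∀ᶠ ℓ : ℝ in atTop,
    Real.exp (ℓ / 150) + ℓ ^ 2 * Real.exp (ℓ / 150) + 2 * Real.exp ℓ * Real.exp (-(ℓ / 7500)) +
      4 * ℓ * (Real.exp ℓ * Real.exp (-(ℓ / 8))) ≤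
      c / 4 * (Real.exp ℓ / Real.exp (1 / 10000 * ℓ) * (1 / ℓ) ^ 2) := by
  have h := isLittleO_rpow_exp_pos_mul_atTop 4 (show (0 : ℝ) < 1 / 30000 by norm_num)
  have h1 := h.bound (show (0 : ℝ) < c / 32 by positivity)
  filter_upwards [h1, eventually_ge_atTop (4 : ℝ)] with ℓ a b
  have hℓ0 : 0 < ℓ := by linarith
  rw [Real.norm_of_nonneg (by positivity), Real.norm_of_nonneg (by positivity)] at a
  have e3 : ℓ ^ (4 : ℝ) = ℓ ^ 4 := by norm_cast
  rw [e3] at a
  set E := Real.exp (7499 / 7500 * ℓ) with hE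
  have hE0 : 0 < E := Real.exp_pos _
  have a1 : Real.exp (ℓ / 150) ≤ E := by apply Real.exp_le_exp.mpr; linarith
  have a2 : Real.exp ℓ * Real.exp (-(ℓ / 7500)) = E := by
    rw [← Real.exp_add]; congr 1; ring
  have a3 : Real.exp ℓ * Real.exp (-(ℓ / 8)) ≤ E := by
    rw [← Real.exp_add]; apply Real.exp_le_exp.mpr; linarith
  have a4 : Real.exp ℓ / Real.exp (1 / 10000 * ℓ) = E * Real.exp (1 / 30000 * ℓ) := by
    rw [← Real.exp_sub, ← Real.exp_add]; congr 1; ring
  have h16 : 1 + ℓ ^ 2 + 2 + 4 * ℓ ≤ 8 * ℓ ^ 2 := by nlinarith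
  calc Real.exp (ℓ / 150) + ℓ ^ 2 * Real.exp (ℓ / 150) + 2 * Real.exp ℓ * Real.exp (-(ℓ / 7500)) +
      4 * ℓ * (Real.exp ℓ * Real.exp (-(ℓ / 8))) ≤ E + ℓ ^ 2 * E + 2 * E + 4 * ℓ * E := by
        have b1 : ℓ ^ 2 * Real.exp (ℓ / 150) ≤ ℓ ^ 2 * E := mul_le_mul_of_nonneg_left a1 (by positivity)
        have b2 : 4 * ℓ * (Real.exp ℓ * Real.exp (-(ℓ / 8))) ≤ 4 * ℓ * E :=
          mul_le_mul_of_nonneg_left a3 (by positivity)
        have b3 : 2 * Real.exp ℓ * Real.exp (-(ℓ / 7500)) = 2 * E := by rw [mul_assoc, a2]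
        linarith
    _ = (1 + ℓ ^ 2 + 2 + 4 * ℓ) * E := by ring
    _ ≤ 8 * ℓ ^ 2 * E := mul_le_mul_of_nonneg_right h16 hE0.le
    _ = 8 * ℓ ^ 4 * E * (1 / ℓ) ^ 2 := by field_simp
    _ ≤ (c / 4 * Real.exp (1 / 30000 * ℓ)) * E * (1 / ℓ) ^ 2 := by
        apply mul_le_mul_of_nonneg_right _ (by positivity)
        apply mul_le_mul_of_nonneg_right _ hE0.le
        linarith
    _ = _ := by rw [a4]; ring

lemma ev_final_chen (c ε : ℝ) (hc : 0 < c) (hε : 0 < ε) : ∀ᶠ ℓ : ℝ in atTop,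
    Real.exp ((1 - ε) * ℓ) ≤ c / 4 * (Real.exp ℓ / Real.exp (ε / 2 * ℓ) * (1 / ℓ) ^ 2) := by
  have h := isLittleO_rpow_exp_pos_mul_atTop 2 (show (0 : ℝ) < ε / 2 by positivity)
  have h1 := h.bound (show (0 : ℝ) < c / 4 by positivity)
  filter_upwards [h1, eventually_ge_atTop (1 : ℝ)] with ℓ a b
  have hℓ0 : 0 < ℓ := by linarith
  rw [Real.norm_of_nonneg (by positivity), Real.norm_of_nonneg (by positivity)] at a
  have e3 : ℓ ^ (2 : ℝ) = ℓ ^ 2 := by norm_cast
  rw [e3] at a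
  have e2 : Real.exp ℓ / Real.exp (ε / 2 * ℓ) = Real.exp ((1 - ε) * ℓ) * Real.exp (ε / 2 * ℓ) := by
    rw [← Real.exp_sub, ← Real.exp_add]; congr 1; ring
  rw [e2]
  calc Real.exp ((1 - ε) * ℓ) = Real.exp ((1 - ε) * ℓ) * (ℓ ^ 2 * (1 / ℓ) ^ 2) := by
        have : ℓ ^ 2 * (1 / ℓ) ^ 2 = 1 := by field_simp
        rw [this, mul_one]
    _ ≤ Real.exp ((1 - ε) * ℓ) * ((c / 4 * Real.exp (ε / 2 * ℓ)) * (1 / ℓ) ^ 2) := by
        apply mul_le_mul_of_nonneg_left _ (Real.exp_pos _).le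
        exact mul_le_mul_of_nonneg_right a (by positivity)
    _ = _ := by ring

theorem many_chen_gaps {T0 c3 : ℝ} (hT : TentCount T0) (hS2 : S2Sum) (hS3 : S3Sum c3) (hc3 : 0 ≤ c3)
    (hc3' : c3 < Real.log (3 / 2)) (u : ℕ) (hu : 7501 ≤ u) : ∃ c : ℝ, 0 < c ∧
    ∀ ε : ℝ, 0 < ε → ∀ᶠ ℓ : ℝ in atTop, ∀ t : ℕ, Even t → 0 < t → (t : ℝ) ≤ c * RS ℓ →
    Real.exp ((1 - ε) * ℓ) ≤ #(goodChen u ℓ t) := by
  classical
  obtain ⟨κ, θ, cG0, k, hκ, hκ1, hθ, hθk, hcG0, hGC⟩ := GC_lower hT hS2 hS3 hc3 hc3'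
  obtain ⟨C2, hC2, hbad⟩ := bad_bounds
  set cG : ℝ := cG0 / 2 with hcGdef
  have hcG : 0 < cG := by positivity
  -- constants
  set K0 : ℝ := 4 * (15000 * C2) ^ 2 with hK0
  have hK0pos : 0 < K0 := by positivity
  obtain ⟨P0, hP0⟩ := exists_nat_ge (4 * K0 / cG)
  have hu0 : (0 : ℝ) < u := by
    have : 0 < u := by omega
    exact_mod_cast this
  set K3 : ℝ := 4 * (C2 * (4 * u)) ^ 3 with hK3
  have hK3pos : 0 < K3 := by positivity
  set ε' : ℝ := cG / (4 * K3) with hε'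
  have hε'pos : 0 < ε' := by positivity
  obtain ⟨c0, hc0, hcov⟩ := cover_eER ε' hε'pos
  obtain ⟨cR, hcR, hRS⟩ := ev_RS c0 hc0
  refine ⟨cR, hcR, fun ε hε => ?_⟩
  filter_upwards [hGC P0, ev_z, tendsto_zf.eventually hcov, hRS,
    ev_yf 7500 (by norm_num), ev_yf (2 * u) (by omega), ev_W (1 / 10000) (by norm_num),
    ev_W (ε / 2) (by positivity), ev_small_chen cG hcG, ev_final_chen cG ε hcG hε,
    eventually_ge_atTop (100000 : ℝ)]
    with ℓ hGℓ hz hcov hRS hyf hyu hW12 hWε hs1 hfin hℓbig t hte ht0 htC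
  obtain ⟨z1, z2, z3, z4, z5, z6⟩ := hz
  obtain ⟨y1, y2, y3, y4⟩ := hyf
  obtain ⟨v1, v2, v3, v4⟩ := hyu
  obtain ⟨hLF, e, he, hGe⟩ := hGℓ
  have hℓ0 : 0 < ℓ := by linarith
  set z := zf ℓ with hzdef
  set y := yf ℓ 7500 with hydef
  set yu := yf ℓ (2 * u) with hyudef
  set x := Real.exp ℓ with hx
  have hx0 : 0 < x := Real.exp_pos _
  have he1 : 1 ≤ e := by
    rcases he with h | ⟨h, _⟩
    · omega
    · exact h.one_le
  have hzl := zw_large z z1
  have hz0 : (0 : ℝ) < z := by linarith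
  have hlz0 : 0 < Real.log z := by linarith
  have hlz1 : 1 ≤ Real.log z := by linarith
  -- the cover
  have htz := htC.trans hRS.1
  have ht54 : (t : ℝ) ≤ ℓ ^ (5 / 4 : ℝ) := htC.trans hRS.2
  have ht2 : (t : ℝ) ≤ ℓ ^ 2 := by
    refine ht54.trans ?_
    calc ℓ ^ (5 / 4 : ℝ) ≤ ℓ ^ (2 : ℝ) :=
          Real.rpow_le_rpow_of_exponent_le (by linarith) (by norm_num)
      _ = ℓ ^ 2 := by norm_cast
  obtain ⟨a, ha, hunc⟩ := hcov e t he1 hte ht0 htz
  obtain ⟨A0, _, hA0⟩ := exists_crt z a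
  have hA0cop : Nat.Coprime A0 (WW z e) := by
    unfold WW
    apply Nat.Coprime.prod_right
    intro p hp
    rw [mem_WWset] at hp
    rw [Nat.coprime_comm, Nat.Prime.coprime_iff_not_dvd hp.1]
    intro hd
    have h1 := (Nat.dvd_add_right hd).mp (hA0 p hp.1 hp.2.1)
    exact (ha p hp.1 hp.2.1).1 (Nat.mod_eq_zero_of_dvd h1)
  have hA0tcop : Nat.Coprime (A0 + t) (WW z e) := by
    unfold WW
    apply Nat.Coprime.prod_right
    intro p hp
    rw [mem_WWset] at hp
    rw [Nat.coprime_comm, Nat.Prime.coprime_iff_not_dvd hp.1]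
    intro hd
    have h1 : A0 + a p ≡ A0 + t [MOD p] :=
      (Nat.modEq_zero_iff_dvd.mpr (hA0 p hp.1 hp.2.1)).trans (Nat.modEq_zero_iff_dvd.mpr hd).symm
    exact (ha p hp.1 hp.2.1).2 (Nat.ModEq.add_left_cancel' A0 h1)
  have hGC0 := hGe t A0 ht0 ht2 hA0cop hA0tcop
  have hGcard0 := hGC0.trans (GC_le_card hℓ0.le e t A0)
  -- t < z^3
  have htz3 : t < z ^ 3 := by
    have h1 : (t : ℝ) < (z : ℝ) ^ 3 := by
      calc (t : ℝ) ≤ ℓ ^ (5 / 4 : ℝ) := ht54
        _ < ℓ ^ (3 / 2 : ℝ) := Real.rpow_lt_rpow_of_exponent_lt (by linarith) (by norm_num)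
        _ = (ℓ ^ (1 / 2 : ℝ)) ^ 3 := by
            rw [← Real.rpow_natCast, ← Real.rpow_mul hℓ0.le]; norm_num
        _ ≤ (z : ℝ) ^ 3 := pow_le_pow_left₀ (by positivity) z6 3
    exact_mod_cast h1
  -- exponent facts
  have hhalf : Real.exp (ℓ / 2) ≤ x / 9 := by
    have h1 : x = Real.exp (ℓ / 2) * Real.exp (ℓ / 2) := by
      rw [hx, ← Real.exp_add]; congr 1; ring
    have h2 : 9 ≤ Real.exp (ℓ / 2) := by
      have := Real.add_one_le_exp (ℓ / 2); linarith
    rw [le_div_iff₀ (by norm_num), h1]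
    exact mul_le_mul_of_nonneg_left h2 (Real.exp_pos _).le
  have hyuu : (yu : ℝ) ^ u ≤ x / 9 := by
    refine le_trans ?_ hhalf
    calc (yu : ℝ) ^ u ≤ (Real.exp (ℓ / (2 * u : ℕ))) ^ u := pow_le_pow_left₀ (Nat.cast_nonneg _) v2 u
      _ = Real.exp (ℓ / 2) := by
          rw [← Real.exp_nat_mul]; congr 1; push_cast; field_simp
  have hyuy : yu ≤ y := by
    apply Nat.floor_le_floor
    apply Real.exp_le_exp.mpr
    apply div_le_div_of_nonneg_left hℓ0.le (by norm_num)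
    exact_mod_cast (show 7500 ≤ 2 * u by omega)
  have hzu : (z : ℝ) ^ u ≤ x / 9 :=
    (pow_le_pow_left₀ hz0.le (by exact_mod_cast v4.le) u).trans hyuu
  have htx : (t : ℝ) ≤ x := by
    have h4 : ℓ * ℓ ≤ x := by
      have h5 : (0 : ℝ) ≤ ℓ / 2 := by positivity
      have h7 : x = Real.exp (ℓ / 2) * Real.exp (ℓ / 2) := by
        rw [hx, ← Real.exp_add]; congr 1; ring
      have h8 := Real.quadratic_le_exp_of_nonneg h5
      have h9 : ℓ ≤ Real.exp (ℓ / 2) := by linarith [sq_nonneg (ℓ - 2)]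
      rw [h7]
      exact mul_le_mul h9 h9 hℓ0.le (Real.exp_pos _).le
    calc (t : ℝ) ≤ ℓ ^ 2 := ht2
      _ = ℓ * ℓ := sq ℓ
      _ ≤ x := h4
  have hexp7500 : 2 < Real.exp (ℓ / 7500) := by
    have := Real.add_one_le_exp (ℓ / 7500)
    linarith
  push_cast at y1 y2
  have hyzR : (y : ℝ) < zR ℓ := by
    refine lt_of_le_of_lt y2 ?_
    unfold zR; apply Real.exp_lt_exp.mpr; linarith
  have hyyy : y ≤ yy ℓ := by
    have h1 := hLF.zy.trans hLF.yh
    have h2 : (y : ℝ) ≤ yy ℓ := hyzR.le.trans h1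
    exact_mod_cast h2
  -- main quantity
  have hWpos : (0 : ℝ) < WW z e := by exact_mod_cast WW_pos z e
  set W : ℝ := (WW z e : ℝ) with hWdef
  set KK : ℝ := x / W * (Real.log z / ℓ) ^ 2 with hKK
  have hKKpos : 0 < KK := by positivity
  have hGcard : cG * KK ≤ #(CG θ ℓ e t A0) := by
    have hz2 : 2 ≤ z := by
      have : (2 : ℝ) ≤ z := by linarith
      exact_mod_cast this
    have h1 := totient_WW_le z e hz2
    have hφ := φW_pos ℓ e
    have h2 : φW ℓ e * Real.log z ≤ 2 * W := h1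
    have h3 : x / W * Real.log z / 2 ≤ x / φW ℓ e := by
      rw [div_mul_eq_mul_div, div_div, div_le_div_iff₀ (by positivity) hφ]
      calc x * Real.log z * φW ℓ e = x * (φW ℓ e * Real.log z) := by ring
        _ ≤ x * (2 * W) := mul_le_mul_of_nonneg_left h2 hx0.le
        _ = x * (W * 2) := by ring
    have h4 : cG * KK * ℓ ≤ ℓ * #(CG θ ℓ e t A0) := by
      refine le_trans ?_ hGcard0
      calc cG * KK * ℓ = cG0 * ((x / W * Real.log z / 2) * (Real.log z / ℓ)) := by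
            rw [hcGdef, hKK]; field_simp
        _ ≤ cG0 * (x / φW ℓ e * (Real.log z / ℓ)) := by
            apply mul_le_mul_of_nonneg_left _ hcG0.le
            exact mul_le_mul_of_nonneg_right h3 (by positivity)
    rw [mul_comm ℓ] at h4
    exact le_of_mul_le_mul_right h4 hℓ0
  obtain ⟨hb0, hbi⟩ := hbad ℓ u z y yu e t A0 (by omega) z1 v4.le hyuy ht0 htz3 hyuu
  -- bad 0
  set B0 : Finset ℕ := (CG θ ℓ e t A0).filter (fun n => e.Prime ∧ e ∣ n + t) with hB0
  have hly : ℓ / 15000 ≤ Real.log y := by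
    have : ℓ / (2 * (7500 : ℕ)) = ℓ / 15000 := by push_cast; norm_num
    rw [← this]; exact y3
  have hly0 : 0 < Real.log y := by
    have : 0 < ℓ / 15000 := by positivity
    linarith
  have hy50 : (y : ℝ) ^ 50 ≤ Real.exp (ℓ / 150) := by
    calc (y : ℝ) ^ 50 ≤ (Real.exp (ℓ / 7500)) ^ 50 := pow_le_pow_left₀ (Nat.cast_nonneg _) y2 50
      _ = _ := by rw [← Real.exp_nat_mul]; congr 1; push_cast; ring
  have hyu50 : (yu : ℝ) ^ 50 ≤ Real.exp (ℓ / 150) :=
    (pow_le_pow_left₀ (Nat.cast_nonneg _) (by exact_mod_cast hyuy) 50).trans hy50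
  have hWx : ∀ e' : ℕ, (e' : ℝ) ≤ Real.exp (ℓ / 7500) → ((WW z e * e' : ℕ) : ℝ) ≤ x := by
    intro e' he'
    push_cast
    calc (WW z e : ℝ) * e' ≤ Real.exp (1 / 10000 * ℓ) * Real.exp (ℓ / 7500) :=
          mul_le_mul (hW12 e).2 he' (Nat.cast_nonneg _) (Real.exp_pos _).le
      _ = Real.exp (1 / 10000 * ℓ + ℓ / 7500) := by rw [Real.exp_add]
      _ ≤ x := Real.exp_le_exp.mpr (by linarith)
  have hB0card : (#B0 : ℝ) ≤ cG / 4 * KK + Real.exp (ℓ / 150) + 2 * x * Real.exp (-(ℓ / 7500)) := by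
    have hpos3 : 0 ≤ 2 * x * Real.exp (-(ℓ / 7500)) := by positivity
    have hpos4 : 0 < cG / 4 * KK := by positivity
    have hpos5 : 0 < Real.exp (ℓ / 150) := Real.exp_pos _
    by_cases hep : e.Prime
    swap
    · have : B0 = ∅ := by
        rw [hB0]
        apply Finset.filter_false_of_mem
        intro n _ h
        exact hep h.1
      rw [this, Finset.card_empty, Nat.cast_zero]
      positivity
    by_cases hey : e ≤ y
    · have hPe : (P0 : ℝ) ≤ e := by
        rcases he with h | ⟨_, h⟩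
        · exact absurd h hep.ne_one
        · exact_mod_cast h.le
      have he0 : (0 : ℝ) < e := by exact_mod_cast hep.pos
      have h1 := hb0 hep hey
      have h1' : (#B0 : ℝ) ≤ #((GG ℓ z y e t A0).filter (fun n => e ∣ n + t)) := by
        have : B0 ⊆ (GG ℓ z y e t A0).filter (fun n => e ∣ n + t) := by
          intro n hn
          rw [hB0, Finset.mem_filter] at hn
          rw [Finset.mem_filter]
          exact ⟨CG_sub_GG hLF hyzR hyyy hn.1, hn.2.2⟩
        exact_mod_cast Finset.card_le_card this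
      refine (h1'.trans h1).trans ?_
      have hey' : (e : ℝ) ≤ Real.exp (ℓ / 7500) := le_trans (by exact_mod_cast hey) y2
      have hWe := hWx e hey'
      have hWe0 : (0 : ℝ) < ((WW z e * e : ℕ) : ℝ) := by
        have := Nat.mul_pos (WW_pos z e) hep.pos
        exact_mod_cast this
      have h2 : x / ((WW z e * e : ℕ) : ℝ) + 1 ≤ 2 * (x / ((WW z e * e : ℕ) : ℝ)) := by
        have : 1 ≤ x / ((WW z e * e : ℕ) : ℝ) := by rw [le_div_iff₀ hWe0]; linarith
        linarith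
      have h3 : (C2 * (Real.log z / Real.log y)) ^ 2 ≤ (15000 * C2) ^ 2 * (Real.log z / ℓ) ^ 2 := by
        rw [← mul_pow]
        apply pow_le_pow_left₀ (by positivity)
        have h4 : Real.log z / Real.log y ≤ Real.log z / (ℓ / 15000) :=
          div_le_div_of_nonneg_left hlz0.le (by positivity) hly
        calc C2 * (Real.log z / Real.log y) ≤ C2 * (Real.log z / (ℓ / 15000)) :=
              mul_le_mul_of_nonneg_left h4 hC2.le
          _ = _ := by field_simp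
      have h5 : 2 * (x / ((WW z e * e : ℕ) : ℝ) + 1) * (C2 * (Real.log z / Real.log y)) ^ 2 ≤
          2 * (2 * (x / ((WW z e * e : ℕ) : ℝ))) * ((15000 * C2) ^ 2 * (Real.log z / ℓ) ^ 2) := by
        apply mul_le_mul _ h3 (by positivity) (by positivity)
        linarith
      have h6 : 2 * (2 * (x / ((WW z e * e : ℕ) : ℝ))) * ((15000 * C2) ^ 2 * (Real.log z / ℓ) ^ 2) =
          (K0 / e) * KK := by
        rw [hK0, hKK, hWdef]
        push_cast
        field_simp
        ring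
      have h7 : K0 / e ≤ cG / 4 := by
        rw [div_le_iff₀ he0]
        rw [div_le_iff₀ hcG] at hP0
        have := mul_le_mul_of_nonneg_left hPe hcG.le
        linarith
      have h8 := mul_le_mul_of_nonneg_right h7 hKKpos.le
      linarith
    · push Not at hey
      have h1 : (#B0 : ℝ) ≤ #((Ioc 0 ⌊x⌋₊).filter (fun n => e ∣ n + t)) := by
        have : B0 ⊆ (Ioc 0 ⌊x⌋₊).filter (fun n => e ∣ n + t) := by
          intro n hn
          rw [hB0, Finset.mem_filter, mem_CG] at hn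
          have h2 := hn.1.1
          unfold SS at h2
          rw [Finset.mem_filter] at h2
          rw [Finset.mem_filter]
          exact ⟨h2.1, hn.2.2⟩
        exact_mod_cast Finset.card_le_card this
      have h2 := count_shift ⌊x⌋₊ t e hep.pos
      have h3 : (⌊x⌋₊ : ℝ) ≤ x := Nat.floor_le hx0.le
      have he0 : (0 : ℝ) < e := by exact_mod_cast hep.pos
      have h4 : Real.exp (ℓ / 7500) ≤ e := by
        have : (y : ℝ) + 1 ≤ e := by exact_mod_cast hey
        linarith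
      have h5 : ((⌊x⌋₊ : ℝ) + t) / e ≤ 2 * x * Real.exp (-(ℓ / 7500)) := by
        rw [Real.exp_neg, ← div_eq_mul_inv]
        apply div_le_div₀ (by positivity) (by linarith) (Real.exp_pos _) h4
      linarith
  -- squares
  set Bs : Finset ℕ := (Ioc 0 ⌊x⌋₊).filter (fun n => ∃ q ∈ Qf ℓ e, q ^ 2 ∣ n + t) with hBs
  have hBscard : (#Bs : ℝ) ≤ 4 * ℓ * (x * Real.exp (-(ℓ / 8))) := by
    refine (count_squares hLF e t htx).trans ?_
    have h1 : Real.exp (ℓ / 8) ≤ zR ℓ := by unfold zR; apply Real.exp_le_exp.mpr; linarith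
    calc 2 * x / zR ℓ * (2 * ℓ) ≤ 2 * x / Real.exp (ℓ / 8) * (2 * ℓ) := by
          apply mul_le_mul_of_nonneg_right _ (by positivity)
          exact div_le_div_of_nonneg_left (by positivity) (Real.exp_pos _) h1
      _ = _ := by rw [Real.exp_neg]; ring
  -- bad i
  set Bi : ℕ → Finset ℕ := fun i => (CG θ ℓ e t A0).filter (fun n => PRough u (n + i)) with hBi
  have hlyu : ℓ / (4 * u) ≤ Real.log yu := by
    have : ℓ / (2 * ((2 * u : ℕ) : ℝ)) = ℓ / (4 * u) := by push_cast; congr 1; ring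
    rw [← this]; exact v3
  have hlyu0 : 0 < Real.log yu := by
    have : 0 < ℓ / (4 * u) := by positivity
    linarith
  have hBicard : ∀ i ∈ uncov z e t a, (#(Bi i) : ℝ) ≤ K3 * (x / W * (Real.log z / ℓ) ^ 3) +
      Real.exp (ℓ / 150) := by
    intro i hi
    have hi' : i < t ∧ 0 < i := by
      simp only [uncov, Finset.mem_filter, Finset.mem_range] at hi
      exact ⟨hi.1, hi.2.1⟩
    have h1 := hbi i hi'.2 hi'.1 (Bi i) (by
      intro n hn
      rw [hBi] at hn
      simp only [Finset.mem_filter] at hn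
      exact ⟨CG_sub_GG hLF hyzR hyyy hn.1, hn.2⟩)
    refine h1.trans ?_
    have hWx' := hWx 1 (by
      rw [Nat.cast_one]; exact Real.one_le_exp (by positivity))
    rw [mul_one] at hWx'
    have h2 : x / W + 1 ≤ 2 * (x / W) := by
      have : 1 ≤ x / W := by rw [le_div_iff₀ hWpos]; linarith
      linarith
    have h3 : (C2 * (Real.log z / Real.log yu)) ^ 3 ≤ (C2 * (4 * u)) ^ 3 * (Real.log z / ℓ) ^ 3 := by
      rw [← mul_pow]
      apply pow_le_pow_left₀ (by positivity)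
      have h4 : Real.log z / Real.log yu ≤ Real.log z / (ℓ / (4 * u)) :=
        div_le_div_of_nonneg_left hlz0.le (by positivity) hlyu
      calc C2 * (Real.log z / Real.log yu) ≤ C2 * (Real.log z / (ℓ / (4 * u))) :=
            mul_le_mul_of_nonneg_left h4 hC2.le
        _ = _ := by field_simp
    have h5 : 2 * (x / W + 1) * (C2 * (Real.log z / Real.log yu)) ^ 3 ≤
        2 * (2 * (x / W)) * ((C2 * (4 * u)) ^ 3 * (Real.log z / ℓ) ^ 3) := by
      apply mul_le_mul _ h3 (by positivity) (by positivity)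
      linarith
    have h6 : 2 * (2 * (x / W)) * ((C2 * (4 * u)) ^ 3 * (Real.log z / ℓ) ^ 3) =
        K3 * (x / W * (Real.log z / ℓ) ^ 3) := by rw [hK3]; ring
    linarith
  have hsumBi : ∑ i ∈ uncov z e t a, (#(Bi i) : ℝ) ≤ cG / 4 * KK + ℓ ^ 2 * Real.exp (ℓ / 150) := by
    have hE0 : 0 < Real.exp (ℓ / 150) := Real.exp_pos _
    calc ∑ i ∈ uncov z e t a, (#(Bi i) : ℝ) ≤
        ∑ i ∈ uncov z e t a, (K3 * (x / W * (Real.log z / ℓ) ^ 3) + Real.exp (ℓ / 150)) :=
          Finset.sum_le_sum hBicard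
      _ = (#(uncov z e t a) : ℝ) * (K3 * (x / W * (Real.log z / ℓ) ^ 3)) +
          (#(uncov z e t a) : ℝ) * Real.exp (ℓ / 150) := by
          rw [Finset.sum_const, nsmul_eq_mul, mul_add]
      _ ≤ cG / 4 * KK + ℓ ^ 2 * Real.exp (ℓ / 150) := by
          apply add_le_add
          · calc (#(uncov z e t a) : ℝ) * (K3 * (x / W * (Real.log z / ℓ) ^ 3)) ≤
                (ε' * (z * (Real.log z) ^ 2)) * (K3 * (x / W * (Real.log z / ℓ) ^ 3)) :=
                  mul_le_mul_of_nonneg_right hunc (by positivity)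
              _ = (ε' * K3) * (x / W * (Real.log z / ℓ) ^ 2) * ((z * (Real.log z) ^ 3) / ℓ) := by
                  field_simp
              _ ≤ (ε' * K3) * (x / W * (Real.log z / ℓ) ^ 2) * 1 := by
                  apply mul_le_mul_of_nonneg_left _ (by positivity)
                  rw [div_le_one hℓ0]; exact z3
              _ = cG / 4 * KK := by
                  rw [hε', hKK]; field_simp
          · apply mul_le_mul_of_nonneg_right _ hE0.le
            exact (uncov_card_le z e t a).trans ht2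
  -- good ones
  have hsub : CG θ ℓ e t A0 ⊆ goodChen u ℓ t ∪ ((B0 ∪ Bs) ∪ (uncov z e t a).biUnion Bi) := by
    intro n hn
    rw [Finset.mem_union, Finset.mem_union, Finset.mem_union, Finset.mem_biUnion]
    by_cases h1 : n ∈ B0
    · exact Or.inr (Or.inl (Or.inl h1))
    by_cases h1' : n ∈ Bs
    · exact Or.inr (Or.inl (Or.inr h1'))
    by_cases h2 : ∃ i ∈ uncov z e t a, n ∈ Bi i
    · exact Or.inr (Or.inr h2)
    left
    push Not at h2
    have hnG := CG_sub_GG hLF hyzR hyyy hn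
    have hnG' := mem_GG.mp hnG
    obtain ⟨⟨hn0, hnN⟩, hmod, hnp, hny, hn9, hnP⟩ := hnG'
    have hxn : (n : ℝ) ≤ x := (Nat.le_floor_iff hx0.le).mp hnN
    have hne : e.Prime → ¬ e ∣ n + t := by
      intro hep hd
      apply h1
      rw [hB0, Finset.mem_filter]
      exact ⟨hn, hep, hd⟩
    have hun : ∀ i ∈ uncov z e t a, ¬ PRough u (n + i) := by
      intro i hi hR
      apply h2 i hi
      rw [hBi]
      simp only [Finset.mem_filter]
      exact ⟨hn, hR⟩
    have hsq : ∀ q ∈ Qf ℓ e, ¬ q ^ 2 ∣ n + t := by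
      intro q hq hd
      apply h1'
      rw [hBs, Finset.mem_filter, Finset.mem_Ioc]
      exact ⟨⟨hn0, hnN⟩, q, hq, hd⟩
    have hgap := gap_of_GG u hu ℓ z y e t A0 n a y1 hexp7500 ht0 htx y4 hzu ha hA0 hnG
      (fun hep _ => hne hep) hun
    -- all prime factors of n + t are large
    have hlarge : ∀ q, q.Prime → q ∣ n + t → zR ℓ ≤ q := by
      intro q hq hqd
      by_contra hcon
      push Not at hcon
      by_cases hqe : q = e
      · subst hqe
        exact hne hq hqd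
      by_cases hqz : q ≤ z
      · have h0 : n ≡ A0 [MOD q] := hmod.of_dvd (dvd_WW hq hqz hqe)
        have h1 : n + a q ≡ 0 [MOD q] :=
          (Nat.ModEq.add_right (a q) h0).trans (Nat.modEq_zero_iff_dvd.mpr (hA0 q hq hqz))
        have h4 : n + t ≡ n + a q [MOD q] := (Nat.modEq_zero_iff_dvd.mpr hqd).trans h1.symm
        have h5 : t ≡ a q [MOD q] := Nat.ModEq.add_left_cancel' n h4
        exact (ha q hq hqz).2 h5.symm
      · by_cases hqt : q ∣ t
        · have h3 : q ∣ n := (Nat.dvd_add_left hqt).mp hqd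
          have h4 := (Nat.prime_dvd_prime_iff_eq hq hnp).mp h3
          subst h4
          have h5 : zR ℓ ≤ Real.exp (ℓ / 2) := by
            unfold zR; apply Real.exp_le_exp.mpr; linarith
          linarith
        · exact CG_sieved hLF hn q hq (by omega) hqe hqt hcon hqd
    have hcast : ((n + t : ℕ) : ℝ) = n + t := by push_cast; ring
    have hnt3 : ((n + t : ℕ) : ℝ) < yR ℓ ^ 3 := by
      rw [hcast]
      have h3 : yR ℓ ^ 3 = 8 * x := by
        unfold yR
        rw [mul_pow, ← Real.exp_nat_mul]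
        have : ((3 : ℕ) : ℝ) * (ℓ / 3) = ℓ := by push_cast; ring
        rw [this, hx]; norm_num
      rw [h3]; linarith
    have hP2 : IsP2 (n + t) := by
      rw [mem_CG] at hn
      exact chen_pointwise hLF e t n (by omega) hnt3 hlarge hne hsq hn.2.2.2
        (by have := hnp.two_le; omega)
    have hR8 : PRough 8 (n + t) := by
      refine ⟨by have := hnp.two_le; omega, ?_⟩
      intro q hq hqd
      have h3 := hlarge q hq hqd
      have h4 : zR ℓ ^ 8 = Real.exp 1 * x := by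
        have h44 : zR ℓ ^ 8 = Real.exp (1 + ℓ) := by
          unfold zR
          rw [← Real.exp_nat_mul]
          congr 1; push_cast; ring
        rw [h44, Real.exp_add]
      have h5 : ((n + t : ℕ) : ℝ) < (q : ℝ) ^ 8 := by
        rw [hcast]
        calc (n : ℝ) + t ≤ 2 * x := by linarith
          _ < Real.exp 1 * x := by
              apply mul_lt_mul_of_pos_right _ hx0
              have := Real.exp_one_gt_d9; linarith
          _ = zR ℓ ^ 8 := h4.symm
          _ ≤ (q : ℝ) ^ 8 := pow_le_pow_left₀ (zR_pos ℓ).le h3 8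
      exact_mod_cast h5
    rw [mem_goodChen]
    exact ⟨⟨hn0, hnN⟩, hnp, hP2, hR8, hgap.2⟩
  have hcard : (#(CG θ ℓ e t A0) : ℝ) ≤ #(goodChen u ℓ t) +
      ((#B0 + #Bs) + ∑ i ∈ uncov z e t a, (#(Bi i) : ℝ)) := by
    have h1 := (Finset.card_le_card hsub).trans (Finset.card_union_le _ _)
    have h2 := Finset.card_union_le (B0 ∪ Bs) ((uncov z e t a).biUnion Bi)
    have h2' := Finset.card_union_le B0 Bs
    have h3 : #((uncov z e t a).biUnion Bi) ≤ ∑ i ∈ uncov z e t a, #(Bi i) := Finset.card_biUnion_le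
    have h4 : #(CG θ ℓ e t A0) ≤ #(goodChen u ℓ t) + ((#B0 + #Bs) + ∑ i ∈ uncov z e t a, #(Bi i)) := by
      omega
    exact_mod_cast h4
  have hlzℓ : 1 / ℓ ≤ Real.log z / ℓ := div_le_div_of_nonneg_right hlz1 hℓ0.le
  have hlzℓ2 : (1 / ℓ) ^ 2 ≤ (Real.log z / ℓ) ^ 2 := pow_le_pow_left₀ (by positivity) hlzℓ 2
  have hKlow : ∀ B : ℝ, 0 < B → W ≤ B → x / B * (1 / ℓ) ^ 2 ≤ KK := by
    intro B hB hWB
    rw [hKK]
    apply mul_le_mul _ hlzℓ2 (by positivity) (by positivity)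
    exact div_le_div_of_nonneg_left hx0.le hWpos hWB
  have hk1 := hKlow _ (Real.exp_pos _) (hW12 e).2
  have hk2 := hKlow _ (Real.exp_pos _) (hWε e).2
  have hs1' := hs1.trans (mul_le_mul_of_nonneg_left hk1 (by positivity : (0 : ℝ) ≤ cG / 4))
  have hf' : Real.exp ((1 - ε) * ℓ) ≤ cG / 4 * KK :=
    hfin.trans (mul_le_mul_of_nonneg_left hk2 (by positivity))
  linarith

end Pool.Agent.H16
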