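import Pool.Agent.H16.CH1

/-!
The masses `X` and `X'`.
-/

set_option autoImplicit false

open Finset Filter Topology

namespace Pool.Agent.H16

open Pool.Agent.H90 (LS.lam LS.W LS.PI LS.Dim LS.AA)

/-- smooth prime number theorem -/
def TentCount (T0 : ℝ) : Prop := 0 < T0 ∧ ∀ δ : ℝ, 0 < δ → ∃ Y0 : ℝ, ∀ y : ℝ, Y0 ≤ y →
  ∀ N : ℕ, Real.exp 1 * y ≤ N →
    |∑ p ∈ (Finset.Ioc 0 N).filter Nat.Prime, Real.log p * tent y p - T0 * y| ≤ δ * y

/-- the double sum of the third sum -/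
def S3Sum (c3 : ℝ) : Prop := ∀ ε : ℝ, 0 < ε → ∃ L0 : ℝ, ∀ ℓ : ℝ, L0 ≤ ℓ →
  ∑ p1 ∈ LS.PI (Real.exp (ℓ / 8)) (2 * Real.exp (ℓ / 3)),
    ∑ p2 ∈ LS.PI (Real.exp (ℓ / 3)) (√(3 * Real.exp ℓ / p1)),
      1 / ((p1 : ℝ) * p2 * Real.log (Real.exp ℓ / (9 * p1 * p2))) ≤ (c3 + ε) / ℓ

/-- cut for the primes -/
noncomputable def yy (ℓ : ℝ) : ℕ := ⌊Real.exp (ℓ / 2)⌋₊

lemma yy_le (ℓ : ℝ) : (yy ℓ : ℝ) ≤ Real.exp (ℓ / 2) := Nat.floor_le (Real.exp_pos _).le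

lemma exp_half_lt {ℓ : ℝ} (hℓ : 30 ≤ ℓ) : Real.exp (ℓ / 2) < Real.exp ℓ / 9 := by
  rw [lt_div_iff₀ (by norm_num)]
  have h1 : (9 : ℝ) < Real.exp (ℓ / 2) := by
    have := Real.add_one_le_exp (ℓ / 2); linarith
  calc Real.exp (ℓ / 2) * 9 < Real.exp (ℓ / 2) * Real.exp (ℓ / 2) :=
        mul_lt_mul_of_pos_left h1 (Real.exp_pos _)
    _ = Real.exp ℓ := by rw [← Real.exp_add]; congr 1; ring

lemma exp_one_mul_le {ℓ : ℝ} (hℓ : 30 ≤ ℓ) : Real.exp 1 * (Real.exp ℓ / 3) ≤ (⌊Real.exp ℓ⌋₊ : ℝ) := by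
  have h1 := Nat.lt_floor_add_one (Real.exp ℓ)
  have he := Real.exp_one_lt_d9
  have h2 : (30 : ℝ) ≤ Real.exp ℓ := by
    have := Real.add_one_le_exp ℓ; linarith
  have h3 : Real.exp 1 * (Real.exp ℓ / 3) ≤ 2.7182818286 * (Real.exp ℓ / 3) :=
    mul_le_mul_of_nonneg_right he.le (by positivity)
  linarith

theorem X_asymp {T0 : ℝ} (hT : TentCount T0) (δ : ℝ) (hδ : 0 < δ) : ∀ᶠ ℓ : ℝ in atTop,
    |∑ n ∈ Ioc 0 ⌊Real.exp ℓ⌋₊, aw ℓ (yy ℓ) n - T0 * (Real.exp ℓ / 3)| ≤ δ * (Real.exp ℓ / 3) := by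
  obtain ⟨Y0, hY0⟩ := hT.2 δ hδ
  have h1 : Tendsto (fun ℓ : ℝ => Real.exp ℓ / 3) atTop atTop :=
    Real.tendsto_exp_atTop.atTop_div_const (by norm_num)
  filter_upwards [h1.eventually (eventually_ge_atTop Y0), eventually_ge_atTop (30 : ℝ)] with ℓ hY hℓ
  have h2 := hY0 (Real.exp ℓ / 3) hY ⌊Real.exp ℓ⌋₊ (exp_one_mul_le hℓ)
  have h3 : ∑ n ∈ Ioc 0 ⌊Real.exp ℓ⌋₊, aw ℓ (yy ℓ) n =
      ∑ p ∈ (Finset.Ioc 0 ⌊Real.exp ℓ⌋₊).filter Nat.Prime, Real.log p * tent (Real.exp ℓ / 3) p := by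
    rw [Finset.sum_filter]
    apply Finset.sum_congr rfl
    intro n hn
    rw [Finset.mem_Ioc] at hn
    unfold aw
    by_cases hp : n.Prime
    · rw [if_pos hp]
      split_ifs with hy
      · rfl
      · by_cases ht : tent (Real.exp ℓ / 3) n = 0
        · rw [ht, mul_zero]
        · exfalso
          have h4 := tent_big ℓ n hn.1 ht
          have h5 : n ≤ yy ℓ := by
            by_contra hcon
            exact hy ⟨hp, by omega⟩
          have h6 : (n : ℝ) ≤ yy ℓ := by exact_mod_cast h5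
          have h7 := yy_le ℓ
          have h8 := exp_half_lt hℓ
          linarith
    · rw [if_neg hp, if_neg (by tauto)]
  rw [h3]
  exact h2

lemma k_upper {ℓ : ℝ} {p1 p2 : ℕ} (hp1 : 0 < p1) (hp2 : 0 < p2) (h1 : (p1 : ℝ) < yR ℓ)
    (h2 : (p2 : ℝ) < √(3 * Real.exp ℓ / p1)) :
    (p1 : ℝ) * p2 ≤ 3 * Real.exp (2 / 3 * ℓ) := by
  have hp1' : (0 : ℝ) < p1 := by exact_mod_cast hp1
  have hp2' : (0 : ℝ) < p2 := by exact_mod_cast hp2
  have h3 : (p2 : ℝ) ^ 2 * p1 ≤ 3 * Real.exp ℓ := by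
    have h4 : (p2 : ℝ) ^ 2 ≤ 3 * Real.exp ℓ / p1 := by
      have := pow_le_pow_left₀ hp2'.le h2.le 2
      rwa [Real.sq_sqrt (by positivity)] at this
    rwa [le_div_iff₀ hp1'] at h4
  have h5 : ((p1 : ℝ) * p2) ^ 2 ≤ (3 * Real.exp (2 / 3 * ℓ)) ^ 2 := by
    calc ((p1 : ℝ) * p2) ^ 2 = p1 * ((p2 : ℝ) ^ 2 * p1) := by ring
      _ ≤ (2 * Real.exp (ℓ / 3)) * (3 * Real.exp ℓ) :=
          mul_le_mul h1.le h3 (mul_nonneg (sq_nonneg _) hp1'.le) (yR_pos ℓ).le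
      _ = 6 * (Real.exp (ℓ / 3) * Real.exp ℓ) := by ring
      _ = 6 * (Real.exp (2 / 3 * ℓ) * Real.exp (2 / 3 * ℓ)) := by
          rw [← Real.exp_add, ← Real.exp_add]; congr 2; ring
      _ ≤ 9 * (Real.exp (2 / 3 * ℓ) * Real.exp (2 / 3 * ℓ)) := by
          apply mul_le_mul_of_nonneg_right (by norm_num) (by positivity)
      _ = _ := by ring
  exact (pow_le_pow_iff_left₀ (by positivity) (by positivity) (by norm_num)).mp h5

lemma log_upper {ℓ : ℝ} (hℓ : 30 ≤ ℓ) {k : ℝ} (hk : 0 < k) (h : k ≤ 3 * Real.exp (2 / 3 * ℓ)) :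
    1 ≤ Real.log (Real.exp ℓ / (9 * k)) := by
  rw [Real.le_log_iff_exp_le (by positivity), le_div_iff₀ (by positivity)]
  have e1 : Real.exp 1 ≤ 3 := by have := Real.exp_one_lt_d9; linarith
  have e2 := exp10 hℓ
  calc Real.exp 1 * (9 * k) ≤ 3 * (9 * (3 * Real.exp (2 / 3 * ℓ))) := by
        apply mul_le_mul e1 _ (by positivity) (by norm_num)
        linarith
    _ = 81 * Real.exp (2 / 3 * ℓ) := by ring
    _ ≤ Real.exp (ℓ / 3) * Real.exp (2 / 3 * ℓ) := mul_le_mul_of_nonneg_right e2 (Real.exp_pos _).le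
    _ = Real.exp ℓ := by rw [← Real.exp_add]; congr 1; ring

/-- `∑ B k / k` -/
lemma sum_B_div {ℓ : ℝ} (hℓ : 30 ≤ ℓ) (N : ℕ) :
    ∑ k ∈ Ioc 0 N, BCh ℓ k / k ≤
    ∑ p1 ∈ LS.PI (Real.exp (ℓ / 8)) (2 * Real.exp (ℓ / 3)),
    ∑ p2 ∈ LS.PI (Real.exp (ℓ / 3)) (√(3 * Real.exp ℓ / p1)),
      1 / ((p1 : ℝ) * p2 * Real.log (Real.exp ℓ / (9 * p1 * p2))) := by
  classical
  have hnn : ∀ p1 ∈ LS.PI (Real.exp (ℓ / 8)) (2 * Real.exp (ℓ / 3)),
      ∀ p2 ∈ LS.PI (Real.exp (ℓ / 3)) (√(3 * Real.exp ℓ / p1)),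
      0 ≤ 1 / ((p1 : ℝ) * p2 * Real.log (Real.exp ℓ / (9 * p1 * p2))) := by
    intro p1 h1 p2 h2
    rw [Pool.Agent.H90.LS.mem_PI] at h1 h2
    have h3 := k_upper h1.1.pos h2.1.pos (ℓ := ℓ) h1.2.2 h2.2.2
    have hp1 : (0 : ℝ) < p1 := by exact_mod_cast h1.1.pos
    have hp2 : (0 : ℝ) < p2 := by exact_mod_cast h2.1.pos
    have h4 := log_upper hℓ (mul_pos hp1 hp2) h3
    have e : (9 : ℝ) * p1 * p2 = 9 * (p1 * p2) := by ring
    rw [e]
    positivity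
  have step1 : ∑ k ∈ Ioc 0 N, BCh ℓ k / k ≤
      ∑ p1 ∈ LS.PI (zR ℓ) (yR ℓ), ∑ p2 ∈ LS.PI (yR ℓ) (√(3 * Real.exp ℓ / p1)),
      1 / ((p1 : ℝ) * p2 * Real.log (Real.exp ℓ / (9 * p1 * p2))) := by
    have h1 : ∀ k ∈ Ioc 0 N, BCh ℓ k / k =
        ∑ p1 ∈ LS.PI (zR ℓ) (yR ℓ), ∑ p2 ∈ LS.PI (yR ℓ) (√(3 * Real.exp ℓ / p1)),
        if p1 * p2 = k then 1 / ((p1 : ℝ) * p2 * Real.log (Real.exp ℓ / (9 * p1 * p2))) else 0 := by
      intro k hk
      rw [Finset.mem_Ioc] at hk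
      rw [BCh_apply, if_neg (by omega), Finset.sum_div]
      apply Finset.sum_congr rfl
      intro p1 _
      rw [Finset.sum_div]
      apply Finset.sum_congr rfl
      intro p2 _
      split_ifs with h
      · rw [← h]
        push_cast
        rw [div_div]
        congr 1
        rw [mul_comm]
        congr 3
        ring
      · rw [zero_div]
    rw [Finset.sum_congr rfl h1, Finset.sum_comm]
    apply Finset.sum_le_sum
    intro p1 hp1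
    rw [Finset.sum_comm]
    apply Finset.sum_le_sum
    intro p2 hp2
    rw [Finset.sum_ite_eq]
    have h2 : 0 ≤ 1 / ((p1 : ℝ) * p2 * Real.log (Real.exp ℓ / (9 * p1 * p2))) := by
      have h3 := k_bounds (by linarith) hp1 hp2
      rw [Pool.Agent.H90.LS.mem_PI] at hp1 hp2
      have hp1' : (0 : ℝ) < p1 := by exact_mod_cast hp1.1.pos
      have hp2' : (0 : ℝ) < p2 := by exact_mod_cast hp2.1.pos
      have h5 := h3.1
      push_cast at h5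
      have h4 := log_upper hℓ (mul_pos hp1' hp2') h5
      have e : (9 : ℝ) * p1 * p2 = 9 * (p1 * p2) := by ring
      rw [e]
      positivity
    split_ifs
    · exact le_rfl
    · exact h2
  refine step1.trans ?_
  have hz : Real.exp (ℓ / 8) ≤ zR ℓ := by
    unfold zR; apply Real.exp_le_exp.mpr; linarith
  have hy : Real.exp (ℓ / 3) ≤ yR ℓ := by
    unfold yR; linarith [Real.exp_pos (ℓ / 3)]
  have hsub1 : LS.PI (zR ℓ) (yR ℓ) ⊆ LS.PI (Real.exp (ℓ / 8)) (2 * Real.exp (ℓ / 3)) := by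
    intro p hp
    rw [Pool.Agent.H90.LS.mem_PI] at hp ⊢
    exact ⟨hp.1, hz.trans hp.2.1, hp.2.2⟩
  calc _ ≤ ∑ p1 ∈ LS.PI (zR ℓ) (yR ℓ), ∑ p2 ∈ LS.PI (Real.exp (ℓ / 3)) (√(3 * Real.exp ℓ / p1)),
      1 / ((p1 : ℝ) * p2 * Real.log (Real.exp ℓ / (9 * p1 * p2))) := by
        apply Finset.sum_le_sum
        intro p1 hp1
        apply Finset.sum_le_sum_of_subset_of_nonneg
        · intro p hp
          rw [Pool.Agent.H90.LS.mem_PI] at hp ⊢
          exact ⟨hp.1, hy.trans hp.2.1, hp.2.2⟩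
        · intro p2 hp2 _
          exact hnn p1 (hsub1 hp1) p2 hp2
    _ ≤ _ := by
        apply Finset.sum_le_sum_of_subset_of_nonneg hsub1
        intro p1 hp1 _
        exact Finset.sum_nonneg (fun p2 hp2 => hnn p1 hp1 p2 hp2)

lemma sum_antidiag_le (N : ℕ) (f : ℕ → ℕ → ℝ) (hf : ∀ a b, 0 ≤ f a b) :
    ∑ m ∈ Ioc 0 N, ∑ x ∈ m.divisorsAntidiagonal, f x.1 x.2 ≤
      ∑ k ∈ Ioc 0 N, ∑ p ∈ Ioc 0 N, f k p := by
  classical
  rw [← Finset.sum_product', Finset.sum_sigma']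
  have hinj : Set.InjOn (fun y : (_ : ℕ) × (ℕ × ℕ) => y.2)
      (((Ioc 0 N).sigma (fun m => m.divisorsAntidiagonal) : Finset _) : Set _) := by
    rintro ⟨m1, x1⟩ h1 ⟨m2, x2⟩ h2 h
    simp only [Finset.coe_sigma, Set.mem_sigma_iff, Finset.mem_coe, Nat.mem_divisorsAntidiagonal] at h1 h2
    simp only at h
    subst h
    have : m1 = m2 := by rw [← h1.2.1, ← h2.2.1]
    subst this
    rfl
  rw [← Finset.sum_image (f := fun x : ℕ × ℕ => f x.1 x.2) hinj]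
  apply Finset.sum_le_sum_of_subset_of_nonneg
  · intro x hx
    rw [Finset.mem_image] at hx
    obtain ⟨⟨m, y⟩, hy, rfl⟩ := hx
    rw [Finset.mem_sigma, Nat.mem_divisorsAntidiagonal, Finset.mem_Ioc] at hy
    simp only at hy
    obtain ⟨⟨hm0, hmN⟩, hy1, hy2⟩ := hy
    rw [Finset.mem_product, Finset.mem_Ioc, Finset.mem_Ioc]
    have h1 : y.1 ≠ 0 := by rintro h; rw [h, zero_mul] at hy1; omega
    have h2 : y.2 ≠ 0 := by rintro h; rw [h, mul_zero] at hy1; omega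
    have h3 : y.1 ≤ m := by rw [← hy1]; exact Nat.le_mul_of_pos_right _ (Nat.pos_of_ne_zero h2)
    have h4 : y.2 ≤ m := by rw [← hy1]; exact Nat.le_mul_of_pos_left _ (Nat.pos_of_ne_zero h1)
    exact ⟨⟨Nat.pos_of_ne_zero h1, h3.trans hmN⟩, Nat.pos_of_ne_zero h2, h4.trans hmN⟩
  · intro x _ _; exact hf _ _

theorem XB_le {T0 : ℝ} (hT : TentCount T0) (δ : ℝ) (hδ : 0 < δ) : ∀ᶠ ℓ : ℝ in atTop, ∀ U : ℕ,
    ∑ m ∈ Ioc 0 ⌊Real.exp ℓ⌋₊, wB ℓ (BCh ℓ) U m ≤ (T0 + δ) * (Real.exp ℓ / 3) *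
    ∑ p1 ∈ LS.PI (Real.exp (ℓ / 8)) (2 * Real.exp (ℓ / 3)),
    ∑ p2 ∈ LS.PI (Real.exp (ℓ / 3)) (√(3 * Real.exp ℓ / p1)),
      1 / ((p1 : ℝ) * p2 * Real.log (Real.exp ℓ / (9 * p1 * p2))) := by
  obtain ⟨Y0, hY0⟩ := hT.2 δ hδ
  have h1 : Tendsto (fun ℓ : ℝ => Real.exp (ℓ / 3) / 9) atTop atTop :=
    (Real.tendsto_exp_atTop.comp (tendsto_id.atTop_div_const (by norm_num))).atTop_div_const (by norm_num)
  filter_upwards [h1.eventually (eventually_ge_atTop Y0), eventually_ge_atTop (30 : ℝ)] with ℓ hY hℓ U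
  set N := ⌊Real.exp ℓ⌋₊ with hN
  have hT0 := hT.1
  have hcoef : 0 ≤ (T0 + δ) * (Real.exp ℓ / 3) := by positivity
  refine le_trans ?_ (mul_le_mul_of_nonneg_left (sum_B_div hℓ N) hcoef)
  set f : ℕ → ℕ → ℝ := fun k p => BCh ℓ k * thR U p * tent (Real.exp ℓ / 3) ((k * p : ℕ) : ℝ) with hf
  have hf0 : ∀ a b, 0 ≤ f a b := by
    intro a b
    rw [hf]
    simp only
    rcases Nat.eq_zero_or_pos (a * b) with h | h
    · rcases Nat.mul_eq_zero.mp h with h | h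
      · rw [h]; simp
      · rw [h]; simp [thR_apply]
    · exact mul_nonneg (mul_nonneg (BCh_nonneg hℓ a) (thR_nonneg U b))
        (tent_nonneg _ _ (by positivity) (by exact_mod_cast h))
  have e1 : ∑ m ∈ Ioc 0 N, wB ℓ (BCh ℓ) U m = ∑ m ∈ Ioc 0 N, ∑ x ∈ m.divisorsAntidiagonal, f x.1 x.2 := by
    apply Finset.sum_congr rfl
    intro m _
    unfold wB
    rw [ArithmeticFunction.mul_apply, Finset.sum_mul]
    apply Finset.sum_congr rfl
    intro x hx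
    rw [hf]
    simp only
    rw [(Nat.mem_divisorsAntidiagonal.mp hx).1]
  rw [e1]
  refine (sum_antidiag_le N f hf0).trans ?_
  rw [Finset.mul_sum]
  apply Finset.sum_le_sum
  intro k hk
  rw [Finset.mem_Ioc] at hk
  have hk0 : (0 : ℝ) < k := by exact_mod_cast hk.1
  by_cases hB : BCh ℓ k = 0
  · rw [hB]
    simp only [zero_div, mul_zero]
    apply le_of_eq
    apply Finset.sum_eq_zero
    intro p _
    rw [hf]; simp only; rw [hB]; ring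
  · have hBnn := BCh_nonneg hℓ k
    have hkub : (k : ℝ) ≤ 3 * Real.exp (2 / 3 * ℓ) := by
      obtain ⟨q1, q2, hq1, hq2, rfl⟩ := BCh_ne_zero hB
      exact (k_bounds (by linarith) hq1 hq2).1
    have hyk : Y0 ≤ Real.exp ℓ / 3 / k := by
      refine hY.trans ?_
      rw [le_div_iff₀ hk0]
      calc Real.exp (ℓ / 3) / 9 * k ≤ Real.exp (ℓ / 3) / 9 * (3 * Real.exp (2 / 3 * ℓ)) :=
            mul_le_mul_of_nonneg_left hkub (by positivity)
        _ = Real.exp (ℓ / 3) * Real.exp (2 / 3 * ℓ) / 3 := by ring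
        _ = Real.exp ℓ / 3 := by rw [← Real.exp_add]; congr 2; ring
    have hk1 : (1 : ℝ) ≤ k := by exact_mod_cast hk.1
    have hNk : Real.exp 1 * (Real.exp ℓ / 3 / k) ≤ (N : ℝ) := by
      refine le_trans ?_ (exp_one_mul_le hℓ)
      apply mul_le_mul_of_nonneg_left _ (Real.exp_pos 1).le
      exact div_le_self (by positivity) hk1
    have h2 := (abs_le.mp (hY0 (Real.exp ℓ / 3 / k) hyk N hNk)).2
    have h3 : ∑ p ∈ Ioc 0 N, f k p ≤ BCh ℓ k *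
        ∑ p ∈ (Ioc 0 N).filter Nat.Prime, Real.log p * tent (Real.exp ℓ / 3 / k) p := by
      rw [Finset.sum_filter, Finset.mul_sum]
      apply Finset.sum_le_sum
      intro p hp
      rw [Finset.mem_Ioc] at hp
      have hp0 : (0 : ℝ) < p := by exact_mod_cast hp.1
      rw [hf]
      simp only
      push_cast
      rw [tent_scale _ _ _ (by positivity) hk0 hp0, mul_assoc]
      apply mul_le_mul_of_nonneg_left _ hBnn
      have ht := tent_nonneg (Real.exp ℓ / 3 / k) p (by positivity) hp0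
      rw [thR_apply]
      split_ifs with h4 h5 h5
      · exact le_rfl
      · exact absurd h4.1 h5
      · rw [zero_mul]; exact mul_nonneg (Real.log_natCast_nonneg p) ht
      · rw [zero_mul]
    refine h3.trans ?_
    calc BCh ℓ k * ∑ p ∈ (Ioc 0 N).filter Nat.Prime, Real.log p * tent (Real.exp ℓ / 3 / k) p ≤
        BCh ℓ k * ((T0 + δ) * (Real.exp ℓ / 3 / k)) := by
          apply mul_le_mul_of_nonneg_left _ hBnn
          linarith
      _ = _ := by field_simp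

end Pool.Agent.H16
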