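import Pool.Agent.H16.CH2

/-!
Chen's sieve: the sets of primes and the facts for large `ℓ`.
-/

set_option autoImplicit false

open Finset Filter Topology

namespace Pool.Agent.H16

open Pool.Agent.H90 (LS.lam LS.W LS.PI LS.Dim LS.AA)

noncomputable def wf (θ ℓ : ℝ) : ℕ := ⌈Real.exp (θ * ℓ)⌉₊ - 1
noncomputable def D2f (κ ℓ : ℝ) : ℝ := Real.exp ((1 / 2 - 2 * κ) * ℓ)
noncomputable def P1f (θ ℓ : ℝ) (e t : ℕ) : Finset ℕ := PS (zf ℓ) (wf θ ℓ) e t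
noncomputable def P2f (θ ℓ : ℝ) (e : ℕ) : Finset ℕ := (LS.PI (Real.exp (θ * ℓ)) (zR ℓ)).erase e
noncomputable def P3f (κ θ ℓ : ℝ) (e : ℕ) : Finset ℕ :=
  (LS.PI (Real.exp (θ * ℓ)) (Real.exp ((1 / 2 - 2 * κ) * ℓ / 3))).erase e
noncomputable def Qf (ℓ : ℝ) (e : ℕ) : Finset ℕ := (LS.PI (zR ℓ) (yR ℓ)).erase e

/-- facts for large `ℓ` -/
structure LF (κ θ ℓ : ℝ) (k : ℕ) : Prop where
  ℓ30 : 30 ≤ ℓ
  ℓk : 1000 ≤ ℓ
  κℓ : 4 ≤ κ * ℓ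
  z1 : 100 ≤ Real.log (zf ℓ)
  zw : zf ℓ ≤ wf θ ℓ
  wlt : (wf θ ℓ : ℝ) < Real.exp (θ * ℓ)
  wlog : θ * ℓ / 2 ≤ Real.log (wf θ ℓ)
  wpow : (wf θ ℓ : ℝ) ^ (4 * k + 5) * D2f κ ℓ ≤ Real.exp ((1 / 2 - κ) * ℓ)
  zR2 : zR ℓ ^ 2 ≤ D2f κ ℓ
  yRD : yR ℓ < D2f κ ℓ
  wz : Real.exp (θ * ℓ) ≤ zR ℓ
  w3 : Real.exp (θ * ℓ) ≤ Real.exp ((1 / 2 - 2 * κ) * ℓ / 3)
  zy : zR ℓ ≤ yR ℓ
  ts : ℓ ^ 2 < Real.exp (θ * ℓ)
  yh : yR ℓ ≤ yy ℓ
  y6 : Real.exp ((1 / 2 - 2 * κ) * ℓ / 3) ≤ Real.exp (ℓ / 6)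

lemma ev_LF (κ θ : ℝ) (k : ℕ) (hκ : 0 < κ) (hκ1 : κ ≤ 1 / 100) (hθ : 0 < θ)
    (hθk : θ * (4 * k + 5) = κ) : ∀ᶠ ℓ : ℝ in atTop, LF κ θ ℓ k := by
  have hθ5 : θ * 5 ≤ κ := by
    have : 0 ≤ θ * (4 * k) := by positivity
    linarith
  have hθ500 : θ ≤ 1 / 500 := by linarith
  have h1 := (isLittleO_rpow_exp_pos_mul_atTop 2 hθ).bound (show (0 : ℝ) < 1 / 2 by norm_num)
  filter_upwards [ev_z, h1, eventually_ge_atTop (1000 : ℝ), eventually_ge_atTop (4 / θ),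
    eventually_ge_atTop (4 / κ)] with ℓ hz a hℓ hℓθ hℓκ
  obtain ⟨z1, z2, z3, z4, z5, z6⟩ := hz
  have hℓ0 : 0 < ℓ := by linarith
  have hθℓ : 4 ≤ θ * ℓ := by
    rw [div_le_iff₀ hθ] at hℓθ; linarith
  have e2 : ℓ ^ (2 : ℝ) = ℓ ^ 2 := by norm_cast
  rw [Real.norm_of_nonneg (by positivity), Real.norm_of_nonneg (Real.exp_pos _).le, e2] at a
  have hexp4 : 4 ≤ Real.exp (θ * ℓ) := by
    have := Real.add_one_le_exp (θ * ℓ); linarith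
  have hceil := Nat.le_ceil (Real.exp (θ * ℓ))
  have hceil2 := Nat.ceil_lt_add_one (Real.exp_pos (θ * ℓ)).le
  have hc1 : 1 ≤ ⌈Real.exp (θ * ℓ)⌉₊ := by
    have : (1 : ℝ) ≤ ⌈Real.exp (θ * ℓ)⌉₊ := by linarith
    exact_mod_cast this
  have hwcast : (wf θ ℓ : ℝ) = ⌈Real.exp (θ * ℓ)⌉₊ - 1 := by
    unfold wf; rw [Nat.cast_sub hc1, Nat.cast_one]
  have hwlt : (wf θ ℓ : ℝ) < Real.exp (θ * ℓ) := by rw [hwcast]; linarith
  have hwge : Real.exp (θ * ℓ) - 1 ≤ (wf θ ℓ : ℝ) := by rw [hwcast]; linarith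
  have hzℓ : (zf ℓ : ℝ) ≤ ℓ := by
    have : 1 ≤ Real.log (zf ℓ) ^ 3 := one_le_pow₀ (by linarith)
    have h0 : (0 : ℝ) ≤ zf ℓ := Nat.cast_nonneg _
    calc (zf ℓ : ℝ) = zf ℓ * 1 := (mul_one _).symm
      _ ≤ zf ℓ * Real.log (zf ℓ) ^ 3 := mul_le_mul_of_nonneg_left this h0
      _ ≤ ℓ := z3
  have hsq : ℓ ≤ ℓ ^ 2 := by nlinarith
  refine ⟨by linarith, hℓ, by rw [div_le_iff₀ hκ] at hℓκ; linarith, z1, ?_, hwlt, ?_, ?_, ?_, ?_, ?_, ?_, ?_, ?_, ?_, ?_⟩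
  · have : (zf ℓ : ℝ) ≤ wf θ ℓ := by linarith
    exact_mod_cast this
  · have h2 : Real.exp (θ * ℓ / 2) ≤ wf θ ℓ := by
      refine le_trans ?_ hwge
      have h3 : Real.exp (θ * ℓ) = Real.exp (θ * ℓ / 2) * Real.exp (θ * ℓ / 2) := by
        rw [← Real.exp_add]; congr 1; ring
      have h4 : 2 ≤ Real.exp (θ * ℓ / 2) := by
        have := Real.add_one_le_exp (θ * ℓ / 2); linarith
      nlinarith
    calc θ * ℓ / 2 = Real.log (Real.exp (θ * ℓ / 2)) := (Real.log_exp _).symm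
      _ ≤ _ := Real.log_le_log (Real.exp_pos _) h2
  · calc (wf θ ℓ : ℝ) ^ (4 * k + 5) * D2f κ ℓ ≤ (Real.exp (θ * ℓ)) ^ (4 * k + 5) * D2f κ ℓ := by
          apply mul_le_mul_of_nonneg_right _ (Real.exp_pos _).le
          exact pow_le_pow_left₀ (Nat.cast_nonneg _) hwlt.le _
      _ = Real.exp ((1 / 2 - κ) * ℓ) := by
          unfold D2f
          rw [← Real.exp_nat_mul, ← Real.exp_add]
          congr 1
          push_cast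
          rw [← hθk]
          ring
  · unfold zR D2f
    rw [← Real.exp_nat_mul]
    apply Real.exp_le_exp.mpr
    push_cast
    nlinarith
  · unfold yR D2f
    have h2 : Real.exp (ℓ / 3) * 2 < Real.exp (ℓ / 3) * Real.exp 1 := by
      apply mul_lt_mul_of_pos_left _ (Real.exp_pos _)
      have := Real.exp_one_gt_d9; linarith
    calc 2 * Real.exp (ℓ / 3) = Real.exp (ℓ / 3) * 2 := mul_comm _ _
      _ < Real.exp (ℓ / 3) * Real.exp 1 := h2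
      _ = Real.exp (ℓ / 3 + 1) := by rw [Real.exp_add]
      _ ≤ _ := by apply Real.exp_le_exp.mpr; nlinarith
  · unfold zR
    apply Real.exp_le_exp.mpr; nlinarith
  · apply Real.exp_le_exp.mpr; nlinarith
  · unfold zR yR
    calc Real.exp ((ℓ + 1) / 8) ≤ Real.exp (ℓ / 3) := by apply Real.exp_le_exp.mpr; linarith
      _ ≤ _ := by linarith [Real.exp_pos (ℓ / 3)]
  · linarith [Real.exp_pos (θ * ℓ)]
  · unfold yR yy
    have h2 := Nat.lt_floor_add_one (Real.exp (ℓ / 2))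
    have h3 : 3 ≤ Real.exp (ℓ / 6) := by
      have := Real.add_one_le_exp (ℓ / 6); linarith
    have h4 : Real.exp (ℓ / 2) = Real.exp (ℓ / 3) * Real.exp (ℓ / 6) := by
      rw [← Real.exp_add]; congr 1; ring
    have h5 : 1 ≤ Real.exp (ℓ / 3) := Real.one_le_exp (by linarith)
    nlinarith [Real.exp_pos (ℓ / 3)]
  · apply Real.exp_le_exp.mpr; nlinarith

section
variable {κ θ ℓ : ℝ} {k : ℕ} (h : LF κ θ ℓ k)
include h

lemma LF.zpos : (0 : ℝ) < zf ℓ := zw_pos _ h.z1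

lemma LF.mem1 {e t p : ℕ} (hp : p ∈ P1f θ ℓ e t) : p.Prime ∧ zf ℓ < p ∧ p ≤ wf θ ℓ ∧ p ≠ e ∧ ¬ p ∣ t := by
  unfold P1f at hp
  rw [mem_PS] at hp
  tauto

lemma LF.mem2 {e p : ℕ} (hp : p ∈ P2f θ ℓ e) : p.Prime ∧ wf θ ℓ < p ∧ (p : ℝ) < zR ℓ ∧ p ≠ e ∧
    Real.exp (θ * ℓ) ≤ p := by
  unfold P2f at hp
  rw [Finset.mem_erase, Pool.Agent.H90.LS.mem_PI] at hp
  refine ⟨hp.2.1, ?_, hp.2.2.2, hp.1, hp.2.2.1⟩
  have : (wf θ ℓ : ℝ) < p := h.wlt.trans_le hp.2.2.1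
  exact_mod_cast this

lemma LF.mem3 {e p : ℕ} (hp : p ∈ P3f κ θ ℓ e) : p.Prime ∧ wf θ ℓ < p ∧
    (p : ℝ) < Real.exp ((1 / 2 - 2 * κ) * ℓ / 3) ∧ p ≠ e ∧ Real.exp (θ * ℓ) ≤ p := by
  unfold P3f at hp
  rw [Finset.mem_erase, Pool.Agent.H90.LS.mem_PI] at hp
  refine ⟨hp.2.1, ?_, hp.2.2.2, hp.1, hp.2.2.1⟩
  have : (wf θ ℓ : ℝ) < p := h.wlt.trans_le hp.2.2.1
  exact_mod_cast this

lemma LF.memQ {e p : ℕ} (hp : p ∈ Qf ℓ e) : p.Prime ∧ wf θ ℓ < p ∧ zR ℓ ≤ p ∧ (p : ℝ) < yR ℓ ∧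
    p ≠ e ∧ Real.exp (θ * ℓ) ≤ p := by
  unfold Qf at hp
  rw [Finset.mem_erase, Pool.Agent.H90.LS.mem_PI] at hp
  refine ⟨hp.2.1, ?_, hp.2.2.1, hp.2.2.2, hp.1, h.wz.trans hp.2.2.1⟩
  have : (wf θ ℓ : ℝ) < p := h.wlt.trans_le (h.wz.trans hp.2.2.1)
  exact_mod_cast this

lemma LF.not_dvd_t {t p : ℕ} (ht : 0 < t) (htℓ : (t : ℝ) ≤ ℓ ^ 2) (hp : Real.exp (θ * ℓ) ≤ p) :
    ¬ p ∣ t := by
  intro hd
  have h1 := Nat.le_of_dvd ht hd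
  have h2 : (p : ℝ) ≤ t := by exact_mod_cast h1
  linarith [h.ts]

/-- all sieving primes for the first two sums -/
lemma LF.memAll {e t p : ℕ} (ht : 0 < t) (htℓ : (t : ℝ) ≤ ℓ ^ 2)
    (hp : p ∈ Qf ℓ e ∪ P2f θ ℓ e ∪ P1f θ ℓ e t) :
    p.Prime ∧ zf ℓ < p ∧ p ≤ yy ℓ ∧ p ≠ e ∧ ¬ p ∣ t := by
  have hzw := h.zw
  rw [Finset.mem_union, Finset.mem_union] at hp
  rcases hp with (hp | hp) | hp
  · obtain ⟨h1, h2, h3, h4, h5, h6⟩ := h.memQ hp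
    refine ⟨h1, by omega, ?_, h5, h.not_dvd_t ht htℓ h6⟩
    have : (p : ℝ) ≤ yy ℓ := h4.le.trans h.yh
    exact_mod_cast this
  · obtain ⟨h1, h2, h3, h4, h5⟩ := h.mem2 hp
    refine ⟨h1, by omega, ?_, h4, h.not_dvd_t ht htℓ h5⟩
    have : (p : ℝ) ≤ yy ℓ := (h3.le.trans h.zy).trans h.yh
    exact_mod_cast this
  · obtain ⟨h1, h2, h3, h4, h5⟩ := h.mem1 hp
    refine ⟨h1, h2, ?_, h4, h5⟩
    have h6 : (p : ℝ) ≤ wf θ ℓ := by exact_mod_cast h3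
    have : (p : ℝ) ≤ yy ℓ := h6.trans (h.wlt.le.trans (h.wz.trans (h.zy.trans h.yh)))
    exact_mod_cast this

/-- all sieving primes for the third sum -/
lemma LF.memAll3 {e t p : ℕ} (ht : 0 < t) (htℓ : (t : ℝ) ≤ ℓ ^ 2)
    (hp : p ∈ P3f κ θ ℓ e ∪ P1f θ ℓ e t) :
    p.Prime ∧ zf ℓ < p ∧ p ≤ yf ℓ 6 ∧ p ≠ e ∧ ¬ p ∣ t := by
  have hzw := h.zw
  have h6 := h.y6
  unfold yf
  rw [Finset.mem_union] at hp
  rcases hp with hp | hp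
  · obtain ⟨h1, h2, h3, h4, h5⟩ := h.mem3 hp
    refine ⟨h1, by omega, ?_, h4, h.not_dvd_t ht htℓ h5⟩
    apply Nat.le_floor
    push_cast
    exact h3.le.trans h6
  · obtain ⟨h1, h2, h3, h4, h5⟩ := h.mem1 hp
    refine ⟨h1, h2, ?_, h4, h5⟩
    apply Nat.le_floor
    push_cast
    have h7 : (p : ℝ) ≤ wf θ ℓ := by exact_mod_cast h3
    exact h7.trans (h.wlt.le.trans (h.w3.trans h6))

end

/-- products over the sieving primes -/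
lemma prod_g1_le {c : ℝ} (hc : 0 < c) (hcV : ∀ n : ℕ, 2 ≤ n → c / Real.log n ≤ Vp n) (m n : ℕ)
    (hm : 2 ≤ m) (hmn : m ≤ n) (P : Finset ℕ) (hP : P ⊆ primesIoc m n) :
    ∏ p ∈ P, (1 + 1 / ((p : ℝ) - 1)) ≤ Real.log n / (c * Real.log m) := by
  have hm1 : (1 : ℝ) < m := by exact_mod_cast hm
  have hlm : 0 < Real.log m := Real.log_pos hm1
  have hln : 0 < Real.log n := Real.log_pos (by
    have : (m : ℝ) ≤ n := by exact_mod_cast hmn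
    linarith)
  set Q := ∏ p ∈ primesIoc m n, (1 - 1 / (p : ℝ)) with hQ
  have hQmul := Vp_mul m n hmn
  have hVm := Vp_pos m
  have hVm2 := Vp_le m hm
  have hVn := hcV n (by omega)
  have hQ0 : 0 < Q := Finset.prod_pos (fun p hp => one_sub_inv_pos (mem_primesIoc.mp hp).2.2)
  have hQlow : c * Real.log m / Real.log n ≤ Q := by
    have h1 : c / Real.log n ≤ 1 / Real.log m * Q := by
      calc c / Real.log n ≤ Vp n := hVn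
        _ = Vp m * Q := hQmul.symm
        _ ≤ 1 / Real.log m * Q := mul_le_mul_of_nonneg_right hVm2 hQ0.le
    calc c * Real.log m / Real.log n = Real.log m * (c / Real.log n) := by ring
      _ ≤ Real.log m * (1 / Real.log m * Q) := mul_le_mul_of_nonneg_left h1 hlm.le
      _ = Q := by field_simp
  have h1 : ∏ p ∈ P, (1 + 1 / ((p : ℝ) - 1)) = (∏ p ∈ P, (1 - 1 / (p : ℝ)))⁻¹ := by
    rw [← Finset.prod_inv_distrib]
    apply Finset.prod_congr rfl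
    intro p hp
    have hp1 : (1 : ℝ) < p := by exact_mod_cast (mem_primesIoc.mp (hP hp)).2.2.one_lt
    have h2 : (p : ℝ) - 1 ≠ 0 := by linarith
    have h3 : (p : ℝ) ≠ 0 := by linarith
    field_simp
    ring
  have h2 : Q ≤ ∏ p ∈ P, (1 - 1 / (p : ℝ)) := by
    rw [hQ, ← Finset.prod_sdiff hP]
    have hpos : 0 < ∏ p ∈ P, (1 - 1 / (p : ℝ)) :=
      Finset.prod_pos (fun p hp => one_sub_inv_pos (mem_primesIoc.mp (hP hp)).2.2)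
    exact mul_le_of_le_one_left hpos.le (prod_one_sub_le_one _)
  rw [h1]
  calc (∏ p ∈ P, (1 - 1 / (p : ℝ)))⁻¹ ≤ (c * Real.log m / Real.log n)⁻¹ := by
        apply inv_anti₀ (by positivity) (hQlow.trans h2)
    _ = _ := inv_div _ _

/-- lower bound for the product of the first range -/
lemma V1_lower {c : ℝ} (hc : 0 < c) (hcV : ∀ n : ℕ, 2 ≤ n → c / Real.log n ≤ Vp n)
    {κ θ ℓ : ℝ} {k : ℕ} (hθ : 0 < θ) (h : LF κ θ ℓ k) (e t : ℕ) :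
    c / 2 * (Real.log (zf ℓ) / (θ * ℓ)) ≤ ∏ p ∈ P1f θ ℓ e t, (1 - g1 p) := by
  have hzl := zw_large _ h.z1
  have hℓ0 : 0 < ℓ := by linarith [h.ℓ30]
  have hz100 : 100 ≤ zf ℓ := by
    have : (100 : ℝ) ≤ zf ℓ := by linarith
    exact_mod_cast this
  have h1 := prod_g_ge (zf ℓ) (wf θ ℓ) hz100 (P1f θ ℓ e t) (Finset.filter_subset _ _)
  refine le_trans ?_ h1
  have hlz : 0 < Real.log (zf ℓ) := by linarith [h.z1]
  have hlw : 0 < Real.log (wf θ ℓ) := by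
    have := h.wlog
    have : 0 < θ * ℓ / 2 := by positivity
    linarith
  have hwpos : (0 : ℝ) < wf θ ℓ := by
    have : (zf ℓ : ℝ) ≤ wf θ ℓ := by exact_mod_cast h.zw
    linarith
  have hlw2 : Real.log (wf θ ℓ) ≤ θ * ℓ := by
    rw [Real.log_le_iff_le_exp hwpos]; exact h.wlt.le
  set Q := ∏ p ∈ primesIoc (zf ℓ) (wf θ ℓ), (1 - 1 / (p : ℝ)) with hQ
  have hQmul := Vp_mul (zf ℓ) (wf θ ℓ) h.zw
  have hVm := Vp_pos (zf ℓ)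
  have hVm2 := Vp_le (zf ℓ) (by omega)
  have hVn := hcV (wf θ ℓ) (by have := h.zw; omega)
  have hQ0 : 0 < Q := Finset.prod_pos (fun p hp => one_sub_inv_pos (mem_primesIoc.mp hp).2.2)
  have h2 : c / Real.log (wf θ ℓ) ≤ 1 / Real.log (zf ℓ) * Q := by
    calc c / Real.log (wf θ ℓ) ≤ Vp (wf θ ℓ) := hVn
      _ = Vp (zf ℓ) * Q := hQmul.symm
      _ ≤ 1 / Real.log (zf ℓ) * Q := mul_le_mul_of_nonneg_right hVm2 hQ0.le
  have h3 : c * (Real.log (zf ℓ) / (θ * ℓ)) ≤ Q := by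
    calc c * (Real.log (zf ℓ) / (θ * ℓ)) ≤ c * (Real.log (zf ℓ) / Real.log (wf θ ℓ)) := by
          apply mul_le_mul_of_nonneg_left _ hc.le
          exact div_le_div_of_nonneg_left hlz.le hlw hlw2
      _ = Real.log (zf ℓ) * (c / Real.log (wf θ ℓ)) := by ring
      _ ≤ Real.log (zf ℓ) * (1 / Real.log (zf ℓ) * Q) := mul_le_mul_of_nonneg_left h2 hlz.le
      _ = Q := by field_simp
  linarith

end Pool.Agent.H16
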