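import Pool.Agent.H16.CH3

/-!
Chen's sieve: numerical values of the main terms.
-/

set_option autoImplicit false

open Finset Filter Topology

namespace Pool.Agent.H16

open Pool.Agent.H90 (LS.lam LS.W LS.PI LS.Dim LS.AA)

/-- the conclusion of the linear sieve at `w = exp (θ ℓ)` -/
def LSat (θ ε ℓ : ℝ) : Prop := ∀ (e : ℕ) (z D : ℝ), Real.exp (θ * ℓ) ≤ z → 0 < D →
  Real.log D ≤ 1 / θ * (θ * ℓ) →
  (1 ≤ Real.log D / Real.log z → Real.log D / Real.log z ≤ 3 →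
    LS.W true D ((LS.PI (Real.exp (θ * ℓ)) z).erase e) g1 ≤
      θ * ℓ / Real.log z * (LS.AA / (Real.log D / Real.log z) + ε)) ∧
  (2 ≤ Real.log D / Real.log z → Real.log D / Real.log z ≤ 4 →
    θ * ℓ / Real.log z * (LS.AA * Real.log (Real.log D / Real.log z - 1) /
      (Real.log D / Real.log z) - ε) ≤ LS.W false D ((LS.PI (Real.exp (θ * ℓ)) z).erase e) g1)

lemma ev_LSat (θ ε : ℝ) (hθ : 0 < θ) (hε : 0 < ε) : ∀ᶠ ℓ : ℝ in atTop, LSat θ ε ℓ := by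
  obtain ⟨w0, hw0, H⟩ := LSmain (1 / θ) ε hε
  have h1 : Tendsto (fun ℓ : ℝ => Real.exp (θ * ℓ)) atTop atTop :=
    Real.tendsto_exp_atTop.comp (tendsto_id.const_mul_atTop hθ)
  filter_upwards [h1.eventually (eventually_ge_atTop w0)] with ℓ hw e z D hz hD hlog
  have h2 := H (Real.exp (θ * ℓ)) hw e z D hz hD (by rw [Real.log_exp]; exact hlog)
  rw [Real.log_exp] at h2
  exact h2

section
variable {κ θ ε ℓ : ℝ} {k : ℕ}

lemma inv_th (hθ : 0 < θ) : 1 / θ * (θ * ℓ) = ℓ := by field_simp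

lemma div_third {a : ℝ} (ha : a ≠ 0) : a / (a / 3) = 3 := by field_simp

lemma D2f_pos (κ ℓ : ℝ) : 0 < D2f κ ℓ := Real.exp_pos _

lemma log_zR (ℓ : ℝ) : Real.log (zR ℓ) = (ℓ + 1) / 8 := by unfold zR; rw [Real.log_exp]

lemma log_D2f (κ ℓ : ℝ) : Real.log (D2f κ ℓ) = (1 / 2 - 2 * κ) * ℓ := by
  unfold D2f; rw [Real.log_exp]

/-- lower bound main term -/
lemma Wminus_lower (hκ : 0 < κ) (hκ1 : κ ≤ 1 / 100) (hθ : 0 < θ) (hε : 0 < ε) (h : LF κ θ ℓ k)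
    (hL : LSat θ ε ℓ) (e : ℕ) :
    2 * θ * LS.AA * Real.log (3 - 17 * κ) - 8 * θ * ε ≤ LS.W false (D2f κ ℓ) (P2f θ ℓ e) g1 := by
  have hℓ := h.ℓk
  have hℓ0 : 0 < ℓ := by linarith
  have hAA := Pool.Agent.H90.LS.AA_pos
  have h1 := (hL e (zR ℓ) (D2f κ ℓ) h.wz (Real.exp_pos _) (by
    rw [log_D2f, inv_th hθ]
    nlinarith)).2
  rw [log_zR, log_D2f] at h1
  set s := (1 / 2 - 2 * κ) * ℓ / ((ℓ + 1) / 8) with hs
  have hl1 : 0 < (ℓ + 1) / 8 := by linarith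
  have hs4 : s ≤ 4 := by
    rw [hs, div_le_iff₀ hl1]; nlinarith
  have hs3 : 4 - 17 * κ ≤ s := by
    rw [hs, le_div_iff₀ hl1]
    have := h.κℓ
    nlinarith
  have hs2 : 2 ≤ s := by linarith
  have h2 := h1 hs2 hs4
  unfold P2f
  refine le_trans ?_ h2
  rw [mul_sub]
  have hlog : Real.log (3 - 17 * κ) ≤ Real.log (s - 1) := Real.log_le_log (by linarith) (by linarith)
  have hlog0 : 0 ≤ Real.log (3 - 17 * κ) := Real.log_nonneg (by linarith)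
  have e1 : θ * ℓ / ((ℓ + 1) / 8) * (LS.AA * Real.log (s - 1) / s) =
      θ * LS.AA * Real.log (s - 1) / (1 / 2 - 2 * κ) := by
    rw [hs]
    have : (1 / 2 - 2 * κ) ≠ 0 := by linarith
    have : ℓ + 1 ≠ 0 := by linarith
    field_simp
  have e2 : θ * ℓ / ((ℓ + 1) / 8) * ε ≤ 8 * θ * ε := by
    apply mul_le_mul_of_nonneg_right _ hε.le
    rw [div_le_iff₀ hl1]
    nlinarith
  have e3 : 2 * θ * LS.AA * Real.log (3 - 17 * κ) ≤ θ * LS.AA * Real.log (s - 1) / (1 / 2 - 2 * κ) := by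
    rw [le_div_iff₀ (by linarith)]
    have hA : 0 < θ * LS.AA := by positivity
    calc 2 * θ * LS.AA * Real.log (3 - 17 * κ) * (1 / 2 - 2 * κ) =
        (θ * LS.AA * Real.log (3 - 17 * κ)) * (1 - 4 * κ) := by ring
      _ ≤ (θ * LS.AA * Real.log (3 - 17 * κ)) * 1 :=
          mul_le_mul_of_nonneg_left (by linarith) (mul_nonneg hA.le hlog0)
      _ ≤ θ * LS.AA * Real.log (s - 1) := by
          rw [mul_one]; exact mul_le_mul_of_nonneg_left hlog hA.le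
  rw [e1]
  linarith

/-- upper bound for one `q` -/
lemma Wplus_q (hκ : 0 < κ) (hκ1 : κ ≤ 1 / 100) (hθ : 0 < θ) (hε : 0 < ε) (h : LF κ θ ℓ k)
    (hL : LSat θ ε ℓ) (e q : ℕ) (hq : q ∈ Qf ℓ e) :
    LS.W true (D2f κ ℓ / q) (P2f θ ℓ e) g1 ≤
      θ * LS.AA * (1 / ((1 / 2 - 2 * κ) - Real.log q / ℓ)) + 8 * θ * ε ∧
      2 ≤ 1 / ((1 / 2 - 2 * κ) - Real.log q / ℓ) := by
  have hℓ := h.ℓk
  have hℓ0 : 0 < ℓ := by linarith
  have hAA := Pool.Agent.H90.LS.AA_pos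
  obtain ⟨hqp, _, hqz, hqy, _, _⟩ := h.memQ hq
  have hq0 : (0 : ℝ) < q := by exact_mod_cast hqp.pos
  have hlq1 : (ℓ + 1) / 8 ≤ Real.log q := by
    rw [← log_zR]; exact Real.log_le_log (zR_pos ℓ) hqz
  have hlq2 : Real.log q ≤ ℓ / 3 + 1 := by
    have h1 : Real.log q ≤ Real.log (yR ℓ) := Real.log_le_log hq0 hqy.le
    have h2 : Real.log (yR ℓ) = Real.log 2 + ℓ / 3 := by
      unfold yR; rw [Real.log_mul (by norm_num) (Real.exp_pos _).ne', Real.log_exp]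
    have h3 := Real.log_two_lt_d9
    linarith
  have hlogD : Real.log (D2f κ ℓ / q) = (1 / 2 - 2 * κ) * ℓ - Real.log q := by
    rw [Real.log_div (D2f_pos κ ℓ).ne' hq0.ne', log_D2f]
  have h1 := (hL e (zR ℓ) (D2f κ ℓ / q) h.wz (div_pos (Real.exp_pos _) hq0) (by
    rw [hlogD, inv_th hθ]
    have : 0 ≤ Real.log q := by linarith
    nlinarith)).1
  rw [log_zR, hlogD] at h1
  have hl1 : 0 < (ℓ + 1) / 8 := by linarith
  have hDpos : (ℓ + 1) / 8 ≤ (1 / 2 - 2 * κ) * ℓ - Real.log q := by nlinarith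
  have h2 := h1 (by rw [le_div_iff₀ hl1]; linarith) (by rw [div_le_iff₀ hl1]; nlinarith)
  have hden : 0 < (1 / 2 - 2 * κ) - Real.log q / ℓ := by
    have : Real.log q / ℓ < (1 / 2 - 2 * κ) := by
      rw [div_lt_iff₀ hℓ0]; linarith
    linarith
  constructor
  · unfold P2f
    refine h2.trans ?_
    rw [mul_add]
    have e1 : θ * ℓ / ((ℓ + 1) / 8) * (LS.AA / (((1 / 2 - 2 * κ) * ℓ - Real.log q) / ((ℓ + 1) / 8))) =
        θ * LS.AA * (1 / ((1 / 2 - 2 * κ) - Real.log q / ℓ)) := by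
      have h3 : (1 / 2 - 2 * κ) * ℓ - Real.log q ≠ 0 := by linarith
      have h4 : ℓ + 1 ≠ 0 := by linarith
      have h5 : (1 / 2 - 2 * κ) - Real.log q / ℓ = ((1 / 2 - 2 * κ) * ℓ - Real.log q) / ℓ := by
        field_simp
      rw [h5]
      field_simp
    have e2 : θ * ℓ / ((ℓ + 1) / 8) * ε ≤ 8 * θ * ε := by
      apply mul_le_mul_of_nonneg_right _ hε.le
      rw [div_le_iff₀ hl1]
      nlinarith
    rw [e1]
    linarith
  · rw [le_div_iff₀ hden]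
    have : 0 ≤ Real.log q / ℓ := by
      apply div_nonneg _ hℓ0.le
      linarith
    linarith

/-- upper bound for the third sum -/
lemma Wplus_3 (hκ1 : κ ≤ 1 / 100) (hκ : 0 < κ) (hθ : 0 < θ) (h : LF κ θ ℓ k)
    (hL : LSat θ ε ℓ) (e : ℕ) :
    LS.W true (D2f κ ℓ) (P3f κ θ ℓ e) g1 ≤ θ * ((LS.AA + 3 * ε) / (1 / 2 - 2 * κ)) := by
  have hℓ := h.ℓk
  have hℓ0 : 0 < ℓ := by linarith
  have h1 := (hL e (Real.exp ((1 / 2 - 2 * κ) * ℓ / 3)) (D2f κ ℓ) h.w3 (Real.exp_pos _) (by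
    rw [log_D2f, inv_th hθ]
    nlinarith)).1
  rw [log_D2f, Real.log_exp] at h1
  have hne : (1 / 2 - 2 * κ) ≠ 0 := by linarith
  have e1 : (1 / 2 - 2 * κ) * ℓ / ((1 / 2 - 2 * κ) * ℓ / 3) = 3 :=
    div_third (mul_ne_zero hne hℓ0.ne')
  rw [e1] at h1
  have h2 := h1 (by norm_num) le_rfl
  unfold P3f
  refine h2.trans (le_of_eq ?_)
  field_simp

/-- `S2Sum` -/
def S2Sum : Prop := ∀ ε : ℝ, 0 < ε → ∃ k0 : ℝ, 0 < k0 ∧ ∀ κ : ℝ, 0 < κ → κ ≤ k0 → ∃ L0 : ℝ,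
  ∀ ℓ : ℝ, L0 ≤ ℓ → ∑ q ∈ LS.PI (Real.exp (ℓ / 8)) (2 * Real.exp (ℓ / 3)),
    1 / ((q : ℝ) - 1) * (1 / ((1 / 2 - κ) - Real.log q / ℓ)) ≤ 2 * Real.log 6 + ε

/-- the sum over `q` -/
lemma sumQ (hκ : 0 < κ) (hκ1 : κ ≤ 1 / 100) (hθ : 0 < θ) (hε : 0 < ε) (hε1 : ε ≤ 1) (h : LF κ θ ℓ k)
    (hL : LSat θ ε ℓ)
    (hS2 : ∑ q ∈ LS.PI (Real.exp (ℓ / 8)) (2 * Real.exp (ℓ / 3)),
    1 / ((q : ℝ) - 1) * (1 / ((1 / 2 - 2 * κ) - Real.log q / ℓ)) ≤ 2 * Real.log 6 + ε) (e : ℕ) :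
    ∑ q ∈ Qf ℓ e, g1 q * LS.W true (D2f κ ℓ / q) (P2f θ ℓ e) g1 ≤
      θ * LS.AA * (2 * Real.log 6 + ε) + 48 * θ * ε ∧ ∑ q ∈ Qf ℓ e, g1 q ≤ 6 := by
  have hℓ := h.ℓk
  have hℓ0 : 0 < ℓ := by linarith
  have hAA := Pool.Agent.H90.LS.AA_pos
  have hg0 : ∀ q ∈ Qf ℓ e, 0 ≤ g1 q := fun q hq => g1_nonneg (h.memQ hq).1.one_le
  have hsub : Qf ℓ e ⊆ LS.PI (Real.exp (ℓ / 8)) (2 * Real.exp (ℓ / 3)) := by
    intro q hq
    obtain ⟨hqp, _, hqz, hqy, _, _⟩ := h.memQ hq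
    rw [Pool.Agent.H90.LS.mem_PI]
    refine ⟨hqp, le_trans ?_ hqz, hqy⟩
    unfold zR; apply Real.exp_le_exp.mpr; linarith
  have hsumle : ∑ q ∈ Qf ℓ e, g1 q * (1 / ((1 / 2 - 2 * κ) - Real.log q / ℓ)) ≤ 2 * Real.log 6 + ε := by
    refine le_trans ?_ hS2
    apply Finset.sum_le_sum_of_subset_of_nonneg hsub
    intro q hq _
    rw [Pool.Agent.H90.LS.mem_PI] at hq
    have hq2 : (2 : ℝ) ≤ q := by exact_mod_cast hq.1.two_le
    have hq0 : (0 : ℝ) < q := by linarith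
    apply mul_nonneg
    · apply div_nonneg zero_le_one; linarith
    · apply div_nonneg zero_le_one
      have h1 : Real.log q ≤ Real.log 2 + ℓ / 3 := by
        have h3 : Real.log q ≤ Real.log (2 * Real.exp (ℓ / 3)) := Real.log_le_log hq0 hq.2.2.le
        rwa [Real.log_mul (by norm_num) (Real.exp_pos _).ne', Real.log_exp] at h3
      have h3 := Real.log_two_lt_d9
      have h4 : Real.log q / ℓ ≤ 1 / 2 - 2 * κ := by
        rw [div_le_iff₀ hℓ0]; nlinarith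
      linarith
  have hsumg : ∑ q ∈ Qf ℓ e, g1 q ≤ 6 := by
    have h1 : 2 * ∑ q ∈ Qf ℓ e, g1 q ≤ ∑ q ∈ Qf ℓ e, g1 q * (1 / ((1 / 2 - 2 * κ) - Real.log q / ℓ)) := by
      rw [Finset.mul_sum]
      apply Finset.sum_le_sum
      intro q hq
      rw [mul_comm]
      exact mul_le_mul_of_nonneg_left (Wplus_q hκ hκ1 hθ hε h hL e q hq).2 (hg0 q hq)
    have h2 : Real.log 6 ≤ 5 := by
      have := Real.log_le_sub_one_of_pos (show (0 : ℝ) < 6 by norm_num)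
      linarith
    linarith
  refine ⟨?_, hsumg⟩
  calc ∑ q ∈ Qf ℓ e, g1 q * LS.W true (D2f κ ℓ / q) (P2f θ ℓ e) g1 ≤
      ∑ q ∈ Qf ℓ e, (θ * LS.AA * (g1 q * (1 / ((1 / 2 - 2 * κ) - Real.log q / ℓ))) +
        8 * θ * ε * g1 q) := by
        apply Finset.sum_le_sum
        intro q hq
        have h1 := mul_le_mul_of_nonneg_left (Wplus_q hκ hκ1 hθ hε h hL e q hq).1 (hg0 q hq)
        refine h1.trans (le_of_eq ?_)
        ring
    _ = θ * LS.AA * ∑ q ∈ Qf ℓ e, (g1 q * (1 / ((1 / 2 - 2 * κ) - Real.log q / ℓ))) +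
        8 * θ * ε * ∑ q ∈ Qf ℓ e, g1 q := by
        rw [Finset.sum_add_distrib, Finset.mul_sum, Finset.mul_sum]
    _ ≤ θ * LS.AA * (2 * Real.log 6 + ε) + 8 * θ * ε * 6 := by
        apply add_le_add
        · exact mul_le_mul_of_nonneg_left hsumle (by positivity)
        · exact mul_le_mul_of_nonneg_left hsumg (by positivity)
    _ = _ := by ring

/-- the products over `P2`, `P3` -/
lemma GV_le {c : ℝ} (hc : 0 < c) (hcV : ∀ n : ℕ, 2 ≤ n → c / Real.log n ≤ Vp n) (hθ : 0 < θ)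
    (h : LF κ θ ℓ k) (e : ℕ) :
    ∏ p ∈ P2f θ ℓ e, (1 + g1 p) ≤ 1 / (c * θ) ∧ ∏ p ∈ P3f κ θ ℓ e, (1 + g1 p) ≤ 1 / (c * θ) := by
  have hℓ := h.ℓk
  have hℓ0 : 0 < ℓ := by linarith
  have hzl := zw_large _ h.z1
  have hw2 : 2 ≤ wf θ ℓ := by
    have h1 : (2 : ℝ) ≤ zf ℓ := by linarith
    have h2 : 2 ≤ zf ℓ := by exact_mod_cast h1
    have := h.zw
    omega
  have hwlog : 0 < Real.log (wf θ ℓ) := by
    have h1 := h.wlog
    have h2 : 0 < θ * ℓ / 2 := by positivity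
    linarith
  -- general statement
  have gen : ∀ (P : Finset ℕ) (Z : ℝ), Real.exp (θ * ℓ) ≤ Z → Real.log Z ≤ ℓ / 4 →
      (∀ p ∈ P, p.Prime ∧ wf θ ℓ < p ∧ (p : ℝ) ≤ Z) → ∏ p ∈ P, (1 + g1 p) ≤ 1 / (c * θ) := by
    intro P Z hZw hZ hP
    have hZ0 : 0 < Z := (Real.exp_pos _).trans_le hZw
    have hwZ : wf θ ℓ ≤ ⌊Z⌋₊ := Nat.le_floor (h.wlt.le.trans hZw)
    have h1 := prod_g1_le hc hcV (wf θ ℓ) ⌊Z⌋₊ hw2 hwZ P (by
      intro p hp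
      rw [mem_primesIoc]
      exact ⟨(hP p hp).2.1, Nat.le_floor (hP p hp).2.2, (hP p hp).1⟩)
    refine le_trans h1 ?_
    have hfl : (⌊Z⌋₊ : ℝ) ≤ Z := Nat.floor_le hZ0.le
    have hfl0 : (0 : ℝ) < ⌊Z⌋₊ := by
      have : 0 < ⌊Z⌋₊ := by omega
      exact_mod_cast this
    have h2 : Real.log ⌊Z⌋₊ ≤ ℓ / 4 := (Real.log_le_log hfl0 hfl).trans hZ
    calc Real.log ⌊Z⌋₊ / (c * Real.log (wf θ ℓ)) ≤ (ℓ / 4) / (c * (θ * ℓ / 2)) := by
          apply div_le_div₀ (by positivity) h2 (by positivity)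
          exact mul_le_mul_of_nonneg_left h.wlog hc.le
      _ = 1 / 2 * (1 / (c * θ)) := by field_simp; ring
      _ ≤ 1 / (c * θ) := by
          have : 0 < 1 / (c * θ) := by positivity
          linarith
  constructor
  · apply gen _ (zR ℓ) h.wz (by rw [log_zR]; linarith)
    intro p hp
    obtain ⟨h1, h2, h3, _, _⟩ := h.mem2 hp
    exact ⟨h1, h2, h3.le⟩
  · apply gen _ (Real.exp ((1 / 2 - 2 * κ) * ℓ / 3)) h.w3
    · have := Real.log_le_log (Real.exp_pos _) h.y6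
      rw [Real.log_exp (ℓ / 6)] at this
      linarith
    · intro p hp
      obtain ⟨h1, h2, h3, _, _⟩ := h.mem3 hp
      exact ⟨h1, h2, h3.le⟩

end

end Pool.Agent.H16
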