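import Pool.Agent.H16.CH4

/-!
Chen's sieve: the three sums with remainders.
-/

set_option autoImplicit false

open Finset Filter Topology

namespace Pool.Agent.H16

open Pool.Agent.H90 (LS.lam LS.W LS.PI LS.Dim LS.AA)

/-- the residue class -/
noncomputable def SS (ℓ : ℝ) (e A0 : ℕ) : Finset ℕ :=
  (Ioc 0 ⌊Real.exp ℓ⌋₊).filter (fun n => n ≡ A0 [MOD WW (zf ℓ) e])

noncomputable def XX (ℓ : ℝ) : ℝ := ∑ n ∈ Ioc 0 ⌊Real.exp ℓ⌋₊, aw ℓ (yy ℓ) n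

noncomputable def wC (κ ℓ : ℝ) (n : ℕ) : ℝ := wB ℓ (BCh ℓ) ⌊Real.exp (κ / 4 * ℓ)⌋₊ n

noncomputable def XC (κ ℓ : ℝ) : ℝ := ∑ n ∈ Ioc 0 ⌊Real.exp ℓ⌋₊, wC κ ℓ n

/-- totient of the modulus -/
noncomputable def φW (ℓ : ℝ) (e : ℕ) : ℝ := ((WW (zf ℓ) e).totient : ℝ)

noncomputable def cA (t : ℕ) (n p : ℕ) : ℝ := cb (fun p => t * (p - 1)) n p
noncomputable def cC (t : ℕ) (n p : ℕ) : ℝ := cb (fun _ => t) n p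

noncomputable def RA (κ θ ℓ : ℝ) (e t A0 : ℕ) : ℝ :=
  ∑ D ∈ lev (Qf ℓ e ∪ P2f θ ℓ e ∪ P1f θ ℓ e t) (Real.exp ((1 / 2 - κ) * ℓ)),
    |RD (SS ℓ e A0) (aw ℓ (yy ℓ)) (cA t) (XX ℓ / φW ℓ e) g1 D|

noncomputable def RB (κ θ ℓ : ℝ) (e t A0 : ℕ) : ℝ :=
  ∑ D ∈ lev (P3f κ θ ℓ e ∪ P1f θ ℓ e t) (Real.exp ((1 / 2 - κ) * ℓ)),
    |RD (SS ℓ e (A0 + t)) (wC κ ℓ) (cC t) (XC κ ℓ / φW ℓ e) g1 D|

noncomputable def V1f (θ ℓ : ℝ) (e t : ℕ) : ℝ := ∏ p ∈ P1f θ ℓ e t, (1 - g1 p)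

lemma φW_pos (ℓ : ℝ) (e : ℕ) : 0 < φW ℓ e := by
  unfold φW; exact_mod_cast Nat.totient_pos.mpr (WW_pos _ _)

lemma XX_nonneg (ℓ : ℝ) : 0 ≤ XX ℓ := Finset.sum_nonneg (fun n _ => aw_nonneg ℓ _ n)

lemma wC_nonneg {ℓ : ℝ} (hℓ : 30 ≤ ℓ) (κ : ℝ) (n : ℕ) : 0 ≤ wC κ ℓ n :=
  wB_nonneg ℓ _ (BCh_nonneg hℓ) _ n

lemma XC_nonneg {ℓ : ℝ} (hℓ : 30 ≤ ℓ) (κ : ℝ) : 0 ≤ XC κ ℓ :=
  Finset.sum_nonneg (fun n _ => wC_nonneg hℓ κ n)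

section
variable {κ θ ε ℓ : ℝ} {k : ℕ}

lemma g1_four {z p : ℕ} (hz : 100 ≤ Real.log z) (hp : z < p) : g1 p ≤ 4 / p := by
  have h1 := zw_large z hz
  have h2 : (z : ℝ) < p := by exact_mod_cast hp
  unfold g1
  rw [div_le_div_iff₀ (by linarith) (by linarith)]
  linarith

lemma csA (h : LF κ θ ℓ k) (e t A0 : ℕ) : CSData (SS ℓ e A0) (aw ℓ (yy ℓ)) (cA t) (XX ℓ / φW ℓ e)
    (zf ℓ) (wf θ ℓ) (P1f θ ℓ e t) (P2f θ ℓ e) g1 where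
  hz := h.z1
  hzw := h.zw
  hP1 := fun p hp => (h.mem1 hp).1
  hP1z := fun p hp => (h.mem1 hp).2.1
  hP1w := fun p hp => (h.mem1 hp).2.2.1
  hP2 := fun p hp => (h.mem2 hp).1
  hP2w := fun p hp => (h.mem2 hp).2.1
  hg1 := fun p hp => g1_nonneg (h.mem1 hp).1.one_le
  hg2 := fun p hp => g1_nonneg (h.mem2 hp).1.one_le
  hg4 := fun p hp => g1_four h.z1 (h.mem1 hp).2.1
  ha := fun n _ => aw_nonneg ℓ _ n
  hc0 := fun n p => cb_nonneg _ n p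
  hc1 := fun n p => cb_le_one _ n p
  hX := div_nonneg (XX_nonneg ℓ) (φW_pos ℓ e).le

lemma csC (h : LF κ θ ℓ k) (e t A0 : ℕ) : CSData (SS ℓ e (A0 + t)) (wC κ ℓ) (cC t)
    (XC κ ℓ / φW ℓ e) (zf ℓ) (wf θ ℓ) (P1f θ ℓ e t) (P3f κ θ ℓ e) g1 where
  hz := h.z1
  hzw := h.zw
  hP1 := fun p hp => (h.mem1 hp).1
  hP1z := fun p hp => (h.mem1 hp).2.1
  hP1w := fun p hp => (h.mem1 hp).2.2.1
  hP2 := fun p hp => (h.mem3 hp).1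
  hP2w := fun p hp => (h.mem3 hp).2.1
  hg1 := fun p hp => g1_nonneg (h.mem1 hp).1.one_le
  hg2 := fun p hp => g1_nonneg (h.mem3 hp).1.one_le
  hg4 := fun p hp => g1_four h.z1 (h.mem1 hp).2.1
  ha := fun n _ => wC_nonneg h.ℓ30 κ n
  hc0 := fun n p => cb_nonneg _ n p
  hc1 := fun n p => cb_le_one _ n p
  hX := div_nonneg (XC_nonneg h.ℓ30 κ) (φW_pos ℓ e).le

lemma wlog_le (hθ : 0 < θ) (hθ1 : θ ≤ 1) (h : LF κ θ ℓ k) :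
    0 ≤ Real.log (wf θ ℓ) ∧ Real.log (wf θ ℓ) ≤ ℓ := by
  have hℓ0 : 0 < ℓ := by linarith [h.ℓ30]
  have hw0 : (0 : ℝ) < wf θ ℓ := by
    have h1 := zw_pos _ h.z1
    have h2 : (zf ℓ : ℝ) ≤ wf θ ℓ := by exact_mod_cast h.zw
    linarith
  constructor
  · have h1 := h.wlog
    have : 0 < θ * ℓ / 2 := by positivity
    linarith
  · have : Real.log (wf θ ℓ) ≤ θ * ℓ := by
      rw [Real.log_le_iff_le_exp hw0]; exact h.wlt.le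
    nlinarith

theorem S1_bound {C c : ℝ} (hC : IsCS C) (hk : C * (1 / 2) ^ k ≤ 1) (hc : 0 < c)
    (hcV : ∀ n : ℕ, 2 ≤ n → c / Real.log n ≤ Vp n)
    (hκ : 0 < κ) (hκ1 : κ ≤ 1 / 100) (hθ : 0 < θ) (hθ1 : θ ≤ 1) (hε : 0 < ε) (h : LF κ θ ℓ k)
    (hL : LSat θ ε ℓ) (e t A0 : ℕ) :
    XX ℓ / φW ℓ e * V1f θ ℓ e t * (2 * θ * LS.AA * Real.log (3 - 17 * κ) - 8 * θ * ε -
      C * (1 / 2) ^ k * (1 / (c * θ))) - 2 * ℓ * RA κ θ ℓ e t A0 ≤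
    ∑ n ∈ SS ℓ e A0, aw ℓ (yy ℓ) n * ((∏ p ∈ P1f θ ℓ e t, (1 - cA t n p)) *
      ∏ p ∈ P2f θ ℓ e, (1 - cA t n p)) := by
  have hd := csA h e t A0
  have hD1 : 1 < D2f κ ℓ := by
    unfold D2f
    apply Real.one_lt_exp_iff.mpr
    have := h.ℓk
    nlinarith
  have h1 := comp_lower hC k hk hd (D2f κ ℓ) hD1 (by
    intro p hp
    obtain ⟨_, _, h3, _, _⟩ := h.mem2 hp
    exact (pow_le_pow_left₀ (Nat.cast_nonneg _) h3.le 2).trans h.zR2)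
  refine le_trans ?_ h1
  have hXV : 0 ≤ XX ℓ / φW ℓ e * V1f θ ℓ e t := mul_nonneg hd.hX hd.V1_nonneg
  have hW := Wminus_lower hκ hκ1 hθ hε h hL e
  have hG := (GV_le hc hcV hθ h e).1
  have hE0 : 0 ≤ C * (1 / 2) ^ k := mul_nonneg hC.1.le (by positivity)
  have hEG := mul_le_mul_of_nonneg_left hG hE0
  obtain ⟨hl0, hl1⟩ := wlog_le hθ hθ1 h
  apply sub_le_sub
  · apply mul_le_mul_of_nonneg_left _ hXV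
    linarith
  · have hR0 : 0 ≤ ∑ D ∈ lev (P2f θ ℓ e ∪ P1f θ ℓ e t) ((wf θ ℓ : ℝ) ^ (4 * k + 5) * D2f κ ℓ),
      |RD (SS ℓ e A0) (aw ℓ (yy ℓ)) (cA t) (XX ℓ / φW ℓ e) g1 D| :=
      Finset.sum_nonneg (fun _ _ => abs_nonneg _)
    calc 2 * Real.log (wf θ ℓ) * ∑ D ∈ lev (P2f θ ℓ e ∪ P1f θ ℓ e t)
          ((wf θ ℓ : ℝ) ^ (4 * k + 5) * D2f κ ℓ),
          |RD (SS ℓ e A0) (aw ℓ (yy ℓ)) (cA t) (XX ℓ / φW ℓ e) g1 D| ≤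
        2 * ℓ * ∑ D ∈ lev (P2f θ ℓ e ∪ P1f θ ℓ e t) ((wf θ ℓ : ℝ) ^ (4 * k + 5) * D2f κ ℓ),
          |RD (SS ℓ e A0) (aw ℓ (yy ℓ)) (cA t) (XX ℓ / φW ℓ e) g1 D| := by
          apply mul_le_mul_of_nonneg_right _ hR0
          linarith
      _ ≤ 2 * ℓ * RA κ θ ℓ e t A0 := by
          apply mul_le_mul_of_nonneg_left _ (by linarith [h.ℓ30])
          unfold RA
          apply Finset.sum_le_sum_of_subset_of_nonneg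
          · apply lev_mono _ h.wpow
            intro p hp
            rw [Finset.mem_union] at hp ⊢
            rw [Finset.mem_union]
            tauto
          · intro _ _ _; exact abs_nonneg _

theorem S2_bound {C c : ℝ} (hC : IsCS C) (hk : C * (1 / 2) ^ k ≤ 1) (hc : 0 < c)
    (hcV : ∀ n : ℕ, 2 ≤ n → c / Real.log n ≤ Vp n)
    (hκ : 0 < κ) (hκ1 : κ ≤ 1 / 100) (hθ : 0 < θ) (hθ1 : θ ≤ 1) (hε : 0 < ε) (hε1 : ε ≤ 1)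
    (h : LF κ θ ℓ k) (hL : LSat θ ε ℓ)
    (hS2 : ∑ q ∈ LS.PI (Real.exp (ℓ / 8)) (2 * Real.exp (ℓ / 3)),
    1 / ((q : ℝ) - 1) * (1 / ((1 / 2 - 2 * κ) - Real.log q / ℓ)) ≤ 2 * Real.log 6 + ε)
    (e t A0 : ℕ) :
    ∑ q ∈ Qf ℓ e, ∑ n ∈ SS ℓ e A0, (aw ℓ (yy ℓ) n * cA t n q) *
      ((∏ p ∈ P1f θ ℓ e t, (1 - cA t n p)) * ∏ p ∈ P2f θ ℓ e, (1 - cA t n p)) ≤
    XX ℓ / φW ℓ e * V1f θ ℓ e t * (θ * LS.AA * (2 * Real.log 6 + ε) + 48 * θ * ε +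
      C * (1 / 2) ^ k * (1 / (c * θ)) * 6) + 2 * ℓ * RA κ θ ℓ e t A0 := by
  have hd := csA h e t A0
  have h1 := comp_upper_Q hC k hk hd (D2f κ ℓ) (Qf ℓ e) (fun q hq => (h.memQ hq).1)
    (fun q hq p hp => by
      obtain ⟨_, _, h3, _, _⟩ := h.mem2 hp
      obtain ⟨_, _, h4, _, _, _⟩ := h.memQ hq
      have : (p : ℝ) < q := h3.trans_le h4
      exact_mod_cast this)
    (fun q hq => (h.memQ hq).2.1)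
    (fun q hq => ((h.memQ hq).2.2.2.1).trans h.yRD) (fun q hq => g1_nonneg (h.memQ hq).1.one_le)
  refine h1.trans ?_
  have hXV : 0 ≤ XX ℓ / φW ℓ e * V1f θ ℓ e t := mul_nonneg hd.hX hd.V1_nonneg
  obtain ⟨hW, hg⟩ := sumQ hκ hκ1 hθ hε hε1 h hL hS2 e
  have hG := (GV_le hc hcV hθ h e).1
  have hG0 : 0 ≤ ∏ p ∈ P2f θ ℓ e, (1 + g1 p) :=
    Finset.prod_nonneg (fun p hp => by linarith [hd.hg2 p hp])
  have hg0 : 0 ≤ ∑ q ∈ Qf ℓ e, g1 q := Finset.sum_nonneg (fun q hq => g1_nonneg (h.memQ hq).1.one_le)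
  have hE0 : 0 ≤ C * (1 / 2) ^ k := mul_nonneg hC.1.le (by positivity)
  have hEG : C * (1 / 2) ^ k * (∏ p ∈ P2f θ ℓ e, (1 + g1 p)) * ∑ q ∈ Qf ℓ e, g1 q ≤
      C * (1 / 2) ^ k * (1 / (c * θ)) * 6 := by
    apply mul_le_mul (mul_le_mul_of_nonneg_left hG hE0) hg hg0 (by positivity)
  obtain ⟨hl0, hl1⟩ := wlog_le hθ hθ1 h
  apply add_le_add
  · apply mul_le_mul_of_nonneg_left _ hXV
    linarith
  · have hR0 : 0 ≤ ∑ D ∈ lev (Qf ℓ e ∪ P2f θ ℓ e ∪ P1f θ ℓ e t) ((wf θ ℓ : ℝ) ^ (4 * k + 5) * D2f κ ℓ),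
      |RD (SS ℓ e A0) (aw ℓ (yy ℓ)) (cA t) (XX ℓ / φW ℓ e) g1 D| :=
      Finset.sum_nonneg (fun _ _ => abs_nonneg _)
    calc 2 * Real.log (wf θ ℓ) * ∑ D ∈ lev (Qf ℓ e ∪ P2f θ ℓ e ∪ P1f θ ℓ e t)
          ((wf θ ℓ : ℝ) ^ (4 * k + 5) * D2f κ ℓ),
          |RD (SS ℓ e A0) (aw ℓ (yy ℓ)) (cA t) (XX ℓ / φW ℓ e) g1 D| ≤
        2 * ℓ * ∑ D ∈ lev (Qf ℓ e ∪ P2f θ ℓ e ∪ P1f θ ℓ e t) ((wf θ ℓ : ℝ) ^ (4 * k + 5) * D2f κ ℓ),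
          |RD (SS ℓ e A0) (aw ℓ (yy ℓ)) (cA t) (XX ℓ / φW ℓ e) g1 D| := by
          apply mul_le_mul_of_nonneg_right _ hR0
          linarith
      _ ≤ 2 * ℓ * RA κ θ ℓ e t A0 := by
          apply mul_le_mul_of_nonneg_left _ (by linarith [h.ℓ30])
          unfold RA
          apply Finset.sum_le_sum_of_subset_of_nonneg
          · exact lev_mono (Finset.Subset.refl _) h.wpow
          · intro _ _ _; exact abs_nonneg _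

theorem S3_bound {C c : ℝ} (hC : IsCS C) (hk : C * (1 / 2) ^ k ≤ 1) (hc : 0 < c)
    (hcV : ∀ n : ℕ, 2 ≤ n → c / Real.log n ≤ Vp n)
    (hκ : 0 < κ) (hκ1 : κ ≤ 1 / 100) (hθ : 0 < θ) (hθ1 : θ ≤ 1)
    (h : LF κ θ ℓ k) (hL : LSat θ ε ℓ) (e t A0 : ℕ) :
    ∑ m ∈ SS ℓ e (A0 + t), wC κ ℓ m * ((∏ p ∈ P1f θ ℓ e t, (1 - cC t m p)) *
      ∏ p ∈ P3f κ θ ℓ e, (1 - cC t m p)) ≤
    XC κ ℓ / φW ℓ e * V1f θ ℓ e t * (θ * ((LS.AA + 3 * ε) / (1 / 2 - 2 * κ)) +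
      C * (1 / 2) ^ k * (1 / (c * θ))) + 2 * ℓ * RB κ θ ℓ e t A0 := by
  have hd := csC h e t A0
  have hD1 : 1 < D2f κ ℓ := by
    unfold D2f
    apply Real.one_lt_exp_iff.mpr
    have := h.ℓk
    nlinarith
  have h1 := comp_upper hC k hk hd (D2f κ ℓ) hD1
  refine h1.trans ?_
  have hXV : 0 ≤ XC κ ℓ / φW ℓ e * V1f θ ℓ e t := mul_nonneg hd.hX hd.V1_nonneg
  have hW := Wplus_3 hκ1 hκ hθ h hL e
  have hG := (GV_le hc hcV hθ h e).2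
  have hE0 : 0 ≤ C * (1 / 2) ^ k := mul_nonneg hC.1.le (by positivity)
  have hEG := mul_le_mul_of_nonneg_left hG hE0
  obtain ⟨hl0, hl1⟩ := wlog_le hθ hθ1 h
  apply add_le_add
  · apply mul_le_mul_of_nonneg_left _ hXV
    linarith
  · have hR0 : 0 ≤ ∑ D ∈ lev (P3f κ θ ℓ e ∪ P1f θ ℓ e t) ((wf θ ℓ : ℝ) ^ (4 * k + 5) * D2f κ ℓ),
      |RD (SS ℓ e (A0 + t)) (wC κ ℓ) (cC t) (XC κ ℓ / φW ℓ e) g1 D| :=
      Finset.sum_nonneg (fun _ _ => abs_nonneg _)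
    calc 2 * Real.log (wf θ ℓ) * ∑ D ∈ lev (P3f κ θ ℓ e ∪ P1f θ ℓ e t)
          ((wf θ ℓ : ℝ) ^ (4 * k + 5) * D2f κ ℓ),
          |RD (SS ℓ e (A0 + t)) (wC κ ℓ) (cC t) (XC κ ℓ / φW ℓ e) g1 D| ≤
        2 * ℓ * ∑ D ∈ lev (P3f κ θ ℓ e ∪ P1f θ ℓ e t) ((wf θ ℓ : ℝ) ^ (4 * k + 5) * D2f κ ℓ),
          |RD (SS ℓ e (A0 + t)) (wC κ ℓ) (cC t) (XC κ ℓ / φW ℓ e) g1 D| := by
          apply mul_le_mul_of_nonneg_right _ hR0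
          linarith
      _ ≤ 2 * ℓ * RB κ θ ℓ e t A0 := by
          apply mul_le_mul_of_nonneg_left _ (by linarith [h.ℓ30])
          unfold RB
          apply Finset.sum_le_sum_of_subset_of_nonneg
          · exact lev_mono (Finset.Subset.refl _) h.wpow
          · intro _ _ _; exact abs_nonneg _

end

end Pool.Agent.H16
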