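import Pool.Agent.H16.CH5

/-!
Chen's sieve: the remainders.
-/

set_option autoImplicit false

open Finset Filter Topology

namespace Pool.Agent.H16

open Pool.Agent.H90 (LS.lam LS.W LS.PI LS.Dim LS.AA)

lemma not_dvd_class {p t : ℕ} (hp : p.Prime) (ht : ¬ p ∣ t) : ¬ p ∣ t * (p - 1) := by
  intro h
  rcases (Nat.Prime.dvd_mul hp).mp h with h1 | h1
  · exact ht h1
  · have h2 := hp.two_le
    have h3 := Nat.le_of_dvd (by omega) h1
    omega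

lemma exc_ok {P0 q₁ z e : ℕ} (he : e = 1 ∨ (e.Prime ∧ P0 < e))
    (hexc : ∀ m : ℕ, Squarefree m → (e = 1 ∨ ¬ e ∣ m) → ¬ q₁ ∣ m) (P : Finset ℕ)
    (hP : ∀ p ∈ P, p.Prime ∧ z < p ∧ p ≠ e) : ∀ D ⊆ P, ¬ q₁ ∣ WW z e * ∏ p ∈ D, p := by
  intro D hD
  apply hexc
  · exact squarefree_WD z e D (fun p hp => ⟨(hP p (hD hp)).1, (hP p (hD hp)).2.1⟩)
  · rcases he with he1 | ⟨hep, _⟩
    · exact Or.inl he1
    · right
      intro hd
      rcases (Nat.Prime.dvd_mul hep).mp hd with h | h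
      · exact ((prime_dvd_WW hep).mp h).2 rfl
      · rw [Prime.dvd_finsetProd_iff hep.prime] at h
        obtain ⟨q, hq, hqe⟩ := h
        have h1 := (Nat.prime_dvd_prime_iff_eq hep (hP q (hD hq)).1).mp hqe
        exact (hP q (hD hq)).2.2 h1.symm

lemma zf_le_exp : ∀ᶠ ℓ : ℝ in atTop, zf ℓ ≤ yf ℓ 6 ∧ zf ℓ ≤ yy ℓ ∧ (yf ℓ 6 : ℝ) ≤ Real.exp (ℓ / 6) ∧
    zf ℓ < ⌊Real.exp (ℓ / 9)⌋₊ := by
  filter_upwards [ev_yf 6 (by norm_num), ev_yf 9 (by norm_num), eventually_ge_atTop (1 : ℝ)] with ℓ h6 h9 hℓ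
  refine ⟨h6.2.2.2.le, ?_, by have := h6.2.1; push_cast at this; exact this, ?_⟩
  · refine h6.2.2.2.le.trans ?_
    unfold yf yy
    apply Nat.floor_le_floor
    apply Real.exp_le_exp.mpr
    push_cast
    linarith
  · have := h9.2.2.2
    unfold yf at this
    push_cast at this
    exact this

/-- support facts for the coefficients `BCh` -/
lemma BCh_support {κ ℓ : ℝ} (hκ1 : κ ≤ 1 / 100) (hℓ : 1000 ≤ ℓ) {k : ℕ} (hk : BCh ℓ k ≠ 0) :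
    (k : ℝ) ≤ Real.exp (0.74 * ℓ) ∧ Real.exp (κ / 4 * ℓ) < k ∧
    (∀ y : ℕ, (y : ℝ) ≤ Real.exp (ℓ / 6) → (k : ℝ) * y * 9 < Real.exp ℓ) ∧
    ∀ p, p.Prime → p ∣ k → Real.exp (ℓ / 9) ≤ p := by
  have hℓ0 : 0 < ℓ := by linarith
  obtain ⟨q1, q2, hq1, hq2, rfl⟩ := BCh_ne_zero hk
  obtain ⟨hub, hlb⟩ := k_bounds hℓ0.le hq1 hq2
  rw [Pool.Agent.H90.LS.mem_PI] at hq1 hq2
  have hexp : ∀ s : ℝ, 0.01 ≤ s → 27 < Real.exp (s * ℓ) ∨ s < 0.05 := by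
    intro s hs
    by_cases h : s < 0.05
    · exact Or.inr h
    · left
      push Not at h
      have h1 := Real.add_one_le_exp (s * ℓ)
      nlinarith
  refine ⟨?_, ?_, ?_, ?_⟩
  · refine hub.trans ?_
    have h1 : 27 < Real.exp (0.07 * ℓ) := by
      rcases hexp 0.07 (by norm_num) with h | h
      · exact h
      · norm_num at h
    calc 3 * Real.exp (2 / 3 * ℓ) ≤ Real.exp (0.07 * ℓ) * Real.exp (2 / 3 * ℓ) := by
          apply mul_le_mul_of_nonneg_right _ (Real.exp_pos _).le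
          linarith
      _ = Real.exp (0.07 * ℓ + 2 / 3 * ℓ) := by rw [Real.exp_add]
      _ ≤ _ := by apply Real.exp_le_exp.mpr; nlinarith
  · refine lt_of_lt_of_le ?_ hlb
    unfold zR yR
    calc Real.exp (κ / 4 * ℓ) ≤ Real.exp ((ℓ + 1) / 8) := by
          apply Real.exp_le_exp.mpr; nlinarith
      _ < Real.exp ((ℓ + 1) / 8) * (2 * Real.exp (ℓ / 3)) := by
          apply lt_mul_of_one_lt_right (Real.exp_pos _)
          have := Real.one_le_exp (show 0 ≤ ℓ / 3 by positivity)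
          linarith
  · intro y hy
    have h1 : 27 < Real.exp (1 / 6 * ℓ) := by
      rcases hexp (1 / 6) (by norm_num) with h | h
      · exact h
      · norm_num at h
    calc ((q1 * q2 : ℕ) : ℝ) * y * 9 ≤ (3 * Real.exp (2 / 3 * ℓ)) * Real.exp (ℓ / 6) * 9 := by
          apply mul_le_mul_of_nonneg_right _ (by norm_num)
          exact mul_le_mul hub hy (Nat.cast_nonneg _) (by positivity)
      _ = 27 * (Real.exp (2 / 3 * ℓ) * Real.exp (ℓ / 6)) := by ring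
      _ < Real.exp (1 / 6 * ℓ) * (Real.exp (2 / 3 * ℓ) * Real.exp (ℓ / 6)) := by
          apply mul_lt_mul_of_pos_right h1 (by positivity)
      _ = Real.exp ℓ := by rw [← Real.exp_add, ← Real.exp_add]; congr 1; ring
  · intro p hp hpk
    have hz : Real.exp (ℓ / 9) ≤ zR ℓ := by
      unfold zR; apply Real.exp_le_exp.mpr; linarith
    have hzy : zR ℓ ≤ yR ℓ := by
      unfold zR yR
      calc Real.exp ((ℓ + 1) / 8) ≤ Real.exp (ℓ / 3) := by apply Real.exp_le_exp.mpr; linarith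
        _ ≤ _ := by linarith [Real.exp_pos (ℓ / 3)]
    rcases (Nat.Prime.dvd_mul hp).mp hpk with h | h
    · rw [(Nat.prime_dvd_prime_iff_eq hp hq1.1).mp h]
      exact hz.trans hq1.2.1
    · rw [(Nat.prime_dvd_prime_iff_eq hp hq2.1).mp h]
      exact hz.trans (hzy.trans hq2.2.1)

theorem R_bounds {c : ℝ} (hc : 0 < c) (hcV : ∀ n : ℕ, 2 ≤ n → c / Real.log n ≤ Vp n)
    (κ θ : ℝ) (k : ℕ) (hκ : 0 < κ) (hκ1 : κ ≤ 1 / 100) (A : ℝ) (hA : 0 ≤ A) (P0 : ℕ) :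
    ∀ᶠ ℓ : ℝ in atTop, LF κ θ ℓ k → ∃ e : ℕ, (e = 1 ∨ (e.Prime ∧ P0 < e)) ∧ ∀ t A0 : ℕ, 0 < t →
      (t : ℝ) ≤ ℓ ^ 2 → Nat.Coprime A0 (WW (zf ℓ) e) → Nat.Coprime (A0 + t) (WW (zf ℓ) e) →
      RA κ θ ℓ e t A0 ≤ Real.exp ℓ * ℓ ^ (-A) / φW ℓ e * (ℓ / c) ∧
      RB κ θ ℓ e t A0 ≤ Real.exp ℓ * ℓ ^ (-A) / φW ℓ e * (ℓ / c) := by
  have hκ4 : κ ≤ 1 / 4 := by linarith
  obtain ⟨L1, hL1⟩ := RP_total κ hκ hκ4 A hA
  obtain ⟨L2, hL2⟩ := RB_total κ hκ hκ4 A hA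
  obtain ⟨L3, hL3⟩ := smallProp_exists (A + 1 + 4) (A + 1 + 3 + 12) (by linarith) (by linarith) (4 ^ P0)
  filter_upwards [eventually_ge_atTop L1, eventually_ge_atTop L2, eventually_ge_atTop L3,
    ev_W 1 one_pos, zf_le_exp] with ℓ l1 l2 l3 hW hzy h
  obtain ⟨zy1, zy2, y6, z9⟩ := hzy
  obtain ⟨q₁, hq₁, hSP⟩ := hL3 ℓ l3
  obtain ⟨e, he, hexc⟩ := exc_prime P0 q₁ hq₁
  refine ⟨e, he, fun t A0 ht htℓ hA0 hA0t => ?_⟩
  have hℓ := h.ℓk
  have hℓ0 : 0 < ℓ := by linarith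
  have hzl := zw_large _ h.z1
  have hz2 : 2 ≤ zf ℓ := by
    have : (2 : ℝ) ≤ zf ℓ := by linarith
    exact_mod_cast this
  have hlz1 : 1 ≤ Real.log (zf ℓ) := by linarith [h.z1]
  have hφ := φW_pos ℓ e
  have hcoef : 0 ≤ Real.exp ℓ * ℓ ^ (-A) / φW ℓ e := by positivity
  have hWy : ∀ y, zf ℓ ≤ y → ∀ p, p.Prime → p ∣ WW (zf ℓ) e → p ≤ y := by
    intro y hy p hp hpW
    have := (prime_dvd_WW hp).mp hpW
    omega
  -- product bound
  have hprod : ∀ (P : Finset ℕ) (y : ℕ), zf ℓ ≤ y → (y : ℝ) ≤ Real.exp (ℓ / 2) →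
      (∀ p ∈ P, p.Prime ∧ zf ℓ < p ∧ p ≤ y) → ∏ p ∈ P, (1 + 1 / ((p : ℝ) - 1)) ≤ ℓ / c := by
    intro P y hzy hy hP
    have h1 := prod_g1_le hc hcV (zf ℓ) y hz2 hzy P (by
      intro p hp
      rw [mem_primesIoc]
      exact ⟨(hP p hp).2.1, (hP p hp).2.2, (hP p hp).1⟩)
    refine h1.trans ?_
    have hy0 : (0 : ℝ) < y := by
      have : (zf ℓ : ℝ) ≤ y := by exact_mod_cast hzy
      linarith
    have hly : Real.log y ≤ ℓ := by
      rw [Real.log_le_iff_le_exp hy0]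
      refine hy.trans ?_
      apply Real.exp_le_exp.mpr; linarith
    apply div_le_div₀ hℓ0.le hly hc
    exact le_mul_of_one_le_right hc.le hlz1
  constructor
  · have hmem : ∀ p ∈ Qf ℓ e ∪ P2f θ ℓ e ∪ P1f θ ℓ e t, p.Prime ∧ zf ℓ < p ∧ p ≤ yy ℓ ∧ p ≠ e ∧ ¬ p ∣ t :=
      fun p hp => h.memAll ht htℓ hp
    have h1 := hL1 ℓ l1 q₁ hSP (WW (zf ℓ) e) (WW_pos _ _) (hW e).1 (yy ℓ) (yy_le ℓ) (hWy _ zy2)
      (Qf ℓ e ∪ P2f θ ℓ e ∪ P1f θ ℓ e t) (fun p hp => (hmem p hp).1) (fun p hp => (hmem p hp).2.2.1)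
      (by
        intro p hp hd
        obtain ⟨h1, h2, _⟩ := hmem p hp
        have := (prime_dvd_WW h1).mp hd
        omega)
      (exc_ok he hexc _ (fun p hp => ⟨(hmem p hp).1, (hmem p hp).2.1, (hmem p hp).2.2.2.1⟩))
      A0 (fun p => t * (p - 1)) hA0
      (fun p hp => not_dvd_class (hmem p hp).1 (hmem p hp).2.2.2.2)
    have h2 : RA κ θ ℓ e t A0 ≤ Real.exp ℓ * ℓ ^ (-A) / φW ℓ e *
        ∏ p ∈ Qf ℓ e ∪ P2f θ ℓ e ∪ P1f θ ℓ e t, (1 + 1 / ((p : ℝ) - 1)) := h1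
    refine h2.trans (mul_le_mul_of_nonneg_left ?_ hcoef)
    exact hprod _ (yy ℓ) zy2 (yy_le ℓ) (fun p hp => ⟨(hmem p hp).1, (hmem p hp).2.1, (hmem p hp).2.2.1⟩)
  · have hmem : ∀ p ∈ P3f κ θ ℓ e ∪ P1f θ ℓ e t, p.Prime ∧ zf ℓ < p ∧ p ≤ yf ℓ 6 ∧ p ≠ e ∧ ¬ p ∣ t :=
      fun p hp => h.memAll3 ht htℓ hp
    have h1 := hL2 ℓ l2 q₁ hSP (WW (zf ℓ) e) (WW_pos _ _) (hW e).1 (yf ℓ 6) (hWy _ zy1)
      (BCh ℓ) (BCh_nonneg h.ℓ30) (BCh_le_one h.ℓ30)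
      (by
        intro n hn
        by_contra hcon
        have := (BCh_support hκ1 hℓ hcon).1
        linarith)
      (by
        intro n hn
        by_contra hcon
        have h1 := (BCh_support hκ1 hℓ hcon).2.1
        have h2 : (n : ℝ) ≤ Real.exp (κ / 4 * ℓ) := by
          have h3 := Nat.floor_le (Real.exp_pos (κ / 4 * ℓ)).le
          have h4 : (n : ℝ) ≤ ⌊Real.exp (κ / 4 * ℓ)⌋₊ := by exact_mod_cast hn
          linarith
        linarith)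
      (fun k' hk' => (BCh_support hκ1 hℓ hk').2.2.1 _ y6)
      (fun k' hk' => (BCh_support hκ1 hℓ hk').2.2.2)
      (by
        intro k' hk'
        apply Nat.Coprime.symm
        unfold WW
        apply Nat.Coprime.prod_left
        intro p hp
        rw [mem_WWset] at hp
        rw [Nat.Prime.coprime_iff_not_dvd hp.1]
        intro hd
        have h3 := (BCh_support hκ1 hℓ hk').2.2.2 p hp.1 hd
        have h4 : (p : ℝ) ≤ zf ℓ := by exact_mod_cast hp.2.1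
        have h5 : (zf ℓ : ℝ) < ⌊Real.exp (ℓ / 9)⌋₊ := by exact_mod_cast z9
        have h6 := Nat.floor_le (Real.exp_pos (ℓ / 9)).le
        linarith)
      (P3f κ θ ℓ e ∪ P1f θ ℓ e t) (fun p hp => (hmem p hp).1) (fun p hp => (hmem p hp).2.2.1)
      (by
        intro p hp hd
        obtain ⟨h1, h2, _⟩ := hmem p hp
        have := (prime_dvd_WW h1).mp hd
        omega)
      (exc_ok he hexc _ (fun p hp => ⟨(hmem p hp).1, (hmem p hp).2.1, (hmem p hp).2.2.2.1⟩))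
      (A0 + t) (fun _ => t) hA0t (fun p hp => (hmem p hp).2.2.2.2)
    have h2 : RB κ θ ℓ e t A0 ≤ Real.exp ℓ * ℓ ^ (-A) / φW ℓ e *
        ∏ p ∈ P3f κ θ ℓ e ∪ P1f θ ℓ e t, (1 + 1 / ((p : ℝ) - 1)) := h1
    refine h2.trans (mul_le_mul_of_nonneg_left ?_ hcoef)
    exact hprod _ (yf ℓ 6) zy1 (y6.trans (by apply Real.exp_le_exp.mpr; linarith))
      (fun p hp => ⟨(hmem p hp).1, (hmem p hp).2.1, (hmem p hp).2.2.1⟩)

end Pool.Agent.H16
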