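import Pool.Agent.H16.CH6

/-!
Chen's sieve: choice of the parameters and the lower bound for the weighted sum.
-/

set_option autoImplicit false

open Finset Filter Topology

namespace Pool.Agent.H16

open Pool.Agent.H90 (LS.lam LS.W LS.PI LS.Dim LS.AA)

noncomputable def FF0 (A c3 κ ε : ℝ) : ℝ :=
  2 * A * Real.log (3 - 17 * κ) - 36 * ε - 1 / 2 * A * (2 * Real.log 6 + ε) -
    1 / 2 * ((1 + ε) / (1 - ε)) * (c3 + ε) * ((A + 3 * ε) / (1 / 2 - 2 * κ) + ε)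

lemma FF0_zero (A c3 : ℝ) : FF0 A c3 0 0 = A * (Real.log (3 / 2) - c3) := by
  unfold FF0
  have h1 : Real.log (3 / 2) = Real.log 3 - Real.log 2 := by
    rw [Real.log_div (by norm_num) (by norm_num)]
  have h2 : Real.log 6 = Real.log 2 + Real.log 3 := by
    rw [← Real.log_mul (by norm_num) (by norm_num)]; norm_num
  rw [h1, h2]
  norm_num
  ring

lemma num_choice (A c3 : ℝ) (hA : 0 < A) (hc3 : c3 < Real.log (3 / 2)) : ∃ s0 : ℝ, 0 < s0 ∧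
    s0 ≤ 1 / 100 ∧ ∀ κ ε : ℝ, 0 < κ → κ ≤ s0 → 0 < ε → ε ≤ s0 →
      A * (Real.log (3 / 2) - c3) / 2 ≤ FF0 A c3 κ ε := by
  have hcont : ContinuousAt (fun p : ℝ × ℝ => FF0 A c3 p.1 p.2) (0, 0) := by
    unfold FF0
    have h1 : ContinuousAt (fun p : ℝ × ℝ => Real.log (3 - 17 * p.1)) (0, 0) := by
      apply ContinuousAt.log
      · fun_prop
      · norm_num
    have h2 : ContinuousAt (fun p : ℝ × ℝ => (1 + p.2) / (1 - p.2)) (0, 0) := by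
      apply ContinuousAt.div
      · fun_prop
      · fun_prop
      · norm_num
    have h3 : ContinuousAt (fun p : ℝ × ℝ => (A + 3 * p.2) / (1 / 2 - 2 * p.1)) (0, 0) := by
      apply ContinuousAt.div
      · fun_prop
      · fun_prop
      · norm_num
    fun_prop
  have hval := FF0_zero A c3
  have hpos : 0 < A * (Real.log (3 / 2) - c3) := mul_pos hA (by linarith)
  have hlt : A * (Real.log (3 / 2) - c3) / 2 < FF0 A c3 0 0 := by rw [hval]; linarith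
  obtain ⟨s, hs, hball⟩ := Metric.eventually_nhds_iff.mp
    (hcont.eventually (lt_mem_nhds hlt))
  refine ⟨min (s / 2) (1 / 100), by positivity, min_le_right _ _, ?_⟩
  intro κ ε hκ hκs hε hεs
  have h1 : κ ≤ s / 2 := hκs.trans (min_le_left _ _)
  have h2 : ε ≤ s / 2 := hεs.trans (min_le_left _ _)
  have h3 := hball (y := (κ, ε)) (by
    rw [Prod.dist_eq, Real.dist_eq, Real.dist_eq]
    simp only [sub_zero]
    rw [abs_of_pos hκ, abs_of_pos hε]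
    apply max_lt <;> linarith)
  exact h3.le

lemma k_choice (C c κ ε : ℝ) (hc : 0 < c) (hκ : 0 < κ) (hε : 0 < ε) (hC : 0 < C) : ∃ k : ℕ,
    C * (1 / 2) ^ k ≤ 1 ∧ C * (1 / 2) ^ k * (4 * k + 5) ^ 2 / (c * κ ^ 2) ≤ ε := by
  have h1 := tendsto_pow_const_mul_const_pow_of_abs_lt_one 2 (show |(1 / 2 : ℝ)| < 1 by
    rw [abs_of_pos (by norm_num)]; norm_num)
  have h2 : ∀ᶠ k : ℕ in atTop, (k : ℝ) ^ 2 * (1 / 2) ^ k < ε * (c * κ ^ 2) / (81 * C) :=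
    h1.eventually (gt_mem_nhds (by positivity))
  have h3 := tendsto_pow_atTop_nhds_zero_of_lt_one (show (0 : ℝ) ≤ 1 / 2 by norm_num)
    (show (1 / 2 : ℝ) < 1 by norm_num)
  have h4 : ∀ᶠ k : ℕ in atTop, (1 / 2 : ℝ) ^ k < 1 / C := h3.eventually (gt_mem_nhds (by positivity))
  obtain ⟨k, hk2, hk4, hk1⟩ := (h2.and (h4.and (eventually_ge_atTop 1))).exists
  refine ⟨k, ?_, ?_⟩
  · rw [lt_div_iff₀ hC] at hk4
    linarith
  · rw [div_le_iff₀ (by positivity)]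
    rw [lt_div_iff₀ (by positivity)] at hk2
    have hk1' : (1 : ℝ) ≤ k := by exact_mod_cast hk1
    have h5 : ((4 : ℝ) * k + 5) ^ 2 ≤ 81 * (k : ℝ) ^ 2 := by nlinarith
    calc C * (1 / 2) ^ k * (4 * k + 5) ^ 2 ≤ C * (1 / 2) ^ k * (81 * (k : ℝ) ^ 2) :=
          mul_le_mul_of_nonneg_left h5 (by positivity)
      _ = (k : ℝ) ^ 2 * (1 / 2) ^ k * (81 * C) := by ring
      _ ≤ _ := hk2.le

/-- The Chen weight. -/
noncomputable def chW (ℓ : ℝ) (e t n : ℕ) : ℝ :=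
  1 - 1 / 2 * ∑ q ∈ Qf ℓ e, cA t n q - 1 / 2 * (open Classical in if chi3 ℓ (n + t) then 1 else 0)

/-- the sieve indicator -/
noncomputable def chS (θ ℓ : ℝ) (e t n : ℕ) : ℝ :=
  (∏ p ∈ P1f θ ℓ e t, (1 - cA t n p)) * ∏ p ∈ P2f θ ℓ e, (1 - cA t n p)

lemma chS_nonneg (θ ℓ : ℝ) (e t n : ℕ) : 0 ≤ chS θ ℓ e t n := by
  unfold chS
  apply mul_nonneg
  · exact Finset.prod_nonneg (fun p _ => by linarith [cb_le_one (fun p => t * (p - 1)) n p, show cA t n p = cb (fun p => t * (p - 1)) n p from rfl])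
  · exact Finset.prod_nonneg (fun p _ => by linarith [cb_le_one (fun p => t * (p - 1)) n p, show cA t n p = cb (fun p => t * (p - 1)) n p from rfl])

lemma chS_le_one (θ ℓ : ℝ) (e t n : ℕ) : chS θ ℓ e t n ≤ 1 := by
  have h0 : ∀ p, 0 ≤ cA t n p := fun p => cb_nonneg _ n p
  have h1 : ∀ p, cA t n p ≤ 1 := fun p => cb_le_one _ n p
  unfold chS
  have a1 : ∏ p ∈ P1f θ ℓ e t, (1 - cA t n p) ≤ 1 :=
    Finset.prod_le_one (fun p _ => by linarith [h1 p]) (fun p _ => by linarith [h0 p])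
  have a2 : ∏ p ∈ P2f θ ℓ e, (1 - cA t n p) ≤ 1 :=
    Finset.prod_le_one (fun p _ => by linarith [h1 p]) (fun p _ => by linarith [h0 p])
  have b2 : 0 ≤ ∏ p ∈ P2f θ ℓ e, (1 - cA t n p) :=
    Finset.prod_nonneg (fun p _ => by linarith [h1 p])
  calc _ ≤ 1 * ∏ p ∈ P2f θ ℓ e, (1 - cA t n p) := mul_le_mul_of_nonneg_right a1 b2
    _ ≤ 1 := by rw [one_mul]; exact a2

/-- the weighted sum -/
noncomputable def GC (θ ℓ : ℝ) (e t A0 : ℕ) : ℝ :=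
  ∑ n ∈ SS ℓ e A0, aw ℓ (yy ℓ) n * chS θ ℓ e t n * chW ℓ e t n

lemma GC_ge {κ θ ℓ : ℝ} {k : ℕ} (h : LF κ θ ℓ k) (hκ1 : κ ≤ 1 / 100) (e t A0 : ℕ) (ht : 0 < t)
    (htℓ : (t : ℝ) ≤ ℓ ^ 2) (hy6 : yf ℓ 6 ≤ yy ℓ) :
    (∑ n ∈ SS ℓ e A0, aw ℓ (yy ℓ) n * ((∏ p ∈ P1f θ ℓ e t, (1 - cA t n p)) *
      ∏ p ∈ P2f θ ℓ e, (1 - cA t n p))) -
    1 / 2 * (∑ q ∈ Qf ℓ e, ∑ n ∈ SS ℓ e A0, (aw ℓ (yy ℓ) n * cA t n q) *
      ((∏ p ∈ P1f θ ℓ e t, (1 - cA t n p)) * ∏ p ∈ P2f θ ℓ e, (1 - cA t n p))) -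
    1 / 2 * (ℓ * (∑ m ∈ SS ℓ e (A0 + t), wC κ ℓ m * ((∏ p ∈ P1f θ ℓ e t, (1 - cC t m p)) *
      ∏ p ∈ P3f κ θ ℓ e, (1 - cC t m p))) + 9 * ℓ * t) ≤ GC θ ℓ e t A0 := by
  classical
  have hℓ := h.ℓk
  have hsw := S3_switch h.ℓ30 (yy ℓ) (WW (zf ℓ) e) A0 t ⌊Real.exp (κ / 4 * ℓ)⌋₊ (fun _ => t)
    (fun _ => rfl) (by
      have h1 := Nat.floor_le (Real.exp_pos (κ / 4 * ℓ)).le
      unfold yR
      have h2 : Real.exp (κ / 4 * ℓ) ≤ Real.exp (ℓ / 3) := by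
        apply Real.exp_le_exp.mpr; nlinarith
      have h3 := Real.exp_pos (ℓ / 3)
      linarith) (P1f θ ℓ e t) (P3f κ θ ℓ e)
    (by
      intro p hp
      have := h.memAll3 ht htℓ (e := e) (p := p) (Finset.mem_union_right _ hp)
      exact ⟨this.1, this.2.2.1.trans hy6⟩)
    (by
      intro p hp
      have := h.memAll3 ht htℓ (e := e) (p := p) (Finset.mem_union_left _ hp)
      exact ⟨this.1, this.2.2.1.trans hy6⟩)
  have hS3 : ∑ n ∈ SS ℓ e A0, aw ℓ (yy ℓ) n * chS θ ℓ e t n * (if chi3 ℓ (n + t) then (1 : ℝ) else 0) ≤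
      ℓ * (∑ m ∈ SS ℓ e (A0 + t), wC κ ℓ m * ((∏ p ∈ P1f θ ℓ e t, (1 - cC t m p)) *
      ∏ p ∈ P3f κ θ ℓ e, (1 - cC t m p))) + 9 * ℓ * t := by
    refine le_trans ?_ hsw
    unfold SS
    apply Finset.sum_le_sum
    intro n _
    have h1 := aw_nonneg ℓ (yy ℓ) n
    have h2 := chS_le_one θ ℓ e t n
    split_ifs
    · rw [mul_one, mul_one]
      exact mul_le_of_le_one_right h1 h2
    · rw [mul_zero, mul_zero]
  have hG : GC θ ℓ e t A0 = (∑ n ∈ SS ℓ e A0, aw ℓ (yy ℓ) n * ((∏ p ∈ P1f θ ℓ e t, (1 - cA t n p)) *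
      ∏ p ∈ P2f θ ℓ e, (1 - cA t n p))) -
    1 / 2 * (∑ q ∈ Qf ℓ e, ∑ n ∈ SS ℓ e A0, (aw ℓ (yy ℓ) n * cA t n q) *
      ((∏ p ∈ P1f θ ℓ e t, (1 - cA t n p)) * ∏ p ∈ P2f θ ℓ e, (1 - cA t n p))) -
    1 / 2 * ∑ n ∈ SS ℓ e A0, aw ℓ (yy ℓ) n * chS θ ℓ e t n * (if chi3 ℓ (n + t) then (1 : ℝ) else 0) := by
    rw [Finset.sum_comm, Finset.mul_sum, Finset.mul_sum, ← Finset.sum_sub_distrib,
      ← Finset.sum_sub_distrib]
    unfold GC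
    apply Finset.sum_congr rfl
    intro n _
    have h1 : ∑ q ∈ Qf ℓ e, aw ℓ (yy ℓ) n * cA t n q *
        ((∏ p ∈ P1f θ ℓ e t, (1 - cA t n p)) * ∏ p ∈ P2f θ ℓ e, (1 - cA t n p)) =
        aw ℓ (yy ℓ) n * chS θ ℓ e t n * ∑ q ∈ Qf ℓ e, cA t n q := by
      rw [Finset.mul_sum]
      apply Finset.sum_congr rfl
      intro q _
      unfold chS
      ring
    rw [h1]
    unfold chW
    have h2 : chS θ ℓ e t n = (∏ p ∈ P1f θ ℓ e t, (1 - cA t n p)) * ∏ p ∈ P2f θ ℓ e, (1 - cA t n p) := rfl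
    rw [← h2]
    ring
  rw [hG]
  linarith

end Pool.Agent.H16
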