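import Pool.Agent.H16.CH7

/-!
Chen's sieve: the lower bound.
-/

set_option autoImplicit false

open Finset Filter Topology

namespace Pool.Agent.H16

open Pool.Agent.H90 (LS.lam LS.W LS.PI LS.Dim LS.AA)

lemma final_ineq {u v ℓ θ A ε κ EG R R' t S1 S2 S3 G c3 L3 L6 : ℝ} (hu : 0 ≤ u) (hθ : 0 < θ)
    (hℓ : 0 < ℓ) (hε : 0 < ε) (hε1 : ε ≤ 1 / 100) (hc3 : 0 ≤ c3) (hκ1 : κ ≤ 1 / 100) (hA : 0 < A)
    (hEG : EG ≤ θ * ε) (hEG0 : 0 ≤ EG)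
    (h1 : u * (2 * θ * A * L3 - 8 * θ * ε - EG) - 2 * ℓ * R ≤ S1)
    (h2 : S2 ≤ u * (θ * A * (2 * L6 + ε) + 48 * θ * ε + EG * 6) + 2 * ℓ * R)
    (h3 : S3 ≤ v * (θ * ((A + 3 * ε) / (1 / 2 - 2 * κ)) + EG) + 2 * ℓ * R')
    (hv : ℓ * v ≤ (1 + ε) / (1 - ε) * (c3 + ε) * u)
    (hG : S1 - 1 / 2 * S2 - 1 / 2 * (ℓ * S3 + 9 * ℓ * t) ≤ G) :
    u * θ * (2 * A * L3 - 36 * ε - 1 / 2 * A * (2 * L6 + ε) -
      1 / 2 * ((1 + ε) / (1 - ε)) * (c3 + ε) * ((A + 3 * ε) / (1 / 2 - 2 * κ) + ε)) -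
      3 * ℓ * R - ℓ ^ 2 * R' - 5 * ℓ * t - (if 0 ≤ t then 0 else - 5 * ℓ * t) ≤ G := by
  have hden : 0 < 1 / 2 - 2 * κ := by linarith
  have hε' : 0 < 1 - ε := by linarith
  set B := (A + 3 * ε) / (1 / 2 - 2 * κ) with hB
  have hB0 : 0 ≤ B := by positivity
  set ρ := (1 + ε) / (1 - ε) * (c3 + ε) with hρ
  have hρ0 : 0 ≤ ρ := by positivity
  -- third
  have h3' : ℓ * S3 ≤ ρ * u * (θ * (B + ε)) + 2 * ℓ ^ 2 * R' := by
    have e1 : ℓ * S3 ≤ ℓ * (v * (θ * B + EG) + 2 * ℓ * R') := mul_le_mul_of_nonneg_left h3 hℓ.le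
    have e2 : (ℓ * v) * (θ * B + EG) ≤ (ρ * u) * (θ * B + EG) :=
      mul_le_mul_of_nonneg_right hv (by positivity)
    have e3 : (ρ * u) * (θ * B + EG) ≤ (ρ * u) * (θ * (B + ε)) := by
      apply mul_le_mul_of_nonneg_left _ (by positivity)
      linarith
    calc ℓ * S3 ≤ ℓ * (v * (θ * B + EG) + 2 * ℓ * R') := e1
      _ = (ℓ * v) * (θ * B + EG) + 2 * ℓ ^ 2 * R' := by ring
      _ ≤ _ := by linarith
  have h1' : u * (2 * θ * A * L3 - 9 * θ * ε) - 2 * ℓ * R ≤ S1 := by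
    refine le_trans ?_ h1
    apply sub_le_sub_right
    apply mul_le_mul_of_nonneg_left _ hu
    linarith
  have h2' : S2 ≤ u * (θ * A * (2 * L6 + ε) + 54 * θ * ε) + 2 * ℓ * R := by
    refine h2.trans ?_
    apply add_le_add_left
    apply mul_le_mul_of_nonneg_left _ hu
    linarith
  have hfin : u * θ * (2 * A * L3 - 36 * ε - 1 / 2 * A * (2 * L6 + ε) - 1 / 2 * ρ * (B + ε)) -
      3 * ℓ * R - ℓ ^ 2 * R' - 9 / 2 * ℓ * t ≤ G := by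
    refine le_trans ?_ hG
    have e : u * θ * (2 * A * L3 - 36 * ε - 1 / 2 * A * (2 * L6 + ε) - 1 / 2 * ρ * (B + ε)) -
      3 * ℓ * R - ℓ ^ 2 * R' - 9 / 2 * ℓ * t =
      (u * (2 * θ * A * L3 - 9 * θ * ε) - 2 * ℓ * R) -
      1 / 2 * (u * (θ * A * (2 * L6 + ε) + 54 * θ * ε) + 2 * ℓ * R) -
      1 / 2 * ((ρ * u * (θ * (B + ε)) + 2 * ℓ ^ 2 * R') + 9 * ℓ * t) := by ring
    rw [e]
    linarith
  have e2 : 1 / 2 * ((1 + ε) / (1 - ε)) * (c3 + ε) * (B + ε) = 1 / 2 * ρ * (B + ε) := by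
    rw [hρ]; ring
  rw [e2]
  refine le_trans ?_ hfin
  split_ifs with ht
  · have : 0 ≤ ℓ * t := mul_nonneg hℓ.le ht
    linarith
  · push Not at ht
    have : ℓ * t < 0 := mul_neg_of_pos_of_neg hℓ ht
    linarith

/-- **Chen's lower bound in the residue class.** -/
theorem GC_lower {T0 c3 : ℝ} (hT : TentCount T0) (hS2 : S2Sum) (hS3 : S3Sum c3) (hc3 : 0 ≤ c3)
    (hc3' : c3 < Real.log (3 / 2)) : ∃ (κ θ cG : ℝ) (k : ℕ), 0 < κ ∧ κ ≤ 1 / 100 ∧ 0 < θ ∧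
    θ * (4 * k + 5) = κ ∧ 0 < cG ∧ ∀ P0 : ℕ, ∀ᶠ ℓ : ℝ in atTop, LF κ θ ℓ k ∧
    ∃ e : ℕ, (e = 1 ∨ (e.Prime ∧ P0 < e)) ∧ ∀ t A0 : ℕ, 0 < t → (t : ℝ) ≤ ℓ ^ 2 →
      Nat.Coprime A0 (WW (zf ℓ) e) → Nat.Coprime (A0 + t) (WW (zf ℓ) e) →
      cG * (Real.exp ℓ / φW ℓ e * (Real.log (zf ℓ) / ℓ)) ≤ GC θ ℓ e t A0 := by
  obtain ⟨c, hc, hcV⟩ := Vp_ge
  obtain ⟨C, hC⟩ := exists_IsCS
  have hAA := Pool.Agent.H90.LS.AA_pos
  obtain ⟨s0, hs0, hs01, hF⟩ := num_choice LS.AA c3 hAA hc3'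
  set ε := s0 with hε
  obtain ⟨k0, hk0, hk0'⟩ := hS2 ε hs0
  set κ := min s0 (k0 / 2) with hκdef
  have hκ : 0 < κ := by positivity
  have hκs : κ ≤ s0 := min_le_left _ _
  have hκ1 : κ ≤ 1 / 100 := hκs.trans hs01
  have hκk : 2 * κ ≤ k0 := by
    have : κ ≤ k0 / 2 := min_le_right _ _
    linarith
  obtain ⟨L2, hL2⟩ := hk0' (2 * κ) (by linarith) hκk
  obtain ⟨k, hk1, hk2⟩ := k_choice C c κ ε hc hκ hs0 hC.1
  set θ := κ / (4 * k + 5) with hθdef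
  have h4k : (0 : ℝ) < 4 * k + 5 := by positivity
  have hθ : 0 < θ := by positivity
  have hθk : θ * (4 * k + 5) = κ := by rw [hθdef]; field_simp
  have hθ1 : θ ≤ 1 := by
    have : θ * 5 ≤ κ := by
      have h0 : 0 ≤ θ * (4 * k) := by positivity
      linarith
    linarith
  have hFκ := hF κ ε hκ hκs hs0 le_rfl
  set δ0 := LS.AA * (Real.log (3 / 2) - c3) / 2 with hδ0
  have hδ0pos : 0 < δ0 := by
    have : 0 < LS.AA * (Real.log (3 / 2) - c3) := mul_pos hAA (by linarith)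
    linarith
  set EG := C * (1 / 2) ^ k * (1 / (c * θ)) with hEG
  have hEG0 : 0 ≤ EG := by
    have := hC.1
    positivity
  have hEGle : EG ≤ θ * ε := by
    have e1 : EG = C * (1 / 2) ^ k * (4 * k + 5) ^ 2 / (c * κ ^ 2) * θ := by
      rw [hEG, hθdef]; field_simp
    rw [e1, mul_comm θ]
    exact mul_le_mul_of_nonneg_right hk2 hθ.le
  have hT0 := hT.1
  set cG := T0 * c * δ0 / 24 with hcG
  have hcGpos : 0 < cG := by positivity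
  refine ⟨κ, θ, cG, k, hκ, hκ1, hθ, hθk, hcGpos, fun P0 => ?_⟩
  obtain ⟨L3, hL3⟩ := hS3 ε hs0
  have hevt : ∀ᶠ ℓ : ℝ in atTop, 5 * ℓ ^ 4 ≤ cG / 2 * Real.exp (1 / 2 * ℓ) := by
    have h := (isLittleO_rpow_exp_pos_mul_atTop 4 (show (0 : ℝ) < 1 / 2 by norm_num)).bound
      (show (0 : ℝ) < cG / 10 by positivity)
    filter_upwards [h, eventually_ge_atTop (1 : ℝ)] with ℓ a b
    have hℓ0 : 0 < ℓ := by linarith
    have e4 : ℓ ^ (4 : ℝ) = ℓ ^ 4 := by norm_cast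
    rw [Real.norm_of_nonneg (by positivity), Real.norm_of_nonneg (by positivity), e4] at a
    linarith
  filter_upwards [ev_LF κ θ k hκ hκ1 hθ hθk, R_bounds hc hcV κ θ k hκ hκ1 5 (by norm_num) P0,
    ev_LSat θ ε hθ hs0, X_asymp hT (ε * T0) (by positivity), XB_le hT (ε * T0) (by positivity),
    eventually_ge_atTop L2, eventually_ge_atTop L3, ev_W (1 / 2) (by norm_num),
    eventually_ge_atTop (8 / (c * cG)), hevt, zf_le_exp] with ℓ h hR hLS hX hXB l2 l3 hW hℓc hℓt hzy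
  refine ⟨h, ?_⟩
  obtain ⟨e, he, hRe⟩ := hR h
  refine ⟨e, he, fun t A0 ht htℓ hA0 hA0t => ?_⟩
  obtain ⟨hRA, hRB⟩ := hRe t A0 ht htℓ hA0 hA0t
  have hℓk := h.ℓk
  have hℓ0 : 0 < ℓ := by linarith
  have hφ := φW_pos ℓ e
  have hy6 : yf ℓ 6 ≤ yy ℓ := by
    unfold yf yy
    apply Nat.floor_le_floor
    apply Real.exp_le_exp.mpr
    push_cast
    linarith
  have hS1b := S1_bound hC hk1 hc hcV hκ hκ1 hθ hθ1 hs0 h hLS e t A0
  have hS2b := S2_bound hC hk1 hc hcV hκ hκ1 hθ hθ1 hs0 (by linarith) h hLS (hL2 ℓ l2) e t A0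
  have hS3b := S3_bound hC hk1 hc hcV hκ hκ1 hθ hθ1 h hLS e t A0
  have hGge := GC_ge h hκ1 e t A0 ht htℓ hy6
  have hXU := hXB ⌊Real.exp (κ / 4 * ℓ)⌋₊
  have hS3l := hL3 ℓ l3
  set u := XX ℓ / φW ℓ e * V1f θ ℓ e t with hu
  set v := XC κ ℓ / φW ℓ e * V1f θ ℓ e t with hv
  have hV1low := V1_lower hc hcV hθ h e t
  have hlz : 0 < Real.log (zf ℓ) := by linarith [h.z1]
  have hV1pos : 0 ≤ V1f θ ℓ e t := le_trans (by positivity) hV1low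
  have hXlow : T0 * (1 - ε) * (Real.exp ℓ / 3) ≤ XX ℓ := by
    have := (abs_le.mp hX).1
    have e1 : XX ℓ = ∑ n ∈ Ioc 0 ⌊Real.exp ℓ⌋₊, aw ℓ (yy ℓ) n := rfl
    rw [e1]
    linarith
  have hu0 : 0 ≤ u := mul_nonneg (div_nonneg (XX_nonneg ℓ) hφ.le) hV1pos
  have hε1 : 0 < 1 - ε := by linarith
  -- comparison of the masses
  have hXC : ℓ * XC κ ℓ ≤ (1 + ε) / (1 - ε) * (c3 + ε) * XX ℓ := by
    have e1 : XC κ ℓ ≤ (T0 + ε * T0) * (Real.exp ℓ / 3) * ((c3 + ε) / ℓ) := by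
      refine le_trans hXU ?_
      exact mul_le_mul_of_nonneg_left hS3l (by positivity)
    calc ℓ * XC κ ℓ ≤ ℓ * ((T0 + ε * T0) * (Real.exp ℓ / 3) * ((c3 + ε) / ℓ)) :=
          mul_le_mul_of_nonneg_left e1 hℓ0.le
      _ = (1 + ε) / (1 - ε) * (c3 + ε) * (T0 * (1 - ε) * (Real.exp ℓ / 3)) := by
          field_simp
      _ ≤ _ := mul_le_mul_of_nonneg_left hXlow (by positivity)
  have hvu : ℓ * v ≤ (1 + ε) / (1 - ε) * (c3 + ε) * u := by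
    rw [hv, hu]
    have hVφ : 0 ≤ V1f θ ℓ e t / φW ℓ e := div_nonneg hV1pos hφ.le
    calc ℓ * (XC κ ℓ / φW ℓ e * V1f θ ℓ e t) = (ℓ * XC κ ℓ) * (V1f θ ℓ e t / φW ℓ e) := by ring
      _ ≤ ((1 + ε) / (1 - ε) * (c3 + ε) * XX ℓ) * (V1f θ ℓ e t / φW ℓ e) :=
          mul_le_mul_of_nonneg_right hXC hVφ
      _ = _ := by ring
  have hfin := final_ineq (t := (t : ℝ)) hu0 hθ hℓ0 hs0 hs01 hc3 hκ1 hAA hEGle hEG0 hS1b hS2b hS3b hvu hGge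
  rw [if_pos (Nat.cast_nonneg t), sub_zero] at hfin
  refine le_trans ?_ hfin
  -- main term
  have hmain : T0 * c / 12 * (Real.exp ℓ / φW ℓ e * (Real.log (zf ℓ) / ℓ)) * δ0 ≤
      u * θ * (2 * LS.AA * Real.log (3 - 17 * κ) - 36 * ε - 1 / 2 * LS.AA * (2 * Real.log 6 + ε) -
      1 / 2 * ((1 + ε) / (1 - ε)) * (c3 + ε) * ((LS.AA + 3 * ε) / (1 / 2 - 2 * κ) + ε)) := by
    have hXl2 : T0 * (Real.exp ℓ) / 6 ≤ XX ℓ := by
      refine le_trans ?_ hXlow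
      have h1 : 1 / 2 ≤ 1 - ε := by linarith
      have h2 := mul_le_mul_of_nonneg_left h1 (show 0 ≤ T0 * (Real.exp ℓ / 3) by positivity)
      linarith
    have e1 : T0 * c / 12 * (Real.exp ℓ / φW ℓ e * (Real.log (zf ℓ) / ℓ)) ≤ u * θ := by
      rw [hu]
      have h3 : T0 * (Real.exp ℓ) / 6 / φW ℓ e ≤ XX ℓ / φW ℓ e := div_le_div_of_nonneg_right hXl2 hφ.le
      calc T0 * c / 12 * (Real.exp ℓ / φW ℓ e * (Real.log (zf ℓ) / ℓ)) =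
          (T0 * (Real.exp ℓ) / 6 / φW ℓ e) * (c / 2 * (Real.log (zf ℓ) / (θ * ℓ))) * θ := by
            field_simp; ring
        _ ≤ (XX ℓ / φW ℓ e) * V1f θ ℓ e t * θ := by
            apply mul_le_mul_of_nonneg_right _ hθ.le
            apply mul_le_mul h3 hV1low (by positivity) (div_nonneg (XX_nonneg ℓ) hφ.le)
    have e2 : 0 ≤ u * θ := mul_nonneg hu0 hθ.le
    calc T0 * c / 12 * (Real.exp ℓ / φW ℓ e * (Real.log (zf ℓ) / ℓ)) * δ0 ≤ u * θ * δ0 :=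
          mul_le_mul_of_nonneg_right e1 hδ0pos.le
      _ ≤ _ := mul_le_mul_of_nonneg_left hFκ e2
  -- errors
  have hrp : ℓ ^ (-(5 : ℝ)) = (1 / ℓ) ^ 5 := by
    rw [Real.rpow_neg hℓ0.le, one_div, inv_pow]; norm_cast
  rw [hrp] at hRA hRB
  have hRA0 : 0 ≤ RA κ θ ℓ e t A0 := Finset.sum_nonneg (fun _ _ => abs_nonneg _)
  have herr1 : 3 * ℓ * RA κ θ ℓ e t A0 + ℓ ^ 2 * RB κ θ ℓ e t A0 ≤
      cG / 2 * (Real.exp ℓ / φW ℓ e * (Real.log (zf ℓ) / ℓ)) := by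
    set K := Real.exp ℓ / φW ℓ e with hK
    have hK0 : 0 < K := by positivity
    have e1 : Real.exp ℓ * (1 / ℓ) ^ 5 / φW ℓ e * (ℓ / c) = K / c * (1 / ℓ) ^ 4 := by
      rw [hK]; field_simp
    rw [e1] at hRA hRB
    have e2 : 3 * ℓ * RA κ θ ℓ e t A0 ≤ 3 * ℓ ^ 2 * (K / c * (1 / ℓ) ^ 4) := by
      calc 3 * ℓ * RA κ θ ℓ e t A0 ≤ 3 * ℓ * (K / c * (1 / ℓ) ^ 4) :=
            mul_le_mul_of_nonneg_left hRA (by positivity)
        _ ≤ 3 * ℓ ^ 2 * (K / c * (1 / ℓ) ^ 4) := by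
            apply mul_le_mul_of_nonneg_right _ (by positivity)
            have h1ℓ : (1 : ℝ) ≤ ℓ := by linarith
            linarith [mul_le_mul_of_nonneg_left h1ℓ hℓ0.le]
    have e3 : ℓ ^ 2 * RB κ θ ℓ e t A0 ≤ ℓ ^ 2 * (K / c * (1 / ℓ) ^ 4) :=
      mul_le_mul_of_nonneg_left hRB (by positivity)
    have e4 : 4 * ℓ ^ 2 * (K / c * (1 / ℓ) ^ 4) = K * (4 / (c * ℓ) * (1 / ℓ)) := by
      field_simp
    have e5 : 4 / (c * ℓ) ≤ cG / 2 := by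
      rw [div_le_iff₀ (by positivity)]
      rw [div_le_iff₀ (by positivity)] at hℓc
      linarith
    have e6 : K * (4 / (c * ℓ) * (1 / ℓ)) ≤ K * (cG / 2 * (Real.log (zf ℓ) / ℓ)) := by
      apply mul_le_mul_of_nonneg_left _ hK0.le
      apply mul_le_mul e5 _ (by positivity) (by positivity)
      apply div_le_div_of_nonneg_right _ hℓ0.le
      linarith [h.z1]
    calc _ ≤ 4 * ℓ ^ 2 * (K / c * (1 / ℓ) ^ 4) := by linarith
      _ = K * (4 / (c * ℓ) * (1 / ℓ)) := e4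
      _ ≤ K * (cG / 2 * (Real.log (zf ℓ) / ℓ)) := e6
      _ = _ := by ring
  have herr2 : 5 * ℓ * t ≤ cG / 2 * (Real.exp ℓ / φW ℓ e * (Real.log (zf ℓ) / ℓ)) := by
    have hφW : φW ℓ e ≤ Real.exp (1 / 2 * ℓ) := by
      refine le_trans ?_ (hW e).2
      unfold φW
      exact_mod_cast Nat.totient_le _
    have e1 : Real.exp (1 / 2 * ℓ) ≤ Real.exp ℓ / φW ℓ e := by
      rw [le_div_iff₀ hφ]
      calc Real.exp (1 / 2 * ℓ) * φW ℓ e ≤ Real.exp (1 / 2 * ℓ) * Real.exp (1 / 2 * ℓ) :=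
            mul_le_mul_of_nonneg_left hφW (Real.exp_pos _).le
        _ = Real.exp ℓ := by rw [← Real.exp_add]; congr 1; ring
    have e2 : 1 / ℓ ≤ Real.log (zf ℓ) / ℓ := by
      apply div_le_div_of_nonneg_right _ hℓ0.le
      linarith [h.z1]
    calc 5 * ℓ * t ≤ 5 * ℓ * ℓ ^ 2 := mul_le_mul_of_nonneg_left htℓ (by positivity)
      _ = (5 * ℓ ^ 4) * (1 / ℓ) := by field_simp
      _ ≤ (cG / 2 * Real.exp (1 / 2 * ℓ)) * (1 / ℓ) := mul_le_mul_of_nonneg_right hℓt (by positivity)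
      _ ≤ (cG / 2 * (Real.exp ℓ / φW ℓ e)) * (Real.log (zf ℓ) / ℓ) := by
          apply mul_le_mul (mul_le_mul_of_nonneg_left e1 (by positivity)) e2 (by positivity)
            (by positivity)
      _ = _ := by ring
  have hmain' : T0 * c / 12 * (Real.exp ℓ / φW ℓ e * (Real.log (zf ℓ) / ℓ)) * δ0 =
      2 * (cG * (Real.exp ℓ / φW ℓ e * (Real.log (zf ℓ) / ℓ))) := by
    rw [hcG]; ring
  rw [hmain'] at hmain
  linarith

end Pool.Agent.H16
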