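import Pool.Agent.H16.CH8
import Pool.Agent.H16.PG7

/-!
Chen's sieve: the weights detect almost primes.
-/

set_option autoImplicit false

open Finset Filter Topology

namespace Pool.Agent.H16

open Pool.Agent.H90 (LS.lam LS.W LS.PI LS.Dim LS.AA)

/-- prime or product of two primes -/
def IsP2 (m : ℕ) : Prop := m.Prime ∨ ∃ p q : ℕ, p.Prime ∧ q.Prime ∧ m = p * q

lemma cA_eq (t n p : ℕ) (hp : 1 ≤ p) : cA t n p = if p ∣ n + t then 1 else 0 := by
  unfold cA cb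
  have h2 : t * (p - 1) + t = t * p := by
    obtain ⟨e, he⟩ : ∃ e, p = e + 1 := ⟨p - 1, by omega⟩
    rw [he, Nat.add_sub_cancel]; ring
  have hiff : n ≡ t * (p - 1) [MOD p] ↔ p ∣ n + t := by
    constructor
    · intro h
      have h1 : n + t ≡ t * (p - 1) + t [MOD p] := Nat.ModEq.add_right t h
      rw [h2] at h1
      exact Nat.modEq_zero_iff_dvd.mp (h1.trans (Nat.modEq_zero_iff_dvd.mpr (Dvd.intro_left t rfl)))
    · intro h
      have h1 : n + t ≡ t * (p - 1) + t [MOD p] := by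
        rw [h2]
        exact (Nat.modEq_zero_iff_dvd.mpr h).trans
          (Nat.modEq_zero_iff_dvd.mpr (Dvd.intro_left t rfl)).symm
      exact Nat.ModEq.add_right_cancel' t h1
  by_cases h : p ∣ n + t
  · rw [if_pos (hiff.mpr h), if_pos h]
  · rw [if_neg (fun h1 => h (hiff.mp h1)), if_neg h]

/-- numbers with large prime factors -/
lemma large_factors (Y : ℝ) (hY : 0 < Y) (m : ℕ) (hm0 : 0 < m) (hm : (m : ℝ) < Y ^ 3)
    (h : ∀ q, q.Prime → q ∣ m → Y ≤ q) : m = 1 ∨ m.Prime ∨ ∃ p q : ℕ, p.Prime ∧ q.Prime ∧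
      Y ≤ p ∧ Y ≤ q ∧ p ≤ q ∧ m = p * q := by
  by_cases h1 : m = 1
  · exact Or.inl h1
  right
  set p := m.minFac with hp
  have hpp : p.Prime := Nat.minFac_prime h1
  obtain ⟨m1, hm1⟩ := Nat.minFac_dvd m
  rw [← hp] at hm1
  have hpY : Y ≤ p := h p hpp (Nat.minFac_dvd m)
  by_cases h2 : m1 = 1
  · left; rw [hm1, h2, mul_one]; exact hpp
  right
  set q := m1.minFac with hq
  have hqp : q.Prime := Nat.minFac_prime h2
  obtain ⟨m2, hm2⟩ := Nat.minFac_dvd m1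
  rw [← hq] at hm2
  have hqm : q ∣ m := by rw [hm1]; exact (Nat.minFac_dvd m1).trans (Dvd.intro_left p rfl)
  have hqY : Y ≤ q := h q hqp hqm
  have hpq : p ≤ q := Nat.minFac_le_of_dvd hqp.two_le hqm
  have h3 : m2 = 1 := by
    by_contra hne
    have hrp := Nat.minFac_prime hne
    have hrm : m2.minFac ∣ m := by
      rw [hm1, hm2]
      exact (Nat.minFac_dvd m2).trans ((Dvd.intro_left q rfl).trans (Dvd.intro_left p rfl))
    have hrY := h _ hrp hrm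
    have hm2pos : 0 < m2 := by
      rcases Nat.eq_zero_or_pos m2 with h0 | h0
      · rw [hm1, hm2, h0] at hm0; simp at hm0
      · exact h0
    have hr2 : ((m2.minFac : ℕ) : ℝ) ≤ m2 := by
      exact_mod_cast Nat.le_of_dvd hm2pos (Nat.minFac_dvd m2)
    have : Y ^ 3 ≤ m := by
      have e : (m : ℝ) = p * (q * m2) := by rw [hm1, hm2]; push_cast; ring
      rw [e]
      calc Y ^ 3 = Y * (Y * Y) := by ring
        _ ≤ p * (q * m2) := by
          apply mul_le_mul hpY _ (by positivity) (Nat.cast_nonneg _)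
          exact mul_le_mul hqY (hrY.trans hr2) hY.le (Nat.cast_nonneg _)
    linarith
  exact ⟨p, q, hpp, hqp, hpY, hqY, hpq, by rw [hm1, hm2, h3, mul_one]⟩

/-- **Chen's weights.** -/
lemma chen_pointwise {κ θ ℓ : ℝ} {k : ℕ} (h : LF κ θ ℓ k) (e t n : ℕ) (hnt : 0 < n + t)
    (hm : ((n + t : ℕ) : ℝ) < yR ℓ ^ 3)
    (hz : ∀ q, q.Prime → q ∣ n + t → zR ℓ ≤ q) (he : e.Prime → ¬ e ∣ n + t)
    (hsq : ∀ q ∈ Qf ℓ e, ¬ q ^ 2 ∣ n + t) (hw : 0 < chW ℓ e t n) (hm1 : n + t ≠ 1) :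
    IsP2 (n + t) := by
  classical
  set m := n + t with hmdef
  have hY := yR_pos ℓ
  have hcast : ∀ q ∈ Qf ℓ e, cA t n q = if q ∣ m then 1 else 0 := fun q hq =>
    cA_eq t n q (h.memQ hq).1.one_le
  have hsum : ∑ q ∈ Qf ℓ e, cA t n q = #((Qf ℓ e).filter (fun q => q ∣ m)) := by
    rw [Finset.sum_congr rfl hcast, Finset.sum_boole]
  have hQ : ∀ q, q.Prime → q ∣ m → (q : ℝ) < yR ℓ → q ∈ Qf ℓ e := by
    intro q hq hqm hqy
    unfold Qf
    rw [Finset.mem_erase, Pool.Agent.H90.LS.mem_PI]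
    refine ⟨?_, hq, hz q hq hqm, hqy⟩
    rintro rfl
    exact he hq hqm
  unfold chW at hw
  rw [hsum] at hw
  set F := (Qf ℓ e).filter (fun q => q ∣ m) with hF
  rcases Finset.eq_empty_or_nonempty F with hF0 | hFne
  · -- no prime factor below y
    have hall : ∀ q, q.Prime → q ∣ m → yR ℓ ≤ q := by
      intro q hq hqm
      by_contra hcon
      push Not at hcon
      have : q ∈ F := by rw [hF, Finset.mem_filter]; exact ⟨hQ q hq hqm hcon, hqm⟩
      rw [hF0] at this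
      exact absurd this (Finset.notMem_empty _)
    rcases large_factors (yR ℓ) hY m hnt hm hall with h1 | h1 | ⟨p, q, hp, hq, _, _, _, h1⟩
    · exact absurd h1 hm1
    · exact Or.inl h1
    · exact Or.inr ⟨p, q, hp, hq, h1⟩
  · obtain ⟨q, hqF⟩ := hFne
    have hqF' := hqF
    rw [hF, Finset.mem_filter] at hqF'
    obtain ⟨hqQ, hqm⟩ := hqF'
    obtain ⟨hqp, _, hqz, hqy, _, _⟩ := h.memQ hqQ
    have hcard : #F = 1 := by
      have h1 : 1 ≤ #F := Finset.card_pos.mpr ⟨q, hqF⟩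
      have h2 : (#F : ℝ) < 2 := by
        have h3 : (0 : ℝ) ≤ (if chi3 ℓ (n + t) then (1 : ℝ) else 0) := by split_ifs <;> norm_num
        linarith
      have h3 : #F < 2 := by exact_mod_cast h2
      omega
    have huniq : ∀ r, r.Prime → r ∣ m → (r : ℝ) < yR ℓ → r = q := by
      intro r hr hrm hry
      have hrF : r ∈ F := by rw [hF, Finset.mem_filter]; exact ⟨hQ r hr hrm hry, hrm⟩
      obtain ⟨a, ha⟩ := Finset.card_eq_one.mp hcard
      rw [ha, Finset.mem_singleton] at hrF hqF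
      rw [hrF, hqF]
    obtain ⟨m', hm'⟩ := hqm
    have hm'0 : 0 < m' := by
      rcases Nat.eq_zero_or_pos m' with h0 | h0
      · rw [hm', h0] at hnt; simp at hnt
      · exact h0
    have hall : ∀ r, r.Prime → r ∣ m' → yR ℓ ≤ r := by
      intro r hr hrm
      by_contra hcon
      push Not at hcon
      have hrm' : r ∣ m := by rw [hm']; exact hrm.trans (Dvd.intro_left q rfl)
      have hrq := huniq r hr hrm' hcon
      subst hrq
      apply hsq r hqQ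
      rw [hm', sq]
      exact Nat.mul_dvd_mul_left r hrm
    have hm'lt : (m' : ℝ) < yR ℓ ^ 3 := by
      refine lt_of_le_of_lt ?_ hm
      have : m' ≤ m := by rw [hm']; exact Nat.le_mul_of_pos_left _ hqp.pos
      exact_mod_cast this
    rcases large_factors (yR ℓ) hY m' hm'0 hm'lt hall with h1 | h1 | ⟨p2, p3, hp2, hp3, h2y, _, h23, h1⟩
    · left; rw [hm', h1, mul_one]; exact hqp
    · right; exact ⟨q, m', hqp, h1, hm'⟩
    · exfalso
      have hchi : chi3 ℓ (n + t) := by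
        refine ⟨q, p2, p3, hqp, hp2, hp3, hqz, hqy, h2y, h23, ?_⟩
        rw [← hmdef, hm', h1]; ring
      rw [if_pos hchi, hcard] at hw
      norm_num at hw

/-- candidates of Chen's sieve -/
noncomputable def CG (θ ℓ : ℝ) (e t A0 : ℕ) : Finset ℕ := by
  classical
  exact (SS ℓ e A0).filter (fun n => aw ℓ (yy ℓ) n ≠ 0 ∧ chS θ ℓ e t n ≠ 0 ∧ 0 < chW ℓ e t n)

lemma mem_CG {θ ℓ : ℝ} {e t A0 n : ℕ} : n ∈ CG θ ℓ e t A0 ↔ n ∈ SS ℓ e A0 ∧
    aw ℓ (yy ℓ) n ≠ 0 ∧ chS θ ℓ e t n ≠ 0 ∧ 0 < chW ℓ e t n := by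
  unfold CG; rw [Finset.mem_filter]

lemma GC_le_card {θ ℓ : ℝ} (hℓ : 0 ≤ ℓ) (e t A0 : ℕ) : GC θ ℓ e t A0 ≤ ℓ * #(CG θ ℓ e t A0) := by
  classical
  have h1 : GC θ ℓ e t A0 ≤ ∑ n ∈ SS ℓ e A0, if n ∈ CG θ ℓ e t A0 then ℓ else 0 := by
    unfold GC
    apply Finset.sum_le_sum
    intro n hn
    have ha := aw_nonneg ℓ (yy ℓ) n
    have hs := chS_nonneg θ ℓ e t n
    have hs1 := chS_le_one θ ℓ e t n
    by_cases hC : n ∈ CG θ ℓ e t A0
    · rw [if_pos hC]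
      rw [mem_CG] at hC
      have hnS := hC.1
      unfold SS at hnS
      rw [Finset.mem_filter, Finset.mem_Ioc] at hnS
      have h2 := aw_le ℓ (yy ℓ) n hnS.1.2 (aw_ne_zero hC.2.1).1
      have hw1 : chW ℓ e t n ≤ 1 := by
        unfold chW
        have h3 : 0 ≤ ∑ q ∈ Qf ℓ e, cA t n q := Finset.sum_nonneg (fun q _ => cb_nonneg _ n q)
        have h4 : (0 : ℝ) ≤ (if chi3 ℓ (n + t) then (1 : ℝ) else 0) := by split_ifs <;> norm_num
        linarith
      calc aw ℓ (yy ℓ) n * chS θ ℓ e t n * chW ℓ e t n ≤ (ℓ * 1) * 1 := by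
            apply mul_le_mul _ hw1 hC.2.2.2.le (by linarith)
            exact mul_le_mul h2 hs1 hs hℓ
        _ = ℓ := by ring
    · rw [if_neg hC]
      by_cases h0 : aw ℓ (yy ℓ) n = 0
      · rw [h0]; simp
      by_cases h1 : chS θ ℓ e t n = 0
      · rw [h1]; simp
      have hw : chW ℓ e t n ≤ 0 := by
        by_contra hcon
        push Not at hcon
        exact hC (mem_CG.mpr ⟨hn, h0, h1, hcon⟩)
      exact mul_nonpos_of_nonneg_of_nonpos (mul_nonneg ha hs) hw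
  refine h1.trans (le_of_eq ?_)
  rw [← Finset.sum_filter, Finset.sum_const, nsmul_eq_mul, mul_comm]
  congr 2
  congr 1
  ext n
  rw [Finset.mem_filter]
  constructor
  · exact fun h => h.2
  · exact fun h => ⟨(mem_CG.mp h).1, h⟩

/-- candidates have no prime factor of the sieve -/
lemma CG_sieved {κ θ ℓ : ℝ} {k : ℕ} (h : LF κ θ ℓ k) {e t A0 n : ℕ} (hn : n ∈ CG θ ℓ e t A0) (p : ℕ)
    (hp : p.Prime) (hzp : zf ℓ < p) (hpe : p ≠ e) (hpt : ¬ p ∣ t) (hpz : (p : ℝ) < zR ℓ) :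
    ¬ p ∣ n + t := by
  intro hd
  rw [mem_CG] at hn
  apply hn.2.2.1
  have hc : cA t n p = 1 := by rw [cA_eq t n p hp.one_le, if_pos hd]
  unfold chS
  by_cases hpw : p ≤ wf θ ℓ
  · have : p ∈ P1f θ ℓ e t := by
      unfold P1f; rw [mem_PS]; exact ⟨⟨hzp, hpw, hp⟩, hpe, hpt⟩
    rw [Finset.prod_eq_zero this (by rw [hc, sub_self]), zero_mul]
  · have : p ∈ P2f θ ℓ e := by
      unfold P2f
      rw [Finset.mem_erase, Pool.Agent.H90.LS.mem_PI]
      refine ⟨hpe, hp, ?_, hpz⟩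
      push Not at hpw
      unfold wf at hpw
      have h1 : ⌈Real.exp (θ * ℓ)⌉₊ ≤ p := by omega
      exact (Nat.le_ceil _).trans (by exact_mod_cast h1)
    rw [Finset.prod_eq_zero this (by rw [hc, sub_self]), mul_zero]

/-- candidates belong to the coarser candidate set -/
lemma CG_sub_GG {κ θ ℓ : ℝ} {k : ℕ} (h : LF κ θ ℓ k) {e t A0 y n : ℕ} (hy : (y : ℝ) < zR ℓ)
    (hyy : y ≤ yy ℓ) (hn : n ∈ CG θ ℓ e t A0) : n ∈ GG ℓ (zf ℓ) y e t A0 := by
  have hn' := hn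
  rw [mem_CG] at hn'
  obtain ⟨hnS, haw, _, _⟩ := hn'
  unfold SS at hnS
  rw [Finset.mem_filter, Finset.mem_Ioc] at hnS
  obtain ⟨hnp, hny, hn9⟩ := aw_ne_zero haw
  rw [mem_GG]
  refine ⟨hnS.1, hnS.2, hnp, by omega, hn9, ?_⟩
  intro p hp
  rw [mem_PS] at hp
  obtain ⟨⟨h1, h2, h3⟩, h4, h5⟩ := hp
  have h6 : (p : ℝ) ≤ y := by exact_mod_cast h2
  exact CG_sieved h hn p h3 h1 h4 h5 (by linarith)

/-- counting multiples -/
lemma count_shift (N t d : ℕ) (hd : 0 < d) :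
    (#((Ioc 0 N).filter (fun n => d ∣ n + t)) : ℝ) ≤ ((N : ℝ) + t) / d := by
  have h1 : #((Ioc 0 N).filter (fun n => d ∣ n + t)) ≤ #((Ioc 0 (N + t)).filter (fun m => d ∣ m)) := by
    apply Finset.card_le_card_of_injOn (fun n => n + t)
    · intro n hn
      simp only [Finset.coe_filter, Set.mem_setOf_eq, Finset.mem_Ioc] at hn ⊢
      exact ⟨⟨by omega, by omega⟩, hn.2⟩
    · intro a _ b _ hab
      simp only at hab
      omega
  have h2 := count_dvd (N + t) d hd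
  have h3 : (#((Ioc 0 N).filter (fun n => d ∣ n + t)) : ℝ) ≤ #((Ioc 0 (N + t)).filter (fun m => d ∣ m)) := by
    exact_mod_cast h1
  refine h3.trans (h2.trans (le_of_eq ?_))
  push_cast
  ring

/-- the square factors -/
lemma count_squares {κ θ ℓ : ℝ} {k : ℕ} (h : LF κ θ ℓ k) (e t : ℕ) (ht : (t : ℝ) ≤ Real.exp ℓ) :
    (#((Ioc 0 ⌊Real.exp ℓ⌋₊).filter (fun n => ∃ q ∈ Qf ℓ e, q ^ 2 ∣ n + t)) : ℝ) ≤
      2 * Real.exp ℓ / zR ℓ * (2 * ℓ) := by
  classical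
  have hℓ := h.ℓk
  have hℓ0 : 0 < ℓ := by linarith
  set N := ⌊Real.exp ℓ⌋₊ with hN
  have hNx : (N : ℝ) ≤ Real.exp ℓ := Nat.floor_le (Real.exp_pos _).le
  have hsub : (Ioc 0 N).filter (fun n => ∃ q ∈ Qf ℓ e, q ^ 2 ∣ n + t) ⊆
      (Qf ℓ e).biUnion (fun q => (Ioc 0 N).filter (fun n => q ^ 2 ∣ n + t)) := by
    intro n hn
    rw [Finset.mem_filter] at hn
    obtain ⟨hn1, q, hq, hqd⟩ := hn
    rw [Finset.mem_biUnion]
    exact ⟨q, hq, Finset.mem_filter.mpr ⟨hn1, hqd⟩⟩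
  have h1 : (#((Ioc 0 N).filter (fun n => ∃ q ∈ Qf ℓ e, q ^ 2 ∣ n + t)) : ℝ) ≤
      ∑ q ∈ Qf ℓ e, (#((Ioc 0 N).filter (fun n => q ^ 2 ∣ n + t)) : ℝ) := by
    have := (Finset.card_le_card hsub).trans Finset.card_biUnion_le
    exact_mod_cast this
  refine h1.trans ?_
  have h2 : ∀ q ∈ Qf ℓ e, (#((Ioc 0 N).filter (fun n => q ^ 2 ∣ n + t)) : ℝ) ≤
      2 * Real.exp ℓ / zR ℓ * (1 / q) := by
    intro q hq
    obtain ⟨hqp, _, hqz, _, _, _⟩ := h.memQ hq
    have hq0 : (0 : ℝ) < q := by exact_mod_cast hqp.pos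
    have hz0 := zR_pos ℓ
    refine (count_shift N t (q ^ 2) (pow_pos hqp.pos 2)).trans ?_
    push_cast
    calc ((N : ℝ) + t) / (q : ℝ) ^ 2 ≤ (2 * Real.exp ℓ) / (zR ℓ * q) := by
          apply div_le_div₀ (by positivity) (by linarith) (by positivity)
          rw [sq]
          exact mul_le_mul_of_nonneg_right hqz hq0.le
      _ = _ := by field_simp
  refine (Finset.sum_le_sum h2).trans ?_
  rw [← Finset.mul_sum]
  apply mul_le_mul_of_nonneg_left _ (div_nonneg (by positivity) (zR_pos ℓ).le)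
  have h3 : ∑ q ∈ Qf ℓ e, 1 / (q : ℝ) ≤ ∑ q ∈ Finset.Icc 1 (yy ℓ), 1 / (q : ℝ) := by
    apply Finset.sum_le_sum_of_subset_of_nonneg
    · intro q hq
      obtain ⟨hqp, _, _, hqy, _, _⟩ := h.memQ hq
      rw [Finset.mem_Icc]
      refine ⟨hqp.one_le, ?_⟩
      have : (q : ℝ) ≤ yy ℓ := hqy.le.trans h.yh
      exact_mod_cast this
    · intro q _ _; positivity
  have hyy1 : 1 ≤ yy ℓ := by
    unfold yy
    apply Nat.le_floor
    rw [Nat.cast_one]
    exact Real.one_le_exp (by linarith)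
  have h4 : ∑ q ∈ Finset.Icc 1 (yy ℓ), 1 / (q : ℝ) ≤ 1 + Real.log (yy ℓ) := by
    have h5 := harmonic_le_one_add_log (yy ℓ)
    have h6 : ((harmonic (yy ℓ) : ℚ) : ℝ) = ∑ q ∈ Finset.Icc 1 (yy ℓ), 1 / (q : ℝ) := by
      rw [harmonic_eq_sum_Icc]
      push_cast
      apply Finset.sum_congr rfl
      intro q _
      rw [one_div]
    rw [← h6]
    exact h5
  have h5 : Real.log (yy ℓ) ≤ ℓ / 2 := by
    rw [Real.log_le_iff_le_exp (by exact_mod_cast hyy1)]
    exact yy_le ℓ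
  linarith

end Pool.Agent.H16
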