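import Pool.Agent.H16.CH10
import Pool.Agent.H90.LS.ChenSums

/-!
The gap theorem of Chen type, unconditional form.
-/

set_option autoImplicit false

open Finset Filter Topology

namespace Pool.Agent.H16

lemma log_three_half_pos : 0 < Real.log (3 / 2) := Real.log_pos (by norm_num)

theorem s2Sum_holds : S2Sum := fun ε hε => Pool.Agent.H90.LS.S2_sum ε hε

theorem s3Sum_holds : ∃ c3 : ℝ, 0 ≤ c3 ∧ c3 < Real.log (3 / 2) ∧ S3Sum c3 := by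
  obtain ⟨c3, h1, h2⟩ := Pool.Agent.H90.LS.S3_sum
  refine ⟨max c3 0, le_max_right _ _, max_lt h1 log_three_half_pos, fun ε hε => ?_⟩
  obtain ⟨L0, hL0⟩ := h2 ε hε
  refine ⟨max L0 1, fun ℓ hℓ => ?_⟩
  have h3 := hL0 ℓ ((le_max_left _ _).trans hℓ)
  have hℓ1 : 1 ≤ ℓ := (le_max_right _ _).trans hℓ
  refine h3.trans ?_
  apply div_le_div_of_nonneg_right _ (by linarith)
  linarith [le_max_left c3 0]

theorem tentCount_holds : ∃ T0 : ℝ, TentCount T0 := by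
  obtain ⟨T, hT, h⟩ := Pool.Agent.H90.LS.tent_count
  exact ⟨T, hT, h⟩

theorem chen_gaps (u : ℕ) (hu : 7501 ≤ u) : ∃ c : ℝ, 0 < c ∧
    ∀ ε : ℝ, 0 < ε → ∀ᶠ ℓ : ℝ in atTop, ∀ t : ℕ, Even t → 0 < t → (t : ℝ) ≤ c * RS ℓ →
    Real.exp ((1 - ε) * ℓ) ≤ #(goodChen u ℓ t) := by
  obtain ⟨T0, hT⟩ := tentCount_holds
  obtain ⟨c3, h0, h1, h3⟩ := s3Sum_holds
  exact many_chen_gaps hT s2Sum_holds h3 h0 h1 u hu

end Pool.Agent.H16
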