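import Pool.Agent.H16.FL
import Pool.Agent.H90.LS.Main

/-!
The composite sieve: the fundamental lemma on small primes and the linear sieve on large primes.
-/

set_option autoImplicit false

open Finset Real

namespace Pool.Agent.H16

open Pool.Agent.H90 (LS.lam LS.W)

lemma RD_union {ι : Type*} (S : Finset ι) (a : ι → ℝ) (c : ι → ℕ → ℝ) (X : ℝ) (g : ℕ → ℝ)
    (F D : Finset ℕ) (h : Disjoint F D) :
    RD S (fun n => a n * ∏ p ∈ F, c n p) c (X * ∏ p ∈ F, g p) g D = RD S a c X g (F ∪ D) := by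
  unfold RD AD
  rw [Finset.prod_union h]
  congr 1
  · apply Finset.sum_congr rfl
    intro n _
    rw [Finset.prod_union h]
    ring
  · ring

lemma sum_powerset_prod (A : Finset ℕ) (g : ℕ → ℝ) :
    ∑ s ∈ A.powerset, ∏ p ∈ s, g p = ∏ p ∈ A, (1 + g p) := by
  rw [Finset.prod_one_add]

/-- sum over pairs of disjoint supports -/
lemma sum_pairs_le (A B : Finset ℕ) (hAB : Disjoint A B) (𝓕 𝒜 𝒟 : Finset (Finset ℕ))
    (h𝓕 : ∀ F ∈ 𝓕, F ⊆ A) (h𝒜 : ∀ D ∈ 𝒜, D ⊆ B) (h : ∀ F ∈ 𝓕, ∀ D ∈ 𝒜, F ∪ D ∈ 𝒟)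
    (f : Finset ℕ → ℝ) (hf : ∀ D, 0 ≤ f D) :
    ∑ F ∈ 𝓕, ∑ D ∈ 𝒜, f (F ∪ D) ≤ ∑ D ∈ 𝒟, f D := by
  classical
  rw [← Finset.sum_product']
  have hinj : Set.InjOn (fun x : Finset ℕ × Finset ℕ => x.1 ∪ x.2) ((𝓕 ×ˢ 𝒜 : Finset _) : Set (Finset ℕ × Finset ℕ)) := by
    rintro ⟨F1, D1⟩ h1 ⟨F2, D2⟩ h2 h12
    simp only [Finset.coe_product, Set.mem_prod, Finset.mem_coe] at h1 h2
    simp only at h12
    have key : ∀ F ∈ 𝓕, ∀ D ∈ 𝒜, (F ∪ D) ∩ A = F ∧ (F ∪ D) ∩ B = D := by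
      intro F hF D hD
      constructor
      · ext x
        rw [Finset.mem_inter, Finset.mem_union]
        constructor
        · rintro ⟨h1 | h1, h2⟩
          · exact h1
          · exact absurd (h𝒜 D hD h1) (fun hb => Finset.disjoint_left.mp hAB h2 hb)
        · intro h1; exact ⟨Or.inl h1, h𝓕 F hF h1⟩
      · ext x
        rw [Finset.mem_inter, Finset.mem_union]
        constructor
        · rintro ⟨h1 | h1, h2⟩
          · exact absurd h2 (fun hb => Finset.disjoint_left.mp hAB (h𝓕 F hF h1) hb)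
          · exact h1
        · intro h1; exact ⟨Or.inr h1, h𝒜 D hD h1⟩
    have k1 := key F1 h1.1 D1 h1.2
    have k2 := key F2 h2.1 D2 h2.2
    rw [Prod.mk.injEq]
    constructor
    · rw [← k1.1, ← k2.1, h12]
    · rw [← k1.2, ← k2.2, h12]
  rw [← Finset.sum_image (f := f) hinj]
  apply Finset.sum_le_sum_of_subset_of_nonneg
  · intro D hD
    obtain ⟨x, hx, rfl⟩ := Finset.mem_image.mp hD
    rw [Finset.mem_product] at hx
    exact h x.1 hx.1 x.2 hx.2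
  · intro D _ _; exact hf D

/-- **Composite sieve**: fundamental lemma on `P1 ⊂ (z, w]`, linear sieve weights on `P2`. -/
theorem compSieve : ∃ C : ℝ, 0 < C ∧ ∀ k : ℕ, C * (1 / 2) ^ k ≤ 1 → ∀ {ι : Type} (S : Finset ι) (a : ι → ℝ)
    (c : ι → ℕ → ℝ) (X : ℝ) (z w : ℕ) (_ : 100 ≤ Real.log z) (_ : z ≤ w)
    (P1 P2 : Finset ℕ) (_ : ∀ p ∈ P1, p.Prime) (_ : ∀ p ∈ P1, z < p) (_ : ∀ p ∈ P1, p ≤ w)
    (_ : ∀ p ∈ P2, p.Prime) (_ : ∀ p ∈ P2, w < p)
    (g : ℕ → ℝ) (_ : ∀ p ∈ P1, 0 ≤ g p) (_ : ∀ p ∈ P2, 0 ≤ g p) (_ : ∀ p ∈ P1, g p ≤ 4 / p)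
    (_ : ∀ n ∈ S, 0 ≤ a n) (_ : ∀ n p, 0 ≤ c n p) (_ : ∀ n p, c n p ≤ 1) (_ : 0 ≤ X)
    (b : Bool) (D2 : ℝ) (_ : 1 < D2) (_ : b = false → ∀ p ∈ P2, (p : ℝ) ^ 2 ≤ D2),
    |(∑ n ∈ S, a n * ((∏ p ∈ P1, (1 - c n p)) * LS.W b D2 P2 (c n))) -
      X * (∏ p ∈ P1, (1 - g p)) * LS.W b D2 P2 g| ≤
      C * (1 / 2) ^ k * (X * (∏ p ∈ P1, (1 - g p)) * ∏ p ∈ P2, (1 + g p)) + 2 * Real.log w *
      ∑ D ∈ (P2 ∪ P1).powerset.filter
        (fun D => ((∏ p ∈ D, p : ℕ) : ℝ) ≤ (w : ℝ) ^ (4 * k + 5) * D2), |RD S a c X g D| := by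
  classical
  obtain ⟨C, hC, hM0⟩ := fundLemma
  refine ⟨C, hC, ?_⟩
  intro k hk ι S a c X z w hz hzw P1 P2 hP1 hP1z hP1w hP2 hP2w g hg01 hg02 hg4 ha hc0 hc1 hX b D2 hD2 hb
  have hM := fun (S : Finset ι) => hM0 k hk S
  set η := C * (1 / 2) ^ k with hηdef
  have hη : 0 < η := by positivity
  set M := 4 * k + 5 with hMdef
  set V1 := ∏ p ∈ P1, (1 - g p) with hV1
  have hz0 := zw_pos z hz
  have hw1 : 1 ≤ w := by
    have : 0 < z := by exact_mod_cast hz0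
    omega
  have hlw : 0 ≤ Real.log w := Real.log_nonneg (by exact_mod_cast hw1)
  have hlw1 : 1 ≤ 2 * Real.log w := by
    have : Real.log z ≤ Real.log w := Real.log_le_log hz0 (by exact_mod_cast hzw)
    linarith
  have hV1pos : 0 ≤ V1 := by
    rw [hV1]
    apply Finset.prod_nonneg
    intro p hp
    have := gw_small z hz P1 hP1z g hg4 p hp
    linarith
  have hdisj : Disjoint P2 P1 := by
    rw [Finset.disjoint_left]
    intro p h1 h2
    have h3 := hP2w p h1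
    have h4 := hP1w p h2
    omega
  set 𝒜 := P1.powerset.filter (fun D => (∏ p ∈ D, p) ≤ w ^ M) with h𝒜
  set 𝒟 := (P2 ∪ P1).powerset.filter (fun D => ((∏ p ∈ D, p : ℕ) : ℝ) ≤ (w : ℝ) ^ M * D2) with h𝒟
  set 𝓕 := P2.powerset.filter (fun F => LS.lam b D2 F ≠ 0) with h𝓕
  set AF : Finset ℕ → ℝ := fun F => ∑ n ∈ S, (a n * ∏ p ∈ F, c n p) * ∏ p ∈ P1, (1 - c n p)
    with hAF
  set EF : Finset ℕ → ℝ := fun F => ∑ D ∈ 𝒜, |RD S a c X g (F ∪ D)| with hEF
  have hEF0 : ∀ F, 0 ≤ EF F := fun F => Finset.sum_nonneg (fun _ _ => abs_nonneg _)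
  -- fundamental lemma for each F
  have key : ∀ F ∈ P2.powerset, |AF F - X * (∏ p ∈ F, g p) * V1| ≤
      η * (X * (∏ p ∈ F, g p) * V1) + 2 * Real.log w * EF F := by
    intro F hF
    rw [Finset.mem_powerset] at hF
    have hgF : 0 ≤ ∏ p ∈ F, g p := Finset.prod_nonneg (fun p hp => hg02 p (hF hp))
    have h := hM S (fun n => a n * ∏ p ∈ F, c n p) c (X * ∏ p ∈ F, g p) z w hz hzw P1 hP1 hP1z hP1w
      g hg01 hg4 (fun n hn => mul_nonneg (ha n hn)
        (Finset.prod_nonneg (fun p _ => hc0 n p))) (fun n _ p _ => hc0 n p)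
      (fun n _ p _ => hc1 n p) (mul_nonneg hX hgF)
    have hE : ∑ D ∈ 𝒜, |RD S (fun n => a n * ∏ p ∈ F, c n p) c (X * ∏ p ∈ F, g p) g D| = EF F := by
      apply Finset.sum_congr rfl
      intro D hD
      rw [RD_union]
      rw [h𝒜, Finset.mem_filter, Finset.mem_powerset] at hD
      exact Disjoint.mono hF hD.1 hdisj
    rw [hE] at h
    have h1 := h.1
    have h2 := h.2
    have hEle : EF F ≤ 2 * Real.log w * EF F := le_mul_of_one_le_left (hEF0 F) hlw1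
    rw [abs_le]
    constructor
    · have : (1 - η) * (X * (∏ p ∈ F, g p) * V1) - 2 * Real.log w * EF F ≤ AF F := h2
      linarith
    · have : AF F ≤ (1 + η) * (X * (∏ p ∈ F, g p) * V1) + EF F := h1
      linarith
  -- expansion
  have hexp : ∑ n ∈ S, a n * ((∏ p ∈ P1, (1 - c n p)) * LS.W b D2 P2 (c n)) =
      ∑ F ∈ P2.powerset, LS.lam b D2 F * AF F := by
    rw [hAF]
    simp only
    simp_rw [Finset.mul_sum]
    rw [Finset.sum_comm]
    apply Finset.sum_congr rfl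
    intro n _
    unfold LS.W
    rw [Finset.mul_sum, Finset.mul_sum]
    apply Finset.sum_congr rfl
    intro F _
    ring
  have hmain : X * V1 * LS.W b D2 P2 g = ∑ F ∈ P2.powerset, LS.lam b D2 F *
      (X * (∏ p ∈ F, g p) * V1) := by
    unfold LS.W
    rw [Finset.mul_sum]
    apply Finset.sum_congr rfl
    intro F _
    ring
  rw [hexp, hmain, ← Finset.sum_sub_distrib]
  have hterm : ∀ F ∈ P2.powerset, |LS.lam b D2 F * AF F - LS.lam b D2 F * (X * (∏ p ∈ F, g p) * V1)| ≤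
      η * (X * V1) * (∏ p ∈ F, g p) + 2 * Real.log w * (if LS.lam b D2 F ≠ 0 then EF F else 0) := by
    intro F hF
    have h1 := key F hF
    rw [Finset.mem_powerset] at hF
    have hgF : 0 ≤ ∏ p ∈ F, g p := Finset.prod_nonneg (fun p hp => hg02 p (hF hp))
    rw [← mul_sub, abs_mul]
    by_cases h0 : LS.lam b D2 F = 0
    · rw [h0, abs_zero, zero_mul]
      have : ¬ (0 : ℝ) ≠ 0 := fun h => h rfl
      rw [if_neg this, mul_zero, add_zero]
      positivity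
    · rw [if_pos h0]
      calc |LS.lam b D2 F| * |AF F - X * (∏ p ∈ F, g p) * V1| ≤
          1 * |AF F - X * (∏ p ∈ F, g p) * V1| :=
            mul_le_mul_of_nonneg_right (Pool.Agent.H90.LS.abs_lam_le b D2 F) (abs_nonneg _)
        _ ≤ η * (X * (∏ p ∈ F, g p) * V1) + 2 * Real.log w * EF F := by rw [one_mul]; exact h1
        _ = _ := by ring
  refine (Finset.abs_sum_le_sum_abs _ _).trans ((Finset.sum_le_sum hterm).trans ?_)
  rw [Finset.sum_add_distrib, ← Finset.mul_sum, ← Finset.mul_sum, sum_powerset_prod]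
  have h1 : η * (X * V1) * ∏ p ∈ P2, (1 + g p) = η * (X * V1 * ∏ p ∈ P2, (1 + g p)) := by ring
  rw [h1]
  apply add_le_add le_rfl
  apply mul_le_mul_of_nonneg_left _ (by linarith)
  rw [← Finset.sum_filter]
  have hfin := sum_pairs_le P2 P1 hdisj (P2.powerset.filter (fun F => LS.lam b D2 F ≠ 0)) 𝒜 𝒟 ?_ ?_ ?_
    (fun D => |RD S a c X g D|) (fun D => abs_nonneg _)
  · exact hfin
  · intro F hF
    rw [Finset.mem_filter, Finset.mem_powerset] at hF
    exact hF.1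
  · intro D hD
    rw [h𝒜, Finset.mem_filter, Finset.mem_powerset] at hD
    exact hD.1
  · intro F hF D hD
    rw [Finset.mem_filter, Finset.mem_powerset] at hF
    rw [h𝒜, Finset.mem_filter, Finset.mem_powerset] at hD
    rw [h𝒟, Finset.mem_filter, Finset.mem_powerset]
    refine ⟨Finset.union_subset_union hF.1 hD.1, ?_⟩
    rw [Finset.prod_union (Disjoint.mono hF.1 hD.1 hdisj)]
    push_cast
    have hF1 : ((∏ p ∈ F, p : ℕ) : ℝ) ≤ D2 := by
      have hs := Pool.Agent.H90.LS.lam_support F (fun p hp => (hP2 p (hF.1 hp)).one_lt.le) D2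
      cases b with
      | true => exact (hs.1 hD2 hF.2).le
      | false => exact (hs.2 (fun p hp => hb rfl p (hF.1 hp)) hD2 hF.2).le
    have hD1 : ((∏ p ∈ D, p : ℕ) : ℝ) ≤ (w : ℝ) ^ M := by exact_mod_cast hD.2
    push_cast at hF1 hD1
    rw [mul_comm ((w : ℝ) ^ M)]
    exact mul_le_mul hF1 hD1 (Finset.prod_nonneg (fun _ _ => Nat.cast_nonneg _)) (by linarith)

end Pool.Agent.H16
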