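import Pool.Agent.H16.EB2
import Pool.Agent.H16.AN4

/-!
Total remainders at level one half: primes.
-/

set_option autoImplicit false

open Complex Finset Filter Topology
open scoped ComplexConjugate
open ArithmeticFunction (vonMangoldt moebius)
open DirichletCharacter

namespace Pool.Agent.H16

lemma prod_ratio_le (D : Finset ℕ) (h : ∀ p ∈ D, 2 ≤ p) :
    ∏ p ∈ D, (p : ℝ) / ((p : ℝ) - 1) ≤ #D + 1 := by
  induction D using Finset.induction_on_max with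
  | empty => simp
  | insert m A hm ih =>
    have hmA : m ∉ A := fun h => lt_irrefl _ (hm m h)
    rw [Finset.prod_insert hmA, Finset.card_insert_of_notMem hmA]
    have ih' := ih (fun p hp => h p (Finset.mem_insert_of_mem hp))
    have hm2 : 2 ≤ m := h m (Finset.mem_insert_self _ _)
    have hcard : #A + 2 ≤ m := by
      have hsub : A ⊆ Finset.Ico 2 m := by
        intro p hp
        rw [Finset.mem_Ico]
        exact ⟨h p (Finset.mem_insert_of_mem hp), hm p hp⟩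
      have := Finset.card_le_card hsub
      rw [Nat.card_Ico] at this
      omega
    have hm' : (#A : ℝ) + 2 ≤ m := by exact_mod_cast hcard
    have hA0 : (0 : ℝ) ≤ #A := Nat.cast_nonneg _
    have h1 : (m : ℝ) / ((m : ℝ) - 1) ≤ (#A + 2) / (#A + 1) := by
      rw [div_le_div_iff₀ (by linarith) (by linarith)]
      nlinarith
    have h2 : 0 ≤ ∏ p ∈ A, (p : ℝ) / ((p : ℝ) - 1) := by
      apply Finset.prod_nonneg
      intro p hp
      have : (2 : ℝ) ≤ p := by exact_mod_cast h p (Finset.mem_insert_of_mem hp)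
      apply div_nonneg (by linarith) (by linarith)
    push_cast
    calc (m : ℝ) / ((m : ℝ) - 1) * ∏ p ∈ A, (p : ℝ) / ((p : ℝ) - 1) ≤
        ((#A : ℝ) + 2) / (#A + 1) * (#A + 1) := by
          apply mul_le_mul h1 ih' h2 (by positivity)
      _ = (#A : ℝ) + 1 + 1 := by field_simp; ring

lemma card_le_log (D : Finset ℕ) (h : ∀ p ∈ D, 2 ≤ p) (ℓ : ℝ)
    (hD : ((∏ p ∈ D, p : ℕ) : ℝ) ≤ Real.exp (ℓ / 2)) : (#D : ℝ) ≤ 0.73 * ℓ := by
  have h1 : 2 ^ (#D) ≤ ∏ p ∈ D, p := Finset.pow_card_le_prod D _ 2 h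
  have h2 : (2 : ℝ) ^ (#D) ≤ Real.exp (ℓ / 2) := by
    refine le_trans ?_ hD
    exact_mod_cast h1
  have h3 := Real.log_le_log (by positivity) h2
  rw [Real.log_pow, Real.log_exp] at h3
  have h4 := Real.log_two_gt_d9
  have h5 : (0 : ℝ) ≤ #D := Nat.cast_nonneg _
  nlinarith

/-- the density is at most `ℓ² / d` -/
lemma gD_le (D : Finset ℕ) (hD : ∀ p ∈ D, p.Prime) (ℓ : ℝ) (hℓ : 2 ≤ ℓ)
    (hDℓ : ((∏ p ∈ D, p : ℕ) : ℝ) ≤ Real.exp (ℓ / 2)) :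
    ∏ p ∈ D, 1 / ((p : ℝ) - 1) ≤ ℓ ^ 2 / ((∏ p ∈ D, p : ℕ) : ℝ) := by
  have h2 : ∀ p ∈ D, 2 ≤ p := fun p hp => (hD p hp).two_le
  have h1 := prod_ratio_le D h2
  have h3 := card_le_log D h2 ℓ hDℓ
  have hpos : (0 : ℝ) < ((∏ p ∈ D, p : ℕ) : ℝ) := by
    exact_mod_cast Finset.prod_pos (fun p hp => (hD p hp).pos)
  rw [le_div_iff₀ hpos]
  push_cast
  rw [← Finset.prod_mul_distrib]
  have h4 : ∏ p ∈ D, 1 / ((p : ℝ) - 1) * (p : ℝ) = ∏ p ∈ D, (p : ℝ) / ((p : ℝ) - 1) := by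
    apply Finset.prod_congr rfl
    intro p _
    ring
  rw [h4]
  nlinarith

lemma card_fam_prod_le (W : ℕ) (hW1 : 1 ≤ W) (D : Finset ℕ) (hD : ∀ p ∈ D, p.Prime) :
    (#(fam W (∏ p ∈ D, p)) : ℝ) ≤ W * ((∏ p ∈ D, p : ℕ) : ℝ) := by
  have h := card_fam_le W (∏ p ∈ D, p) (Nat.mul_pos hW1 (Finset.prod_pos (fun p hp => (hD p hp).pos)))
  have h2 : (#(fam W (∏ p ∈ D, p)) : ℝ) ≤ ((W * ∏ p ∈ D, p : ℕ) : ℝ) := by exact_mod_cast h
  rw [Nat.cast_mul] at h2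
  exact h2

lemma prod_injOn (𝒟 : Finset (Finset ℕ)) (h : ∀ D ∈ 𝒟, ∀ p ∈ D, p.Prime) :
    Set.InjOn (fun D : Finset ℕ => ∏ p ∈ D, p) (𝒟 : Set (Finset ℕ)) := by
  intro D1 h1 D2 h2 h12
  simp only at h12
  rw [← primeFactors_prod_primes D1 (h D1 h1), h12, primeFactors_prod_primes D2 (h D2 h2)]

lemma card_D_le (𝒟 : Finset (Finset ℕ)) (h : ∀ D ∈ 𝒟, ∀ p ∈ D, p.Prime) (Y : ℝ) (hY : 0 ≤ Y)
    (h2 : ∀ D ∈ 𝒟, ((∏ p ∈ D, p : ℕ) : ℝ) ≤ Y) : (#𝒟 : ℝ) ≤ Y := by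
  have hinj := prod_injOn 𝒟 h
  have h3 : 𝒟.image (fun D : Finset ℕ => ∏ p ∈ D, p) ⊆ Finset.Icc 1 ⌊Y⌋₊ := by
    intro d hd
    rw [Finset.mem_image] at hd
    obtain ⟨D, hD, rfl⟩ := hd
    rw [Finset.mem_Icc]
    exact ⟨Finset.prod_pos (fun p hp => (h D hD p hp).pos), Nat.le_floor (h2 D hD)⟩
  have h4 := Finset.card_le_card h3
  rw [Finset.card_image_of_injOn hinj, Nat.card_Icc, Nat.add_sub_cancel] at h4
  calc (#𝒟 : ℝ) ≤ (⌊Y⌋₊ : ℝ) := by exact_mod_cast h4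
    _ ≤ Y := Nat.floor_le hY

lemma wr_aw (ℓ : ℝ) (y r : ℕ) (hr : ∀ p, p.Prime → p ∣ r → p ≤ y) : wr (aw ℓ y) r = aw ℓ y := by
  funext n
  unfold wr
  split_ifs with h
  · rfl
  · by_contra h0
    exact h (aw_ne_zero_coprime ℓ y n r hr (Ne.symm h0))

lemma prime_dvd_prod_le (D : Finset ℕ) (hD : ∀ p ∈ D, p.Prime) (y : ℕ) (hDy : ∀ p ∈ D, p ≤ y) :
    ∀ p, p.Prime → p ∣ ∏ p ∈ D, p → p ≤ y := by
  intro p hp h
  rw [Prime.dvd_finset_prod_iff hp.prime] at h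
  obtain ⟨q, hq, hpq⟩ := h
  have := (Nat.prime_dvd_prime_iff_eq hp (hD q hq)).mp hpq
  rw [this]; exact hDy q hq

/-- the level sets -/
noncomputable def lev (P : Finset ℕ) (Y : ℝ) : Finset (Finset ℕ) :=
  P.powerset.filter (fun D => ((∏ p ∈ D, p : ℕ) : ℝ) ≤ Y)

lemma mem_lev {P : Finset ℕ} {Y : ℝ} {D : Finset ℕ} :
    D ∈ lev P Y ↔ D ⊆ P ∧ ((∏ p ∈ D, p : ℕ) : ℝ) ≤ Y := by
  unfold lev; rw [Finset.mem_filter, Finset.mem_powerset]

lemma lev_down (P : Finset ℕ) (hP : ∀ p ∈ P, p.Prime) (Y : ℝ) :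
    ∀ D ∈ lev P Y, ∀ D', D' ⊆ D → D' ∈ lev P Y := by
  intro D hD D' hDD
  rw [mem_lev] at hD ⊢
  refine ⟨hDD.trans hD.1, le_trans ?_ hD.2⟩
  have : ∏ p ∈ D', p ≤ ∏ p ∈ D, p := Finset.prod_le_prod_of_subset_of_one_le' hDD
    (fun p hp _ => (hP p (hD.1 hp)).one_le)
  exact_mod_cast this

open scoped Classical in
/-- **Total remainder, primes, level one half.** -/
theorem RP_total (κ : ℝ) (hκ : 0 < κ) (hκ1 : κ ≤ 1 / 4) (A : ℝ) (hA : 0 ≤ A) :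
    ∃ L0 : ℝ, ∀ ℓ : ℝ, L0 ≤ ℓ → ∀ q₁ : ℕ, SmallProp (A + 1 + 4) (A + 1 + 3 + 12) ℓ q₁ →
    ∀ W : ℕ, 1 ≤ W → Real.log W ≤ ℓ / (2 * (Real.log ℓ) ^ 2) →
    ∀ y : ℕ, (y : ℝ) ≤ Real.exp (ℓ / 2) → (∀ p, p.Prime → p ∣ W → p ≤ y) →
    ∀ P : Finset ℕ, (∀ p ∈ P, p.Prime) → (∀ p ∈ P, p ≤ y) →
    (∀ p ∈ P, ¬ p ∣ W) → (∀ D ⊆ P, ¬ q₁ ∣ W * ∏ p ∈ D, p) →
    ∀ (A0 : ℕ) (b : ℕ → ℕ), Nat.Coprime A0 W → (∀ p ∈ P, ¬ p ∣ b p) →
    ∑ D ∈ lev P (Real.exp ((1 / 2 - κ) * ℓ)),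
      |RD ((Ioc 0 ⌊Real.exp ℓ⌋₊).filter (fun n => n ≡ A0 [MOD W])) (aw ℓ y) (cb b)
        ((∑ n ∈ Ioc 0 ⌊Real.exp ℓ⌋₊, aw ℓ y n) / (W.totient : ℝ)) (fun p => 1 / ((p : ℝ) - 1)) D| ≤
      Real.exp ℓ * ℓ ^ (-A) / (W.totient : ℝ) * ∏ p ∈ P, (1 + 1 / ((p : ℝ) - 1)) := by
  obtain ⟨L1, hL1⟩ := ANP κ hκ hκ1 (A + 1) (by linarith)
  obtain ⟨L2, hL2⟩ := Filter.eventually_atTop.mp ((ev_W_small (κ / 4) (by positivity)).and
    ((ev_exp_pow (κ / 2) (A + 3) 8 (by positivity) (by norm_num)).and (eventually_ge_atTop (2 : ℝ))))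
  refine ⟨max L1 L2, fun ℓ hℓ q₁ hq W hW1 hW y hy hWy P hP hPy hPW hPq A0 b hA0 hb => ?_⟩
  obtain ⟨hWs, cxp0, hℓ2⟩ := hL2 ℓ ((le_max_right _ _).trans hℓ)
  have hℓ0 : 0 < ℓ := by linarith
  have hW' := hWs W hW1 hW
  have hφpos : (0 : ℝ) < (W.totient : ℝ) := by exact_mod_cast Nat.totient_pos.mpr hW1
  set N := ⌊Real.exp ℓ⌋₊ with hN
  set Y := Real.exp ((1 / 2 - κ) * ℓ) with hY
  have hYpos : 0 < Y := Real.exp_pos _
  have hYhalf : Y ≤ Real.exp (ℓ / 2) := by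
    apply Real.exp_le_exp.mpr
    nlinarith
  have hmem : ∀ D ∈ lev P Y, D ⊆ P ∧ ((∏ p ∈ D, p : ℕ) : ℝ) ≤ Y := fun D hD => mem_lev.mp hD
  have hDp : ∀ D ∈ lev P Y, ∀ p ∈ D, p.Prime := fun D hD p hp => hP p ((hmem D hD).1 hp)
  set f : Finset ℕ → ℝ := fun D => ∑ ξ ∈ fam W (∏ p ∈ D, p), ‖So ℓ y ξ‖ with hf
  have hH0 : 0 ≤ Real.exp ℓ * ℓ ^ (-A) := by positivity
  -- the analytic bound
  have key : ∑ D ∈ lev P Y, (∏ p ∈ D, 1 / ((p : ℝ) - 1)) * f D ≤ Real.exp ℓ * ℓ ^ (-A) := by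
    set Ep : ℝ := 2 * √(Real.exp ℓ) * ℓ + Real.log 4 * y with hEp
    have hlog4 : 0 ≤ Real.log 4 := Real.log_nonneg (by norm_num)
    have hlog4' : Real.log 4 ≤ 2 := by
      have : Real.log 4 = 2 * Real.log 2 := by
        rw [show (4 : ℝ) = 2 ^ 2 by norm_num, Real.log_pow]; push_cast; ring
      have h2 := Real.log_two_lt_d9
      linarith
    have hsq : √(Real.exp ℓ) = Real.exp (ℓ / 2) := by
      rw [Real.sqrt_eq_iff_mul_self_eq (Real.exp_pos _).le (Real.exp_pos _).le, ← Real.exp_add]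
      congr 1; ring
    have hEp0 : 0 ≤ Ep := by positivity
    have hEple : Ep ≤ 4 * ℓ * Real.exp (ℓ / 2) := by
      rw [hEp, hsq]
      have h1 : Real.log 4 * y ≤ 2 * Real.exp (ℓ / 2) :=
        mul_le_mul hlog4' hy (Nat.cast_nonneg _) (by norm_num)
      have h2 : 2 * Real.exp (ℓ / 2) ≤ 2 * ℓ * Real.exp (ℓ / 2) := by
        apply mul_le_mul_of_nonneg_right _ (Real.exp_pos _).le
        linarith
      linarith
    set S : (d : ℕ) → ℝ := fun d => ∑ ξ ∈ fam W d, ‖∑ n ∈ Ioc 0 N,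
      (ξ (n : ℕ) * LamC n) * ((tent (Real.exp ℓ / 3) n : ℝ) : ℂ)‖ with hS
    have hg0 : ∀ D ∈ lev P Y, 0 ≤ ∏ p ∈ D, 1 / ((p : ℝ) - 1) := by
      intro D hD
      apply Finset.prod_nonneg
      intro p hp
      have : (2 : ℝ) ≤ p := by exact_mod_cast (hDp D hD p hp).two_le
      exact div_nonneg zero_le_one (by linarith)
    have hgl : ∀ D ∈ lev P Y, ∏ p ∈ D, 1 / ((p : ℝ) - 1) ≤ ℓ ^ 2 / ((∏ p ∈ D, p : ℕ) : ℝ) := by
      intro D hD
      exact gD_le D (hDp D hD) ℓ hℓ2 ((hmem D hD).2.trans hYhalf)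
    have hppos : ∀ D ∈ lev P Y, (0 : ℝ) < ((∏ p ∈ D, p : ℕ) : ℝ) := by
      intro D hD
      exact_mod_cast Finset.prod_pos (fun p hp => (hDp D hD p hp).pos)
    have h1 : ∀ D ∈ lev P Y, (∏ p ∈ D, 1 / ((p : ℝ) - 1)) * f D ≤
        (∏ p ∈ D, 1 / ((p : ℝ) - 1)) * S (∏ p ∈ D, p) + ℓ ^ 2 * Real.exp (κ / 4 * ℓ) * Ep := by
      intro D hD
      have h2 : f D ≤ S (∏ p ∈ D, p) + (#(fam W (∏ p ∈ D, p)) : ℝ) * Ep := by
        rw [hf, hS]
        simp only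
        rw [← nsmul_eq_mul, ← Finset.sum_const, ← Finset.sum_add_distrib]
        exact Finset.sum_le_sum (fun ξ _ => So_le ℓ hℓ0.le y ξ)
      have h3 := card_fam_prod_le W hW1 D (hDp D hD)
      have h6 := mul_le_mul_of_nonneg_left h2 (hg0 D hD)
      have h7 : (∏ p ∈ D, 1 / ((p : ℝ) - 1)) * ((#(fam W (∏ p ∈ D, p)) : ℝ) * Ep) ≤
          (ℓ ^ 2 / ((∏ p ∈ D, p : ℕ) : ℝ)) * ((W * ((∏ p ∈ D, p : ℕ) : ℝ)) * Ep) := by
        apply mul_le_mul (hgl D hD) (mul_le_mul_of_nonneg_right h3 hEp0) (by positivity) (by positivity)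
      have h8 : (ℓ ^ 2 / ((∏ p ∈ D, p : ℕ) : ℝ)) * ((W * ((∏ p ∈ D, p : ℕ) : ℝ)) * Ep) =
          ℓ ^ 2 * W * Ep := by
        have := (hppos D hD).ne'
        field_simp
      have h9 : ℓ ^ 2 * W * Ep ≤ ℓ ^ 2 * Real.exp (κ / 4 * ℓ) * Ep := by
        apply mul_le_mul_of_nonneg_right _ hEp0
        exact mul_le_mul_of_nonneg_left hW' (by positivity)
      rw [mul_add] at h6
      linarith
    refine (Finset.sum_le_sum h1).trans ?_
    rw [Finset.sum_add_distrib, Finset.sum_const, nsmul_eq_mul]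
    have hcard𝒟 : (#(lev P Y) : ℝ) ≤ Y := card_D_le _ hDp Y hYpos.le (fun D hD => (hmem D hD).2)
    have hb2 : (#(lev P Y) : ℝ) * (ℓ ^ 2 * Real.exp (κ / 4 * ℓ) * Ep) ≤
        Real.exp ℓ * (ℓ ^ (-A) / 2) := by
      calc (#(lev P Y) : ℝ) * (ℓ ^ 2 * Real.exp (κ / 4 * ℓ) * Ep) ≤
          Y * (ℓ ^ 2 * Real.exp (κ / 4 * ℓ) * (4 * ℓ * Real.exp (ℓ / 2))) := by
            apply mul_le_mul hcard𝒟 _ (by positivity) hYpos.le
            exact mul_le_mul_of_nonneg_left hEple (by positivity)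
        _ = 4 * ℓ ^ 3 * (Y * Real.exp (κ / 4 * ℓ) * Real.exp (ℓ / 2)) := by ring
        _ = 4 * ℓ ^ 3 * (Real.exp ℓ * Real.exp (-(3 * κ / 4) * ℓ)) := by
            rw [hY, ← Real.exp_add, ← Real.exp_add, ← Real.exp_add]
            congr 2; ring
        _ ≤ 4 * ℓ ^ 3 * (Real.exp ℓ * Real.exp (-(κ / 2 * ℓ))) := by
            apply mul_le_mul_of_nonneg_left _ (by positivity)
            apply mul_le_mul_of_nonneg_left _ (Real.exp_pos _).le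
            apply Real.exp_le_exp.mpr
            nlinarith
        _ = Real.exp ℓ * (ℓ ^ (-A) / 2) * (8 * ℓ ^ (A + 3) * Real.exp (-(κ / 2 * ℓ))) := by
            have e1 : ℓ ^ (A + 3) = ℓ ^ A * ℓ ^ 3 := by
              rw [Real.rpow_add hℓ0]
              congr 1
              norm_cast
            have e2 : ℓ ^ (-A) * ℓ ^ A = 1 := by
              rw [← Real.rpow_add hℓ0]; simp
            rw [e1]
            calc 4 * ℓ ^ 3 * (Real.exp ℓ * Real.exp (-(κ / 2 * ℓ))) =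
                4 * ℓ ^ 3 * (Real.exp ℓ * Real.exp (-(κ / 2 * ℓ))) * 1 := by ring
              _ = 4 * ℓ ^ 3 * (Real.exp ℓ * Real.exp (-(κ / 2 * ℓ))) * (ℓ ^ (-A) * ℓ ^ A) := by
                  rw [e2]
              _ = _ := by ring
        _ ≤ Real.exp ℓ * (ℓ ^ (-A) / 2) * 1 :=
            mul_le_mul_of_nonneg_left cxp0 (by positivity)
        _ = _ := mul_one _
    have hb1 : ∑ D' ∈ lev P Y, (∏ p ∈ D', 1 / ((p : ℝ) - 1)) * S (∏ p ∈ D', p) ≤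
        Real.exp ℓ * (ℓ ^ (-A) / 2) := by
      have hinj := prod_injOn (lev P Y) hDp
      have h2 : ∀ D' ∈ lev P Y, (∏ p ∈ D', 1 / ((p : ℝ) - 1)) * S (∏ p ∈ D', p) =
          (fun d : ℕ => 1 / (d.totient : ℝ) * S d) (∏ p ∈ D', p) := by
        intro D' hD'
        simp only
        rw [totient_prod_primes D' (hDp D' hD'), Finset.prod_div_distrib, Finset.prod_const_one]
      rw [Finset.sum_congr rfl h2, ← Finset.sum_image (f := fun d : ℕ => 1 / (d.totient : ℝ) * S d) hinj]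
      have h3 := hL1 ℓ ((le_max_left _ _).trans hℓ) q₁ (hq.mono (by linarith) (by linarith)) W hW1 hW
        ((lev P Y).image (fun D : Finset ℕ => ∏ p ∈ D, p))
        (fun d => 1 / (d.totient : ℝ)) (by
          intro d hd
          rw [Finset.mem_image] at hd
          obtain ⟨D, hD, rfl⟩ := hd
          obtain ⟨k1, k2⟩ := hmem D hD
          have kp := hDp D hD
          refine ⟨Finset.prod_pos (fun p hp => (kp p hp).pos), k2, ?_, hPq D k1, by positivity, ?_⟩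
          · apply Nat.Coprime.prod_left
            intro p hp
            exact (Nat.Prime.coprime_iff_not_dvd (kp p hp)).mpr (hPW p (k1 hp))
          · have h5 := hgl D hD
            rw [Finset.prod_div_distrib, Finset.prod_const_one, ← totient_prod_primes D kp] at h5
            exact h5)
      have h4 : ∀ d, S d = ∑ ξ ∈ fam W d, ‖∑ n ∈ Finset.Icc 1 ⌊Real.exp ℓ⌋₊,
          (ξ (n : ℕ) * LamC n) * ((tent (Real.exp ℓ / 3) n : ℝ) : ℂ)‖ := by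
        intro d
        rw [hS]
        simp only
        rw [Icc_one_eq_Ioc]
      refine le_trans (le_of_eq ?_) (h3.trans ?_)
      · apply Finset.sum_congr rfl
        intro d _
        rw [h4]
      · apply mul_le_mul_of_nonneg_left _ (Real.exp_pos _).le
        rw [show -(A + 1) = -A - 1 by ring, Real.rpow_sub hℓ0, Real.rpow_one]
        exact div_le_div_of_nonneg_left (by positivity) (by norm_num) hℓ2
    calc _ ≤ Real.exp ℓ * (ℓ ^ (-A) / 2) + Real.exp ℓ * (ℓ ^ (-A) / 2) := add_le_add hb1 hb2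
      _ = _ := by ring
  have hwr : ∀ D ∈ lev P Y, wr (aw ℓ y) (∏ p ∈ D, p) = aw ℓ y := by
    intro D hD
    apply wr_aw
    exact prime_dvd_prod_le D (hDp D hD) y (fun p hp => hPy p ((hmem D hD).1 hp))
  have h := EB2 N (aw ℓ y) (aw_nonneg ℓ y) W A0 b P hP hW1
    (fun n hn => aw_ne_zero_coprime ℓ y n W hWy hn) hPW hA0 hb (lev P Y)
    (Finset.filter_subset _ _) (lev_down P hP Y) (Real.exp ℓ * ℓ ^ (-A)) hH0 (by
      intro R hR
      rw [hwr R hR]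
      exact key)
  refine h.trans (le_of_eq ?_)
  have hz : ∑ D ∈ lev P Y, (∏ p ∈ D, 1 / ((p : ℝ) - 1)) *
        ∑ n ∈ Ioc 0 N, (aw ℓ y n - wr (aw ℓ y) (∏ p ∈ D, p) n) = 0 := by
    apply Finset.sum_eq_zero
    intro D hD
    rw [hwr D hD]
    simp
  rw [hz, mul_zero, add_zero]

end Pool.Agent.H16
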