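import Pool.Agent.H16.CS
import Pool.Agent.H16.EB3

/-!
Consequences of the composite sieve: lower bound, upper bound, upper bound with an extra prime.
-/

set_option autoImplicit false

open Finset Real

namespace Pool.Agent.H16

open Pool.Agent.H90 (LS.lam LS.W)

lemma W_bounds (c : ℕ → ℝ) (h0 : ∀ p, 0 ≤ c p) (h1 : ∀ p, c p ≤ 1) (A : Finset ℕ) (D : ℝ) :
    LS.W false D A c ≤ ∏ p ∈ A, (1 - c p) ∧ ∏ p ∈ A, (1 - c p) ≤ LS.W true D A c :=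
  Pool.Agent.H90.LS.sieve_ineq c h0 h1 A D

/-- the data of the composite sieve -/
structure CSData {ι : Type} (S : Finset ι) (a : ι → ℝ) (c : ι → ℕ → ℝ) (X : ℝ) (z w : ℕ)
    (P1 P2 : Finset ℕ) (g : ℕ → ℝ) : Prop where
  hz : 100 ≤ Real.log z
  hzw : z ≤ w
  hP1 : ∀ p ∈ P1, p.Prime
  hP1z : ∀ p ∈ P1, z < p
  hP1w : ∀ p ∈ P1, p ≤ w
  hP2 : ∀ p ∈ P2, p.Prime
  hP2w : ∀ p ∈ P2, w < p
  hg1 : ∀ p ∈ P1, 0 ≤ g p
  hg2 : ∀ p ∈ P2, 0 ≤ g p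
  hg4 : ∀ p ∈ P1, g p ≤ 4 / p
  ha : ∀ n ∈ S, 0 ≤ a n
  hc0 : ∀ n p, 0 ≤ c n p
  hc1 : ∀ n p, c n p ≤ 1
  hX : 0 ≤ X

/-- The constant `C` of `compSieve`. -/
def IsCS (C : ℝ) : Prop := 0 < C ∧ ∀ k : ℕ, C * (1 / 2) ^ k ≤ 1 → ∀ {ι : Type} (S : Finset ι)
    (a : ι → ℝ) (c : ι → ℕ → ℝ) (X : ℝ) (z w : ℕ) (P1 P2 : Finset ℕ) (g : ℕ → ℝ),
    CSData S a c X z w P1 P2 g → ∀ (b : Bool) (D2 : ℝ), 1 < D2 →
    (b = false → ∀ p ∈ P2, (p : ℝ) ^ 2 ≤ D2) →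
    |(∑ n ∈ S, a n * ((∏ p ∈ P1, (1 - c n p)) * LS.W b D2 P2 (c n))) -
      X * (∏ p ∈ P1, (1 - g p)) * LS.W b D2 P2 g| ≤
      C * (1 / 2) ^ k * (X * (∏ p ∈ P1, (1 - g p)) * ∏ p ∈ P2, (1 + g p)) + 2 * Real.log w *
      ∑ D ∈ lev (P2 ∪ P1) ((w : ℝ) ^ (4 * k + 5) * D2), |RD S a c X g D|

theorem exists_IsCS : ∃ C : ℝ, IsCS C := by
  obtain ⟨C, hC, h⟩ := compSieve
  refine ⟨C, hC, ?_⟩
  intro k hk ι S a c X z w P1 P2 g d b D2 hD2 hb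
  exact h k hk S a c X z w d.hz d.hzw P1 P2 d.hP1 d.hP1z d.hP1w d.hP2 d.hP2w g d.hg1 d.hg2 d.hg4
    d.ha d.hc0 d.hc1 d.hX b D2 hD2 hb

section
variable {ι : Type} {S : Finset ι} {a : ι → ℝ} {c : ι → ℕ → ℝ} {X : ℝ} {z w : ℕ}
  {P1 P2 : Finset ℕ} {g : ℕ → ℝ}

lemma CSData.V1_nonneg (d : CSData S a c X z w P1 P2 g) : 0 ≤ ∏ p ∈ P1, (1 - g p) := by
  apply Finset.prod_nonneg
  intro p hp
  have := gw_small z d.hz P1 d.hP1z g d.hg4 p hp
  linarith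

lemma CSData.logw (d : CSData S a c X z w P1 P2 g) : 0 ≤ Real.log w := by
  have hz0 := zw_pos z d.hz
  have : Real.log z ≤ Real.log w := Real.log_le_log hz0 (by exact_mod_cast d.hzw)
  linarith [d.hz]

lemma comp_lower {C : ℝ} (hC : IsCS C) (k : ℕ) (hk : C * (1 / 2) ^ k ≤ 1)
    (d : CSData S a c X z w P1 P2 g) (D2 : ℝ) (hD2 : 1 < D2) (hb : ∀ p ∈ P2, (p : ℝ) ^ 2 ≤ D2) :
    X * (∏ p ∈ P1, (1 - g p)) * (LS.W false D2 P2 g - C * (1 / 2) ^ k * ∏ p ∈ P2, (1 + g p)) -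
      2 * Real.log w * ∑ D ∈ lev (P2 ∪ P1) ((w : ℝ) ^ (4 * k + 5) * D2), |RD S a c X g D| ≤
    ∑ n ∈ S, a n * ((∏ p ∈ P1, (1 - c n p)) * ∏ p ∈ P2, (1 - c n p)) := by
  have h := (abs_le.mp (hC.2 k hk S a c X z w P1 P2 g d false D2 hD2 (fun _ => hb))).1
  have h2 : ∑ n ∈ S, a n * ((∏ p ∈ P1, (1 - c n p)) * LS.W false D2 P2 (c n)) ≤
      ∑ n ∈ S, a n * ((∏ p ∈ P1, (1 - c n p)) * ∏ p ∈ P2, (1 - c n p)) := by
    apply Finset.sum_le_sum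
    intro n hn
    apply mul_le_mul_of_nonneg_left _ (d.ha n hn)
    apply mul_le_mul_of_nonneg_left _ (Finset.prod_nonneg (fun p _ => by linarith [d.hc1 n p]))
    exact (W_bounds (c n) (d.hc0 n) (d.hc1 n) P2 D2).1
  rw [mul_sub]
  have e : X * (∏ p ∈ P1, (1 - g p)) * (C * (1 / 2) ^ k * ∏ p ∈ P2, (1 + g p)) =
    C * (1 / 2) ^ k * (X * (∏ p ∈ P1, (1 - g p)) * ∏ p ∈ P2, (1 + g p)) := by ring
  rw [e]
  linarith

lemma comp_upper {C : ℝ} (hC : IsCS C) (k : ℕ) (hk : C * (1 / 2) ^ k ≤ 1)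
    (d : CSData S a c X z w P1 P2 g) (D2 : ℝ) (hD2 : 1 < D2) :
    ∑ n ∈ S, a n * ((∏ p ∈ P1, (1 - c n p)) * ∏ p ∈ P2, (1 - c n p)) ≤
    X * (∏ p ∈ P1, (1 - g p)) * (LS.W true D2 P2 g + C * (1 / 2) ^ k * ∏ p ∈ P2, (1 + g p)) +
      2 * Real.log w * ∑ D ∈ lev (P2 ∪ P1) ((w : ℝ) ^ (4 * k + 5) * D2), |RD S a c X g D| := by
  have h := (abs_le.mp (hC.2 k hk S a c X z w P1 P2 g d true D2 hD2 (fun h => by simp at h))).2
  have h2 : ∑ n ∈ S, a n * ((∏ p ∈ P1, (1 - c n p)) * ∏ p ∈ P2, (1 - c n p)) ≤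
      ∑ n ∈ S, a n * ((∏ p ∈ P1, (1 - c n p)) * LS.W true D2 P2 (c n)) := by
    apply Finset.sum_le_sum
    intro n hn
    apply mul_le_mul_of_nonneg_left _ (d.ha n hn)
    apply mul_le_mul_of_nonneg_left _ (Finset.prod_nonneg (fun p _ => by linarith [d.hc1 n p]))
    exact (W_bounds (c n) (d.hc0 n) (d.hc1 n) P2 D2).2
  rw [mul_add]
  have e : X * (∏ p ∈ P1, (1 - g p)) * (C * (1 / 2) ^ k * ∏ p ∈ P2, (1 + g p)) =
    C * (1 / 2) ^ k * (X * (∏ p ∈ P1, (1 - g p)) * ∏ p ∈ P2, (1 + g p)) := by ring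
  rw [e]
  linarith

lemma lev_mono {P P' : Finset ℕ} {Y Y' : ℝ} (h1 : P ⊆ P') (h2 : Y ≤ Y') : lev P Y ⊆ lev P' Y' := by
  intro D hD
  rw [mem_lev] at hD ⊢
  exact ⟨hD.1.trans h1, hD.2.trans h2⟩

lemma RD_insert (q : ℕ) (D : Finset ℕ) (hq : q ∉ D) :
    RD S (fun n => a n * c n q) c (X * g q) g D = RD S a c X g (insert q D) := by
  have h := RD_union S a c X g {q} D (Finset.disjoint_singleton_left.mpr hq)
  simp only [Finset.prod_singleton] at h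
  rw [h]
  rfl

/-- upper bound with an extra prime `q` from a set `Q` of large primes. -/
lemma comp_upper_Q {C : ℝ} (hC : IsCS C) (k : ℕ) (hk : C * (1 / 2) ^ k ≤ 1)
    (d : CSData S a c X z w P1 P2 g) (D2 : ℝ) (Q : Finset ℕ) (hQ : ∀ q ∈ Q, q.Prime)
    (hQ2 : ∀ q ∈ Q, ∀ p ∈ P2, p < q) (hQw : ∀ q ∈ Q, w < q) (hQD : ∀ q ∈ Q, (q : ℝ) < D2)
    (hgQ : ∀ q ∈ Q, 0 ≤ g q) :
    ∑ q ∈ Q, ∑ n ∈ S, (a n * c n q) * ((∏ p ∈ P1, (1 - c n p)) * ∏ p ∈ P2, (1 - c n p)) ≤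
    X * (∏ p ∈ P1, (1 - g p)) * ((∑ q ∈ Q, g q * LS.W true (D2 / q) P2 g) +
      C * (1 / 2) ^ k * (∏ p ∈ P2, (1 + g p)) * ∑ q ∈ Q, g q) +
      2 * Real.log w * ∑ D ∈ lev (Q ∪ P2 ∪ P1) ((w : ℝ) ^ (4 * k + 5) * D2), |RD S a c X g D| := by
  classical
  have h1 : ∀ q ∈ Q, ∑ n ∈ S, (a n * c n q) * ((∏ p ∈ P1, (1 - c n p)) * ∏ p ∈ P2, (1 - c n p)) ≤
      X * (∏ p ∈ P1, (1 - g p)) * (g q * LS.W true (D2 / q) P2 g +
        C * (1 / 2) ^ k * (∏ p ∈ P2, (1 + g p)) * g q) +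
      2 * Real.log w * ∑ D ∈ lev (P2 ∪ P1) ((w : ℝ) ^ (4 * k + 5) * (D2 / q)),
        |RD S a c X g (insert q D)| := by
    intro q hq
    have hq0 : (0 : ℝ) < q := by exact_mod_cast (hQ q hq).pos
    have d' : CSData S (fun n => a n * c n q) c (X * g q) z w P1 P2 g :=
      { hz := d.hz, hzw := d.hzw, hP1 := d.hP1, hP1z := d.hP1z, hP1w := d.hP1w, hP2 := d.hP2,
        hP2w := d.hP2w, hg1 := d.hg1, hg2 := d.hg2, hg4 := d.hg4,
        ha := fun n hn => mul_nonneg (d.ha n hn) (d.hc0 n q), hc0 := d.hc0, hc1 := d.hc1,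
        hX := mul_nonneg d.hX (hgQ q hq) }
    have h2 := comp_upper hC k hk d' (D2 / q) (by rw [lt_div_iff₀ hq0, one_mul]; exact hQD q hq)
    refine h2.trans (le_of_eq ?_)
    congr 1
    · ring
    · congr 1
      apply Finset.sum_congr rfl
      intro D hD
      rw [RD_insert]
      intro hqD
      have h3 := (mem_lev.mp hD).1 hqD
      rw [Finset.mem_union] at h3
      rcases h3 with h3 | h3
      · exact lt_irrefl _ (hQ2 q hq q h3)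
      · have := d.hP1w q h3
        have := hQw q hq
        omega
  refine (Finset.sum_le_sum h1).trans ?_
  rw [Finset.sum_add_distrib, ← Finset.mul_sum, ← Finset.mul_sum, Finset.sum_add_distrib,
    ← Finset.mul_sum]
  apply add_le_add le_rfl
  apply mul_le_mul_of_nonneg_left _ (by linarith [d.logw])
  -- sum over q and D
  rw [Finset.sum_sigma']
  have hnot : ∀ q ∈ Q, ∀ D ⊆ P2 ∪ P1, q ∉ D := by
    intro q hq D hD hqD
    have h3 := hD hqD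
    rw [Finset.mem_union] at h3
    rcases h3 with h3 | h3
    · exact lt_irrefl _ (hQ2 q hq q h3)
    · have := d.hP1w q h3
      have := hQw q hq
      omega
  have hinj : Set.InjOn (fun x : (_ : ℕ) × Finset ℕ => insert x.1 x.2)
      ((Q.sigma (fun q : ℕ => lev (P2 ∪ P1) ((w : ℝ) ^ (4 * k + 5) * (D2 / q))) : Finset _) : Set _) := by
    rintro ⟨q1, D1⟩ h1 ⟨q2, D2'⟩ h2 h12
    simp only [Finset.coe_sigma, Set.mem_sigma_iff, Finset.mem_coe] at h1 h2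
    simp only at h12
    have hq12 : q1 = q2 := by
      have h3 : q1 ∈ insert q2 D2' := by rw [← h12]; exact Finset.mem_insert_self _ _
      rw [Finset.mem_insert] at h3
      rcases h3 with h3 | h3
      · exact h3
      · exact absurd h3 (hnot q1 h1.1 D2' (mem_lev.mp h2.2).1)
    subst hq12
    have : D1 = D2' := by
      rw [← Finset.erase_insert (hnot q1 h1.1 D1 (mem_lev.mp h1.2).1), h12,
        Finset.erase_insert (hnot q1 h1.1 D2' (mem_lev.mp h2.2).1)]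
    rw [this]
  rw [← Finset.sum_image (f := fun D => |RD S a c X g D|) hinj]
  apply Finset.sum_le_sum_of_subset_of_nonneg
  · intro D hD
    obtain ⟨⟨q, D'⟩, hx, rfl⟩ := Finset.mem_image.mp hD
    rw [Finset.mem_sigma] at hx
    simp only at hx
    obtain ⟨hq, hD'⟩ := hx
    rw [mem_lev] at hD' ⊢
    refine ⟨?_, ?_⟩
    · intro p hp
      rw [Finset.mem_insert] at hp
      rcases hp with rfl | hp
      · exact Finset.mem_union_left _ (Finset.mem_union_left _ hq)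
      · have h3 := hD'.1 hp
        rw [Finset.mem_union] at h3
        rcases h3 with h3 | h3
        · exact Finset.mem_union_left _ (Finset.mem_union_right _ h3)
        · exact Finset.mem_union_right _ h3
    · have hq0 : (0 : ℝ) < q := by exact_mod_cast (hQ q hq).pos
      rw [Finset.prod_insert (hnot q hq D' hD'.1), Nat.cast_mul]
      have h3 := mul_le_mul_of_nonneg_left hD'.2 hq0.le
      refine h3.trans (le_of_eq ?_)
      field_simp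
  · intro D _ _; exact abs_nonneg _

end

end Pool.Agent.H16
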