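import Pool.Agent.H16.Cover

set_option autoImplicit false

open Finset Real Filter

namespace Pool.Agent.H16

lemma ev_log_le (c s : ℝ) (hc : 0 < c) (hs : 0 < s) :
    ∀ᶠ z : ℕ in atTop, Real.log z ≤ c * (z : ℝ) ^ s := by
  have h := (isLittleO_log_rpow_atTop hs).bound hc
  have h2 := tendsto_natCast_atTop_atTop (R := ℝ) |>.eventually h
  filter_upwards [h2, eventually_ge_atTop 1] with z hz hz1
  have hz0 : (0 : ℝ) < z := by exact_mod_cast hz1
  have h3 : 0 ≤ Real.log z := Real.log_natCast_nonneg z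
  rw [Real.norm_of_nonneg h3, Real.norm_of_nonneg (by positivity)] at hz
  exact hz

lemma ev_ge (c : ℝ) : ∀ᶠ z : ℕ in atTop, c ≤ (z : ℝ) :=
  (tendsto_natCast_atTop_atTop (R := ℝ)).eventually (eventually_ge_atTop c)

/-- many primes in `(z/4, z]` -/
lemma ev_bigP : ∀ᶠ z : ℕ in atTop, (1 / 4 : ℝ) * (z / Real.log z) ≤ #(bigP z) := by
  filter_upwards [ev_log_le 0.01 (1 / 4) (by norm_num) (by norm_num), ev_ge 1000,
    eventually_ge_atTop 2] with z hlog hz hz2
  have hz0 : (0 : ℝ) < z := by linarith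
  have hlogpos : 0 < Real.log z := Real.log_pos (by linarith)
  have h1 := Chebyshev.theta_ge z
  have h2 := Chebyshev.theta_le_log4_mul_x (x := ((z / 4 : ℕ) : ℝ)) (Nat.cast_nonneg _)
  have h3 : Chebyshev.theta z - Chebyshev.theta ((z / 4 : ℕ) : ℝ) ≤ #(bigP z) * Real.log z := by
    rw [Chebyshev.theta_eq_sum_primesLE_log, Chebyshev.theta_eq_sum_primesLE_log]
    have hsub : Nat.primesLE (z / 4) ⊆ Nat.primesLE z := by
      intro p hp
      rw [Nat.mem_primesLE] at *
      exact ⟨hp.1.trans (Nat.div_le_self z 4), hp.2⟩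
    have h4 : ∑ p ∈ bigP z, Real.log p + ∑ p ∈ Nat.primesLE (z / 4), Real.log p =
        ∑ p ∈ Nat.primesLE z, Real.log p := Finset.sum_sdiff hsub
    have h5 : ∑ p ∈ bigP z, Real.log p ≤ ∑ p ∈ bigP z, Real.log z := by
      apply Finset.sum_le_sum
      intro p hp
      rw [mem_bigP] at hp
      apply Real.log_le_log
      · exact_mod_cast hp.1.pos
      · exact_mod_cast hp.2.1
    rw [Finset.sum_const, nsmul_eq_mul] at h5
    linarith
  have hlog4 : Real.log 4 = 2 * Real.log 2 := by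
    rw [show (4 : ℝ) = 2 ^ 2 by norm_num, Real.log_pow]; norm_num
  have h6 : ((z / 4 : ℕ) : ℝ) ≤ z / 4 := Nat.cast_div_le
  have h7 : Real.log 4 * ((z / 4 : ℕ) : ℝ) ≤ Real.log 4 * (z / 4) := by
    apply mul_le_mul_of_nonneg_left h6
    rw [hlog4]; have := Real.log_two_gt_d9; linarith
  have hl2 := Real.log_two_gt_d9
  have hl2' := Real.log_two_lt_d9
  -- small terms
  have h8 : 2 * √(z : ℝ) * Real.log z ≤ 0.02 * z := by
    rw [Real.sqrt_eq_rpow]
    calc 2 * (z : ℝ) ^ (1 / 2 : ℝ) * Real.log z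
        ≤ 2 * (z : ℝ) ^ (1 / 2 : ℝ) * (0.01 * (z : ℝ) ^ (1 / 4 : ℝ)) := by gcongr
      _ = 0.02 * ((z : ℝ) ^ (1 / 2 : ℝ) * (z : ℝ) ^ (1 / 4 : ℝ)) := by ring
      _ = 0.02 * (z : ℝ) ^ (3 / 4 : ℝ) := by
          rw [← Real.rpow_add hz0]; norm_num
      _ ≤ 0.02 * (z : ℝ) ^ (1 : ℝ) := by
          apply mul_le_mul_of_nonneg_left _ (by norm_num)
          apply Real.rpow_le_rpow_of_exponent_le (by linarith) (by norm_num)
      _ = 0.02 * z := by rw [Real.rpow_one]
  have h9 : Real.log ((z : ℝ) + 1) ≤ 0.02 * z := by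
    calc Real.log ((z : ℝ) + 1) ≤ Real.log (2 * z) := by
          apply Real.log_le_log (by linarith); linarith
      _ = Real.log 2 + Real.log z := by rw [Real.log_mul (by norm_num) hz0.ne']
      _ ≤ 0.7 + 0.01 * (z : ℝ) ^ (1 / 4 : ℝ) := by linarith
      _ ≤ 0.7 + 0.01 * (z : ℝ) ^ (1 : ℝ) := by
          gcongr
          · linarith
          · norm_num
      _ ≤ 0.02 * z := by rw [Real.rpow_one]; linarith
  have h10 : (1 / 4 : ℝ) * z ≤ #(bigP z) * Real.log z := by nlinarith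
  rw [mul_div_assoc', div_le_iff₀ hlogpos]
  exact h10

lemma ev_primesLE (K : ℕ) (hK : 1 ≤ K) : ∀ᶠ z : ℕ in atTop,
    (#(Nat.primesLE (K * z)) : ℝ) ≤ 4 * K * (z / Real.log z) := by
  have hK' : (1 : ℝ) ≤ K := by exact_mod_cast hK
  filter_upwards [ev_log_le 1 (1 / 2) (by norm_num) (by norm_num), ev_ge 1000] with z hlog hz
  have hz0 : (0 : ℝ) < z := by linarith
  have hlogpos : 0 < Real.log z := Real.log_pos (by linarith)
  set x : ℝ := (K : ℝ) * z with hx
  have hxz : (z : ℝ) ≤ x := by rw [hx]; nlinarith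
  have h1 := Chebyshev.pi_le_log4_mul_div (x := x) (by linarith)
  have h2 : ⌊x⌋₊ = K * z := by
    rw [hx]
    have : (K : ℝ) * z = ((K * z : ℕ) : ℝ) := by push_cast; ring
    rw [this, Nat.floor_natCast]
  rw [h2] at h1
  rw [Nat.primesLE_card_eq_primeCounting]
  refine h1.trans ?_
  have hsq : Real.log √x = Real.log x / 2 := by
    rw [Real.sqrt_eq_rpow, Real.log_rpow (by linarith)]; ring
  have hlogx : Real.log z ≤ Real.log x := Real.log_le_log hz0 hxz
  have h3 : Real.log 4 * x / Real.log √x ≤ 2 * Real.log 4 * (x / Real.log z) := by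
    rw [hsq]
    have e : Real.log 4 * x / (Real.log x / 2) = 2 * Real.log 4 * (x / Real.log x) := by
      field_simp
    rw [e]
    have h4 : 0 ≤ 2 * Real.log 4 := by
      have := Real.log_nonneg (show (1 : ℝ) ≤ 4 by norm_num); linarith
    apply mul_le_mul_of_nonneg_left _ h4
    apply div_le_div_of_nonneg_left (by linarith) hlogpos hlogx
  have h5 : √x ≤ x / Real.log z := by
    rw [le_div_iff₀ hlogpos]
    have h6 : Real.log z ≤ √x := by
      calc Real.log z ≤ 1 * (z : ℝ) ^ (1 / 2 : ℝ) := hlog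
        _ = √(z : ℝ) := by rw [one_mul, Real.sqrt_eq_rpow]
        _ ≤ √x := Real.sqrt_le_sqrt hxz
    calc √x * Real.log z ≤ √x * √x := by gcongr
      _ = x := Real.mul_self_sqrt (by linarith)
  have hlog4 : Real.log 4 ≤ 1.4 := by
    have : Real.log 4 = 2 * Real.log 2 := by
      rw [show (4 : ℝ) = 2 ^ 2 by norm_num, Real.log_pow]; norm_num
    have := Real.log_two_lt_d9
    linarith
  have h7 : 0 ≤ x / Real.log z := by
    have : 0 ≤ x := by linarith
    positivity
  calc Real.log 4 * x / Real.log √x + √x ≤ 2 * Real.log 4 * (x / Real.log z) + x / Real.log z := by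
        linarith
    _ ≤ 4 * (x / Real.log z) := by nlinarith
    _ = 4 * K * (z / Real.log z) := by rw [hx]; ring

lemma ev_small (C D s : ℝ) (hs : s < 1) (K : ℕ) :
    ∀ᶠ z : ℕ in atTop, C + D * ((K : ℝ) * z) ^ s ≤ (1 / 20 : ℝ) * (z / Real.log z) := by
  -- log z * (C + D K^s z^s) ≤ z/20
  have hs' : 0 < (1 - s) / 2 := by linarith
  set s' := max s 0 with hs'def
  have hs'1 : s' < 1 := by rw [hs'def]; exact max_lt hs one_pos
  have hs'0 : 0 ≤ s' := le_max_right _ _
  have hδ : 0 < (1 - s') / 2 := by linarith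
  set M : ℝ := |C| + |D| * ((K : ℝ) + 1) ^ s' + 1 with hM
  have hKs : 0 ≤ ((K : ℝ) + 1) ^ s' := by positivity
  have hMpos : 0 < M := by positivity
  filter_upwards [ev_log_le (1 / (20 * M)) ((1 - s')) (by positivity) (by linarith), ev_ge 1000]
    with z hlog hz
  have hz0 : (0 : ℝ) < z := by linarith
  have hlogpos : 0 < Real.log z := Real.log_pos (by linarith)
  rw [mul_div_assoc', le_div_iff₀ hlogpos]
  have h1 : C + D * ((K : ℝ) * z) ^ s ≤ M * (z : ℝ) ^ s' := by
    have hzs : 1 ≤ (z : ℝ) ^ s' := Real.one_le_rpow (by linarith) hs'0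
    have h2 : ((K : ℝ) * z) ^ s ≤ ((K : ℝ) + 1) ^ s' * (z : ℝ) ^ s' := by
      rcases Nat.eq_zero_or_pos K with rfl | hK
      · simp only [Nat.cast_zero, zero_mul, zero_add, Real.one_rpow, one_mul]
        by_cases h0 : s = 0
        · rw [h0, Real.rpow_zero]; exact hzs
        · rw [Real.zero_rpow h0]; linarith
      · have hK1 : (1 : ℝ) ≤ K := by exact_mod_cast hK
        calc ((K : ℝ) * z) ^ s ≤ ((K : ℝ) * z) ^ s' := by
              apply Real.rpow_le_rpow_of_exponent_le _ (le_max_left _ _)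
              nlinarith
          _ ≤ (((K : ℝ) + 1) * z) ^ s' := by
              apply Real.rpow_le_rpow (by positivity) _ hs'0
              nlinarith
          _ = ((K : ℝ) + 1) ^ s' * (z : ℝ) ^ s' := by
              rw [Real.mul_rpow (by positivity) hz0.le]
    have h0 : 0 ≤ ((K : ℝ) * z) ^ s := by positivity
    calc C + D * ((K : ℝ) * z) ^ s ≤ |C| + |D| * ((K : ℝ) * z) ^ s := by
          have := le_abs_self C
          have h3 : D * ((K : ℝ) * z) ^ s ≤ |D| * ((K : ℝ) * z) ^ s :=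
            mul_le_mul_of_nonneg_right (le_abs_self D) h0
          linarith
      _ ≤ |C| * (z : ℝ) ^ s' + |D| * (((K : ℝ) + 1) ^ s' * (z : ℝ) ^ s') := by
          gcongr
          exact le_mul_of_one_le_right (abs_nonneg C) hzs
      _ ≤ M * (z : ℝ) ^ s' := by
          rw [hM]; nlinarith
  calc (C + D * ((K : ℝ) * z) ^ s) * Real.log z ≤ (M * (z : ℝ) ^ s') * Real.log z := by gcongr
    _ ≤ (M * (z : ℝ) ^ s') * (1 / (20 * M) * (z : ℝ) ^ (1 - s')) := by gcongr
    _ = 1 / 20 * ((z : ℝ) ^ s' * (z : ℝ) ^ (1 - s')) := by field_simp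
    _ = 1 / 20 * z := by
        rw [← Real.rpow_add hz0]; norm_num

/-- **Covering lemma.** -/
theorem cover (K : ℕ) (hK : 1 ≤ K) : ∀ᶠ z : ℕ in atTop, ∀ t : ℕ, Even t → 0 < t → t ≤ K * z →
    ∃ a : ℕ → ℕ, (∀ p, p.Prime → p ≤ z → a p % p ≠ 0 ∧ a p % p ≠ t % p) ∧
      ∀ i, 0 < i → i < t → ∃ p, p.Prime ∧ p ≤ z ∧ i % p = a p % p := by
  have hK' : (1 : ℝ) ≤ K := by exact_mod_cast hK
  set ε : ℝ := 1 / (1280 * K ^ 2) with hε
  have hεpos : 0 < ε := by positivity
  -- choose w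
  obtain ⟨w, hw256, hwε⟩ : ∃ w : ℕ, 256 ≤ w ∧
      ∏ p ∈ Nat.primesLE w, (1 - 1 / (p : ℝ)) ≤ ε := by
    have h1 : Tendsto (fun n : ℕ => 1 / Real.log ((n : ℝ) + 1)) atTop (nhds 0) := by
      have h2 : Tendsto (fun n : ℕ => Real.log ((n : ℝ) + 1)) atTop atTop :=
        Real.tendsto_log_atTop.comp (tendsto_atTop_add_const_right _ 1
          (tendsto_natCast_atTop_atTop (R := ℝ)))
      simp_rw [one_div]
      exact h2.inv_tendsto_atTop
    have h3 := (h1.eventually (ge_mem_nhds hεpos)).and (eventually_ge_atTop 256)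
    obtain ⟨w, hw1, hw2⟩ := h3.exists
    exact ⟨w, hw2, (prod_primes_le w (by omega)).trans hw1⟩
  set M0 : ℝ := ((∏ p ∈ Nat.primesLE w, p : ℕ) : ℝ) with hM0
  have hM0pos : 0 < M0 := by
    rw [hM0]
    exact_mod_cast Finset.prod_pos (fun p hp => (Nat.mem_primesLE.mp hp).2.pos)
  set T0 : ℝ := M0 / ε with hT0
  have hT0pos : 0 < T0 := by positivity
  filter_upwards [ev_bigP, ev_primesLE K hK, ev_small (3 + T0) (2 * Cw w) (3 / 4) (by norm_num) K,
    eventually_ge_atTop (16 * K), eventually_ge_atTop (4 * w), ev_ge 1000]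
    with z hbig hpi hsmall hzK hzw hz1000
  intro t ht ht0 htz
  have hz0 : (0 : ℝ) < z := by linarith
  have hlogpos : 0 < Real.log z := Real.log_pos (by linarith)
  have hzl : 0 < z / Real.log z := by positivity
  have ht2 : 2 ≤ t := by
    rcases ht with ⟨k, hk⟩; omega
  apply cover_core K z w t ht htz hzK hzw
  set V : Finset ℕ := {i ∈ range t | ∀ p ∈ Nat.primesLE w, i % p ≠ sdef t p % p} with hV
  obtain ⟨b, hb0, hbt, hb⟩ := exists_center t ht2 V (bigA t z)
  refine ⟨b, hb0, hbt, ?_⟩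
  have hVcard := card_V t w t
  rw [← hV] at hVcard
  have ht2' : (2 : ℝ) ≤ t := by exact_mod_cast ht2
  have hA : (#(bigA t z) : ℝ) ≤ 16 * K ^ 2 * (z / Real.log z) := by
    have h1 : (#(bigA t z) : ℝ) ≤ 4 * K * #(Nat.primesLE (K * z)) := by
      exact_mod_cast card_bigA K t z htz
    calc (#(bigA t z) : ℝ) ≤ 4 * K * #(Nat.primesLE (K * z)) := h1
      _ ≤ 4 * K * (4 * K * (z / Real.log z)) := by gcongr
      _ = _ := by ring
  have hcount : (#{i ∈ V | nd i b ∈ bigA t z} : ℝ) ≤ 1 / 10 * (z / Real.log z) + T0 := by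
    rcases le_or_gt T0 (t : ℝ) with h | h
    · have h1 : (#V : ℝ) ≤ 2 * ε * t := by
        have h2 : M0 ≤ ε * t := by
          rw [hT0, div_le_iff₀ hεpos] at h
          linarith
        have h3 : (t : ℝ) * ∏ p ∈ Nat.primesLE w, (1 - 1 / (p : ℝ)) ≤ t * ε := by gcongr
        linarith
      have h4 : (#{i ∈ V | nd i b ∈ bigA t z} : ℝ) * ((t : ℝ) - 1) ≤
          (8 * ε * #(bigA t z)) * ((t : ℝ) - 1) := by
        calc (#{i ∈ V | nd i b ∈ bigA t z} : ℝ) * ((t : ℝ) - 1) ≤ 2 * #V * #(bigA t z) := hb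
          _ ≤ 2 * (2 * ε * t) * #(bigA t z) := by gcongr
          _ = (4 * ε * #(bigA t z)) * t := by ring
          _ ≤ (4 * ε * #(bigA t z)) * (2 * ((t : ℝ) - 1)) := by
              apply mul_le_mul_of_nonneg_left _ (by positivity)
              linarith
          _ = _ := by ring
      have h5 := le_of_mul_le_mul_right h4 (by linarith)
      calc (#{i ∈ V | nd i b ∈ bigA t z} : ℝ) ≤ 8 * ε * #(bigA t z) := h5
        _ ≤ 8 * ε * (16 * K ^ 2 * (z / Real.log z)) := by gcongr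
        _ = 1 / 10 * (z / Real.log z) := by
            rw [hε]
            have : (K : ℝ) ≠ 0 := by linarith
            field_simp
            norm_num
        _ ≤ _ := by linarith
    · have h1 : #{i ∈ V | nd i b ∈ bigA t z} ≤ t := by
        calc #{i ∈ V | nd i b ∈ bigA t z} ≤ #V := Finset.card_filter_le _ _
          _ ≤ #(range t) := Finset.card_filter_le _ _
          _ = t := Finset.card_range t
      have h2 : (#{i ∈ V | nd i b ∈ bigA t z} : ℝ) ≤ t := by exact_mod_cast h1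
      have h3 : 0 ≤ 1 / 10 * (z / Real.log z) := by positivity
      linarith
  have hVfilter : V.filter (fun i => nd i b ∈ bigA t z) =
      {i ∈ range t | (∀ p ∈ Nat.primesLE w, i % p ≠ sdef t p % p) ∧ nd i b ∈ bigA t z} := by
    rw [hV, Finset.filter_filter]
  rw [hVfilter] at hcount
  have hQ0 : b * (t - b) ≠ 0 := Nat.mul_ne_zero (by omega) (by omega)
  have hQle : b * (t - b) ≤ t ^ 2 := by
    calc b * (t - b) ≤ t * t := Nat.mul_le_mul hbt.le (Nat.sub_le t b)
      _ = t ^ 2 := by ring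
  have hB := card_smB t w (b * (t - b)) hw256 hQ0 hQle ht0
  have hCw : 0 ≤ Cw w := Finset.prod_nonneg
    (fun p hp => (factor_pos p (Nat.mem_primesLE.mp hp).2).le)
  have hB' : (#(smB t w (b * (t - b))) : ℝ) ≤ Cw w * ((K : ℝ) * z) ^ (3 / 4 : ℝ) := by
    refine hB.trans ?_
    apply mul_le_mul_of_nonneg_left _ hCw
    apply Real.rpow_le_rpow (by positivity) _ (by norm_num)
    exact_mod_cast htz
  have hfinal : (1 : ℝ) + #{i ∈ range t | (∀ p ∈ Nat.primesLE w, i % p ≠ sdef t p % p) ∧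
      nd i b ∈ bigA t z} + 2 * #(smB t w (b * (t - b))) + 2 ≤ #(bigP z) := by
    have h20 : (1 / 10 : ℝ) * (z / Real.log z) + (1 / 20 : ℝ) * (z / Real.log z) ≤
        (1 / 4 : ℝ) * (z / Real.log z) := by linarith
    linarith
  exact_mod_cast hfinal

end Pool.Agent.H16
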