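import Pool.Agent.H16.Smooth
import Pool.Agent.H16.CoverMain

/-!
Covering `(0,t)` without `0` and `t`, for all even `t` up to the Erdős-Rankin size.
-/

set_option autoImplicit false

open Finset Real Filter

namespace Pool.Agent.H16

/-- `z log z logloglog z / (loglog z)^2` -/
noncomputable def ER (z : ℝ) : ℝ :=
  z * Real.log z * Real.log (Real.log (Real.log z)) / (Real.log (Real.log z)) ^ 2

lemma cube_div_six_le_exp {x : ℝ} (hx : 0 ≤ x) : x ^ 3 / 6 ≤ Real.exp x := by
  have h := Real.sum_le_exp_of_nonneg hx 4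
  simp only [Finset.sum_range_succ, Finset.sum_range_zero, Nat.factorial] at h
  norm_num at h
  nlinarith [sq_nonneg x]

lemma sq_div_two_le_exp {x : ℝ} (hx : 0 ≤ x) : x ^ 2 / 2 ≤ Real.exp x := by
  have := Real.quadratic_le_exp_of_nonneg hx
  linarith

lemma ev_L1 (c : ℝ) : ∀ᶠ z : ℕ in atTop, c ≤ Real.log (z : ℝ) :=
  (Real.tendsto_log_atTop.comp
    (tendsto_natCast_atTop_atTop (R := ℝ))).eventually (eventually_ge_atTop c)

lemma ev_L2 (c : ℝ) : ∀ᶠ z : ℕ in atTop, c ≤ Real.log (Real.log (z : ℝ)) :=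
  (Real.tendsto_log_atTop.comp (Real.tendsto_log_atTop.comp
    (tendsto_natCast_atTop_atTop (R := ℝ)))).eventually (eventually_ge_atTop c)

lemma ev_L3 (c : ℝ) : ∀ᶠ z : ℕ in atTop, c ≤ Real.log (Real.log (Real.log (z : ℝ))) :=
  (Real.tendsto_log_atTop.comp (Real.tendsto_log_atTop.comp (Real.tendsto_log_atTop.comp
    (tendsto_natCast_atTop_atTop (R := ℝ))))).eventually (eventually_ge_atTop c)

lemma bigA_eq (t z : ℕ) : bigA t z = bigB t (z / 4) := by
  classical
  ext m
  unfold bigA bigB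
  rw [Finset.mem_filter, Finset.mem_filter]
  refine and_congr_right (fun _ => ?_)
  constructor
  · rintro ⟨h0, q, hq, h1, h2⟩
    exact ⟨h0, q, hq, by omega, h2⟩
  · rintro ⟨h0, q, hq, h1, h2⟩
    exact ⟨h0, q, hq, by omega, h2⟩

lemma setV_eq (t w : ℕ) :
    setV t w 0 = {i ∈ range t | ∀ p ∈ Nat.primesLE w, i % p ≠ sdef t p % p} := by
  unfold setV
  apply Finset.filter_congr
  intro i _
  constructor
  · intro h p hp
    exact h p hp (Nat.mem_primesLE.mp hp).2.ne_zero
  · intro h p hp _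
    exact h p hp

/-- **Covering lemma, Erdős-Rankin size.** -/
theorem cover_ER : ∃ c : ℝ, 0 < c ∧ ∀ᶠ z : ℕ in atTop, ∀ t : ℕ, Even t → 0 < t →
    (t : ℝ) ≤ c * ER z →
    ∃ a : ℕ → ℕ, (∀ p, p.Prime → p ≤ z → a p % p ≠ 0 ∧ a p % p ≠ t % p) ∧
      ∀ i, 0 < i → i < t → ∃ p, p.Prime ∧ p ≤ z ∧ i % p = a p % p := by
  classical
  obtain ⟨C1, hC1, hV⟩ := card_setV
  obtain ⟨C2, hC2, hS⟩ := card_smB'
  set c : ℝ := min 1 (1 / (40320 * C1)) with hc
  have hcpos : 0 < c := by rw [hc]; positivity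
  have hc1 : c ≤ 1 := min_le_left _ _
  have hc2 : c * C1 ≤ 1 / 40320 := by
    have : c ≤ 1 / (40320 * C1) := min_le_right _ _
    calc c * C1 ≤ 1 / (40320 * C1) * C1 := by gcongr
      _ = 1 / 40320 := by field_simp
  refine ⟨c, hcpos, ?_⟩
  filter_upwards [cover 1 le_rfl, ev_bigP, ev_L3 1000, ev_L2 1, ev_L1 (160 * C2 + 1000),
    eventually_ge_atTop 2] with z hcov hbig hL3 hL2 hL1C hz2
  intro t ht ht0 htER
  rcases le_or_gt t (1 * z) with hcase | hcase
  · exact hcov t ht ht0 hcase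
  rw [one_mul] at hcase
  -- notation
  set L1 := Real.log (z : ℝ) with hL1def
  set L2 := Real.log L1 with hL2def
  set L3 := Real.log L2 with hL3def
  have hz0 : (0 : ℝ) < z := by exact_mod_cast (by omega : 0 < z)
  have hL1pos : 0 < L1 := by linarith
  have hL2pos : 0 < L2 := by linarith
  have hL3pos : 0 < L3 := by linarith
  have eL2 : Real.exp L3 = L2 := Real.exp_log hL2pos
  have eL1 : Real.exp L2 = L1 := Real.exp_log hL1pos
  have ez : Real.exp L1 = z := Real.exp_log hz0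
  have h23 : L3 ^ 2 / 2 ≤ L2 := by rw [← eL2]; exact sq_div_two_le_exp hL3pos.le
  have h23' : 500 * L3 ≤ L2 := by linarith [mul_le_mul_of_nonneg_right hL3 hL3pos.le]
  have h12 : L2 ^ 3 / 6 ≤ L1 := by rw [← eL1]; exact cube_div_six_le_exp hL2pos.le
  have hL2big : 500000 ≤ L2 := by linarith
  have h12' : 10 ^ 6 * L2 ≤ L1 := by
    have h := mul_le_mul hL2big hL2big (by norm_num) hL2pos.le
    linarith [mul_le_mul_of_nonneg_right h hL2pos.le]
  have h01 : L1 ^ 3 / 6 ≤ z := by rw [← ez]; exact cube_div_six_le_exp hL1pos.le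
  have hL1big : 10 ^ 11 ≤ L1 := by linarith
  have h01' : 10 ^ 6 * L1 ≤ z := by
    have h := mul_le_mul hL1big hL1big (by norm_num) hL1pos.le
    linarith [mul_le_mul_of_nonneg_right h hL1pos.le]
  -- size of t
  have ht0' : (0 : ℝ) < t := by exact_mod_cast ht0
  have htz : (z : ℝ) ≤ t := by exact_mod_cast hcase.le
  have htU : (t : ℝ) ≤ c * (z * L1 * L3 / L2 ^ 2) := htER
  have htzL : (t : ℝ) ≤ z * L1 := by
    have h1 : z * L1 * L3 / L2 ^ 2 ≤ z * L1 := by
      rw [div_le_iff₀ (by positivity)]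
      have h2 : L3 ≤ L2 ^ 2 := by linarith [mul_le_mul_of_nonneg_right hL2big hL2pos.le]
      have h3 : 0 ≤ z * L1 := by positivity
      exact mul_le_mul_of_nonneg_left h2 h3
    have h2 : 0 ≤ z * L1 * L3 / L2 ^ 2 := by positivity
    calc (t : ℝ) ≤ c * (z * L1 * L3 / L2 ^ 2) := htU
      _ ≤ 1 * (z * L1 * L3 / L2 ^ 2) := by gcongr
      _ ≤ _ := by linarith
  have hlogt1 : L1 ≤ Real.log t := Real.log_le_log hz0 htz
  have hlogt2 : Real.log t ≤ 2 * L1 := by
    calc Real.log t ≤ Real.log (z * L1) := Real.log_le_log ht0' htzL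
      _ = L1 + L2 := by rw [Real.log_mul hz0.ne' hL1pos.ne']
      _ ≤ 2 * L1 := by linarith
  -- the parameter w
  set E : ℝ := L1 * L3 / (8 * L2) with hE
  have hE1 : 100 ≤ E := by
    rw [hE, le_div_iff₀ (by positivity)]
    linarith [mul_le_mul_of_nonneg_left hL3 hL1pos.le]
  have hEL1 : 60 * E ≤ L1 / 4 := by
    rw [hE]
    have : L1 * L3 / (8 * L2) ≤ L1 / 4000 := by
      rw [div_le_div_iff₀ (by positivity) (by norm_num)]
      have := mul_le_mul_of_nonneg_left h23' hL1pos.le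
      linarith
    linarith
  set w : ℕ := ⌊Real.exp E⌋₊ with hw
  have hexpE : (1000 : ℝ) ≤ Real.exp E := by
    have := sq_div_two_le_exp (show (0 : ℝ) ≤ E by linarith)
    have h := mul_le_mul hE1 hE1 (by norm_num) (by linarith)
    linarith
  have hwle : (w : ℝ) ≤ Real.exp E := Nat.floor_le (Real.exp_pos _).le
  have hwge : Real.exp E / 2 ≤ w := by
    have := Nat.lt_floor_add_one (Real.exp E)
    rw [← hw] at this
    linarith
  have hw0 : (0 : ℝ) < w := by linarith
  have hw256' : (256 : ℝ) ≤ w := by linarith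
  have hw256 : 256 ≤ w := by exact_mod_cast hw256'
  have hlogw_le : Real.log w ≤ E := by
    rw [Real.log_le_iff_le_exp hw0]; exact hwle
  have hlogw_ge : L1 * L3 / (9 * L2) ≤ Real.log w := by
    have h1 : E - 1 ≤ Real.log w := by
      rw [Real.le_log_iff_exp_le hw0, Real.exp_sub]
      refine le_trans ?_ hwge
      apply div_le_div_of_nonneg_left (Real.exp_pos _).le (by norm_num)
      have := Real.add_one_le_exp (1 : ℝ); linarith
    have h2 : L1 * L3 / (9 * L2) = E * (8 / 9) := by rw [hE]; field_simp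
    rw [h2]; linarith
  have hlogwpos : 0 < Real.log w := Real.log_pos (by linarith)
  have hw60 : w ^ 60 ≤ t := by
    have h1 : ((w : ℝ)) ^ 60 ≤ z := by
      calc ((w : ℝ)) ^ 60 ≤ (Real.exp E) ^ 60 := pow_le_pow_left₀ hw0.le hwle 60
        _ = Real.exp (60 * E) := by rw [← Real.exp_nat_mul]; norm_num
        _ ≤ Real.exp L1 := Real.exp_le_exp.mpr (by linarith)
        _ = z := ez
    have h2 : ((w ^ 60 : ℕ) : ℝ) ≤ t := by push_cast; linarith
    exact_mod_cast h2
  have h4w : 4 * w ≤ z := by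
    have h1 : 4 * (w : ℝ) ≤ z := by
      calc 4 * (w : ℝ) ≤ 4 * Real.exp E := by linarith
        _ ≤ Real.exp 3 * Real.exp E := by
            have := Real.add_one_le_exp (3 : ℝ)
            have := Real.exp_pos E
            apply mul_le_mul_of_nonneg_right _ this.le
            linarith
        _ = Real.exp (3 + E) := by rw [Real.exp_add]
        _ ≤ Real.exp L1 := Real.exp_le_exp.mpr (by linarith)
        _ = z := ez
    exact_mod_cast h1
  -- parameter K
  set K : ℕ := ⌈L1⌉₊ with hK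
  have hKle : (K : ℝ) ≤ 2 * L1 := by
    have := (Nat.ceil_lt_add_one hL1pos.le).le
    rw [← hK] at this; linarith
  have hKge : L1 ≤ K := Nat.le_ceil _
  have htK : t ≤ K * z := by
    have : (t : ℝ) ≤ ((K * z : ℕ) : ℝ) := by
      push_cast
      calc (t : ℝ) ≤ z * L1 := htzL
        _ ≤ z * K := by gcongr
        _ = K * z := by ring
    exact_mod_cast this
  have h16K : 16 * K ≤ z := by
    have : ((16 * K : ℕ) : ℝ) ≤ z := by push_cast; linarith
    exact_mod_cast this
  have ht2 : 2 ≤ t := by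
    rcases ht with ⟨k, hk⟩; omega
  have ht2' : (2 : ℝ) ≤ t := by exact_mod_cast ht2
  apply cover_core K z w t ht htK h16K h4w
  obtain ⟨b, hb0, hbt, hb⟩ := exists_center t ht2 (setV t w 0) (bigA t z)
  refine ⟨b, hb0, hbt, ?_⟩
  -- V
  have hVc := hV w t 0 (by omega) hw60
  have hVc' : (#(setV t w 0) : ℝ) ≤ 9 * C1 * (t * L2 / (L1 * L3)) := by
    refine hVc.trans ?_
    have h1 : (t : ℝ) / Real.log w ≤ t / (L1 * L3 / (9 * L2)) := by
      apply div_le_div_of_nonneg_left ht0'.le (by positivity) hlogw_ge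
    calc C1 * ((t : ℝ) / Real.log w) ≤ C1 * (t / (L1 * L3 / (9 * L2))) := by gcongr
      _ = _ := by field_simp
  -- A
  have hz4 : 2 ≤ z / 4 := by
    have : (8 : ℝ) ≤ z := by linarith
    have : 8 ≤ z := by exact_mod_cast this
    omega
  have hz4' : (z : ℝ) / 8 ≤ ((z / 4 : ℕ) : ℝ) := by
    have h1 : z ≤ 8 * (z / 4) := by omega
    have h2 : (z : ℝ) ≤ 8 * ((z / 4 : ℕ) : ℝ) := by exact_mod_cast h1
    linarith
  have hz4t : z / 4 ≤ t := (Nat.div_le_self z 4).trans hcase.le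
  have hAc := card_bigB t (z / 4) hz4 hz4t
  rw [← bigA_eq] at hAc
  have hz4pos : (0 : ℝ) < ((z / 4 : ℕ) : ℝ) := by linarith
  have hAc' : (#(bigA t z) : ℝ) ≤ 28 * (t * L2 / L1) := by
    refine hAc.trans ?_
    have h1 : 1 + Real.log ((t : ℝ) / ((z / 4 : ℕ) : ℝ)) ≤ 2 * L2 := by
      have h2 : (t : ℝ) / ((z / 4 : ℕ) : ℝ) ≤ 8 * L1 := by
        rw [div_le_iff₀ hz4pos]
        linarith [mul_le_mul_of_nonneg_right hz4' hL1pos.le]
      have h3 : Real.log ((t : ℝ) / ((z / 4 : ℕ) : ℝ)) ≤ Real.log (8 * L1) :=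
        Real.log_le_log (by positivity) h2
      rw [Real.log_mul (by norm_num) hL1pos.ne'] at h3
      have h4 : Real.log 8 ≤ 7 := (Real.log_le_sub_one_of_pos (by norm_num)).trans (by norm_num)
      linarith
    have h2 : L1 / 2 ≤ Real.log ((z / 4 : ℕ) : ℝ) := by
      have h3 : Real.log ((z : ℝ) / 8) ≤ Real.log ((z / 4 : ℕ) : ℝ) :=
        Real.log_le_log (by positivity) hz4'
      rw [Real.log_div hz0.ne' (by norm_num)] at h3
      have h4 : Real.log 8 ≤ 7 := (Real.log_le_sub_one_of_pos (by norm_num)).trans (by norm_num)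
      linarith
    calc 7 * ((t : ℝ) * (1 + Real.log ((t : ℝ) / ((z / 4 : ℕ) : ℝ))) /
          Real.log ((z / 4 : ℕ) : ℝ)) ≤ 7 * ((t : ℝ) * (2 * L2) / (L1 / 2)) := by gcongr
      _ = _ := by field_simp; ring
  -- the set V ∩ A
  have hcount : (#{i ∈ setV t w 0 | nd i b ∈ bigA t z} : ℝ) ≤ 1 / 10 * (z / L1) := by
    have ht1 : (0 : ℝ) < (t : ℝ) - 1 := by linarith
    have h4 : (#{i ∈ setV t w 0 | nd i b ∈ bigA t z} : ℝ) * ((t : ℝ) - 1) ≤
        (1008 * C1 * (t * L2 ^ 2 / (L1 ^ 2 * L3))) * ((t : ℝ) - 1) := by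
      calc (#{i ∈ setV t w 0 | nd i b ∈ bigA t z} : ℝ) * ((t : ℝ) - 1)
          ≤ 2 * #(setV t w 0) * #(bigA t z) := hb
        _ ≤ 2 * (9 * C1 * (t * L2 / (L1 * L3))) * (28 * (t * L2 / L1)) := by gcongr
        _ = (504 * C1 * (t * L2 ^ 2 / (L1 ^ 2 * L3))) * t := by field_simp; ring
        _ ≤ (504 * C1 * (t * L2 ^ 2 / (L1 ^ 2 * L3))) * (2 * ((t : ℝ) - 1)) := by
            apply mul_le_mul_of_nonneg_left _ (by positivity)
            linarith
        _ = _ := by ring
    have h5 := le_of_mul_le_mul_right h4 ht1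
    refine h5.trans ?_
    have h6 : (t : ℝ) * L2 ^ 2 / (L1 ^ 2 * L3) ≤ c * (z / L1) := by
      calc (t : ℝ) * L2 ^ 2 / (L1 ^ 2 * L3) ≤
          (c * (z * L1 * L3 / L2 ^ 2)) * L2 ^ 2 / (L1 ^ 2 * L3) := by gcongr
        _ = c * (z / L1) := by field_simp
    calc 1008 * C1 * ((t : ℝ) * L2 ^ 2 / (L1 ^ 2 * L3)) ≤ 1008 * C1 * (c * (z / L1)) := by gcongr
      _ = 1008 * (c * C1) * (z / L1) := by ring
      _ ≤ 1008 * (1 / 40320) * (z / L1) := by gcongr
      _ ≤ 1 / 10 * (z / L1) := by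
          have : 0 ≤ (z : ℝ) / L1 := by positivity
          linarith
  rw [setV_eq, Finset.filter_filter] at hcount
  -- smooth part
  have hQ0 : b * (t - b) ≠ 0 := Nat.mul_ne_zero (by omega) (by omega)
  have hQle : b * (t - b) ≤ t ^ 3 := by
    calc b * (t - b) ≤ t * t := Nat.mul_le_mul hbt.le (Nat.sub_le t b)
      _ = t ^ 2 := by ring
      _ ≤ t ^ 3 := Nat.pow_le_pow_right ht0 (by norm_num)
  set η : ℝ := 6 * L2 / L1 with hη
  have hη0 : 0 < η := by positivity
  have hη1 : η ≤ 1 / 4 := by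
    rw [hη, div_le_iff₀ hL1pos]; linarith
  have hB := hS t w (b * (t - b)) η hw256 hη0 hη1 hQ0 hQle ht0
  have hB' : (#(smB t w (b * (t - b))) : ℝ) ≤ 1 / 40 * (z / L1) := by
    refine hB.trans ?_
    -- t^(1-η) ≤ z L1 * L1^(-6)
    have h1 : (t : ℝ) ^ (1 - η) ≤ z * L1 * Real.exp (-(6 * L2)) := by
      rw [sub_eq_add_neg, Real.rpow_add ht0', Real.rpow_one]
      apply mul_le_mul htzL _ (by positivity) (by positivity)
      rw [Real.rpow_def_of_pos ht0']
      apply Real.exp_le_exp.mpr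
      have h2 : L1 * η ≤ Real.log t * η := by gcongr
      have h3 : L1 * η = 6 * L2 := by rw [hη]; field_simp
      linarith
    have h2 : 2 * (w : ℝ) ^ η + 3 * (Real.log t / Real.log w) ≤ L2 := by
      have h3 : (w : ℝ) ^ η ≤ L2 / 8 := by
        have h4 : (w : ℝ) ^ η ≤ Real.exp (3 * L3 / 4) := by
          rw [Real.rpow_def_of_pos hw0]
          apply Real.exp_le_exp.mpr
          calc Real.log w * η ≤ E * η := by gcongr
            _ = 3 * L3 / 4 := by rw [hE, hη]; field_simp; ring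
        refine h4.trans ?_
        have h5 : Real.exp (3 * L3 / 4) = L2 * Real.exp (-(L3 / 4)) := by
          rw [← eL2, ← Real.exp_add]; congr 1; ring
        rw [h5]
        have h6 : Real.exp (-(L3 / 4)) ≤ 1 / 8 := by
          rw [Real.exp_neg, one_div]
          apply inv_anti₀ (by norm_num)
          have := Real.add_one_le_exp (L3 / 4)
          linarith
        linarith [mul_le_mul_of_nonneg_left h6 hL2pos.le]
      have h4 : Real.log t / Real.log w ≤ 18 * L2 / L3 := by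
        rw [div_le_div_iff₀ hlogwpos hL3pos]
        have h5 : L1 * L3 ≤ 9 * L2 * Real.log w := by
          rw [div_le_iff₀ (by positivity)] at hlogw_ge
          linarith
        calc Real.log t * L3 ≤ 2 * L1 * L3 := by gcongr
          _ = 2 * (L1 * L3) := by ring
          _ ≤ 2 * (9 * L2 * Real.log w) := by linarith
          _ = _ := by ring
      have h5 : 18 * L2 / L3 ≤ L2 / 50 := by
        rw [div_le_div_iff₀ hL3pos (by norm_num)]
        linarith [mul_le_mul_of_nonneg_left hL3 hL2pos.le]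
      linarith
    have h3 : Real.exp (2 * (w : ℝ) ^ η + 3 * (Real.log t / Real.log w)) ≤ L1 := by
      rw [← eL1]; exact Real.exp_le_exp.mpr h2
    have h4 : Real.exp (-(6 * L2)) = 1 / L1 ^ 6 := by
      rw [Real.exp_neg, one_div, ← eL1, ← Real.exp_nat_mul]; norm_num
    have hwL1 : Real.log w ≤ L1 := by linarith
    rw [h4] at h1
    calc C2 * Real.log w * (t : ℝ) ^ (1 - η) *
          Real.exp (2 * (w : ℝ) ^ η + 3 * (Real.log t / Real.log w))
        ≤ C2 * L1 * (z * L1 * (1 / L1 ^ 6)) * L1 := by gcongr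
      _ = C2 / L1 ^ 2 * (z / L1) := by field_simp
      _ ≤ 1 / 40 * (z / L1) := by
          apply mul_le_mul_of_nonneg_right _ (by positivity)
          rw [div_le_iff₀ (by positivity)]
          linarith [mul_le_mul_of_nonneg_right (show (1 : ℝ) ≤ L1 by linarith) hL1pos.le]
  have hzl : (1000 : ℝ) ≤ z / L1 := by
    rw [le_div_iff₀ hL1pos]; linarith
  have hfinal : (1 : ℝ) + #{i ∈ range t | (∀ p ∈ Nat.primesLE w, i % p ≠ sdef t p % p) ∧
      nd i b ∈ bigA t z} + 2 * #(smB t w (b * (t - b))) + 2 ≤ #(bigP z) := by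
    linarith
  exact_mod_cast hfinal

end Pool.Agent.H16
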