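import Pool.Agent.H16.CoverER

/-!
Partial covering: for even `t ≤ C z (log z)^B` all but `ε z (log z)^(B-1)` of the integers in
`(0,t)` lie in the chosen residue classes modulo the primes `≤ z` (one of which may be excluded),
while `0` and `t` lie in none of the classes.
-/

set_option autoImplicit false

open Finset Real Filter

namespace Pool.Agent.H16

open Classical in
/-- positions not covered by the classes `a p` with `p ≤ z`, `p ≠ p0` -/
noncomputable def uncov (z p0 t : ℕ) (a : ℕ → ℕ) : Finset ℕ :=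
  {i ∈ range t | 0 < i ∧ ∀ p, p.Prime → p ≤ z → p ≠ p0 → i % p ≠ a p % p}

lemma uncov_card_le (z p0 t : ℕ) (a : ℕ → ℕ) : (#(uncov z p0 t a) : ℝ) ≤ t := by
  classical
  have : #(uncov z p0 t a) ≤ #(range t) := Finset.card_filter_le _ _
  rw [Finset.card_range] at this
  exact_mod_cast this

/-- combinatorial core -/
lemma lite_core (z w t b p0 : ℕ) (hwz : w ≤ z) (ht : Even t) (hb0 : 0 < b) (hbt : b < t)
    (hp0 : 1 ≤ p0) :
    ∃ a : ℕ → ℕ, (∀ p, p.Prime → p ≤ z → a p % p ≠ 0 ∧ a p % p ≠ t % p) ∧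
      #(uncov z p0 t a) ≤ 1 + #{i ∈ setV t w p0 | nd i b ∈ bigB t z}
        + 2 * #(smB t w (b * (t - b) * p0)) := by
  classical
  let a : ℕ → ℕ := fun p => if w < p ∧ ¬ p ∣ b ∧ ¬ p ∣ (t - b) then b else sdef t p
  refine ⟨a, ?_, ?_⟩
  · intro p hp hpz
    have hdef := sdef_spec t p ht hp
    simp only [a]
    split_ifs with h2
    · constructor
      · intro h; exact h2.2.1 (Nat.dvd_of_mod_eq_zero h)
      · intro h
        exact h2.2.2 ((Nat.modEq_iff_dvd' hbt.le).mp h)
    · exact hdef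
  · have hsub : uncov z p0 t a ⊆ insert b ({i ∈ setV t w p0 | nd i b ∈ bigB t z} ∪
        {i ∈ range t | nd b i ∈ smB t w (b * (t - b) * p0)}) := by
      intro i hi
      unfold uncov at hi
      rw [Finset.mem_filter, Finset.mem_range] at hi
      obtain ⟨hit, hi0, hun⟩ := hi
      rw [Finset.mem_insert, Finset.mem_union, Finset.mem_filter, Finset.mem_filter,
        Finset.mem_range]
      by_cases hib : i = b
      · left; exact hib
      right
      by_cases hA : nd i b ∈ bigB t z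
      · left
        refine ⟨?_, hA⟩
        unfold setV
        rw [Finset.mem_filter, Finset.mem_range]
        refine ⟨hit, fun p hp hpp0 => ?_⟩
        obtain ⟨hpw, hpp⟩ := Nat.mem_primesLE.mp hp
        have := hun p hpp (hpw.trans hwz) hpp0
        simp only [a] at this
        rwa [if_neg (by omega)] at this
      · right
        refine ⟨hit, ?_⟩
        unfold smB
        rw [Finset.mem_filter, Finset.mem_range]
        refine ⟨by unfold nd; omega, by unfold nd; omega, ?_⟩
        intro q hq hqm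
        by_contra hcon
        push Not at hcon
        obtain ⟨hqw, hqQ⟩ := hcon
        have hqb : ¬ q ∣ b := fun h => hqQ (Dvd.dvd.mul_right (Dvd.dvd.mul_right h _) _)
        have hqtb : ¬ q ∣ (t - b) := fun h => hqQ (Dvd.dvd.mul_right (Dvd.dvd.mul_left h _) _)
        have hqp0 : q ≠ p0 := by
          rintro rfl
          exact hqQ (Dvd.intro_left _ rfl)
        have hqz : q ≤ z := by
          by_contra h
          apply hA
          unfold bigB
          rw [Finset.mem_filter, Finset.mem_range]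
          refine ⟨by unfold nd; omega, by unfold nd; omega, q, hq, by omega, ?_⟩
          have : nd i b = nd b i := by unfold nd; omega
          rw [this]; exact hqm
        have hne := hun q hq hqz hqp0
        simp only [a] at hne
        rw [if_pos ⟨hqw, hqb, hqtb⟩] at hne
        apply hne
        unfold nd at hqm
        rcases Nat.le_total i b with h | h
        · have e : (b - i) + (i - b) = b - i := by omega
          rw [e] at hqm
          exact (Nat.modEq_iff_dvd' h).mpr hqm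
        · have e : (b - i) + (i - b) = i - b := by omega
          rw [e] at hqm
          exact ((Nat.modEq_iff_dvd' h).mpr hqm).symm
    have h1 := Finset.card_le_card hsub
    have h2 := card_dist b t (smB t w (b * (t - b) * p0))
    have h3 := Finset.card_insert_le b ({i ∈ setV t w p0 | nd i b ∈ bigB t z} ∪
        {i ∈ range t | nd b i ∈ smB t w (b * (t - b) * p0)})
    have h4 := Finset.card_union_le {i ∈ setV t w p0 | nd i b ∈ bigB t z}
      {i ∈ range t | nd b i ∈ smB t w (b * (t - b) * p0)}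
    omega

/-- **Partial covering.** -/
theorem cover_lite (C ε : ℝ) (hC : 1 ≤ C) (hε : 0 < ε) (B : ℕ) (hB : 2 ≤ B) :
    ∀ᶠ z : ℕ in atTop, ∀ p0 t : ℕ, 1 ≤ p0 → p0 ≤ z → Even t → 0 < t →
    (t : ℝ) ≤ C * (z * (Real.log z) ^ B) →
    ∃ a : ℕ → ℕ, (∀ p, p.Prime → p ≤ z → a p % p ≠ 0 ∧ a p % p ≠ t % p) ∧
      (#(uncov z p0 t a) : ℝ) ≤ ε * (z * (Real.log z) ^ (B - 1)) := by
  classical
  obtain ⟨C1, hC1, hV⟩ := card_setV
  obtain ⟨C2, hC2, hS⟩ := card_smB'
  have hB' : (2 : ℝ) ≤ B := by exact_mod_cast hB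
  obtain ⟨κ, hκ⟩ := exists_nat_ge (max 1 (448 * C * C1 * (B + C) / ε))
  have hκ1 : (1 : ℝ) ≤ κ := (le_max_left _ _).trans hκ
  have hκ2 : 448 * C * C1 * (B + C) ≤ ε * κ := by
    have := (le_max_right _ _).trans hκ
    rw [div_le_iff₀ hε] at this
    linarith
  have hκ0 : (0 : ℝ) < κ := by linarith
  set η : ℝ := 1 / (4 * κ) with hη
  have hη0 : 0 < η := by positivity
  have hη1 : η ≤ 1 / 4 := by
    rw [hη, div_le_div_iff₀ (by positivity) (by norm_num)]; linarith
  filter_upwards [ev_L2 (120 * κ + 8 * B + 200),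
    ev_L1 (9 / ε + 4 * C + 1000 + 384 * C2 * κ * C / (ε * η ^ 3)), eventually_ge_atTop 2]
    with z hL2 hL1 hz2
  intro p0 t hp01 hp0z ht ht0 htC
  set L1 := Real.log (z : ℝ) with hL1def
  set L2 := Real.log L1 with hL2def
  have hz0 : (0 : ℝ) < z := by exact_mod_cast (by omega : 0 < z)
  have hε9 : 0 < 9 / ε := by positivity
  have hbigpos : 0 < 384 * C2 * κ * C / (ε * η ^ 3) := by positivity
  have hL1big : 1000 ≤ L1 := by linarith
  have hL1pos : 0 < L1 := by linarith
  have hL2big : 200 ≤ L2 := by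
    have : 0 ≤ 120 * (κ : ℝ) + 8 * B := by positivity
    linarith
  have hL2pos : 0 < L2 := by linarith
  have eL1 : Real.exp L2 = L1 := Real.exp_log hL1pos
  have ez : Real.exp L1 = z := Real.exp_log hz0
  have h12 : L2 ^ 2 / 2 ≤ L1 := by rw [← eL1]; exact sq_div_two_le_exp hL2pos.le
  have h01 : L1 ^ 2 / 2 ≤ z := by rw [← ez]; exact sq_div_two_le_exp hL1pos.le
  have h12' : L2 ≤ L1 := by
    have h1 := mul_le_mul_of_nonneg_right hL2big hL2pos.le
    have h2 : L2 ^ 2 = L2 * L2 := sq L2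
    linarith
  have h01' : L1 ≤ z := by
    have h1 := mul_le_mul_of_nonneg_right hL1big hL1pos.le
    have h2 : L1 ^ 2 = L1 * L1 := sq L1
    linarith
  have hLε : 9 ≤ ε * L1 := by
    have h1 : 9 / ε ≤ L1 := by linarith
    rw [div_le_iff₀ hε] at h1
    linarith
  have hB1 : L1 ≤ L1 ^ (B - 1) := by
    calc L1 = L1 ^ 1 := (pow_one _).symm
      _ ≤ L1 ^ (B - 1) := pow_le_pow_right₀ (by linarith) (by omega)
  have hBs : L1 ^ B = L1 ^ (B - 1) * L1 := by
    rw [← pow_succ]; congr 1; omega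
  have hPB : 0 < L1 ^ (B - 1) := by positivity
  rcases Nat.lt_or_ge t z with hcase | hcase
  · refine ⟨sdef t, fun p hp _ => sdef_spec t p ht hp, ?_⟩
    refine (uncov_card_le z p0 t _).trans ?_
    have h1 : (t : ℝ) ≤ z := by exact_mod_cast hcase.le
    have h2 : (1 : ℝ) ≤ ε * L1 ^ (B - 1) := by
      have : ε * L1 ≤ ε * L1 ^ (B - 1) := by gcongr
      linarith
    calc (t : ℝ) ≤ z * 1 := by linarith
      _ ≤ z * (ε * L1 ^ (B - 1)) := by gcongr
      _ = _ := by ring
  -- main case
  have ht0' : (0 : ℝ) < t := by exact_mod_cast ht0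
  have htz : (z : ℝ) ≤ t := by exact_mod_cast hcase
  have hC0 : 0 < C := by linarith
  have hlogC : Real.log C ≤ C := (Real.log_le_sub_one_of_pos hC0).trans (by linarith)
  have hlogC0 : 0 ≤ Real.log C := Real.log_nonneg hC
  have hlogtz : Real.log ((t : ℝ) / z) ≤ C + B * L2 := by
    have h1 : (t : ℝ) / z ≤ C * L1 ^ B := by
      rw [div_le_iff₀ hz0]; linarith
    calc Real.log ((t : ℝ) / z) ≤ Real.log (C * L1 ^ B) := Real.log_le_log (by positivity) h1
      _ = Real.log C + B * L2 := by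
          rw [Real.log_mul hC0.ne' (by positivity), Real.log_pow]
      _ ≤ _ := by linarith
  have hBL2 : (B : ℝ) * L2 ≤ L1 / 4 := by
    have h1 : 8 * (B : ℝ) ≤ L2 := by
      have : (0 : ℝ) ≤ κ := by positivity
      linarith
    have h2 := mul_le_mul_of_nonneg_right h1 hL2pos.le
    have h3 : L2 ^ 2 = L2 * L2 := sq L2
    linarith
  have hlogt2 : Real.log t ≤ 2 * L1 := by
    have h1 : Real.log t = Real.log ((t : ℝ) / z) + L1 := by
      rw [Real.log_div ht0'.ne' hz0.ne']; ring
    have h2 : C ≤ L1 / 4 := by linarith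
    linarith
  have hlogt1 : L1 ≤ Real.log t := Real.log_le_log hz0 htz
  -- w
  set w : ℕ := ⌊Real.exp (κ * L2)⌋₊ with hw
  have hκL2 : L2 ≤ κ * L2 := le_mul_of_one_le_left hL2pos.le hκ1
  have hexpE : L1 ≤ Real.exp (κ * L2) := by
    rw [← eL1]; exact Real.exp_le_exp.mpr hκL2
  have hwle : (w : ℝ) ≤ Real.exp (κ * L2) := Nat.floor_le (Real.exp_pos _).le
  have hwge : Real.exp (κ * L2) / 2 ≤ w := by
    have := Nat.lt_floor_add_one (Real.exp (κ * L2))
    rw [← hw] at this
    linarith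
  have hw0 : (0 : ℝ) < w := by linarith
  have hw256' : (256 : ℝ) ≤ w := by linarith
  have hw256 : 256 ≤ w := by exact_mod_cast hw256'
  have hlogw_le : Real.log w ≤ κ * L2 := by
    rw [Real.log_le_iff_le_exp hw0]; exact hwle
  have hlogw_ge : κ * L2 / 2 ≤ Real.log w := by
    have h1 : κ * L2 - 1 ≤ Real.log w := by
      rw [Real.le_log_iff_exp_le hw0, Real.exp_sub]
      refine le_trans ?_ hwge
      apply div_le_div_of_nonneg_left (Real.exp_pos _).le (by norm_num)
      have := Real.add_one_le_exp (1 : ℝ); linarith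
    linarith
  have hlogwpos : 0 < Real.log w := Real.log_pos (by linarith)
  have h60 : 60 * (κ * L2) ≤ L1 := by
    have h1 : 120 * (κ : ℝ) ≤ L2 := by
      have : (0 : ℝ) ≤ B := by positivity
      linarith
    have h2 := mul_le_mul_of_nonneg_right h1 hL2pos.le
    have h3 : L2 ^ 2 = L2 * L2 := sq L2
    linarith
  have hw60z : ((w : ℝ)) ^ 60 ≤ z := by
    calc ((w : ℝ)) ^ 60 ≤ (Real.exp (κ * L2)) ^ 60 := pow_le_pow_left₀ hw0.le hwle 60
      _ = Real.exp (60 * (κ * L2)) := by rw [← Real.exp_nat_mul]; norm_num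
      _ ≤ Real.exp L1 := Real.exp_le_exp.mpr (by linarith)
      _ = z := ez
  have hw60 : w ^ 60 ≤ t := by
    have h2 : ((w ^ 60 : ℕ) : ℝ) ≤ t := by push_cast; linarith
    exact_mod_cast h2
  have hwz : w ≤ z := by
    have h1 : (w : ℝ) ≤ (w : ℝ) ^ 60 := le_self_pow₀ (by linarith) (by norm_num)
    have : (w : ℝ) ≤ z := by linarith
    exact_mod_cast this
  have ht2 : 2 ≤ t := by
    rcases ht with ⟨k, hk⟩; omega
  have ht2' : (2 : ℝ) ≤ t := by exact_mod_cast ht2
  obtain ⟨b, hb0, hbt, hb⟩ := exists_center t ht2 (setV t w p0) (bigB t z)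
  obtain ⟨a, ha, hcount⟩ := lite_core z w t b p0 hwz ht hb0 hbt hp01
  refine ⟨a, ha, ?_⟩
  have hcount' : (#(uncov z p0 t a) : ℝ) ≤ 1 + #{i ∈ setV t w p0 | nd i b ∈ bigB t z}
        + 2 * #(smB t w (b * (t - b) * p0)) := by exact_mod_cast hcount
  refine hcount'.trans ?_
  -- V
  have hVc := hV w t p0 (by omega) hw60
  have hVc' : (#(setV t w p0) : ℝ) ≤ 2 * C1 * (t / (κ * L2)) := by
    refine hVc.trans ?_
    have h1 : (t : ℝ) / Real.log w ≤ t / (κ * L2 / 2) := by
      apply div_le_div_of_nonneg_left ht0'.le (by positivity) hlogw_ge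
    calc C1 * ((t : ℝ) / Real.log w) ≤ C1 * (t / (κ * L2 / 2)) := by gcongr
      _ = _ := by field_simp
  -- A
  have hAc := card_bigB t z hz2 hcase
  have hAc' : (#(bigB t z) : ℝ) ≤ 14 * (B + C) * (t * L2 / L1) := by
    refine hAc.trans ?_
    have h1 : 1 + Real.log ((t : ℝ) / z) ≤ 2 * (B + C) * L2 := by
      have h2 : 1 + C ≤ 2 * C * L2 := by
        have h4 : C * 1 ≤ C * L2 := by
          apply mul_le_mul_of_nonneg_left _ hC0.le
          linarith
        linarith
      have h3 : (B : ℝ) * L2 ≤ 2 * B * L2 := by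
        have : (0 : ℝ) ≤ B * L2 := by positivity
        linarith
      have h4 : 2 * ((B : ℝ) + C) * L2 = 2 * C * L2 + 2 * B * L2 := by ring
      linarith
    calc 7 * ((t : ℝ) * (1 + Real.log ((t : ℝ) / z)) / Real.log z)
        ≤ 7 * ((t : ℝ) * (2 * (B + C) * L2) / L1) := by gcongr
      _ = _ := by ring
  have hVA : (#{i ∈ setV t w p0 | nd i b ∈ bigB t z} : ℝ) ≤ ε / 4 * (z * L1 ^ (B - 1)) := by
    have ht1 : (0 : ℝ) < (t : ℝ) - 1 := by linarith
    have h4 : (#{i ∈ setV t w p0 | nd i b ∈ bigB t z} : ℝ) * ((t : ℝ) - 1) ≤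
        (112 * C1 * (B + C) * (t / (κ * L1))) * ((t : ℝ) - 1) := by
      calc (#{i ∈ setV t w p0 | nd i b ∈ bigB t z} : ℝ) * ((t : ℝ) - 1)
          ≤ 2 * #(setV t w p0) * #(bigB t z) := hb
        _ ≤ 2 * (2 * C1 * (t / (κ * L2))) * (14 * (B + C) * (t * L2 / L1)) := by gcongr
        _ = (56 * C1 * (B + C) * (t / (κ * L1))) * t := by field_simp; ring
        _ ≤ (56 * C1 * (B + C) * (t / (κ * L1))) * (2 * ((t : ℝ) - 1)) := by
            apply mul_le_mul_of_nonneg_left _ (by positivity)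
            linarith
        _ = _ := by ring
    have h5 := le_of_mul_le_mul_right h4 ht1
    refine h5.trans ?_
    have h6 : (t : ℝ) / (κ * L1) ≤ C * (z * L1 ^ (B - 1)) / κ := by
      rw [div_le_div_iff₀ (by positivity) hκ0]
      calc (t : ℝ) * κ ≤ C * (z * L1 ^ B) * κ := by gcongr
        _ = C * (z * L1 ^ (B - 1)) * (κ * L1) := by rw [hBs]; ring
    calc 112 * C1 * (B + C) * ((t : ℝ) / (κ * L1))
        ≤ 112 * C1 * (B + C) * (C * (z * L1 ^ (B - 1)) / κ) := by gcongr
      _ = (448 * C * C1 * (B + C)) / κ / 4 * (z * L1 ^ (B - 1)) := by ring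
      _ ≤ (ε * κ) / κ / 4 * (z * L1 ^ (B - 1)) := by gcongr
      _ = _ := by field_simp
  -- smooth part
  have hQ0 : b * (t - b) * p0 ≠ 0 :=
    Nat.mul_ne_zero (Nat.mul_ne_zero (by omega) (by omega)) (by omega)
  have hQle : b * (t - b) * p0 ≤ t ^ 3 := by
    calc b * (t - b) * p0 ≤ t * t * t :=
          Nat.mul_le_mul (Nat.mul_le_mul hbt.le (Nat.sub_le t b)) (hp0z.trans hcase)
      _ = t ^ 3 := by ring
  have hSm := hS t w (b * (t - b) * p0) η hw256 hη0 hη1 hQ0 hQle ht0
  have hSm' : (#(smB t w (b * (t - b) * p0)) : ℝ) ≤ ε / 8 * (z * L1 ^ (B - 1)) := by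
    refine hSm.trans ?_
    have h1 : (w : ℝ) ^ η ≤ Real.exp (L2 / 4) := by
      rw [Real.rpow_def_of_pos hw0]
      apply Real.exp_le_exp.mpr
      calc Real.log w * η ≤ κ * L2 * η := by gcongr
        _ = L2 / 4 := by rw [hη]; field_simp
    have h2 : 2 * (w : ℝ) ^ η ≤ η / 4 * L1 := by
      have h3 : Real.exp (L2 / 4) * Real.exp (3 * L2 / 4) = L1 := by
        rw [← Real.exp_add, ← eL1]; congr 1; ring
      have h4 : 32 * (κ : ℝ) ≤ Real.exp (3 * L2 / 4) := by
        have h5 := Real.add_one_le_exp (3 * L2 / 4)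
        have : (0 : ℝ) ≤ B := by positivity
        linarith
      have h5 : 0 < Real.exp (L2 / 4) := Real.exp_pos _
      have h6 : 2 * Real.exp (L2 / 4) ≤ η / 4 * L1 := by
        rw [← h3, hη]
        have h7 : 1 / (4 * (κ : ℝ)) / 4 * (Real.exp (L2 / 4) * Real.exp (3 * L2 / 4)) =
            Real.exp (L2 / 4) * Real.exp (3 * L2 / 4) / (16 * κ) := by field_simp; ring
        rw [h7, le_div_iff₀ (by positivity)]
        have h8 := mul_le_mul_of_nonneg_left h4 h5.le
        linarith
      linarith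
    have h3 : 3 * (Real.log t / Real.log w) ≤ η / 4 * Real.log t := by
      have h4 : Real.log t / Real.log w ≤ Real.log t / (κ * L2 / 2) := by
        apply div_le_div_of_nonneg_left (by linarith) (by positivity) hlogw_ge
      have h5 : Real.log t / (κ * L2 / 2) ≤ Real.log t * (1 / (100 * κ)) := by
        rw [div_le_iff₀ (by positivity)]
        have h6 : Real.log t * (1 / (100 * (κ : ℝ))) * (κ * L2 / 2) = Real.log t * (L2 / 200) := by
          field_simp; ring
        rw [h6]
        have h7 : 1 ≤ L2 / 200 := by linarith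
        have h8 : 0 ≤ Real.log t := by linarith
        exact le_mul_of_one_le_right h8 h7
      have h6 : 3 * (Real.log t * (1 / (100 * (κ : ℝ)))) ≤ η / 4 * Real.log t := by
        have h7 : η / 4 * Real.log t - 3 * (Real.log t * (1 / (100 * (κ : ℝ)))) =
            Real.log t * (1 / κ) * (1 / 16 - 3 / 100) := by
          rw [hη]; field_simp; ring
        have h8 : 0 ≤ Real.log t * (1 / κ) * (1 / 16 - 3 / 100 : ℝ) := by
          have : 0 ≤ Real.log t := by linarith
          have h9 : (0 : ℝ) ≤ 1 / 16 - 3 / 100 := by norm_num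
          positivity
        linarith
      linarith
    have h4 : (t : ℝ) ^ (1 - η) *
        Real.exp (2 * (w : ℝ) ^ η + 3 * (Real.log t / Real.log w)) ≤
        t * Real.exp (-(η / 2 * L1)) := by
      rw [sub_eq_add_neg, Real.rpow_add ht0', Real.rpow_one, mul_assoc,
        Real.rpow_def_of_pos ht0', ← Real.exp_add]
      apply mul_le_mul_of_nonneg_left _ ht0'.le
      apply Real.exp_le_exp.mpr
      have h5 := mul_le_mul_of_nonneg_left hlogt1 hη0.le
      linarith
    have h5 : Real.exp (-(η / 2 * L1)) ≤ 48 / (η ^ 3 * L1 ^ 3) := by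
      have h6 := cube_div_six_le_exp (show 0 ≤ η / 2 * L1 by positivity)
      rw [Real.exp_neg]
      calc (Real.exp (η / 2 * L1))⁻¹ ≤ ((η / 2 * L1) ^ 3 / 6)⁻¹ := by
            apply inv_anti₀ (by positivity) h6
        _ = _ := by field_simp; ring
    have hwL : Real.log w ≤ κ * L1 := hlogw_le.trans (by gcongr)
    have hC2κ : 384 * C2 * κ * C ≤ ε * η ^ 3 * L1 := by
      have h6 : 384 * C2 * κ * C / (ε * η ^ 3) ≤ L1 := by linarith
      rw [div_le_iff₀ (by positivity)] at h6
      linarith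
    calc C2 * Real.log w * (t : ℝ) ^ (1 - η) *
          Real.exp (2 * (w : ℝ) ^ η + 3 * (Real.log t / Real.log w))
        = C2 * Real.log w * ((t : ℝ) ^ (1 - η) *
          Real.exp (2 * (w : ℝ) ^ η + 3 * (Real.log t / Real.log w))) := by ring
      _ ≤ C2 * (κ * L1) * (t * Real.exp (-(η / 2 * L1))) := by gcongr
      _ ≤ C2 * (κ * L1) * ((C * (z * L1 ^ B)) * (48 / (η ^ 3 * L1 ^ 3))) := by gcongr
      _ = (384 * C2 * κ * C) / (8 * η ^ 3 * L1) * (z * L1 ^ (B - 1)) := by
          rw [hBs]; field_simp; ring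
      _ ≤ (ε * η ^ 3 * L1) / (8 * η ^ 3 * L1) * (z * L1 ^ (B - 1)) := by gcongr
      _ = _ := by field_simp
  have h1 : (1 : ℝ) ≤ ε / 9 * (z * L1 ^ (B - 1)) := by
    have h2 : L1 * 1 ≤ L1 * z := by
      apply mul_le_mul_of_nonneg_left _ hL1pos.le
      linarith
    have h3 : (z : ℝ) * L1 ≤ z * L1 ^ (B - 1) := by gcongr
    have h4 : ε * L1 ≤ ε * (z * L1 ^ (B - 1)) := by
      apply mul_le_mul_of_nonneg_left _ hε.le
      linarith
    linarith
  have h2 : 0 < ε * (z * L1 ^ (B - 1)) := by positivity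
  linarith

end Pool.Agent.H16
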