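import Pool.Agent.H16.SAN

/-!
Total remainder bound.
-/

set_option autoImplicit false

open Complex Finset Filter Topology
open scoped ComplexConjugate
open ArithmeticFunction (vonMangoldt moebius)
open DirichletCharacter

namespace Pool.Agent.H16

lemma primeFactors_prod_primes (D : Finset ℕ) (hD : ∀ p ∈ D, p.Prime) :
    (∏ p ∈ D, p).primeFactors = D := Nat.primeFactors_prod hD

lemma sum_divisors_le_powerset (D : Finset ℕ) (hD : ∀ p ∈ D, p.Prime) (f : ℕ → ℝ)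
    (hf : ∀ n, 0 ≤ f n) :
    ∑ d ∈ (∏ p ∈ D, p).divisors, f d ≤ ∑ D' ∈ D.powerset, f (∏ p ∈ D', p) := by
  classical
  have hpos : 0 < ∏ p ∈ D, p := Finset.prod_pos (fun p hp => (hD p hp).pos)
  have hsq : Squarefree (∏ p ∈ D, p) := by
    apply Finset.squarefree_prod_of_pairwise_isCoprime
    · intro p hp q hq hpq
      exact (Nat.coprime_iff_isRelPrime.mp ((Nat.coprime_primes (hD p hp) (hD q hq)).mpr hpq))
    · intro p hp; exact (hD p hp).squarefree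
  have key : ∀ d ∈ (∏ p ∈ D, p).divisors, ∏ p ∈ D.filter (fun p => p ∣ d), p = d := by
    intro d hd
    have hdd := (Nat.mem_divisors.mp hd).1
    have hdsq : Squarefree d := hsq.squarefree_of_dvd hdd
    have h1 : d.primeFactors = D.filter (fun p => p ∣ d) := by
      ext p
      rw [Nat.mem_primeFactors, Finset.mem_filter]
      constructor
      · rintro ⟨hp, hpd, _⟩
        refine ⟨?_, hpd⟩
        have h2 : p ∈ (∏ p ∈ D, p).primeFactors :=
          Nat.mem_primeFactors.mpr ⟨hp, hpd.trans hdd, hpos.ne'⟩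
        rwa [primeFactors_prod_primes D hD] at h2
      · rintro ⟨hp, hpd⟩
        exact ⟨hD p hp, hpd, fun h => by rw [h] at hdd; exact hpos.ne' (Nat.eq_zero_of_zero_dvd hdd)⟩
    rw [← h1]
    exact Nat.prod_primeFactors_of_squarefree hdsq
  have e1 : ∑ d ∈ (∏ p ∈ D, p).divisors, f d =
      ∑ d ∈ (∏ p ∈ D, p).divisors, f (∏ p ∈ D.filter (fun p => p ∣ d), p) :=
    Finset.sum_congr rfl (fun d hd => by rw [key d hd])
  rw [e1]
  have hinj : Set.InjOn (fun d => D.filter (fun p => p ∣ d)) ((∏ p ∈ D, p).divisors : Set ℕ) := by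
    intro a ha b hb hab
    simp only at hab
    rw [← key a ha, ← key b hb, hab]
  have e2 := Finset.sum_image (f := fun D' : Finset ℕ => f (∏ p ∈ D', p)) hinj
  rw [← e2]
  apply Finset.sum_le_sum_of_subset_of_nonneg
  · intro D' hD'
    rw [Finset.mem_image] at hD'
    obtain ⟨d, _, rfl⟩ := hD'
    exact Finset.mem_powerset.mpr (Finset.filter_subset _ _)
  · intro D' _ _; exact hf _

lemma sum_powerset_pairs (P : Finset ℕ) (𝒟 : Finset (Finset ℕ)) (h𝒟 : 𝒟 ⊆ P.powerset)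
    (hdown : ∀ D ∈ 𝒟, ∀ D', D' ⊆ D → D' ∈ 𝒟) (g : ℕ → ℝ) (hg : ∀ p ∈ P, 0 ≤ g p)
    (f : Finset ℕ → ℝ) (hf : ∀ D, 0 ≤ f D) :
    ∑ D ∈ 𝒟, (∏ p ∈ D, g p) * ∑ D' ∈ D.powerset, f D' ≤
      (∑ D' ∈ 𝒟, (∏ p ∈ D', g p) * f D') * ∏ p ∈ P, (1 + g p) := by
  classical
  rw [Finset.prod_one_add, Finset.sum_mul_sum]
  simp_rw [Finset.mul_sum]
  rw [Finset.sum_sigma', Finset.sum_sigma']
  have hg' : ∀ D ⊆ P, 0 ≤ ∏ p ∈ D, g p := fun D hD => Finset.prod_nonneg (fun p hp => hg p (hD hp))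
  let Φ : ((_ : Finset ℕ) × Finset ℕ) → ((_ : Finset ℕ) × Finset ℕ) := fun x => ⟨x.2, x.1 \ x.2⟩
  let G : ((_ : Finset ℕ) × Finset ℕ) → ℝ := fun y => (∏ p ∈ y.1, g p) * f y.1 * ∏ p ∈ y.2, g p
  have hinj : Set.InjOn Φ ((𝒟.sigma (fun D => D.powerset) : Finset _) : Set _) := by
    rintro ⟨D1, E1⟩ h1 ⟨D2, E2⟩ h2 h
    simp only [Finset.coe_sigma, Set.mem_sigma_iff, Finset.mem_coe, Finset.mem_powerset] at h1 h2
    simp only [Φ, Sigma.mk.injEq, heq_eq_eq] at h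
    obtain ⟨h3, h4⟩ := h
    subst h3
    have : D1 = D2 := by
      rw [← Finset.sdiff_union_of_subset h1.2, h4, Finset.sdiff_union_of_subset h2.2]
    rw [this]
  have e1 : ∑ x ∈ 𝒟.sigma (fun D => D.powerset), (∏ p ∈ x.1, g p) * f x.2 =
      ∑ x ∈ 𝒟.sigma (fun D => D.powerset), G (Φ x) := by
    apply Finset.sum_congr rfl
    rintro ⟨D, E⟩ h
    simp only [Finset.mem_sigma, Finset.mem_powerset] at h
    simp only [G, Φ]
    rw [← Finset.prod_sdiff h.2]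
    ring
  rw [e1, ← Finset.sum_image (f := G) hinj]
  apply Finset.sum_le_sum_of_subset_of_nonneg
  · intro y hy
    rw [Finset.mem_image] at hy
    obtain ⟨⟨D, E⟩, hx, rfl⟩ := hy
    simp only [Finset.mem_sigma, Finset.mem_powerset, Φ] at hx ⊢
    exact ⟨hdown D hx.1 E hx.2, (Finset.sdiff_subset).trans (Finset.mem_powerset.mp (h𝒟 hx.1))⟩
  · rintro ⟨D, E⟩ h _
    simp only [Finset.mem_sigma, Finset.mem_powerset] at h
    exact mul_nonneg (mul_nonneg (hg' D (Finset.mem_powerset.mp (h𝒟 h.1))) (hf _)) (hg' E h.2)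

open Chebyshev in
/-- comparison of `Λ · tent` and `aw`. -/
lemma Eprim_le (ℓ : ℝ) (hℓ : 0 ≤ ℓ) (y : ℕ) :
    ∑ n ∈ Ioc 0 ⌊Real.exp ℓ⌋₊, |vonMangoldt n * tent (Real.exp ℓ / 3) n - aw ℓ y n| ≤
      2 * √(Real.exp ℓ) * ℓ + Real.log 4 * y := by
  classical
  set N := ⌊Real.exp ℓ⌋₊ with hN
  have hx0 : (0 : ℝ) < Real.exp ℓ / 3 := by positivity
  have hpt : ∀ n ∈ Ioc 0 N, |vonMangoldt n * tent (Real.exp ℓ / 3) n - aw ℓ y n| ≤
      (if ¬ n.Prime then vonMangoldt n else 0) + (if n ≤ y ∧ n.Prime then Real.log n else 0) := by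
    intro n hn
    rw [Finset.mem_Ioc] at hn
    have hn0 : (0 : ℝ) < n := by exact_mod_cast hn.1
    have ht0 := tent_nonneg (Real.exp ℓ / 3) n hx0 hn0
    have ht1 := tent_le_one (Real.exp ℓ / 3) n hx0 hn0
    by_cases hp : n.Prime
    · rw [if_neg (not_not.mpr hp), zero_add]
      have hΛ : vonMangoldt n = Real.log n := ArithmeticFunction.vonMangoldt_apply_prime hp
      unfold aw
      by_cases hy : y < n
      · rw [if_pos ⟨hp, hy⟩, if_neg (by omega), hΛ, sub_self, abs_zero]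
      · rw [if_neg (by tauto), if_pos ⟨by omega, hp⟩, sub_zero, hΛ]
        have hl := Real.log_natCast_nonneg n
        rw [abs_of_nonneg (mul_nonneg hl ht0)]
        exact mul_le_of_le_one_right hl ht1
    · rw [if_pos hp, if_neg (by tauto), add_zero]
      unfold aw
      rw [if_neg (by tauto), sub_zero,
        abs_of_nonneg (mul_nonneg ArithmeticFunction.vonMangoldt_nonneg ht0)]
      exact mul_le_of_le_one_right ArithmeticFunction.vonMangoldt_nonneg ht1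
  refine (Finset.sum_le_sum hpt).trans ?_
  rw [Finset.sum_add_distrib, ← Finset.sum_filter, ← Finset.sum_filter]
  apply add_le_add
  · have h1 := psi_sub_theta_eq_sum_not_prime (Real.exp ℓ)
    rw [← hN] at h1
    rw [← h1]
    have h2 := psi_sub_theta_le (x := Real.exp ℓ) (Real.one_le_exp hℓ)
    rwa [Real.log_exp] at h2
  · have h1 := theta_le_log4_mul_x (x := (y : ℝ)) (Nat.cast_nonneg y)
    refine le_trans ?_ h1
    unfold theta
    rw [Nat.floor_natCast]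
    apply Finset.sum_le_sum_of_subset_of_nonneg
    · intro n hn
      simp only [Finset.mem_filter, Finset.mem_Ioc] at hn ⊢
      exact ⟨⟨hn.1.1, hn.2.1⟩, hn.2.2⟩
    · intro n _ _; exact Real.log_natCast_nonneg n

lemma So_le (ℓ : ℝ) (hℓ : 0 ≤ ℓ) (y : ℕ) {q : ℕ} (ξ : DirichletCharacter ℂ q) :
    ‖So ℓ y ξ‖ ≤ ‖∑ n ∈ Ioc 0 ⌊Real.exp ℓ⌋₊,
      (ξ (n : ℕ) * LamC n) * ((tent (Real.exp ℓ / 3) n : ℝ) : ℂ)‖ +
      (2 * √(Real.exp ℓ) * ℓ + Real.log 4 * y) := by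
  have e : So ℓ y ξ = ∑ n ∈ Ioc 0 ⌊Real.exp ℓ⌋₊,
      (ξ (n : ℕ) * LamC n) * ((tent (Real.exp ℓ / 3) n : ℝ) : ℂ) -
      ∑ n ∈ Ioc 0 ⌊Real.exp ℓ⌋₊, ξ (n : ℕ) *
        ((vonMangoldt n * tent (Real.exp ℓ / 3) n - aw ℓ y n : ℝ) : ℂ) := by
    unfold So
    rw [← Finset.sum_sub_distrib]
    apply Finset.sum_congr rfl
    intro n _
    rw [LamC_apply]
    push_cast
    ring
  rw [e]
  refine (norm_sub_le _ _).trans (add_le_add le_rfl ?_)
  refine (norm_sum_le _ _).trans (le_trans (Finset.sum_le_sum fun n _ => ?_) (Eprim_le ℓ hℓ y))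
  rw [norm_mul, Complex.norm_real, Real.norm_eq_abs]
  calc ‖ξ (n : ℕ)‖ * |vonMangoldt n * tent (Real.exp ℓ / 3) n - aw ℓ y n| ≤
      1 * |vonMangoldt n * tent (Real.exp ℓ / 3) n - aw ℓ y n| :=
        mul_le_mul_of_nonneg_right (DirichletCharacter.norm_le_one _ _) (abs_nonneg _)
    _ = _ := one_mul _

lemma g_prod_le (D : Finset ℕ) (hD : ∀ p ∈ D, p.Prime) (h3 : ∀ p ∈ D, 3 ≤ p) :
    ∏ p ∈ D, 1 / ((p : ℝ) - 1) ≤ ((∏ p ∈ D, p : ℕ) : ℝ) ^ (-(1 / 2) : ℝ) := by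
  induction D using Finset.induction_on with
  | empty => simp
  | insert p D hp ih =>
    rw [Finset.prod_insert hp, Finset.prod_insert hp]
    have hp3 : (3 : ℝ) ≤ p := by exact_mod_cast h3 p (Finset.mem_insert_self _ _)
    have ih' := ih (fun q hq => hD q (Finset.mem_insert_of_mem hq))
      (fun q hq => h3 q (Finset.mem_insert_of_mem hq))
    push_cast at ih' ⊢
    rw [Real.mul_rpow (by positivity) (Finset.prod_nonneg (fun q _ => Nat.cast_nonneg q))]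
    have h1 : 1 / ((p : ℝ) - 1) ≤ (p : ℝ) ^ (-(1 / 2) : ℝ) := by
      rw [Real.rpow_neg (by positivity), ← Real.sqrt_eq_rpow, ← one_div]
      apply one_div_le_one_div_of_le (Real.sqrt_pos.mpr (by linarith))
      rw [Real.sqrt_le_left (by linarith)]
      nlinarith
    apply mul_le_mul h1 ih' _ (by positivity)
    apply Finset.prod_nonneg
    intro q hq
    have : (3 : ℝ) ≤ q := by exact_mod_cast h3 q (Finset.mem_insert_of_mem hq)
    exact div_nonneg zero_le_one (by linarith)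

lemma ev_Eprim (A : ℝ) : ∀ᶠ ℓ : ℝ in atTop,
    Real.exp (ℓ / 300) * (Real.exp (ℓ / 1000) * Real.exp (ℓ / 300)) *
      (2 * √(Real.exp ℓ) * ℓ + Real.log 4 * Real.exp (ℓ / 300)) ≤ Real.exp ℓ * (ℓ ^ (-A) / 2) := by
  have h := isLittleO_rpow_exp_pos_mul_atTop (A + 1) (show (0 : ℝ) < 0.4 by norm_num)
  have h1 := h.bound (show (0 : ℝ) < 1 / 8 by norm_num)
  filter_upwards [h1, eventually_ge_atTop (1 : ℝ)] with ℓ a b
  have hℓ0 : 0 < ℓ := by linarith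
  rw [Real.norm_of_nonneg (by positivity), Real.norm_of_nonneg (by positivity)] at a
  have hsq : √(Real.exp ℓ) = Real.exp (ℓ / 2) := by
    rw [Real.sqrt_eq_iff_mul_self_eq (Real.exp_pos _).le (Real.exp_pos _).le, ← Real.exp_add]
    congr 1; ring
  have hlog4 : Real.log 4 ≤ 2 := by
    have : Real.log 4 = 2 * Real.log 2 := by
      rw [show (4 : ℝ) = 2 ^ 2 by norm_num, Real.log_pow]; push_cast; ring
    have h2 := Real.log_two_lt_d9
    linarith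
  have e1 : Real.exp (ℓ / 300) ≤ Real.exp (ℓ / 2) := Real.exp_le_exp.mpr (by linarith)
  have e2 : 2 * √(Real.exp ℓ) * ℓ + Real.log 4 * Real.exp (ℓ / 300) ≤ 4 * ℓ * Real.exp (ℓ / 2) := by
    rw [hsq]
    have e3 : Real.log 4 * Real.exp (ℓ / 300) ≤ 2 * Real.exp (ℓ / 2) :=
      mul_le_mul hlog4 e1 (Real.exp_pos _).le (by norm_num)
    have e4 : 2 * Real.exp (ℓ / 2) ≤ 2 * ℓ * Real.exp (ℓ / 2) := by
      apply mul_le_mul_of_nonneg_right _ (Real.exp_pos _).le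
      linarith
    calc 2 * Real.exp (ℓ / 2) * ℓ + Real.log 4 * Real.exp (ℓ / 300) ≤
        2 * Real.exp (ℓ / 2) * ℓ + 2 * ℓ * Real.exp (ℓ / 2) := by linarith
      _ = _ := by ring
  have e5 : Real.exp (ℓ / 300) * (Real.exp (ℓ / 1000) * Real.exp (ℓ / 300)) ≤ Real.exp (0.1 * ℓ) := by
    rw [← Real.exp_add, ← Real.exp_add]
    apply Real.exp_le_exp.mpr
    linarith
  have e6 : ℓ ^ (A + 1) * ℓ ^ (-A) = ℓ := by
    rw [← Real.rpow_add hℓ0]
    have : A + 1 + -A = 1 := by ring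
    rw [this, Real.rpow_one]
  have hp : 0 < ℓ ^ (-A) := by positivity
  have e7 : 8 * ℓ ≤ Real.exp (0.4 * ℓ) * ℓ ^ (-A) := by
    have e8 : 8 * ℓ ^ (A + 1) ≤ Real.exp (0.4 * ℓ) := by linarith
    have := mul_le_mul_of_nonneg_right e8 hp.le
    rw [mul_assoc, e6] at this
    exact this
  calc Real.exp (ℓ / 300) * (Real.exp (ℓ / 1000) * Real.exp (ℓ / 300)) *
      (2 * √(Real.exp ℓ) * ℓ + Real.log 4 * Real.exp (ℓ / 300))
      ≤ Real.exp (0.1 * ℓ) * (4 * ℓ * Real.exp (ℓ / 2)) := by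
        apply mul_le_mul e5 e2 _ (Real.exp_pos _).le
        have : 0 ≤ Real.log 4 := Real.log_nonneg (by norm_num)
        positivity
    _ = (8 * ℓ) / 2 * (Real.exp (0.1 * ℓ) * Real.exp (ℓ / 2)) := by ring
    _ ≤ (Real.exp (0.4 * ℓ) * ℓ ^ (-A)) / 2 * (Real.exp (0.1 * ℓ) * Real.exp (ℓ / 2)) := by
        apply mul_le_mul_of_nonneg_right _ (by positivity)
        linarith
    _ = (Real.exp (0.4 * ℓ) * (Real.exp (0.1 * ℓ) * Real.exp (ℓ / 2))) * (ℓ ^ (-A) / 2) := by ring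
    _ = Real.exp ℓ * (ℓ ^ (-A) / 2) := by
        rw [← Real.exp_add, ← Real.exp_add]
        congr 2; ring

open scoped Classical in
/-- **Total remainder bound.** -/
theorem E_bound (hM : MollSmall) (A : ℝ) (hA : 0 ≤ A) (Y0 : ℕ) : ∃ L0 : ℝ, ∀ ℓ : ℝ, L0 ≤ ℓ →
    ∃ q₁ : ℕ, Y0 < q₁ ∧ ∀ W : ℕ, 1 ≤ W → Real.log W ≤ ℓ / (2 * (Real.log ℓ) ^ 2) →
    ∀ y : ℕ, (y : ℝ) ^ 25 ≤ Real.exp (ℓ / 300) → (∀ p, p.Prime → p ∣ W → p ≤ y) →
    ∀ P : Finset ℕ, (∀ p ∈ P, p.Prime) → (∀ p ∈ P, 3 ≤ p) → (∀ p ∈ P, p ≤ y) →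
    (∀ p ∈ P, ¬ p ∣ W) → (∀ D ⊆ P, ¬ q₁ ∣ W * ∏ p ∈ D, p) →
    ∀ a t : ℕ, Nat.Coprime a W → (∀ p ∈ P, ¬ p ∣ t) →
    ∑ D ∈ P.powerset.filter (fun D => (∏ p ∈ D, p) ≤ y ^ 25),
      |RD ((Ioc 0 ⌊Real.exp ℓ⌋₊).filter (fun n => n ≡ a [MOD W])) (aw ℓ y)
        (fun n p => if p ∣ n + t then 1 else 0)
        ((∑ n ∈ Ioc 0 ⌊Real.exp ℓ⌋₊, aw ℓ y n) / (W.totient : ℝ)) (fun p => 1 / ((p : ℝ) - 1)) D| ≤
      Real.exp ℓ * ℓ ^ (-A) / (W.totient : ℝ) * ∏ p ∈ P, (1 + 1 / ((p : ℝ) - 1)) := by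
  obtain ⟨L1, hL1⟩ := AN_bound hM (A + 1) (by linarith) Y0
  have ev1 : ∀ᶠ ℓ : ℝ in atTop, 1000 ≤ 2 * (Real.log ℓ) ^ 2 := by
    have h := (Real.tendsto_log_atTop).eventually (eventually_ge_atTop (40 : ℝ))
    filter_upwards [h] with ℓ hℓ
    nlinarith
  obtain ⟨L2, hL2⟩ := Filter.eventually_atTop.mp
    (ev1.and ((ev_Eprim A).and (eventually_ge_atTop (2 : ℝ))))
  refine ⟨max L1 L2, fun ℓ hℓ => ?_⟩
  obtain ⟨c1, c2, c3⟩ := hL2 ℓ ((le_max_right _ _).trans hℓ)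
  obtain ⟨q₁, hq₁, hq⟩ := hL1 ℓ ((le_max_left _ _).trans hℓ)
  refine ⟨q₁, hq₁, fun W hW1 hW y hy hWy P hP hP3 hPy hPW hPq a t haW hPt => ?_⟩
  have hℓ0 : 0 < ℓ := by linarith
  have hWpos : (0 : ℝ) < W := by exact_mod_cast hW1
  have hW' : (W : ℝ) ≤ Real.exp (ℓ / 1000) := by
    rw [← Real.exp_log hWpos]
    apply Real.exp_le_exp.mpr
    refine hW.trans ?_
    exact div_le_div_of_nonneg_left hℓ0.le (by norm_num) c1
  have hφpos : (0 : ℝ) < (W.totient : ℝ) := by exact_mod_cast Nat.totient_pos.mpr hW1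
  set 𝒟 := P.powerset.filter (fun D => (∏ p ∈ D, p) ≤ y ^ 25) with h𝒟
  set g : ℕ → ℝ := fun p => 1 / ((p : ℝ) - 1) with hg
  have hg0 : ∀ p ∈ P, 0 ≤ g p := by
    intro p hp
    have : (3 : ℝ) ≤ p := by exact_mod_cast hP3 p hp
    exact div_nonneg zero_le_one (by linarith)
  set f : Finset ℕ → ℝ := fun D => ∑ ξ ∈ fam W (∏ p ∈ D, p), ‖So ℓ y ξ‖ with hf
  have hf0 : ∀ D, 0 ≤ f D := fun D => Finset.sum_nonneg (fun _ _ => norm_nonneg _)
  have hsub : 𝒟 ⊆ P.powerset := Finset.filter_subset _ _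
  have hmem : ∀ D ∈ 𝒟, D ⊆ P ∧ ((∏ p ∈ D, p : ℕ) : ℝ) ≤ Real.exp (ℓ / 300) := by
    intro D hD
    rw [h𝒟, Finset.mem_filter, Finset.mem_powerset] at hD
    refine ⟨hD.1, le_trans ?_ hy⟩
    exact_mod_cast hD.2
  have hdown : ∀ D ∈ 𝒟, ∀ D', D' ⊆ D → D' ∈ 𝒟 := by
    intro D hD D' hDD
    rw [h𝒟, Finset.mem_filter, Finset.mem_powerset] at hD ⊢
    refine ⟨hDD.trans hD.1, le_trans ?_ hD.2⟩
    exact Finset.prod_le_prod_of_subset_of_one_le' hDD
      (fun p hp _ => (hP p (hD.1 hp)).one_le)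
  -- step 1
  have step1 : ∑ D ∈ 𝒟, |RD ((Ioc 0 ⌊Real.exp ℓ⌋₊).filter (fun n => n ≡ a [MOD W])) (aw ℓ y)
        (fun n p => if p ∣ n + t then 1 else 0)
        ((∑ n ∈ Ioc 0 ⌊Real.exp ℓ⌋₊, aw ℓ y n) / (W.totient : ℝ)) g D| ≤
      1 / (W.totient : ℝ) * ∑ D ∈ 𝒟, (∏ p ∈ D, g p) * ∑ D' ∈ D.powerset, f D' := by
    rw [Finset.mul_sum]
    apply Finset.sum_le_sum
    intro D hD
    obtain ⟨h1, h2⟩ := hmem D hD
    have hDp : ∀ p ∈ D, p.Prime := fun p hp => hP p (h1 hp)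
    refine (RD_le ℓ y W a t D hDp (fun p hp => hPy p (h1 hp)) hW1 hWy
      (fun p hp => hPW p (h1 hp)) haW (fun p hp => hPt p (h1 hp))).trans ?_
    have h3 := sum_divisors_le_powerset D hDp (fun d' => ∑ ξ ∈ fam W d', ‖So ℓ y ξ‖)
      (fun d' => Finset.sum_nonneg (fun _ _ => norm_nonneg _))
    have h4 : 1 / ((W.totient : ℝ) * ((∏ p ∈ D, p).totient : ℝ)) =
        1 / (W.totient : ℝ) * ∏ p ∈ D, g p := by
      rw [totient_prod_primes D hDp, hg, Finset.prod_div_distrib, Finset.prod_const_one]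
      rw [div_mul_div_comm, mul_one]
    rw [h4, mul_assoc]
    apply mul_le_mul_of_nonneg_left _ (by positivity)
    exact mul_le_mul_of_nonneg_left h3 (Finset.prod_nonneg (fun p hp => hg0 p (h1 hp)))
  have step2 := sum_powerset_pairs P 𝒟 hsub hdown g hg0 f hf0
  -- step 3: analytic bound
  have step3 : ∑ D' ∈ 𝒟, (∏ p ∈ D', g p) * f D' ≤ Real.exp ℓ * ℓ ^ (-A) := by
    set Ep : ℝ := 2 * √(Real.exp ℓ) * ℓ + Real.log 4 * y with hEp
    have hlog4 : 0 ≤ Real.log 4 := Real.log_nonneg (by norm_num)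
    have hEp0 : 0 ≤ Ep := by positivity
    set S : (d : ℕ) → ℝ := fun d => ∑ ξ ∈ fam W d, ‖∑ n ∈ Ioc 0 ⌊Real.exp ℓ⌋₊,
      (ξ (n : ℕ) * LamC n) * ((tent (Real.exp ℓ / 3) n : ℝ) : ℂ)‖ with hS
    have hgp0 : ∀ D ∈ 𝒟, 0 ≤ ∏ p ∈ D, g p := fun D hD =>
      Finset.prod_nonneg (fun p hp => hg0 p ((hmem D hD).1 hp))
    have hgp1 : ∀ D ∈ 𝒟, ∏ p ∈ D, g p ≤ 1 := by
      intro D hD
      apply Finset.prod_le_one (fun p hp => hg0 p ((hmem D hD).1 hp))
      intro p hp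
      have : (3 : ℝ) ≤ p := by exact_mod_cast hP3 p ((hmem D hD).1 hp)
      rw [hg]
      simp only
      rw [div_le_one (by linarith)]
      linarith
    have hprodpos : ∀ D ∈ 𝒟, 1 ≤ ∏ p ∈ D, p := fun D hD =>
      Finset.prod_pos (fun p hp => (hP p ((hmem D hD).1 hp)).pos)
    have h1 : ∀ D' ∈ 𝒟, (∏ p ∈ D', g p) * f D' ≤
        (∏ p ∈ D', g p) * S (∏ p ∈ D', p) + Real.exp (ℓ / 1000) * Real.exp (ℓ / 300) * Ep := by
      intro D hD
      have h2 : f D ≤ S (∏ p ∈ D, p) + (#(fam W (∏ p ∈ D, p)) : ℝ) * Ep := by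
        rw [hf, hS]
        simp only
        rw [← nsmul_eq_mul, ← Finset.sum_const, ← Finset.sum_add_distrib]
        exact Finset.sum_le_sum (fun ξ _ => So_le ℓ hℓ0.le y ξ)
      have h3 : (#(fam W (∏ p ∈ D, p)) : ℝ) ≤ Real.exp (ℓ / 1000) * Real.exp (ℓ / 300) := by
        have h4 : (#(fam W (∏ p ∈ D, p)) : ℝ) ≤ ((W * ∏ p ∈ D, p : ℕ) : ℝ) := by
          exact_mod_cast card_fam_le W _ (Nat.mul_pos hW1 (hprodpos D hD))
        refine h4.trans ?_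
        have h5 := (hmem D hD).2
        rw [Nat.cast_mul]
        exact mul_le_mul hW' h5 (Nat.cast_nonneg _) (Real.exp_pos _).le
      have h6 := mul_le_mul_of_nonneg_left h2 (hgp0 D hD)
      have h7 : (∏ p ∈ D, g p) * ((#(fam W (∏ p ∈ D, p)) : ℝ) * Ep) ≤
          1 * (Real.exp (ℓ / 1000) * Real.exp (ℓ / 300) * Ep) := by
        apply mul_le_mul (hgp1 D hD) (mul_le_mul_of_nonneg_right h3 hEp0) (by positivity) zero_le_one
      rw [mul_add] at h6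
      linarith
    refine (Finset.sum_le_sum h1).trans ?_
    rw [Finset.sum_add_distrib, Finset.sum_const, nsmul_eq_mul]
    have hcard𝒟 : (#𝒟 : ℝ) ≤ Real.exp (ℓ / 300) := by
      have hinj : Set.InjOn (fun D : Finset ℕ => ∏ p ∈ D, p) (𝒟 : Set (Finset ℕ)) := by
        intro D1 h1 D2 h2 h12
        simp only at h12
        rw [← primeFactors_prod_primes D1 (fun p hp => hP p ((hmem D1 h1).1 hp)), h12,
          primeFactors_prod_primes D2 (fun p hp => hP p ((hmem D2 h2).1 hp))]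
      have h2 : #𝒟 = #(𝒟.image (fun D : Finset ℕ => ∏ p ∈ D, p)) :=
        (Finset.card_image_of_injOn hinj).symm
      have h3 : 𝒟.image (fun D : Finset ℕ => ∏ p ∈ D, p) ⊆ Finset.Icc 1 ⌊Real.exp (ℓ / 300)⌋₊ := by
        intro d hd
        rw [Finset.mem_image] at hd
        obtain ⟨D, hD, rfl⟩ := hd
        rw [Finset.mem_Icc]
        exact ⟨hprodpos D hD, Nat.le_floor (hmem D hD).2⟩
      have h4 := Finset.card_le_card h3
      rw [Nat.card_Icc, Nat.add_sub_cancel] at h4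
      calc (#𝒟 : ℝ) ≤ (⌊Real.exp (ℓ / 300)⌋₊ : ℝ) := by rw [h2]; exact_mod_cast h4
        _ ≤ Real.exp (ℓ / 300) := Nat.floor_le (Real.exp_pos _).le
    have hy1 : (y : ℝ) ≤ Real.exp (ℓ / 300) := by
      rcases Nat.eq_zero_or_pos y with h | h
      · rw [h, Nat.cast_zero]; exact (Real.exp_pos _).le
      · have h1 : (1 : ℝ) ≤ y := by exact_mod_cast h
        calc (y : ℝ) = (y : ℝ) ^ 1 := (pow_one _).symm
          _ ≤ (y : ℝ) ^ 25 := pow_le_pow_right₀ h1 (by norm_num)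
          _ ≤ _ := hy
    have hb2 : (#𝒟 : ℝ) * (Real.exp (ℓ / 1000) * Real.exp (ℓ / 300) * Ep) ≤
        Real.exp ℓ * (ℓ ^ (-A) / 2) := by
      refine le_trans ?_ c2
      have h1 : Ep ≤ 2 * √(Real.exp ℓ) * ℓ + Real.log 4 * Real.exp (ℓ / 300) := by
        rw [hEp]
        have := mul_le_mul_of_nonneg_left hy1 hlog4
        linarith
      calc (#𝒟 : ℝ) * (Real.exp (ℓ / 1000) * Real.exp (ℓ / 300) * Ep) ≤
          Real.exp (ℓ / 300) * (Real.exp (ℓ / 1000) * Real.exp (ℓ / 300) *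
            (2 * √(Real.exp ℓ) * ℓ + Real.log 4 * Real.exp (ℓ / 300))) := by
            apply mul_le_mul hcard𝒟 _ (by positivity) (Real.exp_pos _).le
            exact mul_le_mul_of_nonneg_left h1 (by positivity)
        _ = _ := by ring
    have hb1 : ∑ D' ∈ 𝒟, (∏ p ∈ D', g p) * S (∏ p ∈ D', p) ≤ Real.exp ℓ * (ℓ ^ (-A) / 2) := by
      have hinj : Set.InjOn (fun D : Finset ℕ => ∏ p ∈ D, p) (𝒟 : Set (Finset ℕ)) := by
        intro D1 h1 D2 h2 h12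
        simp only at h12
        rw [← primeFactors_prod_primes D1 (fun p hp => hP p ((hmem D1 h1).1 hp)), h12,
          primeFactors_prod_primes D2 (fun p hp => hP p ((hmem D2 h2).1 hp))]
      have h2 : ∀ D' ∈ 𝒟, (∏ p ∈ D', g p) * S (∏ p ∈ D', p) =
          (fun d : ℕ => 1 / (d.totient : ℝ) * S d) (∏ p ∈ D', p) := by
        intro D' hD'
        simp only
        rw [totient_prod_primes D' (fun p hp => hP p ((hmem D' hD').1 hp)), hg,
          Finset.prod_div_distrib, Finset.prod_const_one]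
      rw [Finset.sum_congr rfl h2, ← Finset.sum_image (f := fun d : ℕ => 1 / (d.totient : ℝ) * S d) hinj]
      have h3 := hq W hW1 hW (𝒟.image (fun D : Finset ℕ => ∏ p ∈ D, p))
        (fun d => 1 / (d.totient : ℝ)) (by
          intro d hd
          rw [Finset.mem_image] at hd
          obtain ⟨D, hD, rfl⟩ := hd
          obtain ⟨k1, k2⟩ := hmem D hD
          have kp : ∀ p ∈ D, p.Prime := fun p hp => hP p (k1 hp)
          refine ⟨hprodpos D hD, k2, ?_, hPq D k1, by positivity, ?_⟩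
          · apply Nat.Coprime.prod_left
            intro p hp
            exact (Nat.Prime.coprime_iff_not_dvd (kp p hp)).mpr (hPW p (k1 hp))
          · have h5 := g_prod_le D kp (fun p hp => hP3 p (k1 hp))
            rw [Finset.prod_div_distrib, Finset.prod_const_one, ← totient_prod_primes D kp] at h5
            exact h5)
      refine h3.trans ?_
      apply mul_le_mul_of_nonneg_left _ (Real.exp_pos _).le
      rw [show -(A + 1) = -A - 1 by ring, Real.rpow_sub hℓ0, Real.rpow_one]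
      exact div_le_div_of_nonneg_left (by positivity) (by norm_num) c3
    calc _ ≤ Real.exp ℓ * (ℓ ^ (-A) / 2) + Real.exp ℓ * (ℓ ^ (-A) / 2) := add_le_add hb1 hb2
      _ = _ := by ring
  have hprod0 : 0 ≤ ∏ p ∈ P, (1 + g p) := Finset.prod_nonneg (fun p hp => by linarith [hg0 p hp])
  calc _ ≤ 1 / (W.totient : ℝ) * ∑ D ∈ 𝒟, (∏ p ∈ D, g p) * ∑ D' ∈ D.powerset, f D' := step1
    _ ≤ 1 / (W.totient : ℝ) * ((∑ D' ∈ 𝒟, (∏ p ∈ D', g p) * f D') * ∏ p ∈ P, (1 + g p)) :=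
        mul_le_mul_of_nonneg_left step2 (by positivity)
    _ ≤ 1 / (W.totient : ℝ) * ((Real.exp ℓ * ℓ ^ (-A)) * ∏ p ∈ P, (1 + g p)) := by
        apply mul_le_mul_of_nonneg_left _ (by positivity)
        exact mul_le_mul_of_nonneg_right step3 hprod0
    _ = _ := by ring

end Pool.Agent.H16
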