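import Pool.Agent.H16.SAN
import Pool.Agent.H16.EB

/-!
Remainder bound for the weighted sieve with general weights and general residue classes.
-/

set_option autoImplicit false

open Complex Finset Filter Topology
open scoped ComplexConjugate
open DirichletCharacter

namespace Pool.Agent.H16

/-- twisted sum of general weights -/
noncomputable def Sw (N : ℕ) (w : ℕ → ℝ) {q : ℕ} (ξ : DirichletCharacter ℂ q) : ℂ :=
  ∑ n ∈ Ioc 0 N, ξ (n : ℕ) * ((w n : ℝ) : ℂ)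

/-- restriction to `n` coprime to `r` -/
noncomputable def wr (w : ℕ → ℝ) (r n : ℕ) : ℝ := if Nat.Coprime n r then w n else 0

lemma wr_le (w : ℕ → ℝ) (hw : ∀ n, 0 ≤ w n) (r n : ℕ) : 0 ≤ wr w r n ∧ wr w r n ≤ w n := by
  unfold wr
  split_ifs
  · exact ⟨hw n, le_rfl⟩
  · exact ⟨le_rfl, hw n⟩

/-- indicator of a residue class -/
noncomputable def cb (b : ℕ → ℕ) (n p : ℕ) : ℝ := if n ≡ b p [MOD p] then 1 else 0

lemma cb_nonneg (b : ℕ → ℕ) (n p : ℕ) : 0 ≤ cb b n p := by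
  unfold cb; split_ifs <;> norm_num

lemma cb_le_one (b : ℕ → ℕ) (n p : ℕ) : cb b n p ≤ 1 := by
  unfold cb; split_ifs <;> norm_num

lemma modEq_prod_iff (D : Finset ℕ) (hD : ∀ p ∈ D, p.Prime) (a b : ℕ) :
    a ≡ b [MOD ∏ p ∈ D, p] ↔ ∀ p ∈ D, a ≡ b [MOD p] := by
  have h : ∀ m : ℕ, a ≡ b [MOD m] ↔ m ∣ ((b : ℤ) - a).natAbs := fun m => by
    rw [Nat.modEq_iff_dvd, Int.natCast_dvd]
  rw [h, prod_dvd_iff D hD]
  simp only [h]

lemma exists_class (D : Finset ℕ) (hD : ∀ p ∈ D, p.Prime) (b : ℕ → ℕ) :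
    ∃ b1 : ℕ, ∀ p ∈ D, b1 ≡ b p [MOD p] := by
  obtain ⟨k, hk⟩ := Nat.chineseRemainderOfFinset b (fun p => p) D
    (fun p hp => (hD p hp).ne_zero) (by
      intro p hp q hq hpq
      exact (Nat.coprime_primes (hD p hp) (hD q hq)).mpr hpq)
  exact ⟨k, hk⟩

lemma Sw_changeLevel (N : ℕ) (w : ℕ → ℝ) (W d d' : ℕ) (hd : d' ∣ d) (hd0 : d ≠ 0)
    (hwW : ∀ n, w n ≠ 0 → Nat.Coprime n W) (h : W * d' ∣ W * d)
    (ξ : DirichletCharacter ℂ (W * d')) :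
    Sw N w (changeLevel h ξ) = Sw N (wr w (d / d')) ξ := by
  unfold Sw
  apply Finset.sum_congr rfl
  intro n _
  by_cases h0 : w n = 0
  · rw [h0]
    unfold wr
    rw [h0]; simp
  · have hW := hwW n h0
    obtain ⟨r, rfl⟩ := hd
    have hd'0 : 0 < d' := Nat.pos_of_ne_zero (fun h => hd0 (by rw [h, zero_mul]))
    have hr : d' * r / d' = r := Nat.mul_div_cancel_left r hd'0
    rw [hr]
    by_cases hc : Nat.Coprime n (W * (d' * r))
    · rw [changeLevel_natCast h ξ n hc]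
      unfold wr
      rw [if_pos]
      exact Nat.Coprime.coprime_mul_left_right (Nat.Coprime.coprime_mul_left_right hc)
    · rw [char_natCast_eq_zero _ n hc, zero_mul]
      unfold wr
      split_ifs with hcr
      · have h2 : ¬ Nat.Coprime n (W * d') := by
          intro h3
          apply hc
          have h4 := Nat.Coprime.coprime_mul_left_right h3
          exact Nat.Coprime.mul_right hW (Nat.Coprime.mul_right h4 hcr)
        rw [char_natCast_eq_zero _ n h2, zero_mul]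
      · simp

lemma Sw_one (N : ℕ) (w : ℕ → ℝ) (W d : ℕ) (hwW : ∀ n, w n ≠ 0 → Nat.Coprime n W) :
    Sw N w (1 : DirichletCharacter ℂ (W * d)) = ((∑ n ∈ Ioc 0 N, wr w d n : ℝ) : ℂ) := by
  unfold Sw
  push_cast
  apply Finset.sum_congr rfl
  intro n _
  by_cases h0 : w n = 0
  · unfold wr; rw [h0]; simp
  · have hW := hwW n h0
    by_cases hc : Nat.Coprime n d
    · rw [MulChar.one_apply ((ZMod.isUnit_iff_coprime n _).mpr (Nat.Coprime.mul_right hW hc)),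
        one_mul]
      unfold wr; rw [if_pos hc]
    · rw [char_natCast_eq_zero _ n (fun h => hc (Nat.Coprime.coprime_mul_left_right h)), zero_mul]
      unfold wr; rw [if_neg hc]; simp

open scoped Classical in
/-- **Remainder bound, general weights.** -/
theorem RDw_le (N : ℕ) (w : ℕ → ℝ) (W A : ℕ) (b : ℕ → ℕ) (D : Finset ℕ) (hD : ∀ p ∈ D, p.Prime)
    (hW1 : 1 ≤ W) (hwW : ∀ n, w n ≠ 0 → Nat.Coprime n W) (hDW : ∀ p ∈ D, ¬ p ∣ W)
    (hAW : Nat.Coprime A W) (hbD : ∀ p ∈ D, ¬ p ∣ b p) :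
    |AD ((Ioc 0 N).filter (fun n => n ≡ A [MOD W])) w (cb b) D -
      (1 / (W.totient : ℝ) * ∏ p ∈ D, 1 / ((p : ℝ) - 1)) * ∑ n ∈ Ioc 0 N, wr w (∏ p ∈ D, p) n| ≤
    1 / (W.totient : ℝ) * (∏ p ∈ D, 1 / ((p : ℝ) - 1)) *
      ∑ D' ∈ D.powerset, ∑ ξ ∈ fam W (∏ p ∈ D', p), ‖Sw N (wr w (∏ p ∈ D \ D', p)) ξ‖ := by
  set d := ∏ p ∈ D, p with hd
  have hdpos : 0 < d := Finset.prod_pos (fun p hp => (hD p hp).pos)
  have hcop : Nat.Coprime W d := by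
    rw [hd]
    apply Nat.Coprime.prod_right
    intro p hp
    exact ((Nat.Prime.coprime_iff_not_dvd (hD p hp)).mpr (hDW p hp)).symm
  set L := W * d with hLdef
  have hLpos : 0 < L := Nat.mul_pos hW1 hdpos
  have : NeZero L := ⟨by omega⟩
  -- residue class
  obtain ⟨b1, hb1⟩ := exists_class D hD b
  obtain ⟨b0, hb0W, hb0d⟩ := Nat.chineseRemainder hcop A b1
  have hbW : Nat.Coprime b0 W := by
    have := hb0W.gcd_eq
    unfold Nat.Coprime at hAW ⊢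
    rw [this, hAW]
  have hb0p : ∀ p ∈ D, b0 ≡ b p [MOD p] := fun p hp =>
    ((modEq_prod_iff D hD b0 b1).mp hb0d p hp).trans (hb1 p hp)
  have hbd : Nat.Coprime b0 d := by
    rw [hd]
    apply Nat.Coprime.prod_right
    intro p hp
    apply Nat.Coprime.symm
    rw [Nat.Prime.coprime_iff_not_dvd (hD p hp)]
    intro hpb
    apply hbD p hp
    exact (Nat.modEq_zero_iff_dvd.mp (((hb0p p hp).symm).trans (Nat.modEq_zero_iff_dvd.mpr hpb)))
  have hbL : IsUnit (b0 : ZMod L) := by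
    rw [ZMod.isUnit_iff_coprime, hLdef]
    exact Nat.Coprime.mul_right hbW hbd
  have hind : ∀ n : ℕ, (n ≡ A [MOD W] ∧ ∀ p ∈ D, n ≡ b p [MOD p]) ↔ (b0 : ZMod L) = (n : ZMod L) := by
    intro n
    rw [ZMod.natCast_eq_natCast_iff, hLdef, ← Nat.modEq_and_modEq_iff_modEq_mul hcop,
      hd, modEq_prod_iff D hD]
    constructor
    · rintro ⟨h1, h2⟩
      exact ⟨hb0W.trans h1.symm, fun p hp => (hb0p p hp).trans (h2 p hp).symm⟩
    · rintro ⟨h1, h2⟩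
      exact ⟨h1.symm.trans hb0W, fun p hp => (h2 p hp).symm.trans (hb0p p hp)⟩
  have hAD : AD ((Ioc 0 N).filter (fun n => n ≡ A [MOD W])) w (cb b) D =
      ∑ n ∈ Ioc 0 N, if (b0 : ZMod L) = (n : ZMod L) then w n else 0 := by
    unfold AD
    rw [Finset.sum_filter]
    apply Finset.sum_congr rfl
    intro n _
    have e1 : (∏ p ∈ D, cb b n p) = if ∀ p ∈ D, n ≡ b p [MOD p] then 1 else 0 := by
      unfold cb
      rw [Finset.prod_ite_zero]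
      simp
    rw [e1]
    by_cases h : (b0 : ZMod L) = (n : ZMod L)
    · have h2 := (hind n).mpr h
      rw [if_pos h2.1, if_pos h2.2, if_pos h, mul_one]
    · rw [if_neg h]
      have h2 := mt (hind n).mp h
      by_cases h3 : n ≡ A [MOD W]
      · rw [if_pos h3, if_neg (fun h4 => h2 ⟨h3, h4⟩), mul_zero]
      · rw [if_neg h3]
  have hφ : (L.totient : ℝ) = (W.totient : ℝ) * (d.totient : ℝ) := by
    rw [hLdef, Nat.totient_mul hcop]; push_cast; ring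
  have hφpos : (0 : ℝ) < (L.totient : ℝ) := by exact_mod_cast Nat.totient_pos.mpr hLpos
  have hφC : (L.totient : ℂ) ≠ 0 := by exact_mod_cast hφpos.ne'
  have hortho : ((AD ((Ioc 0 N).filter (fun n => n ≡ A [MOD W])) w (cb b) D : ℝ) : ℂ) =
      1 / (L.totient : ℂ) * ∑ χ : DirichletCharacter ℂ L, χ (b0 : ZMod L)⁻¹ * Sw N w χ := by
    rw [hAD]
    unfold Sw
    simp_rw [Finset.mul_sum]
    rw [Finset.sum_comm]
    push_cast
    apply Finset.sum_congr rfl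
    intro n _
    have h1 := DirichletCharacter.sum_char_inv_mul_char_eq ℂ hbL (n : ZMod L)
    have h2 : ∑ χ : DirichletCharacter ℂ L, 1 / (L.totient : ℂ) * (χ (b0 : ZMod L)⁻¹ *
        (χ (n : ZMod L) * ((w n : ℝ) : ℂ))) =
        1 / (L.totient : ℂ) * ((∑ χ : DirichletCharacter ℂ L, χ (b0 : ZMod L)⁻¹ * χ (n : ZMod L)) *
          ((w n : ℝ) : ℂ)) := by
      rw [Finset.sum_mul, Finset.mul_sum]
      apply Finset.sum_congr rfl
      intro χ _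
      ring
    rw [h2, h1]
    split_ifs with h3
    · field_simp
    · simp
  have hLg : 1 / (L.totient : ℝ) = 1 / (W.totient : ℝ) * ∏ p ∈ D, 1 / ((p : ℝ) - 1) := by
    rw [hφ, Finset.prod_div_distrib, Finset.prod_const_one, hd, totient_prod_primes D hD]
    ring
  have hmain : ((AD ((Ioc 0 N).filter (fun n => n ≡ A [MOD W])) w (cb b) D -
      (1 / (W.totient : ℝ) * ∏ p ∈ D, 1 / ((p : ℝ) - 1)) * ∑ n ∈ Ioc 0 N, wr w d n : ℝ) : ℂ) =
      1 / (L.totient : ℂ) * ∑ χ ∈ (Finset.univ : Finset (DirichletCharacter ℂ L)).erase 1,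
        χ (b0 : ZMod L)⁻¹ * Sw N w χ := by
    have hone : Sw N w (1 : DirichletCharacter ℂ L) = ((∑ n ∈ Ioc 0 N, wr w d n : ℝ) : ℂ) :=
      Sw_one N w W d hwW
    rw [← hLg, Complex.ofReal_sub, hortho,
      ← Finset.add_sum_erase _ _ (Finset.mem_univ (1 : DirichletCharacter ℂ L)), hone]
    have h1 : (1 : DirichletCharacter ℂ L) (b0 : ZMod L)⁻¹ = 1 := by
      apply MulChar.one_apply
      obtain ⟨u, hu⟩ := hbL
      rw [← hu, ZMod.inv_coe_unit]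
      exact Units.isUnit _
    rw [h1]
    push_cast
    ring
  have hnorm : |AD ((Ioc 0 N).filter (fun n => n ≡ A [MOD W])) w (cb b) D -
      (1 / (W.totient : ℝ) * ∏ p ∈ D, 1 / ((p : ℝ) - 1)) * ∑ n ∈ Ioc 0 N, wr w d n| ≤
      1 / (L.totient : ℝ) * ∑ χ ∈ (Finset.univ : Finset (DirichletCharacter ℂ L)).erase 1, ‖Sw N w χ‖ := by
    rw [← Real.norm_eq_abs, ← Complex.norm_real, hmain, norm_mul, norm_div, norm_one,
      Complex.norm_natCast]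
    apply mul_le_mul_of_nonneg_left _ (by positivity)
    refine (norm_sum_le _ _).trans (Finset.sum_le_sum fun χ _ => ?_)
    rw [norm_mul]
    calc ‖χ (b0 : ZMod L)⁻¹‖ * ‖Sw N w χ‖ ≤ 1 * ‖Sw N w χ‖ :=
          mul_le_mul_of_nonneg_right (DirichletCharacter.norm_le_one _ _) (norm_nonneg _)
      _ = _ := one_mul _
  refine hnorm.trans ?_
  rw [hLg]
  apply mul_le_mul_of_nonneg_left
  · have h1 := sum_char_le_fam W d hLpos hcop.symm
      ((Finset.univ : Finset (DirichletCharacter ℂ L)).erase 1) (fun ξ hξ => (Finset.mem_erase.mp hξ).1)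
      (fun ξ => ‖Sw N w ξ‖) (fun d' ξ => ‖Sw N (wr w (d / d')) ξ‖) (fun _ _ _ => norm_nonneg _)
      (fun d' hd' ξ => by
        have hdd : d' ∣ d := Nat.dvd_of_mul_dvd_mul_left hW1 hd'
        rw [Sw_changeLevel N w W d d' hdd hdpos.ne' hwW hd' ξ])
    refine h1.trans ?_
    have h2 := sum_divisors_le_powerset D hD
      (fun d' => ∑ ξ ∈ fam W d', ‖Sw N (wr w (d / d')) ξ‖)
      (fun d' => Finset.sum_nonneg (fun _ _ => norm_nonneg _))
    refine h2.trans (le_of_eq ?_)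
    apply Finset.sum_congr rfl
    intro D' hD'
    rw [Finset.mem_powerset] at hD'
    have h3 : d / ∏ p ∈ D', p = ∏ p ∈ D \ D', p := by
      apply Nat.div_eq_of_eq_mul_left (Finset.prod_pos (fun p hp => (hD p (hD' hp)).pos))
      rw [hd, Finset.prod_sdiff hD']
    rw [h3]
  · rw [← hLg]; positivity

/-- pairs -/
lemma sum_powerset_pairs2 (P : Finset ℕ) (𝒟 : Finset (Finset ℕ)) (h𝒟 : 𝒟 ⊆ P.powerset)
    (hdown : ∀ D ∈ 𝒟, ∀ D', D' ⊆ D → D' ∈ 𝒟) (g : ℕ → ℝ) (hg : ∀ p ∈ P, 0 ≤ g p)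
    (f : Finset ℕ → Finset ℕ → ℝ) (hf : ∀ D R, 0 ≤ f D R) (H : ℝ)
    (hH : ∀ R ∈ 𝒟, ∑ D ∈ 𝒟, (∏ p ∈ D, g p) * f D R ≤ H) (hH0 : 0 ≤ H) :
    ∑ D ∈ 𝒟, (∏ p ∈ D, g p) * ∑ D' ∈ D.powerset, f D' (D \ D') ≤ H * ∏ p ∈ P, (1 + g p) := by
  classical
  have hg' : ∀ D ⊆ P, 0 ≤ ∏ p ∈ D, g p := fun D hD => Finset.prod_nonneg (fun p hp => hg p (hD hp))
  have step : ∑ D ∈ 𝒟, (∏ p ∈ D, g p) * ∑ D' ∈ D.powerset, f D' (D \ D') ≤
      ∑ R ∈ 𝒟, (∏ p ∈ R, g p) * ∑ D ∈ 𝒟, (∏ p ∈ D, g p) * f D R := by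
    simp_rw [Finset.mul_sum]
    rw [Finset.sum_sigma', Finset.sum_sigma']
    let Φ : ((_ : Finset ℕ) × Finset ℕ) → ((_ : Finset ℕ) × Finset ℕ) := fun x => ⟨x.1 \ x.2, x.2⟩
    let G : ((_ : Finset ℕ) × Finset ℕ) → ℝ := fun y => (∏ p ∈ y.1, g p) * ((∏ p ∈ y.2, g p) * f y.2 y.1)
    have hinj : Set.InjOn Φ ((𝒟.sigma (fun D => D.powerset) : Finset _) : Set _) := by
      rintro ⟨D1, E1⟩ h1 ⟨D2, E2⟩ h2 h
      simp only [Finset.coe_sigma, Set.mem_sigma_iff, Finset.mem_coe, Finset.mem_powerset] at h1 h2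
      simp only [Φ, Sigma.mk.injEq, heq_eq_eq] at h
      obtain ⟨h3, h4⟩ := h
      subst h4
      have : D1 = D2 := by
        rw [← Finset.sdiff_union_of_subset h1.2, h3, Finset.sdiff_union_of_subset h2.2]
      rw [this]
    have e1 : ∑ x ∈ 𝒟.sigma (fun D => D.powerset), (∏ p ∈ x.1, g p) * f x.2 (x.1 \ x.2) =
        ∑ x ∈ 𝒟.sigma (fun D => D.powerset), G (Φ x) := by
      apply Finset.sum_congr rfl
      rintro ⟨D, E⟩ h
      simp only [Finset.mem_sigma, Finset.mem_powerset] at h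
      simp only [G, Φ]
      rw [← Finset.prod_sdiff h.2]
      ring
    rw [e1, ← Finset.sum_image (f := G) hinj]
    apply Finset.sum_le_sum_of_subset_of_nonneg
    · intro y hy
      rw [Finset.mem_image] at hy
      obtain ⟨⟨D, E⟩, hx, rfl⟩ := hy
      simp only [Finset.mem_sigma, Finset.mem_powerset, Φ] at hx ⊢
      exact ⟨hdown D hx.1 _ Finset.sdiff_subset, hdown D hx.1 E hx.2⟩
    · rintro ⟨D, E⟩ h _
      simp only [Finset.mem_sigma] at h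
      exact mul_nonneg (hg' D (Finset.mem_powerset.mp (h𝒟 h.1)))
        (mul_nonneg (hg' E (Finset.mem_powerset.mp (h𝒟 h.2))) (hf _ _))
  refine step.trans ?_
  calc ∑ R ∈ 𝒟, (∏ p ∈ R, g p) * ∑ D ∈ 𝒟, (∏ p ∈ D, g p) * f D R ≤
      ∑ R ∈ 𝒟, (∏ p ∈ R, g p) * H := by
        apply Finset.sum_le_sum
        intro R hR
        exact mul_le_mul_of_nonneg_left (hH R hR) (hg' R (Finset.mem_powerset.mp (h𝒟 hR)))
    _ = (∑ R ∈ 𝒟, ∏ p ∈ R, g p) * H := by rw [Finset.sum_mul]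
    _ ≤ (∏ p ∈ P, (1 + g p)) * H := by
        apply mul_le_mul_of_nonneg_right _ hH0
        rw [Finset.prod_one_add]
        apply Finset.sum_le_sum_of_subset_of_nonneg h𝒟
        intro D hD _
        exact hg' D (Finset.mem_powerset.mp hD)
    _ = _ := mul_comm _ _

open scoped Classical in
/-- **Total remainder, general weights.** -/
theorem EB2 (N : ℕ) (w : ℕ → ℝ) (hw0 : ∀ n, 0 ≤ w n) (W A : ℕ) (b : ℕ → ℕ)
    (P : Finset ℕ) (hP : ∀ p ∈ P, p.Prime)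
    (hW1 : 1 ≤ W) (hwW : ∀ n, w n ≠ 0 → Nat.Coprime n W) (hPW : ∀ p ∈ P, ¬ p ∣ W)
    (hAW : Nat.Coprime A W) (hbP : ∀ p ∈ P, ¬ p ∣ b p)
    (𝒟 : Finset (Finset ℕ)) (h𝒟 : 𝒟 ⊆ P.powerset)
    (hdown : ∀ D ∈ 𝒟, ∀ D', D' ⊆ D → D' ∈ 𝒟) (H : ℝ) (hH0 : 0 ≤ H)
    (hH : ∀ R ∈ 𝒟, ∑ D ∈ 𝒟, (∏ p ∈ D, 1 / ((p : ℝ) - 1)) *
      ∑ ξ ∈ fam W (∏ p ∈ D, p), ‖Sw N (wr w (∏ p ∈ R, p)) ξ‖ ≤ H) :
    ∑ D ∈ 𝒟, |RD ((Ioc 0 N).filter (fun n => n ≡ A [MOD W])) w (cb b)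
        ((∑ n ∈ Ioc 0 N, w n) / (W.totient : ℝ)) (fun p => 1 / ((p : ℝ) - 1)) D| ≤
      H / (W.totient : ℝ) * ∏ p ∈ P, (1 + 1 / ((p : ℝ) - 1)) +
      1 / (W.totient : ℝ) * ∑ D ∈ 𝒟, (∏ p ∈ D, 1 / ((p : ℝ) - 1)) *
        ∑ n ∈ Ioc 0 N, (w n - wr w (∏ p ∈ D, p) n) := by
  have hφpos : (0 : ℝ) < (W.totient : ℝ) := by exact_mod_cast Nat.totient_pos.mpr hW1
  have hg0 : ∀ p ∈ P, 0 ≤ 1 / ((p : ℝ) - 1) := by
    intro p hp
    have : (2 : ℝ) ≤ p := by exact_mod_cast (hP p hp).two_le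
    exact div_nonneg zero_le_one (by linarith)
  have hsub : ∀ D ∈ 𝒟, D ⊆ P := fun D hD => Finset.mem_powerset.mp (h𝒟 hD)
  have hpairs := sum_powerset_pairs2 P 𝒟 h𝒟 hdown (fun p => 1 / ((p : ℝ) - 1)) hg0
    (fun D R => ∑ ξ ∈ fam W (∏ p ∈ D, p), ‖Sw N (wr w (∏ p ∈ R, p)) ξ‖)
    (fun D R => Finset.sum_nonneg (fun _ _ => norm_nonneg _)) H hH hH0
  have h1 : ∀ D ∈ 𝒟, |RD ((Ioc 0 N).filter (fun n => n ≡ A [MOD W])) w (cb b)
        ((∑ n ∈ Ioc 0 N, w n) / (W.totient : ℝ)) (fun p => 1 / ((p : ℝ) - 1)) D| ≤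
      1 / (W.totient : ℝ) * ((∏ p ∈ D, 1 / ((p : ℝ) - 1)) *
        ∑ D' ∈ D.powerset, ∑ ξ ∈ fam W (∏ p ∈ D', p), ‖Sw N (wr w (∏ p ∈ D \ D', p)) ξ‖) +
      1 / (W.totient : ℝ) * ((∏ p ∈ D, 1 / ((p : ℝ) - 1)) *
        ∑ n ∈ Ioc 0 N, (w n - wr w (∏ p ∈ D, p) n)) := by
    intro D hD
    have hDP := hsub D hD
    have h2 := RDw_le N w W A b D (fun p hp => hP p (hDP hp)) hW1 hwW (fun p hp => hPW p (hDP hp)) hAW
      (fun p hp => hbP p (hDP hp))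
    have hgD : 0 ≤ ∏ p ∈ D, 1 / ((p : ℝ) - 1) := Finset.prod_nonneg (fun p hp => hg0 p (hDP hp))
    have h3 : RD ((Ioc 0 N).filter (fun n => n ≡ A [MOD W])) w (cb b)
        ((∑ n ∈ Ioc 0 N, w n) / (W.totient : ℝ)) (fun p => 1 / ((p : ℝ) - 1)) D =
        (AD ((Ioc 0 N).filter (fun n => n ≡ A [MOD W])) w (cb b) D -
        (1 / (W.totient : ℝ) * ∏ p ∈ D, 1 / ((p : ℝ) - 1)) * ∑ n ∈ Ioc 0 N, wr w (∏ p ∈ D, p) n) -
        1 / (W.totient : ℝ) * ((∏ p ∈ D, 1 / ((p : ℝ) - 1)) *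
        ∑ n ∈ Ioc 0 N, (w n - wr w (∏ p ∈ D, p) n)) := by
      unfold RD
      rw [Finset.sum_sub_distrib]
      ring
    rw [h3]
    refine (abs_sub _ _).trans (add_le_add ?_ (le_of_eq ?_))
    · refine h2.trans (le_of_eq ?_)
      ring
    · apply abs_of_nonneg
      apply mul_nonneg (by positivity)
      apply mul_nonneg hgD
      apply Finset.sum_nonneg
      intro n _
      have := (wr_le w hw0 (∏ p ∈ D, p) n).2
      linarith
  refine (Finset.sum_le_sum h1).trans ?_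
  rw [Finset.sum_add_distrib, ← Finset.mul_sum, ← Finset.mul_sum]
  apply add_le_add _ le_rfl
  calc 1 / (W.totient : ℝ) * ∑ D ∈ 𝒟, (∏ p ∈ D, 1 / ((p : ℝ) - 1)) *
        ∑ D' ∈ D.powerset, ∑ ξ ∈ fam W (∏ p ∈ D', p), ‖Sw N (wr w (∏ p ∈ D \ D', p)) ξ‖
      ≤ 1 / (W.totient : ℝ) * (H * ∏ p ∈ P, (1 + 1 / ((p : ℝ) - 1))) :=
        mul_le_mul_of_nonneg_left hpairs (by positivity)
    _ = _ := by ring

end Pool.Agent.H16
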