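import Pool.Agent.H16.EB3

/-!
Total remainders at level one half: products `k p`.
-/

set_option autoImplicit false

open Complex Finset Filter Topology
open scoped ComplexConjugate
open ArithmeticFunction (vonMangoldt moebius)
open DirichletCharacter

namespace Pool.Agent.H16

/-- `log p` on the primes `p > U`, real version -/
noncomputable def thR (U : ℕ) : ArithmeticFunction ℝ :=
  ⟨fun n => if n.Prime ∧ U < n then Real.log n else 0, by simp⟩

lemma thR_apply (U n : ℕ) : thR U n = if n.Prime ∧ U < n then Real.log n else 0 := rfl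

lemma thR_nonneg (U n : ℕ) : 0 ≤ thR U n := by
  rw [thR_apply]; split_ifs
  · exact Real.log_natCast_nonneg n
  · exact le_rfl

/-- the weights `∑_{k p = n} B k log p · tent` -/
noncomputable def wB (ℓ : ℝ) (B : ArithmeticFunction ℝ) (U n : ℕ) : ℝ :=
  (B * thR U) n * tent (Real.exp ℓ / 3) n

/-- complexification -/
noncomputable def toC (B : ArithmeticFunction ℝ) : ArithmeticFunction ℂ :=
  ⟨fun n => ((B n : ℝ) : ℂ), by simp⟩

lemma toC_apply (B : ArithmeticFunction ℝ) (n : ℕ) : toC B n = ((B n : ℝ) : ℂ) := rfl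

lemma toC_mul (B : ArithmeticFunction ℝ) (U n : ℕ) : (toC B * thC U) n = (((B * thR U) n : ℝ) : ℂ) := by
  rw [ArithmeticFunction.mul_apply, ArithmeticFunction.mul_apply]
  push_cast
  apply Finset.sum_congr rfl
  intro x _
  rw [toC_apply, thC_apply, thR_apply]
  split_ifs <;> simp

/-- restriction of the coefficients to `k` coprime to `r` -/
noncomputable def Bres (B : ArithmeticFunction ℝ) (r : ℕ) : ArithmeticFunction ℝ :=
  ⟨fun k => if Nat.Coprime k r then B k else 0, by simp⟩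

lemma Bres_apply (B : ArithmeticFunction ℝ) (r k : ℕ) :
    Bres B r k = if Nat.Coprime k r then B k else 0 := rfl

lemma wB_nonneg (ℓ : ℝ) (B : ArithmeticFunction ℝ) (hB : ∀ n, 0 ≤ B n) (U n : ℕ) :
    0 ≤ wB ℓ B U n := by
  unfold wB
  rcases Nat.eq_zero_or_pos n with h | h
  · rw [h]; simp
  · apply mul_nonneg
    · rw [ArithmeticFunction.mul_apply]
      exact Finset.sum_nonneg (fun x _ => mul_nonneg (hB _) (thR_nonneg _ _))
    · exact tent_nonneg _ _ (by positivity) (by exact_mod_cast h)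

lemma conv_le_log (B : ArithmeticFunction ℝ) (hB1 : ∀ n, B n ≤ 1) (U n : ℕ) :
    (B * thR U) n ≤ Real.log n := by
  rcases Nat.eq_zero_or_pos n with h | h
  · rw [h]; simp
  rw [ArithmeticFunction.mul_apply]
  calc ∑ x ∈ n.divisorsAntidiagonal, B x.1 * thR U x.2 ≤
      ∑ x ∈ n.divisorsAntidiagonal, vonMangoldt x.2 := by
        apply Finset.sum_le_sum
        intro x _
        have h1 : thR U x.2 ≤ vonMangoldt x.2 := by
          rw [thR_apply]
          split_ifs with hp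
          · rw [ArithmeticFunction.vonMangoldt_apply_prime hp.1]
          · exact ArithmeticFunction.vonMangoldt_nonneg
        have h2 := thR_nonneg U x.2
        calc B x.1 * thR U x.2 ≤ 1 * thR U x.2 := mul_le_mul_of_nonneg_right (hB1 _) h2
          _ ≤ _ := by rw [one_mul]; exact h1
    _ = ∑ i ∈ n.divisors, vonMangoldt i := by
        rw [← Nat.map_div_left_divisors, Finset.sum_map]
        rfl
    _ = Real.log n := ArithmeticFunction.vonMangoldt_sum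

lemma wB_le (ℓ : ℝ) (B : ArithmeticFunction ℝ) (hB : ∀ n, 0 ≤ B n) (hB1 : ∀ n, B n ≤ 1) (U n : ℕ)
    (hn : n ∈ Ioc 0 ⌊Real.exp ℓ⌋₊) : wB ℓ B U n ≤ ℓ := by
  rw [Finset.mem_Ioc] at hn
  have hn0 : (0 : ℝ) < n := by exact_mod_cast hn.1
  have h1 := conv_le_log B hB1 U n
  have h2 : Real.log n ≤ ℓ := by
    rw [Real.log_le_iff_le_exp hn0]
    exact (Nat.le_floor_iff (Real.exp_pos _).le).mp hn.2
  have h3 : 0 ≤ (B * thR U) n := by
    rw [ArithmeticFunction.mul_apply]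
    exact Finset.sum_nonneg (fun x _ => mul_nonneg (hB _) (thR_nonneg _ _))
  unfold wB
  calc (B * thR U) n * tent (Real.exp ℓ / 3) n ≤ (B * thR U) n * 1 :=
        mul_le_mul_of_nonneg_left (tent_le_one _ _ (by positivity) hn0) h3
    _ ≤ ℓ := by rw [mul_one]; exact h1.trans h2

lemma tent_big (ℓ : ℝ) (n : ℕ) (hn : 0 < n) (h : tent (Real.exp ℓ / 3) n ≠ 0) :
    Real.exp ℓ / 9 < n := by
  have h1 := (tent_supp (Real.exp ℓ / 3) n (by positivity) (by exact_mod_cast hn) h).1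
  refine lt_of_le_of_lt ?_ h1
  have he : Real.exp 1 < 3 := by
    have := Real.exp_one_lt_d9; linarith
  rw [div_div]
  apply div_le_div_of_nonneg_left (Real.exp_pos _).le (by positivity)
  linarith

lemma wB_ne_zero {ℓ : ℝ} {B : ArithmeticFunction ℝ} {U n : ℕ} (h : wB ℓ B U n ≠ 0) :
    Real.exp ℓ / 9 < n ∧ ∃ k p : ℕ, B k ≠ 0 ∧ p.Prime ∧ U < p ∧ k * p = n := by
  unfold wB at h
  have h1 := left_ne_zero_of_mul h
  have h2 := right_ne_zero_of_mul h
  have hn : 0 < n := by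
    rcases Nat.eq_zero_or_pos n with h0 | h0
    · rw [h0] at h1; simp at h1
    · exact h0
  refine ⟨tent_big ℓ n hn h2, ?_⟩
  rw [ArithmeticFunction.mul_apply] at h1
  obtain ⟨x, hx, hne⟩ := Finset.exists_ne_zero_of_sum_ne_zero h1
  have h3 := left_ne_zero_of_mul hne
  have h4 := right_ne_zero_of_mul hne
  rw [thR_apply] at h4
  split_ifs at h4 with hp
  · exact ⟨x.1, x.2, h3, hp.1, hp.2, (Nat.mem_divisorsAntidiagonal.mp hx).1⟩
  · exact absurd rfl h4

lemma big_prime {ℓ : ℝ} {B : ArithmeticFunction ℝ} {y : ℕ}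
    (hbig : ∀ k : ℕ, B k ≠ 0 → (k : ℝ) * y * 9 < Real.exp ℓ) {n k p : ℕ} (hk : B k ≠ 0)
    (hkp : k * p = n) (hn : Real.exp ℓ / 9 < n) : y < p := by
  have h1 := hbig k hk
  by_contra hcon
  push Not at hcon
  have h2 : (n : ℝ) ≤ (k : ℝ) * y := by
    rw [← hkp]; push_cast
    apply mul_le_mul_of_nonneg_left _ (Nat.cast_nonneg _)
    exact_mod_cast hcon
  linarith

lemma wr_wB (ℓ : ℝ) (B : ArithmeticFunction ℝ) (U y r : ℕ)
    (hbig : ∀ k : ℕ, B k ≠ 0 → (k : ℝ) * y * 9 < Real.exp ℓ)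
    (hr : ∀ p, p.Prime → p ∣ r → p ≤ y) : wr (wB ℓ B U) r = wB ℓ (Bres B r) U := by
  funext n
  by_cases ht : tent (Real.exp ℓ / 3) n = 0
  · unfold wr wB
    rw [ht]; simp
  rcases Nat.eq_zero_or_pos n with h0 | hn
  · rw [h0]; unfold wr wB; simp
  have hbign := tent_big ℓ n hn ht
  unfold wr
  by_cases hc : Nat.Coprime n r
  · rw [if_pos hc]
    unfold wB
    congr 1
    rw [ArithmeticFunction.mul_apply, ArithmeticFunction.mul_apply]
    apply Finset.sum_congr rfl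
    intro x hx
    have hx' := (Nat.mem_divisorsAntidiagonal.mp hx).1
    rw [Bres_apply, if_pos (Nat.Coprime.coprime_dvd_left (Dvd.intro _ hx') hc)]
  · rw [if_neg hc]
    unfold wB
    have : (Bres B r * thR U) n = 0 := by
      rw [ArithmeticFunction.mul_apply]
      apply Finset.sum_eq_zero
      intro x hx
      have hx' := (Nat.mem_divisorsAntidiagonal.mp hx).1
      rw [Bres_apply, thR_apply]
      split_ifs with h1 h2
      · by_cases hB : B x.1 = 0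
        · rw [hB, zero_mul]
        · exfalso
          apply hc
          have h3 := big_prime hbig hB hx' hbign
          have h4 : Nat.Coprime x.2 r := by
            rw [Nat.Prime.coprime_iff_not_dvd h2.1]
            intro h5
            have := hr x.2 h2.1 h5
            omega
          rw [← hx']
          exact Nat.Coprime.mul_left h1 h4
      · simp
      · simp
      · simp
    rw [this, zero_mul]

lemma Sw_wB (ℓ : ℝ) (B : ArithmeticFunction ℝ) (U : ℕ) {q : ℕ} (ξ : DirichletCharacter ℂ q) :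
    Sw ⌊Real.exp ℓ⌋₊ (wB ℓ B U) ξ = ∑ n ∈ Finset.Icc 1 ⌊Real.exp ℓ⌋₊,
      (ξ (n : ℕ) * (toC B * thC U) n) * ((tent (Real.exp ℓ / 3) n : ℝ) : ℂ) := by
  unfold Sw wB
  rw [Icc_one_eq_Ioc]
  apply Finset.sum_congr rfl
  intro n _
  rw [toC_mul]
  push_cast
  ring

lemma count_dvd (N p : ℕ) (hp : 0 < p) : (#((Ioc 0 N).filter (fun n => p ∣ n)) : ℝ) ≤ (N : ℝ) / p := by
  have : #((Ioc 0 N).filter (fun n => p ∣ n)) = N / p := Nat.Ioc_filter_dvd_card_eq_div N p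
  rw [this]
  exact Nat.cast_div_le

lemma wB_diff (ℓ : ℝ) (hℓ : 0 ≤ ℓ) (B : ArithmeticFunction ℝ) (hB : ∀ n, 0 ≤ B n) (hB1 : ∀ n, B n ≤ 1)
    (U y : ℕ) (hbig : ∀ k : ℕ, B k ≠ 0 → (k : ℝ) * y * 9 < Real.exp ℓ) (Z : ℝ) (hZ : 0 < Z)
    (hBZ : ∀ k : ℕ, B k ≠ 0 → ∀ p, p.Prime → p ∣ k → Z ≤ p)
    (D : Finset ℕ) (hD : ∀ p ∈ D, p.Prime) (hDy : ∀ p ∈ D, p ≤ y) :
    ∑ n ∈ Ioc 0 ⌊Real.exp ℓ⌋₊, (wB ℓ B U n - wr (wB ℓ B U) (∏ p ∈ D, p) n) ≤
      ℓ * #D * (Real.exp ℓ / Z) := by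
  classical
  set N := ⌊Real.exp ℓ⌋₊ with hN
  have hpt : ∀ n ∈ Ioc 0 N, wB ℓ B U n - wr (wB ℓ B U) (∏ p ∈ D, p) n ≤
      ∑ p ∈ D.filter (fun p : ℕ => Z ≤ p), if p ∣ n then ℓ else 0 := by
    intro n hn
    have hnn : 0 ≤ ∑ p ∈ D.filter (fun p : ℕ => Z ≤ p), if p ∣ n then ℓ else 0 :=
      Finset.sum_nonneg (fun p _ => by split_ifs <;> linarith)
    unfold wr
    split_ifs with hc
    · rw [sub_self]; exact hnn
    · rw [sub_zero]
      by_cases h0 : wB ℓ B U n = 0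
      · rw [h0]; exact hnn
      · obtain ⟨h1, k, p3, hk, hp3, _, hkp⟩ := wB_ne_zero h0
        have h2 := big_prime hbig hk hkp h1
        -- find p ∈ D with p ∣ n
        have h3 : ∃ p ∈ D, p ∣ n := by
          by_contra hcon
          push Not at hcon
          apply hc
          apply Nat.Coprime.prod_right
          intro p hp
          exact ((Nat.Prime.coprime_iff_not_dvd (hD p hp)).mpr (hcon p hp)).symm
        obtain ⟨p, hp, hpn⟩ := h3
        have hpk : p ∣ k := by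
          rw [← hkp] at hpn
          rcases (Nat.Prime.dvd_mul (hD p hp)).mp hpn with h | h
          · exact h
          · exfalso
            have h4 := (Nat.prime_dvd_prime_iff_eq (hD p hp) hp3).mp h
            have h5 := hDy p hp
            omega
        have hZp := hBZ k hk p (hD p hp) hpk
        calc wB ℓ B U n ≤ ℓ := wB_le ℓ B hB hB1 U n hn
          _ = if p ∣ n then ℓ else 0 := by rw [if_pos hpn]
          _ ≤ _ := Finset.single_le_sum (f := fun p : ℕ => if p ∣ n then ℓ else 0)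
              (fun q _ => by split_ifs <;> linarith) (Finset.mem_filter.mpr ⟨hp, hZp⟩)
  refine (Finset.sum_le_sum hpt).trans ?_
  rw [Finset.sum_comm]
  calc ∑ p ∈ D.filter (fun p : ℕ => Z ≤ p), ∑ n ∈ Ioc 0 N, (if p ∣ n then ℓ else 0) ≤
      ∑ p ∈ D.filter (fun p : ℕ => Z ≤ p), ℓ * (Real.exp ℓ / Z) := by
        apply Finset.sum_le_sum
        intro p hp
        rw [Finset.mem_filter] at hp
        rw [← Finset.sum_filter, Finset.sum_const, nsmul_eq_mul, mul_comm]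
        apply mul_le_mul_of_nonneg_left _ hℓ
        have hp0 : 0 < p := (hD p hp.1).pos
        refine (count_dvd N p hp0).trans ?_
        apply div_le_div₀ (Real.exp_pos _).le _ hZ hp.2
        exact Nat.floor_le (Real.exp_pos _).le
    _ = (#(D.filter (fun p : ℕ => Z ≤ p)) : ℝ) * (ℓ * (Real.exp ℓ / Z)) := by
        rw [Finset.sum_const, nsmul_eq_mul]
    _ ≤ (#D : ℝ) * (ℓ * (Real.exp ℓ / Z)) := by
        apply mul_le_mul_of_nonneg_right _ (by positivity)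
        exact_mod_cast Finset.card_le_card (Finset.filter_subset _ _)
    _ = _ := by ring

open scoped Classical in
/-- **Total remainder, products, level one half.** -/
theorem RB_total (κ : ℝ) (hκ : 0 < κ) (hκ1 : κ ≤ 1 / 4) (A : ℝ) (hA : 0 ≤ A) :
    ∃ L0 : ℝ, ∀ ℓ : ℝ, L0 ≤ ℓ → ∀ q₁ : ℕ, SmallProp (A + 1 + 4) (A + 1 + 3 + 12) ℓ q₁ →
    ∀ W : ℕ, 1 ≤ W → Real.log W ≤ ℓ / (2 * (Real.log ℓ) ^ 2) →
    ∀ y : ℕ, (∀ p, p.Prime → p ∣ W → p ≤ y) →
    ∀ B : ArithmeticFunction ℝ, (∀ n, 0 ≤ B n) → (∀ n, B n ≤ 1) →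
    (∀ n : ℕ, Real.exp (0.74 * ℓ) < n → B n = 0) → (∀ n, n ≤ ⌊Real.exp (κ / 4 * ℓ)⌋₊ → B n = 0) →
    (∀ k : ℕ, B k ≠ 0 → (k : ℝ) * y * 9 < Real.exp ℓ) →
    (∀ k : ℕ, B k ≠ 0 → ∀ p, p.Prime → p ∣ k → Real.exp (ℓ / 9) ≤ p) →
    (∀ k : ℕ, B k ≠ 0 → Nat.Coprime k W) →
    ∀ P : Finset ℕ, (∀ p ∈ P, p.Prime) → (∀ p ∈ P, p ≤ y) →
    (∀ p ∈ P, ¬ p ∣ W) → (∀ D ⊆ P, ¬ q₁ ∣ W * ∏ p ∈ D, p) →
    ∀ (A0 : ℕ) (b : ℕ → ℕ), Nat.Coprime A0 W → (∀ p ∈ P, ¬ p ∣ b p) →
    ∑ D ∈ lev P (Real.exp ((1 / 2 - κ) * ℓ)),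
      |RD ((Ioc 0 ⌊Real.exp ℓ⌋₊).filter (fun n => n ≡ A0 [MOD W])) (wB ℓ B ⌊Real.exp (κ / 4 * ℓ)⌋₊)
        (cb b)
        ((∑ n ∈ Ioc 0 ⌊Real.exp ℓ⌋₊, wB ℓ B ⌊Real.exp (κ / 4 * ℓ)⌋₊ n) / (W.totient : ℝ))
        (fun p => 1 / ((p : ℝ) - 1)) D| ≤
      Real.exp ℓ * ℓ ^ (-A) / (W.totient : ℝ) * ∏ p ∈ P, (1 + 1 / ((p : ℝ) - 1)) := by
  obtain ⟨L1, hL1⟩ := ANB κ hκ hκ1 (A + 1) (by linarith)
  obtain ⟨L2, hL2⟩ := Filter.eventually_atTop.mp
    ((ev_exp_pow (1 / 9) (A + 2) 2 (by norm_num) (by norm_num)).and (eventually_ge_atTop (2 : ℝ)))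
  refine ⟨max L1 L2, fun ℓ hℓ q₁ hq W hW1 hW y hWy B hB0 hB1 hB2 hB3 hbig hBZ hBW P hP hPy hPW hPq A0 b
    hA0 hb => ?_⟩
  obtain ⟨cxp0, hℓ2⟩ := hL2 ℓ ((le_max_right _ _).trans hℓ)
  have hℓ0 : 0 < ℓ := by linarith
  have hφpos : (0 : ℝ) < (W.totient : ℝ) := by exact_mod_cast Nat.totient_pos.mpr hW1
  set N := ⌊Real.exp ℓ⌋₊ with hN
  set U := ⌊Real.exp (κ / 4 * ℓ)⌋₊ with hU
  set Y := Real.exp ((1 / 2 - κ) * ℓ) with hY
  have hYpos : 0 < Y := Real.exp_pos _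
  have hYhalf : Y ≤ Real.exp (ℓ / 2) := by
    apply Real.exp_le_exp.mpr
    nlinarith
  have hmem : ∀ D ∈ lev P Y, D ⊆ P ∧ ((∏ p ∈ D, p : ℕ) : ℝ) ≤ Y := fun D hD => mem_lev.mp hD
  have hDp : ∀ D ∈ lev P Y, ∀ p ∈ D, p.Prime := fun D hD p hp => hP p ((hmem D hD).1 hp)
  have hg0P : ∀ p ∈ P, 0 ≤ 1 / ((p : ℝ) - 1) := by
    intro p hp
    have : (2 : ℝ) ≤ p := by exact_mod_cast (hP p hp).two_le
    exact div_nonneg zero_le_one (by linarith)
  have hg0 : ∀ D ∈ lev P Y, 0 ≤ ∏ p ∈ D, 1 / ((p : ℝ) - 1) :=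
    fun D hD => Finset.prod_nonneg (fun p hp => hg0P p ((hmem D hD).1 hp))
  have hgl : ∀ D ∈ lev P Y, ∏ p ∈ D, 1 / ((p : ℝ) - 1) ≤ ℓ ^ 2 / ((∏ p ∈ D, p : ℕ) : ℝ) :=
    fun D hD => gD_le D (hDp D hD) ℓ hℓ2 ((hmem D hD).2.trans hYhalf)
  have hwr : ∀ D ∈ lev P Y, wr (wB ℓ B U) (∏ p ∈ D, p) = wB ℓ (Bres B (∏ p ∈ D, p)) U := by
    intro D hD
    exact wr_wB ℓ B U y _ hbig (prime_dvd_prod_le D (hDp D hD) y (fun p hp => hPy p ((hmem D hD).1 hp)))
  set H : ℝ := Real.exp ℓ * (ℓ ^ (-A) / 2) with hH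
  have hHpos : 0 ≤ H := by positivity
  have key : ∀ R ∈ lev P Y, ∑ D ∈ lev P Y, (∏ p ∈ D, 1 / ((p : ℝ) - 1)) *
      ∑ ξ ∈ fam W (∏ p ∈ D, p), ‖Sw N (wr (wB ℓ B U) (∏ p ∈ R, p)) ξ‖ ≤ H := by
    intro R hR
    rw [hwr R hR]
    set B' := Bres B (∏ p ∈ R, p) with hB'
    have hB'le : ∀ n, |B' n| ≤ |B n| := by
      intro n
      rw [hB', Bres_apply]
      split_ifs
      · exact le_rfl
      · rw [abs_zero]; exact abs_nonneg _
    have hinj := prod_injOn (lev P Y) hDp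
    set S : (d : ℕ) → ℝ := fun d => ∑ ξ ∈ fam W d, ‖Sw N (wB ℓ B' U) ξ‖ with hS
    have h2 : ∀ D' ∈ lev P Y, (∏ p ∈ D', 1 / ((p : ℝ) - 1)) * S (∏ p ∈ D', p) =
        (fun d : ℕ => 1 / (d.totient : ℝ) * S d) (∏ p ∈ D', p) := by
      intro D' hD'
      simp only
      rw [totient_prod_primes D' (hDp D' hD'), Finset.prod_div_distrib, Finset.prod_const_one]
    have h2' : ∑ D ∈ lev P Y, (∏ p ∈ D, 1 / ((p : ℝ) - 1)) *
        ∑ ξ ∈ fam W (∏ p ∈ D, p), ‖Sw N (wB ℓ B' U) ξ‖ =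
        ∑ D ∈ lev P Y, (fun d : ℕ => 1 / (d.totient : ℝ) * S d) (∏ p ∈ D, p) :=
      Finset.sum_congr rfl h2
    rw [h2', ← Finset.sum_image (f := fun d : ℕ => 1 / (d.totient : ℝ) * S d) hinj]
    have h3 := hL1 ℓ ((le_max_left _ _).trans hℓ) q₁ hq W hW1 hW
      ((lev P Y).image (fun D : Finset ℕ => ∏ p ∈ D, p))
      (fun d => 1 / (d.totient : ℝ)) (by
        intro d hd
        rw [Finset.mem_image] at hd
        obtain ⟨D, hD, rfl⟩ := hd
        obtain ⟨k1, k2⟩ := hmem D hD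
        have kp := hDp D hD
        refine ⟨Finset.prod_pos (fun p hp => (kp p hp).pos), k2, ?_, hPq D k1, by positivity, ?_⟩
        · apply Nat.Coprime.prod_left
          intro p hp
          exact (Nat.Prime.coprime_iff_not_dvd (kp p hp)).mpr (hPW p (k1 hp))
        · have h5 := hgl D hD
          rw [Finset.prod_div_distrib, Finset.prod_const_one, ← totient_prod_primes D kp] at h5
          exact h5) (toC B') (by
        intro n
        rw [toC_apply, Complex.norm_real, Real.norm_eq_abs]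
        refine (hB'le n).trans ?_
        rw [abs_of_nonneg (hB0 n)]; exact hB1 n) (by
        intro n hn
        rw [toC_apply]
        have h5 := hB'le n
        rw [hB2 n hn, abs_zero] at h5
        have h6 : B' n = 0 := abs_eq_zero.mp (le_antisymm h5 (abs_nonneg _))
        rw [h6]; simp) (by
        intro n hn
        rw [toC_apply]
        have h5 := hB'le n
        rw [hB3 n hn, abs_zero] at h5
        have h6 : B' n = 0 := abs_eq_zero.mp (le_antisymm h5 (abs_nonneg _))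
        rw [h6]; simp)
    refine le_trans (le_of_eq ?_) (h3.trans ?_)
    · apply Finset.sum_congr rfl
      intro d _
      rw [hS]
      simp only
      congr 1
      apply Finset.sum_congr rfl
      intro ξ _
      rw [hN, Sw_wB]
    · rw [hH]
      apply mul_le_mul_of_nonneg_left _ (Real.exp_pos _).le
      rw [show -(A + 1) = -A - 1 by ring, Real.rpow_sub hℓ0, Real.rpow_one]
      exact div_le_div_of_nonneg_left (by positivity) (by norm_num) hℓ2
  have hwW : ∀ n, wB ℓ B U n ≠ 0 → Nat.Coprime n W := by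
    intro n hn
    obtain ⟨h1, k, p3, hk, hp3, _, hkp⟩ := wB_ne_zero hn
    have h2 := big_prime hbig hk hkp h1
    rw [← hkp]
    apply Nat.Coprime.mul_left (hBW k hk)
    rw [Nat.Prime.coprime_iff_not_dvd hp3]
    intro h3
    have := hWy p3 hp3 h3
    omega
  have h := EB2 N (wB ℓ B U) (wB_nonneg ℓ B hB0 U) W A0 b P hP hW1 hwW hPW hA0 hb (lev P Y)
    (Finset.filter_subset _ _) (lev_down P hP Y) H hHpos key
  refine h.trans ?_
  have hdiff : ∑ D ∈ lev P Y, (∏ p ∈ D, 1 / ((p : ℝ) - 1)) *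
        ∑ n ∈ Ioc 0 N, (wB ℓ B U n - wr (wB ℓ B U) (∏ p ∈ D, p) n) ≤
      (∏ p ∈ P, (1 + 1 / ((p : ℝ) - 1))) * H := by
    calc ∑ D ∈ lev P Y, (∏ p ∈ D, 1 / ((p : ℝ) - 1)) *
        ∑ n ∈ Ioc 0 N, (wB ℓ B U n - wr (wB ℓ B U) (∏ p ∈ D, p) n) ≤
        ∑ D ∈ lev P Y, (∏ p ∈ D, 1 / ((p : ℝ) - 1)) * H := by
          apply Finset.sum_le_sum
          intro D hD
          apply mul_le_mul_of_nonneg_left _ (hg0 D hD)
          refine (wB_diff ℓ hℓ0.le B hB0 hB1 U y hbig (Real.exp (ℓ / 9)) (Real.exp_pos _) hBZ D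
            (hDp D hD) (fun p hp => hPy p ((hmem D hD).1 hp))).trans ?_
          have h3 := card_le_log D (fun p hp => (hDp D hD p hp).two_le) ℓ ((hmem D hD).2.trans hYhalf)
          have h4 : (#D : ℝ) ≤ ℓ := by linarith
          calc ℓ * #D * (Real.exp ℓ / Real.exp (ℓ / 9)) ≤ ℓ * ℓ * (Real.exp ℓ / Real.exp (ℓ / 9)) := by
                gcongr
            _ = Real.exp ℓ * (ℓ ^ (-A) / 2) * (2 * ℓ ^ (A + 2) * Real.exp (-(1 / 9 * ℓ))) := by
                have e1 : ℓ ^ (A + 2) = ℓ ^ A * ℓ ^ 2 := by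
                  rw [Real.rpow_add hℓ0]
                  congr 1
                  norm_cast
                have e2 : ℓ ^ (-A) * ℓ ^ A = 1 := by
                  rw [← Real.rpow_add hℓ0]; simp
                have e3 : Real.exp ℓ / Real.exp (ℓ / 9) = Real.exp ℓ * Real.exp (-(1 / 9 * ℓ)) := by
                  rw [Real.exp_neg, div_eq_mul_inv]; congr 3; ring
                rw [e1, e3]
                calc ℓ * ℓ * (Real.exp ℓ * Real.exp (-(1 / 9 * ℓ))) =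
                    ℓ * ℓ * (Real.exp ℓ * Real.exp (-(1 / 9 * ℓ))) * 1 := by ring
                  _ = ℓ * ℓ * (Real.exp ℓ * Real.exp (-(1 / 9 * ℓ))) * (ℓ ^ (-A) * ℓ ^ A) := by
                      rw [e2]
                  _ = _ := by ring
            _ ≤ Real.exp ℓ * (ℓ ^ (-A) / 2) * 1 :=
                mul_le_mul_of_nonneg_left cxp0 (by positivity)
            _ = H := by rw [mul_one]
      _ = (∑ D ∈ lev P Y, ∏ p ∈ D, 1 / ((p : ℝ) - 1)) * H := by rw [Finset.sum_mul]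
      _ ≤ _ := by
          apply mul_le_mul_of_nonneg_right _ hHpos
          rw [Finset.prod_one_add]
          apply Finset.sum_le_sum_of_subset_of_nonneg (Finset.filter_subset _ _)
          intro D hD _
          exact Finset.prod_nonneg (fun p hp => hg0P p (Finset.mem_powerset.mp hD hp))
  calc H / (W.totient : ℝ) * ∏ p ∈ P, (1 + 1 / ((p : ℝ) - 1)) +
      1 / (W.totient : ℝ) * ∑ D ∈ lev P Y, (∏ p ∈ D, 1 / ((p : ℝ) - 1)) *
        ∑ n ∈ Ioc 0 N, (wB ℓ B U n - wr (wB ℓ B U) (∏ p ∈ D, p) n)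
      ≤ H / (W.totient : ℝ) * ∏ p ∈ P, (1 + 1 / ((p : ℝ) - 1)) +
      1 / (W.totient : ℝ) * ((∏ p ∈ P, (1 + 1 / ((p : ℝ) - 1))) * H) := by
        apply add_le_add le_rfl
        exact mul_le_mul_of_nonneg_left hdiff (by positivity)
    _ = _ := by rw [hH]; ring

end Pool.Agent.H16
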