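import Pool.Agent.H16.FL

/-!
Weighted sieve of arbitrary dimension `K`: constants `2` and `1/2`, level `y ^ M` with `M = M(K)`.
-/

set_option autoImplicit false

open Finset Real

namespace Pool.Agent.H16

/-- cost of the bucket with the parameter `i`, dimension `K` -/
noncomputable def costK (K : ℝ) (i : ℕ) : ℝ :=
  Real.exp (2 * K) * (K ^ (2 * i + 1) / ((2 * i + 1).factorial : ℝ))

lemma costK_nonneg {K : ℝ} (hK : 0 ≤ K) (i : ℕ) : 0 ≤ costK K i := by unfold costK; positivity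

lemma summable_costK (K : ℝ) : Summable (costK K) := by
  have h := Real.summable_pow_div_factorial K
  have h2 : Function.Injective (fun i : ℕ => 2 * i + 1) := by
    intro a b hab
    simp only at hab
    omega
  exact (h.comp_injective h2).mul_left (Real.exp (2 * K))

lemma exists_bK {K : ℝ} (hK : 0 ≤ K) : ∃ b : ℕ, ∀ r : ℕ, ∑ j ∈ range r, costK K (j + b) ≤ 1 / 4 := by
  have hs := summable_costK K
  have ht := tendsto_sum_nat_add (costK K)
  have hev := ht.eventually (ge_mem_nhds (show (0 : ℝ) < 1 / 4 by norm_num))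
  obtain ⟨b, hb⟩ := hev.exists
  refine ⟨b, fun r => le_trans ?_ hb⟩
  exact ((summable_nat_add_iff b).mpr hs).sum_le_tsum (range r) (fun j _ => costK_nonneg hK _)

section
variable (z y : ℕ) (hz : 100 ≤ Real.log z) (hzy : z ≤ y)
  (P : Finset ℕ) (hP : ∀ p ∈ P, p.Prime) (hPz : ∀ p ∈ P, z < p) (hPy : ∀ p ∈ P, p ≤ y)
  (K : ℝ) (hK : 0 ≤ K) (hKz : 2 * K ≤ z)
  (g : ℕ → ℝ) (hg0 : ∀ p ∈ P, 0 ≤ g p) (hgK : ∀ p ∈ P, g p ≤ K / p)
include hz hzy hP hPz hK hKz hg0 hgK

omit hKz hg0 in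
lemma bucketK_sum_g (j : ℕ) (hj : (z : ℝ) + 1 ≤ (y : ℝ) ^ tw j) :
    ∑ p ∈ bucketw P z y j, g p ≤ K := by
  have h := bucketw_sum_inv P hP z y j hz hzy hj
  have h1 : ∑ p ∈ bucketw P z y j, g p ≤ K * ∑ p ∈ bucketw P z y j, (1 : ℝ) / p := by
    rw [Finset.mul_sum]
    apply Finset.sum_le_sum
    intro p hp
    unfold bucketw at hp
    rw [Finset.mem_filter] at hp
    rw [mul_one_div]
    exact hgK p hp.1
  have h2 : K * ∑ p ∈ bucketw P z y j, (1 : ℝ) / p ≤ K * 1 :=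
    mul_le_mul_of_nonneg_left (by linarith) hK
  linarith

omit hzy hP hg0 in
lemma gK_half (p : ℕ) (hp : p ∈ P) : g p ≤ 1 / 2 := by
  have h1 := hgK p hp
  have h2 : (z : ℝ) < p := by exact_mod_cast hPz p hp
  have h3 := zw_large z hz
  have h4 : K / p ≤ 1 / 2 := by
    rw [div_le_div_iff₀ (by linarith) (by norm_num)]
    linarith
  linarith

lemma bucketK_prod_g (j : ℕ) (hj : (z : ℝ) + 1 ≤ (y : ℝ) ^ tw j) :
    Real.exp (-(2 * K)) ≤ ∏ p ∈ bucketw P z y j, (1 - g p) := by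
  have h := bucketK_sum_g z y hz hzy P hP hPz K hK g hgK j hj
  have h1 : ∏ p ∈ bucketw P z y j, Real.exp (-(g p * 2)) ≤
      ∏ p ∈ bucketw P z y j, (1 - g p) := by
    apply Finset.prod_le_prod
    · intro p _; positivity
    · intro p hp
      unfold bucketw at hp
      rw [Finset.mem_filter] at hp
      have hx1 := gK_half z hz P hPz K hK hKz g hgK p hp.1
      have hx0 := hg0 p hp.1
      set x : ℝ := g p with hx
      have hx2 : 0 < 1 - x := by linarith
      have h2 := Real.one_sub_inv_le_log_of_pos hx2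
      rw [← Real.le_log_iff_exp_le hx2]
      refine le_trans ?_ h2
      have h3 : 1 - (1 - x)⁻¹ = -(x / (1 - x)) := by field_simp; ring
      rw [h3]
      apply neg_le_neg
      rw [div_le_iff₀ hx2]
      nlinarith
  rw [← Real.exp_sum] at h1
  refine le_trans ?_ h1
  rw [Finset.sum_neg_distrib, ← Finset.sum_mul]
  apply Real.exp_le_exp.mpr
  linarith

lemma bucketK_cost (b j : ℕ) (hj : (z : ℝ) + 1 ≤ (y : ℝ) ^ tw j) :
    es (bucketw P z y j) g (2 * (j + b) + 1) / ∏ p ∈ bucketw P z y j, (1 - g p) ≤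
      costK K (j + b) := by
  have h1 := bucketK_sum_g z y hz hzy P hP hPz K hK g hgK j hj
  have h2 := bucketK_prod_g z y hz hzy P hP hPz K hK hKz g hg0 hgK j hj
  have hg0' : ∀ p ∈ bucketw P z y j, 0 ≤ g p := by
    intro p hp
    unfold bucketw at hp
    exact hg0 p (Finset.mem_filter.mp hp).1
  have h3 := es_le_pow (bucketw P z y j) g hg0' (2 * (j + b) + 1)
  have h0 : 0 ≤ ∑ p ∈ bucketw P z y j, g p := Finset.sum_nonneg hg0'
  have h4 : (∑ p ∈ bucketw P z y j, g p) ^ (2 * (j + b) + 1) / ((2 * (j + b) + 1).factorial : ℝ)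
      ≤ K ^ (2 * (j + b) + 1) / ((2 * (j + b) + 1).factorial : ℝ) := by gcongr
  calc es (bucketw P z y j) g (2 * (j + b) + 1) / ∏ p ∈ bucketw P z y j, (1 - g p)
      ≤ (K ^ (2 * (j + b) + 1) / ((2 * (j + b) + 1).factorial : ℝ)) / Real.exp (-(2 * K)) := by
        apply div_le_div₀ (by positivity) (h3.trans h4) (Real.exp_pos _) h2
    _ = costK K (j + b) := by
        unfold costK
        rw [Real.exp_neg, div_inv_eq_mul]; ring

end

/-- **Weighted sieve of dimension `K`.** -/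
theorem wsieveK (K : ℝ) (hK : 0 ≤ K) : ∃ M : ℕ, ∀ {ι : Type} (S : Finset ι) (a : ι → ℝ)
    (c : ι → ℕ → ℝ) (X : ℝ) (z y : ℕ) (_ : 100 ≤ Real.log z) (_ : 2 * K ≤ z) (_ : z ≤ y)
    (P : Finset ℕ) (_ : ∀ p ∈ P, p.Prime) (_ : ∀ p ∈ P, z < p) (_ : ∀ p ∈ P, p ≤ y)
    (g : ℕ → ℝ) (_ : ∀ p ∈ P, 0 ≤ g p) (_ : ∀ p ∈ P, g p ≤ K / p)
    (_ : ∀ n ∈ S, 0 ≤ a n) (_ : ∀ n ∈ S, ∀ p ∈ P, 0 ≤ c n p)
    (_ : ∀ n ∈ S, ∀ p ∈ P, c n p ≤ 1) (_ : 0 ≤ X),
    (∑ n ∈ S, a n * ∏ p ∈ P, (1 - c n p) ≤ 2 * (X * ∏ p ∈ P, (1 - g p)) +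
      ∑ D ∈ P.powerset.filter (fun D => (∏ p ∈ D, p) ≤ y ^ M), |RD S a c X g D|) ∧
    ((1 / 2) * (X * ∏ p ∈ P, (1 - g p)) - 2 * Real.log y *
      ∑ D ∈ P.powerset.filter (fun D => (∏ p ∈ D, p) ≤ y ^ M), |RD S a c X g D| ≤
      ∑ n ∈ S, a n * ∏ p ∈ P, (1 - c n p)) := by
  classical
  obtain ⟨k, hk⟩ := exists_bK hK
  refine ⟨4 * k + 5, ?_⟩
  intro ι S a c X z y hz hKz hzy P hP hPz hPy g hg0 hgK ha hc0 hc1 hX
  have hz0 := zw_pos z hz
  have hy1 : 1 ≤ y := by
    have : 0 < z := by exact_mod_cast hz0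
    omega
  have hy0 : (0 : ℝ) < y := hz0.trans_le (by exact_mod_cast hzy)
  have hlogzy : Real.log z ≤ Real.log y := Real.log_le_log hz0 (by exact_mod_cast hzy)
  obtain ⟨r, hr, hmin, hrle⟩ := exists_rw z y hz hzy
  set 𝒜 := P.powerset.filter (fun D => (∏ p ∈ D, p) ≤ y ^ (4 * k + 5)) with h𝒜
  set E := ∑ D ∈ 𝒜, |RD S a c X g D| with hE
  have hE0 : 0 ≤ E := Finset.sum_nonneg (fun D _ => abs_nonneg _)
  let J := range r
  let B : ℕ → Finset ℕ := fun j => bucketw P z y j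
  let b : ℕ → ℕ := fun j => 2 * (j + k)
  have hBP : ∀ j ∈ J, ∀ p ∈ B j, p ∈ P := by
    intro j _ p hp
    exact (Finset.mem_filter.mp hp).1
  have hdisj : ∀ i ∈ J, ∀ j ∈ J, i ≠ j → Disjoint (B i) (B j) :=
    fun i _ j _ hij => bucketw_disjoint P z y hy1 i j hij
  have hprod : ∀ h : ℕ → ℝ, ∏ j ∈ J, ∏ p ∈ B j, h p = ∏ p ∈ P, h p := by
    intro h
    rw [← Finset.prod_biUnion (fun i hi j hj hij => hdisj i hi j hj hij)]
    congr 1
    ext p
    rw [Finset.mem_biUnion]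
    constructor
    · rintro ⟨j, hj, hp⟩
      exact hBP j hj p hp
    · intro hp
      exact exists_bucketw P z y r hzy hr p hp (hPz p hp) (hPy p hp)
  have hb : ∀ j ∈ J, Even (b j) := fun j _ => ⟨j + k, by simp only [b]; ring⟩
  have hg1 : ∀ j ∈ J, ∀ p ∈ B j, g p < 1 := by
    intro j hj p hp
    have := gK_half z hz P hPz K hK hKz g hgK p (hBP j hj p hp)
    linarith
  have hsumw : ∑ j ∈ J, ((b j : ℕ) : ℝ) * tw j ≤ 4 * k + 4 := by
    have h1 := sum_bk k r
    have h2 : 0 ≤ (4 * k + 4 + 4 * (r : ℝ)) * tw r := by have := tw_pos r; positivity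
    have h3 : ∑ j ∈ J, ((b j : ℕ) : ℝ) * tw j = ∑ j ∈ range r, (2 * ((j : ℝ) + k)) * tw j := by
      apply Finset.sum_congr rfl
      intro j _
      simp only [b]; push_cast; ring
    rw [h3, h1]; linarith
  have hlev : ∀ (D : Finset ℕ), D ⊆ P → ((∏ p ∈ D, p : ℕ) : ℝ) ≤ (y : ℝ) ^ (4 * k + 5 : ℝ) → D ∈ 𝒜 := by
    intro D hD hDp
    rw [h𝒜, Finset.mem_filter, Finset.mem_powerset]
    refine ⟨hD, ?_⟩
    have e : ((y : ℝ) ^ (4 * k + 5 : ℝ)) = ((y ^ (4 * k + 5) : ℕ) : ℝ) := by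
      rw [Nat.cast_pow, ← Real.rpow_natCast]; push_cast; rfl
    rw [e] at hDp
    exact_mod_cast hDp
  have hlowcard : ∀ (Q : Finset ℕ) (m : ℕ) (d : Finset ℕ), d ∈ low Q m → #d ≤ m := by
    intro Q m d hd
    unfold low at hd
    obtain ⟨i, hi, hdi⟩ := Finset.mem_biUnion.mp hd
    rw [(Finset.mem_powersetCard.mp hdi).2]
    have := Finset.mem_range.mp hi
    omega
  have hA1 : ∀ F ∈ J.pi (fun j => low (B j) (b j)), J.attach.biUnion (fun j => F j.1 j.2) ∈ 𝒜 := by
    intro F hF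
    rw [Finset.mem_pi] at hF
    have h := level_aux z y hz hzy P hP hPz hPy r hr hmin b (4 * k + 5) (by linarith) F (fun j hj =>
      ⟨low_subset _ _ _ (hF j hj), hlowcard _ _ _ (hF j hj)⟩)
    exact hlev _ h.1 h.2
  have hA2 : ∀ j0 ∈ J, ∀ F ∈ J.pi (fun j => if j = j0 then (B j).powersetCard (b j + 1)
      else low (B j) (b j)), J.attach.biUnion (fun j => F j.1 j.2) ∈ 𝒜 := by
    intro j0 hj0 F hF
    rw [Finset.mem_pi] at hF
    have hsum2 : ∑ j ∈ range r, (((if j = j0 then b j + 1 else b j : ℕ)) : ℝ) * tw j ≤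
        4 * k + 5 := by
      have h1 : ∀ j ∈ range r, (((if j = j0 then b j + 1 else b j : ℕ)) : ℝ) * tw j
          = (b j : ℝ) * tw j + if j = j0 then tw j else 0 := by
        intro j _
        split_ifs
        · push_cast; ring
        · push_cast; ring
      rw [Finset.sum_congr rfl h1, Finset.sum_add_distrib, Finset.sum_ite_eq' (range r) j0 tw,
        if_pos hj0]
      have h2 : tw j0 ≤ 1 := by
        have := tw_antitone (Nat.zero_le j0)
        rwa [tw_zero] at this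
      linarith
    have h := level_aux z y hz hzy P hP hPz hPy r hr hmin
      (fun j => if j = j0 then b j + 1 else b j) (4 * k + 5) hsum2 F (fun j hj => by
        have := hF j hj
        by_cases hjj : j = j0
        · rw [if_pos hjj] at this
          simp only [if_pos hjj]
          obtain ⟨h1, h2⟩ := Finset.mem_powersetCard.mp this
          exact ⟨h1, h2.le⟩
        · rw [if_neg hjj] at this
          simp only [if_neg hjj]
          exact ⟨low_subset _ _ _ this, hlowcard _ _ _ this⟩)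
    exact hlev _ h.1 h.2
  have hV : ∀ j ∈ J, 0 < ∏ p ∈ B j, (1 - g p) := fun j hj =>
    Finset.prod_pos (fun p hp => by linarith [hg1 j hj p hp])
  have hcost : ∀ j ∈ J, es (B j) g (b j + 1) / ∏ p ∈ B j, (1 - g p) ≤ costK K (j + k) := fun j hj =>
    bucketK_cost z y hz hzy P hP hPz K hK hKz g hg0 hgK k j (hmin j (Finset.mem_range.mp hj))
  have hsumcost : ∑ j ∈ J, es (B j) g (b j + 1) / ∏ p ∈ B j, (1 - g p) ≤ 1 / 4 :=
    (Finset.sum_le_sum hcost).trans (hk r)
  have hPnn : 0 ≤ ∏ p ∈ P, (1 - g p) := by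
    apply Finset.prod_nonneg
    intro p hp
    have := gK_half z hz P hPz K hK hKz g hgK p hp
    linarith
  have hXP : 0 ≤ X * ∏ p ∈ P, (1 - g p) := mul_nonneg hX hPnn
  constructor
  · have h := upperW S a c X g J B b hb hdisj ha (fun n hn j hj p hp => hc0 n hn p (hBP j hj p hp))
      (fun n hn j hj p hp => hc1 n hn p (hBP j hj p hp)) hX
      (fun j hj p hp => hg0 p (hBP j hj p hp)) hg1 𝒜 hA1
    simp_rw [hprod] at h
    refine h.trans ?_
    have h2 : ∏ j ∈ J, (∏ p ∈ B j, (1 - g p) + es (B j) g (b j + 1)) ≤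
        2 * ∏ p ∈ P, (1 - g p) := by
      calc ∏ j ∈ J, (∏ p ∈ B j, (1 - g p) + es (B j) g (b j + 1))
          ≤ ∏ j ∈ J, ((∏ p ∈ B j, (1 - g p)) * Real.exp (costK K (j + k))) := by
            apply Finset.prod_le_prod
            · intro j hj
              have := hV j hj
              have h3 := es_nonneg (B j) g (fun p hp => hg0 p (hBP j hj p hp)) (b j + 1)
              linarith
            · intro j hj
              have h3 := hcost j hj
              rw [div_le_iff₀ (hV j hj)] at h3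
              have h4 := Real.add_one_le_exp (costK K (j + k))
              have h5 := hV j hj
              nlinarith
        _ = (∏ p ∈ P, (1 - g p)) * Real.exp (∑ j ∈ J, costK K (j + k)) := by
            rw [Finset.prod_mul_distrib, hprod, Real.exp_sum]
        _ ≤ (∏ p ∈ P, (1 - g p)) * 2 := by
            apply mul_le_mul_of_nonneg_left _ hPnn
            calc Real.exp (∑ j ∈ J, costK K (j + k)) ≤ Real.exp (1 / 4) :=
                  Real.exp_le_exp.mpr (hk r)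
              _ ≤ 1 + 2 * (1 / 4) := exp_le_one_add_two _ (by norm_num) (by norm_num)
              _ ≤ 2 := by norm_num
        _ = _ := by ring
    have h3 := mul_le_mul_of_nonneg_left h2 hX
    have h4 : X * (2 * ∏ p ∈ P, (1 - g p)) = 2 * (X * ∏ p ∈ P, (1 - g p)) := by ring
    rw [h4] at h3
    linarith
  · have h := lowerW S a c X g J B b hb hdisj ha (fun n hn j hj p hp => hc0 n hn p (hBP j hj p hp))
      (fun n hn j hj p hp => hc1 n hn p (hBP j hj p hp)) hX
      (fun j hj p hp => hg0 p (hBP j hj p hp)) hg1 𝒜 hA1 hA2 (by linarith)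
    simp_rw [hprod] at h
    refine le_trans ?_ h
    have hJ : (1 + (#J : ℝ)) ≤ 2 * Real.log y := by
      simp only [J, Finset.card_range]
      linarith
    have h6 : (1 + (#J : ℝ)) * E ≤ 2 * Real.log y * E := mul_le_mul_of_nonneg_right hJ hE0
    have h7 : (1 / 2) * (X * ∏ p ∈ P, (1 - g p)) ≤ X * (∏ p ∈ P, (1 - g p)) *
        (1 - ∑ j ∈ J, es (B j) g (b j + 1) / ∏ p ∈ B j, (1 - g p)) := by
      rw [mul_comm (1 / 2)]
      exact mul_le_mul_of_nonneg_left (by linarith) hXP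
    linarith

end Pool.Agent.H16
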