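import Pool.Agent.H16.CoverERL

/-!
Covering with finitely many protected points: Rankin bound with a general exponent, the sifted set
for arbitrary default classes, choice of the centre, combinatorial core.
-/

set_option autoImplicit false

open Finset Real

namespace Pool.Agent.H16

/-- Rankin bound. -/
theorem card_smBK : ∃ C : ℝ, 0 < C ∧ ∀ (K t w Q : ℕ) (η : ℝ), 256 ≤ w → 0 < η → η ≤ 1 / 4 →
    Q ≠ 0 → Q ≤ t ^ K → 1 ≤ t → (#(smB t w Q) : ℝ) ≤
      C * Real.log w * (t : ℝ) ^ (1 - η) *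
        Real.exp (2 * (w : ℝ) ^ η + (K : ℝ) * (Real.log t / Real.log w)) := by
  classical
  have hsummable : Summable (fun n : ℕ => (n : ℝ) ^ (-(3 / 2 : ℝ))) := by
    rw [Real.summable_nat_rpow]; norm_num
  set C2 : ℝ := ∑' n : ℕ, (n : ℝ) ^ (-(3 / 2 : ℝ)) with hC2
  have hC2nn : 0 ≤ C2 := tsum_nonneg (fun n => by positivity)
  refine ⟨Real.exp (10 + 2 * C2), Real.exp_pos _, ?_⟩
  intro K t w Q η hw hη0 hη1 hQ0 hQ ht
  have hw' : (256 : ℝ) ≤ w := by exact_mod_cast hw
  have hw0 : (0 : ℝ) < w := by linarith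
  have hlogw : 0 < Real.log w := Real.log_pos (by linarith)
  have ht' : (1 : ℝ) ≤ t := by exact_mod_cast ht
  have ht0 : (0 : ℝ) < t := by linarith
  have hlogt : 0 ≤ Real.log t := Real.log_nonneg ht'
  set σ : ℝ := 1 - η with hσ
  have hσ0 : 0 < σ := by linarith
  set S1 := Nat.primesLE w with hS1
  set S2 := Q.primeFactors.filter (fun p => w < p) with hS2
  have h := card_factored_le' σ hσ0 (S1 ∪ S2) (smB t w Q) t (by
    intro p hp
    rcases Finset.mem_union.mp hp with h | h
    · exact (Nat.mem_primesLE.mp h).2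
    · exact (Nat.mem_primeFactors.mp (Finset.mem_filter.mp h).1).1) (by
    intro m hm
    unfold smB at hm
    rw [Finset.mem_filter, Finset.mem_range] at hm
    refine ⟨hm.2.1, hm.1.le, ?_⟩
    intro p hp hpm
    rw [Finset.mem_union]
    by_cases hpw : p ≤ w
    · left; rw [hS1, Nat.mem_primesLE]; exact ⟨hpw, hp⟩
    · right
      rw [hS2, Finset.mem_filter, Nat.mem_primeFactors]
      rcases hm.2.2 p hp hpm with h | h
      · exact absurd h hpw
      · exact ⟨⟨hp, h, hQ0⟩, not_le.mp hpw⟩)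
  have hdisj : Disjoint S1 S2 := by
    rw [Finset.disjoint_left]
    intro p hp hp'
    have h1 := (Nat.mem_primesLE.mp hp).1
    have h2 := (Finset.mem_filter.mp hp').2
    omega
  rw [Finset.prod_union hdisj] at h
  -- the part dividing Q
  have hS2b : ∏ p ∈ S2, (1 - (p : ℝ) ^ (-σ))⁻¹ ≤ Real.exp ((K : ℝ) * (Real.log t / Real.log w)) := by
    have h1 : ∏ p ∈ S2, (1 - (p : ℝ) ^ (-σ))⁻¹ ≤ ∏ p ∈ S2, (2 : ℝ) := by
      apply Finset.prod_le_prod
      · intro p hp
        have hpp := (Nat.mem_primeFactors.mp (Finset.mem_filter.mp hp).1).1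
        apply inv_nonneg.mpr
        linarith [rpow_neg_lt_one hσ0 hpp]
      · intro p hp
        have hpw : w < p := (Finset.mem_filter.mp hp).2
        have hpw' : (256 : ℝ) ≤ p := by
          have : (w : ℝ) < p := by exact_mod_cast hpw
          linarith
        have h2 : (p : ℝ) ^ (-σ) ≤ 1 / 2 := by
          rw [Real.rpow_neg (by linarith), inv_eq_one_div]
          apply one_div_le_one_div_of_le (by norm_num)
          calc (2 : ℝ) ≤ (256 : ℝ) ^ (1 / 2 : ℝ) := by
                rw [← Real.sqrt_eq_rpow]; apply Real.le_sqrt_of_sq_le; norm_num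
            _ ≤ (p : ℝ) ^ (1 / 2 : ℝ) := Real.rpow_le_rpow (by norm_num) hpw' (by norm_num)
            _ ≤ (p : ℝ) ^ σ := Real.rpow_le_rpow_of_exponent_le (by linarith) (by linarith)
        calc (1 - (p : ℝ) ^ (-σ))⁻¹ ≤ (1 / 2 : ℝ)⁻¹ := by
              apply inv_anti₀ (by norm_num); linarith
          _ = 2 := by norm_num
    rw [Finset.prod_const] at h1
    refine h1.trans ?_
    have h2 : ∏ p ∈ S2, p ∣ Q := by
      calc ∏ p ∈ S2, p ∣ ∏ p ∈ Q.primeFactors, p :=
            Finset.prod_dvd_prod_of_subset _ _ _ (Finset.filter_subset _ _)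
        _ ∣ Q := Nat.prod_primeFactors_dvd Q
    have h3 : w ^ #S2 ≤ ∏ p ∈ S2, p := by
      rw [← Finset.prod_const]
      apply Finset.prod_le_prod'
      intro p hp
      exact (Finset.mem_filter.mp hp).2.le
    have h4 : w ^ #S2 ≤ t ^ K := h3.trans ((Nat.le_of_dvd (Nat.pos_of_ne_zero hQ0) h2).trans hQ)
    have h5 : (#S2 : ℝ) * Real.log w ≤ (K : ℝ) * Real.log t := by
      have h6 : ((w : ℝ)) ^ #S2 ≤ (t : ℝ) ^ K := by exact_mod_cast h4
      have h7 := Real.log_le_log (by positivity) h6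
      rw [Real.log_pow, Real.log_pow] at h7
      exact h7
    have h6 : (#S2 : ℝ) ≤ (K : ℝ) * (Real.log t / Real.log w) := by
      rw [mul_div_assoc', le_div_iff₀ hlogw]; exact h5
    calc (2 : ℝ) ^ #S2 ≤ (Real.exp 1) ^ #S2 := by
          apply pow_le_pow_left₀ (by norm_num)
          have := Real.add_one_le_exp (1 : ℝ); linarith
      _ = Real.exp (#S2 : ℝ) := by rw [← Real.exp_nat_mul, mul_one]
      _ ≤ _ := Real.exp_le_exp.mpr h6
  -- the small primes
  have hS1b : ∏ p ∈ S1, (1 - (p : ℝ) ^ (-σ))⁻¹ ≤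
      Real.exp (10 + 2 * C2) * Real.log w * Real.exp (2 * (w : ℝ) ^ η) := by
    have h1 : ∏ p ∈ S1, (1 - (p : ℝ) ^ (-σ))⁻¹ ≤
        ∏ p ∈ S1, Real.exp ((p : ℝ) ^ (-σ) + 2 * ((p : ℝ) ^ (-σ)) ^ 2) := by
      apply Finset.prod_le_prod
      · intro p hp
        apply inv_nonneg.mpr
        linarith [rpow_neg_lt_one hσ0 (Nat.mem_primesLE.mp hp).2]
      · intro p hp
        have hpp := (Nat.mem_primesLE.mp hp).2
        apply inv_one_sub_le_exp (by positivity)
        have hp2 : (2 : ℝ) ≤ p := by exact_mod_cast hpp.two_le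
        rw [Real.rpow_neg (by linarith), inv_eq_one_div]
        have h2 : (5 / 3 : ℝ) ≤ (p : ℝ) ^ σ := by
          calc (5 / 3 : ℝ) ≤ (2 : ℝ) ^ (3 / 4 : ℝ) := by
                have h3 : ((5 / 3 : ℝ)) ^ 4 ≤ ((2 : ℝ) ^ (3 / 4 : ℝ)) ^ 4 := by
                  rw [← Real.rpow_natCast ((2 : ℝ) ^ (3 / 4 : ℝ)), ← Real.rpow_mul (by norm_num)]
                  norm_num
                exact le_of_pow_le_pow_left₀ (by norm_num) (by positivity) h3
            _ ≤ (p : ℝ) ^ (3 / 4 : ℝ) := Real.rpow_le_rpow (by norm_num) hp2 (by norm_num)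
            _ ≤ (p : ℝ) ^ σ := Real.rpow_le_rpow_of_exponent_le (by linarith) (by linarith)
        calc 1 / (p : ℝ) ^ σ ≤ 1 / (5 / 3) := one_div_le_one_div_of_le (by norm_num) h2
          _ = 3 / 5 := by norm_num
    rw [← Real.exp_sum, Finset.sum_add_distrib, ← Finset.mul_sum] at h1
    refine h1.trans ?_
    -- second sum
    have hsq : ∑ p ∈ S1, ((p : ℝ) ^ (-σ)) ^ 2 ≤ C2 := by
      calc ∑ p ∈ S1, ((p : ℝ) ^ (-σ)) ^ 2 ≤ ∑ p ∈ S1, (p : ℝ) ^ (-(3 / 2 : ℝ)) := by
            apply Finset.sum_le_sum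
            intro p hp
            have hpp := (Nat.mem_primesLE.mp hp).2
            have hp1 : (1 : ℝ) ≤ p := by exact_mod_cast hpp.one_le
            rw [← Real.rpow_natCast, ← Real.rpow_mul (by linarith)]
            apply Real.rpow_le_rpow_of_exponent_le hp1
            push_cast; linarith
        _ ≤ C2 := hsummable.sum_le_tsum _ (fun n _ => by positivity)
    -- first sum
    have hW1 : (1 : ℝ) ≤ (w : ℝ) ^ η := Real.one_le_rpow (by linarith) hη0.le
    have hfirst : ∑ p ∈ S1, (p : ℝ) ^ (-σ) ≤ ∑ p ∈ S1, (1 : ℝ) / p + 2 * (w : ℝ) ^ η := by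
      have h2 : ∀ p ∈ S1, (p : ℝ) ^ (-σ) ≤ 1 / p +
          ((w : ℝ) ^ η / Real.log w) * (Real.log p / p) := by
        intro p hp
        obtain ⟨hpw, hpp⟩ := Nat.mem_primesLE.mp hp
        have hp1 : (1 : ℝ) < p := by exact_mod_cast hpp.one_lt
        have hp0 : (0 : ℝ) < p := by linarith
        have hpw' : (p : ℝ) ≤ w := by exact_mod_cast hpw
        have hlogp : 0 < Real.log p := Real.log_pos hp1
        have e1 : (p : ℝ) ^ (-σ) = (p : ℝ) ^ η / p := by
          rw [hσ, show -(1 - η) = η - 1 by ring, Real.rpow_sub hp0, Real.rpow_one]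
        set lam : ℝ := Real.log p / Real.log w with hlam
        have hlam0 : 0 ≤ lam := by positivity
        have hlam1 : lam ≤ 1 := by
          rw [hlam, div_le_one hlogw]; exact Real.log_le_log hp0 hpw'
        have e2 : (p : ℝ) ^ η = ((w : ℝ) ^ η) ^ lam := by
          rw [← Real.rpow_mul hw0.le, Real.rpow_def_of_pos hp0, Real.rpow_def_of_pos hw0]
          congr 1
          rw [hlam]; field_simp
        have h3 : ((w : ℝ) ^ η) ^ lam ≤ 1 + lam * (w : ℝ) ^ η := by
          have h4 := rpow_one_add_le_one_add_mul_self (s := (w : ℝ) ^ η - 1) (p := lam)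
            (by linarith) hlam0 hlam1
          rw [show 1 + ((w : ℝ) ^ η - 1) = (w : ℝ) ^ η by ring] at h4
          nlinarith
        rw [e1, e2]
        calc ((w : ℝ) ^ η) ^ lam / p ≤ (1 + lam * (w : ℝ) ^ η) / p := by gcongr
          _ = _ := by rw [hlam]; field_simp
      have hmA := mA_le w (by omega)
      unfold mA at hmA
      calc ∑ p ∈ S1, (p : ℝ) ^ (-σ) ≤ ∑ p ∈ S1, (1 / (p : ℝ) +
            ((w : ℝ) ^ η / Real.log w) * (Real.log p / p)) := Finset.sum_le_sum h2
        _ = ∑ p ∈ S1, (1 : ℝ) / p + ((w : ℝ) ^ η / Real.log w) * ∑ p ∈ S1, Real.log p / p := by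
            rw [Finset.sum_add_distrib, Finset.mul_sum]
        _ ≤ ∑ p ∈ S1, (1 : ℝ) / p + ((w : ℝ) ^ η / Real.log w) * (Real.log w + Real.log 4) := by
            gcongr
        _ ≤ ∑ p ∈ S1, (1 : ℝ) / p + ((w : ℝ) ^ η / Real.log w) * (2 * Real.log w) := by
            have h5 : Real.log 4 ≤ Real.log w := Real.log_le_log (by norm_num) (by linarith)
            gcongr
            linarith
        _ = _ := by field_simp
    have hinv : ∑ p ∈ S1, (1 : ℝ) / p ≤ Real.log (Real.log w) + 10 := by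
      have h2 := sum_inv_primes_le 2 w le_rfl (by omega)
      have h3 : ∑ p ∈ S1, (1 : ℝ) / p ≤ 1 / 2 + ∑ p ∈ primesIoc 2 w, (1 : ℝ) / p := by
        have hsub : S1 ⊆ insert 2 (primesIoc 2 w) := by
          intro p hp
          obtain ⟨hpw, hpp⟩ := Nat.mem_primesLE.mp hp
          rw [Finset.mem_insert, mem_primesIoc]
          by_cases h2 : p = 2
          · left; exact h2
          · right
            have := hpp.two_le
            exact ⟨by omega, hpw, hpp⟩
        calc ∑ p ∈ S1, (1 : ℝ) / p ≤ ∑ p ∈ insert 2 (primesIoc 2 w), (1 : ℝ) / p :=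
              Finset.sum_le_sum_of_subset_of_nonneg hsub (fun p _ _ => by positivity)
          _ ≤ _ := by
              rw [Finset.sum_insert (by rw [mem_primesIoc]; omega)]
              push_cast
              exact le_rfl
      have hl2 : 0.69 ≤ Real.log 2 := by
        have := Real.log_two_gt_d9; linarith
      have h4 : Real.log (Real.log w / Real.log ((2 : ℕ) : ℝ)) ≤ Real.log (Real.log w) + 1 := by
        push_cast
        rw [Real.log_div hlogw.ne' (by linarith)]
        have h5 : -1 ≤ Real.log (Real.log 2) := by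
          rw [Real.le_log_iff_exp_le (by linarith)]
          have h6 : Real.exp (-1) ≤ 0.5 := by
            rw [Real.exp_neg]
            have h7 := Real.add_one_le_exp (1 : ℝ)
            calc (Real.exp 1)⁻¹ ≤ (2 : ℝ)⁻¹ := by apply inv_anti₀ (by norm_num); linarith
              _ = 0.5 := by norm_num
          linarith
        linarith
      have h5 : 5 / Real.log ((2 : ℕ) : ℝ) ≤ 8 := by
        push_cast
        rw [div_le_iff₀ (by linarith)]
        linarith
      linarith
    have hexp : Real.exp (∑ p ∈ S1, (p : ℝ) ^ (-σ) + 2 * ∑ p ∈ S1, ((p : ℝ) ^ (-σ)) ^ 2) ≤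
        Real.exp ((10 + 2 * C2) + Real.log (Real.log w) + 2 * (w : ℝ) ^ η) := by
      apply Real.exp_le_exp.mpr
      linarith
    refine hexp.trans (le_of_eq ?_)
    rw [Real.exp_add, Real.exp_add, Real.exp_log hlogw]
  have hS2nn : 0 ≤ ∏ p ∈ S2, (1 - (p : ℝ) ^ (-σ))⁻¹ := by
    apply Finset.prod_nonneg
    intro p hp
    have hpp := (Nat.mem_primeFactors.mp (Finset.mem_filter.mp hp).1).1
    apply inv_nonneg.mpr
    linarith [rpow_neg_lt_one hσ0 hpp]
  calc (#(smB t w Q) : ℝ) ≤ (t : ℝ) ^ σ * ((∏ p ∈ S1, (1 - (p : ℝ) ^ (-σ))⁻¹) *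
        ∏ p ∈ S2, (1 - (p : ℝ) ^ (-σ))⁻¹) := h
    _ ≤ (t : ℝ) ^ σ * ((Real.exp (10 + 2 * C2) * Real.log w * Real.exp (2 * (w : ℝ) ^ η)) *
        Real.exp ((K : ℝ) * (Real.log t / Real.log w))) := by
        apply mul_le_mul_of_nonneg_left _ (by positivity)
        apply mul_le_mul hS1b hS2b hS2nn (by positivity)
    _ = _ := by rw [Real.exp_add (2 * (w : ℝ) ^ η)]; ring

/-- positions avoiding the default classes `s p` of the primes `≤ w` other than `p0` -/
def setVg (s : ℕ → ℕ) (t w p0 : ℕ) : Finset ℕ :=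
  {i ∈ range t | ∀ p ∈ Nat.primesLE w, p ≠ p0 → i % p ≠ s p % p}

/-- `#V ≪ t / log w` for `w ^ 60 ≤ t`. -/
theorem card_setVg : ∃ C : ℝ, 0 < C ∧ ∀ (s : ℕ → ℕ) (w t p0 : ℕ), 2 ≤ w → w ^ 60 ≤ t →
    (#(setVg s t w p0) : ℝ) ≤ C * (t / Real.log w) := by
  classical
  set N0 : ℕ := ⌈Real.exp 100⌉₊ with hN0
  have hN0' : Real.exp 100 ≤ N0 := Nat.le_ceil _
  have hN0pos : (0 : ℝ) < N0 := (Real.exp_pos _).trans_le hN0'
  have hlogN0 : 100 ≤ Real.log N0 := by
    rw [Real.le_log_iff_exp_le hN0pos]; exact hN0'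
  set c0 : ℝ := ∏ p ∈ Nat.primesLE N0, (1 - 1 / (p : ℝ)) with hc0
  have hc0pos : 0 < c0 := Finset.prod_pos (fun p hp => one_sub_inv_pos (Nat.mem_primesLE.mp hp).2)
  refine ⟨Real.log N0 + 4 / c0 + 1, by positivity, ?_⟩
  intro s w t p0 hw hwt
  have hw' : (2 : ℝ) ≤ w := by exact_mod_cast hw
  have hlogw : 0 < Real.log w := Real.log_pos (by linarith)
  have ht0 : (0 : ℝ) ≤ t := by positivity
  have htl : 0 ≤ (t : ℝ) / Real.log w := by positivity
  have hVt : (#(setVg s t w p0) : ℝ) ≤ t := by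
    have : #(setVg s t w p0) ≤ #(range t) := Finset.card_filter_le _ _
    rw [Finset.card_range] at this
    exact_mod_cast this
  rcases Nat.lt_or_ge N0 w with hcase | hcase
  · -- sieve
    set P : Finset ℕ := {p ∈ Nat.primesLE w | N0 < p ∧ p ≠ p0} with hP
    have hPmem : ∀ p ∈ P, p.Prime ∧ p ≤ w ∧ N0 < p ∧ p ≠ p0 := by
      intro p hp
      rw [hP, Finset.mem_filter, Nat.mem_primesLE] at hp
      exact ⟨hp.1.2, hp.1.1, hp.2.1, hp.2.2⟩
    have hs := usieve_upper N0 w hlogN0 hcase.le P (fun p hp => (hPmem p hp).1)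
      (fun p hp => (hPmem p hp).2.2.1) (fun p hp => (hPmem p hp).2.1)
      (fun p => {s p % p}) (fun p hp => by
        rw [Finset.singleton_subset_iff, Finset.mem_range]
        exact Nat.mod_lt _ (hPmem p hp).1.pos) (fun p _ => by simp) t
    have hsub : setVg s t w p0 ⊆ {m ∈ range t | ∀ p ∈ P, m % p ∉ ({s p % p} : Finset ℕ)} := by
      intro i hi
      unfold setVg at hi
      rw [Finset.mem_filter] at hi ⊢
      refine ⟨hi.1, fun p hp => ?_⟩
      rw [Finset.mem_singleton]
      have := hPmem p hp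
      exact hi.2 p (Nat.mem_primesLE.mpr ⟨this.2.1, this.1⟩) this.2.2.2
    have h1 : (#(setVg s t w p0) : ℝ) ≤ 2 * (t : ℝ) * ∏ p ∈ P, (1 - 1 / (p : ℝ)) + (w : ℝ) ^ 50 := by
      refine le_trans (by exact_mod_cast Finset.card_le_card hsub) (hs.trans (le_of_eq ?_))
      simp
    -- product bound
    have h2 : (∏ p ∈ P, (1 - 1 / (p : ℝ))) * (c0 * (1 / 2)) ≤
        ∏ p ∈ Nat.primesLE w, (1 - 1 / (p : ℝ)) := by
      have hsplit : Nat.primesLE w ⊆ (P ∪ Nat.primesLE N0) ∪ ({p0} : Finset ℕ).filter Nat.Prime := by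
        intro p hp
        rw [Finset.mem_union, Finset.mem_union]
        rw [Nat.mem_primesLE] at hp
        by_cases h0 : p = p0
        · right; rw [Finset.mem_filter, Finset.mem_singleton]; exact ⟨h0, hp.2⟩
        · left
          by_cases h1 : N0 < p
          · left; rw [hP, Finset.mem_filter, Nat.mem_primesLE]; exact ⟨hp, h1, h0⟩
          · right; rw [Nat.mem_primesLE]; exact ⟨by omega, hp.2⟩
      have hpp : ∀ p ∈ (P ∪ Nat.primesLE N0) ∪ ({p0} : Finset ℕ).filter Nat.Prime, p.Prime := by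
        intro p hp
        rw [Finset.mem_union, Finset.mem_union] at hp
        rcases hp with (h | h) | h
        · exact (hPmem p h).1
        · exact (Nat.mem_primesLE.mp h).2
        · exact (Finset.mem_filter.mp h).2
      have h3 : ∏ p ∈ (P ∪ Nat.primesLE N0) ∪ ({p0} : Finset ℕ).filter Nat.Prime, (1 - 1 / (p : ℝ)) ≤
          ∏ p ∈ Nat.primesLE w, (1 - 1 / (p : ℝ)) := by
        rw [← Finset.prod_sdiff hsplit]
        calc _ ≤ 1 * ∏ p ∈ Nat.primesLE w, (1 - 1 / (p : ℝ)) := by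
              apply mul_le_mul_of_nonneg_right (prod_one_sub_le_one _)
              exact Finset.prod_nonneg (fun p hp => (one_sub_inv_pos (Nat.mem_primesLE.mp hp).2).le)
          _ = _ := one_mul _
      refine le_trans ?_ h3
      have hun : ∀ A B : Finset ℕ, (∀ p ∈ A, p.Prime) → (∀ p ∈ B, p.Prime) →
          (∏ p ∈ A, (1 - 1 / (p : ℝ))) * ∏ p ∈ B, (1 - 1 / (p : ℝ)) ≤
            ∏ p ∈ A ∪ B, (1 - 1 / (p : ℝ)) := by
        intro A B hA hB
        have e := Finset.prod_union_inter (s₁ := A) (s₂ := B) (f := fun p : ℕ => (1 - 1 / (p : ℝ)))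
        rw [← e]
        have h4 := prod_one_sub_le_one (A ∩ B)
        have h5 : 0 ≤ ∏ p ∈ A ∪ B, (1 - 1 / (p : ℝ)) :=
          Finset.prod_nonneg (fun p hp => by
            rcases Finset.mem_union.mp hp with h | h
            · exact (one_sub_inv_pos (hA p h)).le
            · exact (one_sub_inv_pos (hB p h)).le)
        nlinarith
      have hPpos : 0 ≤ ∏ p ∈ P, (1 - 1 / (p : ℝ)) :=
        Finset.prod_nonneg (fun p hp => (one_sub_inv_pos (hPmem p hp).1).le)
      have h6 := hun P (Nat.primesLE N0) (fun p hp => (hPmem p hp).1)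
        (fun p hp => (Nat.mem_primesLE.mp hp).2)
      have h7 := hun (P ∪ Nat.primesLE N0) (({p0} : Finset ℕ).filter Nat.Prime)
        (fun p hp => hpp p (Finset.mem_union_left _ hp))
        (fun p hp => (Finset.mem_filter.mp hp).2)
      have h8 : (1 / 2 : ℝ) ≤ ∏ p ∈ ({p0} : Finset ℕ).filter Nat.Prime, (1 - 1 / (p : ℝ)) := by
        by_cases hpr : p0.Prime
        · rw [Finset.filter_singleton, if_pos hpr, Finset.prod_singleton]
          have h2 : (2 : ℝ) ≤ p0 := by exact_mod_cast hpr.two_le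
          have : 1 / (p0 : ℝ) ≤ 1 / 2 := one_div_le_one_div_of_le (by norm_num) h2
          linarith
        · rw [Finset.filter_singleton, if_neg hpr, Finset.prod_empty]
          norm_num
      have h9 : 0 ≤ ∏ p ∈ P ∪ Nat.primesLE N0, (1 - 1 / (p : ℝ)) :=
        Finset.prod_nonneg (fun p hp => (one_sub_inv_pos (hpp p (Finset.mem_union_left _ hp))).le)
      calc (∏ p ∈ P, (1 - 1 / (p : ℝ))) * (c0 * (1 / 2))
          = ((∏ p ∈ P, (1 - 1 / (p : ℝ))) * c0) * (1 / 2) := by ring
        _ ≤ (∏ p ∈ P ∪ Nat.primesLE N0, (1 - 1 / (p : ℝ))) * (1 / 2) :=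
            mul_le_mul_of_nonneg_right h6 (by norm_num)
        _ ≤ (∏ p ∈ P ∪ Nat.primesLE N0, (1 - 1 / (p : ℝ))) *
            ∏ p ∈ ({p0} : Finset ℕ).filter Nat.Prime, (1 - 1 / (p : ℝ)) :=
            mul_le_mul_of_nonneg_left h8 h9
        _ ≤ _ := h7
    have h3 := prod_primes_le w (by omega)
    have h4 : 1 / Real.log ((w : ℝ) + 1) ≤ 1 / Real.log w := by
      apply one_div_le_one_div_of_le hlogw
      apply Real.log_le_log (by linarith) (by linarith)
    have h5 : ∏ p ∈ P, (1 - 1 / (p : ℝ)) ≤ 2 / c0 * (1 / Real.log w) := by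
      have h6 : (∏ p ∈ P, (1 - 1 / (p : ℝ))) * (c0 * (1 / 2)) ≤ 1 / Real.log w :=
        h2.trans (h3.trans h4)
      rw [← le_div_iff₀ (by positivity)] at h6
      refine h6.trans (le_of_eq ?_)
      field_simp
    have h6 : (w : ℝ) ^ 50 ≤ t / Real.log w := by
      rw [le_div_iff₀ hlogw]
      have h7 : Real.log w ≤ (w : ℝ) ^ 10 := by
        have h8 : Real.log w ≤ w := (Real.log_le_sub_one_of_pos (by linarith)).trans (by linarith)
        have h9 : (w : ℝ) ≤ (w : ℝ) ^ 10 := le_self_pow₀ (by linarith) (by norm_num)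
        linarith
      calc (w : ℝ) ^ 50 * Real.log w ≤ (w : ℝ) ^ 50 * (w : ℝ) ^ 10 := by gcongr
        _ = (w : ℝ) ^ 60 := by ring
        _ ≤ t := by exact_mod_cast hwt
    calc (#(setVg s t w p0) : ℝ) ≤ 2 * (t : ℝ) * ∏ p ∈ P, (1 - 1 / (p : ℝ)) + (w : ℝ) ^ 50 := h1
      _ ≤ 2 * (t : ℝ) * (2 / c0 * (1 / Real.log w)) + t / Real.log w := by gcongr
      _ = (4 / c0 + 1) * (t / Real.log w) := by ring
      _ ≤ (Real.log N0 + 4 / c0 + 1) * (t / Real.log w) := by
          apply mul_le_mul_of_nonneg_right _ htl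
          linarith
  · have h1 : Real.log w ≤ Real.log N0 := Real.log_le_log (by linarith) (by exact_mod_cast hcase)
    calc (#(setVg s t w p0) : ℝ) ≤ t := hVt
      _ = Real.log w * (t / Real.log w) := by field_simp
      _ ≤ (Real.log N0 + 4 / c0 + 1) * (t / Real.log w) := by
          apply mul_le_mul_of_nonneg_right _ htl
          have : 0 < 4 / c0 := by positivity
          linarith

open Classical in
/-- positions below `t`, not in `T`, not covered by the classes `a p` with `p ≤ z`, `p ≠ p0` -/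
noncomputable def uncovT (T : Finset ℕ) (z p0 t : ℕ) (a : ℕ → ℕ) : Finset ℕ :=
  {i ∈ range t | i ∉ T ∧ ∀ p, p.Prime → p ≤ z → p ≠ p0 → i % p ≠ a p % p}

lemma uncovT_card_le (T : Finset ℕ) (z p0 t : ℕ) (a : ℕ → ℕ) : (#(uncovT T z p0 t a) : ℝ) ≤ t := by
  classical
  have : #(uncovT T z p0 t a) ≤ #(range t) := Finset.card_filter_le _ _
  rw [Finset.card_range] at this
  exact_mod_cast this

/-- choose a centre outside `T` with few bad elements of type A -/
lemma exists_centerT (t : ℕ) (T : Finset ℕ) (ht : 2 * #T + 1 ≤ t) (V A : Finset ℕ) :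
    ∃ b, b < t ∧ b ∉ T ∧ (#{i ∈ V | nd i b ∈ A} : ℝ) * t ≤ 4 * #V * #A := by
  classical
  by_contra hcon
  push Not at hcon
  have h1 : ∑ b ∈ range t \ T, (#{i ∈ V | nd i b ∈ A}) ≤ 2 * #A * #V := by
    calc ∑ b ∈ range t \ T, (#{i ∈ V | nd i b ∈ A})
        ≤ ∑ b ∈ range t, (#{i ∈ V | nd i b ∈ A}) :=
          Finset.sum_le_sum_of_subset Finset.sdiff_subset
      _ = ∑ b ∈ range t, ∑ i ∈ V, if nd i b ∈ A then 1 else 0 := by
          apply Finset.sum_congr rfl
          intro b _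
          rw [Finset.card_filter]
      _ = ∑ i ∈ V, ∑ b ∈ range t, if nd i b ∈ A then 1 else 0 := Finset.sum_comm
      _ = ∑ i ∈ V, #{b ∈ range t | nd i b ∈ A} := by
          apply Finset.sum_congr rfl
          intro i _
          rw [Finset.card_filter]
      _ ≤ ∑ i ∈ V, 2 * #A := Finset.sum_le_sum (fun i _ => card_dist i t A)
      _ = 2 * #A * #V := by rw [Finset.sum_const, smul_eq_mul]; ring
  have h2 : (∑ b ∈ range t \ T, (#{i ∈ V | nd i b ∈ A} : ℝ)) ≤ 2 * #A * #V := by
    exact_mod_cast h1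
  have hcard : t - #T ≤ #(range t \ T) := by
    have := Finset.le_card_sdiff T (range t)
    rwa [Finset.card_range] at this
  have hcard' : (t : ℝ) / 2 ≤ (#(range t \ T) : ℝ) := by
    have h3 : t ≤ 2 * #(range t \ T) := by omega
    have h4 : (t : ℝ) ≤ 2 * (#(range t \ T) : ℝ) := by exact_mod_cast h3
    linarith
  have ht0 : (0 : ℝ) < t := by
    have : 0 < t := by omega
    exact_mod_cast this
  have hne : (range t \ T).Nonempty := by
    rw [← Finset.card_pos]; omega
  have h3 : ∑ b ∈ range t \ T, (4 * (#V : ℝ) * #A / (t : ℝ)) <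
      ∑ b ∈ range t \ T, (#{i ∈ V | nd i b ∈ A} : ℝ) := by
    apply Finset.sum_lt_sum_of_nonempty hne
    intro b hb
    rw [Finset.mem_sdiff, Finset.mem_range] at hb
    rw [div_lt_iff₀ ht0]
    exact hcon b hb.1 hb.2
  rw [Finset.sum_const, nsmul_eq_mul] at h3
  have h4 : (t : ℝ) / 2 * (4 * (#V : ℝ) * #A / (t : ℝ)) = 2 * #A * #V := by
    field_simp; ring
  have h5 : (t : ℝ) / 2 * (4 * (#V : ℝ) * #A / (t : ℝ)) ≤
      (#(range t \ T) : ℝ) * (4 * (#V : ℝ) * #A / (t : ℝ)) :=
    mul_le_mul_of_nonneg_right hcard' (by positivity)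
  linarith

lemma nd_dvd_iff {q i b : ℕ} : q ∣ nd i b ↔ i % q = b % q := by
  unfold nd
  rcases Nat.le_total i b with h | h
  · have e : (i - b) + (b - i) = b - i := by omega
    rw [e]
    exact (Nat.modEq_iff_dvd' h).symm
  · have e : (i - b) + (b - i) = i - b := by omega
    rw [e]
    constructor
    · intro h2; exact ((Nat.modEq_iff_dvd' h).mpr h2).symm
    · intro h2; exact (Nat.modEq_iff_dvd' h).mp h2.symm

/-- combinatorial core -/
lemma lite_coreT (T : Finset ℕ) (s : ℕ → ℕ) (hs : ∀ p, p.Prime → ∀ τ ∈ T, s p % p ≠ τ % p)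
    (z w t b p0 : ℕ) (hwz : w ≤ z) (hbt : b < t) :
    ∃ a : ℕ → ℕ, (∀ p, p.Prime → p ≤ z → ∀ τ ∈ T, a p % p ≠ τ % p) ∧
      #(uncovT T z p0 t a) ≤ 1 + #{i ∈ setVg s t w p0 | nd i b ∈ bigB t z}
        + 2 * #(smB t w (p0 * ∏ τ ∈ T, nd b τ)) := by
  classical
  let a : ℕ → ℕ := fun p => if w < p ∧ ∀ τ ∈ T, ¬ p ∣ nd b τ then b else s p
  refine ⟨a, ?_, ?_⟩
  · intro p hp hpz τ hτ
    simp only [a]
    split_ifs with h2
    · intro h; exact h2.2 τ hτ (nd_dvd_iff.mpr h)
    · exact hs p hp τ hτ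
  · have hsub : uncovT T z p0 t a ⊆ insert b ({i ∈ setVg s t w p0 | nd i b ∈ bigB t z} ∪
        {i ∈ range t | nd b i ∈ smB t w (p0 * ∏ τ ∈ T, nd b τ)}) := by
      intro i hi
      unfold uncovT at hi
      rw [Finset.mem_filter, Finset.mem_range] at hi
      obtain ⟨hit, hiT, hun⟩ := hi
      rw [Finset.mem_insert, Finset.mem_union, Finset.mem_filter, Finset.mem_filter,
        Finset.mem_range]
      by_cases hib : i = b
      · left; exact hib
      right
      by_cases hA : nd i b ∈ bigB t z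
      · left
        refine ⟨?_, hA⟩
        unfold setVg
        rw [Finset.mem_filter, Finset.mem_range]
        refine ⟨hit, fun p hp hpp0 => ?_⟩
        obtain ⟨hpw, hpp⟩ := Nat.mem_primesLE.mp hp
        have := hun p hpp (hpw.trans hwz) hpp0
        simp only [a] at this
        rwa [if_neg (by omega)] at this
      · right
        refine ⟨hit, ?_⟩
        unfold smB
        rw [Finset.mem_filter, Finset.mem_range]
        refine ⟨by unfold nd; omega, by unfold nd; omega, ?_⟩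
        intro q hq hqm
        by_contra hcon
        push Not at hcon
        obtain ⟨hqw, hqQ⟩ := hcon
        have hqT : ∀ τ ∈ T, ¬ q ∣ nd b τ := fun τ hτ h =>
          hqQ (Dvd.dvd.mul_left (h.trans (Finset.dvd_prod_of_mem _ hτ)) _)
        have hqp0 : q ≠ p0 := by
          rintro rfl
          exact hqQ (Dvd.intro _ rfl)
        have hqz : q ≤ z := by
          by_contra h
          apply hA
          unfold bigB
          rw [Finset.mem_filter, Finset.mem_range]
          refine ⟨by unfold nd; omega, by unfold nd; omega, q, hq, by omega, ?_⟩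
          have : nd i b = nd b i := by unfold nd; omega
          rw [this]; exact hqm
        have hne := hun q hq hqz hqp0
        simp only [a] at hne
        rw [if_pos ⟨hqw, hqT⟩] at hne
        apply hne
        exact (nd_dvd_iff.mp hqm).symm
    have h1 := Finset.card_le_card hsub
    have h2 := card_dist b t (smB t w (p0 * ∏ τ ∈ T, nd b τ))
    have h3 := Finset.card_insert_le b ({i ∈ setVg s t w p0 | nd i b ∈ bigB t z} ∪
        {i ∈ range t | nd b i ∈ smB t w (p0 * ∏ τ ∈ T, nd b τ)})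
    have h4 := Finset.card_union_le {i ∈ setVg s t w p0 | nd i b ∈ bigB t z}
      {i ∈ range t | nd b i ∈ smB t w (p0 * ∏ τ ∈ T, nd b τ)}
    omega

end Pool.Agent.H16
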