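import Pool.Agent.H16.PG1

/-!
Lower bound for the number of primes `n ≡ A0 (mod W)` with `n + t` rough.
-/

set_option autoImplicit false

open Finset Filter Topology

namespace Pool.Agent.H16

/-- the sieving primes -/
def PS (z y e t : ℕ) : Finset ℕ := (primesIoc z y).filter (fun p => p ≠ e ∧ ¬ p ∣ t)

lemma mem_PS {z y e t p : ℕ} : p ∈ PS z y e t ↔ (z < p ∧ p ≤ y ∧ p.Prime) ∧ p ≠ e ∧ ¬ p ∣ t := by
  unfold PS
  rw [Finset.mem_filter, mem_primesIoc]

/-- candidates -/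
noncomputable def GG (ℓ : ℝ) (z y e t A0 : ℕ) : Finset ℕ := by
  classical
  exact (Ioc 0 ⌊Real.exp ℓ⌋₊).filter (fun n => n ≡ A0 [MOD WW z e] ∧ n.Prime ∧ y < n ∧
    Real.exp ℓ / 9 < n ∧ ∀ p ∈ PS z y e t, ¬ p ∣ n + t)

lemma mem_GG {ℓ : ℝ} {z y e t A0 n : ℕ} : n ∈ GG ℓ z y e t A0 ↔ (0 < n ∧ n ≤ ⌊Real.exp ℓ⌋₊) ∧
    n ≡ A0 [MOD WW z e] ∧ n.Prime ∧ y < n ∧
    Real.exp ℓ / 9 < n ∧ ∀ p ∈ PS z y e t, ¬ p ∣ n + t := by
  unfold GG
  rw [Finset.mem_filter, Finset.mem_Ioc]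

lemma aw_le (ℓ : ℝ) (y n : ℕ) (hn : n ≤ ⌊Real.exp ℓ⌋₊) (h : n.Prime) : aw ℓ y n ≤ ℓ := by
  have hn0 : (0 : ℝ) < n := by exact_mod_cast h.pos
  have h1 : (n : ℝ) ≤ Real.exp ℓ := (Nat.le_floor_iff (Real.exp_pos _).le).mp hn
  have h2 : Real.log n ≤ ℓ := by
    calc Real.log n ≤ Real.log (Real.exp ℓ) := Real.log_le_log hn0 h1
      _ = ℓ := Real.log_exp _
  have h3 := Real.log_natCast_nonneg n
  unfold aw
  split_ifs
  · calc Real.log n * tent (Real.exp ℓ / 3) n ≤ Real.log n * 1 :=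
        mul_le_mul_of_nonneg_left (tent_le_one _ _ (by positivity) hn0) h3
      _ ≤ ℓ := by linarith
  · linarith

lemma aw_ne_zero {ℓ : ℝ} {y n : ℕ} (h : aw ℓ y n ≠ 0) : n.Prime ∧ y < n ∧ Real.exp ℓ / 9 < n := by
  unfold aw at h
  split_ifs at h with h1
  · refine ⟨h1.1, h1.2, ?_⟩
    have hn0 : (0 : ℝ) < n := by exact_mod_cast h1.1.pos
    by_contra hc
    push Not at hc
    apply h
    rw [tent_eq _ _ (by positivity) hn0]
    have h2 : Real.log n ≤ Real.log (Real.exp ℓ / 3) - 1 := by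
      have h3 : Real.log n ≤ Real.log (Real.exp ℓ / 3 / Real.exp 1) := by
        apply Real.log_le_log hn0
        refine hc.trans ?_
        rw [div_div]
        apply div_le_div_of_nonneg_left (Real.exp_pos _).le (by positivity)
        have := Real.exp_one_lt_d9
        linarith
      rwa [Real.log_div (by positivity) (Real.exp_pos _).ne', Real.log_exp] at h3
    rw [max_eq_left, mul_zero]
    rw [abs_of_nonneg (by linarith)]
    linarith
  · exact absurd rfl h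

open scoped Classical in
/-- the weighted sieve gives a lower bound for the number of candidates -/
lemma G_lower (ℓ : ℝ) (hℓ : 0 ≤ ℓ) (z y e t A0 : ℕ) (hz : 100 ≤ Real.log z) (hzy : z ≤ y) :
    ((∑ n ∈ Ioc 0 ⌊Real.exp ℓ⌋₊, aw ℓ y n) / ((WW z e).totient : ℝ)) / 2 *
      ∏ p ∈ PS z y e t, (1 - 1 / ((p : ℝ) - 1)) -
    2 * Real.log y * ∑ D ∈ (PS z y e t).powerset.filter (fun D => (∏ p ∈ D, p) ≤ y ^ 25),
      |RD ((Ioc 0 ⌊Real.exp ℓ⌋₊).filter (fun n => n ≡ A0 [MOD WW z e])) (aw ℓ y)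
        (fun n p => if p ∣ n + t then 1 else 0)
        ((∑ n ∈ Ioc 0 ⌊Real.exp ℓ⌋₊, aw ℓ y n) / ((WW z e).totient : ℝ))
        (fun p => 1 / ((p : ℝ) - 1)) D| ≤ ℓ * #(GG ℓ z y e t A0) := by
  have hzl := zw_large z hz
  have hp3 : ∀ p ∈ PS z y e t, (1000 : ℝ) ≤ p := by
    intro p hp
    rw [mem_PS] at hp
    have : (z : ℝ) ≤ p := by exact_mod_cast hp.1.1.le
    linarith
  have h1 := (wsieve ((Ioc 0 ⌊Real.exp ℓ⌋₊).filter (fun n => n ≡ A0 [MOD WW z e])) (aw ℓ y)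
    (fun n p => if p ∣ n + t then 1 else 0)
    ((∑ n ∈ Ioc 0 ⌊Real.exp ℓ⌋₊, aw ℓ y n) / ((WW z e).totient : ℝ)) z y hz hzy (PS z y e t)
    (fun p hp => (mem_PS.mp hp).1.2.2) (fun p hp => (mem_PS.mp hp).1.1)
    (fun p hp => (mem_PS.mp hp).1.2.1) (fun p => 1 / ((p : ℝ) - 1))
    (fun p hp => by
      have := hp3 p hp
      exact div_nonneg zero_le_one (by linarith))
    (fun p hp => by
      have := hp3 p hp
      rw [div_le_div_iff₀ (by linarith) (by linarith)]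
      linarith)
    (fun n _ => aw_nonneg ℓ y n) (fun n _ p _ => by split_ifs <;> norm_num)
    (fun n _ p _ => by split_ifs <;> norm_num)
    (div_nonneg (Finset.sum_nonneg (fun n _ => aw_nonneg ℓ y n)) (Nat.cast_nonneg _))).2
  refine h1.trans ?_
  have h2 : ∀ n ∈ (Ioc 0 ⌊Real.exp ℓ⌋₊).filter (fun n => n ≡ A0 [MOD WW z e]),
      aw ℓ y n * ∏ p ∈ PS z y e t, (1 - if p ∣ n + t then (1 : ℝ) else 0) ≤
      if n ∈ GG ℓ z y e t A0 then ℓ else 0 := by
    intro n hn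
    rw [Finset.mem_filter, Finset.mem_Ioc] at hn
    have hprod : ∏ p ∈ PS z y e t, (1 - if p ∣ n + t then (1 : ℝ) else 0) =
        if ∀ p ∈ PS z y e t, ¬ p ∣ n + t then 1 else 0 := by
      have : ∀ p ∈ PS z y e t, (1 - if p ∣ n + t then (1 : ℝ) else 0) =
          if ¬ p ∣ n + t then 1 else 0 := by
        intro p _
        by_cases h : p ∣ n + t
        · rw [if_pos h, if_neg (not_not.mpr h)]; ring
        · rw [if_neg h, if_pos h]; ring
      rw [Finset.prod_congr rfl this, Finset.prod_ite_zero]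
      simp
    rw [hprod]
    by_cases h0 : aw ℓ y n = 0
    · rw [h0, zero_mul]
      split_ifs
      · exact hℓ
      · exact le_rfl
    obtain ⟨k1, k2, k3⟩ := aw_ne_zero h0
    by_cases hall : ∀ p ∈ PS z y e t, ¬ p ∣ n + t
    · rw [if_pos hall, mul_one, if_pos (mem_GG.mpr ⟨hn.1, hn.2, k1, k2, k3, hall⟩)]
      exact aw_le ℓ y n hn.1.2 k1
    · rw [if_neg hall, mul_zero]
      split_ifs
      · exact hℓ
      · exact le_rfl
  refine (Finset.sum_le_sum h2).trans ?_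
  rw [← Finset.sum_filter, Finset.sum_const, nsmul_eq_mul, mul_comm]
  apply mul_le_mul_of_nonneg_left _ hℓ
  have : #({n ∈ (Ioc 0 ⌊Real.exp ℓ⌋₊).filter (fun n => n ≡ A0 [MOD WW z e]) | n ∈ GG ℓ z y e t A0}) ≤
      #(GG ℓ z y e t A0) := by
    apply Finset.card_le_card
    intro n hn
    exact (Finset.mem_filter.mp hn).2
  exact_mod_cast this

/-- deterministic part: a good candidate gives a gap -/
lemma gap_of_GG (u : ℕ) (hu : 7501 ≤ u) (ℓ : ℝ) (z y e t A0 n : ℕ) (a : ℕ → ℕ)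
    (hy : Real.exp (ℓ / 7500) < y + 1) (he2 : 2 < Real.exp (ℓ / 7500)) (ht : 0 < t)
    (htx : (t : ℝ) ≤ Real.exp ℓ) (hzy : z < y)
    (hzu : (z : ℝ) ^ u ≤ Real.exp ℓ / 9)
    (ha : ∀ p, p.Prime → p ≤ z → a p % p ≠ 0 ∧ a p % p ≠ t % p)
    (hA0 : ∀ p, p.Prime → p ≤ z → p ∣ A0 + a p)
    (hn : n ∈ GG ℓ z y e t A0) (hne : e.Prime → e ≤ y → ¬ e ∣ n + t)
    (hun : ∀ i ∈ uncov z e t a, ¬ PRough u (n + i)) :
    PRough u (n + t) ∧ ∀ i, 0 < i → i < t → ¬ PRough u (n + i) := by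
  rw [mem_GG] at hn
  obtain ⟨⟨hn0, hnx⟩, hmod, hnp, hny, hn9, hnP⟩ := hn
  have hxn : (n : ℝ) ≤ Real.exp ℓ := (Nat.le_floor_iff (Real.exp_pos _).le).mp hnx
  -- small primes
  have hsmall : ∀ p, p.Prime → p ≤ z → p ≠ e → ∀ i, p ∣ n + i ↔ i % p = a p % p := by
    intro p hp hpz hpe i
    have h0 : n ≡ A0 [MOD p] := hmod.of_dvd (dvd_WW hp hpz hpe)
    have h1 : n + a p ≡ 0 [MOD p] :=
      (Nat.ModEq.add_right (a p) h0).trans (Nat.modEq_zero_iff_dvd.mpr (hA0 p hp hpz))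
    constructor
    · intro h
      have h4 : n + i ≡ n + a p [MOD p] := (Nat.modEq_zero_iff_dvd.mpr h).trans h1.symm
      exact Nat.ModEq.add_left_cancel' n h4
    · intro h
      have h4 : n + i ≡ n + a p [MOD p] := Nat.ModEq.add_left n h
      exact Nat.modEq_zero_iff_dvd.mp (h4.trans h1)
  refine ⟨⟨by have := hnp.two_le; omega, ?_⟩, ?_⟩
  · intro q hq hqd
    -- all prime factors exceed y
    have hqy : y < q := by
      by_contra hc
      push Not at hc
      by_cases hqe : q = e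
      · subst hqe
        exact hne hq hc hqd
      by_cases hqz : q ≤ z
      · have := (hsmall q hq hqz hqe t).mp hqd
        exact (ha q hq hqz).2 this.symm
      · by_cases hqt : q ∣ t
        · have h1 : q ∣ n := (Nat.dvd_add_left hqt).mp hqd
          have h2 := (Nat.prime_dvd_prime_iff_eq hq hnp).mp h1
          omega
        · exact hnP q (mem_PS.mpr ⟨⟨by omega, hc, hq⟩, hqe, hqt⟩) hqd
    have hq1 : Real.exp (ℓ / 7500) < q := by
      have : (y : ℝ) + 1 ≤ q := by exact_mod_cast hqy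
      linarith
    have hlt : ((n + t : ℕ) : ℝ) < (q : ℝ) ^ u := by
      push_cast
      have hE1 : Real.exp ℓ = Real.exp (ℓ / 7500) ^ 7500 := by
        rw [← Real.exp_nat_mul]; congr 1; push_cast; ring
      calc (n : ℝ) + t ≤ 2 * Real.exp ℓ := by linarith
        _ < Real.exp (ℓ / 7500) * Real.exp ℓ :=
            mul_lt_mul_of_pos_right he2 (Real.exp_pos _)
        _ = Real.exp (ℓ / 7500) ^ 7501 := by
            rw [hE1]
            exact (pow_succ' _ 7500).symm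
        _ ≤ (q : ℝ) ^ 7501 := pow_le_pow_left₀ (Real.exp_pos _).le hq1.le 7501
        _ ≤ (q : ℝ) ^ u := pow_le_pow_right₀ (by linarith) hu
    exact_mod_cast hlt
  · intro i hi0 hit hR
    by_cases hi : i ∈ uncov z e t a
    · exact hun i hi hR
    · classical
      simp only [uncov, Finset.mem_filter, Finset.mem_range, not_and_or] at hi
      rcases hi with hi | hi
      · exact hi hit
      · push Not at hi
        obtain ⟨p, hp, hpz, hpe, hpi⟩ := hi.resolve_left (by omega)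
        have hd := (hsmall p hp hpz hpe i).mpr hpi
        have h1 := hR.2 p hp hd
        have h2 : ((n + i : ℕ) : ℝ) < (p : ℝ) ^ u := by exact_mod_cast h1
        have h3 : (p : ℝ) ^ u ≤ (z : ℝ) ^ u :=
          pow_le_pow_left₀ (Nat.cast_nonneg _) (by exact_mod_cast hpz) u
        push_cast at h2
        have h4 : (0 : ℝ) ≤ i := Nat.cast_nonneg i
        linarith

end Pool.Agent.H16
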