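import Pool.Agent.H16.MT4
import Pool.Agent.H16.MT1
import Pool.Agent.H16.PG2

/-!
Outcomes of the sieving primes for a finite set of shifts; sums over primes at a shift.
-/

set_option autoImplicit false

open Finset Filter Topology

namespace Pool.Agent.H16

variable {k : ℕ}

open Classical in
/-- which of the shifted integers `n + h j` is divisible by `p` -/
noncomputable def outc (h : Fin k → ℕ) (n p : ℕ) : Option (Fin k) :=
  if hx : ∃ j, p ∣ n + h j then some hx.choose else none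

lemma nd_self (i : ℕ) : nd i i = 0 := by unfold nd; omega

lemma nd_comm (i j : ℕ) : nd i j = nd j i := by unfold nd; omega

lemma dvd_add_iff_mod {p n a b : ℕ} (ha : p ∣ n + a) : p ∣ n + b ↔ p ∣ nd a b := by
  rw [nd_dvd_iff]
  constructor
  · intro hb
    have h1 : n + a ≡ n + b [MOD p] := by
      rw [Nat.ModEq, Nat.mod_eq_zero_of_dvd ha, Nat.mod_eq_zero_of_dvd hb]
    exact Nat.ModEq.add_left_cancel' n h1
  · intro hb
    have h1 : n + a ≡ n + b [MOD p] := Nat.ModEq.add_left n hb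
    exact (Nat.modEq_zero_iff_dvd.mp (h1.symm.trans (Nat.modEq_zero_iff_dvd.mpr ha)))

lemma outc_eq_some {h : Fin k → ℕ} {n p : ℕ} (hp : ∀ j j', j ≠ j' → ¬ p ∣ nd (h j) (h j')) (j : Fin k) :
    outc h n p = some j ↔ p ∣ n + h j := by
  classical
  unfold outc
  constructor
  · intro hx
    split_ifs at hx with h1
    rw [Option.some.injEq] at hx
    rw [← hx]
    exact h1.choose_spec
  · intro hj
    have hx : ∃ j, p ∣ n + h j := ⟨j, hj⟩
    rw [dif_pos hx, Option.some.injEq]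
    by_contra hne
    exact hp _ _ hne ((dvd_add_iff_mod hx.choose_spec).mp hj)

/-- the residue class of the prime `n + i` when `p ∣ n + c` -/
lemma class_shift {p n i c : ℕ} (hp : 1 ≤ p) : p ∣ n + c ↔ n + i ≡ i + (p - 1) * c [MOD p] := by
  obtain ⟨r, rfl⟩ : ∃ r, p = r + 1 := ⟨p - 1, by omega⟩
  rw [Nat.add_sub_cancel]
  have h1 : n + i ≡ i + r * c [MOD r + 1] ↔ n ≡ r * c [MOD r + 1] := by
    rw [add_comm n i]
    exact ⟨fun h => Nat.ModEq.add_left_cancel' i h, fun h => Nat.ModEq.add_left i h⟩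
  rw [h1]
  have h2 : n ≡ r * c [MOD r + 1] ↔ n + c ≡ r * c + c [MOD r + 1] :=
    ⟨fun h => Nat.ModEq.add_right c h, fun h => Nat.ModEq.add_right_cancel' c h⟩
  rw [h2]
  have h3 : r * c + c = (r + 1) * c := by ring
  rw [h3]
  have h4 : (r + 1) * c ≡ 0 [MOD r + 1] := (Nat.modEq_zero_iff_dvd.mpr (Dvd.intro _ rfl))
  constructor
  · intro h5
    exact (Nat.modEq_zero_iff_dvd.mpr h5).trans h4.symm
  · intro h5
    exact Nat.modEq_zero_iff_dvd.mp (h5.trans h4)

lemma dvd_class_iff {p i c : ℕ} (hp : 1 ≤ p) : p ∣ i + (p - 1) * c ↔ p ∣ nd i c := by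
  obtain ⟨r, rfl⟩ : ∃ r, p = r + 1 := ⟨p - 1, by omega⟩
  rw [Nat.add_sub_cancel, nd_dvd_iff]
  have h4 : (r + 1) * c ≡ 0 [MOD r + 1] := (Nat.modEq_zero_iff_dvd.mpr (Dvd.intro _ rfl))
  have h5 : i + r * c + c = i + (r + 1) * c := by ring
  constructor
  · intro h
    have h1 : i + r * c ≡ 0 [MOD r + 1] := Nat.modEq_zero_iff_dvd.mpr h
    have h2 : i + r * c + c ≡ 0 + c [MOD r + 1] := Nat.ModEq.add_right c h1
    have h3 : i + (r + 1) * c ≡ i + 0 [MOD r + 1] := Nat.ModEq.add_left i h4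
    rw [h5] at h2
    have h6 : i + 0 ≡ 0 + c [MOD r + 1] := h3.symm.trans h2
    rw [add_zero, zero_add] at h6
    exact h6
  · intro h
    have h1 : i ≡ c [MOD r + 1] := h
    have h2 : i + r * c ≡ c + r * c [MOD r + 1] := Nat.ModEq.add_right _ h1
    have h3 : c + r * c = (r + 1) * c := by ring
    rw [h3] at h2
    exact Nat.modEq_zero_iff_dvd.mp (h2.trans h4)

lemma aw_zero_of_big {ℓ : ℝ} (y n : ℕ) (hn : Real.exp ℓ ≤ n) : aw ℓ y n = 0 := by
  unfold aw
  split_ifs with h1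
  · have hn0 : (0 : ℝ) < n := by exact_mod_cast h1.1.pos
    have h2 : tent (Real.exp ℓ / 3) n = 0 := by
      rw [tent_eq _ _ (by positivity) hn0]
      apply max_eq_left
      have h3 : ℓ ≤ Real.log n := by
        rw [Real.le_log_iff_exp_le hn0]; exact hn
      have h4 : Real.log (Real.exp ℓ / 3) = ℓ - Real.log 3 := by
        rw [Real.log_div (Real.exp_pos _).ne' (by norm_num), Real.log_exp]
      have h5 : 1 ≤ Real.log 3 := by
        rw [Real.le_log_iff_exp_le (by norm_num)]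
        have := Real.exp_one_lt_d9; linarith
      have h6 : Real.log n - Real.log (Real.exp ℓ / 3) ≤ |Real.log (Real.exp ℓ / 3) - Real.log n| := by
        rw [abs_sub_comm]; exact le_abs_self _
      linarith
    rw [h2, mul_zero]
  · rfl

/-- the shifted sum over primes as a sifted sum in the new variable -/
lemma AD_shift {ℓ : ℝ} (h : Fin k → ℕ) (P : Finset ℕ) (hP : ∀ p ∈ P, p.Prime)
    (hPh : ∀ p ∈ P, ∀ j j', j ≠ j' → ¬ p ∣ nd (h j) (h j')) (y W A0 i : ℕ)
    (hi : (i : ℝ) ≤ Real.exp ℓ / 9) (D : Finset ℕ) (hD : D ⊆ P) (b : ℕ → Fin k) :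
    ∑ n ∈ (Ioc 0 ⌊Real.exp ℓ⌋₊).filter (fun n => n ≡ A0 [MOD W]), aw ℓ y (n + i) *
      ∏ p : {p // p ∈ P}, (if (p : ℕ) ∈ D → outc h n p = some (b p) then (1 : ℝ) else 0) =
    AD ((Ioc 0 ⌊Real.exp ℓ⌋₊).filter (fun n => n ≡ A0 + i [MOD W])) (aw ℓ y)
      (cb (fun p => i + (p - 1) * h (b p))) D := by
  classical
  set N := ⌊Real.exp ℓ⌋₊ with hN
  -- the product
  have hprod : ∀ n : ℕ, (∏ p : {p // p ∈ P}, (if (p : ℕ) ∈ D → outc h n p = some (b p) then (1 : ℝ) else 0)) =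
      ∏ p ∈ D, cb (fun p => i + (p - 1) * h (b p)) (n + i) p := by
    intro n
    rw [Finset.prod_coe_sort P (fun p => if p ∈ D → outc h n p = some (b p) then (1 : ℝ) else 0),
      ← Finset.prod_subset hD]
    · apply Finset.prod_congr rfl
      intro p hp
      have hpp := hP p (hD hp)
      unfold cb
      have h1 : (p ∈ D → outc h n p = some (b p)) ↔ n + i ≡ i + (p - 1) * h (b p) [MOD p] := by
        rw [← class_shift hpp.one_le, ← outc_eq_some (hPh p (hD hp)) (b p)]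
        exact ⟨fun h2 => h2 hp, fun h2 _ => h2⟩
      by_cases h2 : n + i ≡ i + (p - 1) * h (b p) [MOD p]
      · rw [if_pos (h1.mpr h2), if_pos h2]
      · rw [if_neg (fun h3 => h2 (h1.mp h3)), if_neg h2]
    · intro p _ hpD
      rw [if_pos (fun h2 => absurd h2 hpD)]
  unfold AD
  simp_rw [hprod]
  -- change of variable
  rw [← Finset.sum_image (s := (Ioc 0 N).filter (fun n => n ≡ A0 [MOD W])) (g := fun n => n + i)
    (f := fun m => aw ℓ y m * ∏ p ∈ D, cb (fun p => i + (p - 1) * h (b p)) m p)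
    (fun a _ b _ hab => by simpa using hab)]
  have hval : ∀ m, aw ℓ y m ≠ 0 → i < m ∧ m ≤ N := by
    intro m hm
    obtain ⟨h1, h2, h3⟩ := aw_ne_zero hm
    constructor
    · have : (i : ℝ) < m := by linarith
      exact_mod_cast this
    · by_contra hcon
      apply hm
      apply aw_zero_of_big
      have := Nat.lt_of_floor_lt (by omega : ⌊Real.exp ℓ⌋₊ < m)
      exact this.le
  apply Finset.sum_congr_of_eq_on_inter
  · intro m hm hm2
    rw [Finset.mem_image] at hm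
    obtain ⟨n, hn, rfl⟩ := hm
    rw [Finset.mem_filter, Finset.mem_Ioc] at hn hm2
    by_cases h0 : aw ℓ y (n + i) = 0
    · rw [h0, zero_mul]
    · exfalso
      obtain ⟨h1, h2⟩ := hval _ h0
      exact hm2 ⟨⟨by omega, h2⟩, Nat.ModEq.add_right i hn.2⟩
  · intro m hm hm2
    rw [Finset.mem_filter, Finset.mem_Ioc] at hm
    by_cases h0 : aw ℓ y m = 0
    · rw [h0, zero_mul]
    · exfalso
      obtain ⟨h1, h2⟩ := hval _ h0
      apply hm2
      rw [Finset.mem_image]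
      refine ⟨m - i, ?_, by omega⟩
      rw [Finset.mem_filter, Finset.mem_Ioc]
      refine ⟨⟨by omega, by omega⟩, ?_⟩
      have h3 : m - i + i ≡ A0 + i [MOD W] := by
        rw [Nat.sub_add_cancel h1.le]; exact hm.2
      exact Nat.ModEq.add_right_cancel' i h3
  · intro m _ _
    rfl

/-- densities of the outcomes at the shift `i` -/
noncomputable def qq (h : Fin k → ℕ) (i p : ℕ) (j : Fin k) : ℝ :=
  if p ∣ nd i (h j) then 0 else 1 / ((p : ℝ) - 1)

/-- remainder for the shifted sums, uniformly in the shift -/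
lemma shift_rem {ℓ : ℝ} (h : Fin k → ℕ) (P : Finset ℕ) (hP : ∀ p ∈ P, p.Prime)
    (hPh : ∀ p ∈ P, ∀ j j', j ≠ j' → ¬ p ∣ nd (h j) (h j')) (y W A0 i : ℕ)
    (hPy : ∀ p ∈ P, p ≤ y)
    (hi : (i : ℝ) ≤ Real.exp ℓ / 9) (hcop : Nat.Coprime (A0 + i) W) (Y : ℝ) (M : Finset ℕ → ℝ)
    (hM0 : ∀ D, D ⊆ P → 0 ≤ M D)
    (hM : ∀ (A0 : ℕ) (b : ℕ → ℕ), Nat.Coprime A0 W → ∀ D ∈ lev P Y, (∀ p ∈ D, ¬ p ∣ b p) →
        |RD ((Ioc 0 ⌊Real.exp ℓ⌋₊).filter (fun n => n ≡ A0 [MOD W])) (aw ℓ y) (cb b)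
          ((∑ n ∈ Ioc 0 ⌊Real.exp ℓ⌋₊, aw ℓ y n) / (W.totient : ℝ)) (fun p => 1 / ((p : ℝ) - 1)) D| ≤
          M D) (D : Finset ℕ) (hD : D ∈ lev P Y) (b : ℕ → Fin k) :
    |(∑ n ∈ (Ioc 0 ⌊Real.exp ℓ⌋₊).filter (fun n => n ≡ A0 [MOD W]), aw ℓ y (n + i) *
      ∏ p : {p // p ∈ P}, (if (p : ℕ) ∈ D → outc h n p = some (b p) then (1 : ℝ) else 0)) -
      (∑ n ∈ Ioc 0 ⌊Real.exp ℓ⌋₊, aw ℓ y n) / (W.totient : ℝ) * ∏ p ∈ D, qq h i p (b p)| ≤ M D := by
  classical
  have hDP := (mem_lev.mp hD).1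
  rw [AD_shift h P hP hPh y W A0 i hi D hDP b]
  by_cases hdiv : ∃ p ∈ D, p ∣ nd i (h (b p))
  · obtain ⟨p, hpD, hpd⟩ := hdiv
    have hpp := hP p (hDP hpD)
    have h1 : ∏ p ∈ D, qq h i p (b p) = 0 := by
      apply Finset.prod_eq_zero hpD
      unfold qq
      rw [if_pos hpd]
    have h2 : AD ((Ioc 0 ⌊Real.exp ℓ⌋₊).filter (fun n => n ≡ A0 + i [MOD W])) (aw ℓ y)
      (cb (fun p => i + (p - 1) * h (b p))) D = 0 := by
      unfold AD
      apply Finset.sum_eq_zero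
      intro n _
      by_cases h0 : aw ℓ y n = 0
      · rw [h0, zero_mul]
      · obtain ⟨h3, h4, _⟩ := aw_ne_zero h0
        have h5 : cb (fun p => i + (p - 1) * h (b p)) n p = 0 := by
          unfold cb
          rw [if_neg]
          intro h6
          have h7 : p ∣ i + (p - 1) * h (b p) := (dvd_class_iff hpp.one_le).mpr hpd
          have h8 : p ∣ n := Nat.modEq_zero_iff_dvd.mp (h6.trans (Nat.modEq_zero_iff_dvd.mpr h7))
          have h9 := (Nat.prime_dvd_prime_iff_eq hpp h3).mp h8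
          have := hPy p (hDP hpD)
          omega
        rw [Finset.prod_eq_zero hpD h5, mul_zero]
    rw [h1, h2, mul_zero, sub_zero, abs_zero]
    exact hM0 D hDP
  · push Not at hdiv
    have h1 := hM (A0 + i) (fun p => i + (p - 1) * h (b p)) hcop D hD (fun p hp => by
      rw [dvd_class_iff (hP p (hDP hp)).one_le]
      exact hdiv p hp)
    unfold RD at h1
    have h2 : ∏ p ∈ D, qq h i p (b p) = ∏ p ∈ D, 1 / ((p : ℝ) - 1) := by
      apply Finset.prod_congr rfl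
      intro p hp
      unfold qq
      rw [if_neg (hdiv p hp)]
    rw [h2]
    exact h1

end Pool.Agent.H16
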