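import Mathlib

/-!
The numerical inequality of the assembly.
-/

set_option autoImplicit false

namespace Pool.Agent.H16

lemma core_num {x ℓ L φ W X A1 A2 Ap ρ c m n k u e1 e2 S1 S2 S3 : ℝ}
    (hx : 0 < x) (hℓ : 0 < ℓ) (hL : 0 < L) (hφ : 0 < φ) (hW : 0 < W) (hc : 0 < c) (hc1 : c ≤ 1)
    (hm : 1 ≤ m) (hn : 0 < n) (hk : 0 < k) (hu : 0 ≤ u)
    (hA1 : c * n * ρ / (8 * L) ≤ A1) (hA2 : A2 ≤ 8 * ρ / (c * L)) (hA21 : 1 ≤ A2) (hAp : 1 ≤ Ap)
    (hX : x / 100 ≤ X) (hφW : φ * L ≤ 2 * W) (hρ : ρ = c ^ 2 / (640 * k * n) * ℓ)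
    (hnm : 6400 * 81920 * m ≤ c ^ 5 * n) (hul : k * u ≤ ℓ / L) (hΘ : 1 ≤ ρ * ℓ / L ^ 2)
    (herr : (k + 2 * k * u) * e2 + m * e1 ≤ x / (100 * φ))
    (h2 : k * (X / φ * (A1 ^ 2 * (Ap / 2)) - e2) ≤ S2)
    (h1 : S1 ≤ ℓ * (x / W) * (Ap * A2) + e1)
    (h3 : S3 ≤ u * (X / φ * (8 * (Ap * A2)) + e2)) :
    x / (100 * φ) ≤ S2 - m * S1 - 2 * k * S3 := by
  have hρ0 : 0 < ρ := by rw [hρ]; positivity
  have hX0 : 0 < X := by linarith [div_pos hx (show (0 : ℝ) < 100 by norm_num)]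
  have hm0 : 0 < m := by linarith
  have hAp0 : 0 < Ap := by linarith
  have hA20 : 0 < A2 := by linarith
  set V := X / φ * Ap with hV
  set Θ := ρ * ℓ / L ^ 2 with hΘdef
  have hV0 : 0 < V := by positivity
  have hVx : x / (100 * φ) ≤ V := by
    have e1 : x / (100 * φ) = x / 100 / φ * 1 := by field_simp
    rw [e1, hV]
    apply mul_le_mul _ hAp zero_le_one (by positivity)
    exact div_le_div_of_nonneg_right hX hφ.le
  -- first term
  have hA1sq : Θ * (c ^ 4 * n / 81920) ≤ k * A1 ^ 2 / 2 := by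
    have h4 : (c * n * ρ / (8 * L)) ^ 2 ≤ A1 ^ 2 := pow_le_pow_left₀ (by positivity) hA1 2
    have h5 : Θ * (c ^ 4 * n / 81920) = k * (c * n * ρ / (8 * L)) ^ 2 / 2 := by
      rw [hΘdef, hρ]
      field_simp
      norm_num
    rw [h5]
    have h6 := mul_le_mul_of_nonneg_left h4 hk.le
    linarith
  have hc5 : 6400 * m / c ≤ c ^ 4 * n / 81920 := by
    rw [div_le_div_iff₀ hc (by norm_num)]
    have : c ^ 4 * n * c = c ^ 5 * n := by ring
    rw [this]
    linarith
  have t1 : V * (Θ * (6400 * m / c)) ≤ k * (X / φ * (A1 ^ 2 * (Ap / 2))) := by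
    have h4 : Θ * (6400 * m / c) ≤ Θ * (c ^ 4 * n / 81920) :=
      mul_le_mul_of_nonneg_left hc5 (by positivity)
    calc V * (Θ * (6400 * m / c)) ≤ V * (k * A1 ^ 2 / 2) :=
          mul_le_mul_of_nonneg_left (h4.trans hA1sq) hV0.le
      _ = _ := by rw [hV]; ring
  -- second term
  have t2 : m * (ℓ * (x / W) * (Ap * A2)) ≤ V * (Θ * (1600 * m / c)) := by
    have h4 : x / W ≤ 200 * X / (φ * L) := by
      rw [div_le_div_iff₀ hW (by positivity)]
      have h5 : x ≤ 100 * X := by linarith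
      calc x * (φ * L) ≤ (100 * X) * (2 * W) := mul_le_mul h5 hφW (by positivity) (by positivity)
        _ = _ := by ring
    calc m * (ℓ * (x / W) * (Ap * A2)) ≤ m * (ℓ * (200 * X / (φ * L)) * (Ap * (8 * ρ / (c * L)))) := by
          apply mul_le_mul_of_nonneg_left _ hm0.le
          apply mul_le_mul _ _ (by positivity) (by positivity)
          · exact mul_le_mul_of_nonneg_left h4 hℓ.le
          · exact mul_le_mul_of_nonneg_left hA2 hAp0.le
      _ = V * (Θ * (1600 * m / c)) := by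
          rw [hV, hΘdef]; field_simp; norm_num
  -- third term
  have t3 : 2 * k * (u * (X / φ * (8 * (Ap * A2)))) ≤ V * (Θ * (1600 * m / c)) := by
    have h4 : 2 * k * (u * (X / φ * (8 * (Ap * A2)))) = 16 * V * (k * u) * A2 := by rw [hV]; ring
    rw [h4]
    calc 16 * V * (k * u) * A2 ≤ 16 * V * (ℓ / L) * (8 * ρ / (c * L)) := by
          apply mul_le_mul _ hA2 hA20.le (by positivity)
          exact mul_le_mul_of_nonneg_left hul (by positivity)
      _ = V * (Θ * (128 / c)) := by rw [hΘdef]; field_simp; norm_num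
      _ ≤ V * (Θ * (1600 * m / c)) := by
          apply mul_le_mul_of_nonneg_left _ hV0.le
          apply mul_le_mul_of_nonneg_left _ (by positivity)
          apply div_le_div_of_nonneg_right _ hc.le
          linarith
  have t4 : 3200 * V ≤ V * (Θ * (3200 * m / c)) := by
    have h4 : 3200 ≤ 3200 * m / c := by
      rw [le_div_iff₀ hc]
      calc 3200 * c ≤ 3200 * 1 := mul_le_mul_of_nonneg_left hc1 (by norm_num)
        _ ≤ 3200 * m := mul_le_mul_of_nonneg_left hm (by norm_num)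
    have h5 : 3200 ≤ Θ * (3200 * m / c) := by
      calc (3200 : ℝ) = 1 * 3200 := by norm_num
        _ ≤ Θ * (3200 * m / c) := mul_le_mul hΘ h4 (by norm_num) (by positivity)
    calc 3200 * V = V * 3200 := mul_comm _ _
      _ ≤ _ := mul_le_mul_of_nonneg_left h5 hV0.le
  have s1 : m * S1 ≤ m * (ℓ * (x / W) * (Ap * A2)) + m * e1 := by
    have := mul_le_mul_of_nonneg_left h1 hm0.le
    linarith
  have s3 : 2 * k * S3 ≤ 2 * k * (u * (X / φ * (8 * (Ap * A2)))) + 2 * k * u * e2 := by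
    have := mul_le_mul_of_nonneg_left h3 (show 0 ≤ 2 * k by positivity)
    linarith
  have s4 : V * (Θ * (6400 * m / c)) = V * (Θ * (1600 * m / c)) + V * (Θ * (1600 * m / c)) +
      V * (Θ * (3200 * m / c)) := by ring
  have hVpos : 0 < x / (100 * φ) := by positivity
  linarith

end Pool.Agent.H16
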