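import Pool.Agent.H16.MT1

/-!
Partial covering of Erdős–Rankin size with a protected admissible set `T` of at most `k` points.
-/

set_option autoImplicit false

open Finset Real Filter

namespace Pool.Agent.H16

/-- **Partial covering, Erdős-Rankin size, finitely many protected points.** -/
theorem cover_T (k : ℕ) (ε : ℝ) (hε : 0 < ε) (B : ℕ) (hB : 2 ≤ B) : ∃ c : ℝ, 0 < c ∧
    ∀ᶠ z : ℕ in atTop, ∀ (p0 t : ℕ) (T : Finset ℕ), 1 ≤ p0 → p0 ≤ z → #T ≤ k → (∀ τ ∈ T, τ < t) →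
    (∀ p, p.Prime → ∃ r, ∀ τ ∈ T, r % p ≠ τ % p) →
    (t : ℝ) ≤ c * (z * (Real.log z) ^ (B + 1) * Real.log (Real.log (Real.log z)) /
      (Real.log (Real.log z)) ^ 2) →
    ∃ a : ℕ → ℕ, (∀ p, p.Prime → p ≤ z → ∀ τ ∈ T, a p % p ≠ τ % p) ∧
      (#(uncovT T z p0 t a) : ℝ) ≤ ε * (z * (Real.log z) ^ (B - 1)) := by
  classical
  obtain ⟨C1, hC1, hV⟩ := card_setVg
  obtain ⟨C2, hC2, hS⟩ := card_smBK
  have hB' : (2 : ℝ) ≤ B := by exact_mod_cast hB
  set b6 : ℝ := (B : ℝ) + 6 with hb6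
  have hb6pos : 8 ≤ b6 := by linarith
  set c : ℝ := min 1 (ε / (700 * C1 * b6 * (B + 2))) with hc
  have hcpos : 0 < c := by rw [hc]; positivity
  have hc1 : c ≤ 1 := min_le_left _ _
  have hc2 : c * (700 * C1 * b6 * (B + 2)) ≤ ε := by
    have : c ≤ ε / (700 * C1 * b6 * (B + 2)) := min_le_right _ _
    rwa [le_div_iff₀ (by positivity)] at this
  refine ⟨c, hcpos, ?_⟩
  filter_upwards [ev_L3 (24 * ((k : ℝ) + 1) * b6 + 72 * b6 + 1000), ev_L2 1, ev_L1 (9 / ε + 8 * C2 / ε + 1000),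
    eventually_ge_atTop 2, eventually_ge_atTop (2 * k + 1)] with z hL3' hL2 hL1 hz2 hzk
  intro p0 t T hp01 hp0z hTk hTt hadm htC
  have hexs : ∀ p : ℕ, ∃ r : ℕ, p.Prime → ∀ τ ∈ T, r % p ≠ τ % p := by
    intro p
    by_cases hp : p.Prime
    · obtain ⟨r, hr⟩ := hadm p hp
      exact ⟨r, fun _ => hr⟩
    · exact ⟨0, fun h => absurd h hp⟩
  choose s hs using hexs
  set L1 := Real.log (z : ℝ) with hL1def
  set L2 := Real.log L1 with hL2def
  set L3 := Real.log L2 with hL3def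
  have hkb : 0 ≤ 24 * ((k : ℝ) + 1) * b6 := by positivity
  have hL3 : 72 * b6 + 1000 ≤ L3 := by linarith
  have hL3k : 24 * ((k : ℝ) + 1) * b6 ≤ L3 := by linarith
  have hz0 : (0 : ℝ) < z := by exact_mod_cast (by omega : 0 < z)
  have hε9 : 0 < 9 / ε := by positivity
  have hε8 : 0 < 8 * C2 / ε := by positivity
  have hL1big : 1000 ≤ L1 := by linarith
  have hL1pos : 0 < L1 := by linarith
  have hL2pos : 0 < L2 := by linarith
  have hL3pos : 0 < L3 := by linarith
  have eL2 : Real.exp L3 = L2 := Real.exp_log hL2pos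
  have eL1 : Real.exp L2 = L1 := Real.exp_log hL1pos
  have ez : Real.exp L1 = z := Real.exp_log hz0
  have h23 : L3 ^ 2 / 2 ≤ L2 := by rw [← eL2]; exact sq_div_two_le_exp hL3pos.le
  have h23' : 500 * L3 ≤ L2 := by
    have h1 := mul_le_mul_of_nonneg_right hL3 hL3pos.le
    have h2 : 0 ≤ b6 * L3 := by positivity
    linarith
  have h23'' : 36 * b6 * L3 ≤ L2 := by linarith [mul_le_mul_of_nonneg_right hL3 hL3pos.le]
  have h12 : L2 ^ 3 / 6 ≤ L1 := by rw [← eL1]; exact cube_div_six_le_exp hL2pos.le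
  have hL2big : 500000 ≤ L2 := by linarith
  have h12' : 10 ^ 6 * L2 ≤ L1 := by
    have h := mul_le_mul hL2big hL2big (by norm_num) hL2pos.le
    linarith [mul_le_mul_of_nonneg_right h hL2pos.le]
  have hb6L2 : 100 * b6 ≤ L2 := by
    have h1 : (1000 : ℝ) ≤ L3 := by linarith
    linarith [mul_le_mul_of_nonneg_left h1 (show (0 : ℝ) ≤ b6 by linarith)]
  have hb6L2L1 : 100 * b6 * L2 ≤ L1 := by
    have h1 : L2 ^ 3 / 6 = L2 ^ 2 / 6 * L2 := by ring
    have h2 : 100 * b6 ≤ L2 ^ 2 / 6 := by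
      linarith [mul_le_mul_of_nonneg_right hL2big hL2pos.le]
    have h3 := mul_le_mul_of_nonneg_right h2 hL2pos.le
    linarith
  have h01 : L1 ^ 3 / 6 ≤ z := by rw [← ez]; exact cube_div_six_le_exp hL1pos.le
  have h01' : 10 ^ 4 * L1 ≤ z := by
    have h1 : L1 ^ 3 / 6 = L1 ^ 2 / 6 * L1 := by ring
    have h2 : (10 : ℝ) ^ 4 ≤ L1 ^ 2 / 6 := by
      linarith [mul_le_mul_of_nonneg_right (show (10 : ℝ) ^ 5 ≤ L1 by linarith) hL1pos.le]
    have h3 := mul_le_mul_of_nonneg_right h2 hL1pos.le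
    linarith
  have hLε : 9 ≤ ε * L1 := by
    have h1 : 9 / ε ≤ L1 := by linarith
    rw [div_le_iff₀ hε] at h1
    linarith
  have hC2ε : 8 * C2 ≤ ε * L1 := by
    have h1 : 8 * C2 / ε ≤ L1 := by linarith
    rw [div_le_iff₀ hε] at h1
    linarith
  have hB1 : L1 ≤ L1 ^ (B - 1) := by
    calc L1 = L1 ^ 1 := (pow_one _).symm
      _ ≤ L1 ^ (B - 1) := pow_le_pow_right₀ (by linarith) (by omega)
  have hBs : L1 ^ (B + 1) = L1 ^ (B - 1) * L1 ^ 2 := by
    rw [← pow_add]; congr 1; omega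
  have hPB : 0 < L1 ^ (B - 1) := by positivity
  rcases Nat.lt_or_ge t z with hcase | hcase
  · refine ⟨s, fun p hp _ => hs p hp, ?_⟩
    refine (uncovT_card_le T z p0 t _).trans ?_
    have h1 : (t : ℝ) ≤ z := by exact_mod_cast hcase.le
    have h2 : (1 : ℝ) ≤ ε * L1 ^ (B - 1) := by
      have : ε * L1 ≤ ε * L1 ^ (B - 1) := by gcongr
      linarith
    calc (t : ℝ) ≤ z * 1 := by linarith
      _ ≤ z * (ε * L1 ^ (B - 1)) := by gcongr
      _ = _ := by ring
  -- main case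
  have ht0 : 0 < t := by omega
  have ht0' : (0 : ℝ) < t := by exact_mod_cast ht0
  have htz : (z : ℝ) ≤ t := by exact_mod_cast hcase
  have htU : (t : ℝ) ≤ c * (z * L1 ^ (B + 1) * L3 / L2 ^ 2) := htC
  have htzL : (t : ℝ) ≤ z * L1 ^ (B + 1) := by
    have h1 : z * L1 ^ (B + 1) * L3 / L2 ^ 2 ≤ z * L1 ^ (B + 1) := by
      rw [div_le_iff₀ (by positivity)]
      have h2 : L3 ≤ L2 ^ 2 := by linarith [mul_le_mul_of_nonneg_right hL2big hL2pos.le]
      have h3 : 0 ≤ z * L1 ^ (B + 1) := by positivity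
      exact mul_le_mul_of_nonneg_left h2 h3
    have h2 : 0 ≤ z * L1 ^ (B + 1) * L3 / L2 ^ 2 := by positivity
    calc (t : ℝ) ≤ c * (z * L1 ^ (B + 1) * L3 / L2 ^ 2) := htU
      _ ≤ 1 * (z * L1 ^ (B + 1) * L3 / L2 ^ 2) := by gcongr
      _ ≤ _ := by linarith
  have hlogtz : Real.log ((t : ℝ) / z) ≤ (B + 1) * L2 := by
    have h1 : (t : ℝ) / z ≤ L1 ^ (B + 1) := by
      rw [div_le_iff₀ hz0]; linarith
    calc Real.log ((t : ℝ) / z) ≤ Real.log (L1 ^ (B + 1)) := Real.log_le_log (by positivity) h1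
      _ = (B + 1) * L2 := by
          rw [Real.log_pow]; push_cast; ring
  have hlogt2 : Real.log t ≤ 2 * L1 := by
    have h1 : Real.log t = Real.log ((t : ℝ) / z) + L1 := by
      rw [Real.log_div ht0'.ne' hz0.ne']; ring
    have h2 : ((B : ℝ) + 1) * L2 ≤ b6 * L2 := by
      apply mul_le_mul_of_nonneg_right _ hL2pos.le
      linarith
    linarith
  have hlogt1 : L1 ≤ Real.log t := Real.log_le_log hz0 htz
  -- w
  set E : ℝ := L1 * L3 / (2 * b6 * L2) with hE
  have hE0 : 0 < E := by positivity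
  have hEL1 : 60 * E ≤ L1 / 4 := by
    rw [hE, mul_div_assoc', div_le_div_iff₀ (by positivity) (by norm_num)]
    have h1 : 60 * (L1 * L3) * 4 = (240 * L3) * L1 := by ring
    have h2 : L1 * (2 * b6 * L2) = (2 * b6 * L2) * L1 := by ring
    rw [h1, h2]
    apply mul_le_mul_of_nonneg_right _ hL1pos.le
    linarith [mul_le_mul_of_nonneg_right hb6pos hL2pos.le]
  have hE1 : 100 ≤ E := by
    rw [hE, le_div_iff₀ (by positivity)]
    have h1 : 200 * b6 * L2 ≤ L1 * 2 := by linarith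
    linarith [mul_le_mul_of_nonneg_left (show (1000 : ℝ) ≤ L3 by linarith) hL1pos.le]
  set w : ℕ := ⌊Real.exp E⌋₊ with hw
  have hexpE : (1000 : ℝ) ≤ Real.exp E := by
    have := sq_div_two_le_exp hE0.le
    have h := mul_le_mul hE1 hE1 (by norm_num) (by linarith)
    linarith
  have hwle : (w : ℝ) ≤ Real.exp E := Nat.floor_le (Real.exp_pos _).le
  have hwge : Real.exp E / 2 ≤ w := by
    have := Nat.lt_floor_add_one (Real.exp E)
    rw [← hw] at this
    linarith
  have hw0 : (0 : ℝ) < w := by linarith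
  have hw256' : (256 : ℝ) ≤ w := by linarith
  have hw256 : 256 ≤ w := by exact_mod_cast hw256'
  have hlogw_le : Real.log w ≤ E := by
    rw [Real.log_le_iff_le_exp hw0]; exact hwle
  have hlogw_ge : L1 * L3 / (3 * b6 * L2) ≤ Real.log w := by
    have h1 : E - 1 ≤ Real.log w := by
      rw [Real.le_log_iff_exp_le hw0, Real.exp_sub]
      refine le_trans ?_ hwge
      apply div_le_div_of_nonneg_left (Real.exp_pos _).le (by norm_num)
      have := Real.add_one_le_exp (1 : ℝ); linarith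
    have h2 : L1 * L3 / (3 * b6 * L2) = E * (2 / 3) := by rw [hE]; field_simp
    rw [h2]; linarith
  have hlogwpos : 0 < Real.log w := Real.log_pos (by linarith)
  have hw60z : ((w : ℝ)) ^ 60 ≤ z := by
    calc ((w : ℝ)) ^ 60 ≤ (Real.exp E) ^ 60 := pow_le_pow_left₀ hw0.le hwle 60
      _ = Real.exp (60 * E) := by rw [← Real.exp_nat_mul]; norm_num
      _ ≤ Real.exp L1 := Real.exp_le_exp.mpr (by linarith)
      _ = z := ez
  have hw60 : w ^ 60 ≤ t := by
    have h2 : ((w ^ 60 : ℕ) : ℝ) ≤ t := by push_cast; linarith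
    exact_mod_cast h2
  have hwz : w ≤ z := by
    have h1 : (w : ℝ) ≤ (w : ℝ) ^ 60 := le_self_pow₀ (by linarith) (by norm_num)
    have : (w : ℝ) ≤ z := by linarith
    exact_mod_cast this
  have ht2 : 2 * #T + 1 ≤ t := by omega
  obtain ⟨b, hbt, hbT, hb⟩ := exists_centerT t T ht2 (setVg s t w p0) (bigB t z)
  obtain ⟨a, ha, hcount⟩ := lite_coreT T s hs z w t b p0 hwz hbt
  refine ⟨a, ha, ?_⟩
  have hcount' : (#(uncovT T z p0 t a) : ℝ) ≤ 1 + #{i ∈ setVg s t w p0 | nd i b ∈ bigB t z}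
        + 2 * #(smB t w (p0 * ∏ τ ∈ T, nd b τ)) := by exact_mod_cast hcount
  refine hcount'.trans ?_
  -- V
  have hVc := hV s w t p0 (by omega) hw60
  have hVc' : (#(setVg s t w p0) : ℝ) ≤ 3 * C1 * b6 * (t * L2 / (L1 * L3)) := by
    refine hVc.trans ?_
    have h1 : (t : ℝ) / Real.log w ≤ t / (L1 * L3 / (3 * b6 * L2)) := by
      apply div_le_div_of_nonneg_left ht0'.le (by positivity) hlogw_ge
    calc C1 * ((t : ℝ) / Real.log w) ≤ C1 * (t / (L1 * L3 / (3 * b6 * L2))) := by gcongr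
      _ = _ := by field_simp
  -- A
  have hAc := card_bigB t z hz2 hcase
  have hAc' : (#(bigB t z) : ℝ) ≤ 7 * (B + 2) * (t * L2 / L1) := by
    refine hAc.trans ?_
    have h1 : 1 + Real.log ((t : ℝ) / z) ≤ (B + 2) * L2 := by linarith
    calc 7 * ((t : ℝ) * (1 + Real.log ((t : ℝ) / z)) / Real.log z)
        ≤ 7 * ((t : ℝ) * ((B + 2) * L2) / L1) := by gcongr
      _ = _ := by ring
  have hVA : (#{i ∈ setVg s t w p0 | nd i b ∈ bigB t z} : ℝ) ≤ ε / 8 * (z * L1 ^ (B - 1)) := by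
    have h4 : (#{i ∈ setVg s t w p0 | nd i b ∈ bigB t z} : ℝ) * t ≤
        (84 * C1 * b6 * (B + 2) * (t * L2 ^ 2 / (L1 ^ 2 * L3))) * t := by
      calc (#{i ∈ setVg s t w p0 | nd i b ∈ bigB t z} : ℝ) * t
          ≤ 4 * #(setVg s t w p0) * #(bigB t z) := hb
        _ ≤ 4 * (3 * C1 * b6 * (t * L2 / (L1 * L3))) * (7 * (B + 2) * (t * L2 / L1)) := by gcongr
        _ = _ := by field_simp; ring
    have h5 := le_of_mul_le_mul_right h4 ht0'
    refine h5.trans ?_
    have h6 : (t : ℝ) * L2 ^ 2 / (L1 ^ 2 * L3) ≤ c * (z * L1 ^ (B - 1)) := by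
      calc (t : ℝ) * L2 ^ 2 / (L1 ^ 2 * L3) ≤
          (c * (z * L1 ^ (B + 1) * L3 / L2 ^ 2)) * L2 ^ 2 / (L1 ^ 2 * L3) := by gcongr
        _ = c * (z * L1 ^ (B - 1)) := by rw [hBs]; field_simp
    have h7 : 0 < 84 * C1 * b6 * ((B : ℝ) + 2) := by positivity
    calc 84 * C1 * b6 * (B + 2) * ((t : ℝ) * L2 ^ 2 / (L1 ^ 2 * L3))
        ≤ 84 * C1 * b6 * (B + 2) * (c * (z * L1 ^ (B - 1))) := by gcongr
      _ = (c * (700 * C1 * b6 * (B + 2))) * (84 / 700) * (z * L1 ^ (B - 1)) := by ring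
      _ ≤ ε * (84 / 700) * (z * L1 ^ (B - 1)) := by gcongr
      _ ≤ ε / 8 * (z * L1 ^ (B - 1)) := by
          apply mul_le_mul_of_nonneg_right _ (by positivity)
          linarith
  -- smooth part
  have hQ0 : p0 * ∏ τ ∈ T, nd b τ ≠ 0 := by
    apply Nat.mul_ne_zero (by omega)
    rw [Finset.prod_ne_zero_iff]
    intro τ hτ h
    apply hbT
    have : b = τ := by unfold nd at h; omega
    rw [this]; exact hτ
  have hQle : p0 * ∏ τ ∈ T, nd b τ ≤ t ^ (k + 1) := by
    calc p0 * ∏ τ ∈ T, nd b τ ≤ t * t ^ #T := by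
          apply Nat.mul_le_mul (hp0z.trans hcase)
          rw [← Finset.prod_const]
          apply Finset.prod_le_prod'
          intro τ hτ
          have := hTt τ hτ
          unfold nd; omega
      _ = t ^ (#T + 1) := by rw [pow_succ]; ring
      _ ≤ t ^ (k + 1) := Nat.pow_le_pow_right ht0 (by omega)
  set η : ℝ := (B + 5) * L2 / L1 with hη
  have hη0 : 0 < η := by positivity
  have hη1 : η ≤ 1 / 4 := by
    rw [hη, div_le_iff₀ hL1pos]
    have : ((B : ℝ) + 5) * L2 ≤ b6 * L2 := by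
      apply mul_le_mul_of_nonneg_right _ hL2pos.le
      linarith
    linarith
  have hSm := hS (k + 1) t w (p0 * ∏ τ ∈ T, nd b τ) η hw256 hη0 hη1 hQ0 hQle ht0
  have hSm' : (#(smB t w (p0 * ∏ τ ∈ T, nd b τ)) : ℝ) ≤ ε / 8 * (z * L1 ^ (B - 1)) := by
    refine hSm.trans ?_
    have h1 : (t : ℝ) ^ (1 - η) ≤ z * L1 ^ (B + 1) * Real.exp (-((B + 5) * L2)) := by
      rw [sub_eq_add_neg, Real.rpow_add ht0', Real.rpow_one]
      apply mul_le_mul htzL _ (by positivity) (by positivity)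
      rw [Real.rpow_def_of_pos ht0']
      apply Real.exp_le_exp.mpr
      have h2 : L1 * η ≤ Real.log t * η := by gcongr
      have h3 : L1 * η = (B + 5) * L2 := by rw [hη]; field_simp
      linarith
    have h2 : 2 * (w : ℝ) ^ η + ((k + 1 : ℕ) : ℝ) * (Real.log t / Real.log w) ≤ L2 := by
      have h3 : (w : ℝ) ^ η ≤ L2 / 8 := by
        have h4 : (w : ℝ) ^ η ≤ Real.exp (L3 / 2) := by
          rw [Real.rpow_def_of_pos hw0]
          apply Real.exp_le_exp.mpr
          calc Real.log w * η ≤ E * η := by gcongr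
            _ = ((B + 5) / b6) * (L3 / 2) := by rw [hE, hη]; field_simp
            _ ≤ 1 * (L3 / 2) := by
                apply mul_le_mul_of_nonneg_right _ (by positivity)
                rw [div_le_one (by positivity)]; linarith
            _ = L3 / 2 := one_mul _
        refine h4.trans ?_
        have h5 : Real.exp (L3 / 2) = L2 * Real.exp (-(L3 / 2)) := by
          rw [← eL2, ← Real.exp_add]; congr 1; ring
        rw [h5]
        have h6 : Real.exp (-(L3 / 2)) ≤ 1 / 8 := by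
          rw [Real.exp_neg, one_div]
          apply inv_anti₀ (by norm_num)
          have := Real.add_one_le_exp (L3 / 2)
          linarith
        linarith [mul_le_mul_of_nonneg_left h6 hL2pos.le]
      have h4 : Real.log t / Real.log w ≤ 6 * b6 * L2 / L3 := by
        rw [div_le_div_iff₀ hlogwpos hL3pos]
        have h5 : L1 * L3 ≤ 3 * b6 * L2 * Real.log w := by
          rw [div_le_iff₀ (by positivity)] at hlogw_ge
          linarith
        calc Real.log t * L3 ≤ 2 * L1 * L3 := by gcongr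
          _ = 2 * (L1 * L3) := by ring
          _ ≤ 2 * (3 * b6 * L2 * Real.log w) := by linarith
          _ = _ := by ring
      have h5 : ((k : ℝ) + 1) * (6 * b6 * L2 / L3) ≤ L2 / 4 := by
        rw [mul_div_assoc', div_le_div_iff₀ hL3pos (by norm_num)]
        have h6 : ((k : ℝ) + 1) * (6 * b6 * L2) * 4 = L2 * (24 * ((k : ℝ) + 1) * b6) := by ring
        rw [h6]
        exact mul_le_mul_of_nonneg_left hL3k hL2pos.le
      have h6 : ((k : ℝ) + 1) * (Real.log t / Real.log w) ≤ ((k : ℝ) + 1) * (6 * b6 * L2 / L3) :=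
        mul_le_mul_of_nonneg_left h4 (by positivity)
      push_cast
      linarith
    have h3 : Real.exp (2 * (w : ℝ) ^ η + ((k + 1 : ℕ) : ℝ) * (Real.log t / Real.log w)) ≤ L1 := by
      rw [← eL1]; exact Real.exp_le_exp.mpr h2
    have h4 : Real.exp (-((B + 5) * L2)) = 1 / L1 ^ (B + 5) := by
      rw [Real.exp_neg, one_div, ← eL1, ← Real.exp_nat_mul]
      congr 2; push_cast; ring
    have hwL1 : Real.log w ≤ L1 := by linarith
    rw [h4] at h1
    have hpow : L1 ^ (B + 5) = L1 ^ (B + 1) * L1 ^ 4 := by rw [← pow_add]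
    calc C2 * Real.log w * (t : ℝ) ^ (1 - η) *
          Real.exp (2 * (w : ℝ) ^ η + ((k + 1 : ℕ) : ℝ) * (Real.log t / Real.log w))
        ≤ C2 * L1 * (z * L1 ^ (B + 1) * (1 / L1 ^ (B + 5))) * L1 := by gcongr
      _ = (C2 / L1 ^ 2) * z := by
          rw [hpow]; field_simp
      _ ≤ (ε / 8 * L1 ^ (B - 1)) * z := by
          apply mul_le_mul_of_nonneg_right _ hz0.le
          rw [div_le_iff₀ (by positivity)]
          have e1 : 1 ≤ L1 ^ (B - 1) := one_le_pow₀ (by linarith)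
          have e2 : L1 ≤ L1 ^ 2 := le_self_pow₀ (by linarith) (by norm_num)
          have e3 : C2 ≤ ε / 8 * L1 ^ 2 := by
            have := mul_le_mul_of_nonneg_left e2 hε.le
            linarith
          have e4 : ε / 8 * L1 ^ 2 ≤ ε / 8 * L1 ^ 2 * L1 ^ (B - 1) :=
            le_mul_of_one_le_right (by positivity) e1
          calc C2 ≤ ε / 8 * L1 ^ 2 * L1 ^ (B - 1) := e3.trans e4
            _ = _ := by ring
      _ = _ := by ring
  have h1 : (1 : ℝ) ≤ ε / 9 * (z * L1 ^ (B - 1)) := by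
    have h2 : L1 * 1 ≤ L1 * z := by
      apply mul_le_mul_of_nonneg_left _ hL1pos.le
      linarith
    have h3 : (z : ℝ) * L1 ≤ z * L1 ^ (B - 1) := by gcongr
    have h4 : ε * L1 ≤ ε * (z * L1 ^ (B - 1)) := by
      apply mul_le_mul_of_nonneg_left _ hε.le
      linarith
    linarith
  have h2 : 0 < ε * (z * L1 ^ (B - 1)) := by positivity
  linarith

end Pool.Agent.H16
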