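import Pool.Agent.H16.MT14
import Pool.Agent.H16.MT12
import Pool.Agent.H16.MT2
import Pool.Agent.H16.PG7

/-!
Uniform Maynard-Tao theorem in the Erdős–Rankin range: assembly.
-/

set_option autoImplicit false

open Finset Filter Topology

namespace Pool.Agent.H16

open Pool.Agent.H90 (MT.Col MT.Lam MT.GOK MT.A1 MT.A2)

/-- good integers: at least `m + 1` primes among `n + H`, and no other primes up to the end of `n + H` -/
noncomputable def MG (m : ℕ) (ℓ : ℝ) (H : Finset ℕ) : Finset ℕ := by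
  classical
  exact (Ioc 0 ⌊Real.exp ℓ⌋₊).filter (fun n =>
    m + 1 ≤ #(H.filter (fun τ => (n + τ).Prime ∧ n + τ ≤ ⌊Real.exp ℓ⌋₊)) ∧
    ∀ i ≤ H.sup id, i ∉ H → ¬ (n + i).Prime)

/-- a cover for all `e` -/
lemma cover_eT (k : ℕ) (ε : ℝ) (hε : 0 < ε) : ∃ c : ℝ, 0 < c ∧
    ∀ᶠ z : ℕ in atTop, ∀ (e t : ℕ) (T : Finset ℕ), 1 ≤ e → #T ≤ k → (∀ τ ∈ T, τ < t) →
    (∀ p, p.Prime → ∃ r, ∀ τ ∈ T, r % p ≠ τ % p) →
    (t : ℝ) ≤ c * (z * (Real.log z) ^ 4 * Real.log (Real.log (Real.log z)) /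
      (Real.log (Real.log z)) ^ 2) →
    ∃ a : ℕ → ℕ, (∀ p, p.Prime → p ≤ z → ∀ τ ∈ T, a p % p ≠ τ % p) ∧
      (#(uncovT T z e t a) : ℝ) ≤ ε * (z * (Real.log z) ^ 2) := by
  obtain ⟨c, hc, h⟩ := cover_T k ε hε 3 (by norm_num)
  refine ⟨c, hc, ?_⟩
  filter_upwards [h, eventually_ge_atTop 1] with z hz hz1 e t T he hT hTt hadm htz
  by_cases hez : e ≤ z
  · obtain ⟨a, h1, h2⟩ := hz e t T he hez hT hTt hadm htz
    exact ⟨a, h1, h2⟩
  · obtain ⟨a, h1, h2⟩ := hz 1 t T le_rfl hz1 hT hTt hadm htz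
    refine ⟨a, h1, le_trans ?_ h2⟩
    have : uncovT T z e t a ⊆ uncovT T z 1 t a := by
      classical
      intro i hi
      simp only [uncovT, Finset.mem_filter, Finset.mem_range] at hi ⊢
      refine ⟨hi.1, hi.2.1, fun p hp hpz _ => hi.2.2 p hp hpz (by omega)⟩
    exact_mod_cast Finset.card_le_card this

lemma tendsto_RS : Tendsto RS atTop atTop := by
  have hll : Tendsto (fun ℓ : ℝ => Real.log (Real.log ℓ)) atTop atTop :=
    Real.tendsto_log_atTop.comp Real.tendsto_log_atTop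
  have hlll : Tendsto (fun ℓ : ℝ => Real.log (Real.log (Real.log ℓ))) atTop atTop :=
    Real.tendsto_log_atTop.comp hll
  apply Filter.tendsto_atTop_mono' atTop _ tendsto_id
  filter_upwards [hll.eventually (eventually_ge_atTop (10 : ℝ)),
    hlll.eventually (eventually_ge_atTop (1 : ℝ)), eventually_ge_atTop (4 : ℝ)] with ℓ h2 h3 h4
  have hℓ0 : 0 < ℓ := by linarith
  have hl0 : 0 < Real.log ℓ := Real.log_pos (by linarith)
  set L2 := Real.log (Real.log ℓ) with hL2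
  have hL2pos : 0 < L2 := by linarith
  have h5 : L2 ^ 2 ≤ Real.log ℓ := by
    have h6 : Real.exp L2 = Real.log ℓ := Real.exp_log hl0
    rw [← h6]
    have h7 := cube_div_six_le_exp hL2pos.le
    have h8 : L2 ^ 2 ≤ L2 ^ 3 / 6 := by
      have : L2 ^ 3 / 6 = L2 ^ 2 * (L2 / 6) := by ring
      rw [this]
      apply le_mul_of_one_le_right (by positivity)
      linarith
    linarith
  show ℓ ≤ RS ℓ
  unfold RS
  rw [le_div_iff₀ (by positivity)]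
  calc ℓ * L2 ^ 2 ≤ ℓ * Real.log ℓ := mul_le_mul_of_nonneg_left h5 hℓ0.le
    _ = ℓ * Real.log ℓ * 1 := (mul_one _).symm
    _ ≤ _ := mul_le_mul_of_nonneg_left h3 (by positivity)

/-- errors are small -/
lemma ev_err (k m : ℕ) (c : ℝ) (hc : 0 < c) : ∀ᶠ ℓ : ℝ in atTop, ∀ φ W : ℝ, 0 < φ → φ ≤ W →
    W ≤ Real.exp (1 / 10 * ℓ) →
    (k + 2 * ℓ ^ 2) * (((ℓ / c) ^ k) ^ 2 * (Real.exp ℓ * ℓ ^ (-(2 * (k : ℝ) + 3)) / φ)) +
      m * (((ℓ / c) ^ k) ^ 2 * (3 * ℓ * (Real.exp ((1 / 2 - 1 / 10) * ℓ) * (ℓ / c) ^ ((k + 1) ^ 2)))) ≤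
      Real.exp ℓ / (100 * φ) := by
  have h1 : ∀ᶠ ℓ : ℝ in atTop, 200 * ((k : ℝ) + 2) * (1 / c) ^ (2 * k) ≤ ℓ := eventually_ge_atTop _
  filter_upwards [h1, ev_exp_pow (1 / 2) (2 * (k : ℝ) + ((k : ℝ) + 1) ^ 2 + 1)
    (600 * (m + 1) * ((1 / c) ^ (2 * k) * (1 / c) ^ ((k + 1) ^ 2))) (by norm_num) (by positivity),
    eventually_ge_atTop (1 : ℝ)] with ℓ a1 a2 hℓ φ W hφ hφW hW
  have hℓ0 : 0 < ℓ := by linarith
  have hpart1 : (k + 2 * ℓ ^ 2) * (((ℓ / c) ^ k) ^ 2 * (Real.exp ℓ * ℓ ^ (-(2 * (k : ℝ) + 3)) / φ)) ≤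
      Real.exp ℓ / (200 * φ) := by
    have e1 : ((ℓ / c) ^ k) ^ 2 = ℓ ^ (2 * k) * (1 / c) ^ (2 * k) := by
      rw [← pow_mul, mul_comm k 2, div_eq_mul_one_div, mul_pow]
    have e2 : ℓ ^ (-(2 * (k : ℝ) + 3)) * (ℓ ^ (2 * k) * ℓ ^ 2) * ℓ = 1 := by
      rw [← Real.rpow_natCast ℓ (2 * k), ← Real.rpow_natCast ℓ 2, ← Real.rpow_add hℓ0,
        ← Real.rpow_add hℓ0]
      nth_rewrite 2 [← Real.rpow_one ℓ]
      rw [← Real.rpow_add hℓ0]
      push_cast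
      have : -(2 * (k : ℝ) + 3) + (2 * k + 2) + 1 = 0 := by ring
      rw [this, Real.rpow_zero]
    have e3 : (k : ℝ) + 2 * ℓ ^ 2 ≤ (k + 2) * ℓ ^ 2 := by
      have : 1 ≤ ℓ ^ 2 := one_le_pow₀ hℓ
      have hk0 : (0 : ℝ) ≤ k := Nat.cast_nonneg k
      have := mul_le_mul_of_nonneg_left this hk0
      linarith
    rw [e1]
    calc (k + 2 * ℓ ^ 2) * (ℓ ^ (2 * k) * (1 / c) ^ (2 * k) *
          (Real.exp ℓ * ℓ ^ (-(2 * (k : ℝ) + 3)) / φ)) ≤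
        ((k + 2) * ℓ ^ 2) * (ℓ ^ (2 * k) * (1 / c) ^ (2 * k) *
          (Real.exp ℓ * ℓ ^ (-(2 * (k : ℝ) + 3)) / φ)) :=
          mul_le_mul_of_nonneg_right e3 (by positivity)
      _ = (((k : ℝ) + 2) * (1 / c) ^ (2 * k)) * (Real.exp ℓ / φ) *
          (ℓ ^ (-(2 * (k : ℝ) + 3)) * (ℓ ^ (2 * k) * ℓ ^ 2)) := by ring
      _ ≤ (ℓ / 200) * (Real.exp ℓ / φ) * (ℓ ^ (-(2 * (k : ℝ) + 3)) * (ℓ ^ (2 * k) * ℓ ^ 2)) := by
          apply mul_le_mul_of_nonneg_right _ (by positivity)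
          apply mul_le_mul_of_nonneg_right _ (by positivity)
          linarith
      _ = (ℓ ^ (-(2 * (k : ℝ) + 3)) * (ℓ ^ (2 * k) * ℓ ^ 2) * ℓ) * (Real.exp ℓ / φ) / 200 := by ring
      _ = Real.exp ℓ / (200 * φ) := by rw [e2, one_mul, div_div, mul_comm φ 200]
  have hpart2 : m * (((ℓ / c) ^ k) ^ 2 * (3 * ℓ * (Real.exp ((1 / 2 - 1 / 10) * ℓ) *
      (ℓ / c) ^ ((k + 1) ^ 2)))) ≤ Real.exp ℓ / (200 * φ) := by
    have e1 : ((ℓ / c) ^ k) ^ 2 = ℓ ^ (2 * k) * (1 / c) ^ (2 * k) := by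
      rw [← pow_mul, mul_comm k 2, div_eq_mul_one_div, mul_pow]
    have e1' : (ℓ / c) ^ ((k + 1) ^ 2) = ℓ ^ ((k + 1) ^ 2) * (1 / c) ^ ((k + 1) ^ 2) := by
      rw [div_eq_mul_one_div, mul_pow]
    have e2 : ℓ ^ (2 * k) * ℓ ^ ((k + 1) ^ 2) * ℓ = ℓ ^ (2 * (k : ℝ) + ((k : ℝ) + 1) ^ 2 + 1) := by
      rw [← pow_add, ← pow_succ, ← Real.rpow_natCast]
      congr 1
      push_cast
      ring
    set Z := ℓ ^ (2 * (k : ℝ) + ((k : ℝ) + 1) ^ 2 + 1) with hZ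
    set D := (1 / c) ^ (2 * k) * (1 / c) ^ ((k + 1) ^ 2) with hD
    have hD0 : 0 < D := by positivity
    have hZ0 : 0 < Z := by positivity
    have hm0 : (0 : ℝ) ≤ m := Nat.cast_nonneg m
    have e4 : 600 * (m + 1) * D * Z ≤ Real.exp (1 / 2 * ℓ) := by
      have h5 : 0 < Real.exp (-(1 / 2 * ℓ)) := Real.exp_pos _
      have h6 : Real.exp (-(1 / 2 * ℓ)) * Real.exp (1 / 2 * ℓ) = 1 := by
        rw [← Real.exp_add]; simp
      have h7 := mul_le_mul_of_nonneg_right a2 (Real.exp_pos (1 / 2 * ℓ)).le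
      rw [mul_assoc, h6, one_mul, mul_one] at h7
      exact h7
    have e5 : (1 : ℝ) / Real.exp (1 / 10 * ℓ) ≤ 1 / φ := one_div_le_one_div_of_le hφ (hφW.trans hW)
    have e6 : Real.exp ℓ / (200 * φ) = Real.exp ℓ * (1 / φ) / 200 := by field_simp
    rw [e1, e1', e6]
    calc m * (ℓ ^ (2 * k) * (1 / c) ^ (2 * k) * (3 * ℓ * (Real.exp ((1 / 2 - 1 / 10) * ℓ) *
          (ℓ ^ ((k + 1) ^ 2) * (1 / c) ^ ((k + 1) ^ 2))))) =
        (3 * m * D * (ℓ ^ (2 * k) * ℓ ^ ((k + 1) ^ 2) * ℓ)) * Real.exp ((1 / 2 - 1 / 10) * ℓ) := by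
          rw [hD]; ring
      _ = (3 * m * D * Z) * Real.exp ((1 / 2 - 1 / 10) * ℓ) := by rw [e2]
      _ ≤ (Real.exp (1 / 2 * ℓ) / 200) * Real.exp ((1 / 2 - 1 / 10) * ℓ) := by
          apply mul_le_mul_of_nonneg_right _ (Real.exp_pos _).le
          have h8 : 3 * m * D * Z ≤ 600 * (m + 1) * D * Z / 200 := by
            have : 600 * ((m : ℝ) + 1) * D * Z / 200 = 3 * m * D * Z + 3 * D * Z := by ring
            rw [this]
            have : 0 < 3 * D * Z := by positivity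
            linarith
          linarith
      _ = Real.exp ℓ * (1 / Real.exp (1 / 10 * ℓ)) / 200 := by
          have h9 : Real.exp ℓ * (1 / Real.exp (1 / 10 * ℓ)) =
              Real.exp (1 / 2 * ℓ) * Real.exp ((1 / 2 - 1 / 10) * ℓ) := by
            rw [one_div, ← Real.exp_neg, ← Real.exp_add, ← Real.exp_add]
            congr 1; ring
          rw [h9]; ring
      _ ≤ Real.exp ℓ * (1 / φ) / 200 := by
          apply div_le_div_of_nonneg_right _ (by norm_num)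
          exact mul_le_mul_of_nonneg_left e5 (Real.exp_pos _).le
  have e7 : Real.exp ℓ / (100 * φ) = Real.exp ℓ / (200 * φ) + Real.exp ℓ / (200 * φ) := by
    field_simp; norm_num
  rw [e7]
  exact add_le_add hpart1 hpart2

/-- final size -/
lemma ev_final_mt (k : ℕ) (hk : 0 < k) (c ε : ℝ) (hc : 0 < c) (hε : 0 < ε) : ∀ᶠ ℓ : ℝ in atTop,
    ∀ W L : ℝ, 0 < W → W ≤ Real.exp (ε / 4 * ℓ) → Real.log ℓ / 2 ≤ L →
    Real.exp ((1 - ε) * ℓ) * (k * ℓ * (Real.exp (8 * k * (ℓ / L)) * ((ℓ / c) ^ k) ^ 2)) ≤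
      Real.exp ℓ / (100 * W) := by
  filter_upwards [ev_exp_pow (ε / 4) (2 * (k : ℝ) + 1) (100 * k * (1 / c) ^ (2 * k)) (by positivity)
    (by positivity), Real.tendsto_log_atTop.eventually (eventually_ge_atTop (64 * k / ε + 1)),
    eventually_ge_atTop (1 : ℝ)] with ℓ a1 a2 hℓ W L hW0 hW hL
  have hℓ0 : 0 < ℓ := by linarith
  have hk0 : (0 : ℝ) < k := by exact_mod_cast hk
  have h64 : 0 < 64 * (k : ℝ) / ε := by positivity
  have hlog0 : 0 < Real.log ℓ := by linarith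
  have hL0 : 0 < L := by linarith
  have e1 : ((ℓ / c) ^ k) ^ 2 = ℓ ^ (2 * k) * (1 / c) ^ (2 * k) := by
    rw [← pow_mul, mul_comm k 2, div_eq_mul_one_div, mul_pow]
  have e2 : ℓ ^ (2 * k) * ℓ = ℓ ^ (2 * (k : ℝ) + 1) := by
    rw [← pow_succ, ← Real.rpow_natCast]
    congr 1
    push_cast
    ring
  have e3 : 8 * k * (ℓ / L) ≤ ε / 4 * ℓ := by
    have h1 : 64 * (k : ℝ) / ε ≤ Real.log ℓ := by linarith
    rw [div_le_iff₀ hε] at h1
    rw [mul_div_assoc', div_le_iff₀ hL0]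
    have h2 : 8 * (k : ℝ) ≤ ε / 4 * L := by
      have := mul_le_mul_of_nonneg_left hL (show 0 ≤ ε / 4 by positivity)
      linarith
    calc 8 * k * ℓ ≤ ε / 4 * L * ℓ := mul_le_mul_of_nonneg_right h2 hℓ0.le
      _ = _ := by ring
  have e4 : 100 * k * (1 / c) ^ (2 * k) * ℓ ^ (2 * (k : ℝ) + 1) ≤ Real.exp (ε / 4 * ℓ) := by
    have h6 : Real.exp (-(ε / 4 * ℓ)) * Real.exp (ε / 4 * ℓ) = 1 := by
      rw [← Real.exp_add]; simp
    have h7 := mul_le_mul_of_nonneg_right a1 (Real.exp_pos (ε / 4 * ℓ)).le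
    rw [mul_assoc, h6, one_mul, mul_one] at h7
    exact h7
  rw [le_div_iff₀ (by positivity), e1]
  calc Real.exp ((1 - ε) * ℓ) * (k * ℓ * (Real.exp (8 * k * (ℓ / L)) *
        (ℓ ^ (2 * k) * (1 / c) ^ (2 * k)))) * (100 * W) =
      Real.exp ((1 - ε) * ℓ) * (100 * k * (1 / c) ^ (2 * k) * (ℓ ^ (2 * k) * ℓ)) *
        (Real.exp (8 * k * (ℓ / L)) * W) := by ring
    _ ≤ Real.exp ((1 - ε) * ℓ) * Real.exp (ε / 4 * ℓ) * (Real.exp (ε / 4 * ℓ) * Real.exp (ε / 4 * ℓ)) := by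
        rw [e2]
        apply mul_le_mul
        · exact mul_le_mul_of_nonneg_left e4 (Real.exp_pos _).le
        · exact mul_le_mul (Real.exp_le_exp.mpr e3) hW hW0.le (Real.exp_pos _).le
        · positivity
        · positivity
    _ = Real.exp ((1 - ε) * ℓ + ε / 4 * ℓ + (ε / 4 * ℓ + ε / 4 * ℓ)) := by
        rw [Real.exp_add, Real.exp_add, Real.exp_add]
    _ ≤ Real.exp ℓ := by
        apply Real.exp_le_exp.mpr
        have : 0 < ε * ℓ := by positivity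
        linarith

end Pool.Agent.H16
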