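import Pool.Agent.H16.Mertens

/-!
Finite Euler products: smooth-number counts and the Mertens product upper bound.
-/

set_option autoImplicit false

open Finset Real

namespace Pool.Agent.H16

lemma sum_le_euler (f : ℕ →* ℝ) (hf0 : ∀ n, 0 ≤ f n) (hf1 : ∀ p : ℕ, p.Prime → f p < 1)
    (S A : Finset ℕ) (hA : ∀ m ∈ A, m ∈ Nat.factoredNumbers S) :
    ∑ m ∈ A, f m ≤ ∏ p ∈ S with p.Prime, (1 - f p)⁻¹ := by
  have h := EulerProduct.summable_and_hasSum_factoredNumbers_prod_filter_prime_geometric (f := f)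
    (fun {p} hp => by rw [Real.norm_of_nonneg (hf0 p)]; exact hf1 p hp) S
  have h2 := sum_le_hasSum (A.subtype (· ∈ Nat.factoredNumbers S)) (fun m _ => hf0 m) h.2
  rw [Finset.sum_subtype_of_mem (fun m => f m) hA] at h2
  exact h2

/-- `n ↦ 1/n` -/
noncomputable def fInv : ℕ →* ℝ where
  toFun n := (n : ℝ)⁻¹
  map_one' := by simp
  map_mul' m n := by push_cast; rw [mul_inv]

/-- `n ↦ 1/√n` -/
noncomputable def fSqrt : ℕ →* ℝ where
  toFun n := (√(n : ℝ))⁻¹
  map_one' := by simp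
  map_mul' m n := by
    push_cast
    rw [Real.sqrt_mul (Nat.cast_nonneg m), mul_inv]

lemma fInv_apply (n : ℕ) : fInv n = (n : ℝ)⁻¹ := rfl
lemma fSqrt_apply (n : ℕ) : fSqrt n = (√(n : ℝ))⁻¹ := rfl

/-- Mertens product, upper bound with constant one. -/
theorem prod_primes_le (n : ℕ) (hn : 1 ≤ n) :
    ∏ p ∈ Nat.primesLE n, (1 - 1 / (p : ℝ)) ≤ 1 / Real.log (n + 1) := by
  have hlog : 0 < Real.log ((n : ℝ) + 1) := Real.log_pos (by
    have : (1 : ℝ) ≤ n := by exact_mod_cast hn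
    linarith)
  have h1 := sum_le_euler fInv (fun n => by rw [fInv_apply]; positivity)
    (fun p hp => by
      rw [fInv_apply]
      apply inv_lt_one_of_one_lt₀
      exact_mod_cast hp.one_lt) (Nat.primesLE n) (Finset.Icc 1 n) (by
      intro m hm
      rw [Nat.mem_factoredNumbers']
      intro p hp hpm
      rw [Finset.mem_Icc] at hm
      rw [Nat.mem_primesLE]
      exact ⟨(Nat.le_of_dvd (by omega) hpm).trans hm.2, hp⟩)
  have h2 : (Nat.primesLE n).filter Nat.Prime = Nat.primesLE n := by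
    apply Finset.filter_true_of_mem
    intro p hp
    exact (Nat.mem_primesLE.mp hp).2
  rw [h2] at h1
  have h3 : ∑ m ∈ Finset.Icc 1 n, fInv m = ((harmonic n : ℚ) : ℝ) := by
    rw [harmonic_eq_sum_Icc]
    push_cast
    rfl
  rw [h3] at h1
  have h4 := log_add_one_le_harmonic n
  have h5 : Real.log ((n : ℝ) + 1) ≤ ∏ p ∈ Nat.primesLE n, (1 - fInv p)⁻¹ := by
    push_cast at h4
    linarith
  have h6 : ∏ p ∈ Nat.primesLE n, (1 - fInv p)⁻¹ = (∏ p ∈ Nat.primesLE n, (1 - 1 / (p : ℝ)))⁻¹ := by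
    rw [← Finset.prod_inv_distrib]
    apply Finset.prod_congr rfl
    intro p _
    rw [fInv_apply, one_div]
  rw [h6] at h5
  have hpos : 0 < ∏ p ∈ Nat.primesLE n, (1 - 1 / (p : ℝ)) := by
    apply Finset.prod_pos
    intro p hp
    have : (1 : ℝ) < p := by exact_mod_cast (Nat.mem_primesLE.mp hp).2.one_lt
    have h7 : 1 / (p : ℝ) < 1 := by
      rw [div_lt_one (by linarith)]; exact this
    linarith
  rw [le_div_iff₀ hlog]
  calc (∏ p ∈ Nat.primesLE n, (1 - 1 / (p : ℝ))) * Real.log (n + 1)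
      ≤ (∏ p ∈ Nat.primesLE n, (1 - 1 / (p : ℝ))) *
        (∏ p ∈ Nat.primesLE n, (1 - 1 / (p : ℝ)))⁻¹ :=
        mul_le_mul_of_nonneg_left h5 hpos.le
    _ = 1 := mul_inv_cancel₀ hpos.ne'

/-- Rankin-type bound: integers `1 ≤ m ≤ t` all of whose prime factors lie in `S`. -/
theorem card_factored_le (S A : Finset ℕ) (t : ℕ) (hS : ∀ p ∈ S, p.Prime)
    (hA : ∀ m ∈ A, 1 ≤ m ∧ m ≤ t ∧ ∀ p, p.Prime → p ∣ m → p ∈ S) :
    (#A : ℝ) ≤ √(t : ℝ) * ∏ p ∈ S, (1 - (√(p : ℝ))⁻¹)⁻¹ := by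
  have h1 := sum_le_euler fSqrt (fun n => by rw [fSqrt_apply]; positivity)
    (fun p hp => by
      rw [fSqrt_apply]
      apply inv_lt_one_of_one_lt₀
      rw [Real.lt_sqrt (by norm_num)]
      have : (1 : ℝ) < p := by exact_mod_cast hp.one_lt
      linarith) S A (fun m hm => by
        rw [Nat.mem_factoredNumbers']
        exact (hA m hm).2.2)
  have h2 : S.filter Nat.Prime = S := Finset.filter_true_of_mem hS
  rw [h2] at h1
  have h3 : (#A : ℝ) ≤ √(t : ℝ) * ∑ m ∈ A, fSqrt m := by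
    rw [Finset.mul_sum, Finset.card_eq_sum_ones]
    push_cast
    apply Finset.sum_le_sum
    intro m hm
    obtain ⟨hm1, hmt, _⟩ := hA m hm
    rw [fSqrt_apply]
    have hm0 : (0 : ℝ) < m := by exact_mod_cast hm1
    have hs : 0 < √(m : ℝ) := Real.sqrt_pos.mpr hm0
    rw [← div_eq_mul_inv, le_div_iff₀ hs, one_mul]
    exact Real.sqrt_le_sqrt (by exact_mod_cast hmt)
  refine h3.trans ?_
  apply mul_le_mul_of_nonneg_left _ (Real.sqrt_nonneg _)
  exact h1

end Pool.Agent.H16
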