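import Pool.Agent.H16.WSieveMain

/-!
The fundamental lemma: two-sided sieve bounds with relative error `η` and level `y ^ M`, `M = M(η)`.
-/

set_option autoImplicit false

open Finset Real

namespace Pool.Agent.H16

/-- cost of the bucket with the parameter `k` -/
noncomputable def costk (i : ℕ) : ℝ := 24 * ((3.02 : ℝ) ^ (2 * i + 1) / ((2 * i + 1).factorial : ℝ))

lemma costk_nonneg (i : ℕ) : 0 ≤ costk i := by unfold costk; positivity

lemma summable_costk : Summable costk := by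
  have h := Real.summable_pow_div_factorial (3.02 : ℝ)
  have h2 : Function.Injective (fun i : ℕ => 2 * i + 1) := by
    intro a b hab
    simp only at hab
    omega
  exact (h.comp_injective h2).mul_left 24

lemma summable_costk2 : Summable (fun i : ℕ => costk i * 2 ^ i) := by
  have h := Real.summable_pow_div_factorial (6.04 : ℝ)
  have h2 : Function.Injective (fun i : ℕ => 2 * i + 1) := by
    intro a b hab
    simp only at hab
    omega
  have h3 := (h.comp_injective h2).mul_left 24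
  refine Summable.of_nonneg_of_le (fun i => mul_nonneg (costk_nonneg i) (by positivity)) (fun i => ?_) h3
  unfold costk
  simp only [Function.comp]
  have h4 : (6.04 : ℝ) ^ (2 * i + 1) = 3.02 ^ (2 * i + 1) * 2 ^ (2 * i + 1) := by
    rw [← mul_pow]; norm_num
  have h5 : (2 : ℝ) ^ i ≤ 2 ^ (2 * i + 1) := pow_le_pow_right₀ (by norm_num) (by omega)
  rw [h4]
  calc 24 * ((3.02 : ℝ) ^ (2 * i + 1) / ((2 * i + 1).factorial : ℝ)) * 2 ^ i ≤
      24 * ((3.02 : ℝ) ^ (2 * i + 1) / ((2 * i + 1).factorial : ℝ)) * 2 ^ (2 * i + 1) :=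
        mul_le_mul_of_nonneg_left h5 (by positivity)
    _ = _ := by ring

lemma exists_costk : ∃ C : ℝ, 0 < C ∧ ∀ k r : ℕ, ∑ j ∈ range r, costk (j + k) ≤
    C / 2 * (1 / 2) ^ k := by
  have hs := summable_costk2
  set T := ∑' i : ℕ, costk i * 2 ^ i with hT
  have hT0 : 0 ≤ T := tsum_nonneg (fun i => mul_nonneg (costk_nonneg i) (by positivity))
  refine ⟨2 * T + 2, by linarith, fun k r => ?_⟩
  have h1 : ∀ j ∈ range r, costk (j + k) ≤ (costk (j + k) * 2 ^ (j + k)) * (1 / 2) ^ k := by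
    intro j _
    have h2 : (2 : ℝ) ^ (j + k) * (1 / 2) ^ k = 2 ^ j := by
      rw [pow_add, mul_assoc, ← mul_pow]; norm_num
    rw [mul_assoc, h2]
    have h3 : (1 : ℝ) ≤ 2 ^ j := one_le_pow₀ (by norm_num)
    exact le_mul_of_one_le_right (costk_nonneg _) h3
  refine (Finset.sum_le_sum h1).trans ?_
  rw [← Finset.sum_mul]
  apply mul_le_mul_of_nonneg_right _ (by positivity)
  have hs' : Summable (fun j => costk (j + k) * 2 ^ (j + k)) := (summable_nat_add_iff k).mpr hs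
  have h4 : ∑ j ∈ range r, costk (j + k) * 2 ^ (j + k) ≤ ∑' j, costk (j + k) * 2 ^ (j + k) :=
    hs'.sum_le_tsum (range r) (fun j _ => mul_nonneg (costk_nonneg _) (by positivity))
  have h5 : ∑' j, costk (j + k) * 2 ^ (j + k) ≤ T := by
    have h6 := hs.sum_add_tsum_nat_add k
    have h7 : 0 ≤ ∑ i ∈ range k, costk i * 2 ^ i :=
      Finset.sum_nonneg (fun i _ => mul_nonneg (costk_nonneg i) (by positivity))
    rw [← hT] at h6
    linarith
  linarith

lemma sum_bk (k r : ℕ) : ∑ j ∈ range r, (2 * ((j : ℝ) + k)) * tw j =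
    (4 * k + 4) - (4 * k + 4 + 4 * (r : ℝ)) * tw r := by
  induction r with
  | zero => simp [tw]
  | succ r ih =>
    rw [Finset.sum_range_succ, ih, tw_succ r]
    push_cast
    ring

lemma exp_le_one_add_two (x : ℝ) (h0 : 0 ≤ x) (h1 : x ≤ 1) : Real.exp x ≤ 1 + 2 * x := by
  have h := Real.abs_exp_sub_one_le (x := x) (by rw [abs_of_nonneg h0]; exact h1)
  have := (abs_le.mp h).2
  rw [abs_of_nonneg h0] at this
  linarith

section
variable (z y : ℕ) (hz : 100 ≤ Real.log z) (hzy : z ≤ y)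
  (P : Finset ℕ) (hP : ∀ p ∈ P, p.Prime) (hPz : ∀ p ∈ P, z < p) (hPy : ∀ p ∈ P, p ≤ y)
  (g : ℕ → ℝ) (hg0 : ∀ p ∈ P, 0 ≤ g p) (hg4 : ∀ p ∈ P, g p ≤ 4 / p)
include hz hzy hP hPz hg0 hg4

lemma bucketw_costk (k j : ℕ) (hj : (z : ℝ) + 1 ≤ (y : ℝ) ^ tw j) :
    es (bucketw P z y j) g (2 * (j + k) + 1) / ∏ p ∈ bucketw P z y j, (1 - g p) ≤ costk (j + k) := by
  have h1 := bucketw_sum_g z y hz hzy P hP hPz g hg0 hg4 j hj
  have h2 := bucketw_prod_g z y hz hzy P hP hPz g hg0 hg4 j hj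
  have hg0' : ∀ p ∈ bucketw P z y j, 0 ≤ g p := by
    intro p hp
    unfold bucketw at hp
    exact hg0 p (Finset.mem_filter.mp hp).1
  have h3 := es_le_pow (bucketw P z y j) g hg0' (2 * (j + k) + 1)
  have h0 : 0 ≤ ∑ p ∈ bucketw P z y j, g p := Finset.sum_nonneg hg0'
  have h4 : (∑ p ∈ bucketw P z y j, g p) ^ (2 * (j + k) + 1) / ((2 * (j + k) + 1).factorial : ℝ)
      ≤ 3.02 ^ (2 * (j + k) + 1) / ((2 * (j + k) + 1).factorial : ℝ) := by gcongr
  calc es (bucketw P z y j) g (2 * (j + k) + 1) / ∏ p ∈ bucketw P z y j, (1 - g p)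
      ≤ (3.02 ^ (2 * (j + k) + 1) / ((2 * (j + k) + 1).factorial : ℝ)) / (1 / 24) := by
        apply div_le_div₀ (by positivity) (h3.trans h4) (by norm_num) h2
    _ = costk (j + k) := by unfold costk; ring

end

/-- **Fundamental lemma.** -/
theorem fundLemma : ∃ C : ℝ, 0 < C ∧ ∀ k : ℕ, C * (1 / 2) ^ k ≤ 1 → ∀ {ι : Type} (S : Finset ι) (a : ι → ℝ)
    (c : ι → ℕ → ℝ) (X : ℝ) (z y : ℕ) (_ : 100 ≤ Real.log z) (_ : z ≤ y)
    (P : Finset ℕ) (_ : ∀ p ∈ P, p.Prime) (_ : ∀ p ∈ P, z < p) (_ : ∀ p ∈ P, p ≤ y)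
    (g : ℕ → ℝ) (_ : ∀ p ∈ P, 0 ≤ g p) (_ : ∀ p ∈ P, g p ≤ 4 / p)
    (_ : ∀ n ∈ S, 0 ≤ a n) (_ : ∀ n ∈ S, ∀ p ∈ P, 0 ≤ c n p)
    (_ : ∀ n ∈ S, ∀ p ∈ P, c n p ≤ 1) (_ : 0 ≤ X),
    (∑ n ∈ S, a n * ∏ p ∈ P, (1 - c n p) ≤ (1 + C * (1 / 2) ^ k) * (X * ∏ p ∈ P, (1 - g p)) +
      ∑ D ∈ P.powerset.filter (fun D => (∏ p ∈ D, p) ≤ y ^ (4 * k + 5)), |RD S a c X g D|) ∧
    ((1 - C * (1 / 2) ^ k) * (X * ∏ p ∈ P, (1 - g p)) - 2 * Real.log y *
      ∑ D ∈ P.powerset.filter (fun D => (∏ p ∈ D, p) ≤ y ^ (4 * k + 5)), |RD S a c X g D| ≤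
      ∑ n ∈ S, a n * ∏ p ∈ P, (1 - c n p)) := by
  classical
  obtain ⟨C, hC, hcost0⟩ := exists_costk
  refine ⟨C, hC, ?_⟩
  intro k hk1 ι S a c X z y hz hzy P hP hPz hPy g hg0 hg4 ha hc0 hc1 hX
  have hk := hcost0 k
  set η' : ℝ := C / 2 * (1 / 2) ^ k with hη'
  have hη'pos : 0 < η' := by positivity
  have hη : C * (1 / 2) ^ k = 2 * η' := by rw [hη']; ring
  rw [hη] at hk1 ⊢
  have hη'1 : η' ≤ 1 / 2 := by linarith
  have hz0 := zw_pos z hz
  have hy1 : 1 ≤ y := by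
    have : 0 < z := by exact_mod_cast hz0
    omega
  have hy0 : (0 : ℝ) < y := hz0.trans_le (by exact_mod_cast hzy)
  have hlogzy : Real.log z ≤ Real.log y := Real.log_le_log hz0 (by exact_mod_cast hzy)
  obtain ⟨r, hr, hmin, hrle⟩ := exists_rw z y hz hzy
  set 𝒜 := P.powerset.filter (fun D => (∏ p ∈ D, p) ≤ y ^ (4 * k + 5)) with h𝒜
  set E := ∑ D ∈ 𝒜, |RD S a c X g D| with hE
  have hE0 : 0 ≤ E := Finset.sum_nonneg (fun D _ => abs_nonneg _)
  let J := range r
  let B : ℕ → Finset ℕ := fun j => bucketw P z y j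
  let b : ℕ → ℕ := fun j => 2 * (j + k)
  have hBP : ∀ j ∈ J, ∀ p ∈ B j, p ∈ P := by
    intro j _ p hp
    exact (Finset.mem_filter.mp hp).1
  have hdisj : ∀ i ∈ J, ∀ j ∈ J, i ≠ j → Disjoint (B i) (B j) :=
    fun i _ j _ hij => bucketw_disjoint P z y hy1 i j hij
  have hprod : ∀ h : ℕ → ℝ, ∏ j ∈ J, ∏ p ∈ B j, h p = ∏ p ∈ P, h p := by
    intro h
    rw [← Finset.prod_biUnion (fun i hi j hj hij => hdisj i hi j hj hij)]
    congr 1
    ext p
    rw [Finset.mem_biUnion]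
    constructor
    · rintro ⟨j, hj, hp⟩
      exact hBP j hj p hp
    · intro hp
      exact exists_bucketw P z y r hzy hr p hp (hPz p hp) (hPy p hp)
  have hb : ∀ j ∈ J, Even (b j) := fun j _ => ⟨j + k, by simp only [b]; ring⟩
  have hg1 : ∀ j ∈ J, ∀ p ∈ B j, g p < 1 := by
    intro j hj p hp
    have := gw_small z hz P hPz g hg4 p (hBP j hj p hp)
    linarith
  have hsumw : ∑ j ∈ J, ((b j : ℕ) : ℝ) * tw j ≤ 4 * k + 4 := by
    have h1 := sum_bk k r
    have h2 : 0 ≤ (4 * k + 4 + 4 * (r : ℝ)) * tw r := by have := tw_pos r; positivity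
    have h3 : ∑ j ∈ J, ((b j : ℕ) : ℝ) * tw j = ∑ j ∈ range r, (2 * ((j : ℝ) + k)) * tw j := by
      apply Finset.sum_congr rfl
      intro j _
      simp only [b]; push_cast; ring
    rw [h3, h1]; linarith
  have hlev : ∀ (D : Finset ℕ), D ⊆ P → ((∏ p ∈ D, p : ℕ) : ℝ) ≤ (y : ℝ) ^ (4 * k + 5 : ℝ) → D ∈ 𝒜 := by
    intro D hD hDp
    rw [h𝒜, Finset.mem_filter, Finset.mem_powerset]
    refine ⟨hD, ?_⟩
    have e : ((y : ℝ) ^ (4 * k + 5 : ℝ)) = ((y ^ (4 * k + 5) : ℕ) : ℝ) := by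
      rw [Nat.cast_pow, ← Real.rpow_natCast]; push_cast; rfl
    rw [e] at hDp
    exact_mod_cast hDp
  have hlowcard : ∀ (Q : Finset ℕ) (m : ℕ) (d : Finset ℕ), d ∈ low Q m → #d ≤ m := by
    intro Q m d hd
    unfold low at hd
    obtain ⟨i, hi, hdi⟩ := Finset.mem_biUnion.mp hd
    rw [(Finset.mem_powersetCard.mp hdi).2]
    have := Finset.mem_range.mp hi
    omega
  have hA1 : ∀ F ∈ J.pi (fun j => low (B j) (b j)), J.attach.biUnion (fun j => F j.1 j.2) ∈ 𝒜 := by
    intro F hF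
    rw [Finset.mem_pi] at hF
    have h := level_aux z y hz hzy P hP hPz hPy r hr hmin b (4 * k + 5) (by linarith) F (fun j hj =>
      ⟨low_subset _ _ _ (hF j hj), hlowcard _ _ _ (hF j hj)⟩)
    exact hlev _ h.1 h.2
  have hA2 : ∀ j0 ∈ J, ∀ F ∈ J.pi (fun j => if j = j0 then (B j).powersetCard (b j + 1)
      else low (B j) (b j)), J.attach.biUnion (fun j => F j.1 j.2) ∈ 𝒜 := by
    intro j0 hj0 F hF
    rw [Finset.mem_pi] at hF
    have hsum2 : ∑ j ∈ range r, (((if j = j0 then b j + 1 else b j : ℕ)) : ℝ) * tw j ≤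
        4 * k + 5 := by
      have h1 : ∀ j ∈ range r, (((if j = j0 then b j + 1 else b j : ℕ)) : ℝ) * tw j
          = (b j : ℝ) * tw j + if j = j0 then tw j else 0 := by
        intro j _
        split_ifs
        · push_cast; ring
        · push_cast; ring
      rw [Finset.sum_congr rfl h1, Finset.sum_add_distrib, Finset.sum_ite_eq' (range r) j0 tw,
        if_pos hj0]
      have h2 : tw j0 ≤ 1 := by
        have := tw_antitone (Nat.zero_le j0)
        rwa [tw_zero] at this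
      linarith
    have h := level_aux z y hz hzy P hP hPz hPy r hr hmin
      (fun j => if j = j0 then b j + 1 else b j) (4 * k + 5) hsum2 F (fun j hj => by
        have := hF j hj
        by_cases hjj : j = j0
        · rw [if_pos hjj] at this
          simp only [if_pos hjj]
          obtain ⟨h1, h2⟩ := Finset.mem_powersetCard.mp this
          exact ⟨h1, h2.le⟩
        · rw [if_neg hjj] at this
          simp only [if_neg hjj]
          exact ⟨low_subset _ _ _ this, hlowcard _ _ _ this⟩)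
    exact hlev _ h.1 h.2
  have hV : ∀ j ∈ J, 0 < ∏ p ∈ B j, (1 - g p) := fun j hj =>
    Finset.prod_pos (fun p hp => by linarith [hg1 j hj p hp])
  have hcost : ∀ j ∈ J, es (B j) g (b j + 1) / ∏ p ∈ B j, (1 - g p) ≤ costk (j + k) := fun j hj =>
    bucketw_costk z y hz hzy P hP hPz g hg0 hg4 k j (hmin j (Finset.mem_range.mp hj))
  have hsumcost : ∑ j ∈ J, es (B j) g (b j + 1) / ∏ p ∈ B j, (1 - g p) ≤ η' :=
    (Finset.sum_le_sum hcost).trans (hk r)
  have hPnn : 0 ≤ ∏ p ∈ P, (1 - g p) := by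
    apply Finset.prod_nonneg
    intro p hp
    have := gw_small z hz P hPz g hg4 p hp
    linarith
  have hXP : 0 ≤ X * ∏ p ∈ P, (1 - g p) := mul_nonneg hX hPnn
  constructor
  · have h := upperW S a c X g J B b hb hdisj ha (fun n hn j hj p hp => hc0 n hn p (hBP j hj p hp))
      (fun n hn j hj p hp => hc1 n hn p (hBP j hj p hp)) hX
      (fun j hj p hp => hg0 p (hBP j hj p hp)) hg1 𝒜 hA1
    simp_rw [hprod] at h
    refine h.trans ?_
    have h2 : ∏ j ∈ J, (∏ p ∈ B j, (1 - g p) + es (B j) g (b j + 1)) ≤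
        (1 + 2 * η') * ∏ p ∈ P, (1 - g p) := by
      calc ∏ j ∈ J, (∏ p ∈ B j, (1 - g p) + es (B j) g (b j + 1))
          ≤ ∏ j ∈ J, ((∏ p ∈ B j, (1 - g p)) * Real.exp (costk (j + k))) := by
            apply Finset.prod_le_prod
            · intro j hj
              have := hV j hj
              have h3 := es_nonneg (B j) g (fun p hp => hg0 p (hBP j hj p hp)) (b j + 1)
              linarith
            · intro j hj
              have h3 := hcost j hj
              rw [div_le_iff₀ (hV j hj)] at h3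
              have h4 := Real.add_one_le_exp (costk (j + k))
              have h5 := hV j hj
              nlinarith
        _ = (∏ p ∈ P, (1 - g p)) * Real.exp (∑ j ∈ J, costk (j + k)) := by
            rw [Finset.prod_mul_distrib, hprod, Real.exp_sum]
        _ ≤ (∏ p ∈ P, (1 - g p)) * (1 + 2 * η') := by
            apply mul_le_mul_of_nonneg_left _ hPnn
            calc Real.exp (∑ j ∈ J, costk (j + k)) ≤ Real.exp η' :=
                  Real.exp_le_exp.mpr (hk r)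
              _ ≤ 1 + 2 * η' := exp_le_one_add_two _ hη'pos.le (by linarith)
        _ = _ := by ring
    have h3 := mul_le_mul_of_nonneg_left h2 hX
    have h4 : X * ((1 + 2 * η') * ∏ p ∈ P, (1 - g p)) = (1 + 2 * η') * (X * ∏ p ∈ P, (1 - g p)) := by ring
    rw [h4] at h3
    linarith
  · have h := lowerW S a c X g J B b hb hdisj ha (fun n hn j hj p hp => hc0 n hn p (hBP j hj p hp))
      (fun n hn j hj p hp => hc1 n hn p (hBP j hj p hp)) hX
      (fun j hj p hp => hg0 p (hBP j hj p hp)) hg1 𝒜 hA1 hA2 (by linarith)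
    simp_rw [hprod] at h
    refine le_trans ?_ h
    have hJ : (1 + (#J : ℝ)) ≤ 2 * Real.log y := by
      simp only [J, Finset.card_range]
      linarith
    have h6 : (1 + (#J : ℝ)) * E ≤ 2 * Real.log y * E := mul_le_mul_of_nonneg_right hJ hE0
    have h7 : (1 - 2 * η') * (X * ∏ p ∈ P, (1 - g p)) ≤ X * (∏ p ∈ P, (1 - g p)) *
        (1 - ∑ j ∈ J, es (B j) g (b j + 1) / ∏ p ∈ B j, (1 - g p)) := by
      rw [mul_comm (1 - 2 * η')]
      exact mul_le_mul_of_nonneg_left (by linarith) hXP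
    linarith

end Pool.Agent.H16
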