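import Pool.Agent.H16.WSieve
import Pool.Agent.H16.Mertens

/-!
Weighted sieve of dimension at most four with an explicit (non-optimised) level `y ^ 25`.
-/

set_option autoImplicit false

open Finset Real

namespace Pool.Agent.H16

/-- exponents -/
noncomputable def tw (j : ℕ) : ℝ := (1 / 2 : ℝ) ^ j

lemma tw_pos (j : ℕ) : 0 < tw j := by unfold tw; positivity

lemma tw_zero : tw 0 = 1 := by simp [tw]

lemma tw_succ (j : ℕ) : tw j = 2 * tw (j + 1) := by
  unfold tw; rw [pow_succ]; ring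

lemma tw_antitone : Antitone tw := by
  apply antitone_nat_of_succ_le
  intro j
  rw [tw_succ j]
  have := tw_pos (j + 1)
  linarith

/-- cut points -/
noncomputable def cutw (z y j : ℕ) : ℕ := max z ⌊(y : ℝ) ^ tw j⌋₊

lemma cutw_zero (z y : ℕ) (hzy : z ≤ y) : cutw z y 0 = y := by
  unfold cutw
  rw [tw_zero, Real.rpow_one, Nat.floor_natCast, max_eq_right hzy]

lemma cutw_ge (z y j : ℕ) : z ≤ cutw z y j := le_max_left _ _

lemma cutw_antitone (z y : ℕ) (hy : 1 ≤ y) : Antitone (cutw z y) := by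
  intro i j hij
  unfold cutw
  apply max_le_max le_rfl
  apply Nat.floor_mono
  apply Real.rpow_le_rpow_of_exponent_le
  · exact_mod_cast hy
  · exact tw_antitone hij

/-- buckets -/
noncomputable def bucketw (P : Finset ℕ) (z y j : ℕ) : Finset ℕ :=
  P.filter (fun p => cutw z y (j + 1) < p ∧ p ≤ cutw z y j)

lemma bucketw_disjoint (P : Finset ℕ) (z y : ℕ) (hy : 1 ≤ y) (i j : ℕ) (hij : i ≠ j) :
    Disjoint (bucketw P z y i) (bucketw P z y j) := by
  rw [Finset.disjoint_left]
  intro p hp hp'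
  unfold bucketw at hp hp'
  rw [Finset.mem_filter] at hp hp'
  rcases Nat.lt_or_gt_of_ne hij with h | h
  · have := cutw_antitone z y hy (show i + 1 ≤ j by omega)
    omega
  · have := cutw_antitone z y hy (show j + 1 ≤ i by omega)
    omega

lemma exists_bucketw (P : Finset ℕ) (z y r : ℕ) (hzy : z ≤ y) (hr : cutw z y r = z) (p : ℕ)
    (hp : p ∈ P) (hzp : z < p) (hpy : p ≤ y) : ∃ j ∈ range r, p ∈ bucketw P z y j := by
  have hex : ∃ j, cutw z y j < p := ⟨r, by rw [hr]; exact hzp⟩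
  classical
  let j0 := Nat.find hex
  have hj0 : cutw z y j0 < p := Nat.find_spec hex
  have hj0pos : j0 ≠ 0 := by
    intro h
    rw [h, cutw_zero z y hzy] at hj0
    omega
  have hmin : ¬ cutw z y (j0 - 1) < p := Nat.find_min hex (by omega)
  have hle : j0 ≤ r := Nat.find_min' hex (by rw [hr]; exact hzp)
  refine ⟨j0 - 1, by rw [Finset.mem_range]; omega, ?_⟩
  unfold bucketw
  rw [Finset.mem_filter]
  have e : j0 - 1 + 1 = j0 := by omega
  rw [e]
  exact ⟨hp, hj0, by omega⟩

lemma exists_rw (z y : ℕ) (hz : 100 ≤ Real.log z) (hzy : z ≤ y) :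
    ∃ r : ℕ, cutw z y r = z ∧ (∀ j < r, (z : ℝ) + 1 ≤ (y : ℝ) ^ tw j) ∧
      (r : ℝ) ≤ Real.log y := by
  have hz0 : (0 : ℝ) < z := by
    by_contra h
    have : (z : ℝ) = 0 := le_antisymm (not_lt.mp h) (Nat.cast_nonneg z)
    rw [this, Real.log_zero] at hz
    norm_num at hz
  have hy0 : (0 : ℝ) < y := hz0.trans_le (by exact_mod_cast hzy)
  have hlogzy : Real.log z ≤ Real.log y := Real.log_le_log hz0 (by exact_mod_cast hzy)
  have hex : ∃ r : ℕ, (y : ℝ) ^ tw r < z + 1 := by
    obtain ⟨i, hi⟩ := exists_pow_lt_of_lt_one (show (0 : ℝ) < 1 / (Real.log y) by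
      apply one_div_pos.mpr; linarith) (show (1 / 2 : ℝ) < 1 by norm_num)
    refine ⟨i, ?_⟩
    have h1 : tw i * Real.log y ≤ Real.log z := by
      unfold tw
      have h2 : (1 / 2 : ℝ) ^ i * Real.log y < 1 := by
        rw [lt_div_iff₀ (by linarith)] at hi
        exact hi
      linarith
    rw [Real.rpow_def_of_pos hy0]
    calc Real.exp (Real.log y * tw i) ≤ Real.exp (Real.log z) := by
          apply Real.exp_le_exp.mpr; linarith
      _ = z := Real.exp_log hz0
      _ < z + 1 := by linarith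
  classical
  let r := Nat.find hex
  have hr : (y : ℝ) ^ tw r < z + 1 := Nat.find_spec hex
  have hmin : ∀ j < r, (z : ℝ) + 1 ≤ (y : ℝ) ^ tw j := fun j hj => not_lt.mp (Nat.find_min hex hj)
  refine ⟨r, ?_, hmin, ?_⟩
  · unfold cutw
    apply max_eq_left
    have : ⌊(y : ℝ) ^ tw r⌋₊ < z + 1 := by
      rw [Nat.floor_lt (by positivity)]
      push_cast
      exact hr
    omega
  · rcases Nat.eq_zero_or_pos r with h | h
    · rw [h]; push_cast; linarith
    · have h1 := hmin (r - 1) (by omega)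
      have h2 : Real.log z < tw (r - 1) * Real.log y := by
        have := Real.log_lt_log hz0 (show (z : ℝ) < (y : ℝ) ^ tw (r - 1) by linarith)
        rwa [Real.log_rpow hy0] at this
      obtain ⟨i, hi⟩ := Nat.exists_eq_add_of_le h
      have e1 : r - 1 = i := by omega
      rw [e1] at h2
      unfold tw at h2
      have h4 : (2 : ℝ) ^ i * (1 / 2) ^ i = 1 := by
        rw [← mul_pow]; norm_num
      have h5 : (0 : ℝ) < 2 ^ i := by positivity
      have h6 : 2 ^ i * Real.log z < 2 ^ i * ((1 / 2) ^ i * Real.log y) :=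
        mul_lt_mul_of_pos_left h2 h5
      have h7 : (2 : ℝ) ^ i * ((1 / 2) ^ i * Real.log y) = Real.log y := by
        rw [← mul_assoc, h4, one_mul]
      rw [h7] at h6
      have h8 : ((i + 1 : ℕ) : ℝ) ≤ 2 ^ i := by
        have : i + 1 ≤ 2 ^ i := Nat.lt_two_pow_self
        exact_mod_cast this
      have h9 : r = i + 1 := by omega
      rw [h9]
      nlinarith

lemma log_two_le' : Real.log 2 ≤ 0.6932 := by
  have := Real.log_two_lt_d9
  linarith

/-- sum of reciprocals of primes over a bucket -/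
lemma bucketw_sum_inv (P : Finset ℕ) (hP : ∀ p ∈ P, p.Prime) (z y j : ℕ)
    (hz : 100 ≤ Real.log z) (hzy : z ≤ y) (hj : (z : ℝ) + 1 ≤ (y : ℝ) ^ tw j) :
    ∑ p ∈ bucketw P z y j, (1 : ℝ) / p ≤ 0.7532 := by
  have hz0 : (0 : ℝ) < z := by
    by_contra h
    have : (z : ℝ) = 0 := le_antisymm (not_lt.mp h) (Nat.cast_nonneg z)
    rw [this, Real.log_zero] at hz
    norm_num at hz
  have hzN : 0 < z := by exact_mod_cast hz0
  have hy1 : 1 ≤ y := by omega
  have hy0 : (0 : ℝ) < y := hz0.trans_le (by exact_mod_cast hzy)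
  have hz2 : 2 ≤ z := by
    by_contra h
    have : z = 1 := by omega
    rw [this] at hz
    norm_num at hz
  have hcut2 : 2 ≤ cutw z y (j + 1) := hz2.trans (cutw_ge z y (j + 1))
  have hcc : cutw z y (j + 1) ≤ cutw z y j := cutw_antitone z y hy1 (Nat.le_succ j)
  have h := sum_inv_primes_le (cutw z y (j + 1)) (cutw z y j) hcut2 hcc
  have hsub : ∑ p ∈ bucketw P z y j, (1 : ℝ) / p ≤
      ∑ p ∈ primesIoc (cutw z y (j + 1)) (cutw z y j), (1 : ℝ) / p := by
    apply Finset.sum_le_sum_of_subset_of_nonneg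
    · intro p hp
      unfold bucketw at hp
      rw [Finset.mem_filter] at hp
      rw [mem_primesIoc]
      exact ⟨hp.2.1, hp.2.2, hP p hp.1⟩
    · intro p _ _
      positivity
  refine hsub.trans (h.trans ?_)
  have hlc1 : Real.log z ≤ Real.log (cutw z y (j + 1)) :=
    Real.log_le_log hz0 (by exact_mod_cast cutw_ge z y (j + 1))
  have hlc1pos : 0 < Real.log (cutw z y (j + 1)) := by linarith
  set v : ℝ := (y : ℝ) ^ tw (j + 1) with hv
  have hv1 : 1 ≤ v := Real.one_le_rpow (by exact_mod_cast hy1) (tw_pos _).le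
  have hlc2 : Real.log v ≤ Real.log (cutw z y (j + 1)) + Real.log 2 := by
    rw [← Real.log_mul (by positivity) (by norm_num)]
    apply Real.log_le_log (by positivity)
    unfold cutw
    rw [Nat.cast_max]
    have h1 : v < ⌊v⌋₊ + 1 := Nat.lt_floor_add_one v
    have h2 : (1 : ℝ) ≤ ⌊v⌋₊ := by
      have : 1 ≤ ⌊v⌋₊ := Nat.le_floor (by push_cast; exact hv1)
      exact_mod_cast this
    have h3 : (⌊v⌋₊ : ℝ) ≤ max (z : ℝ) ⌊v⌋₊ := le_max_right _ _
    linarith
  have hlc0 : Real.log (cutw z y j) ≤ 2 * Real.log v := by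
    have h2 : (0 : ℝ) < cutw z y j := by
      have : 0 < cutw z y j := by omega
      exact_mod_cast this
    have h3 : (cutw z y j : ℝ) ≤ (y : ℝ) ^ tw j := by
      unfold cutw
      rw [Nat.cast_max]
      apply max_le
      · linarith
      · exact Nat.floor_le (by positivity)
    calc Real.log (cutw z y j) ≤ Real.log ((y : ℝ) ^ tw j) := Real.log_le_log h2 h3
      _ = 2 * Real.log v := by
          rw [hv, Real.log_rpow hy0, Real.log_rpow hy0, tw_succ j]; ring
  have hl2 := log_two_le'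
  have hl20 : 0 < Real.log 2 := Real.log_pos (by norm_num)
  have hratio : Real.log (cutw z y j) / Real.log (cutw z y (j + 1)) ≤ 2 * (1 + Real.log 2 / 100) := by
    rw [div_le_iff₀ hlc1pos]
    have h3 : Real.log 2 ≤ Real.log 2 / 100 * Real.log (cutw z y (j + 1)) := by
      rw [div_mul_eq_mul_div, le_div_iff₀ (by norm_num)]
      have : 100 ≤ Real.log (cutw z y (j + 1)) := by linarith
      nlinarith
    nlinarith
  have hnn : 0 < Real.log (cutw z y j) := by
    have : Real.log (cutw z y (j + 1)) ≤ Real.log (cutw z y j) := by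
      apply Real.log_le_log
      · have : 0 < cutw z y (j + 1) := by omega
        exact_mod_cast this
      · exact_mod_cast hcc
    linarith
  have h3 : Real.log (Real.log (cutw z y j) / Real.log (cutw z y (j + 1)))
      ≤ Real.log 2 + Real.log 2 / 100 := by
    calc Real.log (Real.log (cutw z y j) / Real.log (cutw z y (j + 1)))
        ≤ Real.log (2 * (1 + Real.log 2 / 100)) := Real.log_le_log (by positivity) hratio
      _ = Real.log 2 + Real.log (1 + Real.log 2 / 100) := by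
          rw [Real.log_mul (by norm_num) (by positivity)]
      _ ≤ _ := by
          have := Real.log_le_sub_one_of_pos (show 0 < 1 + Real.log 2 / 100 by positivity)
          linarith
  have h4 : 5 / Real.log (cutw z y (j + 1)) ≤ 5 / 100 := by
    apply div_le_div_of_nonneg_left (by norm_num) (by norm_num)
    linarith
  linarith

/-- cost of bucket -/
noncomputable def costw (j : ℕ) : ℝ := 24 * ((3.02 : ℝ) ^ (2 * j + 11) / ((2 * j + 11).factorial : ℝ))

lemma costw_nonneg (j : ℕ) : 0 ≤ costw j := by unfold costw; positivity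

lemma costw_le (j : ℕ) : costw j ≤ (1 / 8) * (1 / 2) ^ j := by
  induction j with
  | zero => norm_num [costw, Nat.factorial]
  | succ j ih =>
    unfold costw at ih ⊢
    have e1 : 2 * (j + 1) + 11 = (2 * j + 11) + 1 + 1 := by ring
    rw [e1, Nat.factorial_succ, Nat.factorial_succ, pow_succ, pow_succ]
    push_cast
    have hf : (0 : ℝ) < ((2 * j + 11).factorial : ℝ) := by positivity
    have h1 : (24 : ℝ) * ((3.02 : ℝ) ^ (2 * j + 11) * 3.02 * 3.02 /
        ((2 * (j : ℝ) + 12 + 1) * ((2 * (j : ℝ) + 11 + 1) * ((2 * j + 11).factorial : ℝ))))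
        = (24 * ((3.02 : ℝ) ^ (2 * j + 11) / ((2 * j + 11).factorial : ℝ))) *
          (3.02 * 3.02 / ((2 * (j : ℝ) + 12 + 1) * (2 * (j : ℝ) + 11 + 1))) := by
      field_simp
    rw [h1]
    have h2 : (3.02 : ℝ) * 3.02 / ((2 * (j : ℝ) + 12 + 1) * (2 * (j : ℝ) + 11 + 1)) ≤ 1 / 2 := by
      rw [div_le_div_iff₀ (by positivity) (by norm_num)]
      have : (0 : ℝ) ≤ j := by positivity
      nlinarith
    calc (24 * ((3.02 : ℝ) ^ (2 * j + 11) / ((2 * j + 11).factorial : ℝ))) *
          (3.02 * 3.02 / ((2 * (j : ℝ) + 12 + 1) * (2 * (j : ℝ) + 11 + 1)))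
        ≤ ((1 / 8) * (1 / 2) ^ j) * (1 / 2) := by
          apply mul_le_mul ih h2 (by positivity) (by positivity)
      _ = (1 / 8) * (1 / 2) ^ (j + 1) := by ring

lemma sum_half (r : ℕ) : ∑ i ∈ range r, (1 / 2 : ℝ) ^ i ≤ 2 := by
  have := geom_sum_eq (x := (1 / 2 : ℝ)) (by norm_num) r
  rw [this]
  have h2 : (0 : ℝ) ≤ (1 / 2) ^ r := by positivity
  have : ((1 / 2 : ℝ) ^ r - 1) / (1 / 2 - 1) = 2 * (1 - (1 / 2) ^ r) := by
    field_simp; ring
  rw [this]; linarith

lemma sum_costw (r : ℕ) : ∑ j ∈ range r, costw j ≤ 1 / 4 := by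
  calc ∑ j ∈ range r, costw j ≤ ∑ j ∈ range r, (1 / 8 : ℝ) * (1 / 2) ^ j :=
        Finset.sum_le_sum (fun j _ => costw_le j)
    _ = (1 / 8) * ∑ j ∈ range r, (1 / 2 : ℝ) ^ j := by rw [Finset.mul_sum]
    _ ≤ _ := by have := sum_half r; linarith

lemma sum_bw (r : ℕ) : ∑ j ∈ range r, (2 * (j : ℝ) + 10) * tw j = 24 - (24 + 4 * (r : ℝ)) * tw r := by
  induction r with
  | zero => simp [tw]
  | succ r ih =>
    rw [Finset.sum_range_succ, ih, tw_succ r]
    push_cast
    ring

lemma exp_aux : Real.exp 3.0231 ≤ 24 := by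
  have h1 : Real.exp 0.755775 ≤ 2.13 := by
    have h := Real.exp_bound' (x := 0.755775) (by norm_num) (by norm_num) (n := 8) (by norm_num)
    refine h.trans ?_
    simp only [Finset.sum_range_succ, Finset.sum_range_zero, Nat.factorial]
    norm_num
  have h2 : Real.exp 3.0231 = (Real.exp 0.755775) ^ 4 := by
    rw [← Real.exp_nat_mul]; norm_num
  rw [h2]
  calc (Real.exp 0.755775) ^ 4 ≤ 2.13 ^ 4 := by
        apply pow_le_pow_left₀ (Real.exp_pos _).le h1
    _ ≤ 24 := by norm_num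

section
variable (z y : ℕ) (hz : 100 ≤ Real.log z) (hzy : z ≤ y)
  (P : Finset ℕ) (hP : ∀ p ∈ P, p.Prime) (hPz : ∀ p ∈ P, z < p) (hPy : ∀ p ∈ P, p ≤ y)
  (g : ℕ → ℝ) (hg0 : ∀ p ∈ P, 0 ≤ g p) (hg4 : ∀ p ∈ P, g p ≤ 4 / p)
include hz hzy hP hPz hg0 hg4

omit hzy hP hPz hg0 hg4 in
lemma zw_pos : (0 : ℝ) < z := by
  by_contra h
  have : (z : ℝ) = 0 := le_antisymm (not_lt.mp h) (Nat.cast_nonneg z)
  rw [this, Real.log_zero] at hz
  norm_num at hz

omit hzy hP hPz hg0 hg4 in
lemma zw_large : (10 ^ 6 : ℝ) ≤ z := by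
  have h0 := zw_pos z hz
  have h1 : Real.exp (Real.log z) = z := Real.exp_log h0
  have h2 : Real.exp 100 ≤ z := by
    rw [← h1]; exact Real.exp_le_exp.mpr hz
  have h3 : (2 : ℝ) ^ 100 ≤ Real.exp 100 := by
    have : Real.exp 100 = (Real.exp 1) ^ 100 := by rw [← Real.exp_nat_mul]; norm_num
    rw [this]
    apply pow_le_pow_left₀ (by norm_num)
    have := Real.add_one_le_exp (1 : ℝ)
    linarith
  have h4 : (10 ^ 6 : ℝ) ≤ 2 ^ 100 := by norm_num
  linarith

lemma bucketw_sum_g (j : ℕ) (hj : (z : ℝ) + 1 ≤ (y : ℝ) ^ tw j) :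
    ∑ p ∈ bucketw P z y j, g p ≤ 3.02 := by
  have h := bucketw_sum_inv P hP z y j hz hzy hj
  have h1 : ∑ p ∈ bucketw P z y j, g p ≤ 4 * ∑ p ∈ bucketw P z y j, (1 : ℝ) / p := by
    rw [Finset.mul_sum]
    apply Finset.sum_le_sum
    intro p hp
    unfold bucketw at hp
    rw [Finset.mem_filter] at hp
    rw [mul_one_div]
    exact hg4 p hp.1
  linarith

omit hzy hP hg0 in
lemma gw_small (p : ℕ) (hp : p ∈ P) : g p ≤ 1 / 1500 := by
  have h1 := hg4 p hp
  have h2 : (z : ℝ) < p := by exact_mod_cast hPz p hp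
  have h3 := zw_large z hz
  have h4 : (4 : ℝ) / p ≤ 1 / 1500 := by
    rw [div_le_div_iff₀ (by linarith) (by norm_num)]
    linarith
  linarith

lemma bucketw_prod_g (j : ℕ) (hj : (z : ℝ) + 1 ≤ (y : ℝ) ^ tw j) :
    1 / 24 ≤ ∏ p ∈ bucketw P z y j, (1 - g p) := by
  have h := bucketw_sum_g z y hz hzy P hP hPz g hg0 hg4 j hj
  have h1 : ∏ p ∈ bucketw P z y j, Real.exp (-(g p * (1 + 1 / 1000))) ≤
      ∏ p ∈ bucketw P z y j, (1 - g p) := by
    apply Finset.prod_le_prod
    · intro p _; positivity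
    · intro p hp
      unfold bucketw at hp
      rw [Finset.mem_filter] at hp
      have hx1 := gw_small z hz P hPz g hg4 p hp.1
      have hx0 := hg0 p hp.1
      set x : ℝ := g p with hx
      have hx2 : 0 < 1 - x := by linarith
      have h2 := Real.one_sub_inv_le_log_of_pos hx2
      rw [← Real.le_log_iff_exp_le hx2]
      refine le_trans ?_ h2
      have h3 : 1 - (1 - x)⁻¹ = -(x / (1 - x)) := by field_simp; ring
      rw [h3]
      apply neg_le_neg
      rw [div_le_iff₀ hx2]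
      nlinarith
  rw [← Real.exp_sum] at h1
  refine le_trans ?_ h1
  rw [Finset.sum_neg_distrib, ← Finset.sum_mul, Real.exp_neg, one_div]
  apply inv_anti₀ (Real.exp_pos _)
  refine le_trans ?_ exp_aux
  apply Real.exp_le_exp.mpr
  nlinarith

lemma bucketw_cost (j : ℕ) (hj : (z : ℝ) + 1 ≤ (y : ℝ) ^ tw j) :
    es (bucketw P z y j) g (2 * j + 10 + 1) / ∏ p ∈ bucketw P z y j, (1 - g p) ≤ costw j := by
  have h1 := bucketw_sum_g z y hz hzy P hP hPz g hg0 hg4 j hj
  have h2 := bucketw_prod_g z y hz hzy P hP hPz g hg0 hg4 j hj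
  have hg0' : ∀ p ∈ bucketw P z y j, 0 ≤ g p := by
    intro p hp
    unfold bucketw at hp
    exact hg0 p (Finset.mem_filter.mp hp).1
  have h3 := es_le_pow (bucketw P z y j) g hg0' (2 * j + 11)
  have h0 : 0 ≤ ∑ p ∈ bucketw P z y j, g p := Finset.sum_nonneg hg0'
  have h4 : (∑ p ∈ bucketw P z y j, g p) ^ (2 * j + 11) / ((2 * j + 11).factorial : ℝ)
      ≤ 3.02 ^ (2 * j + 11) / ((2 * j + 11).factorial : ℝ) := by gcongr
  calc es (bucketw P z y j) g (2 * j + 10 + 1) / ∏ p ∈ bucketw P z y j, (1 - g p)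
      ≤ (3.02 ^ (2 * j + 11) / ((2 * j + 11).factorial : ℝ)) / (1 / 24) := by
        apply div_le_div₀ (by positivity) (h3.trans h4) (by norm_num) h2
    _ = costw j := by unfold costw; ring

include hPy

omit hg0 hg4 in
lemma level_aux (r : ℕ) (hr : cutw z y r = z) (hmin : ∀ j < r, (z : ℝ) + 1 ≤ (y : ℝ) ^ tw j)
    (m : ℕ → ℕ) (M : ℝ) (hM : ∑ j ∈ range r, (m j : ℝ) * tw j ≤ M)
    (F : ∀ j ∈ range r, Finset ℕ)
    (hF : ∀ j (hj : j ∈ range r), F j hj ⊆ bucketw P z y j ∧ #(F j hj) ≤ m j) :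
    (range r).attach.biUnion (fun j => F j.1 j.2) ⊆ P ∧
      ((∏ p ∈ (range r).attach.biUnion (fun j => F j.1 j.2), p : ℕ) : ℝ) ≤ (y : ℝ) ^ M := by
  have hz0 := zw_pos z hz
  have hy1 : 1 ≤ y := by
    have : 0 < z := by exact_mod_cast hz0
    omega
  have hy0 : (0 : ℝ) < y := hz0.trans_le (by exact_mod_cast hzy)
  have hy1' : (1 : ℝ) ≤ y := by exact_mod_cast hy1
  constructor
  · intro p hp
    simp only [Finset.mem_biUnion, Finset.mem_attach, true_and, Subtype.exists] at hp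
    obtain ⟨j, hj, hpj⟩ := hp
    have := (hF j hj).1 hpj
    unfold bucketw at this
    exact (Finset.mem_filter.mp this).1
  · push_cast
    rw [prod_attach_biUnion (range r) (fun j => bucketw P z y j)
      (fun i _ j _ hij => bucketw_disjoint P z y hy1 i j hij) F (fun j hj => (hF j hj).1)
      (fun p => (p : ℝ))]
    have h1 : ∀ j ∈ (range r).attach, ∏ p ∈ F j.1 j.2, (p : ℝ) ≤ (y : ℝ) ^ ((m j.1 : ℝ) * tw j.1) := by
      intro j _
      have hjr := Finset.mem_range.mp j.2
      have h3 : (cutw z y j.1 : ℝ) ≤ (y : ℝ) ^ tw j.1 := by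
        unfold cutw
        rw [Nat.cast_max]
        apply max_le
        · linarith [hmin j.1 hjr]
        · exact Nat.floor_le (by positivity)
      have hge1 : (1 : ℝ) ≤ (y : ℝ) ^ tw j.1 := Real.one_le_rpow hy1' (tw_pos _).le
      calc ∏ p ∈ F j.1 j.2, (p : ℝ) ≤ ∏ p ∈ F j.1 j.2, (y : ℝ) ^ tw j.1 := by
            apply Finset.prod_le_prod
            · intro p _; positivity
            · intro p hp
              have hp' := (hF j.1 j.2).1 hp
              unfold bucketw at hp'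
              rw [Finset.mem_filter] at hp'
              have : (p : ℝ) ≤ cutw z y j.1 := by exact_mod_cast hp'.2.2
              linarith
        _ = ((y : ℝ) ^ tw j.1) ^ (#(F j.1 j.2)) := by rw [Finset.prod_const]
        _ ≤ ((y : ℝ) ^ tw j.1) ^ (m j.1) := pow_le_pow_right₀ hge1 (hF j.1 j.2).2
        _ = (y : ℝ) ^ ((m j.1 : ℝ) * tw j.1) := by
            rw [← Real.rpow_natCast, ← Real.rpow_mul hy0.le, mul_comm]
    calc ∏ j ∈ (range r).attach, ∏ p ∈ F j.1 j.2, (p : ℝ)
        ≤ ∏ j ∈ (range r).attach, (y : ℝ) ^ ((m j.1 : ℝ) * tw j.1) := by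
          apply Finset.prod_le_prod
          · intro j _; exact Finset.prod_nonneg (fun p _ => by positivity)
          · exact h1
      _ = ∏ j ∈ range r, (y : ℝ) ^ ((m j : ℝ) * tw j) :=
          Finset.prod_attach (range r) (fun j => (y : ℝ) ^ ((m j : ℝ) * tw j))
      _ = (y : ℝ) ^ (∑ j ∈ range r, (m j : ℝ) * tw j) := by
          rw [Real.rpow_sum_of_pos hy0]
      _ ≤ (y : ℝ) ^ M := Real.rpow_le_rpow_of_exponent_le hy1' hM

end

section Final
variable {ι : Type*} (S : Finset ι) (a : ι → ℝ) (c : ι → ℕ → ℝ) (X : ℝ)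
  (z y : ℕ) (hz : 100 ≤ Real.log z) (hzy : z ≤ y)
  (P : Finset ℕ) (hP : ∀ p ∈ P, p.Prime) (hPz : ∀ p ∈ P, z < p) (hPy : ∀ p ∈ P, p ≤ y)
  (g : ℕ → ℝ) (hg0 : ∀ p ∈ P, 0 ≤ g p) (hg4 : ∀ p ∈ P, g p ≤ 4 / p)
  (ha : ∀ n ∈ S, 0 ≤ a n) (hc0 : ∀ n ∈ S, ∀ p ∈ P, 0 ≤ c n p)
  (hc1 : ∀ n ∈ S, ∀ p ∈ P, c n p ≤ 1) (hX : 0 ≤ X)
include hz hzy hP hPz hPy hg0 hg4 ha hc0 hc1 hX

/-- **Weighted sieve.**  Upper and lower bounds with level `y ^ 25`. -/
theorem wsieve :
    (∑ n ∈ S, a n * ∏ p ∈ P, (1 - c n p) ≤ 2 * X * ∏ p ∈ P, (1 - g p) +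
      ∑ D ∈ P.powerset.filter (fun D => (∏ p ∈ D, p) ≤ y ^ 25), |RD S a c X g D|) ∧
    (X / 2 * ∏ p ∈ P, (1 - g p) - 2 * Real.log y *
      ∑ D ∈ P.powerset.filter (fun D => (∏ p ∈ D, p) ≤ y ^ 25), |RD S a c X g D| ≤
      ∑ n ∈ S, a n * ∏ p ∈ P, (1 - c n p)) := by
  classical
  have hz0 := zw_pos z hz
  have hy1 : 1 ≤ y := by
    have : 0 < z := by exact_mod_cast hz0
    omega
  have hy0 : (0 : ℝ) < y := hz0.trans_le (by exact_mod_cast hzy)
  have hlogzy : Real.log z ≤ Real.log y := Real.log_le_log hz0 (by exact_mod_cast hzy)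
  obtain ⟨r, hr, hmin, hrle⟩ := exists_rw z y hz hzy
  set 𝒜 := P.powerset.filter (fun D => (∏ p ∈ D, p) ≤ y ^ 25) with h𝒜
  set E := ∑ D ∈ 𝒜, |RD S a c X g D| with hE
  have hE0 : 0 ≤ E := Finset.sum_nonneg (fun D _ => abs_nonneg _)
  let J := range r
  let B : ℕ → Finset ℕ := fun j => bucketw P z y j
  let b : ℕ → ℕ := fun j => 2 * j + 10
  have hBP : ∀ j ∈ J, ∀ p ∈ B j, p ∈ P := by
    intro j _ p hp
    exact (Finset.mem_filter.mp hp).1
  have hdisj : ∀ i ∈ J, ∀ j ∈ J, i ≠ j → Disjoint (B i) (B j) :=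
    fun i _ j _ hij => bucketw_disjoint P z y hy1 i j hij
  have hprod : ∀ h : ℕ → ℝ, ∏ j ∈ J, ∏ p ∈ B j, h p = ∏ p ∈ P, h p := by
    intro h
    rw [← Finset.prod_biUnion (fun i hi j hj hij => hdisj i hi j hj hij)]
    congr 1
    ext p
    rw [Finset.mem_biUnion]
    constructor
    · rintro ⟨j, hj, hp⟩
      exact hBP j hj p hp
    · intro hp
      exact exists_bucketw P z y r hzy hr p hp (hPz p hp) (hPy p hp)
  have hb : ∀ j ∈ J, Even (b j) := fun j _ => ⟨j + 5, by simp only [b]; ring⟩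
  have hg1 : ∀ j ∈ J, ∀ p ∈ B j, g p < 1 := by
    intro j hj p hp
    have := gw_small z hz P hPz g hg4 p (hBP j hj p hp)
    linarith
  have hsumw : ∑ j ∈ J, ((b j : ℕ) : ℝ) * tw j ≤ 24 := by
    have h1 := sum_bw r
    have h2 : 0 ≤ (24 + 4 * (r : ℝ)) * tw r := by have := tw_pos r; positivity
    have h3 : ∑ j ∈ J, ((b j : ℕ) : ℝ) * tw j = ∑ j ∈ range r, (2 * (j : ℝ) + 10) * tw j := by
      apply Finset.sum_congr rfl
      intro j _
      simp only [b]; push_cast; ring
    rw [h3, h1]; linarith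
  have hlev : ∀ (D : Finset ℕ), D ⊆ P → ((∏ p ∈ D, p : ℕ) : ℝ) ≤ (y : ℝ) ^ (25 : ℝ) → D ∈ 𝒜 := by
    intro D hD hDp
    rw [h𝒜, Finset.mem_filter, Finset.mem_powerset]
    refine ⟨hD, ?_⟩
    have e : ((y : ℝ) ^ (25 : ℝ)) = ((y ^ 25 : ℕ) : ℝ) := by
      push_cast
      rw [← Real.rpow_natCast]; norm_num
    rw [e] at hDp
    exact_mod_cast hDp
  have hlowcard : ∀ (Q : Finset ℕ) (m : ℕ) (d : Finset ℕ), d ∈ low Q m → #d ≤ m := by
    intro Q m d hd
    unfold low at hd
    obtain ⟨i, hi, hdi⟩ := Finset.mem_biUnion.mp hd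
    rw [(Finset.mem_powersetCard.mp hdi).2]
    have := Finset.mem_range.mp hi
    omega
  have hA1 : ∀ F ∈ J.pi (fun j => low (B j) (b j)), J.attach.biUnion (fun j => F j.1 j.2) ∈ 𝒜 := by
    intro F hF
    rw [Finset.mem_pi] at hF
    have h := level_aux z y hz hzy P hP hPz hPy r hr hmin b 25 (by linarith) F (fun j hj =>
      ⟨low_subset _ _ _ (hF j hj), hlowcard _ _ _ (hF j hj)⟩)
    exact hlev _ h.1 h.2
  have hA2 : ∀ j0 ∈ J, ∀ F ∈ J.pi (fun j => if j = j0 then (B j).powersetCard (b j + 1)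
      else low (B j) (b j)), J.attach.biUnion (fun j => F j.1 j.2) ∈ 𝒜 := by
    intro j0 hj0 F hF
    rw [Finset.mem_pi] at hF
    have hsum2 : ∑ j ∈ range r, (((if j = j0 then b j + 1 else b j : ℕ)) : ℝ) * tw j ≤ 25 := by
      have h1 : ∀ j ∈ range r, (((if j = j0 then b j + 1 else b j : ℕ)) : ℝ) * tw j
          = (b j : ℝ) * tw j + if j = j0 then tw j else 0 := by
        intro j _
        split_ifs
        · push_cast; ring
        · push_cast; ring
      rw [Finset.sum_congr rfl h1, Finset.sum_add_distrib, Finset.sum_ite_eq' (range r) j0 tw,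
        if_pos hj0]
      have h2 : tw j0 ≤ 1 := by
        have := tw_antitone (Nat.zero_le j0)
        rwa [tw_zero] at this
      linarith
    have h := level_aux z y hz hzy P hP hPz hPy r hr hmin
      (fun j => if j = j0 then b j + 1 else b j) 25 hsum2 F (fun j hj => by
        have := hF j hj
        by_cases hjj : j = j0
        · rw [if_pos hjj] at this
          simp only [if_pos hjj]
          obtain ⟨h1, h2⟩ := Finset.mem_powersetCard.mp this
          exact ⟨h1, h2.le⟩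
        · rw [if_neg hjj] at this
          simp only [if_neg hjj]
          exact ⟨low_subset _ _ _ this, hlowcard _ _ _ this⟩)
    exact hlev _ h.1 h.2
  have hV : ∀ j ∈ J, 0 < ∏ p ∈ B j, (1 - g p) := fun j hj =>
    Finset.prod_pos (fun p hp => by linarith [hg1 j hj p hp])
  have hcost : ∀ j ∈ J, es (B j) g (b j + 1) / ∏ p ∈ B j, (1 - g p) ≤ costw j := fun j hj =>
    bucketw_cost z y hz hzy P hP hPz g hg0 hg4 j (hmin j (Finset.mem_range.mp hj))
  have hsumcost : ∑ j ∈ J, es (B j) g (b j + 1) / ∏ p ∈ B j, (1 - g p) ≤ 1 / 4 :=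
    (Finset.sum_le_sum hcost).trans (sum_costw r)
  constructor
  · have h := upperW S a c X g J B b hb hdisj ha (fun n hn j hj p hp => hc0 n hn p (hBP j hj p hp))
      (fun n hn j hj p hp => hc1 n hn p (hBP j hj p hp)) hX
      (fun j hj p hp => hg0 p (hBP j hj p hp)) hg1 𝒜 hA1
    simp_rw [hprod] at h
    refine h.trans ?_
    have h2 : ∏ j ∈ J, (∏ p ∈ B j, (1 - g p) + es (B j) g (b j + 1)) ≤
        2 * ∏ p ∈ P, (1 - g p) := by
      calc ∏ j ∈ J, (∏ p ∈ B j, (1 - g p) + es (B j) g (b j + 1))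
          ≤ ∏ j ∈ J, ((∏ p ∈ B j, (1 - g p)) * Real.exp (costw j)) := by
            apply Finset.prod_le_prod
            · intro j hj
              have := hV j hj
              have h3 := es_nonneg (B j) g (fun p hp => hg0 p (hBP j hj p hp)) (b j + 1)
              linarith
            · intro j hj
              have h3 := hcost j hj
              rw [div_le_iff₀ (hV j hj)] at h3
              have h4 := Real.add_one_le_exp (costw j)
              have h5 := hV j hj
              nlinarith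
        _ = (∏ p ∈ P, (1 - g p)) * Real.exp (∑ j ∈ J, costw j) := by
            rw [Finset.prod_mul_distrib, hprod, Real.exp_sum]
        _ ≤ (∏ p ∈ P, (1 - g p)) * 2 := by
            apply mul_le_mul_of_nonneg_left
            · calc Real.exp (∑ j ∈ J, costw j) ≤ Real.exp (1 / 4) :=
                  Real.exp_le_exp.mpr (sum_costw r)
                _ ≤ 2 := by
                  have h := Real.exp_bound' (x := 1 / 4) (by norm_num) (by norm_num) (n := 3)
                    (by norm_num)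
                  refine h.trans ?_
                  simp only [Finset.sum_range_succ, Finset.sum_range_zero, Nat.factorial]
                  norm_num
            · apply Finset.prod_nonneg
              intro p hp
              have := gw_small z hz P hPz g hg4 p hp
              linarith
        _ = _ := by ring
    have := mul_le_mul_of_nonneg_left h2 hX
    linarith
  · have h := lowerW S a c X g J B b hb hdisj ha (fun n hn j hj p hp => hc0 n hn p (hBP j hj p hp))
      (fun n hn j hj p hp => hc1 n hn p (hBP j hj p hp)) hX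
      (fun j hj p hp => hg0 p (hBP j hj p hp)) hg1 𝒜 hA1 hA2 (by linarith)
    simp_rw [hprod] at h
    refine le_trans ?_ h
    have hPnn : 0 ≤ ∏ p ∈ P, (1 - g p) := by
      apply Finset.prod_nonneg
      intro p hp
      have := gw_small z hz P hPz g hg4 p hp
      linarith
    have hXP : 0 ≤ X * ∏ p ∈ P, (1 - g p) := mul_nonneg hX hPnn
    have hJ : (1 + (#J : ℝ)) ≤ 2 * Real.log y := by
      simp only [J, Finset.card_range]
      linarith
    have h6 : (1 + (#J : ℝ)) * E ≤ 2 * Real.log y * E := mul_le_mul_of_nonneg_right hJ hE0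
    have h7 : X / 2 * ∏ p ∈ P, (1 - g p) ≤ X * (∏ p ∈ P, (1 - g p)) *
        (1 - ∑ j ∈ J, es (B j) g (b j + 1) / ∏ p ∈ B j, (1 - g p)) := by
      nlinarith
    linarith

end Final

end Pool.Agent.H16
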