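import Pool.Agent.H16.AN
import Pool.Agent.H16.WSieveMain

/-!
Remainder bound for the weighted sieve applied to primes.
-/

set_option autoImplicit false

open Complex Finset Filter Topology
open scoped ComplexConjugate
open ArithmeticFunction (vonMangoldt moebius)
open DirichletCharacter

namespace Pool.Agent.H16

/-- smooth prime weight -/
noncomputable def aw (ℓ : ℝ) (y n : ℕ) : ℝ :=
  if n.Prime ∧ y < n then Real.log n * tent (Real.exp ℓ / 3) n else 0

/-- twisted prime sum -/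
noncomputable def So (ℓ : ℝ) (y : ℕ) {q : ℕ} (ξ : DirichletCharacter ℂ q) : ℂ :=
  ∑ n ∈ Ioc 0 ⌊Real.exp ℓ⌋₊, ξ (n : ℕ) * ((aw ℓ y n : ℝ) : ℂ)

lemma aw_nonneg (ℓ : ℝ) (y n : ℕ) : 0 ≤ aw ℓ y n := by
  unfold aw
  split_ifs with h
  · have hn : (0 : ℝ) < n := by exact_mod_cast h.1.pos
    exact mul_nonneg (Real.log_natCast_nonneg n) (tent_nonneg _ _ (by positivity) hn)
  · exact le_rfl

lemma totient_prod_primes (D : Finset ℕ) (hD : ∀ p ∈ D, p.Prime) :
    (((∏ p ∈ D, p).totient : ℕ) : ℝ) = ∏ p ∈ D, ((p : ℝ) - 1) := by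
  induction D using Finset.induction_on with
  | empty => simp
  | insert p D hp ih =>
    rw [Finset.prod_insert hp, Finset.prod_insert hp]
    have hpp := hD p (Finset.mem_insert_self _ _)
    have hcop : Nat.Coprime p (∏ q ∈ D, q) := by
      apply Nat.Coprime.prod_right
      intro q hq
      exact (Nat.coprime_primes hpp (hD q (Finset.mem_insert_of_mem hq))).mpr
        (fun h => hp (h ▸ hq))
    rw [Nat.totient_mul hcop, Nat.totient_prime hpp]
    push_cast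
    rw [ih (fun q hq => hD q (Finset.mem_insert_of_mem hq)), Nat.cast_sub hpp.one_le, Nat.cast_one]

lemma aw_ne_zero_coprime (ℓ : ℝ) (y n L : ℕ) (hL : ∀ p, p.Prime → p ∣ L → p ≤ y)
    (h : aw ℓ y n ≠ 0) : Nat.Coprime n L := by
  unfold aw at h
  split_ifs at h with h1
  · rw [Nat.Prime.coprime_iff_not_dvd h1.1]
    intro h2
    have := hL n h1.1 h2
    omega
  · exact absurd rfl h

lemma So_changeLevel (ℓ : ℝ) (y : ℕ) {q L : ℕ} (h : q ∣ L) (hL : ∀ p, p.Prime → p ∣ L → p ≤ y)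
    (ξ : DirichletCharacter ℂ q) : So ℓ y (changeLevel h ξ) = So ℓ y ξ := by
  unfold So
  apply Finset.sum_congr rfl
  intro n _
  by_cases h0 : aw ℓ y n = 0
  · rw [h0]; simp
  · rw [changeLevel_natCast h ξ n (aw_ne_zero_coprime ℓ y n L hL h0)]

lemma So_one (ℓ : ℝ) (y : ℕ) {L : ℕ} (hL : ∀ p, p.Prime → p ∣ L → p ≤ y) :
    So ℓ y (1 : DirichletCharacter ℂ L) = ((∑ n ∈ Ioc 0 ⌊Real.exp ℓ⌋₊, aw ℓ y n : ℝ) : ℂ) := by
  unfold So
  push_cast
  apply Finset.sum_congr rfl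
  intro n _
  by_cases h0 : aw ℓ y n = 0
  · rw [h0]; simp
  · have := aw_ne_zero_coprime ℓ y n L hL h0
    rw [MulChar.one_apply ((ZMod.isUnit_iff_coprime n L).mpr this), one_mul]

lemma prod_dvd_iff (D : Finset ℕ) (hD : ∀ p ∈ D, p.Prime) (m : ℕ) :
    (∏ p ∈ D, p) ∣ m ↔ ∀ p ∈ D, p ∣ m := by
  constructor
  · intro h p hp
    exact (Finset.dvd_prod_of_mem _ hp).trans h
  · intro h
    exact Finset.prod_primes_dvd m (fun p hp => (hD p hp).prime) h

open scoped Classical in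
/-- **Remainder bound.** -/
theorem RD_le (ℓ : ℝ) (y W a t : ℕ) (D : Finset ℕ) (hD : ∀ p ∈ D, p.Prime) (hDy : ∀ p ∈ D, p ≤ y)
    (hW1 : 1 ≤ W) (hWy : ∀ p, p.Prime → p ∣ W → p ≤ y) (hDW : ∀ p ∈ D, ¬ p ∣ W)
    (haW : Nat.Coprime a W) (htD : ∀ p ∈ D, ¬ p ∣ t) :
    |RD ((Ioc 0 ⌊Real.exp ℓ⌋₊).filter (fun n => n ≡ a [MOD W])) (aw ℓ y)
      (fun n p => if p ∣ n + t then 1 else 0)
      ((∑ n ∈ Ioc 0 ⌊Real.exp ℓ⌋₊, aw ℓ y n) / (W.totient : ℝ)) (fun p => 1 / ((p : ℝ) - 1)) D| ≤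
    1 / ((W.totient : ℝ) * ((∏ p ∈ D, p).totient : ℝ)) *
      ∑ d' ∈ (∏ p ∈ D, p).divisors, ∑ ξ ∈ fam W d', ‖So ℓ y ξ‖ := by
  set N := ⌊Real.exp ℓ⌋₊ with hN
  set d := ∏ p ∈ D, p with hd
  have hdpos : 0 < d := Finset.prod_pos (fun p hp => (hD p hp).pos)
  have hcop : Nat.Coprime W d := by
    rw [hd]
    apply Nat.Coprime.prod_right
    intro p hp
    exact ((Nat.Prime.coprime_iff_not_dvd (hD p hp)).mpr (hDW p hp)).symm
  set L := W * d with hLdef
  have hLpos : 0 < L := Nat.mul_pos hW1 hdpos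
  have : NeZero L := ⟨by omega⟩
  have hLy : ∀ p, p.Prime → p ∣ L → p ≤ y := by
    intro p hp hpL
    rcases (Nat.Prime.dvd_mul hp).mp hpL with h | h
    · exact hWy p hp h
    · rw [hd, Prime.dvd_finset_prod_iff hp.prime] at h
      obtain ⟨q, hq, hpq⟩ := h
      have := (Nat.prime_dvd_prime_iff_eq hp (hD q hq)).mp hpq
      rw [this]; exact hDy q hq
  -- residue class b
  obtain ⟨b, hb1, hb2⟩ := Nat.chineseRemainder hcop a (t * (d - 1))
  have hbt : d ∣ b + t := by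
    have h1 : b + t ≡ t * (d - 1) + t [MOD d] := Nat.ModEq.add_right t hb2
    have h2 : t * (d - 1) + t = t * d := by
      obtain ⟨e, he⟩ : ∃ e, d = e + 1 := ⟨d - 1, by omega⟩
      rw [he, Nat.add_sub_cancel]; ring
    rw [h2] at h1
    exact (Nat.modEq_zero_iff_dvd.mp (h1.trans (Nat.modEq_zero_iff_dvd.mpr (Dvd.intro_left t rfl))))
  have hbW : Nat.Coprime b W := by
    have := hb1.gcd_eq
    unfold Nat.Coprime at haW ⊢
    rw [this, haW]
  have hbd : Nat.Coprime b d := by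
    rw [hd]
    apply Nat.Coprime.prod_right
    intro p hp
    apply Nat.Coprime.symm
    rw [Nat.Prime.coprime_iff_not_dvd (hD p hp)]
    intro hpb
    have h1 : p ∣ b + t := (Finset.dvd_prod_of_mem (fun p => p) hp).trans hbt
    exact htD p hp ((Nat.dvd_add_right hpb).mp h1)
  have hbL : IsUnit (b : ZMod L) := by
    rw [ZMod.isUnit_iff_coprime, hLdef]
    exact Nat.Coprime.mul_right hbW hbd
  -- indicator
  have hind : ∀ n : ℕ, (n ≡ a [MOD W] ∧ ∀ p ∈ D, p ∣ n + t) ↔ (b : ZMod L) = (n : ZMod L) := by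
    intro n
    rw [ZMod.natCast_eq_natCast_iff, hLdef, ← Nat.modEq_and_modEq_iff_modEq_mul hcop,
      ← prod_dvd_iff D hD]
    constructor
    · rintro ⟨h1, h2⟩
      refine ⟨hb1.trans h1.symm, ?_⟩
      have h3 : b + t ≡ n + t [MOD d] :=
        (Nat.modEq_zero_iff_dvd.mpr hbt).trans (Nat.modEq_zero_iff_dvd.mpr h2).symm
      exact Nat.ModEq.add_right_cancel' t h3
    · rintro ⟨h1, h2⟩
      refine ⟨h1.symm.trans hb1, ?_⟩
      have h3 : b + t ≡ n + t [MOD d] := Nat.ModEq.add_right t h2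
      exact Nat.modEq_zero_iff_dvd.mp (h3.symm.trans (Nat.modEq_zero_iff_dvd.mpr hbt))
  have hAD : AD ((Ioc 0 N).filter (fun n => n ≡ a [MOD W])) (aw ℓ y)
      (fun n p => if p ∣ n + t then 1 else 0) D =
      ∑ n ∈ Ioc 0 N, if (b : ZMod L) = (n : ZMod L) then aw ℓ y n else 0 := by
    unfold AD
    rw [Finset.sum_filter]
    apply Finset.sum_congr rfl
    intro n _
    have e1 : (∏ p ∈ D, if p ∣ n + t then (1 : ℝ) else 0) = if ∀ p ∈ D, p ∣ n + t then 1 else 0 := by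
      rw [Finset.prod_ite_zero]
      simp
    rw [e1]
    by_cases h : (b : ZMod L) = (n : ZMod L)
    · have h2 := (hind n).mpr h
      rw [if_pos h2.1, if_pos h2.2, if_pos h, mul_one]
    · rw [if_neg h]
      have h2 := mt (hind n).mp h
      by_cases h3 : n ≡ a [MOD W]
      · rw [if_pos h3, if_neg (fun h4 => h2 ⟨h3, h4⟩), mul_zero]
      · rw [if_neg h3]
  have hφ : (L.totient : ℝ) = (W.totient : ℝ) * (d.totient : ℝ) := by
    rw [hLdef, Nat.totient_mul hcop]; push_cast; ring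
  have hφpos : (0 : ℝ) < (L.totient : ℝ) := by exact_mod_cast Nat.totient_pos.mpr hLpos
  have hφC : (L.totient : ℂ) ≠ 0 := by exact_mod_cast hφpos.ne'
  have hortho : ((AD ((Ioc 0 N).filter (fun n => n ≡ a [MOD W])) (aw ℓ y)
      (fun n p => if p ∣ n + t then 1 else 0) D : ℝ) : ℂ) =
      1 / (L.totient : ℂ) * ∑ χ : DirichletCharacter ℂ L, χ (b : ZMod L)⁻¹ * So ℓ y χ := by
    rw [hAD]
    unfold So
    simp_rw [Finset.mul_sum]
    rw [Finset.sum_comm]
    push_cast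
    apply Finset.sum_congr rfl
    intro n _
    have h1 := DirichletCharacter.sum_char_inv_mul_char_eq ℂ hbL (n : ZMod L)
    have h2 : ∑ χ : DirichletCharacter ℂ L, 1 / (L.totient : ℂ) * (χ (b : ZMod L)⁻¹ *
        (χ (n : ZMod L) * ((aw ℓ y n : ℝ) : ℂ))) =
        1 / (L.totient : ℂ) * ((∑ χ : DirichletCharacter ℂ L, χ (b : ZMod L)⁻¹ * χ (n : ZMod L)) *
          ((aw ℓ y n : ℝ) : ℂ)) := by
      rw [Finset.sum_mul, Finset.mul_sum]
      apply Finset.sum_congr rfl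
      intro χ _
      ring
    rw [h2, h1]
    split_ifs with h3
    · field_simp
    · simp
  have hmain : ((RD ((Ioc 0 N).filter (fun n => n ≡ a [MOD W])) (aw ℓ y)
      (fun n p => if p ∣ n + t then 1 else 0)
      ((∑ n ∈ Ioc 0 N, aw ℓ y n) / (W.totient : ℝ)) (fun p => 1 / ((p : ℝ) - 1)) D : ℝ) : ℂ) =
      1 / (L.totient : ℂ) * ∑ χ ∈ (Finset.univ : Finset (DirichletCharacter ℂ L)).erase 1,
        χ (b : ZMod L)⁻¹ * So ℓ y χ := by
    unfold RD
    rw [Complex.ofReal_sub, hortho, ← Finset.add_sum_erase _ _ (Finset.mem_univ (1 : DirichletCharacter ℂ L)),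
      So_one ℓ y hLy]
    have h1 : (1 : DirichletCharacter ℂ L) (b : ZMod L)⁻¹ = 1 := by
      apply MulChar.one_apply
      obtain ⟨u, hu⟩ := hbL
      rw [← hu, ZMod.inv_coe_unit]
      exact Units.isUnit _
    rw [h1]
    have h2 : ((∑ n ∈ Ioc 0 N, aw ℓ y n) / (W.totient : ℝ)) * ∏ p ∈ D, 1 / ((p : ℝ) - 1) =
        1 / (L.totient : ℝ) * ∑ n ∈ Ioc 0 N, aw ℓ y n := by
      rw [hφ, Finset.prod_div_distrib, Finset.prod_const_one, hd, totient_prod_primes D hD]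
      ring
    rw [h2]
    push_cast
    ring
  have hnorm : |RD ((Ioc 0 N).filter (fun n => n ≡ a [MOD W])) (aw ℓ y)
      (fun n p => if p ∣ n + t then 1 else 0)
      ((∑ n ∈ Ioc 0 N, aw ℓ y n) / (W.totient : ℝ)) (fun p => 1 / ((p : ℝ) - 1)) D| ≤
      1 / (L.totient : ℝ) * ∑ χ ∈ (Finset.univ : Finset (DirichletCharacter ℂ L)).erase 1, ‖So ℓ y χ‖ := by
    rw [← Real.norm_eq_abs, ← Complex.norm_real, hmain, norm_mul, norm_div, norm_one,
      Complex.norm_natCast]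
    apply mul_le_mul_of_nonneg_left _ (by positivity)
    refine (norm_sum_le _ _).trans (Finset.sum_le_sum fun χ _ => ?_)
    rw [norm_mul]
    calc ‖χ (b : ZMod L)⁻¹‖ * ‖So ℓ y χ‖ ≤ 1 * ‖So ℓ y χ‖ :=
          mul_le_mul_of_nonneg_right (DirichletCharacter.norm_le_one _ _) (norm_nonneg _)
      _ = _ := one_mul _
  refine hnorm.trans ?_
  rw [hφ]
  apply mul_le_mul_of_nonneg_left _ (by positivity)
  exact sum_char_le_fam W d hLpos hcop.symm _ (fun ξ hξ => (Finset.mem_erase.mp hξ).1)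
    (fun ξ => ‖So ℓ y ξ‖) (fun d' ξ => ‖So ℓ y ξ‖) (fun _ _ _ => norm_nonneg _)
    (fun d' hd' ξ => by rw [So_changeLevel ℓ y hd' hLy ξ])

end Pool.Agent.H16
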