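import Pool.Agent.H90.Moll
import Pool.Agent.H16.AN

set_option autoImplicit false

namespace Pool.Agent.H16

theorem mollSmall : MollSmall := by
  intro δ hδ A Y
  exact Pool.Agent.H90.moll_small δ hδ A Y

end Pool.Agent.H16
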