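import Pool.Agent.H16.MT16

/-!
Uniform Maynard-Tao theorem in the Erdős–Rankin range, index form.
-/

set_option autoImplicit false

open Finset Filter Topology

namespace Pool.Agent.H16

lemma count_step (n τ0 τ1 : ℕ) (Q : Finset ℕ)
    (hQ : ∀ τ ∈ Q, (n + τ).Prime ∧ τ0 ≤ τ ∧ τ ≤ τ1) (h01 : τ0 ≤ τ1) :
    Nat.count Nat.Prime (n + τ0) + #Q ≤ Nat.count Nat.Prime (n + τ1 + 1) := by
  rw [Nat.count_eq_card_filter_range, Nat.count_eq_card_filter_range]
  have hdisj : Disjoint ((range (n + τ0)).filter Nat.Prime) (Q.image (fun τ => n + τ)) := by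
    rw [Finset.disjoint_left]
    intro p hp hp2
    rw [Finset.mem_filter, Finset.mem_range] at hp
    rw [Finset.mem_image] at hp2
    obtain ⟨τ, hτ, rfl⟩ := hp2
    have := (hQ τ hτ).2.1
    omega
  have hsub : (range (n + τ0)).filter Nat.Prime ∪ Q.image (fun τ => n + τ) ⊆
      (range (n + τ1 + 1)).filter Nat.Prime := by
    intro p hp
    rw [Finset.mem_union] at hp
    rw [Finset.mem_filter, Finset.mem_range]
    rcases hp with hp | hp
    · rw [Finset.mem_filter, Finset.mem_range] at hp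
      exact ⟨by omega, hp.2⟩
    · rw [Finset.mem_image] at hp
      obtain ⟨τ, hτ, rfl⟩ := hp
      have := (hQ τ hτ).2.2
      exact ⟨by omega, (hQ τ hτ).1⟩
  have h1 := Finset.card_le_card hsub
  rwa [Finset.card_union_of_disjoint hdisj, Finset.card_image_of_injective _
    (fun a b hab => by simpa using hab)] at h1

lemma count_lt (x : ℕ) (hx : 0 < x) : Nat.count Nat.Prime x < x := by
  have h6 : (range x).filter Nat.Prime ⊆ (range x).erase 0 := by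
    intro p hp
    rw [Finset.mem_filter] at hp
    rw [Finset.mem_erase]
    exact ⟨hp.2.ne_zero, hp.1⟩
  have h7 := Finset.card_le_card h6
  rw [Finset.card_erase_of_mem (Finset.mem_range.mpr hx), Finset.card_range] at h7
  have h8 : Nat.count Nat.Prime x ≤ x - 1 := by
    rw [Nat.count_eq_card_filter_range]
    convert h7
  omega

/-- consecutive primes in a translate of `H` -/
lemma consec_of_MG {m : ℕ} {ℓ : ℝ} {H : Finset ℕ} {n : ℕ} (hn : n ∈ MG m ℓ H) :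
    ∃ j, j < ⌊Real.exp ℓ⌋₊ ∧ (∃ τ ∈ H, Nat.nth Nat.Prime j = n + τ) ∧
      ∀ i ≤ m, ∃ τ ∈ H, Nat.nth Nat.Prime (j + i) = n + τ := by
  classical
  unfold MG at hn
  rw [Finset.mem_filter, Finset.mem_Ioc] at hn
  obtain ⟨⟨hn0, hnN⟩, hcard, hno⟩ := hn
  set N := ⌊Real.exp ℓ⌋₊ with hN
  set Q := H.filter (fun τ => (n + τ).Prime ∧ n + τ ≤ N) with hQ
  have hQne : Q.Nonempty := by rw [← Finset.card_pos]; omega
  set τ0 := Q.min' hQne with hτ0
  have hτ0Q : τ0 ∈ Q := Finset.min'_mem Q hQne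
  set τ1 := Q.max' hQne with hτ1
  have hτ1Q : τ1 ∈ Q := Finset.max'_mem Q hQne
  have hQmem : ∀ τ ∈ Q, τ ∈ H ∧ (n + τ).Prime ∧ n + τ ≤ N := by
    intro τ hτ
    rw [hQ, Finset.mem_filter] at hτ
    exact ⟨hτ.1, hτ.2.1, hτ.2.2⟩
  obtain ⟨h0H, h0p, h0N⟩ := hQmem τ0 hτ0Q
  obtain ⟨h1H, h1p, h1N⟩ := hQmem τ1 hτ1Q
  set j := Nat.count Nat.Prime (n + τ0) with hj
  have hnth : Nat.nth Nat.Prime j = n + τ0 := Nat.nth_count h0p
  -- the count
  have hcount : j + (m + 1) ≤ Nat.count Nat.Prime (n + τ1 + 1) := by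
    have h1 := count_step n τ0 τ1 Q (fun τ hτ => ⟨(hQmem τ hτ).2.1, Finset.min'_le Q τ hτ,
      Finset.le_max' Q τ hτ⟩) (Finset.min'_le Q τ1 hτ1Q)
    omega
  have hlast : Nat.nth Nat.Prime (j + m) < n + τ1 + 1 := Nat.nth_lt_of_lt_count (by omega)
  have hmono := Nat.nth_monotone Nat.infinite_setOfPred_prime
  have hall : ∀ i ≤ m, ∃ τ ∈ H, Nat.nth Nat.Prime (j + i) = n + τ := by
    intro i hi
    have h1 : Nat.nth Nat.Prime (j + i) ≤ Nat.nth Nat.Prime (j + m) := hmono (by omega)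
    have h2 : Nat.nth Nat.Prime j ≤ Nat.nth Nat.Prime (j + i) := hmono (by omega)
    have h3 : (Nat.nth Nat.Prime (j + i)).Prime := Nat.prime_nth_prime _
    set q := Nat.nth Nat.Prime (j + i) with hq
    have h4 : n ≤ q := by omega
    refine ⟨q - n, ?_, by omega⟩
    by_contra hcon
    have h5 : τ1 ≤ H.sup id := Finset.le_sup (f := id) h1H
    apply hno (q - n) (by omega) hcon
    rw [Nat.add_sub_cancel' h4]
    exact h3
  refine ⟨j, ?_, ⟨τ0, h0H, hnth⟩, hall⟩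
  -- j < N
  have h5 : j < n + τ0 := count_lt (n + τ0) (by omega)
  omega

/-- the indices `j < N` such that `p_j, …, p_{j+m}` lie in one translate of `H` -/
def idx (m N : ℕ) (H : Finset ℕ) : Set ℕ :=
  {j : ℕ | j < N ∧ ∃ a : ℕ, ∀ i ≤ m, ∃ h ∈ H, Nat.nth Nat.Prime (j + i) = a + h}

lemma card_MG_le {m : ℕ} {ℓ : ℝ} {H : Finset ℕ} :
    #(MG m ℓ H) ≤ #H * (idx m ⌊Real.exp ℓ⌋₊ H).ncard := by
  classical
  have hfin : (idx m ⌊Real.exp ℓ⌋₊ H).Finite := (Set.finite_Iio ⌊Real.exp ℓ⌋₊).subset (fun j hj => hj.1)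
  have hex : ∀ n ∈ MG m ℓ H, ∃ j, j < ⌊Real.exp ℓ⌋₊ ∧ (∃ τ ∈ H, Nat.nth Nat.Prime j = n + τ) ∧
      ∀ i ≤ m, ∃ τ ∈ H, Nat.nth Nat.Prime (j + i) = n + τ := fun n hn => consec_of_MG hn
  choose! f hf1 hf2 hf3 using hex
  have h1 : #(MG m ℓ H) ≤ #H * #((MG m ℓ H).image f) := by
    apply Finset.card_le_mul_card_image
    intro j _
    have hsub : (MG m ℓ H).filter (fun n => f n = j) ⊆ H.image (fun τ => Nat.nth Nat.Prime j - τ) := by
      intro n hn
      rw [Finset.mem_filter] at hn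
      obtain ⟨τ, hτ, hτ2⟩ := hf2 n hn.1
      rw [Finset.mem_image]
      refine ⟨τ, hτ, ?_⟩
      rw [← hn.2, hτ2]
      omega
    exact (Finset.card_le_card hsub).trans Finset.card_image_le
  refine h1.trans (Nat.mul_le_mul_left _ ?_)
  rw [← Set.ncard_coe_finset]
  apply Set.ncard_le_ncard _ hfin
  intro j hj
  rw [Finset.mem_coe, Finset.mem_image] at hj
  obtain ⟨n, hn, rfl⟩ := hj
  exact ⟨hf1 n hn, n, hf3 n hn⟩

theorem mt_index : ∃ C : ℝ, ∀ m : ℕ, ∃ k : ℕ, (k : ℝ) ≤ Real.exp (C * (m + 1)) ∧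
    ∃ c : ℝ, 0 < c ∧ ∀ ε : ℝ, 0 < ε → ∃ N₀ : ℕ, ∀ N : ℕ, N₀ ≤ N →
    ∀ H : Finset ℕ, k ≤ #H → (∀ p, p.Prime → ∃ r, ∀ h ∈ H, ¬ h ≡ r [MOD p]) →
    (∀ h ∈ H, (h : ℝ) ≤ c * (Real.log N * Real.log (Real.log N) *
      Real.log (Real.log (Real.log (Real.log N))) / (Real.log (Real.log (Real.log N))) ^ 2)) →
    (N : ℝ) ^ (1 - ε) ≤ ((idx m N H).ncard : ℝ) := by
  classical
  obtain ⟨C, hC, hall⟩ := mt_good
  refine ⟨2 * C, fun m => ?_⟩
  set m' := max m 1 with hm'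
  obtain ⟨k, hk, hksize, c, hc, hmain⟩ := hall m' (le_max_right _ _)
  have hksize2 : (k : ℝ) ≤ Real.exp (2 * C * (m + 1)) := by
    refine hksize.trans (Real.exp_le_exp.mpr ?_)
    have h1 : (m' : ℝ) ≤ m + 1 := by
      have : m' ≤ m + 1 := by omega
      exact_mod_cast this
    have h2 : (m' : ℝ) + 1 ≤ 2 * (m + 1) := by
      have : (0 : ℝ) ≤ m := Nat.cast_nonneg m
      linarith
    calc C * ((m' : ℝ) + 1) ≤ C * (2 * (m + 1)) := mul_le_mul_of_nonneg_left h2 hC.le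
      _ = _ := by ring
  refine ⟨k, hksize2, c, hc, fun ε hε => ?_⟩
  have hk0 : (0 : ℝ) < k := by exact_mod_cast hk
  have hlogN : Tendsto (fun N : ℕ => Real.log (N : ℝ)) atTop atTop :=
    Real.tendsto_log_atTop.comp tendsto_natCast_atTop_atTop
  have hpow : Tendsto (fun N : ℕ => (N : ℝ) ^ (ε / 2)) atTop atTop :=
    (tendsto_rpow_atTop (by positivity)).comp tendsto_natCast_atTop_atTop
  have hev := (hlogN.eventually (hmain (ε / 2) (by positivity))).and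
    ((hpow.eventually (eventually_ge_atTop (k : ℝ))).and (eventually_ge_atTop 1))
  obtain ⟨N₀, hN₀⟩ := eventually_atTop.mp hev
  refine ⟨N₀, fun N hN H hkH hadm hHle => ?_⟩
  obtain ⟨h1, h2, h3⟩ := hN₀ N hN
  have hN0 : (0 : ℝ) < N := by exact_mod_cast h3
  obtain ⟨H', hH'sub, hH'card⟩ := Finset.exists_subset_card_eq hkH
  have h4 := h1 H' hH'card (by
    intro p hp
    obtain ⟨r, hr⟩ := hadm p hp
    refine ⟨r, fun τ hτ h5 => hr τ (hH'sub hτ) h5.symm⟩) (by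
    intro τ hτ
    exact hHle τ (hH'sub hτ))
  have h5 : Real.exp (Real.log N) = N := Real.exp_log hN0
  have h6 := card_MG_le (m := m') (ℓ := Real.log N) (H := H')
  rw [h5, Nat.floor_natCast, hH'card] at h6
  have hfin : (idx m N H).Finite := (Set.finite_Iio N).subset (fun j hj => hj.1)
  have h7 : idx m' N H' ⊆ idx m N H := by
    rintro j ⟨hj, a, ha⟩
    refine ⟨hj, a, fun i hi => ?_⟩
    obtain ⟨τ, hτ, hτ2⟩ := ha i (hi.trans (le_max_left _ _))
    exact ⟨τ, hH'sub hτ, hτ2⟩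
  have h8 : (idx m' N H').ncard ≤ (idx m N H).ncard := Set.ncard_le_ncard h7 hfin
  have h9 : (#(MG m' (Real.log N) H') : ℝ) ≤ k * ((idx m N H).ncard : ℝ) := by
    have : #(MG m' (Real.log N) H') ≤ k * (idx m N H).ncard := h6.trans (Nat.mul_le_mul_left _ h8)
    exact_mod_cast this
  have h10 : (N : ℝ) ^ (1 - ε) * k ≤ Real.exp ((1 - ε / 2) * Real.log N) := by
    have e1 : Real.exp ((1 - ε / 2) * Real.log N) = (N : ℝ) ^ (1 - ε / 2) := by
      rw [Real.rpow_def_of_pos hN0, mul_comm]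
    rw [e1]
    have e2 : (N : ℝ) ^ (1 - ε / 2) = (N : ℝ) ^ (1 - ε) * (N : ℝ) ^ (ε / 2) := by
      rw [← Real.rpow_add hN0]; congr 1; ring
    rw [e2]
    exact mul_le_mul_of_nonneg_left h2 (by positivity)
  have h11 : (N : ℝ) ^ (1 - ε) * k ≤ ((idx m N H).ncard : ℝ) * k := by
    calc (N : ℝ) ^ (1 - ε) * k ≤ k * ((idx m N H).ncard : ℝ) := h10.trans (h4.trans h9)
      _ = _ := mul_comm _ _
  exact le_of_mul_le_mul_right h11 hk0

end Pool.Agent.H16
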