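import Mathlib

/-!
Quasi-orthogonality large sieve and the mean square of a Dirichlet series on `Re s = 1 + 1/ℓ`.
-/

set_option autoImplicit false

open Finset Real
open scoped ComplexConjugate

namespace Pool.Agent.H16

lemma large_sieve {ι : Type*} [DecidableEq ι] (I : Finset ι) (f : ι → ℕ → ℂ)
    (hf : ∀ i ∈ I, ∀ n, ‖f i n‖ ≤ 1) (q0 : ℝ) (hq0 : 0 ≤ q0) (M N : ℕ) (hMN : M ≤ N)
    (horth : ∀ i ∈ I, ∀ j ∈ I, i ≠ j → ‖∑ n ∈ Ioc M N, f i n * conj (f j n)‖ ≤ q0)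
    (b : ℕ → ℂ) :
    ∑ i ∈ I, ‖∑ n ∈ Ioc M N, b n * f i n‖ ^ 2 ≤
      ((N : ℝ) - M + q0 * #I) * ∑ n ∈ Ioc M N, ‖b n‖ ^ 2 := by
  classical
  set S : ι → ℂ := fun i => ∑ n ∈ Ioc M N, b n * f i n with hS
  set T : ℝ := ∑ i ∈ I, ‖S i‖ ^ 2 with hT
  have hT0 : 0 ≤ T := Finset.sum_nonneg (fun i _ => by positivity)
  -- dual sum
  set D : ℕ → ℂ := fun n => ∑ i ∈ I, conj (S i) * f i n with hD
  have h1 : (T : ℂ) = ∑ n ∈ Ioc M N, b n * D n := by
    have e1 : (T : ℂ) = ∑ i ∈ I, conj (S i) * S i := by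
      rw [hT]; push_cast
      apply Finset.sum_congr rfl
      intro i _
      rw [mul_comm, Complex.mul_conj, Complex.normSq_eq_norm_sq]; push_cast; rfl
    rw [e1, hD]
    simp_rw [hS, Finset.mul_sum]
    rw [Finset.sum_comm]
    apply Finset.sum_congr rfl; intro n _
    apply Finset.sum_congr rfl; intro i _
    ring
  have h2 : ∑ n ∈ Ioc M N, ‖D n‖ ^ 2 ≤ ((N : ℝ) - M + q0 * #I) * T := by
    have e1 : ((∑ n ∈ Ioc M N, ‖D n‖ ^ 2 : ℝ) : ℂ) =
        ∑ i ∈ I, ∑ j ∈ I, conj (S i) * S j * ∑ n ∈ Ioc M N, f i n * conj (f j n) := by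
      push_cast
      calc ∑ n ∈ Ioc M N, ((‖D n‖ : ℂ)) ^ 2 = ∑ n ∈ Ioc M N, D n * conj (D n) := by
            apply Finset.sum_congr rfl; intro n _
            rw [Complex.mul_conj, Complex.normSq_eq_norm_sq]; push_cast; rfl
        _ = ∑ n ∈ Ioc M N, ∑ i ∈ I, ∑ j ∈ I, conj (S i) * S j * (f i n * conj (f j n)) := by
            apply Finset.sum_congr rfl; intro n _
            rw [hD]
            simp only [map_sum, map_mul, Complex.conj_conj]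
            rw [Finset.sum_mul_sum]
            apply Finset.sum_congr rfl; intro i _
            apply Finset.sum_congr rfl; intro j _
            ring
        _ = _ := by
            rw [Finset.sum_comm]
            apply Finset.sum_congr rfl; intro i _
            rw [Finset.sum_comm]
            apply Finset.sum_congr rfl; intro j _
            exact (Finset.mul_sum _ _ _).symm
    have e2 : ∑ n ∈ Ioc M N, ‖D n‖ ^ 2 ≤
        ∑ i ∈ I, ∑ j ∈ I, ‖S i‖ * ‖S j‖ * ((if i = j then ((N : ℝ) - M) else 0) + q0) := by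
      have e3 : ∑ n ∈ Ioc M N, ‖D n‖ ^ 2 = ‖((∑ n ∈ Ioc M N, ‖D n‖ ^ 2 : ℝ) : ℂ)‖ := by
        rw [Complex.norm_real, Real.norm_of_nonneg (Finset.sum_nonneg (fun n _ => by positivity))]
      rw [e3, e1]
      refine (norm_sum_le _ _).trans (Finset.sum_le_sum fun i hi => ?_)
      refine (norm_sum_le _ _).trans (Finset.sum_le_sum fun j hj => ?_)
      rw [norm_mul, norm_mul, RCLike.norm_conj]
      apply mul_le_mul_of_nonneg_left _ (by positivity)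
      by_cases hij : i = j
      · rw [if_pos hij]
        calc ‖∑ n ∈ Ioc M N, f i n * conj (f j n)‖ ≤ ∑ n ∈ Ioc M N, ‖f i n * conj (f j n)‖ :=
              norm_sum_le _ _
          _ ≤ ∑ n ∈ Ioc M N, (1 : ℝ) := by
              apply Finset.sum_le_sum; intro n _
              rw [norm_mul, RCLike.norm_conj]
              exact mul_le_one₀ (hf i hi n) (norm_nonneg _) (hf j hj n)
          _ = (N : ℝ) - M := by
              rw [Finset.sum_const, Nat.card_Ioc, nsmul_eq_mul, mul_one, Nat.cast_sub hMN]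
          _ ≤ _ := by linarith
      · rw [if_neg hij, zero_add]
        exact horth i hi j hj hij
    refine e2.trans ?_
    have e4 : ∑ i ∈ I, ∑ j ∈ I, ‖S i‖ * ‖S j‖ * ((if i = j then ((N : ℝ) - M) else 0) + q0)
        = ((N : ℝ) - M) * T + q0 * (∑ i ∈ I, ‖S i‖) ^ 2 := by
      simp_rw [mul_add, Finset.sum_add_distrib]
      congr 1
      · rw [hT, Finset.mul_sum]
        apply Finset.sum_congr rfl; intro i hi
        simp only [mul_ite, mul_zero, Finset.sum_ite_eq, hi, if_true]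
        ring
      · rw [sq, Finset.sum_mul_sum, Finset.mul_sum]
        apply Finset.sum_congr rfl; intro i _
        rw [Finset.mul_sum]
        apply Finset.sum_congr rfl; intro j _
        ring
    rw [e4]
    have e5 : (∑ i ∈ I, ‖S i‖) ^ 2 ≤ #I * T := by
      have := sq_sum_le_card_mul_sum_sq (s := I) (f := fun i => ‖S i‖)
      exact this
    nlinarith
  -- Cauchy-Schwarz
  have h3 : T ^ 2 ≤ (∑ n ∈ Ioc M N, ‖b n‖ ^ 2) * ∑ n ∈ Ioc M N, ‖D n‖ ^ 2 := by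
    have e1 : T ≤ ∑ n ∈ Ioc M N, ‖b n‖ * ‖D n‖ := by
      have e2 : T = ‖(T : ℂ)‖ := by rw [Complex.norm_real, Real.norm_of_nonneg hT0]
      rw [e2, h1]
      refine (norm_sum_le _ _).trans (le_of_eq ?_)
      apply Finset.sum_congr rfl; intro n _
      rw [norm_mul]
    calc T ^ 2 ≤ (∑ n ∈ Ioc M N, ‖b n‖ * ‖D n‖) ^ 2 := pow_le_pow_left₀ hT0 e1 2
      _ ≤ _ := Finset.sum_mul_sq_le_sq_mul_sq _ _ _
  have hb0 : 0 ≤ ∑ n ∈ Ioc M N, ‖b n‖ ^ 2 := Finset.sum_nonneg (fun n _ => by positivity)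
  have hNM : 0 ≤ (N : ℝ) - M := by
    have : (M : ℝ) ≤ N := by exact_mod_cast hMN
    linarith
  have h4 : T * T ≤ (((N : ℝ) - M + q0 * #I) * ∑ n ∈ Ioc M N, ‖b n‖ ^ 2) * T := by
    calc T * T = T ^ 2 := by ring
      _ ≤ (∑ n ∈ Ioc M N, ‖b n‖ ^ 2) * (((N : ℝ) - M + q0 * #I) * T) :=
          h3.trans (mul_le_mul_of_nonneg_left h2 hb0)
      _ = _ := by ring
  rcases eq_or_lt_of_le hT0 with h5 | h5
  · rw [← h5]; positivity
  · exact le_of_mul_le_mul_right h4 h5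

/-- `∑_{n ≤ X} n^{-1-δ} ≤ 1 + 1/δ`. -/
lemma sum_rpow_le (δ : ℝ) (hδ : 0 < δ) (X : ℕ) :
    ∑ n ∈ Icc 1 X, (n : ℝ) ^ (-1 - δ) ≤ 1 + 1 / δ := by
  suffices h : ∀ X : ℕ, 1 ≤ X → ∑ n ∈ Icc 1 X, (n : ℝ) ^ (-1 - δ) ≤ 1 + 1 / δ - (X : ℝ) ^ (-δ) / δ by
    rcases Nat.eq_zero_or_pos X with rfl | hX
    · simp; positivity
    · have h1 := h X hX
      have h2 : 0 ≤ (X : ℝ) ^ (-δ) / δ := by positivity
      linarith
  intro X hX
  induction X, hX using Nat.le_induction with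
  | base => simp
  | succ X hX ih =>
    rw [← Finset.insert_Icc_right_eq_Icc_add_one (by omega), Finset.sum_insert (by simp)]
    have hX0 : (0 : ℝ) < X := by exact_mod_cast hX
    have hX1 : (0 : ℝ) < (X : ℝ) + 1 := by linarith
    have key : ((X : ℝ) + 1) ^ (-δ) * (1 + δ / ((X : ℝ) + 1)) ≤ (X : ℝ) ^ (-δ) := by
      have e1 : (X : ℝ) ^ (-δ) = ((X : ℝ) + 1) ^ (-δ) * ((X : ℝ) / ((X : ℝ) + 1)) ^ (-δ) := by
        rw [← Real.mul_rpow hX1.le (by positivity)]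
        congr 1; field_simp
      rw [e1]
      apply mul_le_mul_of_nonneg_left _ (by positivity)
      rw [Real.rpow_def_of_pos (by positivity)]
      have h1 : Real.log ((X : ℝ) / ((X : ℝ) + 1)) ≤ -(1 / ((X : ℝ) + 1)) := by
        have := Real.log_le_sub_one_of_pos (show 0 < (X : ℝ) / ((X : ℝ) + 1) by positivity)
        have e : (X : ℝ) / ((X : ℝ) + 1) - 1 = -(1 / ((X : ℝ) + 1)) := by field_simp; ring
        linarith
      have h2 := Real.add_one_le_exp (Real.log ((X : ℝ) / ((X : ℝ) + 1)) * -δ)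
      have h3 : δ / ((X : ℝ) + 1) ≤ Real.log ((X : ℝ) / ((X : ℝ) + 1)) * -δ := by
        have e : δ / ((X : ℝ) + 1) = (-(1 / ((X : ℝ) + 1))) * -δ := by ring
        rw [e]
        exact mul_le_mul_of_nonpos_right h1 (by linarith)
      linarith
    have h1 : ((X : ℝ) + 1) ^ (-1 - δ) = ((X : ℝ) + 1) ^ (-δ) / ((X : ℝ) + 1) := by
      rw [show -1 - δ = -δ - 1 by ring, Real.rpow_sub hX1, Real.rpow_one]
    push_cast
    rw [h1]
    have h2 : ((X : ℝ) + 1) ^ (-δ) / ((X : ℝ) + 1) ≤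
        ((X : ℝ) ^ (-δ) - ((X : ℝ) + 1) ^ (-δ)) / δ := by
      rw [le_div_iff₀ hδ]
      have e : ((X : ℝ) + 1) ^ (-δ) * (1 + δ / ((X : ℝ) + 1)) =
        ((X : ℝ) + 1) ^ (-δ) + ((X : ℝ) + 1) ^ (-δ) / ((X : ℝ) + 1) * δ := by ring
      linarith
    have h3 : ((X : ℝ) ^ (-δ) - ((X : ℝ) + 1) ^ (-δ)) / δ =
      (X : ℝ) ^ (-δ) / δ - ((X : ℝ) + 1) ^ (-δ) / δ := by ring
    linarith

/-- number of divisors, as a real number -/
noncomputable def tauR (n : ℕ) : ℝ := (#(n.divisors) : ℝ)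

lemma tauR_nonneg (n : ℕ) : 0 ≤ tauR n := by unfold tauR; positivity

lemma tauR_mul_le (m n : ℕ) : tauR (m * n) ≤ tauR m * tauR n := by
  unfold tauR
  rw [Nat.divisors_mul]
  exact_mod_cast Finset.card_mul_le

/-- A general submultiplicative bound: `∑_{n ≤ X} τ(n) h(n) ≤ (∑_{n ≤ X} h(n))^2` for
multiplicatively submultiplicative nonnegative `h`. -/
lemma sum_tau_mul_le (h : ℕ → ℝ) (h0 : ∀ n, 0 ≤ h n) (hm : ∀ m n, h (m * n) ≤ h m * h n) (X : ℕ) :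
    ∑ n ∈ Icc 1 X, tauR n * h n ≤ (∑ n ∈ Icc 1 X, h n) ^ 2 := by
  have h1 : ∑ n ∈ Icc 1 X, tauR n * h n = ∑ n ∈ Icc 1 X, ∑ d ∈ n.divisorsAntidiagonal, h n := by
    apply Finset.sum_congr rfl; intro n _
    rw [Finset.sum_const, nsmul_eq_mul]
    unfold tauR
    congr 2
    exact (congrArg Finset.card (Nat.image_fst_divisorsAntidiagonal (n := n))).symm.trans
      (Finset.card_image_of_injOn (by
        intro a ha b hb hab
        have ha' := Nat.mem_divisorsAntidiagonal.mp (Finset.mem_coe.mp ha)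
        have hb' := Nat.mem_divisorsAntidiagonal.mp (Finset.mem_coe.mp hb)
        have hpos : 0 < a.1 := Nat.pos_of_ne_zero (fun h => ha'.2 (by rw [← ha'.1, h, zero_mul]))
        have hab' : a.1 = b.1 := hab
        have h2 : a.1 * a.2 = a.1 * b.2 := by rw [ha'.1, hab', hb'.1]
        exact Prod.ext hab' (Nat.eq_of_mul_eq_mul_left hpos h2)))
  rw [h1, sq, Finset.sum_mul_sum, ← Finset.sum_product', Finset.sum_sigma']
  calc ∑ x ∈ (Icc 1 X).sigma fun n => n.divisorsAntidiagonal, h x.1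
      ≤ ∑ x ∈ (Icc 1 X).sigma fun n => n.divisorsAntidiagonal, h x.2.1 * h x.2.2 := by
        apply Finset.sum_le_sum; intro x hx
        rw [Finset.mem_sigma, Nat.mem_divisorsAntidiagonal] at hx
        rw [← hx.2.1]
        exact hm _ _
    _ = ∑ y ∈ ((Icc 1 X).sigma fun n => n.divisorsAntidiagonal).image (fun x => x.2),
          h y.1 * h y.2 := by
        rw [Finset.sum_image]
        intro x hx y hy hxy
        rw [Finset.mem_coe, Finset.mem_sigma, Nat.mem_divisorsAntidiagonal] at hx hy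
        obtain ⟨x1, x2⟩ := x
        obtain ⟨y1, y2⟩ := y
        simp only at hxy hx hy
        subst hxy
        have : x1 = y1 := by rw [← hx.2.1, ← hy.2.1]
        subst this
        rfl
    _ ≤ ∑ y ∈ Icc 1 X ×ˢ Icc 1 X, h y.1 * h y.2 := by
        apply Finset.sum_le_sum_of_subset_of_nonneg
        · intro y hy
          rw [Finset.mem_image] at hy
          obtain ⟨x, hx, rfl⟩ := hy
          rw [Finset.mem_sigma, Nat.mem_divisorsAntidiagonal, Finset.mem_Icc] at hx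
          rw [Finset.mem_product, Finset.mem_Icc, Finset.mem_Icc]
          obtain ⟨⟨h1, h2⟩, h3, h4⟩ := hx
          have hp1 : 0 < x.2.1 := Nat.pos_of_ne_zero (fun h => h4 (by rw [← h3, h, zero_mul]))
          have hp2 : 0 < x.2.2 := Nat.pos_of_ne_zero (fun h => h4 (by rw [← h3, h, mul_zero]))
          have hle1 : x.2.1 ≤ x.2.1 * x.2.2 := Nat.le_mul_of_pos_right _ hp2
          have hle2 : x.2.2 ≤ x.2.1 * x.2.2 := Nat.le_mul_of_pos_left _ hp1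
          omega
        · intro y _ _
          exact mul_nonneg (h0 _) (h0 _)

/-- `∑_{n ≤ X} τ(n)^2 n^{-1-δ} ≤ (1 + 1/δ)^4` -/
lemma sum_tau_sq_le (δ : ℝ) (hδ : 0 < δ) (X : ℕ) :
    ∑ n ∈ Icc 1 X, tauR n ^ 2 * (n : ℝ) ^ (-1 - δ) ≤ (1 + 1 / δ) ^ 4 := by
  have hmul : ∀ m n : ℕ, ((m * n : ℕ) : ℝ) ^ (-1 - δ) ≤ (m : ℝ) ^ (-1 - δ) * (n : ℝ) ^ (-1 - δ) := by
    intro m n
    push_cast
    rw [Real.mul_rpow (Nat.cast_nonneg m) (Nat.cast_nonneg n)]
  have h1 := sum_tau_mul_le (fun n => tauR n * (n : ℝ) ^ (-1 - δ))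
    (fun n => mul_nonneg (tauR_nonneg n) (by positivity))
    (fun m n => by
      calc tauR (m * n) * ((m * n : ℕ) : ℝ) ^ (-1 - δ)
          ≤ (tauR m * tauR n) * ((m : ℝ) ^ (-1 - δ) * (n : ℝ) ^ (-1 - δ)) :=
            mul_le_mul (tauR_mul_le m n) (hmul m n) (by positivity)
              (mul_nonneg (tauR_nonneg m) (tauR_nonneg n))
        _ = _ := by ring) X
  have h2 := sum_tau_mul_le (fun n => (n : ℝ) ^ (-1 - δ)) (fun n => by positivity) hmul X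
  have h3 := sum_rpow_le δ hδ X
  have h4 : 0 ≤ ∑ n ∈ Icc 1 X, (n : ℝ) ^ (-1 - δ) := Finset.sum_nonneg (fun n _ => by positivity)
  have h5 : 0 ≤ ∑ n ∈ Icc 1 X, tauR n * (n : ℝ) ^ (-1 - δ) :=
    Finset.sum_nonneg (fun n _ => mul_nonneg (tauR_nonneg n) (by positivity))
  calc ∑ n ∈ Icc 1 X, tauR n ^ 2 * (n : ℝ) ^ (-1 - δ)
      = ∑ n ∈ Icc 1 X, tauR n * (tauR n * (n : ℝ) ^ (-1 - δ)) := by
        apply Finset.sum_congr rfl; intro n _; ring
    _ ≤ (∑ n ∈ Icc 1 X, tauR n * (n : ℝ) ^ (-1 - δ)) ^ 2 := h1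
    _ ≤ ((∑ n ∈ Icc 1 X, (n : ℝ) ^ (-1 - δ)) ^ 2) ^ 2 := pow_le_pow_left₀ h5 h2 2
    _ ≤ ((1 + 1 / δ) ^ 2) ^ 2 :=
        pow_le_pow_left₀ (by positivity) (pow_le_pow_left₀ h4 h3 2) 2
    _ = _ := by ring

lemma sum_inv_sq_le (J : ℕ) : ∑ j ∈ range J, (1 / ((j : ℝ) + 1)) ^ 2 ≤ 2 := by
  suffices h : ∀ J : ℕ, ∑ j ∈ range (J + 1), (1 / ((j : ℝ) + 1)) ^ 2 ≤ 2 - 1 / ((J : ℝ) + 1) by
    rcases J with _ | J
    · simp
    · have h1 := h J
      have h2 : 0 ≤ 1 / ((J : ℝ) + 1) := by positivity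
      linarith
  intro J
  induction J with
  | zero => norm_num
  | succ J ih =>
    rw [Finset.sum_range_succ]
    push_cast
    have hJ : (0 : ℝ) < (J : ℝ) + 1 := by positivity
    have hJ1 : (0 : ℝ) < (J : ℝ) + 1 + 1 := by positivity
    have h1 : (1 / ((J : ℝ) + 1 + 1)) ^ 2 ≤ 1 / ((J : ℝ) + 1) - 1 / ((J : ℝ) + 1 + 1) := by
      have e : 1 / ((J : ℝ) + 1) - 1 / ((J : ℝ) + 1 + 1) = 1 / (((J : ℝ) + 1) * ((J : ℝ) + 1 + 1)) := by
        field_simp; ring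
      rw [e, div_pow, one_pow]
      apply one_div_le_one_div_of_le (by positivity)
      nlinarith
    linarith

lemma sum_blocks (b : ℕ → ℂ) (Y : ℕ) (J : ℕ) :
    ∑ n ∈ Ioc Y (2 ^ J * Y), b n = ∑ j ∈ range J, ∑ n ∈ Ioc (2 ^ j * Y) (2 ^ (j + 1) * Y), b n := by
  induction J with
  | zero => simp
  | succ J ih =>
    rw [Finset.sum_range_succ, ← ih]
    have h1 : Y ≤ 2 ^ J * Y := Nat.le_mul_of_pos_left Y (by positivity)
    have h2 : 2 ^ J * Y ≤ 2 ^ (J + 1) * Y := Nat.mul_le_mul_right Y (Nat.pow_le_pow_right (by norm_num) (by omega))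
    rw [← Finset.sum_union (by
      rw [Finset.disjoint_left]; intro n hn hn'
      rw [Finset.mem_Ioc] at hn hn'; omega)]
    congr 1
    ext n
    rw [Finset.mem_union, Finset.mem_Ioc, Finset.mem_Ioc, Finset.mem_Ioc]
    omega

/-- finite mean-square bound -/
lemma mean_square_fin {ι : Type*} [DecidableEq ι] (I : Finset ι) (f : ι → ℕ → ℂ)
    (hf : ∀ i ∈ I, ∀ n, ‖f i n‖ ≤ 1) (q0 : ℝ) (hq0 : 0 ≤ q0) (Y : ℕ) (hY1 : 1 ≤ Y)
    (hY : q0 * #I ≤ Y)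
    (horth : ∀ M N, M ≤ N → ∀ i ∈ I, ∀ j ∈ I, i ≠ j →
      ‖∑ n ∈ Ioc M N, f i n * conj (f j n)‖ ≤ q0)
    (ℓ : ℝ) (hℓ : 1 ≤ ℓ) (b : ℕ → ℂ) (hb : ∀ n, 1 ≤ n → ‖b n‖ ≤ tauR n * (n : ℝ) ^ (-(1 + 1 / ℓ)))
    (J : ℕ) :
    ∑ i ∈ I, ‖∑ n ∈ Ioc Y (2 ^ J * Y), b n * f i n‖ ^ 2 ≤ 320 * ℓ ^ 6 := by
  have hℓ0 : 0 < ℓ := by linarith
  have hblock : ∀ j : ℕ, ∑ i ∈ I, ‖∑ n ∈ Ioc (2 ^ j * Y) (2 ^ (j + 1) * Y), b n * f i n‖ ^ 2 ≤
      ∑ n ∈ Ioc (2 ^ j * Y) (2 ^ (j + 1) * Y), 2 * (tauR n ^ 2 * (n : ℝ) ^ (-1 - 2 / ℓ)) := by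
    intro j
    have hle : 2 ^ j * Y ≤ 2 ^ (j + 1) * Y :=
      Nat.mul_le_mul_right Y (Nat.pow_le_pow_right (by norm_num) (by omega))
    have h1 := large_sieve I f hf q0 hq0 (2 ^ j * Y) (2 ^ (j + 1) * Y) hle
      (horth _ _ hle) b
    refine h1.trans ?_
    have h2 : (((2 ^ (j + 1) * Y : ℕ) : ℝ) - ((2 ^ j * Y : ℕ) : ℝ) + q0 * #I) ≤
        2 * ((2 ^ j * Y : ℕ) : ℝ) := by
      have e1 : (((2 ^ (j + 1) * Y : ℕ) : ℝ)) = 2 * ((2 ^ j * Y : ℕ) : ℝ) := by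
        push_cast; ring
      have e2 : (Y : ℝ) ≤ ((2 ^ j * Y : ℕ) : ℝ) := by
        exact_mod_cast Nat.le_mul_of_pos_left Y (by positivity)
      linarith
    calc (((2 ^ (j + 1) * Y : ℕ) : ℝ) - ((2 ^ j * Y : ℕ) : ℝ) + q0 * #I) *
          ∑ n ∈ Ioc (2 ^ j * Y) (2 ^ (j + 1) * Y), ‖b n‖ ^ 2
        ≤ (2 * ((2 ^ j * Y : ℕ) : ℝ)) * ∑ n ∈ Ioc (2 ^ j * Y) (2 ^ (j + 1) * Y), ‖b n‖ ^ 2 :=
          mul_le_mul_of_nonneg_right h2 (Finset.sum_nonneg (fun n _ => by positivity))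
      _ = ∑ n ∈ Ioc (2 ^ j * Y) (2 ^ (j + 1) * Y), 2 * (((2 ^ j * Y : ℕ) : ℝ) * ‖b n‖ ^ 2) := by
          rw [Finset.mul_sum]
          apply Finset.sum_congr rfl; intro n _; ring
      _ ≤ _ := by
          apply Finset.sum_le_sum; intro n hn
          rw [Finset.mem_Ioc] at hn
          have hn1 : 1 ≤ n := by
            have : 0 ≤ 2 ^ j * Y := Nat.zero_le _
            omega
          have hn0 : (0 : ℝ) < n := by exact_mod_cast hn1
          have hb' := hb n hn1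
          have hnn : ((2 ^ j * Y : ℕ) : ℝ) ≤ n := by exact_mod_cast hn.1.le
          apply mul_le_mul_of_nonneg_left _ (by norm_num)
          calc ((2 ^ j * Y : ℕ) : ℝ) * ‖b n‖ ^ 2
              ≤ n * (tauR n * (n : ℝ) ^ (-(1 + 1 / ℓ))) ^ 2 := by
                apply mul_le_mul hnn _ (by positivity) hn0.le
                exact pow_le_pow_left₀ (norm_nonneg _) hb' 2
            _ = tauR n ^ 2 * ((n : ℝ) ^ (1 : ℝ) * ((n : ℝ) ^ (-(1 + 1 / ℓ))) ^ 2) := by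
                rw [Real.rpow_one]; ring
            _ = tauR n ^ 2 * (n : ℝ) ^ (-1 - 2 / ℓ) := by
                rw [← Real.rpow_natCast ((n : ℝ) ^ (-(1 + 1 / ℓ))) 2, ← Real.rpow_mul hn0.le,
                  ← Real.rpow_add hn0]
                congr 2
                push_cast; ring
  have hcs : ∀ i ∈ I, ‖∑ n ∈ Ioc Y (2 ^ J * Y), b n * f i n‖ ^ 2 ≤
      2 * ∑ j ∈ range J, ((j : ℝ) + 1) ^ 2 *
        ‖∑ n ∈ Ioc (2 ^ j * Y) (2 ^ (j + 1) * Y), b n * f i n‖ ^ 2 := by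
    intro i _
    rw [sum_blocks (fun n => b n * f i n) Y J]
    have h1 : ‖∑ j ∈ range J, ∑ n ∈ Ioc (2 ^ j * Y) (2 ^ (j + 1) * Y), b n * f i n‖ ≤
        ∑ j ∈ range J, (1 / ((j : ℝ) + 1)) * (((j : ℝ) + 1) *
          ‖∑ n ∈ Ioc (2 ^ j * Y) (2 ^ (j + 1) * Y), b n * f i n‖) := by
      refine (norm_sum_le _ _).trans (le_of_eq ?_)
      apply Finset.sum_congr rfl; intro j _
      have : (j : ℝ) + 1 ≠ 0 := by positivity
      field_simp
    calc _ ≤ (∑ j ∈ range J, (1 / ((j : ℝ) + 1)) * (((j : ℝ) + 1) *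
          ‖∑ n ∈ Ioc (2 ^ j * Y) (2 ^ (j + 1) * Y), b n * f i n‖)) ^ 2 :=
          pow_le_pow_left₀ (norm_nonneg _) h1 2
      _ ≤ (∑ j ∈ range J, (1 / ((j : ℝ) + 1)) ^ 2) * ∑ j ∈ range J, (((j : ℝ) + 1) *
          ‖∑ n ∈ Ioc (2 ^ j * Y) (2 ^ (j + 1) * Y), b n * f i n‖) ^ 2 :=
          Finset.sum_mul_sq_le_sq_mul_sq _ _ _
      _ ≤ 2 * ∑ j ∈ range J, (((j : ℝ) + 1) *
          ‖∑ n ∈ Ioc (2 ^ j * Y) (2 ^ (j + 1) * Y), b n * f i n‖) ^ 2 := by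
          apply mul_le_mul_of_nonneg_right (sum_inv_sq_le J)
          exact Finset.sum_nonneg (fun j _ => by positivity)
      _ = _ := by
          congr 1
          apply Finset.sum_congr rfl; intro j _; ring
  calc ∑ i ∈ I, ‖∑ n ∈ Ioc Y (2 ^ J * Y), b n * f i n‖ ^ 2
      ≤ ∑ i ∈ I, 2 * ∑ j ∈ range J, ((j : ℝ) + 1) ^ 2 *
        ‖∑ n ∈ Ioc (2 ^ j * Y) (2 ^ (j + 1) * Y), b n * f i n‖ ^ 2 := Finset.sum_le_sum hcs
    _ = 2 * ∑ j ∈ range J, ((j : ℝ) + 1) ^ 2 *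
        ∑ i ∈ I, ‖∑ n ∈ Ioc (2 ^ j * Y) (2 ^ (j + 1) * Y), b n * f i n‖ ^ 2 := by
        rw [← Finset.mul_sum, Finset.sum_comm]
        congr 1
        apply Finset.sum_congr rfl; intro j _
        rw [Finset.mul_sum]
    _ ≤ 2 * ∑ j ∈ range J, ((j : ℝ) + 1) ^ 2 *
        ∑ n ∈ Ioc (2 ^ j * Y) (2 ^ (j + 1) * Y), 2 * (tauR n ^ 2 * (n : ℝ) ^ (-1 - 2 / ℓ)) := by
        gcongr with j _
        exact hblock j
    _ ≤ 2 * ∑ j ∈ range J,
        ∑ n ∈ Ioc (2 ^ j * Y) (2 ^ (j + 1) * Y), 10 * ℓ ^ 2 * (tauR n ^ 2 * (n : ℝ) ^ (-1 - 1 / ℓ)) := by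
        apply mul_le_mul_of_nonneg_left _ (by norm_num)
        apply Finset.sum_le_sum; intro j _
        rw [Finset.mul_sum]
        apply Finset.sum_le_sum; intro n hn
        rw [Finset.mem_Ioc] at hn
        have hn1 : 1 ≤ n := by
          have : 0 ≤ 2 ^ j * Y := Nat.zero_le _
          omega
        have hn0 : (0 : ℝ) < n := by exact_mod_cast hn1
        have hjn : (j : ℝ) * Real.log 2 ≤ Real.log n := by
          rw [← Real.log_pow]
          apply Real.log_le_log (by positivity)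
          have h3 : 2 ^ j ≤ n := by
            calc 2 ^ j ≤ 2 ^ j * Y := Nat.le_mul_of_pos_right _ hY1
              _ ≤ n := hn.1.le
          exact_mod_cast h3
        have hlog0 : 0 ≤ Real.log n := Real.log_natCast_nonneg n
        set u : ℝ := Real.log n / ℓ with hu
        have hu0 : 0 ≤ u := by positivity
        have hju : (j : ℝ) + 1 ≤ ℓ * (1 + 3 / 2 * u) := by
          have h3 : Real.log n = ℓ * u := by rw [hu]; field_simp
          have h4 := Real.log_two_gt_d9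
          have h5 : (j : ℝ) ≤ 3 / 2 * Real.log n := by
            have h6 : (j : ℝ) * 0.69 ≤ j * Real.log 2 := by gcongr; linarith
            have h7 : (0 : ℝ) ≤ j := by positivity
            nlinarith
          rw [h3] at h5
          nlinarith
        have hsq : ((j : ℝ) + 1) ^ 2 ≤ 5 * ℓ ^ 2 * Real.exp u := by
          calc ((j : ℝ) + 1) ^ 2 ≤ (ℓ * (1 + 3 / 2 * u)) ^ 2 := by gcongr
            _ = ℓ ^ 2 * (1 + 3 / 2 * u) ^ 2 := by ring
            _ ≤ ℓ ^ 2 * (5 * Real.exp u) := by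
                gcongr
                have := Real.quadratic_le_exp_of_nonneg hu0
                nlinarith
            _ = _ := by ring
        have hexp : Real.exp u * (n : ℝ) ^ (-1 - 2 / ℓ) = (n : ℝ) ^ (-1 - 1 / ℓ) := by
          rw [Real.rpow_def_of_pos hn0, Real.rpow_def_of_pos hn0, ← Real.exp_add]
          congr 1
          rw [hu]; field_simp; ring
        calc ((j : ℝ) + 1) ^ 2 * (2 * (tauR n ^ 2 * (n : ℝ) ^ (-1 - 2 / ℓ)))
            ≤ (5 * ℓ ^ 2 * Real.exp u) * (2 * (tauR n ^ 2 * (n : ℝ) ^ (-1 - 2 / ℓ))) := by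
              apply mul_le_mul_of_nonneg_right hsq (by positivity)
          _ = 10 * ℓ ^ 2 * (tauR n ^ 2 * (Real.exp u * (n : ℝ) ^ (-1 - 2 / ℓ))) := by ring
          _ = _ := by rw [hexp]
    _ ≤ 2 * (10 * ℓ ^ 2 * (1 + ℓ) ^ 4) := by
        apply mul_le_mul_of_nonneg_left _ (by norm_num)
        have h3 : ∑ j ∈ range J, ∑ n ∈ Ioc (2 ^ j * Y) (2 ^ (j + 1) * Y),
            10 * ℓ ^ 2 * (tauR n ^ 2 * (n : ℝ) ^ (-1 - 1 / ℓ)) =
            ∑ n ∈ Ioc Y (2 ^ J * Y), 10 * ℓ ^ 2 * (tauR n ^ 2 * (n : ℝ) ^ (-1 - 1 / ℓ)) := by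
          have h4 := sum_blocks (fun n => ((10 * ℓ ^ 2 * (tauR n ^ 2 * (n : ℝ) ^ (-1 - 1 / ℓ)) : ℝ) : ℂ)) Y J
          exact_mod_cast h4.symm
        rw [h3, ← Finset.mul_sum]
        apply mul_le_mul_of_nonneg_left _ (by positivity)
        calc ∑ n ∈ Ioc Y (2 ^ J * Y), tauR n ^ 2 * (n : ℝ) ^ (-1 - 1 / ℓ)
            ≤ ∑ n ∈ Icc 1 (2 ^ J * Y), tauR n ^ 2 * (n : ℝ) ^ (-1 - 1 / ℓ) := by
              apply Finset.sum_le_sum_of_subset_of_nonneg
              · intro n hn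
                rw [Finset.mem_Ioc] at hn
                rw [Finset.mem_Icc]; omega
              · intro n _ _; positivity
          _ ≤ (1 + 1 / (1 / ℓ)) ^ 4 := sum_tau_sq_le (1 / ℓ) (by positivity) _
          _ = (1 + ℓ) ^ 4 := by rw [one_div_one_div]
    _ ≤ 320 * ℓ ^ 6 := by
        have h3 : (1 + ℓ) ^ 4 ≤ (2 * ℓ) ^ 4 := by
          apply pow_le_pow_left₀ (by linarith); linarith
        calc 2 * (10 * ℓ ^ 2 * (1 + ℓ) ^ 4) ≤ 2 * (10 * ℓ ^ 2 * (2 * ℓ) ^ 4) := by gcongr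
          _ = 320 * ℓ ^ 6 := by ring

end Pool.Agent.H16
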