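import Pool.Agent.H16.TypeII
import Pool.Agent.H16.LSieve

/-!
Mollified identity for the von Mangoldt function, twisted Dirichlet series, mean square of
`R = 1 - L M`.
-/

set_option autoImplicit false

open Complex Finset Filter Topology
open scoped ComplexConjugate ArithmeticFunction.zeta ArithmeticFunction.Moebius
open ArithmeticFunction (vonMangoldt moebius)

namespace Pool.Agent.H16

/-- von Mangoldt function, complex valued -/
noncomputable def LamC : ArithmeticFunction ℂ := ⟨fun n => ((vonMangoldt n : ℝ) : ℂ), by simp⟩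

/-- truncated/weighted Möbius function -/
noncomputable def mvf (v : ℕ → ℝ) : ArithmeticFunction ℂ :=
  ⟨fun n => ((moebius n : ℤ) : ℂ) * ((v n : ℝ) : ℂ), by simp⟩

/-- logarithm -/
noncomputable def logC : ArithmeticFunction ℂ := ⟨fun n => ((Real.log n : ℝ) : ℂ), by simp⟩

/-- zeta as complex arithmetic function -/
noncomputable def zC : ArithmeticFunction ℂ := (ArithmeticFunction.zeta : ArithmeticFunction ℂ)

/-- `1 - ζ * m` -/
noncomputable def rf (v : ℕ → ℝ) : ArithmeticFunction ℂ := 1 - zC * mvf v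

lemma LamC_apply (n : ℕ) : LamC n = ((vonMangoldt n : ℝ) : ℂ) := rfl
lemma mvf_apply (v : ℕ → ℝ) (n : ℕ) : mvf v n = ((moebius n : ℤ) : ℂ) * ((v n : ℝ) : ℂ) := rfl
lemma logC_apply (n : ℕ) : logC n = ((Real.log n : ℝ) : ℂ) := rfl

lemma zC_apply (n : ℕ) (hn : n ≠ 0) : zC n = 1 := by
  unfold zC
  rw [ArithmeticFunction.natCoe_apply, ArithmeticFunction.zeta_apply_ne hn]
  simp

lemma LamC_mul_zC : LamC * zC = logC := by
  ext n
  unfold zC
  rw [ArithmeticFunction.coe_mul_zeta_apply, logC_apply]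
  simp_rw [LamC_apply]
  rw [← Complex.ofReal_sum, ArithmeticFunction.vonMangoldt_sum]

/-- the mollified identity -/
theorem Lam_ident (v : ℕ → ℝ) :
    LamC = logC * mvf v * (3 - 3 * (zC * mvf v) + (zC * mvf v) ^ 2) + LamC * (rf v) ^ 3 := by
  rw [← LamC_mul_zC]
  unfold rf
  ring

lemma zC_mul_mvf_apply (v : ℕ → ℝ) (n : ℕ) :
    (zC * mvf v) n = ∑ d ∈ n.divisors, ((moebius d : ℤ) : ℂ) * ((v d : ℝ) : ℂ) := by
  unfold zC
  rw [ArithmeticFunction.coe_zeta_mul_apply]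
  rfl

lemma rf_apply_zero_of_le (v : ℕ → ℝ) (Y : ℕ) (hv : ∀ n, n ≤ Y → v n = 1) (n : ℕ) (hn : n ≤ Y) :
    rf v n = 0 := by
  rcases Nat.eq_zero_or_pos n with rfl | hn0
  · simp
  unfold rf
  rw [sub_eq_add_neg, ArithmeticFunction.add_apply, ArithmeticFunction.neg_apply,
    zC_mul_mvf_apply]
  have h1 : ∑ d ∈ n.divisors, ((moebius d : ℤ) : ℂ) * ((v d : ℝ) : ℂ) =
      ∑ d ∈ n.divisors, ((moebius d : ℤ) : ℂ) := by
    apply Finset.sum_congr rfl
    intro d hd
    rw [hv d ((Nat.divisor_le hd).trans hn)]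
    simp
  have h2 : ((1 : ArithmeticFunction ℂ)) n = ∑ d ∈ n.divisors, ((moebius d : ℤ) : ℂ) := by
    rw [← ArithmeticFunction.coe_zeta_mul_coe_moebius, ArithmeticFunction.coe_zeta_mul_apply]
    rfl
  rw [h1, h2]
  ring

lemma norm_mvf_le (v : ℕ → ℝ) (hv0 : ∀ n, 0 ≤ v n) (hv1 : ∀ n, v n ≤ 1) (n : ℕ) :
    ‖mvf v n‖ ≤ 1 := by
  rw [mvf_apply, norm_mul, Complex.norm_real, Real.norm_of_nonneg (hv0 n), Complex.norm_intCast]
  have h1 : |((moebius n : ℤ) : ℝ)| ≤ 1 := by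
    have := ArithmeticFunction.abs_moebius_le_one (n := n)
    exact_mod_cast this
  exact mul_le_one₀ h1 (hv0 n) (hv1 n)

lemma norm_rf_le (v : ℕ → ℝ) (hv0 : ∀ n, 0 ≤ v n) (hv1 : ∀ n, v n ≤ 1)
    (hv : v 1 = 1) (n : ℕ) (hn : 1 ≤ n) : ‖rf v n‖ ≤ tauR n := by
  have hn0 : n ≠ 0 := by omega
  by_cases h1 : n = 1
  · subst h1
    have : rf v 1 = 0 := by
      have := rf_apply_zero_of_le (fun n => if n = 0 then 1 else v n) 1 (by
        intro n hn
        interval_cases n <;> simp [hv]) 1 le_rfl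
      rw [← this]
      unfold rf
      rw [sub_eq_add_neg, ArithmeticFunction.add_apply, ArithmeticFunction.neg_apply,
        zC_mul_mvf_apply, sub_eq_add_neg, ArithmeticFunction.add_apply, ArithmeticFunction.neg_apply,
        zC_mul_mvf_apply]
      simp
    rw [this, norm_zero]
    exact tauR_nonneg 1
  unfold rf
  rw [sub_eq_add_neg, ArithmeticFunction.add_apply, ArithmeticFunction.neg_apply,
    zC_mul_mvf_apply, ArithmeticFunction.one_apply_ne h1, zero_add, norm_neg]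
  refine (norm_sum_le _ _).trans ?_
  unfold tauR
  calc ∑ d ∈ n.divisors, ‖((moebius d : ℤ) : ℂ) * ((v d : ℝ) : ℂ)‖ ≤ ∑ d ∈ n.divisors, (1 : ℝ) :=
        Finset.sum_le_sum (fun d _ => norm_mvf_le v hv0 hv1 d)
    _ = _ := by rw [Finset.sum_const, nsmul_eq_mul, mul_one]

/-! ### twisting -/

/-- twist of an arithmetic function by a Dirichlet character -/
noncomputable def twc {q : ℕ} (ξ : DirichletCharacter ℂ q) (f : ArithmeticFunction ℂ) :
    ArithmeticFunction ℂ := ⟨fun n => ξ n * f n, by simp⟩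

lemma twc_apply {q : ℕ} (ξ : DirichletCharacter ℂ q) (f : ArithmeticFunction ℂ) (n : ℕ) :
    twc ξ f n = ξ n * f n := rfl

lemma twc_mul {q : ℕ} (ξ : DirichletCharacter ℂ q) (f g : ArithmeticFunction ℂ) :
    twc ξ (f * g) = twc ξ f * twc ξ g := by
  ext n
  rw [twc_apply, ArithmeticFunction.mul_apply, ArithmeticFunction.mul_apply, Finset.mul_sum]
  apply Finset.sum_congr rfl
  intro p hp
  rw [twc_apply, twc_apply, ← (Nat.mem_divisorsAntidiagonal.mp hp).1, Nat.cast_mul, map_mul]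
  ring

lemma twc_add {q : ℕ} (ξ : DirichletCharacter ℂ q) (f g : ArithmeticFunction ℂ) :
    twc ξ (f + g) = twc ξ f + twc ξ g := by
  ext n
  simp only [twc_apply, ArithmeticFunction.add_apply]
  ring

lemma twc_neg {q : ℕ} (ξ : DirichletCharacter ℂ q) (f : ArithmeticFunction ℂ) :
    twc ξ (-f) = - twc ξ f := by
  ext n
  simp only [twc_apply, ArithmeticFunction.neg_apply]
  ring

lemma twc_sub {q : ℕ} (ξ : DirichletCharacter ℂ q) (f g : ArithmeticFunction ℂ) :
    twc ξ (f - g) = twc ξ f - twc ξ g := by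
  rw [sub_eq_add_neg, twc_add, twc_neg, ← sub_eq_add_neg]

lemma twc_one {q : ℕ} (ξ : DirichletCharacter ℂ q) : twc ξ 1 = 1 := by
  ext n
  rw [twc_apply]
  by_cases h : n = 1
  · subst h; simp
  · rw [ArithmeticFunction.one_apply_ne h, mul_zero]

lemma twc_pow {q : ℕ} (ξ : DirichletCharacter ℂ q) (f : ArithmeticFunction ℂ) (k : ℕ) :
    twc ξ (f ^ k) = (twc ξ f) ^ k := by
  induction k with
  | zero => rw [pow_zero, pow_zero, twc_one]
  | succ k ih => rw [pow_succ, pow_succ, twc_mul, ih]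

lemma twc_rf {q : ℕ} (ξ : DirichletCharacter ℂ q) (v : ℕ → ℝ) :
    twc ξ (rf v) = 1 - twc ξ zC * twc ξ (mvf v) := by
  unfold rf
  rw [twc_sub, twc_one, twc_mul]

/-- summability criterion and bound for twisted series -/
lemma twc_summable {q : ℕ} (ξ : DirichletCharacter ℂ q) (f : ArithmeticFunction ℂ) (σ : ℝ)
    (B : ℕ → ℝ) (hB : ∀ n, 1 ≤ n → ‖f n‖ ≤ B n) (hs : Summable (fun n : ℕ => B n * (n : ℝ) ^ (-σ)))
    (hB0 : ∀ n, 0 ≤ B n) (s : ℂ) (hre : s.re = σ) :
    LSeriesSummable (twc ξ f) s ∧ ‖LSeries (twc ξ f) s‖ ≤ ∑' n : ℕ, B n * (n : ℝ) ^ (-σ) := by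
  have hb : ∀ n : ℕ, ‖LSeries.term (twc ξ f) s n‖ ≤ B n * (n : ℝ) ^ (-σ) := by
    intro n
    rcases Nat.eq_zero_or_pos n with rfl | hn
    · rw [LSeries.term_zero, norm_zero]
      have := hB0 0
      positivity
    · rw [LSeries.term_of_ne_zero (by omega), norm_div, Complex.norm_natCast_cpow_of_pos hn, hre,
        twc_apply, norm_mul, Real.rpow_neg (by positivity), ← div_eq_mul_inv]
      apply div_le_div_of_nonneg_right _ (by positivity)
      calc ‖ξ n‖ * ‖f n‖ ≤ 1 * ‖f n‖ :=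
            mul_le_mul_of_nonneg_right (DirichletCharacter.norm_le_one ξ _) (norm_nonneg _)
        _ ≤ B n := by rw [one_mul]; exact hB n hn
  have h1 : Summable (fun n => ‖LSeries.term (twc ξ f) s n‖) :=
    Summable.of_nonneg_of_le (fun _ => norm_nonneg _) hb hs
  refine ⟨h1.of_norm, ?_⟩
  unfold LSeries
  exact (norm_tsum_le_tsum_norm h1).trans (Summable.tsum_le_tsum hb h1 hs)

lemma summable_rpow_tsum_le (δ : ℝ) (hδ : 0 < δ) :
    Summable (fun n : ℕ => (n : ℝ) ^ (-1 - δ)) ∧ ∑' n : ℕ, (n : ℝ) ^ (-1 - δ) ≤ 1 + 1 / δ := by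
  have h1 : Summable (fun n : ℕ => (n : ℝ) ^ (-1 - δ)) := Real.summable_nat_rpow.mpr (by linarith)
  refine ⟨h1, ?_⟩
  have h2 := h1.hasSum.tendsto_sum_nat
  refine le_of_tendsto h2 (Filter.Eventually.of_forall fun N => ?_)
  rcases Nat.eq_zero_or_pos N with rfl | hN
  · simp; positivity
  have h3 : ∑ n ∈ Finset.range N, (n : ℝ) ^ (-1 - δ) ≤ ∑ n ∈ Finset.Icc 1 N, (n : ℝ) ^ (-1 - δ) := by
    rw [Finset.range_eq_Ico, Finset.sum_eq_sum_Ico_succ_bot hN]
    have e0 : ((0 : ℕ) : ℝ) ^ (-1 - δ) = 0 := by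
      rw [Nat.cast_zero, Real.zero_rpow (by linarith)]
    rw [e0, zero_add]
    apply Finset.sum_le_sum_of_subset_of_nonneg
    · intro n hn
      simp only [Finset.mem_Ico, Finset.mem_Icc] at hn ⊢
      omega
    · intro n _ _; positivity
  exact h3.trans (sum_rpow_le δ hδ N)

end Pool.Agent.H16
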