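import Pool.Agent.H16.Ident

/-!
Bounds for the twisted Dirichlet series on the line `Re s = 1 + 1/ℓ`, and the mean square of
`R = 1 - L M` over a quasi-orthogonal family.
-/

set_option autoImplicit false

open Complex Finset Filter Topology
open scoped ComplexConjugate ArithmeticFunction.zeta ArithmeticFunction.Moebius
open ArithmeticFunction (vonMangoldt moebius)

namespace Pool.Agent.H16

lemma norm_LamC_le (n : ℕ) : ‖LamC n‖ ≤ Real.log n := by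
  rw [LamC_apply, Complex.norm_real, Real.norm_of_nonneg ArithmeticFunction.vonMangoldt_nonneg]
  exact ArithmeticFunction.vonMangoldt_le_log

lemma twc_LamC_bound {q : ℕ} (ξ : DirichletCharacter ℂ q) (ℓ : ℝ) (hℓ : 1 ≤ ℓ) (s : ℂ)
    (hs : s.re = 1 + 1 / ℓ) :
    LSeriesSummable (twc ξ LamC) s ∧ ‖LSeries (twc ξ LamC) s‖ ≤ 6 * ℓ ^ 2 := by
  have hℓ0 : 0 < ℓ := by linarith
  obtain ⟨h1, h2⟩ := summable_rpow_tsum_le (1 / (2 * ℓ)) (by positivity)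
  have hterm : ∀ n : ℕ, (2 * ℓ * (n : ℝ) ^ (1 / (2 * ℓ))) * (n : ℝ) ^ (-(1 + 1 / ℓ)) =
      2 * ℓ * (n : ℝ) ^ (-1 - 1 / (2 * ℓ)) := by
    intro n
    rcases Nat.eq_zero_or_pos n with rfl | hn
    · have e1 : ((0 : ℕ) : ℝ) ^ (-(1 + 1 / ℓ)) = 0 := by
        rw [Nat.cast_zero, Real.zero_rpow (by have : 0 < 1 / ℓ := by positivity
                                              linarith)]
      have e2 : ((0 : ℕ) : ℝ) ^ (-1 - 1 / (2 * ℓ)) = 0 := by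
        rw [Nat.cast_zero, Real.zero_rpow (by have : 0 < 1 / (2 * ℓ) := by positivity
                                              linarith)]
      rw [e1, e2]; ring
    · have hn0 : (0 : ℝ) < n := by exact_mod_cast hn
      rw [mul_assoc, ← Real.rpow_add hn0]
      congr 2
      field_simp
      ring
  have hsum : Summable (fun n : ℕ => (2 * ℓ * (n : ℝ) ^ (1 / (2 * ℓ))) * (n : ℝ) ^ (-(1 + 1 / ℓ))) := by
    simp_rw [hterm]
    exact h1.mul_left _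
  obtain ⟨h3, h4⟩ := twc_summable ξ LamC (1 + 1 / ℓ) (fun n => 2 * ℓ * (n : ℝ) ^ (1 / (2 * ℓ)))
    (by
      intro n hn
      refine (norm_LamC_le n).trans ?_
      have hn1 : (1 : ℝ) ≤ n := by exact_mod_cast hn
      have := Real.log_le_rpow_div (by positivity : (0 : ℝ) ≤ n) (show 0 < 1 / (2 * ℓ) by positivity)
      have e : (n : ℝ) ^ (1 / (2 * ℓ)) / (1 / (2 * ℓ)) = 2 * ℓ * (n : ℝ) ^ (1 / (2 * ℓ)) := by
        field_simp
      linarith [e ▸ this]) hsum (fun n => by positivity) s hs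
  refine ⟨h3, h4.trans ?_⟩
  simp_rw [hterm]
  rw [tsum_mul_left]
  have h5 : 1 + 1 / (1 / (2 * ℓ)) = 1 + 2 * ℓ := by field_simp
  rw [h5] at h2
  calc 2 * ℓ * ∑' n : ℕ, (n : ℝ) ^ (-1 - 1 / (2 * ℓ)) ≤ 2 * ℓ * (1 + 2 * ℓ) :=
        mul_le_mul_of_nonneg_left h2 (by positivity)
    _ ≤ 6 * ℓ ^ 2 := by nlinarith

lemma twc_bdd_bound {q : ℕ} (ξ : DirichletCharacter ℂ q) (f : ArithmeticFunction ℂ)
    (hf : ∀ n, 1 ≤ n → ‖f n‖ ≤ 1) (ℓ : ℝ) (hℓ : 1 ≤ ℓ) (s : ℂ)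
    (hs : s.re = 1 + 1 / ℓ) :
    LSeriesSummable (twc ξ f) s ∧ ‖LSeries (twc ξ f) s‖ ≤ 1 + ℓ := by
  have hℓ0 : 0 < ℓ := by linarith
  obtain ⟨h1, h2⟩ := summable_rpow_tsum_le (1 / ℓ) (by positivity)
  have e : ∀ n : ℕ, (1 : ℝ) * (n : ℝ) ^ (-(1 + 1 / ℓ)) = (n : ℝ) ^ (-1 - 1 / ℓ) := by
    intro n; rw [one_mul]; congr 1; ring
  obtain ⟨h3, h4⟩ := twc_summable ξ f (1 + 1 / ℓ) (fun _ => 1) hf
    (by simp_rw [e]; exact h1) (fun _ => zero_le_one) s hs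
  refine ⟨h3, h4.trans ?_⟩
  simp_rw [e]
  have h5 : 1 + 1 / (1 / ℓ) = 1 + ℓ := by field_simp
  linarith [h5 ▸ h2]

lemma LSeriesSummable_one (s : ℂ) : LSeriesSummable ((1 : ArithmeticFunction ℂ) : ℕ → ℂ) s ∧
    LSeries ((1 : ArithmeticFunction ℂ) : ℕ → ℂ) s = 1 := by
  have e : ((1 : ArithmeticFunction ℂ) : ℕ → ℂ) = LSeries.delta := by
    exact ArithmeticFunction.one_eq_delta
  rw [e]
  refine ⟨?_, by rw [LSeries_delta]; rfl⟩
  apply summable_of_hasFiniteSupport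
  apply (Set.finite_singleton 1).subset
  intro n hn
  simp only [Function.mem_support, ne_eq] at hn
  by_contra h
  apply hn
  rcases eq_or_ne n 0 with rfl | h0
  · exact LSeries.term_zero _ _
  · rw [LSeries.term_of_ne_zero h0]
    have : LSeries.delta n = 0 := by
      unfold LSeries.delta
      rw [if_neg (by simpa using h)]
    rw [this, zero_div]

/-- `R = 1 - L M` as the Dirichlet series of the twist of `rf`. -/
lemma LSeries_twc_rf {q : ℕ} (ξ : DirichletCharacter ℂ q) (v : ℕ → ℝ) (hv0 : ∀ n, 0 ≤ v n)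
    (hv1 : ∀ n, v n ≤ 1) (ℓ : ℝ) (hℓ : 1 ≤ ℓ) (s : ℂ) (hs : s.re = 1 + 1 / ℓ) :
    LSeriesSummable (twc ξ (rf v)) s ∧
    LSeries (twc ξ (rf v)) s = 1 - LSeries (twc ξ zC) s * LSeries (twc ξ (mvf v)) s ∧
    ‖LSeries (twc ξ (rf v)) s‖ ≤ 5 * ℓ ^ 2 := by
  have hz := twc_bdd_bound ξ zC (fun n hn => by rw [zC_apply n (by omega)]; simp) ℓ hℓ s hs
  have hm := twc_bdd_bound ξ (mvf v) (fun n _ => norm_mvf_le v hv0 hv1 n) ℓ hℓ s hs
  have h1 := LSeriesSummable_one s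
  have hmul := ArithmeticFunction.LSeriesSummable_mul hz.1 hm.1
  have e : (twc ξ (rf v) : ℕ → ℂ) = ((1 : ArithmeticFunction ℂ) : ℕ → ℂ) -
      ((twc ξ zC * twc ξ (mvf v) : ArithmeticFunction ℂ) : ℕ → ℂ) := by
    rw [twc_rf]
    ext n
    simp [sub_eq_add_neg]
  have e2 : LSeries (twc ξ (rf v)) s = 1 - LSeries (twc ξ zC) s * LSeries (twc ξ (mvf v)) s := by
    rw [e, LSeries_sub h1.1 hmul, h1.2, ArithmeticFunction.LSeries_mul' hz.1 hm.1]
  refine ⟨by rw [e]; exact h1.1.sub hmul, e2, ?_⟩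
  rw [e2]
  calc ‖1 - LSeries (twc ξ zC) s * LSeries (twc ξ (mvf v)) s‖ ≤
      ‖(1 : ℂ)‖ + ‖LSeries (twc ξ zC) s * LSeries (twc ξ (mvf v)) s‖ := norm_sub_le _ _
    _ ≤ 1 + (1 + ℓ) * (1 + ℓ) := by
        rw [norm_one, norm_mul]
        have := mul_le_mul hz.2 hm.2 (norm_nonneg _) (by linarith)
        linarith
    _ ≤ 5 * ℓ ^ 2 := by nlinarith

/-- mean square of `R` over a quasi-orthogonal family -/
theorem mean_square_R {ι : Type*} [DecidableEq ι] (I' : Finset ι) (Q : ι → ℕ)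
    (ξ : (i : ι) → DirichletCharacter ℂ (Q i)) (q0 : ℝ) (hq0 : 0 ≤ q0) (Y : ℕ) (hY1 : 1 ≤ Y)
    (hY : q0 * #I' ≤ Y)
    (horth : ∀ M N : ℕ, M ≤ N → ∀ i ∈ I', ∀ j ∈ I', i ≠ j →
      ‖∑ n ∈ Ioc M N, ξ i n * conj (ξ j n)‖ ≤ q0)
    (ℓ : ℝ) (hℓ : 1 ≤ ℓ) (v : ℕ → ℝ) (hv0 : ∀ n, 0 ≤ v n)
    (hv1 : ∀ n, v n ≤ 1) (hvY : ∀ n, n ≤ Y → v n = 1) (s : ℂ) (hs : s.re = 1 + 1 / ℓ) :
    ∑ i ∈ I', ‖LSeries (twc (ξ i) (rf v)) s‖ ^ 2 ≤ 320 * ℓ ^ 6 := by
  have hℓ0 : 0 < ℓ := by linarith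
  have hsum : ∀ i ∈ I', HasSum (LSeries.term (twc (ξ i) (rf v)) s) (LSeries (twc (ξ i) (rf v)) s) := by
    intro i _
    exact (LSeries_twc_rf (ξ i) v hv0 hv1 ℓ hℓ s hs).1.hasSum
  -- partial sums
  have hpart : ∀ i ∈ I', ∀ J : ℕ, ∑ n ∈ Finset.range (2 ^ J * Y + 1), LSeries.term (twc (ξ i) (rf v)) s n =
      ∑ n ∈ Ioc Y (2 ^ J * Y), (rf v n / (n : ℂ) ^ s) * ξ i n := by
    intro i _ J
    have hsub : Ioc Y (2 ^ J * Y) ⊆ Finset.range (2 ^ J * Y + 1) := by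
      intro n hn
      rw [Finset.mem_Ioc] at hn
      rw [Finset.mem_range]; omega
    rw [← Finset.sum_subset hsub]
    · apply Finset.sum_congr rfl
      intro n hn
      rw [Finset.mem_Ioc] at hn
      rw [LSeries.term_of_ne_zero (by omega), twc_apply]
      ring
    · intro n hn hn'
      rw [Finset.mem_range] at hn
      rw [Finset.mem_Ioc] at hn'
      have hnY : n ≤ Y := by
        by_contra h
        exact hn' ⟨by omega, by omega⟩
      rcases Nat.eq_zero_or_pos n with rfl | hn0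
      · exact LSeries.term_zero _ _
      · rw [LSeries.term_of_ne_zero (by omega), twc_apply, rf_apply_zero_of_le v Y hvY n hnY]
        simp
  have hlim : Tendsto (fun J : ℕ => ∑ i ∈ I', ‖∑ n ∈ Ioc Y (2 ^ J * Y), (rf v n / (n : ℂ) ^ s) * ξ i n‖ ^ 2)
      atTop (𝓝 (∑ i ∈ I', ‖LSeries (twc (ξ i) (rf v)) s‖ ^ 2)) := by
    apply tendsto_finsetSum
    intro i hi
    have h1 := (hsum i hi).tendsto_sum_nat
    have h2 : Tendsto (fun J : ℕ => 2 ^ J * Y + 1) atTop atTop := by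
      apply Filter.tendsto_atTop_mono (f := fun J : ℕ => J)
      · intro J
        have h3 : J < 2 ^ J := Nat.lt_two_pow_self
        have h4 : 2 ^ J * 1 ≤ 2 ^ J * Y := Nat.mul_le_mul_left _ hY1
        omega
      · exact Filter.tendsto_id
    have h3 := h1.comp h2
    have h4 : (fun J : ℕ => ∑ n ∈ Ioc Y (2 ^ J * Y), (rf v n / (n : ℂ) ^ s) * ξ i n) =
        (fun n => ∑ i_1 ∈ Finset.range n, LSeries.term (twc (ξ i) (rf v)) s i_1) ∘
          (fun J : ℕ => 2 ^ J * Y + 1) := by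
      ext J
      exact (hpart i hi J).symm
    rw [← h4] at h3
    exact (h3.norm).pow 2
  refine le_of_tendsto hlim (Filter.Eventually.of_forall fun J => ?_)
  refine mean_square_fin I' (fun i n => ξ i n)
    (fun i _ n => DirichletCharacter.norm_le_one _ _) q0 hq0 Y hY1 hY horth ℓ hℓ
    (fun n => rf v n / (n : ℂ) ^ s) ?_ J
  intro n hn
  have hv11 : v 1 = 1 := hvY 1 hY1
  rw [norm_div, Complex.norm_natCast_cpow_of_pos (by omega), hs, Real.rpow_neg (by positivity),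
    ← div_eq_mul_inv]
  exact div_le_div_of_nonneg_right (norm_rf_le v hv0 hv1 hv11 n hn) (by positivity)

/-- the type II Dirichlet series -/
lemma LSeries_twc_typeII {q : ℕ} (ξ : DirichletCharacter ℂ q) (v : ℕ → ℝ) (hv0 : ∀ n, 0 ≤ v n)
    (hv1 : ∀ n, v n ≤ 1) (ℓ : ℝ) (hℓ : 1 ≤ ℓ) (s : ℂ) (hs : s.re = 1 + 1 / ℓ) :
    LSeriesSummable (twc ξ (LamC * rf v ^ 3)) s ∧
    LSeries (twc ξ (LamC * rf v ^ 3)) s = LSeries (twc ξ LamC) s * LSeries (twc ξ (rf v)) s ^ 3 := by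
  have h1 := (twc_LamC_bound ξ ℓ hℓ s hs).1
  have h2 := (LSeries_twc_rf ξ v hv0 hv1 ℓ hℓ s hs).1
  have e : twc ξ (LamC * rf v ^ 3) = twc ξ LamC * (twc ξ (rf v) * (twc ξ (rf v) * twc ξ (rf v))) := by
    rw [twc_mul, twc_pow]; ring
  have h3 := ArithmeticFunction.LSeriesSummable_mul h2 h2
  have h4 := ArithmeticFunction.LSeriesSummable_mul h2 h3
  have h5 := ArithmeticFunction.LSeriesSummable_mul h1 h4
  rw [e]
  refine ⟨h5, ?_⟩
  rw [ArithmeticFunction.LSeries_mul' h1 h4, ArithmeticFunction.LSeries_mul' h2 h3,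
    ArithmeticFunction.LSeries_mul' h2 h2]
  ring

end Pool.Agent.H16
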