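import Mathlib

/-!
The Mellin kernel `1/s^2`: `(-log y)_+ = (1/2π) ∫ y^{-(σ+it)} / (σ+it)^2 dt`.
-/

set_option autoImplicit false

open Complex Set MeasureTheory Filter Topology Asymptotics

namespace Pool.Agent.H16

/-- `(-log y)_+` -/
noncomputable def kfun (y : ℝ) : ℝ := max 0 (-Real.log y)

lemma kfun_nonneg (y : ℝ) : 0 ≤ kfun y := le_max_left _ _

lemma continuousAt_kfun {y : ℝ} (hy : 0 < y) : ContinuousAt kfun y := by
  unfold kfun
  exact continuousAt_const.max ((Real.continuousAt_log hy.ne').neg)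

lemma norm_sq_add (σ t : ℝ) : ‖(σ : ℂ) + t * I‖ ^ 2 = σ ^ 2 + t ^ 2 := by
  rw [← Complex.normSq_eq_norm_sq, Complex.normSq_apply]
  simp
  ring

lemma integrable_inv_sq (σ : ℝ) (hσ : 0 < σ) :
    Integrable (fun t : ℝ => 1 / ((σ : ℂ) + t * I) ^ 2) := by
  have h1 : Integrable (fun t : ℝ => (max 1 (1 / σ ^ 2)) * (1 + t ^ 2)⁻¹) :=
    integrable_inv_one_add_sq.const_mul _
  refine h1.mono' ?_ ?_
  · apply Continuous.aestronglyMeasurable
    apply Continuous.div continuous_const (by fun_prop)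
    intro t
    apply pow_ne_zero
    intro h
    have := congrArg Complex.re h
    simp at this
    linarith
  · filter_upwards with t
    rw [norm_div, norm_one, norm_pow, norm_sq_add]
    have h2 : 0 < σ ^ 2 + t ^ 2 := by positivity
    rw [one_div, ← one_div, div_le_iff₀ h2, mul_assoc]
    have h3 : 1 ≤ max 1 (1 / σ ^ 2) := le_max_left _ _
    have h4 : 1 / σ ^ 2 ≤ max 1 (1 / σ ^ 2) := le_max_right _ _
    have h5 : 1 + t ^ 2 ≤ max 1 (1 / σ ^ 2) * (σ ^ 2 + t ^ 2) := by
      have h6 : 1 ≤ max 1 (1 / σ ^ 2) * σ ^ 2 := by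
        calc (1 : ℝ) = 1 / σ ^ 2 * σ ^ 2 := by field_simp
          _ ≤ _ := by gcongr
      nlinarith [sq_nonneg t]
    have h7 : (1 + t ^ 2)⁻¹ * (σ ^ 2 + t ^ 2) = (σ ^ 2 + t ^ 2) / (1 + t ^ 2) := by field_simp
    rw [h7, mul_div_assoc', le_div_iff₀ (by positivity)]
    linarith

lemma mellin_kfun (s : ℂ) (hs : 0 < s.re) :
    MellinConvergent (fun y => ((kfun y : ℝ) : ℂ)) s ∧
      mellin (fun y => ((kfun y : ℝ) : ℂ)) s = 1 / s ^ 2 := by
  set f : ℝ → ℂ := indicator (Ioc 0 1) (fun _ => 1 : ℝ → ℂ) with hf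
  have hint : Integrable f := by
    rw [hf, integrable_indicator_iff measurableSet_Ioc]
    exact integrableOn_const (by simp)
  have htop : f =O[atTop] (fun t : ℝ => t ^ (-(s.re + 1))) := by
    apply EventuallyEq.isBigO ?_ |>.trans (isBigO_zero _ _)
    filter_upwards [eventually_gt_atTop (1 : ℝ)] with t ht
    rw [hf, indicator_of_notMem]
    intro h
    exact absurd h.2 (not_le.mpr ht)
  have hbot : f =O[𝓝[>] 0] (fun t : ℝ => t ^ (-(0 : ℝ))) := by
    simp only [neg_zero, Real.rpow_zero]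
    apply IsBigO.of_bound 1
    filter_upwards with t
    rw [hf]
    by_cases h : t ∈ Ioc (0 : ℝ) 1
    · rw [indicator_of_mem h]; simp
    · rw [indicator_of_notMem h]; simp
  obtain ⟨h1, h2⟩ := mellin_hasDerivAt_of_isBigO_rpow (s := s) (hint.locallyIntegrable.locallyIntegrableOn (Ioi 0))
    htop (by linarith) hbot hs
  have hfk : (fun y => ((kfun y : ℝ) : ℂ)) =ᵐ[volume.restrict (Ioi 0)]
      (fun t => -(Real.log t • f t)) := by
    rw [EventuallyEq, ae_restrict_iff' measurableSet_Ioi]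
    filter_upwards with t ht
    rw [hf]
    unfold kfun
    by_cases h : t ≤ 1
    · rw [indicator_of_mem (show t ∈ Ioc (0 : ℝ) 1 from ⟨ht, h⟩)]
      have h3 : Real.log t ≤ 0 := Real.log_nonpos (le_of_lt ht) h
      rw [max_eq_right (by linarith)]
      simp
    · rw [indicator_of_notMem (fun h' => h h'.2)]
      have h3 : 0 ≤ Real.log t := Real.log_nonneg (le_of_lt (not_le.mp h))
      rw [max_eq_left (by linarith)]
      simp
  have hconv : MellinConvergent (fun t => -(Real.log t • f t)) s := by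
    have := h1.const_smul (-1 : ℂ)
    simpa using this
  have hderiv : HasDerivAt (mellin f) (-(1 / s ^ 2)) s := by
    have h3 : HasDerivAt (fun z : ℂ => 1 / z) (-(1 / s ^ 2)) s := by
      have hs0 : s ≠ 0 := by
        intro h; rw [h, Complex.zero_re] at hs; exact lt_irrefl _ hs
      have := hasDerivAt_inv hs0
      simpa [one_div] using this
    apply h3.congr_of_eventuallyEq
    have hopen : IsOpen {z : ℂ | 0 < z.re} := isOpen_lt continuous_const Complex.continuous_re
    filter_upwards [hopen.mem_nhds hs] with z hz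
    exact (hasMellin_one_Ioc hz).2
  have huniq := h2.unique hderiv
  constructor
  · unfold MellinConvergent at hconv ⊢
    refine hconv.congr ?_
    filter_upwards [hfk] with t ht
    rw [ht]
  · have h4 : mellin (fun y => ((kfun y : ℝ) : ℂ)) s = mellin (fun t => -(Real.log t • f t)) s := by
      unfold mellin
      apply integral_congr_ae
      filter_upwards [hfk] with t ht
      rw [ht]
    rw [h4]
    have h5 : mellin (fun t => -(Real.log t • f t)) s = -mellin (fun t => Real.log t • f t) s := by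
      unfold mellin
      simp only [smul_neg]
      rw [integral_neg]
    rw [h5, huniq, neg_neg]

/-- Kernel formula. -/
theorem kern (σ : ℝ) (hσ : 0 < σ) (y : ℝ) (hy : 0 < y) :
    ((kfun y : ℝ) : ℂ) = (1 / (2 * Real.pi) : ℝ) *
      ∫ t : ℝ, (y : ℂ) ^ (-((σ : ℂ) + t * I)) * (1 / ((σ : ℂ) + t * I) ^ 2) := by
  have hm : ∀ t : ℝ, mellin (fun y => ((kfun y : ℝ) : ℂ)) ((σ : ℂ) + t * I) =
      1 / ((σ : ℂ) + t * I) ^ 2 := fun t => (mellin_kfun _ (by simpa using hσ)).2
  have h1 := mellinInv_mellin_eq σ (fun y => ((kfun y : ℝ) : ℂ)) hy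
    (mellin_kfun (σ : ℂ) (by simpa using hσ)).1
    (by
      unfold VerticalIntegrable
      simp_rw [hm]
      exact integrable_inv_sq σ hσ)
    (Complex.continuous_ofReal.continuousAt.comp (continuousAt_kfun hy))
  rw [← h1]
  unfold mellinInv
  simp_rw [hm, smul_eq_mul]
  rw [Complex.real_smul]

end Pool.Agent.H16
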