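import Pool.Agent.H16.Family

/-!
The multiplicative large sieve for the family `fam W d`.
-/

set_option autoImplicit false

open Complex Finset
open scoped ComplexConjugate
open DirichletCharacter

namespace Pool.Agent.H16

open scoped Classical in
/-- the multiplicative large sieve inequality (proved in `Pool.Agent.H90.MLS`) -/
def MLSProp : Prop := ∃ C : ℝ, 0 < C ∧ ∀ (Q M N : ℕ) (a : ℕ → ℂ),
  ∑ q ∈ Finset.Icc 1 Q, ∑ χ ∈ (Finset.univ : Finset (DirichletCharacter ℂ q)).filter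
      (fun χ => χ.IsPrimitive), ‖∑ n ∈ Ioc M (M + N), a n * χ (n : ZMod q)‖ ^ 2 ≤
    C * (N + (Q : ℝ) ^ 2) * ∑ n ∈ Ioc M (M + N), ‖a n‖ ^ 2

lemma sum_char_prim {W d : ℕ} (hd : 0 < W * d) (ξ : DirichletCharacter ℂ (W * d))
    (hξ : d ∣ ξ.conductor) (a : ℕ → ℂ) (M N : ℕ) :
    ∑ n ∈ Ioc M N, a n * ξ (n : ℕ) = ∑ n ∈ Ioc M N,
      (if Nat.Coprime n W then a n else 0) * ξ.primitiveCharacter (n : ℕ) := by
  apply Finset.sum_congr rfl
  intro n _
  by_cases hn : Nat.Coprime n (W * d)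
  · have h1 : Nat.Coprime n W := hn.coprime_mul_right_right
    rw [if_pos h1]
    congr 1
    have h2 := changeLevel_natCast ξ.conductor_dvd_level ξ.primitiveCharacter n hn
    rw [changeLevel_primitiveCharacter] at h2
    exact h2
  · rw [char_natCast_eq_zero ξ n hn, mul_zero]
    by_cases h1 : Nat.Coprime n W
    · rw [if_pos h1]
      have h2 : ¬ Nat.Coprime n ξ.conductor := by
        intro h3
        apply hn
        exact Nat.Coprime.mul_right h1 (h3.coprime_dvd_right hξ)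
      rw [char_natCast_eq_zero ξ.primitiveCharacter n h2, mul_zero]
    · rw [if_neg h1, zero_mul]

open scoped Classical in
/-- large sieve for the family -/
theorem fam_MLS (h : MLSProp) : ∃ C : ℝ, 0 < C ∧ ∀ (W Q : ℕ) (D : Finset ℕ),
    (∀ d ∈ D, 0 < W * d ∧ W * d ≤ Q ∧ Nat.Coprime d W) → ∀ (M N : ℕ) (a : ℕ → ℂ), M ≤ N →
    ∑ d ∈ D, ∑ ξ ∈ fam W d, ‖∑ n ∈ Ioc M N, a n * ξ (n : ℕ)‖ ^ 2 ≤
      C * (((N : ℝ) - M) + (Q : ℝ) ^ 2) * ∑ n ∈ Ioc M N, ‖a n‖ ^ 2 := by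
  obtain ⟨C, hC, hls⟩ := h
  refine ⟨C, hC, fun W Q D hD M N a hMN => ?_⟩
  set b : ℕ → ℂ := fun n => if Nat.Coprime n W then a n else 0 with hb
  have h1 := hls Q M (N - M) b
  have hMN' : M + (N - M) = N := by omega
  rw [hMN'] at h1
  have hba : ∑ n ∈ Ioc M N, ‖b n‖ ^ 2 ≤ ∑ n ∈ Ioc M N, ‖a n‖ ^ 2 := by
    apply Finset.sum_le_sum
    intro n _
    simp only [hb]
    split_ifs
    · exact le_rfl
    · rw [norm_zero, zero_pow (by norm_num)]; positivity
  have hcast : ((N - M : ℕ) : ℝ) = (N : ℝ) - M := by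
    rw [Nat.cast_sub hMN]
  rw [hcast] at h1
  refine le_trans ?_ (h1.trans ?_)
  · -- injection
    set F : (Σ q : ℕ, DirichletCharacter ℂ q) → ℝ := fun i => ‖∑ n ∈ Ioc M N, b n * i.2 (n : ZMod i.1)‖ ^ 2
      with hF
    set φ : (Σ d : ℕ, DirichletCharacter ℂ (W * d)) → (Σ q : ℕ, DirichletCharacter ℂ q) :=
      fun i => ⟨i.2.conductor, i.2.primitiveCharacter⟩ with hφ
    have e1 : ∑ d ∈ D, ∑ ξ ∈ fam W d, ‖∑ n ∈ Ioc M N, a n * ξ (n : ℕ)‖ ^ 2 =
        ∑ i ∈ D.sigma (fun d => fam W d), F (φ i) := by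
      rw [Finset.sum_sigma]
      apply Finset.sum_congr rfl
      intro d hd
      apply Finset.sum_congr rfl
      intro ξ hξ
      simp only [hF, hφ]
      rw [sum_char_prim (hD d hd).1 ξ ((mem_fam W d ξ).mp hξ).2 a M N]
    have hrec : ∀ i : (Σ d : ℕ, DirichletCharacter ℂ (W * d)),
        ∃ hh : (φ i).1 ∣ W * i.1, changeLevel hh (φ i).2 = i.2 := fun i =>
      ⟨i.2.conductor_dvd_level, changeLevel_primitiveCharacter i.2⟩
    have hinj : Set.InjOn φ ((D.sigma (fun d => fam W d) : Finset _) : Set _) := by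
      rintro ⟨d1, ξ1⟩ h1 ⟨d2, ξ2⟩ h2 h12
      simp only [Finset.coe_sigma, Set.mem_sigma_iff, Finset.mem_coe] at h1 h2
      have g1 := ((mem_fam W d1 ξ1).mp h1.2).2
      have g2 := ((mem_fam W d2 ξ2).mp h2.2).2
      have hcond : ξ1.conductor = ξ2.conductor := congrArg Sigma.fst h12
      have k1 : d1 ∣ d2 := by
        have : d1 ∣ W * d2 := g1.trans (hcond ▸ ξ2.conductor_dvd_level)
        exact (hD d1 h1.1).2.2.dvd_of_dvd_mul_left this
      have k2 : d2 ∣ d1 := by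
        have : d2 ∣ W * d1 := g2.trans (hcond ▸ ξ1.conductor_dvd_level)
        exact (hD d2 h2.1).2.2.dvd_of_dvd_mul_left this
      have k3 : d1 = d2 := Nat.dvd_antisymm k1 k2
      subst k3
      obtain ⟨c1, e1⟩ := hrec ⟨d1, ξ1⟩
      obtain ⟨c2, e2⟩ := hrec ⟨d1, ξ2⟩
      have : ξ1 = ξ2 := by
        have e1' : changeLevel c1 (φ ⟨d1, ξ1⟩).2 = ξ1 := e1
        have e2' : changeLevel c2 (φ ⟨d1, ξ2⟩).2 = ξ2 := e2
        rw [← e1', ← e2']
        revert c1 c2
        rw [h12]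
        intro _ _ _ _ _ _
        rfl
      rw [this]
    rw [e1, ← Finset.sum_image (f := F) hinj]
    have e2 : ∑ q ∈ Finset.Icc 1 Q, ∑ χ ∈ (Finset.univ : Finset (DirichletCharacter ℂ q)).filter
        (fun χ => χ.IsPrimitive), ‖∑ n ∈ Ioc M N, b n * χ (n : ZMod q)‖ ^ 2 =
        ∑ i ∈ (Finset.Icc 1 Q).sigma (fun q => (Finset.univ : Finset (DirichletCharacter ℂ q)).filter
        (fun χ => χ.IsPrimitive)), F i := by
      rw [Finset.sum_sigma]
    rw [e2]
    apply Finset.sum_le_sum_of_subset_of_nonneg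
    · intro i hi
      rw [Finset.mem_image] at hi
      obtain ⟨⟨d, ξ⟩, hj, rfl⟩ := hi
      simp only [Finset.mem_sigma] at hj
      obtain ⟨p1, p2, p3⟩ := hD d hj.1
      have : NeZero (W * d) := ⟨by omega⟩
      simp only [hφ, Finset.mem_sigma, Finset.mem_Icc, Finset.mem_filter, Finset.mem_univ, true_and]
      refine ⟨⟨?_, ?_⟩, primitiveCharacter_isPrimitive ξ⟩
      · exact Nat.pos_of_dvd_of_pos ξ.conductor_dvd_level p1
      · exact (Nat.le_of_dvd p1 ξ.conductor_dvd_level).trans p2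
    · intro i _ _
      simp only [hF]; positivity
  · have hMNr : (0 : ℝ) ≤ (N : ℝ) - M := by
      have : (M : ℝ) ≤ N := by exact_mod_cast hMN
      linarith
    exact mul_le_mul_of_nonneg_left hba (by positivity)

end Pool.Agent.H16
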