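import Pool.Agent.H16.MT8

/-!
Main terms of the finite Maynard-Tao sieve with the dyadic step function.
-/

set_option autoImplicit false

open Finset Filter Topology

namespace Pool.Agent.H16

open Pool.Agent.H90 (MT.Col MT.Lam MT.psi MT.zz MT.part MT.nn MT.GOK MT.EE MT.A1 MT.A2 MT.B1 MT.T1 MT.T2
  MT.T3 MT.T4)

variable {k : ℕ}

lemma prod_primes_mono {P D D' : Finset ℕ} (hP : ∀ p ∈ P, p.Prime) (hD : D ⊆ P) (hDD : D' ⊆ D) :
    ∏ p ∈ D', p ≤ ∏ p ∈ D, p :=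
  Finset.prod_le_prod_of_subset_of_one_le' hDD (fun p hp _ => (hP p (hD hp)).one_le)

lemma gst_GOK {P : Finset ℕ} (hP : ∀ p ∈ P, p.Prime) {n : ℕ} (hn : 1 ≤ n) {ρ : ℝ} (hρ : 0 ≤ ρ) :
    MT.GOK P (gst n ρ) where
  nonneg := fun D _ => gst_nonneg n ρ _
  one := gst_one hn hρ
  anti := fun D hD D' hD' => gst_anti n ρ (prod_primes_mono hP hD hD')

/-- `R = x^(1/5)` -/
noncomputable def RR (ℓ : ℝ) : ℝ := Real.exp (ℓ / 5)

section

variable {P : Finset ℕ} {n : ℕ} {c ρ L ℓ : ℝ}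

lemma A2_ge_one (hP : ∀ p ∈ P, p.Prime) (hn : 1 ≤ n) (hρ : 0 ≤ ρ) : 1 ≤ MT.A2 P (gst n ρ) := by
  unfold MT.A2
  have h1 : (1 : ℝ) = gst n ρ (∏ p ∈ (∅ : Finset ℕ), p) ^ 2 / ((∏ p ∈ (∅ : Finset ℕ), p : ℕ) : ℝ) := by
    rw [Finset.prod_empty, gst_one hn hρ]; norm_num
  rw [h1]
  exact Finset.single_le_sum (f := fun D : Finset ℕ => gst n ρ (∏ p ∈ D, p) ^ 2 / ((∏ p ∈ D, p : ℕ) : ℝ))
    (fun D _ => by positivity) (Finset.empty_mem_powerset P)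

/-- the lower bound for the prime at a position of the tuple -/
lemma EE_lower_bd (hP : ∀ p ∈ P, p.Prime) (hPk : ∀ p ∈ P, 2 * k + 2 < p) (hk : 2 ≤ k) (hc : 0 < c)
    (hc1 : c ≤ 1) (hL : 0 < L) (hℓ : 0 < ℓ) (hn : 1 ≤ n) (hk2 : 2 ^ n ≤ k)
    (hρ : ρ = c ^ 2 / (640 * k * n) * ℓ)
    (HL : ∀ i < n, c / 4 * (2 ^ i * ρ) / L ≤ S1d P (gY ρ i))
    (HU : ∀ i < n, S1d P (gY ρ i) ≤ 1 / c * (2 ^ i * ρ) / L)
    (hσ : 160 * (k : ℝ) ^ 2 * ∑ p ∈ P, 1 / ((p : ℝ) - 1) ^ 2 ≤ 1) (m : Fin k) :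
    MT.A1 P (gst n ρ) ^ 2 * (MT.A2 P (gst n ρ) ^ (k - 1) / 2) ≤
      MT.EE (fun p (j : Fin k) => if j = m then 0 else 1 / ((p : ℝ) - 1))
        (fun a : MT.Col P k => MT.Lam (gst n ρ) (RR ℓ) a ^ 2) := by
  have hk0 : (0 : ℝ) < k := by
    have : 0 < k := by omega
    exact_mod_cast this
  have hn0 : (0 : ℝ) < n := by exact_mod_cast hn
  have hρ0 : 0 < ρ := by rw [hρ]; positivity
  have hR : 0 < RR ℓ := Real.exp_pos _
  set Q := gY ρ (n - 1) with hQ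
  have hlogQ : Real.log Q ≤ ℓ / 10 := by
    rw [hQ, log_gY, hρ]
    have h1 : (2 : ℝ) ^ (n - 1) ≤ k := by
      have h2 : 2 ^ (n - 1) ≤ k := (Nat.pow_le_pow_right (by norm_num) (by omega)).trans hk2
      exact_mod_cast h2
    have hn1 : (1 : ℝ) ≤ n := by exact_mod_cast hn
    have hc2 : c ^ 2 ≤ 1 := pow_le_one₀ hc.le hc1
    calc (2 : ℝ) ^ (n - 1) * (c ^ 2 / (640 * k * n) * ℓ) ≤ k * (1 / (640 * k * 1) * ℓ) := by
          apply mul_le_mul h1 _ (by positivity) hk0.le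
          apply mul_le_mul_of_nonneg_right _ hℓ.le
          apply div_le_div₀ zero_le_one hc2 (by positivity)
          exact mul_le_mul_of_nonneg_left hn1 (by positivity)
      _ = ℓ / 640 := by field_simp
      _ ≤ ℓ / 10 := by linarith
  have hQ0 : 0 < Q := Real.exp_pos _
  have hlogR : Real.log (RR ℓ) = ℓ / 5 := by unfold RR; rw [Real.log_exp]
  have hlogRQ : ℓ / 10 ≤ Real.log (RR ℓ / Q) := by
    rw [Real.log_div hR.ne' hQ0.ne', hlogR]; linarith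
  have hQR : Q < RR ℓ := by
    have h1 : Real.log Q < Real.log (RR ℓ) := by rw [hlogR]; linarith
    exact (Real.log_lt_log_iff hQ0 hR).mp h1
  have hσ' : 0 ≤ ∑ p ∈ P, 1 / ((p : ℝ) - 1) ^ 2 := Finset.sum_nonneg (fun p _ => by positivity)
  have h4 := MT.T4 hP hPk hk (gst n ρ) (gst_GOK hP hn hρ0.le) (RR ℓ) Q (gY_ge_one hρ0.le _) hQR
    (fun D _ hDQ => gst_eq_zero hρ0.le hDQ) m (by
      have : (k : ℝ) ^ 2 * ∑ p ∈ P, 1 / ((p : ℝ) - 1) ^ 2 =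
        (160 * (k : ℝ) ^ 2 * ∑ p ∈ P, 1 / ((p : ℝ) - 1) ^ 2) / 160 := by ring
      rw [this]; linarith)
  refine le_trans ?_ h4
  apply mul_le_mul_of_nonneg_left _ (sq_nonneg _)
  have hA2low : c / 4 * ρ / L ≤ MT.A2 P (gst n ρ) := by
    apply A2_lower hn hρ0.le
    have := HL 0 (by omega)
    rwa [pow_zero, one_mul] at this
  have hA2pos : 0 < MT.A2 P (gst n ρ) := lt_of_lt_of_le (by positivity) hA2low
  have hB1 : MT.B1 P (gst n ρ) ≤ 4 * (1 / c) * n * ρ ^ 2 / L := B1_upper hn hρ0.le hL hP HU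
  have hB1' : ((k : ℝ) - 1) * MT.B1 P (gst n ρ) / Real.log (RR ℓ / Q) ≤ MT.A2 P (gst n ρ) / 4 := by
    have hB0 : 0 ≤ MT.B1 P (gst n ρ) := by
      unfold MT.B1
      apply Finset.sum_nonneg
      intro D hD
      have : 0 ≤ Real.log ((∏ p ∈ D, p : ℕ) : ℝ) := Real.log_natCast_nonneg _
      positivity
    have e1 : ((k : ℝ) - 1) * MT.B1 P (gst n ρ) / Real.log (RR ℓ / Q) ≤
        k * (4 * (1 / c) * n * ρ ^ 2 / L) / (ℓ / 10) := by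
      apply div_le_div₀ (by positivity) _ (by positivity) hlogRQ
      apply mul_le_mul (by linarith) hB1 hB0 hk0.le
    refine e1.trans ?_
    have e2 : k * (4 * (1 / c) * n * ρ ^ 2 / L) / (ℓ / 10) = (c / 4 * ρ / L) / 4 := by
      have : ρ ^ 2 = ρ * (c ^ 2 / (640 * k * n) * ℓ) := by rw [sq]; nth_rewrite 2 [hρ]; rfl
      rw [this]
      field_simp
      norm_num
    rw [e2]
    exact div_le_div_of_nonneg_right hA2low (by norm_num)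
  have hpow : MT.A2 P (gst n ρ) ^ (k - 1) = MT.A2 P (gst n ρ) ^ (k - 2) * MT.A2 P (gst n ρ) := by
    rw [← pow_succ]; congr 1; omega
  have h5 : ((k : ℝ) - 1) * MT.A2 P (gst n ρ) ^ (k - 2) * MT.B1 P (gst n ρ) / Real.log (RR ℓ / Q) ≤
      MT.A2 P (gst n ρ) ^ (k - 1) / 4 := by
    calc ((k : ℝ) - 1) * MT.A2 P (gst n ρ) ^ (k - 2) * MT.B1 P (gst n ρ) / Real.log (RR ℓ / Q)
        = MT.A2 P (gst n ρ) ^ (k - 2) * (((k : ℝ) - 1) * MT.B1 P (gst n ρ) / Real.log (RR ℓ / Q)) := by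
          ring
      _ ≤ MT.A2 P (gst n ρ) ^ (k - 2) * (MT.A2 P (gst n ρ) / 4) :=
          mul_le_mul_of_nonneg_left hB1' (by positivity)
      _ = _ := by rw [hpow]; ring
  have h6 : 40 * (k : ℝ) ^ 2 * (∑ p ∈ P, 1 / ((p : ℝ) - 1) ^ 2) * MT.A2 P (gst n ρ) ^ (k - 1) ≤
      MT.A2 P (gst n ρ) ^ (k - 1) / 4 := by
    have e1 : 40 * (k : ℝ) ^ 2 * (∑ p ∈ P, 1 / ((p : ℝ) - 1) ^ 2) ≤ 1 / 4 := by linarith
    calc _ ≤ 1 / 4 * MT.A2 P (gst n ρ) ^ (k - 1) := mul_le_mul_of_nonneg_right e1 (by positivity)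
      _ = _ := by ring
  linarith

end

end Pool.Agent.H16
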