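import Pool.Agent.H16.MT10

/-!
The three weighted sums of the finite Maynard-Tao sieve.
-/

set_option autoImplicit false

open Finset Filter Topology

namespace Pool.Agent.H16

open Pool.Agent.H90 (MT.Col MT.Lam MT.psi MT.zz MT.part MT.nn MT.GOK MT.EE MT.A1 MT.A2 MT.B1 MT.T1 MT.T2
  MT.T3 MT.T4)

variable {k : ℕ}

/-- the outcome colouring -/
noncomputable def ocol (h : Fin k → ℕ) (P : Finset ℕ) (n : ℕ) : MT.Col P k := fun p => outc h n p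

/-- the square of the sieve weight -/
noncomputable def Lam2 (h : Fin k → ℕ) (P : Finset ℕ) (n : ℕ) (ρ ℓ : ℝ) (ν : ℕ) : ℝ :=
  MT.Lam (gst n ρ) (RR ℓ) (ocol h P ν) ^ 2

lemma Lam2_nonneg (h : Fin k → ℕ) (P : Finset ℕ) (n : ℕ) (ρ ℓ : ℝ) (ν : ℕ) : 0 ≤ Lam2 h P n ρ ℓ ν :=
  sq_nonneg _

/-- the summation set -/
noncomputable def S0 (ℓ : ℝ) (W A0 : ℕ) : Finset ℕ :=
  (Ioc 0 ⌊Real.exp ℓ⌋₊).filter (fun n => n ≡ A0 [MOD W])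

/-- total mass of the primes -/
noncomputable def XT (ℓ : ℝ) (y : ℕ) : ℝ := ∑ n ∈ Ioc 0 ⌊Real.exp ℓ⌋₊, aw ℓ y n

lemma lev_RR {P : Finset ℕ} {ℓ : ℝ} : Pool.Agent.H90.MT.lev P (RR ℓ ^ 2) =
    lev P (Real.exp ((1 / 2 - 1 / 10) * ℓ)) := by
  have h1 : RR ℓ ^ 2 = Real.exp ((1 / 2 - 1 / 10) * ℓ) := by
    unfold RR
    rw [← Real.exp_nat_mul]
    congr 1
    push_cast
    ring
  rw [h1]
  rfl

lemma EE_congr {P : Finset ℕ} (q q' : ℕ → Fin k → ℝ) (hq : ∀ p ∈ P, q p = q' p) (F : MT.Col P k → ℝ) :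
    MT.EE q F = MT.EE q' F := by
  unfold MT.EE
  apply Finset.sum_congr rfl
  intro a _
  congr 1
  apply Finset.prod_congr rfl
  intro p _
  rw [hq p p.2]

section

variable {P : Finset ℕ} {n : ℕ} {ρ ℓ : ℝ}

/-- product bound -/
lemma prodk_le {c : ℝ} (hc : 0 < c) (hcV : ∀ n : ℕ, 2 ≤ n → c / Real.log n ≤ Vp n) (z y : ℕ)
    (hz2 : 2 ≤ z) (hz : 1 ≤ Real.log z) (hzy : z ≤ y) (hy : (y : ℝ) ≤ Real.exp (ℓ / 2)) (hℓ : 0 < ℓ)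
    (hP : P ⊆ primesIoc z y) (K : ℕ) : ∏ p ∈ P, (1 + (K : ℝ) / p) ≤ (ℓ / c) ^ K := by
  have hPp : ∀ p ∈ P, p.Prime := fun p hp => (mem_primesIoc.mp (hP hp)).2.2
  have hg0 : ∀ p ∈ P, 0 ≤ 1 / ((p : ℝ) - 1) := by
    intro p hp
    have : (2 : ℝ) ≤ p := by exact_mod_cast (hPp p hp).two_le
    exact div_nonneg zero_le_one (by linarith)
  have h1 : ∏ p ∈ P, (1 + (K : ℝ) / p) ≤ ∏ p ∈ P, (1 + (K : ℝ) * (1 / ((p : ℝ) - 1))) := by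
    apply Finset.prod_le_prod
    · intro p _; positivity
    · intro p hp
      have hp2 : (2 : ℝ) ≤ p := by exact_mod_cast (hPp p hp).two_le
      have : (1 : ℝ) / p ≤ 1 / ((p : ℝ) - 1) := one_div_le_one_div_of_le (by linarith) (by linarith)
      have h2 := mul_le_mul_of_nonneg_left this (Nat.cast_nonneg (α := ℝ) K)
      rw [mul_one_div] at h2
      linarith
  refine h1.trans ((prod_one_add_mul_le P _ hg0 K).trans ?_)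
  apply pow_le_pow_left₀ (Finset.prod_nonneg (fun p hp => by have := hg0 p hp; linarith))
  refine (prod_g1_le hc hcV z y hz2 hzy P hP).trans ?_
  have hy0 : (0 : ℝ) < y := by
    have : 0 < y := by omega
    exact_mod_cast this
  have hly : Real.log y ≤ ℓ := by
    rw [Real.log_le_iff_le_exp hy0]
    refine hy.trans (Real.exp_le_exp.mpr (by linarith))
  apply div_le_div₀ hℓ.le hly hc
  exact le_mul_of_one_le_right hc.le hz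

/-- general error term -/
lemma T1_use (hk : 0 < k) (hP : ∀ p ∈ P, p.Prime) (hn : 1 ≤ n) (hρ : 0 ≤ ρ) (hℓ : 0 ≤ ℓ)
    (h : Fin k → ℕ) (S : Finset ℕ) (ω : ℕ → ℝ) (X : ℝ) (q : ℕ → Fin k → ℝ) (M : Finset ℕ → ℝ)
    (hM0 : ∀ D, D ⊆ P → 0 ≤ M D)
    (hM : ∀ D ∈ lev P (Real.exp ((1 / 2 - 1 / 10) * ℓ)), ∀ b : ℕ → Fin k,
      |(∑ ν ∈ S, ω ν * ∏ p : {p // p ∈ P}, (if (p : ℕ) ∈ D → outc h ν p = some (b p) then (1 : ℝ) else 0)) -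
        X * ∏ p ∈ D, q p (b p)| ≤ M D) (B E : ℝ)
    (hB : ∏ p ∈ P, (1 + (k : ℝ) / p) ≤ B)
    (hE : ∑ D ∈ lev P (Real.exp ((1 / 2 - 1 / 10) * ℓ)), (((k + 1) ^ 2 : ℕ) : ℝ) ^ #D * M D ≤ E) :
    |∑ ν ∈ S, ω ν * Lam2 h P n ρ ℓ ν -
      X * MT.EE q (fun a : MT.Col P k => MT.Lam (gst n ρ) (RR ℓ) a ^ 2)| ≤ B ^ 2 * E := by
  have h1 := MT.T1 hk hP (gst n ρ) (gst_GOK hP hn hρ) (RR ℓ) (Real.one_le_exp (by positivity)) S ω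
    (ocol h P) X q M (by
      rw [lev_RR]
      exact hM)
  rw [lev_RR] at h1
  refine h1.trans ?_
  have h2 : ∑ D ∈ lev P (Real.exp ((1 / 2 - 1 / 10) * ℓ)), ((k : ℝ) + 1) ^ (2 * #D) * M D ≤ E := by
    refine le_trans (le_of_eq ?_) hE
    apply Finset.sum_congr rfl
    intro D _
    push_cast
    rw [pow_mul]
  have h3 : 0 ≤ ∑ D ∈ lev P (Real.exp ((1 / 2 - 1 / 10) * ℓ)), ((k : ℝ) + 1) ^ (2 * #D) * M D := by
    apply Finset.sum_nonneg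
    intro D hD
    exact mul_nonneg (by positivity) (hM0 D (mem_lev.mp hD).1)
  have h4 : 0 ≤ ∏ p ∈ P, (1 + (k : ℝ) / p) := Finset.prod_nonneg (fun p _ => by positivity)
  exact mul_le_mul (pow_le_pow_left₀ h4 hB 2) h2 h3 (by positivity)

/-- the unweighted sum -/
lemma S1_upper (hk : 0 < k) (hP : ∀ p ∈ P, p.Prime) (hPk : ∀ p ∈ P, k < p) (hn : 1 ≤ n) (hρ : 0 ≤ ρ)
    (hℓ : 0 ≤ ℓ) (h : Fin k → ℕ) (hPh : ∀ p ∈ P, ∀ j j', j ≠ j' → ¬ p ∣ nd (h j) (h j')) (W A0 : ℕ)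
    (hW : 0 < W) (hPW : ∀ p ∈ P, ¬ p ∣ W) (B B' : ℝ)
    (hB : ∏ p ∈ P, (1 + (k : ℝ) / p) ≤ B)
    (hB' : ∏ p ∈ P, (1 + (((k + 1) ^ 2 : ℕ) : ℝ) / p) ≤ B') :
    ∑ ν ∈ S0 ℓ W A0, ℓ * Lam2 h P n ρ ℓ ν ≤
      ℓ * (Real.exp ℓ / W) * MT.A2 P (gst n ρ) ^ k +
      B ^ 2 * (3 * ℓ * (Real.exp ((1 / 2 - 1 / 10) * ℓ) * B')) := by
  classical
  set Y := Real.exp ((1 / 2 - 1 / 10) * ℓ) with hY
  have hYpos : 0 < Y := Real.exp_pos _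
  have h1 := T1_use (n := n) (ρ := ρ) hk hP hn hρ hℓ h (S0 ℓ W A0) (fun _ => ℓ)
    (ℓ * ((⌊Real.exp ℓ⌋₊ : ℝ) / W)) (fun p _ => 1 / (p : ℝ)) (fun _ => 3 * ℓ) (fun _ _ => by positivity)
    (by
      intro D hD b
      exact plain_rem h P hP hPh W A0 ⌊Real.exp ℓ⌋₊ hW hPW ℓ hℓ D (mem_lev.mp hD).1 b)
    B (3 * ℓ * (Y * B')) hB (by
      have h2 : ∑ D ∈ lev P Y, (((k + 1) ^ 2 : ℕ) : ℝ) ^ #D * (3 * ℓ) ≤
          ∑ D ∈ lev P Y, 3 * ℓ * (Y * ((((k + 1) ^ 2 : ℕ) : ℝ) ^ #D * ∏ p ∈ D, 1 / (p : ℝ))) := by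
        apply Finset.sum_le_sum
        intro D hD
        obtain ⟨hDP, hDY⟩ := mem_lev.mp hD
        have hd0 : (0 : ℝ) < ((∏ p ∈ D, p : ℕ) : ℝ) := by
          exact_mod_cast Finset.prod_pos (fun p hp => (hP p (hDP hp)).pos)
        have e1 : ∏ p ∈ D, 1 / (p : ℝ) = 1 / ((∏ p ∈ D, p : ℕ) : ℝ) := by
          rw [Finset.prod_div_distrib, Finset.prod_const_one]; push_cast; rfl
        rw [e1]
        have e2 : 1 ≤ Y * (1 / ((∏ p ∈ D, p : ℕ) : ℝ)) := by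
          rw [mul_one_div, le_div_iff₀ hd0, one_mul]; exact hDY
        have e3 : (0 : ℝ) ≤ 3 * ℓ * (((k + 1) ^ 2 : ℕ) : ℝ) ^ #D := by positivity
        calc (((k + 1) ^ 2 : ℕ) : ℝ) ^ #D * (3 * ℓ) = 3 * ℓ * (((k + 1) ^ 2 : ℕ) : ℝ) ^ #D * 1 := by ring
          _ ≤ 3 * ℓ * (((k + 1) ^ 2 : ℕ) : ℝ) ^ #D * (Y * (1 / ((∏ p ∈ D, p : ℕ) : ℝ))) :=
              mul_le_mul_of_nonneg_left e2 e3
          _ = _ := by ring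
      refine h2.trans ?_
      rw [← Finset.mul_sum, ← Finset.mul_sum]
      apply mul_le_mul_of_nonneg_left _ (by positivity)
      apply mul_le_mul_of_nonneg_left _ hYpos.le
      refine (sum_pow_card_prod_le P (lev P Y) (Finset.filter_subset _ _) (fun p => 1 / (p : ℝ))
        (fun p _ => by positivity) (((k + 1) ^ 2 : ℕ) : ℝ) (by positivity)).trans ?_
      refine le_trans (le_of_eq ?_) hB'
      apply Finset.prod_congr rfl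
      intro p _
      rw [mul_one_div])
  have h3 := (abs_le.mp h1).2
  have h4 := MT.T2 hP hPk (gst n ρ) (gst_GOK hP hn hρ) (RR ℓ)
  have hW' : (0 : ℝ) < W := by exact_mod_cast hW
  have h5 : ℓ * ((⌊Real.exp ℓ⌋₊ : ℝ) / W) *
      MT.EE (fun p (_ : Fin k) => 1 / (p : ℝ)) (fun a : MT.Col P k => MT.Lam (gst n ρ) (RR ℓ) a ^ 2) ≤
      ℓ * (Real.exp ℓ / W) * MT.A2 P (gst n ρ) ^ k := by
    have hA0 : 0 ≤ MT.A2 P (gst n ρ) ^ k := by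
      have := A2_ge_one (P := P) hP hn hρ
      positivity
    calc _ ≤ ℓ * ((⌊Real.exp ℓ⌋₊ : ℝ) / W) * MT.A2 P (gst n ρ) ^ k :=
          mul_le_mul_of_nonneg_left h4 (by positivity)
      _ ≤ _ := by
          apply mul_le_mul_of_nonneg_right _ hA0
          apply mul_le_mul_of_nonneg_left _ hℓ
          exact div_le_div_of_nonneg_right (Nat.floor_le (Real.exp_pos _).le) hW'.le
  linarith

/-- sums over primes at a shift -/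
lemma S23 (hk : 0 < k) (hP : ∀ p ∈ P, p.Prime) (hn : 1 ≤ n) (hρ : 0 ≤ ρ)
    (hℓ : 0 ≤ ℓ) (h : Fin k → ℕ) (hPh : ∀ p ∈ P, ∀ j j', j ≠ j' → ¬ p ∣ nd (h j) (h j')) (y W A0 i : ℕ)
    (hPy : ∀ p ∈ P, p ≤ y) (hi : (i : ℝ) ≤ Real.exp ℓ / 9) (hcop : Nat.Coprime (A0 + i) W)
    (M : Finset ℕ → ℝ) (hM0 : ∀ D, D ⊆ P → 0 ≤ M D)
    (hM : ∀ (A0 : ℕ) (b : ℕ → ℕ), Nat.Coprime A0 W →
      ∀ D ∈ lev P (Real.exp ((1 / 2 - 1 / 10) * ℓ)), (∀ p ∈ D, ¬ p ∣ b p) →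
        |RD ((Ioc 0 ⌊Real.exp ℓ⌋₊).filter (fun n => n ≡ A0 [MOD W])) (aw ℓ y) (cb b)
          ((∑ n ∈ Ioc 0 ⌊Real.exp ℓ⌋₊, aw ℓ y n) / (W.totient : ℝ)) (fun p => 1 / ((p : ℝ) - 1)) D| ≤
          M D) (B E : ℝ)
    (hB : ∏ p ∈ P, (1 + (k : ℝ) / p) ≤ B)
    (hE : ∑ D ∈ lev P (Real.exp ((1 / 2 - 1 / 10) * ℓ)), (((k + 1) ^ 2 : ℕ) : ℝ) ^ #D * M D ≤ E) :
    |∑ ν ∈ S0 ℓ W A0, aw ℓ y (ν + i) * Lam2 h P n ρ ℓ ν -
      XT ℓ y / (W.totient : ℝ) * MT.EE (qq h i) (fun a : MT.Col P k => MT.Lam (gst n ρ) (RR ℓ) a ^ 2)| ≤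
      B ^ 2 * E := by
  classical
  apply T1_use (n := n) (ρ := ρ) hk hP hn hρ hℓ h (S0 ℓ W A0) (fun ν => aw ℓ y (ν + i))
    (XT ℓ y / (W.totient : ℝ)) (qq h i) M hM0 _ B E hB hE
  intro D hD b
  exact shift_rem h P hP hPh y W A0 i hPy hi hcop _ M hM0 hM D hD b

/-- lower bound at a position of the tuple -/
lemma S2_lower {c L : ℝ} (hP : ∀ p ∈ P, p.Prime) (hPk : ∀ p ∈ P, 2 * k + 2 < p) (hk : 2 ≤ k)
    (hc : 0 < c) (hc1 : c ≤ 1) (hL : 0 < L) (hℓ : 0 < ℓ) (hn : 1 ≤ n) (hk2 : 2 ^ n ≤ k)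
    (hρ : ρ = c ^ 2 / (640 * k * n) * ℓ)
    (HL : ∀ i < n, c / 4 * (2 ^ i * ρ) / L ≤ S1d P (gY ρ i))
    (HU : ∀ i < n, S1d P (gY ρ i) ≤ 1 / c * (2 ^ i * ρ) / L)
    (hσ : 160 * (k : ℝ) ^ 2 * ∑ p ∈ P, 1 / ((p : ℝ) - 1) ^ 2 ≤ 1)
    (h : Fin k → ℕ) (hPh : ∀ p ∈ P, ∀ j j', j ≠ j' → ¬ p ∣ nd (h j) (h j')) (y W A0 : ℕ)
    (j : Fin k) (hPy : ∀ p ∈ P, p ≤ y) (hi : (h j : ℝ) ≤ Real.exp ℓ / 9)
    (hcop : Nat.Coprime (A0 + h j) W)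
    (M : Finset ℕ → ℝ) (hM0 : ∀ D, D ⊆ P → 0 ≤ M D)
    (hM : ∀ (A0 : ℕ) (b : ℕ → ℕ), Nat.Coprime A0 W →
      ∀ D ∈ lev P (Real.exp ((1 / 2 - 1 / 10) * ℓ)), (∀ p ∈ D, ¬ p ∣ b p) →
        |RD ((Ioc 0 ⌊Real.exp ℓ⌋₊).filter (fun n => n ≡ A0 [MOD W])) (aw ℓ y) (cb b)
          ((∑ n ∈ Ioc 0 ⌊Real.exp ℓ⌋₊, aw ℓ y n) / (W.totient : ℝ)) (fun p => 1 / ((p : ℝ) - 1)) D| ≤
          M D) (B E : ℝ)
    (hB : ∏ p ∈ P, (1 + (k : ℝ) / p) ≤ B)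
    (hE : ∑ D ∈ lev P (Real.exp ((1 / 2 - 1 / 10) * ℓ)), (((k + 1) ^ 2 : ℕ) : ℝ) ^ #D * M D ≤ E) :
    XT ℓ y / (W.totient : ℝ) * (MT.A1 P (gst n ρ) ^ 2 * (MT.A2 P (gst n ρ) ^ (k - 1) / 2)) - B ^ 2 * E ≤
      ∑ ν ∈ S0 ℓ W A0, aw ℓ y (ν + h j) * Lam2 h P n ρ ℓ ν := by
  have hρ0 : 0 ≤ ρ := by rw [hρ]; positivity
  have h1 := S23 (n := n) (ρ := ρ) (by omega) hP hn hρ0 hℓ.le h hPh y W A0 (h j) hPy hi hcop M hM0 hM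
    B E hB hE
  have h2 := EE_lower_bd hP hPk hk hc hc1 hL hℓ hn hk2 hρ HL HU hσ j
  have h3 : MT.EE (qq h (h j)) (fun a : MT.Col P k => MT.Lam (gst n ρ) (RR ℓ) a ^ 2) =
      MT.EE (fun p (j' : Fin k) => if j' = j then 0 else 1 / ((p : ℝ) - 1))
        (fun a : MT.Col P k => MT.Lam (gst n ρ) (RR ℓ) a ^ 2) := by
    apply EE_congr
    intro p hp
    funext j'
    unfold qq
    by_cases hj : j' = j
    · rw [if_pos hj, if_pos]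
      rw [hj, nd_self]; exact dvd_zero p
    · rw [if_neg hj, if_neg]
      exact hPh p hp j j' (Ne.symm hj)
  rw [h3] at h1
  have hX : 0 ≤ XT ℓ y / (W.totient : ℝ) :=
    div_nonneg (Finset.sum_nonneg (fun n _ => aw_nonneg _ _ _)) (Nat.cast_nonneg _)
  have h4 := mul_le_mul_of_nonneg_left h2 hX
  have h5 := (abs_le.mp h1).1
  linarith

/-- upper bound at an uncovered position -/
lemma S3_upper (hP : ∀ p ∈ P, p.Prime) (hPk : ∀ p ∈ P, 2 * k + 2 < p) (hk : 0 < k)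
    (hℓ : 0 ≤ ℓ) (hn : 1 ≤ n) (hρ : 0 ≤ ρ)
    (h : Fin k → ℕ) (hPh : ∀ p ∈ P, ∀ j j', j ≠ j' → ¬ p ∣ nd (h j) (h j')) (y W A0 i : ℕ)
    (hq2 : ∑ p ∈ P, ∑ j : Fin k, |qq h i p j - 1 / (p : ℝ)| ≤ 1 / 4)
    (hσ : (k : ℝ) * ∑ p ∈ P, 1 / ((p : ℝ) - 1) ^ 2 ≤ 1 / 4)
    (hPy : ∀ p ∈ P, p ≤ y) (hi : (i : ℝ) ≤ Real.exp ℓ / 9)
    (hcop : Nat.Coprime (A0 + i) W ∨ ¬ Nat.Coprime (A0 + i) W)
    (M : Finset ℕ → ℝ) (hM0 : ∀ D, D ⊆ P → 0 ≤ M D)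
    (hM : ∀ (A0 : ℕ) (b : ℕ → ℕ), Nat.Coprime A0 W →
      ∀ D ∈ lev P (Real.exp ((1 / 2 - 1 / 10) * ℓ)), (∀ p ∈ D, ¬ p ∣ b p) →
        |RD ((Ioc 0 ⌊Real.exp ℓ⌋₊).filter (fun n => n ≡ A0 [MOD W])) (aw ℓ y) (cb b)
          ((∑ n ∈ Ioc 0 ⌊Real.exp ℓ⌋₊, aw ℓ y n) / (W.totient : ℝ)) (fun p => 1 / ((p : ℝ) - 1)) D| ≤
          M D) (B E : ℝ)
    (hB : ∏ p ∈ P, (1 + (k : ℝ) / p) ≤ B)
    (hE : ∑ D ∈ lev P (Real.exp ((1 / 2 - 1 / 10) * ℓ)), (((k + 1) ^ 2 : ℕ) : ℝ) ^ #D * M D ≤ E)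
    (hWy : ∀ p, p.Prime → p ∣ W → p ≤ y) :
    ∑ ν ∈ S0 ℓ W A0, aw ℓ y (ν + i) * Lam2 h P n ρ ℓ ν ≤
      XT ℓ y / (W.totient : ℝ) * (8 * MT.A2 P (gst n ρ) ^ k) + B ^ 2 * E := by
  have hX : 0 ≤ XT ℓ y / (W.totient : ℝ) :=
    div_nonneg (Finset.sum_nonneg (fun n _ => aw_nonneg _ _ _)) (Nat.cast_nonneg _)
  have hB0 : 0 ≤ B := le_trans (Finset.prod_nonneg (fun p _ => by positivity)) hB
  have hE0 : 0 ≤ E := le_trans (Finset.sum_nonneg (fun D hD =>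
    mul_nonneg (by positivity) (hM0 D (mem_lev.mp hD).1))) hE
  have hA := A2_ge_one (P := P) hP hn hρ
  rcases hcop with hcop | hcop
  · have h1 := S23 (n := n) (ρ := ρ) hk hP hn hρ hℓ h hPh y W A0 i hPy hi hcop M hM0 hM
      B E hB hE
    have h2 := MT.T3 hP hPk (gst n ρ) (gst_GOK hP hn hρ) (RR ℓ) (qq h i) (by
        intro p hp j
        unfold qq
        have : (2 : ℝ) ≤ p := by exact_mod_cast (hP p hp).two_le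
        split_ifs
        · exact le_rfl
        · exact div_nonneg zero_le_one (by linarith)) (by
        intro p hp j
        unfold qq
        have : (2 : ℝ) ≤ p := by exact_mod_cast (hP p hp).two_le
        split_ifs
        · exact div_nonneg zero_le_one (by linarith)
        · exact le_rfl) hq2 hσ
    have h4 := mul_le_mul_of_nonneg_left h2 hX
    have h5 := (abs_le.mp h1).2
    linarith
  · have h1 : ∑ ν ∈ S0 ℓ W A0, aw ℓ y (ν + i) * Lam2 h P n ρ ℓ ν = 0 := by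
      apply Finset.sum_eq_zero
      intro ν hν
      unfold S0 at hν
      rw [Finset.mem_filter] at hν
      have h2 : aw ℓ y (ν + i) = 0 := by
        by_contra h0
        have h3 := aw_ne_zero_coprime ℓ y (ν + i) W hWy h0
        apply hcop
        have h4 : ν + i ≡ A0 + i [MOD W] := Nat.ModEq.add_right i hν.2
        unfold Nat.Coprime at h3 ⊢
        rw [← h4.gcd_eq]; exact h3
      rw [h2, zero_mul]
    rw [h1]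
    positivity

end

end Pool.Agent.H16
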