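import Pool.Agent.H16.MT11
import Pool.Agent.H16.CH6

/-!
The sieving set and its properties for large `ℓ`.
-/

set_option autoImplicit false

open Finset Filter Topology

namespace Pool.Agent.H16

variable {k : ℕ}

lemma card_pf_le (m : ℕ) (hm : m ≠ 0) {ℓ : ℝ} (hℓ : 1 ≤ ℓ) (h : (m : ℝ) ≤ ℓ ^ 2) :
    (#(m.primeFactors) : ℝ) ≤ 3 * Real.log ℓ := by
  have h1 : 2 ^ #(m.primeFactors) ≤ ∏ p ∈ m.primeFactors, p :=
    Finset.pow_card_le_prod _ _ 2 (fun p hp => (Nat.prime_of_mem_primeFactors hp).two_le)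
  have h2 : ∏ p ∈ m.primeFactors, p ≤ m := Nat.le_of_dvd (Nat.pos_of_ne_zero hm) (Nat.prod_primeFactors_dvd m)
  have h3 : (2 : ℝ) ^ #(m.primeFactors) ≤ ℓ ^ 2 := by
    refine le_trans ?_ h
    exact_mod_cast h1.trans h2
  have h4 := Real.log_le_log (by positivity) h3
  rw [Real.log_pow, Real.log_pow] at h4
  have h5 := Real.log_two_gt_d9
  have h6 : (0 : ℝ) ≤ #(m.primeFactors) := Nat.cast_nonneg _
  have h7 : (#(m.primeFactors) : ℝ) * (2 / 3) ≤ #(m.primeFactors) * Real.log 2 :=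
    mul_le_mul_of_nonneg_left (by linarith) h6
  push_cast at h4
  linarith

/-- excluded primes -/
def exclh (h : Fin k → ℕ) : Finset ℕ :=
  (Finset.univ : Finset (Fin k × Fin k)).biUnion (fun jj => (nd (h jj.1) (h jj.2)).primeFactors)

lemma nd_ne_zero {i j : ℕ} (h : i ≠ j) : nd i j ≠ 0 := by unfold nd; omega

lemma nd_le {i j t : ℕ} (hi : i ≤ t) (hj : j ≤ t) : nd i j ≤ t := by unfold nd; omega

lemma card_exclh (h : Fin k → ℕ) {t : ℕ} (ht : ∀ j, h j ≤ t) {ℓ : ℝ} (hℓ : 1 ≤ ℓ) (htℓ : (t : ℝ) ≤ ℓ ^ 2) :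
    (#(exclh h) : ℝ) ≤ (k : ℝ) ^ 2 * (3 * Real.log ℓ) := by
  have h1 : #(exclh h) ≤ ∑ jj : Fin k × Fin k, #((nd (h jj.1) (h jj.2)).primeFactors) :=
    Finset.card_biUnion_le
  have hlog : 0 ≤ Real.log ℓ := Real.log_nonneg hℓ
  calc (#(exclh h) : ℝ) ≤ ∑ jj : Fin k × Fin k, (#((nd (h jj.1) (h jj.2)).primeFactors) : ℝ) := by
        exact_mod_cast h1
    _ ≤ ∑ _jj : Fin k × Fin k, 3 * Real.log ℓ := by
        apply Finset.sum_le_sum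
        intro jj _
        by_cases h0 : nd (h jj.1) (h jj.2) = 0
        · rw [h0, Nat.primeFactors_zero, Finset.card_empty, Nat.cast_zero]
          positivity
        · apply card_pf_le _ h0 hℓ
          refine le_trans ?_ htℓ
          exact_mod_cast nd_le (ht _) (ht _)
    _ = _ := by
        rw [Finset.sum_const, Finset.card_univ, Fintype.card_prod, Fintype.card_fin, nsmul_eq_mul]
        push_cast
        ring

/-- the sieving set -/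
noncomputable def PMT (h : Fin k → ℕ) (n e : ℕ) (ρ ℓ : ℝ) : Finset ℕ :=
  PE (zf ℓ) ⌈gY ρ (n - 1)⌉₊ (insert e (exclh h))

lemma mem_PMT {h : Fin k → ℕ} {n e : ℕ} {ρ ℓ : ℝ} {p : ℕ} : p ∈ PMT h n e ρ ℓ ↔
    (zf ℓ < p ∧ p ≤ ⌈gY ρ (n - 1)⌉₊ ∧ p.Prime) ∧ p ≠ e ∧ p ∉ exclh h := by
  unfold PMT
  rw [mem_PE, Finset.mem_insert, not_or]

lemma PMT_ndvd {h : Fin k → ℕ} (hinj : Function.Injective h) {n e : ℕ} {ρ ℓ : ℝ} :
    ∀ p ∈ PMT h n e ρ ℓ, ∀ j j', j ≠ j' → ¬ p ∣ nd (h j) (h j') := by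
  intro p hp j j' hj hd
  rw [mem_PMT] at hp
  apply hp.2.2
  unfold exclh
  rw [Finset.mem_biUnion]
  refine ⟨(j, j'), Finset.mem_univ _, ?_⟩
  rw [Nat.mem_primeFactors]
  exact ⟨hp.1.2.2, hd, nd_ne_zero (fun h1 => hj (hinj h1))⟩

/-- facts for large `ℓ` -/
structure MF (k n : ℕ) (c ℓ : ℝ) : Prop where
  ℓbig : 1000 ≤ ℓ
  z1 : 100 ≤ Real.log (zf ℓ)
  z2 : Real.log (zf ℓ) ≤ Real.log ℓ
  z3 : zf ℓ * (Real.log (zf ℓ)) ^ 3 ≤ ℓ
  z6 : ℓ ^ (1 / 2 : ℝ) ≤ zf ℓ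
  zρ : Real.log ℓ ≤ c ^ 2 / (640 * k * n) * ℓ
  a1 : 2 + 6 * (k : ℝ) ^ 2 * Real.log ℓ ≤ ℓ ^ (1 / 2 : ℝ)
  a2 : 320 * (k : ℝ) ^ 2 + 2 * k + 3 ≤ ℓ ^ (1 / 2 : ℝ)
  a3 : 4 * k * (2 + 3 * Real.log ℓ) ≤ ℓ ^ (1 / 2 : ℝ)

lemma ev_MF (k n : ℕ) (hk : 0 < k) (hn : 0 < n) (c : ℝ) (hc : 0 < c) : ∀ᶠ ℓ : ℝ in atTop, MF k n c ℓ := by
  have hk0 : (0 : ℝ) < k := by exact_mod_cast hk
  have hn0 : (0 : ℝ) < n := by exact_mod_cast hn
  have hpow : Tendsto (fun ℓ : ℝ => ℓ ^ (1 / 2 : ℝ)) atTop atTop := tendsto_rpow_atTop (by norm_num)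
  filter_upwards [ev_z, eventually_ge_atTop (1000 : ℝ),
    ev_log_pow 1 1 (c ^ 2 / (640 * k * n)) one_pos (by positivity),
    ev_log_pow 1 (1 / 2) (1 / (12 * (k : ℝ) ^ 2)) (by norm_num) (by positivity),
    ev_log_pow 1 (1 / 2) (1 / (24 * (k : ℝ))) (by norm_num) (by positivity),
    hpow.eventually (eventually_ge_atTop (320 * (k : ℝ) ^ 2 + 2 * k + 3)),
    hpow.eventually (eventually_ge_atTop (16 * (k : ℝ) + 4))] with ℓ hz h1 h2 h3 h4 h5 h6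
  obtain ⟨z1, z2, z3, _, _, z6⟩ := hz
  rw [pow_one, Real.rpow_one] at h2
  rw [pow_one] at h3 h4
  have hs0 : 0 < ℓ ^ (1 / 2 : ℝ) := by positivity
  refine ⟨h1, z1, z2, z3, z6, h2, ?_, h5, ?_⟩
  · have e1 : 6 * (k : ℝ) ^ 2 * Real.log ℓ ≤ ℓ ^ (1 / 2 : ℝ) / 2 := by
      calc 6 * (k : ℝ) ^ 2 * Real.log ℓ ≤ 6 * (k : ℝ) ^ 2 * (1 / (12 * (k : ℝ) ^ 2) * ℓ ^ (1 / 2 : ℝ)) :=
            mul_le_mul_of_nonneg_left h3 (by positivity)
        _ = _ := by field_simp; norm_num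
    linarith
  · have e1 : 12 * (k : ℝ) * Real.log ℓ ≤ ℓ ^ (1 / 2 : ℝ) / 2 := by
      calc 12 * (k : ℝ) * Real.log ℓ ≤ 12 * (k : ℝ) * (1 / (24 * (k : ℝ)) * ℓ ^ (1 / 2 : ℝ)) :=
            mul_le_mul_of_nonneg_left h4 (by positivity)
        _ = _ := by field_simp; norm_num
    have e2 : 4 * (k : ℝ) * (2 + 3 * Real.log ℓ) = 8 * k + 12 * k * Real.log ℓ := by ring
    rw [e2]
    linarith

section

variable {n : ℕ} {c ℓ : ℝ}

lemma MF.ℓ0 (F : MF k n c ℓ) : 0 < ℓ := by linarith [F.ℓbig]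

lemma MF.z0 (F : MF k n c ℓ) : (0 : ℝ) < zf ℓ := lt_of_lt_of_le (by have := F.ℓ0; positivity) F.z6

lemma MF.zbig (F : MF k n c ℓ) : 320 * (k : ℝ) ^ 2 + 2 * k + 3 ≤ zf ℓ := F.a2.trans F.z6

lemma MF.z2' (F : MF k n c ℓ) : 2 ≤ zf ℓ := by
  have h1 := F.zbig
  have h2 : (0 : ℝ) ≤ k := Nat.cast_nonneg k
  have : (2 : ℝ) ≤ zf ℓ := by nlinarith
  exact_mod_cast this

lemma MF.gYle (F : MF k n c ℓ) (hk : 0 < k) (hn : 0 < n) (hc : 0 < c) (hc1 : c ≤ 1) (hk2 : 2 ^ n ≤ k) {i : ℕ} (hi : i < n) :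
    gY (c ^ 2 / (640 * k * n) * ℓ) i ≤ Real.exp (ℓ / 10) := by
  unfold gY
  apply Real.exp_le_exp.mpr
  have hk0 : (0 : ℝ) < k := by exact_mod_cast hk
  have hn1 : (1 : ℝ) ≤ n := by exact_mod_cast hn
  have hℓ := F.ℓ0
  have h1 : (2 : ℝ) ^ i ≤ k := by
    have h2 : 2 ^ i ≤ k := (Nat.pow_le_pow_right (by norm_num) hi.le).trans hk2
    exact_mod_cast h2
  have hc2 : c ^ 2 ≤ 1 := pow_le_one₀ hc.le hc1
  calc (2 : ℝ) ^ i * (c ^ 2 / (640 * k * n) * ℓ) ≤ k * (1 / (640 * k * 1) * ℓ) := by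
        apply mul_le_mul h1 _ (by positivity) hk0.le
        apply mul_le_mul_of_nonneg_right _ hℓ.le
        apply div_le_div₀ zero_le_one hc2 (by positivity)
        exact mul_le_mul_of_nonneg_left hn1 (by positivity)
    _ = ℓ / 640 := by field_simp
    _ ≤ ℓ / 10 := by linarith

lemma ceil_le_yy (hℓ : 1000 ≤ ℓ) {Q : ℝ} (hQ : Q ≤ Real.exp (ℓ / 10)) : ⌈Q⌉₊ ≤ yy ℓ := by
  unfold yy
  apply Nat.le_floor
  rcases le_or_gt Q 0 with h0 | h0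
  · rw [Nat.ceil_eq_zero.mpr h0, Nat.cast_zero]
    exact (Real.exp_pos _).le
  · have h1 := Nat.ceil_lt_add_one h0.le
    have h2 : Real.exp (ℓ / 10) * 2 ≤ Real.exp (ℓ / 2) := by
      have h3 : Real.exp (ℓ / 2) = Real.exp (ℓ / 10) * Real.exp (2 * ℓ / 5) := by
        rw [← Real.exp_add]; congr 1; ring
      rw [h3]
      apply mul_le_mul_of_nonneg_left _ (Real.exp_pos _).le
      have := Real.add_one_le_exp (2 * ℓ / 5)
      linarith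
    have h4 : 1 ≤ Real.exp (ℓ / 10) := Real.one_le_exp (by linarith)
    linarith

lemma MF.card_E (F : MF k n c ℓ) (h : Fin k → ℕ) {t : ℕ} (ht : ∀ j, h j ≤ t)
    (htℓ : (t : ℝ) ≤ ℓ ^ 2) (e : ℕ) : 2 * #(insert e (exclh h)) ≤ zf ℓ := by
  have h1 := card_exclh h ht (by linarith [F.ℓbig]) htℓ
  have h2 : #(insert e (exclh h)) ≤ #(exclh h) + 1 := Finset.card_insert_le _ _
  have h3 : (#(insert e (exclh h)) : ℝ) ≤ #(exclh h) + 1 := by exact_mod_cast h2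
  have h4 := F.a1.trans F.z6
  have h5 : ((2 * #(insert e (exclh h)) : ℕ) : ℝ) ≤ zf ℓ := by
    push_cast
    linarith
  exact_mod_cast h5

lemma MF.HL (F : MF k n c ℓ) (hk : 0 < k) (hn : 0 < n) (hc : 0 < c)
    (hcV : ∀ n : ℕ, 2 ≤ n → c / Real.log n ≤ Vp n) (h : Fin k → ℕ) {t : ℕ}
    (ht : ∀ j, h j ≤ t) (htℓ : (t : ℝ) ≤ ℓ ^ 2) (e : ℕ) : ∀ i < n,
    c / 4 * (2 ^ i * (c ^ 2 / (640 * k * n) * ℓ)) / Real.log (zf ℓ) ≤
      S1d (PMT h n e (c ^ 2 / (640 * k * n) * ℓ) ℓ) (gY (c ^ 2 / (640 * k * n) * ℓ) i) := by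
  intro i hi
  have hℓ := F.ℓ0
  set ρ := c ^ 2 / (640 * k * n) * ℓ with hρ
  have hρ0 : 0 ≤ ρ := by positivity
  have hL : 0 < Real.log (zf ℓ) := by linarith [F.z1]
  have h1 := S1d_lower (zf ℓ) ⌈gY ρ (n - 1)⌉₊ F.z2' (insert e (exclh h)) (F.card_E h ht htℓ e) (gY ρ i)
    (gY_ge_one hρ0 i) ((gY_mono hρ0 (by omega)).trans (Nat.le_ceil _))
  rw [log_gY] at h1
  refine le_trans ?_ h1
  have h2 := hcV (zf ℓ) F.z2'
  calc c / 4 * (2 ^ i * ρ) / Real.log (zf ℓ) = 2 ^ i * ρ * (c / Real.log (zf ℓ) / 4) := by ring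
    _ ≤ 2 ^ i * ρ * (Vp (zf ℓ) / 4) := by
        apply mul_le_mul_of_nonneg_left _ (by positivity)
        linarith

lemma MF.HU (F : MF k n c ℓ) (hc : 0 < c)
    (hcV : ∀ n : ℕ, 2 ≤ n → c / Real.log n ≤ Vp n) (h : Fin k → ℕ) (e : ℕ) : ∀ i < n,
    S1d (PMT h n e (c ^ 2 / (640 * k * n) * ℓ) ℓ) (gY (c ^ 2 / (640 * k * n) * ℓ) i) ≤
    1 / c * (2 ^ i * (c ^ 2 / (640 * k * n) * ℓ)) / Real.log (zf ℓ) := by
  intro i _
  have hℓ := F.ℓ0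
  set ρ := c ^ 2 / (640 * k * n) * ℓ with hρ
  have hρ0 : 0 ≤ ρ := by positivity
  have hzY : (zf ℓ : ℝ) ≤ gY ρ i := by
    refine le_trans ?_ (gY_mono hρ0 (Nat.zero_le i))
    unfold gY
    rw [pow_zero, one_mul, ← Real.log_le_iff_le_exp F.z0]
    exact F.z2.trans F.zρ
  have h1 := S1d_upper hc hcV (zf ℓ) ⌈gY ρ (n - 1)⌉₊ (by linarith [F.z1]) (PMT h n e ρ ℓ)
    (PE_sub _ _ _) (gY ρ i) hzY
  rw [log_gY] at h1
  refine h1.trans (le_of_eq ?_)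
  field_simp

lemma MF.sigma (F : MF k n c ℓ) (h : Fin k → ℕ) (e : ℕ) (ρ : ℝ) :
    ∑ p ∈ PMT h n e ρ ℓ, 1 / ((p : ℝ) - 1) ^ 2 ≤ 2 / (zf ℓ : ℝ) := by
  set z := zf ℓ with hz
  have hz2 := F.z2'
  have hz0 := F.z0
  have hinj : Set.InjOn (fun p : ℕ => p - 1) (PMT h n e ρ ℓ : Set ℕ) := by
    intro a ha b hb hab
    have h1 := (mem_PMT.mp (Finset.mem_coe.mp ha)).1.2.2.two_le
    have h2 := (mem_PMT.mp (Finset.mem_coe.mp hb)).1.2.2.two_le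
    simp only at hab
    omega
  have h1 : ∑ p ∈ PMT h n e ρ ℓ, 1 / ((p : ℝ) - 1) ^ 2 =
      ∑ q ∈ (PMT h n e ρ ℓ).image (fun p : ℕ => p - 1), 1 / (q : ℝ) ^ 2 := by
    rw [Finset.sum_image hinj]
    apply Finset.sum_congr rfl
    intro p hp
    have h2 := (mem_PMT.mp hp).1.2.2.one_le
    rw [Nat.cast_sub h2, Nat.cast_one]
  rw [h1]
  have h2 : (PMT h n e ρ ℓ).image (fun p : ℕ => p - 1) ⊆ Finset.Ioc (z - 1) ⌈gY ρ (n - 1)⌉₊ := by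
    intro q hq
    rw [Finset.mem_image] at hq
    obtain ⟨p, hp, rfl⟩ := hq
    have h3 := (mem_PMT.mp hp).1
    rw [Finset.mem_Ioc]
    omega
  refine (Finset.sum_le_sum_of_subset_of_nonneg h2 (fun q _ _ => by positivity)).trans ?_
  refine (sum_inv_sq_Ioc (z - 1) _ (by omega)).trans ?_
  have h3 : ((z - 1 : ℕ) : ℝ) = (z : ℝ) - 1 := by rw [Nat.cast_sub (by omega), Nat.cast_one]
  rw [h3]
  have hzr : (2 : ℝ) ≤ z := by exact_mod_cast hz2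
  rw [div_le_div_iff₀ (by linarith) hz0]
  linarith

lemma MF.qqsum (F : MF k n c ℓ) (h : Fin k → ℕ) (e : ℕ) (ρ : ℝ) {t i : ℕ}
    (ht : ∀ j, h j ≤ t) (hi : i ≤ t) (hih : ∀ j, i ≠ h j) (htℓ : (t : ℝ) ≤ ℓ ^ 2) :
    ∑ p ∈ PMT h n e ρ ℓ, ∑ j : Fin k, |qq h i p j - 1 / (p : ℝ)| ≤ 1 / 4 := by
  classical
  have hz0 := F.z0
  have hσ := F.sigma h e ρ
  rw [Finset.sum_comm]
  have h1 : ∀ j : Fin k, ∑ p ∈ PMT h n e ρ ℓ, |qq h i p j - 1 / (p : ℝ)| ≤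
      2 / (zf ℓ : ℝ) + 3 * Real.log ℓ * (1 / (zf ℓ : ℝ)) := by
    intro j
    have h2 : ∀ p ∈ PMT h n e ρ ℓ, |qq h i p j - 1 / (p : ℝ)| ≤
        1 / ((p : ℝ) - 1) ^ 2 + (if p ∣ nd i (h j) then 1 / (zf ℓ : ℝ) else 0) := by
      intro p hp
      have hp1 := (mem_PMT.mp hp).1
      have hp2 : (2 : ℝ) ≤ p := by exact_mod_cast hp1.2.2.two_le
      have hpz : (zf ℓ : ℝ) ≤ p := by exact_mod_cast hp1.1.le
      unfold qq
      split_ifs with hd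
      · rw [zero_sub, abs_neg, abs_of_nonneg (by positivity)]
        have : 1 / (p : ℝ) ≤ 1 / zf ℓ := one_div_le_one_div_of_le hz0 hpz
        have h3 : 0 ≤ 1 / ((p : ℝ) - 1) ^ 2 := by positivity
        linarith
      · rw [add_zero]
        have h3 : 1 / ((p : ℝ) - 1) - 1 / p = 1 / (((p : ℝ) - 1) * p) := by
          have : (p : ℝ) - 1 ≠ 0 := by linarith
          have : (p : ℝ) ≠ 0 := by linarith
          field_simp
          ring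
        rw [h3, abs_of_nonneg (div_nonneg zero_le_one (mul_nonneg (by linarith) (by linarith)))]
        apply one_div_le_one_div_of_le
        · apply pow_pos; linarith
        · rw [sq]
          apply mul_le_mul_of_nonneg_left _ (by linarith)
          linarith
    refine (Finset.sum_le_sum h2).trans ?_
    rw [Finset.sum_add_distrib]
    apply add_le_add hσ
    rw [← Finset.sum_filter, Finset.sum_const, nsmul_eq_mul]
    apply mul_le_mul_of_nonneg_right _ (by positivity)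
    have hnd := nd_ne_zero (hih j)
    have h3 : (PMT h n e ρ ℓ).filter (fun p => p ∣ nd i (h j)) ⊆ (nd i (h j)).primeFactors := by
      intro p hp
      rw [Finset.mem_filter] at hp
      rw [Nat.mem_primeFactors]
      exact ⟨(mem_PMT.mp hp.1).1.2.2, hp.2, hnd⟩
    have h4 : (#((PMT h n e ρ ℓ).filter (fun p => p ∣ nd i (h j))) : ℝ) ≤ #((nd i (h j)).primeFactors) := by
      exact_mod_cast Finset.card_le_card h3
    refine h4.trans (card_pf_le _ hnd (by linarith [F.ℓbig]) ?_)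
    refine le_trans ?_ htℓ
    exact_mod_cast nd_le hi (ht j)
  refine (Finset.sum_le_sum (fun j _ => h1 j)).trans ?_
  rw [Finset.sum_const, Finset.card_univ, Fintype.card_fin, nsmul_eq_mul]
  have h2 := F.a3.trans F.z6
  have h3 : (k : ℝ) * (2 / (zf ℓ : ℝ) + 3 * Real.log ℓ * (1 / (zf ℓ : ℝ))) = k * (2 + 3 * Real.log ℓ) / zf ℓ := by
    field_simp
  rw [h3, div_le_div_iff₀ hz0 (by norm_num)]
  linarith

end

end Pool.Agent.H16
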