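import Pool.Agent.H16.MT5
import Pool.Agent.H16.CH2

/-!
Positivity of the bracket gives consecutive primes in the tuple.
-/

set_option autoImplicit false

open Finset Filter Topology

namespace Pool.Agent.H16

variable {k : ℕ}

lemma aw_le' {ℓ : ℝ} (hℓ : 0 ≤ ℓ) (y n : ℕ) :
    aw ℓ y n ≤ if n.Prime ∧ n ≤ ⌊Real.exp ℓ⌋₊ then ℓ else 0 := by
  split_ifs with h
  · exact aw_le ℓ y n h.2 h.1
  · by_cases hp : n.Prime
    · have h1 : ⌊Real.exp ℓ⌋₊ < n := by
        by_contra hcon
        exact h ⟨hp, by omega⟩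
      rw [aw_zero_of_big y n (Nat.lt_of_floor_lt h1).le]
    · unfold aw
      rw [if_neg (fun h1 => hp h1.1)]

/-- the bracket -/
noncomputable def brk (ℓ : ℝ) (y m : ℕ) (h : Fin k → ℕ) (U : Finset ℕ) (n : ℕ) : ℝ :=
  ∑ j, aw ℓ y (n + h j) - m * ℓ - 2 * k * ∑ i ∈ U, aw ℓ y (n + i)

lemma brk_le {ℓ : ℝ} (hℓ : 0 ≤ ℓ) (y m : ℕ) (h : Fin k → ℕ) (U : Finset ℕ) (n : ℕ) :
    brk ℓ y m h U n ≤ k * ℓ := by
  unfold brk
  have h1 : ∑ j, aw ℓ y (n + h j) ≤ k * ℓ := by
    calc ∑ j, aw ℓ y (n + h j) ≤ ∑ _j : Fin k, ℓ := by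
          apply Finset.sum_le_sum
          intro j _
          refine (aw_le' hℓ y _).trans ?_
          split_ifs
          · exact le_rfl
          · exact hℓ
      _ = k * ℓ := by rw [Finset.sum_const, Finset.card_univ, Fintype.card_fin, nsmul_eq_mul]
  have h2 : 0 ≤ ∑ i ∈ U, aw ℓ y (n + i) := Finset.sum_nonneg (fun i _ => aw_nonneg _ _ _)
  have h3 : 0 ≤ 2 * (k : ℝ) * ∑ i ∈ U, aw ℓ y (n + i) := by positivity
  have h4 : 0 ≤ (m : ℝ) * ℓ := by positivity
  linarith

theorem bracket_pos {ℓ : ℝ} (hℓ : 30 ≤ ℓ) {m : ℕ} (hm : 1 ≤ m) (h : Fin k → ℕ) (T : Finset ℕ)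
    (hT : ∀ i, i ∈ T ↔ ∃ j, h j = i) (z e t y A0 : ℕ) (a : ℕ → ℕ)
    (hA0 : ∀ p, p.Prime → p ≤ z → p ∣ A0 + a p) (htT : ∀ j, h j < t)
    (hy : (y : ℝ) ≤ Real.exp (ℓ / 2)) (hzy : z ≤ y) (hkt : (k : ℝ) * t ≤ Real.exp ℓ / 100)
    (hk : 0 < k) (n : ℕ) (hnW : n ≡ A0 [MOD WW z e])
    (hpos : 0 < brk ℓ y m h (uncovT T z e t a) n) :
    m + 1 ≤ #{j : Fin k | (n + h j).Prime ∧ n + h j ≤ ⌊Real.exp ℓ⌋₊} ∧
      ∀ i < t, i ∉ T → ¬ (n + i).Prime := by
  classical
  have hℓ0 : 0 < ℓ := by linarith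
  set x := Real.exp ℓ with hx
  have hx0 : 0 < x := Real.exp_pos _
  have hk1 : (1 : ℝ) ≤ k := by exact_mod_cast hk
  have ht100 : (t : ℝ) ≤ x / 100 := by
    have ht0 : (0 : ℝ) ≤ t := Nat.cast_nonneg _
    have := le_mul_of_one_le_left ht0 hk1
    linarith
  set U := uncovT T z e t a with hU
  have hU0 : 0 ≤ ∑ i ∈ U, aw ℓ y (n + i) := Finset.sum_nonneg (fun i _ => aw_nonneg _ _ _)
  have hkU : 0 ≤ 2 * (k : ℝ) * ∑ i ∈ U, aw ℓ y (n + i) := by positivity
  have hsum : (m : ℝ) * ℓ < ∑ j, aw ℓ y (n + h j) := by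
    unfold brk at hpos
    linarith
  have hm1 : (1 : ℝ) ≤ m := by exact_mod_cast hm
  -- some shifted prime
  have hex : ∃ j, aw ℓ y (n + h j) ≠ 0 := by
    by_contra hcon
    push Not at hcon
    rw [Finset.sum_eq_zero (fun j _ => hcon j)] at hsum
    have : 0 ≤ (m : ℝ) * ℓ := by positivity
    linarith
  obtain ⟨j0, hj0⟩ := hex
  obtain ⟨_, _, hbig⟩ := aw_ne_zero hj0
  have hnx : x / 10 ≤ n := by
    have h1 : ((n + h j0 : ℕ) : ℝ) = n + h j0 := by push_cast; ring
    have h2 : (h j0 : ℝ) ≤ t := by exact_mod_cast (htT j0).le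
    rw [h1] at hbig
    linarith
  have hhalf := exp_half_lt hℓ
  have hexp2 : (20 : ℝ) ≤ Real.exp (ℓ / 2) := by
    have h1 := Real.quadratic_le_exp_of_nonneg (show 0 ≤ ℓ / 2 by positivity)
    nlinarith
  have hxx : x = Real.exp (ℓ / 2) * Real.exp (ℓ / 2) := by
    rw [hx, ← Real.exp_add]; congr 1; ring
  have hhalf10 : Real.exp (ℓ / 2) < x / 10 := by
    rw [hxx]
    have := Real.exp_pos (ℓ / 2)
    nlinarith
  have hny : y < n := by
    have : (y : ℝ) < n := by linarith
    exact_mod_cast this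
  have hn0 : (0 : ℝ) < n := by
    have : 0 < n := by omega
    exact_mod_cast this
  constructor
  · have h1 : ∑ j, aw ℓ y (n + h j) ≤ #{j : Fin k | (n + h j).Prime ∧ n + h j ≤ ⌊x⌋₊} * ℓ := by
      calc ∑ j, aw ℓ y (n + h j) ≤
          ∑ j, (if (n + h j).Prime ∧ n + h j ≤ ⌊x⌋₊ then ℓ else 0) :=
            Finset.sum_le_sum (fun j _ => aw_le' hℓ0.le y _)
        _ = _ := by
            rw [← Finset.sum_filter, Finset.sum_const, nsmul_eq_mul]
    have h2 : (m : ℝ) < #{j : Fin k | (n + h j).Prime ∧ n + h j ≤ ⌊x⌋₊} :=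
      lt_of_mul_lt_mul_right (hsum.trans_le h1) hℓ0.le
    have h3 : m < #{j : Fin k | (n + h j).Prime ∧ n + h j ≤ ⌊x⌋₊} := by exact_mod_cast h2
    omega
  · intro i hit hiT hprime
    by_cases hcov : ∃ p, p.Prime ∧ p ≤ z ∧ p ≠ e ∧ i % p = a p % p
    · obtain ⟨p, hp, hpz, hpe, hmod⟩ := hcov
      have h1 : n ≡ A0 [MOD p] := Nat.ModEq.of_dvd (dvd_WW hp hpz hpe) hnW
      have h2 : n + i ≡ A0 + a p [MOD p] := Nat.ModEq.add h1 hmod
      have h3 : p ∣ n + i := Nat.modEq_zero_iff_dvd.mp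
        (h2.trans (Nat.modEq_zero_iff_dvd.mpr (hA0 p hp hpz)))
      have h4 := (Nat.prime_dvd_prime_iff_eq hp hprime).mp h3
      omega
    · have hiU : i ∈ U := by
        rw [hU]
        unfold uncovT
        rw [Finset.mem_filter, Finset.mem_range]
        refine ⟨hit, hiT, ?_⟩
        intro p hp hpz hpe hmod
        exact hcov ⟨p, hp, hpz, hpe, hmod⟩
      have hni0 : (0 : ℝ) < ((n + i : ℕ) : ℝ) := by
        have : 0 < n + i := by omega
        exact_mod_cast this
      set τ := tent (x / 3) ((n + i : ℕ) : ℝ) with hτ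
      have hτ0 : 0 ≤ τ := tent_nonneg _ _ (by positivity) hni0
      have hawi : aw ℓ y (n + i) = Real.log ((n + i : ℕ) : ℝ) * τ := by
        unfold aw
        rw [if_pos ⟨hprime, by omega⟩]
      have hlogni : ℓ / 2 ≤ Real.log ((n + i : ℕ) : ℝ) := by
        rw [Real.le_log_iff_exp_le hni0]
        push_cast
        have : (0 : ℝ) ≤ i := Nat.cast_nonneg _
        linarith
      have hawi2 : ℓ / 2 * τ ≤ ∑ i ∈ U, aw ℓ y (n + i) := by
        calc ℓ / 2 * τ ≤ aw ℓ y (n + i) := by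
              rw [hawi]; exact mul_le_mul_of_nonneg_right hlogni hτ0
          _ ≤ _ := Finset.single_le_sum (f := fun i => aw ℓ y (n + i)) (fun i _ => aw_nonneg _ _ _) hiU
      -- the shifts
      have hj : ∀ j, aw ℓ y (n + h j) ≤ ℓ * (τ + t / n) := by
        intro j
        have htn : (0 : ℝ) ≤ t / n := by positivity
        by_cases h0 : aw ℓ y (n + h j) = 0
        · rw [h0]
          positivity
        · have hle : n + h j ≤ ⌊x⌋₊ := by
            by_contra hcon
            exact h0 (aw_zero_of_big y _ (Nat.lt_of_floor_lt (by omega : ⌊x⌋₊ < n + h j)).le)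
          have hnj0 : (0 : ℝ) < ((n + h j : ℕ) : ℝ) := by
            have : 0 < n + h j := by omega
            exact_mod_cast this
          have hlog : Real.log ((n + h j : ℕ) : ℝ) ≤ ℓ := by
            calc Real.log ((n + h j : ℕ) : ℝ) ≤ Real.log x :=
                  Real.log_le_log hnj0 ((Nat.le_floor_iff hx0.le).mp hle)
              _ = ℓ := by rw [hx, Real.log_exp]
          have hlog0 : 0 ≤ Real.log ((n + h j : ℕ) : ℝ) := Real.log_natCast_nonneg _
          have hdist : ∀ u v : ℕ, u ≤ v → v ≤ t → Real.log ((n + v : ℕ) : ℝ) - Real.log ((n + u : ℕ) : ℝ) ≤ t / n := by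
            intro u v huv hvt
            have hu0 : (0 : ℝ) < ((n + u : ℕ) : ℝ) := by
              have : 0 < n + u := by omega
              exact_mod_cast this
            have hv0 : (0 : ℝ) < ((n + v : ℕ) : ℝ) := by
              have : 0 < n + v := by omega
              exact_mod_cast this
            rw [← Real.log_div hv0.ne' hu0.ne']
            refine (Real.log_le_sub_one_of_pos (by positivity)).trans ?_
            rw [div_sub_one hu0.ne', div_le_div_iff₀ hu0 hn0]
            push_cast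
            have e1 : (n : ℝ) + v - (n + u) ≤ t := by
              have e2 : (v : ℝ) ≤ t := by exact_mod_cast hvt
              have e3 : (0 : ℝ) ≤ u := Nat.cast_nonneg _
              linarith
            have e4 : (0 : ℝ) ≤ u := Nat.cast_nonneg _
            have e5 : (0 : ℝ) ≤ t := Nat.cast_nonneg _
            calc ((n : ℝ) + v - (n + u)) * n ≤ t * n := mul_le_mul_of_nonneg_right e1 hn0.le
              _ ≤ t * (n + u) := mul_le_mul_of_nonneg_left (by linarith) e5
          have htent : tent (x / 3) ((n + h j : ℕ) : ℝ) ≤ τ + t / n := by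
            rcases le_total i (h j) with hij | hij
            · have h1 := tent_lip (x / 3) ((n + i : ℕ) : ℝ) ((n + h j : ℕ) : ℝ) (by positivity) hni0
                (by exact_mod_cast (by omega : n + i ≤ n + h j))
              have h2 := hdist i (h j) hij (htT j).le
              have h3 := (abs_le.mp h1).2
              linarith
            · have h1 := tent_lip (x / 3) ((n + h j : ℕ) : ℝ) ((n + i : ℕ) : ℝ) (by positivity) hnj0
                (by exact_mod_cast (by omega : n + h j ≤ n + i))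
              have h2 := hdist (h j) i hij hit.le
              have h3 := (abs_le.mp h1).1
              linarith
          have htent0 : 0 ≤ tent (x / 3) ((n + h j : ℕ) : ℝ) := tent_nonneg _ _ (by positivity) hnj0
          unfold aw
          split_ifs
          · exact mul_le_mul hlog htent htent0 hℓ0.le
          · positivity
      have hsum2 : ∑ j, aw ℓ y (n + h j) ≤ k * (ℓ * (τ + t / n)) := by
        calc ∑ j, aw ℓ y (n + h j) ≤ ∑ _j : Fin k, ℓ * (τ + t / n) := Finset.sum_le_sum (fun j _ => hj j)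
          _ = _ := by rw [Finset.sum_const, Finset.card_univ, Fintype.card_fin, nsmul_eq_mul]
      have hktn : (k : ℝ) * (t / n) ≤ 1 := by
        rw [← mul_div_assoc, div_le_one hn0]
        linarith
      unfold brk at hpos
      have h5 : 2 * (k : ℝ) * (ℓ / 2 * τ) ≤ 2 * k * ∑ i ∈ U, aw ℓ y (n + i) :=
        mul_le_mul_of_nonneg_left hawi2 (by positivity)
      have h6 : (k : ℝ) * (ℓ * (τ + t / n)) = 2 * k * (ℓ / 2 * τ) + ℓ * (k * (t / n)) := by ring
      have h7 : ℓ * ((k : ℝ) * (t / n)) ≤ ℓ * 1 := mul_le_mul_of_nonneg_left hktn hℓ0.le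
      have h8 : 1 * ℓ ≤ m * ℓ := mul_le_mul_of_nonneg_right hm1 hℓ0.le
      linarith

end Pool.Agent.H16
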