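import Pool.Agent.H16.MT13
import Pool.Agent.H16.MT9

/-!
From the weighted inequality to a lower bound for the number of good integers.
-/

set_option autoImplicit false

open Finset Filter Topology

namespace Pool.Agent.H16

open Pool.Agent.H90 (MT.Col MT.Lam MT.GOK)

variable {k : ℕ}

lemma card_dvd_le (S : Finset ℕ) (hS : ∀ p ∈ S, p.Prime) (z m : ℕ) (hz : 1 ≤ Real.log z) (hm : 0 < m)
    (hSz : ∀ p ∈ S, z < p ∧ p ∣ m) {ℓ : ℝ} (hmℓ : (m : ℝ) ≤ Real.exp (2 * ℓ)) :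
    (#S : ℝ) ≤ 2 * ℓ / Real.log z := by
  have hz0 : (0 : ℝ) < z := by
    by_contra hcon
    push Not at hcon
    have : Real.log z ≤ 0 := by
      have h1 : (z : ℝ) = 0 := le_antisymm hcon (Nat.cast_nonneg z)
      rw [h1, Real.log_zero]
    linarith
  have h1 : z ^ #S ≤ ∏ p ∈ S, p := Finset.pow_card_le_prod _ _ z (fun p hp => (hSz p hp).1.le)
  have h2 : ∏ p ∈ S, p ∣ m := Finset.prod_primes_dvd m (fun p hp => (hS p hp).prime)
    (fun p hp => (hSz p hp).2)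
  have h3 : z ^ #S ≤ m := h1.trans (Nat.le_of_dvd hm h2)
  have h4 : (z : ℝ) ^ #S ≤ Real.exp (2 * ℓ) := by
    refine le_trans ?_ hmℓ
    exact_mod_cast h3
  have h5 := Real.log_le_log (by positivity) h4
  rw [Real.log_pow, Real.log_exp] at h5
  rw [le_div_iff₀ (by linarith)]
  exact h5

lemma outc_count (h : Fin k → ℕ) (P : Finset ℕ) (hP : ∀ p ∈ P, p.Prime) (z ν : ℕ)
    (hz : 1 ≤ Real.log z) (hPz : ∀ p ∈ P, z < p) (hν : 0 < ν) {ℓ : ℝ} (hℓ : 1 ≤ ℓ)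
    (hνℓ : (ν : ℝ) ≤ Real.exp ℓ) (hh : ∀ j, (h j : ℝ) ≤ Real.exp ℓ) :
    (#{p : {p // p ∈ P} | ocol h P ν p ≠ none} : ℝ) ≤ k * (2 * ℓ / Real.log z) := by
  classical
  have h1 : (Finset.univ.filter (fun p : {p // p ∈ P} => ocol h P ν p ≠ none)).image Subtype.val ⊆
      (Finset.univ : Finset (Fin k)).biUnion (fun j => P.filter (fun p => p ∣ ν + h j)) := by
    intro p hp
    rw [Finset.mem_image] at hp
    obtain ⟨q, hq, rfl⟩ := hp
    rw [Finset.mem_filter] at hq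
    rw [Finset.mem_biUnion]
    unfold ocol outc at hq
    by_cases hx : ∃ j, (q : ℕ) ∣ ν + h j
    · obtain ⟨j, hj⟩ := hx
      exact ⟨j, Finset.mem_univ _, Finset.mem_filter.mpr ⟨q.2, hj⟩⟩
    · rw [dif_neg hx] at hq
      exact absurd rfl hq.2
  have h2 : #(Finset.univ.filter (fun p : {p // p ∈ P} => ocol h P ν p ≠ none)) ≤
      ∑ j : Fin k, #(P.filter (fun p => p ∣ ν + h j)) := by
    rw [← Finset.card_image_of_injective _ (Subtype.val_injective : Function.Injective (Subtype.val : {p // p ∈ P} → ℕ))]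
    exact (Finset.card_le_card h1).trans Finset.card_biUnion_le
  calc (#{p : {p // p ∈ P} | ocol h P ν p ≠ none} : ℝ) ≤
      ∑ j : Fin k, (#(P.filter (fun p => p ∣ ν + h j)) : ℝ) := by exact_mod_cast h2
    _ ≤ ∑ _j : Fin k, 2 * ℓ / Real.log z := by
        apply Finset.sum_le_sum
        intro j _
        apply card_dvd_le _ (fun p hp => hP p (Finset.mem_filter.mp hp).1) z (ν + h j) hz (by omega)
        · intro p hp
          rw [Finset.mem_filter] at hp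
          exact ⟨hPz p hp.1, hp.2⟩
        · push_cast
          have h3 : Real.exp (2 * ℓ) = Real.exp ℓ * Real.exp ℓ := by rw [← Real.exp_add]; congr 1; ring
          have h4 : 2 ≤ Real.exp ℓ := by have := Real.add_one_le_exp ℓ; linarith
          have h5 := mul_le_mul_of_nonneg_right h4 (Real.exp_pos ℓ).le
          have h6 := hh j
          linarith
    _ = _ := by rw [Finset.sum_const, Finset.card_univ, Fintype.card_fin, nsmul_eq_mul]

/-- pointwise bound for the squared weight -/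
lemma Lam2_le (h : Fin k → ℕ) (P : Finset ℕ) (hP : ∀ p ∈ P, p.Prime) (z ν : ℕ)
    (hz : 1 ≤ Real.log z) (hPz : ∀ p ∈ P, z < p) (hν : 0 < ν) {ℓ : ℝ} (hℓ : 1 ≤ ℓ)
    (hνℓ : (ν : ℝ) ≤ Real.exp ℓ) (hh : ∀ j, (h j : ℝ) ≤ Real.exp ℓ) {n : ℕ} (hn : 1 ≤ n) {ρ : ℝ}
    (hρ : 0 ≤ ρ) (B : ℝ) (hB : ∏ p ∈ P, (1 + (k : ℝ) / p) ≤ B) :
    Lam2 h P n ρ ℓ ν ≤ Real.exp (8 * k * (ℓ / Real.log z)) * B ^ 2 := by
  have h1 := Lam_abs_le P hP (gst n ρ) (gst_GOK hP hn hρ) (RR ℓ) (ocol h P ν)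
  have h2 := outc_count h P hP z ν hz hPz hν hℓ hνℓ hh
  set r := #{p : {p // p ∈ P} | ocol h P ν p ≠ none} with hr
  have hprod0 : 0 ≤ ∏ p ∈ P, (1 + (k : ℝ) / p) := Finset.prod_nonneg (fun p _ => by positivity)
  have h3 : |MT.Lam (gst n ρ) (RR ℓ) (ocol h P ν)| ≤ 3 ^ r * B := by
    refine h1.trans ?_
    have : (0 : ℝ) ≤ 3 ^ r := by positivity
    exact mul_le_mul_of_nonneg_left hB this
  unfold Lam2
  rw [← sq_abs]
  calc |MT.Lam (gst n ρ) (RR ℓ) (ocol h P ν)| ^ 2 ≤ (3 ^ r * B) ^ 2 :=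
        pow_le_pow_left₀ (abs_nonneg _) h3 2
    _ = (3 : ℝ) ^ (2 * r) * B ^ 2 := by rw [mul_pow, ← pow_mul, mul_comm r 2]
    _ ≤ Real.exp (8 * k * (ℓ / Real.log z)) * B ^ 2 := by
        apply mul_le_mul_of_nonneg_right _ (sq_nonneg B)
        have h4 : (3 : ℝ) ≤ Real.exp 2 := by
          have := Real.quadratic_le_exp_of_nonneg (show (0 : ℝ) ≤ 2 by norm_num)
          linarith
        calc (3 : ℝ) ^ (2 * r) ≤ (Real.exp 2) ^ (2 * r) := pow_le_pow_left₀ (by norm_num) h4 _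
          _ = Real.exp (4 * r) := by
              rw [← Real.exp_nat_mul]; congr 1; push_cast; ring
          _ ≤ _ := by
              apply Real.exp_le_exp.mpr
              have h5 : (k : ℝ) * (2 * ℓ / Real.log z) = 2 * k * (ℓ / Real.log z) := by ring
              rw [h5] at h2
              linarith

/-- the weighted sum of the bracket -/
lemma sum_brk (S : Finset ℕ) (F : ℕ → ℝ) (ℓ : ℝ) (y m : ℕ) (h : Fin k → ℕ) (U : Finset ℕ) :
    ∑ ν ∈ S, brk ℓ y m h U ν * F ν = ∑ j, ∑ ν ∈ S, aw ℓ y (ν + h j) * F ν -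
      m * ∑ ν ∈ S, ℓ * F ν - 2 * k * ∑ i ∈ U, ∑ ν ∈ S, aw ℓ y (ν + i) * F ν := by
  rw [Finset.sum_comm, Finset.sum_comm (s := U), Finset.mul_sum, Finset.mul_sum,
    ← Finset.sum_sub_distrib, ← Finset.sum_sub_distrib]
  apply Finset.sum_congr rfl
  intro ν _
  unfold brk
  rw [← Finset.sum_mul, ← Finset.sum_mul]
  ring

/-- counting the positive brackets -/
lemma count_pos (S : Finset ℕ) (F : ℕ → ℝ) (ℓ : ℝ) (hℓ : 0 ≤ ℓ) (y m : ℕ) (h : Fin k → ℕ) (U : Finset ℕ)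
    (hF0 : ∀ ν ∈ S, 0 ≤ F ν) (C : ℝ) (hC : 0 ≤ C) (hF : ∀ ν ∈ S, F ν ≤ C) (G : Finset ℕ)
    (hG : ∀ ν ∈ S, 0 < brk ℓ y m h U ν → ν ∈ G) :
    ∑ ν ∈ S, brk ℓ y m h U ν * F ν ≤ #G * (k * ℓ * C) := by
  classical
  have h1 : ∑ ν ∈ S, brk ℓ y m h U ν * F ν ≤
      ∑ ν ∈ S.filter (fun ν => 0 < brk ℓ y m h U ν), k * ℓ * C := by
    rw [Finset.sum_filter]
    apply Finset.sum_le_sum
    intro ν hν
    split_ifs with hpos
    · exact mul_le_mul (brk_le hℓ y m h U ν) (hF ν hν) (hF0 ν hν) (by positivity)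
    · push Not at hpos
      exact mul_nonpos_of_nonpos_of_nonneg hpos (hF0 ν hν)
  refine h1.trans ?_
  rw [Finset.sum_const, nsmul_eq_mul]
  apply mul_le_mul_of_nonneg_right _ (by positivity)
  have h2 : S.filter (fun ν => 0 < brk ℓ y m h U ν) ⊆ G := by
    intro ν hν
    rw [Finset.mem_filter] at hν
    exact hG ν hν.1 hν.2
  exact_mod_cast Finset.card_le_card h2

end Pool.Agent.H16
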