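import Pool.Agent.H16.MT15

/-!
Uniform Maynard-Tao theorem in the Erdős–Rankin range.
-/

set_option autoImplicit false

open Finset Filter Topology

namespace Pool.Agent.H16

open Pool.Agent.H90 (MT.Col MT.Lam MT.GOK MT.A1 MT.A2)

theorem mt_good : ∃ C : ℝ, 0 < C ∧ ∀ m : ℕ, 1 ≤ m → ∃ k : ℕ, 0 < k ∧ (k : ℝ) ≤ Real.exp (C * (m + 1)) ∧
    ∃ c : ℝ, 0 < c ∧ ∀ ε : ℝ, 0 < ε →
    ∀ᶠ ℓ : ℝ in atTop, ∀ H : Finset ℕ, #H = k → (∀ p, p.Prime → ∃ r, ∀ τ ∈ H, r % p ≠ τ % p) →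
    (∀ τ ∈ H, (τ : ℝ) ≤ c * RS ℓ) → Real.exp ((1 - ε) * ℓ) ≤ #(MG m ℓ H) := by
  classical
  -- constants
  obtain ⟨c0, hc0, hcV0⟩ := Vp_ge
  set c : ℝ := min c0 1 with hcdef
  have hc : 0 < c := by positivity
  have hc1 : c ≤ 1 := min_le_right _ _
  have hcV : ∀ n : ℕ, 2 ≤ n → c / Real.log n ≤ Vp n := by
    intro n hn
    refine le_trans ?_ (hcV0 n hn)
    have : 0 ≤ Real.log n := Real.log_natCast_nonneg n
    exact div_le_div_of_nonneg_right (min_le_left _ _) this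
  set C0 : ℝ := 6400 * 81920 / c ^ 5 with hC0
  have hC0pos : 0 < C0 := by positivity
  refine ⟨C0 + 2, by positivity, fun m hm => ?_⟩
  set n1 : ℕ := ⌈C0 * m⌉₊ with hn1def
  have hn1 : 6400 * 81920 * (m : ℝ) / c ^ 5 ≤ n1 := by
    have h1 : C0 * m ≤ n1 := Nat.le_ceil _
    have h2 : 6400 * 81920 * (m : ℝ) / c ^ 5 = C0 * m := by rw [hC0]; ring
    rw [h2]; exact h1
  set n : ℕ := n1 + 1 with hn
  have hn0 : 0 < n := by omega
  have hnm : 6400 * 81920 * (m : ℝ) ≤ c ^ 5 * n := by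
    rw [div_le_iff₀ (by positivity)] at hn1
    have h1 : (n1 : ℝ) * c ^ 5 ≤ n * c ^ 5 := by
      apply mul_le_mul_of_nonneg_right _ (by positivity)
      exact_mod_cast Nat.le_succ n1
    linarith
  set k : ℕ := 2 ^ n with hkdef
  have hk2n : 2 ^ n ≤ k := le_rfl
  have hk2 : 2 ≤ k := by
    calc 2 = 2 ^ 1 := by norm_num
      _ ≤ 2 ^ n := Nat.pow_le_pow_right (by norm_num) hn0
  have hk0 : 0 < k := by omega
  have hk0' : (0 : ℝ) < k := by exact_mod_cast hk0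
  obtain ⟨cc, hcc, hcov⟩ := cover_eT k (1 / k) (by positivity)
  obtain ⟨cR, hcR, hRS⟩ := ev_RS cc hcc
  set A : ℝ := 2 * (k : ℝ) + 3 with hA
  have hA0 : 0 ≤ A := by positivity
  obtain ⟨L1, hL1⟩ := RP_supK (1 / 10) (by norm_num) (by norm_num) A hA0 ((k + 1) ^ 2)
  obtain ⟨L3, hL3⟩ := smallProp_exists
    ((2 * A + 4 + (((k + 1) ^ 2 : ℕ) : ℝ) ^ 2) + 1 + 4)
    ((2 * A + 4 + (((k + 1) ^ 2 : ℕ) : ℝ) ^ 2) + 1 + 3 + 12) (by positivity) (by positivity) (4 ^ 0)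
  have hksize : (k : ℝ) ≤ Real.exp ((C0 + 2) * (m + 1)) := by
    have h1 : (n : ℝ) ≤ (C0 + 2) * (m + 1) := by
      have h2 : (n1 : ℝ) < C0 * m + 1 := Nat.ceil_lt_add_one (by positivity)
      have h3 : (n : ℝ) = n1 + 1 := by rw [hn]; push_cast; ring
      have h4 : (0 : ℝ) ≤ m := Nat.cast_nonneg m
      rw [h3]
      linarith
    calc (k : ℝ) = (2 : ℝ) ^ n := by rw [hkdef]; push_cast; ring
      _ ≤ (Real.exp 1) ^ n := by
          apply pow_le_pow_left₀ (by norm_num)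
          have := Real.add_one_le_exp (1 : ℝ); linarith
      _ = Real.exp n := by rw [← Real.exp_nat_mul, mul_one]
      _ ≤ _ := Real.exp_le_exp.mpr h1
  refine ⟨k, hk0, hksize, cR / 2, by positivity, fun ε hε => ?_⟩
  filter_upwards [eventually_ge_atTop L1, eventually_ge_atTop L3, tendsto_zf.eventually hcov, hRS,
    tendsto_RS.eventually (eventually_ge_atTop (2 / cR)), ev_MF k n hk0 hn0 c hc, ev_W (1 / 10) (by norm_num),
    ev_W (ε / 4) (by positivity), ev_err k m c hc, ev_final_mt k hk0 c ε hc hε, zf_le_exp, X_ge,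
    ev_log_pow 2 (1 / 2) (c ^ 2 / (640 * k * n)) (by norm_num) (by positivity),
    eventually_ge_atTop (10000 * (k : ℝ) ^ 2)]
    with ℓ l1 l3 hcov hRS hRS1 F hW10 hWε herr hfin hzy hXge hΘ hℓk H hH hadm hHle
  obtain ⟨zy1, zy2, _, _⟩ := hzy
  have hℓ0 := F.ℓ0
  have hℓbig := F.ℓbig
  set x := Real.exp ℓ with hx
  have hx0 : 0 < x := Real.exp_pos _
  set z := zf ℓ with hz
  set L := Real.log (z : ℝ) with hL
  have hL1' : 1 ≤ L := by linarith [F.z1]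
  have hLpos : 0 < L := by linarith
  set ρ := c ^ 2 / (640 * k * n) * ℓ with hρ
  have hn0' : (0 : ℝ) < n := by exact_mod_cast hn0
  have hρ0 : 0 < ρ := by rw [hρ]; positivity
  set y := yy ℓ with hy
  have hyle : (y : ℝ) ≤ Real.exp (ℓ / 2) := yy_le ℓ
  -- exceptional prime
  obtain ⟨q₁, hq₁, hSP⟩ := hL3 ℓ l3
  obtain ⟨e, he, hexc⟩ := exc_prime 0 q₁ hq₁
  have he1 : 1 ≤ e := by
    rcases he with h | ⟨h, _⟩
    · omega
    · exact h.one_le
  set W := WW z e with hWdef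
  have hWpos : 0 < W := WW_pos z e
  have hWpos' : (0 : ℝ) < W := by exact_mod_cast hWpos
  have hφpos : (0 : ℝ) < (W.totient : ℝ) := by exact_mod_cast Nat.totient_pos.mpr hWpos
  -- the tuple
  set h : Fin k → ℕ := fun j => H.orderEmbOfFin hH j with hh
  have hinj : Function.Injective h := (H.orderEmbOfFin hH).injective
  have hmemH : ∀ j, h j ∈ H := fun j => Finset.orderEmbOfFin_mem H hH j
  have hTiff : ∀ i, i ∈ H ↔ ∃ j, h j = i := by
    intro i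
    have h1 := Finset.range_orderEmbOfFin H hH
    constructor
    · intro hi
      have h2 : i ∈ Set.range (H.orderEmbOfFin hH) := by rw [h1]; exact hi
      exact h2
    · rintro ⟨j, rfl⟩; exact hmemH j
  set t : ℕ := H.sup id + 1 with ht
  have htT : ∀ τ ∈ H, τ < t := by
    intro τ hτ
    have : τ ≤ H.sup id := Finset.le_sup (f := id) hτ
    omega
  have hhj : ∀ j, h j < t := fun j => htT _ (hmemH j)
  have hRSpos : 0 < RS ℓ := by
    have : 0 < 2 / cR := by positivity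
    linarith
  have hsup : ((H.sup id : ℕ) : ℝ) ≤ cR / 2 * RS ℓ := by
    rcases H.eq_empty_or_nonempty with hemp | hne
    · rw [hemp, Finset.sup_empty]
      simp only [bot_eq_zero', CharP.cast_eq_zero]
      positivity
    · obtain ⟨τ, hτ, hτs⟩ := Finset.exists_mem_eq_sup H hne id
      rw [hτs]
      exact hHle τ hτ
  have htle : (t : ℝ) ≤ cR * RS ℓ := by
    have h1 : 1 ≤ cR / 2 * RS ℓ := by
      rw [div_le_iff₀ hcR] at hRS1
      linarith
    rw [ht]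
    push_cast
    linarith
  have ht54 : (t : ℝ) ≤ ℓ ^ (5 / 4 : ℝ) := htle.trans hRS.2
  have ht2 : (t : ℝ) ≤ ℓ ^ 2 := by
    refine ht54.trans ?_
    calc ℓ ^ (5 / 4 : ℝ) ≤ ℓ ^ (2 : ℝ) :=
          Real.rpow_le_rpow_of_exponent_le (by linarith) (by norm_num)
      _ = ℓ ^ 2 := by norm_cast
  have hk1 : (1 : ℝ) ≤ k := by exact_mod_cast hk0
  have hkt : (k : ℝ) * t ≤ x / 100 := by
    have h1 := cube_div_six_le_exp (show 0 ≤ ℓ by linarith)
    have hkk : (k : ℝ) ≤ k ^ 2 := le_self_pow₀ hk1 (by norm_num)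
    have h2 : (k : ℝ) * ℓ ^ 2 ≤ ℓ ^ 3 / 6 / 100 := by
      have h3 : ℓ ^ 3 / 6 / 100 = (ℓ / 600) * ℓ ^ 2 := by ring
      rw [h3]
      apply mul_le_mul_of_nonneg_right _ (by positivity)
      linarith
    calc (k : ℝ) * t ≤ k * ℓ ^ 2 := mul_le_mul_of_nonneg_left ht2 hk0'.le
      _ ≤ ℓ ^ 3 / 6 / 100 := h2
      _ ≤ x / 100 := div_le_div_of_nonneg_right h1 (by norm_num)
  have htx : (t : ℝ) ≤ x / 100 := by
    have ht0 : (0 : ℝ) ≤ t := Nat.cast_nonneg _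
    have := le_mul_of_one_le_left ht0 hk1
    linarith
  have hix : ∀ i : ℕ, i ≤ t → (i : ℝ) ≤ x / 9 := by
    intro i hi
    have : (i : ℝ) ≤ t := by exact_mod_cast hi
    linarith
  -- the cover
  obtain ⟨a, ha, hunc⟩ := hcov e t H he1 hH.le htT hadm (htle.trans hRS.1)
  obtain ⟨A0, _, hA0⟩ := exists_crt z a
  set U := uncovT H z e t a with hU
  have hUt : ∀ i ∈ U, i < t ∧ i ∉ H := by
    intro i hi
    rw [hU] at hi
    unfold uncovT at hi
    rw [Finset.mem_filter, Finset.mem_range] at hi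
    exact ⟨hi.1, hi.2.1⟩
  have hcop : ∀ j, Nat.Coprime (A0 + h j) W := by
    intro j
    rw [hWdef]
    unfold WW
    apply Nat.Coprime.prod_right
    intro p hp
    rw [mem_WWset] at hp
    rw [Nat.coprime_comm, Nat.Prime.coprime_iff_not_dvd hp.1]
    intro hd
    have h1 := (dvd_add_iff_mod (hA0 p hp.1 hp.2.1)).mp hd
    exact ha p hp.1 hp.2.1 (h j) (hmemH j) (nd_dvd_iff.mp h1)
  -- the sieving set
  set P := PMT h n e ρ ℓ with hP
  have hPp : ∀ p ∈ P, p.Prime := fun p hp => (mem_PMT.mp hp).1.2.2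
  have hPz : ∀ p ∈ P, z < p := fun p hp => (mem_PMT.mp hp).1.1
  have hPe : ∀ p ∈ P, p ≠ e := fun p hp => (mem_PMT.mp hp).2.1
  have hceil : ⌈gY ρ (n - 1)⌉₊ ≤ y := ceil_le_yy hℓbig (F.gYle hk0 hn0 hc hc1 hk2n (by omega))
  have hPy : ∀ p ∈ P, p ≤ y := fun p hp => (mem_PMT.mp hp).1.2.1.trans hceil
  have hPsub : P ⊆ primesIoc z y := by
    intro p hp
    rw [mem_primesIoc]
    exact ⟨hPz p hp, hPy p hp, hPp p hp⟩
  have hPh : ∀ p ∈ P, ∀ j j', j ≠ j' → ¬ p ∣ nd (h j) (h j') := PMT_ndvd hinj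
  have hPW : ∀ p ∈ P, ¬ p ∣ W := by
    intro p hp hd
    have h1 := (prime_dvd_WW (hPp p hp)).mp hd
    have h2 := hPz p hp
    omega
  have hzbig := F.zbig
  have hk2sq : (0 : ℝ) ≤ (k : ℝ) ^ 2 := sq_nonneg _
  have hPk : ∀ p ∈ P, 2 * k + 2 < p := by
    intro p hp
    have h1 : ((2 * k + 2 : ℕ) : ℝ) < z := by
      push_cast
      linarith
    have h2 : 2 * k + 2 < z := by exact_mod_cast h1
    exact h2.trans (hPz p hp)
  have hWy : ∀ p, p.Prime → p ∣ W → p ≤ y := by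
    intro p hp hpW
    have := (prime_dvd_WW hp).mp hpW
    omega
  -- remainders
  obtain ⟨M, hM0, hMsum, hM⟩ := hL1 ℓ l1 q₁ hSP W hWpos (hW10 e).1 y hyle hWy z hL1' zy2 P hPsub hPW
    (exc_ok he hexc P (fun p hp => ⟨hPp p hp, hPz p hp, hPe p hp⟩))
  set B := (ℓ / c) ^ k with hB
  set B' := (ℓ / c) ^ ((k + 1) ^ 2) with hB'
  have hprodB : ∏ p ∈ P, (1 + (k : ℝ) / p) ≤ B :=
    prodk_le hc hcV z y F.z2' hL1' zy2 hyle hℓ0 hPsub k
  have hprodB' : ∏ p ∈ P, (1 + (((k + 1) ^ 2 : ℕ) : ℝ) / p) ≤ B' :=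
    prodk_le hc hcV z y F.z2' hL1' zy2 hyle hℓ0 hPsub ((k + 1) ^ 2)
  set E := x * ℓ ^ (-A) / (W.totient : ℝ) with hE
  have hE0 : 0 ≤ E := by positivity
  have hB0 : 0 ≤ B := by positivity
  -- one-dimensional sums
  have hHL := F.HL hk0 hn0 hc hcV h (fun j => (hhj j).le) ht2 e
  have hHU := F.HU hc hcV h e
  have hsig := F.sigma h e ρ
  have hzpos := F.z0
  have hσ1 : 160 * (k : ℝ) ^ 2 * ∑ p ∈ P, 1 / ((p : ℝ) - 1) ^ 2 ≤ 1 := by
    calc 160 * (k : ℝ) ^ 2 * ∑ p ∈ P, 1 / ((p : ℝ) - 1) ^ 2 ≤ 160 * (k : ℝ) ^ 2 * (2 / z) :=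
          mul_le_mul_of_nonneg_left hsig (by positivity)
      _ = 320 * (k : ℝ) ^ 2 / z := by ring
      _ ≤ 1 := by
          rw [div_le_one hzpos]
          linarith
  have hσ0 : 0 ≤ ∑ p ∈ P, 1 / ((p : ℝ) - 1) ^ 2 := Finset.sum_nonneg (fun p _ => by positivity)
  have hσ2 : (k : ℝ) * ∑ p ∈ P, 1 / ((p : ℝ) - 1) ^ 2 ≤ 1 / 4 := by
    have h1 : (k : ℝ) ≤ k ^ 2 := le_self_pow₀ hk1 (by norm_num)
    have h2 := mul_le_mul_of_nonneg_right h1 hσ0
    linarith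
  -- the three sums
  set Fn : ℕ → ℝ := Lam2 h P n ρ ℓ with hFn
  have hS2 : ∀ j : Fin k, XT ℓ y / (W.totient : ℝ) *
      (MT.A1 P (gst n ρ) ^ 2 * (MT.A2 P (gst n ρ) ^ (k - 1) / 2)) - B ^ 2 * E ≤
      ∑ ν ∈ S0 ℓ W A0, aw ℓ y (ν + h j) * Fn ν := by
    intro j
    exact S2_lower hPp hPk hk2 hc hc1 hLpos hℓ0 hn0 hk2n hρ hHL hHU hσ1 h hPh y W A0 j hPy
      (hix _ (hhj j).le) (hcop j) M hM0 hM B E hprodB hMsum
  have hS1 := S1_upper (n := n) (ρ := ρ) hk0 hPp (fun p hp => by have := hPk p hp; omega) hn0 hρ0.le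
    hℓ0.le h hPh W A0 hWpos hPW B B' hprodB hprodB'
  have hS3 : ∀ i ∈ U, ∑ ν ∈ S0 ℓ W A0, aw ℓ y (ν + i) * Fn ν ≤
      XT ℓ y / (W.totient : ℝ) * (8 * MT.A2 P (gst n ρ) ^ k) + B ^ 2 * E := by
    intro i hi
    obtain ⟨hit, hiH⟩ := hUt i hi
    have hih : ∀ j, i ≠ h j := by
      intro j hij
      exact hiH (hij ▸ hmemH j)
    exact S3_upper hPp hPk hk0 hℓ0.le hn0 hρ0.le h hPh y W A0 i
      (F.qqsum h e ρ (fun j => (hhj j).le) hit.le hih ht2) hσ2 hPy (hix i hit.le)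
      (Classical.em _) M hM0 hM B E hprodB hMsum hWy
  -- assembly
  have hA21 := A2_ge_one (P := P) hPp (n := n) hn0 hρ0.le
  have hApow : MT.A2 P (gst n ρ) ^ k = MT.A2 P (gst n ρ) ^ (k - 1) * MT.A2 P (gst n ρ) := by
    rw [← pow_succ]; congr 1; omega
  have hcore := core_num (x := x) (ℓ := ℓ) (L := L) (φ := (W.totient : ℝ)) (W := (W : ℝ)) (X := XT ℓ y)
    (A1 := MT.A1 P (gst n ρ)) (A2 := MT.A2 P (gst n ρ)) (Ap := MT.A2 P (gst n ρ) ^ (k - 1)) (ρ := ρ)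
    (c := c) (m := (m : ℝ)) (n := (n : ℝ)) (k := (k : ℝ)) (u := (#U : ℝ))
    (e1 := B ^ 2 * (3 * ℓ * (Real.exp ((1 / 2 - 1 / 10) * ℓ) * B'))) (e2 := B ^ 2 * E)
    (S1 := ∑ ν ∈ S0 ℓ W A0, ℓ * Fn ν)
    (S2 := ∑ j, ∑ ν ∈ S0 ℓ W A0, aw ℓ y (ν + h j) * Fn ν)
    (S3 := ∑ i ∈ U, ∑ ν ∈ S0 ℓ W A0, aw ℓ y (ν + i) * Fn ν)
    hx0 hℓ0 hLpos hφpos hWpos' hc hc1 (by exact_mod_cast hm) hn0' hk0' (Nat.cast_nonneg _)
    (by
      have h1 := A1_lower (c1 := c / 4) (L := L) (P := P) hn0 hρ0.le (by positivity) hLpos hHL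
      refine le_trans (le_of_eq ?_) h1
      field_simp; norm_num)
    (by
      have h1 := A2_upper (C1 := 1 / c) (L := L) (P := P) hn0 hρ0.le (by positivity) hLpos hHU
      refine le_trans h1 (le_of_eq ?_)
      field_simp)
    hA21 (one_le_pow₀ hA21)
    (by
      have h1 := hXge y (by
        refine hyle.trans ?_
        have h2 : x = Real.exp (ℓ / 2) * Real.exp (ℓ / 2) := by
          rw [hx, ← Real.exp_add]; congr 1; ring
        have h3 : 100 ≤ Real.exp (ℓ / 2) := by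
          have := Real.add_one_le_exp (ℓ / 2); linarith
        rw [le_div_iff₀ (by norm_num)]
        calc Real.exp (ℓ / 2) * 100 ≤ Real.exp (ℓ / 2) * Real.exp (ℓ / 2) :=
              mul_le_mul_of_nonneg_left h3 (Real.exp_pos _).le
          _ = x := h2.symm)
      unfold XT
      linarith)
    (totient_WW_le z e F.z2') hρ hnm
    (by
      have h1 : (k : ℝ) * #U ≤ z * L ^ 2 := by
        calc (k : ℝ) * #U ≤ k * (1 / k * (z * L ^ 2)) := mul_le_mul_of_nonneg_left hunc hk0'.le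
          _ = _ := by field_simp
      refine h1.trans ?_
      rw [le_div_iff₀ hLpos]
      calc z * L ^ 2 * L = z * L ^ 3 := by ring
        _ ≤ ℓ := F.z3)
    (by
      rw [le_div_iff₀ (by positivity), one_mul]
      have h1 : L ≤ Real.log ℓ := F.z2
      have h2 : L ^ 2 ≤ Real.log ℓ ^ 2 := pow_le_pow_left₀ hLpos.le h1 2
      have h3 : ℓ ^ (1 / 2 : ℝ) ≤ ℓ * ℓ := by
        calc ℓ ^ (1 / 2 : ℝ) ≤ ℓ ^ (1 : ℝ) := Real.rpow_le_rpow_of_exponent_le (by linarith) (by norm_num)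
          _ = ℓ := Real.rpow_one ℓ
          _ ≤ ℓ * ℓ := le_mul_of_one_le_left hℓ0.le (by linarith)
      calc L ^ 2 ≤ c ^ 2 / (640 * k * n) * ℓ ^ (1 / 2 : ℝ) := h2.trans hΘ
        _ ≤ c ^ 2 / (640 * k * n) * (ℓ * ℓ) := mul_le_mul_of_nonneg_left h3 (by positivity)
        _ = ρ * ℓ := by rw [hρ]; ring)
    (by
      have h1 := herr (W.totient : ℝ) (W : ℝ) hφpos (by exact_mod_cast Nat.totient_le W) (hW10 e).2
      refine le_trans ?_ h1
      apply add_le_add _ le_rfl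
      apply mul_le_mul_of_nonneg_right _ (by positivity)
      have h2 : (k : ℝ) * #U ≤ ℓ ^ 2 := by
        have h3 : (k : ℝ) * #U ≤ z * L ^ 2 := by
          calc (k : ℝ) * #U ≤ k * (1 / k * (z * L ^ 2)) := mul_le_mul_of_nonneg_left hunc hk0'.le
            _ = _ := by field_simp
        have h4 : (z : ℝ) * L ^ 2 ≤ z * L ^ 3 := by
          apply mul_le_mul_of_nonneg_left _ hzpos.le
          exact pow_le_pow_right₀ hL1' (by norm_num)
        have h5 : ℓ ≤ ℓ ^ 2 := le_self_pow₀ (by linarith) (by norm_num)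
        linarith [F.z3]
      linarith)
    (by
      have h1 : ∑ _j : Fin k, (XT ℓ y / (W.totient : ℝ) *
          (MT.A1 P (gst n ρ) ^ 2 * (MT.A2 P (gst n ρ) ^ (k - 1) / 2)) - B ^ 2 * E) ≤
          ∑ j, ∑ ν ∈ S0 ℓ W A0, aw ℓ y (ν + h j) * Fn ν := Finset.sum_le_sum (fun j _ => hS2 j)
      rw [Finset.sum_const, Finset.card_univ, Fintype.card_fin, nsmul_eq_mul] at h1
      exact h1)
    (by
      rw [← hApow]
      exact hS1)
    (by
      have h1 : ∑ i ∈ U, ∑ ν ∈ S0 ℓ W A0, aw ℓ y (ν + i) * Fn ν ≤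
          ∑ _i ∈ U, (XT ℓ y / (W.totient : ℝ) * (8 * MT.A2 P (gst n ρ) ^ k) + B ^ 2 * E) :=
        Finset.sum_le_sum hS3
      rw [Finset.sum_const, nsmul_eq_mul, hApow] at h1
      exact h1)
  rw [← sum_brk] at hcore
  -- counting
  have hcount := count_pos (S0 ℓ W A0) Fn ℓ hℓ0.le y m h U (fun ν _ => Lam2_nonneg _ _ _ _ _ _)
    (Real.exp (8 * k * (ℓ / L)) * B ^ 2) (by positivity)
    (by
      intro ν hν
      unfold S0 at hν
      rw [Finset.mem_filter, Finset.mem_Ioc] at hν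
      apply Lam2_le h P hPp z ν hL1' hPz hν.1.1 (by linarith) _ _ hn0 hρ0.le B hprodB
      · exact (Nat.le_floor_iff hx0.le).mp hν.1.2
      · intro j
        have := hix _ (hhj j).le
        linarith)
    (MG m ℓ H)
    (by
      intro ν hν hpos
      unfold S0 at hν
      rw [Finset.mem_filter] at hν
      have h1 := bracket_pos (by linarith) hm h H hTiff z e t y A0 a hA0 hhj hyle zy2 hkt hk0 ν hν.2 hpos
      unfold MG
      rw [Finset.mem_filter]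
      refine ⟨hν.1, ?_, ?_⟩
      · refine h1.1.trans ?_
        have h2 : (Finset.univ.filter (fun j : Fin k => (ν + h j).Prime ∧ ν + h j ≤ ⌊Real.exp ℓ⌋₊)).image h ⊆
            H.filter (fun τ => (ν + τ).Prime ∧ ν + τ ≤ ⌊Real.exp ℓ⌋₊) := by
          intro τ hτ
          rw [Finset.mem_image] at hτ
          obtain ⟨j, hj, rfl⟩ := hτ
          rw [Finset.mem_filter] at hj ⊢
          exact ⟨hmemH j, hj.2⟩
        have h3 := Finset.card_le_card h2
        rwa [Finset.card_image_of_injective _ hinj] at h3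
      · intro i hi hiH
        exact h1.2 i (by omega) hiH)
  have hfinal := hfin (W : ℝ) L hWpos' (hWε e).2 (by
    have h1 := F.z6
    calc Real.log ℓ / 2 = Real.log (ℓ ^ (1 / 2 : ℝ)) := by rw [Real.log_rpow hℓ0]; ring
      _ ≤ L := Real.log_le_log (by positivity) h1)
  have hφW : x / (100 * W) ≤ x / (100 * (W.totient : ℝ)) := by
    apply div_le_div_of_nonneg_left hx0.le (by positivity)
    have : (W.totient : ℝ) ≤ W := by exact_mod_cast Nat.totient_le W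
    linarith
  have hchain : Real.exp ((1 - ε) * ℓ) * (k * ℓ * (Real.exp (8 * k * (ℓ / L)) * B ^ 2)) ≤
      #(MG m ℓ H) * (k * ℓ * (Real.exp (8 * k * (ℓ / L)) * B ^ 2)) :=
    hfinal.trans (hφW.trans (hcore.trans hcount))
  have hBpos : 0 < B := by positivity
  exact le_of_mul_le_mul_right hchain (by positivity)

end Pool.Agent.H16
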