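import Pool.Agent.H16.EB3

/-!
Total remainders at level one half for primes, supremum over the residue classes.
-/

set_option autoImplicit false

open Complex Finset Filter Topology
open scoped ComplexConjugate
open ArithmeticFunction (vonMangoldt moebius)
open DirichletCharacter

namespace Pool.Agent.H16

open scoped Classical in
/-- **Total remainder, primes, level one half, supremum over the residues.** -/
theorem RP_sup (κ : ℝ) (hκ : 0 < κ) (hκ1 : κ ≤ 1 / 4) (A : ℝ) (hA : 0 ≤ A) :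
    ∃ L0 : ℝ, ∀ ℓ : ℝ, L0 ≤ ℓ → ∀ q₁ : ℕ, SmallProp (A + 1 + 4) (A + 1 + 3 + 12) ℓ q₁ →
    ∀ W : ℕ, 1 ≤ W → Real.log W ≤ ℓ / (2 * (Real.log ℓ) ^ 2) →
    ∀ y : ℕ, (y : ℝ) ≤ Real.exp (ℓ / 2) → (∀ p, p.Prime → p ∣ W → p ≤ y) →
    ∀ P : Finset ℕ, (∀ p ∈ P, p.Prime) → (∀ p ∈ P, p ≤ y) →
    (∀ p ∈ P, ¬ p ∣ W) → (∀ D ⊆ P, ¬ q₁ ∣ W * ∏ p ∈ D, p) →
    ∃ G : Finset ℕ → ℝ, (∀ D, D ⊆ P → 0 ≤ G D) ∧
      ∑ D ∈ lev P (Real.exp ((1 / 2 - κ) * ℓ)), G D ≤
        Real.exp ℓ * ℓ ^ (-A) / (W.totient : ℝ) * ∏ p ∈ P, (1 + 1 / ((p : ℝ) - 1)) ∧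
      ∀ (A0 : ℕ) (b : ℕ → ℕ), Nat.Coprime A0 W →
        ∀ D ∈ lev P (Real.exp ((1 / 2 - κ) * ℓ)), (∀ p ∈ D, ¬ p ∣ b p) →
        |RD ((Ioc 0 ⌊Real.exp ℓ⌋₊).filter (fun n => n ≡ A0 [MOD W])) (aw ℓ y) (cb b)
          ((∑ n ∈ Ioc 0 ⌊Real.exp ℓ⌋₊, aw ℓ y n) / (W.totient : ℝ)) (fun p => 1 / ((p : ℝ) - 1)) D| ≤
          G D := by
  obtain ⟨L1, hL1⟩ := ANP κ hκ hκ1 (A + 1) (by linarith)
  obtain ⟨L2, hL2⟩ := Filter.eventually_atTop.mp ((ev_W_small (κ / 4) (by positivity)).and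
    ((ev_exp_pow (κ / 2) (A + 3) 8 (by positivity) (by norm_num)).and (eventually_ge_atTop (2 : ℝ))))
  refine ⟨max L1 L2, fun ℓ hℓ q₁ hq W hW1 hW y hy hWy P hP hPy hPW hPq => ?_⟩
  obtain ⟨hWs, cxp0, hℓ2⟩ := hL2 ℓ ((le_max_right _ _).trans hℓ)
  have hℓ0 : 0 < ℓ := by linarith
  have hW' := hWs W hW1 hW
  have hφpos : (0 : ℝ) < (W.totient : ℝ) := by exact_mod_cast Nat.totient_pos.mpr hW1
  set N := ⌊Real.exp ℓ⌋₊ with hN
  set Y := Real.exp ((1 / 2 - κ) * ℓ) with hY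
  have hYpos : 0 < Y := Real.exp_pos _
  have hYhalf : Y ≤ Real.exp (ℓ / 2) := by
    apply Real.exp_le_exp.mpr
    nlinarith
  have hmem : ∀ D ∈ lev P Y, D ⊆ P ∧ ((∏ p ∈ D, p : ℕ) : ℝ) ≤ Y := fun D hD => mem_lev.mp hD
  have hDp : ∀ D ∈ lev P Y, ∀ p ∈ D, p.Prime := fun D hD p hp => hP p ((hmem D hD).1 hp)
  set f : Finset ℕ → ℝ := fun D => ∑ ξ ∈ fam W (∏ p ∈ D, p), ‖So ℓ y ξ‖ with hf
  have hH0 : 0 ≤ Real.exp ℓ * ℓ ^ (-A) := by positivity
  -- the analytic bound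
  have key : ∑ D ∈ lev P Y, (∏ p ∈ D, 1 / ((p : ℝ) - 1)) * f D ≤ Real.exp ℓ * ℓ ^ (-A) := by
    set Ep : ℝ := 2 * √(Real.exp ℓ) * ℓ + Real.log 4 * y with hEp
    have hlog4 : 0 ≤ Real.log 4 := Real.log_nonneg (by norm_num)
    have hlog4' : Real.log 4 ≤ 2 := by
      have : Real.log 4 = 2 * Real.log 2 := by
        rw [show (4 : ℝ) = 2 ^ 2 by norm_num, Real.log_pow]; push_cast; ring
      have h2 := Real.log_two_lt_d9
      linarith
    have hsq : √(Real.exp ℓ) = Real.exp (ℓ / 2) := by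
      rw [Real.sqrt_eq_iff_mul_self_eq (Real.exp_pos _).le (Real.exp_pos _).le, ← Real.exp_add]
      congr 1; ring
    have hEp0 : 0 ≤ Ep := by positivity
    have hEple : Ep ≤ 4 * ℓ * Real.exp (ℓ / 2) := by
      rw [hEp, hsq]
      have h1 : Real.log 4 * y ≤ 2 * Real.exp (ℓ / 2) :=
        mul_le_mul hlog4' hy (Nat.cast_nonneg _) (by norm_num)
      have h2 : 2 * Real.exp (ℓ / 2) ≤ 2 * ℓ * Real.exp (ℓ / 2) := by
        apply mul_le_mul_of_nonneg_right _ (Real.exp_pos _).le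
        linarith
      linarith
    set S : (d : ℕ) → ℝ := fun d => ∑ ξ ∈ fam W d, ‖∑ n ∈ Ioc 0 N,
      (ξ (n : ℕ) * LamC n) * ((tent (Real.exp ℓ / 3) n : ℝ) : ℂ)‖ with hS
    have hg0 : ∀ D ∈ lev P Y, 0 ≤ ∏ p ∈ D, 1 / ((p : ℝ) - 1) := by
      intro D hD
      apply Finset.prod_nonneg
      intro p hp
      have : (2 : ℝ) ≤ p := by exact_mod_cast (hDp D hD p hp).two_le
      exact div_nonneg zero_le_one (by linarith)
    have hgl : ∀ D ∈ lev P Y, ∏ p ∈ D, 1 / ((p : ℝ) - 1) ≤ ℓ ^ 2 / ((∏ p ∈ D, p : ℕ) : ℝ) := by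
      intro D hD
      exact gD_le D (hDp D hD) ℓ hℓ2 ((hmem D hD).2.trans hYhalf)
    have hppos : ∀ D ∈ lev P Y, (0 : ℝ) < ((∏ p ∈ D, p : ℕ) : ℝ) := by
      intro D hD
      exact_mod_cast Finset.prod_pos (fun p hp => (hDp D hD p hp).pos)
    have h1 : ∀ D ∈ lev P Y, (∏ p ∈ D, 1 / ((p : ℝ) - 1)) * f D ≤
        (∏ p ∈ D, 1 / ((p : ℝ) - 1)) * S (∏ p ∈ D, p) + ℓ ^ 2 * Real.exp (κ / 4 * ℓ) * Ep := by
      intro D hD
      have h2 : f D ≤ S (∏ p ∈ D, p) + (#(fam W (∏ p ∈ D, p)) : ℝ) * Ep := by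
        rw [hf, hS]
        simp only
        rw [← nsmul_eq_mul, ← Finset.sum_const, ← Finset.sum_add_distrib]
        exact Finset.sum_le_sum (fun ξ _ => So_le ℓ hℓ0.le y ξ)
      have h3 := card_fam_prod_le W hW1 D (hDp D hD)
      have h6 := mul_le_mul_of_nonneg_left h2 (hg0 D hD)
      have h7 : (∏ p ∈ D, 1 / ((p : ℝ) - 1)) * ((#(fam W (∏ p ∈ D, p)) : ℝ) * Ep) ≤
          (ℓ ^ 2 / ((∏ p ∈ D, p : ℕ) : ℝ)) * ((W * ((∏ p ∈ D, p : ℕ) : ℝ)) * Ep) := by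
        apply mul_le_mul (hgl D hD) (mul_le_mul_of_nonneg_right h3 hEp0) (by positivity) (by positivity)
      have h8 : (ℓ ^ 2 / ((∏ p ∈ D, p : ℕ) : ℝ)) * ((W * ((∏ p ∈ D, p : ℕ) : ℝ)) * Ep) =
          ℓ ^ 2 * W * Ep := by
        have := (hppos D hD).ne'
        field_simp
      have h9 : ℓ ^ 2 * W * Ep ≤ ℓ ^ 2 * Real.exp (κ / 4 * ℓ) * Ep := by
        apply mul_le_mul_of_nonneg_right _ hEp0
        exact mul_le_mul_of_nonneg_left hW' (by positivity)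
      rw [mul_add] at h6
      linarith
    refine (Finset.sum_le_sum h1).trans ?_
    rw [Finset.sum_add_distrib, Finset.sum_const, nsmul_eq_mul]
    have hcard𝒟 : (#(lev P Y) : ℝ) ≤ Y := card_D_le _ hDp Y hYpos.le (fun D hD => (hmem D hD).2)
    have hb2 : (#(lev P Y) : ℝ) * (ℓ ^ 2 * Real.exp (κ / 4 * ℓ) * Ep) ≤
        Real.exp ℓ * (ℓ ^ (-A) / 2) := by
      calc (#(lev P Y) : ℝ) * (ℓ ^ 2 * Real.exp (κ / 4 * ℓ) * Ep) ≤
          Y * (ℓ ^ 2 * Real.exp (κ / 4 * ℓ) * (4 * ℓ * Real.exp (ℓ / 2))) := by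
            apply mul_le_mul hcard𝒟 _ (by positivity) hYpos.le
            exact mul_le_mul_of_nonneg_left hEple (by positivity)
        _ = 4 * ℓ ^ 3 * (Y * Real.exp (κ / 4 * ℓ) * Real.exp (ℓ / 2)) := by ring
        _ = 4 * ℓ ^ 3 * (Real.exp ℓ * Real.exp (-(3 * κ / 4) * ℓ)) := by
            rw [hY, ← Real.exp_add, ← Real.exp_add, ← Real.exp_add]
            congr 2; ring
        _ ≤ 4 * ℓ ^ 3 * (Real.exp ℓ * Real.exp (-(κ / 2 * ℓ))) := by
            apply mul_le_mul_of_nonneg_left _ (by positivity)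
            apply mul_le_mul_of_nonneg_left _ (Real.exp_pos _).le
            apply Real.exp_le_exp.mpr
            nlinarith
        _ = Real.exp ℓ * (ℓ ^ (-A) / 2) * (8 * ℓ ^ (A + 3) * Real.exp (-(κ / 2 * ℓ))) := by
            have e1 : ℓ ^ (A + 3) = ℓ ^ A * ℓ ^ 3 := by
              rw [Real.rpow_add hℓ0]
              congr 1
              norm_cast
            have e2 : ℓ ^ (-A) * ℓ ^ A = 1 := by
              rw [← Real.rpow_add hℓ0]; simp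
            rw [e1]
            calc 4 * ℓ ^ 3 * (Real.exp ℓ * Real.exp (-(κ / 2 * ℓ))) =
                4 * ℓ ^ 3 * (Real.exp ℓ * Real.exp (-(κ / 2 * ℓ))) * 1 := by ring
              _ = 4 * ℓ ^ 3 * (Real.exp ℓ * Real.exp (-(κ / 2 * ℓ))) * (ℓ ^ (-A) * ℓ ^ A) := by
                  rw [e2]
              _ = _ := by ring
        _ ≤ Real.exp ℓ * (ℓ ^ (-A) / 2) * 1 :=
            mul_le_mul_of_nonneg_left cxp0 (by positivity)
        _ = _ := mul_one _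
    have hb1 : ∑ D' ∈ lev P Y, (∏ p ∈ D', 1 / ((p : ℝ) - 1)) * S (∏ p ∈ D', p) ≤
        Real.exp ℓ * (ℓ ^ (-A) / 2) := by
      have hinj := prod_injOn (lev P Y) hDp
      have h2 : ∀ D' ∈ lev P Y, (∏ p ∈ D', 1 / ((p : ℝ) - 1)) * S (∏ p ∈ D', p) =
          (fun d : ℕ => 1 / (d.totient : ℝ) * S d) (∏ p ∈ D', p) := by
        intro D' hD'
        simp only
        rw [totient_prod_primes D' (hDp D' hD'), Finset.prod_div_distrib, Finset.prod_const_one]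
      rw [Finset.sum_congr rfl h2, ← Finset.sum_image (f := fun d : ℕ => 1 / (d.totient : ℝ) * S d) hinj]
      have h3 := hL1 ℓ ((le_max_left _ _).trans hℓ) q₁ (hq.mono (by linarith) (by linarith)) W hW1 hW
        ((lev P Y).image (fun D : Finset ℕ => ∏ p ∈ D, p))
        (fun d => 1 / (d.totient : ℝ)) (by
          intro d hd
          rw [Finset.mem_image] at hd
          obtain ⟨D, hD, rfl⟩ := hd
          obtain ⟨k1, k2⟩ := hmem D hD
          have kp := hDp D hD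
          refine ⟨Finset.prod_pos (fun p hp => (kp p hp).pos), k2, ?_, hPq D k1, by positivity, ?_⟩
          · apply Nat.Coprime.prod_left
            intro p hp
            exact (Nat.Prime.coprime_iff_not_dvd (kp p hp)).mpr (hPW p (k1 hp))
          · have h5 := hgl D hD
            rw [Finset.prod_div_distrib, Finset.prod_const_one, ← totient_prod_primes D kp] at h5
            exact h5)
      have h4 : ∀ d, S d = ∑ ξ ∈ fam W d, ‖∑ n ∈ Finset.Icc 1 ⌊Real.exp ℓ⌋₊,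
          (ξ (n : ℕ) * LamC n) * ((tent (Real.exp ℓ / 3) n : ℝ) : ℂ)‖ := by
        intro d
        rw [hS]
        simp only
        rw [Icc_one_eq_Ioc]
      refine le_trans (le_of_eq ?_) (h3.trans ?_)
      · apply Finset.sum_congr rfl
        intro d _
        rw [h4]
      · apply mul_le_mul_of_nonneg_left _ (Real.exp_pos _).le
        rw [show -(A + 1) = -A - 1 by ring, Real.rpow_sub hℓ0, Real.rpow_one]
        exact div_le_div_of_nonneg_left (by positivity) (by norm_num) hℓ2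
    calc _ ≤ Real.exp ℓ * (ℓ ^ (-A) / 2) + Real.exp ℓ * (ℓ ^ (-A) / 2) := add_le_add hb1 hb2
      _ = _ := by ring
  have hwr : ∀ D ∈ lev P Y, wr (aw ℓ y) (∏ p ∈ D, p) = aw ℓ y := by
    intro D hD
    apply wr_aw
    exact prime_dvd_prod_le D (hDp D hD) y (fun p hp => hPy p ((hmem D hD).1 hp))
  have hg0P : ∀ p ∈ P, 0 ≤ 1 / ((p : ℝ) - 1) := by
    intro p hp
    have : (2 : ℝ) ≤ p := by exact_mod_cast (hP p hp).two_le
    exact div_nonneg zero_le_one (by linarith)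
  refine ⟨fun D => 1 / (W.totient : ℝ) * ((∏ p ∈ D, 1 / ((p : ℝ) - 1)) *
    ∑ D' ∈ D.powerset, f D'), ?_, ?_, ?_⟩
  · intro D hDP
    apply mul_nonneg (by positivity)
    apply mul_nonneg (Finset.prod_nonneg (fun p hp => hg0P p (hDP hp)))
    exact Finset.sum_nonneg (fun D' _ => Finset.sum_nonneg (fun _ _ => norm_nonneg _))
  · simp only
    rw [← Finset.mul_sum]
    have hpairs := sum_powerset_pairs2 P (lev P Y) (Finset.filter_subset _ _) (lev_down P hP Y)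
      (fun p => 1 / ((p : ℝ) - 1)) hg0P (fun D _ => f D)
      (fun D _ => Finset.sum_nonneg (fun _ _ => norm_nonneg _)) (Real.exp ℓ * ℓ ^ (-A))
      (fun R _ => key) hH0
    calc 1 / (W.totient : ℝ) * ∑ D ∈ lev P Y, (∏ p ∈ D, 1 / ((p : ℝ) - 1)) *
          ∑ D' ∈ D.powerset, f D'
        ≤ 1 / (W.totient : ℝ) * (Real.exp ℓ * ℓ ^ (-A) * ∏ p ∈ P, (1 + 1 / ((p : ℝ) - 1))) :=
          mul_le_mul_of_nonneg_left hpairs (by positivity)
      _ = _ := by ring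
  · intro A0 b hA0 D hD hb
    have h2 := RDw_le N (aw ℓ y) W A0 b D (hDp D hD) hW1
      (fun n hn => aw_ne_zero_coprime ℓ y n W hWy hn) (fun p hp => hPW p ((hmem D hD).1 hp)) hA0 hb
    rw [hwr D hD] at h2
    have h3 : RD ((Ioc 0 N).filter (fun n => n ≡ A0 [MOD W])) (aw ℓ y) (cb b)
        ((∑ n ∈ Ioc 0 N, aw ℓ y n) / (W.totient : ℝ)) (fun p => 1 / ((p : ℝ) - 1)) D =
        AD ((Ioc 0 N).filter (fun n => n ≡ A0 [MOD W])) (aw ℓ y) (cb b) D -
        (1 / (W.totient : ℝ) * ∏ p ∈ D, 1 / ((p : ℝ) - 1)) * ∑ n ∈ Ioc 0 N, aw ℓ y n := by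
      unfold RD
      ring
    rw [h3]
    refine h2.trans (le_of_eq ?_)
    simp only [hf]
    rw [mul_assoc]
    congr 2
    apply Finset.sum_congr rfl
    intro D' hD'
    rw [Finset.mem_powerset] at hD'
    have h4 : D \ D' ∈ lev P Y := lev_down P hP Y D hD _ Finset.sdiff_subset
    apply Finset.sum_congr rfl
    intro ξ _
    rw [hwr _ h4]
    rfl

end Pool.Agent.H16
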