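import Pool.Agent.H16.MT3
import Pool.Agent.H16.CH3

/-!
Total remainders with multiplicities: Cauchy-Schwarz between the level one half bound and the
trivial bound.
-/

set_option autoImplicit false

open Finset Filter Topology

namespace Pool.Agent.H16

/-- counting a residue class in `(0, N]` -/
lemma card_class_le (N q r : ℕ) (hq : 0 < q) :
    (#((Ioc 0 N).filter (fun n => n ≡ r [MOD q])) : ℝ) ≤ (N : ℝ) / q + 2 := by
  have h := count_modEq_bound q hq r (N + 1)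
  have h1 : (#((Ioc 0 N).filter (fun n => n ≡ r [MOD q])) : ℝ) ≤
      ∑ k ∈ range (N + 1), if k % q = r % q then (1 : ℝ) else 0 := by
    rw [Finset.sum_ite, Finset.sum_const_zero, add_zero, Finset.sum_const, nsmul_eq_mul, mul_one]
    have : #((Ioc 0 N).filter (fun n => n ≡ r [MOD q])) ≤
        #((range (N + 1)).filter (fun k => k % q = r % q)) := by
      apply Finset.card_le_card
      intro n hn
      rw [Finset.mem_filter, Finset.mem_Ioc] at hn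
      rw [Finset.mem_filter, Finset.mem_range]
      exact ⟨by omega, hn.2⟩
    exact_mod_cast this
  have h2 := (abs_le.mp h).2
  have hq' : (1 : ℝ) ≤ q := by exact_mod_cast hq
  have h3 : ((N + 1 : ℕ) : ℝ) / q ≤ (N : ℝ) / q + 1 := by
    push_cast
    rw [add_div]
    have : (1 : ℝ) / q ≤ 1 := by rw [div_le_one (by linarith)]; exact hq'
    linarith
  linarith

/-- trivial bound for the remainders -/
lemma RD_trivial {ℓ : ℝ} (hℓ : 0 ≤ ℓ) (y W A0 : ℕ) (hW1 : 1 ≤ W) (b : ℕ → ℕ) (D : Finset ℕ)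
    (hD : ∀ p ∈ D, p.Prime) (hDW : ∀ p ∈ D, ¬ p ∣ W)
    (hsize : (W : ℝ) * ((∏ p ∈ D, p : ℕ) : ℝ) ≤ Real.exp ℓ) :
    |RD ((Ioc 0 ⌊Real.exp ℓ⌋₊).filter (fun n => n ≡ A0 [MOD W])) (aw ℓ y) (cb b)
        ((∑ n ∈ Ioc 0 ⌊Real.exp ℓ⌋₊, aw ℓ y n) / (W.totient : ℝ)) (fun p => 1 / ((p : ℝ) - 1)) D| ≤
      3 * ℓ * Real.exp ℓ / (W.totient : ℝ) * ∏ p ∈ D, 1 / ((p : ℝ) - 1) := by
  set N := ⌊Real.exp ℓ⌋₊ with hN
  have hNx : (N : ℝ) ≤ Real.exp ℓ := Nat.floor_le (Real.exp_pos _).le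
  set d := ∏ p ∈ D, p with hd
  have hdpos : 0 < d := Finset.prod_pos (fun p hp => (hD p hp).pos)
  have hcop : Nat.Coprime W d := by
    rw [hd]
    apply Nat.Coprime.prod_right
    intro p hp
    exact ((Nat.Prime.coprime_iff_not_dvd (hD p hp)).mpr (hDW p hp)).symm
  obtain ⟨b1, hb1⟩ := exists_class D hD b
  obtain ⟨b0, hb0W, hb0d⟩ := Nat.chineseRemainder hcop A0 b1
  have hφpos : (0 : ℝ) < (W.totient : ℝ) := by exact_mod_cast Nat.totient_pos.mpr hW1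
  have hWpos : (0 : ℝ) < W := by exact_mod_cast hW1
  have hdpos' : (0 : ℝ) < d := by exact_mod_cast hdpos
  have hg0 : 0 ≤ ∏ p ∈ D, 1 / ((p : ℝ) - 1) := by
    apply Finset.prod_nonneg
    intro p hp
    have : (2 : ℝ) ≤ p := by exact_mod_cast (hD p hp).two_le
    exact div_nonneg zero_le_one (by linarith)
  have hawle : ∀ n ∈ Ioc 0 N, aw ℓ y n ≤ ℓ := by
    intro n hn
    rw [Finset.mem_Ioc] at hn
    by_cases hp : n.Prime
    · exact aw_le ℓ y n hn.2 hp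
    · unfold aw
      rw [if_neg (by tauto)]
      exact hℓ
  -- the sifted sum
  have hAD : AD ((Ioc 0 N).filter (fun n => n ≡ A0 [MOD W])) (aw ℓ y) (cb b) D ≤
      ℓ * ((N : ℝ) / ((W * d : ℕ) : ℝ) + 2) := by
    have h1 : AD ((Ioc 0 N).filter (fun n => n ≡ A0 [MOD W])) (aw ℓ y) (cb b) D ≤
        ∑ n ∈ (Ioc 0 N).filter (fun n => n ≡ b0 [MOD W * d]), ℓ := by
      unfold AD
      rw [Finset.sum_filter, Finset.sum_filter]
      apply Finset.sum_le_sum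
      intro n hn
      have e1 : (∏ p ∈ D, cb b n p) = if ∀ p ∈ D, n ≡ b p [MOD p] then 1 else 0 := by
        unfold cb
        rw [Finset.prod_ite_zero]
        simp
      rw [e1]
      by_cases h : n ≡ b0 [MOD W * d]
      · rw [if_pos h]
        split_ifs
        · rw [mul_one]; exact hawle n hn
        · rw [mul_zero]; exact hℓ
        · exact hℓ
      · rw [if_neg h]
        split_ifs with h3 h4
        · exfalso
          apply h
          rw [← Nat.modEq_and_modEq_iff_modEq_mul hcop]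
          refine ⟨h3.trans hb0W.symm, ?_⟩
          rw [hd, modEq_prod_iff D hD]
          intro p hp
          exact (h4 p hp).trans ((hb1 p hp).symm.trans
            (((modEq_prod_iff D hD b0 b1).mp hb0d p hp)).symm)
        · rw [mul_zero]
        · exact le_rfl
    refine h1.trans ?_
    rw [Finset.sum_const, nsmul_eq_mul, mul_comm]
    exact mul_le_mul_of_nonneg_left (card_class_le N (W * d) b0 (Nat.mul_pos hW1 hdpos)) hℓ
  have hAD0 : 0 ≤ AD ((Ioc 0 N).filter (fun n => n ≡ A0 [MOD W])) (aw ℓ y) (cb b) D := by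
    unfold AD
    apply Finset.sum_nonneg
    intro n _
    exact mul_nonneg (aw_nonneg _ _ _) (Finset.prod_nonneg (fun p _ => cb_nonneg b n p))
  have hinv : 1 / ((W : ℝ) * d) ≤ 1 / (W.totient : ℝ) * ∏ p ∈ D, 1 / ((p : ℝ) - 1) := by
    have h1 : (1 : ℝ) / W ≤ 1 / (W.totient : ℝ) :=
      one_div_le_one_div_of_le hφpos (by exact_mod_cast Nat.totient_le W)
    have h2 : 1 / (d : ℝ) ≤ ∏ p ∈ D, 1 / ((p : ℝ) - 1) := by
      rw [hd]
      push_cast
      rw [one_div, ← Finset.prod_inv_distrib]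
      apply Finset.prod_le_prod
      · intro p _; positivity
      · intro p hp
        have : (2 : ℝ) ≤ p := by exact_mod_cast (hD p hp).two_le
        rw [← one_div]
        exact one_div_le_one_div_of_le (by linarith) (by linarith)
    calc 1 / ((W : ℝ) * d) = 1 / W * (1 / d) := by field_simp
      _ ≤ _ := mul_le_mul h1 h2 (by positivity) (by positivity)
  have hAD2 : AD ((Ioc 0 N).filter (fun n => n ≡ A0 [MOD W])) (aw ℓ y) (cb b) D ≤
      3 * ℓ * Real.exp ℓ / (W.totient : ℝ) * ∏ p ∈ D, 1 / ((p : ℝ) - 1) := by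
    refine hAD.trans ?_
    have h1 : (N : ℝ) / ((W * d : ℕ) : ℝ) + 2 ≤ 3 * Real.exp ℓ * (1 / ((W : ℝ) * d)) := by
      push_cast
      have h2 : (N : ℝ) / ((W : ℝ) * d) ≤ Real.exp ℓ / ((W : ℝ) * d) := by gcongr
      have h3 : (2 : ℝ) ≤ 2 * (Real.exp ℓ / ((W : ℝ) * d)) := by
        have : 1 ≤ Real.exp ℓ / ((W : ℝ) * d) := by
          rw [le_div_iff₀ (by positivity), one_mul]; exact hsize
        linarith
      have h4 : 3 * Real.exp ℓ * (1 / ((W : ℝ) * d)) = Real.exp ℓ / ((W : ℝ) * d) +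
          2 * (Real.exp ℓ / ((W : ℝ) * d)) := by ring
      linarith
    calc ℓ * ((N : ℝ) / ((W * d : ℕ) : ℝ) + 2) ≤ ℓ * (3 * Real.exp ℓ * (1 / ((W : ℝ) * d))) :=
          mul_le_mul_of_nonneg_left h1 hℓ
      _ ≤ ℓ * (3 * Real.exp ℓ * (1 / (W.totient : ℝ) * ∏ p ∈ D, 1 / ((p : ℝ) - 1))) := by
          apply mul_le_mul_of_nonneg_left _ hℓ
          exact mul_le_mul_of_nonneg_left hinv (by positivity)
      _ = _ := by ring
  have hX : ∑ n ∈ Ioc 0 N, aw ℓ y n ≤ ℓ * Real.exp ℓ := by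
    calc ∑ n ∈ Ioc 0 N, aw ℓ y n ≤ ∑ n ∈ Ioc 0 N, ℓ := Finset.sum_le_sum hawle
      _ = N * ℓ := by rw [Finset.sum_const, Nat.card_Ioc, nsmul_eq_mul, Nat.sub_zero]
      _ ≤ Real.exp ℓ * ℓ := mul_le_mul_of_nonneg_right hNx hℓ
      _ = _ := mul_comm _ _
  have hX0 : 0 ≤ ∑ n ∈ Ioc 0 N, aw ℓ y n := Finset.sum_nonneg (fun n _ => aw_nonneg _ _ _)
  have hmain : (∑ n ∈ Ioc 0 N, aw ℓ y n) / (W.totient : ℝ) * ∏ p ∈ D, 1 / ((p : ℝ) - 1) ≤
      3 * ℓ * Real.exp ℓ / (W.totient : ℝ) * ∏ p ∈ D, 1 / ((p : ℝ) - 1) := by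
    apply mul_le_mul_of_nonneg_right _ hg0
    apply div_le_div_of_nonneg_right _ hφpos.le
    have : 0 ≤ ℓ * Real.exp ℓ := by positivity
    linarith
  have hmain0 : 0 ≤ (∑ n ∈ Ioc 0 N, aw ℓ y n) / (W.totient : ℝ) * ∏ p ∈ D, 1 / ((p : ℝ) - 1) :=
    mul_nonneg (div_nonneg hX0 hφpos.le) hg0
  unfold RD
  rw [abs_le]
  constructor <;> linarith

lemma prod_one_add_mul_le (P : Finset ℕ) (g : ℕ → ℝ) (hg : ∀ p ∈ P, 0 ≤ g p) (K : ℕ) :
    ∏ p ∈ P, (1 + (K : ℝ) * g p) ≤ (∏ p ∈ P, (1 + g p)) ^ K := by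
  rw [← Finset.prod_pow]
  apply Finset.prod_le_prod
  · intro p hp
    have := hg p hp
    positivity
  · intro p hp
    exact one_add_mul_le_pow (by linarith [hg p hp]) K

lemma sum_pow_card_prod_le (P : Finset ℕ) (𝒟 : Finset (Finset ℕ)) (h𝒟 : 𝒟 ⊆ P.powerset)
    (g : ℕ → ℝ) (hg : ∀ p ∈ P, 0 ≤ g p) (K : ℝ) (hK : 0 ≤ K) :
    ∑ D ∈ 𝒟, K ^ #D * ∏ p ∈ D, g p ≤ ∏ p ∈ P, (1 + K * g p) := by
  rw [Finset.prod_one_add]
  calc ∑ D ∈ 𝒟, K ^ #D * ∏ p ∈ D, g p = ∑ D ∈ 𝒟, ∏ p ∈ D, (K * g p) := by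
        apply Finset.sum_congr rfl
        intro D _
        rw [Finset.prod_mul_distrib, Finset.prod_const]
    _ ≤ _ := by
        apply Finset.sum_le_sum_of_subset_of_nonneg h𝒟
        intro D hD _
        apply Finset.prod_nonneg
        intro p hp
        exact mul_nonneg hK (hg p (Finset.mem_powerset.mp hD hp))

open scoped Classical in
/-- **Total remainder with multiplicities.** -/
theorem RP_supK (κ : ℝ) (hκ : 0 < κ) (hκ1 : κ ≤ 1 / 4) (A : ℝ) (hA : 0 ≤ A) (K : ℕ) :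
    ∃ L0 : ℝ, ∀ ℓ : ℝ, L0 ≤ ℓ → ∀ q₁ : ℕ,
    SmallProp ((2 * A + 4 + (K : ℝ) ^ 2) + 1 + 4) ((2 * A + 4 + (K : ℝ) ^ 2) + 1 + 3 + 12) ℓ q₁ →
    ∀ W : ℕ, 1 ≤ W → Real.log W ≤ ℓ / (2 * (Real.log ℓ) ^ 2) →
    ∀ y : ℕ, (y : ℝ) ≤ Real.exp (ℓ / 2) → (∀ p, p.Prime → p ∣ W → p ≤ y) →
    ∀ z : ℕ, 1 ≤ Real.log z → z ≤ y →
    ∀ P : Finset ℕ, P ⊆ primesIoc z y →
    (∀ p ∈ P, ¬ p ∣ W) → (∀ D ⊆ P, ¬ q₁ ∣ W * ∏ p ∈ D, p) →
    ∃ M : Finset ℕ → ℝ, (∀ D, D ⊆ P → 0 ≤ M D) ∧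
      ∑ D ∈ lev P (Real.exp ((1 / 2 - κ) * ℓ)), (K : ℝ) ^ #D * M D ≤
        Real.exp ℓ * ℓ ^ (-A) / (W.totient : ℝ) ∧
      ∀ (A0 : ℕ) (b : ℕ → ℕ), Nat.Coprime A0 W →
        ∀ D ∈ lev P (Real.exp ((1 / 2 - κ) * ℓ)), (∀ p ∈ D, ¬ p ∣ b p) →
        |RD ((Ioc 0 ⌊Real.exp ℓ⌋₊).filter (fun n => n ≡ A0 [MOD W])) (aw ℓ y) (cb b)
          ((∑ n ∈ Ioc 0 ⌊Real.exp ℓ⌋₊, aw ℓ y n) / (W.totient : ℝ)) (fun p => 1 / ((p : ℝ) - 1)) D| ≤
          M D := by
  obtain ⟨c, hc, hcV⟩ := Vp_ge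
  set A1 : ℝ := 2 * A + 4 + (K : ℝ) ^ 2 with hA1
  obtain ⟨L1, hL1⟩ := RP_sup κ hκ hκ1 A1 (by positivity)
  set C2 : ℝ := 3 * (1 / c) * (1 / c) ^ (K ^ 2) + 1 with hC2
  have hC20 : 0 < C2 := by positivity
  obtain ⟨L2, hL2⟩ := Filter.eventually_atTop.mp ((ev_W_small (κ / 4) (by positivity)).and
    (eventually_ge_atTop (max C2 2)))
  refine ⟨max L1 L2, fun ℓ hℓ q₁ hq W hW1 hW y hy hWy z hz hzy P hPzy hPW hPq => ?_⟩
  obtain ⟨hWs, hℓC⟩ := hL2 ℓ ((le_max_right _ _).trans hℓ)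
  have hℓ2 : 2 ≤ ℓ := (le_max_right _ _).trans hℓC
  have hℓC2 : C2 ≤ ℓ := (le_max_left _ _).trans hℓC
  have hℓ0 : 0 < ℓ := by linarith
  have hW' := hWs W hW1 hW
  have hφpos : (0 : ℝ) < (W.totient : ℝ) := by exact_mod_cast Nat.totient_pos.mpr hW1
  have hP : ∀ p ∈ P, p.Prime := fun p hp => (mem_primesIoc.mp (hPzy hp)).2.2
  have hPy : ∀ p ∈ P, p ≤ y := fun p hp => (mem_primesIoc.mp (hPzy hp)).2.1
  obtain ⟨G, hG0, hGsum, hG⟩ := hL1 ℓ ((le_max_left _ _).trans hℓ) q₁ hq W hW1 hW y hy hWy P hP hPy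
    hPW hPq
  set Y := Real.exp ((1 / 2 - κ) * ℓ) with hY
  have hYhalf : Y ≤ Real.exp (ℓ / 2) := by
    apply Real.exp_le_exp.mpr
    have := mul_pos hκ hℓ0
    linarith
  set g : ℕ → ℝ := fun p => 1 / ((p : ℝ) - 1) with hg
  have hg0P : ∀ p ∈ P, 0 ≤ g p := by
    intro p hp
    have : (2 : ℝ) ≤ p := by exact_mod_cast (hP p hp).two_le
    exact div_nonneg zero_le_one (by linarith)
  set T : Finset ℕ → ℝ := fun D => 3 * ℓ * Real.exp ℓ / (W.totient : ℝ) * ∏ p ∈ D, g p with hT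
  have hT0 : ∀ D, D ⊆ P → 0 ≤ T D := by
    intro D hD
    apply mul_nonneg (by positivity)
    exact Finset.prod_nonneg (fun p hp => hg0P p (hD hp))
  have hz2 : 2 ≤ z := by
    by_contra h
    have h1 : z ≤ 1 := by omega
    have h2 : (z : ℝ) ≤ 1 := by exact_mod_cast h1
    have h3 : Real.log z ≤ 0 := Real.log_nonpos (Nat.cast_nonneg _) h2
    linarith
  have hylog : Real.log y ≤ ℓ := by
    have hy0 : (0 : ℝ) < y := by
      have : 0 < y := by omega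
      exact_mod_cast this
    have : Real.log y ≤ ℓ / 2 := by
      rw [Real.log_le_iff_le_exp hy0]; exact hy
    linarith
  have hprod : ∏ p ∈ P, (1 + g p) ≤ ℓ / c := by
    refine (prod_g1_le hc hcV z y hz2 hzy P hPzy).trans ?_
    apply div_le_div₀ hℓ0.le hylog hc
    exact le_mul_of_one_le_right hc.le hz
  have hprod0 : 0 ≤ ∏ p ∈ P, (1 + g p) := Finset.prod_nonneg (fun p hp => by
    have := hg0P p hp; linarith)
  refine ⟨fun D => min (G D) (T D), fun D hD => le_min (hG0 D hD) (hT0 D hD), ?_, ?_⟩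
  · have hmem : ∀ D ∈ lev P Y, D ⊆ P := fun D hD => (mem_lev.mp hD).1
    set SG := ∑ D ∈ lev P Y, G D with hSG
    set ST := ∑ D ∈ lev P Y, ((K : ℝ) ^ 2) ^ #D * T D with hST
    have hSG0 : 0 ≤ SG := Finset.sum_nonneg (fun D hD => hG0 D (hmem D hD))
    have hST0 : 0 ≤ ST := Finset.sum_nonneg (fun D hD => mul_nonneg (by positivity) (hT0 D (hmem D hD)))
    have hCS : ∑ D ∈ lev P Y, (K : ℝ) ^ #D * min (G D) (T D) ≤ √SG * √ST := by
      have h1 : ∀ D ∈ lev P Y, (K : ℝ) ^ #D * min (G D) (T D) ≤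
          √(G D) * √(((K : ℝ) ^ 2) ^ #D * T D) := by
        intro D hD
        have hGD := hG0 D (hmem D hD)
        have hTD := hT0 D (hmem D hD)
        have e1 : √(((K : ℝ) ^ 2) ^ #D * T D) = (K : ℝ) ^ #D * √(T D) := by
          rw [Real.sqrt_mul (by positivity), ← pow_mul, mul_comm 2, pow_mul, Real.sqrt_sq (by positivity)]
        rw [e1]
        have h2 : min (G D) (T D) ≤ √(G D) * √(T D) := by
          rw [← Real.sqrt_mul hGD]
          apply Real.le_sqrt_of_sq_le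
          rw [sq]
          exact mul_le_mul (min_le_left _ _) (min_le_right _ _) (le_min hGD hTD) hGD
        calc (K : ℝ) ^ #D * min (G D) (T D) ≤ (K : ℝ) ^ #D * (√(G D) * √(T D)) :=
              mul_le_mul_of_nonneg_left h2 (by positivity)
          _ = _ := by ring
      refine (Finset.sum_le_sum h1).trans ?_
      have h2 := Finset.sum_mul_sq_le_sq_mul_sq (lev P Y) (fun D => √(G D))
        (fun D => √(((K : ℝ) ^ 2) ^ #D * T D))
      have e1 : ∑ D ∈ lev P Y, √(G D) ^ 2 = SG := by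
        apply Finset.sum_congr rfl
        intro D hD
        exact Real.sq_sqrt (hG0 D (hmem D hD))
      have e2 : ∑ D ∈ lev P Y, √(((K : ℝ) ^ 2) ^ #D * T D) ^ 2 = ST := by
        apply Finset.sum_congr rfl
        intro D hD
        exact Real.sq_sqrt (mul_nonneg (by positivity) (hT0 D (hmem D hD)))
      rw [e1, e2] at h2
      rw [← Real.sqrt_mul hSG0]
      exact Real.le_sqrt_of_sq_le h2
    refine hCS.trans ?_
    have hSTle : ST ≤ 3 * ℓ * Real.exp ℓ / (W.totient : ℝ) * (ℓ / c) ^ (K ^ 2) := by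
      have h1 : ST = 3 * ℓ * Real.exp ℓ / (W.totient : ℝ) *
          ∑ D ∈ lev P Y, ((K : ℝ) ^ 2) ^ #D * ∏ p ∈ D, g p := by
        rw [hST, Finset.mul_sum]
        apply Finset.sum_congr rfl
        intro D _
        simp only [hT]
        ring
      rw [h1]
      apply mul_le_mul_of_nonneg_left _ (by positivity)
      refine (sum_pow_card_prod_le P (lev P Y) (Finset.filter_subset _ _) g hg0P ((K : ℝ) ^ 2)
        (by positivity)).trans ?_
      have h2 := prod_one_add_mul_le P g hg0P (K ^ 2)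
      push_cast at h2
      exact h2.trans (pow_le_pow_left₀ hprod0 hprod _)
    have hSGle : SG ≤ Real.exp ℓ * ℓ ^ (-A1) / (W.totient : ℝ) * (ℓ / c) :=
      hGsum.trans (mul_le_mul_of_nonneg_left hprod (by positivity))
    rw [← Real.sqrt_mul hSG0]
    have hR0 : 0 ≤ Real.exp ℓ * ℓ ^ (-A) / (W.totient : ℝ) := by positivity
    rw [Real.sqrt_le_left hR0]
    calc SG * ST ≤ (Real.exp ℓ * ℓ ^ (-A1) / (W.totient : ℝ) * (ℓ / c)) *
          (3 * ℓ * Real.exp ℓ / (W.totient : ℝ) * (ℓ / c) ^ (K ^ 2)) :=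
          mul_le_mul hSGle hSTle hST0 (by positivity)
      _ = (Real.exp ℓ / (W.totient : ℝ)) ^ 2 * (ℓ ^ (-A1) * (ℓ ^ 2 * ℓ ^ (K ^ 2)) *
          (3 * (1 / c) * (1 / c) ^ (K ^ 2))) := by
          rw [div_eq_mul_one_div ℓ c, mul_pow]
          ring
      _ ≤ (Real.exp ℓ / (W.totient : ℝ)) ^ 2 * (ℓ ^ (-A1) * (ℓ ^ 2 * ℓ ^ (K ^ 2)) * ℓ) := by
          apply mul_le_mul_of_nonneg_left _ (by positivity)
          apply mul_le_mul_of_nonneg_left _ (by positivity)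
          linarith
      _ = (Real.exp ℓ / (W.totient : ℝ)) ^ 2 * ℓ ^ (-(2 * A + 1)) := by
          congr 1
          rw [← Real.rpow_natCast ℓ 2, ← Real.rpow_natCast ℓ (K ^ 2), ← Real.rpow_add hℓ0,
            ← Real.rpow_add hℓ0]
          nth_rewrite 2 [← Real.rpow_one ℓ]
          rw [← Real.rpow_add hℓ0]
          congr 1
          rw [hA1]
          push_cast
          ring
      _ ≤ (Real.exp ℓ / (W.totient : ℝ)) ^ 2 * ℓ ^ (-(2 * A)) := by
          apply mul_le_mul_of_nonneg_left _ (by positivity)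
          apply Real.rpow_le_rpow_of_exponent_le (by linarith)
          linarith
      _ = (Real.exp ℓ * ℓ ^ (-A) / (W.totient : ℝ)) ^ 2 := by
          have e1 : ℓ ^ (-(2 * A)) = (ℓ ^ (-A)) ^ 2 := by
            rw [← Real.rpow_natCast (ℓ ^ (-A)) 2, ← Real.rpow_mul hℓ0.le]
            congr 1; push_cast; ring
          rw [e1]
          ring
  · intro A0 b hA0 D hD hb
    apply le_min
    · exact hG A0 b hA0 D hD hb
    · obtain ⟨hDP, hDY⟩ := mem_lev.mp hD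
      apply RD_trivial hℓ0.le y W A0 hW1 b D (fun p hp => hP p (hDP hp)) (fun p hp => hPW p (hDP hp))
      calc (W : ℝ) * ((∏ p ∈ D, p : ℕ) : ℝ) ≤ Real.exp (κ / 4 * ℓ) * Real.exp ((1 / 2 - κ) * ℓ) :=
            mul_le_mul hW' hDY (by positivity) (by positivity)
        _ = Real.exp (κ / 4 * ℓ + (1 / 2 - κ) * ℓ) := by rw [Real.exp_add]
        _ ≤ Real.exp ℓ := by
            apply Real.exp_le_exp.mpr
            have := mul_pos hκ hℓ0
            linarith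

end Pool.Agent.H16
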