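import Pool.Agent.H16.MT3
import Pool.Agent.H16.CH3

/-!
One-dimensional sums over products of sieving primes.
-/

set_option autoImplicit false

open Finset Filter Topology

namespace Pool.Agent.H16

/-- sieving primes with a finite set of excluded primes -/
def PE (z y : ℕ) (E : Finset ℕ) : Finset ℕ := (primesIoc z y).filter (fun p => p ∉ E)

lemma mem_PE {z y p : ℕ} {E : Finset ℕ} : p ∈ PE z y E ↔ (z < p ∧ p ≤ y ∧ p.Prime) ∧ p ∉ E := by
  unfold PE
  rw [Finset.mem_filter, mem_primesIoc]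

lemma PE_sub (z y : ℕ) (E : Finset ℕ) : PE z y E ⊆ primesIoc z y := Finset.filter_subset _ _

/-- one-dimensional sum -/
noncomputable def S1d (P : Finset ℕ) (Y : ℝ) : ℝ := ∑ D ∈ lev P Y, 1 / ((∏ p ∈ D, p : ℕ) : ℝ)

lemma S1d_upper {c : ℝ} (hc : 0 < c) (hcV : ∀ n : ℕ, 2 ≤ n → c / Real.log n ≤ Vp n) (z y : ℕ)
    (hz : 1 ≤ Real.log z) (P : Finset ℕ) (hP : P ⊆ primesIoc z y) (Y : ℝ) (hzY : (z : ℝ) ≤ Y) :
    S1d P Y ≤ Real.log Y / (c * Real.log z) := by
  classical
  have hz2 : 2 ≤ z := by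
    by_contra h
    have h1 : z ≤ 1 := by omega
    have h2 : (z : ℝ) ≤ 1 := by exact_mod_cast h1
    have h3 : Real.log z ≤ 0 := Real.log_nonpos (Nat.cast_nonneg _) h2
    linarith
  have hY0 : 0 < Y := by
    have : (0 : ℝ) < z := by
      have : 0 < z := by omega
      exact_mod_cast this
    linarith
  set m := ⌊Y⌋₊ with hm
  have hzm : z ≤ m := Nat.le_floor hzY
  set P' := P.filter (fun p => p ≤ m) with hP'
  have hpr : ∀ p ∈ P, p.Prime := fun p hp => (mem_primesIoc.mp (hP hp)).2.2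
  have hP'sub : P' ⊆ primesIoc z m := by
    intro p hp
    rw [hP', Finset.mem_filter] at hp
    have := mem_primesIoc.mp (hP hp.1)
    rw [mem_primesIoc]
    exact ⟨this.1, hp.2, this.2.2⟩
  have hsub : lev P Y ⊆ P'.powerset := by
    intro D hD
    obtain ⟨h1, h2⟩ := mem_lev.mp hD
    rw [Finset.mem_powerset]
    intro p hp
    rw [hP', Finset.mem_filter]
    refine ⟨h1 hp, ?_⟩
    apply Nat.le_floor
    refine le_trans ?_ h2
    have h3 : p ≤ ∏ p ∈ D, p := Nat.le_of_dvd (Finset.prod_pos (fun p hp => (hpr p (h1 hp)).pos))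
      (Finset.dvd_prod_of_mem _ hp)
    exact_mod_cast h3
  have h1 : S1d P Y ≤ ∏ p ∈ P', (1 + 1 / ((p : ℝ) - 1)) := by
    unfold S1d
    rw [Finset.prod_one_add]
    calc ∑ D ∈ lev P Y, 1 / ((∏ p ∈ D, p : ℕ) : ℝ) ≤ ∑ D ∈ P'.powerset, 1 / ((∏ p ∈ D, p : ℕ) : ℝ) := by
          apply Finset.sum_le_sum_of_subset_of_nonneg hsub
          intro D _ _
          positivity
      _ ≤ ∑ D ∈ P'.powerset, ∏ p ∈ D, 1 / ((p : ℝ) - 1) := by
          apply Finset.sum_le_sum
          intro D hD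
          rw [Finset.mem_powerset] at hD
          push_cast
          rw [one_div, ← Finset.prod_inv_distrib]
          apply Finset.prod_le_prod
          · intro p _; positivity
          · intro p hp
            have hp2 : (2 : ℝ) ≤ p := by
              exact_mod_cast (mem_primesIoc.mp (hP'sub (hD hp))).2.2.two_le
            rw [← one_div]
            exact one_div_le_one_div_of_le (by linarith) (by linarith)
  refine h1.trans ((prod_g1_le hc hcV z m hz2 hzm P' hP'sub).trans ?_)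
  apply div_le_div_of_nonneg_right _ (by positivity)
  apply Real.log_le_log
  · have : 0 < m := by omega
    exact_mod_cast this
  · exact Nat.floor_le hY0.le

/-- splitting an integer into a squarefree part, a square and a complementary part -/
lemma split_triple (P : Finset ℕ) (hP : ∀ p ∈ P, p.Prime) (n : ℕ) (hn : 0 < n) :
    ∃ (D : Finset ℕ) (s m : ℕ), D ⊆ P ∧ 0 < s ∧ 0 < m ∧ (∏ p ∈ D, p) * s ^ 2 * m = n ∧
      ∀ p, p.Prime → p ∣ m → p ∉ P := by
  classical
  set n1 := ∏ p ∈ n.primeFactors.filter (fun p => p ∈ P), p ^ (n.factorization p) with hn1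
  set n2 := ∏ p ∈ n.primeFactors.filter (fun p => p ∉ P), p ^ (n.factorization p) with hn2
  have hmul : n1 * n2 = n := by
    rw [hn1, hn2, Finset.prod_filter_mul_prod_filter_not]
    exact Nat.prod_factorization_pow_eq_self hn.ne'
  have hn10 : 0 < n1 := Nat.pos_of_ne_zero (fun h => by rw [h, zero_mul] at hmul; omega)
  have hn20 : 0 < n2 := Nat.pos_of_ne_zero (fun h => by rw [h, mul_zero] at hmul; omega)
  obtain ⟨a, b, hab, hsq⟩ := Nat.sq_mul_squarefree n1
  have hb0 : 0 < b := Nat.pos_of_ne_zero (fun h => by rw [h] at hab; simp at hab; omega)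
  have ha0 : 0 < a := Nat.pos_of_ne_zero (fun h => by rw [h] at hab; simp at hab; omega)
  have hdiv : ∀ p, p.Prime → p ∣ n1 → p ∈ P := by
    intro p hp hpn
    rw [hn1, Prime.dvd_finset_prod_iff hp.prime] at hpn
    obtain ⟨q, hq, hpq⟩ := hpn
    rw [Finset.mem_filter] at hq
    have h1 := (Nat.prime_dvd_prime_iff_eq hp (Nat.prime_of_mem_primeFactors hq.1)).mp
      (hp.dvd_of_dvd_pow hpq)
    rw [h1]; exact hq.2
  refine ⟨a.primeFactors, b, n2, ?_, hb0, hn20, ?_, ?_⟩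
  · intro p hp
    have hpa := Nat.dvd_of_mem_primeFactors hp
    exact hdiv p (Nat.prime_of_mem_primeFactors hp) (hab ▸ Dvd.dvd.mul_left hpa _)
  · rw [Nat.prod_primeFactors_of_squarefree hsq, ← hmul, ← hab]
    ring
  · intro p hp hpm hpP
    rw [hn2, Prime.dvd_finset_prod_iff hp.prime] at hpm
    obtain ⟨q, hq, hpq⟩ := hpm
    rw [Finset.mem_filter] at hq
    have h1 := (Nat.prime_dvd_prime_iff_eq hp (Nat.prime_of_mem_primeFactors hq.1)).mp
      (hp.dvd_of_dvd_pow hpq)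
    rw [← h1] at hq
    exact hq.2 hpP

lemma prod_excl_le (z : ℕ) (E : Finset ℕ) (hz : 0 < z) (hE : 2 * #E ≤ z) (h : ∀ p ∈ E, z < p) :
    (1 / 2 : ℝ) ≤ ∏ p ∈ E, (1 - 1 / (p : ℝ)) := by
  have hz' : (0 : ℝ) < z := by exact_mod_cast hz
  have h1 : ∏ p ∈ E, (1 - 1 / (z : ℝ)) ≤ ∏ p ∈ E, (1 - 1 / (p : ℝ)) := by
    apply Finset.prod_le_prod
    · intro p _
      have : (1 : ℝ) / z ≤ 1 := by
        rw [div_le_one hz']; exact_mod_cast hz
      linarith
    · intro p hp
      have hp2 : (z : ℝ) < p := by exact_mod_cast h p hp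
      have : 1 / (p : ℝ) ≤ 1 / z := one_div_le_one_div_of_le hz' hp2.le
      linarith
  refine le_trans ?_ h1
  rw [Finset.prod_const]
  have h2 := one_add_mul_le_pow (a := -(1 / (z : ℝ))) (by
    have : (1 : ℝ) / z ≤ 1 := by
      rw [div_le_one hz']; exact_mod_cast hz
    linarith) #E
  have h3 : (1 : ℝ) + -(1 / (z : ℝ)) = 1 - 1 / z := by ring
  rw [h3] at h2
  refine le_trans ?_ h2
  have h4 : (#E : ℝ) * (1 / z) ≤ 1 / 2 := by
    rw [mul_one_div, div_le_div_iff₀ hz' (by norm_num)]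
    have : ((2 * #E : ℕ) : ℝ) ≤ z := by exact_mod_cast hE
    push_cast at this
    linarith
  linarith

lemma S1d_lower (z y : ℕ) (hz2 : 2 ≤ z) (E : Finset ℕ) (hE : 2 * #E ≤ z) (Y : ℝ) (hY : 1 ≤ Y)
    (hYy : Y ≤ y) : Real.log Y * (Vp z / 4) ≤ S1d (PE z y E) Y := by
  classical
  set P := PE z y E with hP
  have hPp : ∀ p ∈ P, p.Prime := fun p hp => (mem_PE.mp hp).1.2.2
  set N := ⌊Y⌋₊ with hN
  have hN1 : 1 ≤ N := Nat.le_floor (by exact_mod_cast hY)
  set E' := E.filter (fun p => p.Prime ∧ z < p) with hE'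
  set S := Nat.primesLE z ∪ E' with hS
  set Sm := (Finset.Icc 1 N).filter (fun m => ∀ p, p.Prime → p ∣ m → p ∈ S) with hSm
  -- decomposition
  have hex : ∀ n ∈ Finset.Icc 1 N, ∃ x : Finset ℕ × ℕ × ℕ, x.1 ∈ lev P Y ∧ x.2.1 ∈ Finset.Icc 1 N ∧
      x.2.2 ∈ Sm ∧ (∏ p ∈ x.1, p) * x.2.1 ^ 2 * x.2.2 = n := by
    intro n hn
    rw [Finset.mem_Icc] at hn
    obtain ⟨D, s, m, h1, h2, h3, h4, h5⟩ := split_triple P hPp n (by omega)
    have hDpos : 0 < ∏ p ∈ D, p := Finset.prod_pos (fun p hp => (hPp p (h1 hp)).pos)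
    have hdvdD : (∏ p ∈ D, p) ∣ n := ⟨s ^ 2 * m, by rw [← h4]; ring⟩
    have hdvds : s ∣ n := ⟨(∏ p ∈ D, p) * s * m, by rw [← h4]; ring⟩
    have hdvdm : m ∣ n := ⟨(∏ p ∈ D, p) * s ^ 2, by rw [← h4]; ring⟩
    have hnY : (n : ℝ) ≤ Y := (Nat.le_floor_iff (by linarith)).mp hn.2
    refine ⟨(D, s, m), ?_, ?_, ?_, h4⟩
    · rw [mem_lev]
      refine ⟨h1, le_trans ?_ hnY⟩
      exact_mod_cast Nat.le_of_dvd (by omega) hdvdD
    · rw [Finset.mem_Icc]
      exact ⟨h2, (Nat.le_of_dvd (by omega) hdvds).trans hn.2⟩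
    · rw [hSm, Finset.mem_filter, Finset.mem_Icc]
      refine ⟨⟨h3, (Nat.le_of_dvd (by omega) hdvdm).trans hn.2⟩, ?_⟩
      intro p hp hpm
      have hpP := h5 p hp hpm
      have hpn : p ≤ n := Nat.le_of_dvd (by omega) (hpm.trans hdvdm)
      have hpy : p ≤ y := by
        have : (p : ℝ) ≤ y := by
          have : (p : ℝ) ≤ n := by exact_mod_cast hpn
          linarith
        exact_mod_cast this
      rw [hS, Finset.mem_union]
      by_cases hpz : p ≤ z
      · left; rw [Nat.mem_primesLE]; exact ⟨hpz, hp⟩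
      · right
        rw [hE', Finset.mem_filter]
        refine ⟨?_, hp, by omega⟩
        by_contra hpE
        exact hpP (mem_PE.mpr ⟨⟨by omega, hpy, hp⟩, hpE⟩)
  choose! φ hφ1 hφ2 hφ3 hφ4 using hex
  have hinj : Set.InjOn φ (Finset.Icc 1 N : Set ℕ) := by
    intro a ha b hb hab
    rw [← hφ4 a ha, ← hφ4 b hb, hab]
  set F : Finset ℕ × ℕ × ℕ → ℝ := fun x => 1 / ((∏ p ∈ x.1, p : ℕ) : ℝ) *
    (1 / (x.2.1 : ℝ) ^ 2 * (1 / (x.2.2 : ℝ))) with hF
  have h1 : ∑ n ∈ Finset.Icc 1 N, 1 / (n : ℝ) ≤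
      ∑ x ∈ (lev P Y) ×ˢ ((Finset.Icc 1 N) ×ˢ Sm), F x := by
    have e1 : ∑ n ∈ Finset.Icc 1 N, 1 / (n : ℝ) = ∑ n ∈ Finset.Icc 1 N, F (φ n) := by
      apply Finset.sum_congr rfl
      intro n hn
      have h4 := hφ4 n hn
      simp only [hF]
      conv_lhs => rw [← h4]
      push_cast
      rw [one_div_mul_one_div, one_div_mul_one_div]
      ring
    rw [e1, ← Finset.sum_image hinj]
    apply Finset.sum_le_sum_of_subset_of_nonneg
    · intro x hx
      rw [Finset.mem_image] at hx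
      obtain ⟨n, hn, rfl⟩ := hx
      rw [Finset.mem_product, Finset.mem_product]
      exact ⟨hφ1 n hn, hφ2 n hn, hφ3 n hn⟩
    · intro x _ _
      simp only [hF]
      positivity
  have h2 : ∑ x ∈ (lev P Y) ×ˢ ((Finset.Icc 1 N) ×ˢ Sm), F x =
      S1d P Y * ((∑ s ∈ Finset.Icc 1 N, 1 / (s : ℝ) ^ 2) * ∑ m ∈ Sm, 1 / (m : ℝ)) := by
    unfold S1d
    rw [Finset.sum_mul_sum, ← Finset.sum_product', Finset.sum_mul_sum, ← Finset.sum_product']
  have h3 : ∑ s ∈ Finset.Icc 1 N, 1 / (s : ℝ) ^ 2 ≤ 2 := by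
    have e1 : Finset.Icc 1 N = insert 1 (Finset.Ioc 1 N) := by
      ext s
      rw [Finset.mem_insert, Finset.mem_Icc, Finset.mem_Ioc]
      omega
    rw [e1, Finset.sum_insert (by simp)]
    have := sum_inv_sq_Ioc 1 N le_rfl
    norm_num at this ⊢
    linarith
  have hE'2 : 2 * #E' ≤ z := le_trans (Nat.mul_le_mul_left 2 (Finset.card_filter_le _ _)) hE
  have h4 : ∑ m ∈ Sm, 1 / (m : ℝ) ≤ 2 / Vp z := by
    have h5 := sum_le_euler fInv (fun n => by rw [fInv_apply]; positivity)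
      (fun p hp => by
        rw [fInv_apply]
        apply inv_lt_one_of_one_lt₀
        exact_mod_cast hp.one_lt) S Sm (by
        intro m hm
        rw [hSm, Finset.mem_filter, Finset.mem_Icc] at hm
        rw [Nat.mem_factoredNumbers']
        intro p hp hpm
        exact hm.2 p hp hpm)
    have hSp : ∀ p ∈ S, p.Prime := by
      intro p hp
      rw [hS, Finset.mem_union] at hp
      rcases hp with h | h
      · exact (Nat.mem_primesLE.mp h).2
      · rw [hE', Finset.mem_filter] at h; exact h.2.1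
    rw [Finset.filter_true_of_mem hSp] at h5
    have h6 : ∏ p ∈ S, (1 - fInv p)⁻¹ = (∏ p ∈ S, (1 - 1 / (p : ℝ)))⁻¹ := by
      rw [← Finset.prod_inv_distrib]
      apply Finset.prod_congr rfl
      intro p _
      rw [fInv_apply, one_div]
    have hdisj : Disjoint (Nat.primesLE z) E' := by
      rw [Finset.disjoint_left]
      intro p hp hp2
      rw [hE', Finset.mem_filter] at hp2
      have := (Nat.mem_primesLE.mp hp).1
      omega
    have h7 : Vp z * (1 / 2) ≤ ∏ p ∈ S, (1 - 1 / (p : ℝ)) := by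
      rw [hS, Finset.prod_union hdisj]
      apply mul_le_mul_of_nonneg_left _ (Vp_pos z).le
      exact prod_excl_le z E' (by omega) hE'2 (fun p hp => by
        rw [hE', Finset.mem_filter] at hp; exact hp.2.2)
    have hV := Vp_pos z
    have h8 : ∑ m ∈ Sm, 1 / (m : ℝ) = ∑ m ∈ Sm, fInv m := by
      apply Finset.sum_congr rfl
      intro m _
      rw [fInv_apply, one_div]
    rw [h8]
    refine h5.trans ?_
    rw [h6]
    calc (∏ p ∈ S, (1 - 1 / (p : ℝ)))⁻¹ ≤ (Vp z * (1 / 2))⁻¹ := inv_anti₀ (by positivity) h7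
      _ = 2 / Vp z := by field_simp
  have h5 : Real.log Y ≤ ∑ n ∈ Finset.Icc 1 N, 1 / (n : ℝ) := by
    have h6 := log_add_one_le_harmonic N
    have h7 : ((harmonic N : ℚ) : ℝ) = ∑ q ∈ Finset.Icc 1 N, 1 / (q : ℝ) := by
      rw [harmonic_eq_sum_Icc]
      push_cast
      apply Finset.sum_congr rfl
      intro q _
      rw [one_div]
    rw [← h7]
    refine le_trans ?_ h6
    apply Real.log_le_log (by linarith)
    push_cast
    exact (Nat.lt_floor_add_one Y).le
  have hS0 : 0 ≤ S1d P Y := Finset.sum_nonneg (fun D _ => by positivity)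
  have hV := Vp_pos z
  have h6 : Real.log Y ≤ S1d P Y * (2 * (2 / Vp z)) := by
    refine h5.trans (h1.trans ?_)
    rw [h2]
    apply mul_le_mul_of_nonneg_left _ hS0
    apply mul_le_mul h3 h4 (Finset.sum_nonneg (fun m _ => by positivity)) (by norm_num)
  calc Real.log Y * (Vp z / 4) ≤ S1d P Y * (2 * (2 / Vp z)) * (Vp z / 4) :=
        mul_le_mul_of_nonneg_right h6 (by positivity)
    _ = S1d P Y := by field_simp; ring

end Pool.Agent.H16
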