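import Pool.Agent.H16.MT6

/-!
The dyadic step function and its one-dimensional sums.
-/

set_option autoImplicit false

open Finset Filter Topology

namespace Pool.Agent.H16

/-- normalising factor -/
noncomputable def gG (n : ℕ) : ℝ := ∑ i ∈ range n, (1 / 2 : ℝ) ^ i

/-- levels -/
noncomputable def gY (ρ : ℝ) (i : ℕ) : ℝ := Real.exp (2 ^ i * ρ)

/-- dyadic step function -/
noncomputable def gst (n : ℕ) (ρ : ℝ) (a : ℕ) : ℝ :=
  (∑ i ∈ range n, (1 / 2 : ℝ) ^ i * (if (a : ℝ) ≤ gY ρ i then 1 else 0)) / gG n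

lemma gG_eq (n : ℕ) : gG n = 2 - 2 * (1 / 2 : ℝ) ^ n := by
  unfold gG
  induction n with
  | zero => simp
  | succ n ih => rw [Finset.sum_range_succ, ih]; ring

lemma gG_le (n : ℕ) : gG n ≤ 2 := by
  rw [gG_eq]
  have : (0 : ℝ) < (1 / 2 : ℝ) ^ n := by positivity
  linarith

lemma gG_ge (n : ℕ) (hn : 1 ≤ n) : 1 ≤ gG n := by
  rw [gG_eq]
  have : (1 / 2 : ℝ) ^ n ≤ (1 / 2 : ℝ) ^ 1 := pow_le_pow_of_le_one (by norm_num) (by norm_num) hn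
  norm_num at this ⊢
  linarith

lemma gY_mono {ρ : ℝ} (hρ : 0 ≤ ρ) {i j : ℕ} (hij : i ≤ j) : gY ρ i ≤ gY ρ j := by
  unfold gY
  apply Real.exp_le_exp.mpr
  apply mul_le_mul_of_nonneg_right _ hρ
  exact pow_le_pow_right₀ (by norm_num) hij

lemma gY_ge_one {ρ : ℝ} (hρ : 0 ≤ ρ) (i : ℕ) : 1 ≤ gY ρ i := Real.one_le_exp (by positivity)

lemma log_gY (ρ : ℝ) (i : ℕ) : Real.log (gY ρ i) = 2 ^ i * ρ := by unfold gY; rw [Real.log_exp]

lemma gst_nonneg (n : ℕ) (ρ : ℝ) (a : ℕ) : 0 ≤ gst n ρ a := by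
  unfold gst gG
  apply div_nonneg
  · apply Finset.sum_nonneg
    intro i _
    split_ifs <;> positivity
  · positivity

lemma gst_eq_one {n : ℕ} (hn : 1 ≤ n) {ρ : ℝ} (hρ : 0 ≤ ρ) {a : ℕ} (ha : (a : ℝ) ≤ gY ρ 0) :
    gst n ρ a = 1 := by
  unfold gst
  have h1 : ∑ i ∈ range n, (1 / 2 : ℝ) ^ i * (if (a : ℝ) ≤ gY ρ i then 1 else 0) = gG n := by
    unfold gG
    apply Finset.sum_congr rfl
    intro i _
    rw [if_pos (ha.trans (gY_mono hρ (Nat.zero_le i))), mul_one]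
  rw [h1]
  exact div_self (by linarith [gG_ge n hn])

lemma gst_one {n : ℕ} (hn : 1 ≤ n) {ρ : ℝ} (hρ : 0 ≤ ρ) : gst n ρ 1 = 1 :=
  gst_eq_one hn hρ (by exact_mod_cast gY_ge_one hρ 0)

lemma gst_anti (n : ℕ) (ρ : ℝ) {a b : ℕ} (hab : a ≤ b) : gst n ρ b ≤ gst n ρ a := by
  unfold gst
  apply div_le_div_of_nonneg_right _ (by unfold gG; positivity)
  apply Finset.sum_le_sum
  intro i _
  apply mul_le_mul_of_nonneg_left _ (by positivity)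
  have hab' : (a : ℝ) ≤ b := by exact_mod_cast hab
  by_cases h : (b : ℝ) ≤ gY ρ i
  · rw [if_pos h, if_pos (hab'.trans h)]
  · rw [if_neg h]
    split_ifs <;> norm_num

lemma gst_eq_zero {n : ℕ} {ρ : ℝ} (hρ : 0 ≤ ρ) {a : ℕ} (ha : gY ρ (n - 1) < a) : gst n ρ a = 0 := by
  unfold gst
  have h1 : ∑ i ∈ range n, (1 / 2 : ℝ) ^ i * (if (a : ℝ) ≤ gY ρ i then 1 else 0) = 0 := by
    apply Finset.sum_eq_zero
    intro i hi
    rw [Finset.mem_range] at hi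
    rw [if_neg, mul_zero]
    have := gY_mono hρ (show i ≤ n - 1 by omega)
    linarith
  rw [h1, zero_div]

lemma gst_sq {n : ℕ} (hn : 1 ≤ n) {ρ : ℝ} (hρ : 0 ≤ ρ) (a : ℕ) :
    gst n ρ a ^ 2 ≤ 4 * ∑ i ∈ range n, (1 / 4 : ℝ) ^ i * (if (a : ℝ) ≤ gY ρ i then 1 else 0) := by
  classical
  have hG := gG_ge n hn
  set J := (range n).filter (fun i => (a : ℝ) ≤ gY ρ i) with hJ
  have e1 : ∑ i ∈ range n, (1 / 2 : ℝ) ^ i * (if (a : ℝ) ≤ gY ρ i then 1 else 0) = ∑ i ∈ J, (1 / 2 : ℝ) ^ i := by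
    rw [hJ, Finset.sum_filter]
    apply Finset.sum_congr rfl
    intro i _
    split_ifs <;> simp
  have e2 : ∑ i ∈ range n, (1 / 4 : ℝ) ^ i * (if (a : ℝ) ≤ gY ρ i then 1 else 0) = ∑ i ∈ J, (1 / 4 : ℝ) ^ i := by
    rw [hJ, Finset.sum_filter]
    apply Finset.sum_congr rfl
    intro i _
    split_ifs <;> simp
  have hle : gst n ρ a ≤ ∑ i ∈ J, (1 / 2 : ℝ) ^ i := by
    unfold gst
    rw [e1]
    exact div_le_self (Finset.sum_nonneg (fun i _ => by positivity)) hG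
  rw [e2]
  rcases J.eq_empty_or_nonempty with hemp | hne
  · rw [hemp] at hle ⊢
    simp only [Finset.sum_empty] at hle ⊢
    have := gst_nonneg n ρ a
    have h0 : gst n ρ a = 0 := le_antisymm hle this
    rw [h0]; norm_num
  · set i0 := J.min' hne with hi0
    have hi0J : i0 ∈ J := Finset.min'_mem J hne
    have hsub : J ⊆ Finset.Ico i0 n := by
      intro j hj
      rw [Finset.mem_Ico]
      refine ⟨Finset.min'_le J j hj, ?_⟩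
      rw [hJ, Finset.mem_filter, Finset.mem_range] at hj
      exact hj.1
    have h1 : ∑ i ∈ J, (1 / 2 : ℝ) ^ i ≤ 2 * (1 / 2 : ℝ) ^ i0 := by
      calc ∑ i ∈ J, (1 / 2 : ℝ) ^ i ≤ ∑ i ∈ Finset.Ico i0 n, (1 / 2 : ℝ) ^ i :=
            Finset.sum_le_sum_of_subset_of_nonneg hsub (fun i _ _ => by positivity)
        _ = ∑ i ∈ range (n - i0), (1 / 2 : ℝ) ^ (i0 + i) := by
            rw [Finset.sum_Ico_eq_sum_range]
        _ = (1 / 2 : ℝ) ^ i0 * gG (n - i0) := by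
            unfold gG
            rw [Finset.mul_sum]
            apply Finset.sum_congr rfl
            intro i _
            rw [pow_add]
        _ ≤ (1 / 2 : ℝ) ^ i0 * 2 := mul_le_mul_of_nonneg_left (gG_le _) (by positivity)
        _ = _ := mul_comm _ _
    have h2 : gst n ρ a ^ 2 ≤ (2 * (1 / 2 : ℝ) ^ i0) ^ 2 :=
      pow_le_pow_left₀ (gst_nonneg n ρ a) (hle.trans h1) 2
    refine h2.trans ?_
    have h3 : (2 * (1 / 2 : ℝ) ^ i0) ^ 2 = 4 * (1 / 4 : ℝ) ^ i0 := by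
      rw [mul_pow, ← pow_mul, mul_comm i0 2, pow_mul]; norm_num
    rw [h3]
    apply mul_le_mul_of_nonneg_left _ (by norm_num)
    exact Finset.single_le_sum (f := fun i => (1 / 4 : ℝ) ^ i) (fun i _ => by positivity) hi0J

/-- the one-dimensional sum as a sum over the power set -/
lemma S1d_eq (P : Finset ℕ) (Y : ℝ) : S1d P Y = ∑ D ∈ P.powerset,
    (if ((∏ p ∈ D, p : ℕ) : ℝ) ≤ Y then (1 : ℝ) else 0) / ((∏ p ∈ D, p : ℕ) : ℝ) := by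
  unfold S1d lev
  rw [Finset.sum_filter]
  apply Finset.sum_congr rfl
  intro D _
  split_ifs <;> simp

section

variable {n : ℕ} {ρ c1 C1 L : ℝ} {P : Finset ℕ}

lemma A1_lower (hn : 1 ≤ n) (hρ : 0 ≤ ρ) (hc1 : 0 ≤ c1) (hL : 0 < L)
    (HL : ∀ i < n, c1 * (2 ^ i * ρ) / L ≤ S1d P (gY ρ i)) :
    c1 * n * ρ / (2 * L) ≤ ∑ D ∈ P.powerset, gst n ρ (∏ p ∈ D, p) / ((∏ p ∈ D, p : ℕ) : ℝ) := by
  have hG1 := gG_ge n hn
  have hG2 := gG_le n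
  have e1 : ∑ D ∈ P.powerset, gst n ρ (∏ p ∈ D, p) / ((∏ p ∈ D, p : ℕ) : ℝ) =
      (∑ i ∈ range n, (1 / 2 : ℝ) ^ i * S1d P (gY ρ i)) / gG n := by
    simp_rw [S1d_eq, Finset.mul_sum]
    rw [Finset.sum_comm, Finset.sum_div]
    apply Finset.sum_congr rfl
    intro D _
    unfold gst
    rw [div_right_comm, Finset.sum_div]
    congr 1
    apply Finset.sum_congr rfl
    intro i _
    ring
  rw [e1]
  have h1 : ∑ i ∈ range n, (1 / 2 : ℝ) ^ i * (c1 * (2 ^ i * ρ) / L) ≤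
      ∑ i ∈ range n, (1 / 2 : ℝ) ^ i * S1d P (gY ρ i) := by
    apply Finset.sum_le_sum
    intro i hi
    exact mul_le_mul_of_nonneg_left (HL i (Finset.mem_range.mp hi)) (by positivity)
  have h2 : ∑ i ∈ range n, (1 / 2 : ℝ) ^ i * (c1 * (2 ^ i * ρ) / L) = n * (c1 * ρ / L) := by
    rw [← Finset.card_range n, ← nsmul_eq_mul, ← Finset.sum_const, Finset.card_range]
    apply Finset.sum_congr rfl
    intro i _
    have : (1 / 2 : ℝ) ^ i * 2 ^ i = 1 := by rw [← mul_pow]; norm_num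
    calc (1 / 2 : ℝ) ^ i * (c1 * (2 ^ i * ρ) / L) = ((1 / 2 : ℝ) ^ i * 2 ^ i) * (c1 * ρ / L) := by ring
      _ = _ := by rw [this, one_mul]
  rw [h2] at h1
  calc c1 * n * ρ / (2 * L) = n * (c1 * ρ / L) / 2 := by field_simp
    _ ≤ n * (c1 * ρ / L) / gG n := by
        apply div_le_div_of_nonneg_left _ (by linarith) hG2
        positivity
    _ ≤ _ := div_le_div_of_nonneg_right h1 (by linarith)

lemma A2_upper (hn : 1 ≤ n) (hρ : 0 ≤ ρ) (hC1 : 0 ≤ C1) (hL : 0 < L)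
    (HU : ∀ i < n, S1d P (gY ρ i) ≤ C1 * (2 ^ i * ρ) / L) :
    ∑ D ∈ P.powerset, gst n ρ (∏ p ∈ D, p) ^ 2 / ((∏ p ∈ D, p : ℕ) : ℝ) ≤ 8 * C1 * ρ / L := by
  have h1 : ∑ D ∈ P.powerset, gst n ρ (∏ p ∈ D, p) ^ 2 / ((∏ p ∈ D, p : ℕ) : ℝ) ≤
      ∑ D ∈ P.powerset, (4 * ∑ i ∈ range n, (1 / 4 : ℝ) ^ i *
        (if ((∏ p ∈ D, p : ℕ) : ℝ) ≤ gY ρ i then 1 else 0)) / ((∏ p ∈ D, p : ℕ) : ℝ) := by
    apply Finset.sum_le_sum
    intro D _
    exact div_le_div_of_nonneg_right (gst_sq hn hρ _) (Nat.cast_nonneg _)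
  have h2 : ∑ D ∈ P.powerset, (4 * ∑ i ∈ range n, (1 / 4 : ℝ) ^ i *
        (if ((∏ p ∈ D, p : ℕ) : ℝ) ≤ gY ρ i then 1 else 0)) / ((∏ p ∈ D, p : ℕ) : ℝ) =
      4 * ∑ i ∈ range n, (1 / 4 : ℝ) ^ i * S1d P (gY ρ i) := by
    simp_rw [S1d_eq, Finset.mul_sum]
    rw [Finset.sum_comm]
    apply Finset.sum_congr rfl
    intro D _
    rw [Finset.sum_div]
    apply Finset.sum_congr rfl
    intro i _
    ring
  rw [h2] at h1
  refine h1.trans ?_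
  have h3 : ∑ i ∈ range n, (1 / 4 : ℝ) ^ i * S1d P (gY ρ i) ≤
      ∑ i ∈ range n, (1 / 4 : ℝ) ^ i * (C1 * (2 ^ i * ρ) / L) := by
    apply Finset.sum_le_sum
    intro i hi
    exact mul_le_mul_of_nonneg_left (HU i (Finset.mem_range.mp hi)) (by positivity)
  have h4 : ∑ i ∈ range n, (1 / 4 : ℝ) ^ i * (C1 * (2 ^ i * ρ) / L) = gG n * (C1 * ρ / L) := by
    unfold gG
    rw [Finset.sum_mul]
    apply Finset.sum_congr rfl
    intro i _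
    have : (1 / 4 : ℝ) ^ i * 2 ^ i = (1 / 2 : ℝ) ^ i := by rw [← mul_pow]; norm_num
    rw [← this]; ring
  rw [h4] at h3
  have h5 : gG n * (C1 * ρ / L) ≤ 2 * (C1 * ρ / L) :=
    mul_le_mul_of_nonneg_right (gG_le n) (by positivity)
  calc 4 * ∑ i ∈ range n, (1 / 4 : ℝ) ^ i * S1d P (gY ρ i) ≤ 4 * (2 * (C1 * ρ / L)) := by linarith
    _ = _ := by ring

lemma A2_lower (hn : 1 ≤ n) (hρ : 0 ≤ ρ) (HL : c1 * ρ / L ≤ S1d P (gY ρ 0)) :
    c1 * ρ / L ≤ ∑ D ∈ P.powerset, gst n ρ (∏ p ∈ D, p) ^ 2 / ((∏ p ∈ D, p : ℕ) : ℝ) := by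
  refine HL.trans ?_
  rw [S1d_eq]
  apply Finset.sum_le_sum
  intro D _
  apply div_le_div_of_nonneg_right _ (Nat.cast_nonneg _)
  split_ifs with h
  · rw [gst_eq_one hn hρ h]; norm_num
  · positivity

lemma B1_upper (hn : 1 ≤ n) (hρ : 0 ≤ ρ) (hL : 0 < L) (hP : ∀ p ∈ P, p.Prime)
    (HU : ∀ i < n, S1d P (gY ρ i) ≤ C1 * (2 ^ i * ρ) / L) :
    ∑ D ∈ P.powerset, gst n ρ (∏ p ∈ D, p) ^ 2 * Real.log ((∏ p ∈ D, p : ℕ) : ℝ) /
      ((∏ p ∈ D, p : ℕ) : ℝ) ≤ 4 * C1 * n * ρ ^ 2 / L := by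
  have hpos : ∀ D ∈ P.powerset, (1 : ℝ) ≤ ((∏ p ∈ D, p : ℕ) : ℝ) := by
    intro D hD
    have : 0 < ∏ p ∈ D, p := Finset.prod_pos (fun p hp => (hP p (Finset.mem_powerset.mp hD hp)).pos)
    exact_mod_cast this
  have h1 : ∑ D ∈ P.powerset, gst n ρ (∏ p ∈ D, p) ^ 2 * Real.log ((∏ p ∈ D, p : ℕ) : ℝ) /
      ((∏ p ∈ D, p : ℕ) : ℝ) ≤
      ∑ D ∈ P.powerset, (4 * ∑ i ∈ range n, (1 / 4 : ℝ) ^ i * (2 ^ i * ρ) *
        (if ((∏ p ∈ D, p : ℕ) : ℝ) ≤ gY ρ i then 1 else 0)) / ((∏ p ∈ D, p : ℕ) : ℝ) := by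
    apply Finset.sum_le_sum
    intro D hD
    apply div_le_div_of_nonneg_right _ (Nat.cast_nonneg _)
    have h2 := gst_sq hn hρ (∏ p ∈ D, p)
    have hlog : 0 ≤ Real.log ((∏ p ∈ D, p : ℕ) : ℝ) := Real.log_nonneg (hpos D hD)
    refine (mul_le_mul_of_nonneg_right h2 hlog).trans ?_
    rw [mul_assoc, Finset.sum_mul]
    apply mul_le_mul_of_nonneg_left _ (by norm_num)
    apply Finset.sum_le_sum
    intro i _
    split_ifs with h3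
    · rw [mul_one, mul_one]
      apply mul_le_mul_of_nonneg_left _ (by positivity)
      have h4 : (0 : ℝ) < ((∏ p ∈ D, p : ℕ) : ℝ) := by linarith [hpos D hD]
      rw [← log_gY ρ i]
      exact Real.log_le_log h4 h3
    · simp
  refine h1.trans ?_
  have h2 : ∑ D ∈ P.powerset, (4 * ∑ i ∈ range n, (1 / 4 : ℝ) ^ i * (2 ^ i * ρ) *
        (if ((∏ p ∈ D, p : ℕ) : ℝ) ≤ gY ρ i then 1 else 0)) / ((∏ p ∈ D, p : ℕ) : ℝ) =
      4 * ∑ i ∈ range n, (1 / 4 : ℝ) ^ i * (2 ^ i * ρ) * S1d P (gY ρ i) := by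
    simp_rw [S1d_eq, Finset.mul_sum]
    rw [Finset.sum_comm]
    apply Finset.sum_congr rfl
    intro D _
    rw [Finset.sum_div]
    apply Finset.sum_congr rfl
    intro i _
    ring
  rw [h2]
  have h3 : ∑ i ∈ range n, (1 / 4 : ℝ) ^ i * (2 ^ i * ρ) * S1d P (gY ρ i) ≤
      ∑ i ∈ range n, (C1 * ρ ^ 2 / L) := by
    apply Finset.sum_le_sum
    intro i hi
    have h4 := HU i (Finset.mem_range.mp hi)
    calc (1 / 4 : ℝ) ^ i * (2 ^ i * ρ) * S1d P (gY ρ i) ≤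
        (1 / 4 : ℝ) ^ i * (2 ^ i * ρ) * (C1 * (2 ^ i * ρ) / L) :=
          mul_le_mul_of_nonneg_left h4 (by positivity)
      _ = ((1 / 4 : ℝ) ^ i * (2 ^ i * 2 ^ i)) * (C1 * ρ ^ 2 / L) := by ring
      _ = C1 * ρ ^ 2 / L := by
          have : (1 / 4 : ℝ) ^ i * (2 ^ i * 2 ^ i) = 1 := by
            rw [← mul_pow, ← mul_pow]; norm_num
          rw [this, one_mul]
  rw [Finset.sum_const, Finset.card_range, nsmul_eq_mul] at h3
  calc 4 * ∑ i ∈ range n, (1 / 4 : ℝ) ^ i * (2 ^ i * ρ) * S1d P (gY ρ i) ≤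
      4 * (n * (C1 * ρ ^ 2 / L)) := by linarith
    _ = _ := by ring

end

end Pool.Agent.H16
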