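import Pool.Agent.H16.MT5
import Pool.Agent.H16.MT7
import Pool.Agent.H90.MT

/-!
The weighted count: remainder of the unweighted sum, pointwise bound of the sieve weight, positivity.
-/

set_option autoImplicit false

open Finset Filter Topology

namespace Pool.Agent.H16

open Pool.Agent.H90 (MT.Col MT.Lam MT.psi MT.zz MT.part MT.nn MT.GOK MT.EE)

variable {k : ℕ}

/-- exact count of a residue class up to a bounded error -/
lemma card_class_abs (N q r : ℕ) (hq : 0 < q) :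
    |(#((Ioc 0 N).filter (fun n => n ≡ r [MOD q])) : ℝ) - (N : ℝ) / q| ≤ 3 := by
  classical
  have h := count_modEq_bound q hq r (N + 1)
  have hq' : (1 : ℝ) ≤ q := by exact_mod_cast hq
  have e1 : range (N + 1) = insert 0 (Ioc 0 N) := by
    ext n
    rw [Finset.mem_range, Finset.mem_insert, Finset.mem_Ioc]
    omega
  have e2 : (∑ k ∈ range (N + 1), if k % q = r % q then (1 : ℝ) else 0) =
      (if 0 % q = r % q then (1 : ℝ) else 0) + (#((Ioc 0 N).filter (fun n => n ≡ r [MOD q])) : ℝ) := by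
    rw [e1, Finset.sum_insert (by simp)]
    congr 1
    rw [Finset.card_filter]
    push_cast
    rfl
  rw [e2] at h
  have h3 : ((N + 1 : ℕ) : ℝ) / q = (N : ℝ) / q + 1 / q := by
    push_cast; rw [add_div]
  rw [h3] at h
  have h4 : (0 : ℝ) < 1 / q := by positivity
  have h5 : (1 : ℝ) / q ≤ 1 := by rw [div_le_one (by linarith)]; exact hq'
  have h6 : (0 : ℝ) ≤ (if 0 % q = r % q then (1 : ℝ) else 0) ∧
      (if 0 % q = r % q then (1 : ℝ) else 0) ≤ (1 : ℝ) := by
    split_ifs <;> norm_num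
  rw [abs_le] at h ⊢
  constructor <;> linarith [h.1, h.2, h6.1, h6.2]

/-- the unweighted remainder -/
lemma plain_rem (h : Fin k → ℕ) (P : Finset ℕ) (hP : ∀ p ∈ P, p.Prime)
    (hPh : ∀ p ∈ P, ∀ j j', j ≠ j' → ¬ p ∣ nd (h j) (h j')) (W A0 N : ℕ) (hW : 0 < W)
    (hPW : ∀ p ∈ P, ¬ p ∣ W) (v : ℝ) (hv : 0 ≤ v) (D : Finset ℕ) (hD : D ⊆ P) (b : ℕ → Fin k) :
    |(∑ n ∈ (Ioc 0 N).filter (fun n => n ≡ A0 [MOD W]), v *
      ∏ p : {p // p ∈ P}, (if (p : ℕ) ∈ D → outc h n p = some (b p) then (1 : ℝ) else 0)) -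
      v * ((N : ℝ) / W) * ∏ p ∈ D, 1 / (p : ℝ)| ≤ 3 * v := by
  classical
  have hDp : ∀ p ∈ D, p.Prime := fun p hp => hP p (hD hp)
  set d := ∏ p ∈ D, p with hd
  have hdpos : 0 < d := Finset.prod_pos (fun p hp => (hDp p hp).pos)
  have hcop : Nat.Coprime W d := by
    rw [hd]
    apply Nat.Coprime.prod_right
    intro p hp
    exact ((Nat.Prime.coprime_iff_not_dvd (hDp p hp)).mpr (hPW p (hD hp))).symm
  obtain ⟨b1, hb1⟩ := exists_class D hDp (fun p => (p - 1) * h (b p))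
  obtain ⟨b0, hb0W, hb0d⟩ := Nat.chineseRemainder hcop A0 b1
  have hprod : ∀ n : ℕ, (∏ p : {p // p ∈ P}, (if (p : ℕ) ∈ D → outc h n p = some (b p) then (1 : ℝ) else 0)) =
      if ∀ p ∈ D, n ≡ (p - 1) * h (b p) [MOD p] then 1 else 0 := by
    intro n
    rw [Finset.prod_coe_sort P (fun p => if p ∈ D → outc h n p = some (b p) then (1 : ℝ) else 0),
      Finset.prod_ite_zero]
    simp only [Finset.prod_const_one]
    have hiff : (∀ p ∈ P, p ∈ D → outc h n p = some (b p)) ↔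
        ∀ p ∈ D, n ≡ (p - 1) * h (b p) [MOD p] := by
      constructor
      · intro h1 p hp
        have h2 := (outc_eq_some (hPh p (hD hp)) (b p)).mp (h1 p (hD hp) hp)
        have h3 := (class_shift (i := 0) (hDp p hp).one_le).mp h2
        rwa [add_zero, zero_add] at h3
      · intro h1 p _ hp
        rw [outc_eq_some (hPh p (hD hp)), class_shift (i := 0) (hDp p hp).one_le, add_zero, zero_add]
        exact h1 p hp
    by_cases h1 : ∀ p ∈ D, n ≡ (p - 1) * h (b p) [MOD p]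
    · rw [if_pos h1, if_pos (hiff.mpr h1)]
    · rw [if_neg h1, if_neg (fun h2 => h1 (hiff.mp h2))]
  have hcount : ∑ n ∈ (Ioc 0 N).filter (fun n => n ≡ A0 [MOD W]), v *
      ∏ p : {p // p ∈ P}, (if (p : ℕ) ∈ D → outc h n p = some (b p) then (1 : ℝ) else 0) =
      v * (#((Ioc 0 N).filter (fun n => n ≡ b0 [MOD W * d])) : ℝ) := by
    rw [← Finset.mul_sum]
    congr 1
    simp_rw [hprod]
    rw [← Finset.sum_filter, Finset.filter_filter, Finset.sum_const, nsmul_eq_mul, mul_one]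
    congr 2
    apply Finset.filter_congr
    intro n _
    rw [← Nat.modEq_and_modEq_iff_modEq_mul hcop, hd, modEq_prod_iff D hDp]
    have hb0p := (modEq_prod_iff D hDp b0 b1).mp hb0d
    constructor
    · rintro ⟨h1, h2⟩
      exact ⟨h1.trans hb0W.symm, fun p hp => (h2 p hp).trans ((hb1 p hp).symm.trans (hb0p p hp).symm)⟩
    · rintro ⟨h1, h2⟩
      exact ⟨h1.trans hb0W, fun p hp => (h2 p hp).trans ((hb0p p hp).trans (hb1 p hp))⟩
  rw [hcount]
  have h1 := card_class_abs N (W * d) b0 (Nat.mul_pos hW hdpos)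
  have h2 : v * ((N : ℝ) / W) * ∏ p ∈ D, 1 / (p : ℝ) = v * ((N : ℝ) / ((W * d : ℕ) : ℝ)) := by
    rw [Finset.prod_div_distrib, Finset.prod_const_one, hd]
    push_cast
    have hW' : (W : ℝ) ≠ 0 := by exact_mod_cast hW.ne'
    field_simp
  rw [h2, ← mul_sub, abs_mul, abs_of_nonneg hv]
  calc v * _ ≤ v * 3 := mul_le_mul_of_nonneg_left h1 hv
    _ = _ := mul_comm _ _

/-- pointwise bound for the sieve weight -/
lemma Lam_abs_le (P : Finset ℕ) (hP : ∀ p ∈ P, p.Prime) (g : ℕ → ℝ) (hg : MT.GOK P g) (R : ℝ)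
    (a : MT.Col P k) :
    |MT.Lam g R a| ≤ 3 ^ #{p : {p // p ∈ P} | a p ≠ none} * ∏ p ∈ P, (1 + (k : ℝ) / p) := by
  classical
  have hpart : ∀ (c : MT.Col P k) (j : Fin k), ∃ D ⊆ P, MT.part c j = ∏ p ∈ D, p := by
    intro c j
    refine ⟨P.attach.filter (fun p => c p = some j) |>.image Subtype.val, ?_, ?_⟩
    · intro p hp
      rw [Finset.mem_image] at hp
      obtain ⟨q, _, rfl⟩ := hp
      exact q.2
    · unfold MT.part
      rw [Finset.prod_image (fun a _ b _ hab => Subtype.ext hab), Finset.prod_filter]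
      rfl
  have hz : ∀ c : MT.Col P k, |MT.zz g R c| ≤ 1 := by
    intro c
    unfold MT.zz
    rw [abs_mul, abs_mul, Finset.abs_prod, Finset.abs_prod]
    have h1 : |(if (MT.nn c : ℝ) ≤ R then (1 : ℝ) else 0)| ≤ 1 := by
      split_ifs <;> simp
    have h2 : ∏ p, |if c p = none then (1 : ℝ) else -1| = 1 := by
      apply Finset.prod_eq_one
      intro p _
      split_ifs <;> simp
    have h3 : ∏ j, |g (MT.part c j)| ≤ 1 := by
      apply Finset.prod_le_one (fun j _ => abs_nonneg _)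
      intro j _
      obtain ⟨D, hDP, hD⟩ := hpart c j
      rw [hD, abs_of_nonneg (hg.nonneg D hDP)]
      have := hg.anti D hDP ∅ (Finset.empty_subset _)
      rw [Finset.prod_empty, hg.one] at this
      exact this
    rw [h2, one_mul]
    calc _ ≤ (1 : ℝ) * 1 := mul_le_mul h1 h3 (Finset.prod_nonneg (fun j _ => abs_nonneg _)) zero_le_one
      _ = 1 := one_mul 1
  have hpsi : ∀ p : {p // p ∈ P}, ∑ o : Option (Fin k), |MT.psi (fun _ => 1 / ((p : ℕ) : ℝ)) o (a p)| ≤
      (if a p ≠ none then 3 else 1) * (1 + (k : ℝ) / ((p : ℕ) : ℝ)) := by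
    intro p
    have hp2 : (2 : ℝ) ≤ ((p : ℕ) : ℝ) := by exact_mod_cast (hP p p.2).two_le
    have hp0 : (0 : ℝ) < ((p : ℕ) : ℝ) := by linarith
    rw [Fintype.sum_option]
    have e1 : |MT.psi (fun _ : Fin k => 1 / ((p : ℕ) : ℝ)) none (a p)| = 1 := by
      simp [MT.psi]
    have e2 : ∀ j : Fin k, |MT.psi (fun _ => 1 / ((p : ℕ) : ℝ)) (some j) (a p)| ≤
        (if a p = some j then 1 else 0) + 1 / ((p : ℕ) : ℝ) := by
      intro j
      simp only [MT.psi]
      have h1 : (0 : ℝ) ≤ 1 / ((p : ℕ) : ℝ) := by positivity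
      split_ifs
      · rw [abs_le]; constructor <;> linarith
      · rw [abs_le]; constructor <;> linarith
    have e3 : ∑ j : Fin k, |MT.psi (fun _ => 1 / ((p : ℕ) : ℝ)) (some j) (a p)| ≤
        (if a p ≠ none then 1 else 0) + (k : ℝ) / ((p : ℕ) : ℝ) := by
      refine (Finset.sum_le_sum (fun j _ => e2 j)).trans ?_
      rw [Finset.sum_add_distrib, Finset.sum_const, Finset.card_univ, Fintype.card_fin, nsmul_eq_mul,
        mul_one_div]
      apply add_le_add _ le_rfl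
      cases hap : a p with
      | none => simp
      | some j0 =>
        simp
    rw [e1]
    have hk0 : 0 ≤ (k : ℝ) / ((p : ℕ) : ℝ) := by positivity
    split_ifs at e3 ⊢
    · linarith
    · linarith
  have hsum : MT.Lam g R a = ∑ c : MT.Col P k, MT.zz g R c *
      ∏ p : {p // p ∈ P}, MT.psi (fun _ => 1 / ((p : ℕ) : ℝ)) (c p) (a p) := rfl
  rw [hsum]
  calc |∑ c : MT.Col P k, MT.zz g R c *
      ∏ p : {p // p ∈ P}, MT.psi (fun _ => 1 / ((p : ℕ) : ℝ)) (c p) (a p)| ≤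
      ∑ c : MT.Col P k, |MT.zz g R c *
        ∏ p : {p // p ∈ P}, MT.psi (fun _ => 1 / ((p : ℕ) : ℝ)) (c p) (a p)| :=
        Finset.abs_sum_le_sum_abs _ _
    _ ≤ ∑ c : MT.Col P k, ∏ p : {p // p ∈ P}, |MT.psi (fun _ => 1 / ((p : ℕ) : ℝ)) (c p) (a p)| := by
        apply Finset.sum_le_sum
        intro c _
        rw [abs_mul, Finset.abs_prod]
        have h1 : 0 ≤ ∏ p : {p // p ∈ P}, |MT.psi (fun _ => 1 / ((p : ℕ) : ℝ)) (c p) (a p)| :=
          Finset.prod_nonneg (fun p _ => abs_nonneg _)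
        calc _ ≤ 1 * ∏ p : {p // p ∈ P}, |MT.psi (fun _ => 1 / ((p : ℕ) : ℝ)) (c p) (a p)| :=
              mul_le_mul_of_nonneg_right (hz c) h1
          _ = _ := one_mul _
    _ = ∏ p : {p // p ∈ P}, ∑ o : Option (Fin k), |MT.psi (fun _ => 1 / ((p : ℕ) : ℝ)) o (a p)| := by
        rw [Finset.prod_univ_sum]
        apply Finset.sum_congr _ (fun _ _ => rfl)
        ext c
        simp
    _ ≤ ∏ p : {p // p ∈ P}, (if a p ≠ none then (3 : ℝ) else 1) * (1 + (k : ℝ) / ((p : ℕ) : ℝ)) :=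
        Finset.prod_le_prod (fun p _ => Finset.sum_nonneg (fun o _ => abs_nonneg _)) (fun p _ => hpsi p)
    _ = _ := by
        rw [Finset.prod_mul_distrib]
        congr 1
        · rw [Finset.prod_ite, Finset.prod_const_one, mul_one, Finset.prod_const]
        · rw [Finset.prod_coe_sort P (fun p => 1 + (k : ℝ) / (p : ℝ))]

end Pool.Agent.H16
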