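import Pool.Agent.H16.BrunTwoMain
import Pool.Agent.H16.CoverMain

/-!
Gaps between consecutive integers `m` all of whose prime factors `q` satisfy `m < q ^ u`.
-/

set_option autoImplicit false

open Finset Real Filter

namespace Pool.Agent.H16

/-- `m ≥ 2` and every prime factor `q` of `m` satisfies `m < q ^ u`.
For `u = 2` this says that `m` is prime. -/
def PRough (u m : ℕ) : Prop := 2 ≤ m ∧ ∀ q : ℕ, q.Prime → q ∣ m → m < q ^ u

lemma pRough_two_iff (m : ℕ) : PRough 2 m ↔ m.Prime := by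
  constructor
  · rintro ⟨h2, h⟩
    by_contra hp
    have hmf := Nat.minFac_sq_le_self (by omega) hp
    have := h m.minFac (Nat.minFac_prime (by omega)) (Nat.minFac_dvd m)
    omega
  · intro hp
    refine ⟨hp.two_le, ?_⟩
    intro q hq hqm
    rw [(Nat.prime_dvd_prime_iff_eq hq hp).mp hqm]
    nlinarith [hp.two_le]

/-- product of the primes up to `z` -/
noncomputable def PP (z : ℕ) : ℕ := ∏ p ∈ Nat.primesLE z, p

lemma PP_pos (z : ℕ) : 0 < PP z := Finset.prod_pos (fun _ hp => (Nat.mem_primesLE.mp hp).2.pos)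

lemma PP_le (z : ℕ) : PP z ≤ 4 ^ z := by
  have := primorial_le_four_pow z
  rwa [primorial_eq_prod_primesLE] at this

lemma dvd_PP {z p : ℕ} (hp : p.Prime) (hpz : p ≤ z) : p ∣ PP z :=
  Finset.dvd_prod_of_mem _ (Nat.mem_primesLE.mpr ⟨hpz, hp⟩)

lemma coprime_PP {z p : ℕ} (hp : p.Prime) (hpz : z < p) : Nat.Coprime (PP z) p := by
  unfold PP
  apply Nat.Coprime.prod_left
  intro q hq
  obtain ⟨h1, h2⟩ := Nat.mem_primesLE.mp hq
  rw [Nat.coprime_primes h2 hp]
  omega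

/-- combine residues by the Chinese remainder theorem -/
lemma exists_crt (z : ℕ) (a : ℕ → ℕ) : ∃ A0 : ℕ, A0 < PP z ∧
    ∀ p, p.Prime → p ≤ z → p ∣ A0 + a p := by
  have hs : ∀ p ∈ Nat.primesLE z, (id p) ≠ 0 := fun p hp => (Nat.mem_primesLE.mp hp).2.ne_zero
  have hpp : Set.Pairwise (↑(Nat.primesLE z)) (Function.onFun Nat.Coprime (id : ℕ → ℕ)) := by
    intro p hp q hq hpq
    exact (Nat.coprime_primes (Nat.mem_primesLE.mp hp).2 (Nat.mem_primesLE.mp hq).2).mpr hpq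
  let K := Nat.chineseRemainderOfFinset (fun p => p - a p % p) id (Nat.primesLE z) hs hpp
  refine ⟨K.1, Nat.chineseRemainderOfFinset_lt_prod _ _ hs hpp, ?_⟩
  intro p hp hpz
  have h := K.2 p (Nat.mem_primesLE.mpr ⟨hpz, hp⟩)
  simp only [id] at h
  have h1 : K.1 + a p ≡ (p - a p % p) + a p % p [MOD p] :=
    Nat.ModEq.add h (Nat.mod_modEq _ _).symm
  have h2 : (p - a p % p) + a p % p = p := Nat.sub_add_cancel (Nat.mod_lt _ hp.pos).le
  rw [h2] at h1
  exact (Nat.modEq_zero_iff_dvd.mp (h1.trans (by simp [Nat.ModEq])))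

/-- residues to be avoided by `k` so that `(A0 + k P)(A0 + k P + t)` is coprime to `p` -/
def Rset (A0 P t p : ℕ) : Finset ℕ :=
  (range p).filter (fun k => p ∣ A0 + k * P) ∪ (range p).filter (fun k => p ∣ A0 + k * P + t)

lemma Rset_subset (A0 P t p : ℕ) : Rset A0 P t p ⊆ range p := by
  unfold Rset
  exact Finset.union_subset (Finset.filter_subset _ _) (Finset.filter_subset _ _)

lemma card_one_class (A0 P p : ℕ) (hcop : Nat.Coprime P p) :
    #((range p).filter (fun k => p ∣ A0 + k * P)) ≤ 1 := by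
  rw [Finset.card_le_one]
  intro k hk l hl
  rw [Finset.mem_filter, Finset.mem_range] at hk hl
  have h1 : A0 + k * P ≡ A0 + l * P [MOD p] :=
    ((Nat.modEq_zero_iff_dvd.mpr hk.2).trans (Nat.modEq_zero_iff_dvd.mpr hl.2).symm)
  have h2 : k * P ≡ l * P [MOD p] := Nat.ModEq.add_left_cancel' A0 h1
  have h3 : k ≡ l [MOD p] := Nat.ModEq.cancel_right_of_coprime hcop.symm h2
  have h4 : k % p = l % p := h3
  rwa [Nat.mod_eq_of_lt hk.1, Nat.mod_eq_of_lt hl.1] at h4

lemma card_Rset (A0 P t p : ℕ) (hcop : Nat.Coprime P p) : #(Rset A0 P t p) ≤ 2 := by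
  unfold Rset
  refine (Finset.card_union_le _ _).trans ?_
  have h1 := card_one_class A0 P p hcop
  have h2 := card_one_class (A0 + t) P p hcop
  have e : (range p).filter (fun k => p ∣ A0 + k * P + t) =
      (range p).filter (fun k => p ∣ A0 + t + k * P) := by
    apply Finset.filter_congr
    intro k _
    rw [show A0 + k * P + t = A0 + t + k * P by ring]
  rw [e]
  omega

lemma not_mem_Rset {A0 P t p k : ℕ} (hp : p.Prime) (h : k % p ∉ Rset A0 P t p) :
    ¬ p ∣ A0 + k * P ∧ ¬ p ∣ A0 + k * P + t := by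
  unfold Rset at h
  rw [Finset.mem_union, not_or, Finset.mem_filter, Finset.mem_filter, Finset.mem_range] at h
  have hlt := Nat.mod_lt k hp.pos
  have hmod : A0 + k % p * P ≡ A0 + k * P [MOD p] :=
    Nat.ModEq.add_left _ (Nat.ModEq.mul_right _ (Nat.mod_modEq k p))
  constructor
  · intro hd
    apply h.1
    exact ⟨hlt, (Nat.ModEq.dvd_iff hmod (dvd_refl p)).mpr hd⟩
  · intro hd
    apply h.2
    exact ⟨hlt, (Nat.ModEq.dvd_iff (hmod.add_right t) (dvd_refl p)).mpr hd⟩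

/-- Deterministic core: from a good `k` to a gap. -/
lemma gap_of_good (u N z y t A0 k : ℕ) (a : ℕ → ℕ) (hu : 8 ≤ u)
    (ha : ∀ p, p.Prime → p ≤ z → a p % p ≠ 0 ∧ a p % p ≠ t % p)
    (hcov : ∀ i, 0 < i → i < t → ∃ p, p.Prime ∧ p ≤ z ∧ i % p = a p % p)
    (hA0 : ∀ p, p.Prime → p ≤ z → p ∣ A0 + a p)
    (hy : N ≤ y ^ 8)
    (hk : ∀ p ∈ primesIoc z y, k % p ∉ Rset A0 (PP z) t p) (hkz : z ^ u ≤ k)
    (hk2 : 2 ≤ k)
    (hN : A0 + k * PP z + t < N) :
    PRough u (A0 + k * PP z) ∧ PRough u (A0 + k * PP z + t) ∧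
      ∀ i, 0 < i → i < t → ¬ PRough u (A0 + k * PP z + i) := by
  set m := A0 + k * PP z with hm
  have hPP := PP_pos z
  have hkm : k ≤ m := by nlinarith
  -- divisibility by small primes
  have hsmall : ∀ p, p.Prime → p ≤ z → ∀ i, p ∣ m + i ↔ i % p = a p % p := by
    intro p hp hpz i
    have h1 : m + a p ≡ 0 [MOD p] := by
      rw [Nat.modEq_zero_iff_dvd]
      have h2 := hA0 p hp hpz
      have h3 : p ∣ k * PP z := Dvd.dvd.mul_left (dvd_PP hp hpz) k
      have : m + a p = (A0 + a p) + k * PP z := by rw [hm]; ring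
      rw [this]
      exact dvd_add h2 h3
    constructor
    · intro h
      have h4 : m + i ≡ m + a p [MOD p] := (Nat.modEq_zero_iff_dvd.mpr h).trans h1.symm
      exact Nat.ModEq.add_left_cancel' m h4
    · intro h
      have h4 : m + i ≡ m + a p [MOD p] := Nat.ModEq.add_left m h
      exact Nat.modEq_zero_iff_dvd.mp (h4.trans h1)
  have hbigq : ∀ q, q.Prime → y < q → ∀ x, x < N → x < q ^ u := by
    intro q hq hyq x hx
    calc x < N := hx
      _ ≤ y ^ 8 := hy
      _ ≤ q ^ 8 := Nat.pow_le_pow_left hyq.le 8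
      _ ≤ q ^ u := Nat.pow_le_pow_right hq.pos hu
  have hrough : ∀ x, 2 ≤ x → x < N → (∀ p, p.Prime → p ≤ z → ¬ p ∣ x) →
      (∀ p, p.Prime → z < p → p ≤ y → ¬ p ∣ x) → PRough u x := by
    intro x hx2 hxN h1 h2
    refine ⟨hx2, fun q hq hqx => ?_⟩
    apply hbigq q hq _ x hxN
    by_contra hcon
    rcases Nat.lt_or_ge z q with h | h
    · exact h2 q hq h (not_lt.mp hcon) hqx
    · exact h1 q hq h hqx
  refine ⟨?_, ?_, ?_⟩
  · apply hrough m (by omega) (by omega)
    · intro p hp hpz hd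
      have := (hsmall p hp hpz 0).mp (by simpa using hd)
      rw [Nat.zero_mod] at this
      exact (ha p hp hpz).1 this.symm
    · intro p hp hzp hpy
      exact (not_mem_Rset hp (hk p (mem_primesIoc.mpr ⟨hzp, hpy, hp⟩))).1
  · apply hrough (m + t) (by omega) (by omega)
    · intro p hp hpz hd
      have := (hsmall p hp hpz t).mp hd
      exact (ha p hp hpz).2 this.symm
    · intro p hp hzp hpy
      exact (not_mem_Rset hp (hk p (mem_primesIoc.mpr ⟨hzp, hpy, hp⟩))).2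
  · intro i hi0 hit hR
    obtain ⟨p, hp, hpz, hmod⟩ := hcov i hi0 hit
    have hd := (hsmall p hp hpz i).mpr hmod
    have h1 := hR.2 p hp hd
    have h2 : p ^ u ≤ z ^ u := Nat.pow_le_pow_left hpz u
    omega

open Classical in
/-- starting points of `u`-rough gaps of length `t` below `N` -/
noncomputable def gapStarts (u N t : ℕ) : Finset ℕ :=
  {m ∈ range N | PRough u m ∧ PRough u (m + t) ∧ ∀ i, 0 < i → i < t → ¬ PRough u (m + i)}

lemma mem_gapStarts {u N t m : ℕ} : m ∈ gapStarts u N t ↔ m < N ∧ PRough u m ∧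
    PRough u (m + t) ∧ ∀ i, 0 < i → i < t → ¬ PRough u (m + i) := by
  classical
  unfold gapStarts
  rw [Finset.mem_filter, Finset.mem_range]

lemma num_aux (a b : ℝ) (hb : 0 < b) : 2 * (a / b) = (a / 4) / ((1 / 8) * b) := by
  field_simp
  ring

set_option maxHeartbeats 1000000 in
/-- many gaps of each even length `t ≤ C log N` -/
theorem many_gaps (u : ℕ) (hu : 8 ≤ u) (C ε : ℝ) (hε : 0 < ε) :
    ∀ᶠ N : ℕ in atTop, ∀ t : ℕ, Even t → 0 < t → (t : ℝ) ≤ C * Real.log N →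
      (N : ℝ) ^ (1 - ε) ≤ #(gapStarts u N t) := by
  -- parameters
  set ε' : ℝ := min ε (1 / 2) with hε'
  have hε'pos : 0 < ε' := lt_min hε (by norm_num)
  have hε'le : ε' ≤ ε := min_le_left _ _
  have hε'half : ε' ≤ 1 / 2 := min_le_right _ _
  obtain ⟨D, hD1000, hDε⟩ : ∃ D : ℕ, 1000 ≤ D ∧ 4 / ε' ≤ D := by
    obtain ⟨D, hD⟩ := exists_nat_ge (max 1000 (4 / ε'))
    exact ⟨D, by exact_mod_cast (le_max_left _ _).trans hD, (le_max_right _ _).trans hD⟩
  have hD0 : (0 : ℝ) < D := by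
    have : (1000 : ℝ) ≤ D := by exact_mod_cast hD1000
    linarith
  have hD1000' : (1000 : ℝ) ≤ D := by exact_mod_cast hD1000
  set κ : ℝ := 1.4 / D with hκ
  have hκ1 : κ ≤ 0.0014 := by
    rw [hκ, div_le_iff₀ hD0]; linarith
  have hκ0 : 0 < κ := by positivity
  have hκε : κ ≤ 0.35 * ε' := by
    rw [div_le_iff₀ hε'pos] at hDε
    rw [hκ, div_le_iff₀ hD0]
    nlinarith
  obtain ⟨K, hK⟩ := exists_nat_ge (max 1 (2 * D * C))
  have hK1 : 1 ≤ K := by exact_mod_cast (le_max_left _ _).trans hK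
  have hKC : 2 * D * C ≤ K := (le_max_right _ _).trans hK
  -- z as a function of N
  set zf : ℕ → ℕ := fun N => ⌊Real.log N / D⌋₊ with hzf
  have hlogN : Tendsto (fun N : ℕ => Real.log N) atTop atTop :=
    Real.tendsto_log_atTop.comp (tendsto_natCast_atTop_atTop (R := ℝ))
  have hzt : Tendsto zf atTop atTop :=
    tendsto_nat_floor_atTop.comp (hlogN.atTop_div_const hD0)
  have hlogz : Tendsto (fun N : ℕ => Real.log (zf N)) atTop atTop :=
    Real.tendsto_log_atTop.comp ((tendsto_natCast_atTop_atTop (R := ℝ)).comp hzt)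
  filter_upwards [hzt.eventually (cover K hK1), hlogz.eventually_ge_atTop 100000,
    hlogN.eventually_ge_atTop (2 * D), ev_log_le 1 (1 / 8) (by norm_num) (by norm_num),
    ev_log_le 1 (1 / (4 * (u : ℝ))) (by norm_num) (by positivity),
    ev_log_le (1 / 1000000) (ε' / 8) (by positivity) (by positivity),
    ev_log_le (1 / (4 * (|C| + 1))) 1 (by positivity) (by norm_num),
    ev_log_le (1 / 10000) 0.0001 (by norm_num) (by norm_num),
    ev_ge 1000000]
    with N hcover hlz hLN hlog8 hlogu hlogε hlogC hlog4 hN6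
  intro t ht ht0 htC
  set L := Real.log N with hL
  set z := zf N with hz
  have hN0 : (0 : ℝ) < N := by linarith
  have hN1 : (1 : ℝ) ≤ N := by linarith
  have hLpos : 0 < L := by
    have : (0 : ℝ) < 2 * D := by positivity
    linarith
  have hL2000 : 2000 ≤ L := by nlinarith
  have hzle : (z : ℝ) ≤ L / D := Nat.floor_le (by positivity)
  have hzge : L / (2 * D) ≤ z := by
    have h1 : L / D - 1 < z := Nat.sub_one_lt_floor _
    have h2 : L / (2 * D) = L / D - L / (2 * D) := by field_simp; ring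
    have h3 : 1 ≤ L / (2 * D) := by rw [le_div_iff₀ (by positivity)]; linarith
    linarith
  have hzL : (z : ℝ) ≤ L := by
    refine hzle.trans ?_
    rw [div_le_iff₀ hD0]; nlinarith
  have htK : t ≤ K * z := by
    have h1 : (t : ℝ) ≤ K * z := by
      calc (t : ℝ) ≤ C * L := htC
        _ = (2 * D * C) * (L / (2 * D)) := by field_simp
        _ ≤ K * (L / (2 * D)) := by gcongr
        _ ≤ K * z := by gcongr
    exact_mod_cast h1
  obtain ⟨a, ha, hcov⟩ := hcover t ht ht0 htK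
  obtain ⟨A0, hA0lt, hA0⟩ := exists_crt z a
  -- size of PP z
  have hPP0 : (0 : ℝ) < PP z := by exact_mod_cast PP_pos z
  have hPPle : (PP z : ℝ) ≤ (N : ℝ) ^ κ := by
    have h1 : (PP z : ℝ) ≤ (4 : ℝ) ^ z := by exact_mod_cast PP_le z
    refine h1.trans ?_
    rw [← Real.rpow_natCast, Real.rpow_def_of_pos (by norm_num : (0 : ℝ) < 4),
      Real.rpow_def_of_pos hN0]
    apply Real.exp_le_exp.mpr
    have hlog4 : Real.log 4 ≤ 1.4 := by
      have : Real.log 4 = 2 * Real.log 2 := by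
        rw [show (4 : ℝ) = 2 ^ 2 by norm_num, Real.log_pow]; norm_num
      have := Real.log_two_lt_d9
      linarith
    calc Real.log 4 * (z : ℝ) ≤ 1.4 * (L / D) := by gcongr
      _ = Real.log N * κ := by rw [hκ, ← hL]; ring
  -- y
  set y : ℕ := ⌈(N : ℝ) ^ (1 / 8 : ℝ)⌉₊ with hy
  have hy_ge : (N : ℝ) ^ (1 / 8 : ℝ) ≤ y := Nat.le_ceil _
  have hN8 : (1 : ℝ) ≤ (N : ℝ) ^ (1 / 8 : ℝ) := Real.one_le_rpow hN1 (by norm_num)
  have hy_le : (y : ℝ) ≤ 2 * (N : ℝ) ^ (1 / 8 : ℝ) := by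
    have := (Nat.ceil_lt_add_one (show (0 : ℝ) ≤ (N : ℝ) ^ (1 / 8 : ℝ) by positivity)).le
    linarith
  have hy0 : (0 : ℝ) < y := by linarith
  have hNy : N ≤ y ^ 8 := by
    have h1 : (N : ℝ) ≤ (y : ℝ) ^ 8 := by
      calc (N : ℝ) = ((N : ℝ) ^ (1 / 8 : ℝ)) ^ (8 : ℕ) := by
            rw [← Real.rpow_natCast, ← Real.rpow_mul hN0.le]; norm_num
        _ ≤ (y : ℝ) ^ 8 := by gcongr
    exact_mod_cast h1
  have hzy : z ≤ y := by
    have : (z : ℝ) ≤ y := by
      calc (z : ℝ) ≤ L := hzL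
        _ ≤ 1 * (N : ℝ) ^ (1 / 8 : ℝ) := hlog8
        _ ≤ y := by rw [one_mul]; exact hy_ge
    exact_mod_cast this
  -- X
  set X : ℕ := N / (2 * PP z) with hX
  have hXle : X * PP z ≤ N / 2 := by
    rw [Nat.le_div_iff_mul_le (by norm_num)]
    calc X * PP z * 2 = N / (2 * PP z) * (2 * PP z) := by rw [hX]; ring
      _ ≤ N := Nat.div_mul_le_self _ _
  have hXge : (N : ℝ) ^ (1 - κ) / 4 ≤ X := by
    have h1 : (N : ℝ) / (2 * PP z) - 1 ≤ X := by
      have h2 : (N : ℝ) / ((2 * PP z : ℕ) : ℝ) < ((N / (2 * PP z) : ℕ) : ℝ) + 1 := by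
        rw [div_lt_iff₀ (by push_cast; positivity)]
        have := Nat.lt_div_mul_add (a := N) (b := 2 * PP z) (by have := PP_pos z; omega)
        have h6 : (N : ℝ) < ((N / (2 * PP z) : ℕ) : ℝ) * ((2 * PP z : ℕ) : ℝ) + ((2 * PP z : ℕ) : ℝ) := by
          exact_mod_cast this
        linarith
      push_cast at h2
      rw [hX]
      linarith
    have h3 : (N : ℝ) ^ (1 - κ) / 2 ≤ (N : ℝ) / (2 * PP z) := by
      rw [Real.rpow_sub hN0, Real.rpow_one]
      have : (N : ℝ) / (N : ℝ) ^ κ / 2 = N / (2 * (N : ℝ) ^ κ) := by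
        rw [div_div]; ring_nf
      rw [this]
      gcongr
    have h4 : (4 : ℝ) ≤ (N : ℝ) ^ (1 - κ) := by
      calc (4 : ℝ) ≤ (N : ℝ) ^ (1 / 2 : ℝ) := by
            rw [← Real.sqrt_eq_rpow]
            apply Real.le_sqrt_of_sq_le
            linarith
        _ ≤ (N : ℝ) ^ (1 - κ) := Real.rpow_le_rpow_of_exponent_le hN1 (by linarith)
    linarith
  have hXy : (y : ℝ) ^ (7.98 : ℝ) ≤ X := by
    refine le_trans ?_ hXge
    have h1 : (y : ℝ) ^ (7.98 : ℝ) ≤ 256 * (N : ℝ) ^ (0.9975 : ℝ) := by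
      calc (y : ℝ) ^ (7.98 : ℝ) ≤ (2 * (N : ℝ) ^ (1 / 8 : ℝ)) ^ (7.98 : ℝ) :=
            Real.rpow_le_rpow hy0.le hy_le (by norm_num)
        _ = (2 : ℝ) ^ (7.98 : ℝ) * ((N : ℝ) ^ (1 / 8 : ℝ)) ^ (7.98 : ℝ) :=
            Real.mul_rpow (by norm_num) (by positivity)
        _ = (2 : ℝ) ^ (7.98 : ℝ) * (N : ℝ) ^ (0.9975 : ℝ) := by
            rw [← Real.rpow_mul hN0.le]; norm_num
        _ ≤ (2 : ℝ) ^ (8 : ℝ) * (N : ℝ) ^ (0.9975 : ℝ) := by
            gcongr
            · norm_num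
            · norm_num
        _ = 256 * (N : ℝ) ^ (0.9975 : ℝ) := by norm_num
    have h2 : (1024 : ℝ) ≤ (N : ℝ) ^ (0.001 : ℝ) := by
      -- from log N ≤ (1/10000) N^0.0001 and log N ≥ 2000
      have h3 : (10 : ℝ) ^ 7 ≤ (N : ℝ) ^ (0.0001 : ℝ) := by
        have : (2000 : ℝ) ≤ 1 / 10000 * (N : ℝ) ^ (0.0001 : ℝ) := hL2000.trans hlog4
        linarith
      have h4 : (N : ℝ) ^ (0.0001 : ℝ) ≤ (N : ℝ) ^ (0.001 : ℝ) :=
        Real.rpow_le_rpow_of_exponent_le hN1 (by norm_num)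
      linarith
    have h5 : (N : ℝ) ^ (1 - κ) = (N : ℝ) ^ (0.9975 : ℝ) * (N : ℝ) ^ (1 - κ - 0.9975) := by
      rw [← Real.rpow_add hN0]; congr 1; ring
    have h6 : (N : ℝ) ^ (0.001 : ℝ) ≤ (N : ℝ) ^ (1 - κ - 0.9975) :=
      Real.rpow_le_rpow_of_exponent_le hN1 (by linarith)
    rw [h5, le_div_iff₀ (by norm_num)]
    have h7 : 0 < (N : ℝ) ^ (0.9975 : ℝ) := by positivity
    calc (y : ℝ) ^ (7.98 : ℝ) * 4 ≤ (256 * (N : ℝ) ^ (0.9975 : ℝ)) * 4 := by gcongr
      _ = (N : ℝ) ^ (0.9975 : ℝ) * 1024 := by ring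
      _ ≤ (N : ℝ) ^ (0.9975 : ℝ) * (N : ℝ) ^ (0.001 : ℝ) := by gcongr
      _ ≤ _ := by gcongr
  -- the sieve
  have hsieve := brun_two z y hlz hzy (Rset A0 (PP z) t)
    (fun p _ _ _ => Rset_subset A0 (PP z) t p)
    (fun p hp hzp _ => card_Rset A0 (PP z) t p (coprime_PP hp hzp)) X hXy
  set Gd : Finset ℕ := {k ∈ range X | ∀ p ∈ primesIoc z y, k % p ∉ Rset A0 (PP z) t p} with hGd
  set B := z ^ u + 2 with hB
  set Gd2 : Finset ℕ := Gd.filter (fun k => B ≤ k) with hGd2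
  have hGd2card : (#Gd : ℝ) - B ≤ #Gd2 := by
    have h1 : #Gd ≤ #Gd2 + B := by
      have h2 : #(Gd.filter (fun k => ¬ B ≤ k)) ≤ B := by
        calc #(Gd.filter (fun k => ¬ B ≤ k)) ≤ #(range B) := by
              apply Finset.card_le_card
              intro k hk
              rw [Finset.mem_filter] at hk
              rw [Finset.mem_range]; omega
          _ = B := Finset.card_range B
      have h3 := Finset.card_filter_add_card_filter_not (s := Gd) (fun k => B ≤ k)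
      rw [← hGd2] at h3
      omega
    have : (#Gd : ℝ) ≤ #Gd2 + B := by exact_mod_cast h1
    linarith
  -- the starts
  have htN : t + N / 2 < N := by
    have h1 : (t : ℝ) ≤ N / 4 := by
      calc (t : ℝ) ≤ C * L := htC
        _ ≤ |C| * L := by gcongr; exact le_abs_self C
        _ ≤ (|C| + 1) * (1 / (4 * (|C| + 1)) * (N : ℝ) ^ (1 : ℝ)) := by
            have := abs_nonneg C
            gcongr
            linarith
        _ = N / 4 := by
            rw [Real.rpow_one]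
            have : |C| + 1 ≠ 0 := by positivity
            field_simp
    have h2 : 4 * t ≤ N := by
      have : (4 : ℝ) * t ≤ N := by linarith
      exact_mod_cast this
    omega
  have hinj : #Gd2 ≤ #(gapStarts u N t) := by
    apply Finset.card_le_card_of_injOn (fun k => A0 + k * PP z)
    · intro k hk
      have hk' := Finset.mem_filter.mp (Finset.mem_coe.mp hk)
      have hk'' := Finset.mem_filter.mp hk'.1
      rw [Finset.mem_range] at hk''
      have hmN : A0 + k * PP z + t < N := by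
        have h1 : A0 + k * PP z < PP z + k * PP z := by omega
        have h2 : PP z + k * PP z = (k + 1) * PP z := by ring
        have h3 : (k + 1) * PP z ≤ X * PP z := Nat.mul_le_mul_right _ hk''.1
        omega
      have hres := gap_of_good u N z y t A0 k a hu ha hcov hA0 hNy
        hk''.2 (by omega) (by omega) hmN
      rw [Finset.mem_coe, mem_gapStarts]
      refine ⟨?_, hres⟩
      show A0 + k * PP z < N
      omega
    · intro k _ l _ hkl
      simp only at hkl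
      have hPP := PP_pos z
      have : k * PP z = l * PP z := by omega
      exact Nat.eq_of_mul_eq_mul_right hPP this
  have hinj' : (#Gd2 : ℝ) ≤ #(gapStarts u N t) := by exact_mod_cast hinj
  -- final numerics
  have hlogy : Real.log y ≤ L := by
    calc Real.log y ≤ Real.log (2 * (N : ℝ) ^ (1 / 8 : ℝ)) := Real.log_le_log hy0 hy_le
      _ = Real.log 2 + 1 / 8 * L := by
          rw [Real.log_mul (by norm_num) (by positivity), Real.log_rpow hN0]
      _ ≤ L := by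
          have := Real.log_two_lt_d9; linarith
  have hlogy0 : 0 < Real.log y := by
    apply Real.log_pos
    have : (1 : ℝ) < (N : ℝ) ^ (1 / 8 : ℝ) := Real.one_lt_rpow (by linarith) (by norm_num)
    linarith
  have hden : 40 * (512 * Real.log y) ^ 3 ≤ (1 / 8) * (N : ℝ) ^ (ε' / 2) := by
    have h1 : 512 * Real.log y ≤ 1 / 1000 * (N : ℝ) ^ (ε' / 8) := by
      calc 512 * Real.log y ≤ 512 * L := by gcongr
        _ ≤ 512 * (1 / 1000000 * (N : ℝ) ^ (ε' / 8)) := by gcongr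
        _ ≤ 1 / 1000 * (N : ℝ) ^ (ε' / 8) := by
            have : 0 ≤ (N : ℝ) ^ (ε' / 8) := by positivity
            linarith
    have h2 : 1 ≤ (N : ℝ) ^ (ε' / 8) := Real.one_le_rpow hN1 (by positivity)
    calc 40 * (512 * Real.log y) ^ 3 ≤ 40 * (1 / 1000 * (N : ℝ) ^ (ε' / 8)) ^ 3 := by gcongr
      _ = 40 / 10 ^ 9 * ((N : ℝ) ^ (ε' / 8)) ^ 3 := by ring
      _ ≤ 40 / 10 ^ 9 * ((N : ℝ) ^ (ε' / 8)) ^ 4 := by
          gcongr
          norm_num
      _ = 40 / 10 ^ 9 * (N : ℝ) ^ (ε' / 2) := by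
          rw [← Real.rpow_natCast ((N : ℝ) ^ (ε' / 8)) 4, ← Real.rpow_mul hN0.le]
          congr 2
          push_cast; ring
      _ ≤ (1 / 8) * (N : ℝ) ^ (ε' / 2) := by
          have : 0 ≤ (N : ℝ) ^ (ε' / 2) := by positivity
          linarith
  have hmain : 2 * (N : ℝ) ^ (1 - ε') ≤ #Gd := by
    calc 2 * (N : ℝ) ^ (1 - ε') = 2 * ((N : ℝ) ^ (1 - ε' / 2) / (N : ℝ) ^ (ε' / 2)) := by
          rw [← Real.rpow_sub hN0]; congr 2; ring
      _ = ((N : ℝ) ^ (1 - ε' / 2) / 4) / ((1 / 8) * (N : ℝ) ^ (ε' / 2)) :=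
          num_aux _ _ (by positivity)
      _ ≤ ((N : ℝ) ^ (1 - κ) / 4) / (40 * (512 * Real.log y) ^ 3) := by
          apply div_le_div₀ (by positivity) _ (by positivity) hden
          gcongr
          linarith
      _ ≤ (X : ℝ) / (40 * (512 * Real.log y) ^ 3) := by gcongr
      _ ≤ #Gd := hsieve
  have hBle : (B : ℝ) ≤ (N : ℝ) ^ (1 - ε') := by
    have h1 : ((z : ℝ)) ^ u ≤ (N : ℝ) ^ (1 / 4 : ℝ) := by
      calc ((z : ℝ)) ^ u ≤ ((N : ℝ) ^ (1 / (4 * (u : ℝ)))) ^ u := by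
            apply pow_le_pow_left₀ (Nat.cast_nonneg z)
            calc (z : ℝ) ≤ L := hzL
              _ ≤ 1 * (N : ℝ) ^ (1 / (4 * (u : ℝ))) := hlogu
              _ = _ := one_mul _
        _ = (N : ℝ) ^ (1 / 4 : ℝ) := by
            rw [← Real.rpow_natCast, ← Real.rpow_mul hN0.le]
            congr 1
            have : (u : ℝ) ≠ 0 := by
              have : 0 < u := by omega
              exact_mod_cast this.ne'
            field_simp
    have h2 : (2 : ℝ) * (N : ℝ) ^ (1 / 4 : ℝ) ≤ (N : ℝ) ^ (1 / 2 : ℝ) := by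
      have h3 : (2 : ℝ) ≤ (N : ℝ) ^ (1 / 4 : ℝ) := by
        calc (2 : ℝ) = ((2 : ℝ) ^ (4 : ℕ)) ^ (1 / 4 : ℝ) := by
              rw [← Real.rpow_natCast, ← Real.rpow_mul (by norm_num)]; norm_num
          _ ≤ (N : ℝ) ^ (1 / 4 : ℝ) := by
              apply Real.rpow_le_rpow (by norm_num) _ (by norm_num)
              calc (2 : ℝ) ^ (4 : ℕ) = 16 := by norm_num
                _ ≤ N := by linarith
      calc (2 : ℝ) * (N : ℝ) ^ (1 / 4 : ℝ) ≤ (N : ℝ) ^ (1 / 4 : ℝ) * (N : ℝ) ^ (1 / 4 : ℝ) := by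
            gcongr
        _ = (N : ℝ) ^ (1 / 2 : ℝ) := by rw [← Real.rpow_add hN0]; norm_num
    have h3 : (N : ℝ) ^ (1 / 2 : ℝ) ≤ (N : ℝ) ^ (1 - ε') :=
      Real.rpow_le_rpow_of_exponent_le hN1 (by linarith)
    have h4 : (2 : ℝ) ≤ (N : ℝ) ^ (1 / 4 : ℝ) := by
      calc (2 : ℝ) = ((2 : ℝ) ^ (4 : ℕ)) ^ (1 / 4 : ℝ) := by
            rw [← Real.rpow_natCast, ← Real.rpow_mul (by norm_num)]; norm_num
        _ ≤ (N : ℝ) ^ (1 / 4 : ℝ) := by
            apply Real.rpow_le_rpow (by norm_num) _ (by norm_num)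
            calc (2 : ℝ) ^ (4 : ℕ) = 16 := by norm_num
              _ ≤ N := by linarith
    rw [hB]
    push_cast
    linarith
  have hfin : (N : ℝ) ^ (1 - ε) ≤ (N : ℝ) ^ (1 - ε') :=
    Real.rpow_le_rpow_of_exponent_le hN1 (by linarith)
  linarith

end Pool.Agent.H16
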