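import Pool.Agent.H16.Vprod
import Pool.Agent.H16.RoughGap

/-!
Upper bound for the number of `n ≤ N`, `n ≡ r (mod W)`, such that `n + h` is coprime to all
`p ∈ P` for all `h ∈ H`.
-/

set_option autoImplicit false

open Finset Filter Topology

namespace Pool.Agent.H16

lemma card_one_class_eq (r W p : ℕ) (hp : p.Prime) (hcop : Nat.Coprime W p) :
    #((range p).filter (fun k => p ∣ r + k * W)) = 1 := by
  apply le_antisymm (card_one_class r W p hcop)
  rw [Nat.succ_le_iff, Finset.card_pos]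
  have : Fact p.Prime := ⟨hp⟩
  have hW : (W : ZMod p) ≠ 0 := by
    intro h
    rw [ZMod.natCast_eq_zero_iff] at h
    have h1 := Nat.dvd_gcd h (dvd_refl p)
    rw [hcop] at h1
    exact hp.one_lt.ne' (Nat.dvd_one.mp h1)
  refine ⟨(-(r : ZMod p) / W).val, ?_⟩
  rw [Finset.mem_filter, Finset.mem_range]
  refine ⟨ZMod.val_lt _, ?_⟩
  rw [← ZMod.natCast_eq_zero_iff]
  push_cast
  rw [ZMod.natCast_val, ZMod.cast_id', id, div_mul_cancel₀ _ hW]
  ring

/-- forbidden residues -/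
def RH (r W : ℕ) (H : Finset ℕ) (p : ℕ) : Finset ℕ :=
  H.biUnion (fun h => (range p).filter (fun k => p ∣ r + h + k * W))

lemma RH_subset (r W : ℕ) (H : Finset ℕ) (p : ℕ) : RH r W H p ⊆ range p := by
  unfold RH
  rw [Finset.biUnion_subset]
  intro h _
  exact Finset.filter_subset _ _

lemma card_RH (r W : ℕ) (H : Finset ℕ) (p : ℕ) (hp : p.Prime) (hcop : Nat.Coprime W p)
    (hH : ∀ h ∈ H, ∀ h' ∈ H, h ≠ h' → ¬ h ≡ h' [MOD p]) : #(RH r W H p) = #H := by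
  unfold RH
  rw [Finset.card_biUnion]
  · rw [Finset.sum_congr rfl (fun h _ => card_one_class_eq (r + h) W p hp hcop)]
    simp
  · intro h hh h' hh' hne
    rw [Function.onFun, Finset.disjoint_left]
    intro k hk hk'
    rw [Finset.mem_filter] at hk hk'
    apply hH h hh h' hh' hne
    have h1 : r + h + k * W ≡ r + h' + k * W [MOD p] :=
      (Nat.modEq_zero_iff_dvd.mpr hk.2).trans (Nat.modEq_zero_iff_dvd.mpr hk'.2).symm
    have h2 := Nat.ModEq.add_right_cancel' (k * W) h1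
    exact Nat.ModEq.add_left_cancel' r h2

lemma not_mem_RH {r W : ℕ} {H : Finset ℕ} {p k : ℕ} (hp : p.Prime) (h : ℕ) (hh : h ∈ H)
    (hnd : k % p ∈ RH r W H p → False) : ¬ p ∣ r + k * W + h := by
  intro hd
  apply hnd
  unfold RH
  rw [Finset.mem_biUnion]
  refine ⟨h, hh, ?_⟩
  rw [Finset.mem_filter, Finset.mem_range]
  refine ⟨Nat.mod_lt k hp.pos, ?_⟩
  have hmod : r + h + k % p * W ≡ r + h + k * W [MOD p] :=
    Nat.ModEq.add_left _ (Nat.ModEq.mul_right _ (Nat.mod_modEq k p))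
  rw [Nat.ModEq.dvd_iff hmod (dvd_refl p)]
  rw [show r + h + k * W = r + k * W + h by ring]
  exact hd

lemma mem_RH {r W : ℕ} {H : Finset ℕ} {p k : ℕ} (hm : k % p ∈ RH r W H p) :
    ∃ h ∈ H, p ∣ r + k * W + h := by
  unfold RH at hm
  rw [Finset.mem_biUnion] at hm
  obtain ⟨h, hh, hk⟩ := hm
  rw [Finset.mem_filter] at hk
  refine ⟨h, hh, ?_⟩
  have hmod : r + h + k % p * W ≡ r + h + k * W [MOD p] :=
    Nat.ModEq.add_left _ (Nat.ModEq.mul_right _ (Nat.mod_modEq k p))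
  have := (Nat.ModEq.dvd_iff hmod (dvd_refl p)).mp hk.2
  rw [show r + k * W + h = r + h + k * W by ring]
  exact this

theorem count_H (z y : ℕ) (hz : 100 ≤ Real.log z) (hzy : z ≤ y)
    (P : Finset ℕ) (hP : ∀ p ∈ P, p.Prime) (hPz : ∀ p ∈ P, z < p) (hPy : ∀ p ∈ P, p ≤ y)
    (H : Finset ℕ) (hH4 : #H ≤ 4) (W r N : ℕ) (hW : 0 < W) (hPW : ∀ p ∈ P, Nat.Coprime W p)
    (hH : ∀ p ∈ P, ∀ h ∈ H, ∀ h' ∈ H, h ≠ h' → ¬ h ≡ h' [MOD p]) (T : Finset ℕ)
    (hT : ∀ n ∈ T, n ≤ N ∧ n ≡ r [MOD W] ∧ ∀ p ∈ P, ∀ h ∈ H, ¬ p ∣ n + h) :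
    (#T : ℝ) ≤ 2 * ((N : ℝ) / W + 1) * ∏ p ∈ P, (1 - (#H : ℝ) / p) + (y : ℝ) ^ 50 := by
  classical
  have h1 := usieve_upper z y hz hzy P hP hPz hPy (RH (r % W) W H)
    (fun p _ => RH_subset _ _ _ _)
    (fun p hp => by rw [card_RH _ _ _ _ (hP p hp) (hPW p hp) (hH p hp)]; exact hH4) (N / W + 1)
  have hprod : ∏ p ∈ P, (1 - (#(RH (r % W) W H p) : ℝ) / p) = ∏ p ∈ P, (1 - (#H : ℝ) / p) := by
    apply Finset.prod_congr rfl
    intro p hp
    rw [card_RH _ _ _ _ (hP p hp) (hPW p hp) (hH p hp)]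
  rw [hprod] at h1
  have hform : ∀ n ∈ T, n = r % W + (n / W) * W := by
    intro n hn
    have h2 : n % W = r % W := (hT n hn).2.1
    rw [← h2, mul_comm]
    exact (Nat.mod_add_div n W).symm
  have hcard : #T ≤ #({m ∈ range (N / W + 1) | ∀ p ∈ P, m % p ∉ RH (r % W) W H p}) := by
    apply Finset.card_le_card_of_injOn (fun n => n / W)
    · intro n hn
      simp only [Finset.coe_filter, Finset.mem_range, Set.mem_setOf_eq]
      refine ⟨Nat.lt_succ_of_le (Nat.div_le_div_right (hT n hn).1), ?_⟩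
      intro p hp hm
      obtain ⟨h, hh, hd⟩ := mem_RH hm
      rw [← hform n hn] at hd
      exact (hT n hn).2.2 p hp h hh hd
    · intro a ha b hb hab
      simp only at hab
      rw [hform a ha, hform b hb, hab]
  have hM : ((N / W + 1 : ℕ) : ℝ) ≤ (N : ℝ) / W + 1 := by
    push_cast
    have := @Nat.cast_div_le ℝ _ _ _ N W
    linarith
  have hpn : 0 ≤ ∏ p ∈ P, (1 - (#H : ℝ) / p) := by
    apply Finset.prod_nonneg
    intro p hp
    have h5 : (#H : ℝ) ≤ 4 := by exact_mod_cast hH4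
    have h6 : (4 : ℝ) ≤ p := by
      have h7 := zw_large z hz
      have h8 : (z : ℝ) ≤ p := by exact_mod_cast (hPz p hp).le
      linarith
    rw [sub_nonneg, div_le_one (by linarith)]
    linarith
  calc (#T : ℝ) ≤ (#({m ∈ range (N / W + 1) | ∀ p ∈ P, m % p ∉ RH (r % W) W H p}) : ℝ) := by
        exact_mod_cast hcard
    _ ≤ 2 * ((N / W + 1 : ℕ) : ℝ) * ∏ p ∈ P, (1 - (#H : ℝ) / p) + (y : ℝ) ^ 50 := h1
    _ ≤ _ := by
        have := mul_le_mul_of_nonneg_right (mul_le_mul_of_nonneg_left hM (by norm_num : (0:ℝ) ≤ 2)) hpn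
        linarith

/-- the version with explicit size of the sieve product -/
theorem count_H' : ∃ C : ℝ, 0 < C ∧ ∀ (k : ℕ) (z y : ℕ) (_hz : 100 ≤ Real.log z) (_hzy : z ≤ y)
    (P : Finset ℕ) (_hP : P ⊆ primesIoc z y) (_hmiss : #(primesIoc z y \ P) ≤ 8)
    (H : Finset ℕ) (_hH4 : #H ≤ 4) (_hk : #H = k) (W r N : ℕ) (_hW : 0 < W)
    (_hPW : ∀ p ∈ P, Nat.Coprime W p)
    (_hH : ∀ p ∈ P, ∀ h ∈ H, ∀ h' ∈ H, h ≠ h' → ¬ h ≡ h' [MOD p]) (T : Finset ℕ)
    (_hT : ∀ n ∈ T, n ≤ N ∧ n ≡ r [MOD W] ∧ ∀ p ∈ P, ∀ h ∈ H, ¬ p ∣ n + h),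
    (#T : ℝ) ≤ 2 * ((N : ℝ) / W + 1) * (C * (Real.log z / Real.log y)) ^ k + (y : ℝ) ^ 50 := by
  obtain ⟨c, hc, hcV⟩ := Vp_ge
  refine ⟨2 / c, by positivity, ?_⟩
  intro k z y hz hzy P hP hmiss H hH4 hk W r N hW hPW hH T hT
  have hzl := zw_large z hz
  have hz2 : 2 ≤ z := by
    have : (2 : ℝ) ≤ z := by linarith
    exact_mod_cast this
  have hz100 : 100 ≤ z := by
    have : (100 : ℝ) ≤ z := by linarith
    exact_mod_cast this
  have h1 := count_H z y hz hzy P (fun p hp => (mem_primesIoc.mp (hP hp)).2.2)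
    (fun p hp => (mem_primesIoc.mp (hP hp)).1) (fun p hp => (mem_primesIoc.mp (hP hp)).2.1)
    H hH4 W r N hW hPW hH T hT
  refine h1.trans ?_
  have hlz : 0 < Real.log z := by linarith
  have hly : 0 < Real.log y := by
    have : Real.log z ≤ Real.log y := Real.log_le_log (by linarith) (by exact_mod_cast hzy)
    linarith
  have h2 : ∏ p ∈ primesIoc z y, (1 - 1 / (p : ℝ)) ≤ (1 / c) * (Real.log z / Real.log y) := by
    have e1 := Vp_mul z y hzy
    have e2 := hcV z hz2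
    have e3 := Vp_le y (by omega)
    have hQ0 : 0 ≤ ∏ p ∈ primesIoc z y, (1 - 1 / (p : ℝ)) :=
      Finset.prod_nonneg (fun p hp => (one_sub_inv_pos (mem_primesIoc.mp hp).2.2).le)
    have e4 : c / Real.log z * ∏ p ∈ primesIoc z y, (1 - 1 / (p : ℝ)) ≤ 1 / Real.log y := by
      calc c / Real.log z * ∏ p ∈ primesIoc z y, (1 - 1 / (p : ℝ)) ≤
          Vp z * ∏ p ∈ primesIoc z y, (1 - 1 / (p : ℝ)) := mul_le_mul_of_nonneg_right e2 hQ0
        _ = Vp y := e1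
        _ ≤ _ := e3
    have e5 : ∏ p ∈ primesIoc z y, (1 - 1 / (p : ℝ)) =
        (Real.log z / c) * (c / Real.log z * ∏ p ∈ primesIoc z y, (1 - 1 / (p : ℝ))) := by
      field_simp
    rw [e5]
    calc (Real.log z / c) * (c / Real.log z * ∏ p ∈ primesIoc z y, (1 - 1 / (p : ℝ))) ≤
        (Real.log z / c) * (1 / Real.log y) := mul_le_mul_of_nonneg_left e4 (by positivity)
      _ = _ := by ring
  have h3 := prod_subset_le z y hz100 P hP hmiss
  have h4 : ∏ p ∈ P, (1 - (#H : ℝ) / p) ≤ (∏ p ∈ P, (1 - 1 / (p : ℝ))) ^ k := by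
    rw [← Finset.prod_pow]
    apply Finset.prod_le_prod
    · intro p hp
      have h5 : (#H : ℝ) ≤ 4 := by exact_mod_cast hH4
      have h6 : (4 : ℝ) ≤ p := by
        have h8 : (z : ℝ) ≤ p := by exact_mod_cast (mem_primesIoc.mp (hP hp)).1.le
        linarith
      rw [sub_nonneg, div_le_one (by linarith)]
      linarith
    · intro p hp
      have h6 : (4 : ℝ) ≤ p := by
        have h8 : (z : ℝ) ≤ p := by exact_mod_cast (mem_primesIoc.mp (hP hp)).1.le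
        linarith
      have h7 := one_add_mul_le_pow (a := -(1 / (p : ℝ))) (by
        have : 1 / (p : ℝ) ≤ 1 := by rw [div_le_one (by linarith)]; linarith
        linarith) k
      have e : 1 - (#H : ℝ) / p = 1 + (k : ℝ) * -(1 / (p : ℝ)) := by rw [hk]; ring
      rw [e]
      exact h7
  have hP0 : 0 ≤ ∏ p ∈ P, (1 - 1 / (p : ℝ)) :=
    Finset.prod_nonneg (fun p hp => (one_sub_inv_pos (mem_primesIoc.mp (hP hp)).2.2).le)
  have h5 : (∏ p ∈ P, (1 - 1 / (p : ℝ))) ^ k ≤ (2 / c * (Real.log z / Real.log y)) ^ k := by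
    apply pow_le_pow_left₀ hP0
    calc ∏ p ∈ P, (1 - 1 / (p : ℝ)) ≤ 2 * ((1 / c) * (Real.log z / Real.log y)) :=
          h3.trans (mul_le_mul_of_nonneg_left h2 (by norm_num))
      _ = _ := by ring
  have hM0 : 0 ≤ 2 * ((N : ℝ) / W + 1) := by positivity
  have := mul_le_mul_of_nonneg_left (h4.trans h5) hM0
  linarith

end Pool.Agent.H16
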