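import Pool.Agent.H16.EB
import Pool.Agent.H16.UCount
import Pool.Agent.H16.CoverLite

/-!
Preparations for the gap theorem: the exceptional prime, Chebyshev lower bound, the modulus `W`.
-/

set_option autoImplicit false

open Finset Filter Topology

namespace Pool.Agent.H16

/-- extraction of an exceptional prime -/
lemma exc_prime (P0 q₁ : ℕ) (h : 4 ^ P0 < q₁) : ∃ e : ℕ, (e = 1 ∨ (e.Prime ∧ P0 < e)) ∧
    ∀ m : ℕ, Squarefree m → (e = 1 ∨ ¬ e ∣ m) → ¬ q₁ ∣ m := by
  by_cases hsq : Squarefree q₁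
  · by_cases hex : ∃ p, p.Prime ∧ p ∣ q₁ ∧ P0 < p
    · obtain ⟨p, hp, hpq, hP⟩ := hex
      refine ⟨p, Or.inr ⟨hp, hP⟩, ?_⟩
      rintro m _ (h1 | h1) h2
      · exact hp.ne_one h1
      · exact h1 (hpq.trans h2)
    · exfalso
      push Not at hex
      have h1 : q₁ ∣ PP P0 := by
        rw [← Nat.prod_primeFactors_of_squarefree hsq]
        unfold PP
        apply Finset.prod_dvd_prod_of_subset
        intro p hp
        rw [Nat.mem_primeFactors] at hp
        exact Nat.mem_primesLE.mpr ⟨hex p hp.1 hp.2.1, hp.1⟩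
      have h2 := Nat.le_of_dvd (PP_pos P0) h1
      have h3 := PP_le P0
      omega
  · refine ⟨1, Or.inl rfl, ?_⟩
    intro m hm _ h2
    exact hsq (hm.squarefree_of_dvd h2)

/-- the modulus: product of the primes up to `z` except `e` -/
noncomputable def WW (z e : ℕ) : ℕ := ∏ p ∈ (Nat.primesLE z).erase e, p

lemma mem_WWset {z e p : ℕ} : p ∈ (Nat.primesLE z).erase e ↔ p.Prime ∧ p ≤ z ∧ p ≠ e := by
  rw [Finset.mem_erase, Nat.mem_primesLE]; tauto

lemma WW_pos (z e : ℕ) : 0 < WW z e := Finset.prod_pos (fun _ hp => (mem_WWset.mp hp).1.pos)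

lemma dvd_WW {z e p : ℕ} (hp : p.Prime) (hpz : p ≤ z) (hpe : p ≠ e) : p ∣ WW z e :=
  Finset.dvd_prod_of_mem _ (mem_WWset.mpr ⟨hp, hpz, hpe⟩)

lemma prime_dvd_WW {z e p : ℕ} (hp : p.Prime) : p ∣ WW z e ↔ p ≤ z ∧ p ≠ e := by
  constructor
  · intro h
    unfold WW at h
    rw [Prime.dvd_finsetProd_iff hp.prime] at h
    obtain ⟨q, hq, hpq⟩ := h
    rw [mem_WWset] at hq
    have := (Nat.prime_dvd_prime_iff_eq hp hq.1).mp hpq
    subst this
    exact hq.2
  · rintro ⟨h1, h2⟩
    exact dvd_WW hp h1 h2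

lemma WW_le (z e : ℕ) : WW z e ≤ 4 ^ z := by
  have h1 : WW z e ∣ PP z := by
    unfold WW PP
    exact Finset.prod_dvd_prod_of_subset _ _ _ (Finset.erase_subset _ _)
  exact (Nat.le_of_dvd (PP_pos z) h1).trans (PP_le z)

lemma squarefree_WW (z e : ℕ) : Squarefree (WW z e) := by
  unfold WW
  apply Finset.squarefree_prod_of_pairwise_isCoprime
  · intro p hp q hq hpq
    exact (Nat.coprime_iff_isRelPrime.mp ((Nat.coprime_primes (mem_WWset.mp hp).1
      (mem_WWset.mp hq).1).mpr hpq))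
  · intro p hp; exact (mem_WWset.mp hp).1.squarefree

lemma totient_WW_le (z e : ℕ) (hz : 2 ≤ z) :
    ((WW z e).totient : ℝ) * Real.log z ≤ 2 * (WW z e : ℝ) := by
  have hz1 : (1 : ℝ) < z := by exact_mod_cast hz
  have hlz : 0 < Real.log z := Real.log_pos hz1
  have h1 : ((WW z e).totient : ℝ) = (WW z e : ℝ) * ∏ p ∈ (Nat.primesLE z).erase e, (1 - 1 / (p : ℝ)) := by
    unfold WW
    rw [totient_prod_primes _ (fun p hp => (mem_WWset.mp hp).1)]
    push_cast
    rw [← Finset.prod_mul_distrib]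
    apply Finset.prod_congr rfl
    intro p hp
    have : (p : ℝ) ≠ 0 := by exact_mod_cast (mem_WWset.mp hp).1.ne_zero
    field_simp
  have h2 : ∏ p ∈ (Nat.primesLE z).erase e, (1 - 1 / (p : ℝ)) ≤ 2 * Vp z := by
    by_cases he : e ∈ Nat.primesLE z
    · have h3 : Vp z = (1 - 1 / (e : ℝ)) * ∏ p ∈ (Nat.primesLE z).erase e, (1 - 1 / (p : ℝ)) := by
        unfold Vp
        exact (Finset.mul_prod_erase (Nat.primesLE z) (fun p : ℕ => 1 - 1 / (p : ℝ)) he).symm
      have h4 : (2 : ℝ) ≤ e := by exact_mod_cast (Nat.mem_primesLE.mp he).2.two_le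
      have h5 : 1 / (e : ℝ) ≤ 1 / 2 := one_div_le_one_div_of_le (by norm_num) h4
      have h6 : 0 ≤ ∏ p ∈ (Nat.primesLE z).erase e, (1 - 1 / (p : ℝ)) :=
        Finset.prod_nonneg (fun p hp => (one_sub_inv_pos (mem_WWset.mp hp).1).le)
      rw [h3]
      nlinarith
    · rw [Finset.erase_eq_of_notMem he]
      have := Vp_pos z
      unfold Vp at this ⊢
      linarith
  have h3 := Vp_le z hz
  have hW0 : (0 : ℝ) ≤ WW z e := Nat.cast_nonneg _
  have h4 : Vp z * Real.log z ≤ 1 := by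
    rw [le_div_iff₀ hlz] at h3; exact h3
  rw [h1]
  calc (WW z e : ℝ) * (∏ p ∈ (Nat.primesLE z).erase e, (1 - 1 / (p : ℝ))) * Real.log z ≤
      (WW z e : ℝ) * (2 * Vp z) * Real.log z := by
        apply mul_le_mul_of_nonneg_right _ hlz.le
        exact mul_le_mul_of_nonneg_left h2 hW0
    _ = 2 * (WW z e : ℝ) * (Vp z * Real.log z) := by ring
    _ ≤ 2 * (WW z e : ℝ) * 1 := mul_le_mul_of_nonneg_left h4 (by positivity)
    _ = _ := by ring

open Chebyshev in
/-- lower bound for the total weight -/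
lemma X_ge : ∀ᶠ ℓ : ℝ in atTop, ∀ y : ℕ, (y : ℝ) ≤ Real.exp ℓ / 100 →
    1 / 100 * Real.exp ℓ ≤ ∑ n ∈ Ioc 0 ⌊Real.exp ℓ⌋₊, aw ℓ y n := by
  -- constants
  have hexp : Filter.Tendsto Real.exp atTop atTop := Real.tendsto_exp_atTop
  have ev1 : ∀ᶠ X : ℝ in atTop, 2 * √X * Real.log X + Real.log (X + 2) + Real.log 2 ≤ X / 100 := by
    have h1 := isLittleO_log_rpow_atTop (show (0 : ℝ) < 1 / 4 by norm_num)
    have h2 := h1.bound (show (0 : ℝ) < 1 by norm_num)
    have h3 := tendsto_rpow_atTop (show (0 : ℝ) < 1 / 4 by norm_num)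
    filter_upwards [h2, h3.eventually (eventually_ge_atTop (1000 : ℝ)), eventually_ge_atTop (2 : ℝ)]
      with X a b c
    have hX0 : 0 < X := by linarith
    have hl : 0 ≤ Real.log X := Real.log_nonneg (by linarith)
    rw [Real.norm_of_nonneg hl, Real.norm_of_nonneg (by positivity), one_mul] at a
    set w := X ^ (1 / 4 : ℝ) with hw
    have hw0 : 0 < w := by linarith
    have e1 : √X = w ^ 2 := by
      rw [hw, Real.sqrt_eq_rpow, ← Real.rpow_natCast, ← Real.rpow_mul hX0.le]; norm_num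
    have e2 : X = w ^ 4 := by
      rw [hw, ← Real.rpow_natCast, ← Real.rpow_mul hX0.le]; norm_num
    have e3 : Real.log (X + 2) ≤ Real.log X + Real.log 2 := by
      rw [← Real.log_mul hX0.ne' (by norm_num)]
      apply Real.log_le_log (by linarith)
      linarith
    have e4 : Real.log 2 ≤ 1 := by have := Real.log_two_lt_d9; linarith
    rw [e1]
    have e5 : 2 * w ^ 2 * Real.log X ≤ 2 * w ^ 2 * w := mul_le_mul_of_nonneg_left a (by positivity)
    have e6 : 2 * w ^ 2 * w + (w + 2) ≤ w ^ 4 / 100 := by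
      have h5 : 1000 * w ^ 3 ≤ w ^ 4 := by
        have : w ^ 4 = w * w ^ 3 := by ring
        rw [this]
        exact mul_le_mul_of_nonneg_right b (by positivity)
      have h6 : w ≤ w ^ 3 := by
        have : w ^ 3 = w * w ^ 2 := by ring
        rw [this]
        have : 1 ≤ w ^ 2 := by nlinarith
        nlinarith
      have h7 : 2 * w ^ 2 * w = 2 * w ^ 3 := by ring
      rw [h7]
      nlinarith
    have e7 : w ^ 4 / 100 = X / 100 := by rw [← e2]
    linarith
  have hmul : Filter.Tendsto (fun ℓ : ℝ => Real.exp ℓ / 3 * Real.exp (1 / 2)) atTop atTop := by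
    have h1 : (fun ℓ : ℝ => Real.exp ℓ / 3 * Real.exp (1 / 2)) =
        fun ℓ : ℝ => (Real.exp (1 / 2) / 3) * Real.exp ℓ := by
      ext ℓ; ring
    rw [h1]
    exact hexp.const_mul_atTop (by positivity)
  filter_upwards [hmul.eventually ev1, eventually_ge_atTop (10 : ℝ)] with ℓ hev hℓ y hy
  set x := Real.exp ℓ with hx
  have hx0 : 0 < x := Real.exp_pos _
  set X2 := x / 3 * Real.exp (1 / 2) with hX2
  set X1 := x / 3 * Real.exp (-(1 / 2)) with hX1
  have hX1pos : 0 < X1 := by positivity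
  have hX2pos : 0 < X2 := by positivity
  -- numerical bounds for exp (1/2)
  have hE : Real.exp (1 / 2) ^ 2 = Real.exp 1 := by
    rw [← Real.exp_nat_mul]; norm_num
  have hE0 : 0 < Real.exp (1 / 2) := Real.exp_pos _
  have he1 := Real.exp_one_gt_d9
  have he2 := Real.exp_one_lt_d9
  have hElow : 1.648 ≤ Real.exp (1 / 2) := by
    by_contra hc
    push Not at hc
    have : Real.exp (1 / 2) ^ 2 < 1.648 ^ 2 := pow_lt_pow_left₀ hc hE0.le (by norm_num)
    rw [hE] at this
    norm_num at this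
    linarith
  have hEup : Real.exp (1 / 2) ≤ 1.65 := by
    by_contra hc
    push Not at hc
    have : (1.65 : ℝ) ^ 2 < Real.exp (1 / 2) ^ 2 := pow_lt_pow_left₀ hc (by norm_num) (by norm_num)
    rw [hE] at this
    norm_num at this
    linarith
  have hEneg : Real.exp (-(1 / 2)) ≤ 0.607 := by
    rw [Real.exp_neg, inv_le_comm₀ hE0 (by norm_num)]
    norm_num
    linarith
  have hX2x : X2 ≤ x := by
    rw [hX2]; nlinarith
  have hX12 : X1 ≤ X2 := by
    rw [hX1, hX2]
    apply mul_le_mul_of_nonneg_left _ (by positivity)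
    apply Real.exp_le_exp.mpr; norm_num
  have hyX1 : (y : ℝ) < X1 := by
    have : 0.6 ≤ Real.exp (-(1 / 2)) := by
      rw [Real.exp_neg, le_inv_comm₀ (by norm_num) hE0]
      norm_num
      linarith
    rw [hX1]
    have h1 : x / 3 * 0.6 ≤ x / 3 * Real.exp (-(1 / 2)) := mul_le_mul_of_nonneg_left this (by positivity)
    linarith
  -- lower bound by theta differences
  have hlow : (θ X2 - θ X1) / 2 ≤ ∑ n ∈ Ioc 0 ⌊x⌋₊, aw ℓ y n := by
    have h1 : θ X2 - θ X1 = ∑ p ∈ (Ioc ⌊X1⌋₊ ⌊X2⌋₊).filter Nat.Prime, Real.log p := by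
      unfold theta
      have hf : ⌊X1⌋₊ ≤ ⌊X2⌋₊ := Nat.floor_le_floor hX12
      rw [← Finset.Ioc_union_Ioc_eq_Ioc (Nat.zero_le _) hf, Finset.filter_union,
        Finset.sum_union]
      · ring
      · rw [Finset.disjoint_left]
        intro p hp hp'
        rw [Finset.mem_filter, Finset.mem_Ioc] at hp hp'
        omega
    rw [h1, Finset.sum_div]
    have hsub : (Ioc ⌊X1⌋₊ ⌊X2⌋₊).filter Nat.Prime ⊆ Ioc 0 ⌊x⌋₊ := by
      intro p hp
      rw [Finset.mem_filter, Finset.mem_Ioc] at hp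
      rw [Finset.mem_Ioc]
      have : ⌊X2⌋₊ ≤ ⌊x⌋₊ := Nat.floor_le_floor hX2x
      omega
    refine le_trans ?_ (Finset.sum_le_sum_of_subset_of_nonneg hsub (fun n _ _ => aw_nonneg ℓ y n))
    apply Finset.sum_le_sum
    intro p hp
    rw [Finset.mem_filter, Finset.mem_Ioc] at hp
    obtain ⟨⟨h2, h3⟩, h4⟩ := hp
    have h5 : X1 < p := (Nat.floor_lt hX1pos.le).mp h2
    have h6 : (p : ℝ) ≤ X2 := (Nat.le_floor_iff hX2pos.le).mp h3
    have hp0 : (0 : ℝ) < p := by linarith
    have h7 : y < p := by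
      have : (y : ℝ) < p := by linarith
      exact_mod_cast this
    unfold aw
    rw [if_pos ⟨h4, h7⟩, tent_eq _ _ (by positivity) hp0]
    have h8 : Real.log X1 ≤ Real.log p := Real.log_le_log hX1pos h5.le
    have h9 : Real.log p ≤ Real.log X2 := Real.log_le_log hp0 h6
    have e1 : Real.log X1 = Real.log (x / 3) - 1 / 2 := by
      rw [hX1, Real.log_mul (by positivity) (Real.exp_pos _).ne', Real.log_exp]; ring
    have e2 : Real.log X2 = Real.log (x / 3) + 1 / 2 := by
      rw [hX2, Real.log_mul (by positivity) (Real.exp_pos _).ne', Real.log_exp]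
    have h10 : |Real.log (x / 3) - Real.log p| ≤ 1 / 2 := by
      rw [abs_le]; constructor <;> linarith
    have h11 : 1 / 2 ≤ max 0 (1 - |Real.log (x / 3) - Real.log p|) :=
      le_trans (by linarith) (le_max_right _ _)
    have hl0 : 0 ≤ Real.log (p : ℝ) := Real.log_natCast_nonneg p
    have := mul_le_mul_of_nonneg_left h11 hl0
    linarith
  have hth1 := theta_le_log4_mul_x hX1pos.le
  have hx10 : (10 : ℝ) ≤ x := by
    have := Real.add_one_le_exp ℓ
    linarith
  have hX21 : 1 ≤ X2 := by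
    rw [hX2]; nlinarith
  have hth2 := theta_ge' hX21
  have hlog2a := Real.log_two_gt_d9
  have hlog2b := Real.log_two_lt_d9
  have hlog4 : Real.log 4 = 2 * Real.log 2 := by
    rw [show (4 : ℝ) = 2 ^ 2 by norm_num, Real.log_pow]; push_cast; ring
  rw [hlog4] at hth1
  have hX1le : X1 ≤ 0.2024 * x := by
    rw [hX1]
    have := mul_le_mul_of_nonneg_left hEneg (show 0 ≤ x / 3 by positivity)
    linarith
  have hX2ge : 0.5493 * x ≤ X2 := by
    rw [hX2]
    have := mul_le_mul_of_nonneg_left hElow (show 0 ≤ x / 3 by positivity)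
    linarith
  have k1 : 2 * Real.log 2 * X1 ≤ 1.3863 * (0.2024 * x) := by
    apply mul_le_mul (by linarith) hX1le hX1pos.le (by norm_num)
  have k2 : 0.6931 * (0.5493 * x) ≤ X2 * Real.log 2 := by
    rw [mul_comm X2]
    apply mul_le_mul (by linarith) hX2ge (by positivity) (by linarith)
  have k3 : X2 / 100 ≤ x / 100 := by linarith
  nlinarith

end Pool.Agent.H16
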