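import Pool.Agent.H16.PG2

/-!
Upper bounds for the bad candidates.
-/

set_option autoImplicit false

open Finset Filter Topology

namespace Pool.Agent.H16

lemma card_big_prime_factors (z y m : ℕ) (hm : 0 < m) (hmz : m < z ^ 3) :
    #((primesIoc z y).filter (fun p => p ∣ m)) ≤ 2 := by
  by_contra hc
  push Not at hc
  set S := (primesIoc z y).filter (fun p => p ∣ m) with hS
  have hz0 : 0 < z := by
    rcases Nat.eq_zero_or_pos z with h | h
    · rw [h] at hmz; simp at hmz
    · exact h
  have h1 : ∏ p ∈ S, p ∣ m := by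
    apply Finset.prod_primes_dvd
    · intro p hp
      rw [hS, Finset.mem_filter, mem_primesIoc] at hp
      exact hp.1.2.2.prime
    · intro p hp
      rw [hS, Finset.mem_filter] at hp
      exact hp.2
  have h2 : z ^ #S ≤ ∏ p ∈ S, p := by
    rw [← Finset.prod_const]
    apply Finset.prod_le_prod' 
    intro p hp
    rw [hS, Finset.mem_filter, mem_primesIoc] at hp
    exact hp.1.1.le
  have h3 := Nat.le_of_dvd hm h1
  have h4 : z ^ 3 ≤ z ^ #S := Nat.pow_le_pow_right hz0 (by omega)
  omega

lemma miss_PS (z y e t : ℕ) (ht : 0 < t) (htz : t < z ^ 3) :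
    #(primesIoc z y \ PS z y e t) ≤ 3 := by
  have h1 : primesIoc z y \ PS z y e t ⊆ {e} ∪ (primesIoc z y).filter (fun p => p ∣ t) := by
    intro p hp
    rw [Finset.mem_sdiff, mem_PS, mem_primesIoc] at hp
    rw [Finset.mem_union, Finset.mem_singleton, Finset.mem_filter, mem_primesIoc]
    tauto
  refine (Finset.card_le_card h1).trans ((Finset.card_union_le _ _).trans ?_)
  have h2 := card_big_prime_factors z y t ht htz
  rw [Finset.card_singleton]
  omega

/-- sieving primes for the triple `0, i, t` -/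
def PSi (z y e t i : ℕ) : Finset ℕ := (PS z y e t).filter (fun p => ¬ p ∣ i ∧ ¬ p ∣ t - i)

lemma PSi_subset (z y e t i : ℕ) : PSi z y e t i ⊆ primesIoc z y :=
  (Finset.filter_subset _ _).trans (Finset.filter_subset _ _)

lemma miss_PSi (z y e t i : ℕ) (hi : 0 < i) (hit : i < t) (htz : t < z ^ 3) :
    #(primesIoc z y \ PSi z y e t i) ≤ 8 := by
  have h1 : primesIoc z y \ PSi z y e t i ⊆ (primesIoc z y \ PS z y e t) ∪
      ((primesIoc z y).filter (fun p => p ∣ i) ∪ (primesIoc z y).filter (fun p => p ∣ t - i)) := by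
    intro p hp
    unfold PSi at hp
    rw [Finset.mem_sdiff, Finset.mem_filter] at hp
    rw [Finset.mem_union, Finset.mem_union, Finset.mem_sdiff, Finset.mem_filter, Finset.mem_filter]
    tauto
  refine (Finset.card_le_card h1).trans ((Finset.card_union_le _ _).trans ?_)
  have h2 := miss_PS z y e t (by omega) htz
  have h3 := card_big_prime_factors z y i hi (by omega)
  have h4 := card_big_prime_factors z y (t - i) (by omega) (by omega)
  have h5 := Finset.card_union_le ((primesIoc z y).filter (fun p => p ∣ i))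
    ((primesIoc z y).filter (fun p => p ∣ t - i))
  omega

lemma coprime_WW_prime {z e p : ℕ} (hp : p.Prime) (h : z < p) : Nat.Coprime (WW z e) p := by
  rw [Nat.coprime_comm, Nat.Prime.coprime_iff_not_dvd hp, prime_dvd_WW hp]
  omega

/-- the bounds for the bad candidates, with an absolute constant -/
theorem bad_bounds : ∃ C : ℝ, 0 < C ∧ ∀ (ℓ : ℝ) (u z y yu e t A0 : ℕ), 1 ≤ u →
    100 ≤ Real.log z → z ≤ yu → yu ≤ y → 0 < t → t < z ^ 3 →
    (yu : ℝ) ^ u ≤ Real.exp ℓ / 9 →
    (e.Prime → e ≤ y → (#{n ∈ GG ℓ z y e t A0 | e ∣ n + t} : ℝ) ≤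
      2 * (Real.exp ℓ / (WW z e * e : ℕ) + 1) * (C * (Real.log z / Real.log y)) ^ 2 + (y : ℝ) ^ 50) ∧
    (∀ i, 0 < i → i < t → ∀ T : Finset ℕ, (∀ n ∈ T, n ∈ GG ℓ z y e t A0 ∧ PRough u (n + i)) →
      (#T : ℝ) ≤ 2 * (Real.exp ℓ / (WW z e : ℕ) + 1) * (C * (Real.log z / Real.log yu)) ^ 3 +
        (yu : ℝ) ^ 50) := by
  obtain ⟨C, hC, hcount⟩ := count_H'
  refine ⟨C, hC, ?_⟩
  intro ℓ u z y yu e t A0 hu hz hzyu hyuy ht htz hyu9
  have hNx : (⌊Real.exp ℓ⌋₊ : ℝ) ≤ Real.exp ℓ := Nat.floor_le (Real.exp_pos _).le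
  have hWpos := WW_pos z e
  have hlz : 0 < Real.log z := by linarith
  have hzl := zw_large z hz
  have hpn : ∀ n ∈ GG ℓ z y e t A0, ∀ p : ℕ, p.Prime → p ≤ y → ¬ p ∣ n + 0 := by
    intro n hn p hp hpy hd
    rw [add_zero] at hd
    rw [mem_GG] at hn
    obtain ⟨_, _, hnp, hny, _⟩ := hn
    have := (Nat.prime_dvd_prime_iff_eq hp hnp).mp hd
    omega
  constructor
  · intro hep hey
    have hcop : Nat.Coprime (WW z e) e := by
      rw [Nat.coprime_comm, Nat.Prime.coprime_iff_not_dvd hep, prime_dvd_WW hep]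
      tauto
    obtain ⟨r, hr1, hr2⟩ := Nat.chineseRemainder hcop A0 (t * (e - 1))
    have hrt : e ∣ r + t := by
      have h1 : r + t ≡ t * (e - 1) + t [MOD e] := Nat.ModEq.add_right t hr2
      have h2 : t * (e - 1) + t = t * e := by
        obtain ⟨f, hf⟩ : ∃ f, e = f + 1 := ⟨e - 1, by have := hep.pos; omega⟩
        rw [hf, Nat.add_sub_cancel]; ring
      rw [h2] at h1
      exact (Nat.modEq_zero_iff_dvd.mp (h1.trans (Nat.modEq_zero_iff_dvd.mpr (Dvd.intro_left t rfl))))
    have hH : #({0, t} : Finset ℕ) = 2 := by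
      rw [Finset.card_pair]; omega
    have h := hcount 2 z y hz (hzyu.trans hyuy) (PS z y e t) (Finset.filter_subset _ _)
      ((miss_PS z y e t ht htz).trans (by norm_num)) {0, t} (by rw [hH]; norm_num) hH
      (WW z e * e) r ⌊Real.exp ℓ⌋₊ (Nat.mul_pos hWpos hep.pos)
      (by
        intro p hp
        rw [mem_PS] at hp
        apply Nat.Coprime.mul_left
        · exact coprime_WW_prime hp.1.2.2 hp.1.1
        · exact (Nat.coprime_primes hep hp.1.2.2).mpr (Ne.symm hp.2.1))
      (by
        intro p hp h hh h' hh' hne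
        rw [mem_PS] at hp
        simp only [Finset.mem_insert, Finset.mem_singleton] at hh hh'
        intro hmod
        rcases hh with rfl | rfl <;> rcases hh' with rfl | rfl
        · exact hne rfl
        · exact hp.2.2 (Nat.modEq_zero_iff_dvd.mp hmod.symm)
        · exact hp.2.2 (Nat.modEq_zero_iff_dvd.mp hmod)
        · exact hne rfl)
      ({n ∈ GG ℓ z y e t A0 | e ∣ n + t})
      (by
        intro n hn
        rw [Finset.mem_filter] at hn
        have hG := mem_GG.mp hn.1
        refine ⟨hG.1.2, ?_, ?_⟩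
        · rw [← Nat.modEq_and_modEq_iff_modEq_mul hcop]
          refine ⟨hG.2.1.trans hr1.symm, ?_⟩
          have h3 : n + t ≡ r + t [MOD e] :=
            (Nat.modEq_zero_iff_dvd.mpr hn.2).trans (Nat.modEq_zero_iff_dvd.mpr hrt).symm
          exact Nat.ModEq.add_right_cancel' t h3
        · intro p hp h hh
          simp only [Finset.mem_insert, Finset.mem_singleton] at hh
          rcases hh with rfl | rfl
          · exact hpn n hn.1 p (mem_PS.mp hp).1.2.2 (mem_PS.mp hp).1.2.1
          · exact hG.2.2.2.2.2 p hp)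
    refine h.trans ?_
    have h5 : (⌊Real.exp ℓ⌋₊ : ℝ) / ((WW z e * e : ℕ) : ℝ) ≤ Real.exp ℓ / ((WW z e * e : ℕ) : ℝ) :=
      div_le_div_of_nonneg_right hNx (Nat.cast_nonneg _)
    have h6 : 0 ≤ (C * (Real.log z / Real.log y)) ^ 2 := by positivity
    have h7 := mul_le_mul_of_nonneg_right (mul_le_mul_of_nonneg_left (add_le_add_left h5 1)
      (by norm_num : (0:ℝ) ≤ 2)) h6
    linarith
  · intro i hi hit T hT
    have hH : #({0, i, t} : Finset ℕ) = 3 := by
      rw [Finset.card_eq_three]
      exact ⟨0, i, t, by omega, by omega, by omega, rfl⟩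
    have hyupos : 0 < Real.log yu := by
      have h1 : Real.log z ≤ Real.log yu := Real.log_le_log (by linarith) (by exact_mod_cast hzyu)
      linarith
    have h := hcount 3 z yu hz hzyu (PSi z yu e t i) (PSi_subset _ _ _ _ _)
      (miss_PSi z yu e t i hi hit htz) {0, i, t} (by rw [hH]; norm_num) hH
      (WW z e) A0 ⌊Real.exp ℓ⌋₊ hWpos
      (by
        intro p hp
        have := PSi_subset _ _ _ _ _ hp
        rw [mem_primesIoc] at this
        exact coprime_WW_prime this.2.2 this.1)
      (by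
        intro p hp h hh h' hh' hne
        unfold PSi at hp
        rw [Finset.mem_filter, mem_PS] at hp
        obtain ⟨⟨_, _, hpt⟩, hpi, hpti⟩ := hp
        simp only [Finset.mem_insert, Finset.mem_singleton] at hh hh'
        intro hmod
        rcases hh with rfl | rfl | rfl <;> rcases hh' with rfl | rfl | rfl
        · exact hne rfl
        · exact hpi (Nat.modEq_zero_iff_dvd.mp hmod.symm)
        · exact hpt (Nat.modEq_zero_iff_dvd.mp hmod.symm)
        · exact hpi (Nat.modEq_zero_iff_dvd.mp hmod)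
        · exact hne rfl
        · exact hpti ((Nat.modEq_iff_dvd' hit.le).mp hmod)
        · exact hpt (Nat.modEq_zero_iff_dvd.mp hmod)
        · exact hpti ((Nat.modEq_iff_dvd' hit.le).mp hmod.symm)
        · exact hne rfl)
      T
      (by
        intro n hn
        obtain ⟨hG0, hR⟩ := hT n hn
        have hG := mem_GG.mp hG0
        refine ⟨hG.1.2, hG.2.1, ?_⟩
        intro p hp h hh
        have hp' := PSi_subset _ _ _ _ _ hp
        rw [mem_primesIoc] at hp'
        simp only [Finset.mem_insert, Finset.mem_singleton] at hh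
        rcases hh with rfl | rfl | rfl
        · exact hpn n hG0 p hp'.2.2 (hp'.2.1.trans hyuy)
        · intro hd
          have h1 := hR.2 p hp'.2.2 hd
          have h2 : ((n + h : ℕ) : ℝ) < (p : ℝ) ^ u := by exact_mod_cast h1
          have h3 : (p : ℝ) ^ u ≤ (yu : ℝ) ^ u :=
            pow_le_pow_left₀ (Nat.cast_nonneg _) (by exact_mod_cast hp'.2.1) u
          push_cast at h2
          have h4 : (0 : ℝ) ≤ h := Nat.cast_nonneg h
          have h5 := hG.2.2.2.2.1
          linarith
        · unfold PSi at hp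
          rw [Finset.mem_filter, mem_PS] at hp
          exact hG.2.2.2.2.2 p (mem_PS.mpr ⟨⟨hp.1.1.1, hp.1.1.2.1.trans hyuy, hp.1.1.2.2⟩, hp.1.2⟩))
    refine h.trans ?_
    have h5 : (⌊Real.exp ℓ⌋₊ : ℝ) / ((WW z e : ℕ) : ℝ) ≤ Real.exp ℓ / ((WW z e : ℕ) : ℝ) :=
      div_le_div_of_nonneg_right hNx (Nat.cast_nonneg _)
    have h6 : 0 ≤ (C * (Real.log z / Real.log yu)) ^ 3 := by positivity
    have h7 := mul_le_mul_of_nonneg_right (mul_le_mul_of_nonneg_left (add_le_add_left h5 1)
      (by norm_num : (0:ℝ) ≤ 2)) h6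
    linarith

end Pool.Agent.H16
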