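import Pool.Agent.H16.PG3

/-!
Growth conditions.
-/

set_option autoImplicit false

open Finset Filter Topology

namespace Pool.Agent.H16

/-- sifting parameter -/
noncomputable def zf (ℓ : ℝ) : ℕ := ⌊ℓ / (Real.log ℓ) ^ 3⌋₊

lemma ev_log_pow (k : ℕ) (s c : ℝ) (hs : 0 < s) (hc : 0 < c) :
    ∀ᶠ ℓ : ℝ in atTop, (Real.log ℓ) ^ k ≤ c * ℓ ^ s := by
  have h := (isLittleO_log_rpow_rpow_atTop (k : ℝ) hs).bound hc
  filter_upwards [h, eventually_ge_atTop (1 : ℝ)] with ℓ a b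
  have hl : 0 ≤ Real.log ℓ := Real.log_nonneg b
  rw [Real.rpow_natCast, Real.norm_of_nonneg (by positivity), Real.norm_of_nonneg (by positivity)] at a
  exact a

/-- basic facts on `z` -/
lemma ev_z : ∀ᶠ ℓ : ℝ in atTop, 100 ≤ Real.log (zf ℓ) ∧ Real.log (zf ℓ) ≤ Real.log ℓ ∧
    (zf ℓ : ℝ) * Real.log (zf ℓ) ^ 3 ≤ ℓ ∧ ℓ ≤ 16 * ((zf ℓ : ℝ) * Real.log (zf ℓ) ^ 3) ∧
    (zf ℓ : ℝ) ≤ ℓ / Real.log ℓ ^ 3 ∧ ℓ ^ (1 / 2 : ℝ) ≤ zf ℓ := by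
  filter_upwards [ev_log_pow 3 (1 / 2) (1 / 2) (by norm_num) (by norm_num),
    Real.tendsto_log_atTop.eventually (eventually_ge_atTop (200 : ℝ)),
    eventually_ge_atTop (4 : ℝ)] with ℓ a b c
  have hℓ0 : 0 < ℓ := by linarith
  have hl0 : 0 < Real.log ℓ := by linarith
  have hl3 : 1 ≤ Real.log ℓ ^ 3 := one_le_pow₀ (by linarith)
  have hzle : (zf ℓ : ℝ) ≤ ℓ / Real.log ℓ ^ 3 := Nat.floor_le (by positivity)
  have hzlt : ℓ / Real.log ℓ ^ 3 < zf ℓ + 1 := Nat.lt_floor_add_one _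
  have hs0 : 0 < ℓ ^ (1 / 2 : ℝ) := by positivity
  have hss : ℓ ^ (1 / 2 : ℝ) * ℓ ^ (1 / 2 : ℝ) = ℓ := by
    rw [← Real.rpow_add hℓ0]; norm_num
  have hs2 : 1 ≤ ℓ ^ (1 / 2 : ℝ) := Real.one_le_rpow (by linarith) (by norm_num)
  have h1 : 2 * ℓ ^ (1 / 2 : ℝ) ≤ ℓ / Real.log ℓ ^ 3 := by
    rw [le_div_iff₀ (by positivity)]
    calc 2 * ℓ ^ (1 / 2 : ℝ) * Real.log ℓ ^ 3 ≤ 2 * ℓ ^ (1 / 2 : ℝ) * (1 / 2 * ℓ ^ (1 / 2 : ℝ)) :=
          mul_le_mul_of_nonneg_left a (by positivity)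
      _ = ℓ ^ (1 / 2 : ℝ) * ℓ ^ (1 / 2 : ℝ) := by ring
      _ = ℓ := hss
  have h2 : ℓ ^ (1 / 2 : ℝ) ≤ zf ℓ := by linarith
  have hz0 : (0 : ℝ) < zf ℓ := by linarith
  have h3 : Real.log ℓ / 2 ≤ Real.log (zf ℓ) := by
    calc Real.log ℓ / 2 = Real.log (ℓ ^ (1 / 2 : ℝ)) := by rw [Real.log_rpow hℓ0]; ring
      _ ≤ _ := Real.log_le_log hs0 h2
  have h4 : Real.log (zf ℓ) ≤ Real.log ℓ := by
    apply Real.log_le_log hz0
    refine hzle.trans (div_le_self hℓ0.le hl3)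
  refine ⟨by linarith, h4, ?_, ?_, hzle, h2⟩
  · have hlz0 : 0 ≤ Real.log (zf ℓ) := by linarith
    calc (zf ℓ : ℝ) * Real.log (zf ℓ) ^ 3 ≤ (ℓ / Real.log ℓ ^ 3) * Real.log ℓ ^ 3 := by
          apply mul_le_mul hzle (pow_le_pow_left₀ hlz0 h4 3) (by positivity) (by positivity)
      _ = ℓ := by field_simp
  · have h5 : ℓ / Real.log ℓ ^ 3 ≤ 2 * zf ℓ := by linarith
    have h6 : ℓ ≤ 2 * zf ℓ * Real.log ℓ ^ 3 := by
      rw [div_le_iff₀ (by positivity)] at h5; exact h5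
    have h7 : Real.log ℓ ^ 3 ≤ (2 * Real.log (zf ℓ)) ^ 3 :=
      pow_le_pow_left₀ hl0.le (by linarith) 3
    calc ℓ ≤ 2 * zf ℓ * Real.log ℓ ^ 3 := h6
      _ ≤ 2 * zf ℓ * (2 * Real.log (zf ℓ)) ^ 3 := mul_le_mul_of_nonneg_left h7 (by positivity)
      _ = _ := by ring

lemma tendsto_zf : Tendsto zf atTop atTop := by
  rw [tendsto_atTop]
  intro b
  filter_upwards [ev_z, (tendsto_rpow_atTop (show (0 : ℝ) < 1 / 2 by norm_num)).eventually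
    (eventually_ge_atTop (b : ℝ))] with ℓ h1 h2
  have := h2.trans h1.2.2.2.2.2
  exact_mod_cast this

/-- sieve level -/
noncomputable def yf (ℓ : ℝ) (m : ℕ) : ℕ := ⌊Real.exp (ℓ / m)⌋₊

lemma ev_yf (m : ℕ) (hm : 1 ≤ m) : ∀ᶠ ℓ : ℝ in atTop, Real.exp (ℓ / m) < yf ℓ m + 1 ∧
    (yf ℓ m : ℝ) ≤ Real.exp (ℓ / m) ∧ ℓ / (2 * m) ≤ Real.log (yf ℓ m) ∧ zf ℓ < yf ℓ m := by
  have hm0 : (0 : ℝ) < m := by exact_mod_cast hm
  have h1 := isLittleO_rpow_exp_pos_mul_atTop 1 (show (0 : ℝ) < 1 / m by positivity)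
  have h2 := h1.bound (show (0 : ℝ) < 1 / 4 by norm_num)
  filter_upwards [ev_z, h2, eventually_ge_atTop (4 : ℝ), eventually_ge_atTop (2 * m : ℝ)] with ℓ hz a b c
  have hℓ0 : 0 < ℓ := by linarith
  have e1 : (1 / m : ℝ) * ℓ = ℓ / m := by ring
  rw [Real.rpow_one, Real.norm_of_nonneg hℓ0.le, Real.norm_of_nonneg (Real.exp_pos _).le, e1] at a
  have h3 : Real.exp (ℓ / m) < yf ℓ m + 1 := Nat.lt_floor_add_one _
  have h4 : (yf ℓ m : ℝ) ≤ Real.exp (ℓ / m) := Nat.floor_le (Real.exp_pos _).le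
  have hzℓ : (zf ℓ : ℝ) ≤ ℓ := by
    obtain ⟨k1, k2, k3, k4, k5, k6⟩ := hz
    have : 1 ≤ Real.log (zf ℓ) ^ 3 := one_le_pow₀ (by linarith)
    have h0 : (0 : ℝ) ≤ zf ℓ := Nat.cast_nonneg _
    calc (zf ℓ : ℝ) = zf ℓ * 1 := (mul_one _).symm
      _ ≤ zf ℓ * Real.log (zf ℓ) ^ 3 := mul_le_mul_of_nonneg_left this h0
      _ ≤ ℓ := k3
  refine ⟨h3, h4, ?_, ?_⟩
  · have h5 : Real.exp (ℓ / (2 * m)) ≤ yf ℓ m := by
      have h6 : 2 ≤ Real.exp (ℓ / (2 * m)) := by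
        have := Real.add_one_le_exp (ℓ / (2 * m))
        have h7 : 1 ≤ ℓ / (2 * m) := by rw [le_div_iff₀ (by positivity)]; linarith
        linarith
      have h8 : Real.exp (ℓ / m) = Real.exp (ℓ / (2 * m)) * Real.exp (ℓ / (2 * m)) := by
        rw [← Real.exp_add]; congr 1; field_simp; ring
      have h9 : 2 * Real.exp (ℓ / (2 * m)) ≤ Real.exp (ℓ / (2 * m)) * Real.exp (ℓ / (2 * m)) :=
        mul_le_mul_of_nonneg_right h6 (Real.exp_pos _).le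
      linarith
    calc ℓ / (2 * m) = Real.log (Real.exp (ℓ / (2 * m))) := (Real.log_exp _).symm
      _ ≤ _ := Real.log_le_log (Real.exp_pos _) h5
  · have : (zf ℓ : ℝ) < yf ℓ m := by linarith
    exact_mod_cast this

/-- size of the modulus -/
lemma ev_W (ε : ℝ) (hε : 0 < ε) : ∀ᶠ ℓ : ℝ in atTop, ∀ e : ℕ,
    Real.log (WW (zf ℓ) e) ≤ ℓ / (2 * (Real.log ℓ) ^ 2) ∧ (WW (zf ℓ) e : ℝ) ≤ Real.exp (ε * ℓ) := by
  filter_upwards [ev_z, Real.tendsto_log_atTop.eventually (eventually_ge_atTop (4 : ℝ)),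
    Real.tendsto_log_atTop.eventually (eventually_ge_atTop (2 / ε)),
    eventually_ge_atTop (4 : ℝ)] with ℓ hz b b2 c e
  have hℓ0 : 0 < ℓ := by linarith
  have hl0 : 0 < Real.log ℓ := by linarith
  have hlog4 : Real.log 4 ≤ 2 := by
    have : Real.log 4 = 2 * Real.log 2 := by
      rw [show (4 : ℝ) = 2 ^ 2 by norm_num, Real.log_pow]; push_cast; ring
    have h2 := Real.log_two_lt_d9
    linarith
  have hW0 : (0 : ℝ) < WW (zf ℓ) e := by exact_mod_cast WW_pos _ _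
  have h1 : Real.log (WW (zf ℓ) e) ≤ 2 * zf ℓ := by
    have h2 : (WW (zf ℓ) e : ℝ) ≤ 4 ^ (zf ℓ) := by exact_mod_cast WW_le _ _
    calc Real.log (WW (zf ℓ) e) ≤ Real.log (4 ^ (zf ℓ)) := Real.log_le_log hW0 h2
      _ = zf ℓ * Real.log 4 := by rw [Real.log_pow]
      _ ≤ zf ℓ * 2 := mul_le_mul_of_nonneg_left hlog4 (Nat.cast_nonneg _)
      _ = _ := by ring
  have h3 : 2 * (zf ℓ : ℝ) ≤ 2 * (ℓ / Real.log ℓ ^ 3) := by linarith [hz.2.2.2.2.1]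
  constructor
  · refine h1.trans (h3.trans ?_)
    have e1 : 2 * (ℓ / Real.log ℓ ^ 3) = (4 / Real.log ℓ) * (ℓ / (2 * Real.log ℓ ^ 2)) := by
      field_simp; ring
    rw [e1]
    apply mul_le_of_le_one_left (by positivity)
    rw [div_le_one hl0]; exact b
  · rw [← Real.exp_log hW0]
    apply Real.exp_le_exp.mpr
    refine h1.trans (h3.trans ?_)
    have e2 : Real.log ℓ ≤ Real.log ℓ ^ 3 := by
      calc Real.log ℓ = Real.log ℓ ^ 1 := (pow_one _).symm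
        _ ≤ Real.log ℓ ^ 3 := pow_le_pow_right₀ (by linarith) (by norm_num)
    have e3 : 2 / ε ≤ Real.log ℓ ^ 3 := b2.trans e2
    have e4 : 2 ≤ ε * Real.log ℓ ^ 3 := by
      rw [div_le_iff₀ hε] at e3; linarith
    have e5 : 0 < Real.log ℓ ^ 3 := by positivity
    rw [mul_div_assoc']
    rw [div_le_iff₀ e5]
    nlinarith

end Pool.Agent.H16
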