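import Pool.Agent.H16.PG5

/-!
The gap theorem: many primes `n ≤ x` such that the next element of the set of `u`-rough numbers
(in the sense of `PRough`) after `n` is `n + t`.
-/

set_option autoImplicit false

open Finset Filter Topology

namespace Pool.Agent.H16

/-- a cover for all `e` -/
lemma cover_e (C ε : ℝ) (hC : 1 ≤ C) (hε : 0 < ε) :
    ∀ᶠ z : ℕ in atTop, ∀ e t : ℕ, 1 ≤ e → Even t → 0 < t →
    (t : ℝ) ≤ C * (z * (Real.log z) ^ 3) →
    ∃ a : ℕ → ℕ, (∀ p, p.Prime → p ≤ z → a p % p ≠ 0 ∧ a p % p ≠ t % p) ∧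
      (#(uncov z e t a) : ℝ) ≤ ε * (z * (Real.log z) ^ 2) := by
  filter_upwards [cover_lite C ε hC hε 3 (by norm_num), eventually_ge_atTop 1] with z hz hz1 e t he ht ht0 htz
  by_cases hez : e ≤ z
  · obtain ⟨a, h1, h2⟩ := hz e t he hez ht ht0 htz
    exact ⟨a, h1, h2⟩
  · obtain ⟨a, h1, h2⟩ := hz 1 t le_rfl hz1 ht ht0 htz
    refine ⟨a, h1, le_trans ?_ h2⟩
    have : uncov z e t a ⊆ uncov z 1 t a := by
      classical
      intro i hi
      simp only [uncov, Finset.mem_filter, Finset.mem_range] at hi ⊢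
      refine ⟨hi.1, hi.2.1, fun p hp hpz _ => hi.2.2 p hp hpz (by omega)⟩
    exact_mod_cast Finset.card_le_card this

/-- final set of primes -/
noncomputable def goodPrimes (u : ℕ) (ℓ : ℝ) (t : ℕ) : Finset ℕ := by
  classical
  exact (Ioc 0 ⌊Real.exp ℓ⌋₊).filter (fun n => n.Prime ∧ PRough u (n + t) ∧
    ∀ i, 0 < i → i < t → ¬ PRough u (n + i))

theorem many_prime_gaps (hM : MollSmall) (u : ℕ) (hu : 7501 ≤ u) (C ε : ℝ) (hε : 0 < ε) :
    ∀ᶠ ℓ : ℝ in atTop, ∀ t : ℕ, Even t → 0 < t → (t : ℝ) ≤ C * ℓ →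
    Real.exp ((1 - ε) * ℓ) ≤ #(goodPrimes u ℓ t) := by
  classical
  obtain ⟨cG, hcG, hG⟩ := G_lower_num hM
  obtain ⟨C2, hC2, hbad⟩ := bad_bounds
  -- constants
  set C' : ℝ := 16 * max C 1 with hC'
  have hC'1 : 1 ≤ C' := by
    have := le_max_right C 1
    rw [hC']; linarith
  set K0 : ℝ := 4 * (15000 * C2) ^ 2 with hK0
  have hK0pos : 0 < K0 := by positivity
  obtain ⟨P0, hP0⟩ := exists_nat_ge (4 * K0 / cG)
  have hu0 : (0 : ℝ) < u := by
    have : 0 < u := by omega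
    exact_mod_cast this
  set K3 : ℝ := 4 * (C2 * (4 * u)) ^ 3 with hK3
  have hK3pos : 0 < K3 := by positivity
  set ε' : ℝ := cG / (4 * K3) with hε'
  have hε'pos : 0 < ε' := by positivity
  have hev_small1 : ∀ᶠ ℓ : ℝ in atTop, Real.exp (ℓ / 150) + (C * ℓ) * Real.exp (ℓ / 150) ≤
      cG / 4 * (Real.exp ℓ / Real.exp (1 / 2 * ℓ) * (1 / ℓ) ^ 2) := by
    have h := isLittleO_rpow_exp_pos_mul_atTop 3 (show (0 : ℝ) < 0.4 by norm_num)
    have h1 := h.bound (show (0 : ℝ) < cG / (4 * (1 + |C|)) by positivity)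
    filter_upwards [h1, eventually_ge_atTop (1 : ℝ)] with ℓ a b
    have hℓ0 : 0 < ℓ := by linarith
    rw [Real.norm_of_nonneg (by positivity), Real.norm_of_nonneg (by positivity)] at a
    have e3 : ℓ ^ (3 : ℝ) = ℓ ^ 3 := by norm_cast
    rw [e3] at a
    have hC0 : C ≤ |C| := le_abs_self C
    have hE : 0 < Real.exp (ℓ / 150) := Real.exp_pos _
    have e1 : Real.exp (ℓ / 150) + (C * ℓ) * Real.exp (ℓ / 150) ≤ (1 + |C|) * ℓ * Real.exp (ℓ / 150) := by
      have h2 : 1 + C * ℓ ≤ (1 + |C|) * ℓ := by nlinarith [abs_nonneg C]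
      have := mul_le_mul_of_nonneg_right h2 hE.le
      linarith
    have e2 : Real.exp ℓ / Real.exp (1 / 2 * ℓ) = Real.exp (ℓ / 2) := by
      rw [← Real.exp_sub]; congr 1; ring
    rw [e2]
    refine e1.trans ?_
    have e4 : Real.exp (ℓ / 150) * Real.exp (0.4 * ℓ) ≤ Real.exp (ℓ / 2) := by
      rw [← Real.exp_add]
      apply Real.exp_le_exp.mpr; linarith
    have e5 : (1 + |C|) * ℓ ^ 3 ≤ cG / 4 * Real.exp (0.4 * ℓ) := by
      have hpos : 0 < 1 + |C| := by positivity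
      calc (1 + |C|) * ℓ ^ 3 ≤ (1 + |C|) * (cG / (4 * (1 + |C|)) * Real.exp (0.4 * ℓ)) :=
            mul_le_mul_of_nonneg_left a hpos.le
        _ = _ := by field_simp
    have e6 : (1 + |C|) * ℓ * Real.exp (ℓ / 150) = ((1 + |C|) * ℓ ^ 3) * Real.exp (ℓ / 150) * (1 / ℓ) ^ 2 := by
      field_simp
    rw [e6]
    calc ((1 + |C|) * ℓ ^ 3) * Real.exp (ℓ / 150) * (1 / ℓ) ^ 2 ≤
        (cG / 4 * Real.exp (0.4 * ℓ)) * Real.exp (ℓ / 150) * (1 / ℓ) ^ 2 := by
          apply mul_le_mul_of_nonneg_right _ (by positivity)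
          exact mul_le_mul_of_nonneg_right e5 hE.le
      _ = cG / 4 * ((Real.exp (ℓ / 150) * Real.exp (0.4 * ℓ)) * (1 / ℓ) ^ 2) := by ring
      _ ≤ cG / 4 * (Real.exp (ℓ / 2) * (1 / ℓ) ^ 2) := by
          apply mul_le_mul_of_nonneg_left _ (by positivity)
          exact mul_le_mul_of_nonneg_right e4 (by positivity)
  have hev_final : ∀ᶠ ℓ : ℝ in atTop, Real.exp ((1 - ε) * ℓ) ≤
      cG / 4 * (Real.exp ℓ / Real.exp (ε / 2 * ℓ) * (1 / ℓ) ^ 2) := by
    have h := isLittleO_rpow_exp_pos_mul_atTop 2 (show (0 : ℝ) < ε / 2 by positivity)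
    have h1 := h.bound (show (0 : ℝ) < cG / 4 by positivity)
    filter_upwards [h1, eventually_ge_atTop (1 : ℝ)] with ℓ a b
    have hℓ0 : 0 < ℓ := by linarith
    rw [Real.norm_of_nonneg (by positivity), Real.norm_of_nonneg (by positivity)] at a
    have e3 : ℓ ^ (2 : ℝ) = ℓ ^ 2 := by norm_cast
    rw [e3] at a
    have e2 : Real.exp ℓ / Real.exp (ε / 2 * ℓ) = Real.exp ((1 - ε) * ℓ) * Real.exp (ε / 2 * ℓ) := by
      rw [← Real.exp_sub, ← Real.exp_add]; congr 1; ring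
    rw [e2]
    calc Real.exp ((1 - ε) * ℓ) = Real.exp ((1 - ε) * ℓ) * (ℓ ^ 2 * (1 / ℓ) ^ 2) := by
          have : ℓ ^ 2 * (1 / ℓ) ^ 2 = 1 := by field_simp
          rw [this, mul_one]
      _ ≤ Real.exp ((1 - ε) * ℓ) * ((cG / 4 * Real.exp (ε / 2 * ℓ)) * (1 / ℓ) ^ 2) := by
          apply mul_le_mul_of_nonneg_left _ (Real.exp_pos _).le
          exact mul_le_mul_of_nonneg_right a (by positivity)
      _ = _ := by ring
  filter_upwards [hG P0, ev_z, tendsto_zf.eventually (cover_e C' ε' hC'1 hε'pos),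
    ev_yf 7500 (by norm_num), ev_yf (2 * u) (by omega), ev_W (1 / 2) (by norm_num),
    ev_W (ε / 2) (by positivity), hev_small1, hev_final, eventually_ge_atTop (100000 : ℝ),
    (tendsto_rpow_atTop (show (0 : ℝ) < 1 / 2 by norm_num)).eventually (eventually_gt_atTop (|C| + 1)),
    ev_log_pow 1 1 (1 / (2 * (|C| + 1))) one_pos (by positivity)]
    with ℓ hGℓ hz hcov hyf hyu hW12 hWε hs1 hfin hℓbig hℓC _ t hte ht0 htC
  obtain ⟨z1, z2, z3, z4, z5, z6⟩ := hz
  obtain ⟨y1, y2, y3, y4⟩ := hyf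
  obtain ⟨v1, v2, v3, v4⟩ := hyu
  obtain ⟨e, he, hGe⟩ := hGℓ
  have hℓ0 : 0 < ℓ := by linarith
  set z := zf ℓ with hzdef
  set y := yf ℓ 7500 with hydef
  set yu := yf ℓ (2 * u) with hyudef
  set x := Real.exp ℓ with hx
  have hx0 : 0 < x := Real.exp_pos _
  have he1 : 1 ≤ e := by
    rcases he with h | ⟨h, _⟩
    · omega
    · exact h.one_le
  have hzl := zw_large z z1
  have hz0 : (0 : ℝ) < z := by linarith
  have hlz0 : 0 < Real.log z := by linarith
  have hlz1 : 1 ≤ Real.log z := by linarith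
  -- the cover
  have htz : (t : ℝ) ≤ C' * (z * (Real.log z) ^ 3) := by
    have h1 : C * ℓ ≤ max C 1 * ℓ := mul_le_mul_of_nonneg_right (le_max_left _ _) hℓ0.le
    have h2 : max C 1 * ℓ ≤ max C 1 * (16 * ((z : ℝ) * Real.log z ^ 3)) := by
      apply mul_le_mul_of_nonneg_left z4
      exact zero_le_one.trans (le_max_right _ _)
    calc (t : ℝ) ≤ C * ℓ := htC
      _ ≤ max C 1 * (16 * ((z : ℝ) * Real.log z ^ 3)) := h1.trans h2
      _ = _ := by rw [hC']; ring
  obtain ⟨a, ha, hunc⟩ := hcov e t he1 hte ht0 htz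
  obtain ⟨A0, _, hA0⟩ := exists_crt z a
  have hA0cop : Nat.Coprime A0 (WW z e) := by
    unfold WW
    apply Nat.Coprime.prod_right
    intro p hp
    rw [mem_WWset] at hp
    rw [Nat.coprime_comm, Nat.Prime.coprime_iff_not_dvd hp.1]
    intro hd
    have h1 := (Nat.dvd_add_right hd).mp (hA0 p hp.1 hp.2.1)
    exact (ha p hp.1 hp.2.1).1 (Nat.mod_eq_zero_of_dvd h1)
  have hGcard := hGe t A0 hA0cop
  -- t < z^3
  have htz3 : t < z ^ 3 := by
    have h1 : (t : ℝ) < (z : ℝ) ^ 3 := by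
      have h2 : (t : ℝ) ≤ |C| * ℓ := htC.trans (mul_le_mul_of_nonneg_right (le_abs_self C) hℓ0.le)
      have h3 : |C| < ℓ ^ (1 / 2 : ℝ) := by linarith
      have hs0 : 0 < ℓ ^ (1 / 2 : ℝ) := by positivity
      have hss : ℓ ^ (1 / 2 : ℝ) * ℓ ^ (1 / 2 : ℝ) = ℓ := by
        rw [← Real.rpow_add hℓ0]; norm_num
      calc (t : ℝ) ≤ |C| * ℓ := h2
        _ < ℓ ^ (1 / 2 : ℝ) * ℓ := mul_lt_mul_of_pos_right h3 hℓ0
        _ = (ℓ ^ (1 / 2 : ℝ)) ^ 3 := by
            rw [pow_succ, sq, hss]; ring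
        _ ≤ (z : ℝ) ^ 3 := pow_le_pow_left₀ hs0.le z6 3
    exact_mod_cast h1
  -- exponent facts
  have hexp1 : Real.exp ((1 : ℝ)) ≤ 2.72 := by have := Real.exp_one_lt_d9; linarith
  have hhalf : Real.exp (ℓ / 2) ≤ x / 9 := by
    have h1 : x = Real.exp (ℓ / 2) * Real.exp (ℓ / 2) := by
      rw [hx, ← Real.exp_add]; congr 1; ring
    have h2 : 9 ≤ Real.exp (ℓ / 2) := by
      have := Real.add_one_le_exp (ℓ / 2); linarith
    rw [le_div_iff₀ (by norm_num), h1]
    exact mul_le_mul_of_nonneg_left h2 (Real.exp_pos _).le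
  have hyuu : (yu : ℝ) ^ u ≤ x / 9 := by
    refine le_trans ?_ hhalf
    calc (yu : ℝ) ^ u ≤ (Real.exp (ℓ / (2 * u : ℕ))) ^ u := pow_le_pow_left₀ (Nat.cast_nonneg _) v2 u
      _ = Real.exp (ℓ / 2) := by
          rw [← Real.exp_nat_mul]; congr 1; push_cast; field_simp
  have hyuy : yu ≤ y := by
    apply Nat.floor_le_floor
    apply Real.exp_le_exp.mpr
    apply div_le_div_of_nonneg_left hℓ0.le (by norm_num)
    exact_mod_cast (show 7500 ≤ 2 * u by omega)
  have hzu : (z : ℝ) ^ u ≤ x / 9 :=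
    (pow_le_pow_left₀ hz0.le (by exact_mod_cast v4.le) u).trans hyuu
  have htx : (t : ℝ) ≤ x := by
    have h1 : (t : ℝ) ≤ |C| * ℓ := htC.trans (mul_le_mul_of_nonneg_right (le_abs_self C) hℓ0.le)
    have h2 : |C| ≤ ℓ := by
      have h3 : ℓ ^ (1 / 2 : ℝ) ≤ ℓ := by
        calc ℓ ^ (1 / 2 : ℝ) ≤ ℓ ^ (1 : ℝ) :=
              Real.rpow_le_rpow_of_exponent_le (by linarith) (by norm_num)
          _ = ℓ := Real.rpow_one _
      linarith
    have h4 : ℓ * ℓ ≤ x := by
      have := Real.quadratic_le_exp_of_nonneg hℓ0.le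
      have h5 : (0 : ℝ) ≤ ℓ / 2 := by positivity
      have h6 := Real.add_one_le_exp (ℓ / 2)
      have h7 : x = Real.exp (ℓ / 2) * Real.exp (ℓ / 2) := by
        rw [hx, ← Real.exp_add]; congr 1; ring
      have h8 := Real.quadratic_le_exp_of_nonneg h5
      have h9 : ℓ ≤ Real.exp (ℓ / 2) := by linarith [sq_nonneg (ℓ - 2)]
      rw [h7]
      exact mul_le_mul h9 h9 hℓ0.le (Real.exp_pos _).le
    calc (t : ℝ) ≤ |C| * ℓ := h1
      _ ≤ ℓ * ℓ := mul_le_mul_of_nonneg_right h2 hℓ0.le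
      _ ≤ x := h4
  have hexp7500 : 2 < Real.exp (ℓ / 7500) := by
    have := Real.add_one_le_exp (ℓ / 7500)
    linarith
  push_cast at y1 y2
  -- main quantity
  have hWpos : (0 : ℝ) < WW z e := by exact_mod_cast WW_pos z e
  set W : ℝ := (WW z e : ℝ) with hWdef
  set KK : ℝ := x / W * (Real.log z / ℓ) ^ 2 with hKK
  have hKKpos : 0 < KK := by positivity
  obtain ⟨hb0, hbi⟩ := hbad ℓ u z y yu e t A0 (by omega) z1 v4.le hyuy ht0 htz3 hyuu
  -- bad 0
  set B0 : Finset ℕ := if e.Prime ∧ e ≤ y then (GG ℓ z y e t A0).filter (fun n => e ∣ n + t) else ∅ with hB0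
  have hly : ℓ / 15000 ≤ Real.log y := by
    have : ℓ / (2 * (7500 : ℕ)) = ℓ / 15000 := by push_cast; norm_num
    rw [← this]; exact y3
  have hly0 : 0 < Real.log y := by
    have : 0 < ℓ / 15000 := by positivity
    linarith
  have hy50 : (y : ℝ) ^ 50 ≤ Real.exp (ℓ / 150) := by
    calc (y : ℝ) ^ 50 ≤ (Real.exp (ℓ / 7500)) ^ 50 := pow_le_pow_left₀ (Nat.cast_nonneg _) y2 50
      _ = _ := by rw [← Real.exp_nat_mul]; congr 1; push_cast; ring
  have hyu50 : (yu : ℝ) ^ 50 ≤ Real.exp (ℓ / 150) :=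
    (pow_le_pow_left₀ (Nat.cast_nonneg _) (by exact_mod_cast hyuy) 50).trans hy50
  have hWx : ∀ e' : ℕ, (e' : ℝ) ≤ Real.exp (ℓ / 7500) → ((WW z e * e' : ℕ) : ℝ) ≤ x := by
    intro e' he'
    push_cast
    calc (WW z e : ℝ) * e' ≤ Real.exp (1 / 2 * ℓ) * Real.exp (ℓ / 7500) :=
          mul_le_mul (hW12 e).2 he' (Nat.cast_nonneg _) (Real.exp_pos _).le
      _ = Real.exp (1 / 2 * ℓ + ℓ / 7500) := by rw [Real.exp_add]
      _ ≤ x := Real.exp_le_exp.mpr (by linarith)
  have hB0card : (#B0 : ℝ) ≤ cG / 4 * KK + Real.exp (ℓ / 150) := by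
    rw [hB0]
    split_ifs with hcase
    · obtain ⟨hep, hey⟩ := hcase
      have hPe : (P0 : ℝ) ≤ e := by
        rcases he with h | ⟨_, h⟩
        · exact absurd h hep.ne_one
        · exact_mod_cast h.le
      have he0 : (0 : ℝ) < e := by exact_mod_cast hep.pos
      have h1 := hb0 hep hey
      refine h1.trans ?_
      have hey' : (e : ℝ) ≤ Real.exp (ℓ / 7500) := le_trans (by exact_mod_cast hey) y2
      have hWe := hWx e hey'
      have hWe0 : (0 : ℝ) < ((WW z e * e : ℕ) : ℝ) := by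
        have := Nat.mul_pos (WW_pos z e) hep.pos
        exact_mod_cast this
      have h2 : x / ((WW z e * e : ℕ) : ℝ) + 1 ≤ 2 * (x / ((WW z e * e : ℕ) : ℝ)) := by
        have : 1 ≤ x / ((WW z e * e : ℕ) : ℝ) := by rw [le_div_iff₀ hWe0]; linarith
        linarith
      have h3 : (C2 * (Real.log z / Real.log y)) ^ 2 ≤ (15000 * C2) ^ 2 * (Real.log z / ℓ) ^ 2 := by
        rw [← mul_pow]
        apply pow_le_pow_left₀ (by positivity)
        have h4 : Real.log z / Real.log y ≤ Real.log z / (ℓ / 15000) :=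
          div_le_div_of_nonneg_left hlz0.le (by positivity) hly
        calc C2 * (Real.log z / Real.log y) ≤ C2 * (Real.log z / (ℓ / 15000)) :=
              mul_le_mul_of_nonneg_left h4 hC2.le
          _ = _ := by field_simp
      have h5 : 2 * (x / ((WW z e * e : ℕ) : ℝ) + 1) * (C2 * (Real.log z / Real.log y)) ^ 2 ≤
          2 * (2 * (x / ((WW z e * e : ℕ) : ℝ))) * ((15000 * C2) ^ 2 * (Real.log z / ℓ) ^ 2) := by
        apply mul_le_mul _ h3 (by positivity) (by positivity)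
        linarith
      have h6 : 2 * (2 * (x / ((WW z e * e : ℕ) : ℝ))) * ((15000 * C2) ^ 2 * (Real.log z / ℓ) ^ 2) =
          (K0 / e) * KK := by
        rw [hK0, hKK, hWdef]
        push_cast
        field_simp
        ring
      have h7 : K0 / e ≤ cG / 4 := by
        rw [div_le_iff₀ he0]
        rw [div_le_iff₀ hcG] at hP0
        have := mul_le_mul_of_nonneg_left hPe hcG.le
        linarith
      have h8 := mul_le_mul_of_nonneg_right h7 hKKpos.le
      linarith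
    · simp only [Finset.card_empty, Nat.cast_zero]
      positivity
  -- bad i
  set Bi : ℕ → Finset ℕ := fun i => (GG ℓ z y e t A0).filter (fun n => PRough u (n + i)) with hBi
  have hlyu : ℓ / (4 * u) ≤ Real.log yu := by
    have : ℓ / (2 * ((2 * u : ℕ) : ℝ)) = ℓ / (4 * u) := by push_cast; congr 1; ring
    rw [← this]; exact v3
  have hlyu0 : 0 < Real.log yu := by
    have : 0 < ℓ / (4 * u) := by positivity
    linarith
  have hBicard : ∀ i ∈ uncov z e t a, (#(Bi i) : ℝ) ≤ K3 * (x / W * (Real.log z / ℓ) ^ 3) +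
      Real.exp (ℓ / 150) := by
    intro i hi
    have hi' : i < t ∧ 0 < i := by
      simp only [uncov, Finset.mem_filter, Finset.mem_range] at hi
      exact ⟨hi.1, hi.2.1⟩
    have h1 := hbi i hi'.2 hi'.1 (Bi i) (by
      intro n hn
      rw [hBi] at hn
      simp only [Finset.mem_filter] at hn
      exact hn)
    refine h1.trans ?_
    have hWx' := hWx 1 (by
      rw [Nat.cast_one]; exact Real.one_le_exp (by positivity))
    rw [mul_one] at hWx'
    have h2 : x / W + 1 ≤ 2 * (x / W) := by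
      have : 1 ≤ x / W := by rw [le_div_iff₀ hWpos]; linarith
      linarith
    have h3 : (C2 * (Real.log z / Real.log yu)) ^ 3 ≤ (C2 * (4 * u)) ^ 3 * (Real.log z / ℓ) ^ 3 := by
      rw [← mul_pow]
      apply pow_le_pow_left₀ (by positivity)
      have h4 : Real.log z / Real.log yu ≤ Real.log z / (ℓ / (4 * u)) :=
        div_le_div_of_nonneg_left hlz0.le (by positivity) hlyu
      calc C2 * (Real.log z / Real.log yu) ≤ C2 * (Real.log z / (ℓ / (4 * u))) :=
            mul_le_mul_of_nonneg_left h4 hC2.le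
        _ = _ := by field_simp
    have h5 : 2 * (x / W + 1) * (C2 * (Real.log z / Real.log yu)) ^ 3 ≤
        2 * (2 * (x / W)) * ((C2 * (4 * u)) ^ 3 * (Real.log z / ℓ) ^ 3) := by
      apply mul_le_mul _ h3 (by positivity) (by positivity)
      linarith
    have h6 : 2 * (2 * (x / W)) * ((C2 * (4 * u)) ^ 3 * (Real.log z / ℓ) ^ 3) =
        K3 * (x / W * (Real.log z / ℓ) ^ 3) := by rw [hK3]; ring
    linarith
  have hsumBi : ∑ i ∈ uncov z e t a, (#(Bi i) : ℝ) ≤ cG / 4 * KK + (C * ℓ) * Real.exp (ℓ / 150) := by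
    have hE0 : 0 < Real.exp (ℓ / 150) := Real.exp_pos _
    calc ∑ i ∈ uncov z e t a, (#(Bi i) : ℝ) ≤
        ∑ i ∈ uncov z e t a, (K3 * (x / W * (Real.log z / ℓ) ^ 3) + Real.exp (ℓ / 150)) :=
          Finset.sum_le_sum hBicard
      _ = (#(uncov z e t a) : ℝ) * (K3 * (x / W * (Real.log z / ℓ) ^ 3)) +
          (#(uncov z e t a) : ℝ) * Real.exp (ℓ / 150) := by
          rw [Finset.sum_const, nsmul_eq_mul, mul_add]
      _ ≤ cG / 4 * KK + (C * ℓ) * Real.exp (ℓ / 150) := by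
          apply add_le_add
          · calc (#(uncov z e t a) : ℝ) * (K3 * (x / W * (Real.log z / ℓ) ^ 3)) ≤
                (ε' * (z * (Real.log z) ^ 2)) * (K3 * (x / W * (Real.log z / ℓ) ^ 3)) :=
                  mul_le_mul_of_nonneg_right hunc (by positivity)
              _ = (ε' * K3) * (x / W * (Real.log z / ℓ) ^ 2) * ((z * (Real.log z) ^ 3) / ℓ) := by
                  field_simp
              _ ≤ (ε' * K3) * (x / W * (Real.log z / ℓ) ^ 2) * 1 := by
                  apply mul_le_mul_of_nonneg_left _ (by positivity)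
                  rw [div_le_one hℓ0]; exact z3
              _ = cG / 4 * KK := by
                  rw [hε', hKK]; field_simp
          · apply mul_le_mul_of_nonneg_right _ hE0.le
            exact (uncov_card_le z e t a).trans htC
  -- good ones
  have hsub : GG ℓ z y e t A0 ⊆ goodPrimes u ℓ t ∪ (B0 ∪ (uncov z e t a).biUnion Bi) := by
    intro n hn
    rw [Finset.mem_union, Finset.mem_union, Finset.mem_biUnion]
    by_cases h1 : n ∈ B0
    · exact Or.inr (Or.inl h1)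
    by_cases h2 : ∃ i ∈ uncov z e t a, n ∈ Bi i
    · exact Or.inr (Or.inr h2)
    left
    push Not at h2
    have hne : e.Prime → e ≤ y → ¬ e ∣ n + t := by
      intro hep hey hd
      apply h1
      rw [hB0, if_pos ⟨hep, hey⟩, Finset.mem_filter]
      exact ⟨hn, hd⟩
    have hun : ∀ i ∈ uncov z e t a, ¬ PRough u (n + i) := by
      intro i hi hR
      apply h2 i hi
      rw [hBi]
      simp only [Finset.mem_filter]
      exact ⟨hn, hR⟩
    have hgap := gap_of_GG u hu ℓ z y e t A0 n a y1 hexp7500 ht0 htx y4 hzu ha hA0 hn hne hun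
    have hnG := mem_GG.mp hn
    unfold goodPrimes
    rw [Finset.mem_filter, Finset.mem_Ioc]
    exact ⟨hnG.1, hnG.2.2.1, hgap.1, hgap.2⟩
  have hcard : (#(GG ℓ z y e t A0) : ℝ) ≤ #(goodPrimes u ℓ t) + (#B0 + ∑ i ∈ uncov z e t a, (#(Bi i) : ℝ)) := by
    have h1 := (Finset.card_le_card hsub).trans (Finset.card_union_le _ _)
    have h2 := Finset.card_union_le B0 ((uncov z e t a).biUnion Bi)
    have h3 : #((uncov z e t a).biUnion Bi) ≤ ∑ i ∈ uncov z e t a, #(Bi i) := Finset.card_biUnion_le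
    have h4 : #(GG ℓ z y e t A0) ≤ #(goodPrimes u ℓ t) + (#B0 + ∑ i ∈ uncov z e t a, #(Bi i)) := by omega
    exact_mod_cast h4
  have hlzℓ : 1 / ℓ ≤ Real.log z / ℓ := div_le_div_of_nonneg_right hlz1 hℓ0.le
  have hlzℓ2 : (1 / ℓ) ^ 2 ≤ (Real.log z / ℓ) ^ 2 := pow_le_pow_left₀ (by positivity) hlzℓ 2
  have hKlow : ∀ B : ℝ, 0 < B → W ≤ B → x / B * (1 / ℓ) ^ 2 ≤ KK := by
    intro B hB hWB
    rw [hKK]
    apply mul_le_mul _ hlzℓ2 (by positivity) (by positivity)
    exact div_le_div_of_nonneg_left hx0.le hWpos hWB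
  have hk1 := hKlow _ (Real.exp_pos _) (hW12 e).2
  have hk2 := hKlow _ (Real.exp_pos _) (hWε e).2
  have hs1' : Real.exp (ℓ / 150) + (C * ℓ) * Real.exp (ℓ / 150) ≤ cG / 4 * KK :=
    hs1.trans (mul_le_mul_of_nonneg_left hk1 (by positivity))
  have hf' : Real.exp ((1 - ε) * ℓ) ≤ cG / 4 * KK :=
    hfin.trans (mul_le_mul_of_nonneg_left hk2 (by positivity))
  linarith

end Pool.Agent.H16
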