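import Pool.Agent.H16.AN3

/-!
Small moduli: bilinear sequences `B * Λ`.
-/

set_option autoImplicit false

open Complex Finset Filter Topology MeasureTheory
open scoped ComplexConjugate
open ArithmeticFunction (vonMangoldt moebius)
open DirichletCharacter

namespace Pool.Agent.H16

lemma LSeries_twc_typeIIB {q : ℕ} (ξ : DirichletCharacter ℂ q) (B : ArithmeticFunction ℂ)
    (hB1 : ∀ n, ‖B n‖ ≤ 1) (v : ℕ → ℝ) (hv0 : ∀ n, 0 ≤ v n)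
    (hv1 : ∀ n, v n ≤ 1) (ℓ : ℝ) (hℓ : 1 ≤ ℓ) (s : ℂ) (hs : s.re = 1 + 1 / ℓ) :
    LSeriesSummable (twc ξ (B * (LamC * rf v ^ 3))) s ∧
    LSeries (twc ξ (B * (LamC * rf v ^ 3))) s = LSeries (twc ξ B) s *
      (LSeries (twc ξ LamC) s * LSeries (twc ξ (rf v)) s ^ 3) := by
  have h0 := (twc_bdd_bound ξ B (fun n _ => hB1 n) ℓ hℓ s hs).1
  have h1 := LSeries_twc_typeII ξ v hv0 hv1 ℓ hℓ s hs
  rw [twc_mul]
  refine ⟨ArithmeticFunction.LSeriesSummable_mul h0 h1.1, ?_⟩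
  rw [ArithmeticFunction.LSeries_mul' h0 h1.1, h1.2]

/-- Type II bound over a quasi-orthogonal family, with an extra bounded factor. -/
theorem typeII_familyB {ι : Type*} [DecidableEq ι] (I' : Finset ι) (Q : ι → ℕ)
    (ξ : (i : ι) → DirichletCharacter ℂ (Q i)) (q0 : ℝ) (hq0 : 0 ≤ q0) (Y : ℕ) (hY1 : 1 ≤ Y)
    (hY : q0 * #I' ≤ Y)
    (horth : ∀ M N : ℕ, M ≤ N → ∀ i ∈ I', ∀ j ∈ I', i ≠ j →
      ‖∑ n ∈ Ioc M N, ξ i n * conj (ξ j n)‖ ≤ q0)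
    (ℓ : ℝ) (hℓ : 1 < ℓ) (v : ℕ → ℝ) (hv0 : ∀ n, 0 ≤ v n)
    (hv1 : ∀ n, v n ≤ 1) (hvY : ∀ n, n ≤ Y → v n = 1)
    (T u : ℝ) (hT : 0 < T) (hu : 0 ≤ u)
    (hsmall : ∀ i ∈ I', ∀ t : ℝ, |t| ≤ T →
      ‖LSeries (twc (ξ i) (rf v)) (((1 + 1 / ℓ : ℝ) : ℂ) + t * I)‖ ≤ u)
    (x0 : ℝ) (hx0 : 0 < x0) (N : ℕ) (hN : Real.exp 1 * x0 ≤ N)
    (B : ArithmeticFunction ℂ) (hB1 : ∀ n, ‖B n‖ ≤ 1) :
    ∑ i ∈ I', ‖∑ n ∈ Finset.Icc 1 N, (ξ i n * (B * (LamC * rf v ^ 3)) n) * ((tent x0 n : ℝ) : ℂ)‖ ≤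
      2 * x0 ^ (1 + 1 / ℓ) * ((1 + ℓ) * (1920 * ℓ ^ 8) * (4 * u + 10 * ℓ ^ 2 / T)) := by
  have hℓ0 : 0 < ℓ := by linarith
  have hℓ1 : 1 ≤ ℓ := hℓ.le
  have hinv : 0 < 1 / ℓ := by positivity
  have hinv1 : 1 / ℓ ≤ 1 := by rw [div_le_one hℓ0]; exact hℓ1
  have hre : ∀ t : ℝ, (((1 + 1 / ℓ : ℝ) : ℂ) + t * I).re = 1 + 1 / ℓ := by
    intro t
    simp only [Complex.add_re, Complex.ofReal_re, Complex.mul_re, Complex.I_re, mul_zero,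
      Complex.ofReal_im, Complex.I_im, mul_one, sub_self, add_zero]
  obtain ⟨i1, i2⟩ := integral_cut T u (5 * ℓ ^ 2) hT hu (by positivity)
  have hG : ∀ t : ℝ, ∑ i ∈ I', ‖LSeries (fun n => ξ i n * (B * (LamC * rf v ^ 3)) n)
      (((1 + 1 / ℓ : ℝ) : ℂ) + t * I)‖ ≤
      ((1 + ℓ) * (1920 * ℓ ^ 8)) * (u + (Set.Iic (-T) ∪ Set.Ioi T).indicator (fun _ => 5 * ℓ ^ 2) t) := by
    intro t
    have hms := mean_square_R I' Q ξ q0 hq0 Y hY1 hY horth ℓ hℓ1 v hv0 hv1 hvY _ (hre t)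
    have hpt : ∀ i ∈ I', ‖LSeries (fun n => ξ i n * (B * (LamC * rf v ^ 3)) n)
        (((1 + 1 / ℓ : ℝ) : ℂ) + t * I)‖ ≤ ((1 + ℓ) * (6 * ℓ ^ 2) * (u + (Set.Iic (-T) ∪ Set.Ioi T).indicator
          (fun _ => 5 * ℓ ^ 2) t)) * ‖LSeries (twc (ξ i) (rf v)) (((1 + 1 / ℓ : ℝ) : ℂ) + t * I)‖ ^ 2 := by
      intro i hi
      have h1 := (LSeries_twc_typeIIB (ξ i) B hB1 v hv0 hv1 ℓ hℓ1 _ (hre t)).2
      have h0 := (twc_bdd_bound (ξ i) B (fun n _ => hB1 n) ℓ hℓ1 _ (hre t)).2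
      have h2 := (twc_LamC_bound (ξ i) ℓ hℓ1 _ (hre t)).2
      have h3 := (LSeries_twc_rf (ξ i) v hv0 hv1 ℓ hℓ1 _ (hre t)).2.2
      have h4 : (fun n : ℕ => ξ i n * (B * (LamC * rf v ^ 3)) n) =
          (twc (ξ i) (B * (LamC * rf v ^ 3)) : ℕ → ℂ) := by
        ext n; rw [twc_apply]
      rw [h4, h1, norm_mul, norm_mul, norm_pow]
      set R := ‖LSeries (twc (ξ i) (rf v)) (((1 + 1 / ℓ : ℝ) : ℂ) + t * I)‖ with hR
      have hR0 : 0 ≤ R := norm_nonneg _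
      have h5 : R ≤ u + (Set.Iic (-T) ∪ Set.Ioi T).indicator (fun _ => 5 * ℓ ^ 2) t := by
        by_cases ht : t ∈ Set.Iic (-T) ∪ Set.Ioi T
        · rw [Set.indicator_of_mem ht]; linarith
        · rw [Set.indicator_of_notMem ht, add_zero]
          simp only [Set.mem_union, Set.mem_Iic, Set.mem_Ioi, not_or, not_le, not_lt] at ht
          exact hsmall i hi t (abs_le.mpr ⟨ht.1.le, ht.2⟩)
      have h6 : ‖LSeries (twc (ξ i) B) (((1 + 1 / ℓ : ℝ) : ℂ) + t * I)‖ *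
          (‖LSeries (twc (ξ i) LamC) (((1 + 1 / ℓ : ℝ) : ℂ) + t * I)‖ * R ^ 3) =
          (‖LSeries (twc (ξ i) B) (((1 + 1 / ℓ : ℝ) : ℂ) + t * I)‖ *
          ‖LSeries (twc (ξ i) LamC) (((1 + 1 / ℓ : ℝ) : ℂ) + t * I)‖ * R) * R ^ 2 := by ring
      rw [h6]
      apply mul_le_mul_of_nonneg_right _ (by positivity)
      exact mul_le_mul (mul_le_mul h0 h2 (norm_nonneg _) (by positivity)) h5 hR0 (by positivity)
    refine (Finset.sum_le_sum hpt).trans ?_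
    rw [← Finset.mul_sum]
    have hind : 0 ≤ u + (Set.Iic (-T) ∪ Set.Ioi T).indicator (fun _ => 5 * ℓ ^ 2) t := by
      have : 0 ≤ (Set.Iic (-T) ∪ Set.Ioi T).indicator (fun _ => 5 * ℓ ^ 2) t :=
        Set.indicator_nonneg (fun _ _ => by positivity) t
      linarith
    calc ((1 + ℓ) * (6 * ℓ ^ 2) * (u + (Set.Iic (-T) ∪ Set.Ioi T).indicator (fun _ => 5 * ℓ ^ 2) t)) *
          ∑ i ∈ I', ‖LSeries (twc (ξ i) (rf v)) (((1 + 1 / ℓ : ℝ) : ℂ) + t * I)‖ ^ 2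
        ≤ ((1 + ℓ) * (6 * ℓ ^ 2) * (u + (Set.Iic (-T) ∪ Set.Ioi T).indicator (fun _ => 5 * ℓ ^ 2) t)) *
          (320 * ℓ ^ 6) := mul_le_mul_of_nonneg_left hms (by positivity)
      _ = _ := by ring
  have hmain := tent_family I' (fun i n => ξ i n * (B * (LamC * rf v ^ 3)) n) (1 + 1 / ℓ) (by linarith)
    (by linarith) (by
      intro i _
      have h := (LSeries_twc_typeIIB (ξ i) B hB1 v hv0 hv1 ℓ hℓ1 ((1 + 1 / ℓ : ℝ) : ℂ) (by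
        rw [Complex.ofReal_re])).1
      exact h) x0 hx0 N hN
    (by
      intro i _
      apply cont_line _ (1 + 1 / ℓ) (1 + 1 / (2 * ℓ)) (by
        have : 1 / (2 * ℓ) < 1 / ℓ := by
          apply one_div_lt_one_div_of_lt hℓ0; linarith
        linarith)
      have h := (LSeries_twc_typeIIB (ξ i) B hB1 v hv0 hv1 (2 * ℓ) (by linarith)
        ((1 + 1 / (2 * ℓ) : ℝ) : ℂ) (by rw [Complex.ofReal_re])).1
      exact h)
    ((1 + ℓ) * (6 * ℓ ^ 2 * (5 * ℓ ^ 2) ^ 3)) (by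
      intro i _ t
      have h1 := (LSeries_twc_typeIIB (ξ i) B hB1 v hv0 hv1 ℓ hℓ1 _ (hre t)).2
      have h0 := (twc_bdd_bound (ξ i) B (fun n _ => hB1 n) ℓ hℓ1 _ (hre t)).2
      have h2 := (twc_LamC_bound (ξ i) ℓ hℓ1 _ (hre t)).2
      have h3 := (LSeries_twc_rf (ξ i) v hv0 hv1 ℓ hℓ1 _ (hre t)).2.2
      have h4 : (fun n : ℕ => ξ i n * (B * (LamC * rf v ^ 3)) n) =
          (twc (ξ i) (B * (LamC * rf v ^ 3)) : ℕ → ℂ) := by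
        ext n; rw [twc_apply]
      rw [h4, h1, norm_mul, norm_mul, norm_pow]
      exact mul_le_mul h0 (mul_le_mul h2 (pow_le_pow_left₀ (norm_nonneg _) h3 3) (by positivity)
        (by positivity)) (by positivity) (by positivity))
    (fun t => ((1 + ℓ) * (1920 * ℓ ^ 8)) * (u + (Set.Iic (-T) ∪ Set.Ioi T).indicator (fun _ => 5 * ℓ ^ 2) t))
    (by
      have := i1.const_mul ((1 + ℓ) * (1920 * ℓ ^ 8))
      refine this.congr (Filter.Eventually.of_forall fun t => ?_)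
      simp only
      ring)
    hG
  refine hmain.trans ?_
  apply mul_le_mul_of_nonneg_left _ (by positivity)
  simp_rw [mul_assoc ((1 + ℓ) * (1920 * ℓ ^ 8))]
  rw [integral_const_mul]
  apply mul_le_mul_of_nonneg_left _ (by positivity)
  have : 2 * (5 * ℓ ^ 2) / T = 10 * ℓ ^ 2 / T := by ring
  linarith

end Pool.Agent.H16
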