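import Pool.Agent.H16.SB

/-!
Small moduli: bilinear sequences `B * Λ`, final bound.
-/

set_option autoImplicit false

open Complex Finset Filter Topology MeasureTheory
open scoped ComplexConjugate
open ArithmeticFunction (vonMangoldt moebius)
open DirichletCharacter

namespace Pool.Agent.H16

/-- Type II block bound with a bounded factor -/
lemma block_boundB (δ ℓ : ℝ) (hδ : 0 < δ) (hδℓ : 10 ≤ δ * ℓ) (hℓ : 10 ≤ ℓ) (W : ℕ) (hW1 : 1 ≤ W)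
    (D : Finset ℕ) (hD : ∀ d ∈ D, 1 ≤ d ∧ ((W * d : ℕ) : ℝ) ≤ Real.exp (δ * ℓ / 10) ∧ Nat.Coprime d W)
    (hcardD : (#D : ℝ) ≤ Real.exp (δ * ℓ / 10))
    (T u : ℝ) (hT : 0 < T) (hu : 0 ≤ u)
    (hsmall : ∀ d ∈ D, ∀ ξ ∈ fam W d, ∀ t : ℝ, |t| ≤ T →
      ‖LSeries (twc ξ (rf (vH δ ℓ))) (((1 + 1 / ℓ : ℝ) : ℂ) + t * I)‖ ≤ u)
    (B : ArithmeticFunction ℂ) (hB1 : ∀ n, ‖B n‖ ≤ 1) :
    ∑ d ∈ D, ∑ ξ ∈ fam W d, ‖∑ n ∈ Finset.Icc 1 ⌊Real.exp ℓ⌋₊,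
      (ξ (n : ℕ) * (B * (LamC * rf (vH δ ℓ) ^ 3)) n) * ((tent (Real.exp ℓ / 3) n : ℝ) : ℂ)‖ ≤
      2 * Real.exp ℓ * ((1 + ℓ) * (1920 * ℓ ^ 8) * (4 * u + 10 * ℓ ^ 2 / T)) := by
  classical
  have hℓ0 : 0 < ℓ := by linarith
  have hδℓ0 : 0 < δ * ℓ := by positivity
  set E1 := Real.exp (δ * ℓ / 10) with hE1
  have hE10 : 0 < E1 := Real.exp_pos _
  set I' : Finset (Σ d : ℕ, DirichletCharacter ℂ (W * d)) := D.sigma (fun d => fam W d) with hI'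
  set q0 : ℝ := 8 * (E1 * E1) with hq0
  have hcard : (#I' : ℝ) ≤ E1 * E1 := by
    rw [hI', Finset.card_sigma]
    push_cast
    calc ∑ d ∈ D, (#(fam W d) : ℝ) ≤ ∑ d ∈ D, E1 := by
          apply Finset.sum_le_sum
          intro d hd
          obtain ⟨h1, h2, _⟩ := hD d hd
          have h3 : (#(fam W d) : ℝ) ≤ ((W * d : ℕ) : ℝ) := by
            exact_mod_cast card_fam_le W d (Nat.mul_pos hW1 h1)
          exact h3.trans h2
      _ = (#D : ℝ) * E1 := by rw [Finset.sum_const, nsmul_eq_mul]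
      _ ≤ E1 * E1 := mul_le_mul_of_nonneg_right hcardD hE10.le
  have hY : q0 * #I' ≤ (⌊Real.exp (δ * ℓ)⌋₊ : ℝ) := by
    have h1 : q0 * #I' ≤ q0 * (E1 * E1) := mul_le_mul_of_nonneg_left hcard (by positivity)
    have h2 : q0 * (E1 * E1) = 8 * Real.exp (2 / 5 * (δ * ℓ)) := by
      rw [hq0, hE1, ← Real.exp_add, mul_assoc, ← Real.exp_add]; congr 2; ring
    have h3 : Real.exp (δ * ℓ) < (⌊Real.exp (δ * ℓ)⌋₊ : ℝ) + 1 := Nat.lt_floor_add_one _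
    have h4 : Real.exp (δ * ℓ) = Real.exp (2 / 5 * (δ * ℓ)) * Real.exp (3 / 5 * (δ * ℓ)) := by
      rw [← Real.exp_add]; congr 1; ring
    have h5 : (9 : ℝ) ≤ Real.exp (3 / 5 * (δ * ℓ)) := by
      have e1 : Real.exp 3 ≤ Real.exp (3 / 5 * (δ * ℓ)) := Real.exp_le_exp.mpr (by linarith)
      have e2 : (2.7 : ℝ) ^ 3 ≤ Real.exp 3 := by
        have : Real.exp 3 = Real.exp 1 ^ 3 := by rw [← Real.exp_nat_mul]; norm_num
        rw [this]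
        exact pow_le_pow_left₀ (by norm_num) (by have := Real.exp_one_gt_d9; linarith) 3
      have e3 : (9 : ℝ) ≤ (2.7 : ℝ) ^ 3 := by norm_num
      linarith
    have h6 : (1 : ℝ) ≤ Real.exp (2 / 5 * (δ * ℓ)) := Real.one_le_exp (by positivity)
    have h7 : Real.exp (2 / 5 * (δ * ℓ)) * 9 ≤ Real.exp (2 / 5 * (δ * ℓ)) * Real.exp (3 / 5 * (δ * ℓ)) :=
      mul_le_mul_of_nonneg_left h5 (by positivity)
    linarith
  have hY1 : 1 ≤ ⌊Real.exp (δ * ℓ)⌋₊ := by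
    apply Nat.le_floor
    rw [Nat.cast_one]
    exact Real.one_le_exp (by positivity)
  have horth : ∀ M N : ℕ, M ≤ N → ∀ i ∈ I', ∀ j ∈ I', i ≠ j →
      ‖∑ n ∈ Ioc M N, i.2 (n : ℕ) * conj (j.2 (n : ℕ))‖ ≤ q0 := by
    intro M N hMN i hi j hj hij
    rw [hI', Finset.mem_sigma] at hi hj
    obtain ⟨a1, a2, a3⟩ := hD i.1 hi.1
    obtain ⟨b1, b2, b3⟩ := hD j.1 hj.1
    refine (quasi_orth W i.1 j.1 (Nat.mul_pos hW1 a1) (Nat.mul_pos hW1 b1) a3 b3 i.2 j.2 hi.2 hj.2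
      hij M N hMN).trans ?_
    rw [hq0]
    apply mul_le_mul_of_nonneg_left _ (by norm_num)
    exact mul_le_mul a2 b2 (Nat.cast_nonneg _) hE10.le
  obtain ⟨x1, x2, x3, x4⟩ := x0_facts ℓ hℓ
  have hmain := typeII_familyB I' (fun i => W * i.1) (fun i => i.2) q0 (by positivity)
    ⌊Real.exp (δ * ℓ)⌋₊ hY1 hY horth ℓ (by linarith) (vH δ ℓ)
    (vH_nonneg _ _ hδℓ0) (vH_le_one _ _ hδℓ0) (vH_eq_one _ _ hδℓ0) T u hT hu
    (by
      intro i hi t ht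
      rw [hI', Finset.mem_sigma] at hi
      exact hsmall i.1 hi.1 i.2 hi.2 t ht)
    (Real.exp ℓ / 3) (by positivity) ⌊Real.exp ℓ⌋₊ x1 B hB1
  rw [hI', Finset.sum_sigma] at hmain
  refine hmain.trans ?_
  apply mul_le_mul_of_nonneg_right _ (by positivity)
  linarith

lemma tent_scale (x0 a b : ℝ) (hx0 : 0 < x0) (ha : 0 < a) (hb : 0 < b) :
    tent x0 (a * b) = tent (x0 / a) b := by
  rw [tent_eq x0 (a * b) hx0 (by positivity), tent_eq (x0 / a) b (by positivity) hb,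
    Real.log_mul ha.ne' hb.ne', Real.log_div hx0.ne' ha.ne']
  congr 3
  ring

lemma conv_tent (g f : ArithmeticFunction ℂ) (N : ℕ) (x0 : ℝ) :
    ∑ n ∈ Ioc 0 N, (g * f) n * ((tent x0 n : ℝ) : ℂ) =
      ∑ a ∈ Ioc 0 N, g a * ∑ b ∈ Ioc 0 (N / a), f b * ((tent x0 ((a * b : ℕ) : ℝ) : ℝ) : ℂ) := by
  simp_rw [ArithmeticFunction.mul_apply, Finset.sum_mul, Finset.mul_sum]
  rw [Finset.sum_sigma', Finset.sum_sigma']
  apply Finset.sum_bij' (fun (p : (_ : ℕ) × (ℕ × ℕ)) _ => (⟨p.2.1, p.2.2⟩ : (_ : ℕ) × ℕ))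
    (fun (p : (_ : ℕ) × ℕ) _ => (⟨p.1 * p.2, (p.1, p.2)⟩ : (_ : ℕ) × (ℕ × ℕ)))
  · rintro ⟨n, a, b⟩ h
    simp only [Finset.mem_sigma, Finset.mem_Ioc, Nat.mem_divisorsAntidiagonal] at h ⊢
    obtain ⟨⟨hn1, hn2⟩, hab, _⟩ := h
    have ha : 0 < a := Nat.pos_of_ne_zero (by rintro rfl; simp at hab; omega)
    have hb : 0 < b := Nat.pos_of_ne_zero (by rintro rfl; simp at hab; omega)
    refine ⟨⟨ha, ?_⟩, hb, ?_⟩
    · have h5 : a * 1 ≤ a * b := Nat.mul_le_mul_left a (by omega)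
      omega
    · rw [Nat.le_div_iff_mul_le ha, mul_comm]; omega
  · rintro ⟨a, b⟩ h
    simp only [Finset.mem_sigma, Finset.mem_Ioc, Nat.mem_divisorsAntidiagonal] at h ⊢
    obtain ⟨⟨ha, _⟩, hb, hb2⟩ := h
    have h5 := (Nat.le_div_iff_mul_le ha).mp hb2
    have h6 : 0 < a * b := Nat.mul_pos ha hb
    refine ⟨⟨h6, by rw [mul_comm]; exact h5⟩, ?_, by omega⟩
    trivial
  · rintro ⟨n, a, b⟩ h
    simp only [Finset.mem_sigma, Finset.mem_Ioc, Nat.mem_divisorsAntidiagonal] at h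
    obtain ⟨_, hab, _⟩ := h
    subst hab
    rfl
  · rintro ⟨a, b⟩ h; rfl
  · rintro ⟨n, a, b⟩ h
    simp only [Finset.mem_sigma, Finset.mem_Ioc, Nat.mem_divisorsAntidiagonal] at h
    obtain ⟨_, hab, _⟩ := h
    subst hab
    ring

lemma sum_inv_le_log (K : ℕ) (hK : 1 ≤ K) : ∑ a ∈ Ioc 0 K, 1 / (a : ℝ) ≤ 1 + Real.log K := by
  have h := harmonic_le_one_add_log K
  have e : (harmonic K : ℝ) = ∑ a ∈ Ioc 0 K, 1 / (a : ℝ) := by
    rw [harmonic_eq_sum_Icc]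
    push_cast
    rw [Icc_one_eq_Ioc]
    apply Finset.sum_congr rfl
    intro a _
    rw [one_div]
  rw [e] at h
  exact h

/-- Type I part for one character with a bounded factor -/
lemma typeI_B {q : ℕ} (ξ : DirichletCharacter ℂ q) (q0 : ℝ) (hq0 : 0 ≤ q0)
    (hPS : ∀ n : ℕ, ‖∑ k ∈ Ioc 0 n, ξ (k : ℕ)‖ ≤ q0) (v : ℕ → ℝ) (D : ℕ) (hD : 1 ≤ D)
    (hv0 : ∀ n, 0 ≤ v n) (hv1 : ∀ n, v n ≤ 1) (hvD : ∀ n, D < n → v n = 0)
    (N : ℕ) (hN : 1 ≤ N) (x0 : ℝ) (hx0 : 0 < x0) (B : ArithmeticFunction ℂ) (hB1 : ∀ n, ‖B n‖ ≤ 1)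
    (K1 : ℕ) (hK1 : 1 ≤ K1) (hK1N : (K1 : ℝ) ≤ (N : ℝ) ^ (3 / 4 : ℝ)) (hBK : ∀ n, K1 < n → B n = 0) :
    ‖∑ n ∈ Finset.Icc 1 N, (ξ (n : ℕ) * (B * T1 v) n) * ((tent x0 n : ℝ) : ℂ)‖ ≤
      77 * q0 * (D : ℝ) ^ 3 * (1 + Real.log N) ^ 4 * (N : ℝ) ^ (15 / 16 : ℝ) := by
  have hN1 : (1 : ℝ) ≤ N := by exact_mod_cast hN
  have hN0 : (0 : ℝ) < N := by linarith
  have hlN : 0 ≤ Real.log (N : ℝ) := Real.log_natCast_nonneg N
  have hK1leN : K1 ≤ N := by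
    have h1 : (N : ℝ) ^ (3 / 4 : ℝ) ≤ (N : ℝ) ^ (1 : ℝ) :=
      Real.rpow_le_rpow_of_exponent_le hN1 (by norm_num)
    rw [Real.rpow_one] at h1
    exact_mod_cast hK1N.trans h1
  set X : ℝ := 77 * q0 * (D : ℝ) ^ 3 * (1 + Real.log N) ^ 3 with hX
  have hX0 : 0 ≤ X := by positivity
  have e0 : ∑ n ∈ Finset.Icc 1 N, (ξ (n : ℕ) * (B * T1 v) n) * ((tent x0 n : ℝ) : ℂ) =
      ∑ a ∈ Ioc 0 N, twc ξ B a * ∑ b ∈ Ioc 0 (N / a), twc ξ (T1 v) b *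
        ((tent x0 ((a * b : ℕ) : ℝ) : ℝ) : ℂ) := by
    rw [← conv_tent, Icc_one_eq_Ioc]
    apply Finset.sum_congr rfl
    intro n _
    rw [← twc_mul, twc_apply]
  rw [e0]
  refine (norm_sum_le _ _).trans ?_
  have hpt : ∀ a ∈ Ioc 0 N, ‖twc ξ B a * ∑ b ∈ Ioc 0 (N / a), twc ξ (T1 v) b *
        ((tent x0 ((a * b : ℕ) : ℝ) : ℝ) : ℂ)‖ ≤
      if a ≤ K1 then X * ((N : ℝ) ^ (15 / 16 : ℝ) * (1 / a)) else 0 := by
    intro a ha
    rw [Finset.mem_Ioc] at ha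
    have ha0 : (0 : ℝ) < a := by exact_mod_cast ha.1
    by_cases haK : a ≤ K1
    · rw [if_pos haK, norm_mul]
      have h1 : ‖twc ξ B a‖ ≤ 1 := by
        rw [twc_apply, norm_mul]
        exact mul_le_one₀ (DirichletCharacter.norm_le_one _ _) (norm_nonneg _) (hB1 a)
      have hNa : 1 ≤ N / a := by rw [Nat.le_div_iff_mul_le ha.1]; omega
      have h2 : ∑ b ∈ Ioc 0 (N / a), twc ξ (T1 v) b * ((tent x0 ((a * b : ℕ) : ℝ) : ℝ) : ℂ) =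
          ∑ b ∈ Ioc 0 (N / a), (ξ (b : ℕ) * T1 v b) * ((tent (x0 / a) b : ℝ) : ℂ) := by
        apply Finset.sum_congr rfl
        intro b hb
        rw [Finset.mem_Ioc] at hb
        have hb0 : (0 : ℝ) < b := by exact_mod_cast hb.1
        rw [twc_apply]
        push_cast
        rw [tent_scale x0 a b hx0 ha0 hb0]
      have h3 := typeI_bound ξ q0 hq0 hPS v D hD hv0 hv1 hvD (N / a) hNa (x0 / a) (by positivity)
      rw [← h2] at h3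
      have hy : ((N / a : ℕ) : ℝ) ≤ (N : ℝ) / a := Nat.cast_div_le
      have hNapos : (0 : ℝ) < ((N / a : ℕ) : ℝ) := by exact_mod_cast hNa
      have h4 : Real.log ((N / a : ℕ) : ℝ) ≤ Real.log N := by
        apply Real.log_le_log hNapos
        exact_mod_cast Nat.div_le_self N a
      have h4' : 0 ≤ Real.log ((N / a : ℕ) : ℝ) := Real.log_natCast_nonneg _
      have h5 : ((N / a : ℕ) : ℝ) ^ (3 / 4 : ℝ) ≤ (N : ℝ) ^ (15 / 16 : ℝ) * (1 / a) := by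
        have h6 : ((N / a : ℕ) : ℝ) ^ (3 / 4 : ℝ) ≤ ((N : ℝ) / a) ^ (3 / 4 : ℝ) :=
          Real.rpow_le_rpow hNapos.le hy (by norm_num)
        refine h6.trans ?_
        have hya : (N : ℝ) ^ (1 / 4 : ℝ) ≤ (N : ℝ) / a := by
          rw [le_div_iff₀ ha0]
          have h7 : (a : ℝ) ≤ (N : ℝ) ^ (3 / 4 : ℝ) := le_trans (by exact_mod_cast haK) hK1N
          calc (N : ℝ) ^ (1 / 4 : ℝ) * a ≤ (N : ℝ) ^ (1 / 4 : ℝ) * (N : ℝ) ^ (3 / 4 : ℝ) :=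
                mul_le_mul_of_nonneg_left h7 (by positivity)
            _ = N := by rw [← Real.rpow_add hN0]; norm_num
        have hNa0 : (0 : ℝ) < (N : ℝ) / a := by positivity
        have h8 : ((N : ℝ) / a) ^ (3 / 4 : ℝ) = ((N : ℝ) / a) * ((N : ℝ) / a) ^ (-(1 / 4) : ℝ) := by
          nth_rewrite 2 [← Real.rpow_one ((N : ℝ) / a)]
          rw [← Real.rpow_add hNa0]; norm_num
        have h9 : ((N : ℝ) / a) ^ (-(1 / 4) : ℝ) ≤ ((N : ℝ) ^ (1 / 4 : ℝ)) ^ (-(1 / 4) : ℝ) :=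
          Real.rpow_le_rpow_of_nonpos (by positivity) hya (by norm_num)
        have h10 : ((N : ℝ) ^ (1 / 4 : ℝ)) ^ (-(1 / 4) : ℝ) = (N : ℝ) ^ (-(1 / 16) : ℝ) := by
          rw [← Real.rpow_mul hN0.le]; norm_num
        rw [h8]
        calc ((N : ℝ) / a) * ((N : ℝ) / a) ^ (-(1 / 4) : ℝ) ≤ ((N : ℝ) / a) * (N : ℝ) ^ (-(1 / 16) : ℝ) := by
              apply mul_le_mul_of_nonneg_left _ hNa0.le
              rw [← h10]; exact h9
          _ = (N : ℝ) ^ (1 : ℝ) * (N : ℝ) ^ (-(1 / 16) : ℝ) * (1 / a) := by rw [Real.rpow_one]; ring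
          _ = _ := by rw [← Real.rpow_add hN0]; norm_num
      calc ‖twc ξ B a‖ * ‖∑ b ∈ Ioc 0 (N / a), twc ξ (T1 v) b *
            ((tent x0 ((a * b : ℕ) : ℝ) : ℝ) : ℂ)‖ ≤
          1 * (77 * q0 * (D : ℝ) ^ 3 * (1 + Real.log ((N / a : ℕ) : ℝ)) ^ 3 *
            ((N / a : ℕ) : ℝ) ^ (3 / 4 : ℝ)) := mul_le_mul h1 h3 (norm_nonneg _) zero_le_one
        _ ≤ 1 * (X * ((N : ℝ) ^ (15 / 16 : ℝ) * (1 / a))) := by
            rw [one_mul, one_mul]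
            apply mul_le_mul _ h5 (by positivity) hX0
            rw [hX]
            apply mul_le_mul_of_nonneg_left _ (by positivity)
            exact pow_le_pow_left₀ (by linarith) (by linarith) 3
        _ = _ := one_mul _
    · rw [if_neg haK, twc_apply, hBK a (by omega), mul_zero, zero_mul, norm_zero]
  refine (Finset.sum_le_sum hpt).trans ?_
  rw [← Finset.sum_filter]
  have e1 : (Ioc 0 N).filter (fun a => a ≤ K1) = Ioc 0 K1 := by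
    ext a
    rw [Finset.mem_filter, Finset.mem_Ioc, Finset.mem_Ioc]
    omega
  rw [e1, ← Finset.mul_sum, ← Finset.mul_sum]
  have h1 := sum_inv_le_log K1 hK1
  have h2 : Real.log K1 ≤ Real.log N :=
    Real.log_le_log (by exact_mod_cast hK1) (by exact_mod_cast hK1leN)
  calc X * ((N : ℝ) ^ (15 / 16 : ℝ) * ∑ a ∈ Ioc 0 K1, 1 / (a : ℝ)) ≤
      X * ((N : ℝ) ^ (15 / 16 : ℝ) * (1 + Real.log N)) := by
        apply mul_le_mul_of_nonneg_left _ hX0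
        apply mul_le_mul_of_nonneg_left _ (by positivity)
        linarith
    _ = _ := by rw [hX]; ring

end Pool.Agent.H16
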