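import Pool.Agent.H16.USieve

/-!
Rankin's bound for integers whose prime factors are `≤ w` or divide `Q`.
-/

set_option autoImplicit false

open Finset Real

namespace Pool.Agent.H16

/-- the multiplicative function `n ^ (-σ)` -/
noncomputable def fPow (σ : ℝ) (hσ : σ ≠ 0) : ℕ →* ℝ where
  toFun n := (n : ℝ) ^ (-σ)
  map_one' := by simp
  map_mul' m n := by
    push_cast
    rw [Real.mul_rpow (Nat.cast_nonneg m) (Nat.cast_nonneg n)]

lemma fPow_apply (σ : ℝ) (hσ : σ ≠ 0) (n : ℕ) : fPow σ hσ n = (n : ℝ) ^ (-σ) := rfl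

lemma rpow_neg_lt_one {σ : ℝ} (hσ : 0 < σ) {p : ℕ} (hp : p.Prime) : (p : ℝ) ^ (-σ) < 1 := by
  have h1 : (1 : ℝ) < p := by exact_mod_cast hp.one_lt
  exact Real.rpow_lt_one_of_one_lt_of_neg h1 (by linarith)

theorem card_factored_le' (σ : ℝ) (hσ : 0 < σ) (S A : Finset ℕ) (t : ℕ) (hS : ∀ p ∈ S, p.Prime)
    (hA : ∀ m ∈ A, 1 ≤ m ∧ m ≤ t ∧ ∀ p, p.Prime → p ∣ m → p ∈ S) :
    (#A : ℝ) ≤ (t : ℝ) ^ σ * ∏ p ∈ S, (1 - (p : ℝ) ^ (-σ))⁻¹ := by
  have h1 := sum_le_euler (fPow σ hσ.ne') (fun n => by rw [fPow_apply]; positivity)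
    (fun p hp => by rw [fPow_apply]; exact rpow_neg_lt_one hσ hp) S A (by
      intro m hm
      obtain ⟨h1, _, h3⟩ := hA m hm
      rw [Nat.mem_factoredNumbers_iff_forall_le]
      refine ⟨by omega, fun p _ hp hpm => h3 p hp hpm⟩)
  simp only [fPow_apply] at h1
  have h2 : (#A : ℝ) ≤ (t : ℝ) ^ σ * ∑ m ∈ A, (m : ℝ) ^ (-σ) := by
    rw [Finset.mul_sum]
    calc (#A : ℝ) = ∑ m ∈ A, (1 : ℝ) := by simp
      _ ≤ ∑ m ∈ A, (t : ℝ) ^ σ * (m : ℝ) ^ (-σ) := by
          apply Finset.sum_le_sum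
          intro m hm
          obtain ⟨h1, h2, _⟩ := hA m hm
          have hm0 : (0 : ℝ) < m := by exact_mod_cast h1
          rw [Real.rpow_neg hm0.le, ← div_eq_mul_inv, le_div_iff₀ (by positivity), one_mul]
          exact Real.rpow_le_rpow hm0.le (by exact_mod_cast h2) hσ.le
  refine h2.trans ?_
  apply mul_le_mul_of_nonneg_left _ (by positivity)
  refine h1.trans (le_of_eq ?_)
  rw [Finset.filter_true_of_mem hS]

lemma inv_one_sub_le_exp {x : ℝ} (hx0 : 0 ≤ x) (hx1 : x ≤ 3 / 5) :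
    (1 - x)⁻¹ ≤ Real.exp (x + 2 * x ^ 2) := by
  have h1 : 0 < 1 - x := by linarith
  have hy : 0 ≤ x + 2 * x ^ 2 := by positivity
  have h2 := Real.quadratic_le_exp_of_nonneg hy
  have h3 : 1 ≤ (1 - x) * (1 + (x + 2 * x ^ 2) + (x + 2 * x ^ 2) ^ 2 / 2) := by
    have h5 : (x + 2 * x ^ 2) ^ 2 = x ^ 2 + 4 * x ^ 3 + 4 * x ^ 4 := by ring
    have h6 : (x + 2 * x ^ 2) ^ 2 / 2 ≥ x ^ 2 / 2 + 2 * x ^ 3 := by
      rw [h5]
      have : 0 ≤ x ^ 4 := by positivity
      linarith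
    have h7 : 1 ≤ (1 - x) * (1 + (x + 2 * x ^ 2) + (x ^ 2 / 2 + 2 * x ^ 3)) := by
      have e : (1 - x) * (1 + (x + 2 * x ^ 2) + (x ^ 2 / 2 + 2 * x ^ 3)) =
        1 + x ^ 2 * (3 / 2 - x / 2 - 2 * x ^ 2) := by ring
      rw [e]
      have : 0 ≤ 3 / 2 - x / 2 - 2 * x ^ 2 := by nlinarith
      have h8 : 0 ≤ x ^ 2 := by positivity
      nlinarith
    nlinarith
  rw [inv_eq_one_div, div_le_iff₀ h1]
  nlinarith

/-- Rankin bound. -/
theorem card_smB' : ∃ C : ℝ, 0 < C ∧ ∀ (t w Q : ℕ) (η : ℝ), 256 ≤ w → 0 < η → η ≤ 1 / 4 →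
    Q ≠ 0 → Q ≤ t ^ 3 → 1 ≤ t → (#(smB t w Q) : ℝ) ≤
      C * Real.log w * (t : ℝ) ^ (1 - η) *
        Real.exp (2 * (w : ℝ) ^ η + 3 * (Real.log t / Real.log w)) := by
  classical
  have hsummable : Summable (fun n : ℕ => (n : ℝ) ^ (-(3 / 2 : ℝ))) := by
    rw [Real.summable_nat_rpow]; norm_num
  set C2 : ℝ := ∑' n : ℕ, (n : ℝ) ^ (-(3 / 2 : ℝ)) with hC2
  have hC2nn : 0 ≤ C2 := tsum_nonneg (fun n => by positivity)
  refine ⟨Real.exp (10 + 2 * C2), Real.exp_pos _, ?_⟩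
  intro t w Q η hw hη0 hη1 hQ0 hQ ht
  have hw' : (256 : ℝ) ≤ w := by exact_mod_cast hw
  have hw0 : (0 : ℝ) < w := by linarith
  have hlogw : 0 < Real.log w := Real.log_pos (by linarith)
  have ht' : (1 : ℝ) ≤ t := by exact_mod_cast ht
  have ht0 : (0 : ℝ) < t := by linarith
  have hlogt : 0 ≤ Real.log t := Real.log_nonneg ht'
  set σ : ℝ := 1 - η with hσ
  have hσ0 : 0 < σ := by linarith
  set S1 := Nat.primesLE w with hS1
  set S2 := Q.primeFactors.filter (fun p => w < p) with hS2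
  have h := card_factored_le' σ hσ0 (S1 ∪ S2) (smB t w Q) t (by
    intro p hp
    rcases Finset.mem_union.mp hp with h | h
    · exact (Nat.mem_primesLE.mp h).2
    · exact (Nat.mem_primeFactors.mp (Finset.mem_filter.mp h).1).1) (by
    intro m hm
    unfold smB at hm
    rw [Finset.mem_filter, Finset.mem_range] at hm
    refine ⟨hm.2.1, hm.1.le, ?_⟩
    intro p hp hpm
    rw [Finset.mem_union]
    by_cases hpw : p ≤ w
    · left; rw [hS1, Nat.mem_primesLE]; exact ⟨hpw, hp⟩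
    · right
      rw [hS2, Finset.mem_filter, Nat.mem_primeFactors]
      rcases hm.2.2 p hp hpm with h | h
      · exact absurd h hpw
      · exact ⟨⟨hp, h, hQ0⟩, not_le.mp hpw⟩)
  have hdisj : Disjoint S1 S2 := by
    rw [Finset.disjoint_left]
    intro p hp hp'
    have h1 := (Nat.mem_primesLE.mp hp).1
    have h2 := (Finset.mem_filter.mp hp').2
    omega
  rw [Finset.prod_union hdisj] at h
  -- the part dividing Q
  have hS2b : ∏ p ∈ S2, (1 - (p : ℝ) ^ (-σ))⁻¹ ≤ Real.exp (3 * (Real.log t / Real.log w)) := by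
    have h1 : ∏ p ∈ S2, (1 - (p : ℝ) ^ (-σ))⁻¹ ≤ ∏ p ∈ S2, (2 : ℝ) := by
      apply Finset.prod_le_prod
      · intro p hp
        have hpp := (Nat.mem_primeFactors.mp (Finset.mem_filter.mp hp).1).1
        apply inv_nonneg.mpr
        linarith [rpow_neg_lt_one hσ0 hpp]
      · intro p hp
        have hpw : w < p := (Finset.mem_filter.mp hp).2
        have hpw' : (256 : ℝ) ≤ p := by
          have : (w : ℝ) < p := by exact_mod_cast hpw
          linarith
        have h2 : (p : ℝ) ^ (-σ) ≤ 1 / 2 := by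
          rw [Real.rpow_neg (by linarith), inv_eq_one_div]
          apply one_div_le_one_div_of_le (by norm_num)
          calc (2 : ℝ) ≤ (256 : ℝ) ^ (1 / 2 : ℝ) := by
                rw [← Real.sqrt_eq_rpow]; apply Real.le_sqrt_of_sq_le; norm_num
            _ ≤ (p : ℝ) ^ (1 / 2 : ℝ) := Real.rpow_le_rpow (by norm_num) hpw' (by norm_num)
            _ ≤ (p : ℝ) ^ σ := Real.rpow_le_rpow_of_exponent_le (by linarith) (by linarith)
        calc (1 - (p : ℝ) ^ (-σ))⁻¹ ≤ (1 / 2 : ℝ)⁻¹ := by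
              apply inv_anti₀ (by norm_num); linarith
          _ = 2 := by norm_num
    rw [Finset.prod_const] at h1
    refine h1.trans ?_
    have h2 : ∏ p ∈ S2, p ∣ Q := by
      calc ∏ p ∈ S2, p ∣ ∏ p ∈ Q.primeFactors, p :=
            Finset.prod_dvd_prod_of_subset _ _ _ (Finset.filter_subset _ _)
        _ ∣ Q := Nat.prod_primeFactors_dvd Q
    have h3 : w ^ #S2 ≤ ∏ p ∈ S2, p := by
      rw [← Finset.prod_const]
      apply Finset.prod_le_prod'
      intro p hp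
      exact (Finset.mem_filter.mp hp).2.le
    have h4 : w ^ #S2 ≤ t ^ 3 := h3.trans ((Nat.le_of_dvd (Nat.pos_of_ne_zero hQ0) h2).trans hQ)
    have h5 : (#S2 : ℝ) * Real.log w ≤ 3 * Real.log t := by
      have h6 : ((w : ℝ)) ^ #S2 ≤ (t : ℝ) ^ 3 := by exact_mod_cast h4
      have h7 := Real.log_le_log (by positivity) h6
      rw [Real.log_pow, Real.log_pow] at h7
      push_cast at h7
      exact h7
    have h6 : (#S2 : ℝ) ≤ 3 * (Real.log t / Real.log w) := by
      rw [mul_div_assoc', le_div_iff₀ hlogw]; exact h5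
    calc (2 : ℝ) ^ #S2 ≤ (Real.exp 1) ^ #S2 := by
          apply pow_le_pow_left₀ (by norm_num)
          have := Real.add_one_le_exp (1 : ℝ); linarith
      _ = Real.exp (#S2 : ℝ) := by rw [← Real.exp_nat_mul, mul_one]
      _ ≤ _ := Real.exp_le_exp.mpr h6
  -- the small primes
  have hS1b : ∏ p ∈ S1, (1 - (p : ℝ) ^ (-σ))⁻¹ ≤
      Real.exp (10 + 2 * C2) * Real.log w * Real.exp (2 * (w : ℝ) ^ η) := by
    have h1 : ∏ p ∈ S1, (1 - (p : ℝ) ^ (-σ))⁻¹ ≤
        ∏ p ∈ S1, Real.exp ((p : ℝ) ^ (-σ) + 2 * ((p : ℝ) ^ (-σ)) ^ 2) := by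
      apply Finset.prod_le_prod
      · intro p hp
        apply inv_nonneg.mpr
        linarith [rpow_neg_lt_one hσ0 (Nat.mem_primesLE.mp hp).2]
      · intro p hp
        have hpp := (Nat.mem_primesLE.mp hp).2
        apply inv_one_sub_le_exp (by positivity)
        have hp2 : (2 : ℝ) ≤ p := by exact_mod_cast hpp.two_le
        rw [Real.rpow_neg (by linarith), inv_eq_one_div]
        have h2 : (5 / 3 : ℝ) ≤ (p : ℝ) ^ σ := by
          calc (5 / 3 : ℝ) ≤ (2 : ℝ) ^ (3 / 4 : ℝ) := by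
                have h3 : ((5 / 3 : ℝ)) ^ 4 ≤ ((2 : ℝ) ^ (3 / 4 : ℝ)) ^ 4 := by
                  rw [← Real.rpow_natCast ((2 : ℝ) ^ (3 / 4 : ℝ)), ← Real.rpow_mul (by norm_num)]
                  norm_num
                exact le_of_pow_le_pow_left₀ (by norm_num) (by positivity) h3
            _ ≤ (p : ℝ) ^ (3 / 4 : ℝ) := Real.rpow_le_rpow (by norm_num) hp2 (by norm_num)
            _ ≤ (p : ℝ) ^ σ := Real.rpow_le_rpow_of_exponent_le (by linarith) (by linarith)
        calc 1 / (p : ℝ) ^ σ ≤ 1 / (5 / 3) := one_div_le_one_div_of_le (by norm_num) h2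
          _ = 3 / 5 := by norm_num
    rw [← Real.exp_sum, Finset.sum_add_distrib, ← Finset.mul_sum] at h1
    refine h1.trans ?_
    -- second sum
    have hsq : ∑ p ∈ S1, ((p : ℝ) ^ (-σ)) ^ 2 ≤ C2 := by
      calc ∑ p ∈ S1, ((p : ℝ) ^ (-σ)) ^ 2 ≤ ∑ p ∈ S1, (p : ℝ) ^ (-(3 / 2 : ℝ)) := by
            apply Finset.sum_le_sum
            intro p hp
            have hpp := (Nat.mem_primesLE.mp hp).2
            have hp1 : (1 : ℝ) ≤ p := by exact_mod_cast hpp.one_le
            rw [← Real.rpow_natCast, ← Real.rpow_mul (by linarith)]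
            apply Real.rpow_le_rpow_of_exponent_le hp1
            push_cast; linarith
        _ ≤ C2 := hsummable.sum_le_tsum _ (fun n _ => by positivity)
    -- first sum
    have hW1 : (1 : ℝ) ≤ (w : ℝ) ^ η := Real.one_le_rpow (by linarith) hη0.le
    have hfirst : ∑ p ∈ S1, (p : ℝ) ^ (-σ) ≤ ∑ p ∈ S1, (1 : ℝ) / p + 2 * (w : ℝ) ^ η := by
      have h2 : ∀ p ∈ S1, (p : ℝ) ^ (-σ) ≤ 1 / p +
          ((w : ℝ) ^ η / Real.log w) * (Real.log p / p) := by
        intro p hp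
        obtain ⟨hpw, hpp⟩ := Nat.mem_primesLE.mp hp
        have hp1 : (1 : ℝ) < p := by exact_mod_cast hpp.one_lt
        have hp0 : (0 : ℝ) < p := by linarith
        have hpw' : (p : ℝ) ≤ w := by exact_mod_cast hpw
        have hlogp : 0 < Real.log p := Real.log_pos hp1
        have e1 : (p : ℝ) ^ (-σ) = (p : ℝ) ^ η / p := by
          rw [hσ, show -(1 - η) = η - 1 by ring, Real.rpow_sub hp0, Real.rpow_one]
        set lam : ℝ := Real.log p / Real.log w with hlam
        have hlam0 : 0 ≤ lam := by positivity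
        have hlam1 : lam ≤ 1 := by
          rw [hlam, div_le_one hlogw]; exact Real.log_le_log hp0 hpw'
        have e2 : (p : ℝ) ^ η = ((w : ℝ) ^ η) ^ lam := by
          rw [← Real.rpow_mul hw0.le, Real.rpow_def_of_pos hp0, Real.rpow_def_of_pos hw0]
          congr 1
          rw [hlam]; field_simp
        have h3 : ((w : ℝ) ^ η) ^ lam ≤ 1 + lam * (w : ℝ) ^ η := by
          have h4 := rpow_one_add_le_one_add_mul_self (s := (w : ℝ) ^ η - 1) (p := lam)
            (by linarith) hlam0 hlam1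
          rw [show 1 + ((w : ℝ) ^ η - 1) = (w : ℝ) ^ η by ring] at h4
          nlinarith
        rw [e1, e2]
        calc ((w : ℝ) ^ η) ^ lam / p ≤ (1 + lam * (w : ℝ) ^ η) / p := by gcongr
          _ = _ := by rw [hlam]; field_simp
      have hmA := mA_le w (by omega)
      unfold mA at hmA
      calc ∑ p ∈ S1, (p : ℝ) ^ (-σ) ≤ ∑ p ∈ S1, (1 / (p : ℝ) +
            ((w : ℝ) ^ η / Real.log w) * (Real.log p / p)) := Finset.sum_le_sum h2
        _ = ∑ p ∈ S1, (1 : ℝ) / p + ((w : ℝ) ^ η / Real.log w) * ∑ p ∈ S1, Real.log p / p := by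
            rw [Finset.sum_add_distrib, Finset.mul_sum]
        _ ≤ ∑ p ∈ S1, (1 : ℝ) / p + ((w : ℝ) ^ η / Real.log w) * (Real.log w + Real.log 4) := by
            gcongr
        _ ≤ ∑ p ∈ S1, (1 : ℝ) / p + ((w : ℝ) ^ η / Real.log w) * (2 * Real.log w) := by
            have h5 : Real.log 4 ≤ Real.log w := Real.log_le_log (by norm_num) (by linarith)
            gcongr
            linarith
        _ = _ := by field_simp
    have hinv : ∑ p ∈ S1, (1 : ℝ) / p ≤ Real.log (Real.log w) + 10 := by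
      have h2 := sum_inv_primes_le 2 w le_rfl (by omega)
      have h3 : ∑ p ∈ S1, (1 : ℝ) / p ≤ 1 / 2 + ∑ p ∈ primesIoc 2 w, (1 : ℝ) / p := by
        have hsub : S1 ⊆ insert 2 (primesIoc 2 w) := by
          intro p hp
          obtain ⟨hpw, hpp⟩ := Nat.mem_primesLE.mp hp
          rw [Finset.mem_insert, mem_primesIoc]
          by_cases h2 : p = 2
          · left; exact h2
          · right
            have := hpp.two_le
            exact ⟨by omega, hpw, hpp⟩
        calc ∑ p ∈ S1, (1 : ℝ) / p ≤ ∑ p ∈ insert 2 (primesIoc 2 w), (1 : ℝ) / p :=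
              Finset.sum_le_sum_of_subset_of_nonneg hsub (fun p _ _ => by positivity)
          _ ≤ _ := by
              rw [Finset.sum_insert (by rw [mem_primesIoc]; omega)]
              push_cast
              exact le_rfl
      have hl2 : 0.69 ≤ Real.log 2 := by
        have := Real.log_two_gt_d9; linarith
      have h4 : Real.log (Real.log w / Real.log ((2 : ℕ) : ℝ)) ≤ Real.log (Real.log w) + 1 := by
        push_cast
        rw [Real.log_div hlogw.ne' (by linarith)]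
        have h5 : -1 ≤ Real.log (Real.log 2) := by
          rw [Real.le_log_iff_exp_le (by linarith)]
          have h6 : Real.exp (-1) ≤ 0.5 := by
            rw [Real.exp_neg]
            have h7 := Real.add_one_le_exp (1 : ℝ)
            calc (Real.exp 1)⁻¹ ≤ (2 : ℝ)⁻¹ := by apply inv_anti₀ (by norm_num); linarith
              _ = 0.5 := by norm_num
          linarith
        linarith
      have h5 : 5 / Real.log ((2 : ℕ) : ℝ) ≤ 8 := by
        push_cast
        rw [div_le_iff₀ (by linarith)]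
        linarith
      linarith
    have hexp : Real.exp (∑ p ∈ S1, (p : ℝ) ^ (-σ) + 2 * ∑ p ∈ S1, ((p : ℝ) ^ (-σ)) ^ 2) ≤
        Real.exp ((10 + 2 * C2) + Real.log (Real.log w) + 2 * (w : ℝ) ^ η) := by
      apply Real.exp_le_exp.mpr
      linarith
    refine hexp.trans (le_of_eq ?_)
    rw [Real.exp_add, Real.exp_add, Real.exp_log hlogw]
  have hS2nn : 0 ≤ ∏ p ∈ S2, (1 - (p : ℝ) ^ (-σ))⁻¹ := by
    apply Finset.prod_nonneg
    intro p hp
    have hpp := (Nat.mem_primeFactors.mp (Finset.mem_filter.mp hp).1).1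
    apply inv_nonneg.mpr
    linarith [rpow_neg_lt_one hσ0 hpp]
  calc (#(smB t w Q) : ℝ) ≤ (t : ℝ) ^ σ * ((∏ p ∈ S1, (1 - (p : ℝ) ^ (-σ))⁻¹) *
        ∏ p ∈ S2, (1 - (p : ℝ) ^ (-σ))⁻¹) := h
    _ ≤ (t : ℝ) ^ σ * ((Real.exp (10 + 2 * C2) * Real.log w * Real.exp (2 * (w : ℝ) ^ η)) *
        Real.exp (3 * (Real.log t / Real.log w))) := by
        apply mul_le_mul_of_nonneg_left _ (by positivity)
        apply mul_le_mul hS1b hS2b hS2nn (by positivity)
    _ = _ := by rw [Real.exp_add (2 * (w : ℝ) ^ η)]; ring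

end Pool.Agent.H16
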