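import Pool.Agent.H16.Ident2

/-!
Type I sums: elementary bounds through partial sums.
-/

set_option autoImplicit false

open Complex Finset Filter Topology
open scoped ComplexConjugate ArithmeticFunction.zeta ArithmeticFunction.Moebius
open ArithmeticFunction (vonMangoldt moebius)

namespace Pool.Agent.H16

/-- summation by parts -/
lemma abel_sum (f : ℕ → ℂ) (w : ℕ → ℝ) (M : ℕ) :
    ∑ n ∈ Ioc 0 M, f n * ((w n : ℝ) : ℂ) = (∑ n ∈ Ioc 0 M, f n) * ((w M : ℝ) : ℂ) -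
      ∑ n ∈ range M, (∑ k ∈ Ioc 0 n, f k) * ((w (n + 1) - w n : ℝ) : ℂ) := by
  induction M with
  | zero => simp
  | succ M ih =>
    rw [Finset.sum_Ioc_succ_top (Nat.zero_le M), ih, Finset.sum_range_succ,
      Finset.sum_Ioc_succ_top (Nat.zero_le M)]
    push_cast
    ring

lemma abel_bound (f : ℕ → ℂ) (w : ℕ → ℝ) (B C : ℝ) (hC : 0 ≤ C) (hB : 0 ≤ B) (M : ℕ)
    (hS : ∀ n ≤ M, ‖∑ k ∈ Ioc 0 n, f k‖ ≤ B)
    (hV : ∀ n, 1 ≤ n → n < M → |w (n + 1) - w n| ≤ C * (Real.log (n + 1 : ℕ) - Real.log n)) :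
    ‖∑ n ∈ Ioc 0 M, f n * ((w n : ℝ) : ℂ)‖ ≤ B * (|w M| + C * Real.log M) := by
  rw [abel_sum]
  refine (norm_sub_le _ _).trans ?_
  have h1 : ‖(∑ n ∈ Ioc 0 M, f n) * ((w M : ℝ) : ℂ)‖ ≤ B * |w M| := by
    rw [norm_mul, Complex.norm_real, Real.norm_eq_abs]
    exact mul_le_mul_of_nonneg_right (hS M le_rfl) (abs_nonneg _)
  have h2 : ‖∑ n ∈ range M, (∑ k ∈ Ioc 0 n, f k) * ((w (n + 1) - w n : ℝ) : ℂ)‖ ≤
      B * (C * Real.log M) := by
    refine (norm_sum_le _ _).trans ?_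
    have key : ∀ M' ≤ M, ∑ n ∈ range M', ‖(∑ k ∈ Ioc 0 n, f k) * ((w (n + 1) - w n : ℝ) : ℂ)‖ ≤
        B * (C * Real.log M') := by
      intro M'
      induction M' with
      | zero => intro _; simp
      | succ m ih =>
        intro hm
        rw [Finset.sum_range_succ]
        rcases Nat.eq_zero_or_pos m with rfl | hm0
        · simp
        have h3 := ih (by omega)
        have h4 : ‖(∑ k ∈ Ioc 0 m, f k) * ((w (m + 1) - w m : ℝ) : ℂ)‖ ≤
            B * (C * (Real.log (m + 1 : ℕ) - Real.log m)) := by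
          rw [norm_mul, Complex.norm_real, Real.norm_eq_abs]
          exact mul_le_mul (hS m (by omega)) (hV m hm0 (by omega)) (abs_nonneg _) hB
        calc _ ≤ B * (C * Real.log m) + B * (C * (Real.log (m + 1 : ℕ) - Real.log m)) :=
              add_le_add h3 h4
          _ = _ := by ring
    exact key M le_rfl
  calc _ ≤ B * |w M| + B * (C * Real.log M) := add_le_add h1 h2
    _ = _ := by ring

/-- absolutely convergent bound for Dirichlet convolution of finitely supported functions -/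
lemma sum_norm_mul_le (f g : ArithmeticFunction ℂ) (K1 K2 : ℝ) (hK1 : 0 ≤ K1) (N : ℕ)
    (h1 : ∑ n ∈ Ioc 0 N, ‖f n‖ ≤ K1) (h2 : ∀ M ≤ N, ∑ n ∈ Ioc 0 M, ‖g n‖ ≤ K2) (hK2 : 0 ≤ K2) :
    ∑ n ∈ Ioc 0 N, ‖(f * g) n‖ ≤ K1 * K2 := by
  let F : ArithmeticFunction ℝ := ⟨fun n => ‖f n‖, by simp⟩
  let G : ArithmeticFunction ℝ := ⟨fun n => ‖g n‖, by simp⟩
  have h3 : ∑ n ∈ Ioc 0 N, ‖(f * g) n‖ ≤ ∑ n ∈ Ioc 0 N, (F * G) n := by
    apply Finset.sum_le_sum
    intro n _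
    rw [ArithmeticFunction.mul_apply, ArithmeticFunction.mul_apply]
    refine (norm_sum_le _ _).trans (le_of_eq ?_)
    apply Finset.sum_congr rfl
    intro p _
    rw [norm_mul]
    rfl
  refine h3.trans ?_
  rw [ArithmeticFunction.sum_Ioc_mul_eq_sum_sum]
  calc ∑ n ∈ Ioc 0 N, F n * ∑ m ∈ Ioc 0 (N / n), G m ≤ ∑ n ∈ Ioc 0 N, F n * K2 := by
        apply Finset.sum_le_sum
        intro n _
        exact mul_le_mul_of_nonneg_left (h2 _ (Nat.div_le_self N n))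
          (norm_nonneg (f n))
    _ = (∑ n ∈ Ioc 0 N, ‖f n‖) * K2 := by rw [← Finset.sum_mul]; rfl
    _ ≤ K1 * K2 := mul_le_mul_of_nonneg_right h1 hK2

/-- hyperbola method step -/
lemma hyperbola_step (f g : ArithmeticFunction ℂ) (N : ℕ) (c K q0 θ : ℝ) (hc : 0 ≤ c) (hK : 0 ≤ K)
    (hq0 : 0 ≤ q0) (hθ0 : 0 ≤ θ) (hθ1 : θ ≤ 1)
    (hf : ∀ n ≤ N, ‖∑ k ∈ Ioc 0 n, f k‖ ≤ c * (n : ℝ) ^ θ)
    (hfK : ∀ n ≤ N, ∑ k ∈ Ioc 0 n, ‖f k‖ ≤ K * n)
    (hg : ∀ n, ‖∑ k ∈ Ioc 0 n, g k‖ ≤ q0) (hg1 : ∀ n, ‖g n‖ ≤ 1) (n : ℕ) (hn : n ≤ N) :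
    ‖∑ k ∈ Ioc 0 n, (f * g) k‖ ≤ (2 * c + q0 * K) * (n : ℝ) ^ ((1 + θ) / 2) := by
  rcases Nat.eq_zero_or_pos n with rfl | hn0
  · simp; positivity
  have hn1 : (1 : ℝ) ≤ n := by exact_mod_cast hn0
  have hnp : (0 : ℝ) < n := by linarith
  set U : ℕ := ⌊(n : ℝ) ^ ((1 + θ) / 2)⌋₊ with hU
  have hUle : (U : ℝ) ≤ (n : ℝ) ^ ((1 + θ) / 2) := Nat.floor_le (by positivity)
  have hUlt : (n : ℝ) ^ ((1 + θ) / 2) < U + 1 := Nat.lt_floor_add_one _
  have hUn : U ≤ n := by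
    have h1 : (n : ℝ) ^ ((1 + θ) / 2) ≤ (n : ℝ) ^ (1 : ℝ) :=
      Real.rpow_le_rpow_of_exponent_le hn1 (by linarith)
    rw [Real.rpow_one] at h1
    exact_mod_cast hUle.trans h1
  -- decomposition
  have hdec : ∑ k ∈ Ioc 0 n, (f * g) k = ∑ a ∈ Ioc 0 U, f a * ∑ b ∈ Ioc 0 (n / a), g b +
      ∑ b ∈ Ioc 0 n, g b * ∑ a ∈ Ioc U (n / b), f a := by
    rw [ArithmeticFunction.sum_Ioc_mul_eq_sum_sum]
    have h1 : Ioc 0 n = Ioc 0 U ∪ Ioc U n := by
      rw [Finset.Ioc_union_Ioc_eq_Ioc (Nat.zero_le _) hUn]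
    have hdisj : Disjoint (Ioc 0 U) (Ioc U n) := by
      rw [Finset.disjoint_left]
      intro x hx hx'
      rw [Finset.mem_Ioc] at hx hx'
      omega
    conv_lhs => rw [h1]
    rw [Finset.sum_union hdisj]
    congr 1
    simp_rw [Finset.mul_sum]
    rw [Finset.sum_sigma', Finset.sum_sigma']
    apply Finset.sum_bij' (fun p _ => (⟨p.2, p.1⟩ : (_ : ℕ) × ℕ)) (fun p _ => (⟨p.2, p.1⟩ : (_ : ℕ) × ℕ))
    · rintro ⟨a, b⟩ h
      simp only [Finset.mem_sigma, Finset.mem_Ioc] at h ⊢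
      have hb : a * b ≤ n := by
        have := (Nat.le_div_iff_mul_le (by omega : 0 < a)).mp h.2.2
        rw [mul_comm]; exact this
      refine ⟨⟨h.2.1, ?_⟩, h.1.1, ?_⟩
      · have h5 : 1 * b ≤ a * b := Nat.mul_le_mul_right b (by omega)
        omega
      · rw [Nat.le_div_iff_mul_le h.2.1]; exact hb
    · rintro ⟨b, a⟩ h
      simp only [Finset.mem_sigma, Finset.mem_Ioc] at h ⊢
      have hb : a * b ≤ n := (Nat.le_div_iff_mul_le (by omega : 0 < b)).mp h.2.2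
      refine ⟨⟨h.2.1, ?_⟩, h.1.1, ?_⟩
      · have h5 : a * 1 ≤ a * b := Nat.mul_le_mul_left a (by omega)
        omega
      · rw [Nat.le_div_iff_mul_le (by omega : 0 < a), mul_comm]; exact hb
    · intro p _; rfl
    · intro p _; rfl
    · rintro ⟨a, b⟩ _
      exact mul_comm _ _
  rw [hdec]
  refine (norm_add_le _ _).trans ?_
  have h1 : ‖∑ a ∈ Ioc 0 U, f a * ∑ b ∈ Ioc 0 (n / a), g b‖ ≤ q0 * K * (n : ℝ) ^ ((1 + θ) / 2) := by
    refine (norm_sum_le _ _).trans ?_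
    calc ∑ a ∈ Ioc 0 U, ‖f a * ∑ b ∈ Ioc 0 (n / a), g b‖ ≤ ∑ a ∈ Ioc 0 U, ‖f a‖ * q0 := by
          apply Finset.sum_le_sum
          intro a _
          rw [norm_mul]
          exact mul_le_mul_of_nonneg_left (hg _) (norm_nonneg _)
      _ = (∑ a ∈ Ioc 0 U, ‖f a‖) * q0 := by rw [Finset.sum_mul]
      _ ≤ (K * U) * q0 := mul_le_mul_of_nonneg_right (hfK U (by omega)) hq0
      _ ≤ (K * (n : ℝ) ^ ((1 + θ) / 2)) * q0 :=
          mul_le_mul_of_nonneg_right (mul_le_mul_of_nonneg_left hUle hK) hq0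
      _ = _ := by ring
  have h2 : ‖∑ b ∈ Ioc 0 n, g b * ∑ a ∈ Ioc U (n / b), f a‖ ≤ 2 * c * (n : ℝ) ^ ((1 + θ) / 2) := by
    have h3 : ∀ b ∈ Ioc 0 n, ‖g b * ∑ a ∈ Ioc U (n / b), f a‖ ≤
        if b ≤ n / (U + 1) then 2 * c * (n : ℝ) ^ θ else 0 := by
      intro b hb
      rw [Finset.mem_Ioc] at hb
      by_cases hbU : b ≤ n / (U + 1)
      · rw [if_pos hbU]
        have hbU' : b * (U + 1) ≤ n := (Nat.le_div_iff_mul_le (by omega)).mp hbU
        have hUb : U ≤ n / b := by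
          rw [Nat.le_div_iff_mul_le (by omega)]
          have : U * b ≤ b * (U + 1) := by nlinarith
          omega
        have e : ∑ a ∈ Ioc U (n / b), f a = ∑ a ∈ Ioc 0 (n / b), f a - ∑ a ∈ Ioc 0 U, f a := by
          rw [← Finset.Ioc_union_Ioc_eq_Ioc (Nat.zero_le U) hUb, Finset.sum_union]
          · ring
          · rw [Finset.disjoint_left]
            intro x hx hx'
            rw [Finset.mem_Ioc] at hx hx'
            omega
        rw [norm_mul, e]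
        have h4 : ‖∑ a ∈ Ioc 0 (n / b), f a‖ ≤ c * (n : ℝ) ^ θ := by
          refine (hf _ ((Nat.div_le_self n b).trans hn)).trans ?_
          apply mul_le_mul_of_nonneg_left _ hc
          apply Real.rpow_le_rpow (by positivity) _ hθ0
          exact_mod_cast Nat.div_le_self n b
        have h5 : ‖∑ a ∈ Ioc 0 U, f a‖ ≤ c * (n : ℝ) ^ θ := by
          refine (hf _ (hUn.trans hn)).trans ?_
          apply mul_le_mul_of_nonneg_left _ hc
          apply Real.rpow_le_rpow (by positivity) _ hθ0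
          exact_mod_cast hUn
        calc ‖g b‖ * ‖∑ a ∈ Ioc 0 (n / b), f a - ∑ a ∈ Ioc 0 U, f a‖ ≤
            1 * (c * (n : ℝ) ^ θ + c * (n : ℝ) ^ θ) := by
              apply mul_le_mul (hg1 b) _ (norm_nonneg _) zero_le_one
              exact (norm_sub_le _ _).trans (add_le_add h4 h5)
          _ = _ := by ring
      · rw [if_neg hbU]
        have : Ioc U (n / b) = ∅ := by
          rw [Finset.Ioc_eq_empty]
          intro h
          apply hbU
          rw [Nat.le_div_iff_mul_le (by omega)]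
          have h6 : (U + 1) * b ≤ n := (Nat.le_div_iff_mul_le (by omega)).mp h
          rw [mul_comm]; exact h6
        rw [this]; simp
    refine (norm_sum_le _ _).trans ((Finset.sum_le_sum h3).trans ?_)
    rw [← Finset.sum_filter, Finset.sum_const, nsmul_eq_mul]
    have hcard : (#{b ∈ Ioc 0 n | b ≤ n / (U + 1)} : ℝ) ≤ (n : ℝ) ^ ((1 - θ) / 2) := by
      have e1 : #{b ∈ Ioc 0 n | b ≤ n / (U + 1)} ≤ n / (U + 1) := by
        calc #{b ∈ Ioc 0 n | b ≤ n / (U + 1)} ≤ #(Ioc 0 (n / (U + 1))) := by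
              apply Finset.card_le_card
              intro b hb
              rw [Finset.mem_filter, Finset.mem_Ioc] at hb
              rw [Finset.mem_Ioc]
              exact ⟨hb.1.1, hb.2⟩
          _ = n / (U + 1) := by simp
      have e2 : ((n / (U + 1) : ℕ) : ℝ) ≤ (n : ℝ) / (U + 1) := by
        have := @Nat.cast_div_le ℝ _ _ _ n (U + 1)
        push_cast at this
        exact this
      have e3 : (n : ℝ) / (U + 1) ≤ (n : ℝ) / (n : ℝ) ^ ((1 + θ) / 2) :=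
        div_le_div_of_nonneg_left hnp.le (by positivity) hUlt.le
      have e4 : (n : ℝ) / (n : ℝ) ^ ((1 + θ) / 2) = (n : ℝ) ^ ((1 - θ) / 2) := by
        rw [div_eq_iff (by positivity), ← Real.rpow_add hnp]
        rw [show (1 - θ) / 2 + (1 + θ) / 2 = 1 by ring, Real.rpow_one]
      have e5 : (#{b ∈ Ioc 0 n | b ≤ n / (U + 1)} : ℝ) ≤ ((n / (U + 1) : ℕ) : ℝ) := by
        exact_mod_cast e1
      linarith
    calc (#{b ∈ Ioc 0 n | b ≤ n / (U + 1)} : ℝ) * (2 * c * (n : ℝ) ^ θ) ≤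
        (n : ℝ) ^ ((1 - θ) / 2) * (2 * c * (n : ℝ) ^ θ) :=
          mul_le_mul_of_nonneg_right hcard (by positivity)
      _ = 2 * c * ((n : ℝ) ^ ((1 - θ) / 2) * (n : ℝ) ^ θ) := by ring
      _ = 2 * c * (n : ℝ) ^ ((1 + θ) / 2) := by
          rw [← Real.rpow_add hnp]
          congr 2; ring
  calc _ ≤ q0 * K * (n : ℝ) ^ ((1 + θ) / 2) + 2 * c * (n : ℝ) ^ ((1 + θ) / 2) := add_le_add h1 h2
    _ = _ := by ring

end Pool.Agent.H16
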