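import Pool.Agent.H16.Kern

/-!
Smoothed sums of Dirichlet coefficients as integrals of the Dirichlet series.
-/

set_option autoImplicit false

open Complex Set MeasureTheory Filter Topology Asymptotics

namespace Pool.Agent.H16

lemma kfun_zero : kfun 0 = 0 := by simp [kfun]

lemma kfun_of_one_le {y : ℝ} (hy : 1 ≤ y) : kfun y = 0 := by
  unfold kfun
  rw [max_eq_left]
  have := Real.log_nonneg hy
  linarith

lemma re_add_mul_I (σ t : ℝ) : ((σ : ℂ) + t * I).re = σ := by simp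

lemma norm_inv_sq (σ t : ℝ) : ‖1 / ((σ : ℂ) + t * I) ^ 2‖ = 1 / (σ ^ 2 + t ^ 2) := by
  rw [norm_div, norm_one, norm_pow, norm_sq_add]

lemma norm_natCast_cpow_neg (n : ℕ) (hn : 0 < n) (s : ℂ) :
    ‖(n : ℂ) ^ (-s)‖ = (n : ℝ) ^ (-s.re) := by
  rw [Complex.norm_natCast_cpow_of_pos hn]; simp

/-- `∑ c(n) (log(X/n))_+` as an integral. -/
theorem ksum (c : ℕ → ℂ) (σ : ℝ) (hσ : 0 < σ) (hc : LSeriesSummable c σ) (X : ℝ) (hX : 0 < X)
    (N : ℕ) (hN : X ≤ N) :
    ∑ n ∈ Finset.Icc 1 N, c n * ((kfun (n / X) : ℝ) : ℂ) = (1 / (2 * Real.pi) : ℝ) *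
      ∫ t : ℝ, (X : ℂ) ^ ((σ : ℂ) + t * I) * LSeries c ((σ : ℂ) + t * I) *
        (1 / ((σ : ℂ) + t * I) ^ 2) := by
  have hX0 : (X : ℂ) ≠ 0 := by exact_mod_cast hX.ne'
  -- terms
  set F : ℕ → ℝ → ℂ := fun n t => LSeries.term c ((σ : ℂ) + t * I) n *
    ((X : ℂ) ^ ((σ : ℂ) + t * I) * (1 / ((σ : ℂ) + t * I) ^ 2)) with hF
  have hnormX : ∀ t : ℝ, ‖(X : ℂ) ^ ((σ : ℂ) + t * I)‖ = X ^ σ := by
    intro t
    rw [Complex.norm_cpow_eq_rpow_re_of_pos hX, re_add_mul_I]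
  have hnorm : ∀ n t, ‖F n t‖ = ‖LSeries.term c (σ : ℂ) n‖ * X ^ σ * (1 / (σ ^ 2 + t ^ 2)) := by
    intro n t
    simp only [hF]
    rw [norm_mul, norm_mul, hnormX, norm_inv_sq]
    have : ‖LSeries.term c ((σ : ℂ) + t * I) n‖ = ‖LSeries.term c (σ : ℂ) n‖ := by
      rw [LSeries.norm_term_eq, LSeries.norm_term_eq]
      simp
    rw [this]; ring
  have hK : Integrable (fun t : ℝ => 1 / (σ ^ 2 + t ^ 2)) := by
    have := (integrable_inv_sq σ hσ).norm
    simpa only [norm_inv_sq] using this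
  have hmeas : ∀ n, AEStronglyMeasurable (F n) volume := by
    intro n
    apply Continuous.aestronglyMeasurable
    simp only [hF]
    have h1 : Continuous (fun t : ℝ => LSeries.term c ((σ : ℂ) + t * I) n) := by
      rcases Nat.eq_zero_or_pos n with rfl | hn
      · simp only [LSeries.term_zero]; exact continuous_const
      · have : (fun t : ℝ => LSeries.term c ((σ : ℂ) + t * I) n) =
            fun t : ℝ => c n / (n : ℂ) ^ ((σ : ℂ) + t * I) := by
          ext t; rw [LSeries.term_of_ne_zero hn.ne']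
        rw [this]
        have hn0 : (n : ℂ) ≠ 0 := by exact_mod_cast hn.ne'
        apply Continuous.div continuous_const
        · exact Continuous.const_cpow (by fun_prop) (Or.inl hn0)
        · intro t; rw [Complex.cpow_ne_zero_iff]; exact Or.inl hn0
    apply h1.mul
    apply Continuous.mul
    · exact Continuous.const_cpow (by fun_prop) (Or.inl hX0)
    · apply Continuous.div continuous_const (by fun_prop)
      intro t
      apply pow_ne_zero
      intro h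
      have := congrArg Complex.re h
      rw [re_add_mul_I] at this
      simp at this
      linarith
  have hint : ∀ n, Integrable (F n) := by
    intro n
    refine (hK.const_mul (‖LSeries.term c (σ : ℂ) n‖ * X ^ σ)).mono' (hmeas n) ?_
    filter_upwards with t
    rw [hnorm]
  have hsum : Summable (fun n => ∫ t : ℝ, ‖F n t‖) := by
    simp_rw [hnorm]
    simp_rw [integral_const_mul]
    apply Summable.mul_right
    apply Summable.mul_right
    exact hc.norm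
  have hmain := hasSum_integral_of_summable_integral_norm hint hsum
  -- value of each integral
  have hval : ∀ n, ∫ t : ℝ, F n t = (2 * Real.pi : ℝ) * (c n * ((kfun (n / X) : ℝ) : ℂ)) := by
    intro n
    rcases Nat.eq_zero_or_pos n with rfl | hn
    · simp only [hF, LSeries.term_zero, zero_mul, integral_zero, Nat.cast_zero, zero_div, kfun_zero,
        Complex.ofReal_zero, mul_zero]
    · have hn0 : (0 : ℝ) < n := by exact_mod_cast hn
      have hnX : 0 < (n : ℝ) / X := by positivity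
      have hk := kern σ hσ ((n : ℝ) / X) hnX
      have e1 : ∀ t : ℝ, F n t = c n * ((((n : ℝ) / X : ℝ) : ℂ) ^ (-((σ : ℂ) + t * I)) *
          (1 / ((σ : ℂ) + t * I) ^ 2)) := by
        intro t
        simp only [hF]
        rw [LSeries.term_of_ne_zero hn.ne']
        have e2 : (((n : ℝ) / X : ℝ) : ℂ) ^ (-((σ : ℂ) + t * I)) =
            (X : ℂ) ^ ((σ : ℂ) + t * I) / (n : ℂ) ^ ((σ : ℂ) + t * I) := by
          rw [Complex.cpow_neg, Complex.ofReal_div,
            Complex.div_cpow_ofReal_nonneg hn0.le hX.le, inv_div, Complex.ofReal_natCast]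
        rw [e2]
        field_simp
      simp_rw [e1]
      rw [integral_const_mul, hk]
      generalize (∫ t : ℝ, (((n : ℝ) / X : ℝ) : ℂ) ^ (-((σ : ℂ) + t * I)) *
          (1 / ((σ : ℂ) + t * I) ^ 2)) = J
      have h2 : ((2 * Real.pi : ℝ) : ℂ) * ((1 / (2 * Real.pi) : ℝ) : ℂ) = 1 := by
        rw [← Complex.ofReal_mul]
        have hpi : Real.pi ≠ 0 := Real.pi_ne_zero
        have : (2 * Real.pi * (1 / (2 * Real.pi)) : ℝ) = 1 := by field_simp
        rw [this]; simp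
      calc c n * J = (((2 * Real.pi : ℝ) : ℂ) * ((1 / (2 * Real.pi) : ℝ) : ℂ)) * (c n * J) := by
            rw [h2, one_mul]
        _ = _ := by ring
  have htsum : ∀ t : ℝ, ∑' n, F n t = (X : ℂ) ^ ((σ : ℂ) + t * I) * LSeries c ((σ : ℂ) + t * I) *
        (1 / ((σ : ℂ) + t * I) ^ 2) := by
    intro t
    simp only [hF]
    rw [tsum_mul_right]
    unfold LSeries
    ring
  simp_rw [hval, htsum] at hmain
  have hfin : HasSum (fun n => ((2 * Real.pi : ℝ) : ℂ) * (c n * ((kfun (n / X) : ℝ) : ℂ)))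
      (∑ n ∈ Finset.Icc 1 N, ((2 * Real.pi : ℝ) : ℂ) * (c n * ((kfun (n / X) : ℝ) : ℂ))) := by
    apply hasSum_sum_of_ne_finset_zero
    intro n hn
    rw [Finset.mem_Icc, not_and_or] at hn
    have hz : kfun ((n : ℝ) / X) = 0 := by
      rcases hn with h | h
      · have : n = 0 := by omega
        rw [this]; simp [kfun_zero]
      · apply kfun_of_one_le
        rw [le_div_iff₀ hX, one_mul]
        have : (N : ℝ) ≤ n := by
          have : N ≤ n := by omega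
          exact_mod_cast this
        linarith
    rw [hz]; simp
  have huniq := hfin.unique hmain
  rw [← Finset.mul_sum] at huniq
  rw [← huniq, ← mul_assoc, ← Complex.ofReal_mul]
  have hpi : Real.pi ≠ 0 := Real.pi_ne_zero
  have : (1 / (2 * Real.pi) * (2 * Real.pi) : ℝ) = 1 := by field_simp
  rw [this]; simp

lemma exp_one_cpow' (s : ℂ) : (Complex.exp 1) ^ s = Complex.exp s := by
  rw [Complex.cpow_def_of_ne_zero (Complex.exp_ne_zero _),
    Complex.log_exp (by simp [Real.pi_pos]) (by simp [Real.pi_pos.le]), one_mul]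

/-- tent function in `log n` centred at `x0` -/
noncomputable def tent (x0 y : ℝ) : ℝ :=
  kfun (y / (Real.exp 1 * x0)) - 2 * kfun (y / x0) + kfun (y / (x0 / Real.exp 1))

/-- smoothed sum, integral representation -/
theorem tent_sum (c : ℕ → ℂ) (σ : ℝ) (hσ : 0 < σ) (hc : LSeriesSummable c σ) (x0 : ℝ)
    (hx0 : 0 < x0) (N : ℕ) (hN : Real.exp 1 * x0 ≤ N)
    (hcont : Continuous (fun t : ℝ => LSeries c ((σ : ℂ) + t * I)))
    (B : ℝ) (hB : ∀ t : ℝ, ‖LSeries c ((σ : ℂ) + t * I)‖ ≤ B) :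
    ∑ n ∈ Finset.Icc 1 N, c n * ((tent x0 n : ℝ) : ℂ) = (1 / (2 * Real.pi) : ℝ) *
      ∫ t : ℝ, (x0 : ℂ) ^ ((σ : ℂ) + t * I) * (Complex.exp ((σ : ℂ) + t * I) - 2 +
        Complex.exp (-((σ : ℂ) + t * I))) * LSeries c ((σ : ℂ) + t * I) *
        (1 / ((σ : ℂ) + t * I) ^ 2) := by
  have he1 : (1 : ℝ) ≤ Real.exp 1 := Real.one_le_exp (by norm_num)
  have he0 : (0 : ℝ) < Real.exp 1 := Real.exp_pos 1
  have h1 := ksum c σ hσ hc (Real.exp 1 * x0) (by positivity) N hN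
  have h2 := ksum c σ hσ hc x0 hx0 N (by nlinarith)
  have h3 := ksum c σ hσ hc (x0 / Real.exp 1) (by positivity) N (by
    have : x0 / Real.exp 1 ≤ x0 := div_le_self hx0.le he1
    nlinarith)
  have hL : ∑ n ∈ Finset.Icc 1 N, c n * ((tent x0 n : ℝ) : ℂ) =
      ∑ n ∈ Finset.Icc 1 N, c n * ((kfun (n / (Real.exp 1 * x0)) : ℝ) : ℂ) -
      2 * ∑ n ∈ Finset.Icc 1 N, c n * ((kfun (n / x0) : ℝ) : ℂ) +
      ∑ n ∈ Finset.Icc 1 N, c n * ((kfun (n / (x0 / Real.exp 1)) : ℝ) : ℂ) := by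
    rw [Finset.mul_sum, ← Finset.sum_sub_distrib, ← Finset.sum_add_distrib]
    apply Finset.sum_congr rfl; intro n _
    unfold tent
    push_cast
    ring
  -- integrability
  have hint : ∀ X : ℝ, 0 < X → Integrable (fun t : ℝ => (X : ℂ) ^ ((σ : ℂ) + t * I) *
      LSeries c ((σ : ℂ) + t * I) * (1 / ((σ : ℂ) + t * I) ^ 2)) := by
    intro X hX
    have hX0 : (X : ℂ) ≠ 0 := by exact_mod_cast hX.ne'
    have hK := (integrable_inv_sq σ hσ)
    have hbd : Continuous (fun t : ℝ => (X : ℂ) ^ ((σ : ℂ) + t * I) * LSeries c ((σ : ℂ) + t * I)) := by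
      apply Continuous.mul _ hcont
      exact Continuous.const_cpow (by fun_prop) (Or.inl hX0)
    refine hK.bdd_mul (c := X ^ σ * B) hbd.aestronglyMeasurable ?_
    filter_upwards with t
    rw [norm_mul, Complex.norm_cpow_eq_rpow_re_of_pos hX, re_add_mul_I]
    exact mul_le_mul_of_nonneg_left (hB t) (by positivity)
  have hA : ∫ t : ℝ, (x0 : ℂ) ^ ((σ : ℂ) + t * I) * (Complex.exp ((σ : ℂ) + t * I) - 2 +
        Complex.exp (-((σ : ℂ) + t * I))) * LSeries c ((σ : ℂ) + t * I) *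
        (1 / ((σ : ℂ) + t * I) ^ 2) =
      (∫ t : ℝ, ((Real.exp 1 * x0 : ℝ) : ℂ) ^ ((σ : ℂ) + t * I) *
        LSeries c ((σ : ℂ) + t * I) * (1 / ((σ : ℂ) + t * I) ^ 2)) -
      2 * (∫ t : ℝ, (x0 : ℂ) ^ ((σ : ℂ) + t * I) *
        LSeries c ((σ : ℂ) + t * I) * (1 / ((σ : ℂ) + t * I) ^ 2)) +
      ∫ t : ℝ, ((x0 / Real.exp 1 : ℝ) : ℂ) ^ ((σ : ℂ) + t * I) *
        LSeries c ((σ : ℂ) + t * I) * (1 / ((σ : ℂ) + t * I) ^ 2) := by
    have hi1 := hint (Real.exp 1 * x0) (by positivity)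
    have hi2 := (hint x0 hx0).const_mul 2
    have hi3 := hint (x0 / Real.exp 1) (by positivity)
    have hadd := integral_add (hi1.sub hi2) hi3
    have hsub := integral_sub hi1 hi2
    simp only [Pi.sub_apply] at hadd
    rw [← integral_const_mul, ← hsub, ← hadd]
    apply integral_congr_ae
    filter_upwards with t
    have e1 : ((Real.exp 1 * x0 : ℝ) : ℂ) ^ ((σ : ℂ) + t * I) =
        Complex.exp ((σ : ℂ) + t * I) * (x0 : ℂ) ^ ((σ : ℂ) + t * I) := by
      rw [Complex.ofReal_mul, Complex.mul_cpow_ofReal_nonneg he0.le hx0.le, Complex.ofReal_exp,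
        Complex.ofReal_one, exp_one_cpow']
    have e2 : ((x0 / Real.exp 1 : ℝ) : ℂ) ^ ((σ : ℂ) + t * I) =
        Complex.exp (-((σ : ℂ) + t * I)) * (x0 : ℂ) ^ ((σ : ℂ) + t * I) := by
      rw [Complex.ofReal_div, Complex.div_cpow_ofReal_nonneg hx0.le he0.le, Complex.ofReal_exp,
        Complex.ofReal_one, exp_one_cpow', Complex.exp_neg]
      ring
    rw [e1, e2]
    ring
  rw [hL, h1, h2, h3, hA]
  ring

/-- Family bound. -/
theorem tent_family {ι : Type*} (I' : Finset ι) (c : ι → ℕ → ℂ) (σ : ℝ) (hσ1 : 1 < σ) (hσ2 : σ ≤ 2)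
    (hc : ∀ i ∈ I', LSeriesSummable (c i) σ) (x0 : ℝ)
    (hx0 : 0 < x0) (N : ℕ) (hN : Real.exp 1 * x0 ≤ N)
    (hcont : ∀ i ∈ I', Continuous (fun t : ℝ => LSeries (c i) ((σ : ℂ) + t * I)))
    (B : ℝ) (hB : ∀ i ∈ I', ∀ t : ℝ, ‖LSeries (c i) ((σ : ℂ) + t * I)‖ ≤ B)
    (G : ℝ → ℝ) (hG : Integrable (fun t => G t * (1 + t ^ 2)⁻¹))
    (hGb : ∀ t : ℝ, ∑ i ∈ I', ‖LSeries (c i) ((σ : ℂ) + t * I)‖ ≤ G t) :
    ∑ i ∈ I', ‖∑ n ∈ Finset.Icc 1 N, c i n * ((tent x0 n : ℝ) : ℂ)‖ ≤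
      2 * x0 ^ σ * ∫ t : ℝ, G t * (1 + t ^ 2)⁻¹ := by
  have hσ0 : 0 < σ := by linarith
  have hpi : 3 < Real.pi := Real.pi_gt_three
  have hexpb : ∀ t : ℝ, ‖Complex.exp ((σ : ℂ) + t * I) - 2 + Complex.exp (-((σ : ℂ) + t * I))‖ ≤ 12 := by
    intro t
    have h1 : ‖Complex.exp ((σ : ℂ) + t * I)‖ ≤ 9 := by
      rw [Complex.norm_exp, re_add_mul_I]
      have h2 : Real.exp σ ≤ Real.exp 2 := Real.exp_le_exp.mpr hσ2
      have h3 : Real.exp 2 = (Real.exp 1) ^ 2 := by rw [← Real.exp_nat_mul]; norm_num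
      have h4 := Real.exp_one_lt_d9
      have h5 : (Real.exp 1) ^ 2 ≤ 3 ^ 2 := pow_le_pow_left₀ (Real.exp_pos _).le (by linarith) 2
      linarith
    have h2 : ‖Complex.exp (-((σ : ℂ) + t * I))‖ ≤ 1 := by
      rw [Complex.norm_exp, Complex.neg_re, re_add_mul_I]
      rw [Real.exp_le_one_iff]; linarith
    calc _ ≤ ‖Complex.exp ((σ : ℂ) + t * I) - 2‖ + ‖Complex.exp (-((σ : ℂ) + t * I))‖ := norm_add_le _ _
      _ ≤ (‖Complex.exp ((σ : ℂ) + t * I)‖ + ‖(2 : ℂ)‖) + ‖Complex.exp (-((σ : ℂ) + t * I))‖ := by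
          gcongr; exact norm_sub_le _ _
      _ ≤ (9 + 2) + 1 := by
          have : ‖(2 : ℂ)‖ = 2 := by simp
          rw [this]; gcongr
      _ = 12 := by norm_num
  have hterm : ∀ i ∈ I', ‖∑ n ∈ Finset.Icc 1 N, c i n * ((tent x0 n : ℝ) : ℂ)‖ ≤
      2 * x0 ^ σ * ∫ t : ℝ, ‖LSeries (c i) ((σ : ℂ) + t * I)‖ * (1 + t ^ 2)⁻¹ := by
    intro i hi
    rw [tent_sum (c i) σ hσ0 (hc i hi) x0 hx0 N hN (hcont i hi) B (hB i hi), norm_mul,
      Complex.norm_real, Real.norm_of_nonneg (by positivity)]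
    have hintn : Integrable (fun t : ℝ => ‖LSeries (c i) ((σ : ℂ) + t * I)‖ * (1 + t ^ 2)⁻¹) := by
      refine integrable_inv_one_add_sq.bdd_mul (c := B) (hcont i hi).norm.aestronglyMeasurable ?_
      filter_upwards with t
      rw [Real.norm_of_nonneg (norm_nonneg _)]
      exact hB i hi t
    have h1 : ‖∫ t : ℝ, (x0 : ℂ) ^ ((σ : ℂ) + t * I) * (Complex.exp ((σ : ℂ) + t * I) - 2 +
        Complex.exp (-((σ : ℂ) + t * I))) * LSeries (c i) ((σ : ℂ) + t * I) *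
        (1 / ((σ : ℂ) + t * I) ^ 2)‖ ≤
        ∫ t : ℝ, 12 * x0 ^ σ * (‖LSeries (c i) ((σ : ℂ) + t * I)‖ * (1 + t ^ 2)⁻¹) := by
      apply norm_integral_le_of_norm_le (hintn.const_mul _)
      filter_upwards with t
      rw [norm_mul, norm_mul, norm_mul, Complex.norm_cpow_eq_rpow_re_of_pos hx0, re_add_mul_I,
        norm_inv_sq]
      have h2 : 1 / (σ ^ 2 + t ^ 2) ≤ (1 + t ^ 2)⁻¹ := by
        rw [one_div]
        apply inv_anti₀ (by positivity)
        nlinarith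
      calc x0 ^ σ * ‖Complex.exp ((σ : ℂ) + t * I) - 2 + Complex.exp (-((σ : ℂ) + t * I))‖ *
            ‖LSeries (c i) ((σ : ℂ) + t * I)‖ * (1 / (σ ^ 2 + t ^ 2))
          ≤ x0 ^ σ * 12 * ‖LSeries (c i) ((σ : ℂ) + t * I)‖ * (1 + t ^ 2)⁻¹ := by
            gcongr
            exact hexpb t
        _ = _ := by ring
    rw [integral_const_mul] at h1
    have hnn : 0 ≤ ∫ t : ℝ, ‖LSeries (c i) ((σ : ℂ) + t * I)‖ * (1 + t ^ 2)⁻¹ :=
      integral_nonneg (fun t => by positivity)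
    calc 1 / (2 * Real.pi) * ‖∫ t : ℝ, (x0 : ℂ) ^ ((σ : ℂ) + t * I) * (Complex.exp ((σ : ℂ) + t * I) - 2 +
        Complex.exp (-((σ : ℂ) + t * I))) * LSeries (c i) ((σ : ℂ) + t * I) *
        (1 / ((σ : ℂ) + t * I) ^ 2)‖
        ≤ 1 / (2 * 3) * (12 * x0 ^ σ * ∫ t : ℝ, ‖LSeries (c i) ((σ : ℂ) + t * I)‖ * (1 + t ^ 2)⁻¹) := by
          gcongr
      _ = _ := by ring
  have hintn : ∀ i ∈ I', Integrable (fun t : ℝ => ‖LSeries (c i) ((σ : ℂ) + t * I)‖ * (1 + t ^ 2)⁻¹) := by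
    intro i hi
    refine integrable_inv_one_add_sq.bdd_mul (c := B) (hcont i hi).norm.aestronglyMeasurable ?_
    filter_upwards with t
    rw [Real.norm_of_nonneg (norm_nonneg _)]
    exact hB i hi t
  calc ∑ i ∈ I', ‖∑ n ∈ Finset.Icc 1 N, c i n * ((tent x0 n : ℝ) : ℂ)‖
      ≤ ∑ i ∈ I', 2 * x0 ^ σ * ∫ t : ℝ, ‖LSeries (c i) ((σ : ℂ) + t * I)‖ * (1 + t ^ 2)⁻¹ :=
        Finset.sum_le_sum hterm
    _ = 2 * x0 ^ σ * ∫ t : ℝ, ∑ i ∈ I', ‖LSeries (c i) ((σ : ℂ) + t * I)‖ * (1 + t ^ 2)⁻¹ := by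
        rw [← Finset.mul_sum, integral_finsetSum _ hintn]
    _ ≤ 2 * x0 ^ σ * ∫ t : ℝ, G t * (1 + t ^ 2)⁻¹ := by
        apply mul_le_mul_of_nonneg_left _ (by positivity)
        apply integral_mono (integrable_finsetSum _ hintn) hG
        intro t
        simp only
        rw [← Finset.sum_mul]
        apply mul_le_mul_of_nonneg_right (hGb t) (by positivity)

end Pool.Agent.H16
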