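import Pool.Agent.H16.BrunHooley

/-!
Weighted Brun-Hooley sieve: general weights `a n`, local indicators `c n p ∈ [0,1]`, density `g`,
remainders `RD`.
-/

set_option autoImplicit false

open Finset

namespace Pool.Agent.H16

section WS
variable {κ ι : Type*} [DecidableEq κ]

/-- weighted sum over the elements divisible by all `p ∈ D` -/
noncomputable def AD (S : Finset ι) (a : ι → ℝ) (c : ι → ℕ → ℝ) (D : Finset ℕ) : ℝ :=
  ∑ n ∈ S, a n * ∏ p ∈ D, c n p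

/-- remainder -/
noncomputable def RD (S : Finset ι) (a : ι → ℝ) (c : ι → ℕ → ℝ) (X : ℝ) (g : ℕ → ℝ)
    (D : Finset ℕ) : ℝ := AD S a c D - X * ∏ p ∈ D, g p

lemma prod_attach_biUnion (J : Finset κ) (P : κ → Finset ℕ)
    (hdisj : ∀ i ∈ J, ∀ j ∈ J, i ≠ j → Disjoint (P i) (P j))
    (F : ∀ j ∈ J, Finset ℕ) (hF : ∀ j (hj : j ∈ J), F j hj ⊆ P j) (h : ℕ → ℝ) :
    ∏ p ∈ J.attach.biUnion (fun j => F j.1 j.2), h p =
      ∏ j ∈ J.attach, ∏ p ∈ F j.1 j.2, h p := by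
  rw [Finset.prod_biUnion]
  intro i _ j _ hij
  exact Disjoint.mono (hF i.1 i.2) (hF j.1 j.2)
    (hdisj i.1 i.2 j.1 j.2 (fun h => hij (Subtype.ext h)))

lemma expandW (S : Finset ι) (a : ι → ℝ) (c : ι → ℕ → ℝ) (X : ℝ) (g : ℕ → ℝ)
    (J : Finset κ) (P : κ → Finset ℕ)
    (hdisj : ∀ i ∈ J, ∀ j ∈ J, i ≠ j → Disjoint (P i) (P j))
    (𝒟 : κ → Finset (Finset ℕ)) (h𝒟 : ∀ j ∈ J, ∀ d ∈ 𝒟 j, d ⊆ P j)
    (e : κ → Finset ℕ → ℝ) (he : ∀ j ∈ J, ∀ d ∈ 𝒟 j, |e j d| ≤ 1)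
    (𝒜 : Finset (Finset ℕ))
    (h𝒜 : ∀ F ∈ J.pi 𝒟, J.attach.biUnion (fun j => F j.1 j.2) ∈ 𝒜) :
    |(∑ n ∈ S, a n * ∏ j ∈ J, ∑ d ∈ 𝒟 j, e j d * ∏ p ∈ d, c n p)
      - X * ∏ j ∈ J, ∑ d ∈ 𝒟 j, e j d * ∏ p ∈ d, g p| ≤ ∑ D ∈ 𝒜, |RD S a c X g D| := by
  classical
  set U : (∀ j ∈ J, Finset ℕ) → Finset ℕ := fun F => J.attach.biUnion (fun j => F j.1 j.2)
    with hU
  have key : ∀ h : ℕ → ℝ, ∏ j ∈ J, ∑ d ∈ 𝒟 j, e j d * ∏ p ∈ d, h p =
      ∑ F ∈ J.pi 𝒟, (∏ j ∈ J.attach, e j.1 (F j.1 j.2)) * ∏ p ∈ U F, h p := by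
    intro h
    rw [Finset.prod_sum]
    apply Finset.sum_congr rfl
    intro F hF
    rw [Finset.prod_mul_distrib, hU]
    simp only
    rw [prod_attach_biUnion J P hdisj F]
    intro j hj
    exact h𝒟 j hj _ (Finset.mem_pi.mp hF j hj)
  have h1 : ∑ n ∈ S, a n * ∏ j ∈ J, ∑ d ∈ 𝒟 j, e j d * ∏ p ∈ d, c n p =
      ∑ F ∈ J.pi 𝒟, (∏ j ∈ J.attach, e j.1 (F j.1 j.2)) * AD S a c (U F) := by
    simp_rw [key]
    unfold AD
    simp_rw [Finset.mul_sum]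
    rw [Finset.sum_comm]
    apply Finset.sum_congr rfl
    intro F _
    apply Finset.sum_congr rfl
    intro n _
    ring
  rw [h1, key g, Finset.mul_sum, ← Finset.sum_sub_distrib]
  have h2 : ∑ F ∈ J.pi 𝒟, ((∏ j ∈ J.attach, e j.1 (F j.1 j.2)) * AD S a c (U F) -
      X * ((∏ j ∈ J.attach, e j.1 (F j.1 j.2)) * ∏ p ∈ U F, g p)) =
      ∑ F ∈ J.pi 𝒟, (∏ j ∈ J.attach, e j.1 (F j.1 j.2)) * RD S a c X g (U F) := by
    apply Finset.sum_congr rfl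
    intro F _
    unfold RD
    ring
  rw [h2]
  calc |∑ F ∈ J.pi 𝒟, (∏ j ∈ J.attach, e j.1 (F j.1 j.2)) * RD S a c X g (U F)|
      ≤ ∑ F ∈ J.pi 𝒟, |(∏ j ∈ J.attach, e j.1 (F j.1 j.2)) * RD S a c X g (U F)| :=
        Finset.abs_sum_le_sum_abs _ _
    _ ≤ ∑ F ∈ J.pi 𝒟, |RD S a c X g (U F)| := by
        apply Finset.sum_le_sum
        intro F hF
        rw [abs_mul]
        have : |∏ j ∈ J.attach, e j.1 (F j.1 j.2)| ≤ 1 := by
          rw [Finset.abs_prod]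
          apply Finset.prod_le_one
          · intro j _; exact abs_nonneg _
          · intro j _; exact he j.1 j.2 _ (Finset.mem_pi.mp hF j.1 j.2)
        calc |∏ j ∈ J.attach, e j.1 (F j.1 j.2)| * |RD S a c X g (U F)|
            ≤ 1 * |RD S a c X g (U F)| := mul_le_mul_of_nonneg_right this (abs_nonneg _)
          _ = _ := one_mul _
    _ = ∑ D ∈ (J.pi 𝒟).image U, |RD S a c X g D| := by
        rw [Finset.sum_image]
        intro F hF G hG hFG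
        have hF' := Finset.mem_pi.mp (Finset.mem_coe.mp hF)
        have hG' := Finset.mem_pi.mp (Finset.mem_coe.mp hG)
        have hrec : ∀ (H : ∀ j ∈ J, Finset ℕ) (hH : ∀ j (hj : j ∈ J), H j hj ∈ 𝒟 j) (j : κ)
            (hj : j ∈ J), (U H) ∩ P j = H j hj := by
          intro H hH j hj
          ext p
          rw [Finset.mem_inter, hU]
          simp only [Finset.mem_biUnion, Finset.mem_attach, true_and, Subtype.exists]
          constructor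
          · rintro ⟨⟨i, hi, hpi⟩, hpj⟩
            have hpi' := h𝒟 i hi _ (hH i hi) hpi
            have : i = j := by
              by_contra hne
              exact Finset.disjoint_left.mp (hdisj i hi j hj hne) hpi' hpj
            subst this
            exact hpi
          · intro hp
            exact ⟨⟨j, hj, hp⟩, h𝒟 j hj _ (hH j hj) hp⟩
        funext j hj
        rw [← hrec F hF' j hj, ← hrec G hG' j hj, hFG]
    _ ≤ ∑ D ∈ 𝒜, |RD S a c X g D| := by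
        apply Finset.sum_le_sum_of_subset_of_nonneg
        · intro D hD
          obtain ⟨F, hF, rfl⟩ := Finset.mem_image.mp hD
          exact h𝒜 F hF
        · intro D _ _
          exact abs_nonneg _

variable (S : Finset ι) (a : ι → ℝ) (c : ι → ℕ → ℝ) (X : ℝ) (g : ℕ → ℝ)
  (J : Finset κ) (P : κ → Finset ℕ) (b : κ → ℕ)
  (hb : ∀ j ∈ J, Even (b j))
  (hdisj : ∀ i ∈ J, ∀ j ∈ J, i ≠ j → Disjoint (P i) (P j))
  (ha : ∀ n ∈ S, 0 ≤ a n)
  (hc0 : ∀ n ∈ S, ∀ j ∈ J, ∀ p ∈ P j, 0 ≤ c n p)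
  (hc1 : ∀ n ∈ S, ∀ j ∈ J, ∀ p ∈ P j, c n p ≤ 1)
  (hX : 0 ≤ X)
  (hg0 : ∀ j ∈ J, ∀ p ∈ P j, 0 ≤ g p) (hg1 : ∀ j ∈ J, ∀ p ∈ P j, g p < 1)
  (𝒜 : Finset (Finset ℕ))
  (h𝒜 : ∀ F ∈ J.pi (fun j => low (P j) (b j)), J.attach.biUnion (fun j => F j.1 j.2) ∈ 𝒜)
  (h𝒜' : ∀ j0 ∈ J, ∀ F ∈ J.pi (fun j => if j = j0 then (P j).powersetCard (b j + 1)
    else low (P j) (b j)), J.attach.biUnion (fun j => F j.1 j.2) ∈ 𝒜)

include hb hdisj ha hc0 hc1 hX hg0 hg1 h𝒜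

omit hb ha hc0 hc1 hX hg0 hg1 in
lemma sumW_tr :
    |(∑ n ∈ S, a n * ∏ j ∈ J, tr (P j) (c n) (b j)) - X * ∏ j ∈ J, tr (P j) g (b j)|
      ≤ ∑ D ∈ 𝒜, |RD S a c X g D| := by
  have h := expandW S a c X g J P hdisj (fun j => low (P j) (b j))
    (fun j _ d hd => low_subset (P j) (b j) d hd) (fun _ d => (-1 : ℝ) ^ (#d))
    (fun j _ d _ => by rw [abs_pow, abs_neg, abs_one, one_pow]) 𝒜 h𝒜
  simp_rw [tr_eq_low]
  exact h

omit [DecidableEq κ] hdisj hX h𝒜 hg0 hg1 in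
lemma pointwiseW (n : ι) (hn : n ∈ S) (j : κ) (hj : j ∈ J) :
    0 ≤ ∏ p ∈ P j, (1 - c n p) ∧
    ∏ p ∈ P j, (1 - c n p) ≤ tr (P j) (c n) (b j) ∧
    tr (P j) (c n) (b j) - ∏ p ∈ P j, (1 - c n p) ≤ es (P j) (c n) (b j + 1) := by
  have h := bonf (P j) (c n) (fun p hp => hc0 n hn j hj p hp) (fun p hp => hc1 n hn j hj p hp)
    (b j)
  rw [even_sign (hb j hj), one_mul] at h
  refine ⟨?_, ?_, ?_⟩
  · exact Finset.prod_nonneg (fun p hp => by linarith [hc1 n hn j hj p hp])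
  · linarith [h.1]
  · exact h.2

/-- Weighted upper bound. -/
theorem upperW :
    ∑ n ∈ S, a n * ∏ j ∈ J, ∏ p ∈ P j, (1 - c n p) ≤
      X * ∏ j ∈ J, (∏ p ∈ P j, (1 - g p) + es (P j) g (b j + 1))
        + ∑ D ∈ 𝒜, |RD S a c X g D| := by
  have h := (abs_le.mp (sumW_tr S a c X g J P b hdisj 𝒜 h𝒜)).2
  have h1 : ∑ n ∈ S, a n * ∏ j ∈ J, ∏ p ∈ P j, (1 - c n p) ≤
      ∑ n ∈ S, a n * ∏ j ∈ J, tr (P j) (c n) (b j) := by
    apply Finset.sum_le_sum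
    intro n hn
    apply mul_le_mul_of_nonneg_left _ (ha n hn)
    apply Finset.prod_le_prod
    · intro j hj
      exact (pointwiseW S a c J P b hb ha hc0 hc1 n hn j hj).1
    · intro j hj
      exact (pointwiseW S a c J P b hb ha hc0 hc1 n hn j hj).2.1
  have hbon := fun j (hj : j ∈ J) => bonf (P j) g (hg0 j hj) (fun p hp => (hg1 j hj p hp).le) (b j)
  have h2 : ∏ j ∈ J, tr (P j) g (b j) ≤
      ∏ j ∈ J, (∏ p ∈ P j, (1 - g p) + es (P j) g (b j + 1)) := by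
    apply Finset.prod_le_prod
    · intro j hj
      have h1 := (hbon j hj).1
      rw [even_sign (hb j hj), one_mul] at h1
      have h2 : 0 ≤ ∏ p ∈ P j, (1 - g p) :=
        Finset.prod_nonneg (fun p hp => by linarith [hg1 j hj p hp])
      linarith
    · intro j hj
      have h1 := (hbon j hj).2
      rw [even_sign (hb j hj), one_mul] at h1
      linarith
  have := mul_le_mul_of_nonneg_left h2 hX
  linarith

include h𝒜'

omit hb ha hc0 hc1 hX hg0 hg1 h𝒜 in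
lemma sumW_es (j0 : κ) (hj0 : j0 ∈ J) :
    |(∑ n ∈ S, a n * (es (P j0) (c n) (b j0 + 1) * ∏ i ∈ J.erase j0, tr (P i) (c n) (b i)))
      - X * (es (P j0) g (b j0 + 1) * ∏ i ∈ J.erase j0, tr (P i) g (b i))|
      ≤ ∑ D ∈ 𝒜, |RD S a c X g D| := by
  have h := expandW S a c X g J P hdisj
    (fun j => if j = j0 then (P j).powersetCard (b j + 1) else low (P j) (b j))
    (fun j _ d hd => by
      split_ifs at hd
      · exact (Finset.mem_powersetCard.mp hd).1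
      · exact low_subset (P j) (b j) d hd)
    (fun j d => if j = j0 then 1 else (-1 : ℝ) ^ (#d))
    (fun j _ d _ => by
      split_ifs
      · rw [abs_one]
      · rw [abs_pow, abs_neg, abs_one, one_pow]) 𝒜 (h𝒜' j0 hj0)
  have key : ∀ q : ℕ → ℝ, ∏ j ∈ J, ∑ d ∈ (if j = j0 then (P j).powersetCard (b j + 1)
      else low (P j) (b j)), (if j = j0 then 1 else (-1 : ℝ) ^ (#d)) * ∏ p ∈ d, q p
      = es (P j0) q (b j0 + 1) * ∏ i ∈ J.erase j0, tr (P i) q (b i) := by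
    intro q
    rw [← Finset.mul_prod_erase J _ hj0]
    congr 1
    · simp only [if_true, one_mul]
      rfl
    · apply Finset.prod_congr rfl
      intro i hi
      rw [if_neg (Finset.ne_of_mem_erase hi), tr_eq_low]
      apply Finset.sum_congr rfl
      intro d _
      rw [if_neg (Finset.ne_of_mem_erase hi)]
  simp_rw [key] at h
  exact h

/-- Weighted lower bound. -/
theorem lowerW (hsum : ∑ j ∈ J, es (P j) g (b j + 1) / ∏ p ∈ P j, (1 - g p) ≤ 1) :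
    X * (∏ j ∈ J, ∏ p ∈ P j, (1 - g p)) *
      (1 - ∑ j ∈ J, es (P j) g (b j + 1) / ∏ p ∈ P j, (1 - g p))
      - (1 + (#J : ℝ)) * ∑ D ∈ 𝒜, |RD S a c X g D| ≤
      ∑ n ∈ S, a n * ∏ j ∈ J, ∏ p ∈ P j, (1 - c n p) := by
  set E := ∑ D ∈ 𝒜, |RD S a c X g D| with hE
  have h := (abs_le.mp (sumW_tr S a c X g J P b hdisj 𝒜 h𝒜)).1
  have hj := fun j hj => (abs_le.mp (sumW_es S a c X g J P b hdisj 𝒜 h𝒜' j hj)).2
  have h1 : ∑ n ∈ S, a n * (∏ j ∈ J, tr (P j) (c n) (b j)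
      - ∑ j ∈ J, es (P j) (c n) (b j + 1) * ∏ i ∈ J.erase j, tr (P i) (c n) (b i))
      ≤ ∑ n ∈ S, a n * ∏ j ∈ J, ∏ p ∈ P j, (1 - c n p) := by
    apply Finset.sum_le_sum
    intro n hn
    apply mul_le_mul_of_nonneg_left _ (ha n hn)
    have hh := prod_hybrid J (fun j => ∏ p ∈ P j, (1 - c n p))
      (fun j => tr (P j) (c n) (b j))
      (fun j hj => (pointwiseW S a c J P b hb ha hc0 hc1 n hn j hj).1)
      (fun j hj => (pointwiseW S a c J P b hb ha hc0 hc1 n hn j hj).2.1)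
    have hh2 : ∑ j ∈ J, (tr (P j) (c n) (b j) - ∏ p ∈ P j, (1 - c n p)) *
          ∏ i ∈ J.erase j, tr (P i) (c n) (b i)
        ≤ ∑ j ∈ J, es (P j) (c n) (b j + 1) *
          ∏ i ∈ J.erase j, tr (P i) (c n) (b i) := by
      apply Finset.sum_le_sum
      intro j hj
      apply mul_le_mul_of_nonneg_right (pointwiseW S a c J P b hb ha hc0 hc1 n hn j hj).2.2
      apply Finset.prod_nonneg
      intro i hi
      have hp := pointwiseW S a c J P b hb ha hc0 hc1 n hn i (Finset.mem_of_mem_erase hi)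
      exact hp.1.trans hp.2.1
    linarith
  have h1' : ∑ n ∈ S, a n * (∏ j ∈ J, tr (P j) (c n) (b j)
      - ∑ j ∈ J, es (P j) (c n) (b j + 1) * ∏ i ∈ J.erase j, tr (P i) (c n) (b i))
      = ∑ n ∈ S, a n * ∏ j ∈ J, tr (P j) (c n) (b j) -
        ∑ j ∈ J, ∑ n ∈ S, a n * (es (P j) (c n) (b j + 1) *
          ∏ i ∈ J.erase j, tr (P i) (c n) (b i)) := by
    rw [Finset.sum_comm, ← Finset.sum_sub_distrib]
    apply Finset.sum_congr rfl
    intro n _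
    rw [mul_sub, Finset.mul_sum]
  rw [h1'] at h1
  have h2 : ∑ j ∈ J, ∑ n ∈ S, a n * (es (P j) (c n) (b j + 1) *
        ∏ i ∈ J.erase j, tr (P i) (c n) (b i))
      ≤ ∑ j ∈ J, (X * (es (P j) g (b j + 1) * ∏ i ∈ J.erase j, tr (P i) g (b i)) + E) := by
    apply Finset.sum_le_sum
    intro j hj'
    linarith [hj j hj']
  rw [Finset.sum_add_distrib, ← Finset.mul_sum, Finset.sum_const, nsmul_eq_mul] at h2
  -- algebra for `g`
  have hV : ∀ j ∈ J, 0 < ∏ p ∈ P j, (1 - g p) := fun j hj =>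
    Finset.prod_pos (fun p hp => by linarith [hg1 j hj p hp])
  have hG : ∀ j ∈ J, ∏ p ∈ P j, (1 - g p) ≤ tr (P j) g (b j) := by
    intro j hj
    have := (bonf (P j) g (hg0 j hj) (fun p hp => (hg1 j hj p hp).le) (b j)).1
    rw [even_sign (hb j hj), one_mul] at this
    linarith
  have hGpos : ∀ j ∈ J, 0 < tr (P j) g (b j) := fun j hj => (hV j hj).trans_le (hG j hj)
  have hH : ∀ j ∈ J, 0 ≤ es (P j) g (b j + 1) := fun j hj => es_nonneg _ _ (hg0 j hj) _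
  have h3 : ∑ j ∈ J, es (P j) g (b j + 1) * ∏ i ∈ J.erase j, tr (P i) g (b i)
      ≤ (∏ j ∈ J, tr (P j) g (b j)) * ∑ j ∈ J, es (P j) g (b j + 1) / ∏ p ∈ P j, (1 - g p) := by
    rw [Finset.mul_sum]
    apply Finset.sum_le_sum
    intro j hj
    rw [← Finset.mul_prod_erase J _ hj]
    have h2 : 0 ≤ ∏ i ∈ J.erase j, tr (P i) g (b i) :=
      Finset.prod_nonneg (fun i hi => (hGpos i (Finset.mem_of_mem_erase hi)).le)
    have h3 : es (P j) g (b j + 1) ≤ tr (P j) g (b j) *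
        (es (P j) g (b j + 1) / ∏ p ∈ P j, (1 - g p)) := by
      rw [mul_div_assoc', le_div_iff₀ (hV j hj), mul_comm]
      exact mul_le_mul_of_nonneg_right (hG j hj) (hH j hj)
    calc es (P j) g (b j + 1) * ∏ i ∈ J.erase j, tr (P i) g (b i)
        ≤ (tr (P j) g (b j) * (es (P j) g (b j + 1) / ∏ p ∈ P j, (1 - g p))) *
          ∏ i ∈ J.erase j, tr (P i) g (b i) := mul_le_mul_of_nonneg_right h3 h2
      _ = _ := by ring
  have h4 : ∏ j ∈ J, ∏ p ∈ P j, (1 - g p) ≤ ∏ j ∈ J, tr (P j) g (b j) :=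
    Finset.prod_le_prod (fun j hj => (hV j hj).le) hG
  have h5 : (∏ j ∈ J, ∏ p ∈ P j, (1 - g p)) *
      (1 - ∑ j ∈ J, es (P j) g (b j + 1) / ∏ p ∈ P j, (1 - g p))
      ≤ ∏ j ∈ J, tr (P j) g (b j)
      - ∑ j ∈ J, es (P j) g (b j + 1) * ∏ i ∈ J.erase j, tr (P i) g (b i) := by
    have h6 : 0 ≤ 1 - ∑ j ∈ J, es (P j) g (b j + 1) / ∏ p ∈ P j, (1 - g p) := by
      linarith [hsum]
    nlinarith [mul_le_mul_of_nonneg_right h4 h6]
  have h7 := mul_le_mul_of_nonneg_left h5 hX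
  rw [mul_assoc]
  linarith

end WS

end Pool.Agent.H16
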